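import Pool.Agent.EscG.ADefs
import Pool.Agent.EscF.C2

/-!
Project EscG, module A1: kernels of continuous Lagrangians bounded below (helper61).
-/

noncomputable section

namespace EscG

open MeasureTheory Set Filter Topology Esc EscF
open scoped ContDiff

variable {E : Type*} [NormedAddCommGroup E] [InnerProductSpace ℝ E] [FiniteDimensional ℝ E]
  {l l' : E → E → ℝ → ℝ} {M : ℝ}

theorem CB.ii (hl : CB M l) {u : ℝ → E} (hu : Adm u) (a : ℝ) (z : E) (c d : ℝ) :
    IntervalIntegrable (fun t => l (traj a z u t) (u t) t) volume c d := by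
  have hc := traj_cont hu a z
  obtain ⟨hm, C, hC⟩ := hu
  have hK : IsCompact ((traj a z u '' uIcc c d) ×ˢ (Metric.closedBall (0 : E) C) ×ˢ uIcc c d) :=
    (isCompact_uIcc.image hc).prod ((isCompact_closedBall _ _).prod isCompact_uIcc)
  obtain ⟨B, hB⟩ := hK.exists_bound_of_continuousOn hl.cont.continuousOn
  rw [intervalIntegrable_iff]
  refine Measure.integrableOn_of_bounded (M := B) (by simp) ?_
    (ae_restrict_of_forall_mem measurableSet_uIoc fun t ht => ?_)
  · exact (hl.cont.comp_stronglyMeasurable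
      (hc.stronglyMeasurable.prodMk (hm.prodMk stronglyMeasurable_id))).aestronglyMeasurable
  · have ht' := uIoc_subset_uIcc ht
    exact hB (traj a z u t, u t, t)
      ⟨mem_image_of_mem _ ht', by simpa using hC t, ht'⟩

theorem CB.act_ge (hl : CB M l) {a b : ℝ} (hab : a < b) (z : E) {u : ℝ → E} (hu : Adm u) :
    -M * (b - a) ≤ actl l a b z u := by
  have h1 : (∫ _t in a..b, -M) ≤ actl l a b z u :=
    intervalIntegral.integral_mono_on hab.le (by simp) (hl.ii hu a z a b) fun t _ => hl.low _ _ _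
  rw [intervalIntegral.integral_const, smul_eq_mul] at h1
  linarith

theorem A1_bdd (hl : CB M l) {a b : ℝ} (hab : a < b) (z z' : E) :
    BddBelow {c | ∃ u : ℝ → E, Adm u ∧ traj a z u b = z' ∧ c = actl l a b z u} := by
  refine ⟨-M * (b - a), ?_⟩
  rintro c ⟨u, hu, -, rfl⟩
  exact hl.act_ge hab z hu

theorem CB.kerl_le (hl : CB M l) {a b : ℝ} (hab : a < b) {z z' : E} {u : ℝ → E} (hu : Adm u)
    (h : traj a z u b = z') : kerl l a b z z' ≤ actl l a b z u :=
  csInf_le (A1_bdd hl hab z z') ⟨u, hu, h, rfl⟩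

theorem CB.exists_lt (_hl : CB M l) {a b : ℝ} (hab : a < b) (z z' : E) {ε : ℝ} (hε : 0 < ε) :
    ∃ u, Adm u ∧ traj a z u b = z' ∧ actl l a b z u < kerl l a b z z' + ε := by
  have := Real.lt_sInf_add_pos (C1ne l hab z z') hε
  obtain ⟨_, ⟨u, hu, hz, rfl⟩, h⟩ := this
  exact ⟨u, hu, hz, h⟩

theorem CB.kerl_ge (hl : CB M l) {a b : ℝ} (hab : a < b) (z z' : E) :
    -M * (b - a) ≤ kerl l a b z z' :=
  le_kerl hab z z' fun _ hu _ => hl.act_ge hab z hu

theorem A1_split (hl : CB M l) (a b c : ℝ) (z : E) {u : ℝ → E} (hu : Adm u) :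
    actl l a c z u = actl l a b z u + actl l b c (traj a z u b) u := by
  have h1 : actl l b c (traj a z u b) u = ∫ t in b..c, l (traj a z u t) (u t) t := by
    unfold actl
    refine intervalIntegral.integral_congr fun t _ => ?_
    show l (traj b (traj a z u b) u t) (u t) t = l (traj a z u t) (u t) t
    rw [← traj_split hu a b z t]
  rw [h1]
  unfold actl
  rw [intervalIntegral.integral_add_adjacent_intervals (hl.ii hu a z _ _) (hl.ii hu a z _ _)]

theorem A1_cat (hl : CB M l) {a b c : ℝ} (hab : a ≤ b) (hbc : b ≤ c) (z : E)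
    {u₁ u₂ : ℝ → E} (h₁ : Adm u₁) (h₂ : Adm u₂) :
    actl l a c z (cat b u₁ u₂) = actl l a b z u₁ + actl l b c (traj a z u₁ b) u₂ := by
  rw [A1_split hl a b c z (h₁.cat h₂ b), traj_cat_left hab le_rfl]
  congr 1
  · unfold actl
    apply intervalIntegral.integral_congr
    intro t ht
    rw [uIcc_of_le hab] at ht
    simp only
    rw [traj_cat_left hab ht.2]
    simp [cat, ht.2]
  · unfold actl
    apply intervalIntegral.integral_congr_ae
    refine ae_of_all _ fun t ht => ?_
    rw [uIoc_of_le hbc] at ht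
    rw [traj_congr_right _ ht.1.le]
    simp [cat, not_le.mpr ht.1]

/-- dynamic programming -/
theorem CB.kerl_le_add (hl : CB M l) {a b c : ℝ} (hab : a < b) (hbc : b < c) (z x z' : E) :
    kerl l a c z z' ≤ kerl l a b z x + kerl l b c x z' := by
  apply le_of_forall_pos_le_add
  intro ε hε
  obtain ⟨u₁, h₁, e₁, l₁⟩ := hl.exists_lt hab z x (half_pos hε)
  obtain ⟨u₂, h₂, e₂, l₂⟩ := hl.exists_lt hbc x z' (half_pos hε)
  have h3 := hl.kerl_le (hab.trans hbc) (z := z) (z' := z') (h₁.cat h₂ b)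
    (by rw [traj_cat_right h₁ h₂ hab.le hbc.le, e₁, e₂])
  rw [A1_cat hl hab.le hbc.le z h₁ h₂, e₁] at h3
  linarith

/-- splitting of the action -/
theorem CB.add_kerl_le (hl : CB M l) {a b c : ℝ} (hab : a < b) (hbc : b < c) (z : E) {u : ℝ → E}
    (hu : Adm u) : kerl l a b z (traj a z u b) + kerl l b c (traj a z u b) (traj a z u c) ≤
      actl l a c z u := by
  rw [A1_split hl a b c z hu]
  have h1 := hl.kerl_le hab (z := z) hu rfl
  have h2 := hl.kerl_le hbc (z := traj a z u b) (z' := traj a z u c) hu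
    (traj_split hu a b z c).symm
  linarith

omit [FiniteDimensional ℝ E] in
theorem kerl_shift (p : E) (h : ∀ x u t, l (x + p) u t = l x u t) (a b : ℝ) (z z' : E) :
    kerl l a b (z + p) (z' + p) = kerl l a b z z' := by
  have e1 : ∀ (u : ℝ → E) (t : ℝ), traj a (z + p) u t = traj a z u t + p := fun u t => by
    unfold traj
    abel
  have e2 : ∀ u : ℝ → E, actl l a b (z + p) u = actl l a b z u := fun u => by
    unfold actl
    refine intervalIntegral.integral_congr fun t _ => ?_
    show l (traj a (z + p) u t) (u t) t = l (traj a z u t) (u t) t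
    rw [e1, h]
  unfold kerl
  congr 1
  ext c
  constructor
  · rintro ⟨u, hu, h1, h2⟩
    refine ⟨u, hu, ?_, by rw [h2, e2]⟩
    rw [e1] at h1
    exact add_right_cancel h1
  · rintro ⟨u, hu, h1, h2⟩
    exact ⟨u, hu, by rw [e1, h1], by rw [h2, e2]⟩

theorem CB.kerl_mono (hl : CB M l) (hl' : CB M l') (h : ∀ x u t, l x u t ≤ l' x u t)
    {a b : ℝ} (hab : a < b) (z z' : E) : kerl l a b z z' ≤ kerl l' a b z z' := by
  apply le_kerl hab
  intro u hu hz
  refine (hl.kerl_le hab hu hz).trans ?_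
  exact intervalIntegral.integral_mono_on hab.le (hl.ii hu a z a b) (hl'.ii hu a z a b)
    fun t _ => h _ _ _

theorem A1_le_add (hl : CB M l) (hl' : CB M l') {ρ : ℝ} (h : ∀ x u t, l x u t ≤ l' x u t + ρ)
    {a b : ℝ} (hab : a < b) (z z' : E) : kerl l a b z z' ≤ kerl l' a b z z' + ρ * (b - a) := by
  rw [← sub_le_iff_le_add]
  apply le_kerl hab
  intro u hu hz
  have h1 := hl.kerl_le hab hu hz
  have h2 : actl l a b z u ≤ ∫ t in a..b, (l' (traj a z u t) (u t) t + ρ) :=
    intervalIntegral.integral_mono_on hab.le (hl.ii hu a z a b)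
      ((hl'.ii hu a z a b).add (by simp)) fun t _ => h _ _ _
  rw [intervalIntegral.integral_add (hl'.ii hu a z a b) (by simp),
    intervalIntegral.integral_const, smul_eq_mul] at h2
  have h3 : (∫ t in a..b, l' (traj a z u t) (u t) t) = actl l' a b z u := rfl
  rw [h3] at h2
  linarith

theorem CB.kerl_sub_le (hl : CB M l) (hl' : CB M l') {ρ : ℝ} (h : ∀ x u t, |l x u t - l' x u t| ≤ ρ)
    {a b : ℝ} (hab : a < b) (z z' : E) : |kerl l a b z z' - kerl l' a b z z'| ≤ ρ * (b - a) := by
  have h1 := A1_le_add (ρ := ρ) hl hl' (fun x u t => by linarith [(abs_le.mp (h x u t)).2]) hab z z'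
  have h2 := A1_le_add (ρ := ρ) hl' hl (fun x u t => by linarith [(abs_le.mp (h x u t)).1]) hab z z'
  rw [abs_le]
  constructor <;> linarith

/-- a `C^{1,1}` curve, extended by constants, is admissible -/
theorem adm_of_lip {a b : ℝ} (hab : a < b) {Z v : ℝ → E} {C : ℝ}
    (hv : ∀ s ∈ Icc a b, ∀ t ∈ Icc a b, ‖v t - v s‖ ≤ C * |t - s|)
    (hZ : ∀ s ∈ Icc a b, ∀ t ∈ Icc a b, Z t - Z s = ∫ r in s..t, v r) :
    ∃ u : ℝ → E, Adm u ∧ (∀ t ∈ Icc a b, u t = v t) ∧ (∀ s ∈ Icc a b, ∀ t ∈ Icc a b, traj s (Z s) u t = Z t) ∧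
      ∀ l : E → E → ℝ → ℝ, ∀ s ∈ Icc a b, ∀ t ∈ Icc a b, s ≤ t →
        actl l s t (Z s) u = ∫ r in s..t, l (Z r) (v r) r := by
  have hcl : ∀ t, max a (min b t) ∈ Icc a b := fun t =>
    ⟨le_max_left _ _, max_le hab.le (min_le_left _ _)⟩
  have hcl2 : ∀ t ∈ Icc a b, max a (min b t) = t := fun t ht => by
    rw [min_eq_right ht.2, max_eq_right ht.1]
  have hC0 : 0 ≤ C := by
    have h1 := hv a (left_mem_Icc.2 hab.le) b (right_mem_Icc.2 hab.le)
    have h2 : 0 < |b - a| := abs_pos.2 (by linarith)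
    have h3 := (norm_nonneg _).trans h1
    exact nonneg_of_mul_nonneg_left h3 h2
  have hcont : ContinuousOn v (Icc a b) := by
    have hL : LipschitzOnWith ⟨C, hC0⟩ v (Icc a b) := by
      refine LipschitzOnWith.of_dist_le_mul fun s hs t ht => ?_
      rw [dist_eq_norm, Real.dist_eq]
      exact hv t ht s hs
    exact hL.continuousOn
  have huc : Continuous (fun t => v (max a (min b t))) := by
    have h1 : Continuous (fun t : ℝ => max a (min b t)) :=
      continuous_const.max (continuous_const.min continuous_id)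
    exact hcont.comp_continuous h1 hcl
  have huv : ∀ t ∈ Icc a b, (fun t => v (max a (min b t))) t = v t := fun t ht => by
    show v (max a (min b t)) = v t
    rw [hcl2 t ht]
  have htr : ∀ s ∈ Icc a b, ∀ t ∈ Icc a b, traj s (Z s) (fun t => v (max a (min b t))) t = Z t := by
    intro s hs t ht
    have h1 : (∫ r in s..t, (fun t => v (max a (min b t))) r) = ∫ r in s..t, v r :=
      intervalIntegral.integral_congr fun r hr =>
        huv r ((uIcc_subset_Icc hs ht) hr)
    have h2 := hZ s hs t ht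
    unfold traj
    rw [h1, ← h2]
    abel
  refine ⟨fun t => v (max a (min b t)), ⟨huc.stronglyMeasurable, ‖v a‖ + C * (b - a), fun t => ?_⟩,
    huv, htr, fun l s hs t ht hst => ?_⟩
  · have h1 := hv a (left_mem_Icc.2 hab.le) _ (hcl t)
    have h2 : |max a (min b t) - a| ≤ b - a := by
      rw [abs_of_nonneg (by linarith [(hcl t).1])]
      linarith [(hcl t).2]
    have h3 : C * |max a (min b t) - a| ≤ C * (b - a) := mul_le_mul_of_nonneg_left h2 hC0
    have h4 : ‖v (max a (min b t))‖ ≤ ‖v a‖ + ‖v (max a (min b t)) - v a‖ := by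
      have := norm_add_le (v a) (v (max a (min b t)) - v a)
      rwa [add_sub_cancel] at this
    linarith
  · unfold actl
    refine intervalIntegral.integral_congr fun r hr => ?_
    have hr' := (uIcc_subset_Icc hs ht) hr
    show l (traj s (Z s) (fun t => v (max a (min b t))) r) (v (max a (min b r))) r = l (Z r) (v r) r
    rw [htr s hs r hr', hcl2 r hr']

end EscG
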