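import Mathlib

/-!
Project EscG (MP_6acca1_an), module A2a: slowly varying cut-off functions.
-/

noncomputable section

namespace EscG

open Set Filter Topology
open scoped ContDiff

/-- the first two derivatives of the smooth transition are bounded -/
theorem A2a_bdd : ∃ S : ℝ, 0 ≤ S ∧ (∀ x, |deriv Real.smoothTransition x| ≤ S) ∧
    (∀ x, |deriv (deriv Real.smoothTransition) x| ≤ S) := by
  have hc : ContDiff ℝ 2 Real.smoothTransition := Real.smoothTransition.contDiff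
  have hd1 : ContDiff ℝ 1 (deriv Real.smoothTransition) := by
    have h2 : ContDiff ℝ (1 + 1) Real.smoothTransition := by
      convert hc using 1
      norm_num
    exact (contDiff_succ_iff_deriv.1 h2).2.2
  have hd2 : Continuous (deriv (deriv Real.smoothTransition)) := hd1.continuous_deriv le_rfl
  have hz1 : ∀ x : ℝ, x < 0 ∨ 1 < x → deriv Real.smoothTransition x = 0 := by
    intro x hx
    rcases hx with hx | hx
    · have : Real.smoothTransition =ᶠ[𝓝 x] fun _ => (0 : ℝ) := by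
        filter_upwards [Iio_mem_nhds hx] with y hy
        exact Real.smoothTransition.zero_of_nonpos (le_of_lt hy)
      rw [this.deriv_eq]
      simp
    · have : Real.smoothTransition =ᶠ[𝓝 x] fun _ => (1 : ℝ) := by
        filter_upwards [Ioi_mem_nhds hx] with y hy
        exact Real.smoothTransition.one_of_one_le (le_of_lt hy)
      rw [this.deriv_eq]
      simp
  have hz2 : ∀ x : ℝ, x < 0 ∨ 1 < x → deriv (deriv Real.smoothTransition) x = 0 := by
    intro x hx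
    have : deriv Real.smoothTransition =ᶠ[𝓝 x] fun _ => (0 : ℝ) := by
      rcases hx with hx | hx
      · filter_upwards [Iio_mem_nhds hx] with y hy
        exact hz1 y (Or.inl hy)
      · filter_upwards [Ioi_mem_nhds hx] with y hy
        exact hz1 y (Or.inr hy)
    rw [this.deriv_eq]
    simp
  obtain ⟨S1, hS1⟩ := (isCompact_Icc (a := (0 : ℝ)) (b := 1)).exists_bound_of_continuousOn
    hd1.continuous.continuousOn
  obtain ⟨S2, hS2⟩ := (isCompact_Icc (a := (0 : ℝ)) (b := 1)).exists_bound_of_continuousOn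
    hd2.continuousOn
  refine ⟨max 0 (max S1 S2), le_max_left _ _, fun x => ?_, fun x => ?_⟩
  · by_cases hx : x < 0 ∨ 1 < x
    · rw [hz1 x hx, abs_zero]
      exact le_max_left _ _
    · push Not at hx
      exact (hS1 x ⟨hx.1, hx.2⟩).trans ((le_max_left _ _).trans (le_max_right _ _))
  · by_cases hx : x < 0 ∨ 1 < x
    · rw [hz2 x hx, abs_zero]
      exact le_max_left _ _
    · push Not at hx
      exact (hS2 x ⟨hx.1, hx.2⟩).trans ((le_max_right _ _).trans (le_max_right _ _))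

section A2a
variable {E : Type*} [NormedAddCommGroup E] [InnerProductSpace ℝ E]

/-- first derivative of a radial function -/
theorem A2a_fd {Φ Φ1 : ℝ → ℝ} (h1 : ∀ s, 0 ≤ s → HasDerivAt Φ (Φ1 s) s) (v w : E) :
    fderiv ℝ (fun u : E => Φ (‖u‖ ^ 2)) v w = Φ1 (‖v‖ ^ 2) * (2 * inner ℝ w v) := by
  have h := (h1 (‖v‖ ^ 2) (by positivity)).comp_hasFDerivAt v
    (hasStrictFDerivAt_norm_sq v).hasFDerivAt
  have h' : HasFDerivAt (fun u : E => Φ (‖u‖ ^ 2)) (Φ1 (‖v‖ ^ 2) • (2 • (innerSL ℝ v))) v := h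
  rw [h'.fderiv]
  simp only [smul_apply, innerSL_apply_apply, smul_eq_mul, nsmul_eq_mul]
  rw [real_inner_comm]
  push_cast
  ring

/-- second derivative of a radial function -/
theorem A2a_fd2 {Φ Φ1 Φ2 : ℝ → ℝ} (h1 : ∀ s, 0 ≤ s → HasDerivAt Φ (Φ1 s) s)
    (h2 : ∀ s, 0 ≤ s → HasDerivAt Φ1 (Φ2 s) s) (hc : ContDiff ℝ 2 (fun u : E => Φ (‖u‖ ^ 2)))
    (v w : E) :
    fderiv ℝ (fderiv ℝ (fun u : E => Φ (‖u‖ ^ 2))) v w w =
      4 * Φ2 (‖v‖ ^ 2) * (inner ℝ w v) ^ 2 + 2 * Φ1 (‖v‖ ^ 2) * ‖w‖ ^ 2 := by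
  have hd : Differentiable ℝ (fderiv ℝ (fun u : E => Φ (‖u‖ ^ 2))) := by
    have : ContDiff ℝ 1 (fderiv ℝ (fun u : E => Φ (‖u‖ ^ 2))) := hc.fderiv_right (by norm_num)
    exact this.differentiable (by norm_num)
  have e1 : fderiv ℝ (fun u => fderiv ℝ (fun u : E => Φ (‖u‖ ^ 2)) u w) v w =
      fderiv ℝ (fderiv ℝ (fun u : E => Φ (‖u‖ ^ 2))) v w w := by
    have := ((hd v).hasFDerivAt.clm_apply (hasFDerivAt_const w v)).fderiv
    rw [this]
    simp
  rw [← e1]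
  have e2 : (fun u => fderiv ℝ (fun u : E => Φ (‖u‖ ^ 2)) u w) =
      fun u => Φ1 (‖u‖ ^ 2) * (2 * inner ℝ w u) := by
    funext u
    exact A2a_fd h1 u w
  rw [e2]
  have h3 := (h2 (‖v‖ ^ 2) (by positivity)).comp_hasFDerivAt v
    (hasStrictFDerivAt_norm_sq v).hasFDerivAt
  have h3' : HasFDerivAt (fun u : E => Φ1 (‖u‖ ^ 2)) (Φ2 (‖v‖ ^ 2) • (2 • (innerSL ℝ v))) v := h3
  have h4 : HasFDerivAt (fun u : E => 2 * inner ℝ w u) ((2 : ℝ) • innerSL ℝ w) v := by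
    have := ((innerSL ℝ w).hasFDerivAt (x := v)).const_mul (2 : ℝ)
    simpa using this
  have h5 : HasFDerivAt (fun u : E => Φ1 (‖u‖ ^ 2) * (2 * inner ℝ w u)) _ v := h3'.mul h4
  rw [h5.fderiv]
  simp only [add_apply, smul_apply, innerSL_apply_apply,
    smul_eq_mul, nsmul_eq_mul, real_inner_self_eq_norm_sq]
  rw [real_inner_comm w v]
  push_cast
  ring

end A2a

/-- slowly varying cut-off functions -/
theorem exists_chi (E : Type*) [NormedAddCommGroup E] [InnerProductSpace ℝ E] {κ : ℝ} (hκ : 0 < κ)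
    (R : ℝ) : ∃ (χ : E → ℝ) (R' : ℝ), ContDiff ℝ 2 χ ∧ (∀ v, 0 ≤ χ v ∧ χ v ≤ 1) ∧
      (∀ v, ‖v‖ ≤ R → χ v = 1) ∧ (∀ v, R' ≤ ‖v‖ → χ v = 0) ∧
      (∀ v w, |fderiv ℝ χ v w| * (1 + ‖v‖) ≤ κ * ‖w‖) ∧
      (∀ v w, |fderiv ℝ (fderiv ℝ χ) v w w| * (1 + ‖v‖) ^ 2 ≤ κ * ‖w‖ ^ 2) := by
  obtain ⟨S, hS, hS1, hS2⟩ := A2a_bdd
  set k : ℝ := 1 + 20 * S / κ with hk
  have hk1 : 1 ≤ k := by
    have : 0 ≤ 20 * S / κ := by positivity
    linarith
  have hk0 : 0 < k := by linarith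
  have hkS : 20 * (S / k) ≤ κ := by
    rw [← mul_div_assoc, div_le_iff₀ hk0, hk]
    have : κ * (1 + 20 * S / κ) = κ + 20 * S := by field_simp
    rw [this]
    linarith
  have hkS2 : S / k ^ 2 ≤ S / k := by
    apply div_le_div_of_nonneg_left hS hk0
    nlinarith
  have hSk : 0 ≤ S / k := by positivity
  set L : ℝ := Real.log (1 + R ^ 2) with hL
  set T := Real.smoothTransition with hT
  have hTc : ContDiff ℝ 2 T := Real.smoothTransition.contDiff
  have hT1 : ∀ x, HasDerivAt T (deriv T x) x := fun x =>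
    ((hTc.differentiable (by norm_num)) x).hasDerivAt
  have hTd1 : ContDiff ℝ 1 (deriv T) := by
    have h2 : ContDiff ℝ (1 + 1) T := by
      convert hTc using 1
      norm_num
    exact (contDiff_succ_iff_deriv.1 h2).2.2
  have hT2 : ∀ x, HasDerivAt (deriv T) (deriv (deriv T) x) x := fun x =>
    ((hTd1.differentiable (by norm_num)) x).hasDerivAt
  set Φ : ℝ → ℝ := fun s => 1 - T ((Real.log (1 + s) - L) / k) with hΦ
  set Φ1 : ℝ → ℝ := fun s => - (deriv T ((Real.log (1 + s) - L) / k) * (1 / (1 + s) / k)) with hΦ1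
  set Φ2 : ℝ → ℝ := fun s => - (deriv (deriv T) ((Real.log (1 + s) - L) / k) *
    (1 / (1 + s) / k) * (1 / (1 + s) / k) +
    deriv T ((Real.log (1 + s) - L) / k) * (- (1 / (1 + s) ^ 2) / k)) with hΦ2
  have hlog : ∀ s : ℝ, 0 ≤ s →
      HasDerivAt (fun s => (Real.log (1 + s) - L) / k) (1 / (1 + s) / k) s := by
    intro s hs
    have h1 : HasDerivAt (fun s : ℝ => 1 + s) 1 s := (hasDerivAt_id s).const_add 1
    have h2 := (h1.log (by positivity)).sub_const L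
    exact h2.div_const k
  have hd1 : ∀ s, 0 ≤ s → HasDerivAt Φ (Φ1 s) s := by
    intro s hs
    have h1 := (hT1 ((Real.log (1 + s) - L) / k)).comp s (hlog s hs)
    exact h1.const_sub 1
  have hd2 : ∀ s, 0 ≤ s → HasDerivAt Φ1 (Φ2 s) s := by
    intro s hs
    have h1 := (hT2 ((Real.log (1 + s) - L) / k)).comp s (hlog s hs)
    have h2 : HasDerivAt (fun s : ℝ => 1 / (1 + s) / k) (- (1 / (1 + s) ^ 2) / k) s := by
      have h3 : HasDerivAt (fun s : ℝ => 1 + s) 1 s := (hasDerivAt_id s).const_add 1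
      have h4 := h3.inv (by positivity)
      have h5 := h4.div_const k
      have h6 : HasDerivAt (fun s : ℝ => (1 + s)⁻¹ / k) (-1 / (1 + s) ^ 2 / k) s := h5
      have h7 : (fun s : ℝ => 1 / (1 + s) / k) = fun s : ℝ => (1 + s)⁻¹ / k := by
        funext s
        rw [one_div]
      rw [h7]
      exact h6.congr_deriv (by rw [neg_div])
    exact (h1.mul h2).neg
  have hb1 : ∀ s, 0 ≤ s → |Φ1 s| ≤ (S / k) / (1 + s) := by
    intro s hs
    have hs1 : 0 < 1 + s := by linarith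
    rw [hΦ1]
    simp only [abs_neg, abs_mul]
    rw [abs_of_pos (show 0 < 1 / (1 + s) / k by positivity)]
    calc |deriv T ((Real.log (1 + s) - L) / k)| * (1 / (1 + s) / k)
        ≤ S * (1 / (1 + s) / k) := mul_le_mul_of_nonneg_right (hS1 _) (by positivity)
      _ = (S / k) / (1 + s) := by field_simp
  have hb2 : ∀ s, 0 ≤ s → |Φ2 s| ≤ (2 * (S / k)) / (1 + s) ^ 2 := by
    intro s hs
    have hs1 : 0 < 1 + s := by linarith
    rw [hΦ2]
    simp only [abs_neg]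
    refine (abs_add_le _ _).trans ?_
    have e1 : |deriv (deriv T) ((Real.log (1 + s) - L) / k) * (1 / (1 + s) / k) *
        (1 / (1 + s) / k)| ≤ (S / k) / (1 + s) ^ 2 := by
      rw [abs_mul, abs_mul, abs_of_pos (show 0 < 1 / (1 + s) / k by positivity), mul_assoc]
      calc |deriv (deriv T) ((Real.log (1 + s) - L) / k)| *
            ((1 / (1 + s) / k) * (1 / (1 + s) / k))
          ≤ S * ((1 / (1 + s) / k) * (1 / (1 + s) / k)) :=
            mul_le_mul_of_nonneg_right (hS2 _) (by positivity)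
        _ = (S / k ^ 2) / (1 + s) ^ 2 := by field_simp
        _ ≤ (S / k) / (1 + s) ^ 2 := div_le_div_of_nonneg_right hkS2 (by positivity)
    have e2 : |deriv T ((Real.log (1 + s) - L) / k) * (- (1 / (1 + s) ^ 2) / k)| ≤
        (S / k) / (1 + s) ^ 2 := by
      rw [abs_mul, neg_div, abs_neg, abs_of_pos (show 0 < 1 / (1 + s) ^ 2 / k by positivity)]
      calc |deriv T ((Real.log (1 + s) - L) / k)| * (1 / (1 + s) ^ 2 / k)
          ≤ S * (1 / (1 + s) ^ 2 / k) := mul_le_mul_of_nonneg_right (hS1 _) (by positivity)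
        _ = (S / k) / (1 + s) ^ 2 := by field_simp
    calc _ ≤ (S / k) / (1 + s) ^ 2 + (S / k) / (1 + s) ^ 2 := add_le_add e1 e2
      _ = (2 * (S / k)) / (1 + s) ^ 2 := by ring
  have hχc : ContDiff ℝ 2 (fun v : E => Φ (‖v‖ ^ 2)) := by
    have h1 : ContDiff ℝ 2 (fun v : E => Real.log (1 + ‖v‖ ^ 2)) :=
      (contDiff_const.add (contDiff_norm_sq ℝ)).log (fun v => by positivity)
    exact contDiff_const.sub (hTc.comp ((h1.sub contDiff_const).div_const k))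
  refine ⟨fun v => Φ (‖v‖ ^ 2), Real.sqrt (Real.exp (L + k)), hχc, ?_, ?_, ?_, ?_, ?_⟩
  · intro v
    have h1 := Real.smoothTransition.nonneg ((Real.log (1 + ‖v‖ ^ 2) - L) / k)
    have h2 := Real.smoothTransition.le_one ((Real.log (1 + ‖v‖ ^ 2) - L) / k)
    constructor
    · show 0 ≤ 1 - T _
      linarith
    · show 1 - T _ ≤ 1
      linarith
  · intro v hv
    have h1 : Real.log (1 + ‖v‖ ^ 2) ≤ L := by
      apply Real.log_le_log (by positivity)
      have : ‖v‖ ^ 2 ≤ R ^ 2 := by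
        have := norm_nonneg v
        nlinarith
      linarith
    have h2 : T ((Real.log (1 + ‖v‖ ^ 2) - L) / k) = 0 :=
      Real.smoothTransition.zero_of_nonpos
        (div_nonpos_of_nonpos_of_nonneg (by linarith) hk0.le)
    show 1 - T _ = 1
    rw [h2, sub_zero]
  · intro v hv
    have h1 : L + k ≤ Real.log (1 + ‖v‖ ^ 2) := by
      rw [Real.le_log_iff_exp_le (by positivity)]
      have h3 : Real.exp (L + k) ≤ ‖v‖ ^ 2 := by
        have h4 := Real.sq_sqrt (Real.exp_pos (L + k)).le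
        have h5 := Real.sqrt_nonneg (Real.exp (L + k))
        calc Real.exp (L + k) = Real.sqrt (Real.exp (L + k)) ^ 2 := h4.symm
          _ ≤ ‖v‖ ^ 2 := pow_le_pow_left₀ h5 hv 2
      linarith
    have h2 : T ((Real.log (1 + ‖v‖ ^ 2) - L) / k) = 1 :=
      Real.smoothTransition.one_of_one_le (by rw [le_div_iff₀ hk0]; linarith)
    show 1 - T _ = 0
    rw [h2, sub_self]
  · intro v w
    have hq : 0 < 1 + ‖v‖ ^ 2 := by positivity
    rw [A2a_fd hd1 v w, abs_mul, abs_mul, abs_of_pos (show (0 : ℝ) < 2 by norm_num)]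
    have h1 := hb1 (‖v‖ ^ 2) (by positivity)
    have h2 : |inner ℝ w v| ≤ ‖w‖ * ‖v‖ := abs_real_inner_le_norm w v
    have hv0 := norm_nonneg v
    have hw0 := norm_nonneg w
    calc |Φ1 (‖v‖ ^ 2)| * (2 * |inner ℝ w v|) * (1 + ‖v‖)
        ≤ ((S / k) / (1 + ‖v‖ ^ 2)) * (2 * (‖w‖ * ‖v‖)) * (1 + ‖v‖) := by gcongr
      _ = (S / k) * ‖w‖ * (2 * ‖v‖ * (1 + ‖v‖) / (1 + ‖v‖ ^ 2)) := by ring
      _ ≤ (S / k) * ‖w‖ * 4 := by
        apply mul_le_mul_of_nonneg_left _ (by positivity)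
        rw [div_le_iff₀ hq]
        nlinarith [sq_nonneg (‖v‖ - 1)]
      _ = 4 * (S / k) * ‖w‖ := by ring
      _ ≤ κ * ‖w‖ := by
        apply mul_le_mul_of_nonneg_right _ hw0
        linarith
  · intro v w
    have hq : 0 < 1 + ‖v‖ ^ 2 := by positivity
    rw [A2a_fd2 hd1 hd2 hχc v w]
    have h1 := hb1 (‖v‖ ^ 2) (by positivity)
    have h3 := hb2 (‖v‖ ^ 2) (by positivity)
    have h2 : |inner ℝ w v| ≤ ‖w‖ * ‖v‖ := abs_real_inner_le_norm w v
    have hv0 := norm_nonneg v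
    have hw0 := norm_nonneg w
    have h4 : (inner ℝ w v) ^ 2 ≤ ‖w‖ ^ 2 * ‖v‖ ^ 2 := by
      rw [← sq_abs, ← mul_pow]
      exact pow_le_pow_left₀ (abs_nonneg _) h2 2
    have hab : |4 * Φ2 (‖v‖ ^ 2) * (inner ℝ w v) ^ 2 + 2 * Φ1 (‖v‖ ^ 2) * ‖w‖ ^ 2| ≤
        4 * ((2 * (S / k)) / (1 + ‖v‖ ^ 2) ^ 2) * (‖w‖ ^ 2 * ‖v‖ ^ 2) +
        2 * ((S / k) / (1 + ‖v‖ ^ 2)) * ‖w‖ ^ 2 := by
      refine (abs_add_le _ _).trans (add_le_add ?_ ?_)
      · rw [abs_mul, abs_mul, abs_of_pos (show (0 : ℝ) < 4 by norm_num),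
          abs_of_nonneg (sq_nonneg (inner ℝ w v))]
        gcongr
      · rw [abs_mul, abs_mul, abs_of_pos (show (0 : ℝ) < 2 by norm_num),
          abs_of_nonneg (sq_nonneg ‖w‖)]
        gcongr
    have h5 : ‖v‖ ^ 2 * (1 + ‖v‖) ^ 2 / (1 + ‖v‖ ^ 2) ^ 2 ≤ 2 := by
      rw [div_le_iff₀ (by positivity)]
      have h6 : (1 + ‖v‖) ^ 2 ≤ 2 * (1 + ‖v‖ ^ 2) := by nlinarith [sq_nonneg (‖v‖ - 1)]
      nlinarith [sq_nonneg ‖v‖]
    have h6 : (1 + ‖v‖) ^ 2 / (1 + ‖v‖ ^ 2) ≤ 2 := by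
      rw [div_le_iff₀ (by positivity)]
      nlinarith [sq_nonneg (‖v‖ - 1)]
    calc _ ≤ (4 * ((2 * (S / k)) / (1 + ‖v‖ ^ 2) ^ 2) * (‖w‖ ^ 2 * ‖v‖ ^ 2) +
        2 * ((S / k) / (1 + ‖v‖ ^ 2)) * ‖w‖ ^ 2) * (1 + ‖v‖) ^ 2 :=
          mul_le_mul_of_nonneg_right hab (by positivity)
      _ = (8 * (S / k) * ‖w‖ ^ 2) * (‖v‖ ^ 2 * (1 + ‖v‖) ^ 2 / (1 + ‖v‖ ^ 2) ^ 2) +
          (2 * (S / k) * ‖w‖ ^ 2) * ((1 + ‖v‖) ^ 2 / (1 + ‖v‖ ^ 2)) := by ring
      _ ≤ (8 * (S / k) * ‖w‖ ^ 2) * 2 + (2 * (S / k) * ‖w‖ ^ 2) * 2 := by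
        gcongr
      _ = 20 * (S / k) * ‖w‖ ^ 2 := by ring
      _ ≤ κ * ‖w‖ ^ 2 := mul_le_mul_of_nonneg_right hkS (by positivity)

end EscG
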