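import Pool.Agent.EscG.A2a
import Pool.Agent.EscG.A2b

/-!
Module A2c of project EscG: the cut-off of a Lagrangian at bounded distance of a Finsler energy.
-/

noncomputable section

namespace EscG

open MeasureTheory Set Filter Topology Esc EscF
open scoped ContDiff

/-! ### Taylor estimates (copied from EscF/TS1) -/

lemma A2c_t2 {φ φ' φ'' : ℝ → ℝ} (h1 : ∀ s, HasDerivAt φ (φ' s) s)
    (h2 : ∀ s, HasDerivAt φ' (φ'' s) s) {κ : ℝ} (h : ∀ s, κ ≤ φ'' s) :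
    φ 0 + φ' 0 + κ / 2 ≤ φ 1 := by
  have h3 : Monotone fun s => φ' s - κ * s := by
    refine monotone_of_deriv_nonneg (fun s => ?_) (fun s => ?_)
    · exact ((h2 s).sub ((hasDerivAt_id s).const_mul κ)).differentiableAt
    · have h4 : HasDerivAt (fun s => φ' s - κ * s) (φ'' s - κ * 1) s :=
        (h2 s).sub ((hasDerivAt_id s).const_mul κ)
      rw [h4.deriv]
      linarith [h s]
  have h5 : MonotoneOn (fun s => φ s - φ' 0 * s - κ / 2 * s ^ 2) (Ici 0) := by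
    have hd : ∀ s, HasDerivAt (fun s => φ s - φ' 0 * s - κ / 2 * s ^ 2)
        (φ' s - φ' 0 * 1 - κ / 2 * (2 * s)) s := by
      intro s
      have h6 : HasDerivAt (fun s : ℝ => s ^ 2) (2 * s) s := by
        simpa using hasDerivAt_pow 2 s
      exact ((h1 s).sub ((hasDerivAt_id s).const_mul _)).sub (h6.const_mul _)
    refine monotoneOn_of_deriv_nonneg (convex_Ici 0) ?_ ?_ ?_
    · exact fun s _ => (hd s).continuousAt.continuousWithinAt
    · exact fun s _ => (hd s).differentiableAt.differentiableWithinAt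
    · intro s hs
      rw [interior_Ici] at hs
      rw [(hd s).deriv]
      have h7 := h3 (le_of_lt hs)
      simp only at h7
      linarith
  have h8 := h5 (mem_Ici.2 le_rfl) (mem_Ici.2 zero_le_one) zero_le_one
  simp only at h8
  linarith

lemma A2c_t2_abs {φ φ' φ'' : ℝ → ℝ} (h1 : ∀ s, HasDerivAt φ (φ' s) s)
    (h2 : ∀ s, HasDerivAt φ' (φ'' s) s) {κ : ℝ} (h : ∀ s, |φ'' s| ≤ κ) :
    |φ 1 - φ 0 - φ' 0| ≤ κ / 2 := by
  have h3 := A2c_t2 h1 h2 (κ := -κ) (fun s => (abs_le.1 (h s)).1)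
  have h4 := A2c_t2 (φ := fun s => -φ s) (φ' := fun s => -φ' s) (φ'' := fun s => -φ'' s)
    (fun s => (h1 s).neg) (fun s => (h2 s).neg) (κ := -κ) (fun s => by
      linarith [(abs_le.1 (h s)).2])
  rw [abs_le]
  constructor <;> linarith

section line

variable {W : Type*} [NormedAddCommGroup W] [NormedSpace ℝ W] {G : W → ℝ} (hG : ContDiff ℝ 2 G)
include hG

lemma A2c_line1 (q p : W) (s : ℝ) :
    HasDerivAt (fun s : ℝ => G (q + s • p)) (fderiv ℝ G (q + s • p) p) s := by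
  have h1 : HasFDerivAt G (fderiv ℝ G (q + s • p)) (q + s • p) :=
    (hG.differentiable (by norm_num) _).hasFDerivAt
  have h2 : HasDerivAt (fun s : ℝ => q + s • p) p s := by
    simpa using ((hasDerivAt_id s).smul_const p).const_add q
  exact h1.comp_hasDerivAt s h2

lemma A2c_line2 (q p : W) (s : ℝ) : HasDerivAt (fun s : ℝ => fderiv ℝ G (q + s • p) p)
    (fderiv ℝ (fderiv ℝ G) (q + s • p) p p) s := by
  have h0 : ContDiff ℝ 1 (fderiv ℝ G) := hG.fderiv_right (by norm_num)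
  have h1 : HasFDerivAt (fderiv ℝ G) (fderiv ℝ (fderiv ℝ G) (q + s • p)) (q + s • p) :=
    (h0.differentiable (by norm_num) _).hasFDerivAt
  have h2 : HasDerivAt (fun s : ℝ => q + s • p) p s := by
    simpa using ((hasDerivAt_id s).smul_const p).const_add q
  have h3 := h1.comp_hasDerivAt s h2
  exact h3.clm_apply (hasDerivAt_const s p) |>.congr_deriv (by simp)

lemma A2c_fderiv_lip {C : ℝ} (hC : ∀ q, ‖fderiv ℝ (fderiv ℝ G) q‖ ≤ C) (q p : W) :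
    ‖fderiv ℝ G q - fderiv ℝ G p‖ ≤ C * ‖q - p‖ := by
  have h0 : ContDiff ℝ 1 (fderiv ℝ G) := hG.fderiv_right (by norm_num)
  exact convex_univ.norm_image_sub_le_of_norm_fderiv_le
    (fun x _ => h0.differentiable (by norm_num) x) (fun x _ => hC x) (mem_univ _) (mem_univ _)

lemma A2c_fun_lip {C : ℝ} (hC : ∀ q, ‖fderiv ℝ G q‖ ≤ C) (q p : W) :
    |G q - G p| ≤ C * ‖q - p‖ := by
  rw [← Real.norm_eq_abs]
  exact convex_univ.norm_image_sub_le_of_norm_fderiv_le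
    (fun x _ => hG.differentiable (by norm_num) x) (fun x _ => hC x) (mem_univ _) (mem_univ _)

end line

section A2c

variable {E : Type*} [NormedAddCommGroup E] [InnerProductSpace ℝ E]

/-! ### gradients of slices -/

/-- the joint function -/
def A2c_j (L : E → E → ℝ → ℝ) : E × E × ℝ → ℝ := fun p => L p.1 p.2.1 p.2.2

lemma A2c_inner_gu [CompleteSpace E] {L : E → E → ℝ → ℝ} (hL : ContDiff ℝ 2 (A2c_j L)) (x v : E) (t : ℝ)
    (w : E) : inner ℝ (gu L x v t) w = fderiv ℝ (A2c_j L) (x, v, t) (0, w, 0) := by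
  have h1 : HasFDerivAt (A2c_j L) (fderiv ℝ (A2c_j L) (x, v, t)) (x, v, t) :=
    (hL.differentiable (by norm_num) _).hasFDerivAt
  have h2 : HasFDerivAt (fun w : E => (x, w, t))
      ((0 : E →L[ℝ] E).prod ((ContinuousLinearMap.id ℝ E).prod (0 : E →L[ℝ] ℝ))) v :=
    (hasFDerivAt_const x v).prodMk ((hasFDerivAt_id v).prodMk (hasFDerivAt_const t v))
  have h3 := h1.comp v h2
  have h4 : fderiv ℝ (fun w => L x w t) v = (fderiv ℝ (A2c_j L) (x, v, t)).comp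
      ((0 : E →L[ℝ] E).prod ((ContinuousLinearMap.id ℝ E).prod (0 : E →L[ℝ] ℝ))) := h3.fderiv
  rw [gu, gradient, InnerProductSpace.toDual_symm_apply, h4]
  rfl

lemma A2c_inner_gx [CompleteSpace E] {L : E → E → ℝ → ℝ} (hL : ContDiff ℝ 2 (A2c_j L)) (x v : E) (t : ℝ)
    (w : E) : inner ℝ (gx L x v t) w = fderiv ℝ (A2c_j L) (x, v, t) (w, 0, 0) := by
  have h1 : HasFDerivAt (A2c_j L) (fderiv ℝ (A2c_j L) (x, v, t)) (x, v, t) :=
    (hL.differentiable (by norm_num) _).hasFDerivAt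
  have h2 : HasFDerivAt (fun y : E => (y, v, t))
      ((ContinuousLinearMap.id ℝ E).prod ((0 : E →L[ℝ] E).prod (0 : E →L[ℝ] ℝ))) x :=
    (hasFDerivAt_id x).prodMk ((hasFDerivAt_const v x).prodMk (hasFDerivAt_const t x))
  have h3 := h1.comp x h2
  have h4 : fderiv ℝ (fun y => L y v t) x = (fderiv ℝ (A2c_j L) (x, v, t)).comp
      ((ContinuousLinearMap.id ℝ E).prod ((0 : E →L[ℝ] E).prod (0 : E →L[ℝ] ℝ))) := h3.fderiv
  rw [gx, gradient, InnerProductSpace.toDual_symm_apply, h4]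
  rfl

lemma A2c_norm_le {g : E} {C : ℝ} (hC : 0 ≤ C) (h : ∀ w, inner ℝ g w ≤ C * ‖w‖) : ‖g‖ ≤ C := by
  have h1 := h g
  rw [real_inner_self_eq_norm_sq] at h1
  rcases (norm_nonneg g).eq_or_lt with h2 | h2
  · rw [← h2]; exact hC
  · nlinarith

lemma A2c_norm_v (w : E) : ‖((0 : E), w, (0 : ℝ))‖ = ‖w‖ := by
  simp [Prod.norm_def]

lemma A2c_norm_x (w : E) : ‖(w, (0 : E), (0 : ℝ))‖ = ‖w‖ := by
  simp [Prod.norm_def]

lemma A2c_norm_q (x v : E) (t : ℝ) : ‖(x, v, t)‖ ≤ ‖x‖ + ‖v‖ + |t| := by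
  rw [Prod.norm_def, Prod.norm_def]
  refine max_le ?_ (max_le ?_ ?_)
  · linarith [norm_nonneg v, abs_nonneg t]
  · linarith [norm_nonneg x, abs_nonneg t]
  · rw [Real.norm_eq_abs]
    linarith [norm_nonneg x, norm_nonneg v]

/-! ### the quadratic part -/

/-- the quadratic part -/
def A2c_N (c C : ℝ) : E × E × ℝ → ℝ := fun p => c * ‖p.2.1‖ ^ 2 - C

lemma A2c_N_smooth (c C : ℝ) : ContDiff ℝ 2 (A2c_N c C : E × E × ℝ → ℝ) := by
  have h1 : ContDiff ℝ 2 (fun p : E × E × ℝ => p.2.1) := contDiff_fst.comp contDiff_snd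
  exact (contDiff_const.mul (h1.norm_sq ℝ)).sub contDiff_const

lemma A2c_sq_deriv (c : ℝ) (v w : E) (s : ℝ) :
    HasDerivAt (fun s : ℝ => c * ‖v + s • w‖ ^ 2) (2 * c * inner ℝ (v + s • w) w) s := by
  have h2 : HasDerivAt (fun s : ℝ => v + s • w) w s := by
    simpa using ((hasDerivAt_id s).smul_const w).const_add v
  exact (h2.norm_sq.const_mul c).congr_deriv (by ring)

lemma A2c_inner_deriv (c : ℝ) (v w : E) (s : ℝ) :
    HasDerivAt (fun s : ℝ => 2 * c * inner ℝ (v + s • w) w) (2 * c * ‖w‖ ^ 2) s := by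
  have h2 : HasDerivAt (fun s : ℝ => v + s • w) w s := by
    simpa using ((hasDerivAt_id s).smul_const w).const_add v
  have h3 := (h2.inner ℝ (hasDerivAt_const s w)).const_mul (2 * c)
  exact h3.congr_deriv (by simp)

lemma A2c_N_fderiv (c C : ℝ) (q p : E × E × ℝ) :
    fderiv ℝ (A2c_N c C) q p = 2 * c * inner ℝ q.2.1 p.2.1 := by
  have h1 := A2c_line1 (A2c_N_smooth c C) q p 0
  have h2 : HasDerivAt (fun s : ℝ => A2c_N c C (q + s • p))
      (2 * c * inner ℝ (q.2.1 + (0 : ℝ) • p.2.1) p.2.1) 0 :=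
    (A2c_sq_deriv c q.2.1 p.2.1 0).sub_const C
  have h3 := h1.unique h2
  rwa [zero_smul, zero_smul, add_zero, add_zero] at h3

/-! ### periodic functions supported in a ball of velocities -/

/-- periodic and zero for large velocities -/
def A2c_PZ {ι : Type*} [Fintype ι] (β : Module.Basis ι ℝ E) (R' : ℝ) {Wt : Type*} [NormedAddCommGroup Wt]
    (Φ : E × E × ℝ → Wt) : Prop :=
  (∀ i x v t, Φ (x + β i, v, t) = Φ (x, v, t)) ∧ (∀ x v t, Φ (x, v, t + 1) = Φ (x, v, t)) ∧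
    ∀ x v t, R' < ‖v‖ → Φ (x, v, t) = 0

lemma A2c_PZ_fderiv {ι : Type*} [Fintype ι] {β : Module.Basis ι ℝ E} {R' : ℝ} {Wt : Type*}
    [NormedAddCommGroup Wt] [NormedSpace ℝ Wt] {Φ : E × E × ℝ → Wt} (h : A2c_PZ β R' Φ) :
    A2c_PZ β R' (fderiv ℝ Φ) := by
  have hadd : ∀ c : E × E × ℝ, (∀ p, Φ (p + c) = Φ p) → ∀ p, fderiv ℝ Φ (p + c) = fderiv ℝ Φ p := by
    intro c hc p
    have h1 : (fun p => Φ (p + c)) = Φ := funext hc
    have h2 := fderiv_comp_add_right (𝕜 := ℝ) (f := Φ) (x := p) c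
    rw [h1] at h2
    exact h2.symm
  refine ⟨fun i x v t => ?_, fun x v t => ?_, fun x v t hv => ?_⟩
  · have h1 := hadd (β i, 0, 0) (by
      rintro ⟨x, v, t⟩
      simp only [Prod.mk_add_mk, add_zero]
      exact h.1 i x v t) (x, v, t)
    simpa only [Prod.mk_add_mk, add_zero] using h1
  · have h1 := hadd (0, 0, 1) (by
      rintro ⟨x, v, t⟩
      simp only [Prod.mk_add_mk, add_zero]
      exact h.2.1 x v t) (x, v, t)
    simpa only [Prod.mk_add_mk, add_zero] using h1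
  · have hopen : IsOpen {p : E × E × ℝ | R' < ‖p.2.1‖} :=
      isOpen_lt continuous_const (continuous_fst.comp continuous_snd).norm
    have h1 : Φ =ᶠ[𝓝 (x, v, t)] fun _ => (0 : Wt) := by
      filter_upwards [hopen.mem_nhds hv] with p hp
      exact h.2.2 p.1 p.2.1 p.2.2 hp
    rw [h1.fderiv_eq]
    exact fderiv_const_apply (𝕜 := ℝ) (0 : Wt)

lemma A2c_bdd [FiniteDimensional ℝ E] {ι : Type*} [Fintype ι] {β : Module.Basis ι ℝ E} {R' : ℝ}
    {Wt : Type*} [NormedAddCommGroup Wt] {Φ : E × E × ℝ → Wt} (h : A2c_PZ β R' Φ) (hc : Continuous Φ) :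
    ∃ C : ℝ, 0 ≤ C ∧ ∀ q, ‖Φ q‖ ≤ C := by
  obtain ⟨C, hC, hb⟩ := per_bdd β hc h.1 h.2.1 R'
  refine ⟨C, hC, ?_⟩
  rintro ⟨x, v, t⟩
  by_cases hv : ‖v‖ ≤ R'
  · exact hb x v t hv
  · rw [h.2.2 x v t (not_le.1 hv), norm_zero]
    exact hC

/-! ### second derivative of `l` in the velocity -/

variable [FiniteDimensional ℝ E] {ι : Type*} [Fintype ι] {β : Module.Basis ι ℝ E} {F : E → E → ℝ}
  {mF MF m M : ℝ} {l : E → E → ℝ → ℝ}

lemma A2c_mono (h : TL β F mF MF m M l) (x v w : E) (t : ℝ) {s : ℝ} (hs : 0 < s) :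
    m * s * ‖w‖ ^ 2 ≤ inner ℝ (gu l x (v + s • w) t) w - inner ℝ (gu l x v t) w := by
  have h1 := h.conv x (v + s • w) v t
  have h2 := h.conv x v (v + s • w) t
  rw [add_sub_cancel_left, inner_smul_right, norm_smul, mul_pow, Real.norm_eq_abs, sq_abs] at h1
  have e1 : v - (v + s • w) = -(s • w) := by abel
  rw [e1, inner_neg_right, inner_smul_right, norm_neg, norm_smul, mul_pow, Real.norm_eq_abs,
    sq_abs] at h2
  have h3 : s * (m * s * ‖w‖ ^ 2) ≤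
      s * (inner ℝ (gu l x (v + s • w) t) w - inner ℝ (gu l x v t) w) := by nlinarith
  exact le_of_mul_le_mul_left h3 hs

lemma A2c_conv2 (h : TL β F mF MF m M l) (x v w : E) (t : ℝ) :
    m * ‖w‖ ^ 2 ≤ fderiv ℝ (fderiv ℝ (A2c_j l)) (x, v, t) (0, w, 0) (0, w, 0) := by
  have hd := A2c_line2 (G := A2c_j l) h.smooth (x, v, t) (0, w, 0) 0
  rw [zero_smul, add_zero] at hd
  have ht := hd.tendsto_slope_zero_right
  refine ge_of_tendsto ht ?_
  filter_upwards [self_mem_nhdsWithin] with s hs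
  have hs' : 0 < s := hs
  have e1 : ∀ r : ℝ, ((x, v, t) : E × E × ℝ) + r • ((0, w, 0) : E × E × ℝ) = (x, v + r • w, t) := by
    intro r
    simp
  have h1 := A2c_mono h x v w t hs'
  rw [A2c_inner_gu h.smooth, A2c_inner_gu h.smooth] at h1
  rw [zero_add, e1, e1, zero_smul, add_zero, smul_eq_mul]
  rw [le_inv_mul_iff₀ hs']
  linarith


/-! ### the cut-off -/

/-- the cut-off Lagrangian -/
def A2c_cut (m C : ℝ) (χ : E → ℝ) (l : E → E → ℝ → ℝ) : E → E → ℝ → ℝ := fun x v t =>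
  m / 4 * ‖v‖ ^ 2 - C + χ v * (l x v t - (m / 4 * ‖v‖ ^ 2 - C))

/-- the compactly supported part -/
def A2c_H (m C : ℝ) (χ : E → ℝ) (l : E → E → ℝ → ℝ) : E × E × ℝ → ℝ := fun p =>
  χ p.2.1 * (A2c_j l p - A2c_N (m / 4) C p)

lemma A2c_j_cut (m C : ℝ) (χ : E → ℝ) (l : E → E → ℝ → ℝ) (p : E × E × ℝ) :
    A2c_j (A2c_cut m C χ l) p = A2c_N (m / 4) C p + A2c_H m C χ l p := rfl

lemma A2c_H_smooth (C : ℝ) {χ : E → ℝ} (hχ : ContDiff ℝ 2 χ) (hl : ContDiff ℝ 2 (A2c_j l)) :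
    ContDiff ℝ 2 (A2c_H m C χ l) := by
  have h1 : ContDiff ℝ 2 (fun p : E × E × ℝ => p.2.1) := contDiff_fst.comp contDiff_snd
  exact (hχ.comp h1).mul (hl.sub (A2c_N_smooth _ _))

lemma A2c_cut_smooth (C : ℝ) {χ : E → ℝ} (hχ : ContDiff ℝ 2 χ) (hl : ContDiff ℝ 2 (A2c_j l)) :
    ContDiff ℝ 2 (A2c_j (A2c_cut m C χ l)) :=
  (A2c_N_smooth (m / 4) C).add (A2c_H_smooth C hχ hl)

lemma A2c_cut_fderiv (C : ℝ) {χ : E → ℝ} (hχ : ContDiff ℝ 2 χ) (hl : ContDiff ℝ 2 (A2c_j l))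
    (q p : E × E × ℝ) : fderiv ℝ (A2c_j (A2c_cut m C χ l)) q p =
      m / 2 * inner ℝ q.2.1 p.2.1 + fderiv ℝ (A2c_H m C χ l) q p := by
  have h1 : fderiv ℝ (A2c_j (A2c_cut m C χ l)) q =
      fderiv ℝ (A2c_N (m / 4) C) q + fderiv ℝ (A2c_H m C χ l) q :=
    fderiv_add ((A2c_N_smooth (m / 4) C).differentiable (by norm_num) q)
      ((A2c_H_smooth C hχ hl).differentiable (by norm_num) q)
  rw [h1, ContinuousLinearMap.add_apply, A2c_N_fderiv]
  ring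

/-- convexity of the cut-off -/
lemma A2c_low (h : TL β F mF MF m M l) {χ : E → ℝ} (hχ : ContDiff ℝ 2 χ) (h0 : ∀ v, 0 ≤ χ v) {κ : ℝ}
    (hκ : 0 ≤ κ)
    (h1 : ∀ v w, |fderiv ℝ χ v w| * (1 + ‖v‖) ≤ κ * ‖w‖)
    (h2 : ∀ v w, |fderiv ℝ (fderiv ℝ χ) v w w| * (1 + ‖v‖) ^ 2 ≤ κ * ‖w‖ ^ 2) {C CG Cd : ℝ}
    (hG0 : ∀ x v t, 0 ≤ l x v t - (m / 4 * ‖v‖ ^ 2 - C))
    (hG : ∀ x v t, l x v t - (m / 4 * ‖v‖ ^ 2 - C) ≤ CG * (1 + ‖v‖) ^ 2) (hCG : 0 ≤ CG)
    (hd : ∀ x v t w, |inner ℝ (gu l x v t) w - m / 2 * inner ℝ v w| ≤ Cd * (1 + ‖v‖) * ‖w‖)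
    (hCd : 0 ≤ Cd)
    (hκ' : κ * (CG + 2 * Cd) ≤ m / 4) (x u v : E) (t : ℝ) :
    A2c_cut m C χ l x v t + inner ℝ (gu (A2c_cut m C χ l) x v t) (u - v) +
      m / 4 / 2 * ‖u - v‖ ^ 2 ≤ A2c_cut m C χ l x u t := by
  set w := u - v with hw
  have e1 : ∀ r : ℝ, ((x, v, t) : E × E × ℝ) + r • ((0, w, 0) : E × E × ℝ) = (x, v + r • w, t) := by
    intro r
    simp
  -- the functions on the line
  have ha1 := A2c_line1 hχ v w
  have ha2 := A2c_line2 hχ v w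
  have hg1 := A2c_line1 (G := A2c_j l) h.smooth (x, v, t) (0, w, 0)
  have hg2 := A2c_line2 (G := A2c_j l) h.smooth (x, v, t) (0, w, 0)
  have hn1 : ∀ s : ℝ, HasDerivAt (fun s : ℝ => m / 4 * ‖v + s • w‖ ^ 2 - C)
      (2 * (m / 4) * inner ℝ (v + s • w) w) s := fun s => (A2c_sq_deriv (m / 4) v w s).sub_const C
  have hn2 := A2c_inner_deriv (m / 4) v w
  simp only [e1] at hg1 hg2
  set a : ℝ → ℝ := fun s => χ (v + s • w) with ha
  set a' : ℝ → ℝ := fun s => fderiv ℝ χ (v + s • w) w with ha'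
  set a'' : ℝ → ℝ := fun s => fderiv ℝ (fderiv ℝ χ) (v + s • w) w w with ha''
  set g : ℝ → ℝ := fun s => A2c_j l (x, v + s • w, t) with hg
  set g' : ℝ → ℝ := fun s => fderiv ℝ (A2c_j l) (x, v + s • w, t) (0, w, 0) with hg'
  set g'' : ℝ → ℝ := fun s =>
    fderiv ℝ (fderiv ℝ (A2c_j l)) (x, v + s • w, t) (0, w, 0) (0, w, 0) with hg''
  set n : ℝ → ℝ := fun s => m / 4 * ‖v + s • w‖ ^ 2 - C with hn
  set n' : ℝ → ℝ := fun s => 2 * (m / 4) * inner ℝ (v + s • w) w with hn'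
  have hφ1 : ∀ s, HasDerivAt (fun s => n s + a s * (g s - n s))
      (n' s + (a' s * (g s - n s) + a s * (g' s - n' s))) s := fun s =>
    (hn1 s).add ((ha1 s).mul ((hg1 s).sub (hn1 s)))
  have hφ2 : ∀ s, HasDerivAt (fun s => n' s + (a' s * (g s - n s) + a s * (g' s - n' s)))
      (2 * (m / 4) * ‖w‖ ^ 2 + ((a'' s * (g s - n s) + a' s * (g' s - n' s)) +
        (a' s * (g' s - n' s) + a s * (g'' s - 2 * (m / 4) * ‖w‖ ^ 2)))) s := fun s =>
    (hn2 s).add (((ha2 s).mul ((hg1 s).sub (hn1 s))).add ((ha1 s).mul ((hg2 s).sub (hn2 s))))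
  have hm := h.m_pos
  have hlow : ∀ s, m / 4 * ‖w‖ ^ 2 ≤ 2 * (m / 4) * ‖w‖ ^ 2 + ((a'' s * (g s - n s) +
      a' s * (g' s - n' s)) + (a' s * (g' s - n' s) + a s * (g'' s - 2 * (m / 4) * ‖w‖ ^ 2))) := by
    intro s
    have b1 : 0 ≤ g s - n s := hG0 x (v + s • w) t
    have b2 : g s - n s ≤ CG * (1 + ‖v + s • w‖) ^ 2 := hG x (v + s • w) t
    have b3 : |g' s - n' s| ≤ Cd * (1 + ‖v + s • w‖) * ‖w‖ := by
      have := hd x (v + s • w) t w
      rw [A2c_inner_gu h.smooth] at this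
      have e2 : n' s = m / 2 * inner ℝ (v + s • w) w := by
        simp only [hn']
        ring
      rw [e2]
      exact this
    have b4 : m * ‖w‖ ^ 2 ≤ g'' s := A2c_conv2 h x (v + s • w) w t
    have b5 := h1 (v + s • w) w
    have b6 := h2 (v + s • w) w
    have b7 : 0 ≤ a s := h0 _
    set ρ := 1 + ‖v + s • w‖ with hρ
    have hρ0 : 0 < ρ := by positivity
    -- first term
    have c1 : -(κ * CG * ‖w‖ ^ 2) ≤ a'' s * (g s - n s) := by
      have d1 : |a'' s * (g s - n s)| ≤ κ * CG * ‖w‖ ^ 2 := by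
        rw [abs_mul, abs_of_nonneg b1]
        calc |a'' s| * (g s - n s) ≤ |a'' s| * (CG * ρ ^ 2) := by gcongr
          _ = CG * (|a'' s| * ρ ^ 2) := by ring
          _ ≤ CG * (κ * ‖w‖ ^ 2) := by gcongr
          _ = κ * CG * ‖w‖ ^ 2 := by ring
      exact (abs_le.1 d1).1
    have c2 : -(κ * Cd * ‖w‖ ^ 2) ≤ a' s * (g' s - n' s) := by
      have d1 : |a' s * (g' s - n' s)| ≤ κ * Cd * ‖w‖ ^ 2 := by
        rw [abs_mul]
        calc |a' s| * |g' s - n' s| ≤ |a' s| * (Cd * ρ * ‖w‖) := by gcongr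
          _ = Cd * ‖w‖ * (|a' s| * ρ) := by ring
          _ ≤ Cd * ‖w‖ * (κ * ‖w‖) := by gcongr
          _ = κ * Cd * ‖w‖ ^ 2 := by ring
      exact (abs_le.1 d1).1
    have c3 : 0 ≤ a s * (g'' s - 2 * (m / 4) * ‖w‖ ^ 2) := by
      apply mul_nonneg b7
      nlinarith [sq_nonneg ‖w‖]
    have c4 : κ * (CG + 2 * Cd) * ‖w‖ ^ 2 ≤ m / 4 * ‖w‖ ^ 2 := by gcongr
    nlinarith
  have ht := A2c_t2 hφ1 hφ2 hlow
  -- the value at 0 and 1
  have hcs := A2c_cut_smooth (m := m) C hχ (l := l) h.smooth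
  have hline := A2c_line1 hcs (x, v, t) (0, w, 0) 0
  simp only [e1] at hline
  have huniq := hline.unique (hφ1 0)
  rw [zero_smul, add_zero, ← A2c_inner_gu hcs] at huniq
  rw [← huniq] at ht
  have f0 : n 0 + a 0 * (g 0 - n 0) = A2c_cut m C χ l x v t := by
    simp only [hn, ha, hg, zero_smul, add_zero]
    rfl
  have f1 : n 1 + a 1 * (g 1 - n 1) = A2c_cut m C χ l x u t := by
    have e3 : v + (1 : ℝ) • w = u := by
      rw [one_smul, hw]
      abel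
    simp only [hn, ha, hg, e3]
    rfl
  have ht' : n 0 + a 0 * (g 0 - n 0) + inner ℝ (gu (A2c_cut m C χ l) x v t) w +
      m / 4 * ‖w‖ ^ 2 / 2 ≤ n 1 + a 1 * (g 1 - n 1) := ht
  rw [f0, f1] at ht'
  linarith


lemma A2c_gen1 {W : Type*} [NormedAddCommGroup W] [NormedSpace ℝ W] {G : W → ℝ} (hG : ContDiff ℝ 2 G)
    {C : ℝ} (hC : ∀ q, ‖fderiv ℝ (fderiv ℝ G) q‖ ≤ C) (q q' p : W) :
    fderiv ℝ G q p - fderiv ℝ G q' p ≤ C * ‖q - q'‖ * ‖p‖ := by
  have h1 : fderiv ℝ G q p - fderiv ℝ G q' p = (fderiv ℝ G q - fderiv ℝ G q') p := rfl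
  rw [h1]
  refine (le_abs_self _).trans ?_
  rw [← Real.norm_eq_abs]
  refine (ContinuousLinearMap.le_opNorm _ _).trans ?_
  have h2 := A2c_fderiv_lip hG hC q q'
  gcongr

lemma A2c_gen2 {W : Type*} [NormedAddCommGroup W] [NormedSpace ℝ W] {G : W → ℝ}
    {C : ℝ} (hC : ∀ q, ‖fderiv ℝ (fderiv ℝ G) q‖ ≤ C) (q p : W) :
    |fderiv ℝ (fderiv ℝ G) q p p| ≤ C * ‖p‖ ^ 2 := by
  rw [← Real.norm_eq_abs]
  refine (ContinuousLinearMap.le_opNorm₂ _ _ _).trans ?_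
  calc _ ≤ C * ‖p‖ * ‖p‖ := by gcongr; exact hC _
    _ = C * ‖p‖ ^ 2 := by ring

lemma A2c_lip_gu {L : E → E → ℝ → ℝ} {H : E × E × ℝ → ℝ}
    {Cb : ℝ} (hCb : 0 ≤ Cb)
    (hb : ∀ q q' p, fderiv ℝ H q p - fderiv ℝ H q' p ≤ Cb * ‖q - q'‖ * ‖p‖) (hm : 0 ≤ m)
    (hgu : ∀ x v t w, inner ℝ (gu L x v t) w = m / 2 * inner ℝ v w + fderiv ℝ H (x, v, t) (0, w, 0))
    (x v : E) (t : ℝ) (x' v' : E) (t' : ℝ) :
    ‖gu L x v t - gu L x' v' t'‖ ≤ (m / 2 + Cb) * (‖x - x'‖ + ‖v - v'‖ + |t - t'|) := by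
  have hq : ‖((x, v, t) : E × E × ℝ) - (x', v', t')‖ ≤ ‖x - x'‖ + ‖v - v'‖ + |t - t'| := by
    have := A2c_norm_q (x - x') (v - v') (t - t')
    simpa using this
  apply A2c_norm_le (by positivity)
  intro w
  rw [inner_sub_left, hgu, hgu]
  have h1 : fderiv ℝ H (x, v, t) (0, w, 0) - fderiv ℝ H (x', v', t') (0, w, 0) ≤
      Cb * (‖x - x'‖ + ‖v - v'‖ + |t - t'|) * ‖w‖ := by
    refine (hb _ _ _).trans ?_
    rw [A2c_norm_v]
    gcongr
  have h3 : m / 2 * inner ℝ v w - m / 2 * inner ℝ v' w ≤ m / 2 * (‖x - x'‖ + ‖v - v'‖ + |t - t'|) * ‖w‖ := by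
    rw [← mul_sub, ← inner_sub_left]
    have h4 : inner ℝ (v - v') w ≤ ‖v - v'‖ * ‖w‖ := real_inner_le_norm _ _
    have h5 : ‖v - v'‖ * ‖w‖ ≤ (‖x - x'‖ + ‖v - v'‖ + |t - t'|) * ‖w‖ := by
      gcongr
      linarith [norm_nonneg (x - x'), abs_nonneg (t - t')]
    calc _ ≤ m / 2 * ((‖x - x'‖ + ‖v - v'‖ + |t - t'|) * ‖w‖) := by
          apply mul_le_mul_of_nonneg_left (h4.trans h5) (by linarith)
      _ = _ := by ring
  calc _ = (m / 2 * inner ℝ v w - m / 2 * inner ℝ v' w) +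
        (fderiv ℝ H (x, v, t) (0, w, 0) - fderiv ℝ H (x', v', t') (0, w, 0)) := by ring
    _ ≤ _ := add_le_add h3 h1
    _ = _ := by ring

lemma A2c_lip_gx {L : E → E → ℝ → ℝ} {H : E × E × ℝ → ℝ}
    {Cb : ℝ} (hCb : 0 ≤ Cb) (hb : ∀ q q' p, fderiv ℝ H q p - fderiv ℝ H q' p ≤ Cb * ‖q - q'‖ * ‖p‖)
    (hgx : ∀ x v t w, inner ℝ (gx L x v t) w = fderiv ℝ H (x, v, t) (w, 0, 0))
    (x v : E) (t : ℝ) (x' v' : E) (t' : ℝ) :
    ‖gx L x v t - gx L x' v' t'‖ ≤ Cb * (‖x - x'‖ + ‖v - v'‖ + |t - t'|) := by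
  have hq : ‖((x, v, t) : E × E × ℝ) - (x', v', t')‖ ≤ ‖x - x'‖ + ‖v - v'‖ + |t - t'| := by
    have := A2c_norm_q (x - x') (v - v') (t - t')
    simpa using this
  apply A2c_norm_le (by positivity)
  intro w
  rw [inner_sub_left, hgx, hgx]
  refine (hb _ _ _).trans ?_
  rw [A2c_norm_x]
  gcongr

lemma A2c_tay {L : E → E → ℝ → ℝ} {H : E × E × ℝ → ℝ} (hH : ContDiff ℝ 2 H) {C : ℝ}
    {Cb : ℝ} (hCb : 0 ≤ Cb) (hb : ∀ q p, |fderiv ℝ (fderiv ℝ H) q p p| ≤ Cb * ‖p‖ ^ 2) (hm : 0 ≤ m)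
    (hL : ∀ x v t, L x v t = m / 4 * ‖v‖ ^ 2 - C + H (x, v, t))
    (hgu : ∀ x v t w, inner ℝ (gu L x v t) w = m / 2 * inner ℝ v w + fderiv ℝ H (x, v, t) (0, w, 0))
    (hgx : ∀ x v t w, inner ℝ (gx L x v t) w = fderiv ℝ H (x, v, t) (w, 0, 0))
    (x v x' v' : E) (t : ℝ) :
    |L x' v' t - L x v t - inner ℝ (gx L x v t) (x' - x) - inner ℝ (gu L x v t) (v' - v)| ≤
      (m / 4 + Cb) * (‖x' - x‖ + ‖v' - v‖) ^ 2 := by
  set p : E × E × ℝ := (x' - x, v' - v, 0) with hp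
  have hpn : ‖p‖ ≤ ‖x' - x‖ + ‖v' - v‖ := by
    have := A2c_norm_q (x' - x) (v' - v) 0
    rwa [abs_zero, add_zero] at this
  have h1 := A2c_t2_abs (A2c_line1 hH (x, v, t) p) (A2c_line2 hH (x, v, t) p)
    (κ := Cb * (‖x' - x‖ + ‖v' - v‖) ^ 2) (fun s => (hb _ _).trans (by gcongr))
  have e1 : ((x, v, t) : E × E × ℝ) + (1 : ℝ) • p = (x', v', t) := by
    rw [one_smul, hp]
    simp
  have e0 : ((x, v, t) : E × E × ℝ) + (0 : ℝ) • p = (x, v, t) := by simp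
  have e2 : p = (x' - x, 0, 0) + (0, v' - v, 0) := by
    rw [hp]
    simp
  rw [e1, e0] at h1
  have e3 : fderiv ℝ H (x, v, t) p = inner ℝ (gx L x v t) (x' - x) +
      (inner ℝ (gu L x v t) (v' - v) - m / 2 * inner ℝ v (v' - v)) := by
    rw [hgx, hgu]
    conv_lhs => rw [e2, map_add]
    ring
  rw [e3] at h1
  have e4 : ‖v'‖ ^ 2 = ‖v‖ ^ 2 + 2 * inner ℝ v (v' - v) + ‖v' - v‖ ^ 2 := by
    have := norm_add_sq_real v (v' - v)
    rwa [add_sub_cancel] at this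
  rw [hL, hL, e4]
  have h2 : ‖v' - v‖ ^ 2 ≤ (‖x' - x‖ + ‖v' - v‖) ^ 2 := by
    gcongr
    linarith [norm_nonneg (x' - x)]
  have h3 : 0 ≤ ‖v' - v‖ ^ 2 := by positivity
  have h4 : 0 ≤ Cb * (‖x' - x‖ + ‖v' - v‖) ^ 2 := by positivity
  have h5 : m / 4 * ‖v' - v‖ ^ 2 ≤ m / 4 * (‖x' - x‖ + ‖v' - v‖) ^ 2 := by gcongr
  have h6 : 0 ≤ m / 4 * ‖v' - v‖ ^ 2 := by positivity
  rw [abs_le] at h1 ⊢
  constructor
  · linarith [h1.1]
  · linarith [h1.2]

theorem TL.exists_cut (h : TL β F mF MF m M l) (R : ℝ) : ∃ (l' : E → E → ℝ → ℝ)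
    (lx' lu' : E → E → ℝ → E) (Λ : ℝ), Cut l l' lx' lu' m (C1 MF m M) M R Λ := by
  have hm := h.m_pos
  have hM := h.M_nonneg
  have hcG : 0 ≤ cG MF M := by unfold cG; positivity
  have hC : 0 ≤ C1 MF m M := by unfold C1; positivity
  set C := C1 MF m M with hCdef
  set CG := MF ^ 2 / 2 + M + C with hCG
  set Cd := cG MF M + m / 2 with hCd
  have hCG0 : 0 ≤ CG := by positivity
  have hCd0 : 0 ≤ Cd := by positivity
  obtain ⟨κ, hκ, hκ'⟩ : ∃ κ : ℝ, 0 < κ ∧ κ * (CG + 2 * Cd) ≤ m / 4 := by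
    refine ⟨m / 4 / (CG + 2 * Cd + 1), by positivity, ?_⟩
    rw [div_mul_eq_mul_div, div_le_iff₀ (by positivity)]
    nlinarith
  obtain ⟨χ, R', hχ, h01, hχ1, hχ0, hd1, hd2⟩ := exists_chi E hκ (R + 1)
  have hG0 : ∀ x v t, 0 ≤ l x v t - (m / 4 * ‖v‖ ^ 2 - C) := by
    intro x v t
    linarith [h.low x v t]
  have hG : ∀ x v t, l x v t - (m / 4 * ‖v‖ ^ 2 - C) ≤ CG * (1 + ‖v‖) ^ 2 := by
    intro x v t
    have h1 := h.upp x v t
    have h2 : 0 ≤ ‖v‖ := norm_nonneg v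
    have h3 : MF ^ 2 / 2 * ‖v‖ ^ 2 ≤ MF ^ 2 / 2 * (1 + ‖v‖) ^ 2 := by
      gcongr
      linarith
    have h4 : (M + C) * 1 ≤ (M + C) * (1 + ‖v‖) ^ 2 := by
      gcongr
      nlinarith
    have h5 : 0 ≤ m / 4 * ‖v‖ ^ 2 := by positivity
    rw [hCG]
    nlinarith
  have hd : ∀ x v t w, |inner ℝ (gu l x v t) w - m / 2 * inner ℝ v w| ≤ Cd * (1 + ‖v‖) * ‖w‖ := by
    intro x v t w
    have h1 : |inner ℝ (gu l x v t) w| ≤ cG MF M * (1 + ‖v‖) * ‖w‖ :=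
      (abs_real_inner_le_norm _ _).trans (by gcongr; exact h.gu_bd x v t)
    have h2 : |m / 2 * inner ℝ v w| ≤ m / 2 * (1 + ‖v‖) * ‖w‖ := by
      rw [abs_mul, abs_of_pos (by positivity : (0:ℝ) < m / 2), mul_assoc]
      gcongr
      refine (abs_real_inner_le_norm _ _).trans ?_
      gcongr
      linarith
    calc _ ≤ |inner ℝ (gu l x v t) w| + |m / 2 * inner ℝ v w| := abs_sub _ _
      _ ≤ _ := add_le_add h1 h2
      _ = _ := by rw [hCd]; ring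
  have hHs : ContDiff ℝ 2 (A2c_H m C χ l) := A2c_H_smooth C hχ h.smooth
  have hPZ : A2c_PZ β R' (A2c_H m C χ l) := by
    refine ⟨fun i x v t => ?_, fun x v t => ?_, fun x v t hv => ?_⟩
    · show χ v * (l (x + β i) v t - (m / 4 * ‖v‖ ^ 2 - C)) = χ v * (l x v t - (m / 4 * ‖v‖ ^ 2 - C))
      rw [h.per]
    · show χ v * (l x v (t + 1) - (m / 4 * ‖v‖ ^ 2 - C)) = χ v * (l x v t - (m / 4 * ‖v‖ ^ 2 - C))
      rw [h.pert]
    · show χ v * (l x v t - (m / 4 * ‖v‖ ^ 2 - C)) = 0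
      rw [hχ0 v hv.le, zero_mul]
  obtain ⟨Ch, hCh, hHb⟩ := A2c_bdd hPZ hHs.continuous
  obtain ⟨Ca, hCa, hHa⟩ := A2c_bdd (A2c_PZ_fderiv hPZ) (hHs.continuous_fderiv (by norm_num))
  have hH1 : ContDiff ℝ 1 (fderiv ℝ (A2c_H m C χ l)) := hHs.fderiv_right (by norm_num)
  obtain ⟨Cb, hCb, hHbb⟩ := A2c_bdd (A2c_PZ_fderiv (A2c_PZ_fderiv hPZ))
    (hH1.continuous_fderiv (by norm_num))
  have hcs := A2c_cut_smooth (m := m) C hχ (l := l) h.smooth
  have hgu : ∀ x v t w, inner ℝ (gu (A2c_cut m C χ l) x v t) w =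
      m / 2 * inner ℝ v w + fderiv ℝ (A2c_H m C χ l) (x, v, t) (0, w, 0) := by
    intro x v t w
    rw [A2c_inner_gu hcs, A2c_cut_fderiv C hχ h.smooth]
  have hgx : ∀ x v t w, inner ℝ (gx (A2c_cut m C χ l) x v t) w =
      fderiv ℝ (A2c_H m C χ l) (x, v, t) (w, 0, 0) := by
    intro x v t w
    rw [A2c_inner_gx hcs, A2c_cut_fderiv C hχ h.smooth, inner_zero_right, mul_zero, zero_add]
  have hL : ∀ x v t, A2c_cut m C χ l x v t = m / 4 * ‖v‖ ^ 2 - C + A2c_H m C χ l (x, v, t) :=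
    fun x v t => rfl
  have hg1 : ∀ q q' p, fderiv ℝ (A2c_H m C χ l) q p - fderiv ℝ (A2c_H m C χ l) q' p ≤
      Cb * ‖q - q'‖ * ‖p‖ := A2c_gen1 hHs hHbb
  have hg2 : ∀ q p, |fderiv ℝ (fderiv ℝ (A2c_H m C χ l)) q p p| ≤ Cb * ‖p‖ ^ 2 := A2c_gen2 hHbb
  have htay := A2c_tay hHs hCb hg2 hm.le hL hgu hgx
  have hlt : ∀ x v t t', |A2c_cut m C χ l x v t - A2c_cut m C χ l x v t'| ≤ M * |t - t'| := by
    intro x v t t'
    have e1 : A2c_cut m C χ l x v t - A2c_cut m C χ l x v t' = χ v * (l x v t - l x v t') := by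
      unfold A2c_cut
      ring
    rw [e1, abs_mul, abs_of_nonneg (h01 v).1]
    calc χ v * |l x v t - l x v t'| ≤ 1 * (M * |t - t'|) := by
          gcongr
          · exact (h01 v).2
          · exact h.l_t x v t t'
      _ = _ := one_mul _
  set Λ := 1 + M + m + Ca + Cb + Ch + C with hΛ
  have hgxb : ∀ x v t, ‖gx (A2c_cut m C χ l) x v t‖ ≤ Ca := by
    intro x v t
    apply A2c_norm_le hCa
    intro w
    rw [hgx]
    refine (le_abs_self _).trans ?_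
    rw [← Real.norm_eq_abs]
    refine (ContinuousLinearMap.le_opNorm _ _).trans ?_
    rw [A2c_norm_x]
    gcongr
    exact hHa _
  refine ⟨A2c_cut m C χ l, gx (A2c_cut m C χ l), gu (A2c_cut m C χ l), Λ, ?_⟩
  refine
    { cl :=
        { m_pos := by positivity
          Λ_ge := by rw [hΛ]; linarith
          low := fun x u v t => A2c_low h hχ (fun v => (h01 v).1) hκ.le hd1 hd2 hG0 hG hCG0 hd hCd0
            hκ' x u v t
          upp := fun x u v t => ?_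
          l_x := fun x x' v t => ?_
          l_t := fun x v t t' => (hlt x v t t').trans (by
            gcongr
            rw [hΛ]; linarith)
          lu_lip := fun x v t x' v' t' => (A2c_lip_gu hCb hg1 hm.le hgu x v t x' v' t').trans (by
            gcongr
            rw [hΛ]; linarith)
          c0 := fun x t => ?_
          c1 := fun x t => ?_
          tay := fun x v x' v' t => (htay x v x' v' t).trans (by
            gcongr
            rw [hΛ]; linarith)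
          lx_bd := fun x v t => (hgxb x v t).trans (by rw [hΛ]; linarith)
          lx_lip := fun x v t x' v' t' => (A2c_lip_gx hCb hg1 hgx x v t x' v' t').trans (by
            gcongr
            rw [hΛ]; linarith) }
      le := fun x u t => ?_
      low := fun x u t => ?_
      eq := fun x u t hu => ?_
      equ := fun x u t hu => ?_
      eqx := fun x u t hu => ?_
      l_t := hlt }
  · have h1 := htay x v x u t
    rw [sub_self, inner_zero_right, norm_zero, zero_add, sub_zero] at h1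
    have h2 := (abs_le.1 h1).2
    have h3 : (m / 4 + Cb) * ‖u - v‖ ^ 2 ≤ Λ * ‖u - v‖ ^ 2 := by
      gcongr
      rw [hΛ]; linarith
    linarith
  · have h1 := A2c_fun_lip hHs hHa (x, v, t) (x', v, t)
    have e1 : A2c_cut m C χ l x v t - A2c_cut m C χ l x' v t =
        A2c_H m C χ l (x, v, t) - A2c_H m C χ l (x', v, t) := by
      rw [hL, hL]
      ring
    rw [e1]
    refine h1.trans ?_
    have e2 : ((x, v, t) : E × E × ℝ) - (x', v, t) = (x - x', 0, 0) := by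
      rw [Prod.mk_sub_mk, Prod.mk_sub_mk, sub_self, sub_self]
    rw [e2, A2c_norm_x]
    gcongr
    rw [hΛ]; linarith
  · rw [hL, norm_zero]
    have h1 := hHb (x, 0, t)
    rw [Real.norm_eq_abs] at h1
    have h2 := abs_le.1 h1
    rw [abs_le, hΛ]
    constructor
    · nlinarith [h2.1]
    · nlinarith [h2.2]
  · have h1 : ‖gu (A2c_cut m C χ l) x 0 t‖ ≤ Ca := by
      apply A2c_norm_le hCa
      intro w
      rw [hgu, inner_zero_left, mul_zero, zero_add]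
      refine (le_abs_self _).trans ?_
      rw [← Real.norm_eq_abs]
      refine (ContinuousLinearMap.le_opNorm _ _).trans ?_
      rw [A2c_norm_v]
      gcongr
      exact hHa _
    exact h1.trans (by rw [hΛ]; linarith)
  · have h1 := (h01 u).2
    have h2 := hG0 x u t
    show m / 4 * ‖u‖ ^ 2 - C + χ u * (l x u t - (m / 4 * ‖u‖ ^ 2 - C)) ≤ l x u t
    nlinarith
  · have h1 := (h01 u).1
    have h2 := hG0 x u t
    show m / 4 * ‖u‖ ^ 2 - C ≤ m / 4 * ‖u‖ ^ 2 - C + χ u * (l x u t - (m / 4 * ‖u‖ ^ 2 - C))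
    have := mul_nonneg h1 h2
    linarith
  · show m / 4 * ‖u‖ ^ 2 - C + χ u * (l x u t - (m / 4 * ‖u‖ ^ 2 - C)) = l x u t
    rw [hχ1 u (by linarith)]
    ring
  · have h1 : (fun w => A2c_cut m C χ l x w t) =ᶠ[𝓝 u] fun w => l x w t := by
      have hopen : IsOpen {w : E | ‖w‖ < R + 1} := isOpen_lt continuous_norm continuous_const
      filter_upwards [hopen.mem_nhds (show ‖u‖ < R + 1 by linarith)] with w hw
      show m / 4 * ‖w‖ ^ 2 - C + χ w * (l x w t - (m / 4 * ‖w‖ ^ 2 - C)) = l x w t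
      rw [hχ1 w (le_of_lt hw)]
      ring
    rw [gu, gu, gradient, gradient, h1.fderiv_eq]
  · have h1 : (fun y => A2c_cut m C χ l y u t) = fun y => l y u t := by
      funext y
      show m / 4 * ‖u‖ ^ 2 - C + χ u * (l y u t - (m / 4 * ‖u‖ ^ 2 - C)) = l y u t
      rw [hχ1 u (by linarith)]
      ring
    rw [gx, gx, h1]

end A2c

end EscG
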