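import Pool.Agent.EscG.ADefs
import Pool.Agent.EscF.O5

/-!
Project EscG, module A3a: the energy of a kernel geodesic varies with speed at most `M`; speed bound for
the kernel geodesics of cut-off Lagrangians, uniform in the cut-off.
-/

noncomputable section

namespace EscG

open MeasureTheory Set Filter Topology Esc EscF
open scoped ContDiff

namespace A3a

/-- a function with increments at most `M h + K h²` is Lipschitz with constant `M` -/
theorem sub_lip {e : ℝ → ℝ} {a b M K : ℝ}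
    (h : ∀ s ∈ Icc a b, ∀ t ∈ Icc a b, s ≤ t → |e t - e s| ≤ M * (t - s) + K * (t - s) ^ 2) :
    ∀ s ∈ Icc a b, ∀ t ∈ Icc a b, s ≤ t → |e t - e s| ≤ M * (t - s) := by
  intro s hs t ht hst
  refine le_of_forall_pos_le_add fun ε hε => ?_
  obtain ⟨n, hn⟩ := exists_nat_gt (max (K * (t - s) ^ 2 / ε) 0)
  have hn0 : (0:ℝ) < n := lt_of_le_of_lt (le_max_right _ _) hn
  have hn1 : K * (t - s) ^ 2 / ε < n := lt_of_le_of_lt (le_max_left _ _) hn
  set δ : ℝ := (t - s) / n with hδ
  have hδ0 : 0 ≤ δ := div_nonneg (by linarith) hn0.le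
  have hδn : (n:ℝ) * δ = t - s := by
    rw [hδ]
    field_simp
  have key : ∀ k : ℕ, k ≤ n → |e (s + k * δ) - e s| ≤ k * (M * δ + K * δ ^ 2) := by
    intro k
    induction k with
    | zero => intro _; simp
    | succ k ih =>
      intro hk
      have hk' : (k:ℝ) + 1 ≤ n := by exact_mod_cast hk
      have h1 := ih (by omega)
      have h2 : ((k:ℝ) + 1) * δ ≤ t - s := by
        rw [← hδn]
        exact mul_le_mul_of_nonneg_right hk' hδ0
      have h3 : 0 ≤ (k:ℝ) * δ := mul_nonneg (Nat.cast_nonneg _) hδ0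
      have h4 := h (s + k * δ) ⟨by linarith [hs.1], by linarith [ht.2]⟩
        (s + (k + 1) * δ) ⟨by linarith [hs.1], by linarith [ht.2]⟩ (by linarith)
      have e1 : s + ((k:ℝ) + 1) * δ - (s + k * δ) = δ := by ring
      rw [e1] at h4
      have h5 : e (s + ((k:ℝ) + 1) * δ) - e s =
        (e (s + ((k:ℝ) + 1) * δ) - e (s + k * δ)) + (e (s + k * δ) - e s) := by ring
      push_cast
      rw [h5]
      refine (abs_add_le _ _).trans ?_
      linarith
  have h1 := key n le_rfl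
  rw [hδn] at h1
  have e2 : s + (t - s) = t := by ring
  rw [e2] at h1
  refine h1.trans ?_
  have h6 : (n:ℝ) * (M * δ + K * δ ^ 2) = M * (t - s) + K * (t - s) ^ 2 / n := by
    rw [hδ]
    field_simp
  rw [h6]
  have h7 : K * (t - s) ^ 2 / n ≤ ε := by
    rw [div_le_iff₀ hn0]
    rw [div_lt_iff₀ hε] at hn1
    linarith
  linarith

end A3a

open A3a

section A3

variable {E : Type*} [NormedAddCommGroup E] [InnerProductSpace ℝ E] [FiniteDimensional ℝ E]
  {ι : Type*} [Fintype ι] {β : Module.Basis ι ℝ E} {F : E → E → ℝ} {mF MF m M Mf : ℝ}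
  {l : E → E → ℝ → ℝ} {f : E → ℝ → ℝ}

/-- the energy varies with speed at most `M` -/
theorem energy_lip {lx lu : E → E → ℝ → E} {Λ : ℝ} (hl : CL l lx lu 0 m Λ)
    (ht : ∀ x v t t', |l x v t - l x v t'| ≤ M * |t - t'|) {a b : ℝ} {Z v : ℝ → E}
    (hv : ∃ C : ℝ, ∀ s ∈ Icc a b, ∀ t ∈ Icc a b, ‖v t - v s‖ ≤ C * |t - s|)
    (hZ : ∀ s ∈ Icc a b, ∀ t ∈ Icc a b, Z t - Z s = ∫ r in s..t, v r)
    (hel : ∀ s ∈ Icc a b, ∀ t ∈ Icc a b,
      lu (Z t) (v t) t - lu (Z s) (v s) s = ∫ r in s..t, lx (Z r) (v r) r) :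
    ∀ s ∈ Icc a b, ∀ t ∈ Icc a b,
      |(inner ℝ (lu (Z t) (v t) t) (v t) - l (Z t) (v t) t) -
        (inner ℝ (lu (Z s) (v s) s) (v s) - l (Z s) (v s) s)| ≤ M * |t - s| := by
  have : CompleteSpace E := FiniteDimensional.complete ℝ E
  have hΛ := hl.Λ_ge
  rcases lt_or_ge a b with hab | hab
  swap
  · intro s hs t ht'
    have h1 : s = t := by linarith [hs.1, hs.2, ht'.1, ht'.2]
    rw [h1]
    simp
  obtain ⟨w, C, W, hC, hW, hwl, hwb, hwc, hwa, hwe, hint, htraj⟩ := O5.extend hab hv hZ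
  have ha : a ∈ Icc a b := ⟨le_rfl, hab.le⟩
  set X : ℝ → E := traj a (Z a) w with hX
  have hXc : Continuous X := O5.cont_traj hwc a _
  have hXe : ∀ t ∈ Icc a b, X t = Z t := fun t ht => htraj a ha t ht
  set G : ℝ → E := fun t => lx (X t) (w t) t with hG
  have hGc : Continuous G := (O5.lx_cont hl).comp (hXc.prodMk (hwc.prodMk continuous_id))
  -- the increments of the position
  have hZl : ∀ s ∈ Icc a b, ∀ t ∈ Icc a b, ‖Z t - Z s‖ ≤ W * |t - s| := by
    intro s hs t ht
    rw [← hint s hs t ht]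
    exact intervalIntegral.norm_integral_le_of_norm_le_const fun q _ => hwb q
  set e : ℝ → ℝ := fun t => inner ℝ (lu (Z t) (v t) t) (v t) - l (Z t) (v t) t with he
  have key : ∀ s ∈ Icc a b, ∀ t ∈ Icc a b, s ≤ t → |e t - e s| ≤ M * (t - s) +
      (Λ * (W + C + 1) * W + 2 * Λ * C + Λ * (W + C) ^ 2) * (t - s) ^ 2 := by
    intro s hs t ht' hst
    set h : ℝ := t - s with hh
    have hh0 : 0 ≤ h := by linarith
    have hab1 : |t - s| = h := abs_of_nonneg hh0
    have hrs : ∀ r ∈ uIoc s t, r ∈ Icc a b ∧ |r - s| ≤ h := by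
      intro r hr
      rw [uIoc_of_le hst] at hr
      refine ⟨⟨by linarith [hs.1, hr.1], by linarith [ht'.2, hr.2]⟩, ?_⟩
      rw [abs_of_nonneg (by linarith [hr.1])]
      linarith [hr.2]
    have hrs' : ∀ r ∈ uIcc s t, r ∈ Icc a b := fun r hr => uIcc_subset_Icc hs ht' hr
    have hvl : ∀ r ∈ Icc a b, ‖v r - v s‖ ≤ C * |r - s| := by
      intro r hr
      rw [← hwe r hr, ← hwe s hs]
      exact hwl s r
    have hvb : ∀ r ∈ Icc a b, ‖v r‖ ≤ W := by
      intro r hr
      rw [← hwe r hr]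
      exact hwb r
    set g : E := lx (Z s) (v s) s with hg
    have hgb : ‖g‖ ≤ Λ := hl.lx_bd _ _ _
    -- the increment of the momentum
    have hP : ‖lu (Z t) (v t) t - lu (Z s) (v s) s - h • g‖ ≤ Λ * (W + C + 1) * h * h := by
      have e1 : lu (Z t) (v t) t - lu (Z s) (v s) s - h • g = ∫ r in s..t, (G r - g) := by
        rw [intervalIntegral.integral_sub (hGc.intervalIntegrable _ _) intervalIntegrable_const,
          intervalIntegral.integral_const, hel s hs t ht']
        congr 1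
        refine intervalIntegral.integral_congr fun r hr => ?_
        simp only [hG, hXe r (hrs' r hr), hwe r (hrs' r hr)]
      rw [e1]
      have h1 := intervalIntegral.norm_integral_le_of_norm_le_const (a := s) (b := t)
        (C := Λ * (W + C + 1) * h) (f := fun r => G r - g) (fun r hr => ?_)
      · rwa [hab1] at h1
      · obtain ⟨h2, h3⟩ := hrs r hr
        have h4 := hl.lx_lip (Z r) (v r) r (Z s) (v s) s
        have h5 := hZl s hs r h2
        have h6 := hvl r h2
        have h7 : ‖G r - g‖ = ‖lx (Z r) (v r) r - lx (Z s) (v s) s‖ := by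
          simp only [hG, hXe r h2, hwe r h2, hg]
        rw [h7]
        have h8 : ‖Z r - Z s‖ + ‖v r - v s‖ + |r - s| ≤ (W + C + 1) * h := by
          have h9 := mul_le_mul_of_nonneg_left h3 (by linarith : 0 ≤ W + C + 1)
          linarith
        calc _ ≤ Λ * (‖Z r - Z s‖ + ‖v r - v s‖ + |r - s|) := h4
          _ ≤ Λ * ((W + C + 1) * h) := mul_le_mul_of_nonneg_left h8 (by linarith)
          _ = _ := by ring
    -- the increment of the position
    have hD : ‖Z t - Z s - h • v s‖ ≤ C * h * h := by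
      have e1 : Z t - Z s - h • v s = ∫ r in s..t, (w r - v s) := by
        rw [intervalIntegral.integral_sub (hwc.intervalIntegrable _ _) intervalIntegrable_const,
          intervalIntegral.integral_const, hint s hs t ht']
      rw [e1]
      have h1 := intervalIntegral.norm_integral_le_of_norm_le_const (a := s) (b := t)
        (C := C * h) (f := fun r => w r - v s) (fun r hr => ?_)
      · rwa [hab1] at h1
      · obtain ⟨h2, h3⟩ := hrs r hr
        rw [← hwe s hs]
        exact (hwl s r).trans (mul_le_mul_of_nonneg_left h3 hC)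
    have hV : ‖v t - v s‖ ≤ C * h := by
      have h1 := hvl t ht'
      rwa [hab1] at h1
    have hZ1 : ‖Z t - Z s‖ ≤ W * h := by
      have h1 := hZl s hs t ht'
      rwa [hab1] at h1
    -- the three terms
    have t1 : |inner ℝ (lu (Z t) (v t) t - lu (Z s) (v s) s) (v t) - inner ℝ g (Z t - Z s)| ≤
        (Λ * (W + C + 1) * W + 2 * Λ * C) * h ^ 2 := by
      have e1 : (inner ℝ (lu (Z t) (v t) t - lu (Z s) (v s) s) (v t) - inner ℝ g (Z t - Z s) : ℝ) =
          inner ℝ (lu (Z t) (v t) t - lu (Z s) (v s) s - h • g) (v t) +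
            (h * inner ℝ g (v t - v s) - inner ℝ g (Z t - Z s - h • v s)) := by
        simp only [inner_sub_left, inner_sub_right, real_inner_smul_left, real_inner_smul_right]
        ring
      rw [e1]
      have b1 : |(inner ℝ (lu (Z t) (v t) t - lu (Z s) (v s) s - h • g) (v t) : ℝ)| ≤
          Λ * (W + C + 1) * h * h * W :=
        (abs_real_inner_le_norm _ _).trans
          (mul_le_mul hP (hvb t ht') (norm_nonneg _) (by positivity))
      have b2 : |h * inner ℝ g (v t - v s)| ≤ h * (Λ * (C * h)) := by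
        rw [abs_mul, abs_of_nonneg hh0]
        refine mul_le_mul_of_nonneg_left ((abs_real_inner_le_norm _ _).trans ?_) hh0
        exact mul_le_mul hgb hV (norm_nonneg _) (by linarith)
      have b3 : |(inner ℝ g (Z t - Z s - h • v s) : ℝ)| ≤ Λ * (C * h * h) :=
        (abs_real_inner_le_norm _ _).trans (mul_le_mul hgb hD (norm_nonneg _) (by linarith))
      refine (abs_add_le _ _).trans ?_
      have b4 := abs_sub (h * inner ℝ g (v t - v s)) (inner ℝ g (Z t - Z s - h • v s))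
      nlinarith
    have t2 := hl.tay (Z s) (v s) (Z t) (v t) s
    have t2' : Λ * (‖Z t - Z s‖ + ‖v t - v s‖) ^ 2 ≤ Λ * (W + C) ^ 2 * h ^ 2 := by
      have h1 : ‖Z t - Z s‖ + ‖v t - v s‖ ≤ (W + C) * h := by linarith
      have h2 := pow_le_pow_left₀ (by positivity) h1 2
      have h3 := mul_le_mul_of_nonneg_left h2 (by linarith : 0 ≤ Λ)
      calc _ ≤ Λ * ((W + C) * h) ^ 2 := h3
        _ = _ := by ring
    have t3 := ht (Z t) (v t) t s
    rw [hab1] at t3
    have e2 : e t - e s =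
        (inner ℝ (lu (Z t) (v t) t - lu (Z s) (v s) s) (v t) - inner ℝ g (Z t - Z s)) -
        (l (Z t) (v t) t - l (Z t) (v t) s) -
        (l (Z t) (v t) s - l (Z s) (v s) s - inner ℝ g (Z t - Z s) -
          inner ℝ (lu (Z s) (v s) s) (v t - v s)) := by
      simp only [he, inner_sub_left, inner_sub_right]
      ring
    rw [e2]
    have t1' := abs_le.mp t1
    have t2'' := abs_le.mp (t2.trans t2')
    have t3' := abs_le.mp t3
    rw [abs_le]
    constructor
    · linarith [t1'.1, t2''.2, t3'.2]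
    · linarith [t1'.2, t2''.1, t3'.1]
  have fin := sub_lip key
  intro s hs t ht'
  rcases le_total s t with h | h
  · rw [abs_of_nonneg (by linarith : 0 ≤ t - s)]
    exact fin s hs t ht' h
  · have h1 := fin t ht' s hs h
    rw [abs_sub_comm, abs_sub_comm t s, abs_of_nonneg (by linarith : 0 ≤ s - t)]
    exact h1

namespace A3a

theorem TL_upp (h : TL β F mF MF m M l) (x v : E) (t : ℝ) : l x v t ≤ MF ^ 2 / 2 * ‖v‖ ^ 2 + M := by
  have h1 := (abs_le.mp (h.l_F x v t)).2
  have h2 := h.fins.upp x v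
  have h3 : 0 ≤ F x v := (mul_nonneg h.fins.mF_pos.le (norm_nonneg _)).trans (h.fins.low x v)
  have h4 := pow_le_pow_left₀ h3 h2 2
  rw [mul_pow] at h4
  linarith

end A3a

/-- speed bound for kernel geodesics of cut-off Lagrangians, uniform in the cut-off -/
theorem cut_speed (MF m M D0 : ℝ) {T0 T1 : ℝ} (hm : 0 < m) (hT0 : 0 < T0) : ∃ V : ℝ, 0 < V ∧
    ∀ {ι : Type} [Fintype ι] {β : Module.Basis ι ℝ E} {F : E → E → ℝ} {mF : ℝ}
      {l l' : E → E → ℝ → ℝ} {lx' lu' : E → E → ℝ → E} {R Λ : ℝ}, TL β F mF MF m M l →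
      Cut l l' lx' lu' m (C1 MF m M) M R Λ → ∀ {a b : ℝ}, T0 ≤ b - a → b - a ≤ T1 → ∀ {Z v : ℝ → E},
      KGeo l' a b Z → ‖Z b - Z a‖ ≤ D0 →
      (∃ C : ℝ, ∀ s ∈ Icc a b, ∀ t ∈ Icc a b, ‖v t - v s‖ ≤ C * |t - s|) →
      (∀ s ∈ Icc a b, ∀ t ∈ Icc a b, Z t - Z s = ∫ r in s..t, v r) → ∀ t ∈ Icc a b, ‖v t‖ ≤ V := by
  set A : ℝ := MF ^ 2 / 2 * D0 ^ 2 / T0 + M * T1 with hA
  set c1 : ℝ := C1 MF m M with hc1
  set Q : ℝ := 4 / m * (A / T0 + 1 + c1) with hQ
  set N : ℝ := 8 / m * (2 * M + M * T1 + 2 * c1 + 2 * MF ^ 2 * Q) with hN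
  refine ⟨|N| + 1, by positivity, ?_⟩
  intro ι _ β F mF l l' lx' lu' R Λ hTL hcut a b hab0 hab1 Z v hZ hD hv hZv t ht
  have hab : a < b := by linarith
  have hT01 : T0 ≤ T1 := hab0.trans hab1
  have hM := hTL.M_nonneg
  have hba : 0 < b - a := by linarith
  have hact := kgeo_act hcut.cl hab hZ hv hZv
  have hel := kgeo_el hcut.cl hab hZ hv hZv
  have hen := energy_lip hcut.cl hcut.l_t hv hZv hel
  obtain ⟨w, C, W, hC, hW, hwl, hwb, hwc, hwa, hwe, hint, htraj⟩ := O5.extend hab hv hZv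
  have ha : a ∈ Icc a b := ⟨le_rfl, hab.le⟩
  have hb : b ∈ Icc a b := ⟨hab.le, le_rfl⟩
  have hD0 : 0 ≤ D0 := (norm_nonneg _).trans hD
  -- upper bound for the action
  have hup : ∫ t in a..b, l' (Z t) (v t) t ≤ A := by
    rw [hact]
    set u : E := (b - a)⁻¹ • (Z b - Z a) with hu
    have hun : ‖u‖ = (b - a)⁻¹ * ‖Z b - Z a‖ := by
      rw [hu, norm_smul, norm_inv, Real.norm_of_nonneg hba.le]
    have htr : traj a (Z a) (fun _ => u) b = Z b := by
      simp only [traj, intervalIntegral.integral_const, hu]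
      rw [smul_smul, mul_inv_cancel₀ hba.ne', one_smul]
      abel
    refine (kerl_le hcut.cl.toCK hab (Adm.const u) htr).trans ?_
    have h1 : actl l' a b (Z a) (fun _ => u) ≤ ∫ _ in a..b, (MF ^ 2 / 2 * ‖u‖ ^ 2 + M) := by
      unfold actl
      refine intervalIntegral.integral_mono_on hab.le
        (hcut.cl.toCK.ii (Adm.const u) a (Z a) _ _) intervalIntegrable_const fun t _ => ?_
      exact (hcut.le _ _ _).trans (TL_upp hTL _ _ _)
    refine h1.trans ?_
    rw [intervalIntegral.integral_const, smul_eq_mul, hun]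
    have h2 : (b - a) * (MF ^ 2 / 2 * ((b - a)⁻¹ * ‖Z b - Z a‖) ^ 2 + M) =
        MF ^ 2 / 2 * ‖Z b - Z a‖ ^ 2 / (b - a) + M * (b - a) := by
      field_simp
    rw [h2, hA]
    have h3 : ‖Z b - Z a‖ ^ 2 ≤ D0 ^ 2 := pow_le_pow_left₀ (norm_nonneg _) hD 2
    have h4 : MF ^ 2 / 2 * ‖Z b - Z a‖ ^ 2 / (b - a) ≤ MF ^ 2 / 2 * D0 ^ 2 / T0 := by
      gcongr
    have h5 : M * (b - a) ≤ M * T1 := mul_le_mul_of_nonneg_left hab1 hM
    linarith
  have hA0 : 0 ≤ A := by
    rw [hA]
    have : 0 ≤ T1 := hT0.le.trans hT01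
    positivity
  -- a time with small speed
  obtain ⟨t0, ht0, hs0⟩ : ∃ t0 ∈ Icc a b, ‖v t0‖ ^ 2 ≤ Q := by
    by_contra hcon
    push Not at hcon
    have hlow : ∀ r ∈ Icc a b, A / T0 + 1 ≤ l' (Z r) (v r) r := by
      intro r hr
      have h1 := hcon r hr
      have h2 := hcut.low (Z r) (v r) r
      have h3 : A / T0 + 1 + c1 ≤ m / 4 * ‖v r‖ ^ 2 := by
        have h4 := mul_le_mul_of_nonneg_left h1.le (by positivity : 0 ≤ m / 4)
        have h5 : m / 4 * Q = A / T0 + 1 + c1 := by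
          rw [hQ]
          field_simp
        linarith
      linarith
    have hii : IntervalIntegrable (fun r => l' (Z r) (v r) r) volume a b := by
      refine (hcut.cl.toCK.ii hwa a (Z a) a b).congr_ae ?_
      refine (ae_restrict_iff' measurableSet_uIoc).mpr (ae_of_all _ fun r hr => ?_)
      rw [uIoc_of_le hab.le] at hr
      have hr' : r ∈ Icc a b := ⟨hr.1.le, hr.2⟩
      simp only [htraj a ha r hr', hwe r hr']
    have h1 : ∫ _ in a..b, (A / T0 + 1) ≤ ∫ r in a..b, l' (Z r) (v r) r :=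
      intervalIntegral.integral_mono_on hab.le intervalIntegrable_const hii hlow
    rw [intervalIntegral.integral_const, smul_eq_mul] at h1
    have h2 : A ≤ (b - a) * (A / T0) := by
      have h3 : T0 * (A / T0) ≤ (b - a) * (A / T0) :=
        mul_le_mul_of_nonneg_right hab0 (by positivity)
      rwa [mul_div_cancel₀ _ hT0.ne'] at h3
    nlinarith
  -- upper bound of the energy at t0
  have he0 : (inner ℝ (lu' (Z t0) (v t0) t0) (v t0) : ℝ) - l' (Z t0) (v t0) t0 ≤
      2 * MF ^ 2 * Q + M + 2 * c1 := by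
    have h1 := hcut.cl.low (Z t0) ((2:ℝ) • v t0) (v t0) t0
    have e1 : (2:ℝ) • v t0 - v t0 = v t0 := by rw [two_smul]; abel
    rw [e1] at h1
    have h2 := (hcut.le (Z t0) ((2:ℝ) • v t0) t0).trans (TL_upp hTL _ _ _)
    rw [norm_smul, Real.norm_eq_abs, abs_of_pos (by norm_num : (0:ℝ) < 2)] at h2
    have h3 := hcut.low (Z t0) (v t0) t0
    have h4 : 0 ≤ m / 4 * ‖v t0‖ ^ 2 := by positivity
    have h5 : 2 * MF ^ 2 * ‖v t0‖ ^ 2 ≤ 2 * MF ^ 2 * Q :=
      mul_le_mul_of_nonneg_left hs0 (by positivity)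
    nlinarith
  -- lower bound of the energy at t
  have he1 : m / 8 * ‖v t‖ ^ 2 - M ≤
      (inner ℝ (lu' (Z t) (v t) t) (v t) : ℝ) - l' (Z t) (v t) t := by
    have h1 := hcut.cl.low (Z t) 0 (v t) t
    rw [zero_sub, inner_neg_right, norm_neg] at h1
    have h2 := (hcut.le (Z t) 0 t).trans (TL_upp hTL _ _ _)
    rw [norm_zero] at h2
    nlinarith
  have hen1 := (abs_le.mp (hen t0 ht0 t ht)).2
  have hen2 : M * |t - t0| ≤ M * T1 := by
    refine mul_le_mul_of_nonneg_left ?_ hM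
    rw [abs_le]
    constructor <;> linarith [ht.1, ht.2, ht0.1, ht0.2]
  have hfin : ‖v t‖ ^ 2 ≤ N := by
    have h1 : m / 8 * ‖v t‖ ^ 2 ≤ 2 * M + M * T1 + 2 * c1 + 2 * MF ^ 2 * Q := by linarith
    have h2 := mul_le_mul_of_nonneg_left h1 (by positivity : 0 ≤ 8 / m)
    have h3 : 8 / m * (m / 8 * ‖v t‖ ^ 2) = ‖v t‖ ^ 2 := by
      field_simp
    rw [h3] at h2
    exact h2
  have h1 : ‖v t‖ ^ 2 ≤ (|N| + 1) ^ 2 := by
    have h2 := le_abs_self N
    have h3 := abs_nonneg N
    nlinarith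
  exact (pow_le_pow_iff_left₀ (norm_nonneg _) (by positivity) two_ne_zero).mp h1

end A3

end EscG
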