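import Pool.Agent.EscG.ADefs
import Pool.Agent.EscG.A1

/-!
Project EscG (MP_6acca1_an), module A5a: kernels at speed `s`, elementary properties (helper21).
-/

set_option linter.unusedSectionVars false
set_option linter.unusedVariables false

noncomputable section

namespace EscG

open MeasureTheory Set Filter Topology Esc EscF
open scoped ContDiff

section A5a

variable {E : Type*} [NormedAddCommGroup E] [InnerProductSpace ℝ E] [FiniteDimensional ℝ E]
  {ι : Type} [Fintype ι] {β : Module.Basis ι ℝ E} {F : E → E → ℝ} {mF MF m M Mf : ℝ}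
  {l : E → E → ℝ → ℝ} {d : ℕ} {b : Fin d → E} {B : E → ℝ} {c : Fin d → ℝ}

/-! ### auxiliary facts -/

theorem A5a_cbF (hF : Fins β F mF MF) : CB 0 (fun x u (_ : ℝ) => F x u) := by
  refine ⟨?_, fun x u _ => ?_⟩
  · exact hF.cont.comp (continuous_fst.prodMk (continuous_fst.comp continuous_snd))
  · have := hF.low x u
    have h2 := mul_nonneg hF.mF_pos.le (norm_nonneg u)
    simp only [neg_zero]
    linarith

theorem A5a_cbQ (hF : Fins β F mF MF) (s : ℝ) : CB 0 (fun x u (_ : ℝ) => (F x u - s) ^ 2 / 2) := by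
  refine ⟨?_, fun x u _ => ?_⟩
  · exact (((A5a_cbF hF).cont.sub continuous_const).pow 2).div_const 2
  · have := sq_nonneg (F x u - s)
    simp only [neg_zero]
    linarith

theorem A5a_cb (h : TL β F mF MF m M l) : CB M l := by
  refine ⟨h.smooth.continuous, fun x u t => ?_⟩
  have h1 := (abs_le.mp (h.l_F x u t)).1
  have h2 := sq_nonneg (F x u)
  linarith

theorem A5a_ii (hF : Fins β F mF MF) {u : ℝ → E} (hu : Adm u) (a : ℝ) (z : E) (p q : ℝ) :
    IntervalIntegrable (fun r => F (traj a z u r) (u r)) volume p q := (A5a_cbF hF).ii hu a z p q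

theorem A5a_iiQ (hF : Fins β F mF MF) (s : ℝ) {u : ℝ → E} (hu : Adm u) (a : ℝ) (z : E) (p q : ℝ) :
    IntervalIntegrable (fun r => (F (traj a z u r) (u r) - s) ^ 2 / 2) volume p q :=
  (A5a_cbQ hF s).ii hu a z p q

/-- Cauchy-Schwarz -/
theorem A5a_cs {g : ℝ → ℝ} {p q : ℝ} (hpq : p < q) (hg : IntervalIntegrable g volume p q)
    (hg2 : IntervalIntegrable (fun r => g r ^ 2 / 2) volume p q) :
    (∫ r in p..q, g r) ^ 2 ≤ 2 * (q - p) * ∫ r in p..q, g r ^ 2 / 2 := by
  have hT : 0 < q - p := by linarith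
  set I := ∫ r in p..q, g r with hI
  have h0 : 0 ≤ ∫ r in p..q, (g r - I / (q - p)) ^ 2 / 2 :=
    intervalIntegral.integral_nonneg hpq.le fun r _ => by positivity
  have h1 : (∫ r in p..q, (g r - I / (q - p)) ^ 2 / 2) =
      (∫ r in p..q, g r ^ 2 / 2) - (I / (q - p)) * I + (q - p) * ((I / (q - p)) ^ 2 / 2) := by
    have e1 : ∀ r, (g r - I / (q - p)) ^ 2 / 2 =
        g r ^ 2 / 2 - (I / (q - p)) * g r + (I / (q - p)) ^ 2 / 2 := fun r => by ring
    simp_rw [e1]
    rw [intervalIntegral.integral_add (hg2.sub (hg.const_mul _)) (by simp),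
      intervalIntegral.integral_sub hg2 (hg.const_mul _), intervalIntegral.integral_const_mul,
      intervalIntegral.integral_const, smul_eq_mul]
  rw [h1] at h0
  have h2 : (∫ r in p..q, g r ^ 2 / 2) - (I / (q - p)) * I + (q - p) * ((I / (q - p)) ^ 2 / 2) =
      (∫ r in p..q, g r ^ 2 / 2) - I ^ 2 / (2 * (q - p)) := by
    field_simp
    ring
  rw [h2] at h0
  have h3 : I ^ 2 / (2 * (q - p)) ≤ ∫ r in p..q, g r ^ 2 / 2 := by linarith
  rw [div_le_iff₀ (by positivity)] at h3
  linarith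

theorem A5a_lv_add (n k : Fin d → ℤ) : lv b (n + k) = lv b n + lv b k := by
  unfold lv
  rw [← Finset.sum_add_distrib]
  refine Finset.sum_congr rfl fun i _ => ?_
  rw [Pi.add_apply, Int.cast_add, add_smul]

theorem A5a_lv_zero : lv b (0 : Fin d → ℤ) = 0 := by simp [lv]

/-- functions periodic along the vectors `b i` are periodic along `lv b n` -/
theorem A5a_per {γ : Type*} {g : E → γ} (h : ∀ i x, g (x + b i) = g x) (n : Fin d → ℤ) (x : E) :
    g (x + lv b n) = g x := by
  have h1 : ∀ (s : Finset (Fin d)) (x : E), g (x + ∑ i ∈ s, (n i : ℝ) • b i) = g x := by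
    intro s
    induction s using Finset.induction_on with
    | empty => intro x; simp
    | insert i s hi ih =>
      intro x
      rw [Finset.sum_insert hi, add_comm ((n i : ℝ) • b i), ← add_assoc]
      have h2 : Function.Periodic g (b i) := fun y => h i y
      have h3 := h2.zsmul (n i) (x + ∑ j ∈ s, (n j : ℝ) • b j)
      rw [Int.cast_smul_eq_zsmul, h3, ih]
  exact h1 Finset.univ x

theorem A5a_perl (hbβ : ∀ i, ∃ j, b i = β j) (h : TL β F mF MF m M l) (n : Fin d → ℤ) :
    ∀ x u t, l (x + lv b n) u t = l x u t := by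
  intro x u t
  refine A5a_per (g := fun y => l y u t) (fun i y => ?_) n x
  obtain ⟨j, hj⟩ := hbβ i
  simp only [hj]
  exact h.per j y u t

/-- boundedness of the sets of lattice points -/
theorem A5a_fin (hb : LinearIndependent ℝ b) (R : ℝ) : {n : Fin d → ℤ | ‖lv b n‖ ≤ R}.Finite := by
  have hk : LinearMap.ker (Fintype.linearCombination ℝ b) = ⊥ :=
    LinearMap.ker_eq_bot.mpr (linearIndependent_iff_injective_fintypeLinearCombination.mp hb)
  obtain ⟨C, hC0, hC⟩ := LinearMap.exists_antilipschitzWith _ hk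
  have h1 : ∀ n : Fin d → ℤ, ‖lv b n‖ ≤ R → ∀ i, |(n i : ℝ)| ≤ C * R := by
    intro n hn i
    have h2 := hC.le_mul_dist (fun i => (n i : ℝ)) 0
    rw [dist_zero_right, map_zero, dist_zero_right] at h2
    have h3 : Fintype.linearCombination ℝ b (fun i => (n i : ℝ)) = lv b n := by
      rw [Fintype.linearCombination_apply]
      rfl
    rw [h3] at h2
    have h4 : ‖(n i : ℝ)‖ ≤ ‖fun i => (n i : ℝ)‖ := norm_le_pi_norm (fun i => (n i : ℝ)) i
    rw [Real.norm_eq_abs] at h4
    have h5 : (C : ℝ) * ‖lv b n‖ ≤ C * R := mul_le_mul_of_nonneg_left hn C.2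
    linarith
  refine (Set.finite_Icc (fun _ : Fin d => -⌈(C : ℝ) * R⌉) (fun _ => ⌈(C : ℝ) * R⌉)).subset
    fun n hn => ?_
  rw [mem_Icc]
  have h2 := h1 n hn
  have h3 := Int.le_ceil ((C : ℝ) * R)
  constructor
  · intro i
    have := (abs_le.mp (h2 i)).1
    have h4 : (-(⌈(C : ℝ) * R⌉ : ℤ) : ℝ) ≤ (n i : ℝ) := by linarith
    exact_mod_cast h4
  · intro i
    have := (abs_le.mp (h2 i)).2
    have h4 : (n i : ℝ) ≤ ((⌈(C : ℝ) * R⌉ : ℤ) : ℝ) := by linarith
    exact_mod_cast h4

/-! ### the statements -/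

theorem Cal.lip (hF : Fins β F mF MF) (hB : Cal b F B c) (x y : E) : |B x - B y| ≤ MF * ‖x - y‖ := by
  have h1 : ∀ x y : E, B y - B x ≤ MF * ‖y - x‖ := by
    intro x y
    have h2 := hB.cal x (fun _ => (1 / ((1 : ℝ) - 0)) • (y - x)) (Adm.const _) 0 1 zero_le_one
    rw [traj_line x y zero_lt_one] at h2
    refine h2.trans ?_
    have h3 : (∫ t in (0 : ℝ)..1, F (traj 0 x (fun _ => (1 / ((1 : ℝ) - 0)) • (y - x)) t)
        ((1 / ((1 : ℝ) - 0)) • (y - x))) ≤ ∫ _t in (0 : ℝ)..1, MF * ‖y - x‖ := by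
      refine intervalIntegral.integral_mono_on zero_le_one
        (A5a_ii hF (Adm.const ((1 / ((1 : ℝ) - 0)) • (y - x))) 0 x 0 1) (by simp) fun t _ => ?_
      have h4 := hF.upp (traj 0 x (fun _ => (1 / ((1 : ℝ) - 0)) • (y - x)) t)
        ((1 / ((1 : ℝ) - 0)) • (y - x))
      have h5 : (1 / ((1 : ℝ) - 0)) • (y - x) = y - x := by simp
      rw [h5] at h4 ⊢
      exact h4
    rw [intervalIntegral.integral_const, smul_eq_mul] at h3
    linarith
  rw [abs_le]
  constructor
  · have := h1 x y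
    rw [norm_sub_rev] at this
    linarith
  · exact h1 y x

/-- lower bound of the action at speed `s` -/
theorem act_speed (h : TL β F mF MF m M l) (hB : Cal b F B c) (s : ℝ) {t t' : ℝ} (htt : t < t') (z : E)
    {u : ℝ → E} (hu : Adm u) :
    (∫ r in t..t', (F (traj t z u r) (u r) - s) ^ 2 / 2) + s * ((∫ r in t..t', F (traj t z u r) (u r)) -
      (B (traj t z u t') - B z)) - M * (t' - t) ≤
      actl l t t' z u - s * (B (traj t z u t') - B z) + s ^ 2 / 2 * (t' - t) := by
  have hi := A5a_ii h.fins hu t z t t'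
  have hq := A5a_iiQ h.fins s hu t z t t'
  have h1 : (∫ r in t..t', ((F (traj t z u r) (u r) - s) ^ 2 / 2 + s * F (traj t z u r) (u r) -
      (M + s ^ 2 / 2))) ≤ actl l t t' z u := by
    unfold actl
    refine intervalIntegral.integral_mono_on htt.le ((hq.add (hi.const_mul s)).sub (by simp))
      ((A5a_cb h).ii hu t z t t') fun r _ => ?_
    have h2 := (abs_le.mp (h.l_F (traj t z u r) (u r) r)).1
    nlinarith
  rw [intervalIntegral.integral_sub (hq.add (hi.const_mul s)) (by simp),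
    intervalIntegral.integral_add hq (hi.const_mul s), intervalIntegral.integral_const_mul,
    intervalIntegral.integral_const, smul_eq_mul] at h1
  linarith

theorem kerl_speed_ge (h : TL β F mF MF m M l) (hB : Cal b F B c) {s : ℝ} (hs : 0 ≤ s) {t t' : ℝ}
    (htt : t < t') (z z' : E) :
    -M * (t' - t) ≤ kerl l t t' z z' - s * (B z' - B z) + s ^ 2 / 2 * (t' - t) := by
  have h1 : -M * (t' - t) + s * (B z' - B z) - s ^ 2 / 2 * (t' - t) ≤ kerl l t t' z z' := by
    refine le_kerl htt z z' fun u hu hz => ?_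
    have h2 := act_speed h hB s htt z hu
    have h3 := hB.cal z u hu t t' htt.le
    have h4 : 0 ≤ ∫ r in t..t', (F (traj t z u r) (u r) - s) ^ 2 / 2 :=
      intervalIntegral.integral_nonneg htt.le fun r _ => by positivity
    have h5 : 0 ≤ s * ((∫ r in t..t', F (traj t z u r) (u r)) - (B (traj t z u t') - B z)) :=
      mul_nonneg hs (by linarith)
    rw [hz] at h2 h5
    linarith
  linarith

/-- displacement bound -/
theorem disp_le (h : TL β F mF MF m M l) (hB : Cal b F B c) {s : ℝ} (hs : 0 ≤ s) {t t' N : ℝ}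
    (htt : t < t') (z z' : E)
    (hN : kerl l t t' z z' - s * (B z' - B z) + s ^ 2 / 2 * (t' - t) ≤ N) :
    mF * ‖z' - z‖ ≤ s * (t' - t) + Real.sqrt (2 * (N + M * (t' - t)) * (t' - t)) := by
  have hT : 0 < t' - t := by linarith
  by_cases hX : mF * ‖z' - z‖ - s * (t' - t) ≤ 0
  · have := Real.sqrt_nonneg (2 * (N + M * (t' - t)) * (t' - t))
    linarith
  · push Not at hX
    have h1 : (mF * ‖z' - z‖ - s * (t' - t)) ^ 2 ≤ 2 * (N + M * (t' - t)) * (t' - t) := by
      refine le_of_forall_pos_le_add fun ε hε => ?_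
      have hε' : 0 < ε / (2 * (t' - t)) := by positivity
      obtain ⟨u, hu, hz, hlt⟩ := (A5a_cb h).exists_lt htt z z' hε'
      have h2 := act_speed h hB s htt z hu
      have h3 := hB.cal z u hu t t' htt.le
      have h5 : 0 ≤ s * ((∫ r in t..t', F (traj t z u r) (u r)) - (B (traj t z u t') - B z)) :=
        mul_nonneg hs (by linarith)
      rw [hz] at h2 h5
      have hi := A5a_ii h.fins hu t z t t'
      have hq := A5a_iiQ h.fins s hu t z t t'
      have h6 := A5a_cs (g := fun r => F (traj t z u r) (u r) - s) htt (hi.sub (by simp)) hq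
      rw [intervalIntegral.integral_sub hi (by simp), intervalIntegral.integral_const,
        smul_eq_mul] at h6
      have h7 : mF * ‖z' - z‖ ≤ ∫ r in t..t', F (traj t z u r) (u r) := by
        have h8 : ‖z' - z‖ ≤ ∫ r in t..t', ‖u r‖ := by
          have h9 : z' - z = ∫ r in t..t', u r := by
            rw [← hz]
            simp [traj]
          rw [h9]
          exact intervalIntegral.norm_integral_le_integral_norm htt.le
        have h10 : (∫ r in t..t', mF * ‖u r‖) ≤ ∫ r in t..t', F (traj t z u r) (u r) :=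
          intervalIntegral.integral_mono_on htt.le ((hu.ii t t').norm.const_mul mF) hi
            fun r _ => h.fins.low _ _
        rw [intervalIntegral.integral_const_mul] at h10
        have h11 := mul_le_mul_of_nonneg_left h8 h.fins.mF_pos.le
        linarith
      have h12 : (∫ r in t..t', (F (traj t z u r) (u r) - s) ^ 2 / 2) ≤
          N + M * (t' - t) + ε / (2 * (t' - t)) := by linarith
      have h13 : (mF * ‖z' - z‖ - s * (t' - t)) ^ 2 ≤
          ((∫ r in t..t', F (traj t z u r) (u r)) - (t' - t) * s) ^ 2 := by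
        refine pow_le_pow_left₀ hX.le ?_ 2
        linarith
      have h14 : 2 * (t' - t) * (∫ r in t..t', (F (traj t z u r) (u r) - s) ^ 2 / 2) ≤
          2 * (t' - t) * (N + M * (t' - t) + ε / (2 * (t' - t))) :=
        mul_le_mul_of_nonneg_left h12 (by positivity)
      have h15 : 2 * (t' - t) * (N + M * (t' - t) + ε / (2 * (t' - t))) =
          2 * (N + M * (t' - t)) * (t' - t) + ε := by
        field_simp
      linarith
    have h2 : mF * ‖z' - z‖ - s * (t' - t) ≤ Real.sqrt (2 * (N + M * (t' - t)) * (t' - t)) :=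
      Real.le_sqrt_of_sq_le h1
    linarith

theorem A5a_bdd (h : TL β F mF MF m M l) (hB : Cal b F B c) {s : ℝ} (hs : 0 ≤ s) {t t' : ℝ}
    (htt : t < t') (z z' : E) : BddBelow (range fun n : Fin d → ℤ =>
      kerl l t t' z (z' + lv b n) - s * (B (z' + lv b n) - B z) + s ^ 2 / 2 * (t' - t)) := by
  refine ⟨-M * (t' - t), ?_⟩
  rintro _ ⟨n, rfl⟩
  exact kerl_speed_ge h hB hs htt z _

theorem K_le (h : TL β F mF MF m M l) (hB : Cal b F B c) {s : ℝ} (hs : 0 ≤ s) {t t' : ℝ}
    (htt : t < t') (z z' : E) (n : Fin d → ℤ) : K b B s l t t' z z' ≤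
      kerl l t t' z (z' + lv b n) - s * (B (z' + lv b n) - B z) + s ^ 2 / 2 * (t' - t) :=
  ciInf_le (A5a_bdd h hB hs htt z z') n

theorem K_ge (h : TL β F mF MF m M l) (hB : Cal b F B c) {s : ℝ} (hs : 0 ≤ s) {t t' : ℝ}
    (htt : t < t') (z z' : E) : -M * (t' - t) ≤ K b B s l t t' z z' :=
  le_ciInf fun _ => kerl_speed_ge h hB hs htt z _

theorem K_attained (hb : LinearIndependent ℝ b) (h : TL β F mF MF m M l) (hB : Cal b F B c) {s : ℝ}
    (hs : 0 ≤ s) {t t' : ℝ} (htt : t < t') (z z' : E) : ∃ n : Fin d → ℤ, K b B s l t t' z z' =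
      kerl l t t' z (z' + lv b n) - s * (B (z' + lv b n) - B z) + s ^ 2 / 2 * (t' - t) := by
  set g : (Fin d → ℤ) → ℝ := fun n =>
    kerl l t t' z (z' + lv b n) - s * (B (z' + lv b n) - B z) + s ^ 2 / 2 * (t' - t) with hg
  have hfin : {n | g n ≤ g 0}.Finite := by
    refine (A5a_fin hb ((s * (t' - t) + Real.sqrt (2 * (g 0 + M * (t' - t)) * (t' - t))) / mF +
      ‖z' - z‖)).subset fun n hn => ?_
    have h1 := disp_le h hB hs htt z (z' + lv b n) hn
    have h2 : ‖z' + lv b n - z‖ ≤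
        (s * (t' - t) + Real.sqrt (2 * (g 0 + M * (t' - t)) * (t' - t))) / mF := by
      rw [le_div_iff₀ h.fins.mF_pos]
      linarith
    have h3 : ‖lv b n‖ ≤ ‖z' + lv b n - z‖ + ‖z' - z‖ := by
      have e : lv b n = (z' + lv b n - z) - (z' - z) := by abel
      calc ‖lv b n‖ = ‖(z' + lv b n - z) - (z' - z)‖ := by rw [← e]
        _ ≤ _ := norm_sub_le _ _
    show ‖lv b n‖ ≤ _
    linarith
  obtain ⟨n, hn, hmin⟩ := Set.exists_min_image _ g hfin ⟨0, le_refl (g 0)⟩
  refine ⟨n, le_antisymm (K_le h hB hs htt z z' n) (le_ciInf fun k => ?_)⟩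
  show g n ≤ g k
  by_cases hk : g k ≤ g 0
  · exact hmin k hk
  · exact hn.trans (not_le.mp hk).le

theorem K_le_add (hb : LinearIndependent ℝ b) (hbβ : ∀ i, ∃ j, b i = β j) (h : TL β F mF MF m M l)
    (hB : Cal b F B c) {s : ℝ} (hs : 0 ≤ s) {t t' t'' : ℝ} (htt : t < t') (htt' : t' < t'')
    (z x z' : E) : K b B s l t t'' z z' ≤ K b B s l t t' z x + K b B s l t' t'' x z' := by
  obtain ⟨n, hn⟩ := K_attained hb h hB hs htt z x
  obtain ⟨k, hk⟩ := K_attained hb h hB hs htt' x z'
  rw [hn, hk]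
  refine (K_le h hB hs (htt.trans htt') z z' (k + n)).trans ?_
  have h1 := (A5a_cb h).kerl_le_add htt htt' z (x + lv b n) (z' + lv b k + lv b n)
  rw [kerl_shift (lv b n) (A5a_perl hbβ h n)] at h1
  have h2 := hB.lvB n (z' + lv b k)
  have h3 := hB.lvB n x
  rw [A5a_lv_add, ← add_assoc]
  have h4 : B (z' + lv b k + lv b n) - B z = (B (x + lv b n) - B z) + (B (z' + lv b k) - B x) := by
    linarith
  rw [h4]
  nlinarith

theorem K_per (hbβ : ∀ i, ∃ j, b i = β j) (h : TL β F mF MF m M l) (hB : Cal b F B c) (s : ℝ)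
    (t t' : ℝ) (z z' : E) (n n' : Fin d → ℤ) :
    K b B s l t t' (z + lv b n) (z' + lv b n') = K b B s l t t' z z' := by
  unfold K
  refine Equiv.iInf_congr (Equiv.addRight (n' - n)) fun k => ?_
  have h1 : z' + lv b n' + lv b k = z' + lv b (k + (n' - n)) + lv b n := by
    rw [add_assoc, add_assoc, ← A5a_lv_add, ← A5a_lv_add]
    congr 2
    abel
  have h2 := hB.lvB n (z' + lv b (k + (n' - n)))
  have h3 := hB.lvB n z
  simp only [Equiv.coe_addRight]
  rw [h1, kerl_shift (lv b n) (A5a_perl hbβ h n), h2, h3]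
  ring

theorem K_shift (p : E) {a : ℝ} (hp : ∀ x u t, l (x + p) u t = l x u t) (hBp : ∀ x, B (x + p) = B x + a)
    (s : ℝ) (t t' : ℝ) (z z' : E) : K b B s l t t' (z + p) (z' + p) = K b B s l t t' z z' := by
  unfold K
  refine iInf_congr fun n => ?_
  have h1 : z' + p + lv b n = z' + lv b n + p := by abel
  rw [h1, kerl_shift p hp, hBp, hBp]
  ring

theorem K_time (hl : ∀ x u t, l x u (t + 1) = l x u t) (s t t' : ℝ) (z z' : E) :
    K b B s l (t + 1) (t' + 1) z z' = K b B s l t t' z z' := by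
  unfold K
  refine iInf_congr fun n => ?_
  rw [kerl_time hl]
  ring

end A5a

end EscG
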