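import Pool.Agent.EscG.A1
import Pool.Agent.EscG.A2b
import Pool.Agent.EscG.A3b
import Pool.Agent.EscG.A4
import Pool.Agent.EscG.A5a

/-!
Project EscG (MP_6acca1_an), module A5b: geodesics, bounds and Lipschitz constants of the kernels at
speed `s`.
-/

noncomputable section

namespace EscG

open MeasureTheory Set Filter Topology Esc EscF
open scoped ContDiff

section A5b

variable {E : Type*} [NormedAddCommGroup E] [InnerProductSpace ℝ E] [FiniteDimensional ℝ E]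
  {ι : Type} [Fintype ι] {β : Module.Basis ι ℝ E} {F : E → E → ℝ} {mF MF m M Mf : ℝ}
  {l : E → E → ℝ → ℝ} {d : ℕ} {b : Fin d → E} {B : E → ℝ} {c : Fin d → ℝ}

/-- uniform upper bound of the kernels at speed at most `S` -/
def A5N (MF M S D0 T0 T1 : ℝ) : ℝ :=
  MF ^ 2 / 2 * D0 ^ 2 / T0 + M * T1 + S * (MF * D0) + S ^ 2 / 2 * T1

/-- uniform displacement bound -/
def A5D (mF MF M S D0 T0 T1 : ℝ) : ℝ :=
  (S * T1 + Real.sqrt (2 * (A5N MF M S D0 T0 T1 + M * T1) * T1)) / mF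

theorem A5_lv_zero : lv b 0 = 0 := by simp [lv]

theorem A5_upper (h : TL β F mF MF m M l) (hB : Cal b F B c) {S D0 T0 T1 s t t' : ℝ}
    (hT0 : 0 < T0) (hs : 0 ≤ s) (hS : s ≤ S) (h0 : T0 ≤ t' - t) (h1 : t' - t ≤ T1) (z z' : E)
    (hz : ∃ n : Fin d → ℤ, ‖z' + lv b n - z‖ ≤ D0) :
    K b B s l t t' z z' ≤ A5N MF M S D0 T0 T1 := by
  obtain ⟨n, hn⟩ := hz
  have htt : t < t' := by linarith
  have hMF : 0 ≤ MF := h.fins.mF_pos.le.trans h.fins.mF_le
  have hD0 : 0 ≤ D0 := (norm_nonneg _).trans hn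
  have hT1 : 0 < T1 := by linarith
  have hS0 : 0 ≤ S := hs.trans hS
  have k1 := K_le h hB hs htt z z' n
  have k2 := h.kerl_upper htt z (z' + lv b n)
  have k3 := Cal.lip h.fins hB (z' + lv b n) z
  have k4 : -(s * (B (z' + lv b n) - B z)) ≤ S * (MF * D0) := by
    have e1 : -(B (z' + lv b n) - B z) ≤ MF * D0 :=
      (neg_le_abs _).trans (k3.trans (mul_le_mul_of_nonneg_left hn hMF))
    have e2 : s * -(B (z' + lv b n) - B z) ≤ s * (MF * D0) := mul_le_mul_of_nonneg_left e1 hs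
    have e3 : s * (MF * D0) ≤ S * (MF * D0) := mul_le_mul_of_nonneg_right hS (by positivity)
    linarith
  have k5 : MF ^ 2 / 2 * ‖z' + lv b n - z‖ ^ 2 / (t' - t) ≤ MF ^ 2 / 2 * D0 ^ 2 / T0 := by
    have e1 : ‖z' + lv b n - z‖ ^ 2 ≤ D0 ^ 2 := pow_le_pow_left₀ (norm_nonneg _) hn 2
    have e2 : MF ^ 2 / 2 * ‖z' + lv b n - z‖ ^ 2 ≤ MF ^ 2 / 2 * D0 ^ 2 :=
      mul_le_mul_of_nonneg_left e1 (by positivity)
    exact div_le_div₀ (by positivity) e2 hT0 h0
  have k6 : M * (t' - t) ≤ M * T1 := mul_le_mul_of_nonneg_left h1 h.M_nonneg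
  have k7 : s ^ 2 / 2 * (t' - t) ≤ S ^ 2 / 2 * T1 := by
    have e1 : s ^ 2 ≤ S ^ 2 := pow_le_pow_left₀ hs hS 2
    exact mul_le_mul (by linarith) h1 (by linarith) (by positivity)
  unfold A5N
  linarith

theorem A5N_nonneg {MF M S D0 T0 T1 : ℝ} (hMF : 0 ≤ MF) (hM : 0 ≤ M) (hS : 0 ≤ S) (hD0 : 0 ≤ D0)
    (hT0 : 0 < T0) (hT1 : 0 ≤ T1) : M * T1 ≤ A5N MF M S D0 T0 T1 := by
  have : 0 ≤ MF ^ 2 / 2 * D0 ^ 2 / T0 + S * (MF * D0) + S ^ 2 / 2 * T1 := by positivity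
  unfold A5N
  linarith

/-- the infimum is attained at a bounded displacement -/
theorem A5_disp (hb : LinearIndependent ℝ b) (h : TL β F mF MF m M l) (hB : Cal b F B c)
    {S D0 T0 T1 s t t' : ℝ}
    (hT0 : 0 < T0) (hs : 0 ≤ s) (hS : s ≤ S) (h0 : T0 ≤ t' - t) (h1 : t' - t ≤ T1) (z z' : E)
    (hz : ∃ n : Fin d → ℤ, ‖z' + lv b n - z‖ ≤ D0) :
    ∃ n : Fin d → ℤ, K b B s l t t' z z' =
      kerl l t t' z (z' + lv b n) - s * (B (z' + lv b n) - B z) + s ^ 2 / 2 * (t' - t) ∧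
      ‖z' + lv b n - z‖ ≤ A5D mF MF M S D0 T0 T1 := by
  have htt : t < t' := by linarith
  obtain ⟨n, hn⟩ := K_attained hb h hB hs htt z z'
  refine ⟨n, hn, ?_⟩
  have hup := A5_upper h hB hT0 hs hS h0 h1 z z' hz
  rw [hn] at hup
  have k1 := disp_le h hB hs htt z (z' + lv b n) hup
  have hMF : 0 ≤ MF := h.fins.mF_pos.le.trans h.fins.mF_le
  have hD0 : 0 ≤ D0 := by obtain ⟨n, hn⟩ := hz; exact (norm_nonneg _).trans hn
  have hT1 : 0 < T1 := by linarith
  have hS0 : 0 ≤ S := hs.trans hS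
  have hM := h.M_nonneg
  have hN := A5N_nonneg hMF hM hS0 hD0 hT0 hT1.le
  have hN0 : 0 ≤ A5N MF M S D0 T0 T1 + M * T1 := by
    have : 0 ≤ M * T1 := by positivity
    linarith
  have k2 : s * (t' - t) ≤ S * T1 := mul_le_mul hS h1 (by linarith) hS0
  have k3 : 2 * (A5N MF M S D0 T0 T1 + M * (t' - t)) * (t' - t) ≤
      2 * (A5N MF M S D0 T0 T1 + M * T1) * T1 := by
    have e1 : M * (t' - t) ≤ M * T1 := mul_le_mul_of_nonneg_left h1 hM
    exact mul_le_mul (by linarith) h1 (by linarith) (by linarith)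
  have k4 := Real.sqrt_le_sqrt k3
  unfold A5D
  rw [le_div_iff₀ h.fins.mF_pos]
  linarith [mul_comm ‖z' + lv b n - z‖ mF]

theorem K_geo (hb : LinearIndependent ℝ b) (hbβ : ∀ i, ∃ j, b i = β j) (hF : Fins β F mF MF)
    (hm : 0 < m) (hM : 0 ≤ M) (hB : Cal b F B c) (S D0 : ℝ) {T0 T1 : ℝ} (hT0 : 0 < T0) : ∃ V : ℝ, 0 < V ∧
    ∀ l, TL β F mF MF m M l → ∀ s, 0 ≤ s → s ≤ S → ∀ t t', T0 ≤ t' - t → t' - t ≤ T1 → ∀ z z' : E,
      (∃ n, ‖z' + lv b n - z‖ ≤ D0) → ∃ (n : Fin d → ℤ) (Z v : ℝ → E), Z t = z ∧ Z t' = z' + lv b n ∧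
        Geo l t t' V Z v ∧
        K b B s l t t' z z' = kerl l t t' z (z' + lv b n) - s * (B (z' + lv b n) - B z) +
          s ^ 2 / 2 * (t' - t) ∧
        ∀ r, t < r → r < t' → K b B s l t r z (Z r) + K b B s l r t' (Z r) z' = K b B s l t t' z z' := by
  obtain ⟨V, hV, hgeo⟩ := exists_geo (E := E) MF m M (A5D mF MF M S D0 T0 T1) (T1 := T1) hm hT0
  refine ⟨V, hV, fun l h s hs hS t t' h0 h1 z z' hz => ?_⟩
  have htt : t < t' := by linarith
  obtain ⟨n, hn, hd⟩ := A5_disp hb h hB hT0 hs hS h0 h1 z z' hz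
  obtain ⟨⟨Z, v, hZ0, hZ1, hG⟩, -⟩ := hgeo h h0 h1 hd
  refine ⟨n, Z, v, hZ0, hZ1, hG, hn, fun r hr hr' => ?_⟩
  refine le_antisymm ?_ (K_le_add hb hbβ h hB hs hr hr' z (Z r) z')
  have k1 := K_le h hB hs hr z (Z r) 0
  have k2 := K_le h hB hs hr' (Z r) z' n
  have k3 := hG.add h hr hr'
  rw [hZ0, hZ1] at k3
  rw [A5_lv_zero, add_zero] at k1
  rw [hn]
  linarith

theorem Geo.speed (h : TL β F mF MF m M l) (hB : Cal b F B c) (s : ℝ) {V : ℝ} {t t' : ℝ} (htt : t < t')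
    {Z v : ℝ → E} (hG : Geo l t t' V Z v) :
    (∫ r in t..t', (F (Z r) (v r) - s) ^ 2 / 2) + s * ((∫ r in t..t', F (Z r) (v r)) -
      (B (Z t') - B (Z t))) - M * (t' - t) ≤
      kerl l t t' (Z t) (Z t') - s * (B (Z t') - B (Z t)) + s ^ 2 / 2 * (t' - t) := by
  obtain ⟨C, hC⟩ := hG.lip
  obtain ⟨u, hu, huv, htr, hact⟩ := adm_of_lip htt hC hG.pos
  have ht : t ∈ Icc t t' := left_mem_Icc.2 htt.le
  have ht' : t' ∈ Icc t t' := right_mem_Icc.2 htt.le
  have k1 := act_speed h hB s htt (Z t) hu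
  rw [hact l t ht t' ht' htt.le, hG.act t t' le_rfl htt le_rfl, htr t ht t' ht'] at k1
  have e1 : ∫ r in t..t', (F (traj t (Z t) u r) (u r) - s) ^ 2 / 2 =
      ∫ r in t..t', (F (Z r) (v r) - s) ^ 2 / 2 := by
    refine intervalIntegral.integral_congr fun r hr => ?_
    rw [uIcc_of_le htt.le] at hr
    simp only [htr t ht r hr, huv r hr]
  have e2 : ∫ r in t..t', F (traj t (Z t) u r) (u r) = ∫ r in t..t', F (Z r) (v r) := by
    refine intervalIntegral.integral_congr fun r hr => ?_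
    rw [uIcc_of_le htt.le] at hr
    simp only [htr t ht r hr, huv r hr]
  rw [e1, e2] at k1
  exact k1

theorem K_lip (hb : LinearIndependent ℝ b) (hbβ : ∀ i, ∃ j, b i = β j) (h : TL β F mF MF m M l)
    (hMf : 0 ≤ Mf) (hB : Cal b F B c) (S D0 : ℝ) {T0 T1 : ℝ} (hT0 : 0 < T0) : ∃ C : ℝ, 0 ≤ C ∧
    ∀ f, Pt β f → Good Mf f → ∀ s, 0 ≤ s → s ≤ S → ∀ t t', T0 ≤ t' - t → t' - t ≤ T1 →
      (∀ z z' : E, (∃ n, ‖z' + lv b n - z‖ ≤ D0) → |K b B s (lf l f) t t' z z'| ≤ C) ∧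
      (∀ z z' w w' : E, (∃ n, ‖z' + lv b n - z‖ ≤ D0) → (∃ n, ‖w' + lv b n - w‖ ≤ D0) →
        |K b B s (lf l f) t t' z z' - K b B s (lf l f) t t' w w'| ≤ C * (‖z - w‖ + ‖z' - w'‖)) := by
  obtain ⟨C0, hC0, hlip⟩ := h.kerl_lip hMf (A5D mF MF (M + Mf) S D0 T0 T1 + 1) (T1 := T1) hT0
  set N := A5N MF (M + Mf) S D0 T0 T1 with hN
  have hMF : 0 ≤ MF := h.fins.mF_pos.le.trans h.fins.mF_le
  have hM' : 0 ≤ M + Mf := add_nonneg h.M_nonneg hMf
  refine ⟨2 * |N| + C0 + |S| * MF, by positivity, fun f hf hg s hs hS t t' h0 h1 => ?_⟩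
  have htt : t < t' := by linarith
  have hT1 : 0 < T1 := by linarith
  have hS0 : 0 ≤ S := hs.trans hS
  have hl := h.add hf hg
  have bound : ∀ z z' : E, (∃ n, ‖z' + lv b n - z‖ ≤ D0) → |K b B s (lf l f) t t' z z'| ≤ |N| := by
    intro z z' hz
    have hD0 : 0 ≤ D0 := by obtain ⟨n, hn⟩ := hz; exact (norm_nonneg _).trans hn
    have k1 := A5_upper hl hB hT0 hs hS h0 h1 z z' hz
    have k2 := K_ge hl hB hs htt z z'
    have k3 := A5N_nonneg hMF hM' hS0 hD0 hT0 hT1.le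
    have k4 : (M + Mf) * (t' - t) ≤ (M + Mf) * T1 := mul_le_mul_of_nonneg_left h1 hM'
    have k5 : N ≤ |N| := le_abs_self N
    rw [abs_le]
    constructor <;> linarith
  refine ⟨fun z z' hz => (bound z z' hz).trans ?_, ?_⟩
  · have : 0 ≤ |N| + C0 + |S| * MF := by positivity
    linarith
  have key : ∀ z z' w w' : E, (∃ n, ‖z' + lv b n - z‖ ≤ D0) → (∃ n, ‖w' + lv b n - w‖ ≤ D0) →
      K b B s (lf l f) t t' w w' - K b B s (lf l f) t t' z z' ≤
        (2 * |N| + C0 + |S| * MF) * (‖z - w‖ + ‖z' - w'‖) := by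
    intro z z' w w' hz hw
    rcases le_total (‖z - w‖ + ‖z' - w'‖) 1 with hle | hge
    · obtain ⟨n, hn, hd⟩ := A5_disp hb hl hB hT0 hs hS h0 h1 z z' hz
      have k1 := K_le hl hB hs htt w w' n
      have a1 : ‖w' + lv b n - w‖ ≤ A5D mF MF (M + Mf) S D0 T0 T1 + 1 := by
        have : w' + lv b n - w = (z' + lv b n - z) + ((z - w) - (z' - w')) := by abel
        rw [this]
        refine (norm_add_le _ _).trans (add_le_add hd ((norm_sub_le _ _).trans hle))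
      have k2 := hlip f hf hg t t' h0 h1 w (w' + lv b n) z (z' + lv b n) a1 (by linarith)
      have e1 : w' + lv b n - (z' + lv b n) = w' - z' := by abel
      rw [e1] at k2
      have k3 := Cal.lip h.fins hB (z' + lv b n) (w' + lv b n)
      have e2 : z' + lv b n - (w' + lv b n) = z' - w' := by abel
      rw [e2] at k3
      have k4 := Cal.lip h.fins hB w z
      have k5 : s * ((B (z' + lv b n) - B z) - (B (w' + lv b n) - B w)) ≤
          |S| * MF * (‖z - w‖ + ‖z' - w'‖) := by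
        have e3 : (B (z' + lv b n) - B z) - (B (w' + lv b n) - B w) ≤ MF * (‖z - w‖ + ‖z' - w'‖) := by
          have := le_abs_self (B (z' + lv b n) - B (w' + lv b n))
          have := le_abs_self (B w - B z)
          rw [norm_sub_rev w z] at k4
          linarith
        calc s * ((B (z' + lv b n) - B z) - (B (w' + lv b n) - B w))
            ≤ s * (MF * (‖z - w‖ + ‖z' - w'‖)) := mul_le_mul_of_nonneg_left e3 hs
          _ ≤ |S| * (MF * (‖z - w‖ + ‖z' - w'‖)) :=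
              mul_le_mul_of_nonneg_right (hS.trans (le_abs_self S)) (by positivity)
          _ = _ := by ring
      have k6 : kerl (lf l f) t t' w (w' + lv b n) - kerl (lf l f) t t' z (z' + lv b n) ≤
          C0 * (‖z - w‖ + ‖z' - w'‖) := by
        have := (le_abs_self _).trans k2
        rwa [norm_sub_rev w z, norm_sub_rev w' z'] at this
      have k7 : 0 ≤ 2 * |N| * (‖z - w‖ + ‖z' - w'‖) := by positivity
      rw [hn]
      nlinarith [k1, k5, k6, k7]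
    · have b1 := bound z z' hz
      have b2 := bound w w' hw
      have : K b B s (lf l f) t t' w w' - K b B s (lf l f) t t' z z' ≤ 2 * |N| := by
        have := le_abs_self (K b B s (lf l f) t t' w w')
        have := neg_le_abs (K b B s (lf l f) t t' z z')
        linarith
      refine this.trans ?_
      have k7 : 0 ≤ (C0 + |S| * MF) * (‖z - w‖ + ‖z' - w'‖) := by positivity
      have k8 : 2 * |N| * 1 ≤ 2 * |N| * (‖z - w‖ + ‖z' - w'‖) :=
        mul_le_mul_of_nonneg_left hge (by positivity)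
      nlinarith [k7, k8]
  intro z z' w w' hz hw
  have q1 := key z z' w w' hz hw
  have q2 := key w w' z z' hw hz
  rw [norm_sub_rev w z, norm_sub_rev w' z'] at q2
  rw [abs_le]
  constructor <;> linarith

theorem K_speed (hb : LinearIndependent ℝ b) (hF : Fins β F mF MF) (hm : 0 < m) (hM : 0 ≤ M)
    (hB : Cal b F B c) (S D0 : ℝ) {T0 T1 : ℝ} (hT0 : 0 < T0) : ∃ C : ℝ, 0 ≤ C ∧
    ∀ l, TL β F mF MF m M l → ∀ s s', 0 ≤ s → s ≤ S → 0 ≤ s' → s' ≤ S →
      ∀ t t', T0 ≤ t' - t → t' - t ≤ T1 → ∀ z z' : E, (∃ n, ‖z' + lv b n - z‖ ≤ D0) →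
      |K b B s l t t' z z' - K b B s' l t t' z z'| ≤ C * |s - s'| := by
  have hMF : 0 ≤ MF := hF.mF_pos.le.trans hF.mF_le
  refine ⟨MF * |A5D mF MF M S D0 T0 T1| + |S| * |T1|, by positivity,
    fun l h s s' hs hS hs' hS' t t' h0 h1 z z' hz => ?_⟩
  have htt : t < t' := by linarith
  have hT1 : 0 < T1 := by linarith
  have key : ∀ s s' : ℝ, 0 ≤ s → s ≤ S → 0 ≤ s' → s' ≤ S →
      K b B s' l t t' z z' - K b B s l t t' z z' ≤
        (MF * |A5D mF MF M S D0 T0 T1| + |S| * |T1|) * |s - s'| := by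
    intro s s' hs hS hs' hS'
    obtain ⟨n, hn, hd⟩ := A5_disp hb h hB hT0 hs hS h0 h1 z z' hz
    have k1 := K_le h hB hs' htt z z' n
    have k2 := Cal.lip hF hB (z' + lv b n) z
    have k3 : |(s - s') * (B (z' + lv b n) - B z)| ≤
        |s - s'| * (MF * |A5D mF MF M S D0 T0 T1|) := by
      rw [abs_mul]
      refine mul_le_mul_of_nonneg_left (k2.trans ?_) (abs_nonneg _)
      exact mul_le_mul_of_nonneg_left (hd.trans (le_abs_self _)) hMF
    have k4 : |(s' ^ 2 - s ^ 2) / 2 * (t' - t)| ≤ |s - s'| * (|S| * |T1|) := by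
      have e1 : (s' ^ 2 - s ^ 2) / 2 * (t' - t) = (s' - s) * ((s' + s) / 2 * (t' - t)) := by ring
      rw [e1, abs_mul, abs_sub_comm s' s]
      refine mul_le_mul_of_nonneg_left ?_ (abs_nonneg _)
      have e2 : 0 ≤ (s' + s) / 2 * (t' - t) := mul_nonneg (by linarith) (by linarith)
      rw [abs_of_nonneg e2]
      have e3 : (s' + s) / 2 ≤ |S| := (by linarith : (s' + s) / 2 ≤ S).trans (le_abs_self S)
      exact mul_le_mul e3 (h1.trans (le_abs_self T1)) (by linarith) (abs_nonneg _)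
    have q1 := le_abs_self ((s - s') * (B (z' + lv b n) - B z))
    have q2 := le_abs_self ((s' ^ 2 - s ^ 2) / 2 * (t' - t))
    rw [hn]
    nlinarith [k1, k3, k4, q1, q2]
  have q1 := key s s' hs hS hs' hS'
  have q2 := key s' s hs' hS' hs hS
  rw [abs_sub_comm s' s] at q2
  rw [abs_le]
  constructor <;> linarith

end A5b

end EscG
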