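import Pool.Agent.EscG.A2b
import Pool.Agent.EscG.A3b
import Pool.Agent.EscG.A5a
import Pool.Agent.EscG.A5b

/-!
Project EscG, module A5c: comparison, concavity and the cone lemma for the kernels at speed `s`.
-/

noncomputable section

namespace EscG

open MeasureTheory Set Filter Topology Esc EscF
open scoped ContDiff

variable {E : Type*} [NormedAddCommGroup E] [InnerProductSpace ℝ E] [FiniteDimensional ℝ E]
  {ι : Type} [Fintype ι] {β : Module.Basis ι ℝ E} {F : E → E → ℝ} {mF MF m M Mf : ℝ}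
  {l : E → E → ℝ → ℝ} {d : ℕ} {b : Fin d → E} {B : E → ℝ} {c : Fin d → ℝ}

theorem K_sub_le (hb : LinearIndependent ℝ b) {l' : E → E → ℝ → ℝ} (h : TL β F mF MF m M l)
    (h' : TL β F mF MF m M l') (hB : Cal b F B c) {ρ : ℝ} (hρ : ∀ x u t, |l x u t - l' x u t| ≤ ρ) {s : ℝ}
    (hs : 0 ≤ s) {t t' : ℝ} (htt : t < t') (z z' : E) :
    |K b B s l t t' z z' - K b B s l' t t' z z'| ≤ ρ * (t' - t) := by
  rw [abs_sub_le_iff]
  constructor
  · obtain ⟨n, hn⟩ := K_attained hb h' hB hs htt z z'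
    have h1 := K_le h hB hs htt z z' n
    have h2 := (abs_sub_le_iff.1 (CB.kerl_sub_le h.cb h'.cb hρ htt z (z' + lv b n))).1
    rw [hn]
    linarith
  · obtain ⟨n, hn⟩ := K_attained hb h hB hs htt z z'
    have h1 := K_le h' hB hs htt z z' n
    have h2 := (abs_sub_le_iff.1 (CB.kerl_sub_le h.cb h'.cb hρ htt z (z' + lv b n))).2
    rw [hn]
    linarith

theorem K_mono (hb : LinearIndependent ℝ b) {l' : E → E → ℝ → ℝ} (h : TL β F mF MF m M l)
    (h' : TL β F mF MF m M l') (hB : Cal b F B c) (hρ : ∀ x u t, l x u t ≤ l' x u t) {s : ℝ}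
    (hs : 0 ≤ s) {t t' : ℝ} (htt : t < t') (z z' : E) :
    K b B s l t t' z z' ≤ K b B s l' t t' z z' := by
  obtain ⟨n, hn⟩ := K_attained hb h' hB hs htt z z'
  have h1 := K_le h hB hs htt z z' n
  have h2 := CB.kerl_mono h.cb h'.cb hρ htt z (z' + lv b n)
  rw [hn]
  linarith

/-- an average of potentials is a periodic potential -/
theorem A5c_pt_avg {κ : Type*} (I : Finset κ) {f : κ → E → ℝ → ℝ} (hf : ∀ i ∈ I, Pt β (f i)) :
    Pt β (fun x r => (∑ i ∈ I, f i x r) / I.card) where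
  smooth := by
    have h1 : ContDiff ℝ 2 (fun p : E × ℝ => ∑ i ∈ I, f i p.1 p.2) :=
      ContDiff.sum fun i hi => (hf i hi).smooth
    exact h1.div_const _
  per j x t := by
    congr 1
    exact Finset.sum_congr rfl fun i hi => (hf i hi).per j x t
  pert x t := by
    congr 1
    exact Finset.sum_congr rfl fun i hi => (hf i hi).pert x t

theorem A5c_abs_avg {κ : Type*} (I : Finset κ) (hI : I.Nonempty) {g : κ → ℝ} {C : ℝ}
    (hg : ∀ i ∈ I, |g i| ≤ C) : |(∑ i ∈ I, g i) / I.card| ≤ C := by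
  have hc : (0 : ℝ) < I.card := by exact_mod_cast hI.card_pos
  rw [abs_div, abs_of_pos hc, div_le_iff₀ hc]
  calc |∑ i ∈ I, g i| ≤ ∑ i ∈ I, |g i| := Finset.abs_sum_le_sum_abs _ _
    _ ≤ ∑ i ∈ I, C := Finset.sum_le_sum hg
    _ = C * I.card := by rw [Finset.sum_const, nsmul_eq_mul, mul_comm]

/-- an average of good potentials is good -/
theorem A5c_good_avg {κ : Type*} (I : Finset κ) (hI : I.Nonempty) {f : κ → E → ℝ → ℝ}
    (hg : ∀ i ∈ I, Good Mf (f i)) : Good Mf (fun x r => (∑ i ∈ I, f i x r) / I.card) where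
  pos := by
    obtain ⟨i, hi⟩ := hI
    exact (hg i hi).pos
  cont := by
    have h1 : Continuous (fun p : E × ℝ => ∑ i ∈ I, f i p.1 p.2) :=
      continuous_finsetSum _ fun i hi => (hg i hi).cont
    exact h1.div_const _
  bd x t := A5c_abs_avg I hI fun i hi => (hg i hi).bd x t
  lipx x x' t := by
    have h1 := A5c_abs_avg I hI (g := fun i => f i x t - f i x' t) fun i hi => (hg i hi).lipx x x' t
    rwa [Finset.sum_sub_distrib, sub_div] at h1
  lipt x t t' := by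
    have h1 := A5c_abs_avg I hI (g := fun i => f i x t - f i x t') fun i hi => (hg i hi).lipt x t t'
    rwa [Finset.sum_sub_distrib, sub_div] at h1

/-- concavity of the kernel in the potential -/
theorem A5c_kerl_concave {κ : Type*} (I : Finset κ) (hI : I.Nonempty)
    {f : κ → E → ℝ → ℝ} {M' : ℝ} (h : ∀ i ∈ I, CB M' (lf l (f i)))
    (h' : CB M' (lf l (fun x r => (∑ i ∈ I, f i x r) / I.card))) {t t' : ℝ} (htt : t < t') (z z' : E) :
    (∑ i ∈ I, kerl (lf l (f i)) t t' z z') / I.card ≤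
      kerl (lf l (fun x r => (∑ i ∈ I, f i x r) / I.card)) t t' z z' := by
  have hc : (0 : ℝ) < I.card := by exact_mod_cast hI.card_pos
  refine le_of_forall_pos_le_add fun ε hε => ?_
  obtain ⟨u, hu, hu1, hu2⟩ := h'.exists_lt htt z z' hε
  refine le_trans ?_ hu2.le
  rw [div_le_iff₀ hc]
  have h1 : ∀ i ∈ I, kerl (lf l (f i)) t t' z z' ≤ actl (lf l (f i)) t t' z u := fun i hi =>
    (h i hi).kerl_le htt hu hu1
  refine (Finset.sum_le_sum h1).trans (le_of_eq ?_)
  unfold actl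
  rw [← intervalIntegral.integral_finsetSum fun i hi => (h i hi).ii hu t z t t',
    ← intervalIntegral.integral_mul_const]
  congr 1
  ext r
  unfold lf
  rw [Finset.sum_add_distrib, Finset.sum_const, nsmul_eq_mul]
  field_simp

theorem K_concave (hb : LinearIndependent ℝ b) {κ : Type*} (I : Finset κ) (hI : I.Nonempty)
    {f : κ → E → ℝ → ℝ} (h : TL β F mF MF m M l) (hf : ∀ i ∈ I, Pt β (f i)) (hg : ∀ i ∈ I, Good Mf (f i))
    (hB : Cal b F B c) {s : ℝ} (hs : 0 ≤ s) {t t' : ℝ} (htt : t < t') (z z' : E) :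
    (∑ i ∈ I, K b B s (lf l (f i)) t t' z z') / I.card ≤
      K b B s (lf l (fun x r => (∑ i ∈ I, f i x r) / I.card)) t t' z z' := by
  have hc : (0 : ℝ) < I.card := by exact_mod_cast hI.card_pos
  have hT : ∀ i ∈ I, TL β F mF MF m (M + Mf) (lf l (f i)) := fun i hi => h.add (hf i hi) (hg i hi)
  have hT' := h.add (A5c_pt_avg I hf) (A5c_good_avg I hI hg)
  obtain ⟨n, hn⟩ := K_attained hb hT' hB hs htt z z'
  have h1 := A5c_kerl_concave I hI (fun i hi => (hT i hi).cb) hT'.cb htt z (z' + lv b n)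
  have h2 : ∀ i ∈ I, K b B s (lf l (f i)) t t' z z' ≤ kerl (lf l (f i)) t t' z (z' + lv b n) +
      (- (s * (B (z' + lv b n) - B z)) + s ^ 2 / 2 * (t' - t)) := by
    intro i hi
    have := K_le (hT i hi) hB hs htt z z' n
    linarith
  have h3 := Finset.sum_le_sum h2
  rw [Finset.sum_add_distrib, Finset.sum_const, nsmul_eq_mul] at h3
  rw [hn, div_le_iff₀ hc]
  rw [div_le_iff₀ hc] at h1
  nlinarith

/-- cone lemma for the kernels at speed `s` -/
theorem K_cone (hb : LinearIndependent ℝ b) (hbβ : ∀ i, ∃ j, b i = β j) (h : TL β F mF MF m M l)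
    (hMf : 0 ≤ Mf) (hB : Cal b F B c) (S D0 : ℝ) {T0 T1 : ℝ} (hT0 : 0 < T0) : ∃ V : ℝ, 0 < V ∧
    ∀ f f', Pt β f → Good Mf f → Pt β f' → Good Mf f' → ∀ s, 0 ≤ s → s ≤ S → ∀ t t', T0 ≤ t' - t →
      t' - t ≤ T1 → ∀ z z' : E, (∃ n, ‖z' + lv b n - z‖ ≤ D0) → ∀ κ : ℝ → ℝ,
      IntervalIntegrable κ volume t t' →
      (∀ r ∈ Icc t t', ∀ x, ‖x - z‖ ≤ V * (r - t) → (∃ n, ‖x - (z' + lv b n)‖ ≤ V * (t' - r)) →
        f x r + κ r ≤ f' x r) →
      K b B s (lf l f) t t' z z' + ∫ r in t..t', κ r ≤ K b B s (lf l f') t t' z z' := by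
  obtain ⟨V, hV, hgeo⟩ := K_geo (M := M + Mf) hb hbβ h.fins h.m_pos (by linarith [h.M_nonneg]) hB S D0
    (T1 := T1) hT0
  refine ⟨V, hV, ?_⟩
  intro f f' hf hg hf' hg' s hs hsS t t' h0 h1 z z' hn κ hκ hle
  have htt : t < t' := by linarith
  obtain ⟨n, Z, v, hZ0, hZ1, hG, hK, -⟩ := hgeo (lf l f') (h.add hf' hg') s hs hsS t t' h0 h1 z z' hn
  have h2 := Geo.cone (h.add hf hg) hf hf' htt hG κ hκ (by
    intro r hr x hx hx'
    rw [hZ0] at hx
    rw [hZ1] at hx'
    exact hle r hr x hx ⟨n, hx'⟩)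
  rw [hZ0, hZ1] at h2
  have h3 := K_le (h.add hf hg) hB hs htt z z' n
  rw [hK]
  linarith

end EscG
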