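import Pool.Agent.EscF.CDefs
import Pool.Agent.helper42.Esc.K

/-!
Project EscG (MP_6acca1_an), analysis layer: Lagrangians at bounded distance of a Finsler energy, their
kernels and the kernels at speed `s`. Definitions.
-/

noncomputable section

namespace EscG

open MeasureTheory Set Filter Topology Esc EscF
open scoped ContDiff

variable {E : Type*} [NormedAddCommGroup E] [InnerProductSpace ℝ E]

/-- `l` is jointly continuous and bounded below -/
structure CB (M : ℝ) (l : E → E → ℝ → ℝ) : Prop where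
  cont : Continuous (fun p : E × E × ℝ => l p.1 p.2.1 p.2.2)
  low : ∀ x u t, -M ≤ l x u t

variable [CompleteSpace E]

/-- gradient in the velocity -/
def gu (l : E → E → ℝ → ℝ) (x v : E) (t : ℝ) : E := gradient (fun w => l x w t) v

/-- gradient in the position -/
def gx (l : E → E → ℝ → ℝ) (x v : E) (t : ℝ) : E := gradient (fun y => l y v t) x

/-- a continuous Finsler metric, periodic under the lattice with basis `β` -/
structure Fins {ι : Type*} [Fintype ι] (β : Module.Basis ι ℝ E) (F : E → E → ℝ) (mF MF : ℝ) : Prop where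
  mF_pos : 0 < mF
  mF_le : mF ≤ MF
  cont : Continuous (fun p : E × E => F p.1 p.2)
  per : ∀ i x v, F (x + β i) v = F x v
  hom : ∀ x v (c : ℝ), 0 ≤ c → F x (c • v) = c * F x v
  low : ∀ x v, mF * ‖v‖ ≤ F x v
  upp : ∀ x v, F x v ≤ MF * ‖v‖

/-- a Lagrangian at bounded distance of the energy of `F`: `C^2`, periodic, strongly convex in the
velocity, with bounded time derivative -/
structure TL {ι : Type*} [Fintype ι] (β : Module.Basis ι ℝ E) (F : E → E → ℝ) (mF MF m M : ℝ)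
    (l : E → E → ℝ → ℝ) : Prop where
  fins : Fins β F mF MF
  m_pos : 0 < m
  M_nonneg : 0 ≤ M
  smooth : ContDiff ℝ 2 (fun p : E × E × ℝ => l p.1 p.2.1 p.2.2)
  per : ∀ i x v t, l (x + β i) v t = l x v t
  pert : ∀ x v t, l x v (t + 1) = l x v t
  conv : ∀ x u v t, l x v t + inner ℝ (gu l x v t) (u - v) + m / 2 * ‖u - v‖ ^ 2 ≤ l x u t
  l_t : ∀ x v t t', |l x v t - l x v t'| ≤ M * |t - t'|
  l_F : ∀ x v t, |l x v t - F x v ^ 2 / 2| ≤ M

/-- a periodic potential of class `C^2` -/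
structure Pt {ι : Type*} [Fintype ι] (β : Module.Basis ι ℝ E) (f : E → ℝ → ℝ) : Prop where
  smooth : ContDiff ℝ 2 (fun p : E × ℝ => f p.1 p.2)
  per : ∀ i x t, f (x + β i) t = f x t
  pert : ∀ x t, f x (t + 1) = f x t

/-- the Lagrangian `l + f` -/
def lf (l : E → E → ℝ → ℝ) (f : E → ℝ → ℝ) : E → E → ℝ → ℝ := fun x u t => l x u t + f x t

/-- a minimizer of the kernel on `[a,b]` of class `C^{1,1}`, with speed at most `V` -/
structure Geo (l : E → E → ℝ → ℝ) (a b V : ℝ) (Z v : ℝ → E) : Prop where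
  lip : ∃ C : ℝ, ∀ s ∈ Icc a b, ∀ t ∈ Icc a b, ‖v t - v s‖ ≤ C * |t - s|
  pos : ∀ s ∈ Icc a b, ∀ t ∈ Icc a b, Z t - Z s = ∫ r in s..t, v r
  bd : ∀ t ∈ Icc a b, ‖v t‖ ≤ V
  act : ∀ s t, a ≤ s → s < t → t ≤ b → ∫ r in s..t, l (Z r) (v r) r = kerl l s t (Z s) (Z t)
  el : ∀ s ∈ Icc a b, ∀ t ∈ Icc a b,
    gu l (Z t) (v t) t - gu l (Z s) (v s) s = ∫ r in s..t, gx l (Z r) (v r) r

/-- constants: `‖gu l x v t‖ ≤ cG (1 + ‖v‖)` and `m / 4 ‖v‖² - C1 ≤ l x v t` -/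
def cG (MF M : ℝ) : ℝ := 2 * MF ^ 2 + 2 * M
def C1 (MF m M : ℝ) : ℝ := M + cG MF M ^ 2 / m

/-- `l'` is a cut-off of `l`: globally `C^{1,1}`, below `l`, equal to `l` for speeds `≤ R` -/
structure Cut (l l' : E → E → ℝ → ℝ) (lx' lu' : E → E → ℝ → E) (m C M R Λ : ℝ) : Prop where
  cl : CL l' lx' lu' 0 (m / 4) Λ
  le : ∀ x u t, l' x u t ≤ l x u t
  low : ∀ x u t, m / 4 * ‖u‖ ^ 2 - C ≤ l' x u t
  eq : ∀ x u t, ‖u‖ ≤ R → l' x u t = l x u t
  equ : ∀ x u t, ‖u‖ ≤ R → lu' x u t = gu l x u t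
  eqx : ∀ x u t, ‖u‖ ≤ R → lx' x u t = gx l x u t
  l_t : ∀ x v t t', |l' x v t - l' x v t'| ≤ M * |t - t'|

/-- lattice of height zero -/
def lv {d : ℕ} (b : Fin d → E) (n : Fin d → ℤ) : E := ∑ i, (n i : ℝ) • b i

/-- the calibrating function: `B (end) - B (start) ≤ F`-length -/
structure Cal {d : ℕ} (b : Fin d → E) (F : E → E → ℝ) (B : E → ℝ) (c : Fin d → ℝ) : Prop where
  cal : ∀ (z : E) (u : ℝ → E), Adm u → ∀ a b' : ℝ, a ≤ b' →
    B (traj a z u b') - B z ≤ ∫ t in a..b', F (traj a z u t) (u t)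
  lvB : ∀ (n : Fin d → ℤ) (x : E), B (x + lv b n) = B x + ∑ i, (n i : ℝ) * c i

/-- kernel at speed `s`, periodic along the vectors `b i` -/
def K {d : ℕ} (b : Fin d → E) (B : E → ℝ) (s : ℝ) (l : E → E → ℝ → ℝ) (t t' : ℝ) (z z' : E) : ℝ :=
  ⨅ n : Fin d → ℤ, (kerl l t t' z (z' + lv b n) - s * (B (z' + lv b n) - B z)) + s ^ 2 / 2 * (t' - t)

end EscG
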