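import Pool.Agent.EscG.ADefs
import Pool.Agent.EscF.O3

/-!
INTERFACE of the analysis layer of project EscG. All statements with sorry; every module proves its
statements in its own file. Never import this file in a final module.
-/

noncomputable section

namespace EscG

open MeasureTheory Set Filter Topology Esc EscF
open scoped ContDiff

/-! ## MODULE A1 (file A1.lean): kernels of continuous Lagrangians bounded below -/

section A1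

variable {E : Type*} [NormedAddCommGroup E] [InnerProductSpace ℝ E] [FiniteDimensional ℝ E]
  {l l' : E → E → ℝ → ℝ} {M : ℝ}

theorem CB.ii (hl : CB M l) {u : ℝ → E} (hu : Adm u) (a : ℝ) (z : E) (c d : ℝ) :
    IntervalIntegrable (fun t => l (traj a z u t) (u t) t) volume c d := sorry
theorem CB.act_ge (hl : CB M l) {a b : ℝ} (hab : a < b) (z : E) {u : ℝ → E} (hu : Adm u) :
    -M * (b - a) ≤ actl l a b z u := sorry
theorem CB.kerl_le (hl : CB M l) {a b : ℝ} (hab : a < b) {z z' : E} {u : ℝ → E} (hu : Adm u)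
    (h : traj a z u b = z') : kerl l a b z z' ≤ actl l a b z u := sorry
theorem CB.exists_lt (hl : CB M l) {a b : ℝ} (hab : a < b) (z z' : E) {ε : ℝ} (hε : 0 < ε) :
    ∃ u, Adm u ∧ traj a z u b = z' ∧ actl l a b z u < kerl l a b z z' + ε := sorry
theorem CB.kerl_ge (hl : CB M l) {a b : ℝ} (hab : a < b) (z z' : E) :
    -M * (b - a) ≤ kerl l a b z z' := sorry
/-- dynamic programming -/
theorem CB.kerl_le_add (hl : CB M l) {a b c : ℝ} (hab : a < b) (hbc : b < c) (z x z' : E) :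
    kerl l a c z z' ≤ kerl l a b z x + kerl l b c x z' := sorry
/-- splitting of the action -/
theorem CB.add_kerl_le (hl : CB M l) {a b c : ℝ} (hab : a < b) (hbc : b < c) (z : E) {u : ℝ → E}
    (hu : Adm u) : kerl l a b z (traj a z u b) + kerl l b c (traj a z u b) (traj a z u c) ≤
      actl l a c z u := sorry
theorem kerl_shift (p : E) (h : ∀ x u t, l (x + p) u t = l x u t) (a b : ℝ) (z z' : E) :
    kerl l a b (z + p) (z' + p) = kerl l a b z z' := sorry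
theorem CB.kerl_mono (hl : CB M l) (hl' : CB M l') (h : ∀ x u t, l x u t ≤ l' x u t)
    {a b : ℝ} (hab : a < b) (z z' : E) : kerl l a b z z' ≤ kerl l' a b z z' := sorry
theorem CB.kerl_sub_le (hl : CB M l) (hl' : CB M l') {ρ : ℝ} (h : ∀ x u t, |l x u t - l' x u t| ≤ ρ)
    {a b : ℝ} (hab : a < b) (z z' : E) : |kerl l a b z z' - kerl l' a b z z'| ≤ ρ * (b - a) := sorry
/-- a `C^{1,1}` curve, extended by constants, is admissible -/
theorem adm_of_lip {a b : ℝ} (hab : a < b) {Z v : ℝ → E} {C : ℝ}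
    (hv : ∀ s ∈ Icc a b, ∀ t ∈ Icc a b, ‖v t - v s‖ ≤ C * |t - s|)
    (hZ : ∀ s ∈ Icc a b, ∀ t ∈ Icc a b, Z t - Z s = ∫ r in s..t, v r) :
    ∃ u : ℝ → E, Adm u ∧ (∀ t ∈ Icc a b, u t = v t) ∧ (∀ s ∈ Icc a b, ∀ t ∈ Icc a b, traj s (Z s) u t = Z t) ∧
      ∀ l : E → E → ℝ → ℝ, ∀ s ∈ Icc a b, ∀ t ∈ Icc a b, s ≤ t →
        actl l s t (Z s) u = ∫ r in s..t, l (Z r) (v r) r := sorry

end A1

/-! ## MODULE A2 (files A2a, A2b, A2c): bounds, cut-off -/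

section A2

variable {E : Type*} [NormedAddCommGroup E] [InnerProductSpace ℝ E] [FiniteDimensional ℝ E]
  {ι : Type*} [Fintype ι] {β : Module.Basis ι ℝ E} {F : E → E → ℝ} {mF MF m M Mf : ℝ}
  {l : E → E → ℝ → ℝ} {f : E → ℝ → ℝ}

/- file A2b.lean -/
theorem TL.cb (h : TL β F mF MF m M l) : CB M l := sorry
theorem TL.add (h : TL β F mF MF m M l) (hf : Pt β f) (hg : Good Mf f) :
    TL β F mF MF m (M + Mf) (lf l f) := sorry
theorem gu_lf (h : TL β F mF MF m M l) (x v : E) (t : ℝ) : gu (lf l f) x v t = gu l x v t := sorry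
theorem gx_lf (h : TL β F mF MF m M l) (hf : Pt β f) (x v : E) (t : ℝ) :
    gx (lf l f) x v t = gx l x v t + gradient (fun y => f y t) x := sorry
theorem TL.gu_bd (h : TL β F mF MF m M l) (x v : E) (t : ℝ) :
    ‖gu l x v t‖ ≤ cG MF M * (1 + ‖v‖) := sorry
theorem TL.low (h : TL β F mF MF m M l) (x v : E) (t : ℝ) :
    m / 4 * ‖v‖ ^ 2 - C1 MF m M ≤ l x v t := sorry
theorem TL.upp (h : TL β F mF MF m M l) (x v : E) (t : ℝ) : l x v t ≤ MF ^ 2 / 2 * ‖v‖ ^ 2 + M := sorry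
theorem TL.gu_cont (h : TL β F mF MF m M l) :
    Continuous (fun p : E × E × ℝ => gu l p.1 p.2.1 p.2.2) := sorry
theorem TL.gx_cont (h : TL β F mF MF m M l) :
    Continuous (fun p : E × E × ℝ => gx l p.1 p.2.1 p.2.2) := sorry
/-- periodic continuous functions are bounded for bounded velocities -/
theorem per_bdd {W : Type*} [NormedAddCommGroup W] (β : Module.Basis ι ℝ E) {Φ : E × E × ℝ → W}
    (hc : Continuous Φ) (hx : ∀ i x v t, Φ (x + β i, v, t) = Φ (x, v, t))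
    (ht : ∀ x v t, Φ (x, v, t + 1) = Φ (x, v, t)) (R : ℝ) :
    ∃ C : ℝ, 0 ≤ C ∧ ∀ x v t, ‖v‖ ≤ R → ‖Φ (x, v, t)‖ ≤ C := sorry
/-- `l` is Lipschitz for bounded velocities -/
theorem TL.lip (h : TL β F mF MF m M l) (R : ℝ) : ∃ C : ℝ, 0 ≤ C ∧ ∀ x v x' v' t, ‖v‖ ≤ R → ‖v'‖ ≤ R →
    |l x v t - l x' v' t| ≤ C * (‖x - x'‖ + ‖v - v'‖) := sorry

/- file A2a.lean -/
/-- slowly varying cut-off functions -/
theorem exists_chi (E : Type*) [NormedAddCommGroup E] [InnerProductSpace ℝ E] {κ : ℝ} (hκ : 0 < κ)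
    (R : ℝ) : ∃ (χ : E → ℝ) (R' : ℝ), ContDiff ℝ 2 χ ∧ (∀ v, 0 ≤ χ v ∧ χ v ≤ 1) ∧
      (∀ v, ‖v‖ ≤ R → χ v = 1) ∧ (∀ v, R' ≤ ‖v‖ → χ v = 0) ∧
      (∀ v w, |fderiv ℝ χ v w| * (1 + ‖v‖) ≤ κ * ‖w‖) ∧
      (∀ v w, |fderiv ℝ (fderiv ℝ χ) v w w| * (1 + ‖v‖) ^ 2 ≤ κ * ‖w‖ ^ 2) := sorry

/- file A2c.lean -/
theorem TL.exists_cut (h : TL β F mF MF m M l) (R : ℝ) : ∃ (l' : E → E → ℝ → ℝ)
    (lx' lu' : E → E → ℝ → E) (Λ : ℝ), Cut l l' lx' lu' m (C1 MF m M) M R Λ := sorry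

end A2

/-! ## MODULE A3 (files A3a, A3b): geodesics of the true Lagrangian -/

section A3

variable {E : Type*} [NormedAddCommGroup E] [InnerProductSpace ℝ E] [FiniteDimensional ℝ E]
  {ι : Type*} [Fintype ι] {β : Module.Basis ι ℝ E} {F : E → E → ℝ} {mF MF m M Mf : ℝ}
  {l : E → E → ℝ → ℝ} {f : E → ℝ → ℝ}

/- file A3a.lean -/
/-- the energy varies with speed at most `M` -/
theorem energy_lip {lx lu : E → E → ℝ → E} {Λ : ℝ} (hl : CL l lx lu 0 m Λ)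
    (ht : ∀ x v t t', |l x v t - l x v t'| ≤ M * |t - t'|) {a b : ℝ} {Z v : ℝ → E}
    (hv : ∃ C : ℝ, ∀ s ∈ Icc a b, ∀ t ∈ Icc a b, ‖v t - v s‖ ≤ C * |t - s|)
    (hZ : ∀ s ∈ Icc a b, ∀ t ∈ Icc a b, Z t - Z s = ∫ r in s..t, v r)
    (hel : ∀ s ∈ Icc a b, ∀ t ∈ Icc a b,
      lu (Z t) (v t) t - lu (Z s) (v s) s = ∫ r in s..t, lx (Z r) (v r) r) :
    ∀ s ∈ Icc a b, ∀ t ∈ Icc a b,
      |(inner ℝ (lu (Z t) (v t) t) (v t) - l (Z t) (v t) t) -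
        (inner ℝ (lu (Z s) (v s) s) (v s) - l (Z s) (v s) s)| ≤ M * |t - s| := sorry
/-- speed bound for kernel geodesics of cut-off Lagrangians, uniform in the cut-off -/
theorem cut_speed (MF m M D0 : ℝ) {T0 T1 : ℝ} (hm : 0 < m) (hT0 : 0 < T0) : ∃ V : ℝ, 0 < V ∧
    ∀ {ι : Type} [Fintype ι] {β : Module.Basis ι ℝ E} {F : E → E → ℝ} {mF : ℝ}
      {l l' : E → E → ℝ → ℝ} {lx' lu' : E → E → ℝ → E} {R Λ : ℝ}, TL β F mF MF m M l →
      Cut l l' lx' lu' m (C1 MF m M) M R Λ → ∀ {a b : ℝ}, T0 ≤ b - a → b - a ≤ T1 → ∀ {Z v : ℝ → E},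
      KGeo l' a b Z → ‖Z b - Z a‖ ≤ D0 →
      (∃ C : ℝ, ∀ s ∈ Icc a b, ∀ t ∈ Icc a b, ‖v t - v s‖ ≤ C * |t - s|) →
      (∀ s ∈ Icc a b, ∀ t ∈ Icc a b, Z t - Z s = ∫ r in s..t, v r) → ∀ t ∈ Icc a b, ‖v t‖ ≤ V := sorry

/- file A3b.lean -/
/-- minimizers of the kernels -/
theorem exists_geo (MF m M D0 : ℝ) {T0 T1 : ℝ} (hm : 0 < m) (hT0 : 0 < T0) : ∃ V : ℝ, 0 < V ∧
    ∀ {ι : Type} [Fintype ι] {β : Module.Basis ι ℝ E} {F : E → E → ℝ} {mF : ℝ}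
      {l : E → E → ℝ → ℝ}, TL β F mF MF m M l → ∀ {a b : ℝ}, T0 ≤ b - a → b - a ≤ T1 →
      ∀ {z z' : E}, ‖z' - z‖ ≤ D0 →
      (∃ Z v : ℝ → E, Z a = z ∧ Z b = z' ∧ Geo l a b V Z v) ∧
      ∀ {l' : E → E → ℝ → ℝ} {lx' lu' : E → E → ℝ → E} {R Λ : ℝ},
        Cut l l' lx' lu' m (C1 MF m M) M R Λ → V ≤ R → kerl l a b z z' = kerl l' a b z z' := sorry
/-- the cut kernels agree also on subintervals of a geodesic: restriction of `Geo` -/
theorem Geo.restrict {V : ℝ} {a b a' b' : ℝ} {Z v : ℝ → E} (h : Geo l a b V Z v) (ha : a ≤ a')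
    (hb : b' ≤ b) : Geo l a' b' V Z v := sorry
/-- the kernel is additive along a geodesic -/
theorem Geo.add (hl : TL β F mF MF m M l) {V : ℝ} {a b : ℝ} {Z v : ℝ → E} (h : Geo l a b V Z v)
    {r : ℝ} (ha : a < r) (hb : r < b) :
    kerl l a r (Z a) (Z r) + kerl l r b (Z r) (Z b) = kerl l a b (Z a) (Z b) := sorry
/-- cone lemma: the bump is felt only in the cones at the end points -/
theorem Geo.cone (hl : TL β F mF MF m M (lf l f)) {f' : E → ℝ → ℝ} (hf : Pt β f) (hf' : Pt β f')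
    {V : ℝ} {a b : ℝ} (hab : a < b) {Z v : ℝ → E} (h : Geo (lf l f') a b V Z v) (κ : ℝ → ℝ)
    (hκ : IntervalIntegrable κ volume a b)
    (hle : ∀ t ∈ Icc a b, ∀ x, ‖x - Z a‖ ≤ V * (t - a) → ‖x - Z b‖ ≤ V * (b - t) →
      f x t + κ t ≤ f' x t) :
    kerl (lf l f) a b (Z a) (Z b) + ∫ t in a..b, κ t ≤ kerl (lf l f') a b (Z a) (Z b) := sorry

/-- lower bound of the speed, uniform -/
theorem speed_low (MF m M T1 : ℝ) (hm : 0 < m) (hT1 : 0 < T1) : ∃ c C : ℝ, 0 < c ∧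
    ∀ {ι : Type} [Fintype ι] {β : Module.Basis ι ℝ E} {F : E → E → ℝ} {mF : ℝ}
      {l : E → E → ℝ → ℝ}, TL β F mF MF m M l → ∀ {a b : ℝ}, a < b → b - a ≤ T1 →
      ∀ {V : ℝ} {Z v : ℝ → E}, Geo l a b V Z v →
      ∀ t ∈ Icc a b, c * ‖Z b - Z a‖ ^ 2 - C ≤ ‖v t‖ ^ 2 := sorry

end A3

/-! ## MODULE A4 (file A4.lean): bounds and Lipschitz constants of the kernels -/

section A4

variable {E : Type*} [NormedAddCommGroup E] [InnerProductSpace ℝ E] [FiniteDimensional ℝ E]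
  {ι : Type} [Fintype ι] {β : Module.Basis ι ℝ E} {F : E → E → ℝ} {mF MF m M Mf : ℝ}
  {l : E → E → ℝ → ℝ}

theorem TL.kerl_upper (h : TL β F mF MF m M l) {a b : ℝ} (hab : a < b) (z z' : E) :
    kerl l a b z z' ≤ MF ^ 2 / 2 * ‖z' - z‖ ^ 2 / (b - a) + M * (b - a) := sorry
theorem TL.kerl_lip (h : TL β F mF MF m M l) (hMf : 0 ≤ Mf) (D0 : ℝ) {T0 T1 : ℝ} (hT0 : 0 < T0) :
    ∃ C : ℝ, 0 ≤ C ∧ ∀ f, Pt β f → Good Mf f → ∀ a b, T0 ≤ b - a → b - a ≤ T1 → ∀ z z' w w' : E,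
      ‖z' - z‖ ≤ D0 → ‖w' - w‖ ≤ D0 →
      |kerl (lf l f) a b z z' - kerl (lf l f) a b w w'| ≤ C * (‖z - w‖ + ‖z' - w'‖) := sorry

end A4

/-! ## MODULE A5 (files A5a, A5b, A5c): kernels at speed `s` -/

section A5

variable {E : Type*} [NormedAddCommGroup E] [InnerProductSpace ℝ E] [FiniteDimensional ℝ E]
  {ι : Type} [Fintype ι] {β : Module.Basis ι ℝ E} {F : E → E → ℝ} {mF MF m M Mf : ℝ}
  {l : E → E → ℝ → ℝ} {d : ℕ} {b : Fin d → E} {B : E → ℝ} {c : Fin d → ℝ}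

/- file A5a.lean -/
theorem Cal.lip (hF : Fins β F mF MF) (hB : Cal b F B c) (x y : E) : |B x - B y| ≤ MF * ‖x - y‖ := sorry
/-- lower bound of the action at speed `s` -/
theorem act_speed (h : TL β F mF MF m M l) (hB : Cal b F B c) (s : ℝ) {t t' : ℝ} (htt : t < t') (z : E)
    {u : ℝ → E} (hu : Adm u) :
    (∫ r in t..t', (F (traj t z u r) (u r) - s) ^ 2 / 2) + s * ((∫ r in t..t', F (traj t z u r) (u r)) -
      (B (traj t z u t') - B z)) - M * (t' - t) ≤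
      actl l t t' z u - s * (B (traj t z u t') - B z) + s ^ 2 / 2 * (t' - t) := sorry
theorem kerl_speed_ge (h : TL β F mF MF m M l) (hB : Cal b F B c) {s : ℝ} (hs : 0 ≤ s) {t t' : ℝ}
    (htt : t < t') (z z' : E) :
    -M * (t' - t) ≤ kerl l t t' z z' - s * (B z' - B z) + s ^ 2 / 2 * (t' - t) := sorry
/-- displacement bound -/
theorem disp_le (h : TL β F mF MF m M l) (hB : Cal b F B c) {s : ℝ} (hs : 0 ≤ s) {t t' N : ℝ}
    (htt : t < t') (z z' : E)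
    (hN : kerl l t t' z z' - s * (B z' - B z) + s ^ 2 / 2 * (t' - t) ≤ N) :
    mF * ‖z' - z‖ ≤ s * (t' - t) + Real.sqrt (2 * (N + M * (t' - t)) * (t' - t)) := sorry
theorem K_le (h : TL β F mF MF m M l) (hB : Cal b F B c) {s : ℝ} (hs : 0 ≤ s) {t t' : ℝ}
    (htt : t < t') (z z' : E) (n : Fin d → ℤ) : K b B s l t t' z z' ≤
      kerl l t t' z (z' + lv b n) - s * (B (z' + lv b n) - B z) + s ^ 2 / 2 * (t' - t) := sorry
theorem K_ge (h : TL β F mF MF m M l) (hB : Cal b F B c) {s : ℝ} (hs : 0 ≤ s) {t t' : ℝ}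
    (htt : t < t') (z z' : E) : -M * (t' - t) ≤ K b B s l t t' z z' := sorry
theorem K_attained (hb : LinearIndependent ℝ b) (h : TL β F mF MF m M l) (hB : Cal b F B c) {s : ℝ}
    (hs : 0 ≤ s) {t t' : ℝ} (htt : t < t') (z z' : E) : ∃ n : Fin d → ℤ, K b B s l t t' z z' =
      kerl l t t' z (z' + lv b n) - s * (B (z' + lv b n) - B z) + s ^ 2 / 2 * (t' - t) := sorry
theorem K_le_add (hb : LinearIndependent ℝ b) (hbβ : ∀ i, ∃ j, b i = β j) (h : TL β F mF MF m M l)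
    (hB : Cal b F B c) {s : ℝ} (hs : 0 ≤ s) {t t' t'' : ℝ} (htt : t < t') (htt' : t' < t'')
    (z x z' : E) : K b B s l t t'' z z' ≤ K b B s l t t' z x + K b B s l t' t'' x z' := sorry
theorem K_per (hbβ : ∀ i, ∃ j, b i = β j) (h : TL β F mF MF m M l) (hB : Cal b F B c) (s : ℝ)
    (t t' : ℝ) (z z' : E) (n n' : Fin d → ℤ) :
    K b B s l t t' (z + lv b n) (z' + lv b n') = K b B s l t t' z z' := sorry
theorem K_shift (p : E) {a : ℝ} (hp : ∀ x u t, l (x + p) u t = l x u t) (hBp : ∀ x, B (x + p) = B x + a)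
    (s : ℝ) (t t' : ℝ) (z z' : E) : K b B s l t t' (z + p) (z' + p) = K b B s l t t' z z' := sorry
theorem K_time (hl : ∀ x u t, l x u (t + 1) = l x u t) (s t t' : ℝ) (z z' : E) :
    K b B s l (t + 1) (t' + 1) z z' = K b B s l t t' z z' := sorry

/- file A5b.lean -/
/-- geodesics of the kernels at speed `s`; the kernel is additive along them -/
theorem K_geo (hb : LinearIndependent ℝ b) (hbβ : ∀ i, ∃ j, b i = β j) (hF : Fins β F mF MF)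
    (hm : 0 < m) (hM : 0 ≤ M) (hB : Cal b F B c) (S D0 : ℝ) {T0 T1 : ℝ} (hT0 : 0 < T0) : ∃ V : ℝ, 0 < V ∧
    ∀ l, TL β F mF MF m M l → ∀ s, 0 ≤ s → s ≤ S → ∀ t t', T0 ≤ t' - t → t' - t ≤ T1 → ∀ z z' : E,
      (∃ n, ‖z' + lv b n - z‖ ≤ D0) → ∃ (n : Fin d → ℤ) (Z v : ℝ → E), Z t = z ∧ Z t' = z' + lv b n ∧
        Geo l t t' V Z v ∧
        K b B s l t t' z z' = kerl l t t' z (z' + lv b n) - s * (B (z' + lv b n) - B z) +
          s ^ 2 / 2 * (t' - t) ∧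
        ∀ r, t < r → r < t' → K b B s l t r z (Z r) + K b B s l r t' (Z r) z' = K b B s l t t' z z' := sorry
/-- the excess of a geodesic -/
theorem Geo.speed (h : TL β F mF MF m M l) (hB : Cal b F B c) (s : ℝ) {V : ℝ} {t t' : ℝ} (htt : t < t')
    {Z v : ℝ → E} (hG : Geo l t t' V Z v) :
    (∫ r in t..t', (F (Z r) (v r) - s) ^ 2 / 2) + s * ((∫ r in t..t', F (Z r) (v r)) -
      (B (Z t') - B (Z t))) - M * (t' - t) ≤
      kerl l t t' (Z t) (Z t') - s * (B (Z t') - B (Z t)) + s ^ 2 / 2 * (t' - t) := sorry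
/-- bound and Lipschitz constant, uniform in the potential -/
theorem K_lip (hb : LinearIndependent ℝ b) (hbβ : ∀ i, ∃ j, b i = β j) (h : TL β F mF MF m M l)
    (hMf : 0 ≤ Mf) (hB : Cal b F B c) (S D0 : ℝ) {T0 T1 : ℝ} (hT0 : 0 < T0) : ∃ C : ℝ, 0 ≤ C ∧
    ∀ f, Pt β f → Good Mf f → ∀ s, 0 ≤ s → s ≤ S → ∀ t t', T0 ≤ t' - t → t' - t ≤ T1 →
      (∀ z z' : E, (∃ n, ‖z' + lv b n - z‖ ≤ D0) → |K b B s (lf l f) t t' z z'| ≤ C) ∧
      (∀ z z' w w' : E, (∃ n, ‖z' + lv b n - z‖ ≤ D0) → (∃ n, ‖w' + lv b n - w‖ ≤ D0) →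
        |K b B s (lf l f) t t' z z' - K b B s (lf l f) t t' w w'| ≤ C * (‖z - w‖ + ‖z' - w'‖)) := sorry
theorem K_speed (hb : LinearIndependent ℝ b) (hF : Fins β F mF MF) (hm : 0 < m) (hM : 0 ≤ M)
    (hB : Cal b F B c) (S D0 : ℝ) {T0 T1 : ℝ} (hT0 : 0 < T0) : ∃ C : ℝ, 0 ≤ C ∧
    ∀ l, TL β F mF MF m M l → ∀ s s', 0 ≤ s → s ≤ S → 0 ≤ s' → s' ≤ S →
      ∀ t t', T0 ≤ t' - t → t' - t ≤ T1 → ∀ z z' : E, (∃ n, ‖z' + lv b n - z‖ ≤ D0) →
      |K b B s l t t' z z' - K b B s' l t t' z z'| ≤ C * |s - s'| := sorry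

/- file A5c.lean -/
theorem K_sub_le (hb : LinearIndependent ℝ b) {l' : E → E → ℝ → ℝ} (h : TL β F mF MF m M l)
    (h' : TL β F mF MF m M l') (hB : Cal b F B c) {ρ : ℝ} (hρ : ∀ x u t, |l x u t - l' x u t| ≤ ρ) {s : ℝ}
    (hs : 0 ≤ s) {t t' : ℝ} (htt : t < t') (z z' : E) :
    |K b B s l t t' z z' - K b B s l' t t' z z'| ≤ ρ * (t' - t) := sorry
theorem K_mono (hb : LinearIndependent ℝ b) {l' : E → E → ℝ → ℝ} (h : TL β F mF MF m M l)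
    (h' : TL β F mF MF m M l') (hB : Cal b F B c) (hρ : ∀ x u t, l x u t ≤ l' x u t) {s : ℝ}
    (hs : 0 ≤ s) {t t' : ℝ} (htt : t < t') (z z' : E) :
    K b B s l t t' z z' ≤ K b B s l' t t' z z' := sorry
theorem K_concave (hb : LinearIndependent ℝ b) {κ : Type*} (I : Finset κ) (hI : I.Nonempty)
    {f : κ → E → ℝ → ℝ} (h : TL β F mF MF m M l) (hf : ∀ i ∈ I, Pt β (f i)) (hg : ∀ i ∈ I, Good Mf (f i))
    (hB : Cal b F B c) {s : ℝ} (hs : 0 ≤ s) {t t' : ℝ} (htt : t < t') (z z' : E) :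
    (∑ i ∈ I, K b B s (lf l (f i)) t t' z z') / I.card ≤
      K b B s (lf l (fun x r => (∑ i ∈ I, f i x r) / I.card)) t t' z z' := sorry
/-- cone lemma for the kernels at speed `s` -/
theorem K_cone (hb : LinearIndependent ℝ b) (hbβ : ∀ i, ∃ j, b i = β j) (h : TL β F mF MF m M l)
    (hMf : 0 ≤ Mf) (hB : Cal b F B c) (S D0 : ℝ) {T0 T1 : ℝ} (hT0 : 0 < T0) : ∃ V : ℝ, 0 < V ∧
    ∀ f f', Pt β f → Good Mf f → Pt β f' → Good Mf f' → ∀ s, 0 ≤ s → s ≤ S → ∀ t t', T0 ≤ t' - t →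
      t' - t ≤ T1 → ∀ z z' : E, (∃ n, ‖z' + lv b n - z‖ ≤ D0) → ∀ κ : ℝ → ℝ,
      IntervalIntegrable κ volume t t' →
      (∀ r ∈ Icc t t', ∀ x, ‖x - z‖ ≤ V * (r - t) → (∃ n, ‖x - (z' + lv b n)‖ ≤ V * (t' - r)) →
        f x r + κ r ≤ f' x r) →
      K b B s (lf l f) t t' z z' + ∫ r in t..t', κ r ≤ K b B s (lf l f') t t' z z' := sorry

end A5

/-! ## MODULE A6 (file A6.lean): orbits -/

section A6

variable {E : Type*} [NormedAddCommGroup E] [InnerProductSpace ℝ E] [FiniteDimensional ℝ E]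
  {ι : Type} [Fintype ι] {β : Module.Basis ι ℝ E} {F : E → E → ℝ} {mF MF m M : ℝ}
  {l : E → E → ℝ → ℝ}

/-- orbit from a sitewise locally minimal sequence at times `τ j` -/
theorem orbit_of_sitewise (hl : TL β F mF MF m M l) {T0 T1 : ℝ} (hT0 : 0 < T0) (τ : ℕ → ℝ)
    (hτ : ∀ j, T0 ≤ τ (j + 1) - τ j ∧ τ (j + 1) - τ j ≤ T1) (w : ℕ → E)
    (hmin : ∀ j, IsLocalMin (fun x => kerl l (τ j) (τ (j + 1)) (w j) x +
      kerl l (τ (j + 1)) (τ (j + 2)) x (w (j + 2))) (w (j + 1))) :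
    ∃ x v : ℝ → E, (∀ t, τ 0 < t → HasDerivAt x (v t) t) ∧ ContinuousOn v (Ici (τ 0)) ∧
      (∀ t, τ 0 < t → HasDerivAt (fun t => gu l (x t) (v t) t) (gx l (x t) (v t) t) t) ∧
      (∀ j, x (τ j) = w j) ∧
      (∀ j, ∫ t in τ j..τ (j + 1), l (x t) (v t) t = kerl l (τ j) (τ (j + 1)) (w j) (w (j + 1))) ∧
      ∃ c C : ℝ, 0 < c ∧ ∀ j, ∀ t ∈ Icc (τ j) (τ (j + 1)),
        c * ‖w (j + 1) - w j‖ ^ 2 - C ≤ ‖v t‖ ^ 2 := sorry

end A6

end EscG
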