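import Pool.Agent.helper42.Esc.K

/-!
Project EscG (MP_6acca1_an), module B1: fundamental theorem of calculus along trajectories of admissible
controls (helper21).
-/

set_option linter.unusedSectionVars false

noncomputable section

namespace EscG

open MeasureTheory Set Filter Topology Esc
open scoped ContDiff NNReal

variable {E : Type*} [NormedAddCommGroup E] [InnerProductSpace ℝ E] [FiniteDimensional ℝ E]

/-- trajectories are Lipschitz -/
theorem B1_traj_lip {u : ℝ → E} {C : ℝ} (hu : Adm u) (hC : ∀ t, ‖u t‖ ≤ C) (a : ℝ) (z : E) (s t : ℝ) :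
    ‖traj a z u t - traj a z u s‖ ≤ C * |t - s| := by
  have h1 : traj a z u t - traj a z u s = ∫ r in s..t, u r := by
    unfold traj
    rw [← intervalIntegral.integral_interval_sub_left (hu.ii a t) (hu.ii a s)]
    abel
  rw [h1]
  exact intervalIntegral.norm_integral_le_of_norm_le_const fun r _ => hC r

/-- trajectories are differentiable almost everywhere -/
theorem B1_traj_deriv {u : ℝ → E} (hu : Adm u) (a : ℝ) (z : E) :
    ∀ᵐ t, HasDerivAt (traj a z u) (u t) t := by
  have hl : LocallyIntegrable u volume := by
    rw [locallyIntegrable_iff]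
    intro K hK
    obtain ⟨hm, C, hC⟩ := hu
    exact Measure.integrableOn_of_bounded (M := C) hK.measure_lt_top.ne hm.aestronglyMeasurable
      (ae_of_all _ hC)
  filter_upwards [LocallyIntegrable.ae_hasDerivAt_integral hl] with t ht
  exact (ht a).const_add z

/-- fundamental theorem of calculus along trajectories of admissible controls -/
theorem ftc_traj {B : E → ℝ} (hB : ContDiff ℝ 1 B) {u : ℝ → E} (hu : Adm u) (a : ℝ) (z : E) (b : ℝ) :
    B (traj a z u b) - B z = ∫ t in a..b, fderiv ℝ B (traj a z u t) (u t) := by
  obtain ⟨C, hC⟩ := hu.2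
  have hC0 : 0 ≤ C := (norm_nonneg _).trans (hC 0)
  have ha : traj a z u a = z := by simp [traj]
  -- the trajectory stays in a ball
  have hball : ∀ t ∈ uIcc a b, traj a z u t ∈ Metric.closedBall z (C * |b - a|) := by
    intro t ht
    rw [Metric.mem_closedBall, dist_eq_norm]
    have h1 := B1_traj_lip hu hC a z a t
    rw [ha] at h1
    refine h1.trans (mul_le_mul_of_nonneg_left ?_ hC0)
    have h2 := abs_sub_left_of_mem_uIcc ht
    exact h2
  -- `B` is Lipschitz on the ball
  obtain ⟨D, hD⟩ := (isCompact_closedBall z (C * |b - a|)).exists_bound_of_continuousOn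
    (hB.continuous_fderiv one_ne_zero).continuousOn
  have hlip : ∀ x ∈ Metric.closedBall z (C * |b - a|), ∀ y ∈ Metric.closedBall z (C * |b - a|),
      ‖B y - B x‖ ≤ max D 0 * ‖y - x‖ := by
    intro x hx y hy
    exact (convex_closedBall z (C * |b - a|)).norm_image_sub_le_of_norm_fderiv_le
      (fun w _ => (hB.differentiable one_ne_zero).differentiableAt)
      (fun w hw => (hD w hw).trans (le_max_left _ _)) hx hy
  have hac : AbsolutelyContinuousOnInterval (fun t => B (traj a z u t)) a b := by
    refine LipschitzOnWith.absolutelyContinuousOnInterval (K := (max D 0 * C).toNNReal) ?_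
    refine LipschitzOnWith.of_dist_le_mul fun s hs t ht => ?_
    rw [dist_eq_norm, dist_eq_norm, Real.coe_toNNReal _ (mul_nonneg (le_max_right _ _) hC0),
      Real.norm_eq_abs (s - t)]
    refine (hlip _ (hball t ht) _ (hball s hs)).trans ?_
    rw [mul_assoc]
    exact mul_le_mul_of_nonneg_left (B1_traj_lip hu hC a z t s) (le_max_right _ _)
  have h1 := hac.integral_deriv_eq_sub
  simp only [ha] at h1
  rw [← h1]
  refine intervalIntegral.integral_congr_ae ?_
  filter_upwards [B1_traj_deriv hu a z] with t ht _
  exact (((hB.differentiable one_ne_zero).differentiableAt.hasFDerivAt).comp_hasDerivAt t ht).deriv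

end EscG
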