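import Pool.Agent.EscG.CDefs
import Pool.Agent.EscG.A5a

/-!
Project EscG (MP_6acca1_an), module C1: energy distance (helper61).
-/

noncomputable section

namespace EscG

open MeasureTheory Set Filter Topology Esc EscF
open scoped ContDiff

variable {ι : Type} [Fintype ι] {E : Type*} [NormedAddCommGroup E] [InnerProductSpace ℝ E]
  [FiniteDimensional ℝ E]

/-- the energy of `F` -/
def C1_e (F : E → E → ℝ) : E → E → ℝ → ℝ := fun y v _ => F y v ^ 2 / 2

theorem C1_cb {β : Module.Basis ι ℝ E} {F : E → E → ℝ} {mF MF : ℝ} (hF : Fins β F mF MF) :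
    CB 0 (C1_e F) := by
  refine ⟨((A5a_cbF hF).cont.pow 2).div_const 2, fun x u _ => ?_⟩
  have := sq_nonneg (F x u)
  simp only [neg_zero, C1_e]
  linarith

omit [FiniteDimensional ℝ E] in
/-- affine change of time -/
theorem C1_time {β : Module.Basis ι ℝ E} {F : E → E → ℝ} {mF MF : ℝ} (hF : Fins β F mF MF)
    {a b a' b' : ℝ} (hab : a < b) (hab' : a' < b') (z : E) {u : ℝ → E} (hu : Adm u) :
    ∃ w : ℝ → E, Adm w ∧ traj a' z w b' = traj a z u b ∧
      (b' - a') * actl (C1_e F) a' b' z w = (b - a) * actl (C1_e F) a b z u := by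
  obtain ⟨k, hk⟩ : ∃ k, k = (b - a) / (b' - a') := ⟨_, rfl⟩
  have hT : 0 < b - a := by linarith
  have hT' : 0 < b' - a' := by linarith
  have hk0 : 0 < k := by rw [hk]; positivity
  have hkT : k * (b' - a') = b - a := by rw [hk]; field_simp
  have e1 : ∀ r, traj a' z (fun r => k • u (a + k * (r - a'))) r = traj a z u (a + k * (r - a')) := by
    intro r
    unfold traj
    congr 1
    rw [intervalIntegral.integral_smul]
    have h1 : (fun s => u (a + k * (s - a'))) = fun s => u (k * s + (a - k * a')) := by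
      funext s
      congr 1
      ring
    rw [h1, intervalIntegral.smul_integral_comp_mul_add]
    congr 1 <;> ring
  refine ⟨fun r => k • u (a + k * (r - a')), ?_, ?_, ?_⟩
  · obtain ⟨hm, C, hC⟩ := hu
    refine ⟨(hm.comp_measurable (by fun_prop)).const_smul k, |k| * C, fun t => ?_⟩
    rw [norm_smul, Real.norm_eq_abs]
    exact mul_le_mul_of_nonneg_left (hC _) (abs_nonneg _)
  · rw [e1, hkT]
    congr 1
    ring
  · have h2 : actl (C1_e F) a' b' z (fun r => k • u (a + k * (r - a'))) =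
        ∫ r in a'..b', k ^ 2 * C1_e F (traj a z u (k * r + (a - k * a'))) (u (k * r + (a - k * a'))) 0 := by
      unfold actl
      refine intervalIntegral.integral_congr fun r _ => ?_
      simp only [C1_e]
      rw [e1, hF.hom _ _ _ hk0.le]
      have h3 : a + k * (r - a') = k * r + (a - k * a') := by ring
      rw [h3]
      ring
    have h4 := intervalIntegral.smul_integral_comp_mul_add
      (fun t => C1_e F (traj a z u t) (u t) 0) k (a - k * a') (a := a') (b := b')
    have h5 : k * a' + (a - k * a') = a := by ring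
    have h6 : k * b' + (a - k * a') = b := by
      have : k * b' + (a - k * a') = k * (b' - a') + a := by ring
      rw [this, hkT]
      ring
    rw [h5, h6, smul_eq_mul] at h4
    have h7 : actl (C1_e F) a b z u = ∫ t in a..b, C1_e F (traj a z u t) (u t) 0 := rfl
    rw [h2, intervalIntegral.integral_const_mul, h7, ← h4, ← hkT]
    ring

theorem C1_kerl_nonneg (F : E → E → ℝ) {a b : ℝ} (hab : a < b) (z z' : E) :
    0 ≤ kerl (C1_e F) a b z z' :=
  le_kerl hab z z' fun u _ _ => by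
    apply intervalIntegral.integral_nonneg hab.le
    intro t _
    simp only [C1_e]
    positivity

theorem C1_sq (F : E → E → ℝ) (z z' : E) : fd F z z' ^ 2 = 2 * kerl (C1_e F) 0 1 z z' :=
  Real.sq_sqrt (mul_nonneg two_pos.le (C1_kerl_nonneg F one_pos z z'))

omit [FiniteDimensional ℝ E] in
theorem fd_nonneg (F : E → E → ℝ) (x x' : E) : 0 ≤ fd F x x' := Real.sqrt_nonneg _

/-- lower bound of the energy -/
theorem fd_sq_le {β : Module.Basis ι ℝ E} {F : E → E → ℝ} {mF MF : ℝ} (hF : Fins β F mF MF) {t t' : ℝ}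
    (htt : t < t') (z : E) {u : ℝ → E} (hu : Adm u) :
    fd F z (traj t z u t') ^ 2 ≤ (t' - t) * ∫ r in t..t', F (traj t z u r) (u r) ^ 2 := by
  obtain ⟨w, hw, h1, h2⟩ := C1_time hF htt one_pos z hu
  have h3 := (C1_cb hF).kerl_le one_pos hw h1
  have h4 : actl (C1_e F) t t' z u = (∫ r in t..t', F (traj t z u r) (u r) ^ 2) / 2 := by
    unfold actl C1_e
    rw [intervalIntegral.integral_div]
  rw [C1_sq]
  rw [h4] at h2
  linarith

/-- paths of almost minimal energy -/
theorem exists_energy {β : Module.Basis ι ℝ E} {F : E → E → ℝ} {mF MF : ℝ} (hF : Fins β F mF MF)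
    {t t' ε : ℝ} (htt : t < t') (hε : 0 < ε) (z z' : E) : ∃ u : ℝ → E, Adm u ∧ traj t z u t' = z' ∧
      (t' - t) * ∫ r in t..t', F (traj t z u r) (u r) ^ 2 ≤ fd F z z' ^ 2 + ε := by
  obtain ⟨u, hu, hz, h⟩ := (C1_cb hF).exists_lt one_pos z z' (half_pos hε)
  obtain ⟨w, hw, h1, h2⟩ := C1_time hF one_pos htt z hu
  refine ⟨w, hw, h1.trans hz, ?_⟩
  have h4 : actl (C1_e F) t t' z w = (∫ r in t..t', F (traj t z w r) (w r) ^ 2) / 2 := by
    unfold actl C1_e
    rw [intervalIntegral.integral_div]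
  rw [C1_sq]
  rw [h4] at h2
  linarith

theorem fd_le {β : Module.Basis ι ℝ E} {F : E → E → ℝ} {mF MF : ℝ} (hF : Fins β F mF MF) (x x' : E) :
    fd F x x' ≤ MF * ‖x' - x‖ := by
  have hMF : 0 ≤ MF := hF.mF_pos.le.trans hF.mF_le
  have h1 : traj 0 x (fun _ => x' - x) 1 = x' := by simp [traj]
  have h2 := fd_sq_le hF one_pos x (Adm.const (x' - x))
  rw [h1] at h2
  have h3 : (∫ r in (0:ℝ)..1, F (traj 0 x (fun _ => x' - x) r) (x' - x) ^ 2) ≤
      ∫ _r in (0:ℝ)..1, (MF * ‖x' - x‖) ^ 2 := by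
    refine intervalIntegral.integral_mono_on zero_le_one ?_ (by simp) fun r _ => ?_
    · have := (A5a_iiQ hF 0 (Adm.const (x' - x)) 0 x 0 1).const_mul 2
      refine this.congr fun r _ => ?_
      ring
    · have h4 := hF.low (traj 0 x (fun _ => x' - x) r) (x' - x)
      have h5 := mul_nonneg hF.mF_pos.le (norm_nonneg (x' - x))
      exact pow_le_pow_left₀ (h5.trans h4) (hF.upp _ _) 2
  rw [intervalIntegral.integral_const, sub_zero, one_smul] at h3
  rw [sub_zero, one_mul] at h2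
  exact le_of_sq_le_sq (h2.trans h3) (by positivity)

theorem le_fd {β : Module.Basis ι ℝ E} {F : E → E → ℝ} {mF MF : ℝ} (hF : Fins β F mF MF) (x x' : E) :
    mF * ‖x' - x‖ ≤ fd F x x' := by
  have hm := hF.mF_pos
  have h0 : 0 ≤ mF * ‖x' - x‖ := by positivity
  refine le_of_sq_le_sq ?_ (fd_nonneg F x x')
  rw [C1_sq]
  have h1 : (mF * ‖x' - x‖) ^ 2 / 2 ≤ kerl (C1_e F) 0 1 x x' := by
    refine le_kerl one_pos x x' fun u hu hz => ?_
    have h2 : x' - x = ∫ s in (0:ℝ)..1, u s := by rw [← hz]; simp [traj]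
    have h3 : mF * ‖x' - x‖ ≤ ∫ r in (0:ℝ)..1, F (traj 0 x u r) (u r) := by
      have h4 : ‖x' - x‖ ≤ ∫ s in (0:ℝ)..1, ‖u s‖ := by
        rw [h2]
        exact intervalIntegral.norm_integral_le_integral_norm zero_le_one
      refine (mul_le_mul_of_nonneg_left h4 hm.le).trans ?_
      rw [← intervalIntegral.integral_const_mul]
      exact intervalIntegral.integral_mono_on zero_le_one ((hu.ii 0 1).norm.const_mul _)
        (A5a_ii hF hu 0 x 0 1) fun r _ => hF.low _ _
    have h5 := A5a_cs one_pos (A5a_ii hF hu 0 x 0 1) (by simpa using A5a_iiQ hF 0 hu 0 x 0 1)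
    have h6 : actl (C1_e F) 0 1 x u = ∫ r in (0:ℝ)..1, F (traj 0 x u r) (u r) ^ 2 / 2 := rfl
    rw [h6]
    have h7 := pow_le_pow_left₀ h0 h3 2
    linarith
  linarith

theorem C1_self {β : Module.Basis ι ℝ E} {F : E → E → ℝ} {mF MF : ℝ} (hF : Fins β F mF MF) (x : E) :
    fd F x x = 0 := by
  have := fd_le hF x x
  rw [sub_self, norm_zero, mul_zero] at this
  exact le_antisymm this (fd_nonneg F x x)

/-- scaling of the kernels -/
theorem C1_scale {β : Module.Basis ι ℝ E} {F : E → E → ℝ} {mF MF : ℝ} (hF : Fins β F mF MF)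
    {t t' : ℝ} (htt : t < t') (z z' : E) :
    2 * (t' - t) * kerl (C1_e F) t t' z z' ≤ fd F z z' ^ 2 := by
  have hT : 0 < t' - t := by linarith
  apply le_of_forall_pos_le_add
  intro ε hε
  obtain ⟨u, hu, hz, h⟩ := exists_energy hF htt hε z z'
  have h1 := (C1_cb hF).kerl_le htt hu hz
  have h4 : actl (C1_e F) t t' z u = (∫ r in t..t', F (traj t z u r) (u r) ^ 2) / 2 := by
    unfold actl C1_e
    rw [intervalIntegral.integral_div]
  have h2 := mul_le_mul_of_nonneg_left h1 hT.le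
  rw [h4] at h2
  linarith

theorem fd_tri {β : Module.Basis ι ℝ E} {F : E → E → ℝ} {mF MF : ℝ} (hF : Fins β F mF MF) (x y z : E) :
    fd F x z ≤ fd F x y + fd F y z := by
  have h1 := fd_nonneg F x y
  have h2 := fd_nonneg F y z
  apply le_of_forall_pos_le_add
  intro ε hε
  obtain ⟨d1, hd1⟩ : ∃ d1, d1 = fd F x y + ε / 2 := ⟨_, rfl⟩
  obtain ⟨d2, hd2⟩ : ∃ d2, d2 = fd F y z + ε / 2 := ⟨_, rfl⟩
  have p1 : 0 < d1 := by linarith
  have p2 : 0 < d2 := by linarith
  obtain ⟨a, ha⟩ : ∃ a, a = d1 / (d1 + d2) := ⟨_, rfl⟩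
  have a0 : 0 < a := by rw [ha]; positivity
  have ha' : 1 - a = d2 / (d1 + d2) := by rw [ha]; field_simp; ring
  have a1 : a < 1 := by
    have : 0 < 1 - a := by rw [ha']; positivity
    linarith
  have e1 := C1_scale hF a0 x y
  have e2 := C1_scale hF a1 y z
  have e3 := (C1_cb hF).kerl_le_add a0 a1 x y z
  have e4 : fd F x z ^ 2 ≤ (d1 + d2) ^ 2 := by
    rw [C1_sq]
    have q1 : fd F x y ^ 2 ≤ d1 ^ 2 := pow_le_pow_left₀ h1 (by linarith) 2
    have q2 : fd F y z ^ 2 ≤ d2 ^ 2 := pow_le_pow_left₀ h2 (by linarith) 2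
    have r1 : 2 * kerl (C1_e F) 0 a x y ≤ d1 * (d1 + d2) := by
      have : a * (2 * kerl (C1_e F) 0 a x y) ≤ a * (d1 * (d1 + d2)) := by
        have h : a * (d1 * (d1 + d2)) = d1 ^ 2 := by rw [ha]; field_simp
        rw [h]
        linarith
      exact le_of_mul_le_mul_left this a0
    have r2 : 2 * kerl (C1_e F) a 1 y z ≤ d2 * (d1 + d2) := by
      have : (1 - a) * (2 * kerl (C1_e F) a 1 y z) ≤ (1 - a) * (d2 * (d1 + d2)) := by
        have h : (1 - a) * (d2 * (d1 + d2)) = d2 ^ 2 := by rw [ha']; field_simp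
        rw [h]
        linarith
      exact le_of_mul_le_mul_left this (by linarith)
    calc 2 * kerl (C1_e F) 0 1 x z ≤ d1 * (d1 + d2) + d2 * (d1 + d2) := by linarith
      _ = (d1 + d2) ^ 2 := by ring
  have e5 := le_of_sq_le_sq e4 (by positivity)
  linarith

omit [FiniteDimensional ℝ E] in
theorem fd_shift {F : E → E → ℝ} (v : E) (h : ∀ x u, F (x + v) u = F x u) (x x' : E) :
    fd F (x + v) (x' + v) = fd F x x' := by
  unfold fd
  rw [kerl_shift v (fun x u _ => by rw [h])]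

/-- points on paths of almost minimal energy are almost on a geodesic; their length is almost minimal -/
theorem exists_path_fd {β : Module.Basis ι ℝ E} {F : E → E → ℝ} {mF MF : ℝ} (hF : Fins β F mF MF)
    {ε : ℝ} (hε : 0 < ε) (z z' : E) : ∃ u : ℝ → E, Adm u ∧ traj 0 z u 1 = z' ∧
      (∀ t ∈ Icc (0:ℝ) 1, fd F z (traj 0 z u t) + fd F (traj 0 z u t) z' ≤ fd F z z' + ε) ∧
      ∫ r in (0:ℝ)..1, F (traj 0 z u r) (u r) ≤ fd F z z' + ε := by
  have hD := fd_nonneg F z z'
  obtain ⟨u, hu, hz, h⟩ := exists_energy hF one_pos (pow_pos hε 2) z z'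
  rw [sub_zero, one_mul] at h
  have hE : (∫ r in (0:ℝ)..1, F (traj 0 z u r) (u r) ^ 2) ≤ (fd F z z' + ε) ^ 2 := by
    have := mul_nonneg hD hε.le
    nlinarith
  have hii : ∀ p q : ℝ, IntervalIntegrable (fun r => F (traj 0 z u r) (u r) ^ 2) volume p q :=
    fun p q => by
      have := (A5a_iiQ hF 0 hu 0 z p q).const_mul 2
      refine this.congr fun r _ => ?_
      ring
  refine ⟨u, hu, hz, fun t ht => ?_, ?_⟩
  · rcases eq_or_lt_of_le ht.1 with h0 | h0
    · subst h0
      have : traj 0 z u 0 = z := by simp [traj]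
      rw [this, C1_self hF]
      linarith
    rcases eq_or_lt_of_le ht.2 with h1 | h1
    · subst h1
      rw [hz, C1_self hF]
      linarith
    obtain ⟨y, hy⟩ : ∃ y, y = traj 0 z u t := ⟨_, rfl⟩
    have e1 := fd_sq_le hF h0 z hu
    have e2 := fd_sq_le hF h1 (traj 0 z u t) hu
    simp_rw [← traj_split hu 0 t z] at e2
    rw [hz, ← hy] at e2
    rw [← hy, sub_zero] at e1
    have e3 := intervalIntegral.integral_add_adjacent_intervals (hii 0 t) (hii t 1)
    rw [← hy]
    obtain ⟨I1, hI1⟩ : ∃ I, I = ∫ r in (0:ℝ)..t, F (traj 0 z u r) (u r) ^ 2 := ⟨_, rfl⟩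
    obtain ⟨I2, hI2⟩ : ∃ I, I = ∫ r in t..1, F (traj 0 z u r) (u r) ^ 2 := ⟨_, rfl⟩
    rw [← hI1] at e1 e3
    rw [← hI2] at e2 e3
    rw [← e3] at hE
    refine le_of_sq_le_sq ?_ (by linarith)
    refine le_trans ?_ hE
    have s1 : 0 < 1 - t := by linarith
    -- (p + q)^2 ≤ p^2 / t + q^2 / (1 - t)
    have c1 : fd F z y ^ 2 / t ≤ I1 := by rw [div_le_iff₀ h0]; linarith
    have c2 : fd F y z' ^ 2 / (1 - t) ≤ I2 := by rw [div_le_iff₀ s1]; linarith
    have c3 : (fd F z y + fd F y z') ^ 2 ≤ fd F z y ^ 2 / t + fd F y z' ^ 2 / (1 - t) := by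
      rw [div_add_div _ _ h0.ne' s1.ne', le_div_iff₀ (mul_pos h0 s1)]
      nlinarith [sq_nonneg ((1 - t) * fd F z y - t * fd F y z')]
    linarith
  · have h5 := A5a_cs one_pos (A5a_ii hF hu 0 z 0 1) (by simpa using A5a_iiQ hF 0 hu 0 z 0 1)
    rw [intervalIntegral.integral_div] at h5
    exact le_of_sq_le_sq (by linarith) (by linarith)

end EscG
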