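import Pool.Agent.EscG.BDefs
import Pool.Agent.EscG.B1
import Pool.Agent.EscG.C1

/-!
Project EscG, module B2: a simple closed geodesic calibrated by a closed one-form satisfies the basic
hypotheses.
-/

noncomputable section

set_option linter.unusedSectionVars false

namespace EscG

open MeasureTheory Set Filter Topology Esc EscF
open scoped ContDiff

variable {ι : Type} [Fintype ι] {E : Type*} [NormedAddCommGroup E] [InnerProductSpace ℝ E]
  [FiniteDimensional ℝ E] {β : Module.Basis ι ℝ E} {F : E → E → ℝ} {mF MF : ℝ} {B : E → ℝ} {k0 : ι}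
  {len : ℝ} {c c' : ℝ → E}

namespace B2

/-- values of a function with a period on the lattice -/
theorem zsmul_per {B : E → ℝ} {v : E} {a : ℝ} (h : ∀ x, B (x + v) = B x + a) (n : ℤ) (x : E) :
    B (x + n • v) = B x + n * a := by
  induction n using Int.induction_on generalizing x with
  | zero => simp
  | succ n ih =>
    have e : x + ((n:ℤ) + 1) • v = (x + (n:ℤ) • v) + v := by rw [add_smul, one_smul, add_assoc]
    rw [e, h, ih]
    push_cast
    ring
  | pred n ih =>
    have e : x + (-(n:ℤ)) • v = (x + (-(n:ℤ) - 1) • v) + v := by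
      rw [sub_smul, one_smul]
      abel
    have h1 := ih x
    rw [e, h] at h1
    push_cast at h1 ⊢
    linarith

theorem per_Lam {B : E → ℝ} (hp : ∀ i, ∃ a : ℝ, ∀ x, B (x + β i) = B x + a) {v : E}
    (hv : v ∈ Submodule.span ℤ (Set.range β)) : ∃ a : ℝ, ∀ x, B (x + v) = B x + a := by
  induction hv using Submodule.span_induction with
  | mem x hx =>
    obtain ⟨i, rfl⟩ := hx
    exact hp i
  | zero => exact ⟨0, fun x => by simp⟩
  | add u w _ _ h1 h2 =>
    obtain ⟨a1, h1⟩ := h1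
    obtain ⟨a2, h2⟩ := h2
    refine ⟨a1 + a2, fun x => ?_⟩
    rw [← add_assoc, h2, h1, add_assoc]
  | smul n u _ h1 =>
    obtain ⟨a1, h1⟩ := h1
    exact ⟨n * a1, zsmul_per h1 n⟩

theorem F_Lam (hF : Fins β F mF MF) {v : E} (hv : v ∈ Submodule.span ℤ (Set.range β)) (x u : E) :
    F (x + v) u = F x u := by
  have h0 : ∀ i, ∃ a : ℝ, ∀ x, F (x + β i) u = F x u + a := fun i =>
    ⟨0, fun x => by rw [hF.per, add_zero]⟩
  induction hv using Submodule.span_induction generalizing x with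
  | mem w hw =>
    obtain ⟨i, rfl⟩ := hw
    exact hF.per i x u
  | zero => rw [add_zero]
  | add w w' _ _ h1 h2 => rw [← add_assoc, h2, h1]
  | smul n w _ h1 =>
    have h2 := zsmul_per (B := fun y => F y u) (v := w) (a := 0) (fun y => by
      simp only [add_zero]
      exact h1 y) n x
    simpa using h2

/-- continuous functions of position and velocity with linear growth are integrable along
trajectories -/
theorem ii {Φ : E → E → ℝ} (hΦ : Continuous fun p : E × E => Φ p.1 p.2)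
    {K : ℝ} (hK : ∀ x v, |Φ x v| ≤ K * ‖v‖) (hK0 : 0 ≤ K) {u : ℝ → E} (hu : Adm u) (a : ℝ) (z : E)
    (p q : ℝ) : IntervalIntegrable (fun t => Φ (traj a z u t) (u t)) volume p q := by
  have hc := traj_cont hu a z
  obtain ⟨hm, C, hC⟩ := hu
  rw [intervalIntegrable_iff]
  refine Measure.integrableOn_of_bounded (M := K * C) (by simp) ?_ (ae_of_all _ fun t => ?_)
  · exact (hΦ.comp_stronglyMeasurable (hc.stronglyMeasurable.prodMk hm)).aestronglyMeasurable
  · rw [Real.norm_eq_abs]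
    exact (hK _ _).trans (mul_le_mul_of_nonneg_left (hC t) hK0)

variable (h : CalC β F mF MF B k0 len c c')
include h

theorem F_abs (x v : E) : |F x v| ≤ MF * ‖v‖ := by
  rw [abs_of_nonneg ((mul_nonneg h.fins.mF_pos.le (norm_nonneg _)).trans (h.fins.low x v))]
  exact h.fins.upp x v

theorem MF_pos : 0 < MF := h.fins.mF_pos.trans_le h.fins.mF_le

theorem dB_abs (x v : E) : |fderiv ℝ B x v| ≤ MF * ‖v‖ := by
  have h1 := (h.le x v).trans (h.fins.upp x v)
  have h2 := (h.le x (-v)).trans (h.fins.upp x (-v))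
  rw [map_neg, norm_neg] at h2
  rw [abs_le]
  constructor <;> linarith

theorem dB_cont : Continuous fun p : E × E => fderiv ℝ B p.1 p.2 :=
  ((h.smooth.continuous_fderiv one_ne_zero).comp continuous_fst).clm_apply continuous_snd

theorem c_cont : Continuous c :=
  continuous_iff_continuousAt.mpr fun t => (h.hasDeriv t).continuousAt

theorem c_int (n : ℤ) (t : ℝ) : c (t + n * len) = c t + (n:ℝ) • β k0 := by
  induction n using Int.induction_on generalizing t with
  | zero => simp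
  | succ n ih =>
    have e : t + (((n:ℤ) + 1 : ℤ) : ℝ) * len = (t + ((n:ℤ):ℝ) * len) + len := by push_cast; ring
    rw [e, h.closed, ih]
    push_cast
    rw [add_smul, one_smul, add_assoc]
  | pred n ih =>
    have e : t + ((-(n:ℤ) : ℤ) : ℝ) * len = (t + ((-(n:ℤ) - 1 : ℤ) : ℝ) * len) + len := by
      push_cast; ring
    have h1 := ih t
    rw [e, h.closed] at h1
    have h2 : c (t + ((-(n:ℤ) - 1 : ℤ) : ℝ) * len) = (c t + ((-(n:ℤ) : ℤ) : ℝ) • β k0) - β k0 := by
      rw [← h1, add_sub_cancel_right]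
    rw [h2]
    push_cast
    rw [sub_smul, one_smul]
    abel

theorem B_c (s t : ℝ) : B (c t) - B (c s) = t - s := by
  have hd : ∀ t, HasDerivAt (fun t => B (c t) - t) 0 t := by
    intro t
    have h1 : HasFDerivAt B (fderiv ℝ B (c t)) (c t) :=
      (h.smooth.differentiable one_ne_zero).differentiableAt.hasFDerivAt
    have h2 := h1.comp_hasDerivAt t (h.hasDeriv t)
    rw [h.cal] at h2
    have h3 := h2.sub (hasDerivAt_id t)
    rw [sub_self] at h3
    exact h3
  have h1 := is_const_of_deriv_eq_zero (fun t => (hd t).differentiableAt) (fun t => (hd t).deriv) t s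
  linarith

theorem B_k0 (x : E) : B (x + β k0) = B x + len := by
  obtain ⟨a, ha⟩ := h.per k0
  have h1 := ha (c 0)
  have h2 := h.closed 0
  have h3 := B_c h 0 (0 + len)
  rw [h2] at h3
  have h4 : a = len := by linarith
  rw [ha, h4]

theorem c'_bd (t : ℝ) : ‖c' t‖ ≤ mF⁻¹ := by
  have h1 := h.fins.low (c t) (c' t)
  rw [h.unit] at h1
  rw [inv_eq_one_div, le_div_iff₀ h.fins.mF_pos]
  linarith

theorem c'_adm : Adm c' := ⟨h.contDeriv.stronglyMeasurable, mF⁻¹, c'_bd h⟩

theorem traj_c (s t : ℝ) : traj s (c s) c' t = c t := by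
  have h1 := intervalIntegral.integral_eq_sub_of_hasDerivAt (a := s) (b := t)
    (fun r _ => h.hasDeriv r) (h.contDeriv.intervalIntegrable _ _)
  simp only [traj, h1]
  abel

theorem fd_c {s t : ℝ} (hst : s < t) : fd F (c s) (c t) ≤ t - s := by
  have h1 := fd_sq_le h.fins hst (c s) (c'_adm h)
  simp only [traj_c h, h.unit] at h1
  rw [intervalIntegral.integral_const, smul_eq_mul] at h1
  refine abs_le_of_sq_le_sq' ?_ (by linarith) |>.2
  linarith


/-! ### calibration -/

theorem cal_ineq {z : E} {u : ℝ → E} (hu : Adm u) {a b' : ℝ} (hab : a ≤ b') :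
    B (traj a z u b') - B z ≤ ∫ t in a..b', F (traj a z u t) (u t) := by
  rw [ftc_traj h.smooth hu]
  exact intervalIntegral.integral_mono_on hab
    (ii (dB_cont h) (dB_abs h) (MF_pos h).le hu a z a b')
    (ii h.fins.cont (F_abs h) (MF_pos h).le hu a z a b') fun t _ => h.le _ _

theorem lv1 (n : Fin 1 → ℤ) : lv (fun _ : Fin 1 => β k0) n = (n 0 : ℝ) • β k0 := by
  simp [lv]

theorem lvB (n : Fin 1 → ℤ) (x : E) :
    B (x + lv (fun _ : Fin 1 => β k0) n) = B x + (n 0 : ℝ) * len := by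
  rw [lv1 h, Int.cast_smul_eq_zsmul]
  exact zsmul_per (B_k0 h) _ _

theorem cal' : Cal (fun _ : Fin 1 => β k0) F B (fun _ => len) where
  cal _ _ hu _ _ hab := cal_ineq h hu hab
  lvB n x := by
    rw [lvB h]
    simp

theorem B_le_fd (x x' : E) : B x' - B x ≤ fd F x x' := by
  refine le_of_forall_pos_le_add fun ε hε => ?_
  obtain ⟨u, hu, hx, -, hi⟩ := exists_path_fd h.fins hε x x'
  have h1 := cal_ineq h hu (z := x) (zero_le_one' ℝ)
  rw [hx] at h1
  linarith

theorem j_le (g : E) (x x' : E) (n : Fin 1 → ℤ) : (gdC β F mF MF B k0 len c g).j x x' ≤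
    fd F x (x' + lv (fun _ : Fin 1 => β k0) n) - (B (x' + lv (fun _ : Fin 1 => β k0) n) - B x) := by
  refine ciInf_le (f := fun n : Fin 1 → ℤ => fd F x (x' + lv (fun _ : Fin 1 => β k0) n) -
    (B (x' + lv (fun _ : Fin 1 => β k0) n) - B x)) ⟨0, ?_⟩ n
  rintro y ⟨n, rfl⟩
  have := B_le_fd h x (x' + lv (fun _ : Fin 1 => β k0) n)
  simp only
  linarith

theorem j_c (g : E) (s t : ℝ) : (gdC β F mF MF B k0 len c g).j (c s) (c t) ≤ 0 := by
  obtain ⟨m, hm⟩ := exists_nat_gt ((s - t) / len)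
  rw [div_lt_iff₀ h.len_pos] at hm
  refine (j_le h g (c s) (c t) (fun _ => (m : ℤ))).trans ?_
  rw [lv1 h, ← c_int h]
  have h1 := fd_c h (s := s) (t := t + ((m : ℤ) : ℝ) * len) (by push_cast; linarith)
  have h2 := B_c h s (t + ((m : ℤ) : ℝ) * len)
  linarith

/-! ### the zone -/

theorem c_red (t : ℝ) : ∃ s ∈ Icc 0 len, ∃ n : ℤ, t = s + n * len := by
  refine ⟨Int.fract (t / len) * len, ⟨mul_nonneg (Int.fract_nonneg _) h.len_pos.le, ?_⟩,
    ⌊t / len⌋, ?_⟩
  · exact mul_le_of_le_one_left h.len_pos.le (Int.fract_lt_one _).le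
  · rw [← add_mul, Int.fract_add_floor, div_mul_cancel₀ _ h.len_pos.ne']

theorem Z_closed : IsClosed (Set.range c) := by
  have hv : β k0 ≠ 0 := β.ne_zero k0
  have h1 : IsClosed (Set.range fun n : ℤ => (n : ℝ) • β k0) :=
    ((isClosedEmbedding_smul_left hv).comp Int.isClosedEmbedding_coe_real).isClosed_range
  have h2 : IsCompact (c '' Icc 0 len) := isCompact_Icc.image (c_cont h)
  have h3 := IsClosed.add_left_of_isCompact h1 h2
  convert! h3 using 1
  ext x
  constructor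
  · rintro ⟨t, rfl⟩
    obtain ⟨s, hs, n, hn⟩ := c_red h t
    refine Set.mem_add.mpr ⟨c s, mem_image_of_mem _ hs, (n:ℝ) • β k0, ⟨n, rfl⟩, ?_⟩
    rw [hn, c_int h]
  · intro hx
    obtain ⟨_, ⟨s, hs, rfl⟩, _, ⟨n, rfl⟩, rfl⟩ := Set.mem_add.mp hx
    exact ⟨s + n * len, c_int h n s⟩

theorem Z_J (n : Fin 1 → ℤ) {x : E} (hx : x ∈ Set.range c) :
    x + lv (fun _ : Fin 1 => β k0) n ∈ Set.range c := by
  obtain ⟨t, rfl⟩ := hx
  exact ⟨t + n 0 * len, by rw [c_int h, lv1 h]⟩

theorem Z_cpt : ∃ ρ : ℝ, ∀ x ∈ Set.range c, ∃ n : Fin 1 → ℤ,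
    ‖x + lv (fun _ : Fin 1 => β k0) n‖ ≤ ρ := by
  obtain ⟨ρ, hρ⟩ := (isCompact_Icc (a := (0:ℝ)) (b := len)).exists_bound_of_continuousOn
    (c_cont h).continuousOn
  refine ⟨ρ, ?_⟩
  rintro _ ⟨t, rfl⟩
  obtain ⟨s, hs, n, hn⟩ := c_red h t
  refine ⟨fun _ => -n, ?_⟩
  rw [lv1 h, hn, c_int h]
  push_cast
  rw [neg_smul, add_neg_cancel_right]
  exact hρ s hs

theorem Z_disj {v : E} (hv : v ∈ Submodule.span ℤ (Set.range β))
    (hJ : ¬ ∃ n : Fin 1 → ℤ, v = lv (fun _ : Fin 1 => β k0) n) {x : E} (hx : x ∈ Set.range c) :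
    x + v ∉ Set.range c := by
  rintro ⟨t, ht⟩
  obtain ⟨s, rfl⟩ := hx
  have h1 : c t - c s = v := by rw [ht, add_sub_cancel_left]
  obtain ⟨k, hk⟩ := h.simple t s (by rw [h1]; exact hv)
  refine hJ ⟨fun _ => k, ?_⟩
  have e : t = s + k * len := by linarith
  rw [lv1 h, ← h1, e, c_int h, add_sub_cancel_left]

theorem anc (g : E) (t : ℝ) : (gdC β F mF MF B k0 len c g).Anc (c t) := by
  intro ε hε
  refine ⟨2 * len, fun T hT => ?_⟩
  have hl := h.len_pos
  set m : ℕ := ⌈T / len⌉₊ + 1 with hm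
  have h1 : T / len ≤ m := by
    rw [hm]
    push_cast
    linarith [Nat.le_ceil (T / len)]
  have h2 : (m : ℝ) ≤ T / len + 2 := by
    rw [hm]
    push_cast
    linarith [Nat.ceil_lt_add_one (div_nonneg hT hl.le)]
  rw [div_le_iff₀ hl] at h1
  have h3 : (m : ℝ) * len ≤ T + 2 * len := by
    have h4 := mul_le_mul_of_nonneg_right h2 hl.le
    rw [add_mul, div_mul_cancel₀ _ hl.ne'] at h4
    exact h4
  have hm0 : 0 < (m : ℝ) := by
    rw [hm]
    positivity
  have h5 : c t + lv (fun _ : Fin 1 => β k0) (fun _ => (m : ℤ)) = c (t + ((m : ℤ) : ℝ) * len) := by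
    rw [lv1 h, c_int h]
  have h6 : fd F (c t) (c (t + ((m : ℤ) : ℝ) * len)) ≤ m * len := by
    have h7 := fd_c h (s := t) (t := t + ((m : ℤ) : ℝ) * len) (by
      push_cast
      linarith [mul_pos hm0 hl])
    push_cast at h7 ⊢
    linarith
  have h8 := B_c h t (t + ((m : ℤ) : ℝ) * len)
  have h9 := B_le_fd h (c t) (c (t + ((m : ℤ) : ℝ) * len))
  have h10 : B (c (t + ((m : ℤ) : ℝ) * len)) - B (c t) = m * len := by
    rw [h8]
    push_cast
    ring
  refine ⟨fun _ => (m : ℤ), ?_⟩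
  change T ≤ fd F (c t) (c t + lv (fun _ : Fin 1 => β k0) (fun _ => (m : ℤ))) ∧
    fd F (c t) (c t + lv (fun _ : Fin 1 => β k0) (fun _ => (m : ℤ))) ≤ T + 2 * len ∧
    fd F (c t) (c t + lv (fun _ : Fin 1 => β k0) (fun _ => (m : ℤ))) -
      (B (c t + lv (fun _ : Fin 1 => β k0) (fun _ => (m : ℤ))) - B (c t)) ≤ ε
  rw [h5]
  refine ⟨by linarith, by linarith, by linarith⟩

/-! ### strictness away from the zone -/

theorem dB_per {w : E} (hw : w ∈ Submodule.span ℤ (Set.range β)) (x : E) :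
    fderiv ℝ B (x + w) = fderiv ℝ B x := by
  obtain ⟨a, ha⟩ := per_Lam h.per hw
  rw [← fderiv_comp_add_right]
  have e : (fun y => B (y + w)) = fun y => B y + a := funext ha
  rw [e, fderiv_add_const]

theorem Out_closed (g : E) (η : ℝ) : IsClosed ((gdC β F mF MF B k0 len c g).Out η) := by
  have e : (gdC β F mF MF B k0 len c g).Out η =
      ⋂ v ∈ (gdC β F mF MF B k0 len c g).Lam, {w | η ≤ Metric.infDist (w + v) (Set.range c)} := by
    ext w
    simp only [GD.Out, Set.mem_iInter]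
    rfl
  rw [e]
  refine isClosed_biInter fun v _ => isClosed_le continuous_const ?_
  exact (Metric.continuous_infDist_pt _).comp (continuous_id.add continuous_const)

theorem strict_pt (g : E) {η : ℝ} (hη : 0 < η) : ∃ θ : ℝ, 0 < θ ∧ θ ≤ 1 ∧
    ∀ x ∈ (gdC β F mF MF B k0 len c g).Out η, ∀ v, fderiv ℝ B x v ≤ (1 - θ) * F x v := by
  have hMF := MF_pos h
  set R : ℝ := ∑ i, ‖β i‖ with hR
  have hK : IsCompact (((gdC β F mF MF B k0 len c g).Out η ∩ Metric.closedBall 0 R) ×ˢ
      Metric.sphere (0:E) 1) :=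
    ((isCompact_closedBall 0 R).inter_left (Out_closed h g η)).prod (isCompact_sphere 0 1)
  have hcont : Continuous fun p : E × E => F p.1 p.2 - fderiv ℝ B p.1 p.2 :=
    h.fins.cont.sub (dB_cont h)
  obtain ⟨δ, hδ, hδ'⟩ := hK.exists_forall_le' (a := 0) hcont.continuousOn (by
    rintro ⟨x, v⟩ ⟨⟨hx, -⟩, hv⟩
    simp only at hx hv ⊢
    have h1 := h.le x v
    rcases h1.lt_or_eq with h1 | h1
    · linarith
    exfalso
    have hv0 : v ≠ 0 := by
      rintro rfl
      simp at hv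
    obtain ⟨t, w, hw, hx'⟩ := h.only x v hv0 h1
    have h2 := hx (-w) ((Submodule.span ℤ (Set.range β)).neg_mem hw)
    have h3 : x + -w ∈ Set.range c := ⟨t, by rw [hx', add_neg_cancel_right]⟩
    have h4 : Metric.infDist (x + -w) (Set.range c) = 0 := Metric.infDist_zero_of_mem h3
    change η ≤ Metric.infDist (x + -w) (Set.range c) at h2
    linarith)
  refine ⟨min 1 (δ / MF), lt_min one_pos (div_pos hδ hMF), min_le_left _ _, fun x hx v => ?_⟩
  -- reduction to the compact set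
  set y : E := ZSpan.fract β x with hy
  have hw : x - y ∈ Submodule.span ℤ (Set.range β) := by
    rw [hy, ZSpan.fract, sub_sub_cancel]
    exact (ZSpan.floor β x).2
  have hxy : x = y + (x - y) := by abel
  have hyR : ‖y‖ ≤ R := ZSpan.norm_fract_le β x
  have hyO : y ∈ (gdC β F mF MF B k0 len c g).Out η := by
    intro v hv
    have h1 := hx (v - (x - y)) ((Submodule.span ℤ (Set.range β)).sub_mem hv hw)
    have e : x + (v - (x - y)) = y + v := by abel
    rwa [e] at h1
  have hF : F x v = F y v := by rw [hxy, F_Lam h.fins hw]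
  have hB : fderiv ℝ B x = fderiv ℝ B y := by rw [hxy, dB_per h hw]
  rw [hF, hB]
  rcases eq_or_ne v 0 with rfl | hv
  · have h0 := h.fins.hom y 0 0 le_rfl
    rw [zero_smul, zero_mul] at h0
    rw [h0, map_zero, mul_zero]
  have hvn : 0 < ‖v‖ := norm_pos_iff.mpr hv
  set e : E := ‖v‖⁻¹ • v with he
  have hen : ‖e‖ = 1 := by
    rw [he, norm_smul, norm_inv, norm_norm, inv_mul_cancel₀ hvn.ne']
  have hve : v = ‖v‖ • e := by
    rw [he, smul_smul, mul_inv_cancel₀ hvn.ne', one_smul]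
  have h1 : δ ≤ F y e - fderiv ℝ B y e := hδ' (y, e) ⟨⟨hyO, by simpa using hyR⟩, by simpa using hen⟩
  have h2 : F y v = ‖v‖ * F y e := by
    conv_lhs => rw [hve]
    exact h.fins.hom _ _ _ hvn.le
  have h3 : fderiv ℝ B y v = ‖v‖ * fderiv ℝ B y e := by
    conv_lhs => rw [hve]
    rw [map_smul, smul_eq_mul]
  have h4 : F y v ≤ MF * ‖v‖ := h.fins.upp y v
  have h5 : 0 ≤ F y v := (mul_nonneg h.fins.mF_pos.le (norm_nonneg _)).trans (h.fins.low y v)
  have h6 : min 1 (δ / MF) * F y v ≤ δ * ‖v‖ := by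
    have h7 := mul_le_mul_of_nonneg_right (min_le_right 1 (δ / MF)) h5
    have h8 := mul_le_mul_of_nonneg_left h4 (div_pos hδ hMF).le
    have h9 : δ / MF * (MF * ‖v‖) = δ * ‖v‖ := by
      field_simp
    linarith
  have h10 := mul_le_mul_of_nonneg_left h1 hvn.le
  nlinarith

theorem strict' (g : E) {η : ℝ} (hη : 0 < η) : ∃ θ : ℝ, 0 < θ ∧ θ ≤ 1 ∧ ∀ (z : E) (u : ℝ → E),
    Adm u → ∀ a b' : ℝ, a ≤ b' → (∀ t ∈ Icc a b', traj a z u t ∈ (gdC β F mF MF B k0 len c g).Out η) →
    B (traj a z u b') - B z ≤ (1 - θ) * ∫ t in a..b', F (traj a z u t) (u t) := by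
  obtain ⟨θ, h1, h2, h3⟩ := strict_pt h g hη
  refine ⟨θ, h1, h2, fun z u hu a b' hab hO => ?_⟩
  rw [ftc_traj h.smooth hu, ← intervalIntegral.integral_const_mul]
  exact intervalIntegral.integral_mono_on hab
    (ii (dB_cont h) (dB_abs h) (MF_pos h).le hu a z a b')
    ((ii h.fins.cont (F_abs h) (MF_pos h).le hu a z a b').const_mul _) fun t ht => h3 _ (hO t ht) _

end B2

open B2

theorem gdC_ok0 (h : CalC β F mF MF B k0 len c c') (g : E) : (gdC β F mF MF B k0 len c g).Ok0 where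
  li := by
    change LinearIndependent ℝ (fun _ : Fin 1 => β k0)
    exact linearIndependent_unique_iff.mpr (β.ne_zero k0)
  bβ := fun _ => ⟨k0, rfl⟩
  fins := h.fins
  cal := cal' h
  Bper := fun v hv => per_Lam h.per hv
  Z_closed := Z_closed h
  Z_J := fun n x hx => Z_J h n hx
  Z_cpt := Z_cpt h
  Z_disj := fun v hv hJ x hx => Z_disj h hv hJ hx
  q0_mem := ⟨0, rfl⟩
  q1_mem := ⟨0, rfl⟩
  anc0 := anc h g 0
  anc1 := anc h g 0
  front := by
    intro z hz
    have hz' : z ∈ Set.range c := (Z_closed h).frontier_subset hz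
    obtain ⟨t, rfl⟩ := hz'
    refine ⟨c 0, Or.inl rfl, ?_⟩
    have h1 := j_c h g t 0
    have h2 := j_c h g 0 t
    linarith
  strict := fun η hη => strict' h g hη

end EscG
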