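import Pool.Agent.EscG.PDefs
import Pool.Agent.EscG.C1

/-!
Project EscG, MODULE C2: passing costs. All facts are proved from the elementary hypotheses `GD.Pre`.
-/

noncomputable section

namespace EscG

open MeasureTheory Set Filter Topology Esc EscF
open scoped ContDiff

variable {ι : Type} [Fintype ι] {d : ℕ} {E : Type*} [NormedAddCommGroup E] [InnerProductSpace ℝ E]
  {D : GD ι d E}

namespace C2h

theorem lv_add (b : Fin d → E) (n n' : Fin d → ℤ) : lv b (n + n') = lv b n + lv b n' := by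
  simp only [lv, Pi.add_apply, Int.cast_add, add_smul, Finset.sum_add_distrib]

theorem lv_neg (b : Fin d → E) (n : Fin d → ℤ) : lv b (-n) = -lv b n := by
  simp only [lv, Pi.neg_apply, Int.cast_neg, neg_smul, Finset.sum_neg_distrib]

theorem lv_zero (b : Fin d → E) : lv b 0 = 0 := by
  simp only [lv, Pi.zero_apply, Int.cast_zero, zero_smul, Finset.sum_const_zero]

theorem lv_sub (b : Fin d → E) (n n' : Fin d → ℤ) : lv b (n - n') = lv b n - lv b n' := by
  rw [sub_eq_add_neg, lv_add, lv_neg, ← sub_eq_add_neg]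

/-- `F` is periodic under the period lattice -/
theorem F_Lam (h : D.Pre) {v : E} (hv : v ∈ D.Lam) : ∀ x u, D.F (x + v) u = D.F x u := by
  have hv' : v ∈ Submodule.span ℤ (Set.range D.β) := hv
  induction hv' using Submodule.span_induction with
  | mem x hx =>
    obtain ⟨i, rfl⟩ := hx
    exact fun y u => h.fins.per i y u
  | zero => intro y u; rw [add_zero]
  | add a b ha hb iha ihb =>
    intro y u
    rw [← add_assoc, ihb (show b ∈ D.Lam from hb), iha (show a ∈ D.Lam from ha)]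
  | smul k a ha iha =>
    have iha' := iha (show a ∈ D.Lam from ha)
    have hn : ∀ n : ℕ, ∀ y u, D.F (y + (n : ℤ) • a) u = D.F y u := by
      intro n
      induction n with
      | zero => intro y u; simp
      | succ n ih =>
        intro y u
        have e : y + ((n + 1 : ℕ) : ℤ) • a = (y + (n : ℤ) • a) + a := by
          rw [Nat.cast_succ, add_smul, one_smul, add_assoc]
        rw [e, iha', ih]
    intro y u
    rcases Int.eq_nat_or_neg k with ⟨n, rfl | rfl⟩
    · exact hn n y u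
    · have := hn n (y + (-(n : ℤ)) • a) u
      rw [← this, add_assoc, ← add_smul]
      simp

theorem b_Lam (h : D.Pre) (i : Fin d) : D.b i ∈ D.Lam := by
  obtain ⟨k, hk⟩ := h.bβ i
  rw [hk]
  show D.β k ∈ Submodule.span ℤ (Set.range D.β)
  exact Submodule.subset_span ⟨k, rfl⟩

theorem lv_Lam (h : D.Pre) (n : Fin d → ℤ) : lv D.b n ∈ D.Lam := by
  show lv D.b n ∈ Submodule.span ℤ (Set.range D.β)
  unfold lv
  refine Submodule.sum_mem _ fun i _ => ?_
  rw [Int.cast_smul_eq_zsmul]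
  exact Submodule.smul_mem _ _ (b_Lam h i)

theorem fd_Lam [FiniteDimensional ℝ E] (h : D.Pre) {v : E} (hv : v ∈ D.Lam) (x x' : E) :
    fd D.F (x + v) (x' + v) = fd D.F x x' := fd_shift v (F_Lam h hv) x x'

theorem pre0 (h : D.Ok0) : D.Pre := ⟨h.li, h.bβ, h.fins, h.cal, h.Bper⟩

end C2h

open C2h

variable [FiniteDimensional ℝ E]

/-! ### from the elementary hypotheses -/

theorem GD.Pre.B_le_fd (h : D.Pre) (x x' : E) : D.B x' - D.B x ≤ fd D.F x x' := by
  refine le_of_forall_pos_le_add fun ε hε => ?_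
  obtain ⟨u, hu, hx, -, hi⟩ := exists_path_fd h.fins hε x x'
  have h1 := h.cal.cal x u hu 0 1 zero_le_one
  rw [hx] at h1
  linarith

theorem C2h.bdd (h : D.Pre) (x x' : E) : BddBelow (Set.range fun n : Fin d → ℤ =>
    (fd D.F x (x' + lv D.b n) - (D.B (x' + lv D.b n) - D.B x))) := by
  refine ⟨0, ?_⟩
  rintro y ⟨n, rfl⟩
  have := h.B_le_fd x (x' + lv D.b n)
  simp only
  linarith

theorem GD.Pre.j_le (h : D.Pre) (x x' : E) (n : Fin d → ℤ) :
    D.j x x' ≤ fd D.F x (x' + lv D.b n) - (D.B (x' + lv D.b n) - D.B x) :=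
  ciInf_le (bdd h x x') n

omit [FiniteDimensional ℝ E] in
theorem GD.Pre.exists_j_lt (_h : D.Pre) (x x' : E) {ε : ℝ} (hε : 0 < ε) : ∃ n : Fin d → ℤ,
    fd D.F x (x' + lv D.b n) - (D.B (x' + lv D.b n) - D.B x) < D.j x x' + ε :=
  exists_lt_of_ciInf_lt (show D.j x x' < D.j x x' + ε by linarith)

theorem GD.Pre.j_nonneg (h : D.Pre) (x x' : E) : 0 ≤ D.j x x' :=
  le_ciInf fun n => by linarith [h.B_le_fd x (x' + lv D.b n)]

theorem GD.Pre.j_tri (h : D.Pre) (x y z : E) : D.j x z ≤ D.j x y + D.j y z := by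
  refine le_of_forall_pos_le_add fun ε hε => ?_
  obtain ⟨n, hn⟩ := h.exists_j_lt x y (half_pos hε)
  obtain ⟨n', hn'⟩ := h.exists_j_lt y z (half_pos hε)
  have h1 := h.j_le x z (n' + n)
  rw [lv_add, ← add_assoc] at h1
  have h2 := fd_tri h.fins x (y + lv D.b n) (z + lv D.b n' + lv D.b n)
  rw [fd_Lam h (lv_Lam h n) y (z + lv D.b n')] at h2
  have h3 := h.cal.lvB n (z + lv D.b n')
  have h4 := h.cal.lvB n y
  linarith

theorem C2h.j_J_le (h : D.Pre) (x x' : E) (n n' : Fin d → ℤ) :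
    D.j (x + lv D.b n) (x' + lv D.b n') ≤ D.j x x' := by
  refine le_of_forall_pos_le_add fun ε hε => ?_
  obtain ⟨k, hk⟩ := h.exists_j_lt x x' hε
  have h1 := h.j_le (x + lv D.b n) (x' + lv D.b n') (k + n - n')
  have e : x' + lv D.b n' + lv D.b (k + n - n') = x' + lv D.b k + lv D.b n := by
    rw [lv_sub, lv_add]; abel
  rw [e, fd_Lam h (lv_Lam h n)] at h1
  have h3 := h.cal.lvB n (x' + lv D.b k)
  have h4 := h.cal.lvB n x
  linarith

theorem GD.Pre.j_J (h : D.Pre) (x x' : E) (n n' : Fin d → ℤ) :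
    D.j (x + lv D.b n) (x' + lv D.b n') = D.j x x' := by
  refine le_antisymm (j_J_le h x x' n n') ?_
  have h1 := j_J_le h (x + lv D.b n) (x' + lv D.b n') (-n) (-n')
  rwa [lv_neg, lv_neg, add_neg_cancel_right, add_neg_cancel_right] at h1

theorem C2h.j_Lam_le (h : D.Pre) {v : E} (hv : v ∈ D.Lam) (x x' : E) :
    D.j (x + v) (x' + v) ≤ D.j x x' := by
  refine le_of_forall_pos_le_add fun ε hε => ?_
  obtain ⟨k, hk⟩ := h.exists_j_lt x x' hε
  have h1 := h.j_le (x + v) (x' + v) k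
  rw [add_right_comm, fd_Lam h hv] at h1
  obtain ⟨a, ha⟩ := h.Bper v hv
  have h3 := ha (x' + lv D.b k)
  have h4 := ha x
  linarith

theorem GD.Pre.j_Lam (h : D.Pre) {v : E} (hv : v ∈ D.Lam) (x x' : E) :
    D.j (x + v) (x' + v) = D.j x x' := by
  refine le_antisymm (j_Lam_le h hv x x') ?_
  have h1 := j_Lam_le h (D.Lam.neg_mem hv) (x + v) (x' + v)
  rwa [add_neg_cancel_right, add_neg_cancel_right] at h1

theorem GD.Pre.j_lip (h : D.Pre) (x x' : E) : D.j x x' ≤ 2 * D.MF * ‖x' - x‖ := by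
  have h1 := h.j_le x x' 0
  rw [lv_zero, add_zero] at h1
  have h2 := fd_le h.fins x x'
  have h3 := h.B_le_fd x' x
  have h4 := fd_le h.fins x' x
  rw [norm_sub_rev] at h4
  linarith

theorem GD.Pre.j_self (h : D.Pre) (x : E) : D.j x x = 0 := by
  refine le_antisymm ?_ (h.j_nonneg x x)
  have h1 := h.j_lip x x
  simpa using h1

/-! ### the statements of the interface -/

theorem B_le_fd (h : D.Ok0) (x x' : E) : D.B x' - D.B x ≤ fd D.F x x' := (pre0 h).B_le_fd x x'
theorem j_le (h : D.Ok0) (x x' : E) (n : Fin d → ℤ) :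
    D.j x x' ≤ fd D.F x (x' + lv D.b n) - (D.B (x' + lv D.b n) - D.B x) := (pre0 h).j_le x x' n
omit [FiniteDimensional ℝ E] in
theorem exists_j_lt (h : D.Ok0) (x x' : E) {ε : ℝ} (hε : 0 < ε) : ∃ n : Fin d → ℤ,
    fd D.F x (x' + lv D.b n) - (D.B (x' + lv D.b n) - D.B x) < D.j x x' + ε :=
  (pre0 h).exists_j_lt x x' hε
theorem j_nonneg (h : D.Ok0) (x x' : E) : 0 ≤ D.j x x' := (pre0 h).j_nonneg x x'
theorem j_tri (h : D.Ok0) (x y z : E) : D.j x z ≤ D.j x y + D.j y z := (pre0 h).j_tri x y z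
theorem j_J (h : D.Ok0) (x x' : E) (n n' : Fin d → ℤ) : D.j (x + lv D.b n) (x' + lv D.b n') = D.j x x' :=
  (pre0 h).j_J x x' n n'
theorem j_Lam (h : D.Ok0) {v : E} (hv : v ∈ D.Lam) (x x' : E) : D.j (x + v) (x' + v) = D.j x x' :=
  (pre0 h).j_Lam hv x x'
theorem j_lip (h : D.Ok0) (x x' : E) : D.j x x' ≤ 2 * D.MF * ‖x' - x‖ := (pre0 h).j_lip x x'
theorem j_self (h : D.Ok0) (x : E) : D.j x x = 0 := (pre0 h).j_self x

end EscG
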