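import Pool.Agent.EscG.CDefs
import Pool.Agent.EscG.A1
import Pool.Agent.EscG.C1
import Pool.Agent.EscG.C2

/-!
Project EscG, module C3: exact passing at the frontier of the zone.
-/

noncomputable section

namespace EscG

open MeasureTheory Set Filter Topology Esc EscF
open scoped ContDiff

variable {ι : Type} [Fintype ι] {d : ℕ} {E : Type*} [NormedAddCommGroup E] [InnerProductSpace ℝ E]
  [FiniteDimensional ℝ E] {D : GD ι d E}

/-- a continuous path which leaves a set meets its frontier -/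
theorem C3_cross {Z : Set E} {φ : ℝ → E} (hφ : Continuous φ) {s t : ℝ} (hs : s ∈ Icc (0:ℝ) 1)
    (ht : t ∈ Icc (0:ℝ) 1) (h1 : φ s ∈ Z) (h2 : φ t ∉ Z) : ∃ r ∈ Icc (0:ℝ) 1, φ r ∈ frontier Z := by
  have : PreconnectedSpace (Icc (0:ℝ) 1) := Subtype.preconnectedSpace isPreconnected_Icc
  have hc : Continuous (fun r : Icc (0:ℝ) 1 => φ r) := hφ.comp continuous_subtype_val
  have hne : (frontier ((fun r : Icc (0:ℝ) 1 => φ r) ⁻¹' Z)).Nonempty := by
    rw [nonempty_frontier_iff]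
    refine ⟨⟨⟨s, hs⟩, h1⟩, fun h => h2 ?_⟩
    have : (⟨t, ht⟩ : Icc (0:ℝ) 1) ∈ (fun r : Icc (0:ℝ) 1 => φ r) ⁻¹' Z := by
      rw [h]
      trivial
    exact this
  obtain ⟨r, hr⟩ := hne
  exact ⟨r, r.2, hc.frontier_preimage_subset _ hr⟩

theorem C3_lv_add (b : Fin d → E) (n n' : Fin d → ℤ) : lv b n + lv b n' = lv b (n + n') := by
  simp only [lv, Pi.add_apply, Int.cast_add, add_smul, Finset.sum_add_distrib]

theorem C3_lv_neg (b : Fin d → E) (n : Fin d → ℤ) : lv b n + lv b (-n) = 0 := by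
  rw [C3_lv_add]
  simp [lv]

theorem C3_lv_zero (b : Fin d → E) : lv b 0 = 0 := by
  simp [lv]

theorem C3_Z_iff (h : D.Ok0) (x : E) (n : Fin d → ℤ) : x + lv D.b n ∈ D.Z ↔ x ∈ D.Z := by
  constructor
  · intro hx
    have := h.Z_J (-n) _ hx
    rwa [add_assoc, C3_lv_neg, add_zero] at this
  · exact fun hx => h.Z_J n x hx

theorem C3_lv_Lam (h : D.Ok0) (n : Fin d → ℤ) : lv D.b n ∈ D.Lam := by
  unfold lv
  refine AddSubgroup.sum_mem _ fun i _ => ?_
  obtain ⟨k, hk⟩ := h.bβ i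
  rw [hk]
  have h1 : D.β k ∈ Submodule.span ℤ (Set.range D.β) := Submodule.subset_span ⟨k, rfl⟩
  have h2 := Submodule.smul_mem (Submodule.span ℤ (Set.range D.β)) (n i) h1
  have h3 : ((n i : ℤ) : ℝ) • D.β k = (n i) • D.β k := by
    exact Int.cast_smul_eq_zsmul ℝ (n i) (D.β k)
  rw [h3]
  exact h2

/-- a path which leaves or enters the zone passes an anchor, up to `ε` -/
theorem C3_pass (h : D.Ok0) {x c : E} (hxc : (x ∈ D.Z ∧ c ∉ D.Z) ∨ (x ∉ D.Z ∧ c ∈ D.Z)) {ε : ℝ}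
    (hε : 0 < ε) : ∃ q ∈ D.P0, D.j x q + D.j q c ≤ D.j x c + 2 * ε := by
  obtain ⟨n, hn⟩ := exists_j_lt h x c hε
  obtain ⟨u, hu, hu1, hu2, -⟩ := exists_path_fd h.fins hε x (c + lv D.b n)
  have h0 : traj 0 x u 0 = x := by simp [traj]
  have hcr : ∃ r ∈ Icc (0:ℝ) 1, traj 0 x u r ∈ frontier D.Z := by
    rcases hxc with ⟨hx, hc⟩ | ⟨hx, hc⟩
    · exact C3_cross (traj_cont hu 0 x) (s := 0) (t := 1) (by simp) (by simp) (by rwa [h0])
        (by rw [hu1, C3_Z_iff h]; exact hc)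
    · exact C3_cross (traj_cont hu 0 x) (s := 1) (t := 0) (by simp) (by simp)
        (by rw [hu1, C3_Z_iff h]; exact hc) (by rwa [h0])
  obtain ⟨r, hr, hrZ⟩ := hcr
  have h2 := hu2 r hr
  obtain ⟨p, hp, hp2⟩ := h.front _ hrZ
  refine ⟨p, hp, ?_⟩
  set z := traj 0 x u r with hz
  have h3 := j_le h x z 0
  rw [C3_lv_zero, add_zero] at h3
  have h4 := j_le h z c n
  have h5 := j_tri h x z p
  have h6 := j_tri h p z c
  linarith

theorem C3_lim (D : GD ι d E) {x c : E} {A : ℝ}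
    (H : ∀ ε : ℝ, 0 < ε → ∃ q ∈ D.P0, D.j x q + D.j q c ≤ A + 2 * ε) :
    ∃ q ∈ D.P0, D.j x q + D.j q c ≤ A := by
  by_contra hcon
  push Not at hcon
  have h0 := hcon D.q0 (by simp [GD.P0])
  have h1 := hcon D.q1 (by simp [GD.P0])
  obtain ⟨q, hq, hq2⟩ := H (min (D.j x D.q0 + D.j D.q0 c - A) (D.j x D.q1 + D.j D.q1 c - A) / 3)
    (div_pos (lt_min (by linarith) (by linarith)) (by norm_num))
  have h2 := min_le_left (D.j x D.q0 + D.j D.q0 c - A) (D.j x D.q1 + D.j D.q1 c - A)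
  have h3 := min_le_right (D.j x D.q0 + D.j D.q0 c - A) (D.j x D.q1 + D.j D.q1 c - A)
  have h4 : 0 < min (D.j x D.q0 + D.j D.q0 c - A) (D.j x D.q1 + D.j D.q1 c - A) :=
    lt_min (by linarith) (by linarith)
  rcases hq with rfl | hq
  · linarith
  · rw [Set.mem_singleton_iff] at hq
    subst hq
    linarith

theorem pass0 (h : D.Ok0) {x c : E} (hx : x ∈ D.Z) (hc : c ∉ D.Z) :
    ∃ q ∈ D.P0, D.j x q + D.j q c ≤ D.j x c :=
  C3_lim D fun _ hε => C3_pass h (Or.inl ⟨hx, hc⟩) hε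

theorem pass1 (h : D.Ok0) {x c : E} (hx : x ∈ D.Z) (hc : c ∉ D.Z) :
    ∃ q ∈ D.P0, D.j c q + D.j q x ≤ D.j c x :=
  C3_lim D fun _ hε => C3_pass h (Or.inr ⟨hc, hx⟩) hε

theorem near (h : D.Ok0) {x : E} {η : ℝ} (hx : x ∉ D.Z) (hη : Metric.infDist x D.Z ≤ η) :
    ∃ q ∈ D.P0, D.j x q + D.j q x ≤ 4 * D.MF * η := by
  have hMF : 0 < D.MF := h.fins.mF_pos.trans_le h.fins.mF_le
  obtain ⟨y, hy, hy2⟩ := h.Z_closed.exists_infDist_eq_dist ⟨D.q0, h.q0_mem⟩ x
  have hc : Continuous (fun t : ℝ => x + t • (y - x)) := by fun_prop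
  obtain ⟨r, hr, hrZ⟩ := C3_cross (Z := D.Z) hc (s := 1) (t := 0) (by simp) (by simp)
    (by simpa using hy) (by simpa using hx)
  obtain ⟨p, hp, hp2⟩ := h.front _ hrZ
  set z := x + r • (y - x) with hz
  have hzx : ‖z - x‖ ≤ η := by
    rw [hz, add_sub_cancel_left, norm_smul, Real.norm_eq_abs, abs_of_nonneg hr.1]
    have h1 : ‖y - x‖ ≤ η := by
      rw [← dist_eq_norm, dist_comm, ← hy2]
      exact hη
    have h2 := norm_nonneg (y - x)
    have h3 : r * ‖y - x‖ ≤ 1 * ‖y - x‖ := mul_le_mul_of_nonneg_right hr.2 h2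
    linarith
  refine ⟨p, hp, ?_⟩
  have h3 := j_tri h x z p
  have h4 := j_tri h p z x
  have h5 := j_lip h x z
  have h6 := j_lip h z x
  rw [norm_sub_rev] at h6
  have h7 : 2 * D.MF * ‖z - x‖ ≤ 2 * D.MF * η := by gcongr
  linarith

/-- near the frontier of a translate of the zone -/
theorem nearP (h : D.Ok0) {x v : E} {η : ℝ} (hv : v ∈ D.Lam) (hx : x + v ∉ D.Z)
    (hη : Metric.infDist (x + v) D.Z ≤ η) :
    ∃ q ∈ D.P0, ∃ v' ∈ D.Lam, D.j x (q + v') + D.j (q + v') x ≤ 4 * D.MF * η := by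
  obtain ⟨q, hq, hq2⟩ := near h hx hη
  refine ⟨q, hq, -v, D.Lam.neg_mem hv, ?_⟩
  have h1 := j_Lam h hv x (q + -v)
  have h2 := j_Lam h hv (q + -v) x
  rw [neg_add_cancel_right] at h1 h2
  rw [← h1, ← h2]
  exact hq2

/-! ### The shell -/

/-- the union of the rooms -/
def C3_ZL (D : GD ι d E) : Set E := {y | ∃ v ∈ D.Lam, y + v ∈ D.Z}

theorem C3_Out_iff (h : D.Ok0) (η : ℝ) (w : E) : w ∈ D.Out η ↔ η ≤ Metric.infDist w (C3_ZL D) := by
  constructor
  · intro hw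
    have hne : (C3_ZL D).Nonempty := ⟨D.q0, 0, D.Lam.zero_mem, by simpa using h.q0_mem⟩
    refine (Metric.le_infDist hne).2 fun y hy => ?_
    obtain ⟨v, hv, hyv⟩ := hy
    have h1 := (hw v hv).trans (Metric.infDist_le_dist_of_mem hyv)
    simpa using h1
  · intro hw v hv
    refine (Metric.le_infDist ⟨D.q0, h.q0_mem⟩).2 fun z hz => ?_
    have h1 : z - v ∈ C3_ZL D := ⟨v, hv, by simpa using hz⟩
    have h2 := hw.trans (Metric.infDist_le_dist_of_mem h1)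
    have h3 : dist w (z - v) = dist (w + v) z := by
      rw [dist_eq_norm, dist_eq_norm]
      congr 1
      abel
    rwa [h3] at h2

/-- last passage of a level -/
theorem C3_last {φ : ℝ → ℝ} (hφ : Continuous φ) {c : ℝ} (h0 : φ 0 ≤ c) (h1 : c ≤ φ 1) :
    ∃ r ∈ Icc (0:ℝ) 1, φ r = c ∧ ∀ t ∈ Icc r 1, c ≤ φ t := by
  have hcpt : IsCompact (Icc (0:ℝ) 1 ∩ φ ⁻¹' Iic c) :=
    isCompact_Icc.inter_right (isClosed_Iic.preimage hφ)
  obtain ⟨r, hr, hmax⟩ := hcpt.exists_isMaxOn ⟨0, by simp, h0⟩ continuousOn_id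
  have hmax' : ∀ t ∈ Icc (0:ℝ) 1, φ t ≤ c → t ≤ r := fun t ht htc => hmax ⟨ht, htc⟩
  have hr1 : φ r ≤ c := hr.2
  have hr2 : c ≤ φ r := by
    by_contra hlt
    push Not at hlt
    obtain ⟨t, ht, htc⟩ := intermediate_value_Icc hr.1.2 hφ.continuousOn ⟨hlt.le, h1⟩
    have h3 := hmax' t ⟨hr.1.1.trans ht.1, ht.2⟩ htc.le
    have h4 : t = r := le_antisymm h3 ht.1
    rw [h4] at htc
    linarith
  refine ⟨r, hr.1, le_antisymm hr1 hr2, fun t ht => ?_⟩
  by_contra hlt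
  push Not at hlt
  have h3 := hmax' t ⟨hr.1.1.trans ht.1, ht.2⟩ hlt.le
  have h4 : t = r := le_antisymm h3 ht.1
  rw [h4] at hlt
  linarith

/-- first passage of a level -/
theorem C3_first {φ : ℝ → ℝ} (hφ : Continuous φ) {c : ℝ} (h0 : c ≤ φ 0) (h1 : φ 1 ≤ c) :
    ∃ r ∈ Icc (0:ℝ) 1, φ r = c ∧ ∀ t ∈ Icc 0 r, c ≤ φ t := by
  obtain ⟨r, hr, hrc, hr2⟩ := C3_last (φ := fun t => φ (1 - t)) (by fun_prop) (c := c)
    (by simpa using h1) (by simpa using h0)
  refine ⟨1 - r, ⟨by linarith [hr.2], by linarith [hr.1]⟩, hrc, fun t ht => ?_⟩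
  have h3 := hr2 (1 - t) ⟨by linarith [ht.2], by linarith [ht.1]⟩
  simpa using h3

theorem C3_ii (h : D.Ok0) {u : ℝ → E} (hu : Adm u) (a : ℝ) (z : E) (s t : ℝ) :
    IntervalIntegrable (fun r => D.F (traj a z u r) (u r)) volume s t := by
  have hcb : CB 0 (fun x v (_ : ℝ) => D.F x v) := by
    refine ⟨h.fins.cont.comp (by fun_prop : Continuous fun p : E × E × ℝ => (p.1, p.2.1)), fun x v _ => ?_⟩
    rw [neg_zero]
    exact (mul_nonneg h.fins.mF_pos.le (norm_nonneg v)).trans (h.fins.low x v)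
  exact hcb.ii hu a z s t

theorem C3_len (h : D.Ok0) {u : ℝ → E} (hu : Adm u) (a : ℝ) (z : E) {s t : ℝ} (hst : s ≤ t) :
    D.mF * ‖traj a z u t - traj a z u s‖ ≤ ∫ r in s..t, D.F (traj a z u r) (u r) := by
  have h1 : traj a z u t - traj a z u s = ∫ r in s..t, u r := by
    rw [traj_split hu a s z t]
    simp [traj]
  have h2 : ‖∫ r in s..t, u r‖ ≤ ∫ r in s..t, ‖u r‖ := intervalIntegral.norm_integral_le_integral_norm hst
  have h3 : D.mF * ∫ r in s..t, ‖u r‖ ≤ ∫ r in s..t, D.F (traj a z u r) (u r) := by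
    rw [← intervalIntegral.integral_const_mul]
    exact intervalIntegral.integral_mono_on hst ((hu.ii s t).norm.const_mul _) (C3_ii h hu a z s t)
      fun r _ => h.fins.low _ _
  rw [h1]
  exact (mul_le_mul_of_nonneg_left h2 h.fins.mF_pos.le).trans h3

/-- the piece `[s,t]` outside of the rooms pays -/
theorem C3_pay (h : D.Ok0) {η θ : ℝ} (hθ : 0 < θ)
    (hs : ∀ (z : E) (u : ℝ → E), Adm u → ∀ a b' : ℝ, a ≤ b' →
      (∀ t ∈ Icc a b', traj a z u t ∈ D.Out η) →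
      D.B (traj a z u b') - D.B z ≤ (1 - θ) * ∫ t in a..b', D.F (traj a z u t) (u t))
    {u : ℝ → E} (hu : Adm u) (z : E) {s t : ℝ} (hs0 : 0 ≤ s) (hst : s ≤ t) (ht1 : t ≤ 1)
    (hout : ∀ r ∈ Icc s t, traj 0 z u r ∈ D.Out η) :
    D.B (traj 0 z u 1) - D.B z + θ * (D.mF * ‖traj 0 z u t - traj 0 z u s‖) ≤
      ∫ r in (0:ℝ)..1, D.F (traj 0 z u r) (u r) := by
  have e1 : ∀ a r, traj a (traj 0 z u a) u r = traj 0 z u r := fun a r => (traj_split hu 0 a z r).symm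
  have h1 := h.cal.cal z u hu 0 s hs0
  have h2 := hs (traj 0 z u s) u hu s t hst (fun r hr => by rw [e1]; exact hout r hr)
  have h3 := h.cal.cal (traj 0 z u t) u hu t 1 ht1
  simp only [e1] at h2 h3
  have h4 := C3_len h hu 0 z hst
  have h5 : (∫ r in (0:ℝ)..1, D.F (traj 0 z u r) (u r)) = (∫ r in (0:ℝ)..s, D.F (traj 0 z u r) (u r)) +
      (∫ r in s..t, D.F (traj 0 z u r) (u r)) + ∫ r in t..1, D.F (traj 0 z u r) (u r) := by
    rw [intervalIntegral.integral_add_adjacent_intervals (C3_ii h hu 0 z _ _) (C3_ii h hu 0 z _ _),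
      intervalIntegral.integral_add_adjacent_intervals (C3_ii h hu 0 z _ _) (C3_ii h hu 0 z _ _)]
  have h6 := mul_le_mul_of_nonneg_left h4 hθ.le
  rw [h5]
  linarith

theorem C3_lip (D : GD ι d E) (x y : E) :
    |Metric.infDist x (C3_ZL D) - Metric.infDist y (C3_ZL D)| ≤ ‖x - y‖ := by
  have h1 := (Metric.lipschitz_infDist_pt (C3_ZL D)).dist_le_mul x y
  rw [Real.dist_eq, dist_eq_norm] at h1
  simpa using h1

theorem C3_zero {x : E} (hx : ∃ v ∈ D.Lam, x + v ∈ D.Z) : Metric.infDist x (C3_ZL D) = 0 :=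
  Metric.infDist_zero_of_mem hx

theorem C3_ZL_J (h : D.Ok0) {x : E} (n : Fin d → ℤ) (hx : ∃ v ∈ D.Lam, x + v ∈ D.Z) :
    ∃ v ∈ D.Lam, x + lv D.b n + v ∈ D.Z := by
  obtain ⟨v, hv, hxv⟩ := hx
  refine ⟨v, hv, ?_⟩
  have := h.Z_J n _ hxv
  rwa [add_right_comm] at this

theorem C3_Out_J (h : D.Ok0) {η : ℝ} {w : E} (n : Fin d → ℤ) (hw : w ∈ D.Out η) :
    w + lv D.b n ∈ D.Out η := by
  intro v hv
  have h1 := hw (lv D.b n + v) (D.Lam.add_mem (C3_lv_Lam h n) hv)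
  rwa [← add_assoc] at h1

/-- crossing the shell costs -/
theorem shell (h : D.Ok0) {η : ℝ} (hη : 0 < η) : ∃ e : ℝ, 0 < e ∧ ∀ x w : E, w ∈ D.Out η →
    (∃ v ∈ D.Lam, x + v ∈ D.Z) → e ≤ D.j x w ∧ e ≤ D.j w x := by
  obtain ⟨θ, hθ, -, hs⟩ := h.strict (η / 2) (by linarith)
  have hmF := h.fins.mF_pos
  refine ⟨θ * (D.mF * (η / 2)), by positivity, fun x w hw hx => ⟨?_, ?_⟩⟩
  · refine le_of_forall_pos_le_add fun ε hε => ?_
    obtain ⟨n, hn⟩ := exists_j_lt h x w (half_pos hε)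
    obtain ⟨u, hu, hu1, -, hu3⟩ := exists_path_fd h.fins (half_pos hε) x (w + lv D.b n)
    have h0 : traj 0 x u 0 = x := by simp [traj]
    have hc : Continuous fun t => Metric.infDist (traj 0 x u t) (C3_ZL D) :=
      (Metric.continuous_infDist_pt _).comp (traj_cont hu 0 x)
    have hw1 : η ≤ Metric.infDist (traj 0 x u 1) (C3_ZL D) := by
      rw [hu1, ← C3_Out_iff h]
      exact C3_Out_J h n hw
    obtain ⟨r, hr, hrc, hr2⟩ := C3_last hc (c := η / 2) (by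
      show Metric.infDist (traj 0 x u 0) (C3_ZL D) ≤ η / 2
      rw [h0, C3_zero hx]
      linarith) (by
      show η / 2 ≤ Metric.infDist (traj 0 x u 1) (C3_ZL D)
      linarith)
    have h1 := C3_pay h hθ hs hu x hr.1 hr.2 (le_refl 1) (fun t ht => (C3_Out_iff h _ _).2 (hr2 t ht))
    have h2 := C3_lip D (traj 0 x u 1) (traj 0 x u r)
    have h3 := le_abs_self (Metric.infDist (traj 0 x u 1) (C3_ZL D) -
      Metric.infDist (traj 0 x u r) (C3_ZL D))
    have h4 : η / 2 ≤ ‖traj 0 x u 1 - traj 0 x u r‖ := by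
      have h5 : Metric.infDist (traj 0 x u r) (C3_ZL D) = η / 2 := hrc
      linarith
    have h6 : θ * (D.mF * (η / 2)) ≤ θ * (D.mF * ‖traj 0 x u 1 - traj 0 x u r‖) := by gcongr
    rw [hu1] at h1 h6
    linarith
  · refine le_of_forall_pos_le_add fun ε hε => ?_
    obtain ⟨n, hn⟩ := exists_j_lt h w x (half_pos hε)
    obtain ⟨u, hu, hu1, -, hu3⟩ := exists_path_fd h.fins (half_pos hε) w (x + lv D.b n)
    have h0 : traj 0 w u 0 = w := by simp [traj]
    have hc : Continuous fun t => Metric.infDist (traj 0 w u t) (C3_ZL D) :=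
      (Metric.continuous_infDist_pt _).comp (traj_cont hu 0 w)
    have hw1 : η ≤ Metric.infDist (traj 0 w u 0) (C3_ZL D) := by
      rw [h0, ← C3_Out_iff h]
      exact hw
    obtain ⟨r, hr, hrc, hr2⟩ := C3_first hc (c := η / 2) (by
      show η / 2 ≤ Metric.infDist (traj 0 w u 0) (C3_ZL D)
      linarith) (by
      show Metric.infDist (traj 0 w u 1) (C3_ZL D) ≤ η / 2
      rw [hu1, C3_zero (C3_ZL_J h n hx)]
      linarith)
    have h1 := C3_pay h hθ hs hu w (le_refl 0) hr.1 hr.2 (fun t ht => (C3_Out_iff h _ _).2 (hr2 t ht))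
    have h2 := C3_lip D (traj 0 w u r) (traj 0 w u 0)
    have h3 := neg_abs_le (Metric.infDist (traj 0 w u r) (C3_ZL D) -
      Metric.infDist (traj 0 w u 0) (C3_ZL D))
    have h4 : η / 2 ≤ ‖traj 0 w u r - traj 0 w u 0‖ := by
      have h5 : Metric.infDist (traj 0 w u r) (C3_ZL D) = η / 2 := hrc
      linarith
    have h6 : θ * (D.mF * (η / 2)) ≤ θ * (D.mF * ‖traj 0 w u r - traj 0 w u 0‖) := by gcongr
    rw [hu1] at h1
    linarith

/-! ### The zone alone -/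

theorem C3_infDist_J (h : D.Ok0) (x : E) (n : Fin d → ℤ) :
    Metric.infDist (x + lv D.b n) D.Z = Metric.infDist x D.Z := by
  have key : ∀ (y : E) (k : Fin d → ℤ), Metric.infDist (y + lv D.b k) D.Z ≤ Metric.infDist y D.Z := by
    intro y k
    refine (Metric.le_infDist ⟨D.q0, h.q0_mem⟩).2 fun z hz => ?_
    have h1 := Metric.infDist_le_dist_of_mem (x := y + lv D.b k) ((C3_Z_iff h z k).2 hz)
    rwa [dist_add_right] at h1
  refine le_antisymm (key x n) ?_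
  have h1 := key (x + lv D.b n) (-n)
  rwa [add_assoc, C3_lv_neg, add_zero] at h1

/-- separation of the translates of the zone -/
theorem C3_sep (h : D.Ok0) : ∃ δ : ℝ, 0 < δ ∧ ∀ v ∈ D.Lam, ¬ D.InJ v → ∀ x ∈ D.Z,
    δ ≤ Metric.infDist (x + v) D.Z := by
  obtain ⟨ρ, hρ⟩ := h.Z_cpt
  have hne : D.Z.Nonempty := ⟨D.q0, h.q0_mem⟩
  have hK : IsCompact (D.Z ∩ Metric.closedBall 0 ρ) := (isCompact_closedBall 0 ρ).inter_left h.Z_closed
  have hfin : Set.Finite (Metric.closedBall (0:E) (1 + 2 * ρ) ∩ (Submodule.span ℤ (Set.range D.β) : Set E)) :=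
    ZSpan.setFinite_inter D.β Metric.isBounded_closedBall
  have hev : ∀ᶠ δ in 𝓝[>] (0:ℝ), ∀ v ∈ Metric.closedBall (0:E) (1 + 2 * ρ) ∩
      (Submodule.span ℤ (Set.range D.β) : Set E), ¬ D.InJ v →
      ∀ x ∈ D.Z ∩ Metric.closedBall 0 ρ, δ ≤ Metric.infDist (x + v) D.Z := by
    rw [hfin.eventually_all]
    intro v hv
    by_cases hvJ : D.InJ v
    · exact Filter.Eventually.of_forall fun δ hδ => absurd hvJ hδ
    rcases (D.Z ∩ Metric.closedBall (0:E) ρ).eq_empty_or_nonempty with hem | hKne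
    · exact Filter.Eventually.of_forall fun δ _ x hx => by simp [hem] at hx
    obtain ⟨x0, hx0, hmin⟩ := hK.exists_isMinOn hKne
      (f := fun x => Metric.infDist (x + v) D.Z)
      ((Metric.continuous_infDist_pt _).comp (continuous_id.add continuous_const)).continuousOn
    have hpos : 0 < Metric.infDist (x0 + v) D.Z :=
      (h.Z_closed.notMem_iff_infDist_pos hne).1 (h.Z_disj v hv.2 hvJ x0 hx0.1)
    filter_upwards [Ioo_mem_nhdsGT hpos] with δ hδ _ x hx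
    exact hδ.2.le.trans (hmin hx)
  obtain ⟨δ, hδ, hδ0⟩ := (hev.and self_mem_nhdsWithin).exists
  refine ⟨min δ 1, lt_min hδ0 one_pos, fun v hv hvJ x hx => ?_⟩
  obtain ⟨y, hy, hyd⟩ := h.Z_closed.exists_infDist_eq_dist hne (x + v)
  by_cases h1 : 1 ≤ Metric.infDist (x + v) D.Z
  · exact (min_le_right _ _).trans h1
  push Not at h1
  obtain ⟨n, hn⟩ := hρ hx
  obtain ⟨k, hk⟩ := hρ hy
  have hv1 : v + lv D.b (k - n) ∈ D.Lam := D.Lam.add_mem hv (C3_lv_Lam h _)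
  have hv1J : ¬ D.InJ (v + lv D.b (k - n)) := by
    rintro ⟨k', hk'⟩
    refine hvJ ⟨k' + -(k - n), ?_⟩
    rw [← C3_lv_add, ← hk', add_assoc, C3_lv_neg, add_zero]
  have e1 : x + lv D.b n + (v + lv D.b (k - n)) = x + v + lv D.b k := by
    have e2 : lv D.b n + lv D.b (k - n) = lv D.b k := by
      rw [C3_lv_add]
      congr 1
      abel
    rw [← e2]
    abel
  have hnorm : ‖v + lv D.b (k - n)‖ ≤ 1 + 2 * ρ := by
    have e3 : v + lv D.b (k - n) = (x + v - y) + (y + lv D.b k) - (x + lv D.b n) := by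
      have e4 : v + lv D.b (k - n) = (x + lv D.b n + (v + lv D.b (k - n))) - (x + lv D.b n) := by abel
      rw [e4, e1]
      abel
    have h2 : ‖x + v - y‖ ≤ 1 := by
      rw [← dist_eq_norm, ← hyd]
      exact h1.le
    rw [e3]
    have h3 := norm_sub_le ((x + v - y) + (y + lv D.b k)) (x + lv D.b n)
    have h4 := norm_add_le (x + v - y) (y + lv D.b k)
    linarith
  have h5 := hδ (v + lv D.b (k - n)) ⟨mem_closedBall_zero_iff.2 hnorm, hv1⟩ hv1J (x + lv D.b n)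
    ⟨(C3_Z_iff h x n).2 hx, mem_closedBall_zero_iff.2 hn⟩
  rw [e1, C3_infDist_J h] at h5
  exact (min_le_left _ _).trans h5

/-- passage of a band, upwards -/
theorem C3_band {φ : ℝ → ℝ} (hφ : Continuous φ) {a b : ℝ} (hab : a < b) (h0 : φ 0 ≤ a) (h1 : b ≤ φ 1) :
    ∃ s t : ℝ, 0 ≤ s ∧ s ≤ t ∧ t ≤ 1 ∧ φ s = a ∧ φ t = b ∧ ∀ r ∈ Icc s t, a ≤ φ r ∧ φ r ≤ b := by
  have hc1 : IsCompact (Icc (0:ℝ) 1 ∩ φ ⁻¹' {b}) := isCompact_Icc.inter_right (isClosed_singleton.preimage hφ)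
  obtain ⟨t0, ht0, ht0b⟩ := intermediate_value_Icc zero_le_one hφ.continuousOn ⟨h0.trans hab.le, h1⟩
  obtain ⟨t, ht, htmin⟩ := hc1.exists_isMinOn ⟨t0, ht0, ht0b⟩ continuousOn_id
  have htb : φ t = b := ht.2
  have hc2 : IsCompact (Icc (0:ℝ) t ∩ φ ⁻¹' {a}) := isCompact_Icc.inter_right (isClosed_singleton.preimage hφ)
  obtain ⟨s0, hs0, hs0a⟩ := intermediate_value_Icc ht.1.1 hφ.continuousOn ⟨h0, hab.le.trans_eq htb.symm⟩
  obtain ⟨s, hs, hsmax⟩ := hc2.exists_isMaxOn ⟨s0, hs0, hs0a⟩ continuousOn_id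
  have hsa : φ s = a := hs.2
  refine ⟨s, t, hs.1.1, hs.1.2, ht.1.2, hsa, htb, fun r hr => ⟨?_, ?_⟩⟩
  · by_contra hlt
    push Not at hlt
    obtain ⟨r', hr', hra⟩ := intermediate_value_Icc hr.2 hφ.continuousOn ⟨hlt.le, hab.le.trans_eq htb.symm⟩
    have h3 : r' ≤ s := hsmax ⟨⟨(hs.1.1.trans hr.1).trans hr'.1, hr'.2⟩, hra⟩
    have h4 : r = s := le_antisymm (hr'.1.trans h3) hr.1
    rw [h4, hsa] at hlt
    exact lt_irrefl _ hlt
  · by_contra hlt
    push Not at hlt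
    obtain ⟨r', hr', hrb⟩ := intermediate_value_Icc (hs.1.1.trans hr.1) hφ.continuousOn
      ⟨h0.trans hab.le, hlt.le⟩
    have h3 : t ≤ r' := htmin ⟨⟨hr'.1, hr'.2.trans (hr.2.trans ht.1.2)⟩, hrb⟩
    have h4 : r = t := le_antisymm hr.2 (h3.trans hr'.2)
    rw [h4, htb] at hlt
    exact lt_irrefl _ hlt

/-- passage of a band, downwards -/
theorem C3_band' {φ : ℝ → ℝ} (hφ : Continuous φ) {a b : ℝ} (hab : a < b) (h0 : b ≤ φ 0) (h1 : φ 1 ≤ a) :
    ∃ s t : ℝ, 0 ≤ s ∧ s ≤ t ∧ t ≤ 1 ∧ φ s = b ∧ φ t = a ∧ ∀ r ∈ Icc s t, a ≤ φ r ∧ φ r ≤ b := by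
  obtain ⟨s, t, hs, hst, ht, hsa, htb, hr⟩ := C3_band (φ := fun t => φ (1 - t)) (by fun_prop) hab
    (by simpa using h1) (by simpa using h0)
  refine ⟨1 - t, 1 - s, by linarith, by linarith, by linarith, htb, hsa, fun r hr' => ?_⟩
  have h3 := hr (1 - r) ⟨by linarith [hr'.2], by linarith [hr'.1]⟩
  simpa using h3

/-- points at moderate distance of the zone are outside of all rooms -/
theorem C3_mem_Out (h : D.Ok0) {δ η : ℝ} {x : E} (hδ : ∀ v ∈ D.Lam, ¬ D.InJ v → ∀ x ∈ D.Z,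
    δ ≤ Metric.infDist (x + v) D.Z) (h1 : η ≤ Metric.infDist x D.Z)
    (h2 : Metric.infDist x D.Z + η ≤ δ) : x ∈ D.Out η := by
  intro v hv
  by_cases hvJ : D.InJ v
  · obtain ⟨n, rfl⟩ := hvJ
    rwa [C3_infDist_J h]
  · obtain ⟨z, hz, hzd⟩ := h.Z_closed.exists_infDist_eq_dist ⟨D.q0, h.q0_mem⟩ x
    have h3 := hδ v hv hvJ z hz
    have h4 := Metric.infDist_le_infDist_add_dist (s := D.Z) (x := z + v) (y := x + v)
    rw [dist_add_right, dist_comm, ← hzd] at h4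
    linarith

/-- the same for the zone alone -/
theorem shellZ (h : D.Ok0) {η : ℝ} (hη : 0 < η) : ∃ e : ℝ, 0 < e ∧ ∀ x w : E, x ∈ D.Z →
    η ≤ Metric.infDist w D.Z → e ≤ D.j x w ∧ e ≤ D.j w x := by
  obtain ⟨δ, hδ0, hδ⟩ := C3_sep h
  set η' := min η (δ / 2) with hη'
  have hη'0 : 0 < η' := lt_min hη (by linarith)
  have hη'1 : η' ≤ η := min_le_left _ _
  have hη'2 : η' ≤ δ / 2 := min_le_right _ _
  obtain ⟨θ, hθ, -, hs⟩ := h.strict (η' / 2) (by linarith)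
  have hmF := h.fins.mF_pos
  refine ⟨θ * (D.mF * (η' / 2)), by positivity, fun x w hx hw => ⟨?_, ?_⟩⟩
  · refine le_of_forall_pos_le_add fun ε hε => ?_
    obtain ⟨n, hn⟩ := exists_j_lt h x w (half_pos hε)
    obtain ⟨u, hu, hu1, -, hu3⟩ := exists_path_fd h.fins (half_pos hε) x (w + lv D.b n)
    have h0 : traj 0 x u 0 = x := by simp [traj]
    have hc : Continuous fun t => Metric.infDist (traj 0 x u t) D.Z :=
      (Metric.continuous_infDist_pt _).comp (traj_cont hu 0 x)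
    obtain ⟨s, t, hs0, hst, ht1, hsa, htb, hr⟩ := C3_band hc (a := η' / 2) (b := η') (by linarith) (by
      show Metric.infDist (traj 0 x u 0) D.Z ≤ η' / 2
      rw [h0, Metric.infDist_zero_of_mem hx]
      linarith) (by
      show η' ≤ Metric.infDist (traj 0 x u 1) D.Z
      rw [hu1, C3_infDist_J h]
      linarith)
    have h1 := C3_pay h hθ hs hu x hs0 hst ht1 (fun r hr' => C3_mem_Out h hδ (hr r hr').1 (by
      linarith [(hr r hr').2]))
    have h2 := (Metric.lipschitz_infDist_pt D.Z).dist_le_mul (traj 0 x u t) (traj 0 x u s)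
    rw [Real.dist_eq, dist_eq_norm] at h2
    have h3 := le_abs_self (Metric.infDist (traj 0 x u t) D.Z - Metric.infDist (traj 0 x u s) D.Z)
    have h4 : η' / 2 ≤ ‖traj 0 x u t - traj 0 x u s‖ := by
      have h5 : Metric.infDist (traj 0 x u s) D.Z = η' / 2 := hsa
      have h6 : Metric.infDist (traj 0 x u t) D.Z = η' := htb
      simp only [NNReal.coe_one, one_mul] at h2
      linarith
    have h6 : θ * (D.mF * (η' / 2)) ≤ θ * (D.mF * ‖traj 0 x u t - traj 0 x u s‖) := by gcongr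
    rw [hu1] at h1
    linarith
  · refine le_of_forall_pos_le_add fun ε hε => ?_
    obtain ⟨n, hn⟩ := exists_j_lt h w x (half_pos hε)
    obtain ⟨u, hu, hu1, -, hu3⟩ := exists_path_fd h.fins (half_pos hε) w (x + lv D.b n)
    have h0 : traj 0 w u 0 = w := by simp [traj]
    have hc : Continuous fun t => Metric.infDist (traj 0 w u t) D.Z :=
      (Metric.continuous_infDist_pt _).comp (traj_cont hu 0 w)
    obtain ⟨s, t, hs0, hst, ht1, hsb, hta, hr⟩ := C3_band' hc (a := η' / 2) (b := η') (by linarith) (by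
      show η' ≤ Metric.infDist (traj 0 w u 0) D.Z
      rw [h0]
      linarith) (by
      show Metric.infDist (traj 0 w u 1) D.Z ≤ η' / 2
      rw [hu1, C3_infDist_J h, Metric.infDist_zero_of_mem hx]
      linarith)
    have h1 := C3_pay h hθ hs hu w hs0 hst ht1 (fun r hr' => C3_mem_Out h hδ (hr r hr').1 (by
      linarith [(hr r hr').2]))
    have h2 := (Metric.lipschitz_infDist_pt D.Z).dist_le_mul (traj 0 w u t) (traj 0 w u s)
    rw [Real.dist_eq, dist_eq_norm] at h2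
    have h3 := neg_abs_le (Metric.infDist (traj 0 w u t) D.Z - Metric.infDist (traj 0 w u s) D.Z)
    have h4 : η' / 2 ≤ ‖traj 0 w u t - traj 0 w u s‖ := by
      have h5 : Metric.infDist (traj 0 w u s) D.Z = η' := hsb
      have h6 : Metric.infDist (traj 0 w u t) D.Z = η' / 2 := hta
      simp only [NNReal.coe_one, one_mul] at h2
      linarith
    have h6 : θ * (D.mF * (η' / 2)) ≤ θ * (D.mF * ‖traj 0 w u t - traj 0 w u s‖) := by gcongr
    rw [hu1] at h1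
    linarith

end EscG
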