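import Pool.Agent.EscG.C1
import Pool.Agent.EscG.C2
import Pool.Agent.EscG.A5a

/-!
Project EscG, module C3b: separation of the translates of the zone, coercivity of the passing costs.
-/

noncomputable section

namespace EscG

open MeasureTheory Set Filter Topology Esc EscF
open scoped ContDiff

variable {ι : Type} [Fintype ι] {d : ℕ} {E : Type*} [NormedAddCommGroup E] [InnerProductSpace ℝ E]
  [FiniteDimensional ℝ E] {D : GD ι d E}

/-! ## The fast lattice -/

theorem C3b_lv_neg (b : Fin d → E) (n : Fin d → ℤ) : lv b (-n) = -lv b n := by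
  unfold lv
  rw [← Finset.sum_neg_distrib]
  refine Finset.sum_congr rfl fun i _ => ?_
  rw [Pi.neg_apply, Int.cast_neg, neg_smul]

theorem C3b_lv_sub (b : Fin d → E) (n k : Fin d → ℤ) : lv b (n - k) = lv b n - lv b k := by
  rw [sub_eq_add_neg, A5a_lv_add, C3b_lv_neg, ← sub_eq_add_neg]

theorem C3b_lv_mem (h : D.Ok0) (n : Fin d → ℤ) : lv D.b n ∈ D.Lam := by
  have hm : ∀ i, D.b i ∈ Submodule.span ℤ (Set.range D.β) := by
    intro i
    obtain ⟨k, hk⟩ := h.bβ i
    rw [hk]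
    exact Submodule.subset_span ⟨k, rfl⟩
  show lv D.b n ∈ Submodule.span ℤ (Set.range D.β)
  unfold lv
  refine Submodule.sum_mem _ fun i _ => ?_
  rw [Int.cast_smul_eq_zsmul]
  exact Submodule.smul_mem _ _ (hm i)

theorem C3b_InJ_add {v : E} (n : Fin d → ℤ) (hv : ¬ D.InJ v) : ¬ D.InJ (v + lv D.b n) := by
  rintro ⟨k, hk⟩
  refine hv ⟨k - n, ?_⟩
  rw [C3b_lv_sub, ← hk]
  abel

theorem C3b_infJ_le (h : D.Ok0) (n : Fin d → ℤ) (y : E) :
    Metric.infDist (y + lv D.b n) D.Z ≤ Metric.infDist y D.Z := by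
  have hne : D.Z.Nonempty := ⟨_, h.q0_mem⟩
  rw [Metric.le_infDist hne]
  intro z hz
  refine (Metric.infDist_le_dist_of_mem (h.Z_J n z hz)).trans ?_
  rw [dist_add_right]

theorem C3b_infJ (h : D.Ok0) (n : Fin d → ℤ) (y : E) :
    Metric.infDist (y + lv D.b n) D.Z = Metric.infDist y D.Z := by
  refine le_antisymm (C3b_infJ_le h n y) ?_
  have := C3b_infJ_le h (-n) (y + lv D.b n)
  rwa [C3b_lv_neg, add_neg_cancel_right] at this

/-- separation of the translates of the zone -/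
theorem exists_sep (h : D.Ok0) : ∃ δ : ℝ, 0 < δ ∧ ∀ v ∈ D.Lam, ¬ D.InJ v → ∀ x ∈ D.Z,
    δ ≤ Metric.infDist (x + v) D.Z := by
  obtain ⟨ρ, hρ⟩ := h.Z_cpt
  have hne : D.Z.Nonempty := ⟨_, h.q0_mem⟩
  set K : Set E := D.Z ∩ Metric.closedBall 0 ρ with hK
  have hKc : IsCompact K := by
    rw [hK, inter_comm]
    exact (isCompact_closedBall (0 : E) ρ).inter_right h.Z_closed
  -- the relevant lattice vectors
  set A : Set E := Metric.closedBall 0 (1 + 2 * ρ) ∩ (Submodule.span ℤ (Set.range D.β) : Set E) with hA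
  have hAf : A.Finite := ZSpan.setFinite_inter D.β Metric.isBounded_closedBall
  have hone : ∀ v : E, ∃ δ : ℝ, 0 < δ ∧ (v ∈ D.Lam → ¬ D.InJ v → ∀ x ∈ K,
      δ ≤ Metric.infDist (x + v) D.Z) := by
    intro v
    by_cases hv : v ∈ D.Lam ∧ ¬ D.InJ v
    · rcases K.eq_empty_or_nonempty with hE | hE
      · exact ⟨1, one_pos, fun _ _ x hx => by rw [hE] at hx; exact hx.elim⟩
      · obtain ⟨x0, hx0, hmin⟩ := hKc.exists_isMinOn hE (f := fun x => Metric.infDist (x + v) D.Z)
          ((Metric.continuous_infDist_pt D.Z).comp (continuous_id.add continuous_const)).continuousOn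
        refine ⟨Metric.infDist (x0 + v) D.Z, ?_, fun _ _ x hx => hmin hx⟩
        have h1 := h.Z_disj v hv.1 hv.2 x0 hx0.1
        exact (h.Z_closed.notMem_iff_infDist_pos hne).1 h1
    · exact ⟨1, one_pos, fun h1 h2 => absurd ⟨h1, h2⟩ hv⟩
  choose δ hδ hδ' using hone
  obtain ⟨δ0, hδ0, hδ0'⟩ : ∃ δ0 : ℝ, 0 < δ0 ∧ ∀ v ∈ A, δ0 ≤ δ v := by
    rcases A.eq_empty_or_nonempty with hE | hE
    · exact ⟨1, one_pos, fun v hv => by rw [hE] at hv; exact hv.elim⟩
    · obtain ⟨v0, -, hmin⟩ := Set.exists_min_image A δ hAf hE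
      exact ⟨δ v0, hδ v0, hmin⟩
  refine ⟨min 1 δ0, lt_min one_pos hδ0, fun v hv hvJ x hx => ?_⟩
  rw [Metric.le_infDist hne]
  intro z hz
  by_contra hc
  push Not at hc
  obtain ⟨n, hn⟩ := hρ hx
  obtain ⟨n', hn'⟩ := hρ hz
  have hx1 : x + lv D.b n ∈ K := ⟨h.Z_J n x hx, by rwa [mem_closedBall_zero_iff]⟩
  have hz1 : z + lv D.b n' ∈ D.Z := h.Z_J n' z hz
  set v1 : E := v + lv D.b (n' - n) with hv1
  have hv1L : v1 ∈ D.Lam := add_mem hv (C3b_lv_mem h _)
  have hv1J : ¬ D.InJ v1 := C3b_InJ_add _ hvJ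
  have e1 : (x + lv D.b n + v1) - (z + lv D.b n') = x + v - z := by
    rw [hv1, C3b_lv_sub]
    abel
  have hd : dist (x + lv D.b n + v1) (z + lv D.b n') = dist (x + v) z := by
    rw [dist_eq_norm, dist_eq_norm, e1]
  have hv1A : v1 ∈ A := by
    refine ⟨?_, hv1L⟩
    rw [mem_closedBall_zero_iff]
    have e2 : v1 = (x + v - z) - (x + lv D.b n) + (z + lv D.b n') := by
      rw [hv1, C3b_lv_sub]
      abel
    have e3 : ‖x + v - z‖ < 1 := by
      rw [← dist_eq_norm]
      exact hc.trans_le (min_le_left _ _)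
    have e4 : ‖v1‖ ≤ ‖x + v - z‖ + ‖x + lv D.b n‖ + ‖z + lv D.b n'‖ := by
      rw [e2]
      exact (norm_add_le _ _).trans (add_le_add_left (norm_sub_le _ _) _)
    linarith
  have h2 := hδ' v1 hv1L hv1J _ hx1
  have h3 := Metric.infDist_le_dist_of_mem (x := x + lv D.b n + v1) hz1
  have h4 := hδ0' v1 hv1A
  rw [hd] at h3
  have h5 := min_le_right 1 δ0
  linarith

/-! ## Crossings -/

/-- crossing of a strip -/
theorem C3b_cross {φ : ℝ → ℝ} (hφ : Continuous φ) {a b p q : ℝ} (hab : a ≤ b) (ha : φ a ≤ p)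
    (hb : q ≤ φ b) (hpq : p < q) : ∃ s t, a ≤ s ∧ s ≤ t ∧ t ≤ b ∧ φ s = p ∧ φ t = q ∧
      ∀ r ∈ Icc s t, p ≤ φ r ∧ φ r ≤ q := by
  -- the first time with `q ≤ φ`
  have hc1 : IsCompact (Icc a b ∩ {r | q ≤ φ r}) :=
    isCompact_Icc.inter_right (isClosed_le continuous_const hφ)
  obtain ⟨t, ⟨ht1, ht2⟩, ht3⟩ := hc1.exists_isLeast ⟨b, ⟨hab, le_rfl⟩, hb⟩
  have hlt : ∀ r, a ≤ r → r < t → φ r < q := by
    intro r h1 h2
    by_contra hc
    push Not at hc
    exact absurd (ht3 ⟨⟨h1, h2.le.trans ht1.2⟩, hc⟩) (not_le.2 h2)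
  have hφt : φ t = q := by
    refine le_antisymm ?_ ht2
    by_contra hc
    push Not at hc
    obtain ⟨r, hr, hr'⟩ := intermediate_value_Icc ht1.1 hφ.continuousOn
      ⟨ha.trans hpq.le, hc.le⟩
    have h1 : r ≠ t := by
      rintro rfl
      exact hc.ne' hr'
    exact absurd hr' (hlt r hr.1 (lt_of_le_of_ne hr.2 h1)).ne
  -- the last time before with `φ ≤ p`
  have hc2 : IsCompact (Icc a t ∩ {r | φ r ≤ p}) :=
    isCompact_Icc.inter_right (isClosed_le hφ continuous_const)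
  obtain ⟨s, ⟨hs1, hs2⟩, hs3⟩ := hc2.exists_isGreatest ⟨a, ⟨le_rfl, ht1.1⟩, ha⟩
  have hgt : ∀ r, s < r → r ≤ t → p < φ r := by
    intro r h1 h2
    by_contra hc
    push Not at hc
    exact absurd (hs3 ⟨⟨hs1.1.trans h1.le, h2⟩, hc⟩) (not_le.2 h1)
  have hφs : φ s = p := by
    refine le_antisymm hs2 ?_
    by_contra hc
    push Not at hc
    obtain ⟨r, hr, hr'⟩ := intermediate_value_Icc hs1.2 hφ.continuousOn
      ⟨hc.le, by rw [hφt]; exact hpq.le⟩
    have h1 : r ≠ s := by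
      rintro rfl
      exact hc.ne hr'
    exact absurd hr' (hgt r (lt_of_le_of_ne hr.1 h1.symm) hr.2).ne'
  refine ⟨s, t, hs1.1, hs1.2, ht1.2, hφs, hφt, fun r hr => ⟨?_, ?_⟩⟩
  · rcases hr.1.eq_or_lt with h1 | h1
    · rw [← h1, hφs]
    · exact (hgt r h1 hr.2).le
  · rcases hr.2.eq_or_lt with h1 | h1
    · rw [h1, hφt]
    · exact (hlt r (hs1.1.trans hr.1) h1).le

/-! ## Excess of a path -/

/-- the excess on `[p,q]` of the trajectory of `u` which starts at `z` at the time `a` -/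
def C3b_ex (D : GD ι d E) (a : ℝ) (z : E) (u : ℝ → E) (p q : ℝ) : ℝ :=
  (∫ r in p..q, D.F (traj a z u r) (u r)) - (D.B (traj a z u q) - D.B (traj a z u p))

theorem C3b_ex_add (h : D.Ok0) {u : ℝ → E} (hu : Adm u) (a : ℝ) (z : E) (p q r : ℝ) :
    C3b_ex D a z u p q + C3b_ex D a z u q r = C3b_ex D a z u p r := by
  unfold C3b_ex
  rw [← intervalIntegral.integral_add_adjacent_intervals (A5a_ii h.fins hu a z p q)
    (A5a_ii h.fins hu a z q r)]
  ring

theorem C3b_int (u : ℝ → E) (hu : Adm u) (F : E → E → ℝ) (a : ℝ) (z : E) (p q : ℝ) :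
    ∫ r in p..q, F (traj p (traj a z u p) u r) (u r) = ∫ r in p..q, F (traj a z u r) (u r) := by
  refine intervalIntegral.integral_congr fun r _ => ?_
  show F (traj p (traj a z u p) u r) (u r) = F (traj a z u r) (u r)
  rw [← traj_split hu a p z r]

theorem C3b_ex_nonneg (h : D.Ok0) {u : ℝ → E} (hu : Adm u) (a : ℝ) (z : E) {p q : ℝ} (hpq : p ≤ q) :
    0 ≤ C3b_ex D a z u p q := by
  have h1 := h.cal.cal (traj a z u p) u hu p q hpq
  rw [C3b_int u hu, ← traj_split hu a p z q] at h1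
  unfold C3b_ex
  linarith

theorem C3b_ex_mono (h : D.Ok0) {u : ℝ → E} (hu : Adm u) (a : ℝ) (z : E) {p q p' q' : ℝ} (h1 : p ≤ p')
    (h2 : p' ≤ q') (h3 : q' ≤ q) : C3b_ex D a z u p' q' ≤ C3b_ex D a z u p q := by
  have e1 := C3b_ex_add h hu a z p p' q
  have e2 := C3b_ex_add h hu a z p' q' q
  have k1 := C3b_ex_nonneg h hu a z h1
  have k2 := C3b_ex_nonneg h hu a z h3
  linarith

/-- displacement bound -/
theorem C3b_disp (h : D.Ok0) {u : ℝ → E} (hu : Adm u) (a : ℝ) (z : E) {p q : ℝ} (hpq : p ≤ q) :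
    D.mF * ‖traj a z u q - traj a z u p‖ ≤ ∫ r in p..q, D.F (traj a z u r) (u r) := by
  have h1 : traj a z u q - traj a z u p = ∫ r in p..q, u r := by
    rw [traj_split hu a p z q]
    simp [traj]
  have h2 : ‖∫ r in p..q, u r‖ ≤ ∫ r in p..q, ‖u r‖ :=
    intervalIntegral.norm_integral_le_integral_norm hpq
  have h3 : D.mF * ∫ r in p..q, ‖u r‖ = ∫ r in p..q, D.mF * ‖u r‖ :=
    (intervalIntegral.integral_const_mul _ _).symm
  have h4 : ∫ r in p..q, D.mF * ‖u r‖ ≤ ∫ r in p..q, D.F (traj a z u r) (u r) :=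
    intervalIntegral.integral_mono_on hpq ((hu.ii p q).norm.const_mul _) (A5a_ii h.fins hu a z p q)
      fun r _ => h.fins.low _ _
  rw [h1]
  exact (mul_le_mul_of_nonneg_left h2 h.fins.mF_pos.le).trans (h3.le.trans h4)

/-- outside of the rooms a small excess allows only a small displacement -/
theorem C3b_out (h : D.Ok0) {η θ : ℝ} (hθ : 0 < θ)
    (hst : ∀ (z : E) (u : ℝ → E), Adm u → ∀ a b' : ℝ, a ≤ b' →
      (∀ t ∈ Icc a b', traj a z u t ∈ D.Out η) →
      D.B (traj a z u b') - D.B z ≤ (1 - θ) * ∫ t in a..b', D.F (traj a z u t) (u t))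
    {u : ℝ → E} (hu : Adm u) (a : ℝ) (z : E) {p q : ℝ} (hpq : p ≤ q)
    (hO : ∀ t ∈ Icc p q, traj a z u t ∈ D.Out η) :
    θ * D.mF * ‖traj a z u q - traj a z u p‖ ≤ C3b_ex D a z u p q := by
  have h1 := hst (traj a z u p) u hu p q hpq (fun t ht => by
    rw [← traj_split hu a p z t]
    exact hO t ht)
  rw [C3b_int u hu, ← traj_split hu a p z q] at h1
  have h2 := mul_le_mul_of_nonneg_left (C3b_disp h hu a z hpq) hθ.le
  unfold C3b_ex
  nlinarith

/-- a path of small excess stays bounded modulo the fast lattice -/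
theorem C3b_local (h : D.Ok0) : ∃ dl r1 : ℝ, 0 < dl ∧ 0 ≤ r1 ∧ ∀ (z : E) (u : ℝ → E), Adm u →
    ∀ a p q : ℝ, p ≤ q → C3b_ex D a z u p q ≤ dl →
      ∃ n : Fin d → ℤ, ‖traj a z u q + lv D.b n - traj a z u p‖ ≤ r1 := by
  obtain ⟨δ, hδ, hsep⟩ := exists_sep h
  obtain ⟨ρ, hρ⟩ := h.Z_cpt
  have hne : D.Z.Nonempty := ⟨_, h.q0_mem⟩
  have hmF := h.fins.mF_pos
  set η : ℝ := δ / 8 with hη
  have hη0 : 0 < η := by positivity
  obtain ⟨θ, hθ, -, hst⟩ := h.strict η hη0
  have hρ0 : 0 ≤ ρ := by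
    obtain ⟨n, hn⟩ := hρ h.q0_mem
    exact (norm_nonneg _).trans hn
  refine ⟨θ * D.mF * (η / 2), 2 * ρ + 6 * η, by positivity, by positivity, ?_⟩
  intro z u hu a p q hpq hex
  set T : ℝ → E := traj a z u with hT
  have hTc : Continuous T := traj_cont hu a z
  -- displacement on pieces outside
  have hout : ∀ s t, p ≤ s → s ≤ t → t ≤ q → (∀ r ∈ Icc s t, T r ∈ D.Out η) →
      ‖T t - T s‖ ≤ η / 2 := by
    intro s t h1 h2 h3 hO
    have k1 := C3b_out h hθ hst hu a z h2 hO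
    have k2 := C3b_ex_mono h hu a z h1 h2 h3
    have k3 : θ * D.mF * ‖T t - T s‖ ≤ θ * D.mF * (η / 2) := k1.trans (k2.trans hex)
    exact le_of_mul_le_mul_left k3 (by positivity)
  by_cases hA : ∀ t ∈ Icc p q, T t ∈ D.Out η
  · refine ⟨0, ?_⟩
    rw [A5a_lv_zero, add_zero]
    have := hout p q le_rfl hpq le_rfl hA
    linarith
  · push Not at hA
    obtain ⟨t1, ht1, hO1⟩ := hA
    have hO2 : ∃ v ∈ D.Lam, Metric.infDist (T t1 + v) D.Z < η := by
      by_contra hc
      push Not at hc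
      exact hO1 hc
    obtain ⟨v, hv, hv1⟩ := hO2
    set φ : ℝ → ℝ := fun t => Metric.infDist (T t + v) D.Z with hφ
    have hφc : Continuous φ :=
      (Metric.continuous_infDist_pt D.Z).comp (hTc.add continuous_const)
    -- in the shell one is outside of all rooms
    have hshell : ∀ t, η ≤ φ t → φ t ≤ 2 * η → T t ∈ D.Out η := by
      intro t h1 h2 v' hv'
      by_cases hJ : D.InJ (v' - v)
      · obtain ⟨n, hn⟩ := hJ
        have e : T t + v' = T t + v + lv D.b n := by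
          rw [← hn]
          abel
        rw [e, C3b_infJ h]
        exact h1
      · have h3 : Metric.infDist (T t + v) D.Z < 3 * η := by
          have : φ t < 3 * η := by linarith
          exact this
        obtain ⟨z', hz', hd⟩ := (Metric.infDist_lt_iff hne).1 h3
        have h4 := hsep (v' - v) (sub_mem hv' hv) hJ z' hz'
        have h5 : Metric.infDist (z' + (v' - v)) D.Z ≤
            Metric.infDist (T t + v') D.Z + dist (z' + (v' - v)) (T t + v') :=
          Metric.infDist_le_infDist_add_dist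
        have h6 : dist (z' + (v' - v)) (T t + v') = dist (T t + v) z' := by
          rw [dist_comm, dist_eq_norm, dist_eq_norm]
          congr 1
          abel
        rw [h6] at h5
        have h7 : δ = 8 * η := by rw [hη]; ring
        linarith
    have hlip : ∀ s t, |φ t - φ s| ≤ ‖T t - T s‖ := by
      intro s t
      have h1 : Metric.infDist (T t + v) D.Z ≤ Metric.infDist (T s + v) D.Z + dist (T t + v) (T s + v) :=
        Metric.infDist_le_infDist_add_dist
      have h2 : Metric.infDist (T s + v) D.Z ≤ Metric.infDist (T t + v) D.Z + dist (T s + v) (T t + v) :=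
        Metric.infDist_le_infDist_add_dist
      rw [dist_add_right, dist_eq_norm] at h1 h2
      rw [norm_sub_rev (T s)] at h2
      rw [abs_le]
      constructor
      · show -‖T t - T s‖ ≤ Metric.infDist (T t + v) D.Z - Metric.infDist (T s + v) D.Z
        linarith
      · show Metric.infDist (T t + v) D.Z - Metric.infDist (T s + v) D.Z ≤ ‖T t - T s‖
        linarith
    have hnocross : ∀ s t, p ≤ s → s ≤ t → t ≤ q → (∀ r ∈ Icc s t, η ≤ φ r ∧ φ r ≤ 2 * η) →
        |φ t - φ s| = η → False := by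
      intro s t h1 h2 h3 h4 h5
      have k1 := hout s t h1 h2 h3 (fun r hr => hshell r (h4 r hr).1 (h4 r hr).2)
      have k2 := hlip s t
      linarith
    have hsmall : ∀ t ∈ Icc p q, φ t < 2 * η := by
      intro t2 ht2
      by_contra hc
      push Not at hc
      have hv1' : φ t1 ≤ η := hv1.le
      rcases le_total t1 t2 with h12 | h12
      · obtain ⟨s, t, c1, c2, c3, c4, c5, c6⟩ := C3b_cross hφc h12 hv1' hc (by linarith)
        refine hnocross s t (ht1.1.trans c1) c2 (c3.trans ht2.2) c6 ?_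
        rw [c4, c5, show 2 * η - η = η by ring, abs_of_pos hη0]
      · obtain ⟨s, t, c1, c2, c3, c4, c5, c6⟩ := C3b_cross (φ := fun r => -φ r) hφc.neg h12
          (p := -(2 * η)) (q := -η) (by linarith) (by linarith) (by linarith)
        refine hnocross s t (ht2.1.trans c1) c2 (c3.trans ht1.2)
          (fun r hr => ⟨by linarith [(c6 r hr).2], by linarith [(c6 r hr).1]⟩) ?_
        have e1 : φ s = 2 * η := by linarith
        have e2 : φ t = η := by linarith
        rw [e1, e2, show η - 2 * η = -η by ring, abs_neg, abs_of_pos hη0]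
    have hend : ∀ t ∈ Icc p q, ∃ n : Fin d → ℤ, ‖T t + v + lv D.b n‖ ≤ ρ + 2 * η := by
      intro t ht
      obtain ⟨z', hz', hd⟩ := (Metric.infDist_lt_iff hne).1 (hsmall t ht)
      obtain ⟨n, hn⟩ := hρ hz'
      refine ⟨n, ?_⟩
      have e : T t + v + lv D.b n = (T t + v - z') + (z' + lv D.b n) := by abel
      rw [e]
      refine (norm_add_le _ _).trans ?_
      rw [dist_eq_norm] at hd
      linarith
    obtain ⟨n1, hn1⟩ := hend p ⟨le_rfl, hpq⟩
    obtain ⟨n2, hn2⟩ := hend q ⟨hpq, le_rfl⟩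
    refine ⟨n2 - n1, ?_⟩
    have e : T q + lv D.b (n2 - n1) - T p = (T q + v + lv D.b n2) - (T p + v + lv D.b n1) := by
      rw [C3b_lv_sub]
      abel
    rw [e]
    refine (norm_sub_le _ _).trans ?_
    linarith

/-- the excess is a continuous function of the end point -/
theorem C3b_ex_cont (h : D.Ok0) {u : ℝ → E} (hu : Adm u) (a : ℝ) (z : E) (p : ℝ) :
    Continuous (fun q => C3b_ex D a z u p q) := by
  have h1 : Continuous (fun q => ∫ r in p..q, D.F (traj a z u r) (u r)) :=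
    intervalIntegral.continuous_primitive (fun a' b' => A5a_ii h.fins hu a z a' b') p
  have h2 : Continuous D.B := by
    refine (LipschitzWith.of_dist_le_mul (K := ⟨D.MF, h.fins.mF_pos.le.trans h.fins.mF_le⟩)
      fun x y => ?_).continuous
    rw [Real.dist_eq, dist_eq_norm]
    exact Cal.lip h.fins h.cal x y
  exact h1.sub ((h2.comp (traj_cont hu a z)).sub continuous_const)

theorem C3b_global (h : D.Ok0) {dl r1 : ℝ} (hr1 : 0 ≤ r1) (hdl : 0 < dl) {u : ℝ → E} (hu : Adm u)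
    (a : ℝ) (z : E)
    (H : ∀ p q : ℝ, p ≤ q → C3b_ex D a z u p q ≤ dl →
      ∃ n : Fin d → ℤ, ‖traj a z u q + lv D.b n - traj a z u p‖ ≤ r1) (N : ℕ) :
    ∀ p q : ℝ, p ≤ q → C3b_ex D a z u p q ≤ N * dl →
      ∃ n : Fin d → ℤ, ‖traj a z u q + lv D.b n - traj a z u p‖ ≤ (N + 1) * r1 := by
  induction N with
  | zero =>
    intro p q hpq hex
    obtain ⟨n, hn⟩ := H p q hpq (hex.trans (by push_cast; linarith))
    exact ⟨n, hn.trans (by push_cast; linarith)⟩
  | succ N ih =>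
    intro p q hpq hex
    rcases le_or_gt (C3b_ex D a z u p q) dl with hc | hc
    · obtain ⟨n, hn⟩ := H p q hpq hc
      refine ⟨n, hn.trans ?_⟩
      push_cast
      have : (0:ℝ) ≤ N := by positivity
      nlinarith
    · have h0 : C3b_ex D a z u p p = 0 := by simp [C3b_ex]
      obtain ⟨t, ht, het⟩ := intermediate_value_Icc hpq (C3b_ex_cont h hu a z p).continuousOn
        (show dl ∈ Icc (C3b_ex D a z u p p) (C3b_ex D a z u p q) from ⟨by rw [h0]; exact hdl.le, hc.le⟩)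
      have het' : C3b_ex D a z u p t = dl := het
      obtain ⟨n1, hn1⟩ := H p t ht.1 het'.le
      have e1 := C3b_ex_add h hu a z p t q
      obtain ⟨n2, hn2⟩ := ih t q ht.2 (by
        push_cast at hex
        linarith)
      refine ⟨n1 + n2, ?_⟩
      have e : traj a z u q + lv D.b (n1 + n2) - traj a z u p =
          (traj a z u q + lv D.b n2 - traj a z u t) + (traj a z u t + lv D.b n1 - traj a z u p) := by
        rw [A5a_lv_add]
        abel
      rw [e]
      refine (norm_add_le _ _).trans ?_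
      push_cast
      linarith

/-- passing costs tend to infinity modulo the fast lattice -/
theorem coer (h : D.Ok0) (C : ℝ) : ∃ ρ : ℝ, ∀ w, D.j D.q0 w ≤ C → w ∈ D.X ρ := by
  obtain ⟨dl, r1, hdl, hr1, H⟩ := C3b_local h
  obtain ⟨N, hN⟩ := exists_nat_ge ((C + 2) / dl)
  rw [div_le_iff₀ hdl] at hN
  refine ⟨(N + 1) * r1 + ‖D.q0‖, fun w hw => ?_⟩
  obtain ⟨n, hn⟩ := exists_j_lt h D.q0 w one_pos
  obtain ⟨u, hu, hend, -, hlen⟩ := exists_path_fd h.fins one_pos D.q0 (w + lv D.b n)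
  have h0 : traj 0 D.q0 u 0 = D.q0 := by simp [traj]
  have hex : C3b_ex D 0 D.q0 u 0 1 ≤ N * dl := by
    unfold C3b_ex
    rw [hend, h0]
    linarith
  obtain ⟨n', hn'⟩ := C3b_global h hr1 hdl hu 0 D.q0 (H D.q0 u hu 0) N 0 1 zero_le_one hex
  rw [hend, h0] at hn'
  refine ⟨n + n', ?_⟩
  have e : w + lv D.b (n + n') = (w + lv D.b n + lv D.b n' - D.q0) + D.q0 := by
    rw [A5a_lv_add]
    abel
  rw [e]
  exact (norm_add_le _ _).trans (add_le_add_left hn' _)

end EscG
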