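import Pool.Agent.EscG.BDefs
import Pool.Agent.EscG.C2
import Pool.Agent.EscG.C3
import Pool.Agent.EscG.C3b
import Pool.Agent.EscG.B2

/-!
Module B3 of project EscG: the choice of the slow lattice vector and the gate inequalities for the gap of
a calibrated closed curve.
-/

set_option linter.unusedSectionVars false

noncomputable section

namespace EscG

open MeasureTheory Set Filter Topology Esc EscF
open scoped ContDiff

section B3

variable {ι : Type} [Fintype ι] {d : ℕ} {E : Type*} [NormedAddCommGroup E] [InnerProductSpace ℝ E]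
  [FiniteDimensional ℝ E] {D : GD ι d E}

theorem B3_lv_neg (b : Fin d → E) (n : Fin d → ℤ) : lv b (-n) = -lv b n := by
  simp only [lv, Pi.neg_apply, Int.cast_neg, neg_smul, Finset.sum_neg_distrib]

theorem B3_lv_sub (b : Fin d → E) (n n' : Fin d → ℤ) : lv b (n - n') = lv b n - lv b n' := by
  simp only [lv, Pi.sub_apply, Int.cast_sub, sub_smul, Finset.sum_sub_distrib]

theorem B3_neg {v : E} (hv : D.InJ v) : D.InJ (-v) := by
  obtain ⟨n, rfl⟩ := hv
  exact ⟨-n, (B3_lv_neg D.b n).symm⟩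

theorem B3_sub {v w : E} (hv : D.InJ v) (hw : D.InJ w) : D.InJ (v - w) := by
  obtain ⟨n, rfl⟩ := hv
  obtain ⟨n', rfl⟩ := hw
  exact ⟨n - n', (B3_lv_sub D.b n n').symm⟩

theorem B3_lv_Lam (h : D.Ok0) (n : Fin d → ℤ) : lv D.b n ∈ D.Lam := by
  refine AddSubgroup.sum_mem _ fun i _ => ?_
  obtain ⟨k, hk⟩ := h.bβ i
  rw [hk, Int.cast_smul_eq_zsmul]
  exact AddSubgroup.zsmul_mem _ (Submodule.subset_span (Set.mem_range_self k)) _

/-- the cheapest slow lattice vector -/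
theorem B3_exists_min (h : D.Ok0) (hne : ∃ v ∈ D.Lam, ¬ D.InJ v) : ∃ g ∈ D.Lam, ¬ D.InJ g ∧
    0 < D.j D.q0 (D.q0 + g) ∧ ∀ v ∈ D.Lam, ¬ D.InJ v → D.j D.q0 (D.q0 + g) ≤ D.j D.q0 (D.q0 + v) := by
  obtain ⟨v1, hv1, hv1J⟩ := hne
  obtain ⟨ρ, hρ⟩ := coer h (D.j D.q0 (D.q0 + v1))
  obtain ⟨δ, hδ, hsep⟩ := exists_sep h
  obtain ⟨e, he, hsh⟩ := shellZ h hδ
  -- reduction modulo the fast lattice
  have hred : ∀ v ∈ D.Lam, ¬ D.InJ v → D.j D.q0 (D.q0 + v) ≤ D.j D.q0 (D.q0 + v1) →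
      ∃ v' ∈ D.Lam, ¬ D.InJ v' ∧ v' ∈ Metric.closedBall (-D.q0) ρ ∧
        D.j D.q0 (D.q0 + v') = D.j D.q0 (D.q0 + v) := by
    intro v hv hvJ hle
    obtain ⟨n, hn⟩ := hρ _ hle
    refine ⟨v + lv D.b n, D.Lam.add_mem hv (B3_lv_Lam h n), ?_, ?_, ?_⟩
    · intro hJ
      apply hvJ
      have := B3_sub hJ ⟨n, rfl⟩
      rwa [add_sub_cancel_right] at this
    · rw [Metric.mem_closedBall, dist_eq_norm, sub_neg_eq_add]
      rwa [show v + lv D.b n + D.q0 = D.q0 + v + lv D.b n by abel]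
    · have h0 : D.j (D.q0 + lv D.b 0) (D.q0 + v + lv D.b n) = D.j D.q0 (D.q0 + v) := j_J h _ _ _ _
      have h1 : lv D.b 0 = 0 := by simp [lv]
      rw [h1, add_zero] at h0
      rw [← h0, add_assoc]
  let S : Set E := {v | v ∈ D.Lam ∧ ¬ D.InJ v ∧ v ∈ Metric.closedBall (-D.q0) ρ}
  have hfin : S.Finite := by
    refine (ZSpan.setFinite_inter D.β (Metric.isBounded_closedBall (x := -D.q0) (r := ρ))).subset ?_
    rintro v ⟨hv, -, hb⟩
    exact ⟨hb, hv⟩
  obtain ⟨v2, hv2, hv2J, hv2b, hv2e⟩ := hred v1 hv1 hv1J le_rfl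
  obtain ⟨g, ⟨hg, hgJ, hgb⟩, hmin⟩ := Set.exists_min_image S (fun v => D.j D.q0 (D.q0 + v)) hfin
    ⟨v2, hv2, hv2J, hv2b⟩
  refine ⟨g, hg, hgJ, ?_, ?_⟩
  · have h1 := (hsh D.q0 (D.q0 + g) h.q0_mem (hsep g hg hgJ D.q0 h.q0_mem)).1
    linarith
  · intro v hv hvJ
    rcases le_total (D.j D.q0 (D.q0 + v)) (D.j D.q0 (D.q0 + v1)) with h1 | h1
    · obtain ⟨v', hv', hvJ', hvb', hve'⟩ := hred v hv hvJ h1
      rw [← hve']
      exact hmin v' ⟨hv', hvJ', hvb'⟩
    · have h2 := hmin v2 ⟨hv2, hv2J, hv2b⟩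
      rw [hv2e] at h2
      exact h2.trans h1

/-- the gate inequalities when the exit and the entrance coincide and `g` is the cheapest vector -/
theorem B3_ok (h : D.Ok0) (h01 : D.q1 = D.q0) (hg : D.g ∈ D.Lam) (hgJ : ¬ D.InJ D.g)
    (hU : 0 < D.j D.q0 (D.q0 + D.g))
    (hmin : ∀ v ∈ D.Lam, ¬ D.InJ v → D.j D.q0 (D.q0 + D.g) ≤ D.j D.q0 (D.q0 + v)) : D.Ok := by
  have hP : ∀ a ∈ D.P0, a = D.q0 := by
    intro a ha
    rcases ha with rfl | ha
    · rfl
    · rw [Set.mem_singleton_iff] at ha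
      rw [ha, h01]
  have h0 := j_self h D.q0
  have hJ : ∀ (x x' : E) (n : Fin d → ℤ), D.j (x + lv D.b n) x' = D.j x x' := by
    intro x x' n
    have h1 : D.j (x + lv D.b n) (x' + lv D.b 0) = D.j x x' := j_J h _ _ _ _
    have h2 : lv D.b (0 : Fin d → ℤ) = 0 := by simp [lv]
    rwa [h2, add_zero] at h1
  have hJ' : ∀ (x x' : E) (n : Fin d → ℤ), D.j x (x' + lv D.b n) = D.j x x' := by
    intro x x' n
    have h1 : D.j (x + lv D.b 0) (x' + lv D.b n) = D.j x x' := j_J h _ _ _ _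
    have h2 : lv D.b (0 : Fin d → ℤ) = 0 := by simp [lv]
    rwa [h2, add_zero] at h1
  refine ⟨h, hg, hgJ, ?_, ?_⟩
  · intro η hη
    obtain ⟨e, he, hsh⟩ := shellZ h hη
    refine ⟨e, he, fun w hw p hp p' hp' => ?_⟩
    rw [hP p hp, hP p' hp', h0]
    have h1 := (hsh D.q0 w h.q0_mem hw).1
    have h2 := j_nonneg h w D.q0
    linarith
  · intro η hη
    obtain ⟨e1, he1, hsh⟩ := shell h hη
    refine ⟨min (D.j D.q0 (D.q0 + D.g) / 2) e1, lt_min (by linarith) he1, ?_⟩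
    rintro w ⟨hwO, hw⟩
    have hm1 := min_le_left (D.j D.q0 (D.q0 + D.g) / 2) e1
    have hm2 := min_le_right (D.j D.q0 (D.q0 + D.g) / 2) e1
    set e : ℝ := min (D.j D.q0 (D.q0 + D.g) / 2) e1 with he
    rw [h01] at hw
    have hUe : D.U = D.j D.q0 (D.q0 + D.g) := by
      unfold GD.U
      rw [h01]
    rw [hUe] at hw
    refine ⟨?_, ?_, ?_, ?_⟩
    · intro x _
      left
      rw [h01, h0]
      linarith
    · intro x _
      left
      rw [h01, h0]
      linarith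
    · intro v hv hvJ a ha x hx
      rw [hP a ha, hP x hx, h0]
      by_cases hvg : D.InJ (v - D.g)
      · obtain ⟨n, hn⟩ := hvg
        have hv' : v = D.g + lv D.b n := by rw [← hn]; abel
        have h1 : D.j D.q0 (D.q0 + v) = D.j D.q0 (D.q0 + D.g) := by
          rw [hv', ← add_assoc, hJ']
        have h2 : D.j (D.q0 + v) w = D.j (D.q0 + D.g) w := by
          rw [hv', ← add_assoc, hJ]
        obtain ⟨h3, h4⟩ := hsh (D.q0 + D.g) w hwO ⟨-D.g, D.Lam.neg_mem hg, by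
          rw [add_neg_cancel_right]; exact h.q0_mem⟩
        rw [h1, h2]
        linarith
      · have hgv : ¬ D.InJ (D.g - v) := by
          intro hc
          apply hvg
          have := B3_neg hc
          rwa [neg_sub] at this
        have h1 := hmin v hv hvJ
        have h2 := hmin (D.g - v) (D.Lam.sub_mem hg hv) hgv
        have h3 : D.j (D.q0 + v) (D.q0 + D.g) = D.j D.q0 (D.q0 + (D.g - v)) := by
          rw [← j_Lam h hv D.q0 (D.q0 + (D.g - v))]
          congr 1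
          abel
        have h4 := j_tri h (D.q0 + v) w (D.q0 + D.g)
        linarith
    · intro v hv hvJ a ha x hx
      rw [hP a ha, hP x hx, h01, h0]
      by_cases hvg : D.InJ (v + D.g)
      · obtain ⟨n, hn⟩ := hvg
        have h1 : D.j w (D.q0 + v + D.g) = D.j w D.q0 := by
          rw [add_assoc, hn, hJ']
        have h2 : D.j (D.q0 + v) D.q0 = D.j D.q0 (D.q0 + D.g) := by
          rw [← j_Lam h hg (D.q0 + v) D.q0, add_assoc, hn, hJ]
        obtain ⟨h3, h4⟩ := hsh D.q0 w hwO ⟨0, D.Lam.zero_mem, by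
          rw [add_zero]; exact h.q0_mem⟩
        rw [h1, h2]
        linarith
      · have hvn : ¬ D.InJ (-v) := by
          intro hc
          apply hvJ
          have := B3_neg hc
          rwa [neg_neg] at this
        have h1 := hmin (v + D.g) (D.Lam.add_mem hv hg) hvg
        have h2 := hmin (-v) (D.Lam.neg_mem hv) hvn
        have h3 : D.j (D.q0 + v) D.q0 = D.j D.q0 (D.q0 + -v) := by
          rw [← j_Lam h hv D.q0 (D.q0 + -v), neg_add_cancel_right]
        have h4 := j_tri h D.q0 w (D.q0 + (v + D.g))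
        rw [← add_assoc] at h4 h1
        linarith

end B3

variable {ι : Type} [Fintype ι] {E : Type*} [NormedAddCommGroup E] [InnerProductSpace ℝ E]
  [FiniteDimensional ℝ E] {β : Module.Basis ι ℝ E} {F : E → E → ℝ} {mF MF : ℝ} {B : E → ℝ} {k0 : ι}
  {len : ℝ} {c c' : ℝ → E}

theorem gdC_ok (h : CalC β F mF MF B k0 len c c') {k1 : ι} (hk : k1 ≠ k0) :
    ∃ g : E, (gdC β F mF MF B k0 len c g).Ok := by
  have hne : ∃ v ∈ (gdC β F mF MF B k0 len c 0).Lam, ¬ (gdC β F mF MF B k0 len c 0).InJ v := by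
    refine ⟨β k1, Submodule.subset_span (Set.mem_range_self k1), ?_⟩
    rintro ⟨n, hn⟩
    have h1 : β k1 = ((n 0 : ℤ) : ℝ) • β k0 := by
      rw [hn]
      simp [lv, gdC]
    have h2 := congrArg (fun v => β.repr v k1) h1
    simp only [Module.Basis.repr_self, map_smul, Finsupp.smul_apply, Finsupp.single_eq_same] at h2
    rw [Finsupp.single_eq_of_ne hk] at h2
    simp at h2
  obtain ⟨g, hg, hgJ, hU, hmin⟩ := B3_exists_min (gdC_ok0 h 0) hne
  exact ⟨g, B3_ok (gdC_ok0 h g) rfl hg hgJ hU hmin⟩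

end EscG
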