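import Pool.Agent.EscG.CDefs

/-!
Project EscG (MP_6acca1_an), application B: a closed geodesic calibrated by a closed one-form, in all
dimensions. Definitions.
-/

noncomputable section

namespace EscG

open MeasureTheory Set Filter Topology Esc EscF
open scoped ContDiff

variable {ι : Type} [Fintype ι] {E : Type*} [NormedAddCommGroup E] [InnerProductSpace ℝ E]

/-- The closed one-form `dB` is bounded by the metric `F`, and they agree for some nonzero vector
exactly at the points of the simple closed curve `c` with homology class `β k0` (a basis vector of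
the lattice). -/
structure CalC (β : Module.Basis ι ℝ E) (F : E → E → ℝ) (mF MF : ℝ) (B : E → ℝ) (k0 : ι) (len : ℝ)
    (c c' : ℝ → E) : Prop where
  fins : Fins β F mF MF
  smooth : ContDiff ℝ 1 B
  per : ∀ i, ∃ a : ℝ, ∀ x, B (x + β i) = B x + a
  le : ∀ x v, fderiv ℝ B x v ≤ F x v
  len_pos : 0 < len
  hasDeriv : ∀ t, HasDerivAt c (c' t) t
  contDeriv : Continuous c'
  closed : ∀ t, c (t + len) = c t + β k0
  unit : ∀ t, F (c t) (c' t) = 1
  cal : ∀ t, fderiv ℝ B (c t) (c' t) = 1
  only : ∀ x v, v ≠ 0 → fderiv ℝ B x v = F x v →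
    ∃ t : ℝ, ∃ w ∈ Submodule.span ℤ (Set.range β), x = c t + w
  simple : ∀ s t, c s - c t ∈ Submodule.span ℤ (Set.range β) → ∃ k : ℤ, s - t = k * len

/-- the gap data of a calibrated closed curve -/
def gdC (β : Module.Basis ι ℝ E) (F : E → E → ℝ) (mF MF : ℝ) (B : E → ℝ) (k0 : ι) (len : ℝ)
    (c : ℝ → E) (g : E) : GD ι 1 E where
  β := β
  b := fun _ => β k0
  F := F
  mF := mF
  MF := MF
  B := B
  c := fun _ => len
  Z := Set.range c
  q0 := c 0
  q1 := c 0
  g := g

end EscG
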