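import Pool.Agent.EscG.CDefs
import Pool.Agent.EscG.AIfc
import Pool.Agent.helper1.Esc.ModD

/-!
INTERFACE of the core of project EscG. All statements with sorry; every module proves its statements in
its own file (same names, namespace EscG). Never import this file in a final module.
-/

noncomputable section

namespace EscG

open MeasureTheory Set Filter Topology Esc EscF
open scoped ContDiff

variable {ι : Type} [Fintype ι] {d : ℕ} {E : Type*} [NormedAddCommGroup E] [InnerProductSpace ℝ E]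
  [FiniteDimensional ℝ E] {D : GD ι d E} {p : GP} {m M Mf : ℝ} {ll l : E → E → ℝ → ℝ}
  {f f' : E → ℝ → ℝ}

/-! ## MODULE C1 (C1.lean): energy distance -/

theorem fd_nonneg (F : E → E → ℝ) (x x' : E) : 0 ≤ fd F x x' := sorry
theorem fd_le {β : Module.Basis ι ℝ E} {F : E → E → ℝ} {mF MF : ℝ} (hF : Fins β F mF MF) (x x' : E) :
    fd F x x' ≤ MF * ‖x' - x‖ := sorry
theorem le_fd {β : Module.Basis ι ℝ E} {F : E → E → ℝ} {mF MF : ℝ} (hF : Fins β F mF MF) (x x' : E) :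
    mF * ‖x' - x‖ ≤ fd F x x' := sorry
theorem fd_tri {β : Module.Basis ι ℝ E} {F : E → E → ℝ} {mF MF : ℝ} (hF : Fins β F mF MF) (x y z : E) :
    fd F x z ≤ fd F x y + fd F y z := sorry
theorem fd_shift {F : E → E → ℝ} (v : E) (h : ∀ x u, F (x + v) u = F x u) (x x' : E) :
    fd F (x + v) (x' + v) = fd F x x' := sorry
/-- lower bound of the energy -/
theorem fd_sq_le {β : Module.Basis ι ℝ E} {F : E → E → ℝ} {mF MF : ℝ} (hF : Fins β F mF MF) {t t' : ℝ}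
    (htt : t < t') (z : E) {u : ℝ → E} (hu : Adm u) :
    fd F z (traj t z u t') ^ 2 ≤ (t' - t) * ∫ r in t..t', F (traj t z u r) (u r) ^ 2 := sorry
/-- paths of almost minimal energy -/
theorem exists_energy {β : Module.Basis ι ℝ E} {F : E → E → ℝ} {mF MF : ℝ} (hF : Fins β F mF MF)
    {t t' ε : ℝ} (htt : t < t') (hε : 0 < ε) (z z' : E) : ∃ u : ℝ → E, Adm u ∧ traj t z u t' = z' ∧
      (t' - t) * ∫ r in t..t', F (traj t z u r) (u r) ^ 2 ≤ fd F z z' ^ 2 + ε := sorry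
/-- points on paths of almost minimal energy are almost on a geodesic; their length is almost minimal -/
theorem exists_path_fd {β : Module.Basis ι ℝ E} {F : E → E → ℝ} {mF MF : ℝ} (hF : Fins β F mF MF)
    {ε : ℝ} (hε : 0 < ε) (z z' : E) : ∃ u : ℝ → E, Adm u ∧ traj 0 z u 1 = z' ∧
      (∀ t ∈ Icc (0:ℝ) 1, fd F z (traj 0 z u t) + fd F (traj 0 z u t) z' ≤ fd F z z' + ε) ∧
      ∫ r in (0:ℝ)..1, F (traj 0 z u r) (u r) ≤ fd F z z' + ε := sorry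

/-! ## MODULE C2 (C2.lean): passing costs -/

theorem B_le_fd (h : D.Ok0) (x x' : E) : D.B x' - D.B x ≤ fd D.F x x' := sorry
theorem j_le (h : D.Ok0) (x x' : E) (n : Fin d → ℤ) :
    D.j x x' ≤ fd D.F x (x' + lv D.b n) - (D.B (x' + lv D.b n) - D.B x) := sorry
theorem exists_j_lt (h : D.Ok0) (x x' : E) {ε : ℝ} (hε : 0 < ε) : ∃ n : Fin d → ℤ,
    fd D.F x (x' + lv D.b n) - (D.B (x' + lv D.b n) - D.B x) < D.j x x' + ε := sorry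
theorem j_nonneg (h : D.Ok0) (x x' : E) : 0 ≤ D.j x x' := sorry
theorem j_tri (h : D.Ok0) (x y z : E) : D.j x z ≤ D.j x y + D.j y z := sorry
theorem j_J (h : D.Ok0) (x x' : E) (n n' : Fin d → ℤ) : D.j (x + lv D.b n) (x' + lv D.b n') = D.j x x' :=
  sorry
theorem j_Lam (h : D.Ok0) {v : E} (hv : v ∈ D.Lam) (x x' : E) : D.j (x + v) (x' + v) = D.j x x' := sorry
theorem j_lip (h : D.Ok0) (x x' : E) : D.j x x' ≤ 2 * D.MF * ‖x' - x‖ := sorry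
theorem j_self (h : D.Ok0) (x : E) : D.j x x = 0 := sorry

/-! ## MODULE C3 (C3.lean): exact passing at the frontier of the zone -/

theorem pass0 (h : D.Ok0) {x c : E} (hx : x ∈ D.Z) (hc : c ∉ D.Z) :
    ∃ q ∈ D.P0, D.j x q + D.j q c ≤ D.j x c := sorry
theorem pass1 (h : D.Ok0) {x c : E} (hx : x ∈ D.Z) (hc : c ∉ D.Z) :
    ∃ q ∈ D.P0, D.j c q + D.j q x ≤ D.j c x := sorry
theorem near (h : D.Ok0) {x : E} {η : ℝ} (hx : x ∉ D.Z) (hη : Metric.infDist x D.Z ≤ η) :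
    ∃ q ∈ D.P0, D.j x q + D.j q x ≤ 4 * D.MF * η := sorry
/-- near the frontier of a translate of the zone -/
theorem nearP (h : D.Ok0) {x v : E} {η : ℝ} (hv : v ∈ D.Lam) (hx : x + v ∉ D.Z)
    (hη : Metric.infDist (x + v) D.Z ≤ η) :
    ∃ q ∈ D.P0, ∃ v' ∈ D.Lam, D.j x (q + v') + D.j (q + v') x ≤ 4 * D.MF * η := sorry
/-- crossing the shell costs -/
theorem shell (h : D.Ok0) {η : ℝ} (hη : 0 < η) : ∃ e : ℝ, 0 < e ∧ ∀ x w : E, w ∈ D.Out η →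
    (∃ v ∈ D.Lam, x + v ∈ D.Z) → e ≤ D.j x w ∧ e ≤ D.j w x := sorry

/-- the same for the zone alone -/
theorem shellZ (h : D.Ok0) {η : ℝ} (hη : 0 < η) : ∃ e : ℝ, 0 < e ∧ ∀ x w : E, x ∈ D.Z →
    η ≤ Metric.infDist w D.Z → e ≤ D.j x w ∧ e ≤ D.j w x := sorry

/-! ## MODULE C3b (C3b.lean): coercivity -/

/-- separation of the translates of the zone -/
theorem exists_sep (h : D.Ok0) : ∃ δ : ℝ, 0 < δ ∧ ∀ v ∈ D.Lam, ¬ D.InJ v → ∀ x ∈ D.Z,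
    δ ≤ Metric.infDist (x + v) D.Z := sorry
/-- passing costs tend to infinity modulo the fast lattice -/
theorem coer (h : D.Ok0) (C : ℝ) : ∃ ρ : ℝ, ∀ w, D.j D.q0 w ≤ C → w ∈ D.X ρ := sorry

/-! ## MODULE C4 (C4.lean): parameters -/

theorem exists_par (h : D.Ok) : ∃ p : GP, p.Ok D := sorry
/-- elementary consequences -/
theorem R_closed (h : D.Ok) : IsClosed (D.R p) := sorry
theorem C_compact (h : D.Ok) : IsCompact (D.C p) := sorry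
theorem C_sub : D.C p ⊆ D.R p := sorry
theorem R_red (h : D.Ok) (hp : p.Ok D) {x : E} (hx : x ∈ D.R p) : ∃ n, x + lv D.b n ∈ D.C p := sorry
theorem R_J (h : D.Ok) {x : E} (hx : x ∈ D.R p) (n : Fin d → ℤ) : x + lv D.b n ∈ D.R p := sorry
theorem q0_R (h : D.Ok) (hp : p.Ok D) : D.q0 ∈ D.R p := sorry
theorem q1_R (h : D.Ok) (hp : p.Ok D) : D.q1 ∈ D.R p := sorry
theorem C_ne (h : D.Ok) (hp : p.Ok D) : (D.C p).Nonempty := sorry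
theorem Mg_closed (h : D.Ok) (η κ : ℝ) : IsClosed (D.Mg η κ) := sorry
theorem Mg_J (h : D.Ok) {η κ : ℝ} {w : E} (hw : w ∈ D.Mg η κ) (n : Fin d → ℤ) : w + lv D.b n ∈ D.Mg η κ :=
  sorry
/-- a neighbourhood of the inner gate points consists of gate points -/
theorem Mi_nhd (h : D.Ok) (hp : p.Ok D) : ∃ ρ0 : ℝ, 0 < ρ0 ∧ ∀ w ∈ D.Mi p, ∀ z, ‖z - w‖ ≤ ρ0 → z ∈ D.Md p :=
  sorry
/-- two points of the room which differ by a lattice vector and a small vector -/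
theorem R_sep (h : D.Ok) (hp : p.Ok D) {x x' v : E} (hv : v ∈ D.Lam) (hx : x ∈ D.R p) (hx' : x' ∈ D.R p)
    (hxx : ‖x - (x' + v)‖ ≤ p.ηc) : D.InJ v := sorry

/-! ## MODULE C5 (C5.lean): inequalities for the passing cost with collars (`4 * D.MF * p.η1` is the error) -/

theorem coll0 (h : D.Ok) (hp : p.Ok D) {x c : E} (hx : x ∈ D.R p) (hc : c ∉ D.R p) :
    ∃ q ∈ D.P0, D.j x q + D.j q c ≤ D.j x c + 4 * D.MF * p.η1 := sorry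
theorem coll1 (h : D.Ok) (hp : p.Ok D) {x c : E} (hx : x ∈ D.R p) (hc : c ∉ D.R p) :
    ∃ q ∈ D.P0, D.j c q + D.j q x ≤ D.j c x + 4 * D.MF * p.η1 := sorry
theorem rtg (h : D.Ok) (hp : p.Ok D) {x x' c : E} (hx : x ∈ D.R p) (hx' : x' ∈ D.R p)
    (hc : p.ηc / 4 ≤ Metric.infDist c D.Z) :
    ∃ q ∈ D.P0, D.j x q + D.j q x' + p.e ≤ D.j x c + D.j c x' + 2 * (4 * D.MF * p.η1) := sorry
theorem no0g (h : D.Ok) (hp : p.Ok D) {x w : E} (hx : x ∈ D.R p) (hw : w ∈ D.Mg (p.ηc / 2) (2 * p.κ))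
    {v : E} (hv : v ∈ D.Lam) (hvJ : ¬ D.InJ v) {a : E} (ha : a ∈ D.P0) :
    D.j x D.q0 + D.j D.q0 w + p.e ≤ D.j x (a + v) + D.j (a + v) w + 4 * D.MF * p.η1 := sorry
theorem no1g (h : D.Ok) (hp : p.Ok D) {x w : E} (hx : x ∈ D.R p) (hw : w ∈ D.Mg (p.ηc / 2) (2 * p.κ))
    {v : E} (hv : v ∈ D.Lam) (hvJ : ¬ D.InJ v) {a : E} (ha : a ∈ D.P0) :
    D.j w (D.q1 + D.g) + D.j D.q1 x + p.e ≤ D.j w (a + v + D.g) + D.j (a + v) x + 4 * D.MF * p.η1 := sorry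
theorem ex0g (h : D.Ok) (hp : p.Ok D) {x w : E} (hx : x ∈ D.R p) (hw : w ∈ D.Mg (p.ηc / 2) (2 * p.κ)) :
    D.j x D.q0 + D.j D.q0 w ≤ D.j x w + 4 * D.MF * p.η1 := sorry
theorem ex1g (h : D.Ok) (hp : p.Ok D) {x w : E} (hx : x ∈ D.R p) (hw : w ∈ D.Mg (p.ηc / 2) (2 * p.κ)) :
    D.j w (D.q1 + D.g) + D.j D.q1 x ≤ D.j w (x + D.g) + 4 * D.MF * p.η1 := sorry

/-- passage of a point `c` outside of the room on the way to the gate point `w` -/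
theorem exg0 (h : D.Ok) (hp : p.Ok D) {x c w : E} (hx : x ∈ D.R p) (hw : w ∈ D.Mg (p.ηc / 2) (2 * p.κ))
    (hc : p.ηc / 2 ≤ Metric.infDist c D.Z) :
    D.j x D.q0 + D.j D.q0 c ≤ D.j x c + 4 * D.MF * p.η1 ∨
      D.j x D.q0 + D.j D.q0 w + p.e ≤ D.j x c + D.j c w + 4 * D.MF * p.η1 := sorry
theorem exg1 (h : D.Ok) (hp : p.Ok D) {x c w : E} (hx : x ∈ D.R p) (hw : w ∈ D.Mg (p.ηc / 2) (2 * p.κ))
    (hc : p.ηc / 2 ≤ Metric.infDist (c - D.g) D.Z) :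
    D.j c (D.q1 + D.g) + D.j D.q1 x ≤ D.j c (x + D.g) + 4 * D.MF * p.η1 ∨
      D.j w (D.q1 + D.g) + D.j D.q1 x + p.e ≤ D.j w c + D.j c (x + D.g) + 4 * D.MF * p.η1 := sorry

/-! ## MODULE C6 (C6.lean): kernels against passing costs -/

theorem kk_ge (h : D.Ok) (hl : TL D.β D.F D.mF D.MF m M ll) {s : ℝ} (hs : 0 ≤ s) {t t' : ℝ}
    (htt : t < t') (x x' : E) : s * D.j x x' - M * (t' - t) ≤ D.kk ll s t t' x x' := sorry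
/-- fast crossing of a distance is expensive -/
theorem kk_ge_fast (h : D.Ok) (hl : TL D.β D.F D.mF D.MF m M ll) {s : ℝ} (hs : 0 ≤ s) {t t' δ : ℝ}
    (htt : t < t') (x x' : E) (hd : ∀ n : Fin d → ℤ, δ ≤ ‖x' + lv D.b n - x‖)
    (hδ : s * (t' - t) ≤ D.mF * δ) :
    (D.mF * δ - s * (t' - t)) ^ 2 / (2 * (t' - t)) - M * (t' - t) ≤ D.kk ll s t t' x x' := sorry
theorem kk_add (h : D.Ok) (hl : TL D.β D.F D.mF D.MF m M ll) {s : ℝ} (hs : 0 ≤ s) {t t' t'' : ℝ}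
    (htt : t < t') (htt' : t' < t'') (x y z : E) :
    D.kk ll s t t'' x z ≤ D.kk ll s t t' x y + D.kk ll s t' t'' y z := sorry
theorem kk_J (h : D.Ok) (hl : TL D.β D.F D.mF D.MF m M ll) (s t t' : ℝ) (x x' : E)
    (n n' : Fin d → ℤ) : D.kk ll s t t' (x + lv D.b n) (x' + lv D.b n') = D.kk ll s t t' x x' := sorry
theorem kk_Lam (h : D.Ok) (hl : TL D.β D.F D.mF D.MF m M ll) {v : E} (hv : v ∈ D.Lam) (s t t' : ℝ)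
    (x x' : E) : D.kk ll s t t' (x + v) (x' + v) = D.kk ll s t t' x x' := sorry
theorem kk_time (h : D.Ok) (hl : TL D.β D.F D.mF D.MF m M ll) (k : ℤ) (s t t' : ℝ) (x x' : E) :
    D.kk ll s (t + k) (t' + k) x x' = D.kk ll s t t' x x' := sorry
/-- upper bound of the cost of a control -/
theorem kk_le_cst (h : D.Ok) (hl : TL D.β D.F D.mF D.MF m M ll) {s : ℝ} (hs : 0 ≤ s) {t t' : ℝ}
    (htt : t < t') {x x' : E} {u : ℝ → E} (hu : Adm u) {n : Fin d → ℤ}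
    (hx : traj t x u t' = x' + lv D.b n) : D.kk ll s t t' x x' ≤ D.cst ll s t t' x u := sorry
theorem exists_cst_lt (h : D.Ok) (hl : TL D.β D.F D.mF D.MF m M ll) {s : ℝ} (hs : 0 ≤ s) {t t' ε : ℝ}
    (htt : t < t') (hε : 0 < ε) (x x' : E) : ∃ (u : ℝ → E) (n : Fin d → ℤ), Adm u ∧
      traj t x u t' = x' + lv D.b n ∧ D.cst ll s t t' x u < D.kk ll s t t' x x' + ε := sorry
theorem cst_add (hl : TL D.β D.F D.mF D.MF m M ll) (s : ℝ) {t t' t'' : ℝ} (htt : t ≤ t')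
    (htt' : t' ≤ t'') (x : E) {u : ℝ → E} (hu : Adm u) :
    D.cst ll s t t'' x u = D.cst ll s t t' x u + D.cst ll s t' t'' (traj t x u t') u := sorry
theorem cst_ge (h : D.Ok) (hl : TL D.β D.F D.mF D.MF m M ll) {s : ℝ} (hs : 0 ≤ s) {t t' : ℝ}
    (htt : t ≤ t') (x : E) {u : ℝ → E} (hu : Adm u) :
    s * D.j x (traj t x u t') - M * (t' - t) ≤ D.cst ll s t t' x u := sorry

/-! ## MODULE C7 (C7.lean): near the anchors -/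

/-- lower bound through an anchor if the starting point is outside of the rooms -/
theorem low0 (h : D.Ok) (m M C : ℝ) {ε : ℝ} (hε : 0 < ε) : ∃ s0 : ℝ, 1 ≤ s0 ∧ ∀ s, s0 ≤ s → ∀ ll,
    TL D.β D.F D.mF D.MF m M ll → ∀ t t', 1 / 4 ≤ t' - t → t' - t ≤ 4 → ∀ x x' : E,
    (∀ v ∈ D.Lam, x + v ∉ D.Z) → D.kk ll s t t' x x' ≤ C * s → ∃ q ∈ D.P0, ∃ v ∈ D.Lam,
      s * (D.j x (q + v) + D.j (q + v) x') ≤ D.kk ll s t t' x x' + ε * s := sorry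
/-- the same if the end point is outside of the rooms -/
theorem low1 (h : D.Ok) (m M C : ℝ) {ε : ℝ} (hε : 0 < ε) : ∃ s0 : ℝ, 1 ≤ s0 ∧ ∀ s, s0 ≤ s → ∀ ll,
    TL D.β D.F D.mF D.MF m M ll → ∀ t t', 1 / 4 ≤ t' - t → t' - t ≤ 4 → ∀ x x' : E,
    (∀ v ∈ D.Lam, x' + v ∉ D.Z) → D.kk ll s t t' x x' ≤ C * s → ∃ q ∈ D.P0, ∃ v ∈ D.Lam,
      s * (D.j x (q + v) + D.j (q + v) x') ≤ D.kk ll s t t' x x' + ε * s := sorry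

/-! ## MODULE C8 (C8.lean): upper bound -/

theorem upp (h : D.Ok) (m M ρ : ℝ) {ε : ℝ} (hε : 0 < ε) : ∃ s0 : ℝ, 1 ≤ s0 ∧ ∀ s, s0 ≤ s → ∀ ll,
    TL D.β D.F D.mF D.MF m M ll → ∀ t t', 1 / 4 ≤ t' - t → t' - t ≤ 4 → ∀ x ∈ D.X ρ, ∀ x' ∈ D.X ρ,
    ∀ q ∈ D.P0, D.kk ll s t t' x x' ≤ s * (D.j x q + D.j q x') + ε * s := sorry
/-- hence a linear bound -/
theorem kk_lin (h : D.Ok) (m M ρ : ℝ) : ∃ C s0 : ℝ, 0 ≤ C ∧ 1 ≤ s0 ∧ ∀ s, s0 ≤ s → ∀ ll,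
    TL D.β D.F D.mF D.MF m M ll → ∀ t t', 1 / 4 ≤ t' - t → t' - t ≤ 4 → ∀ x ∈ D.X ρ, ∀ x' ∈ D.X ρ,
    |D.kk ll s t t' x x'| ≤ C * s := sorry

/-! ## MODULE C9 (C9.lean): where minimizers do not go -/

theorem v1 (h : D.Ok) (hp : p.Ok D) (m M : ℝ) : ∃ s0 : ℝ, 1 ≤ s0 ∧ ∀ s, s0 ≤ s → ∀ ll,
    TL D.β D.F D.mF D.MF m M ll → ∀ x ∈ D.R p, ∀ x' ∈ D.R p, ∀ c ∈ D.Out (p.ηc / 2), ∀ t, 0 < t → t < 1 →
    D.k1 ll s x x' + 1 < D.kk ll s 0 t x c + D.kk ll s t 1 c x' := sorry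
theorem v3 (h : D.Ok) (hp : p.Ok D) (m M : ℝ) : ∃ s0 : ℝ, 1 ≤ s0 ∧ ∀ s, s0 ≤ s → ∀ ll,
    TL D.β D.F D.mF D.MF m M ll → ∀ x ∈ D.R p, ∀ w ∈ D.Md p, ∀ r, 0 ≤ r → r ≤ 1 → ∀ t, 1 / 2 ≤ t →
    t ≤ 1 / 2 + r → ∀ c, p.η1 ≤ Metric.infDist c D.Z →
    D.Q ll s r x w + 1 < D.kk ll s 0 t x c + D.kk ll s t (1 + r) c w := sorry
theorem v3' (h : D.Ok) (hp : p.Ok D) (m M : ℝ) : ∃ s0 : ℝ, 1 ≤ s0 ∧ ∀ s, s0 ≤ s → ∀ ll,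
    TL D.β D.F D.mF D.MF m M ll → ∀ x ∈ D.R p, ∀ w ∈ D.Md p, ∀ r, 0 ≤ r → r ≤ 1 → ∀ t, r + 1 / 2 ≤ t →
    t ≤ 3 / 2 → ∀ c, p.η1 ≤ Metric.infDist c D.Z →
    D.P ll s r w x + 1 < D.kk ll s r t (w - D.g) c + D.kk ll s t 2 c x := sorry

/-! ## MODULE C10 (C10.lean): optimal points are not on the boundary of the room -/

theorem lr0 (h : D.Ok) (hp : p.Ok D) (m M : ℝ) : ∃ s0 : ℝ, 1 ≤ s0 ∧ ∀ s, s0 ≤ s → ∀ ll,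
    TL D.β D.F D.mF D.MF m M ll → ∀ x' ∈ D.R p, ∀ x'' ∈ D.R p, ∀ x, Metric.infDist x D.Z = p.η1 →
    ∃ q ∈ D.P0, D.k1 ll s x' q + D.k1 ll s q x'' + 1 ≤ D.k1 ll s x' x + D.k1 ll s x x'' := sorry
theorem lr1 (h : D.Ok) (hp : p.Ok D) (m M : ℝ) : ∃ s0 : ℝ, 1 ≤ s0 ∧ ∀ s, s0 ≤ s → ∀ ll,
    TL D.β D.F D.mF D.MF m M ll → ∀ w ∈ D.Md p, ∀ r, 0 ≤ r → r ≤ 1 → ∀ x'' ∈ D.R p, ∀ x,
    Metric.infDist x D.Z = p.η1 →
    ∃ q ∈ D.P0, D.P ll s r w q + D.k1 ll s q x'' + 1 ≤ D.P ll s r w x + D.k1 ll s x x'' := sorry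
theorem lr2 (h : D.Ok) (hp : p.Ok D) (m M : ℝ) : ∃ s0 : ℝ, 1 ≤ s0 ∧ ∀ s, s0 ≤ s → ∀ ll,
    TL D.β D.F D.mF D.MF m M ll → ∀ w ∈ D.Md p, ∀ r, 0 ≤ r → r ≤ 1 → ∀ x' ∈ D.R p, ∀ x,
    Metric.infDist x D.Z = p.η1 →
    ∃ q ∈ D.P0, D.k1 ll s x' q + D.Q ll s r q w + 1 ≤ D.k1 ll s x' x + D.Q ll s r x w := sorry

/-! ## MODULE C11 (C11.lean): uniform constants for the fine part (fixed speeds) -/

/-- constants on compact sets of speeds, uniform in the potential -/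
theorem kk_unif (h : D.Ok) (hl : TL D.β D.F D.mF D.MF m M l) (hMf : 0 ≤ Mf) (S ρ : ℝ) : ∃ C : ℝ, 0 ≤ C ∧
    ∀ f, Pt D.β f → Good Mf f → ∀ s, 0 ≤ s → s ≤ S → ∀ t t', 1 / 4 ≤ t' - t → t' - t ≤ 4 →
      ∀ z ∈ D.X ρ, ∀ z' ∈ D.X ρ, |D.kk (lf l f) s t t' z z'| ≤ C ∧
        (∀ w ∈ D.X ρ, ∀ w' ∈ D.X ρ, |D.kk (lf l f) s t t' z z' - D.kk (lf l f) s t t' w w'| ≤
          C * (dist z w + dist z' w')) ∧
        ∀ s', 0 ≤ s' → s' ≤ S → |D.kk (lf l f) s t t' z z' - D.kk (lf l f) s' t t' z z'| ≤ C * |s - s'| :=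
  sorry
/-- cost of a curve -/
theorem kk_le_cv (h : D.Ok) (hl : TL D.β D.F D.mF D.MF m M ll) {s : ℝ} (hs : 0 ≤ s) {t t' C : ℝ}
    (htt : t < t') {Z v : ℝ → E} (hv : ∀ r ∈ Icc t t', ∀ r' ∈ Icc t t', ‖v r' - v r‖ ≤ C * |r' - r|)
    (hZ : ∀ r ∈ Icc t t', ∀ r' ∈ Icc t t', Z r' - Z r = ∫ a in r..r', v a) (n : Fin d → ℤ) {x' : E}
    (hx : Z t' = x' + lv D.b n) : D.kk ll s t t' (Z t) x' ≤ D.cv ll s t t' Z v := sorry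
/-- optimal curves: every piece is optimal; speed bounded uniformly -/
theorem kk_geo (h : D.Ok) (hl : TL D.β D.F D.mF D.MF m M l) (hMf : 0 ≤ Mf) (S ρ : ℝ) : ∃ V : ℝ, 0 < V ∧
    ∀ f, Pt D.β f → Good Mf f → ∀ s, 0 ≤ s → s ≤ S → ∀ t t', 1 / 4 ≤ t' - t → t' - t ≤ 4 →
      ∀ z ∈ D.X ρ, ∀ z' ∈ D.X ρ, ∃ (n : Fin d → ℤ) (Z v : ℝ → E), Z t = z ∧ Z t' = z' + lv D.b n ∧
        Geo (lf l f) t t' V Z v ∧ ∀ r r', t ≤ r → r < r' → r' ≤ t' →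
          D.kk (lf l f) s r r' (Z r) (Z r') = D.cv (lf l f) s r r' Z v := sorry
/-- cone lemma -/
theorem kk_cone (h : D.Ok) (hl : TL D.β D.F D.mF D.MF m M l) (hMf : 0 ≤ Mf) (S ρ : ℝ) : ∃ V : ℝ, 0 < V ∧
    ∀ f f', Pt D.β f → Good Mf f → Pt D.β f' → Good Mf f' → ∀ s, 0 ≤ s → s ≤ S → ∀ t t',
      1 / 4 ≤ t' - t → t' - t ≤ 4 → ∀ z ∈ D.X ρ, ∀ z' ∈ D.X ρ, ∀ κ : ℝ → ℝ,
      IntervalIntegrable κ volume t t' →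
      (∀ r ∈ Icc t t', ∀ x, ‖x - z‖ ≤ V * (r - t) → (∃ n, ‖x - (z' + lv D.b n)‖ ≤ V * (t' - r)) →
        f x r + κ r ≤ f' x r) →
      D.kk (lf l f) s t t' z z' + ∫ r in t..t', κ r ≤ D.kk (lf l f') s t t' z z' := sorry
theorem kk_sub_le (h : D.Ok) (hl : TL D.β D.F D.mF D.MF m M l) (hf : Pt D.β f) (hg : Good Mf f)
    (hf' : Pt D.β f') (hg' : Good Mf f') {ρ : ℝ} (hρ : ∀ x t, |f x t - f' x t| ≤ ρ) {s : ℝ}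
    (hs : 0 ≤ s) {t t' : ℝ} (htt : t < t') (z z' : E) :
    |D.kk (lf l f) s t t' z z' - D.kk (lf l f') s t t' z z'| ≤ ρ * (t' - t) := sorry
theorem kk_mono (h : D.Ok) (hl : TL D.β D.F D.mF D.MF m M l) (hf : Pt D.β f) (hg : Good Mf f)
    (hf' : Pt D.β f') (hg' : Good Mf f') (hρ : ∀ x t, f x t ≤ f' x t) {s : ℝ}
    (hs : 0 ≤ s) {t t' : ℝ} (htt : t < t') (z z' : E) :
    D.kk (lf l f) s t t' z z' ≤ D.kk (lf l f') s t t' z z' := sorry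
theorem kd (h : D.Ok) (hp : p.Ok D) (hl : TL D.β D.F D.mF D.MF m M l) (hMf : 0 ≤ Mf) (S : ℝ) :
    ∃ C : ℝ, 0 ≤ C ∧ ∀ f, Pt D.β f → Good Mf f → ∀ s, 0 ≤ s → s ≤ S →
      KD (D.k1 (lf l f) s) (D.C p) (D.R p) C C := sorry
/-- `alpha`, `beta`: attained, bounded, Lipschitz, periodic -/
theorem alpha_att (h : D.Ok) (hp : p.Ok D) (hl : TL D.β D.F D.mF D.MF m M ll) {s r : ℝ} (hs : 0 ≤ s)
    (hr : 0 ≤ r) (hr1 : r ≤ 1) {w : E} (hw : w ∈ D.Mg (p.ηc / 2) (2 * p.κ)) : ∃ x ∈ D.C p,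
      D.alpha p ll s r w = D.bar p ll s D.q0 x + D.Q ll s r x w + D.al p ll s * (1 + r) := sorry
theorem alpha_le (h : D.Ok) (hp : p.Ok D) (hl : TL D.β D.F D.mF D.MF m M ll) {s r : ℝ} (hs : 0 ≤ s)
    (hr : 0 ≤ r) (hr1 : r ≤ 1) {w x : E} (hw : w ∈ D.Mg (p.ηc / 2) (2 * p.κ)) (hx : x ∈ D.R p) :
    D.alpha p ll s r w ≤ D.bar p ll s D.q0 x + D.Q ll s r x w + D.al p ll s * (1 + r) := sorry
theorem beta_att (h : D.Ok) (hp : p.Ok D) (hl : TL D.β D.F D.mF D.MF m M ll) {s r : ℝ} (hs : 0 ≤ s)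
    (hr : 0 ≤ r) (hr1 : r ≤ 1) {w : E} (hw : w ∈ D.Mg (p.ηc / 2) (2 * p.κ)) : ∃ x ∈ D.C p,
      D.beta p ll s r w = D.P ll s r w x + D.bar p ll s x D.q0 + D.al p ll s * (2 - r) := sorry
theorem beta_le (h : D.Ok) (hp : p.Ok D) (hl : TL D.β D.F D.mF D.MF m M ll) {s r : ℝ} (hs : 0 ≤ s)
    (hr : 0 ≤ r) (hr1 : r ≤ 1) {w x : E} (hw : w ∈ D.Mg (p.ηc / 2) (2 * p.κ)) (hx : x ∈ D.R p) :
    D.beta p ll s r w ≤ D.P ll s r w x + D.bar p ll s x D.q0 + D.al p ll s * (2 - r) := sorry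
theorem W_cont (h : D.Ok) (hp : p.Ok D) (hl : TL D.β D.F D.mF D.MF m M l) (hf : Pt D.β f)
    (hg : Good Mf f) {s s' r : ℝ} (hs : 0 ≤ s) (hs' : 0 ≤ s') (hr : 0 ≤ r) (hr1 : r ≤ 1) :
    ContinuousOn (D.W p (lf l f) s s' r) (D.Mg (p.ηc / 2) (2 * p.κ)) := sorry
theorem W_J (h : D.Ok) (hl : TL D.β D.F D.mF D.MF m M ll) {s s' r : ℝ} (w : E) (n : Fin d → ℤ) :
    D.W p ll s s' r (w + lv D.b n) = D.W p ll s s' r w := sorry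

/-! ## MODULE C12 (C12.lean): size of the barriers -/

theorem m1a (h : D.Ok) (hp : p.Ok D) (m M : ℝ) {ε : ℝ} (hε : 0 < ε) : ∃ s0 : ℝ, 1 ≤ s0 ∧ ∀ s, s0 ≤ s →
    ∀ ll, TL D.β D.F D.mF D.MF m M ll → ∀ r, 0 ≤ r → r ≤ 1 → ∀ w ∈ D.Mg (p.ηc / 2) (2 * p.κ),
    |D.alpha p ll s r w - D.bar p ll s D.q0 D.q0 - s * D.j D.q0 w| ≤ (2 * (4 * D.MF * p.η1) + ε) * s :=
  sorry
theorem m1b (h : D.Ok) (hp : p.Ok D) (m M : ℝ) {ε : ℝ} (hε : 0 < ε) : ∃ s0 : ℝ, 1 ≤ s0 ∧ ∀ s, s0 ≤ s →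
    ∀ ll, TL D.β D.F D.mF D.MF m M ll → ∀ r, 0 ≤ r → r ≤ 1 → ∀ w ∈ D.Mg (p.ηc / 2) (2 * p.κ),
    |D.beta p ll s r w - D.bar p ll s D.q1 D.q0 - s * D.j w (D.q1 + D.g)| ≤
      (2 * (4 * D.MF * p.η1) + ε) * s := sorry
/-- there are gate points well inside -/
theorem exists_wit (h : D.Ok) (hp : p.Ok D) {ε : ℝ} (hε : 0 < ε) : ∃ w ∈ D.Out (4 * p.ηc),
    D.j D.q0 w + D.j w (D.q1 + D.g) ≤ D.U + ε := sorry
/-- near-minimal gate points have small excess -/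
theorem m2 (h : D.Ok) (hp : p.Ok D) (m M : ℝ) : ∃ s0 : ℝ, 1 ≤ s0 ∧ ∀ s s', s0 ≤ s → s0 ≤ s' →
    |s' - s| ≤ 1 → ∀ ll, TL D.β D.F D.mF D.MF m M ll → ∀ r, 0 ≤ r → r ≤ 1 → ∀ w ∈ D.Md p,
    (∀ w' ∈ D.Md p, D.W p ll s s' r w ≤ D.W p ll s s' r w' + 1) →
    D.j D.q0 w + D.j w (D.q1 + D.g) ≤ D.U + p.κ / 4 := sorry

/-! ## MODULE C13 (C13.lean): inner slice -/

theorem inner_slice (h : D.Ok) (hp : p.Ok D) (m M : ℝ) : ∃ kN CI s0 : ℝ, 0 < kN ∧ 0 ≤ CI ∧ 1 ≤ s0 ∧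
    ∀ s s', s0 ≤ s → s0 ≤ s' → |s' - s| ≤ 1 → ∀ ll, TL D.β D.F D.mF D.MF m M ll → ∀ N : ℕ,
    kN * s ≤ N → ∀ k < N, ∀ w ∈ D.Md p,
    (∀ k' < N, ∀ w' ∈ D.Md p, D.W p ll s s' ((k : ℝ) / N) w ≤ D.W p ll s s' ((k' : ℝ) / N) w') →
    ∃ k' < N, ∃ w' ∈ D.Mi p, D.W p ll s s' ((k' : ℝ) / N) w' ≤
      D.W p ll s s' ((k : ℝ) / N) w + CI * s * |s' - s| := sorry

/-! ## MODULE F1 (F1.lean): decoupling, abstract -/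

theorem dec_abs2 {Y : Type*} [PseudoMetricSpace Y] {K : Y → Y → ℝ} {C A : Set Y} {B Λ : ℝ}
    (hK : KD K C A B Λ) {κ : Type*} (I : Finset κ) (hI : I.Nonempty) {Ks : κ → Y → Y → ℝ}
    (hKs : ∀ k ∈ I, KD (Ks k) C A B Λ) {τ : ℝ} (hτ : 0 < τ)
    (hav : ∀ z ∈ A, ∀ z' ∈ A, (∑ k ∈ I, Ks k z z') / I.card ≤ K z z' - τ) (V : κ → Set Y)
    (hV : ∀ k ∈ I, ∀ z ∈ A, ∀ z' ∈ A, z ∉ V k → z' ∉ V k → K z z' ≤ Ks k z z') {r : ℝ}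
    (hr : ∀ k ∈ I, ∀ x ∈ A, ∀ x' ∈ A, x ∈ V k → x' ∈ V k → ∀ z ∈ A,
      |Esc.bar (Ks k) C z x - Esc.bar (Ks k) C z x'| ≤ r ∧
        |Esc.bar (Ks k) C x z - Esc.bar (Ks k) C x' z| ≤ r) :
    ∃ k ∈ I, ∀ ε > 0, ∃ F : Finset ℕ, F.Nonempty ∧ (∀ T ∈ F, 1 ≤ T) ∧
      ∀ z ∈ A, ∀ z' ∈ A, ∀ w ∈ A, ∀ w' ∈ A,
        |gk (Ks k) C F (fun T => Esc.al (Ks k) C * T) z z' + gk (Ks k) C F (fun T => Esc.al (Ks k) C * T) w w' -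
          gk (Ks k) C F (fun T => Esc.al (Ks k) C * T) z w' -
          gk (Ks k) C F (fun T => Esc.al (Ks k) C * T) w z'| ≤ 8 * (ε + r) := sorry

/-! ## MODULE F2 (F2.lean): periodic bumps -/

/-- bump in space, periodic under the lattice -/
theorem exists_sbump (β : Module.Basis ι ℝ E) : ∃ r0 : ℝ, 0 < r0 ∧ ∀ r, 0 < r → r ≤ r0 → ∀ c : E,
    ∃ g : E → ℝ, ContDiff ℝ ∞ g ∧ (∀ i x, g (x + β i) = g x) ∧ (∀ x, 0 ≤ g x ∧ g x ≤ 1) ∧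
      (∀ x, (∃ v ∈ Submodule.span ℤ (Set.range β), ‖x + v - c‖ ≤ 2 * r) → g x = 1) ∧
      ∀ x, (∀ v ∈ Submodule.span ℤ (Set.range β), 3 * r ≤ ‖x + v - c‖) → g x = 0 := sorry
/-- bump in time, of period one -/
theorem exists_tbump {w : ℝ} (hw : 0 < w) (hw4 : w ≤ 1 / 4) (a : ℝ) : ∃ θ : ℝ → ℝ, ContDiff ℝ ∞ θ ∧
    (∀ t, θ (t + 1) = θ t) ∧ (∀ t, 0 ≤ θ t ∧ θ t ≤ 1) ∧
    (∀ t, (∃ k : ℤ, |t + k - a| ≤ w / 2) → θ t = 1) ∧ ∀ t, (∀ k : ℤ, w ≤ |t + k - a|) → θ t = 0 := sorry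
/-- smooth periodic functions have Lipschitz bounds; small multiples are `Good ε` -/
theorem Sm.good {β : Module.Basis ι ℝ E} {G : E → ℝ → ℝ} (hG : Sm β G) : ∃ C : ℝ, 0 < C ∧
    ∀ a ε : ℝ, 0 ≤ ε → |a| * C ≤ ε → Good ε (fun x t => a * G x t) := sorry
theorem Pt.good {β : Module.Basis ι ℝ E} (hf : Pt β f) : ∃ C : ℝ, 0 ≤ C ∧ Good C f := sorry
theorem Good.sum {κ : Type*} (I : Finset κ) {G : κ → E → ℝ → ℝ} {a : κ → ℝ} (h : ∀ i ∈ I, Good (a i) (G i)) :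
    Good (∑ i ∈ I, a i) (fun x t => ∑ i ∈ I, G i x t) := sorry
theorem Good.add' {a b : ℝ} {G G' : E → ℝ → ℝ} (h : Good a G) (h' : Good b G') :
    Good (a + b) (fun x t => G x t + G' x t) := sorry
theorem Pt.add {β : Module.Basis ι ℝ E} (hf : Pt β f) (hf' : Pt β f') : Pt β (fun x t => f x t + f' x t) :=
  sorry
theorem Sm.pt {β : Module.Basis ι ℝ E} {G : E → ℝ → ℝ} (hG : Sm β G) : Pt β G := sorry

/-! ## MODULE F3 (F3.lean): decoupling is dense and open -/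

theorem dec_dense (h : D.Ok) (hp : p.Ok D) (hl : TL D.β D.F D.mF D.MF m M l) (N : SmNorm D.β)
    (hf : Pt D.β f) (hg : Good Mf f) {s ε η : ℝ} (hs : 0 ≤ s) (hε : 0 < ε) (hη : 0 < η) :
    ∃ G, Sm D.β G ∧ N.nm G ≤ ε ∧ Good ε G ∧ D.Dw p (lf l (fun x t => f x t + G x t)) s η := sorry
/- F3b.lean -/
theorem dec_open (h : D.Ok) (hp : p.Ok D) (hl : TL D.β D.F D.mF D.MF m M l) (hf : Pt D.β f)
    (hg : Good Mf f) {s η : ℝ} (hs : 0 ≤ s) (hη : 0 < η) (hD : D.Dw p (lf l f) s η) : ∃ ρ : ℝ, 0 < ρ ∧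
    ∀ f', Pt D.β f' → (∀ x t, |f x t - f' x t| ≤ ρ) → D.Dw p (lf l f') s (2 * η) := sorry
theorem dec_many (h : D.Ok) (hp : p.Ok D) (hl : TL D.β D.F D.mF D.MF m M l) (N : SmNorm D.β)
    (hf : Pt D.β f) (hg : Good Mf f) (S : Finset ℝ) (hS : ∀ s ∈ S, 0 ≤ s) {ε η : ℝ} (hε : 0 < ε)
    (hη : 0 < η) : ∃ G, Sm D.β G ∧ N.nm G ≤ ε ∧ Good ε G ∧
      ∀ s ∈ S, D.Dw p (lf l (fun x t => f x t + G x t)) s η := sorry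
/-- hence the barrier is almost decoupled -/
theorem dec_bar (h : D.Ok) (hp : p.Ok D) (hl : TL D.β D.F D.mF D.MF m M l) (hf : Pt D.β f)
    (hg : Good Mf f) {s η : ℝ} (hs : 0 ≤ s) (hD : D.Dw p (lf l f) s η) : ∀ z ∈ D.R p, ∀ z' ∈ D.R p,
    ∀ w ∈ D.R p, ∀ w' ∈ D.R p, |D.bar p (lf l f) s z z' + D.bar p (lf l f) s w w' -
      D.bar p (lf l f) s z w' - D.bar p (lf l f) s w z'| ≤ 4 * η := sorry

/-! ## MODULE F4 (F4.lean): nets of gate points modulo the lattice -/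

/-- centres: dense, and few of them are near a point -/
theorem exists_centres (h : D.Ok) (hp : p.Ok D) : ∃ (mult : ℕ) (r0 : ℝ), 0 < r0 ∧ ∀ r, 0 < r → r ≤ r0 →
    ∃ Cn : Finset E, (∀ c ∈ Cn, c ∈ D.Md p) ∧ (∀ w ∈ D.Md p, ∃ c ∈ Cn, ∃ v ∈ D.Lam, ‖w + v - c‖ ≤ r) ∧
      ∀ z : E, ∀ T : Finset E, T ⊆ Cn → (∀ c ∈ T, ∃ v ∈ D.Lam, ‖z + v - c‖ ≤ 4 * r) → T.card ≤ mult := sorry
/-- a sphere free of touched cells -/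
theorem sphere_free (h : D.Ok) : ∃ r0 : ℝ, 0 < r0 ∧ ∀ (N1 : ℕ) (r : ℝ), 0 < r → 3 * r * (N1 + 2) ≤ r0 →
    ∀ (z0 : E) (P : E → Prop) (T : Finset E), T.card ≤ N1 →
      (∀ z, P z → ∃ c ∈ T, ∃ v ∈ D.Lam, ‖z + v - c‖ ≤ r) →
      ∃ ρ : ℝ, 0 < ρ ∧ ρ ≤ 3 * r * (N1 + 1) ∧ ∀ z, ‖z - z0‖ = ρ → ¬ P z := sorry

/-! ## MODULE F5 (F5.lean): bumps outside of the rooms -/

/-- room kernels are not changed by bumps outside of the rooms -/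
theorem room_inv (h : D.Ok) (hp : p.Ok D) (m M : ℝ) : ∃ s0 : ℝ, 1 ≤ s0 ∧ ∀ s, s0 ≤ s → ∀ l,
    TL D.β D.F D.mF D.MF m M l → ∀ l', TL D.β D.F D.mF D.MF m M l' → (∀ x u t, l x u t ≤ l' x u t) →
    (∀ x, x ∉ D.Out (p.ηc / 2) → ∀ u t, l' x u t = l x u t) → ∀ x ∈ D.R p, ∀ x' ∈ D.R p,
    D.k1 l' s x x' = D.k1 l s x x' := sorry
theorem bar_inv (h : D.Ok) (hp : p.Ok D) {l' : E → E → ℝ → ℝ} {s : ℝ}
    (H : ∀ x ∈ D.R p, ∀ x' ∈ D.R p, D.k1 l' s x x' = D.k1 l s x x') : D.al p l' s = D.al p l s ∧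
    ∀ x ∈ D.R p, ∀ x' ∈ D.R p, D.bar p l' s x x' = D.bar p l s x x' := sorry
/-- `W` is monotone under such bumps, grows if the bump is seen near `w`, and does not change if the
bump is not seen along two curves -/
theorem W_mono (h : D.Ok) (hp : p.Ok D) (hl : TL D.β D.F D.mF D.MF m M l) (Mf : ℝ) : ∃ s0 : ℝ, 1 ≤ s0 ∧
    ∀ s s', s0 ≤ s → s0 ≤ s' → ∀ f f', Pt D.β f → Good Mf f → Pt D.β f' → Good Mf f' →
    (∀ x t, f x t ≤ f' x t) → (∀ x, x ∉ D.Out (p.ηc / 2) → ∀ t, f' x t = f x t) →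
    ∀ r, 0 ≤ r → r ≤ 1 → ∀ w ∈ D.Md p, D.W p (lf l f) s s' r w ≤ D.W p (lf l f') s s' r w := sorry
theorem W_slope (h : D.Ok) (hp : p.Ok D) (hl : TL D.β D.F D.mF D.MF m M l) (Mf : ℝ) : ∃ s0 : ℝ, 1 ≤ s0 ∧
    ∀ S : ℝ, ∃ V : ℝ, 0 < V ∧ ∀ s s', s0 ≤ s → s0 ≤ s' → s ≤ S → s' ≤ S →
    ∀ f f', Pt D.β f → Good Mf f → Pt D.β f' → Good Mf f' →
    (∀ x t, f x t ≤ f' x t) → (∀ x, x ∉ D.Out (p.ηc / 2) → ∀ t, f' x t = f x t) →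
    ∀ r, 0 ≤ r → r ≤ 1 → ∀ w ∈ D.Md p, ∀ a κ : ℝ, 0 ≤ a → a ≤ 1 / 4 → 0 ≤ κ →
    (∀ x t, ‖x - w‖ ≤ V * a → |t - r| ≤ a → f x t + κ ≤ f' x t) →
    D.W p (lf l f) s s' r w + 2 * a * κ ≤ D.W p (lf l f') s s' r w := sorry
theorem W_indep (h : D.Ok) (hp : p.Ok D) (hl : TL D.β D.F D.mF D.MF m M l) (Mf : ℝ) : ∃ s0 : ℝ, 1 ≤ s0 ∧
    ∀ S : ℝ, ∃ V : ℝ, 0 < V ∧ ∀ s s', s0 ≤ s → s0 ≤ s' → s ≤ S → s' ≤ S →
    ∀ f, Pt D.β f → Good Mf f → ∀ r, 0 ≤ r → r ≤ 1 → ∀ w ∈ D.Md p, ∃ Z1 Z2 : ℝ → E,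
    (∀ t ∈ Icc (0:ℝ) (1 + r), ∀ t' ∈ Icc (0:ℝ) (1 + r), ‖Z1 t - Z1 t'‖ ≤ V * |t - t'|) ∧
    (∀ t ∈ Icc r 2, ∀ t' ∈ Icc r 2, ‖Z2 t - Z2 t'‖ ≤ V * |t - t'|) ∧
    ∀ f', Pt D.β f' → Good Mf f' → (∀ x t, f x t ≤ f' x t) →
      (∀ x, x ∉ D.Out (p.ηc / 2) → ∀ t, f' x t = f x t) →
      (∀ t ∈ Icc (0:ℝ) (1 + r), f' (Z1 t) t = f (Z1 t) t) → (∀ t ∈ Icc r 2, f' (Z2 t) t = f (Z2 t) t) →
      D.W p (lf l f') s s' r w ≤ D.W p (lf l f) s s' r w := sorry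

/-! ## MODULE F6 (F6.lean): gates for the barrier functional -/

theorem gates (h : D.Ok) (hp : p.Ok D) (hl : TL D.β D.F D.mF D.MF m M l) (Mf : ℝ) (hMf : 0 ≤ Mf) :
    ∃ q0 : ℕ, ∀ (N : SmNorm D.β) (q : ℕ), q0 ≤ q → ∀ ε : ℝ, 0 < ε → ∃ (J : ℕ) (s : ℕ → ℝ) (δ : ℝ),
    0 < J ∧ 0 < δ ∧ s 0 = q ∧ s J = q + 1 ∧ (∀ i ≤ J, (q : ℝ) ≤ s i ∧ s i ≤ q + 1) ∧
    ∀ f, Pt D.β f → Good Mf f → ∃ G, Sm D.β G ∧ N.nm G ≤ ε ∧ Good ε G ∧ (∀ x t, 0 ≤ G x t) ∧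
      (∀ x, x ∉ D.Out (p.ηc / 2) → ∀ t, G x t = 0) ∧ ∀ i < J, ∃ (r : ℝ) (A : Set E), 0 ≤ r ∧ r < 1 ∧
        IsCompact A ∧ A.Nonempty ∧ A ⊆ D.Md p ∧ ∀ z ∈ frontier A, ∃ w ∈ A,
          D.W p (lf l (fun x t => f x t + G x t)) (s i) (s (i + 1)) r w - (s (i + 1) - s i) * D.B w + δ ≤
            D.W p (lf l (fun x t => f x t + G x t)) (s i) (s (i + 1)) r z - (s (i + 1) - s i) * D.B z :=
  sorry

/-! ## MODULE F7 (F7.lean): stages are dense -/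

/-- from the barrier functional to finite windows -/
theorem gate_ineq (h : D.Ok) (hp : p.Ok D) (hl : TL D.β D.F D.mF D.MF m M ll) {s η : ℝ} (hs : 0 ≤ s)
    {F : Finset ℕ} (hF : F.Nonempty) (hF1 : ∀ T ∈ F, 1 ≤ T)
    (hb : ∀ z ∈ D.R p, ∀ z' ∈ D.R p, ∀ w ∈ D.R p, ∀ w' ∈ D.R p, |D.bar p ll s z z' + D.bar p ll s w w' -
      D.bar p ll s z w' - D.bar p ll s w z'| ≤ η)
    (hw : ∀ z ∈ D.R p, ∀ z' ∈ D.R p,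
      |gk (D.k1 ll s) (D.C p) F (fun T => D.al p ll s * T) z z' - D.bar p ll s z z'| ≤ η) :
    ∀ r, 0 ≤ r → r ≤ 1 → ∀ x ∈ D.R p, ∀ w ∈ D.Md p,
      |D.Gm p ll s F (fun T => D.al p ll s * T) r x w - (D.bar p ll s x D.q0 - D.bar p ll s D.q0 D.q0
        + D.alpha p ll s r w - D.al p ll s * (1 + r))| ≤ 2 * η ∧
      |D.Gp p ll s F (fun T => D.al p ll s * T) r w x - (D.bar p ll s D.q0 x - D.bar p ll s D.q0 D.q0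
        + D.beta p ll s r w - D.al p ll s * (2 - r))| ≤ 2 * η := sorry
theorem stage_dense (h : D.Ok) (hp : p.Ok D) (hl : TL D.β D.F D.mF D.MF m M l) (Mf : ℝ) (hMf : 0 ≤ Mf) :
    ∃ q0 : ℕ, ∀ (N : SmNorm D.β) (q : ℕ), q0 ≤ q → ∀ f, Pt D.β f → Good Mf f → ∀ ε : ℝ, 0 < ε →
    ∃ G, Sm D.β G ∧ N.nm G ≤ ε ∧ D.Stage p (lf l (fun x t => f x t + G x t)) q := sorry

/-! ## MODULE F8 (F8.lean): stages are open -/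

theorem stage_open (h : D.Ok) (hp : p.Ok D) (hl : TL D.β D.F D.mF D.MF m M l) (hf : Pt D.β f) {q : ℕ}
    (hS : D.Stage p (lf l f) q) : ∃ ρ : ℝ, 0 < ρ ∧ ∀ f', Pt D.β f' → (∀ x t, |f x t - f' x t| ≤ ρ) →
    D.Stage p (lf l f') q := sorry

/-! ## MODULE H1 (H1.lean): chain data -/

theorem exists_chn (h : D.Ok) (hp : p.Ok D) (hl : TL D.β D.F D.mF D.MF m M ll) (q0 : ℕ)
    (hS : ∀ q : ℕ, q0 ≤ q → D.Stage p ll q) : ∃ (s r : ℕ → ℝ) (T : ℕ → ℕ) (z : ℕ → E) (y : ℕ → ℕ → E),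
    D.Chn p ll s r T z y ∧ ∀ n, (q0 : ℝ) ≤ s n := sorry

/-! ## MODULE H2 (H2.lean): local minima in the universal cover -/

/-- one site -/
theorem site (h : D.Ok) (hl : TL D.β D.F D.mF D.MF m M ll) {s s' : ℝ} (hs : 0 ≤ s) (hs' : 0 ≤ s')
    {t t' t'' : ℝ} (htt : t < t') (htt' : t' < t'') {x0 a x2 : E}
    (H : ∀ᶠ x in 𝓝 a, D.kk ll s t t' x0 a + D.kk ll s' t' t'' a x2 - (s' - s) * D.B a ≤
      D.kk ll s t t' x0 x + D.kk ll s' t' t'' x x2 - (s' - s) * D.B x) {n n' : Fin d → ℤ}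
    (hn : D.kk ll s t t' x0 a = kerl ll t t' x0 (a + lv D.b n) - s * (D.B (a + lv D.b n) - D.B x0) +
      s ^ 2 / 2 * (t' - t))
    (hn' : D.kk ll s' t' t'' a x2 = kerl ll t' t'' a (x2 + lv D.b n') -
      s' * (D.B (x2 + lv D.b n') - D.B a) + s' ^ 2 / 2 * (t'' - t')) :
    IsLocalMin (fun x => kerl ll t t' x0 x + kerl ll t' t'' x (x2 + lv D.b n' + lv D.b n))
      (a + lv D.b n) := sorry

/-! ## MODULE H3 (H3.lean): the orbit as a sequence -/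

theorem chn_seq (h : D.Ok) (hp : p.Ok D) (m M : ℝ) : ∃ s0 : ℝ, 1 ≤ s0 ∧ ∀ ll,
    TL D.β D.F D.mF D.MF m M ll → ∀ (s r : ℕ → ℝ) (T : ℕ → ℕ) (z : ℕ → E) (y : ℕ → ℕ → E),
    D.Chn p ll s r T z y → (∀ n, s0 ≤ s n) → ∃ (τ : ℕ → ℝ) (w : ℕ → E) (σ : ℕ → ℝ) (C : ℝ),
      τ 0 ≤ 0 ∧ (∀ j, 1 ≤ τ (j + 1) - τ j ∧ τ (j + 1) - τ j ≤ 2) ∧
      (∀ j, IsLocalMin (fun x => kerl ll (τ j) (τ (j + 1)) (w j) x +
        kerl ll (τ (j + 1)) (τ (j + 2)) x (w (j + 2))) (w (j + 1))) ∧ Tendsto σ atTop atTop ∧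
      ∀ j, kerl ll (τ j) (τ (j + 1)) (w j) (w (j + 1)) - σ j * (D.B (w (j + 1)) - D.B (w j)) +
        σ j ^ 2 / 2 * (τ (j + 1) - τ j) ≤ C * σ j := sorry

/-! ## MODULE H4 (H4.lean): escape -/

theorem escapes_of_stages (h : D.Ok) (hp : p.Ok D) (hl : TL D.β D.F D.mF D.MF m M l) (Mf : ℝ) :
    ∃ q0 : ℕ, ∀ q1 : ℕ, q0 ≤ q1 → ∀ f, Pt D.β f → Good Mf f →
      (∀ q : ℕ, q1 ≤ q → D.Stage p (lf l f) q) → Escapes l f := sorry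

end EscG
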