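import Pool.Agent.EscG.BDefs
import Pool.Agent.EscG.CIfc

/-!
INTERFACE of application B of project EscG. Never import this file in a final module.
-/

noncomputable section

namespace EscG

open MeasureTheory Set Filter Topology Esc EscF
open scoped ContDiff

variable {ι : Type} [Fintype ι] {E : Type*} [NormedAddCommGroup E] [InnerProductSpace ℝ E]
  [FiniteDimensional ℝ E] {β : Module.Basis ι ℝ E} {F : E → E → ℝ} {mF MF : ℝ} {B : E → ℝ} {k0 : ι}
  {len : ℝ} {c c' : ℝ → E}

/-! ## MODULE B1 (B1.lean) -/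

/-- fundamental theorem of calculus along trajectories of admissible controls -/
theorem ftc_traj {B : E → ℝ} (hB : ContDiff ℝ 1 B) {u : ℝ → E} (hu : Adm u) (a : ℝ) (z : E) (b : ℝ) :
    B (traj a z u b) - B z = ∫ t in a..b, fderiv ℝ B (traj a z u t) (u t) := sorry

/-! ## MODULE B2 (B2.lean) -/

theorem gdC_ok0 (h : CalC β F mF MF B k0 len c c') (g : E) : (gdC β F mF MF B k0 len c g).Ok0 := sorry

/-! ## MODULE B3 (B3.lean) -/

theorem gdC_ok (h : CalC β F mF MF B k0 len c c') {k1 : ι} (hk : k1 ≠ k0) :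
    ∃ g : E, (gdC β F mF MF B k0 len c g).Ok := sorry

end EscG
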