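import Pool.Agent.EscG.CDefs
import Pool.Agent.EscG.C2
import Pool.Agent.EscG.C3

/-!
Module C5 of project EscG: inequalities for the passing cost with collars.
-/

set_option linter.unusedSectionVars false

noncomputable section

namespace EscG

open MeasureTheory Set Filter Topology Esc EscF
open scoped ContDiff

variable {ι : Type} [Fintype ι] {d : ℕ} {E : Type*} [NormedAddCommGroup E] [InnerProductSpace ℝ E]
  [FiniteDimensional ℝ E] {D : GD ι d E} {p : GP}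


theorem C5_om_nonneg (h : D.Ok) (hp : p.Ok D) : 0 ≤ 4 * D.MF * p.η1 := by
  have h1 : 0 < D.mF := h.fins.mF_pos
  have h2 : D.mF ≤ D.MF := h.fins.mF_le
  have h3 : 0 < p.η1 := hp.η1_pos
  have h4 : 0 < D.MF := by linarith
  positivity

theorem C5_P0_Z (h : D.Ok) {a : E} (ha : a ∈ D.P0) : a ∈ D.Z := by
  rcases ha with rfl | rfl
  · exact h.q0_mem
  · exact h.q1_mem

/-- points at a distance from the zone are outside of the room -/
theorem C5_notR (hp : p.Ok D) {c : E} (hc : p.ηc / 4 ≤ Metric.infDist c D.Z) : c ∉ D.R p := by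
  intro hR
  have h1 : Metric.infDist c D.Z ≤ p.η1 := hR
  have h2 := hp.η1_le
  have h3 := hp.ηc_pos
  linarith

theorem coll0 (h : D.Ok) (hp : p.Ok D) {x c : E} (hx : x ∈ D.R p) (hc : c ∉ D.R p) :
    ∃ q ∈ D.P0, D.j x q + D.j q c ≤ D.j x c + 4 * D.MF * p.η1 := by
  by_cases hxZ : x ∈ D.Z
  · have hcZ : c ∉ D.Z := by
      intro hcZ
      apply hc
      show Metric.infDist c D.Z ≤ p.η1
      rw [Metric.infDist_zero_of_mem hcZ]
      exact hp.η1_pos.le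
    obtain ⟨q, hq, h1⟩ := pass0 h.toOk0 hxZ hcZ
    exact ⟨q, hq, by linarith [C5_om_nonneg h hp]⟩
  · obtain ⟨q, hq, h1⟩ := near h.toOk0 hxZ (show Metric.infDist x D.Z ≤ p.η1 from hx)
    exact ⟨q, hq, by linarith [j_tri h.toOk0 q x c]⟩

theorem coll1 (h : D.Ok) (hp : p.Ok D) {x c : E} (hx : x ∈ D.R p) (hc : c ∉ D.R p) :
    ∃ q ∈ D.P0, D.j c q + D.j q x ≤ D.j c x + 4 * D.MF * p.η1 := by
  by_cases hxZ : x ∈ D.Z
  · have hcZ : c ∉ D.Z := by
      intro hcZ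
      apply hc
      show Metric.infDist c D.Z ≤ p.η1
      rw [Metric.infDist_zero_of_mem hcZ]
      exact hp.η1_pos.le
    obtain ⟨q, hq, h1⟩ := pass1 h.toOk0 hxZ hcZ
    exact ⟨q, hq, by linarith [C5_om_nonneg h hp]⟩
  · obtain ⟨q, hq, h1⟩ := near h.toOk0 hxZ (show Metric.infDist x D.Z ≤ p.η1 from hx)
    exact ⟨q, hq, by linarith [j_tri h.toOk0 c x q]⟩

theorem rtg (h : D.Ok) (hp : p.Ok D) {x x' c : E} (hx : x ∈ D.R p) (hx' : x' ∈ D.R p)
    (hc : p.ηc / 4 ≤ Metric.infDist c D.Z) :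
    ∃ q ∈ D.P0, D.j x q + D.j q x' + p.e ≤ D.j x c + D.j c x' + 2 * (4 * D.MF * p.η1) := by
  have hcR := C5_notR hp hc
  obtain ⟨q, hq, h1⟩ := coll0 h hp hx hcR
  obtain ⟨q', hq', h2⟩ := coll1 h hp hx' hcR
  have h3 := hp.rt c hc q hq q' hq'
  exact ⟨q, hq, by linarith [j_tri h.toOk0 q q' x']⟩

/-- the anchors of the other rooms are outside of the room -/
theorem C5_anchor (h : D.Ok) (hp : p.Ok D) {v : E} (hv : v ∈ D.Lam) (hvJ : ¬ D.InJ v) {a : E}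
    (ha : a ∈ D.P0) : a + v ∉ D.R p := by
  refine C5_notR hp ?_
  have h1 := hp.sep v hv hvJ a (C5_P0_Z h ha)
  have h2 := hp.ηc_pos
  linarith

theorem no0g (h : D.Ok) (hp : p.Ok D) {x w : E} (hx : x ∈ D.R p) (hw : w ∈ D.Mg (p.ηc / 2) (2 * p.κ))
    {v : E} (hv : v ∈ D.Lam) (hvJ : ¬ D.InJ v) {a : E} (ha : a ∈ D.P0) :
    D.j x D.q0 + D.j D.q0 w + p.e ≤ D.j x (a + v) + D.j (a + v) w + 4 * D.MF * p.η1 := by
  obtain ⟨q, hq, h1⟩ := coll0 h hp hx (C5_anchor h hp hv hvJ ha)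
  have h2 := (hp.gate w hw).no0 v hv hvJ a ha q hq
  linarith [j_tri h.toOk0 x q D.q0]

theorem no1g (h : D.Ok) (hp : p.Ok D) {x w : E} (hx : x ∈ D.R p) (hw : w ∈ D.Mg (p.ηc / 2) (2 * p.κ))
    {v : E} (hv : v ∈ D.Lam) (hvJ : ¬ D.InJ v) {a : E} (ha : a ∈ D.P0) :
    D.j w (D.q1 + D.g) + D.j D.q1 x + p.e ≤ D.j w (a + v + D.g) + D.j (a + v) x + 4 * D.MF * p.η1 := by
  obtain ⟨q, hq, h1⟩ := coll1 h hp hx (C5_anchor h hp hv hvJ ha)
  have h2 := (hp.gate w hw).no1 v hv hvJ a ha q hq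
  linarith [j_tri h.toOk0 D.q1 q x]

/-- passage of a point `c` outside of the room on the way to the gate point `w` -/
theorem exg0 (h : D.Ok) (hp : p.Ok D) {x c w : E} (hx : x ∈ D.R p) (hw : w ∈ D.Mg (p.ηc / 2) (2 * p.κ))
    (hc : p.ηc / 2 ≤ Metric.infDist c D.Z) :
    D.j x D.q0 + D.j D.q0 c ≤ D.j x c + 4 * D.MF * p.η1 ∨
      D.j x D.q0 + D.j D.q0 w + p.e ≤ D.j x c + D.j c w + 4 * D.MF * p.η1 := by
  have hc4 : p.ηc / 4 ≤ Metric.infDist c D.Z := by linarith [hp.ηc_pos]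
  obtain ⟨q, hq, h1⟩ := coll0 h hp hx (C5_notR hp hc4)
  rcases hq with rfl | rfl
  · exact Or.inl h1
  · have h3 := j_tri h.toOk0 x D.q1 D.q0
    rcases (hp.gate w hw).ex0 c hc with h2 | h2
    · left; linarith
    · right; linarith

theorem exg1 (h : D.Ok) (hp : p.Ok D) {x c w : E} (hx : x ∈ D.R p) (hw : w ∈ D.Mg (p.ηc / 2) (2 * p.κ))
    (hc : p.ηc / 2 ≤ Metric.infDist (c - D.g) D.Z) :
    D.j c (D.q1 + D.g) + D.j D.q1 x ≤ D.j c (x + D.g) + 4 * D.MF * p.η1 ∨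
      D.j w (D.q1 + D.g) + D.j D.q1 x + p.e ≤ D.j w c + D.j c (x + D.g) + 4 * D.MF * p.η1 := by
  have hc4 : p.ηc / 4 ≤ Metric.infDist (c - D.g) D.Z := by linarith [hp.ηc_pos]
  obtain ⟨q, hq, h1⟩ := coll1 h hp hx (C5_notR hp hc4)
  have key : ∀ y : E, D.j c (y + D.g) = D.j (c - D.g) y := by
    intro y
    have := j_Lam h.toOk0 h.g_mem (c - D.g) y
    rwa [sub_add_cancel] at this
  rcases hq with rfl | rfl
  · have h3 := j_tri h.toOk0 D.q1 D.q0 x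
    rw [← key, ← key] at h1
    rcases (hp.gate w hw).ex1 c hc with h2 | h2
    · left; linarith
    · right; linarith
  · left
    rw [← key, ← key] at h1
    exact h1

theorem ex0g (h : D.Ok) (hp : p.Ok D) {x w : E} (hx : x ∈ D.R p) (hw : w ∈ D.Mg (p.ηc / 2) (2 * p.κ)) :
    D.j x D.q0 + D.j D.q0 w ≤ D.j x w + 4 * D.MF * p.η1 := by
  have hc : p.ηc / 2 ≤ Metric.infDist w D.Z := by
    have := hw.1 0 (D.Lam.zero_mem)
    rwa [add_zero] at this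
  rcases exg0 h hp hx hw hc with h1 | h1
  · exact h1
  · have h2 := j_self h.toOk0 w
    linarith [hp.e_pos]

theorem ex1g (h : D.Ok) (hp : p.Ok D) {x w : E} (hx : x ∈ D.R p) (hw : w ∈ D.Mg (p.ηc / 2) (2 * p.κ)) :
    D.j w (D.q1 + D.g) + D.j D.q1 x ≤ D.j w (x + D.g) + 4 * D.MF * p.η1 := by
  have hc : p.ηc / 2 ≤ Metric.infDist (w - D.g) D.Z := by
    have := hw.1 (-D.g) (D.Lam.neg_mem h.g_mem)
    rwa [← sub_eq_add_neg] at this
  rcases exg1 h hp hx hw hc with h1 | h1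
  · exact h1
  · have h2 := j_self h.toOk0 w
    linarith [hp.e_pos]

end EscG
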