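import Pool.Agent.EscG.CDefs
import Pool.Agent.EscG.A1
import Pool.Agent.EscG.A2b
import Pool.Agent.EscG.A5a
import Pool.Agent.EscG.C1
import Pool.Agent.EscG.C2

/-!
Project EscG (MP_6acca1_an), core, module C6: kernels against passing costs.
-/

set_option linter.unusedSectionVars false
set_option linter.unusedVariables false

noncomputable section

namespace EscG

open MeasureTheory Set Filter Topology Esc EscF
open scoped ContDiff

variable {ι : Type} [Fintype ι] {d : ℕ} {E : Type*} [NormedAddCommGroup E] [InnerProductSpace ℝ E]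
  [FiniteDimensional ℝ E] {D : GD ι d E} {p : GP} {m M Mf : ℝ} {ll l : E → E → ℝ → ℝ}
  {f f' : E → ℝ → ℝ}

/-! ### auxiliary facts -/

theorem C6_lv0 (b : Fin d → E) : lv b 0 = 0 := by simp [lv]

theorem C6_cbsq {β : Module.Basis ι ℝ E} {F : E → E → ℝ} {mF MF : ℝ} (hF : Fins β F mF MF) :
    CB 0 (fun y v (_ : ℝ) => F y v ^ 2 / 2) := by
  refine ⟨?_, fun x u t => ?_⟩
  · have h1 : Continuous (fun p : E × E × ℝ => F p.1 p.2.1) :=
      hF.cont.comp (continuous_fst.prodMk (continuous_fst.comp continuous_snd))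
    exact (h1.pow 2).div_const 2
  · have := sq_nonneg (F x u)
    linarith

/-- the action is at least the energy up to a constant -/
theorem C6_act_ge (h : D.Ok) (hl : TL D.β D.F D.mF D.MF m M ll) {t t' : ℝ} (htt : t < t') (x : E)
    {u : ℝ → E} (hu : Adm u) :
    fd D.F x (traj t x u t') ^ 2 / (2 * (t' - t)) - M * (t' - t) ≤ actl ll t t' x u := by
  have h0 : 0 < t' - t := by linarith
  have h1 := fd_sq_le h.fins htt x hu
  have i1 := (C6_cbsq h.fins).ii hu t x t t'
  have i2 := hl.cb.ii hu t x t t'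
  have h2 : (∫ r in t..t', (D.F (traj t x u r) (u r) ^ 2 / 2 - M)) ≤ actl ll t t' x u := by
    unfold actl
    refine intervalIntegral.integral_mono_on htt.le (i1.sub (by simp)) i2 (fun r _ => ?_)
    have := (abs_le.mp (hl.l_F (traj t x u r) (u r) r)).1
    linarith
  rw [intervalIntegral.integral_sub i1 (by simp), intervalIntegral.integral_div] at h2
  simp only [intervalIntegral.integral_const, smul_eq_mul] at h2
  have h3 : fd D.F x (traj t x u t') ^ 2 / (2 * (t' - t)) ≤
      (∫ r in t..t', D.F (traj t x u r) (u r) ^ 2) / 2 := by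
    rw [div_le_div_iff₀ (by positivity) (by norm_num)]
    nlinarith
  linarith

theorem C6_kerl_ge (h : D.Ok) (hl : TL D.β D.F D.mF D.MF m M ll) {t t' : ℝ} (htt : t < t')
    (x x' : E) : fd D.F x x' ^ 2 / (2 * (t' - t)) - M * (t' - t) ≤ kerl ll t t' x x' := by
  refine le_of_forall_pos_le_add (fun ε hε => ?_)
  obtain ⟨u, hu, hx, hlt⟩ := hl.cb.exists_lt htt x x' hε
  have := C6_act_ge h hl htt x hu
  rw [hx] at this
  linarith

/-- completing the square -/
theorem C6_sq (a DB s τ M : ℝ) (hτ : 0 < τ) :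
    a ^ 2 / (2 * τ) - M * τ - s * DB + s ^ 2 / 2 * τ =
      (a - s * τ) ^ 2 / (2 * τ) + s * (a - DB) - M * τ := by
  field_simp
  ring

theorem C6_per (hl : TL D.β D.F D.mF D.MF m M ll) {v : E} (hv : v ∈ D.Lam) :
    ∀ x u t, ll (x + v) u t = ll x u t := by
  have hv' : v ∈ Submodule.span ℤ (Set.range D.β) := hv
  clear hv
  induction hv' using Submodule.span_induction with
  | mem w hw =>
    obtain ⟨i, rfl⟩ := hw
    exact fun x u t => hl.per i x u t
  | zero => intro x u t; rw [add_zero]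
  | add a b ha hb iha ihb =>
    intro x u t
    rw [← add_assoc, ihb, iha]
  | smul k a ha iha =>
    have key : ∀ x u t, ll (x + a) u t = ll x u t := iha
    clear iha ha
    intro x u t
    induction k using Int.induction_on generalizing x with
    | zero => rw [zero_smul, add_zero]
    | succ n ih => rw [add_smul, one_smul, ← add_assoc, key, ih]
    | pred n ih =>
      have e : x + (-(n : ℤ) - 1) • a = (x - a) + (-(n : ℤ)) • a := by
        rw [sub_smul, one_smul]; abel
      rw [e, ih, ← key (x - a), sub_add_cancel]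

/-! ### kernels against passing costs -/

theorem kk_ge (h : D.Ok) (hl : TL D.β D.F D.mF D.MF m M ll) {s : ℝ} (hs : 0 ≤ s) {t t' : ℝ}
    (htt : t < t') (x x' : E) : s * D.j x x' - M * (t' - t) ≤ D.kk ll s t t' x x' := by
  have h0 : 0 < t' - t := by linarith
  obtain ⟨n, hn⟩ := K_attained h.li hl h.cal hs htt x x'
  unfold GD.kk
  rw [hn]
  have h1 := C6_kerl_ge h hl htt x (x' + lv D.b n)
  have h2 := C6_sq (fd D.F x (x' + lv D.b n)) (D.B (x' + lv D.b n) - D.B x) s (t' - t) M h0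
  have h3 := j_le h.toOk0 x x' n
  have h4 : 0 ≤ (fd D.F x (x' + lv D.b n) - s * (t' - t)) ^ 2 / (2 * (t' - t)) := by positivity
  have h5 := mul_le_mul_of_nonneg_left h3 hs
  linarith

/-- fast crossing of a distance is expensive -/
theorem kk_ge_fast (h : D.Ok) (hl : TL D.β D.F D.mF D.MF m M ll) {s : ℝ} (hs : 0 ≤ s) {t t' δ : ℝ}
    (htt : t < t') (x x' : E) (hd : ∀ n : Fin d → ℤ, δ ≤ ‖x' + lv D.b n - x‖)
    (hδ : s * (t' - t) ≤ D.mF * δ) :
    (D.mF * δ - s * (t' - t)) ^ 2 / (2 * (t' - t)) - M * (t' - t) ≤ D.kk ll s t t' x x' := by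
  have h0 : 0 < t' - t := by linarith
  obtain ⟨n, hn⟩ := K_attained h.li hl h.cal hs htt x x'
  unfold GD.kk
  rw [hn]
  have h1 := C6_kerl_ge h hl htt x (x' + lv D.b n)
  have h2 := C6_sq (fd D.F x (x' + lv D.b n)) (D.B (x' + lv D.b n) - D.B x) s (t' - t) M h0
  have h3 := B_le_fd h.toOk0 x (x' + lv D.b n)
  have h5 : 0 ≤ s * (fd D.F x (x' + lv D.b n) - (D.B (x' + lv D.b n) - D.B x)) :=
    mul_nonneg hs (by linarith)
  have h6 : D.mF * δ ≤ fd D.F x (x' + lv D.b n) :=
    (mul_le_mul_of_nonneg_left (hd n) h.fins.mF_pos.le).trans (le_fd h.fins _ _)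
  have h7 : (D.mF * δ - s * (t' - t)) ^ 2 / (2 * (t' - t)) ≤
      (fd D.F x (x' + lv D.b n) - s * (t' - t)) ^ 2 / (2 * (t' - t)) := by
    refine div_le_div_of_nonneg_right (pow_le_pow_left₀ (by linarith) (by linarith) 2)
      (by positivity)
  linarith

theorem kk_add (h : D.Ok) (hl : TL D.β D.F D.mF D.MF m M ll) {s : ℝ} (hs : 0 ≤ s) {t t' t'' : ℝ}
    (htt : t < t') (htt' : t' < t'') (x y z : E) :
    D.kk ll s t t'' x z ≤ D.kk ll s t t' x y + D.kk ll s t' t'' y z :=
  K_le_add h.li h.bβ hl h.cal hs htt htt' x y z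

theorem kk_J (h : D.Ok) (hl : TL D.β D.F D.mF D.MF m M ll) (s t t' : ℝ) (x x' : E)
    (n n' : Fin d → ℤ) : D.kk ll s t t' (x + lv D.b n) (x' + lv D.b n') = D.kk ll s t t' x x' :=
  K_per h.bβ hl h.cal s t t' x x' n n'

theorem kk_Lam (h : D.Ok) (hl : TL D.β D.F D.mF D.MF m M ll) {v : E} (hv : v ∈ D.Lam) (s t t' : ℝ)
    (x x' : E) : D.kk ll s t t' (x + v) (x' + v) = D.kk ll s t t' x x' := by
  obtain ⟨a, ha⟩ := h.Bper v hv
  exact K_shift v (C6_per hl hv) ha s t t' x x'

theorem kk_time (h : D.Ok) (hl : TL D.β D.F D.mF D.MF m M ll) (k : ℤ) (s t t' : ℝ) (x x' : E) :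
    D.kk ll s (t + k) (t' + k) x x' = D.kk ll s t t' x x' := by
  have key : ∀ a a' : ℝ, D.kk ll s (a + 1) (a' + 1) x x' = D.kk ll s a a' x x' := fun a a' =>
    K_time (fun x u t => hl.pert x u t) s a a' x x'
  induction k using Int.induction_on generalizing t t' with
  | zero => simp
  | succ n ih =>
    push_cast
    rw [← add_assoc, ← add_assoc, key]
    exact ih t t'
  | pred n ih =>
    have h1 := ih (t - 1) (t' - 1)
    have h2 := key (t - 1) (t' - 1)
    rw [sub_add_cancel, sub_add_cancel] at h2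
    rw [h2, ← h1]
    push_cast
    congr 1 <;> ring

/-- upper bound of the cost of a control -/
theorem kk_le_cst (h : D.Ok) (hl : TL D.β D.F D.mF D.MF m M ll) {s : ℝ} (hs : 0 ≤ s) {t t' : ℝ}
    (htt : t < t') {x x' : E} {u : ℝ → E} (hu : Adm u) {n : Fin d → ℤ}
    (hx : traj t x u t' = x' + lv D.b n) : D.kk ll s t t' x x' ≤ D.cst ll s t t' x u := by
  have h1 := K_le hl h.cal hs htt x x' n
  have h2 := hl.cb.kerl_le htt hu hx
  unfold GD.kk GD.cst
  rw [hx]
  linarith

theorem exists_cst_lt (h : D.Ok) (hl : TL D.β D.F D.mF D.MF m M ll) {s : ℝ} (hs : 0 ≤ s) {t t' ε : ℝ}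
    (htt : t < t') (hε : 0 < ε) (x x' : E) : ∃ (u : ℝ → E) (n : Fin d → ℤ), Adm u ∧
      traj t x u t' = x' + lv D.b n ∧ D.cst ll s t t' x u < D.kk ll s t t' x x' + ε := by
  obtain ⟨n, hn⟩ := K_attained h.li hl h.cal hs htt x x'
  obtain ⟨u, hu, hx, hlt⟩ := hl.cb.exists_lt htt x (x' + lv D.b n) hε
  refine ⟨u, n, hu, hx, ?_⟩
  unfold GD.kk GD.cst
  rw [hn, hx]
  linarith

theorem C6_traj {u : ℝ → E} (hu : Adm u) (t t' r : ℝ) (x : E) :
    traj t' (traj t x u t') u r = traj t x u r := by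
  unfold traj
  rw [add_assoc, intervalIntegral.integral_add_adjacent_intervals (hu.ii _ _) (hu.ii _ _)]

theorem cst_add (hl : TL D.β D.F D.mF D.MF m M ll) (s : ℝ) {t t' t'' : ℝ} (htt : t ≤ t')
    (htt' : t' ≤ t'') (x : E) {u : ℝ → E} (hu : Adm u) :
    D.cst ll s t t'' x u = D.cst ll s t t' x u + D.cst ll s t' t'' (traj t x u t') u := by
  have h1 : actl ll t t'' x u = actl ll t t' x u + actl ll t' t'' (traj t x u t') u := by
    unfold actl
    simp only [C6_traj hu]
    exact (intervalIntegral.integral_add_adjacent_intervals (hl.cb.ii hu t x t t')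
      (hl.cb.ii hu t x t' t'')).symm
  unfold GD.cst
  rw [h1, C6_traj hu]
  ring

theorem cst_ge (h : D.Ok) (hl : TL D.β D.F D.mF D.MF m M ll) {s : ℝ} (hs : 0 ≤ s) {t t' : ℝ}
    (htt : t ≤ t') (x : E) {u : ℝ → E} (hu : Adm u) :
    s * D.j x (traj t x u t') - M * (t' - t) ≤ D.cst ll s t t' x u := by
  rcases htt.eq_or_lt with rfl | htt
  · have e : traj t x u t = x := by simp [traj]
    unfold GD.cst actl
    rw [e, j_self h.toOk0]
    simp
  · have h0 : 0 < t' - t := by linarith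
    have h1 := C6_act_ge h hl htt x hu
    have h2 := C6_sq (fd D.F x (traj t x u t')) (D.B (traj t x u t') - D.B x) s (t' - t) M h0
    have h3 := j_le h.toOk0 x (traj t x u t') 0
    rw [C6_lv0, add_zero] at h3
    have h4 : 0 ≤ (fd D.F x (traj t x u t') - s * (t' - t)) ^ 2 / (2 * (t' - t)) := by positivity
    have h5 := mul_le_mul_of_nonneg_left h3 hs
    unfold GD.cst
    linarith

end EscG
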