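import Pool.Agent.EscG.C3
import Pool.Agent.EscG.C6

/-!
Project EscG (MP_6acca1_an), core, module C7: fast cheap paths pass near an anchor.
-/

noncomputable section

namespace EscG

open MeasureTheory Set Filter Topology Esc EscF
open scoped ContDiff

variable {ι : Type} [Fintype ι] {d : ℕ} {E : Type*} [NormedAddCommGroup E] [InnerProductSpace ℝ E]
  [FiniteDimensional ℝ E] {D : GD ι d E} {m M : ℝ} {ll : E → E → ℝ → ℝ}

set_option linter.unusedSectionVars false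

theorem C7_lv_mem (h : D.Ok) (n : Fin d → ℤ) : lv D.b n ∈ D.Lam := by
  unfold lv
  refine sum_mem fun i _ => ?_
  obtain ⟨k, hk⟩ := h.bβ i
  rw [hk, Int.cast_smul_eq_zsmul]
  exact zsmul_mem (Submodule.subset_span ⟨k, rfl⟩ : D.β k ∈ Submodule.span ℤ (Set.range D.β)) _

/-- a continuous path which enters a closed set meets its frontier -/
theorem C7_cross {Z : Set E} (hZ : IsClosed Z) {γ : ℝ → E} (hγ : Continuous γ) {a b a' b' : ℝ}
    (ha : a' ∈ Icc a b) (hb : b' ∈ Icc a b) (h1 : γ a' ∉ Z) (h2 : γ b' ∈ Z) :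
    ∃ r ∈ Icc a b, γ r ∈ frontier Z := by
  by_contra hcon
  push Not at hcon
  have hin : ∀ r ∈ Icc a b, γ r ∈ Z → γ r ∈ interior Z := by
    intro r hr hz
    by_contra hn
    exact hcon r hr ⟨subset_closure hz, hn⟩
  obtain ⟨r, hr, h3, h4⟩ := isPreconnected_Icc (γ ⁻¹' Zᶜ) (γ ⁻¹' interior Z)
    (hZ.isOpen_compl.preimage hγ) (isOpen_interior.preimage hγ) (fun r hr => by
      by_cases hz : γ r ∈ Z
      · exact Or.inr (hin r hr hz)
      · exact Or.inl hz) ⟨a', ha, h1⟩ ⟨b', hb, hin b' hb h2⟩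
  exact h3 (interior_subset h4)

/-- a path which does not stay away from all rooms and is outside of all rooms at some time passes
near an anchor -/
theorem C7_anchor (h : D.Ok) {u : ℝ → E} (hu : Adm u) {t t' η : ℝ} (hη : 0 < η) (x : E)
    (hout : ¬ ∀ r ∈ Icc t t', traj t x u r ∈ D.Out η) {r0 : ℝ} (hr0 : r0 ∈ Icc t t')
    (hend : ∀ v ∈ D.Lam, traj t x u r0 + v ∉ D.Z) :
    ∃ r1 ∈ Icc t t', ∃ q ∈ D.P0, ∃ v ∈ D.Lam,
      D.j (traj t x u r1) (q + v) + D.j (q + v) (traj t x u r1) ≤ 4 * D.MF * η := by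
  have hMF : 0 < D.MF := lt_of_lt_of_le h.fins.mF_pos h.fins.mF_le
  push Not at hout
  obtain ⟨r, hr, hn⟩ := hout
  simp only [GD.Out, mem_ofPred_eq, not_forall, not_le] at hn
  obtain ⟨v, hv, hlt⟩ := hn
  by_cases hz : traj t x u r + v ∈ D.Z
  · obtain ⟨r1, hr1, hf⟩ := C7_cross h.Z_closed (γ := fun r => traj t x u r + v)
      ((traj_cont hu t x).add continuous_const) hr0 hr (hend v hv) hz
    obtain ⟨q, hq, hj⟩ := h.front _ hf
    refine ⟨r1, hr1, q, hq, -v, neg_mem hv, ?_⟩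
    have e1 := j_Lam h.toOk0 hv (traj t x u r1) (q + -v)
    have e2 := j_Lam h.toOk0 hv (q + -v) (traj t x u r1)
    have e3 : q + -v + v = q := by abel
    rw [e3] at e1 e2
    have : 0 ≤ 4 * D.MF * η := by positivity
    linarith
  · obtain ⟨q, hq, v', hv', hj⟩ := nearP h.toOk0 hv hz hlt.le
    exact ⟨r, hr, q, hq, v', hv', hj⟩

/-- a path which stays away from all rooms is expensive -/
theorem C7_exp (h : D.Ok) (hl : TL D.β D.F D.mF D.MF m M ll) {s θ η : ℝ} (hs : 0 ≤ s) (hθ : 0 < θ)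
    (hθ1 : θ ≤ 1) (hst : ∀ (z : E) (u : ℝ → E), Adm u → ∀ a b' : ℝ, a ≤ b' →
      (∀ t ∈ Icc a b', traj a z u t ∈ D.Out η) →
      D.B (traj a z u b') - D.B z ≤ (1 - θ) * ∫ t in a..b', D.F (traj a z u t) (u t))
    {t t' : ℝ} (htt : t < t') (x : E) {u : ℝ → E} (hu : Adm u)
    (hout : ∀ r ∈ Icc t t', traj t x u r ∈ D.Out η) :
    θ * s ^ 2 / 2 * (t' - t) - M * (t' - t) ≤ D.cst ll s t t' x u := by
  have h1 := act_speed hl h.cal s htt x hu
  have h2 := hst x u hu t t' htt.le hout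
  have i1 := A5a_ii h.fins hu t x t t'
  have i2 := A5a_iiQ h.fins s hu t x t t'
  have h3 : (∫ r in t..t', θ * s ^ 2 / 2) ≤
      ∫ r in t..t', ((D.F (traj t x u r) (u r) - s) ^ 2 / 2 +
        s * θ * D.F (traj t x u r) (u r)) := by
    refine intervalIntegral.integral_mono_on htt.le (by simp) (i2.add (i1.const_mul _)) (fun r _ => ?_)
    set F := D.F (traj t x u r) (u r)
    nlinarith [sq_nonneg (F - s * (1 - θ)), mul_nonneg (mul_nonneg (sq_nonneg s) hθ.le)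
      (sub_nonneg.2 hθ1)]
  rw [intervalIntegral.integral_add i2 (i1.const_mul _), intervalIntegral.integral_const_mul] at h3
  simp only [intervalIntegral.integral_const, smul_eq_mul] at h3
  unfold GD.cst
  nlinarith [mul_le_mul_of_nonneg_left h2 hs]

theorem C7_low (h : D.Ok) (m M C : ℝ) {ε : ℝ} (hε : 0 < ε) : ∃ s0 : ℝ, 1 ≤ s0 ∧ ∀ s, s0 ≤ s → ∀ ll,
    TL D.β D.F D.mF D.MF m M ll → ∀ t t', 1 / 4 ≤ t' - t → t' - t ≤ 4 → ∀ x x' : E,
    ((∀ v ∈ D.Lam, x + v ∉ D.Z) ∨ ∀ v ∈ D.Lam, x' + v ∉ D.Z) →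
    D.kk ll s t t' x x' ≤ C * s → ∃ q ∈ D.P0, ∃ v ∈ D.Lam,
      s * (D.j x (q + v) + D.j (q + v) x') ≤ D.kk ll s t t' x x' + ε * s := by
  have hMF : 0 < D.MF := lt_of_lt_of_le h.fins.mF_pos h.fins.mF_le
  set η : ℝ := ε / (8 * D.MF) with hηd
  have hη : 0 < η := by positivity
  have hη4 : 4 * D.MF * η = ε / 2 := by
    rw [hηd]; field_simp; ring
  obtain ⟨θ, hθ, hθ1, hst⟩ := h.strict η hη
  refine ⟨max 1 (max ((8 * (|C| + 1) + 32 * |M| + 8) / θ) ((2 + 8 * |M|) / ε)), le_max_left _ _, ?_⟩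
  intro s hs ll hl t t' h14 h4 x x' hend hC
  have hs1 : 1 ≤ s := (le_max_left _ _).trans hs
  have hs0 : 0 ≤ s := by linarith
  have hsθ : (8 * (|C| + 1) + 32 * |M| + 8) / θ ≤ s :=
    ((le_max_left _ _).trans (le_max_right _ _)).trans hs
  have hsε : (2 + 8 * |M|) / ε ≤ s := ((le_max_right _ _).trans (le_max_right _ _)).trans hs
  rw [div_le_iff₀ hθ] at hsθ
  rw [div_le_iff₀ hε] at hsε
  have htt : t < t' := by linarith
  have hM := hl.M_nonneg
  have hMa : |M| = M := abs_of_nonneg hM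
  rw [hMa] at hsθ hsε
  obtain ⟨u, n, hu, hx, hlt⟩ := exists_cst_lt h hl hs0 htt one_pos x x'
  -- the path does not stay away from the rooms
  have hout : ¬ ∀ r ∈ Icc t t', traj t x u r ∈ D.Out η := by
    intro hout
    have h1 := C7_exp h hl hs0 hθ hθ1 hst htt x hu hout
    have h2 : M * (t' - t) ≤ 4 * M := by nlinarith
    have h3 : θ * s ^ 2 / 8 ≤ θ * s ^ 2 / 2 * (t' - t) := by
      have : 0 ≤ θ * s ^ 2 := by positivity
      nlinarith
    have h5 : C * s ≤ |C| * s := mul_le_mul_of_nonneg_right (le_abs_self C) hs0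
    have h6 : (8 * (|C| + 1) + 32 * M + 8) * s ≤ s * θ * s := mul_le_mul_of_nonneg_right hsθ hs0
    have h7 : 0 ≤ M * (s - 1) := mul_nonneg hM (by linarith)
    nlinarith
  obtain ⟨r0, hr0, hend'⟩ : ∃ r0 ∈ Icc t t', ∀ v ∈ D.Lam, traj t x u r0 + v ∉ D.Z := by
    rcases hend with hend | hend
    · refine ⟨t, ⟨le_rfl, htt.le⟩, fun v hv => ?_⟩
      have : traj t x u t = x := by simp [traj]
      rw [this]
      exact hend v hv
    · refine ⟨t', ⟨htt.le, le_rfl⟩, fun v hv => ?_⟩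
      rw [hx, add_assoc]
      exact hend _ (add_mem (C7_lv_mem h n) hv)
  obtain ⟨r1, hr1, q, hq, v, hv, hj⟩ := C7_anchor h hu hη x hout hr0 hend'
  refine ⟨q, hq, v, hv, ?_⟩
  set z := traj t x u r1 with hz
  have h1 := cst_ge h hl hs0 hr1.1 x hu
  have h2 := cst_ge h hl hs0 hr1.2 z hu
  have h3 := cst_add hl s hr1.1 hr1.2 x hu
  have h4' : traj r1 z u t' = x' + lv D.b n := by rw [hz, C6_traj hu, hx]
  have h5 : D.j z (x' + lv D.b n) = D.j z x' := by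
    have := j_J h.toOk0 z x' 0 n
    rwa [C6_lv0, add_zero] at this
  rw [h4', h5] at h2
  have t1 := j_tri h.toOk0 x z (q + v)
  have t2 := j_tri h.toOk0 (q + v) z x'
  rw [hη4] at hj
  have h6 : D.j x (q + v) + D.j (q + v) x' ≤ D.j x z + D.j z x' + ε / 2 := by linarith
  have h7 := mul_le_mul_of_nonneg_left h6 hs0
  have h8 : M * (t' - t) ≤ 4 * M := by nlinarith
  nlinarith

/-- lower bound through an anchor if the starting point is outside of the rooms -/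
theorem low0 (h : D.Ok) (m M C : ℝ) {ε : ℝ} (hε : 0 < ε) : ∃ s0 : ℝ, 1 ≤ s0 ∧ ∀ s, s0 ≤ s → ∀ ll,
    TL D.β D.F D.mF D.MF m M ll → ∀ t t', 1 / 4 ≤ t' - t → t' - t ≤ 4 → ∀ x x' : E,
    (∀ v ∈ D.Lam, x + v ∉ D.Z) → D.kk ll s t t' x x' ≤ C * s → ∃ q ∈ D.P0, ∃ v ∈ D.Lam,
      s * (D.j x (q + v) + D.j (q + v) x') ≤ D.kk ll s t t' x x' + ε * s := by
  obtain ⟨s0, h1, H⟩ := C7_low h m M C hε
  exact ⟨s0, h1, fun s hs ll hl t t' h14 h4 x x' hx => H s hs ll hl t t' h14 h4 x x' (Or.inl hx)⟩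

/-- the same if the end point is outside of the rooms -/
theorem low1 (h : D.Ok) (m M C : ℝ) {ε : ℝ} (hε : 0 < ε) : ∃ s0 : ℝ, 1 ≤ s0 ∧ ∀ s, s0 ≤ s → ∀ ll,
    TL D.β D.F D.mF D.MF m M ll → ∀ t t', 1 / 4 ≤ t' - t → t' - t ≤ 4 → ∀ x x' : E,
    (∀ v ∈ D.Lam, x' + v ∉ D.Z) → D.kk ll s t t' x x' ≤ C * s → ∃ q ∈ D.P0, ∃ v ∈ D.Lam,
      s * (D.j x (q + v) + D.j (q + v) x') ≤ D.kk ll s t t' x x' + ε * s := by
  obtain ⟨s0, h1, H⟩ := C7_low h m M C hε
  exact ⟨s0, h1, fun s hs ll hl t t' h14 h4 x x' hx => H s hs ll hl t t' h14 h4 x x' (Or.inr hx)⟩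

end EscG
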