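import Pool.Agent.EscG.CDefs
import Pool.Agent.EscG.A1
import Pool.Agent.EscG.A5a
import Pool.Agent.EscG.C1
import Pool.Agent.EscG.C2
import Pool.Agent.EscG.C6

/-!
Project EscG (MP_6acca1_an), module C8: upper bound of the kernels at speed `s` through an anchor
(helper46).
-/

set_option linter.unusedSectionVars false
set_option linter.unusedVariables false

noncomputable section

namespace EscG

open MeasureTheory Set Filter Topology Esc EscF
open scoped ContDiff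

variable {ι : Type} [Fintype ι] {d : ℕ} {E : Type*} [NormedAddCommGroup E] [InnerProductSpace ℝ E]
  [FiniteDimensional ℝ E] {D : GD ι d E} {m M : ℝ} {ll : E → E → ℝ → ℝ}

/-! ### the kernel against the energy distance -/

theorem C8_kerl_le (h : D.Ok) (hl : TL D.β D.F D.mF D.MF m M ll) {t t' : ℝ} (htt : t < t') (z z' : E) :
    kerl ll t t' z z' ≤ fd D.F z z' ^ 2 / (2 * (t' - t)) + M * (t' - t) := by
  have hτ : 0 < t' - t := sub_pos.mpr htt
  have hcb := A5a_cb hl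
  have hcbQ := A5a_cbQ h.fins 0
  have hfin : ∀ ε : ℝ, 0 < ε → kerl ll t t' z z' ≤
      fd D.F z z' ^ 2 / (2 * (t' - t)) + M * (t' - t) + ε := by
    intro ε hε
    obtain ⟨u, hu, hz, hE⟩ := exists_energy h.fins htt (ε := ε * (2 * (t' - t)))
      (mul_pos hε (by linarith)) z z'
    have h1 := hcb.kerl_le htt hu hz
    have h2 : actl ll t t' z u ≤ ∫ r in t..t', ((D.F (traj t z u r) (u r) - 0) ^ 2 / 2 + M) := by
      unfold actl
      refine intervalIntegral.integral_mono_on htt.le (hcb.ii hu t z t t')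
        ((hcbQ.ii hu t z t t').add intervalIntegrable_const) fun r _ => ?_
      have h3 := abs_le.mp (hl.l_F (traj t z u r) (u r) r)
      rw [sub_zero]
      linarith [h3.2]
    have h4 : ∫ r in t..t', ((D.F (traj t z u r) (u r) - 0) ^ 2 / 2 + M) =
        (∫ r in t..t', D.F (traj t z u r) (u r) ^ 2) / 2 + M * (t' - t) := by
      rw [intervalIntegral.integral_add (hcbQ.ii hu t z t t') intervalIntegrable_const,
        intervalIntegral.integral_const, smul_eq_mul]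
      simp only [sub_zero]
      rw [intervalIntegral.integral_div]
      ring
    have h5 : (∫ r in t..t', D.F (traj t z u r) (u r) ^ 2) / 2 ≤
        fd D.F z z' ^ 2 / (2 * (t' - t)) + ε := by
      have h6 : (∫ r in t..t', D.F (traj t z u r) (u r) ^ 2) ≤
          (fd D.F z z' ^ 2 + ε * (2 * (t' - t))) / (t' - t) := by
        rw [le_div_iff₀ hτ]
        linarith
      have h7 : (fd D.F z z' ^ 2 + ε * (2 * (t' - t))) / (t' - t) =
          2 * (fd D.F z z' ^ 2 / (2 * (t' - t)) + ε) := by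
        field_simp
      linarith
    linarith
  exact le_of_forall_pos_le_add hfin

/-- cost of a passage of length at most `L` -/
theorem C8_kk_le (h : D.Ok) (hl : TL D.β D.F D.mF D.MF m M ll) {s : ℝ} (hs : 0 ≤ s) {t t' : ℝ}
    (htt : t < t') (x x' : E) (n : Fin d → ℤ) {L : ℝ} (hL : fd D.F x (x' + lv D.b n) ≤ L) :
    D.kk ll s t t' x x' ≤ (L - s * (t' - t)) ^ 2 / (2 * (t' - t)) +
      s * (L - (D.B (x' + lv D.b n) - D.B x)) + M * (t' - t) := by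
  have hτ : 0 < t' - t := sub_pos.mpr htt
  have h1 := K_le hl h.cal hs htt x x' n
  have h2 := C8_kerl_le h hl htt x (x' + lv D.b n)
  have h3 : fd D.F x (x' + lv D.b n) ^ 2 / (2 * (t' - t)) ≤ L ^ 2 / (2 * (t' - t)) := by
    refine div_le_div_of_nonneg_right ?_ (by linarith)
    exact pow_le_pow_left₀ (fd_nonneg _ _ _) hL 2
  have h4 : (L - s * (t' - t)) ^ 2 / (2 * (t' - t)) =
      L ^ 2 / (2 * (t' - t)) - s * L + s ^ 2 / 2 * (t' - t) := by
    field_simp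
    ring
  have h5 : D.kk ll s t t' x x' = K D.b D.B s ll t t' x x' := rfl
  rw [h5, h4]
  nlinarith [h1, h2, h3]

/-! ### near-optimal shifts from finite sets -/

theorem C8_F_per (h : D.Ok) (n : Fin d → ℤ) (x u : E) : D.F (x + lv D.b n) u = D.F x u := by
  refine A5a_per (g := fun y => D.F y u) (fun i y => ?_) n x
  obtain ⟨k, hk⟩ := h.bβ i
  simp only [hk]
  exact h.fins.per k y u

theorem C8_shifts (h : D.Ok) (ρ : ℝ) {ε : ℝ} (hε : 0 < ε) : ∃ C : ℝ, ∀ x x' : E, ‖x‖ ≤ ρ → ‖x'‖ ≤ ρ →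
    ∃ n : Fin d → ℤ, fd D.F x (x' + lv D.b n) ≤ C ∧
      fd D.F x (x' + lv D.b n) - (D.B (x' + lv D.b n) - D.B x) ≤ D.j x x' + ε := by
  have hMF : 0 < D.MF := lt_of_lt_of_le h.fins.mF_pos h.fins.mF_le
  set P : Set (E × E) → Prop := fun S => ∃ C : ℝ, ∀ y ∈ S, ∃ n : Fin d → ℤ,
    fd D.F y.1 (y.2 + lv D.b n) ≤ C ∧
      fd D.F y.1 (y.2 + lv D.b n) - (D.B (y.2 + lv D.b n) - D.B y.1) ≤ D.j y.1 y.2 + ε with hP
  have hK : IsCompact (Metric.closedBall (0 : E) ρ ×ˢ Metric.closedBall (0 : E) ρ) :=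
    (isCompact_closedBall _ _).prod (isCompact_closedBall _ _)
  have hmain : P (Metric.closedBall (0 : E) ρ ×ˢ Metric.closedBall (0 : E) ρ) := by
    refine hK.induction_on (p := P) ?_ ?_ ?_ ?_
    · exact ⟨0, fun y hy => absurd hy (Set.notMem_empty y)⟩
    · rintro S T hST ⟨C, hC⟩
      exact ⟨C, fun y hy => hC y (hST hy)⟩
    · rintro S T ⟨C, hC⟩ ⟨C', hC'⟩
      refine ⟨max C C', fun y hy => ?_⟩
      rcases hy with hy | hy
      · obtain ⟨n, h1, h2⟩ := hC y hy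
        exact ⟨n, h1.trans (le_max_left _ _), h2⟩
      · obtain ⟨n, h1, h2⟩ := hC' y hy
        exact ⟨n, h1.trans (le_max_right _ _), h2⟩
    · intro y0 _
      obtain ⟨n, hn⟩ := exists_j_lt h.toOk0 y0.1 y0.2 (ε := ε / 2) (half_pos hε)
      set δ : ℝ := ε / (16 * D.MF) with hδ
      have hδ0 : 0 < δ := div_pos hε (by linarith)
      have hδ1 : D.MF * δ = ε / 16 := by
        rw [hδ]
        field_simp
      refine ⟨Metric.ball y0 δ, mem_nhdsWithin_of_mem_nhds (Metric.ball_mem_nhds y0 hδ0),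
        fd D.F y0.1 (y0.2 + lv D.b n) + ε, fun y hy => ⟨n, ?_⟩⟩
      have hy' : dist y y0 < δ := hy
      rw [Prod.dist_eq, max_lt_iff, dist_eq_norm, dist_eq_norm] at hy'
      have hy1 : ‖y.1 - y0.1‖ ≤ δ := hy'.1.le
      have hy2 : ‖y.2 - y0.2‖ ≤ δ := hy'.2.le
      have hy1' : ‖y0.1 - y.1‖ ≤ δ := by rw [norm_sub_rev]; exact hy1
      have hy2' : ‖y0.2 - y.2‖ ≤ δ := by rw [norm_sub_rev]; exact hy2
      have e1 : D.MF * ‖y.1 - y0.1‖ ≤ ε / 16 := by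
        rw [← hδ1]; exact mul_le_mul_of_nonneg_left hy1 hMF.le
      have e1' : D.MF * ‖y0.1 - y.1‖ ≤ ε / 16 := by
        rw [← hδ1]; exact mul_le_mul_of_nonneg_left hy1' hMF.le
      have e2 : D.MF * ‖y.2 - y0.2‖ ≤ ε / 16 := by
        rw [← hδ1]; exact mul_le_mul_of_nonneg_left hy2 hMF.le
      have e2' : D.MF * ‖y0.2 - y.2‖ ≤ ε / 16 := by
        rw [← hδ1]; exact mul_le_mul_of_nonneg_left hy2' hMF.le
      have a1 := fd_tri h.fins y.1 y0.1 (y.2 + lv D.b n)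
      have a2 := fd_tri h.fins y0.1 (y0.2 + lv D.b n) (y.2 + lv D.b n)
      have a3 := fd_le h.fins y.1 y0.1
      have a4 := fd_le h.fins (y0.2 + lv D.b n) (y.2 + lv D.b n)
      rw [add_sub_add_right_eq_sub] at a4
      have b1 := abs_le.mp (Cal.lip h.fins h.cal y.1 y0.1)
      have b2 := abs_le.mp (Cal.lip h.fins h.cal (y.2 + lv D.b n) (y0.2 + lv D.b n))
      rw [add_sub_add_right_eq_sub] at b2
      have c1 := j_tri h.toOk0 y0.1 y.1 y0.2
      have c2 := j_tri h.toOk0 y.1 y.2 y0.2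
      have c3 := j_lip h.toOk0 y0.1 y.1
      have c4 := j_lip h.toOk0 y.2 y0.2
      constructor
      · linarith
      · linarith [b1.1, b1.2, b2.1, b2.2]
  obtain ⟨C, hC⟩ := hmain
  refine ⟨C, fun x x' hx hx' => hC (x, x') ⟨?_, ?_⟩⟩
  · rw [mem_closedBall_zero_iff]; exact hx
  · rw [mem_closedBall_zero_iff]; exact hx'

/-! ### upper bound through an anchor -/

theorem C8_route (h : D.Ok) (x q x' : E) (n1 n n2 : Fin d → ℤ) :
    fd D.F x (x' + lv D.b (n1 + n + n2)) ≤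
        fd D.F x (q + lv D.b n1) + fd D.F q (q + lv D.b n) + fd D.F q (x' + lv D.b n2) ∧
      D.B (x' + lv D.b (n1 + n + n2)) - D.B x = (D.B (q + lv D.b n1) - D.B x) +
        (D.B (q + lv D.b n) - D.B q) + (D.B (x' + lv D.b n2) - D.B q) := by
  have hs : ∀ k : Fin d → ℤ, ∀ y y' : E, fd D.F (y + lv D.b k) (y' + lv D.b k) = fd D.F y y' :=
    fun k y y' => fd_shift (lv D.b k) (C8_F_per h k) y y'
  have e1 : q + lv D.b n + lv D.b n1 = q + lv D.b (n1 + n) := by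
    rw [A5a_lv_add]; abel
  have e2 : x' + lv D.b n2 + lv D.b (n1 + n) = x' + lv D.b (n1 + n + n2) := by
    rw [A5a_lv_add, A5a_lv_add, A5a_lv_add]; abel
  constructor
  · have a1 := fd_tri h.fins x (q + lv D.b n1) (x' + lv D.b (n1 + n + n2))
    have a2 := fd_tri h.fins (q + lv D.b n1) (q + lv D.b (n1 + n)) (x' + lv D.b (n1 + n + n2))
    have a3 := hs n1 q (q + lv D.b n)
    rw [e1] at a3
    have a4 := hs (n1 + n) q (x' + lv D.b n2)
    rw [e2] at a4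
    linarith
  · rw [h.cal.lvB, h.cal.lvB n1 q, h.cal.lvB n q, h.cal.lvB n2 x']
    have e3 : ∑ i, (((n1 + n + n2) i : ℤ) : ℝ) * D.c i = (∑ i, (n1 i : ℝ) * D.c i) +
        (∑ i, (n i : ℝ) * D.c i) + ∑ i, (n2 i : ℝ) * D.c i := by
      rw [← Finset.sum_add_distrib, ← Finset.sum_add_distrib]
      refine Finset.sum_congr rfl fun i _ => ?_
      rw [Pi.add_apply, Pi.add_apply, Int.cast_add, Int.cast_add]
      ring
    rw [e3]
    ring

theorem C8_M {M t t' : ℝ} (htt1 : 1 / 4 ≤ t' - t) (htt4 : t' - t ≤ 4) : M * (t' - t) ≤ 4 * |M| := by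
  have e1 : M * (t' - t) ≤ |M| * (t' - t) := mul_le_mul_of_nonneg_right (le_abs_self M) (by linarith)
  have e2 : |M| * (t' - t) ≤ |M| * 4 := mul_le_mul_of_nonneg_left htt4 (abs_nonneg M)
  linarith

theorem C8_upp_ball (h : D.Ok) (m M ρ : ℝ) {ε : ℝ} (hε : 0 < ε) {q : E} (hq : D.Anc q) :
    ∃ s0 : ℝ, 1 ≤ s0 ∧ ∀ s, s0 ≤ s → ∀ ll,
    TL D.β D.F D.mF D.MF m M ll → ∀ t t', 1 / 4 ≤ t' - t → t' - t ≤ 4 → ∀ x x' : E, ‖x‖ ≤ ρ → ‖x'‖ ≤ ρ →
    D.kk ll s t t' x x' ≤ s * (D.j x q + D.j q x') + ε * s := by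
  have hε1 : 0 < ε / 8 := by linarith
  obtain ⟨C0, hC0⟩ := C8_shifts h (max ρ ‖q‖) hε1
  obtain ⟨C2, hC2⟩ := hq (ε / 8) hε1
  set C1 : ℝ := |C0| with hC1
  have hC1n : 0 ≤ C1 := abs_nonneg _
  have hC01 : C0 ≤ C1 := le_abs_self _
  refine ⟨1 + 8 * C1 + (2 * C2 ^ 2 + 4 * |M|) * 2 / ε, ?_, ?_⟩
  · have : 0 ≤ (2 * C2 ^ 2 + 4 * |M|) * 2 / ε := by positivity
    linarith
  intro s hs ll hl t t' htt1 htt4 x x' hx hx'
  have hK : 0 ≤ (2 * C2 ^ 2 + 4 * |M|) * 2 / ε := by positivity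
  have hs1 : 1 ≤ s := by linarith
  have hs8 : 8 * C1 ≤ s := by linarith
  have hsK : 2 * C2 ^ 2 + 4 * |M| ≤ ε / 2 * s := by
    have h1 : (2 * C2 ^ 2 + 4 * |M|) * 2 / ε ≤ s := by linarith
    rw [div_le_iff₀ hε] at h1
    linarith
  have htt : t < t' := by linarith
  have hτ : 0 < t' - t := by linarith
  obtain ⟨n1, hd1, hj1⟩ := hC0 x q (hx.trans (le_max_left _ _)) (le_max_right _ _)
  obtain ⟨n2, hd2, hj2⟩ := hC0 q x' (le_max_right _ _) (hx'.trans (le_max_left _ _))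
  set d1 : ℝ := fd D.F x (q + lv D.b n1) with hd1d
  set d2 : ℝ := fd D.F q (x' + lv D.b n2) with hd2d
  have hsτ : s / 4 ≤ s * (t' - t) := by
    have := mul_le_mul_of_nonneg_left htt1 (by linarith : (0:ℝ) ≤ s)
    linarith
  obtain ⟨n, hn1, hn2, hn3⟩ := hC2 (s * (t' - t) - d1 - d2) (by linarith)
  obtain ⟨hr1, hr2⟩ := C8_route h x q x' n1 n n2
  have hkk := C8_kk_le h hl (by linarith : (0:ℝ) ≤ s) htt x x' (n1 + n + n2) hr1
  rw [hr2] at hkk
  set Lp : ℝ := fd D.F q (q + lv D.b n) with hLp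
  have hC2n : 0 ≤ C2 := by linarith
  have h1 : (d1 + Lp + d2 - s * (t' - t)) ^ 2 ≤ C2 ^ 2 := by
    have e1 : 0 ≤ d1 + Lp + d2 - s * (t' - t) := by linarith
    have e2 : d1 + Lp + d2 - s * (t' - t) ≤ C2 := by linarith
    exact pow_le_pow_left₀ e1 e2 2
  have h2 : (d1 + Lp + d2 - s * (t' - t)) ^ 2 / (2 * (t' - t)) ≤ 2 * C2 ^ 2 := by
    rw [div_le_iff₀ (by linarith)]
    have e1 : 2 * C2 ^ 2 * (1 / 4) ≤ 2 * C2 ^ 2 * (t' - t) :=
      mul_le_mul_of_nonneg_left htt1 (by positivity)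
    linarith
  have h3 : M * (t' - t) ≤ 4 * |M| := C8_M htt1 htt4
  have h4 : d1 + Lp + d2 - ((D.B (q + lv D.b n1) - D.B x) + (D.B (q + lv D.b n) - D.B q) +
      (D.B (x' + lv D.b n2) - D.B q)) ≤ D.j x q + D.j q x' + 3 * (ε / 8) := by linarith
  have h5 := mul_le_mul_of_nonneg_left h4 (by linarith : (0:ℝ) ≤ s)
  have h6 : s * (D.j x q + D.j q x' + 3 * (ε / 8)) = s * (D.j x q + D.j q x') + 3 / 8 * (ε * s) := by
    ring
  have h7 : 0 ≤ ε * s := mul_nonneg hε.le (by linarith)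
  have h8 : ε / 2 * s = 1 / 2 * (ε * s) := by ring
  linarith

theorem C8_lv0 (x : E) : x + lv D.b (0 : Fin d → ℤ) = x := by
  rw [A5a_lv_zero, add_zero]

theorem upp (h : D.Ok) (m M ρ : ℝ) {ε : ℝ} (hε : 0 < ε) : ∃ s0 : ℝ, 1 ≤ s0 ∧ ∀ s, s0 ≤ s → ∀ ll,
    TL D.β D.F D.mF D.MF m M ll → ∀ t t', 1 / 4 ≤ t' - t → t' - t ≤ 4 → ∀ x ∈ D.X ρ, ∀ x' ∈ D.X ρ,
    ∀ q ∈ D.P0, D.kk ll s t t' x x' ≤ s * (D.j x q + D.j q x') + ε * s := by
  obtain ⟨s1, h11, hs1⟩ := C8_upp_ball h m M ρ hε h.anc0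
  obtain ⟨s2, h12, hs2⟩ := C8_upp_ball h m M ρ hε h.anc1
  refine ⟨max s1 s2, h11.trans (le_max_left _ _), ?_⟩
  intro s hs ll hl t t' htt1 htt4 x hx x' hx' q hq
  obtain ⟨k, hk⟩ := hx
  obtain ⟨k', hk'⟩ := hx'
  rw [← kk_J h hl s t t' x x' k k', ← j_J h.toOk0 x q k 0, ← j_J h.toOk0 q x' 0 k', C8_lv0]
  rcases hq with hq | hq
  · rw [hq]
    exact hs1 s ((le_max_left _ _).trans hs) ll hl t t' htt1 htt4 _ _ hk hk'
  · rw [mem_singleton_iff] at hq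
    rw [hq]
    exact hs2 s ((le_max_right _ _).trans hs) ll hl t t' htt1 htt4 _ _ hk hk'

/-- hence a linear bound -/
theorem kk_lin (h : D.Ok) (m M ρ : ℝ) : ∃ C s0 : ℝ, 0 ≤ C ∧ 1 ≤ s0 ∧ ∀ s, s0 ≤ s → ∀ ll,
    TL D.β D.F D.mF D.MF m M ll → ∀ t t', 1 / 4 ≤ t' - t → t' - t ≤ 4 → ∀ x ∈ D.X ρ, ∀ x' ∈ D.X ρ,
    |D.kk ll s t t' x x'| ≤ C * s := by
  have hMF : 0 < D.MF := lt_of_lt_of_le h.fins.mF_pos h.fins.mF_le
  obtain ⟨s0, h0, hs0⟩ := upp h m M ρ one_pos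
  refine ⟨4 * D.MF * (|ρ| + ‖D.q0‖) + 1 + 4 * |M|, s0, by positivity, h0, ?_⟩
  intro s hs ll hl t t' htt1 htt4 x hx x' hx'
  have hu := hs0 s hs ll hl t t' htt1 htt4 x hx x' hx' D.q0 (Or.inl rfl)
  have hs1 : 1 ≤ s := h0.trans hs
  have hge := kk_ge h hl (by linarith : (0:ℝ) ≤ s) (by linarith : t < t') x x'
  have hjn := j_nonneg h.toOk0 x x'
  have h3 : M * (t' - t) ≤ 4 * |M| := C8_M htt1 htt4
  have hM : 4 * |M| ≤ 4 * |M| * s := by
    have e2 := abs_nonneg M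
    nlinarith
  obtain ⟨k, hk⟩ := hx
  obtain ⟨k', hk'⟩ := hx'
  have hj1 : D.j x D.q0 ≤ 2 * D.MF * (|ρ| + ‖D.q0‖) := by
    rw [← j_J h.toOk0 x D.q0 k 0, C8_lv0]
    refine (j_lip h.toOk0 _ _).trans (mul_le_mul_of_nonneg_left ?_ (by linarith))
    have := norm_sub_le D.q0 (x + lv D.b k)
    linarith [le_abs_self ρ]
  have hj2 : D.j D.q0 x' ≤ 2 * D.MF * (|ρ| + ‖D.q0‖) := by
    rw [← j_J h.toOk0 D.q0 x' 0 k', C8_lv0]
    refine (j_lip h.toOk0 _ _).trans (mul_le_mul_of_nonneg_left ?_ (by linarith))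
    have := norm_sub_le (x' + lv D.b k') D.q0
    linarith [le_abs_self ρ]
  have hj3 : s * (D.j x D.q0 + D.j D.q0 x') ≤ s * (4 * D.MF * (|ρ| + ‖D.q0‖)) := by
    refine mul_le_mul_of_nonneg_left ?_ (by linarith)
    linarith
  have hA : 0 ≤ 4 * D.MF * (|ρ| + ‖D.q0‖) * s := by positivity
  have hjs : 0 ≤ s * D.j x x' := mul_nonneg (by linarith) hjn
  rw [abs_le]
  constructor
  · nlinarith
  · nlinarith [abs_nonneg M]

end EscG
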