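import Pool.Agent.EscG.C2
import Pool.Agent.EscG.C3b

/-!
EscG, module C4: parameters and elementary facts on the room, its cell and the gate points.
-/

noncomputable section

namespace EscG

open MeasureTheory Set Filter Topology Esc EscF
open scoped ContDiff

variable {ι : Type} [Fintype ι] {d : ℕ} {E : Type*} [NormedAddCommGroup E] [InnerProductSpace ℝ E]
  [FiniteDimensional ℝ E] {D : GD ι d E} {p : GP} {m M Mf : ℝ} {ll l : E → E → ℝ → ℝ}
  {f f' : E → ℝ → ℝ}

/-! ### lattice vectors -/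

theorem C4_lv_zero (b : Fin d → E) : lv b 0 = 0 := by simp [lv]

theorem C4_lv_add (b : Fin d → E) (n n' : Fin d → ℤ) : lv b (n + n') = lv b n + lv b n' := by
  simp [lv, add_smul, Finset.sum_add_distrib]

theorem C4_lv_neg (b : Fin d → E) (n : Fin d → ℤ) : lv b (-n) = -lv b n := by
  simp [lv]

theorem C4_lv_Lam (h : D.Ok) (n : Fin d → ℤ) : lv D.b n ∈ D.Lam := by
  unfold lv GD.Lam
  refine sum_mem fun i _ => ?_
  obtain ⟨k, hk⟩ := h.bβ i
  rw [hk]
  have h1 : D.β k ∈ Submodule.span ℤ (Set.range D.β) := Submodule.subset_span ⟨k, rfl⟩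
  have h2 := Submodule.smul_mem _ (n i) h1
  have h3 : ((n i : ℤ) : ℝ) • D.β k = (n i) • D.β k := by
    rw [Int.cast_smul_eq_zsmul]
  rw [h3]
  exact h2

theorem C4_InJ_lv (n : Fin d → ℤ) : D.InJ (lv D.b n) := ⟨n, rfl⟩

theorem C4_InJ_add_iff {v : E} (n : Fin d → ℤ) : D.InJ (v + lv D.b n) ↔ D.InJ v := by
  constructor
  · rintro ⟨k, hk⟩
    refine ⟨k + -n, ?_⟩
    rw [C4_lv_add, C4_lv_neg, ← hk]
    abel
  · rintro ⟨k, hk⟩
    exact ⟨k + n, by rw [C4_lv_add, ← hk]⟩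

theorem C4_Z_ne (h : D.Ok) : D.Z.Nonempty := ⟨_, h.q0_mem⟩

theorem C4_infDist_lv_le (h : D.Ok) (x : E) (n : Fin d → ℤ) :
    Metric.infDist (x + lv D.b n) D.Z ≤ Metric.infDist x D.Z := by
  obtain ⟨z, hz, hd⟩ := h.Z_closed.exists_infDist_eq_dist (C4_Z_ne h) x
  rw [hd]
  refine (Metric.infDist_le_dist_of_mem (h.Z_J n z hz)).trans ?_
  rw [dist_add_right]

theorem C4_infDist_lv (h : D.Ok) (x : E) (n : Fin d → ℤ) :
    Metric.infDist (x + lv D.b n) D.Z = Metric.infDist x D.Z := by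
  refine le_antisymm (C4_infDist_lv_le h x n) ?_
  have := C4_infDist_lv_le h (x + lv D.b n) (-n)
  rwa [C4_lv_neg, add_neg_cancel_right] at this

theorem C4_infDist_lip (S : Set E) (x y : E) :
    Metric.infDist x S ≤ Metric.infDist y S + ‖x - y‖ := by
  rw [← dist_eq_norm]
  exact Metric.infDist_le_infDist_add_dist

theorem C4_MF_pos (h : D.Ok) : 0 < D.MF := h.fins.mF_pos.trans_le h.fins.mF_le

/-! ### elementary consequences -/

theorem R_closed (h : D.Ok) : IsClosed (D.R p) := by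
  unfold GD.R GD.Rm
  exact isClosed_le (Metric.continuous_infDist_pt _) continuous_const

theorem C_compact (h : D.Ok) : IsCompact (D.C p) := by
  unfold GD.C GD.Cel
  have h1 : IsClosed (D.Rm p.η1) := R_closed h
  exact (isCompact_closedBall (0 : E) p.ρ).inter_left h1

theorem C_sub : D.C p ⊆ D.R p := fun _ hx => hx.1

theorem R_J (h : D.Ok) {x : E} (hx : x ∈ D.R p) (n : Fin d → ℤ) : x + lv D.b n ∈ D.R p := by
  show Metric.infDist (x + lv D.b n) D.Z ≤ p.η1
  rw [C4_infDist_lv h]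
  exact hx

theorem C4_η1_le (hp : p.Ok D) : p.η1 ≤ p.ηc := by
  have h1 := hp.η1_le
  have h2 := hp.η1_pos
  linarith

theorem R_red (h : D.Ok) (hp : p.Ok D) {x : E} (hx : x ∈ D.R p) : ∃ n, x + lv D.b n ∈ D.C p := by
  have h1 : x ∈ D.Rm p.ηc := by
    show Metric.infDist x D.Z ≤ p.ηc
    exact le_trans hx (C4_η1_le hp)
  obtain ⟨n, hn⟩ := hp.bnd x (Or.inl h1) 0 (by norm_num)
  rw [Int.cast_zero, zero_smul, add_zero] at hn
  refine ⟨n, R_J h hx n, ?_⟩
  rwa [mem_closedBall_zero_iff]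

theorem q0_R (h : D.Ok) (hp : p.Ok D) : D.q0 ∈ D.R p := by
  show Metric.infDist D.q0 D.Z ≤ p.η1
  rw [Metric.infDist_zero_of_mem h.q0_mem]
  exact hp.η1_pos.le

theorem q1_R (h : D.Ok) (hp : p.Ok D) : D.q1 ∈ D.R p := by
  show Metric.infDist D.q1 D.Z ≤ p.η1
  rw [Metric.infDist_zero_of_mem h.q1_mem]
  exact hp.η1_pos.le

theorem C_ne (h : D.Ok) (hp : p.Ok D) : (D.C p).Nonempty := by
  obtain ⟨n, hn⟩ := R_red h hp (q0_R h hp)
  exact ⟨_, hn⟩

theorem C4_j_cont_right (h : D.Ok) (x : E) : Continuous (fun w => D.j x w) := by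
  have hM := C4_MF_pos h
  have : LipschitzWith (Real.toNNReal (2 * D.MF)) (fun w => D.j x w) := by
    refine LipschitzWith.of_le_add_mul _ fun a b => ?_
    rw [Real.coe_toNNReal _ (by positivity), dist_eq_norm]
    exact (j_tri h.toOk0 x b a).trans (add_le_add le_rfl (j_lip h.toOk0 b a))
  exact this.continuous

theorem C4_j_cont_left (h : D.Ok) (x : E) : Continuous (fun w => D.j w x) := by
  have hM := C4_MF_pos h
  have : LipschitzWith (Real.toNNReal (2 * D.MF)) (fun w => D.j w x) := by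
    refine LipschitzWith.of_le_add_mul _ fun a b => ?_
    rw [Real.coe_toNNReal _ (by positivity), dist_eq_norm, norm_sub_rev]
    have h1 := j_tri h.toOk0 a b x
    have h2 := j_lip h.toOk0 a b
    linarith
  exact this.continuous

theorem Mg_closed (h : D.Ok) (η κ : ℝ) : IsClosed (D.Mg η κ) := by
  have h1 : IsClosed (D.Out η) := by
    have : D.Out η = ⋂ v ∈ D.Lam, {w | η ≤ Metric.infDist (w + v) D.Z} := by
      ext w
      simp [GD.Out]
    rw [this]
    refine isClosed_biInter fun v _ => ?_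
    exact isClosed_le continuous_const
      ((Metric.continuous_infDist_pt D.Z).comp (continuous_id.add continuous_const))
  have h2 : IsClosed {w | D.j D.q0 w + D.j w (D.q1 + D.g) ≤ D.U + κ} :=
    isClosed_le ((C4_j_cont_right h D.q0).add (C4_j_cont_left h (D.q1 + D.g))) continuous_const
  exact h1.inter h2

theorem C4_Out_J (h : D.Ok) {η : ℝ} {w : E} (hw : w ∈ D.Out η) (n : Fin d → ℤ) :
    w + lv D.b n ∈ D.Out η := by
  intro v hv
  have : w + lv D.b n + v = w + v + lv D.b n := by abel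
  rw [this, C4_infDist_lv h]
  exact hw v hv

theorem Mg_J (h : D.Ok) {η κ : ℝ} {w : E} (hw : w ∈ D.Mg η κ) (n : Fin d → ℤ) :
    w + lv D.b n ∈ D.Mg η κ := by
  refine ⟨C4_Out_J h hw.1 n, ?_⟩
  have h1 := j_J h.toOk0 D.q0 w 0 n
  have h2 := j_J h.toOk0 w (D.q1 + D.g) n 0
  rw [C4_lv_zero, add_zero] at h1 h2
  rw [h1, h2]
  exact hw.2

/-- a neighbourhood of the inner gate points consists of gate points -/
theorem Mi_nhd (h : D.Ok) (hp : p.Ok D) :
    ∃ ρ0 : ℝ, 0 < ρ0 ∧ ∀ w ∈ D.Mi p, ∀ z, ‖z - w‖ ≤ ρ0 → z ∈ D.Md p := by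
  have hM := C4_MF_pos h
  have hc := hp.ηc_pos
  have hk := hp.κ_pos
  refine ⟨min p.ηc (p.κ / (8 * D.MF)), lt_min hc (by positivity), fun w hw z hz => ⟨?_, ?_⟩⟩
  · intro v hv
    have h1 := hw.1 v hv
    have h2 := C4_infDist_lip D.Z (w + v) (z + v)
    rw [add_sub_add_right_eq_sub, norm_sub_rev] at h2
    have h3 := hz.trans (min_le_left _ _)
    linarith
  · have h1 := hw.2
    have h3 := hz.trans (min_le_right _ _)
    have h4 : 8 * D.MF * ‖z - w‖ ≤ p.κ := by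
      rw [le_div_iff₀ (by positivity)] at h3
      linarith
    have h5 := j_tri h.toOk0 D.q0 w z
    have h6 := j_lip h.toOk0 w z
    have h7 := j_tri h.toOk0 z w (D.q1 + D.g)
    have h8 := j_lip h.toOk0 z w
    rw [norm_sub_rev] at h8
    show D.j D.q0 z + D.j z (D.q1 + D.g) ≤ D.U + p.κ
    linarith

/-- two points of the room which differ by a lattice vector and a small vector -/
theorem R_sep (h : D.Ok) (hp : p.Ok D) {x x' v : E} (hv : v ∈ D.Lam) (hx : x ∈ D.R p)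
    (hx' : x' ∈ D.R p) (hxx : ‖x - (x' + v)‖ ≤ p.ηc) : D.InJ v := by
  by_contra hn
  obtain ⟨z, hz, hd⟩ := h.Z_closed.exists_infDist_eq_dist (C4_Z_ne h) x'
  have h1 := hp.sep v hv hn z hz
  have h2 := C4_infDist_lip D.Z (z + v) x
  have h3 : ‖z + v - x‖ ≤ ‖x - (x' + v)‖ + dist x' z := by
    rw [dist_eq_norm]
    have : z + v - x = -(x - (x' + v)) - (x' - z) := by abel
    rw [this]
    exact (norm_sub_le _ _).trans (by rw [norm_neg])
  have h4 : Metric.infDist x D.Z ≤ p.η1 := hx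
  have h5 : dist x' z ≤ p.η1 := by rw [← hd]; exact hx'
  have h6 := hp.η1_le
  have h7 := hp.ηc_pos
  have h8 := hp.η1_pos
  linarith

/-! ### parameters -/

theorem C4_Gt_mono {η e e' : ℝ} {w : E} (he : e ≤ e') (hG : D.Gt η e' w) : D.Gt η e w where
  ex0 := fun c hc => (hG.ex0 c hc).imp id fun h => by linarith
  ex1 := fun c hc => (hG.ex1 c hc).imp id fun h => by linarith
  no0 := fun v hv hvJ a ha x hx => by
    have := hG.no0 v hv hvJ a ha x hx
    linarith
  no1 := fun v hv hvJ a ha x hx => by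
    have := hG.no1 v hv hvJ a ha x hx
    linarith

theorem C4_Mg_mono {η κ κ' : ℝ} (hk : κ ≤ κ') : D.Mg η κ ⊆ D.Mg η κ' := fun _ hw =>
  ⟨hw.1, hw.2.trans (by linarith)⟩

theorem C4_X_add {ρ ρ' : ℝ} {x y : E} {n : Fin d → ℤ} (h1 : ‖x + lv D.b n‖ ≤ ρ) (h2 : ‖y‖ ≤ ρ') :
    x + y ∈ D.X (ρ + ρ') := by
  refine ⟨n, ?_⟩
  have : x + y + lv D.b n = x + lv D.b n + y := by abel
  rw [this]
  exact (norm_add_le _ _).trans (add_le_add h1 h2)

theorem exists_par (h : D.Ok) : ∃ p : GP, p.Ok D := by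
  obtain ⟨δ, hδ, hsep⟩ := exists_sep h.toOk0
  have hM := C4_MF_pos h
  have hc0 : 0 < δ / 8 := by positivity
  obtain ⟨e1, he1, hrt⟩ := h.rt (δ / 8 / 4) (by positivity)
  obtain ⟨e2, he2, hg⟩ := h.gate (δ / 8 / 2) (by positivity)
  have he : 0 < min e1 e2 := lt_min he1 he2
  have hκ : 0 < min e1 e2 / 16 := by positivity
  obtain ⟨ρ1, hρ1⟩ := h.Z_cpt
  obtain ⟨ρ2, hρ2⟩ := coer h.toOk0 (D.U + 2 * (min e1 e2 / 16))
  refine ⟨⟨δ / 8, min e1 e2 / 16, min (min e1 e2 / 16 / (1600 * D.MF)) (δ / 8 / 16), min e1 e2,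
    max (ρ1 + δ / 8) ρ2 + 2 * ‖D.g‖⟩, ?_⟩
  refine
    { ηc_pos := hc0
      κ_pos := hκ
      η1_pos := lt_min (by positivity) (by positivity)
      e_pos := he
      κ_le := ?_
      om_le := ?_
      η1_le := ?_
      sep := fun v hv hvJ x hx => ?_
      rt := fun w hw p1 h1 p2 h2 => ?_
      gate := fun w hw => ?_
      bnd := fun x hx k hk => ?_ }
  · show 16 * (min e1 e2 / 16) ≤ min e1 e2
    linarith
  · show 400 * (4 * D.MF * min (min e1 e2 / 16 / (1600 * D.MF)) (δ / 8 / 16)) ≤ min e1 e2 / 16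
    have h1 := min_le_left (min e1 e2 / 16 / (1600 * D.MF)) (δ / 8 / 16)
    rw [le_div_iff₀ (by positivity)] at h1
    linarith
  · show 16 * min (min e1 e2 / 16 / (1600 * D.MF)) (δ / 8 / 16) ≤ δ / 8
    have h1 := min_le_right (min e1 e2 / 16 / (1600 * D.MF)) (δ / 8 / 16)
    linarith
  · show 8 * (δ / 8) ≤ _
    have := hsep v hv hvJ x hx
    linarith
  · show _ + min e1 e2 ≤ _
    have h3 := hrt w hw p1 h1 p2 h2
    have h4 := min_le_left e1 e2
    linarith
  · refine C4_Gt_mono (min_le_right e1 e2) (hg w (C4_Mg_mono ?_ hw))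
    show 2 * (min e1 e2 / 16) ≤ e2
    have h4 := min_le_right e1 e2
    linarith
  · have hk1 : ‖(k : ℝ) • D.g‖ ≤ 2 * ‖D.g‖ := by
      rw [norm_smul]
      refine mul_le_mul_of_nonneg_right ?_ (norm_nonneg _)
      rw [Real.norm_eq_abs]
      exact_mod_cast hk
    have hX : ∃ n : Fin d → ℤ, ‖x + lv D.b n‖ ≤ max (ρ1 + δ / 8) ρ2 := by
      rcases hx with hx | hx
      · obtain ⟨z, hz, hd⟩ := h.Z_closed.exists_infDist_eq_dist (C4_Z_ne h) x
        obtain ⟨n, hn⟩ := hρ1 hz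
        refine ⟨n, le_trans ?_ (le_max_left _ _)⟩
        have h1 : x + lv D.b n = (z + lv D.b n) + (x - z) := by abel
        rw [h1]
        refine (norm_add_le _ _).trans (add_le_add hn ?_)
        rw [← dist_eq_norm, ← hd]
        exact hx
      · have h1 := hx.2
        have h2 := j_nonneg h.toOk0 x (D.q1 + D.g)
        obtain ⟨n, hn⟩ := hρ2 x (by
          have h3 : D.j D.q0 x + D.j x (D.q1 + D.g) ≤ D.U + 2 * (min e1 e2 / 16) := h1
          linarith)
        exact ⟨n, hn.trans (le_max_right _ _)⟩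
    obtain ⟨n, hn⟩ := hX
    exact C4_X_add hn hk1

end EscG
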