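import Pool.Agent.EscG.C4
import Pool.Agent.EscG.C6
import Pool.Agent.EscG.C11a
import Pool.Agent.helper1.Esc.ModD

/-!
Project EscG (MP_6acca1_an), module C11b: the minimal costs before and after a gate point are attained,
bounded by every competitor, continuous and periodic.
-/

set_option linter.unusedSectionVars false

noncomputable section

namespace EscG

open MeasureTheory Set Filter Topology Esc EscF
open scoped ContDiff

variable {ι : Type} [Fintype ι] {d : ℕ} {E : Type*} [NormedAddCommGroup E] [InnerProductSpace ℝ E]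
  [FiniteDimensional ℝ E] {D : GD ι d E} {p : GP} {m M Mf : ℝ} {ll l : E → E → ℝ → ℝ}
  {f f' : E → ℝ → ℝ}

namespace C11b

lemma lv_zero (b : Fin d → E) : lv b (0 : Fin d → ℤ) = 0 := by
  simp [lv]

lemma kk_J_left (h : D.Ok) (hl : TL D.β D.F D.mF D.MF m M ll) (s t t' : ℝ) (x x' : E)
    (n : Fin d → ℤ) : D.kk ll s t t' (x + lv D.b n) x' = D.kk ll s t t' x x' := by
  have := kk_J h hl s t t' x x' n 0
  rwa [lv_zero, add_zero] at this

lemma kk_J_right (h : D.Ok) (hl : TL D.β D.F D.mF D.MF m M ll) (s t t' : ℝ) (x x' : E)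
    (n : Fin d → ℤ) : D.kk ll s t t' x (x' + lv D.b n) = D.kk ll s t t' x x' := by
  have := kk_J h hl s t t' x x' 0 n
  rwa [lv_zero, add_zero] at this

/-- the zero potential -/
lemma pt_zero : Pt D.β (fun _ _ => (0 : ℝ)) :=
  ⟨contDiff_const, fun _ _ _ => rfl, fun _ _ => rfl⟩

lemma good_zero : Good (0 : ℝ) (fun (_ : E) (_ : ℝ) => (0 : ℝ)) :=
  ⟨le_refl 0, continuous_const, fun _ _ => by simp, fun _ _ _ => by simp, fun _ _ _ => by simp⟩

lemma lf_zero (l : E → E → ℝ → ℝ) : lf l (fun _ _ => (0 : ℝ)) = l := by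
  funext x u t
  simp [lf]

/-- constants for a single Lagrangian -/
lemma consts (h : D.Ok) (hp : p.Ok D) (hl : TL D.β D.F D.mF D.MF m M ll) {s : ℝ} (hs : 0 ≤ s) :
    ∃ C : ℝ, 0 ≤ C ∧ KD (D.k1 ll s) (D.C p) (D.R p) C C ∧ ∀ t t', 1 / 4 ≤ t' - t → t' - t ≤ 4 →
      ∀ z ∈ D.X p.ρ, ∀ z' ∈ D.X p.ρ, |D.kk ll s t t' z z'| ≤ C ∧
        ∀ w ∈ D.X p.ρ, ∀ w' ∈ D.X p.ρ, |D.kk ll s t t' z z' - D.kk ll s t t' w w'| ≤
          C * (dist z w + dist z' w') := by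
  obtain ⟨C1, hC1, H1⟩ := kd h hp hl (le_refl (0 : ℝ)) s
  obtain ⟨C2, hC2, H2⟩ := kk_unif h hl (le_refl (0 : ℝ)) s p.ρ
  have K1 := H1 _ pt_zero good_zero s hs le_rfl
  have K2 := H2 _ pt_zero good_zero s hs le_rfl
  rw [lf_zero] at K1 K2
  have h1 : C1 ≤ max C1 C2 := le_max_left _ _
  have h2 : C2 ≤ max C1 C2 := le_max_right _ _
  refine ⟨max C1 C2, hC1.trans h1, ⟨K1.sub, K1.comp, K1.ne, fun z hz z' hz' => (K1.bd z hz z' hz').trans h1,
    fun z hz w hw z' hz' w' hw' => (K1.lip z hz w hw z' hz' w' hw').trans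
      (mul_le_mul_of_nonneg_right h1 (by positivity)), K1.red⟩, fun t t' ht ht' z hz z' hz' => ?_⟩
  obtain ⟨a, b, -⟩ := K2 t t' ht ht' z hz z' hz'
  exact ⟨a.trans h2, fun w hw w' hw' => (b w hw w' hw').trans
    (mul_le_mul_of_nonneg_right h2 (by positivity))⟩

lemma C_X {x : E} (hx : x ∈ D.C p) : x ∈ D.X p.ρ := by
  refine ⟨0, ?_⟩
  rw [lv_zero, add_zero]
  simpa using hx.2

lemma R_X (hp : p.Ok D) {x : E} (hx : x ∈ D.R p) : x ∈ D.X p.ρ := by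
  have h1 : x ∈ D.Rm p.ηc := by
    have h2 : Metric.infDist x D.Z ≤ p.η1 := hx
    have h3 := hp.η1_le
    have h4 := hp.η1_pos
    show Metric.infDist x D.Z ≤ p.ηc
    linarith
  have h5 := hp.bnd x (Or.inl h1) 0 (by norm_num)
  simpa using h5

lemma M_X (hp : p.Ok D) {w : E} (hw : w ∈ D.Mg (p.ηc / 2) (2 * p.κ)) : w ∈ D.X p.ρ := by
  have h5 := hp.bnd w (Or.inr hw) 0 (by norm_num)
  simpa using h5

lemma M_X' (hp : p.Ok D) {w : E} (hw : w ∈ D.Mg (p.ηc / 2) (2 * p.κ)) : w - D.g ∈ D.X p.ρ := by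
  have h5 := hp.bnd w (Or.inr hw) (-1) (by norm_num)
  have h6 : w + ((-1 : ℤ) : ℝ) • D.g = w - D.g := by
    push_cast
    rw [neg_smul, one_smul, sub_eq_add_neg]
  rwa [h6] at h5

/-- an infimum over a compact set of a Lipschitz function is attained -/
lemma inf_att {Y : Type*} [PseudoMetricSpace Y] {C : Set Y} (hC : IsCompact C) (hne : C.Nonempty)
    {φ : Y → ℝ} {L : ℝ} (hφ : ∀ x ∈ C, ∀ w ∈ C, |φ x - φ w| ≤ L * dist x w) :
    ∃ x ∈ C, (⨅ y : C, φ y) = φ x := by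
  obtain ⟨x, hx, hmin⟩ := hC.exists_isMinOn hne (ModD.contOn_of_lip hφ)
  have := hne.to_subtype
  refine ⟨x, hx, le_antisymm ?_ (le_ciInf fun y => hmin y.2)⟩
  exact ciInf_le (f := fun y : C => φ y) ⟨φ x, by rintro _ ⟨y, rfl⟩; exact hmin y.2⟩ ⟨x, hx⟩

lemma inf_bdd {Y : Type*} [PseudoMetricSpace Y] {C : Set Y} (hC : IsCompact C) (hne : C.Nonempty)
    {φ : Y → ℝ} {L : ℝ} (hφ : ∀ x ∈ C, ∀ w ∈ C, |φ x - φ w| ≤ L * dist x w) :
    BddBelow (range fun y : C => φ y) := by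
  obtain ⟨x, hx, hmin⟩ := hC.exists_isMinOn hne (ModD.contOn_of_lip hφ)
  exact ⟨φ x, by rintro _ ⟨y, rfl⟩; exact hmin y.2⟩

/-- the barrier is periodic in the second variable -/
lemma bar_J_right (h : D.Ok) (hl : TL D.β D.F D.mF D.MF m M ll) {s B Λ : ℝ}
    (hk : KD (D.k1 ll s) (D.C p) (D.R p) B Λ) {z z' : E} (hz : z ∈ D.R p) (n : Fin d → ℤ) :
    D.bar p ll s z (z' + lv D.b n) = D.bar p ll s z z' := by
  have h1 : ∀ k : ℕ, kp (D.k1 ll s) (D.C p) (k + 1) z (z' + lv D.b n) =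
      kp (D.k1 ll s) (D.C p) (k + 1) z z' := fun k =>
    hk.kp_red_right (fun x _ => kk_J_right h hl s 0 1 x z' n) k z hz
  show Esc.bar (D.k1 ll s) (D.C p) z (z' + lv D.b n) = Esc.bar (D.k1 ll s) (D.C p) z z'
  unfold Esc.bar
  simp only [h1]

/-- the barrier is periodic in the first variable -/
lemma bar_J_left (h : D.Ok) (hl : TL D.β D.F D.mF D.MF m M ll) {s B Λ : ℝ}
    (hk : KD (D.k1 ll s) (D.C p) (D.R p) B Λ) {z z' : E} (hz' : z' ∈ D.R p) (n : Fin d → ℤ) :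
    D.bar p ll s (z + lv D.b n) z' = D.bar p ll s z z' := by
  have h1 : ∀ k : ℕ, kp (D.k1 ll s) (D.C p) (k + 1) (z + lv D.b n) z' =
      kp (D.k1 ll s) (D.C p) (k + 1) z z' := fun k =>
    hk.kp_red_left (fun x _ => kk_J_left h hl s 0 1 z x n) hz' k
  show Esc.bar (D.k1 ll s) (D.C p) (z + lv D.b n) z' = Esc.bar (D.k1 ll s) (D.C p) z z'
  unfold Esc.bar
  simp only [h1]

end C11b

open C11b

/-- the function minimized by `alpha` is Lipschitz, jointly -/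
lemma C11b.fa_lip (h : D.Ok) (hp : p.Ok D) {s C : ℝ}
    (hk : KD (D.k1 ll s) (D.C p) (D.R p) C C)
    (hK : ∀ t t', 1 / 4 ≤ t' - t → t' - t ≤ 4 → ∀ z ∈ D.X p.ρ, ∀ z' ∈ D.X p.ρ,
      |D.kk ll s t t' z z'| ≤ C ∧ ∀ w ∈ D.X p.ρ, ∀ w' ∈ D.X p.ρ,
        |D.kk ll s t t' z z' - D.kk ll s t t' w w'| ≤ C * (dist z w + dist z' w')) {r : ℝ}
    (hr : 0 ≤ r) (hr1 : r ≤ 1) {w w' : E} (hw : w ∈ D.Mg (p.ηc / 2) (2 * p.κ))
    (hw' : w' ∈ D.Mg (p.ηc / 2) (2 * p.κ)) {x x' : E} (hx : x ∈ D.C p) (hx' : x' ∈ D.C p) :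
    |(D.bar p ll s D.q0 x + D.Q ll s r x w) - (D.bar p ll s D.q0 x' + D.Q ll s r x' w')| ≤
      2 * C * dist x x' + C * dist w w' := by
  have h1 := bar_lip hk (q0_R h hp) (C_sub hx) (q0_R h hp) (C_sub hx')
  have h2 := (hK 0 (1 + r) (by linarith) (by linarith) x (C_X hx) w (M_X hp hw)).2 x' (C_X hx') w'
    (M_X hp hw')
  rw [dist_self, zero_add] at h1
  have h3 : (D.bar p ll s D.q0 x + D.Q ll s r x w) - (D.bar p ll s D.q0 x' + D.Q ll s r x' w') =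
      (Esc.bar (D.k1 ll s) (D.C p) D.q0 x - Esc.bar (D.k1 ll s) (D.C p) D.q0 x') +
        (D.kk ll s 0 (1 + r) x w - D.kk ll s 0 (1 + r) x' w') := by
    unfold GD.bar GD.Q
    ring
  rw [h3]
  refine (abs_add_le _ _).trans ?_
  nlinarith [h1, h2]

/-- the function minimized by `beta` is Lipschitz, jointly -/
lemma C11b.fb_lip (h : D.Ok) (hp : p.Ok D) {s C : ℝ}
    (hk : KD (D.k1 ll s) (D.C p) (D.R p) C C)
    (hK : ∀ t t', 1 / 4 ≤ t' - t → t' - t ≤ 4 → ∀ z ∈ D.X p.ρ, ∀ z' ∈ D.X p.ρ,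
      |D.kk ll s t t' z z'| ≤ C ∧ ∀ w ∈ D.X p.ρ, ∀ w' ∈ D.X p.ρ,
        |D.kk ll s t t' z z' - D.kk ll s t t' w w'| ≤ C * (dist z w + dist z' w')) {r : ℝ}
    (hr : 0 ≤ r) (hr1 : r ≤ 1) {w w' : E} (hw : w ∈ D.Mg (p.ηc / 2) (2 * p.κ))
    (hw' : w' ∈ D.Mg (p.ηc / 2) (2 * p.κ)) {x x' : E} (hx : x ∈ D.C p) (hx' : x' ∈ D.C p) :
    |(D.P ll s r w x + D.bar p ll s x D.q0) - (D.P ll s r w' x' + D.bar p ll s x' D.q0)| ≤
      2 * C * dist x x' + C * dist w w' := by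
  have h1 := bar_lip hk (C_sub hx) (q0_R h hp) (C_sub hx') (q0_R h hp)
  have h2 := (hK r 2 (by linarith) (by linarith) (w - D.g) (M_X' hp hw) x (C_X hx)).2 (w' - D.g)
    (M_X' hp hw') x' (C_X hx')
  rw [dist_self, add_zero] at h1
  rw [dist_sub_right] at h2
  have h3 : (D.P ll s r w x + D.bar p ll s x D.q0) - (D.P ll s r w' x' + D.bar p ll s x' D.q0) =
      (Esc.bar (D.k1 ll s) (D.C p) x D.q0 - Esc.bar (D.k1 ll s) (D.C p) x' D.q0) +
        (D.kk ll s r 2 (w - D.g) x - D.kk ll s r 2 (w' - D.g) x') := by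
    unfold GD.bar GD.P
    ring
  rw [h3]
  refine (abs_add_le _ _).trans ?_
  nlinarith [h1, h2]

/-! ## the statements -/

theorem alpha_att (h : D.Ok) (hp : p.Ok D) (hl : TL D.β D.F D.mF D.MF m M ll) {s r : ℝ} (hs : 0 ≤ s)
    (hr : 0 ≤ r) (hr1 : r ≤ 1) {w : E} (hw : w ∈ D.Mg (p.ηc / 2) (2 * p.κ)) : ∃ x ∈ D.C p,
      D.alpha p ll s r w = D.bar p ll s D.q0 x + D.Q ll s r x w + D.al p ll s * (1 + r) := by
  obtain ⟨C, hC, hk, hK⟩ := consts h hp hl hs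
  obtain ⟨x, hx, e⟩ := inf_att (C_compact h) (C_ne h hp)
    (φ := fun x => D.bar p ll s D.q0 x + D.Q ll s r x w) (L := 2 * C) (fun x hx x' hx' => by
      have := C11b.fa_lip h hp hk hK hr hr1 hw hw hx hx'
      simpa using this)
  refine ⟨x, hx, ?_⟩
  unfold GD.alpha
  rw [e]

theorem alpha_le (h : D.Ok) (hp : p.Ok D) (hl : TL D.β D.F D.mF D.MF m M ll) {s r : ℝ} (hs : 0 ≤ s)
    (hr : 0 ≤ r) (hr1 : r ≤ 1) {w x : E} (hw : w ∈ D.Mg (p.ηc / 2) (2 * p.κ)) (hx : x ∈ D.R p) :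
    D.alpha p ll s r w ≤ D.bar p ll s D.q0 x + D.Q ll s r x w + D.al p ll s * (1 + r) := by
  obtain ⟨C, hC, hk, hK⟩ := consts h hp hl hs
  obtain ⟨n, hn⟩ := R_red h hp hx
  have hb := inf_bdd (C_compact h) (C_ne h hp)
    (φ := fun x => D.bar p ll s D.q0 x + D.Q ll s r x w) (L := 2 * C) (fun x hx x' hx' => by
      have := C11b.fa_lip h hp hk hK hr hr1 hw hw hx hx'
      simpa using this)
  have h1 := ciInf_le hb ⟨x + lv D.b n, hn⟩
  have h2 : D.bar p ll s D.q0 (x + lv D.b n) = D.bar p ll s D.q0 x :=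
    bar_J_right h hl hk (q0_R h hp) n
  have h3 : D.Q ll s r (x + lv D.b n) w = D.Q ll s r x w := kk_J_left h hl s 0 (1 + r) x w n
  simp only [h2, h3] at h1
  unfold GD.alpha
  linarith

theorem beta_att (h : D.Ok) (hp : p.Ok D) (hl : TL D.β D.F D.mF D.MF m M ll) {s r : ℝ} (hs : 0 ≤ s)
    (hr : 0 ≤ r) (hr1 : r ≤ 1) {w : E} (hw : w ∈ D.Mg (p.ηc / 2) (2 * p.κ)) : ∃ x ∈ D.C p,
      D.beta p ll s r w = D.P ll s r w x + D.bar p ll s x D.q0 + D.al p ll s * (2 - r) := by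
  obtain ⟨C, hC, hk, hK⟩ := consts h hp hl hs
  obtain ⟨x, hx, e⟩ := inf_att (C_compact h) (C_ne h hp)
    (φ := fun x => D.P ll s r w x + D.bar p ll s x D.q0) (L := 2 * C) (fun x hx x' hx' => by
      have := C11b.fb_lip h hp hk hK hr hr1 hw hw hx hx'
      simpa using this)
  refine ⟨x, hx, ?_⟩
  unfold GD.beta
  rw [e]

theorem beta_le (h : D.Ok) (hp : p.Ok D) (hl : TL D.β D.F D.mF D.MF m M ll) {s r : ℝ} (hs : 0 ≤ s)
    (hr : 0 ≤ r) (hr1 : r ≤ 1) {w x : E} (hw : w ∈ D.Mg (p.ηc / 2) (2 * p.κ)) (hx : x ∈ D.R p) :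
    D.beta p ll s r w ≤ D.P ll s r w x + D.bar p ll s x D.q0 + D.al p ll s * (2 - r) := by
  obtain ⟨C, hC, hk, hK⟩ := consts h hp hl hs
  obtain ⟨n, hn⟩ := R_red h hp hx
  have hb := inf_bdd (C_compact h) (C_ne h hp)
    (φ := fun x => D.P ll s r w x + D.bar p ll s x D.q0) (L := 2 * C) (fun x hx x' hx' => by
      have := C11b.fb_lip h hp hk hK hr hr1 hw hw hx hx'
      simpa using this)
  have h1 := ciInf_le hb ⟨x + lv D.b n, hn⟩
  have h2 : D.bar p ll s (x + lv D.b n) D.q0 = D.bar p ll s x D.q0 :=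
    bar_J_left h hl hk (q0_R h hp) n
  have h3 : D.P ll s r w (x + lv D.b n) = D.P ll s r w x := kk_J_right h hl s r 2 (w - D.g) x n
  simp only [h2, h3] at h1
  unfold GD.beta
  linarith

theorem W_cont (h : D.Ok) (hp : p.Ok D) (hl : TL D.β D.F D.mF D.MF m M l) (hf : Pt D.β f)
    (hg : Good Mf f) {s s' r : ℝ} (hs : 0 ≤ s) (hs' : 0 ≤ s') (hr : 0 ≤ r) (hr1 : r ≤ 1) :
    ContinuousOn (D.W p (lf l f) s s' r) (D.Mg (p.ηc / 2) (2 * p.κ)) := by
  have hMf : 0 ≤ Mf := hg.pos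
  have := (C_ne h hp (p := p)).to_subtype
  -- constants for each of the two speeds
  have key : ∀ {s : ℝ}, 0 ≤ s → ∃ C : ℝ, 0 ≤ C ∧ KD (D.k1 (lf l f) s) (D.C p) (D.R p) C C ∧
      ∀ t t', 1 / 4 ≤ t' - t → t' - t ≤ 4 →
      ∀ z ∈ D.X p.ρ, ∀ z' ∈ D.X p.ρ, |D.kk (lf l f) s t t' z z'| ≤ C ∧
        ∀ w ∈ D.X p.ρ, ∀ w' ∈ D.X p.ρ, |D.kk (lf l f) s t t' z z' - D.kk (lf l f) s t t' w w'| ≤
          C * (dist z w + dist z' w') := by
    intro s hs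
    obtain ⟨C1, hC1, H1⟩ := kd h hp hl hMf s
    obtain ⟨C2, hC2, H2⟩ := kk_unif h hl hMf s p.ρ
    have K1 := H1 _ hf hg s hs le_rfl
    have K2 := H2 _ hf hg s hs le_rfl
    have h1 : C1 ≤ max C1 C2 := le_max_left _ _
    have h2 : C2 ≤ max C1 C2 := le_max_right _ _
    refine ⟨max C1 C2, hC1.trans h1, ⟨K1.sub, K1.comp, K1.ne,
      fun z hz z' hz' => (K1.bd z hz z' hz').trans h1,
      fun z hz w hw z' hz' w' hw' => (K1.lip z hz w hw z' hz' w' hw').trans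
        (mul_le_mul_of_nonneg_right h1 (by positivity)), K1.red⟩, fun t t' ht ht' z hz z' hz' => ?_⟩
    obtain ⟨a, b, -⟩ := K2 t t' ht ht' z hz z' hz'
    exact ⟨a.trans h2, fun w hw w' hw' => (b w hw w' hw').trans
      (mul_le_mul_of_nonneg_right h2 (by positivity))⟩
  obtain ⟨C, hC, hk, hK⟩ := key hs
  obtain ⟨C', hC', hk', hK'⟩ := key hs'
  refine ModD.contOn_of_lip (L := C + C') fun w hw w' hw' => ?_
  have ba : ∀ w ∈ D.Mg (p.ηc / 2) (2 * p.κ), BddBelow (range fun x : D.C p =>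
      D.bar p (lf l f) s D.q0 x + D.Q (lf l f) s r x w) := fun w hw =>
    inf_bdd (C_compact h) (C_ne h hp)
      (φ := fun x => D.bar p (lf l f) s D.q0 x + D.Q (lf l f) s r x w) (L := 2 * C) (fun x hx x' hx' => by
        have := C11b.fa_lip h hp hk hK hr hr1 hw hw hx hx'
        simpa using this)
  have bb : ∀ w ∈ D.Mg (p.ηc / 2) (2 * p.κ), BddBelow (range fun x : D.C p =>
      D.P (lf l f) s' r w x + D.bar p (lf l f) s' x D.q0) := fun w hw =>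
    inf_bdd (C_compact h) (C_ne h hp)
      (φ := fun x => D.P (lf l f) s' r w x + D.bar p (lf l f) s' x D.q0) (L := 2 * C')
      (fun x hx x' hx' => by
        have := C11b.fb_lip h hp hk' hK' hr hr1 hw hw hx hx'
        simpa using this)
  have ea : |(⨅ x : D.C p, (D.bar p (lf l f) s D.q0 x + D.Q (lf l f) s r x w)) -
      ⨅ x : D.C p, (D.bar p (lf l f) s D.q0 x + D.Q (lf l f) s r x w')| ≤ C * dist w w' :=
    ModD.abs_iInf_sub (ba w hw) (ba w' hw') fun x => by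
      have := C11b.fa_lip h hp hk hK hr hr1 hw hw' x.2 x.2
      simpa using this
  have eb : |(⨅ x : D.C p, (D.P (lf l f) s' r w x + D.bar p (lf l f) s' x D.q0)) -
      ⨅ x : D.C p, (D.P (lf l f) s' r w' x + D.bar p (lf l f) s' x D.q0)| ≤ C' * dist w w' :=
    ModD.abs_iInf_sub (bb w hw) (bb w' hw') fun x => by
      have := C11b.fb_lip h hp hk' hK' hr hr1 hw hw' x.2 x.2
      simpa using this
  unfold GD.W GD.alpha GD.beta
  rw [abs_le] at ea eb ⊢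
  constructor <;> nlinarith [ea.1, ea.2, eb.1, eb.2]

theorem W_J (h : D.Ok) (hl : TL D.β D.F D.mF D.MF m M ll) {s s' r : ℝ} (w : E) (n : Fin d → ℤ) :
    D.W p ll s s' r (w + lv D.b n) = D.W p ll s s' r w := by
  have h1 : ∀ x : E, D.Q ll s r x (w + lv D.b n) = D.Q ll s r x w := fun x =>
    kk_J_right h hl s 0 (1 + r) x w n
  have h2 : ∀ x : E, D.P ll s' r (w + lv D.b n) x = D.P ll s' r w x := fun x => by
    unfold GD.P
    rw [show w + lv D.b n - D.g = (w - D.g) + lv D.b n by abel]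
    exact kk_J_left h hl s' r 2 (w - D.g) x n
  unfold GD.W GD.alpha GD.beta
  simp only [h1, h2]

end EscG
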