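import Pool.Agent.EscG.C2
import Pool.Agent.EscG.C3
import Pool.Agent.EscG.C5
import Pool.Agent.EscG.C6
import Pool.Agent.EscG.C7
import Pool.Agent.EscG.C8

/-!
Project EscG, module C9: where minimizers do not go.
-/

noncomputable section

namespace EscG

open MeasureTheory Set Filter Topology Esc EscF
open scoped ContDiff

variable {ι : Type} [Fintype ι] {d : ℕ} {E : Type*} [NormedAddCommGroup E] [InnerProductSpace ℝ E]
  [FiniteDimensional ℝ E] {D : GD ι d E} {p : GP} {m M : ℝ} {ll : E → E → ℝ → ℝ}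

namespace C9

theorem big {δ : ℝ} (hδ : 0 < δ) (K : ℝ) : ∃ s0 : ℝ, 1 ≤ s0 ∧ ∀ s, s0 ≤ s → K < δ * s := by
  refine ⟨max 1 (K / δ + 1), le_max_left _ _, fun s hs => ?_⟩
  have h1 : K / δ + 1 ≤ s := (le_max_right _ _).trans hs
  have h2 : K / δ < s := by linarith
  rw [div_lt_iff₀ hδ] at h2
  linarith [mul_comm s δ]

omit [FiniteDimensional ℝ E] in
theorem Mg_mono {η η' κ κ' : ℝ} (h1 : η' ≤ η) (h2 : κ ≤ κ') {w : E} (hw : w ∈ D.Mg η κ) :
    w ∈ D.Mg η' κ' :=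
  ⟨fun v hv => h1.trans (hw.1 v hv), by linarith [hw.2]⟩

omit [FiniteDimensional ℝ E] in
theorem Md_sub (hp : p.Ok D) {w : E} (hw : w ∈ D.Md p) : w ∈ D.Mg (p.ηc / 2) (2 * p.κ) :=
  Mg_mono (by linarith [hp.ηc_pos]) (by linarith [hp.κ_pos]) hw

omit [FiniteDimensional ℝ E] in
theorem out_dist {η : ℝ} {w : E} (hw : w ∈ D.Out η) : η ≤ Metric.infDist w D.Z := by
  have := hw 0 D.Lam.zero_mem
  rwa [add_zero] at this

omit [FiniteDimensional ℝ E] in
theorem out_dist_g (h : D.Ok) {η : ℝ} {w : E} (hw : w ∈ D.Out η) :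
    η ≤ Metric.infDist (w - D.g) D.Z := by
  have := hw (-D.g) (D.Lam.neg_mem h.g_mem)
  rwa [← sub_eq_add_neg] at this

omit [FiniteDimensional ℝ E] in
theorem R_Rm (hp : p.Ok D) {x : E} (hx : x ∈ D.R p) : x ∈ D.Rm p.ηc := by
  have h1 : Metric.infDist x D.Z ≤ p.η1 := hx
  have h2 := hp.η1_le
  have h3 := hp.η1_pos
  show Metric.infDist x D.Z ≤ p.ηc
  linarith

omit [FiniteDimensional ℝ E] in
theorem R_X (hp : p.Ok D) {x : E} (hx : x ∈ D.R p) : x ∈ D.X p.ρ := by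
  have := hp.bnd x (Or.inl (R_Rm hp hx)) 0 (by simp)
  simpa using this

omit [FiniteDimensional ℝ E] in
theorem Md_X (hp : p.Ok D) {w : E} (hw : w ∈ D.Md p) : w ∈ D.X p.ρ := by
  have := hp.bnd w (Or.inr (Md_sub hp hw)) 0 (by simp)
  simpa using this

omit [FiniteDimensional ℝ E] in
theorem Md_X' (hp : p.Ok D) {w : E} (hw : w ∈ D.Md p) : w - D.g ∈ D.X p.ρ := by
  have := hp.bnd w (Or.inr (Md_sub hp hw)) (-1) (by simp)
  have e1 : w + (((-1 : ℤ) : ℤ) : ℝ) • D.g = w - D.g := by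
    push_cast
    rw [neg_smul, one_smul, sub_eq_add_neg]
  rwa [e1] at this

omit [FiniteDimensional ℝ E] in
theorem P0_cases {q : E} (hq : q ∈ D.P0) : q = D.q0 ∨ q = D.q1 := hq

omit [FiniteDimensional ℝ E] in
theorem q0_P0 : D.q0 ∈ D.P0 := Or.inl rfl

omit [FiniteDimensional ℝ E] in
theorem q1_P0 : D.q1 ∈ D.P0 := Or.inr rfl

omit [FiniteDimensional ℝ E] in
theorem P0_Z (h : D.Ok) {q : E} (hq : q ∈ D.P0) : q ∈ D.Z := by
  rcases hq with rfl | rfl
  · exact h.q0_mem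
  · exact h.q1_mem

omit [FiniteDimensional ℝ E] in
theorem P0_R (h : D.Ok) (hp : p.Ok D) {q : E} (hq : q ∈ D.P0) : q ∈ D.R p := by
  show Metric.infDist q D.Z ≤ p.η1
  rw [Metric.infDist_zero_of_mem (P0_Z h hq)]
  exact hp.η1_pos.le

/-- the exit from the room at `q0` is exact for the anchors -/
theorem ex0 (h : D.Ok) (hp : p.Ok D) {w : E} (hw : w ∈ D.Mg (p.ηc / 2) (2 * p.κ)) {q : E}
    (hq : q ∈ D.P0) : D.j q D.q0 + D.j D.q0 w ≤ D.j q w := by
  rcases P0_cases hq with rfl | rfl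
  · rw [j_self h.toOk0, zero_add]
  · have hg := hp.gate w hw
    have he := hp.e_pos
    rcases hg.ex0 w (out_dist hw.1) with h1 | h1
    · exact h1
    · rw [j_self h.toOk0 w] at h1
      linarith

/-- the entrance into the next room at `q1` is exact for the anchors -/
theorem ex1 (h : D.Ok) (hp : p.Ok D) {w : E} (hw : w ∈ D.Mg (p.ηc / 2) (2 * p.κ)) {q : E}
    (hq : q ∈ D.P0) : D.j w (D.q1 + D.g) + D.j D.q1 q ≤ D.j w (q + D.g) := by
  rcases P0_cases hq with rfl | rfl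
  · have hg := hp.gate w hw
    have he := hp.e_pos
    rcases hg.ex1 w (out_dist_g h hw.1) with h1 | h1
    · exact h1
    · rw [j_self h.toOk0 w] at h1
      linarith
  · rw [j_self h.toOk0, add_zero]

omit [FiniteDimensional ℝ E] in
theorem not_InJ_neg {v : E} (hv : ¬ D.InJ v) : ¬ D.InJ (-v) := by
  rintro ⟨n, hn⟩
  refine hv ⟨-n, ?_⟩
  have : v = - lv D.b n := by rw [← hn, neg_neg]
  rw [this]
  simp [lv]

omit [FiniteDimensional ℝ E] in
/-- points of the room are not in other rooms -/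
theorem R_not (hp : p.Ok D) {x v : E} (hx : x ∈ D.R p) (hv : v ∈ D.Lam) (hJ : ¬ D.InJ v) :
    x + v ∉ D.Z := by
  intro hz
  have h1 := hp.sep (-v) (D.Lam.neg_mem hv) (not_InJ_neg hJ) (x + v) hz
  rw [add_neg_cancel_right] at h1
  have h2 : Metric.infDist x D.Z ≤ p.η1 := hx
  have h3 := hp.η1_le
  have h4 := hp.η1_pos
  linarith

omit [FiniteDimensional ℝ E] in
/-- a point at positive distance of the zone is not in its fast translates -/
theorem not_Z_J (h : D.Ok) {c : E} (hc : 0 < Metric.infDist c D.Z) {v : E} (hJ : D.InJ v) :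
    c + v ∉ D.Z := by
  intro hz
  obtain ⟨n, rfl⟩ := hJ
  have h1 := h.Z_J (-n) _ hz
  have e1 : c + lv D.b n + lv D.b (-n) = c := by simp [lv]
  rw [e1] at h1
  rw [Metric.infDist_zero_of_mem h1] at hc
  exact lt_irrefl _ hc

omit [FiniteDimensional ℝ E] in
/-- a point on the boundary of the room is outside of all zones -/
theorem bd_out (h : D.Ok) (hp : p.Ok D) {x : E} (hx : Metric.infDist x D.Z = p.η1) :
    ∀ v ∈ D.Lam, x + v ∉ D.Z := by
  intro v hv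
  by_cases hJ : D.InJ v
  · exact not_Z_J h (by rw [hx]; exact hp.η1_pos) hJ
  · exact R_not hp (show Metric.infDist x D.Z ≤ p.η1 from hx.le) hv hJ

theorem kk_ge4 (h : D.Ok) (hl : TL D.β D.F D.mF D.MF m M ll) {s : ℝ} (hs : 0 ≤ s) {t t' : ℝ}
    (htt : t < t') (h4 : t' - t ≤ 4) (x x' : E) : s * D.j x x' ≤ D.kk ll s t t' x x' + 4 * M := by
  have h1 := kk_ge h hl hs htt x x'
  have h2 := mul_le_mul_of_nonneg_left h4 hl.M_nonneg
  linarith

/-- the shift of the first variable -/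
theorem j_sub_g (h : D.Ok) (w x : E) : D.j (w - D.g) x = D.j w (x + D.g) := by
  have := j_Lam h.toOk0 h.g_mem (w - D.g) x
  rw [sub_add_cancel] at this
  exact this.symm

theorem j_neg_r (h : D.Ok) {v : E} (hv : v ∈ D.Lam) (x q : E) : D.j x (q + -v) = D.j (x + v) q := by
  have := j_Lam h.toOk0 hv x (q + -v)
  rw [neg_add_cancel_right] at this
  exact this.symm

theorem j_neg_l (h : D.Ok) {v : E} (hv : v ∈ D.Lam) (x q : E) : D.j (q + -v) x = D.j q (x + v) := by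
  have := j_Lam h.toOk0 hv (q + -v) x
  rw [neg_add_cancel_right] at this
  exact this.symm

/-- both legs near anchors -/
theorem two (h : D.Ok) {s A B ε e2 K : ℝ} {x c y : E} (hs : 0 ≤ s) (hA : s * D.j x c ≤ A + K)
    (hB : s * D.j c y ≤ B + K)
    (h1 : ∃ q ∈ D.P0, ∃ v ∈ D.Lam, s * (D.j x (q + v) + D.j (q + v) c) ≤ A + ε * s)
    (h2 : ∃ q ∈ D.P0, ∃ v ∈ D.Lam, s * (D.j c (q + v) + D.j (q + v) y) ≤ B + ε * s)
    (hrt : ∀ q ∈ D.P0, ∀ q' ∈ D.P0, D.j q q' + e2 ≤ D.j q c + D.j c q') :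
    (∃ q ∈ D.P0, ∃ q' ∈ D.P0, s * (D.j x q + D.j q q' + D.j q' y + e2) ≤ A + B + 2 * (ε * s)) ∨
      ∃ a ∈ D.P0, ∃ v ∈ D.Lam, ¬ D.InJ v ∧ s * (D.j x (a + v) + D.j (a + v) y) ≤ A + B + ε * s + K := by
  obtain ⟨q, hq, v, hv, hqv⟩ := h1
  obtain ⟨q', hq', v', hv', hqv'⟩ := h2
  by_cases hJ : D.InJ v
  · by_cases hJ' : D.InJ v'
    · left
      obtain ⟨n, rfl⟩ := hJ
      obtain ⟨n', rfl⟩ := hJ'
      have e0 : lv D.b (0 : Fin d → ℤ) = 0 := by simp [lv]
      have a1 : D.j x (q + lv D.b n) = D.j x q := by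
        have := j_J h.toOk0 x q 0 n
        rwa [e0, add_zero] at this
      have a2 : D.j (q + lv D.b n) c = D.j q c := by
        have := j_J h.toOk0 q c n 0
        rwa [e0, add_zero] at this
      have a3 : D.j c (q' + lv D.b n') = D.j c q' := by
        have := j_J h.toOk0 c q' 0 n'
        rwa [e0, add_zero] at this
      have a4 : D.j (q' + lv D.b n') y = D.j q' y := by
        have := j_J h.toOk0 q' y n' 0
        rwa [e0, add_zero] at this
      rw [a1, a2] at hqv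
      rw [a3, a4] at hqv'
      refine ⟨q, hq, q', hq', ?_⟩
      have h5 := mul_le_mul_of_nonneg_left (hrt q hq q' hq') hs
      nlinarith [h5, hqv, hqv']
    · right
      refine ⟨q', hq', v', hv', hJ', ?_⟩
      have h5 := mul_le_mul_of_nonneg_left (j_tri h.toOk0 x c (q' + v')) hs
      nlinarith [h5, hqv', hA]
  · right
    refine ⟨q, hq, v, hv, hJ, ?_⟩
    have h5 := mul_le_mul_of_nonneg_left (j_tri h.toOk0 (q + v) c y) hs
    nlinarith [h5, hqv, hB]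

/-- the common part: a passage through the point `c` at distance at least `η1` of the zone -/
theorem core (h : D.Ok) (hp : p.Ok D) (m M C : ℝ) {ε : ℝ} (hε : 0 < ε) : ∃ s0 : ℝ, 1 ≤ s0 ∧
    ∀ s, s0 ≤ s → ∀ ll, TL D.β D.F D.mF D.MF m M ll → ∀ t t' τ τ', 1 / 4 ≤ t' - t → t' - t ≤ 4 →
    1 / 4 ≤ τ' - τ → τ' - τ ≤ 4 → ∀ x c y : E, p.η1 ≤ Metric.infDist c D.Z →
    (x ∈ D.R p ∨ y ∈ D.R p) → ∀ e2 : ℝ,
    (∀ q ∈ D.P0, ∀ q' ∈ D.P0, D.j q q' + e2 ≤ D.j q c + D.j c q') →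
    C * s < D.kk ll s t t' x c + D.kk ll s τ τ' c y + 4 * M ∨
    (∃ q ∈ D.P0, ∃ q' ∈ D.P0, s * (D.j x q + D.j q q' + D.j q' y + e2) ≤
      D.kk ll s t t' x c + D.kk ll s τ τ' c y + 2 * (ε * s)) ∨
    ∃ a ∈ D.P0, ∃ v ∈ D.Lam, ¬ D.InJ v ∧ s * (D.j x (a + v) + D.j (a + v) y) ≤
      D.kk ll s t t' x c + D.kk ll s τ τ' c y + ε * s + 8 * M := by
  obtain ⟨sc, hsc, H0⟩ := low0 h m M C hε
  obtain ⟨sd, hsd, H1⟩ := low1 h m M C hε
  refine ⟨max sc sd, hsc.trans (le_max_left _ _), ?_⟩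
  intro s hs ll hl t t' τ τ' ht1 ht2 ht3 ht4 x c y hc hxy e2 hrt
  have hsc' : sc ≤ s := (le_max_left _ _).trans hs
  have hsd' : sd ≤ s := (le_max_right _ _).trans hs
  have hs0 : 0 ≤ s := by linarith
  have hM := hl.M_nonneg
  have hes : 0 ≤ ε * s := mul_nonneg hε.le hs0
  have hA := kk_ge4 h hl hs0 (by linarith : t < t') ht2 x c
  have hB := kk_ge4 h hl hs0 (by linarith : τ < τ') ht4 c y
  have jA := mul_nonneg hs0 (j_nonneg h.toOk0 x c)
  have jB := mul_nonneg hs0 (j_nonneg h.toOk0 c y)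
  by_cases hcv : ∃ v ∈ D.Lam, c + v ∈ D.Z
  · right; right
    obtain ⟨v, hv, hz⟩ := hcv
    have hJ : ¬ D.InJ v := fun hJ => not_Z_J h (hp.η1_pos.trans_le hc) hJ hz
    rcases hxy with hx | hy
    · obtain ⟨q, hq, hh⟩ := pass1 h.toOk0 hz (R_not hp hx hv hJ)
      refine ⟨q, hq, -v, D.Lam.neg_mem hv, not_InJ_neg hJ, ?_⟩
      rw [j_Lam h.toOk0 hv] at hh
      have e1 := j_neg_r h hv x q
      have e2' := j_neg_l h hv c q
      have h5 := j_tri h.toOk0 (q + -v) c y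
      have h6 : D.j x (q + -v) + D.j (q + -v) y ≤ D.j x c + D.j c y := by linarith
      have h7 := mul_le_mul_of_nonneg_left h6 hs0
      linarith
    · obtain ⟨q, hq, hh⟩ := pass0 h.toOk0 hz (R_not hp hy hv hJ)
      refine ⟨q, hq, -v, D.Lam.neg_mem hv, not_InJ_neg hJ, ?_⟩
      rw [j_Lam h.toOk0 hv] at hh
      have e1 := j_neg_r h hv c q
      have e2' := j_neg_l h hv y q
      have h5 := j_tri h.toOk0 x c (q + -v)
      have h6 : D.j x (q + -v) + D.j (q + -v) y ≤ D.j x c + D.j c y := by linarith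
      have h7 := mul_le_mul_of_nonneg_left h6 hs0
      linarith
  · have hout : ∀ v ∈ D.Lam, c + v ∉ D.Z := fun v hv hz => hcv ⟨v, hv, hz⟩
    by_cases hA' : D.kk ll s t t' x c ≤ C * s
    · by_cases hB' : D.kk ll s τ τ' c y ≤ C * s
      · right
        rcases two h hs0 hA hB (H1 s hsd' ll hl t t' ht1 ht2 x c hout hA')
          (H0 s hsc' ll hl τ τ' ht3 ht4 c y hout hB') hrt with h1 | h1
        · exact Or.inl h1
        · right
          obtain ⟨a, ha, v, hv, hJ, h2⟩ := h1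
          exact ⟨a, ha, v, hv, hJ, by linarith⟩
      · left
        push Not at hB'
        linarith
    · left
      push Not at hA'
      linarith

end C9

/-! ### V1 -/

theorem v1 (h : D.Ok) (hp : p.Ok D) (m M : ℝ) : ∃ s0 : ℝ, 1 ≤ s0 ∧ ∀ s, s0 ≤ s → ∀ ll,
    TL D.β D.F D.mF D.MF m M ll → ∀ x ∈ D.R p, ∀ x' ∈ D.R p, ∀ c ∈ D.Out (p.ηc / 2), ∀ t, 0 < t → t < 1 →
    D.k1 ll s x x' + 1 < D.kk ll s 0 t x c + D.kk ll s t 1 c x' := by
  have he := hp.e_pos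
  obtain ⟨s1, hs1, H1⟩ := upp h m M p.ρ (ε := p.e / 4) (by positivity)
  obtain ⟨s2, hs2, H2⟩ := C9.big (by positivity : 0 < p.e / 4) (1 + 8 * |M|)
  refine ⟨max s1 s2, hs1.trans (le_max_left _ _), ?_⟩
  intro s hs ll hl x hx x' hx' c hc t ht0 ht1
  have hs1' : s1 ≤ s := (le_max_left _ _).trans hs
  have hs2' : s2 ≤ s := (le_max_right _ _).trans hs
  have hs0 : 0 ≤ s := by linarith
  have hM := hl.M_nonneg
  have hMa := le_abs_self M
  have hb := H2 s hs2'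
  have hd : p.ηc / 4 ≤ Metric.infDist c D.Z := by
    have := C9.out_dist hc
    linarith [hp.ηc_pos]
  obtain ⟨q, hq, hj⟩ := rtg h hp hx hx' hd
  have hu := H1 s hs1' ll hl 0 1 (by norm_num) (by norm_num) x (C9.R_X hp hx) x' (C9.R_X hp hx') q hq
  have hA := C9.kk_ge4 h hl hs0 ht0 (by linarith) x c
  have hB := C9.kk_ge4 h hl hs0 ht1 (by linarith) c x'
  have hom := hp.om_le
  have hk := hp.κ_le
  have hκ := hp.κ_pos
  have h5 := mul_le_mul_of_nonneg_left hj hs0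
  have h6 : 2 * (4 * D.MF * p.η1) ≤ p.e / 4 := by linarith
  have h7 := mul_le_mul_of_nonneg_left h6 hs0
  show D.kk ll s 0 1 x x' + 1 < _
  have h8 : s * (p.e / 4) = p.e / 4 * s := mul_comm _ _
  have h9 : s * p.e = 4 * (p.e / 4 * s) := by ring
  rw [mul_add, mul_add, mul_add, mul_add] at h5
  rw [mul_add] at hu
  nlinarith [h5, h7, hu, hA, hB, hb]

/-! ### V3 -/

theorem v3 (h : D.Ok) (hp : p.Ok D) (m M : ℝ) : ∃ s0 : ℝ, 1 ≤ s0 ∧ ∀ s, s0 ≤ s → ∀ ll,
    TL D.β D.F D.mF D.MF m M ll → ∀ x ∈ D.R p, ∀ w ∈ D.Md p, ∀ r, 0 ≤ r → r ≤ 1 → ∀ t, 1 / 2 ≤ t →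
    t ≤ 1 / 2 + r → ∀ c, p.η1 ≤ Metric.infDist c D.Z →
    D.Q ll s r x w + 1 < D.kk ll s 0 t x c + D.kk ll s t (1 + r) c w := by
  have he := hp.e_pos
  obtain ⟨e2, he2, hrt⟩ := h.rt p.η1 hp.η1_pos
  have hε0 : 0 < min p.e e2 / 8 := by positivity
  obtain ⟨C1, sa, hC1, hsa, Hlin⟩ := kk_lin h m M p.ρ
  obtain ⟨sb, hsb, Hupp⟩ := upp h m M p.ρ hε0
  obtain ⟨sc, hsc, Hc⟩ := C9.core h hp m M (C1 + min p.e e2 / 8) hε0
  obtain ⟨sd, hsd, Hbig⟩ := C9.big hε0 (1 + 8 * |M|)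
  refine ⟨max (max sa sb) (max sc sd), hsa.trans ((le_max_left _ _).trans (le_max_left _ _)), ?_⟩
  intro s hs ll hl x hx w hw r hr0 hr1 t ht0 ht1 c hc
  have hsa' : sa ≤ s := ((le_max_left _ _).trans (le_max_left _ _)).trans hs
  have hsb' : sb ≤ s := ((le_max_right _ _).trans (le_max_left _ _)).trans hs
  have hsc' : sc ≤ s := ((le_max_left _ _).trans (le_max_right _ _)).trans hs
  have hsd' : sd ≤ s := ((le_max_right _ _).trans (le_max_right _ _)).trans hs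
  have hs0 : 0 ≤ s := by linarith
  have hM := hl.M_nonneg
  have hMa := le_abs_self M
  have hb := Hbig s hsd'
  have hwM := C9.Md_sub hp hw
  have hlin := Hlin s hsa' ll hl 0 (1 + r) (by linarith) (by linarith) x (C9.R_X hp hx) w
    (C9.Md_X hp hw)
  have hupp := Hupp s hsb' ll hl 0 (1 + r) (by linarith) (by linarith) x (C9.R_X hp hx) w
    (C9.Md_X hp hw) D.q0 C9.q0_P0
  show D.kk ll s 0 (1 + r) x w + 1 < _
  have hle1 : min p.e e2 ≤ p.e := min_le_left _ _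
  have hle2 : min p.e e2 ≤ e2 := min_le_right _ _
  set ε := min p.e e2 / 8 with hε
  set A := D.kk ll s 0 t x c with hA
  set B := D.kk ll s t (1 + r) c w with hB
  have hl1 := (le_abs_self _).trans hlin
  have hse := mul_le_mul_of_nonneg_left (show 8 * ε ≤ p.e by linarith) hs0
  have hse2 := mul_le_mul_of_nonneg_left (show 8 * ε ≤ e2 by linarith) hs0
  rcases Hc s hsc' ll hl 0 t t (1 + r) (by linarith) (by linarith) (by linarith) (by linarith) x c w hc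
    (Or.inl hx) e2 (hrt c hc) with h1 | ⟨q, hq, q', hq', h1⟩ | ⟨a, ha, v, hv, hJ, h1⟩
  · rw [← hA, ← hB] at h1
    nlinarith [h1, hl1, hb]
  · rw [← hA, ← hB] at h1
    have t1 := j_tri h.toOk0 q q' w
    have t2 := C9.ex0 h hp hwM hq
    have t3 := j_tri h.toOk0 x q D.q0
    have t4 : D.j x D.q0 + D.j D.q0 w + e2 ≤ D.j x q + D.j q q' + D.j q' w + e2 := by linarith
    have t5 := mul_le_mul_of_nonneg_left t4 hs0
    nlinarith [t5, h1, hupp, hse2, hb]
  · rw [← hA, ← hB] at h1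
    have t1 := no0g h hp hx hwM hv hJ ha
    have hom := hp.om_le
    have hk := hp.κ_le
    have hκ := hp.κ_pos
    have t2 : D.j x D.q0 + D.j D.q0 w + p.e / 2 ≤ D.j x (a + v) + D.j (a + v) w := by linarith
    have t3 := mul_le_mul_of_nonneg_left t2 hs0
    nlinarith [t3, h1, hupp, hse, hb]

theorem v3' (h : D.Ok) (hp : p.Ok D) (m M : ℝ) : ∃ s0 : ℝ, 1 ≤ s0 ∧ ∀ s, s0 ≤ s → ∀ ll,
    TL D.β D.F D.mF D.MF m M ll → ∀ x ∈ D.R p, ∀ w ∈ D.Md p, ∀ r, 0 ≤ r → r ≤ 1 → ∀ t, r + 1 / 2 ≤ t →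
    t ≤ 3 / 2 → ∀ c, p.η1 ≤ Metric.infDist c D.Z →
    D.P ll s r w x + 1 < D.kk ll s r t (w - D.g) c + D.kk ll s t 2 c x := by
  have he := hp.e_pos
  obtain ⟨e2, he2, hrt⟩ := h.rt p.η1 hp.η1_pos
  have hε0 : 0 < min p.e e2 / 8 := by positivity
  obtain ⟨C1, sa, hC1, hsa, Hlin⟩ := kk_lin h m M p.ρ
  obtain ⟨sb, hsb, Hupp⟩ := upp h m M p.ρ hε0
  obtain ⟨sc, hsc, Hc⟩ := C9.core h hp m M (C1 + min p.e e2 / 8) hε0
  obtain ⟨sd, hsd, Hbig⟩ := C9.big hε0 (1 + 8 * |M|)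
  refine ⟨max (max sa sb) (max sc sd), hsa.trans ((le_max_left _ _).trans (le_max_left _ _)), ?_⟩
  intro s hs ll hl x hx w hw r hr0 hr1 t ht0 ht1 c hc
  have hsa' : sa ≤ s := ((le_max_left _ _).trans (le_max_left _ _)).trans hs
  have hsb' : sb ≤ s := ((le_max_right _ _).trans (le_max_left _ _)).trans hs
  have hsc' : sc ≤ s := ((le_max_left _ _).trans (le_max_right _ _)).trans hs
  have hsd' : sd ≤ s := ((le_max_right _ _).trans (le_max_right _ _)).trans hs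
  have hs0 : 0 ≤ s := by linarith
  have hM := hl.M_nonneg
  have hMa := le_abs_self M
  have hb := Hbig s hsd'
  have hwM := C9.Md_sub hp hw
  have hlin := Hlin s hsa' ll hl r 2 (by linarith) (by linarith) (w - D.g) (C9.Md_X' hp hw) x
    (C9.R_X hp hx)
  have hupp := Hupp s hsb' ll hl r 2 (by linarith) (by linarith) (w - D.g) (C9.Md_X' hp hw) x
    (C9.R_X hp hx) D.q1 C9.q1_P0
  show D.kk ll s r 2 (w - D.g) x + 1 < _
  have hle1 : min p.e e2 ≤ p.e := min_le_left _ _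
  have hle2 : min p.e e2 ≤ e2 := min_le_right _ _
  set ε := min p.e e2 / 8 with hε
  set A := D.kk ll s r t (w - D.g) c with hA
  set B := D.kk ll s t 2 c x with hB
  have hl1 := (le_abs_self _).trans hlin
  have hse := mul_le_mul_of_nonneg_left (show 8 * ε ≤ p.e by linarith) hs0
  have hse2 := mul_le_mul_of_nonneg_left (show 8 * ε ≤ e2 by linarith) hs0
  rw [C9.j_sub_g h] at hupp
  rcases Hc s hsc' ll hl r t t 2 (by linarith) (by linarith) (by linarith) (by linarith) (w - D.g) c x hc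
    (Or.inr hx) e2 (hrt c hc) with h1 | ⟨q, hq, q', hq', h1⟩ | ⟨a, ha, v, hv, hJ, h1⟩
  · rw [← hA, ← hB] at h1
    nlinarith [h1, hl1, hb]
  · rw [← hA, ← hB] at h1
    have t1 := j_tri h.toOk0 (w - D.g) q q'
    have t2 := C9.ex1 h hp hwM hq'
    rw [← C9.j_sub_g h w q'] at t2
    have t3 := j_tri h.toOk0 D.q1 q' x
    have t4 : D.j w (D.q1 + D.g) + D.j D.q1 x + e2 ≤
        D.j (w - D.g) q + D.j q q' + D.j q' x + e2 := by linarith
    have t5 := mul_le_mul_of_nonneg_left t4 hs0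
    nlinarith [t5, h1, hupp, hse2, hb]
  · rw [← hA, ← hB] at h1
    have t1 := no1g h hp hx hwM hv hJ ha
    rw [C9.j_sub_g h] at h1
    have hom := hp.om_le
    have hk := hp.κ_le
    have hκ := hp.κ_pos
    have t2 : D.j w (D.q1 + D.g) + D.j D.q1 x + p.e / 2 ≤
        D.j w (a + v + D.g) + D.j (a + v) x := by linarith
    have t3 := mul_le_mul_of_nonneg_left t2 hs0
    nlinarith [t3, h1, hupp, hse, hb]

end EscG
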