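import Pool.Agent.EscG.SDefs

/-!
Project EscG (MP_6acca1_an), core: the gap structure, passing costs, rooms, gates, stages. Definitions.
-/

noncomputable section

namespace EscG

open MeasureTheory Set Filter Topology Esc EscF
open scoped ContDiff

/-- energy distance of the Finsler metric `F` -/
def fd {E : Type*} [NormedAddCommGroup E] [InnerProductSpace ℝ E] (F : E → E → ℝ) (x x' : E) : ℝ :=
  Real.sqrt (2 * kerl (fun y v _ => F y v ^ 2 / 2) 0 1 x x')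

/-- Data of a gap: basis `β` of the period lattice, basis `b` of the sublattice of fast vectors, Finsler
metric `F`, calibrating function `B` with periods `c` along `b`, zone `Z` with the anchors `q0` (exit) and
`q1` (entrance, before the shift by the slow lattice vector `g`). -/
structure GD (ι : Type) [Fintype ι] (d : ℕ) (E : Type*) [NormedAddCommGroup E]
    [InnerProductSpace ℝ E] where
  β : Module.Basis ι ℝ E
  b : Fin d → E
  F : E → E → ℝ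
  mF : ℝ
  MF : ℝ
  B : E → ℝ
  c : Fin d → ℝ
  Z : Set E
  q0 : E
  q1 : E
  g : E

namespace GD

variable {ι : Type} [Fintype ι] {d : ℕ} {E : Type*} [NormedAddCommGroup E] [InnerProductSpace ℝ E]
  (D : GD ι d E)

/-- the period lattice -/
def Lam : AddSubgroup E := (Submodule.span ℤ (Set.range D.β)).toAddSubgroup

/-- fast lattice vectors -/
def InJ (v : E) : Prop := ∃ n : Fin d → ℤ, v = lv D.b n

/-- cost of passing from `x` to `x'` modulo the fast lattice -/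
def j (x x' : E) : ℝ := ⨅ n : Fin d → ℤ, (fd D.F x (x' + lv D.b n) - (D.B (x' + lv D.b n) - D.B x))

/-- cost of the passage through the gap -/
def U : ℝ := D.j D.q0 (D.q1 + D.g)

/-- the two anchors of the room -/
def P0 : Set E := {D.q0, D.q1}

/-- points at distance at least `η` from all rooms -/
def Out (η : ℝ) : Set E := {w | ∀ v ∈ D.Lam, η ≤ Metric.infDist (w + v) D.Z}

/-- the room: zone with collars -/
def Rm (η : ℝ) : Set E := {x | Metric.infDist x D.Z ≤ η}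

/-- points outside of the rooms near which optimal passages go -/
def Mg (η κ : ℝ) : Set E := {w | w ∈ D.Out η ∧ D.j D.q0 w + D.j w (D.q1 + D.g) ≤ D.U + κ}

/-- bounded sets modulo the fast lattice -/
def X (ρ : ℝ) : Set E := {x | ∃ n : Fin d → ℤ, ‖x + lv D.b n‖ ≤ ρ}

/-- compact fundamental domain of the room -/
def Cel (η ρ : ℝ) : Set E := D.Rm η ∩ Metric.closedBall 0 ρ

/-- long fast loops of arbitrary length and arbitrarily small cost -/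
def Anc (p : E) : Prop := ∀ ε : ℝ, 0 < ε → ∃ C : ℝ, ∀ T : ℝ, 0 ≤ T → ∃ n : Fin d → ℤ,
  T ≤ fd D.F p (p + lv D.b n) ∧ fd D.F p (p + lv D.b n) ≤ T + C ∧
    fd D.F p (p + lv D.b n) - (D.B (p + lv D.b n) - D.B p) ≤ ε

/-- gate inequalities at the point `w` with gain `e`: a passage from the room through a point `c` at
distance `η` of the zone starts at the exit `q0` or costs `e` more; a passage through another room costs
`e` more -/
structure Gt (η e : ℝ) (w : E) : Prop where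
  ex0 : ∀ c, η ≤ Metric.infDist c D.Z → D.j D.q1 D.q0 + D.j D.q0 c ≤ D.j D.q1 c ∨
    D.j D.q1 D.q0 + D.j D.q0 w + e ≤ D.j D.q1 c + D.j c w
  ex1 : ∀ c, η ≤ Metric.infDist (c - D.g) D.Z →
    D.j c (D.q1 + D.g) + D.j D.q1 D.q0 ≤ D.j c (D.q0 + D.g) ∨
    D.j w (D.q1 + D.g) + D.j D.q1 D.q0 + e ≤ D.j w c + D.j c (D.q0 + D.g)
  no0 : ∀ v ∈ D.Lam, ¬ D.InJ v → ∀ a ∈ D.P0, ∀ x ∈ D.P0,
    D.j x D.q0 + D.j D.q0 w + e ≤ D.j x (a + v) + D.j (a + v) w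
  no1 : ∀ v ∈ D.Lam, ¬ D.InJ v → ∀ a ∈ D.P0, ∀ x ∈ D.P0,
    D.j w (D.q1 + D.g) + D.j D.q1 x + e ≤ D.j w (a + v + D.g) + D.j (a + v) x

/-- the basic hypotheses on the data -/
structure Ok0 : Prop where
  li : LinearIndependent ℝ D.b
  bβ : ∀ i, ∃ k, D.b i = D.β k
  fins : Fins D.β D.F D.mF D.MF
  cal : Cal D.b D.F D.B D.c
  Bper : ∀ v ∈ D.Lam, ∃ a : ℝ, ∀ x, D.B (x + v) = D.B x + a
  Z_closed : IsClosed D.Z
  Z_J : ∀ n : Fin d → ℤ, ∀ x ∈ D.Z, x + lv D.b n ∈ D.Z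
  Z_cpt : ∃ ρ : ℝ, D.Z ⊆ D.X ρ
  Z_disj : ∀ v ∈ D.Lam, ¬ D.InJ v → ∀ x ∈ D.Z, x + v ∉ D.Z
  q0_mem : D.q0 ∈ D.Z
  q1_mem : D.q1 ∈ D.Z
  anc0 : D.Anc D.q0
  anc1 : D.Anc D.q1
  front : ∀ z ∈ frontier D.Z, ∃ p ∈ D.P0, D.j z p + D.j p z ≤ 0
  strict : ∀ η : ℝ, 0 < η → ∃ θ : ℝ, 0 < θ ∧ θ ≤ 1 ∧ ∀ (z : E) (u : ℝ → E), Adm u → ∀ a b' : ℝ, a ≤ b' →
    (∀ t ∈ Icc a b', traj a z u t ∈ D.Out η) →
    D.B (traj a z u b') - D.B z ≤ (1 - θ) * ∫ t in a..b', D.F (traj a z u t) (u t)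

/-- the hypotheses on the data -/
structure Ok : Prop extends D.Ok0 where
  g_mem : D.g ∈ D.Lam
  g_not : ¬ D.InJ D.g
  rt : ∀ η : ℝ, 0 < η → ∃ e : ℝ, 0 < e ∧ ∀ w, η ≤ Metric.infDist w D.Z → ∀ p ∈ D.P0, ∀ p' ∈ D.P0,
    D.j p p' + e ≤ D.j p w + D.j w p'
  gate : ∀ η : ℝ, 0 < η → ∃ e : ℝ, 0 < e ∧ ∀ w ∈ D.Mg η e, D.Gt η e w

end GD

/-- parameters: distance `ηc` of the core, width `κ` of the set of gate points, width `η1` of the
collars, gain `e`, size `ρ` of all compact sets -/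
structure GP where
  ηc : ℝ
  κ : ℝ
  η1 : ℝ
  e : ℝ
  ρ : ℝ

namespace GP

variable {ι : Type} [Fintype ι] {d : ℕ} {E : Type*} [NormedAddCommGroup E] [InnerProductSpace ℝ E]

/-- the conditions on the parameters -/
structure Ok (p : GP) (D : GD ι d E) : Prop where
  ηc_pos : 0 < p.ηc
  κ_pos : 0 < p.κ
  η1_pos : 0 < p.η1
  e_pos : 0 < p.e
  κ_le : 16 * p.κ ≤ p.e
  om_le : 400 * (4 * D.MF * p.η1) ≤ p.κ
  η1_le : 16 * p.η1 ≤ p.ηc
  sep : ∀ v ∈ D.Lam, ¬ D.InJ v → ∀ x ∈ D.Z, 8 * p.ηc ≤ Metric.infDist (x + v) D.Z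
  rt : ∀ w, p.ηc / 4 ≤ Metric.infDist w D.Z → ∀ p1 ∈ D.P0, ∀ p2 ∈ D.P0,
    D.j p1 p2 + p.e ≤ D.j p1 w + D.j w p2
  gate : ∀ w ∈ D.Mg (p.ηc / 2) (2 * p.κ), D.Gt (p.ηc / 2) p.e w
  bnd : ∀ x, x ∈ D.Rm p.ηc ∨ x ∈ D.Mg (p.ηc / 2) (2 * p.κ) → ∀ k : ℤ, |k| ≤ 2 →
    x + (k : ℝ) • D.g ∈ D.X p.ρ

end GP

namespace GD

variable {ι : Type} [Fintype ι] {d : ℕ} {E : Type*} [NormedAddCommGroup E] [InnerProductSpace ℝ E]
  (D : GD ι d E) (p : GP)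

/-- the room -/
def R : Set E := D.Rm p.η1

/-- compact fundamental domain of the room -/
def C : Set E := D.Cel p.η1 p.ρ

/-- gate points -/
def Md : Set E := D.Mg p.ηc p.κ

/-- inner gate points -/
def Mi : Set E := D.Mg (2 * p.ηc) (p.κ / 2)

/-- cost of a control in class `s` -/
def cst (ll : E → E → ℝ → ℝ) (s t t' : ℝ) (z : E) (u : ℝ → E) : ℝ :=
  actl ll t t' z u - s * (D.B (traj t z u t') - D.B z) + s ^ 2 / 2 * (t' - t)

/-- cost of a curve in class `s` -/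
def cv (ll : E → E → ℝ → ℝ) (s t t' : ℝ) (Z v : ℝ → E) : ℝ :=
  (∫ r in t..t', ll (Z r) (v r) r) - s * (D.B (Z t') - D.B (Z t)) + s ^ 2 / 2 * (t' - t)

/-- kernel in class `s` -/
def kk (ll : E → E → ℝ → ℝ) (s t t' : ℝ) (z z' : E) : ℝ := K D.b D.B s ll t t' z z'

/-- room kernel -/
def k1 (ll : E → E → ℝ → ℝ) (s : ℝ) (z z' : E) : ℝ := D.kk ll s 0 1 z z'

/-- leg from the room to the gate point `w` at time `1 + r` -/
def Q (ll : E → E → ℝ → ℝ) (s r : ℝ) (x w : E) : ℝ := D.kk ll s 0 (1 + r) x w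

/-- leg from the gate point `w` at time `r` to the next room -/
def P (ll : E → E → ℝ → ℝ) (s r : ℝ) (w x : E) : ℝ := D.kk ll s r 2 (w - D.g) x

/-- critical value of the room -/
def al (ll : E → E → ℝ → ℝ) (s : ℝ) : ℝ := Esc.al (D.k1 ll s) (D.C p)

/-- barrier of the room -/
def bar (ll : E → E → ℝ → ℝ) (s : ℝ) (x x' : E) : ℝ := Esc.bar (D.k1 ll s) (D.C p) x x'

/-- minimal cost of reaching the gate point `w` -/
def alpha (ll : E → E → ℝ → ℝ) (s r : ℝ) (w : E) : ℝ :=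
  (⨅ x : D.C p, (D.bar p ll s D.q0 x + D.Q ll s r x w)) + D.al p ll s * (1 + r)

/-- minimal cost after the gate point `w` -/
def beta (ll : E → E → ℝ → ℝ) (s r : ℝ) (w : E) : ℝ :=
  (⨅ x : D.C p, (D.P ll s r w x + D.bar p ll s x D.q0)) + D.al p ll s * (2 - r)

/-- minimal cost through the gate point `w`, with change of class -/
def W (ll : E → E → ℝ → ℝ) (s s' r : ℝ) (w : E) : ℝ := D.alpha p ll s r w + D.beta p ll s' r w

/-- segment before the gate -/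
def Gm (ll : E → E → ℝ → ℝ) (s : ℝ) (F : Finset ℕ) (c : ℕ → ℝ) (r : ℝ) (x w : E) : ℝ :=
  ⨅ x1 : D.C p, (gk (D.k1 ll s) (D.C p) F c x x1 + D.Q ll s r x1 w)

/-- segment after the gate -/
def Gp (ll : E → E → ℝ → ℝ) (s : ℝ) (F : Finset ℕ) (c : ℕ → ℝ) (r : ℝ) (w x : E) : ℝ :=
  ⨅ x1 : D.C p, (D.P ll s r w x1 + gk (D.k1 ll s) (D.C p) F c x1 x)

/-- almost decoupled room kernel in class `s` -/
def Dw (ll : E → E → ℝ → ℝ) (s η : ℝ) : Prop := ∃ (F : Finset ℕ) (c : ℕ → ℝ), F.Nonempty ∧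
  (∀ T ∈ F, 1 ≤ T) ∧ ∀ z ∈ D.R p, ∀ z' ∈ D.R p, ∀ w ∈ D.R p, ∀ w' ∈ D.R p,
    |gk (D.k1 ll s) (D.C p) F c z z' + gk (D.k1 ll s) (D.C p) F c w w' -
      gk (D.k1 ll s) (D.C p) F c z w' - gk (D.k1 ll s) (D.C p) F c w z'| ≤ η

/-- Stage `q` of the chain: gates with classes from `q` to `q + 1` -/
def Stage (ll : E → E → ℝ → ℝ) (q : ℕ) : Prop :=
  ∃ (J : ℕ) (s r : ℕ → ℝ) (F : ℕ → Finset ℕ) (c : ℕ → ℕ → ℝ) (G : ℕ → Set E) (δ : ℝ),
    0 < J ∧ 0 < δ ∧ s 0 = q ∧ s J = q + 1 ∧ (∀ i ≤ J, (q : ℝ) ≤ s i ∧ s i ≤ q + 1) ∧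
    (∀ i ≤ J, (F i).Nonempty ∧ ∀ T ∈ F i, 1 ≤ T) ∧
    ∀ i < J, 0 ≤ r i ∧ r i < 1 ∧ IsCompact (G i) ∧ (G i).Nonempty ∧ G i ⊆ D.Md p ∧
      ∀ z ∈ frontier (G i), ∃ w ∈ G i, ∀ x ∈ D.R p, ∀ x' ∈ D.R p,
        D.Gm p ll (s i) (F i) (c i) (r i) x w + D.Gp p ll (s (i + 1)) (F (i + 1)) (c (i + 1)) (r i) w x'
            - (s (i + 1) - s i) * D.B w + δ ≤
          D.Gm p ll (s i) (F i) (c i) (r i) x z + D.Gp p ll (s (i + 1)) (F (i + 1)) (c (i + 1)) (r i) z x'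
            - (s (i + 1) - s i) * D.B z

/-- Chain data: gate points `z n` at times `r n` modulo one, classes `s n` between the gates `n` and
`n + 1`, room points `y n 0, ..., y n (T n)` between these gates, all optimal between their
neighbours. -/
structure Chn (ll : E → E → ℝ → ℝ) (s r : ℕ → ℝ) (T : ℕ → ℕ) (z : ℕ → E) (y : ℕ → ℕ → E) : Prop where
  r_nonneg : ∀ n, 0 ≤ r n
  r_lt : ∀ n, r n < 1
  T_pos : ∀ n, 1 ≤ T n
  zM : ∀ n, z n ∈ D.Md p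
  yC : ∀ n k, k ≤ T n → y n k ∈ D.C p
  tend : Tendsto s atTop atTop
  mz : ∀ n, ∀ᶠ x in 𝓝 (z (n + 1)),
    D.Q ll (s n) (r (n + 1)) (y n (T n)) (z (n + 1)) + D.P ll (s (n + 1)) (r (n + 1)) (z (n + 1)) (y (n + 1) 0)
        - (s (n + 1) - s n) * D.B (z (n + 1)) ≤
      D.Q ll (s n) (r (n + 1)) (y n (T n)) x + D.P ll (s (n + 1)) (r (n + 1)) x (y (n + 1) 0)
        - (s (n + 1) - s n) * D.B x
  m0 : ∀ n, ∀ x ∈ D.C p, D.P ll (s n) (r n) (z n) (y n 0) + D.k1 ll (s n) (y n 0) (y n 1) ≤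
    D.P ll (s n) (r n) (z n) x + D.k1 ll (s n) x (y n 1)
  mm : ∀ n k, k + 1 < T n → ∀ x ∈ D.C p,
    D.k1 ll (s n) (y n k) (y n (k + 1)) + D.k1 ll (s n) (y n (k + 1)) (y n (k + 2)) ≤
      D.k1 ll (s n) (y n k) x + D.k1 ll (s n) x (y n (k + 2))
  mT : ∀ n k, k + 1 = T n → ∀ x ∈ D.C p,
    D.k1 ll (s n) (y n k) (y n (k + 1)) + D.Q ll (s n) (r (n + 1)) (y n (k + 1)) (z (n + 1)) ≤
      D.k1 ll (s n) (y n k) x + D.Q ll (s n) (r (n + 1)) x (z (n + 1))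

end GD

/-- an orbit of the Euler-Lagrange equation of `l + f` on `(0,∞)` whose speed tends to infinity -/
def Escapes {E : Type*} [NormedAddCommGroup E] [InnerProductSpace ℝ E] [CompleteSpace E]
    (l : E → E → ℝ → ℝ) (f : E → ℝ → ℝ) : Prop :=
  ∃ x v : ℝ → E, (∀ t, 0 < t → HasDerivAt x (v t) t) ∧ ContinuousOn v (Ioi 0) ∧
    (∀ t, 0 < t → HasDerivAt (fun t => gu l (x t) (v t) t) (gx (lf l f) (x t) (v t) t) t) ∧
    Tendsto (fun t => ‖v t‖) atTop atTop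

end EscG
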