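import Pool.Agent.EscN.DecAbs

/-!
MODULE F1: decoupling, abstract (general form without the corridor data).
-/

noncomputable section

namespace EscG

open MeasureTheory Set Filter Topology Esc

theorem dec_abs2 {Y : Type*} [PseudoMetricSpace Y] {K : Y → Y → ℝ} {C A : Set Y} {B Λ : ℝ}
    (hK : KD K C A B Λ) {κ : Type*} (I : Finset κ) (hI : I.Nonempty) {Ks : κ → Y → Y → ℝ}
    (hKs : ∀ k ∈ I, KD (Ks k) C A B Λ) {τ : ℝ} (hτ : 0 < τ)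
    (hav : ∀ z ∈ A, ∀ z' ∈ A, (∑ k ∈ I, Ks k z z') / I.card ≤ K z z' - τ) (V : κ → Set Y)
    (hV : ∀ k ∈ I, ∀ z ∈ A, ∀ z' ∈ A, z ∉ V k → z' ∉ V k → K z z' ≤ Ks k z z') {r : ℝ}
    (hr : ∀ k ∈ I, ∀ x ∈ A, ∀ x' ∈ A, x ∈ V k → x' ∈ V k → ∀ z ∈ A,
      |Esc.bar (Ks k) C z x - Esc.bar (Ks k) C z x'| ≤ r ∧
        |Esc.bar (Ks k) C x z - Esc.bar (Ks k) C x' z| ≤ r) :
    ∃ k ∈ I, ∀ ε > 0, ∃ F : Finset ℕ, F.Nonempty ∧ (∀ T ∈ F, 1 ≤ T) ∧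
      ∀ z ∈ A, ∀ z' ∈ A, ∀ w ∈ A, ∀ w' ∈ A,
        |gk (Ks k) C F (fun T => Esc.al (Ks k) C * T) z z' + gk (Ks k) C F (fun T => Esc.al (Ks k) C * T) w w' -
          gk (Ks k) C F (fun T => Esc.al (Ks k) C * T) z w' -
          gk (Ks k) C F (fun T => Esc.al (Ks k) C * T) w z'| ≤ 8 * (ε + r) := by
  obtain ⟨k, hk, hal⟩ := EscN.DecA.al_increase hK I hI hKs hτ hav
  have hK' := hKs k hk
  refine ⟨k, hk, fun ε hε => ?_⟩
  set V' : Set Y := {x | x ∈ A ∧ x ∈ V k} with hV'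
  have hvis : ∀ S1 : ℕ, ∃ S0 : ℕ, ∀ T ≥ S0, ∀ x : ℕ → Y, (∀ i ≤ T, x i ∈ A) →
      cost (Ks k) x T = kp (Ks k) C T (x 0) (x T) → ∃ t, S1 ≤ t ∧ t + S1 ≤ T ∧ x t ∈ V' := by
    intro S1
    set δ : ℝ := Esc.al (Ks k) C - Esc.al K C with hδ
    have hδ0 : 0 < δ := by linarith
    obtain ⟨Q, hQ⟩ := exists_nat_gt (16 * B / δ)
    refine ⟨2 * S1 + Q + 1, fun T hT x hx hc => ?_⟩
    have hT1 : 1 ≤ T := by omega
    obtain ⟨t, ht1, ht2, htV⟩ := EscN.DecA.visit hK hK' (hV k hk) hT1 hx hc.le (i := S1)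
      (j := T - S1) (by omega) (by omega) (by
        have e1 : ((T - S1 : ℕ) : ℝ) = (T : ℝ) - S1 := by rw [Nat.cast_sub (by omega)]
        rw [e1]
        have e2 : (Q : ℝ) ≤ T - S1 - S1 := by
          have : (2 * S1 + Q + 1 : ℝ) ≤ T := by exact_mod_cast hT
          linarith
        have e3 : 16 * B < Q * δ := by rwa [div_lt_iff₀ hδ0] at hQ
        have e4 := mul_le_mul_of_nonneg_right e2 hδ0.le
        rw [← hδ]
        linarith)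
    exact ⟨t, ht1, by omega, hx t (by omega), htV⟩
  exact EscN.DecA.window hK' (V := V') (fun x hx => hx.1)
    (fun x hx x' hx' z hz => hr k hk x hx.1 x' hx'.1 hx.2 hx'.2 z hz) hvis hε

end EscG
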