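import Pool.Agent.EscG.CDefs

/-!
EscG, module F2a: smooth bumps, periodic in space and in time.
-/

noncomputable section

namespace EscG

open MeasureTheory Set Filter Topology Esc EscF
open scoped ContDiff

variable {ι : Type} [Fintype ι] {d : ℕ} {E : Type*} [NormedAddCommGroup E] [InnerProductSpace ℝ E]
  [FiniteDimensional ℝ E] {D : GD ι d E} {p : GP} {m M Mf : ℝ} {ll l : E → E → ℝ → ℝ}
  {f f' : E → ℝ → ℝ}

/-- nonzero lattice vectors are not short -/
theorem F2a_discrete (β : Module.Basis ι ℝ E) : ∃ δ : ℝ, 0 < δ ∧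
    ∀ v ∈ Submodule.span ℤ (Set.range β), ‖v‖ < δ → v = 0 := by
  have h1 : ∀ i, ∃ C : ℝ, 0 < C ∧ ∀ v : E, |β.repr v i| ≤ C * ‖v‖ := by
    intro i
    set L : E →L[ℝ] ℝ := LinearMap.toContinuousLinearMap (β.coord i) with hL
    refine ⟨‖L‖ + 1, by positivity, fun v => ?_⟩
    have h2 : ‖L v‖ ≤ ‖L‖ * ‖v‖ := L.le_opNorm v
    have h3 : L v = β.repr v i := rfl
    rw [h3, Real.norm_eq_abs] at h2
    refine h2.trans ?_
    gcongr
    linarith
  choose C hC0 hC using h1
  have hS : 0 < 1 + ∑ i, C i := by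
    have : 0 ≤ ∑ i, C i := Finset.sum_nonneg fun i _ => (hC0 i).le
    linarith
  refine ⟨(1 + ∑ i, C i)⁻¹, inv_pos.mpr hS, fun v hv hn => ?_⟩
  apply β.ext_elem
  intro i
  rw [map_zero, Finsupp.zero_apply]
  obtain ⟨z, hz⟩ := (β.mem_span_iff_repr_mem ℤ v).mp hv i
  rw [← hz]
  have h4 : |β.repr v i| < 1 := by
    calc |β.repr v i| ≤ C i * ‖v‖ := hC i v
      _ ≤ (1 + ∑ i, C i) * ‖v‖ := by
        gcongr
        have : C i ≤ ∑ i, C i := Finset.single_le_sum (fun i _ => (hC0 i).le) (Finset.mem_univ i)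
        linarith
      _ < (1 + ∑ i, C i) * (1 + ∑ i, C i)⁻¹ := by gcongr
      _ = 1 := mul_inv_cancel₀ hS.ne'
  rw [← hz] at h4
  have h5 : |z| < 1 := by
    have : ((|z| : ℤ) : ℝ) < 1 := by
      rw [Int.cast_abs]
      exact h4
    exact_mod_cast this
  have h6 : z = 0 := Int.abs_lt_one_iff.mp h5
  rw [h6]
  simp

/-- bump in space, periodic under the lattice -/
theorem exists_sbump (β : Module.Basis ι ℝ E) : ∃ r0 : ℝ, 0 < r0 ∧ ∀ r, 0 < r → r ≤ r0 → ∀ c : E,
    ∃ g : E → ℝ, ContDiff ℝ ∞ g ∧ (∀ i x, g (x + β i) = g x) ∧ (∀ x, 0 ≤ g x ∧ g x ≤ 1) ∧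
      (∀ x, (∃ v ∈ Submodule.span ℤ (Set.range β), ‖x + v - c‖ ≤ 2 * r) → g x = 1) ∧
      ∀ x, (∀ v ∈ Submodule.span ℤ (Set.range β), 3 * r ≤ ‖x + v - c‖) → g x = 0 := by
  classical
  obtain ⟨δ, hδ, hdis⟩ := F2a_discrete β
  refine ⟨δ / 16, by positivity, fun r hr hr0 c => ?_⟩
  set Λ := Submodule.span ℤ (Set.range β) with hΛ
  let φ : ContDiffBump c := ⟨2 * r, 3 * r, by positivity, by linarith⟩
  have hφ1 : ∀ y, ‖y - c‖ ≤ 2 * r → φ y = 1 := by
    intro y hy
    apply φ.one_of_mem_closedBall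
    rw [mem_closedBall_iff_norm]
    exact hy
  have hφ0 : ∀ y, 3 * r ≤ ‖y - c‖ → φ y = 0 := by
    intro y hy
    apply φ.zero_of_le_dist
    rw [dist_eq_norm]
    exact hy
  -- uniqueness of the translate
  have huq : ∀ x, ∀ v ∈ Λ, ∀ v' ∈ Λ, ‖x + v - c‖ < 5 * r → ‖x + v' - c‖ < 5 * r → v = v' := by
    intro x v hv v' hv' h1 h2
    have h3 : v - v' = 0 := by
      apply hdis _ (Λ.sub_mem hv hv')
      have e : v - v' = (x + v - c) - (x + v' - c) := by abel
      rw [e]
      calc ‖(x + v - c) - (x + v' - c)‖ ≤ ‖x + v - c‖ + ‖x + v' - c‖ := norm_sub_le _ _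
        _ < 5 * r + 5 * r := add_lt_add h1 h2
        _ ≤ δ := by linarith
    exact sub_eq_zero.mp h3
  let g : E → ℝ := fun x => if h : ∃ v ∈ Λ, ‖x + v - c‖ < 3 * r then φ (x + h.choose) else 0
  have hA : ∀ x, ∀ v ∈ Λ, ‖x + v - c‖ < 5 * r → g x = φ (x + v) := by
    intro x v hv h
    by_cases h' : ∃ v ∈ Λ, ‖x + v - c‖ < 3 * r
    · have e : g x = φ (x + h'.choose) := dif_pos h'
      have h1 := h'.choose_spec
      have h2 : h'.choose = v := huq x _ h1.1 _ hv (h1.2.trans (by linarith)) h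
      rw [e, h2]
    · have e : g x = 0 := dif_neg h'
      rw [e, hφ0]
      by_contra hc
      exact h' ⟨v, hv, not_le.mp hc⟩
  have hB : ∀ x, (∀ v ∈ Λ, 3 * r ≤ ‖x + v - c‖) → g x = 0 := by
    intro x h
    exact dif_neg fun ⟨v, hv, h1⟩ => absurd (h v hv) (not_le.mpr h1)
  refine ⟨g, ?_, ?_, ?_, ?_, hB⟩
  · rw [contDiff_iff_contDiffAt]
    intro x0
    have hnb : ∀ᶠ x in 𝓝 x0, ‖x - x0‖ < r := by
      have h1 := Metric.ball_mem_nhds x0 hr
      filter_upwards [h1] with x hx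
      rwa [← dist_eq_norm]
    by_cases h : ∃ v ∈ Λ, ‖x0 + v - c‖ < 4 * r
    · obtain ⟨v, hv, h1⟩ := h
      have h2 : g =ᶠ[𝓝 x0] fun x => φ (x + v) := by
        filter_upwards [hnb] with x hx
        apply hA x v hv
        have e : x + v - c = (x - x0) + (x0 + v - c) := by abel
        rw [e]
        calc ‖(x - x0) + (x0 + v - c)‖ ≤ ‖x - x0‖ + ‖x0 + v - c‖ := norm_add_le _ _
          _ < r + 4 * r := add_lt_add hx h1
          _ = 5 * r := by ring
      refine ContDiffAt.congr_of_eventuallyEq ?_ h2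
      have h3 : ContDiff ℝ ∞ (fun x : E => φ (x + v)) := by
        apply φ.contDiff.comp
        exact contDiff_id.add contDiff_const
      exact h3.contDiffAt
    · have h2 : g =ᶠ[𝓝 x0] fun _ => 0 := by
        filter_upwards [hnb] with x hx
        apply hB x
        intro v hv
        by_contra hc
        apply h
        refine ⟨v, hv, ?_⟩
        have e : x0 + v - c = (x + v - c) - (x - x0) := by abel
        rw [e]
        calc ‖(x + v - c) - (x - x0)‖ ≤ ‖x + v - c‖ + ‖x - x0‖ := norm_sub_le _ _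
          _ < 3 * r + r := add_lt_add (not_le.mp hc) hx
          _ = 4 * r := by ring
      exact contDiffAt_const.congr_of_eventuallyEq h2
  · intro i x
    have hi : β i ∈ Λ := Submodule.subset_span ⟨i, rfl⟩
    by_cases h : ∃ v ∈ Λ, ‖x + v - c‖ < 5 * r
    · obtain ⟨v, hv, h1⟩ := h
      have e : x + β i + (v - β i) = x + v := by abel
      rw [hA x v hv h1, hA (x + β i) (v - β i) (Λ.sub_mem hv hi) (by rw [e]; exact h1), e]
    · rw [hB x, hB (x + β i)]
      · intro v hv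
        by_contra hc
        apply h
        refine ⟨β i + v, Λ.add_mem hi hv, ?_⟩
        rw [← add_assoc]
        exact (not_le.mp hc).trans (by linarith)
      · intro v hv
        by_contra hc
        exact h ⟨v, hv, (not_le.mp hc).trans (by linarith)⟩
  · intro x
    by_cases h : ∃ v ∈ Λ, ‖x + v - c‖ < 5 * r
    · obtain ⟨v, hv, h1⟩ := h
      rw [hA x v hv h1]
      exact ⟨φ.nonneg, φ.le_one⟩
    · rw [hB x]
      · exact ⟨le_rfl, zero_le_one⟩
      · intro v hv
        by_contra hc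
        exact h ⟨v, hv, (not_le.mp hc).trans (by linarith)⟩
  · rintro x ⟨v, hv, h1⟩
    rw [hA x v hv (h1.trans_lt (by linarith))]
    exact hφ1 _ h1

/-- bump in time, of period one -/
theorem exists_tbump {w : ℝ} (hw : 0 < w) (hw4 : w ≤ 1 / 4) (a : ℝ) : ∃ θ : ℝ → ℝ, ContDiff ℝ ∞ θ ∧
    (∀ t, θ (t + 1) = θ t) ∧ (∀ t, 0 ≤ θ t ∧ θ t ≤ 1) ∧
    (∀ t, (∃ k : ℤ, |t + k - a| ≤ w / 2) → θ t = 1) ∧ ∀ t, (∀ k : ℤ, w ≤ |t + k - a|) → θ t = 0 := by
  have hpi := Real.pi_pos
  set A : ℝ := Real.cos (2 * Real.pi * w) with hA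
  set B : ℝ := Real.cos (2 * Real.pi * (w / 2)) with hB
  have hAB : A < B := by
    apply Real.cos_lt_cos_of_nonneg_of_le_pi
    · positivity
    · nlinarith
    · nlinarith
  have hBA : 0 < B - A := sub_pos.mpr hAB
  have hcos : ∀ (t : ℝ) (k : ℤ), Real.cos (2 * Real.pi * (t - a)) = Real.cos (2 * Real.pi * |t + k - a|) := by
    intro t k
    have h1 : Real.cos (2 * Real.pi * |t + k - a|) = Real.cos (2 * Real.pi * (t + k - a)) := by
      rw [← Real.cos_abs (2 * Real.pi * (t + k - a)), abs_mul, abs_of_pos (by positivity : 0 < 2 * Real.pi)]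
    rw [h1]
    have h2 : 2 * Real.pi * (t + k - a) = 2 * Real.pi * (t - a) + k * (2 * Real.pi) := by ring
    rw [h2, Real.cos_add_int_mul_two_pi]
  refine ⟨fun t => Real.smoothTransition ((Real.cos (2 * Real.pi * (t - a)) - A) / (B - A)), ?_, ?_, ?_, ?_, ?_⟩
  · apply Real.smoothTransition.contDiff.comp
    apply ContDiff.div_const
    apply ContDiff.sub _ contDiff_const
    apply Real.contDiff_cos.comp
    exact contDiff_const.mul (contDiff_id.sub contDiff_const)
  · intro t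
    have h2 : 2 * Real.pi * (t + 1 - a) = 2 * Real.pi * (t - a) + 2 * Real.pi := by ring
    simp only [h2, Real.cos_add_two_pi]
  · intro t
    exact ⟨Real.smoothTransition.nonneg _, Real.smoothTransition.le_one _⟩
  · rintro t ⟨k, hk⟩
    apply Real.smoothTransition.one_of_one_le
    rw [le_div_iff₀ hBA, one_mul, hcos t k]
    have h1 : B ≤ Real.cos (2 * Real.pi * |t + k - a|) := by
      apply Real.cos_le_cos_of_nonneg_of_le_pi
      · positivity
      · nlinarith
      · gcongr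
    linarith
  · intro t ht
    apply Real.smoothTransition.zero_of_nonpos
    apply div_nonpos_of_nonpos_of_nonneg _ hBA.le
    have h1 := ht (-round (t - a))
    have h2 : |t + ((-round (t - a) : ℤ) : ℝ) - a| ≤ 1 / 2 := by
      have h3 := abs_sub_round (t - a)
      have e : t + ((-round (t - a) : ℤ) : ℝ) - a = t - a - round (t - a) := by
        push_cast; ring
      rw [e]
      exact h3
    rw [hcos t (-round (t - a))]
    have h4 : Real.cos (2 * Real.pi * |t + ((-round (t - a) : ℤ) : ℝ) - a|) ≤ A := by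
      apply Real.cos_le_cos_of_nonneg_of_le_pi
      · positivity
      · nlinarith
      · gcongr
    linarith

end EscG
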