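import Pool.Agent.EscG.CDefs

/-!
EscG, module F2b: regularity constants of smooth periodic perturbations.
-/

noncomputable section

namespace EscG

open MeasureTheory Set Filter Topology Esc EscF
open scoped ContDiff

variable {ι : Type} [Fintype ι] {d : ℕ} {E : Type*} [NormedAddCommGroup E] [InnerProductSpace ℝ E]
  [FiniteDimensional ℝ E] {D : GD ι d E} {p : GP} {m M Mf : ℝ} {ll l : E → E → ℝ → ℝ}
  {f f' : E → ℝ → ℝ}

/-- continuous periodic functions on `E × ℝ` are bounded -/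
theorem F2b_bdd {Y : Type*} [NormedAddCommGroup Y] (β : Module.Basis ι ℝ E) {H : E × ℝ → Y}
    (hc : Continuous H) (hx : ∀ i q, H (q + (β i, 0)) = H q) (ht : ∀ q, H (q + (0, 1)) = H q) :
    ∃ C : ℝ, 0 ≤ C ∧ ∀ q, ‖H q‖ ≤ C := by
  have hS : ∀ v ∈ Submodule.span ℤ (Set.range β), Function.Periodic H ((v, 0) : E × ℝ) := by
    intro v hv
    induction hv using Submodule.span_induction with
    | mem x hx' =>
      obtain ⟨i, rfl⟩ := hx'
      exact hx i
    | zero => intro q; rw [Prod.mk_zero_zero, add_zero]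
    | add x y _ _ h1 h2 =>
      have h3 := h1.add_period h2
      simpa using h3
    | smul n x _ h1 =>
      have h3 := h1.zsmul n
      simpa using h3
  have hT : ∀ n : ℤ, Function.Periodic H ((0, (n : ℝ)) : E × ℝ) := by
    intro n
    have h1 : Function.Periodic H ((0, 1) : E × ℝ) := ht
    have h3 := h1.zsmul n
    simpa using h3
  obtain ⟨R, hR⟩ : ∃ R : ℝ, ∑ i, ‖β i‖ ≤ R ∧ 1 ≤ R :=
    ⟨max (∑ i, ‖β i‖) 1, le_max_left _ _, le_max_right _ _⟩
  have hK : IsCompact (Metric.closedBall (0 : E × ℝ) R) := isCompact_closedBall _ _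
  obtain ⟨C, hC⟩ := hK.exists_bound_of_continuousOn hc.continuousOn
  refine ⟨C, le_trans (norm_nonneg _) (hC 0 (by simp; linarith [hR.2])), ?_⟩
  rintro ⟨x, t⟩
  have h1 : H (x, t) = H (ZSpan.fract β x, Int.fract t) := by
    have h2 := hS _ (ZSpan.floor β x).2 (ZSpan.fract β x, Int.fract t)
    have h3 := hT ⌊t⌋ (x, Int.fract t)
    have e2 : ((ZSpan.fract β x, Int.fract t) : E × ℝ) + ((ZSpan.floor β x : E), 0) =
        (x, Int.fract t) := by
      ext <;> simp [ZSpan.fract_apply]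
    have e3 : ((x, Int.fract t) : E × ℝ) + (0, (⌊t⌋ : ℝ)) = (x, t) := by
      ext <;> simp
    rw [e2] at h2
    rw [e3] at h3
    rw [h3, h2]
  rw [h1]
  apply hC
  rw [mem_closedBall_zero_iff, Prod.norm_def]
  refine max_le ((ZSpan.norm_fract_le β x).trans hR.1) ?_
  simp only [Real.norm_eq_abs, abs_of_nonneg (Int.fract_nonneg t)]
  exact (Int.fract_lt_one t).le.trans hR.2

/-- Lipschitz bounds of a periodic function of class `C^1` -/
theorem F2b_C1 {β : Module.Basis ι ℝ E} (hs : ContDiff ℝ 1 (fun q : E × ℝ => f q.1 q.2))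
    (hx : ∀ i x t, f (x + β i) t = f x t) (ht : ∀ x t, f x (t + 1) = f x t) :
    ∃ C : ℝ, 0 ≤ C ∧ Good C f := by
  have hx' : ∀ i (q : E × ℝ), f (q + (β i, 0)).1 (q + (β i, 0)).2 = f q.1 q.2 := by
    intro i q; simp [hx]
  have ht' : ∀ (q : E × ℝ), f (q + (0, 1)).1 (q + (0, 1)).2 = f q.1 q.2 := by
    intro q; simp [ht]
  obtain ⟨C0, hC0, h0⟩ := F2b_bdd β (H := fun q : E × ℝ => f q.1 q.2) hs.continuous hx' ht'
  obtain ⟨C1, hC1, h1⟩ := F2b_bdd β (H := fderiv ℝ (fun q : E × ℝ => f q.1 q.2))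
    (hs.continuous_fderiv one_ne_zero)
    (by
      intro i q
      rw [← fderiv_comp_add_right]
      congr 1
      funext q'
      exact hx' i q')
    (by
      intro q
      rw [← fderiv_comp_add_right]
      congr 1
      funext q'
      exact ht' q')
  have hL : ∀ q q' : E × ℝ, ‖f q.1 q.2 - f q'.1 q'.2‖ ≤ C1 * ‖q - q'‖ := by
    intro q q'
    exact convex_univ.norm_image_sub_le_of_norm_fderiv_le
      (fun x _ => (hs.differentiable one_ne_zero) x) (fun x _ => h1 x) (mem_univ q') (mem_univ q)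
  refine ⟨C0 + C1, add_nonneg hC0 hC1, add_nonneg hC0 hC1, hs.continuous, ?_, ?_, ?_⟩
  · intro x t
    have h := h0 (x, t)
    simp only [Real.norm_eq_abs] at h
    linarith
  · intro x x' t
    have h := hL (x, t) (x', t)
    simp only [Real.norm_eq_abs, Prod.mk_sub_mk, sub_self, Prod.norm_def, norm_zero] at h
    rw [max_eq_left (norm_nonneg _)] at h
    nlinarith [norm_nonneg (x - x')]
  · intro x t t'
    have h := hL (x, t) (x, t')
    simp only [Real.norm_eq_abs, Prod.mk_sub_mk, sub_self, Prod.norm_def, norm_zero] at h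
    rw [max_eq_right (abs_nonneg _)] at h
    nlinarith [abs_nonneg (t - t')]

/-- smooth periodic functions have Lipschitz bounds; small multiples are `Good ε` -/
theorem Sm.good {β : Module.Basis ι ℝ E} {G : E → ℝ → ℝ} (hG : Sm β G) : ∃ C : ℝ, 0 < C ∧
    ∀ a ε : ℝ, 0 ≤ ε → |a| * C ≤ ε → Good ε (fun x t => a * G x t) := by
  obtain ⟨C, hC, h⟩ := F2b_C1 (hG.smooth.of_le (by exact_mod_cast le_top)) hG.per hG.pert
  refine ⟨C + 1, by linarith, ?_⟩
  intro a ε hε hle
  have ha : |a| * C ≤ ε := by nlinarith [abs_nonneg a]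
  refine ⟨hε, continuous_const.mul h.cont, ?_, ?_, ?_⟩
  · intro x t
    rw [abs_mul]
    exact (mul_le_mul_of_nonneg_left (h.bd x t) (abs_nonneg a)).trans ha
  · intro x x' t
    rw [← mul_sub, abs_mul]
    calc |a| * |G x t - G x' t| ≤ |a| * (C * ‖x - x'‖) :=
          mul_le_mul_of_nonneg_left (h.lipx x x' t) (abs_nonneg a)
      _ = (|a| * C) * ‖x - x'‖ := by ring
      _ ≤ ε * ‖x - x'‖ := mul_le_mul_of_nonneg_right ha (norm_nonneg _)
  · intro x t t'
    rw [← mul_sub, abs_mul]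
    calc |a| * |G x t - G x t'| ≤ |a| * (C * |t - t'|) :=
          mul_le_mul_of_nonneg_left (h.lipt x t t') (abs_nonneg a)
      _ = (|a| * C) * |t - t'| := by ring
      _ ≤ ε * |t - t'| := mul_le_mul_of_nonneg_right ha (abs_nonneg _)

theorem Pt.good {β : Module.Basis ι ℝ E} (hf : Pt β f) : ∃ C : ℝ, 0 ≤ C ∧ Good C f :=
  F2b_C1 (hf.smooth.of_le (by norm_num)) hf.per hf.pert

theorem Good.sum {κ : Type*} (I : Finset κ) {G : κ → E → ℝ → ℝ} {a : κ → ℝ} (h : ∀ i ∈ I, Good (a i) (G i)) :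
    Good (∑ i ∈ I, a i) (fun x t => ∑ i ∈ I, G i x t) := by
  refine ⟨Finset.sum_nonneg fun i hi => (h i hi).pos,
    continuous_finsetSum _ fun i hi => (h i hi).cont, ?_, ?_, ?_⟩
  · intro x t
    exact (Finset.abs_sum_le_sum_abs _ _).trans (Finset.sum_le_sum fun i hi => (h i hi).bd x t)
  · intro x x' t
    rw [← Finset.sum_sub_distrib, Finset.sum_mul]
    exact (Finset.abs_sum_le_sum_abs _ _).trans
      (Finset.sum_le_sum fun i hi => (h i hi).lipx x x' t)
  · intro x t t'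
    rw [← Finset.sum_sub_distrib, Finset.sum_mul]
    exact (Finset.abs_sum_le_sum_abs _ _).trans
      (Finset.sum_le_sum fun i hi => (h i hi).lipt x t t')

theorem Good.add' {a b : ℝ} {G G' : E → ℝ → ℝ} (h : Good a G) (h' : Good b G') :
    Good (a + b) (fun x t => G x t + G' x t) := by
  refine ⟨add_nonneg h.pos h'.pos, h.cont.add h'.cont, ?_, ?_, ?_⟩
  · intro x t
    exact (abs_add_le _ _).trans (add_le_add (h.bd x t) (h'.bd x t))
  · intro x x' t
    rw [add_sub_add_comm, add_mul]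
    exact (abs_add_le _ _).trans (add_le_add (h.lipx x x' t) (h'.lipx x x' t))
  · intro x t t'
    rw [add_sub_add_comm, add_mul]
    exact (abs_add_le _ _).trans (add_le_add (h.lipt x t t') (h'.lipt x t t'))

theorem Pt.add {β : Module.Basis ι ℝ E} (hf : Pt β f) (hf' : Pt β f') : Pt β (fun x t => f x t + f' x t) :=
  ⟨hf.smooth.add hf'.smooth, fun i x t => by rw [hf.per, hf'.per],
    fun x t => by rw [hf.pert, hf'.pert]⟩

theorem Sm.pt {β : Module.Basis ι ℝ E} {G : E → ℝ → ℝ} (hG : Sm β G) : Pt β G :=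
  ⟨hG.smooth.of_le (WithTop.coe_le_coe.2 (le_top : (2 : ℕ∞) ≤ ⊤)), hG.per, hG.pert⟩

end EscG
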