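import Pool.Agent.EscG.CDefs
import Pool.Agent.helper1.Esc.ModD
import Pool.Agent.EscG.C11a
import Pool.Agent.EscG.F2b
import Pool.Agent.EscG.F3a

/-!
Project EscG, module F3b: approximate decoupling is open; finitely many speeds; the barrier.
-/

noncomputable section

set_option linter.unusedSectionVars false

namespace EscG

open MeasureTheory Set Filter Topology Esc EscF
open scoped ContDiff

variable {ι : Type} [Fintype ι] {d : ℕ} {E : Type*} [NormedAddCommGroup E] [InnerProductSpace ℝ E]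
  [FiniteDimensional ℝ E] {D : GD ι d E} {p : GP} {m M Mf : ℝ} {ll l : E → E → ℝ → ℝ}
  {f f' : E → ℝ → ℝ}

namespace F3b

omit [FiniteDimensional ℝ E] in
theorem mono {a b : ℝ} (h : Good a f) (hab : a ≤ b) : Good b f where
  pos := h.pos.trans hab
  cont := h.cont
  bd x t := (h.bd x t).trans hab
  lipx x x' t := (h.lipx x x' t).trans (mul_le_mul_of_nonneg_right hab (norm_nonneg _))
  lipt x t t' := (h.lipt x t t').trans (mul_le_mul_of_nonneg_right hab (abs_nonneg _))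

/-- comparison of the kernels with free duration -/
theorem gk_near (h : D.Ok) (hp : p.Ok D) (hl : TL D.β D.F D.mF D.MF m M l) (hf : Pt D.β f)
    (hf' : Pt D.β f') {ρ : ℝ} (hρ : ∀ x t, |f x t - f' x t| ≤ ρ) {s : ℝ} (hs : 0 ≤ s)
    {F : Finset ℕ} (hF : F.Nonempty) (hF1 : ∀ T ∈ F, 1 ≤ T) (c : ℕ → ℝ) {z z' : E} (hz : z ∈ D.R p)
    (hz' : z' ∈ D.R p) :
    |gk (D.k1 (lf l f) s) (D.C p) F c z z' - gk (D.k1 (lf l f') s) (D.C p) F c z z'| ≤
      ρ * F.sup id := by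
  obtain ⟨M1, hM1, h1⟩ := Pt.good hf
  obtain ⟨M2, hM2, h2⟩ := Pt.good hf'
  have g1 := mono h1 (le_max_left M1 M2)
  have g2 := mono h2 (le_max_right M1 M2)
  obtain ⟨C, hC, hK⟩ := kd h hp hl g1.pos s
  refine gk_sub_le (hK f hf g1 s hs le_rfl) (hK f' hf' g2 s hs le_rfl) (fun z _ z' _ => ?_) hF hF1 c
    hz hz'
  have h3 := kk_sub_le h hl hf g1 hf' g2 hρ hs (zero_lt_one) z z'
  rw [sub_zero, mul_one] at h3
  exact h3

omit [FiniteDimensional ℝ E] in
theorem Sm_add {β : Module.Basis ι ℝ E} {G G' : E → ℝ → ℝ} (h : Sm β G) (h' : Sm β G') :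
    Sm β (fun x t => G x t + G' x t) where
  smooth := h.smooth.add h'.smooth
  per i x t := by rw [h.per, h'.per]
  pert x t := by rw [h.pert, h'.pert]

omit [FiniteDimensional ℝ E] in
theorem Sm_zero (β : Module.Basis ι ℝ E) : Sm β (fun _ _ => (0:ℝ)) where
  smooth := contDiff_const
  per _ _ _ := rfl
  pert _ _ := rfl

theorem fin_rho (S : Finset ℝ) {P : ℝ → ℝ → Prop} (h : ∀ s ∈ S, ∃ ρ : ℝ, 0 < ρ ∧ P s ρ)
    (hm : ∀ s ρ ρ', ρ' ≤ ρ → P s ρ → P s ρ') : ∃ ρ : ℝ, 0 < ρ ∧ ∀ s ∈ S, P s ρ := by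
  classical
  induction S using Finset.induction_on with
  | empty => exact ⟨1, one_pos, fun s hs => absurd hs (Finset.notMem_empty s)⟩
  | insert a S ha ih =>
    obtain ⟨ρ1, h1, h2⟩ := ih fun s hs => h s (Finset.mem_insert_of_mem hs)
    obtain ⟨ρ2, h3, h4⟩ := h a (Finset.mem_insert_self a S)
    refine ⟨min ρ1 ρ2, lt_min h1 h3, fun s hs => ?_⟩
    rcases Finset.mem_insert.mp hs with rfl | hs
    · exact hm _ _ _ (min_le_right _ _) h4
    · exact hm _ _ _ (min_le_left _ _) (h2 s hs)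

end F3b

open F3b

theorem dec_open (h : D.Ok) (hp : p.Ok D) (hl : TL D.β D.F D.mF D.MF m M l) (hf : Pt D.β f)
    (hg : Good Mf f) {s η : ℝ} (hs : 0 ≤ s) (hη : 0 < η) (hD : D.Dw p (lf l f) s η) : ∃ ρ : ℝ, 0 < ρ ∧
    ∀ f', Pt D.β f' → (∀ x t, |f x t - f' x t| ≤ ρ) → D.Dw p (lf l f') s (2 * η) := by
  obtain ⟨F, c, hF, hF1, hd⟩ := hD
  have hpos : (0:ℝ) < 4 * ((F.sup id : ℕ) + 1) := by positivity
  refine ⟨η / (4 * ((F.sup id : ℕ) + 1)), by positivity, fun f' hf' hff => ?_⟩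
  refine ⟨F, c, hF, hF1, fun z hz z' hz' w hw w' hw' => ?_⟩
  have hs : ∀ a ∈ D.R p, ∀ b ∈ D.R p, |gk (D.k1 (lf l f) s) (D.C p) F c a b -
      gk (D.k1 (lf l f') s) (D.C p) F c a b| ≤ η / 4 := by
    intro a ha b hb
    refine (gk_near h hp hl hf hf' hff hs hF hF1 c ha hb).trans ?_
    have e1 : η / (4 * ((F.sup id : ℕ) + 1)) * ((F.sup id : ℕ) : ℝ) ≤
        η / (4 * ((F.sup id : ℕ) + 1)) * ((F.sup id : ℕ) + 1) := by
      apply mul_le_mul_of_nonneg_left (by linarith)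
      positivity
    refine e1.trans (le_of_eq ?_)
    field_simp
  have k1 := abs_le.1 (hs z hz z' hz')
  have k2 := abs_le.1 (hs w hw w' hw')
  have k3 := abs_le.1 (hs z hz w' hw')
  have k4 := abs_le.1 (hs w hw z' hz')
  have k5 := abs_le.1 (hd z hz z' hz' w hw w' hw')
  rw [abs_le]
  constructor <;> linarith [k1.1, k1.2, k2.1, k2.2, k3.1, k3.2, k4.1, k4.2, k5.1, k5.2]

theorem dec_many (h : D.Ok) (hp : p.Ok D) (hl : TL D.β D.F D.mF D.MF m M l) (N : SmNorm D.β)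
    (hf : Pt D.β f) (hg : Good Mf f) (S : Finset ℝ) (hS : ∀ s ∈ S, 0 ≤ s) {ε η : ℝ} (hε : 0 < ε)
    (hη : 0 < η) : ∃ G, Sm D.β G ∧ N.nm G ≤ ε ∧ Good ε G ∧
      ∀ s ∈ S, D.Dw p (lf l (fun x t => f x t + G x t)) s η := by
  classical
  induction S using Finset.induction_on generalizing ε η with
  | empty =>
    refine ⟨fun _ _ => 0, Sm_zero _, ?_, ?_, fun s hs => absurd hs (Finset.notMem_empty s)⟩
    · have h1 := N.smul_le 0 _ (Sm_zero D.β)
      simp only [zero_mul, abs_zero] at h1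
      linarith
    · exact ⟨hε.le, continuous_const, fun x t => by simpa using hε.le,
        fun x x' t => by simpa using mul_nonneg hε.le (norm_nonneg (x - x')),
        fun x t t' => by simpa using mul_nonneg hε.le (abs_nonneg (t - t'))⟩
  | insert a S ha ih =>
    obtain ⟨G1, a1, a2, a3, a4⟩ := ih (fun s hs => hS s (Finset.mem_insert_of_mem hs)) (half_pos hε)
      (half_pos hη)
    have hf1 : Pt D.β (fun x t => f x t + G1 x t) := Pt.add hf (Sm.pt a1)
    have hg1 := Good.add' hg a3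
    obtain ⟨ρ, hρ, hopen⟩ := fin_rho S (P := fun s ρ => ∀ f', Pt D.β f' →
      (∀ x t, |(f x t + G1 x t) - f' x t| ≤ ρ) → D.Dw p (lf l f') s η)
      (fun s hs => by
        obtain ⟨ρ, hρ, h1⟩ := dec_open h hp hl hf1 hg1 (hS s (Finset.mem_insert_of_mem hs))
          (half_pos hη) (a4 s hs)
        rw [mul_div_cancel₀ η (two_ne_zero)] at h1
        exact ⟨ρ, hρ, h1⟩)
      (fun s ρ ρ' hρ h f' hf' hff => h f' hf' fun x t => (hff x t).trans hρ)
    obtain ⟨G2, b1, b2, b3, b4⟩ := dec_dense h hp hl N hf1 hg1 (hS a (Finset.mem_insert_self a S))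
      (lt_min (half_pos hε) hρ) hη
    have hf2 : Pt D.β (fun x t => f x t + G1 x t + G2 x t) := Pt.add hf1 (Sm.pt b1)
    have hdiff : ∀ x t, |(f x t + G1 x t) - (f x t + G1 x t + G2 x t)| ≤ ρ := by
      intro x t
      have e : (f x t + G1 x t) - (f x t + G1 x t + G2 x t) = - G2 x t := by ring
      rw [e, abs_neg]
      exact (b3.bd x t).trans (min_le_right _ _)
    have heq : (fun x t => f x t + (G1 x t + G2 x t)) = fun x t => f x t + G1 x t + G2 x t := by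
      funext x t; ring
    have h6 : min (ε / 2) ρ ≤ ε / 2 := min_le_left _ _
    refine ⟨fun x t => G1 x t + G2 x t, Sm_add a1 b1, ?_, mono (Good.add' a3 b3) (by linarith), ?_⟩
    · have := N.add_le G1 G2 a1 b1
      linarith
    · intro s hs
      rw [heq]
      rcases Finset.mem_insert.mp hs with rfl | hs
      · exact b4
      · exact hopen s hs _ hf2 hdiff

/-- hence the barrier is almost decoupled -/
theorem dec_bar (h : D.Ok) (hp : p.Ok D) (hl : TL D.β D.F D.mF D.MF m M l) (hf : Pt D.β f)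
    (hg : Good Mf f) {s η : ℝ} (hs : 0 ≤ s) (hD : D.Dw p (lf l f) s η) : ∀ z ∈ D.R p, ∀ z' ∈ D.R p,
    ∀ w ∈ D.R p, ∀ w' ∈ D.R p, |D.bar p (lf l f) s z z' + D.bar p (lf l f) s w w' -
      D.bar p (lf l f) s z w' - D.bar p (lf l f) s w z'| ≤ 4 * η := by
  obtain ⟨F, c, hF, hF1, hd⟩ := hD
  obtain ⟨C, hC, hKD⟩ := kd h hp hl hg.pos s
  have hK := hKD f hf hg s hs le_rfl
  obtain ⟨z0, hz0⟩ := hK.ne
  have hz0 := hK.sub hz0
  obtain ⟨b', hb'⟩ := bar_decoupled hK hF hF1 c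
    (a := fun z => gk (D.k1 (lf l f) s) (D.C p) F c z z0)
    (b := fun z' => gk (D.k1 (lf l f) s) (D.C p) F c z0 z' - gk (D.k1 (lf l f) s) (D.C p) F c z0 z0)
    (ε := η) (fun z hz z' hz' => by
      have := hd z hz z' hz' z0 hz0 z0 hz0
      refine le_trans (le_of_eq ?_) this
      congr 1
      ring)
  intro z hz z' hz' w hw w' hw'
  have k1 := abs_le.1 (hb' z hz z' hz')
  have k2 := abs_le.1 (hb' w hw w' hw')
  have k3 := abs_le.1 (hb' z hz w' hw')
  have k4 := abs_le.1 (hb' w hw z' hz')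
  simp only [GD.bar]
  rw [abs_le]
  constructor <;> linarith [k1.1, k1.2, k2.1, k2.2, k3.1, k3.2, k4.1, k4.2]

end EscG
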