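import Pool.Agent.EscG.A2b
import Pool.Agent.EscG.C4
import Pool.Agent.EscG.C6
import Pool.Agent.EscG.C11a
import Pool.Agent.EscG.C11b
import Pool.Agent.EscG.F5a

/-!
Project EscG (MP_6acca1_an), module F5b: the functional of the gates grows under a bump seen near the
gate point and does not change under a bump which is not seen along two curves.
-/

noncomputable section

namespace EscG

open MeasureTheory Set Filter Topology Esc EscF
open scoped ContDiff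

variable {ι : Type} [Fintype ι] {d : ℕ} {E : Type*} [NormedAddCommGroup E] [InnerProductSpace ℝ E]
  [FiniteDimensional ℝ E] {D : GD ι d E} {p : GP} {m M Mf : ℝ} {ll l : E → E → ℝ → ℝ}
  {f f' : E → ℝ → ℝ}

/-! ### gate points and compact sets -/

omit [FiniteDimensional ℝ E] in
theorem F5b_Md (hp : p.Ok D) {w : E} (hw : w ∈ D.Md p) : w ∈ D.Mg (p.ηc / 2) (2 * p.κ) := by
  obtain ⟨h1, h2⟩ := hw
  have hη := hp.ηc_pos
  have hκ := hp.κ_pos
  exact ⟨fun v hv => le_trans (by linarith) (h1 v hv), h2.trans (by linarith)⟩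

omit [FiniteDimensional ℝ E] in
theorem F5b_w (hp : p.Ok D) {w : E} (hw : w ∈ D.Md p) : w ∈ D.X p.ρ := by
  have := hp.bnd w (Or.inr (F5b_Md hp hw)) 0 (by simp)
  simpa using this

omit [FiniteDimensional ℝ E] in
theorem F5b_wg (hp : p.Ok D) {w : E} (hw : w ∈ D.Md p) : w - D.g ∈ D.X p.ρ := by
  have := hp.bnd w (Or.inr (F5b_Md hp hw)) (-1) (by simp)
  simpa [sub_eq_add_neg] using this

omit [FiniteDimensional ℝ E] in
theorem F5b_C {x : E} (hx : x ∈ D.C p) : x ∈ D.X p.ρ :=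
  ⟨0, by simpa [lv] using hx.2⟩

/-! ### periodicity of the potentials -/

omit [FiniteDimensional ℝ E] in
theorem F5b_perL (hf : Pt D.β f) {v : E} (hv : v ∈ D.Lam) (x : E) (t : ℝ) : f (x + v) t = f x t := by
  have hv' : v ∈ Submodule.span ℤ (Set.range D.β) := hv
  induction hv' using Submodule.span_induction generalizing x with
  | mem y hy =>
    obtain ⟨i, rfl⟩ := hy
    exact hf.per i x t
  | zero => rw [add_zero]
  | add y y' hy hy' h1 h2 => rw [← add_assoc, h2 hy', h1 hy]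
  | smul k y hy h1 =>
    have key : ∀ (j : ℕ) (x : E), f (x + j • y) t = f x t := by
      intro j
      induction j with
      | zero => intro x; simp
      | succ j ih => intro x; rw [succ_nsmul, ← add_assoc, h1 hy, ih]
    obtain ⟨j, rfl | rfl⟩ := k.eq_nat_or_neg
    · rw [natCast_zsmul]
      exact key j x
    · rw [neg_smul, natCast_zsmul, ← key j (x + -(j • y)), neg_add_cancel_right]

omit [FiniteDimensional ℝ E] in
theorem F5b_lv (h : D.Ok) (n : Fin d → ℤ) : lv D.b n ∈ D.Lam := by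
  unfold lv
  refine AddSubgroup.sum_mem _ fun i _ => ?_
  obtain ⟨k, hk⟩ := h.bβ i
  rw [hk, Int.cast_smul_eq_zsmul]
  exact AddSubgroup.zsmul_mem _ (Submodule.subset_span (mem_range_self k)) _

omit [FiniteDimensional ℝ E] in
theorem F5b_per (h : D.Ok) (hf : Pt D.β f) (n : Fin d → ℤ) (x : E) (t : ℝ) :
    f (x + lv D.b n) t = f x t := F5b_perL hf (F5b_lv h n) x t

/-! ### constants -/

/-- barriers and critical values agree for speeds larger than a constant -/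
theorem F5b_room (h : D.Ok) (hp : p.Ok D) (hl : TL D.β D.F D.mF D.MF m M l) (Mf : ℝ) : ∃ s0 : ℝ, 1 ≤ s0 ∧
    ∀ s, s0 ≤ s → ∀ f f', Pt D.β f → Good Mf f → Pt D.β f' → Good Mf f' →
    (∀ x t, f x t ≤ f' x t) → (∀ x, x ∉ D.Out (p.ηc / 2) → ∀ t, f' x t = f x t) →
    D.al p (lf l f') s = D.al p (lf l f) s ∧
      ∀ x ∈ D.R p, ∀ x' ∈ D.R p, D.bar p (lf l f') s x x' = D.bar p (lf l f) s x x' := by
  obtain ⟨s0, h1, H⟩ := room_inv h hp m (M + Mf)
  refine ⟨s0, h1, fun s hs f f' hf hg hf' hg' hle hout => bar_inv h hp ?_⟩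
  refine H s hs _ (hl.add hf hg) _ (hl.add hf' hg') (fun x u t => ?_) (fun x hx u t => ?_)
  · simp only [lf]
    linarith [hle x t]
  · simp only [lf]
    rw [hout x hx t]

/-! ### growth -/

theorem F5b_int {t t' a b κ : ℝ} (hta : t ≤ a) (hab : a ≤ b) (hbt : b ≤ t') :
    IntervalIntegrable (indicator (Icc a b) fun _ => κ) volume t t' ∧
      ∫ r in t..t', indicator (Icc a b) (fun _ => κ) r = (b - a) * κ := by
  have hi : IntegrableOn (fun _ : ℝ => κ) (Icc a b) volume := by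
    exact integrableOn_const (by simp)
  refine ⟨(hi.integrable_indicator measurableSet_Icc).intervalIntegrable, ?_⟩
  rw [intervalIntegral.integral_of_le (by linarith)]
  rw [← integral_Icc_eq_integral_Ioc, setIntegral_indicator measurableSet_Icc]
  have : Icc t t' ∩ Icc a b = Icc a b := by
    ext r
    simp only [mem_inter_iff, mem_Icc]
    constructor
    · rintro ⟨_, h⟩; exact h
    · rintro ⟨h1, h2⟩; exact ⟨⟨by linarith, by linarith⟩, h1, h2⟩
  rw [this]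
  simp [hab]

theorem W_slope (h : D.Ok) (hp : p.Ok D) (hl : TL D.β D.F D.mF D.MF m M l) (Mf : ℝ) : ∃ s0 : ℝ, 1 ≤ s0 ∧
    ∀ S : ℝ, ∃ V : ℝ, 0 < V ∧ ∀ s s', s0 ≤ s → s0 ≤ s' → s ≤ S → s' ≤ S →
    ∀ f f', Pt D.β f → Good Mf f → Pt D.β f' → Good Mf f' →
    (∀ x t, f x t ≤ f' x t) → (∀ x, x ∉ D.Out (p.ηc / 2) → ∀ t, f' x t = f x t) →
    ∀ r, 0 ≤ r → r ≤ 1 → ∀ w ∈ D.Md p, ∀ a κ : ℝ, 0 ≤ a → a ≤ 1 / 4 → 0 ≤ κ →
    (∀ x t, ‖x - w‖ ≤ V * a → |t - r| ≤ a → f x t + κ ≤ f' x t) →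
    D.W p (lf l f) s s' r w + 2 * a * κ ≤ D.W p (lf l f') s s' r w := by
  obtain ⟨s0, hs0, H0⟩ := F5b_room h hp hl Mf
  refine ⟨s0, hs0, fun S => ?_⟩
  by_cases hMf : 0 ≤ Mf
  swap
  · exact ⟨1, one_pos, fun s s' _ _ _ _ f f' _ hg => absurd hg.pos hMf⟩
  obtain ⟨V, hV, HV⟩ := kk_cone h hl hMf S p.ρ
  refine ⟨V, hV, ?_⟩
  intro s s' hs hs' hsS hs'S f f' hf hg hf' hg' hle hout r hr hr1 w hw a κ ha ha4 hκ hbump
  have hs_ : 0 ≤ s := by linarith
  have hs'_ : 0 ≤ s' := by linarith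
  have hwM := F5b_Md hp hw
  obtain ⟨hal, hbar⟩ := H0 s hs f f' hf hg hf' hg' hle hout
  obtain ⟨hal', hbar'⟩ := H0 s' hs' f f' hf hg hf' hg' hle hout
  have h1 : D.alpha p (lf l f) s r w + a * κ ≤ D.alpha p (lf l f') s r w := by
    obtain ⟨x, hx, hxa⟩ := alpha_att h hp (hl.add hf' hg') hs_ hr hr1 hwM
    have hxR : x ∈ D.R p := C_sub hx
    have h2 := alpha_le h hp (hl.add hf hg) hs_ hr hr1 hwM hxR
    obtain ⟨hi, hi2⟩ := F5b_int (t := 0) (t' := 1 + r) (a := 1 + r - a) (b := 1 + r) (κ := κ) (by linarith)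
      (by linarith) le_rfl
    have h3 := HV f f' hf hg hf' hg' s hs_ hsS 0 (1 + r) (by linarith) (by linarith) x (F5b_C hx) w
      (F5b_w hp hw) _ hi ?_
    · rw [hi2] at h3
      rw [hxa, hal, hbar _ (q0_R h hp) _ hxR]
      have h4 : D.Q (lf l f) s r x w + a * κ ≤ D.Q (lf l f') s r x w := by
        unfold GD.Q
        linarith
      linarith
    · intro τ hτ y _ hy
      by_cases hτa : τ ∈ Icc (1 + r - a) (1 + r)
      · rw [indicator_of_mem hτa]
        obtain ⟨n, hn⟩ := hy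
        have h5 := hbump (y - lv D.b n) (τ - 1) ?_ ?_
        · have e1 : f (y - lv D.b n) (τ - 1) = f y τ := by
            rw [← F5b_per h hf n, ← hf.pert]
            congr 1 <;> abel
          have e2 : f' (y - lv D.b n) (τ - 1) = f' y τ := by
            rw [← F5b_per h hf' n, ← hf'.pert]
            congr 1 <;> abel
          rw [e1, e2] at h5
          exact h5
        · have : y - lv D.b n - w = y - (w + lv D.b n) := by abel
          rw [this]
          refine hn.trans (mul_le_mul_of_nonneg_left ?_ hV.le)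
          linarith [hτa.1]
        · rw [abs_le]
          constructor <;> linarith [hτa.1, hτa.2]
      · rw [indicator_of_notMem hτa, add_zero]
        exact hle y τ
  have h1' : D.beta p (lf l f) s' r w + a * κ ≤ D.beta p (lf l f') s' r w := by
    obtain ⟨x, hx, hxa⟩ := beta_att h hp (hl.add hf' hg') hs'_ hr hr1 hwM
    have hxR : x ∈ D.R p := C_sub hx
    have h2 := beta_le h hp (hl.add hf hg) hs'_ hr hr1 hwM hxR
    obtain ⟨hi, hi2⟩ := F5b_int (t := r) (t' := 2) (a := r) (b := r + a) (κ := κ) le_rfl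
      (by linarith) (by linarith)
    have h3 := HV f f' hf hg hf' hg' s' hs'_ hs'S r 2 (by linarith) (by linarith) (w - D.g)
      (F5b_wg hp hw) x (F5b_C hx) _ hi ?_
    · rw [hi2] at h3
      rw [hxa, hal', hbar' _ hxR _ (q0_R h hp)]
      have h4 : D.P (lf l f) s' r w x + a * κ ≤ D.P (lf l f') s' r w x := by
        unfold GD.P
        linarith
      linarith
    · intro τ hτ y hy _
      by_cases hτa : τ ∈ Icc r (r + a)
      · rw [indicator_of_mem hτa]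
        have h5 := hbump (y + D.g) τ ?_ ?_
        · rwa [F5b_perL hf h.g_mem, F5b_perL hf' h.g_mem] at h5
        · have : y + D.g - w = y - (w - D.g) := by abel
          rw [this]
          refine hy.trans (mul_le_mul_of_nonneg_left ?_ hV.le)
          linarith [hτa.2]
        · rw [abs_le]
          constructor <;> linarith [hτa.1, hτa.2]
      · rw [indicator_of_notMem hτa, add_zero]
        exact hle y τ
  unfold GD.W
  linarith

/-! ### curves -/

theorem F5b_lip {L : E → E → ℝ → ℝ} {a b V : ℝ} {Z v : ℝ → E} (hG : Geo L a b V Z v) :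
    ∀ t ∈ Icc a b, ∀ t' ∈ Icc a b, ‖Z t - Z t'‖ ≤ V * |t - t'| := by
  intro t ht t' ht'
  rw [hG.pos t' ht' t ht]
  refine intervalIntegral.norm_integral_le_of_norm_le_const fun r hr => hG.bd r ?_
  have := uIoc_subset_uIcc hr
  rw [uIcc, mem_Icc] at this
  exact ⟨le_trans (le_inf ht'.1 ht.1) this.1, this.2.trans (sup_le ht'.2 ht.2)⟩

/-- a leg which does not see the bump -/
theorem F5b_leg (h : D.Ok) (hl : TL D.β D.F D.mF D.MF m M l) {s : ℝ} (hs : 0 ≤ s) {t t' V : ℝ}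
    (htt : t < t') (hf : Pt D.β f) (hg : Good Mf f) (hf' : Pt D.β f') (hg' : Good Mf f') {x x' : E}
    {n : Fin d → ℤ} {Z v : ℝ → E} (h0 : Z t = x) (h1 : Z t' = x' + lv D.b n) (hG : Geo (lf l f) t t' V Z v)
    (hk : D.kk (lf l f) s t t' (Z t) (Z t') = D.cv (lf l f) s t t' Z v)
    (hZ : ∀ r ∈ Icc t t', f' (Z r) r = f (Z r) r) :
    D.kk (lf l f') s t t' x x' ≤ D.kk (lf l f) s t t' x x' := by
  obtain ⟨C, hC⟩ := hG.lip
  have h2 := kk_le_cv h (hl.add hf' hg') hs htt hC hG.pos n h1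
  have h3 : D.cv (lf l f') s t t' Z v = D.cv (lf l f) s t t' Z v := by
    unfold GD.cv
    congr 2
    refine intervalIntegral.integral_congr fun r hr => ?_
    rw [uIcc_of_le htt.le] at hr
    simp only [lf]
    rw [hZ r hr]
  have h4 := kk_J h (hl.add hf hg) s t t' x x' 0 n
  have h5 : x + lv D.b 0 = x := by simp [lv]
  rw [h5] at h4
  rw [h0] at h2 hk
  rw [h1] at hk
  rw [h3, ← hk, h4] at h2
  exact h2

theorem W_indep (h : D.Ok) (hp : p.Ok D) (hl : TL D.β D.F D.mF D.MF m M l) (Mf : ℝ) : ∃ s0 : ℝ, 1 ≤ s0 ∧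
    ∀ S : ℝ, ∃ V : ℝ, 0 < V ∧ ∀ s s', s0 ≤ s → s0 ≤ s' → s ≤ S → s' ≤ S →
    ∀ f, Pt D.β f → Good Mf f → ∀ r, 0 ≤ r → r ≤ 1 → ∀ w ∈ D.Md p, ∃ Z1 Z2 : ℝ → E,
    (∀ t ∈ Icc (0:ℝ) (1 + r), ∀ t' ∈ Icc (0:ℝ) (1 + r), ‖Z1 t - Z1 t'‖ ≤ V * |t - t'|) ∧
    (∀ t ∈ Icc r 2, ∀ t' ∈ Icc r 2, ‖Z2 t - Z2 t'‖ ≤ V * |t - t'|) ∧
    ∀ f', Pt D.β f' → Good Mf f' → (∀ x t, f x t ≤ f' x t) →
      (∀ x, x ∉ D.Out (p.ηc / 2) → ∀ t, f' x t = f x t) →
      (∀ t ∈ Icc (0:ℝ) (1 + r), f' (Z1 t) t = f (Z1 t) t) → (∀ t ∈ Icc r 2, f' (Z2 t) t = f (Z2 t) t) →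
      D.W p (lf l f') s s' r w ≤ D.W p (lf l f) s s' r w := by
  obtain ⟨s0, hs0, H0⟩ := F5b_room h hp hl Mf
  refine ⟨s0, hs0, fun S => ?_⟩
  by_cases hMf : 0 ≤ Mf
  swap
  · exact ⟨1, one_pos, fun s s' _ _ _ _ f _ hg => absurd hg.pos hMf⟩
  obtain ⟨V, hV, HV⟩ := kk_geo h hl hMf S p.ρ
  refine ⟨V, hV, ?_⟩
  intro s s' hs hs' hsS hs'S f hf hg r hr hr1 w hw
  have hs_ : 0 ≤ s := by linarith
  have hs'_ : 0 ≤ s' := by linarith
  have hwM := F5b_Md hp hw
  obtain ⟨x1, hx1, hxa⟩ := alpha_att h hp (hl.add hf hg) hs_ hr hr1 hwM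
  obtain ⟨x2, hx2, hxb⟩ := beta_att h hp (hl.add hf hg) hs'_ hr hr1 hwM
  obtain ⟨n1, Z1, v1, a1, a2, a3, a4⟩ := HV f hf hg s hs_ hsS 0 (1 + r) (by linarith) (by linarith) x1
    (F5b_C hx1) w (F5b_w hp hw)
  obtain ⟨n2, Z2, v2, b1, b2, b3, b4⟩ := HV f hf hg s' hs'_ hs'S r 2 (by linarith) (by linarith) (w - D.g)
    (F5b_wg hp hw) x2 (F5b_C hx2)
  refine ⟨Z1, Z2, F5b_lip a3, F5b_lip b3, ?_⟩
  intro f' hf' hg' hle hout hz1 hz2
  obtain ⟨hal, hbar⟩ := H0 s hs f f' hf hg hf' hg' hle hout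
  obtain ⟨hal', hbar'⟩ := H0 s' hs' f f' hf hg hf' hg' hle hout
  have c1 := alpha_le h hp (hl.add hf' hg') hs_ hr hr1 hwM (C_sub hx1)
  have c2 := beta_le h hp (hl.add hf' hg') hs'_ hr hr1 hwM (C_sub hx2)
  rw [hal, hbar _ (q0_R h hp) _ (C_sub hx1)] at c1
  rw [hal', hbar' _ (C_sub hx2) _ (q0_R h hp)] at c2
  have d1 : D.Q (lf l f') s r x1 w ≤ D.Q (lf l f) s r x1 w :=
    F5b_leg h hl hs_ (by linarith) hf hg hf' hg' a1 a2 a3 (a4 0 (1 + r) le_rfl (by linarith) le_rfl) hz1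
  have d2 : D.P (lf l f') s' r w x2 ≤ D.P (lf l f) s' r w x2 :=
    F5b_leg h hl hs'_ (by linarith) hf hg hf' hg' b1 b2 b3 (b4 r 2 le_rfl (by linarith) le_rfl) hz2
  unfold GD.W
  linarith

end EscG
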