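import Pool.Agent.EscG.CDefs

/-!
Project EscG, module F6: cells with bumps. Definitions.
-/

noncomputable section

namespace EscG

open MeasureTheory Set Filter Topology Esc EscF
open scoped ContDiff

variable {ι : Type} [Fintype ι] {d : ℕ} {E : Type*} [NormedAddCommGroup E] [InnerProductSpace ℝ E]

/-- combination of bumps -/
def bsum (n : ℕ) (Cn : Finset E) (bm : ℕ → E → E → ℝ → ℝ) (a : ℕ → E → ℝ) : E → ℝ → ℝ :=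
  fun x t => ∑ k ∈ Finset.range n, ∑ c ∈ Cn, a k c * bm k c x t

/-- cells around the centres `Cn`, slices `k / n`, and bumps `bm k c` -/
structure Cells (D : GD ι d E) (p : GP) (n mult : ℕ) (Cn : Finset E) (r wb : ℝ)
    (bm : ℕ → E → E → ℝ → ℝ) : Prop where
  n_pos : 0 < n
  r_pos : 0 < r
  wb_pos : 0 < wb
  wb_le : 4 * (wb * n) ≤ 1
  cen : ∀ c ∈ Cn, c ∈ D.Md p
  cov : ∀ w ∈ D.Md p, ∃ c ∈ Cn, ∃ v ∈ D.Lam, ‖w + v - c‖ ≤ r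
  mlt : ∀ z : E, ∀ T : Finset E, T ⊆ Cn → (∀ c ∈ T, ∃ v ∈ D.Lam, ‖z + v - c‖ ≤ 4 * r) → T.card ≤ mult
  sm : ∀ k c, Sm D.β (bm k c)
  b01 : ∀ k c x t, 0 ≤ bm k c x t ∧ bm k c x t ≤ 1
  b1 : ∀ (k : ℕ) (c x : E) (t : ℝ), (∃ v ∈ D.Lam, ‖x + v - c‖ ≤ 2 * r) →
    (∃ j : ℤ, |t + j - (k : ℝ) / n| ≤ wb / 2) → bm k c x t = 1
  bx : ∀ (k : ℕ) (c x : E) (t : ℝ), (∀ v ∈ D.Lam, 3 * r ≤ ‖x + v - c‖) → bm k c x t = 0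
  bt : ∀ (k : ℕ) (c x : E) (t : ℝ), (∀ j : ℤ, wb ≤ |t + j - (k : ℝ) / n|) → bm k c x t = 0
  out : ∀ (k : ℕ) (c x : E) (t : ℝ), c ∈ Cn → x ∉ D.Out (p.ηc / 2) → bm k c x t = 0

end EscG
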