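import Pool.Agent.EscG.F6Defs
import Pool.Agent.EscG.CIfc

/-!
INTERFACE of the parts of module F6 (helper12: F6a, helper5: F6b and F6). Never import in a final module.
-/

noncomputable section

namespace EscG

open MeasureTheory Set Filter Topology Esc EscF
open scoped ContDiff

variable {ι : Type} [Fintype ι] {d : ℕ} {E : Type*} [NormedAddCommGroup E] [InnerProductSpace ℝ E]
  [FiniteDimensional ℝ E] {D : GD ι d E} {p : GP} {m M Mf : ℝ} {ll l : E → E → ℝ → ℝ}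
  {f f' : E → ℝ → ℝ}

/-! ## F6a.lean (helper12) -/

/-- minimum of the cost of a transition on closed periodic sets of gate points -/
theorem W_min (h : D.Ok) (hp : p.Ok D) (hl : TL D.β D.F D.mF D.MF m M l) (hf : Pt D.β f)
    (hg : Good Mf f) {s s' r : ℝ} (hs : 0 ≤ s) (hs' : 0 ≤ s') (hr : 0 ≤ r) (hr1 : r ≤ 1) {Q : Set E}
    (hQ : IsClosed Q) (hQJ : ∀ w ∈ Q, ∀ n : Fin d → ℤ, w + lv D.b n ∈ Q) (hQM : Q ⊆ D.Md p)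
    (hQn : Q.Nonempty) : ∃ w ∈ Q, ∀ w' ∈ Q, D.W p (lf l f) s s' r w ≤ D.W p (lf l f) s s' r w' := sorry

/-- the counting argument: `f` is the base potential, `a` the amplitudes of the bumps (at most `A0`),
`hh` the height below which at most `2 * (2 * ((3 * n + 4) * mult) + 1)` cells of every slice are touched -/
theorem exists_sigma (h : D.Ok) (hp : p.Ok D) (hl : TL D.β D.F D.mF D.MF m M l) (Mf : ℝ) :
    ∃ s0 : ℝ, 1 ≤ s0 ∧ ∀ S : ℝ, ∃ V : ℝ, 0 < V ∧ ∀ (n mult : ℕ) (Cn : Finset E) (r wb : ℝ)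
    (bm : ℕ → E → E → ℝ → ℝ), Cells D p n mult Cn r wb bm → V * wb ≤ r → ∀ (L J : ℕ) (A0 hh : ℝ)
    (s : ℕ → ℝ), 0 < L → 0 < A0 → 0 ≤ hh → 2 * hh < wb * (A0 / L) → J * (n * Cn.card) ^ 3 < (L + 1) ^ 2 →
    (∀ i ≤ J, s0 ≤ s i ∧ s i ≤ S) → ∀ f : E → ℝ → ℝ, Pt D.β f →
    (∀ a : ℕ → E → ℝ, (∀ k c, 0 ≤ a k c ∧ a k c ≤ A0) → Good Mf (fun x t => f x t + bsum n Cn bm a x t)) →
    ∃ a : ℕ → E → ℝ, (∀ k c, 0 ≤ a k c ∧ a k c ≤ A0) ∧ ∀ i < J, ∀ μ : ℝ,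
      (∀ k < n, ∀ w ∈ D.Md p,
        μ ≤ D.W p (lf l (fun x t => f x t + bsum n Cn bm a x t)) (s i) (s (i + 1)) ((k : ℝ) / n) w) →
      ∀ k < n, ∀ T : Finset E, T ⊆ Cn → (∀ c ∈ T, ∃ w ∈ D.Md p, (∃ v ∈ D.Lam, ‖w + v - c‖ ≤ r) ∧
        D.W p (lf l (fun x t => f x t + bsum n Cn bm a x t)) (s i) (s (i + 1)) ((k : ℝ) / n) w ≤ μ + hh) →
      T.card ≤ 2 * (2 * ((3 * n + 4) * mult) + 1) := sorry

/-! ## F6b.lean (helper5) -/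

theorem exists_cells (h : D.Ok) (hp : p.Ok D) : ∃ (mult : ℕ) (r0 : ℝ), 0 < r0 ∧ ∀ r, 0 < r → r ≤ r0 →
    ∀ n : ℕ, 0 < n → ∀ wb, 0 < wb → 4 * (wb * n) ≤ 1 →
    ∃ (Cn : Finset E) (bm : ℕ → E → E → ℝ → ℝ), Cells D p n mult Cn r wb bm := sorry

theorem bsum_small (N : SmNorm D.β) {n mult : ℕ} {Cn : Finset E} {r wb : ℝ} {bm : ℕ → E → E → ℝ → ℝ}
    (hC : Cells D p n mult Cn r wb bm) {ε : ℝ} (hε : 0 < ε) : ∃ A0 : ℝ, 0 < A0 ∧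
    ∀ a : ℕ → E → ℝ, (∀ k c, 0 ≤ a k c ∧ a k c ≤ A0) → Sm D.β (bsum n Cn bm a) ∧
      N.nm (bsum n Cn bm a) ≤ ε ∧ Good ε (bsum n Cn bm a) ∧ (∀ x t, 0 ≤ bsum n Cn bm a x t) ∧
      ∀ x, x ∉ D.Out (p.ηc / 2) → ∀ t, bsum n Cn bm a x t = 0 := sorry

theorem exists_LJ (K : ℝ) (X : ℕ) : ∃ L J : ℕ, 0 < L ∧ 0 < J ∧ K * L < J ∧ J * X < (L + 1) ^ 2 := sorry

/-! ## F6.lean (helper5): the statement `gates` of CIfc, from F6a, F6b, inner_slice, sphere_free, Mi_nhd -/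

end EscG
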