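import Pool.Agent.EscG.CDefs
import Pool.Agent.EscG.C4
import Pool.Agent.EscG.F2b
import Pool.Agent.helper1.Esc.Count

/-!
Project EscG (MP_6acca1_an), core, module F6, first part: finite sums of bumps, cells, visible cells,
choice of the numbers.
-/

set_option linter.unusedSectionVars false

noncomputable section

namespace EscG

open MeasureTheory Set Filter Topology Esc EscF
open scoped ContDiff Pointwise

/-! ### Numbers -/

/-- choice of the number of levels and of the number of gates -/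
theorem F6_LJ (c : ℝ) (hc : 0 ≤ c) (n : ℕ) : ∃ Lc J : ℕ, 0 < Lc ∧ 0 < J ∧ c * Lc < J ∧
    J * n ^ 3 < (Lc + 1) ^ 2 := by
  obtain ⟨k, hk⟩ := exists_nat_ge c
  refine ⟨(k + 1) * n ^ 3 + 1, k * ((k + 1) * n ^ 3 + 1) + 1, by omega, by omega, ?_, ?_⟩
  · push_cast
    have h1 : (0:ℝ) ≤ (k + 1) * n ^ 3 + 1 := by positivity
    have h2 := mul_le_mul_of_nonneg_right hk h1
    linarith
  · generalize n ^ 3 = a
    have h1 : (k * ((k + 1) * a + 1) + 1) * a ≤ ((k + 1) * a + 1) * ((k + 1) * a + 1) := by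
      have : (k * ((k + 1) * a + 1) + 1) * a ≤ ((k + 1) * ((k + 1) * a + 1)) * a := by
        refine Nat.mul_le_mul_right _ ?_
        nlinarith
      refine this.trans ?_
      have h2 : ((k + 1) * ((k + 1) * a + 1)) * a = ((k + 1) * a + 1) * ((k + 1) * a) := by ring
      rw [h2]
      exact Nat.mul_le_mul_left _ (by omega)
    nlinarith

section sums

variable {ι : Type} [Fintype ι] {E : Type*} [NormedAddCommGroup E] [InnerProductSpace ℝ E]
  [FiniteDimensional ℝ E] {β : Module.Basis ι ℝ E}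

theorem F6_good_mono {a b : ℝ} {f : E → ℝ → ℝ} (h : Good a f) (hab : a ≤ b) : Good b f where
  pos := h.pos.trans hab
  cont := h.cont
  bd x t := (h.bd x t).trans hab
  lipx x x' t := (h.lipx x x' t).trans (mul_le_mul_of_nonneg_right hab (norm_nonneg _))
  lipt x t t' := (h.lipt x t t').trans (mul_le_mul_of_nonneg_right hab (abs_nonneg _))

theorem F6_sm_zero : Sm β (fun (_ : E) (_ : ℝ) => (0 : ℝ)) where
  smooth := contDiff_const
  per _ _ _ := rfl
  pert _ _ := rfl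

theorem F6_sm_sum {κ : Type*} (I : Finset κ) {b : κ → E → ℝ → ℝ} (hb : ∀ i, Sm β (b i)) (σ : κ → ℝ) :
    Sm β (fun x t => ∑ i ∈ I, σ i * b i x t) where
  smooth := ContDiff.sum fun i _ => contDiff_const.mul (hb i).smooth
  per i x t := Finset.sum_congr rfl fun k _ => by rw [(hb k).per i x t]
  pert x t := Finset.sum_congr rfl fun k _ => by rw [(hb k).pert x t]

theorem F6_nm_nonneg (N : SmNorm β) {G : E → ℝ → ℝ} (hG : Sm β G) : 0 ≤ N.nm G :=
  (abs_nonneg _).trans (N.sup_le G hG 0 0)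

theorem F6_nm_sum (N : SmNorm β) {κ : Type*} (I : Finset κ) {b : κ → E → ℝ → ℝ}
    (hb : ∀ i, Sm β (b i)) (σ : κ → ℝ) :
    N.nm (fun x t => ∑ i ∈ I, σ i * b i x t) ≤ ∑ i ∈ I, |σ i| * N.nm (b i) := by
  classical
  induction I using Finset.induction_on with
  | empty =>
    have h1 := N.smul_le 0 _ (F6_sm_zero (β := β))
    simpa using h1
  | insert a s ha ih =>
    have h1 : (fun (x : E) (t : ℝ) => ∑ i ∈ insert a s, σ i * b i x t) =
        fun x t => (σ a * b a x t) + ∑ i ∈ s, σ i * b i x t := by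
      funext x t
      rw [Finset.sum_insert ha]
    have h2 : Sm β (fun x t => σ a * b a x t) := by
      have := F6_sm_sum {a} hb σ
      simpa using this
    rw [h1, Finset.sum_insert ha]
    exact (N.add_le _ _ h2 (F6_sm_sum s hb σ)).trans (add_le_add (N.smul_le _ _ (hb a)) ih)

/-- amplitudes of finite sums of bumps -/
theorem F6_amp (N : SmNorm β) {κ : Type*} [Fintype κ] {b : κ → E → ℝ → ℝ} (hb : ∀ i, Sm β (b i))
    {ε : ℝ} (hε : 0 < ε) : ∃ A : ℝ, 0 < A ∧ ∀ σ : κ → ℝ, (∀ i, 0 ≤ σ i ∧ σ i ≤ A) →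
      Sm β (fun x t => ∑ i, σ i * b i x t) ∧ N.nm (fun x t => ∑ i, σ i * b i x t) ≤ ε ∧
      Good ε (fun x t => ∑ i, σ i * b i x t) := by
  classical
  choose C hC0 hC using fun i => Sm.good (hb i)
  set K : ℝ := ∑ i, (C i + N.nm (b i)) + 1 with hK
  have hterm : ∀ i, 0 ≤ C i + N.nm (b i) := fun i => add_nonneg (hC0 i).le (F6_nm_nonneg N (hb i))
  have hK1 : 1 ≤ K := by
    have : 0 ≤ ∑ i, (C i + N.nm (b i)) := Finset.sum_nonneg fun i _ => hterm i
    linarith
  have hKi : ∀ i, C i + N.nm (b i) ≤ K := fun i => by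
    have := Finset.single_le_sum (f := fun i => C i + N.nm (b i)) (fun i _ => hterm i)
      (Finset.mem_univ i)
    linarith
  set n : ℝ := ((Fintype.card κ : ℕ) : ℝ) with hn
  have hn0 : 0 ≤ n := by rw [hn]; positivity
  refine ⟨ε / ((n + 1) * K), by positivity, fun σ hσ => ⟨F6_sm_sum _ hb σ, ?_, ?_⟩⟩
  · refine (F6_nm_sum N _ hb σ).trans ?_
    have h1 : ∀ i ∈ Finset.univ, |σ i| * N.nm (b i) ≤ ε / (n + 1) := by
      intro i _
      rw [abs_of_nonneg (hσ i).1]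
      have h2 : N.nm (b i) ≤ K := by have := hKi i; have := hC0 i; linarith
      calc σ i * N.nm (b i) ≤ ε / ((n + 1) * K) * K :=
            mul_le_mul (hσ i).2 h2 (F6_nm_nonneg N (hb i)) (by positivity)
        _ = ε / (n + 1) := by field_simp
    refine (Finset.sum_le_sum h1).trans ?_
    rw [Finset.sum_const, nsmul_eq_mul, Finset.card_univ, ← hn, mul_div_assoc']
    rw [div_le_iff₀ (by positivity)]
    nlinarith
  · have h1 : ∀ i ∈ Finset.univ, Good (ε / (n + 1)) (fun x t => σ i * b i x t) := by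
      intro i _
      refine hC i _ _ (by positivity) ?_
      rw [abs_of_nonneg (hσ i).1]
      have h2 : C i ≤ K := by
        have := hKi i
        have := F6_nm_nonneg N (hb i)
        linarith
      calc σ i * C i ≤ ε / ((n + 1) * K) * K :=
            mul_le_mul (hσ i).2 h2 (hC0 i).le (by positivity)
        _ = ε / (n + 1) := by field_simp
    refine F6_good_mono (Good.sum Finset.univ h1) ?_
    rw [Finset.sum_const, nsmul_eq_mul, Finset.card_univ, ← hn, mul_div_assoc']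
    rw [div_le_iff₀ (by positivity)]
    nlinarith

end sums

/-! ### Cells -/

section cells

variable {ι : Type} [Fintype ι] {d : ℕ} {E : Type*} [NormedAddCommGroup E] [InnerProductSpace ℝ E]
  [FiniteDimensional ℝ E] {D : GD ι d E} {p : GP}

theorem F6_lam_closed (D : GD ι d E) : IsClosed (D.Lam : Set E) := by
  have : DiscreteTopology D.Lam :=
    inferInstanceAs <| DiscreteTopology (Submodule.span ℤ (Set.range D.β)).toAddSubgroup
  exact AddSubgroup.isClosed_of_discrete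

theorem F6_lv_mem (h : D.Ok) (n : Fin d → ℤ) : lv D.b n ∈ D.Lam := by
  unfold lv
  refine AddSubgroup.sum_mem _ fun i _ => ?_
  rw [Int.cast_smul_eq_zsmul]
  refine AddSubgroup.zsmul_mem _ ?_ _
  obtain ⟨k, hk⟩ := h.bβ i
  rw [hk]
  exact Submodule.subset_span (mem_range_self k)

/-- the cell of the centre `c` -/
def F6_Q (D : GD ι d E) (p : GP) (r : ℝ) (c : E) : Set E :=
  {w | w ∈ D.Md p ∧ ∃ v ∈ D.Lam, ‖w + v - c‖ ≤ r}

theorem F6_ball_closed (D : GD ι d E) (r : ℝ) (c : E) :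
    IsClosed {w : E | ∃ v ∈ D.Lam, ‖w + v - c‖ ≤ r} := by
  have : ProperSpace E := FiniteDimensional.proper ℝ E
  have h1 : {w : E | ∃ v ∈ D.Lam, ‖w + v - c‖ ≤ r} = (D.Lam : Set E) + Metric.closedBall c r := by
    ext w
    simp only [mem_setOf_eq, Set.mem_add, Metric.mem_closedBall, dist_eq_norm]
    constructor
    · rintro ⟨v, hv, hw⟩
      exact ⟨-v, D.Lam.neg_mem hv, w + v, hw, by abel⟩
    · rintro ⟨v, hv, y, hy, rfl⟩
      refine ⟨-v, D.Lam.neg_mem hv, ?_⟩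
      rwa [show v + y + -v - c = y - c by abel]
  rw [h1]
  exact (F6_lam_closed D).add_right_of_isCompact (isCompact_closedBall c r)

theorem F6_Md_sub (hp : p.Ok D) : D.Md p ⊆ D.Mg (p.ηc / 2) (2 * p.κ) := by
  rintro w ⟨h1, h2⟩
  refine ⟨fun v hv => ?_, ?_⟩
  · have h3 := h1 v hv
    have := hp.ηc_pos
    linarith
  · have := hp.κ_pos
    linarith

/-- minimum over a cell of a function periodic under the fast lattice -/
theorem F6_min (h : D.Ok) (hp : p.Ok D) {r : ℝ} {c : E} (hne : (F6_Q D p r c).Nonempty)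
    {Φ : E → ℝ} (hΦ : ContinuousOn Φ (D.Mg (p.ηc / 2) (2 * p.κ)))
    (hJ : ∀ w (n : Fin d → ℤ), Φ (w + lv D.b n) = Φ w) :
    ∃ w ∈ F6_Q D p r c, ∀ z ∈ F6_Q D p r c, Φ w ≤ Φ z := by
  have : ProperSpace E := FiniteDimensional.proper ℝ E
  have hcl : IsClosed (F6_Q D p r c) := (Mg_closed h _ _).inter (F6_ball_closed D r c)
  have hK : IsCompact (F6_Q D p r c ∩ Metric.closedBall 0 p.ρ) :=
    (isCompact_closedBall _ _).inter_left hcl
  have hred : ∀ w ∈ F6_Q D p r c, ∃ n : Fin d → ℤ,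
      w + lv D.b n ∈ F6_Q D p r c ∩ Metric.closedBall 0 p.ρ := by
    rintro w ⟨hw, v, hv, hwv⟩
    obtain ⟨n, hn⟩ := hp.bnd w (Or.inr (F6_Md_sub hp hw)) 0 (by norm_num)
    rw [Int.cast_zero, zero_smul, add_zero] at hn
    refine ⟨n, ⟨Mg_J h hw n, v - lv D.b n, D.Lam.sub_mem hv (F6_lv_mem h n), ?_⟩, ?_⟩
    · rwa [show w + lv D.b n + (v - lv D.b n) - c = w + v - c by abel]
    · rwa [mem_closedBall_zero_iff]
  obtain ⟨w0, hw0⟩ := hne
  obtain ⟨n0, hn0⟩ := hred w0 hw0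
  obtain ⟨w, hw, hwmin⟩ := hK.exists_isMinOn ⟨_, hn0⟩
    (hΦ.mono fun z hz => F6_Md_sub hp hz.1.1)
  refine ⟨w, hw.1, fun z hz => ?_⟩
  obtain ⟨n, hn⟩ := hred z hz
  have h1 := hwmin hn
  rw [mem_setOf_eq, hJ] at h1
  exact h1

/-- few cells are visible along a curve -/
theorem F6_vis {V wb r a a' : ℝ} {Nn mult : ℕ} (hNn : 0 < Nn) (hV : V * (2 * wb) ≤ r) (hV0 : 0 ≤ V)
    (hwb : wb ≤ 1 / Nn) (hwb1 : wb < 1) (ha : 0 ≤ a) (ha' : a' ≤ 2) {Cn : Finset E}
    (hmult : ∀ z : E, ∀ T : Finset E, T ⊆ Cn → (∀ c ∈ T, ∃ v ∈ D.Lam, ‖z + v - c‖ ≤ 4 * r) →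
      T.card ≤ mult) {Z : ℝ → E}
    (hZ : ∀ t ∈ Icc a a', ∀ t' ∈ Icc a a', ‖Z t - Z t'‖ ≤ V * |t - t'|)
    (S : Finset (Fin Nn × {c // c ∈ Cn}))
    (hS : ∀ q ∈ S, ∃ t ∈ Icc a a', (∃ j : ℤ, |t + j - (q.1 : ℕ) / Nn| < wb) ∧
      ∃ v ∈ D.Lam, ‖Z t + v - q.2.1‖ < 3 * r) : S.card ≤ 3 * Nn * mult := by
  classical
  set T : Fin Nn × Fin 3 → Finset (Fin Nn × {c // c ∈ Cn}) := fun u => S.filter fun q =>
    q.1 = u.1 ∧ ∃ t ∈ Icc a a', |t - (u.2 : ℕ) - (q.1 : ℕ) / Nn| < wb ∧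
      ∃ v ∈ D.Lam, ‖Z t + v - q.2.1‖ < 3 * r with hT
  have hN : (0:ℝ) < Nn := by exact_mod_cast hNn
  have hcov : S ⊆ Finset.univ.biUnion T := by
    intro q hq
    obtain ⟨t, ht, ⟨j, hj⟩, hv⟩ := hS q hq
    have hq1 : ((q.1 : ℕ) : ℝ) / Nn ≤ 1 - 1 / Nn := by
      rw [div_le_iff₀ hN, sub_mul, one_mul, div_mul_cancel₀ _ hN.ne']
      have : (q.1 : ℕ) + 1 ≤ Nn := q.1.2
      have : ((q.1 : ℕ) : ℝ) + 1 ≤ Nn := by exact_mod_cast this
      linarith
    have hq0 : (0:ℝ) ≤ ((q.1 : ℕ) : ℝ) / Nn := by positivity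
    rw [abs_lt] at hj
    have hj1 : (j : ℝ) < 1 := by linarith [ht.1]
    have hj2 : (-3 : ℝ) < j := by linarith [ht.2]
    have hj1' : j < 1 := by exact_mod_cast hj1
    have hj2' : -3 < j := by exact_mod_cast hj2
    obtain ⟨i, hi⟩ : ∃ i : Fin 3, ((i : ℕ) : ℤ) = -j :=
      ⟨⟨(-j).toNat, by omega⟩, by simp only; omega⟩
    have hi' : (((i : ℕ) : ℕ) : ℝ) = -j := by exact_mod_cast hi
    refine Finset.mem_biUnion.2 ⟨(q.1, i), Finset.mem_univ _, ?_⟩
    refine Finset.mem_filter.2 ⟨hq, rfl, t, ht, ?_, hv⟩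
    simp only [hi']
    rw [abs_lt]
    constructor <;> linarith [hj.1, hj.2]
  have hcard : ∀ u ∈ Finset.univ, (T u).card ≤ mult := by
    intro u _
    rcases (T u).eq_empty_or_nonempty with he | ⟨q0, hq0⟩
    · rw [he]
      simp
    obtain ⟨_, hq0u, t0, ht0, hj0, _⟩ := Finset.mem_filter.1 hq0
    have hinj : Set.InjOn (fun q : Fin Nn × {c // c ∈ Cn} => q.2.1) (T u) := by
      intro q hq q' hq' he
      have h1 := (Finset.mem_filter.1 hq).2.1
      have h2 := (Finset.mem_filter.1 hq').2.1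
      exact Prod.ext (h1.trans h2.symm) (Subtype.ext he)
    rw [← Finset.card_image_of_injOn hinj]
    refine hmult (Z t0) _ ?_ ?_
    · intro c hc
      obtain ⟨q, _, rfl⟩ := Finset.mem_image.1 hc
      exact q.2.2
    · intro c hc
      obtain ⟨q, hq, rfl⟩ := Finset.mem_image.1 hc
      obtain ⟨_, hqu, t, ht, hj, v, hv, hZv⟩ := Finset.mem_filter.1 hq
      refine ⟨v, hv, ?_⟩
      have h1 : |t0 - t| ≤ 2 * wb := by
        rw [hqu] at hj
        rw [hq0u] at hj0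
        rw [abs_lt] at hj hj0
        rw [abs_le]
        constructor <;> linarith [hj.1, hj.2, hj0.1, hj0.2]
      have h2 := hZ t0 ht0 t ht
      have h3 : V * |t0 - t| ≤ r := (mul_le_mul_of_nonneg_left h1 hV0).trans hV
      have h4 : Z t0 + v - q.2.1 = (Z t0 - Z t) + (Z t + v - q.2.1) := by abel
      rw [h4]
      refine (norm_add_le _ _).trans ?_
      linarith
  refine (Finset.card_le_card hcov).trans ?_
  refine (Finset.card_biUnion_le_card_mul _ _ _ hcard).trans (le_of_eq ?_)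
  rw [Finset.card_univ, Fintype.card_prod, Fintype.card_fin, Fintype.card_fin]
  ring

end cells

end EscG
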