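import Pool.Agent.EscG.RDefs

set_option autoImplicit false

/-!
# EscG geometry: conformal metrics all of whose displacement functions are constant, definitions
-/

noncomputable section

namespace Pool.Agent.EscG

open MeasureTheory Set Filter Topology Esc EscF _root_.EscG

variable {E : Type*} [NormedAddCommGroup E] [InnerProductSpace ℝ E]

/-- primitive vectors of `Z²` -/
def Prim (k : ℤ × ℤ) : Prop := IsCoprime k.1 k.2

/-- determinant -/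
def dt (k k' : ℤ × ℤ) : ℤ := k.1 * k'.2 - k.2 * k'.1

/-- lattice vectors -/
def vk (β : Module.Basis (Fin 2) ℝ E) (k : ℤ × ℤ) : E := (k.1 : ℝ) • β 0 + (k.2 : ℝ) • β 1

/-- wedge product of two vectors, seen as covectors, in the basis `β` -/
def wd (β : Module.Basis (Fin 2) ℝ E) (p p' : E) : ℝ :=
  inner ℝ p (β 0) * inner ℝ p' (β 1) - inner ℝ p (β 1) * inner ℝ p' (β 0)

/-- data of a conformal metric foliated by closed minimal geodesics in every primitive class -/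
structure Fol (β : Module.Basis (Fin 2) ℝ E) (ρ : E → ℝ) (mF MF K : ℝ) (σ : ℤ × ℤ → ℝ)
    (U : ℤ × ℤ → E → ℝ) (c : ℤ × ℤ → ℝ × ℝ) (P : ℤ × ℤ → E → E) : Prop where
  conf : Conf β ρ mF MF
  K_nonneg : 0 ≤ K
  σ_pos : ∀ k, Prim k → 0 < σ k
  σ_neg : ∀ k, Prim k → σ (-k) = σ k
  σ_upp : ∀ k, Prim k → σ k ≤ MF * ‖vk β k‖
  U0 : ∀ k, Prim k → ∀ x, U k (x + β 0) = U k x + (c k).1
  U1 : ∀ k, Prim k → ∀ x, U k (x + β 1) = U k x + (c k).2
  cσ : ∀ k, Prim k → k.1 * (c k).1 + k.2 * (c k).2 = σ k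
  cσ_le : ∀ k k', Prim k → Prim k' → k'.1 * (c k).1 + k'.2 * (c k).2 ≤ σ k'
  nP : ∀ k, Prim k → ∀ x, ‖P k x‖ = ρ x
  P_neg : ∀ k, Prim k → ∀ x, P (-k) x = -P k x
  quad : ∀ k, Prim k → ∀ x y, |U k y - U k x - inner ℝ (P k x) (y - x)| ≤ K * ‖y - x‖ ^ 2
  curve : ∀ k, Prim k → ∀ x, ∃ Γ : ℝ → E, Γ 0 = x ∧ (∀ t, Γ (t + σ k) = Γ t + vk β k) ∧
    ∀ t, HasDerivAt Γ ((ρ (Γ t) ^ 2)⁻¹ • P k (Γ t)) t
  trans : ∀ k k', Prim k → Prim k' → dt k k' ≠ 0 → ∀ x, P k x ≠ P k' x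

end Pool.Agent.EscG
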