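import Pool.Agent.EscG.FnDefs

set_option autoImplicit false
set_option linter.unusedSectionVars false

/-!
# EscG geometry, module Fn1: the norms `F x`, uniform continuity, short segments
-/

noncomputable section

namespace Pool.Agent.EscG

open MeasureTheory Set Filter Topology Esc EscF _root_.EscG
open scoped ContDiff

variable {E : Type*} [NormedAddCommGroup E] [InnerProductSpace ℝ E] [FiniteDimensional ℝ E]
  {β : Module.Basis (Fin 2) ℝ E} {F : E → E → ℝ} {mF MF m : ℝ}

/-! ### the norms -/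

theorem Fn1_abs (h : RFins β F mF MF m) (x v : E) (c : ℝ) : F x (c • v) = |c| * F x v := by
  rcases le_total 0 c with hc | hc
  · rw [h.fins.hom x v c hc, abs_of_nonneg hc]
  · rw [abs_of_nonpos hc, ← h.fins.hom x v (-c) (by linarith), neg_smul, h.rev]

theorem Fn1_zero (h : RFins β F mF MF m) (x : E) : F x 0 = 0 := by
  have h1 := h.fins.low x 0
  have h2 := h.fins.upp x 0
  rw [norm_zero, mul_zero] at h1 h2
  exact le_antisymm h2 h1

theorem Fn1_nn (h : RFins β F mF MF m) (x v : E) : 0 ≤ F x v :=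
  (mul_nonneg h.fins.mF_pos.le (norm_nonneg v)).trans (h.fins.low x v)

theorem Fn1_pos (h : RFins β F mF MF m) (x : E) {v : E} (hv : v ≠ 0) : 0 < F x v :=
  (mul_pos h.fins.mF_pos (norm_pos_iff.2 hv)).trans_le (h.fins.low x v)

theorem Fn1_q (h : RFins β F mF MF m) (x : E) :
    ContDiffOn ℝ 2 (fun z => F x z ^ 2 / 2) {z | z ≠ 0} := by
  have h1 : ContDiffOn ℝ 2 (fun z => F x z) {z | z ≠ 0} :=
    h.smooth.comp (f := fun z => (x, z)) (contDiff_const.prodMk contDiff_id).contDiffOn
      (fun z hz => hz)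
  exact (h1.pow 2).div_const 2

theorem Fn1_qa (h : RFins β F mF MF m) (x : E) {z : E} (hz : z ≠ 0) :
    ContDiffAt ℝ 2 (fun z => F x z ^ 2 / 2) z :=
  (Fn1_q h x).contDiffAt (isOpen_ne.mem_nhds hz)

theorem Fn1_line {v d : E} (s : ℝ) : HasDerivAt (fun s : ℝ => v + s • d) d s := by
  have h1 := ((hasDerivAt_id s).smul_const d).const_add v
  simpa using h1

/-- `F x ^ 2 / 2` is convex on segments which do not meet `0` -/
theorem Fn1_conv (h : RFins β F mF MF m) (x : E) {v d : E} (h0 : ∀ s ∈ Icc (0 : ℝ) 1, v + s • d ≠ 0) :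
    ConvexOn ℝ (Icc (0 : ℝ) 1) (fun s => F x (v + s • d) ^ 2 / 2) := by
  have hI : interior (Icc (0 : ℝ) 1) ⊆ Icc (0 : ℝ) 1 := interior_subset
  refine convexOn_of_hasDerivWithinAt2_nonneg (convex_Icc 0 1)
    (f' := fun s => fderiv ℝ (fun z => F x z ^ 2 / 2) (v + s • d) d)
    (f'' := fun s => fderiv ℝ (fderiv ℝ (fun z => F x z ^ 2 / 2)) (v + s • d) d d) ?_ ?_ ?_ ?_
  · have h1 : Continuous fun s : ℝ => F x (v + s • d) ^ 2 / 2 := by
      have h2 : Continuous fun s : ℝ => F x (v + s • d) :=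
        h.fins.cont.comp (continuous_const.prodMk (by fun_prop))
      exact (h2.pow 2).div_const 2
    exact h1.continuousOn
  · intro s hs
    have h1 := ((Fn1_qa h x (h0 s (hI hs))).differentiableAt (by norm_num)).hasFDerivAt
    exact (h1.comp_hasDerivAt s (Fn1_line s)).hasDerivWithinAt
  · intro s hs
    have h1 : DifferentiableAt ℝ (fderiv ℝ (fun z => F x z ^ 2 / 2)) (v + s • d) :=
      ((Fn1_qa h x (h0 s (hI hs))).fderiv_right (m := 1) (by norm_num)).differentiableAt (by norm_num)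
    have h2 := h1.hasFDerivAt.comp_hasDerivAt s (Fn1_line (v := v) (d := d) s)
    have h3 := h2.clm_apply (hasDerivAt_const s d)
    simp only [map_zero, add_zero] at h3
    exact h3.hasDerivWithinAt
  · intro s hs
    have h1 := h.hess x (v + s • d) d (h0 s (hI hs))
    have h2 : 0 ≤ m * ‖d‖ ^ 2 := mul_nonneg h.m_pos.le (by positivity)
    linarith

theorem RFins.norm_add (h : RFins β F mF MF m) (x v w : E) : F x (v + w) ≤ F x v + F x w := by
  by_cases hv : v = 0
  · subst hv; rw [zero_add, Fn1_zero h, zero_add]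
  by_cases hw : w = 0
  · subst hw; rw [add_zero, Fn1_zero h, add_zero]
  have ha := Fn1_pos h x hv
  have hb := Fn1_pos h x hw
  obtain ⟨a, hae⟩ : ∃ a, a = F x v := ⟨_, rfl⟩
  obtain ⟨b, hbe⟩ : ∃ b, b = F x w := ⟨_, rfl⟩
  rw [← hae, ← hbe]
  rw [← hae] at ha
  rw [← hbe] at hb
  obtain ⟨v', hv'⟩ : ∃ v', v' = a⁻¹ • v := ⟨_, rfl⟩
  obtain ⟨w', hw'⟩ : ∃ w', w' = b⁻¹ • w := ⟨_, rfl⟩
  have ev : v = a • v' := by rw [hv', smul_smul, mul_inv_cancel₀ ha.ne', one_smul]
  have ew : w = b • w' := by rw [hw', smul_smul, mul_inv_cancel₀ hb.ne', one_smul]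
  have fv : F x v' = 1 := by
    rw [hv', h.fins.hom x v a⁻¹ (by positivity), ← hae, inv_mul_cancel₀ ha.ne']
  have fw : F x w' = 1 := by
    rw [hw', h.fins.hom x w b⁻¹ (by positivity), ← hbe, inv_mul_cancel₀ hb.ne']
  by_cases h0 : ∀ s ∈ Icc (0 : ℝ) 1, v' + s • (w' - v') ≠ 0
  · have hc := (Fn1_conv h x h0).2 (show (0 : ℝ) ∈ Icc (0 : ℝ) 1 by simp)
      (show (1 : ℝ) ∈ Icc (0 : ℝ) 1 by simp) (show 0 ≤ a / (a + b) by positivity)
      (show 0 ≤ b / (a + b) by positivity) (by field_simp)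
    simp only [smul_eq_mul, mul_zero, mul_one, zero_add, zero_smul, add_zero, one_smul] at hc
    rw [add_sub_cancel, fv, fw] at hc
    have e1 : a / (a + b) * (1 ^ 2 / 2) + b / (a + b) * (1 ^ 2 / 2) = (1 : ℝ) / 2 := by
      field_simp
    rw [e1] at hc
    have e2 : v' + (b / (a + b)) • (w' - v') = (a + b)⁻¹ • (v + w) := by
      rw [ev, ew]
      have e3 : (a + b)⁻¹ • (a • v' + b • w') = (a / (a + b)) • v' + (b / (a + b)) • w' := by
        rw [smul_add, smul_smul, smul_smul, div_eq_inv_mul, div_eq_inv_mul]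
      have e4 : a / (a + b) = 1 - b / (a + b) := by field_simp; ring
      rw [e3, e4, smul_sub, sub_smul, one_smul]
      abel
    rw [e2, h.fins.hom x _ _ (by positivity)] at hc
    have h5 : (a + b)⁻¹ * F x (v + w) ≤ 1 := by
      have h6 : ((a + b)⁻¹ * F x (v + w)) ^ 2 ≤ 1 ^ 2 := by linarith
      exact le_of_sq_le_sq h6 (by norm_num)
    rw [inv_mul_le_iff₀ (by positivity), mul_one] at h5
    exact h5
  · push Not at h0
    obtain ⟨s, hs, he⟩ := h0
    have e1 : (1 - s) • v' = -(s • w') := by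
      have : v' + s • (w' - v') = (1 - s) • v' + s • w' := by
        rw [smul_sub, sub_smul, one_smul]; abel
      rw [this] at he
      exact eq_neg_of_add_eq_zero_left he
    have e2 := congrArg (F x) e1
    rw [h.rev, Fn1_abs h, Fn1_abs h, fv, fw, mul_one, mul_one, abs_of_nonneg (by linarith [hs.2]),
      abs_of_nonneg hs.1] at e2
    have e3 : s = 1 / 2 := by linarith
    have e4 : w' = -v' := by
      rw [e3] at e1
      have e5 : (1 - 1 / 2 : ℝ) = 1 / 2 := by norm_num
      rw [e5, ← smul_neg] at e1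
      have e6 := smul_right_injective E (by norm_num : (1 / 2 : ℝ) ≠ 0) e1
      rw [e6, neg_neg]
    have e5 : v + w = (a - b) • v' := by
      rw [ev, ew, e4, sub_smul, smul_neg]
      abel
    rw [e5, Fn1_abs h, fv, mul_one]
    rw [abs_le]
    constructor <;> linarith

/-! ### Jensen -/

theorem Fn1_cont (h : RFins β F mF MF m) (x : E) : Continuous (F x) :=
  h.fins.cont.comp (continuous_const.prodMk continuous_id)

theorem Fn1_convexOn (h : RFins β F mF MF m) (x : E) : ConvexOn ℝ univ (F x) := by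
  refine ⟨convex_univ, fun v _ w _ a b ha hb _ => ?_⟩
  have h1 := h.norm_add x (a • v) (b • w)
  rw [h.fins.hom x v a ha, h.fins.hom x w b hb] at h1
  exact h1

theorem Fn1_ii (h : RFins β F mF MF m) (x : E) {u : ℝ → E} (hu : Adm u) (a b : ℝ) :
    IntervalIntegrable (fun t => F x (u t)) volume a b := by
  obtain ⟨hm, C, hC⟩ := hu
  rw [intervalIntegrable_iff]
  have hMF : 0 ≤ MF := h.fins.mF_pos.le.trans h.fins.mF_le
  refine Measure.integrableOn_of_bounded (M := MF * C) (by simp)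
    ((Fn1_cont h x).comp_stronglyMeasurable hm).aestronglyMeasurable (ae_of_all _ fun t => ?_)
  rw [Real.norm_of_nonneg (Fn1_nn h x _)]
  exact (h.fins.upp x _).trans (mul_le_mul_of_nonneg_left (hC t) hMF)

theorem RFins.jensen (h : RFins β F mF MF m) (x : E) {u : ℝ → E} (hu : Adm u) {a b : ℝ} (hab : a ≤ b) :
    F x (∫ t in a..b, u t) ≤ ∫ t in a..b, F x (u t) := by
  rcases eq_or_lt_of_le hab with rfl | hlt
  · rw [intervalIntegral.integral_same, intervalIntegral.integral_same, Fn1_zero h]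
  have h0 : volume (Ioc a b) ≠ 0 := by
    rw [Real.volume_Ioc]
    simp [hlt]
  have h1 := (Fn1_convexOn h x).map_set_average_le (μ := volume) (t := Ioc a b) (f := u)
    (Fn1_cont h x).continuousOn isClosed_univ h0 (by simp) (by simp)
    ((intervalIntegrable_iff_integrableOn_Ioc_of_le hab).1 (hu.ii a b))
    ((intervalIntegrable_iff_integrableOn_Ioc_of_le hab).1 (Fn1_ii h x hu a b))
  rw [setAverage_eq, setAverage_eq, h.fins.hom x _ _ (by positivity), smul_eq_mul] at h1
  have h2 : 0 < (volume.real (Ioc a b))⁻¹ := by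
    rw [Real.volume_real_Ioc_of_le hab]
    exact inv_pos.2 (by linarith)
  rw [intervalIntegral.integral_of_le hab, intervalIntegral.integral_of_le hab]
  exact le_of_mul_le_mul_left h1 h2

/-! ### uniform continuity -/

theorem Fn1_per (h : RFins β F mF MF m) {y : E} (hy : y ∈ Submodule.span ℤ (Set.range β)) (x v : E) :
    F (x + y) v = F x v := by
  induction hy using Submodule.span_induction generalizing x with
  | mem y hy =>
    obtain ⟨i, rfl⟩ := hy
    exact h.fins.per i x v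
  | zero => rw [add_zero]
  | add y z _ _ h1 h2 => rw [← add_assoc, h2, h1]
  | smul n y _ h1 =>
    induction n using Int.induction_on generalizing x with
    | zero => rw [zero_smul, add_zero]
    | succ k ih => rw [add_smul, one_smul, ← add_assoc, h1, ih]
    | pred k ih =>
      rw [sub_smul, one_smul]
      have := h1 (x + (-(k : ℤ) • y - y))
      rw [add_assoc, sub_add_cancel] at this
      rw [← this, ih]

theorem RFins.uc (h : RFins β F mF MF m) {ε : ℝ} (hε : 0 < ε) :
    ∃ δ : ℝ, 0 < δ ∧ ∀ x y v : E, ‖y - x‖ ≤ δ → F y v ≤ F x v + ε * ‖v‖ := by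
  obtain ⟨r, hr⟩ := (ZSpan.fundamentalDomain_isBounded β).subset_closedBall 0
  have hK : IsCompact (Metric.closedBall (0 : E) (r + 1) ×ˢ Metric.closedBall (0 : E) 1) :=
    (isCompact_closedBall _ _).prod (isCompact_closedBall _ _)
  have hU := hK.uniformContinuousOn_of_continuous h.fins.cont.continuousOn
  rw [Metric.uniformContinuousOn_iff] at hU
  obtain ⟨δ, hδ, hU⟩ := hU ε hε
  refine ⟨min (δ / 2) 1, by positivity, ?_⟩
  -- unit vectors, points of the cell
  have key : ∀ x y v : E, ‖x‖ ≤ r → ‖y - x‖ ≤ min (δ / 2) 1 → ‖v‖ = 1 → F y v ≤ F x v + ε := by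
    intro x y v hx hxy hv
    have h1 : ‖y - x‖ ≤ δ / 2 := hxy.trans (min_le_left _ _)
    have h2 : ‖y - x‖ ≤ 1 := hxy.trans (min_le_right _ _)
    have h3 : ‖y‖ ≤ r + 1 := by
      have : y = x + (y - x) := by abel
      rw [this]
      exact (_root_.norm_add_le _ _).trans (by linarith)
    have h4 := hU (y, v) ⟨by simpa using h3, by simp [hv]⟩ (x, v)
      ⟨by simp only [Metric.mem_closedBall, dist_zero_right]; linarith, by simp [hv]⟩ (by
        rw [Prod.dist_eq, dist_self, dist_eq_norm]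
        refine max_lt ?_ hδ
        linarith)
    rw [Real.dist_eq] at h4
    have := (abs_lt.1 h4).2
    linarith
  intro x y v hxy
  by_cases hv : v = 0
  · subst hv; rw [Fn1_zero h, Fn1_zero h, norm_zero]; linarith
  have hn : 0 < ‖v‖ := norm_pos_iff.2 hv
  -- reduction to the cell
  have hf : ‖ZSpan.fract β x‖ ≤ r := by
    have := hr (ZSpan.fract_mem_fundamentalDomain β x)
    simpa using this
  have e1 : ZSpan.fract β x + (ZSpan.floor β x : E) = x := by
    rw [ZSpan.fract_apply, sub_add_cancel]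
  have e2 : y - (ZSpan.floor β x : E) - ZSpan.fract β x = y - x := by
    rw [ZSpan.fract_apply]; abel
  have h1 := key (ZSpan.fract β x) (y - (ZSpan.floor β x : E)) (‖v‖⁻¹ • v) hf (by rw [e2]; exact hxy)
    (by rw [norm_smul, norm_inv, norm_norm, inv_mul_cancel₀ hn.ne'])
  have h2 := Fn1_per h (ZSpan.floor β x).2 (ZSpan.fract β x) (‖v‖⁻¹ • v)
  have h3 := Fn1_per h (ZSpan.floor β x).2 (y - (ZSpan.floor β x : E)) (‖v‖⁻¹ • v)
  rw [e1] at h2
  rw [sub_add_cancel] at h3
  rw [← h2, ← h3, h.fins.hom _ _ _ (by positivity), h.fins.hom _ _ _ (by positivity)] at h1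
  have h4 := mul_le_mul_of_nonneg_left h1 hn.le
  rw [mul_add, ← mul_assoc, ← mul_assoc, mul_inv_cancel₀ hn.ne', one_mul, one_mul] at h4
  linarith

theorem RFins.fd_loc (h : RFins β F mF MF m) {ε : ℝ} (hε : 0 < ε) :
    ∃ δ : ℝ, 0 < δ ∧ ∀ x y : E, ‖y - x‖ ≤ δ → fd F x y ≤ F x (y - x) + ε * ‖y - x‖ := by
  obtain ⟨δ, hδ, hu⟩ := h.uc hε
  refine ⟨δ, hδ, fun x y hxy => ?_⟩
  have h1 : traj 0 x (fun _ => y - x) 1 = y := by simp [traj]
  have h2 := fd_sq_le h.fins one_pos x (Adm.const (y - x))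
  rw [h1] at h2
  have h3 : (∫ r in (0:ℝ)..1, F (traj 0 x (fun _ => y - x) r) (y - x) ^ 2) ≤
      ∫ _r in (0:ℝ)..1, (F x (y - x) + ε * ‖y - x‖) ^ 2 := by
    refine intervalIntegral.integral_mono_on zero_le_one ?_ (by simp) fun r hr => ?_
    · have := (A5a_iiQ h.fins 0 (Adm.const (y - x)) 0 x 0 1).const_mul 2
      refine this.congr fun r _ => ?_
      ring
    · refine pow_le_pow_left₀ (Fn1_nn h _ _) (hu _ _ _ ?_) 2
      have e1 : traj 0 x (fun _ => y - x) r - x = r • (y - x) := by simp [traj, smul_sub]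
      rw [e1, norm_smul, Real.norm_of_nonneg hr.1]
      exact (mul_le_of_le_one_left (norm_nonneg _) hr.2).trans hxy
  rw [intervalIntegral.integral_const, sub_zero, one_smul] at h3
  rw [sub_zero, one_mul] at h2
  refine le_of_sq_le_sq (h2.trans h3) ?_
  have := Fn1_nn h x (y - x)
  positivity

/-! ### symmetry, kernels -/

theorem Fn1_adm {u : ℝ → E} (hu : Adm u) (c d : ℝ) : Adm (fun s => c • u (c * s + d)) := by
  obtain ⟨hm, C, hC⟩ := hu
  refine ⟨(hm.comp_measurable (by fun_prop)).const_smul c, |c| * C, fun t => ?_⟩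
  rw [norm_smul, Real.norm_eq_abs]
  exact mul_le_mul_of_nonneg_left (hC _) (abs_nonneg c)

theorem Fn1_traj (a c d : ℝ) (z : E) (u : ℝ → E) (t : ℝ) :
    traj a z (fun s => c • u (c * s + d)) t = traj (c * a + d) z u (c * t + d) := by
  unfold traj
  rw [intervalIntegral.integral_smul, intervalIntegral.smul_integral_comp_mul_add]

theorem Fn1_symm_le (h : RFins β F mF MF m) (x y : E) :
    kerl (C1_e F) 0 1 y x ≤ kerl (C1_e F) 0 1 x y := by
  apply le_kerl (by norm_num : (0 : ℝ) < 1)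
  intro u hu hz
  have e0 : (-1 : ℝ) * 0 + 1 = 1 := by norm_num
  have e1 : (-1 : ℝ) * 1 + 1 = 0 := by norm_num
  have htr : ∀ t, traj 1 y u t = traj 0 x u t := by
    intro t
    rw [← hz]
    exact (traj_split hu 0 1 x t).symm
  have h2 := (C1_cb h.fins).kerl_le (by norm_num : (0 : ℝ) < 1) (z := y) (z' := x)
    (Fn1_adm hu (-1) 1)
    (by
      rw [Fn1_traj, e0, e1, htr]
      unfold traj
      simp)
  have h3 : actl (C1_e F) 0 1 y (fun s => (-1 : ℝ) • u (-1 * s + 1)) =
      ∫ t in (0 : ℝ)..1, C1_e F (traj 0 x u (1 - t)) (u (1 - t)) 0 := by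
    unfold actl
    refine intervalIntegral.integral_congr fun t _ => ?_
    have e2 : (-1 : ℝ) * t + 1 = 1 - t := by ring
    have e3 := Fn1_traj 0 (-1) 1 y u t
    rw [e0, e2, htr] at e3
    simp only [C1_e]
    rw [e3, e2, neg_one_smul, h.rev]
  have h4 : (∫ t in (0 : ℝ)..1, C1_e F (traj 0 x u (1 - t)) (u (1 - t)) 0) =
      actl (C1_e F) 0 1 x u := by
    rw [intervalIntegral.integral_comp_sub_left (fun t => C1_e F (traj 0 x u t) (u t) 0) 1]
    rw [sub_self, sub_zero]
    rfl
  rw [h3, h4] at h2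
  exact h2

theorem RFins.fd_symm (h : RFins β F mF MF m) (x y : E) : fd F x y = fd F y x := by
  have h1 : kerl (C1_e F) 0 1 x y = kerl (C1_e F) 0 1 y x :=
    le_antisymm (Fn1_symm_le h y x) (Fn1_symm_le h x y)
  have h2 := C1_sq F x y
  have h3 := C1_sq F y x
  rw [h1, ← h3] at h2
  exact (sq_eq_sq₀ (fd_nonneg F x y) (fd_nonneg F y x)).1 h2

theorem RFins.kerl_eq (h : RFins β F mF MF m) {a b : ℝ} (hab : a < b) (x y : E) :
    kerl (C1_e F) a b x y = fd F x y ^ 2 / (2 * (b - a)) := by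
  have hba : 0 < b - a := by linarith
  rw [eq_div_iff (by positivity)]
  apply le_antisymm
  · have := C1_scale h.fins hab x y
    linarith
  · rw [← div_le_iff₀ (by positivity)]
    apply le_kerl hab
    intro u hu hz
    rw [div_le_iff₀ (by positivity)]
    have h1 := fd_sq_le h.fins hab x hu
    rw [hz] at h1
    have h4 : actl (C1_e F) a b x u = (∫ r in a..b, F (traj a x u r) (u r) ^ 2) / 2 := by
      unfold actl C1_e
      rw [intervalIntegral.integral_div]
    rw [h4]
    linarith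

end Pool.Agent.EscG
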