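import Pool.Agent.EscG.Fn1

set_option autoImplicit false

/-!
# EscG geometry, module Fn1b: lengths of curves and the energy distance (helper63)

`curve_le`: let `Z t = traj a z u t` (`traj_cont`), `ε > 0`. Choose `δ' ≤ δ` for `fd_loc` and `uc` (both with `ε`), and by uniform
continuity of `Z` on `[a,b]` a mesh `h > 0` with `‖Z t - Z s‖ ≤ δ'` for `|t - s| ≤ h`. For `s ≤ t ≤ s + h` in `[a,b]`:
`B (Z t) - B (Z s) ≤ q fd (Z s) (Z t) ≤ q (F (Z s) (Z t - Z s) + ε ‖Z t - Z s‖)`, `Z t - Z s = ∫_s^t u`,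
`F (Z s) (∫_s^t u) ≤ ∫_s^t F (Z s) (u r) dr ≤ ∫_s^t (F (Z r) (u r) + ε ‖u r‖) dr` (`jensen`, `uc`), `‖Z t - Z s‖ ≤ ∫_s^t ‖u‖`.
So the inequality holds on short intervals with error `2 q ε ∫ ‖u‖`; add up (lemma `Fn1b_chain`), let `ε → 0`.
`fd_le_length`: `curve_le` with `B = fd F z`, `q = 1`, `S = univ` (`fd_tri`, `C1_self` in C1.lean).
-/

noncomputable section

namespace Pool.Agent.EscG

open MeasureTheory Set Filter Topology Esc EscF _root_.EscG
open scoped ContDiff

variable {E : Type*} [NormedAddCommGroup E] [InnerProductSpace ℝ E] [FiniteDimensional ℝ E]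
  {β : Module.Basis (Fin 2) ℝ E} {F : E → E → ℝ} {mF MF m : ℝ}

/-- chaining of small steps -/
theorem Fn1b_chain {f : ℝ → ℝ} {a b h : ℝ} (hh : 0 < h)
    (hs : ∀ s t, a ≤ s → s ≤ t → t ≤ b → t - s ≤ h → f s ≤ f t) (hab : a ≤ b) : f a ≤ f b := by
  have key : ∀ n : ℕ, ∀ t, a ≤ t → t ≤ b → t - a ≤ n * h → f a ≤ f t := by
    intro n
    induction n with
    | zero =>
      intro t h1 h2 h3
      have h4 : t = a := by
        simp only [Nat.cast_zero, zero_mul] at h3
        linarith
      rw [h4]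
    | succ n ih =>
      intro t h1 h2 h3
      push_cast at h3
      have h4 := ih (max a (t - h)) (le_max_left _ _)
        (max_le (h1.trans h2) (by linarith)) (by
          rcases max_cases a (t - h) with h5 | h5
          · rw [h5.1]
            have : 0 ≤ (n : ℝ) * h := by positivity
            linarith
          · rw [h5.1]
            linarith)
      refine h4.trans (hs _ _ (le_max_left _ _) (max_le h1 (by linarith)) h2 ?_)
      have := le_max_right a (t - h)
      linarith
  obtain ⟨n, hn⟩ := exists_nat_ge ((b - a) / h)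
  exact key n b hab le_rfl ((div_le_iff₀ hh).1 hn)

omit [FiniteDimensional ℝ E] in
/-- the metric frozen at `x` -/
theorem Fn1b_frz (h : Fins β F mF MF) (x : E) : Fins β (fun _ v => F x v) mF MF where
  mF_pos := h.mF_pos
  mF_le := h.mF_le
  cont := h.cont.comp (continuous_const.prodMk continuous_snd)
  per _ _ _ := rfl
  hom _ v c hc := h.hom x v c hc
  low _ v := h.low x v
  upp _ v := h.upp x v

theorem RFins.ii (h : RFins β F mF MF m) {u : ℝ → E} (hu : Adm u) (a : ℝ) (z : E) (c d : ℝ) :
    IntervalIntegrable (fun t => F (traj a z u t) (u t)) volume c d :=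
  A5a_ii h.fins hu a z c d

theorem Fn1b_iix (h : RFins β F mF MF m) {u : ℝ → E} (hu : Adm u) (x : E) (c d : ℝ) :
    IntervalIntegrable (fun t => F x (u t)) volume c d :=
  A5a_ii (Fn1b_frz h.fins x) hu 0 0 c d

theorem RFins.curve_le (h : RFins β F mF MF m) {B : E → ℝ} {S : Set E} {q δ : ℝ} (hq : 0 ≤ q) (hδ : 0 < δ)
    (hB : ∀ x ∈ S, ∀ y, ‖y - x‖ ≤ δ → B y - B x ≤ q * fd F x y) {z : E}
    {u : ℝ → E} (hu : Adm u) {a b : ℝ} (hab : a ≤ b) (hS : ∀ t ∈ Icc a b, traj a z u t ∈ S) :
    B (traj a z u b) - B z ≤ q * ∫ t in a..b, F (traj a z u t) (u t) := by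
  -- main estimate with `ε`
  have main : ∀ ε > 0, B (traj a z u b) - B z ≤
      (q * ∫ t in a..b, F (traj a z u t) (u t)) + 2 * (q * (ε * ∫ t in a..b, ‖u t‖)) := by
    intro ε hε
    obtain ⟨δ1, hδ1, H1⟩ := h.fd_loc hε
    obtain ⟨δ2, hδ2, H2⟩ := h.uc hε
    have hc : Continuous (traj a z u) := traj_cont hu a z
    have huc1 : UniformContinuousOn (traj a z u) (Icc a b) :=
      isCompact_Icc.uniformContinuousOn_of_continuous hc.continuousOn
    rw [Metric.uniformContinuousOn_iff] at huc1
    obtain ⟨r0, hr0, hs1⟩ := huc1 _ (lt_min hδ (lt_min hδ1 hδ2))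
    have hclose : ∀ s ∈ Icc a b, ∀ t ∈ Icc a b, |t - s| < r0 →
        ‖traj a z u t - traj a z u s‖ ≤ δ ∧ ‖traj a z u t - traj a z u s‖ ≤ δ1 ∧
          ‖traj a z u t - traj a z u s‖ ≤ δ2 := by
      intro s hs t ht hst
      have hw := hs1 t ht s hs (by rw [Real.dist_eq]; exact hst)
      rw [dist_eq_norm] at hw
      exact ⟨hw.le.trans (min_le_left _ _),
        hw.le.trans ((min_le_right _ _).trans (min_le_left _ _)),
        hw.le.trans ((min_le_right _ _).trans (min_le_right _ _))⟩
    set Ψ : ℝ → ℝ := fun t => (q * ∫ r in a..t, F (traj a z u r) (u r)) +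
      2 * (q * (ε * ∫ r in a..t, ‖u r‖)) with hΨ
    have hstep : ∀ s t, a ≤ s → s ≤ t → t ≤ b → t - s ≤ r0 / 2 →
        Ψ s - B (traj a z u s) ≤ Ψ t - B (traj a z u t) := by
      intro s t has hst htb hsmall
      have hsI : s ∈ Icc a b := ⟨has, hst.trans htb⟩
      have htI : t ∈ Icc a b := ⟨has.trans hst, htb⟩
      obtain ⟨c1, c2, -⟩ := hclose s hsI t htI (by
        rw [abs_of_nonneg (by linarith)]
        linarith)
      have hdisp0 : traj a z u t - traj a z u s = ∫ r in s..t, u r := by
        unfold traj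
        rw [add_sub_add_left_eq_sub, intervalIntegral.integral_interval_sub_left
          (hu.ii a t) (hu.ii a s)]
      have hdisp : ‖traj a z u t - traj a z u s‖ ≤ ∫ r in s..t, ‖u r‖ := by
        rw [hdisp0]
        exact intervalIntegral.norm_integral_le_integral_norm hst
      have e1 := hB _ (hS s hsI) (traj a z u t) c1
      have e2 := H1 (traj a z u s) (traj a z u t) c2
      have e3 : F (traj a z u s) (traj a z u t - traj a z u s) ≤
          ∫ r in s..t, F (traj a z u s) (u r) := by
        rw [hdisp0]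
        exact h.jensen _ hu hst
      have e4 : (∫ r in s..t, F (traj a z u s) (u r)) ≤
          (∫ r in s..t, F (traj a z u r) (u r)) + ε * ∫ r in s..t, ‖u r‖ := by
        rw [← intervalIntegral.integral_const_mul, ← intervalIntegral.integral_add
          (h.ii hu a z s t) ((hu.ii s t).norm.const_mul ε)]
        refine intervalIntegral.integral_mono_on hst (Fn1b_iix h hu _ s t)
          ((h.ii hu a z s t).add ((hu.ii s t).norm.const_mul ε)) ?_
        intro r hr
        have hrI : r ∈ Icc a b := ⟨has.trans hr.1, hr.2.trans htb⟩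
        obtain ⟨-, -, c3⟩ := hclose r hrI s hsI (by
          rw [abs_sub_comm, abs_of_nonneg (by linarith [hr.1])]
          linarith [hr.2])
        exact H2 _ _ _ c3
      have e5 : ε * ‖traj a z u t - traj a z u s‖ ≤ ε * ∫ r in s..t, ‖u r‖ :=
        mul_le_mul_of_nonneg_left hdisp hε.le
      have e6 : q * fd F (traj a z u s) (traj a z u t) ≤
          q * ((∫ r in s..t, F (traj a z u r) (u r)) + 2 * (ε * ∫ r in s..t, ‖u r‖)) :=
        mul_le_mul_of_nonneg_left (by linarith) hq
      have i1 : (∫ r in a..t, F (traj a z u r) (u r)) =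
          (∫ r in a..s, F (traj a z u r) (u r)) + ∫ r in s..t, F (traj a z u r) (u r) :=
        (intervalIntegral.integral_add_adjacent_intervals (h.ii hu a z a s)
          (h.ii hu a z s t)).symm
      have i2 : (∫ r in a..t, ‖u r‖) = (∫ r in a..s, ‖u r‖) + ∫ r in s..t, ‖u r‖ :=
        (intervalIntegral.integral_add_adjacent_intervals (hu.ii a s).norm (hu.ii s t).norm).symm
      simp only [hΨ]
      rw [i1, i2]
      have := e1.trans e6
      linarith
    have h3 := Fn1b_chain (f := fun t => Ψ t - B (traj a z u t)) (half_pos hr0) hstep hab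
    have h4 : traj a z u a = z := by simp [traj]
    have h5 : Ψ a = 0 := by simp [hΨ]
    simp only [h4, h5] at h3
    simp only [hΨ] at h3
    linarith
  refine le_of_forall_pos_le_add fun ε hε => ?_
  have hIn : 0 ≤ ∫ t in a..b, ‖u t‖ :=
    intervalIntegral.integral_nonneg hab fun t _ => norm_nonneg _
  obtain ⟨I, hI⟩ : ∃ I, I = ∫ t in a..b, ‖u t‖ := ⟨_, rfl⟩
  have h1 := main (ε / (2 * (q * I) + 1)) (by rw [← hI] at hIn; positivity)
  rw [← hI] at h1 hIn
  refine h1.trans ?_
  have hqI : 0 ≤ q * I := mul_nonneg hq hIn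
  have h2 : 2 * (q * (ε / (2 * (q * I) + 1) * I)) = (2 * (q * I)) * ε / (2 * (q * I) + 1) := by
    ring
  have h3 : (2 * (q * I)) * ε / (2 * (q * I) + 1) ≤ ε := by
    rw [div_le_iff₀ (by positivity)]
    nlinarith
  linarith

/-- the length of a curve is at least the energy distance of its end points -/
theorem RFins.fd_le_length (h : RFins β F mF MF m) {u : ℝ → E} (hu : Adm u) {a b : ℝ} (hab : a ≤ b) (z : E) :
    fd F z (traj a z u b) ≤ ∫ t in a..b, F (traj a z u t) (u t) := by
  have h1 := h.curve_le (B := fd F z) (S := univ) (q := 1) (δ := 1) zero_le_one one_pos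
    (fun x _ y _ => by
      have := fd_tri h.fins z x y
      linarith) (z := z) hu hab (fun t _ => mem_univ _)
  rw [C1_self h.fins, one_mul, sub_zero] at h1
  exact h1

end Pool.Agent.EscG
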