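import Pool.Agent.EscG.FnDefs

set_option autoImplicit false

/-!
# EscG geometry, module Fn2a: cut-off functions of one variable

`ψ s = smoothTransition ((32 s - 1) / 3)`: smooth, monotone, `0` for `s ≤ 1/32`, `1` for `s ≥ 1/8`, positive for `s > 1/32`.
`φ s = 1/8 + ∫_{1/8}^s ψ`: `φ' = ψ`, `φ'' = ψ' ≥ 0`, `φ s = s` for `s ≥ 1/8`, `φ` constant for `s ≤ 1/32`,
`φ ≥ 1/8 - 3/32 > 0`, `c = ψ (1/16)`. `χ s = 1 - smoothTransition (16 s - 1)`.
-/

noncomputable section

namespace Pool.Agent.EscG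

open MeasureTheory Set Filter Topology
open scoped ContDiff

/-- derivative of the cut-off `φ` -/
def Fn2a_psi (s : ℝ) : ℝ := Real.smoothTransition ((32 * s - 1) / 3)

/-- the cut-off `φ` -/
def Fn2a_phi (s : ℝ) : ℝ := 1 / 8 + ∫ r in (1 / 8 : ℝ)..s, Fn2a_psi r

theorem Fn2a_psi_contDiff : ContDiff ℝ ∞ Fn2a_psi := by
  have h1 : ContDiff ℝ ∞ (fun s : ℝ => (32 * s - 1) / 3) := by fun_prop
  exact Real.smoothTransition.contDiff.comp h1

theorem Fn2a_psi_continuous : Continuous Fn2a_psi := Fn2a_psi_contDiff.continuous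

theorem Fn2a_psi_mono : Monotone Fn2a_psi := by
  intro s t h
  exact Real.smoothTransition.monotone (by linarith)

theorem Fn2a_psi_nonneg (s : ℝ) : 0 ≤ Fn2a_psi s := Real.smoothTransition.nonneg _

theorem Fn2a_psi_le_one (s : ℝ) : Fn2a_psi s ≤ 1 := Real.smoothTransition.le_one _

theorem Fn2a_psi_zero {s : ℝ} (h : s ≤ 1 / 32) : Fn2a_psi s = 0 :=
  Real.smoothTransition.zero_of_nonpos (by linarith)

theorem Fn2a_psi_one {s : ℝ} (h : 1 / 8 ≤ s) : Fn2a_psi s = 1 :=
  Real.smoothTransition.one_of_one_le (by linarith)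

theorem Fn2a_psi_int (a b : ℝ) : IntervalIntegrable Fn2a_psi volume a b :=
  Fn2a_psi_continuous.intervalIntegrable a b

theorem Fn2a_phi_hasDerivAt (s : ℝ) : HasDerivAt Fn2a_phi (Fn2a_psi s) s := by
  have h := intervalIntegral.integral_hasDerivAt_right (Fn2a_psi_int (1 / 8) s)
    (Fn2a_psi_continuous.stronglyMeasurableAtFilter _ _) Fn2a_psi_continuous.continuousAt
  exact h.const_add (1 / 8 : ℝ)

theorem Fn2a_phi_deriv : deriv Fn2a_phi = Fn2a_psi :=
  funext fun s => (Fn2a_phi_hasDerivAt s).deriv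

theorem Fn2a_phi_differentiable : Differentiable ℝ Fn2a_phi :=
  fun s => (Fn2a_phi_hasDerivAt s).differentiableAt

theorem Fn2a_phi_contDiff : ContDiff ℝ ∞ Fn2a_phi := by
  rw [contDiff_infty_iff_deriv, Fn2a_phi_deriv]
  exact ⟨Fn2a_phi_differentiable, Fn2a_psi_contDiff⟩

theorem Fn2a_phi_id {s : ℝ} (h : 1 / 8 ≤ s) : Fn2a_phi s = s := by
  have h1 : ∫ r in (1 / 8 : ℝ)..s, Fn2a_psi r = ∫ _ in (1 / 8 : ℝ)..s, (1 : ℝ) := by
    apply intervalIntegral.integral_congr
    intro r hr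
    rw [uIcc_of_le h] at hr
    exact Fn2a_psi_one hr.1
  unfold Fn2a_phi
  rw [h1, intervalIntegral.integral_const]
  simp

theorem Fn2a_phi_const {s : ℝ} (h : s ≤ 1 / 32) : Fn2a_phi s = Fn2a_phi (1 / 32) := by
  have h1 : ∫ r in (1 / 32 : ℝ)..s, Fn2a_psi r = 0 := by
    rw [intervalIntegral.integral_congr (g := fun _ => (0 : ℝ))]
    · simp
    · intro r hr
      rw [uIcc_of_ge h] at hr
      exact Fn2a_psi_zero hr.2
  have h2 := intervalIntegral.integral_add_adjacent_intervals (Fn2a_psi_int (1 / 8) (1 / 32))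
    (Fn2a_psi_int (1 / 32) s)
  unfold Fn2a_phi
  linarith

theorem Fn2a_phi_mono : Monotone Fn2a_phi := by
  apply monotone_of_deriv_nonneg Fn2a_phi_differentiable
  intro s
  rw [Fn2a_phi_deriv]
  exact Fn2a_psi_nonneg s

theorem Fn2a_phi_pos : 0 ≤ Fn2a_phi (1 / 32) := by
  have h1 : ∫ r in (1 / 32 : ℝ)..(1 / 8), Fn2a_psi r ≤ ∫ _ in (1 / 32 : ℝ)..(1 / 8), (1 : ℝ) :=
    intervalIntegral.integral_mono_on (by norm_num) (Fn2a_psi_int _ _)
      intervalIntegrable_const (fun r _ => Fn2a_psi_le_one r)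
  rw [intervalIntegral.integral_const] at h1
  have h2 := intervalIntegral.integral_symm (μ := volume) (f := Fn2a_psi) (1 / 8 : ℝ) (1 / 32)
  unfold Fn2a_phi
  simp only [smul_eq_mul, mul_one] at h1
  linarith

theorem exists_cuts : ∃ (φ χ : ℝ → ℝ) (c : ℝ), Cuts φ χ c := by
  refine ⟨Fn2a_phi, fun s => 1 - Real.smoothTransition (16 * s - 1), Fn2a_psi (1 / 16), ?_⟩
  refine
    { sφ := Fn2a_phi_contDiff
      sχ := ?_
      c_pos := Real.smoothTransition.pos_of_pos (by norm_num)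
      nn := ?_
      id := fun s hs => Fn2a_phi_id hs
      const := ?_
      d1 := ?_
      d2 := ?_
      d1c := ?_
      χ1 := ?_
      χ0 := ?_
      χn := ?_ }
  · have h1 : ContDiff ℝ ∞ (fun s : ℝ => 16 * s - 1) := by fun_prop
    exact contDiff_const.sub (Real.smoothTransition.contDiff.comp h1)
  · intro s
    rcases le_total s (1 / 32) with h | h
    · rw [Fn2a_phi_const h]
      exact Fn2a_phi_pos
    · exact Fn2a_phi_pos.trans (Fn2a_phi_mono h)
  · intro s hs
    rw [Fn2a_phi_const hs, Fn2a_phi_const (by norm_num : (0 : ℝ) ≤ 1 / 32)]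
  · intro s
    rw [Fn2a_phi_deriv]
    exact Fn2a_psi_nonneg s
  · intro s
    rw [Fn2a_phi_deriv]
    exact Fn2a_psi_mono.deriv_nonneg
  · intro s hs
    rw [Fn2a_phi_deriv]
    exact Fn2a_psi_mono hs
  · intro s hs
    have h : Real.smoothTransition (16 * s - 1) = 0 :=
      Real.smoothTransition.zero_of_nonpos (by linarith)
    simp only [h, sub_zero]
  · intro s hs
    have h : Real.smoothTransition (16 * s - 1) = 1 :=
      Real.smoothTransition.one_of_one_le (by linarith)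
    simp only [h, sub_self]
  · intro s
    have h1 := Real.smoothTransition.nonneg (16 * s - 1)
    have h2 := Real.smoothTransition.le_one (16 * s - 1)
    constructor <;> linarith

end Pool.Agent.EscG
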