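import Pool.Agent.EscG.Fn1b
import Pool.Agent.EscG.A2b

set_option autoImplicit false

/-!
# EscG geometry, module Fn3: kernels of the regularised energy at unit speed

`reg_ge`: for a control `u` from `x` to `y` on `[a,b]`: `∫ l ≥ ∫ (F - 1/2) ≥ fd F x y - (b-a)/2` (`Reg.ge`, `fd_le_length`,
`le_kerl`; integrability of `l (traj) (u)`: `(TL.cb hr.tl).ii`).
`kerl_reg`: `≥` is `reg_ge`. `≤`: let `ε > 0` and (`exists_energy` in C1.lean, `t = a`, `t' = b`) a control `u` with
`(b-a) ∫ F² ≤ (b-a)² + ε`, so `∫ F² ≤ (b-a) + ε/(b-a)`; `∫ F ≥ b - a` (`fd_le_length`); so `∫ (F-1)² ≤ ε/(b-a)`. Pointwise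
`l ≤ F²/2 + 4 M (F-1)²` (`Reg.eq` for `F ≥ 1/2`; for `F < 1/2`: `l ≤ F²/2 + M` (`tl.l_F`) and `(F-1)² ≥ 1/4`). Hence
`kerl l a b x y ≤ ∫ l ≤ (b-a)/2 + ε/(2(b-a)) + 4 M ε/(b-a)`; `ε → 0`.
-/

noncomputable section

namespace Pool.Agent.EscG

open MeasureTheory Set Filter Topology Esc EscF _root_.EscG
open scoped ContDiff

variable {E : Type*} [NormedAddCommGroup E] [InnerProductSpace ℝ E] [FiniteDimensional ℝ E]
  {β : Module.Basis (Fin 2) ℝ E} {F : E → E → ℝ} {mF MF m m' M : ℝ} {l : E → E → ℝ → ℝ}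

theorem RFins.reg_ge (h : RFins β F mF MF m) (hr : Reg β F mF MF m' M l) {a b : ℝ} (hab : a < b)
    (x y : E) : fd F x y - (b - a) / 2 ≤ kerl l a b x y := by
  refine le_kerl hab x y fun u hu hz => ?_
  have h1 := h.fd_le_length hu hab.le x
  rw [hz] at h1
  have hii := A5a_ii h.fins hu a x a b
  have h2 : ∫ t in a..b, (F (traj a x u t) (u t) - 1 / 2) ≤ actl l a b x u :=
    intervalIntegral.integral_mono_on hab.le (hii.sub (by simp)) ((TL.cb hr.tl).ii hu a x a b)
      fun t _ => hr.ge _ _ _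
  rw [intervalIntegral.integral_sub hii (by simp), intervalIntegral.integral_const, smul_eq_mul] at h2
  linarith

/-- pointwise upper bound of the regularised energy -/
theorem Fn3_upp (hr : Reg β F mF MF m' M l) (x v : E) (t : ℝ) :
    l x v t ≤ F x v ^ 2 / 2 + 4 * M * (F x v - 1) ^ 2 := by
  have hM := hr.tl.M_nonneg
  rcases le_or_gt (1 / 2) (F x v) with h1 | h1
  · rw [hr.eq x v t h1]
    have := mul_nonneg hM (sq_nonneg (F x v - 1))
    linarith
  · have h2 := (abs_le.mp (hr.tl.l_F x v t)).2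
    have h3 : 1 / 4 ≤ (F x v - 1) ^ 2 := by nlinarith
    have h4 := mul_le_mul_of_nonneg_left h3 hM
    linarith

theorem RFins.kerl_reg (h : RFins β F mF MF m) (hr : Reg β F mF MF m' M l) {a b : ℝ} (hab : a < b)
    {x y : E} (hd : fd F x y = b - a) : kerl l a b x y = (b - a) / 2 := by
  have hM := hr.tl.M_nonneg
  have hT : 0 < b - a := by linarith
  apply le_antisymm
  · apply le_of_forall_pos_le_add
    intro η hη
    obtain ⟨ε, hε⟩ : ∃ ε, ε = η * (b - a) / (1 + 4 * M) := ⟨_, rfl⟩
    have hε0 : 0 < ε := by rw [hε]; positivity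
    obtain ⟨u, hu, hz, he⟩ := exists_energy h.fins hab hε0 x y
    rw [hd] at he
    have h1 := h.fd_le_length hu hab.le x
    rw [hz, hd] at h1
    have hii := A5a_ii h.fins hu a x a b
    have hiiQ : IntervalIntegrable (fun r => F (traj a x u r) (u r) ^ 2) volume a b := by
      have := (A5a_iiQ h.fins 0 hu a x a b).const_mul 2
      refine this.congr fun r _ => ?_
      ring
    have h2 : actl l a b x u ≤ ∫ t in a..b, (F (traj a x u t) (u t) ^ 2 / 2 +
        4 * M * (F (traj a x u t) (u t) ^ 2 - 2 * F (traj a x u t) (u t) + 1)) := by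
      refine intervalIntegral.integral_mono_on hab.le ((TL.cb hr.tl).ii hu a x a b) ?_ fun t _ => ?_
      · exact (hiiQ.div_const 2).add (((hiiQ.sub (hii.const_mul 2)).add (by simp)).const_mul (4 * M))
      · have := Fn3_upp hr (traj a x u t) (u t) t
        linarith [this]
    rw [intervalIntegral.integral_add (hiiQ.div_const 2)
        (((hiiQ.sub (hii.const_mul 2)).add (by simp)).const_mul (4 * M)),
      intervalIntegral.integral_div, intervalIntegral.integral_const_mul,
      intervalIntegral.integral_add (hiiQ.sub (hii.const_mul 2)) (by simp),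
      intervalIntegral.integral_sub hiiQ (hii.const_mul 2),
      intervalIntegral.integral_const_mul, intervalIntegral.integral_const, smul_eq_mul] at h2
    have h3 := (TL.cb hr.tl).kerl_le hab hu hz
    obtain ⟨Q, hQ⟩ : ∃ Q, Q = ∫ r in a..b, F (traj a x u r) (u r) ^ 2 := ⟨_, rfl⟩
    obtain ⟨L, hL⟩ : ∃ L, L = ∫ r in a..b, F (traj a x u r) (u r) := ⟨_, rfl⟩
    rw [← hQ] at h2 he
    rw [← hL] at h2 h1
    have h4 : Q ≤ (b - a) + ε / (b - a) := by
      have h5 : (b - a) * ((b - a) + ε / (b - a)) = (b - a) ^ 2 + ε := by field_simp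
      rw [← h5] at he
      exact le_of_mul_le_mul_left he hT
    have h6 : Q - 2 * L + (b - a) * 1 ≤ ε / (b - a) := by linarith
    have h7 := mul_le_mul_of_nonneg_left h6 (by positivity : 0 ≤ 4 * M)
    have h8 : ε / (b - a) = η / (1 + 4 * M) := by rw [hε]; field_simp
    have h9 : 4 * M * (η / (1 + 4 * M)) + η / (1 + 4 * M) = η := by field_simp; ring
    have h10 : 0 < η / (1 + 4 * M) := by positivity
    rw [h8] at h4 h7
    linarith
  · have := h.reg_ge hr hab x y
    rw [hd] at this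
    linarith

end Pool.Agent.EscG
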