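import Pool.Agent.EscG.RDefs
import Pool.Agent.EscG.A1

set_option autoImplicit false

/-!
# EscG geometry: the energy distance of a conformal metric
-/

noncomputable section

namespace Pool.Agent.EscG

open MeasureTheory Set Filter Topology Esc EscF _root_.EscG

set_option linter.unusedSectionVars false

variable {E : Type*} [NormedAddCommGroup E] [InnerProductSpace ℝ E] [FiniteDimensional ℝ E]
  {β : Module.Basis (Fin 2) ℝ E} {ρ : E → ℝ} {mF MF : ℝ}

theorem R1a_grad (ρ : E → ℝ) (x v : E) (t : ℝ) : gu (cl ρ) x v t = ρ x ^ 2 • v := by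
  have h1 : HasGradientAt (fun w => cl ρ x w t) (ρ x ^ 2 • v) v := by
    rw [hasGradientAt_iff_hasFDerivAt]
    have h2 : HasFDerivAt (fun w : E => ‖w‖ ^ 2) (2 • (innerSL ℝ v)) v :=
      (hasStrictFDerivAt_norm_sq v).hasFDerivAt
    have h3 := h2.const_mul (ρ x ^ 2 / 2)
    have e1 : (fun w => cl ρ x w t) = fun w : E => ρ x ^ 2 / 2 * ‖w‖ ^ 2 := by
      ext w; unfold cl; ring
    rw [e1]
    refine h3.congr_fderiv ?_
    ext w
    have e2 : (2 • innerSL ℝ v) w = 2 * inner ℝ v w := by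
      rw [two_smul, two_mul]; rfl
    show (ρ x ^ 2 / 2) * ((2 • innerSL ℝ v) w) = inner ℝ (ρ x ^ 2 • v) w
    rw [e2, real_inner_smul_left]
    ring
  exact h1.gradient

theorem R1a_cont (h : Conf β ρ mF MF) : Continuous (fun p : E × E × ℝ => cl ρ p.1 p.2.1 p.2.2) := by
  have h1 := h.smooth.continuous
  unfold cl
  fun_prop

theorem R1a_cb (h : Conf β ρ mF MF) : CB 0 (cl ρ) where
  cont := R1a_cont h
  low x u t := by
    unfold cl
    have : 0 ≤ ρ x ^ 2 * ‖u‖ ^ 2 / 2 := by positivity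
    linarith

theorem R1a_pos (h : Conf β ρ mF MF) (x : E) : 0 < ρ x := h.mF_pos.trans_le (h.low x)

theorem Conf.tl (h : Conf β ρ mF MF) : TL β (fun x v => ρ x * ‖v‖) mF MF (mF ^ 2) 0 (cl ρ) where
  fins :=
    { mF_pos := h.mF_pos
      mF_le := (h.low 0).trans (h.upp 0)
      cont := by
        have h1 := h.smooth.continuous
        fun_prop
      per := fun i x v => by rw [h.per]
      hom := fun x v c hc => by
        rw [norm_smul, Real.norm_of_nonneg hc]; ring
      low := fun x v => mul_le_mul_of_nonneg_right (h.low x) (norm_nonneg v)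
      upp := fun x v => mul_le_mul_of_nonneg_right (h.upp x) (norm_nonneg v) }
  m_pos := by have := h.mF_pos; positivity
  M_nonneg := le_rfl
  smooth := by
    have h1 : ContDiff ℝ 2 (fun p : E × E × ℝ => ρ p.1) := h.smooth.comp contDiff_fst
    have h2 : ContDiff ℝ 2 (fun p : E × E × ℝ => ‖p.2.1‖ ^ 2) :=
      (contDiff_fst.comp contDiff_snd).norm_sq ℝ
    exact ((h1.pow 2).mul h2).div_const 2
  per i x v t := by unfold cl; rw [h.per]
  pert x v t := rfl
  conv x u v t := by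
    rw [R1a_grad]
    have h1 : mF ^ 2 ≤ ρ x ^ 2 := pow_le_pow_left₀ h.mF_pos.le (h.low x) 2
    have h2 : ‖u‖ ^ 2 = ‖v‖ ^ 2 + 2 * inner ℝ v (u - v) + ‖u - v‖ ^ 2 := by
      have := norm_add_sq_real v (u - v)
      rw [add_sub_cancel] at this
      exact this
    unfold cl
    rw [real_inner_smul_left, h2]
    have h3 : 0 ≤ ‖u - v‖ ^ 2 := by positivity
    nlinarith [mul_le_mul_of_nonneg_right h1 h3]
  l_t x v t t' := by unfold cl; simp
  l_F x v t := by unfold cl; rw [mul_pow]; simp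

/-! ### changes of time -/

theorem R1a_traj (a c d : ℝ) (z : E) (u : ℝ → E) (t : ℝ) :
    traj a z (fun s => c • u (c * s + d)) t = traj (c * a + d) z u (c * t + d) := by
  unfold traj
  rw [intervalIntegral.integral_smul, intervalIntegral.smul_integral_comp_mul_add]

theorem R1a_adm {u : ℝ → E} (hu : Adm u) (c d : ℝ) : Adm (fun s => c • u (c * s + d)) := by
  obtain ⟨hm, C, hC⟩ := hu
  refine ⟨(hm.comp_measurable (by fun_prop)).const_smul c, |c| * C, fun t => ?_⟩
  rw [norm_smul, Real.norm_eq_abs]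
  exact mul_le_mul_of_nonneg_left (hC _) (abs_nonneg c)

theorem R1a_act (ρ : E → ℝ) (a b c d : ℝ) (z : E) (u : ℝ → E) :
    actl (cl ρ) a b z (fun s => c • u (c * s + d)) =
      c * ∫ t in (c * a + d)..(c * b + d), cl ρ (traj (c * a + d) z u t) (u t) t := by
  unfold actl
  have e1 : (fun t => cl ρ (traj a z (fun s => c • u (c * s + d)) t) (c • u (c * t + d)) t) =
      fun t => c * (c * (fun s => cl ρ (traj (c * a + d) z u s) (u s) s) (c * t + d)) := by
    ext t
    rw [R1a_traj]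
    unfold cl
    rw [norm_smul, mul_pow, Real.norm_eq_abs, sq_abs]
    ring
  rw [e1, intervalIntegral.integral_const_mul, intervalIntegral.integral_const_mul]
  have e2 := intervalIntegral.smul_integral_comp_mul_add
    (fun s => cl ρ (traj (c * a + d) z u s) (u s) s) c d (a := a) (b := b)
  rw [smul_eq_mul] at e2
  rw [e2]

theorem R1a_le (h : Conf β ρ mF MF) {a b c d : ℝ} (hab : a < b) (hc : 0 < c) (x y : E) :
    kerl (cl ρ) a b x y ≤ c * kerl (cl ρ) (c * a + d) (c * b + d) x y := by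
  have hab' : c * a + d < c * b + d := by nlinarith
  have h1 : kerl (cl ρ) a b x y / c ≤ kerl (cl ρ) (c * a + d) (c * b + d) x y := by
    apply le_kerl hab'
    intro u hu hz
    rw [div_le_iff₀ hc, mul_comm]
    have h2 := (R1a_cb h).kerl_le hab (z := x) (z' := y) (R1a_adm hu c d) (by rw [R1a_traj, hz])
    rw [R1a_act] at h2
    exact h2
  rw [div_le_iff₀ hc] at h1
  linarith

theorem R1a_nn (h : Conf β ρ mF MF) {a b : ℝ} (hab : a < b) (x y : E) :
    0 ≤ kerl (cl ρ) a b x y := by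
  have := (R1a_cb h).kerl_ge hab x y
  linarith

theorem R1a_sq (h : Conf β ρ mF MF) (x y : E) : ed ρ x y ^ 2 = 2 * kerl (cl ρ) 0 1 x y := by
  unfold ed
  exact Real.sq_sqrt (by have := R1a_nn h (by norm_num : (0 : ℝ) < 1) x y; linarith)

theorem R1a_ed_nn (ρ : E → ℝ) (x y : E) : 0 ≤ ed ρ x y := Real.sqrt_nonneg _

theorem Conf.kerl_eq (h : Conf β ρ mF MF) {a b : ℝ} (hab : a < b) (x y : E) :
    kerl (cl ρ) a b x y = ed ρ x y ^ 2 / (2 * (b - a)) := by
  have hba : 0 < b - a := by linarith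
  rw [R1a_sq h]
  have h1 := R1a_le h (d := -a / (b - a)) hab (one_div_pos.2 hba) x y
  have e1 : 1 / (b - a) * a + -a / (b - a) = 0 := by field_simp; ring
  have e2 : 1 / (b - a) * b + -a / (b - a) = 1 := by field_simp; ring
  rw [e1, e2] at h1
  have h2 := R1a_le h (d := a) (by norm_num : (0 : ℝ) < 1) hba x y
  have e3 : (b - a) * 0 + a = a := by ring
  have e4 : (b - a) * 1 + a = b := by ring
  rw [e3, e4] at h2
  rw [eq_div_iff (by positivity)]
  apply le_antisymm
  · rw [one_div, inv_mul_eq_div, le_div_iff₀ hba] at h1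
    nlinarith
  · nlinarith

theorem R1a_symm_le (h : Conf β ρ mF MF) (x y : E) :
    kerl (cl ρ) 0 1 y x ≤ kerl (cl ρ) 0 1 x y := by
  apply le_kerl (by norm_num : (0 : ℝ) < 1)
  intro u hu hz
  have e0 : (-1 : ℝ) * 0 + 1 = 1 := by norm_num
  have e1 : (-1 : ℝ) * 1 + 1 = 0 := by norm_num
  have htr : ∀ t, traj 1 y u t = traj 0 x u t := by
    intro t
    rw [← hz]
    exact (traj_split hu 0 1 x t).symm
  have h2 := (R1a_cb h).kerl_le (by norm_num : (0 : ℝ) < 1) (z := y) (z' := x) (R1a_adm hu (-1) 1)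
    (by
      rw [R1a_traj, e0, e1, htr]
      unfold traj
      simp)
  rw [R1a_act, e0, e1] at h2
  rw [intervalIntegral.integral_symm] at h2
  have h3 : (∫ t in (0 : ℝ)..1, cl ρ (traj 1 y u t) (u t) t) = actl (cl ρ) 0 1 x u := by
    unfold actl
    simp_rw [htr]
  rw [h3] at h2
  linarith

theorem Conf.ed_symm (h : Conf β ρ mF MF) (x y : E) : ed ρ x y = ed ρ y x := by
  unfold ed
  rw [le_antisymm (R1a_symm_le h x y) (R1a_symm_le h y x)]

theorem R1a_low_kerl (h : Conf β ρ mF MF) (x y : E) :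
    mF ^ 2 * ‖y - x‖ ^ 2 / 2 ≤ kerl (cl ρ) 0 1 x y := by
  apply le_kerl (by norm_num : (0 : ℝ) < 1)
  intro u hu hz
  have h1 := jensen hu (by norm_num : (0 : ℝ) < 1)
  have h2 : (∫ t in (0 : ℝ)..1, u t) = y - x := by
    rw [← hz]; unfold traj; abel
  rw [h2] at h1
  have h3 : (∫ t in (0 : ℝ)..1, mF ^ 2 * (‖u t‖ ^ 2 / 2)) ≤ actl (cl ρ) 0 1 x u := by
    apply intervalIntegral.integral_mono_on (by norm_num) ((hu.sq_ii 0 1).const_mul _)
      ((R1a_cb h).ii hu 0 x 0 1)
    intro t _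
    unfold cl
    have h4 : mF ^ 2 ≤ ρ (traj 0 x u t) ^ 2 := pow_le_pow_left₀ h.mF_pos.le (h.low _) 2
    have h5 : 0 ≤ ‖u t‖ ^ 2 / 2 := by positivity
    have := mul_le_mul_of_nonneg_right h4 h5
    linarith
  rw [intervalIntegral.integral_const_mul] at h3
  have h6 : 0 < mF ^ 2 := by have := h.mF_pos; positivity
  have h7 : mF ^ 2 * (‖y - x‖ ^ 2 / 2) ≤ mF ^ 2 * ∫ t in (0 : ℝ)..1, ‖u t‖ ^ 2 / 2 := by
    apply mul_le_mul_of_nonneg_left _ h6.le
    refine le_trans (le_of_eq ?_) h1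
    norm_num
  linarith

theorem Conf.ed_low (h : Conf β ρ mF MF) (x y : E) : mF * ‖x - y‖ ≤ ed ρ x y := by
  have h1 := R1a_low_kerl h x y
  have h2 := R1a_sq h x y
  rw [norm_sub_rev]
  apply le_of_sq_le_sq _ (R1a_ed_nn ρ x y)
  rw [mul_pow, h2]
  linarith

/-- the straight segment -/
theorem R1a_seg (h : Conf β ρ mF MF) (x y : E) {c : ℝ} (hc : 0 ≤ c)
    (hle : ∀ t ∈ Icc (0 : ℝ) 1, ρ (x + t • (y - x)) ≤ c) : ed ρ x y ≤ c * ‖y - x‖ := by
  have htr : ∀ t, traj 0 x (fun _ => y - x) t = x + t • (y - x) := by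
    intro t; unfold traj; simp [smul_sub]
  have h1 := (R1a_cb h).kerl_le (by norm_num : (0 : ℝ) < 1) (z := x) (z' := y)
    (Adm.const (y - x)) (by rw [htr]; simp)
  have h2 : actl (cl ρ) 0 1 x (fun _ => y - x) ≤ ∫ t in (0 : ℝ)..1, c ^ 2 * ‖y - x‖ ^ 2 / 2 := by
    apply intervalIntegral.integral_mono_on (by norm_num)
      ((R1a_cb h).ii (Adm.const (y - x)) 0 x 0 1) (by simp)
    intro t ht
    rw [htr]
    unfold cl
    have h4 : ρ (x + t • (y - x)) ^ 2 ≤ c ^ 2 :=
      pow_le_pow_left₀ (R1a_pos h _).le (hle t ht) 2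
    have h5 : 0 ≤ ‖y - x‖ ^ 2 := by positivity
    have := mul_le_mul_of_nonneg_right h4 h5
    linarith
  have h3 : (∫ t in (0 : ℝ)..1, c ^ 2 * ‖y - x‖ ^ 2 / 2) = c ^ 2 * ‖y - x‖ ^ 2 / 2 := by simp
  rw [h3] at h2
  apply le_of_sq_le_sq _ (by positivity)
  rw [R1a_sq h, mul_pow]
  linarith

theorem Conf.ed_upp (h : Conf β ρ mF MF) (x y : E) : ed ρ x y ≤ MF * ‖x - y‖ := by
  rw [norm_sub_rev]
  exact R1a_seg h x y ((R1a_pos h x).le.trans (h.upp x)) (fun t _ => h.upp _)

theorem R1a_ed_self (h : Conf β ρ mF MF) (x : E) : ed ρ x x = 0 := by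
  apply le_antisymm _ (R1a_ed_nn ρ x x)
  have := h.ed_upp x x
  simpa using this

theorem R1a_eq_of_ed (h : Conf β ρ mF MF) {x y : E} (he : ed ρ x y = 0) : x = y := by
  have h1 := h.ed_low x y
  rw [he] at h1
  have h2 : ‖x - y‖ ≤ 0 := by
    by_contra h3
    push Not at h3
    have := mul_pos h.mF_pos h3
    linarith
  exact sub_eq_zero.1 (norm_le_zero_iff.1 h2)

theorem R1a_alg {p q : ℝ} (hp : 0 < p) (hq : 0 < q) :
    p ^ 2 / (2 * (p / (p + q) - 0)) + q ^ 2 / (2 * (1 - p / (p + q))) = (p + q) ^ 2 / 2 := by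
  have h1 : p ≠ 0 := hp.ne'
  have h2 : q ≠ 0 := hq.ne'
  have h3 : p + q ≠ 0 := by positivity
  have e2 : 1 - p / (p + q) = q / (p + q) := by field_simp; ring
  have e3 : p ^ 2 / (2 * (p / (p + q) - 0)) = p * (p + q) / 2 := by
    rw [sub_zero]; field_simp
  have e4 : q ^ 2 / (2 * (q / (p + q))) = q * (p + q) / 2 := by
    field_simp
  rw [e2, e3, e4]
  ring

theorem Conf.ed_tri (h : Conf β ρ mF MF) (x y z : E) : ed ρ x z ≤ ed ρ x y + ed ρ y z := by
  have n1 := R1a_ed_nn ρ x y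
  have n2 := R1a_ed_nn ρ y z
  rcases n1.eq_or_lt with h1 | h1
  · rw [← R1a_eq_of_ed h h1.symm, R1a_ed_self h, zero_add]
  rcases n2.eq_or_lt with h2 | h2
  · rw [← R1a_eq_of_ed h h2.symm, R1a_ed_self h, add_zero]
  set p := ed ρ x y with hp
  set q := ed ρ y z with hq
  have hs0 : 0 < p / (p + q) := by positivity
  have hs1 : p / (p + q) < 1 := by rw [div_lt_one (by positivity)]; linarith
  have h3 := (R1a_cb h).kerl_le_add hs0 hs1 x y z
  rw [h.kerl_eq (by norm_num : (0 : ℝ) < 1), h.kerl_eq hs0, h.kerl_eq hs1, ← hp, ← hq] at h3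
  rw [R1a_alg h1 h2] at h3
  apply le_of_sq_le_sq _ (by positivity)
  linarith

theorem Conf.ed_per (h : Conf β ρ mF MF) (i : Fin 2) (x y : E) :
    ed ρ (x + β i) (y + β i) = ed ρ x y := by
  unfold ed
  rw [kerl_shift]
  intro x u t
  unfold cl
  rw [h.per]

/-- a continuous periodic function is bounded -/
theorem R1a_bdd (β : Module.Basis (Fin 2) ℝ E) {g : E → ℝ} (hg : Continuous g)
    (hp : ∀ i x, g (x + β i) = g x) : ∃ C : ℝ, 0 ≤ C ∧ ∀ x, g x ≤ C := by
  have hcomp : IsCompact (closure (ZSpan.fundamentalDomain β)) :=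
    (ZSpan.fundamentalDomain_isBounded β).isCompact_closure
  obtain ⟨C, hC⟩ := hcomp.exists_bound_of_continuousOn hg.continuousOn
  refine ⟨|C|, abs_nonneg C, fun x => ?_⟩
  have hper : ∀ w ∈ Submodule.span ℤ (Set.range β), ∀ x, g (x + w) = g x := by
    intro w hw
    induction hw using Submodule.span_induction with
    | mem w hw =>
      obtain ⟨i, rfl⟩ := hw
      exact hp i
    | zero => intro x; rw [add_zero]
    | add a b _ _ ha hb => intro x; rw [← add_assoc, hb, ha]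
    | smul n a _ ha =>
      intro x
      induction n using Int.induction_on generalizing x with
      | zero => rw [zero_smul, add_zero]
      | succ n ih => rw [add_smul, one_smul, ← add_assoc, ha, ih]
      | pred n ih =>
        rw [sub_smul, one_smul]
        have := ha (x + ((-(n : ℤ)) • a - a))
        rw [← this, add_assoc, sub_add_cancel, ih]
  have h1 : x = ZSpan.fract β x + (ZSpan.floor β x : E) := by
    rw [ZSpan.fract_apply]; abel
  rw [h1, hper _ (ZSpan.floor β x).2]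
  have h2 := hC _ (subset_closure (ZSpan.fract_mem_fundamentalDomain β x))
  rw [Real.norm_eq_abs] at h2
  exact (le_abs_self _).trans (h2.trans (le_abs_self _))

theorem Conf.lip (h : Conf β ρ mF MF) : ∃ L : ℝ, 0 ≤ L ∧ ∀ x y, |ρ y - ρ x| ≤ L * ‖y - x‖ := by
  have hper : ∀ i x, ‖fderiv ℝ ρ (x + β i)‖ = ‖fderiv ℝ ρ x‖ := by
    intro i x
    have h1 : (fun y => ρ (y + β i)) = ρ := funext (h.per i)
    have h2 := fderiv_comp_add_right (𝕜 := ℝ) (f := ρ) (x := x) (β i)
    rw [h1] at h2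
    rw [← h2]
  obtain ⟨L, hL0, hL⟩ := R1a_bdd β ((h.smooth.continuous_fderiv (by norm_num)).norm) hper
  refine ⟨L, hL0, fun x y => ?_⟩
  have h3 := Convex.norm_image_sub_le_of_norm_fderiv_le (𝕜 := ℝ) (f := ρ) (s := Set.univ) (C := L)
    (fun z _ => (h.smooth.differentiable (by norm_num)) z) (fun z _ => hL z) convex_univ
    (mem_univ x) (mem_univ y)
  rwa [Real.norm_eq_abs] at h3

theorem Conf.ed_loc (h : Conf β ρ mF MF) {L : ℝ} (hL : ∀ x y, |ρ y - ρ x| ≤ L * ‖y - x‖) (x y : E) :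
    ed ρ x y ≤ (ρ x + L * ‖y - x‖) * ‖y - x‖ := by
  have h0 : 0 ≤ L * ‖y - x‖ := (abs_nonneg _).trans (hL x y)
  apply R1a_seg h x y (by have := R1a_pos h x; linarith)
  intro t ht
  have h1 := (abs_le.1 (hL x (x + t • (y - x)))).2
  rw [add_sub_cancel_left, norm_smul, Real.norm_of_nonneg ht.1] at h1
  have h2 : L * (t * ‖y - x‖) = t * (L * ‖y - x‖) := by ring
  rw [h2] at h1
  have h3 : t * (L * ‖y - x‖) ≤ 1 * (L * ‖y - x‖) := mul_le_mul_of_nonneg_right ht.2 h0
  linarith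

end Pool.Agent.EscG
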