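import Pool.Agent.EscF.O4
import Pool.Agent.EscF.O5
import Pool.Agent.EscG.R1a
import Pool.Agent.EscG.A2c
import Pool.Agent.EscG.A3b

set_option autoImplicit false

/-!
# EscG geometry: isometric curves of a conformal metric

`exists_iso`: a minimizer of `kerl (cl ρ) 0 D x y`, `D = ed x y`, is isometric.
`iso_gode`: an isometric curve is a kernel geodesic of the cut-off Lagrangian, so it is of class
`C^{1,1}` and satisfies the Euler-Lagrange equation.
-/

noncomputable section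

namespace Pool.Agent.EscG

open MeasureTheory Set Filter Topology Esc EscF _root_.EscG

/-! ### one variable -/

theorem R1b_cont {X : Type*} [NormedAddCommGroup X] {a c C : ℝ} {v : ℝ → X}
    (hv : ∀ s ∈ Icc a c, ∀ t ∈ Icc a c, ‖v t - v s‖ ≤ C * |t - s|) : ContinuousOn v (Icc a c) := by
  have h1 : LipschitzOnWith (Real.toNNReal C) v (Icc a c) := by
    refine LipschitzOnWith.of_dist_le_mul fun t ht s hs => ?_
    rw [dist_eq_norm, Real.dist_eq]
    refine (hv s hs t ht).trans ?_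
    exact mul_le_mul_of_nonneg_right (Real.le_coe_toNNReal C) (abs_nonneg _)
  exact h1.continuousOn

theorem R1b_ftc {X : Type*} [NormedAddCommGroup X] [NormedSpace ℝ X] [CompleteSpace X] {a c : ℝ}
    (hac : a ≤ c) {F f : ℝ → X} (hf : ContinuousOn f (Icc a c))
    (h : ∀ t ∈ Icc a c, F t - F a = ∫ r in a..t, f r) :
    ∀ t ∈ Icc a c, HasDerivWithinAt F (f t) (Icc a c) t := by
  intro t ht
  set g : ℝ → X := IccExtend hac ((Icc a c).domRestrict f) with hg
  have hgc : Continuous g := (continuousOn_iff_continuous_domRestrict.1 hf).Icc_extend'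
  have hge : ∀ r ∈ Icc a c, g r = f r := fun r hr => by
    rw [hg, IccExtend_of_mem hac _ hr]
    rfl
  have h1 : HasDerivAt (fun t => F a + ∫ r in a..t, g r) (g t) t := by
    have h2 := intervalIntegral.integral_hasDerivAt_right (hgc.intervalIntegrable a t)
      hgc.stronglyMeasurable.stronglyMeasurableAtFilter hgc.continuousAt
    exact h2.const_add (F a)
  rw [hge t ht] at h1
  have h3 : ∀ s ∈ Icc a c, F s = F a + ∫ r in a..s, g r := by
    intro s hs
    have h2 : ∫ r in a..s, g r = ∫ r in a..s, f r := by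
      refine intervalIntegral.integral_congr fun r hr => ?_
      rw [uIcc_of_le hs.1] at hr
      exact hge r ⟨hr.1, hr.2.trans hs.2⟩
    rw [h2, ← h s hs]
    abel
  exact h1.hasDerivWithinAt.congr h3 (h3 t ht)

theorem R1b_speed {X : Type*} [NormedAddCommGroup X] [NormedSpace ℝ X] {a c C : ℝ} (hac : a < c)
    {F : ℝ → X} (hF : ∀ s ∈ Icc a c, ∀ t ∈ Icc a c, ‖F t - F s‖ ≤ C * |t - s|) {t : ℝ}
    (ht : t ∈ Icc a c) {f : X} (hf : HasDerivWithinAt F f (Icc a c) t) : ‖f‖ ≤ C := by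
  have h1 := hasDerivWithinAt_iff_tendsto_slope.1 hf
  have h2 : (𝓝[Icc a c \ {t}] t).NeBot :=
    accPt_principal_iff_nhdsWithin.1 (uniqueDiffWithinAt_iff_accPt.1 (uniqueDiffOn_Icc hac t ht))
  refine le_of_tendsto h1.norm ?_
  filter_upwards [self_mem_nhdsWithin] with s hs
  have hst : s - t ≠ 0 := sub_ne_zero.2 hs.2
  rw [slope_def_module, norm_smul, norm_inv, Real.norm_eq_abs, inv_mul_le_iff₀ (abs_pos.2 hst),
    mul_comm]
  exact hF t ht s hs.1

/-! ### the conformal Lagrangian -/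

variable {E : Type*} [NormedAddCommGroup E] [InnerProductSpace ℝ E] [FiniteDimensional ℝ E]
  {β : Module.Basis (Fin 2) ℝ E} {ρ : E → ℝ} {mF MF : ℝ}

theorem R1b_gu (ρ : E → ℝ) (x v : E) (t : ℝ) : gu (cl ρ) x v t = ρ x ^ 2 • v := by
  have h1 : HasGradientAt (fun w : E => cl ρ x w t) (ρ x ^ 2 • v) v := by
    rw [hasGradientAt_iff_hasFDerivAt]
    have h2 := ((hasStrictFDerivAt_norm_sq v).hasFDerivAt.const_mul (ρ x ^ 2 / 2))
    refine (h2.congr_fderiv ?_).congr_of_eventuallyEq (Eventually.of_forall fun w => ?_)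
    · ext w
      simp only [_root_.smul_apply, innerSL_apply_apply, smul_eq_mul,
        InnerProductSpace.toDual_apply_apply, inner_smul_left, conj_trivial]
      simp only [nsmul_eq_mul]
      push_cast
      ring
    · show ρ x ^ 2 * ‖w‖ ^ 2 / 2 = ρ x ^ 2 / 2 * ‖w‖ ^ 2
      ring
  exact h1.gradient

theorem R1b_gx {ρ : E → ℝ} (hρ : Differentiable ℝ ρ) (x v : E) (t : ℝ) :
    gx (cl ρ) x v t = (ρ x * ‖v‖ ^ 2) • gradient ρ x := by
  have h1 : HasGradientAt (fun y : E => cl ρ y v t) ((ρ x * ‖v‖ ^ 2) • gradient ρ x) x := by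
    rw [hasGradientAt_iff_hasFDerivAt]
    have h2 := ((hρ x).hasGradientAt.hasFDerivAt.pow 2).const_mul (‖v‖ ^ 2 / 2)
    refine (h2.congr_fderiv ?_).congr_of_eventuallyEq (Eventually.of_forall fun w => ?_)
    · ext w
      simp only [_root_.smul_apply, smul_eq_mul,
        InnerProductSpace.toDual_apply_apply, inner_smul_left, conj_trivial]
      simp only [nsmul_eq_mul]
      push_cast
      ring
    · show ρ w ^ 2 * ‖v‖ ^ 2 / 2 = ‖v‖ ^ 2 / 2 * ρ w ^ 2
      ring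
  exact h1.gradient

omit [InnerProductSpace ℝ E] [FiniteDimensional ℝ E] in
theorem R1b_comp {G : E → E → ℝ → E} (hG : Continuous (fun p : E × E × ℝ => G p.1 p.2.1 p.2.2))
    {Z v : ℝ → E} {s : Set ℝ} (hZ : ContinuousOn Z s) (hv : ContinuousOn v s) :
    ContinuousOn (fun r => G (Z r) (v r) r) s :=
  hG.comp_continuousOn (hZ.prodMk (hv.prodMk continuousOn_id))

theorem R1b_self (h : Conf β ρ mF MF) (p : E) : ed ρ p p = 0 := by
  have h1 := h.ed_upp p p
  rw [sub_self, norm_zero, mul_zero] at h1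
  exact le_antisymm h1 (Real.sqrt_nonneg _)

theorem Conf.exists_iso (h : Conf β ρ mF MF) (x y : E) :
    ∃ Z : ℝ → E, Z 0 = x ∧ Z (ed ρ x y) = y ∧ Iso ρ Z 0 (ed ρ x y) := by
  set D := ed ρ x y with hD
  have hD0 : 0 ≤ D := Real.sqrt_nonneg _
  rcases hD0.eq_or_lt with h0 | hpos
  · have hxy : x = y := by
      have h1 := h.ed_low x y
      rw [← hD, ← h0] at h1
      have h2 : ‖x - y‖ ≤ 0 := by
        by_contra h3
        have := mul_pos h.mF_pos (not_le.1 h3)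
        linarith
      exact sub_eq_zero.1 (norm_le_zero_iff.1 h2)
    refine ⟨fun _ => x, rfl, hxy, ?_⟩
    intro s hs t ht
    rw [← h0] at hs ht
    have hs0 : s = 0 := le_antisymm hs.2 hs.1
    have ht0 : t = 0 := le_antisymm ht.2 ht.1
    rw [hs0, ht0, sub_self, abs_zero]
    exact R1b_self h x
  obtain ⟨V, -, hgeo⟩ := exists_geo (E := E) MF (mF ^ 2) 0 ‖y - x‖ (T1 := D)
    (pow_pos h.mF_pos 2) hpos
  obtain ⟨⟨Z, v, hZ0, hZD, hG⟩, -⟩ := hgeo h.tl (a := 0) (b := D) (by simp) (by simp) (z := x)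
    (z' := y) le_rfl
  refine ⟨Z, hZ0, hZD, ?_⟩
  -- the kernel along the curve
  have hadd : ∀ s t r, 0 ≤ s → s ≤ t → t ≤ r → r ≤ D →
      kerl (cl ρ) s t (Z s) (Z t) + kerl (cl ρ) t r (Z t) (Z r) = kerl (cl ρ) s r (Z s) (Z r) := by
    intro s t r hs hst htr hr
    rcases hst.eq_or_lt with rfl | h1
    · rw [O3.kerl_self, zero_add]
    rcases htr.eq_or_lt with rfl | h2
    · rw [O3.kerl_self, add_zero]
    exact Geo.add h.tl (hG.restrict hs hr) h1 h2
  have hlow : ∀ s t, s ≤ t →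
      ed ρ (Z s) (Z t) - (t - s) / 2 ≤ kerl (cl ρ) s t (Z s) (Z t) := by
    intro s t hst
    rcases hst.eq_or_lt with rfl | h1
    · rw [O3.kerl_self, R1b_self h]
      simp
    · have h2 : 0 < t - s := sub_pos.2 h1
      rw [h.kerl_eq h1, le_div_iff₀ (by positivity)]
      nlinarith [sq_nonneg (ed ρ (Z s) (Z t) - (t - s))]
  have e0 : kerl (cl ρ) 0 D (Z 0) (Z D) = D / 2 := by
    rw [h.kerl_eq hpos, hZ0, hZD, ← hD, sub_zero]
    field_simp
  have key : ∀ s t, 0 ≤ s → s < t → t ≤ D → ed ρ (Z s) (Z t) = t - s := by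
    intro s t hs hst ht
    have hts : 0 < t - s := sub_pos.2 hst
    have k1 := hlow 0 s hs
    have k2 := hlow s t hst.le
    have k3 := hlow t D ht
    have a1 := hadd 0 s t le_rfl hs hst.le ht
    have a2 := hadd 0 t D le_rfl (hs.trans hst.le) ht le_rfl
    have t1 := h.ed_tri (Z 0) (Z s) (Z t)
    have t2 := h.ed_tri (Z 0) (Z t) (Z D)
    have hDD : ed ρ (Z 0) (Z D) = D := by rw [hZ0, hZD]
    have e1 := h.kerl_eq hst (Z s) (Z t)
    have e2 : kerl (cl ρ) s t (Z s) (Z t) = ed ρ (Z s) (Z t) - (t - s) / 2 := by linarith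
    rw [e1, div_eq_iff (by positivity)] at e2
    have e3 : (ed ρ (Z s) (Z t) - (t - s)) ^ 2 = 0 := by nlinarith
    have e4 := pow_eq_zero_iff (two_ne_zero) |>.1 e3
    linarith
  intro s hs t ht
  rcases lt_trichotomy s t with h1 | h1 | h1
  · rw [key s t hs.1 h1 ht.2, abs_sub_comm, abs_of_pos (sub_pos.2 h1)]
  · rw [h1, R1b_self h, sub_self, abs_zero]
  · rw [h.ed_symm, key t s ht.1 h1 hs.2, abs_of_pos (sub_pos.2 h1)]

theorem Conf.iso_gode (h : Conf β ρ mF MF) {Z : ℝ → E} {a c : ℝ} (hac : a < c) (hZ : Iso ρ Z a c) :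
    ∃ v : ℝ → E, Gode ρ Z v a c := by
  have htl := h.tl
  have hmF := h.mF_pos
  have ha : a ∈ Icc a c := ⟨le_rfl, hac.le⟩
  have hlip : ∀ s ∈ Icc a c, ∀ t ∈ Icc a c, ‖Z t - Z s‖ ≤ 1 / mF * |t - s| := by
    intro s hs t ht
    have h1 := h.ed_low (Z t) (Z s)
    rw [hZ t ht s hs] at h1
    rw [div_mul_eq_mul_div, one_mul, le_div_iff₀ hmF]
    linarith
  -- the kernels of `cl ρ`
  have hk : ∀ s t, a ≤ s → s < t → t ≤ c → kerl (cl ρ) s t (Z s) (Z t) = (t - s) / 2 := by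
    intro s t h1 h2 h3
    have h4 : 0 < t - s := sub_pos.2 h2
    rw [h.kerl_eq h2, hZ s ⟨h1, h2.le.trans h3⟩ t ⟨h1.trans h2.le, h3⟩, sq_abs]
    field_simp
    ring
  obtain ⟨V, hV, hgeo⟩ := exists_geo (E := E) MF (mF ^ 2) 0 ‖Z c - Z a‖ (T1 := c - a)
    (pow_pos hmF 2) (sub_pos.2 hac)
  obtain ⟨-, hcut⟩ := hgeo htl (a := a) (b := c) le_rfl le_rfl (z := Z a) (z' := Z c) le_rfl
  obtain ⟨l', lx', lu', Λ, hc⟩ := htl.exists_cut (max V (1 / mF))
  have hck := hc.cl.toCK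
  have hC1 : 0 ≤ C1 MF (mF ^ 2) 0 := by
    unfold C1
    positivity
  have cb1 : CB (C1 MF (mF ^ 2) 0) (cl ρ) := ⟨htl.cb.cont, fun x u t => by
    have : 0 ≤ cl ρ x u t := by
      unfold cl
      positivity
    linarith⟩
  have cb2 : CB (C1 MF (mF ^ 2) 0) l' := ⟨hck.cont, fun x u t => by
    have h1 := hc.low x u t
    have h2 : 0 ≤ mF ^ 2 / 4 * ‖u‖ ^ 2 := by positivity
    linarith⟩
  have hkac : kerl l' a c (Z a) (Z c) = (c - a) / 2 :=
    (hcut hc (le_max_left _ _)).symm.trans (hk a c le_rfl hac le_rfl)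
  have hle : ∀ s t, a ≤ s → s ≤ t → t ≤ c → kerl l' s t (Z s) (Z t) ≤ (t - s) / 2 := by
    intro s t h1 h2 h3
    rcases h2.eq_or_lt with rfl | h4
    · rw [O3.kerl_self]
      simp
    · rw [← hk s t h1 h4 h3]
      exact cb2.kerl_mono cb1 hc.le h4 _ _
  have hEq : ∀ s t, a ≤ s → s ≤ t → t ≤ c → kerl l' s t (Z s) (Z t) = (t - s) / 2 := by
    intro s t h1 h2 h3
    have k1 := O3.kerl_le_add' hck (h1.trans h2) h3 Z
    have k2 := O3.kerl_le_add' hck h1 h2 Z
    have k3 := hle a s le_rfl h1 (h2.trans h3)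
    have k4 := hle s t h1 h2 h3
    have k5 := hle t c (h1.trans h2) h3 le_rfl
    linarith
  have hKG : ∀ s t, a ≤ s → s < t → t ≤ c → KGeo l' s t Z := by
    intro s t h1 h2 h3
    refine ⟨⟨(1 / mF) ^ 2 * (t - s), fun p hp q hq => ?_⟩, fun p q hp hpq hq => ?_⟩
    · have e1 := hlip p ⟨h1.trans hp.1, hp.2.trans h3⟩ q ⟨h1.trans hq.1, hq.2.trans h3⟩
      have e2 : |q - p| ≤ t - s := abs_sub_le_iff.2 ⟨by linarith [hp.1, hq.2], by linarith [hp.2, hq.1]⟩
      have e3 : ‖Z q - Z p‖ ^ 2 ≤ (1 / mF * |q - p|) ^ 2 :=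
        pow_le_pow_left₀ (norm_nonneg _) e1 2
      have e4 : (1 / mF * |q - p|) ^ 2 = (1 / mF) ^ 2 * |q - p| * |q - p| := by ring
      rw [e4] at e3
      refine e3.trans ?_
      have e5 : (1 / mF) ^ 2 * |q - p| ≤ (1 / mF) ^ 2 * (t - s) :=
        mul_le_mul_of_nonneg_left e2 (by positivity)
      exact mul_le_mul_of_nonneg_right e5 (abs_nonneg _)
    · rw [hEq s p h1 hp (hpq.trans (hq.trans h3)), hEq p q (h1.trans hp) hpq (hq.trans h3),
        hEq q t (h1.trans (hp.trans hpq)) hq h3, hEq s t h1 h2.le h3]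
      ring
  obtain ⟨v, ⟨Cv, hv⟩, hint⟩ := kgeo_c11 hc.cl hac (hKG a c le_rfl hac le_rfl)
  have hvc : ContinuousOn v (Icc a c) := R1b_cont hv
  have hdZ : ∀ t ∈ Icc a c, HasDerivWithinAt Z (v t) (Icc a c) t :=
    R1b_ftc hac.le hvc fun t ht => hint a ha t ht
  have hZc : ContinuousOn Z (Icc a c) := fun t ht => (hdZ t ht).continuousWithinAt
  have hvb : ∀ t ∈ Icc a c, ‖v t‖ ≤ 1 / mF := fun t ht => R1b_speed hac hlip ht (hdZ t ht)
  have hvR : ∀ t ∈ Icc a c, ‖v t‖ ≤ max V (1 / mF) := fun t ht => (hvb t ht).trans (le_max_right _ _)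
  have hρc : Continuous ρ := h.smooth.continuous
  have hρd : Differentiable ℝ ρ := h.smooth.differentiable (by norm_num)
  -- the speed
  have hfc : ContinuousOn (fun r => ρ (Z r) ^ 2 * ‖v r‖ ^ 2 / 2) (Icc a c) :=
    (((hρc.comp_continuousOn hZc).pow 2).mul (hvc.norm.pow 2)).div_const 2
  have hspeed : ∀ t ∈ Icc a c, ρ (Z t) * ‖v t‖ = 1 := by
    have h1 : ∀ t ∈ Icc a c, (fun r : ℝ => r / 2) t - (fun r : ℝ => r / 2) a =
        ∫ r in a..t, ρ (Z r) ^ 2 * ‖v r‖ ^ 2 / 2 := by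
      intro t ht
      rcases ht.1.eq_or_lt with rfl | h2
      · simp
      · have h3 := kgeo_act hc.cl h2 (hKG a t le_rfl h2 ht.2) (v := v)
          ⟨Cv, fun p hp q hq => hv p ⟨hp.1, hp.2.trans ht.2⟩ q ⟨hq.1, hq.2.trans ht.2⟩⟩
          fun p hp q hq => hint p ⟨hp.1, hp.2.trans ht.2⟩ q ⟨hq.1, hq.2.trans ht.2⟩
        rw [hEq a t le_rfl h2.le ht.2] at h3
        have h4 : ∫ r in a..t, l' (Z r) (v r) r = ∫ r in a..t, ρ (Z r) ^ 2 * ‖v r‖ ^ 2 / 2 := by
          refine intervalIntegral.integral_congr fun r hr => ?_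
          rw [uIcc_of_le h2.le] at hr
          exact hc.eq _ _ _ (hvR r ⟨hr.1, hr.2.trans ht.2⟩)
        rw [← h4, h3]
        show t / 2 - a / 2 = (t - a) / 2
        ring
    intro t ht
    have h5 := R1b_ftc hac.le hfc h1 t ht
    have h6 : HasDerivWithinAt (fun r : ℝ => r / 2) (1 / 2) (Icc a c) t :=
      (hasDerivWithinAt_id t _).div_const 2
    have h7 := (uniqueDiffOn_Icc hac t ht).eq_deriv _ h5 h6
    have h8 : (ρ (Z t) * ‖v t‖) ^ 2 = 1 := by
      have : ρ (Z t) ^ 2 * ‖v t‖ ^ 2 / 2 = 1 / 2 := h7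
      rw [mul_pow]
      linarith
    have h9 : 0 ≤ ρ (Z t) * ‖v t‖ :=
      mul_nonneg (hmF.le.trans (h.low _)) (norm_nonneg _)
    exact (pow_eq_one_iff_of_nonneg h9 two_ne_zero).1 h8
  -- the Euler-Lagrange equation
  have hgc : ContinuousOn (fun r => gx (cl ρ) (Z r) (v r) r) (Icc a c) :=
    R1b_comp htl.gx_cont hZc hvc
  have hel := kgeo_el hc.cl hac (hKG a c le_rfl hac le_rfl) ⟨Cv, hv⟩ hint
  have hdE := R1b_ftc (F := fun r => gu (cl ρ) (Z r) (v r) r) hac.le hgc (by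
    intro t ht
    have h1 := hel a ha t ht
    rw [hc.equ _ _ _ (hvR t ht), hc.equ _ _ _ (hvR a ha)] at h1
    rw [h1]
    refine intervalIntegral.integral_congr fun r hr => ?_
    rw [uIcc_of_le ht.1] at hr
    exact hc.eqx _ _ _ (hvR r ⟨hr.1, hr.2.trans ht.2⟩))
  refine ⟨v, fun t ht => ⟨hdZ t ht, hspeed t ht, ?_⟩⟩
  have h1 := hdE t ht
  simp only [R1b_gu, R1b_gx hρd] at h1
  have h2 : ρ (Z t) * ‖v t‖ ^ 2 = (ρ (Z t))⁻¹ := by
    have h3 := hspeed t ht
    have h4 : ρ (Z t) ≠ 0 := (lt_of_lt_of_le hmF (h.low _)).ne'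
    field_simp
    nlinarith
  rw [h2] at h1
  exact h1

end Pool.Agent.EscG
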