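import Pool.Agent.EscG.Fn2
import Pool.Agent.EscG.Fn3
import Pool.Agent.EscG.A2c
import Pool.Agent.EscG.A3b
import Pool.Agent.EscG.R1b
import Pool.Agent.EscF.O4
import Pool.Agent.EscF.O5

set_option autoImplicit false

/-!
# EscG geometry, module Fn4: isometric curves and geodesics of the Finsler metric

`exists_fiso`: a minimizer of the kernel of the regularised energy between `x` and `y` in time `fd F x y` has
unit speed and is isometric. `fiso_geo`: an isometric curve is a minimizer of the kernel of the regularised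
energy, so it is of class `C^{1,1}` and satisfies the Euler-Lagrange equation.
-/

noncomputable section

namespace Pool.Agent.EscG

open MeasureTheory Set Filter Topology Esc EscF _root_.EscG
open scoped ContDiff

variable {E : Type*} [NormedAddCommGroup E] [InnerProductSpace ℝ E] [FiniteDimensional ℝ E]
  {β : Module.Basis (Fin 2) ℝ E} {F : E → E → ℝ} {mF MF m m' M : ℝ} {l : E → E → ℝ → ℝ}

/-- a curve whose action is at most half its duration and which joins two points at distance at least its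
duration has unit speed -/
theorem Fn4_unit (h : RFins β F mF MF m) (hr : Reg β F mF MF m' M l) {Z v : ℝ → E} {a c : ℝ}
    (hac : a < c) (hlip : ∃ C : ℝ, ∀ s ∈ Icc a c, ∀ t ∈ Icc a c, ‖v t - v s‖ ≤ C * |t - s|)
    (hpos : ∀ s ∈ Icc a c, ∀ t ∈ Icc a c, Z t - Z s = ∫ r in s..t, v r)
    (hact : ∫ r in a..c, l (Z r) (v r) r ≤ (c - a) / 2) (hd : c - a ≤ fd F (Z a) (Z c)) :
    ∀ t ∈ Icc a c, F (Z t) (v t) = 1 := by
  have ha : a ∈ Icc a c := ⟨le_rfl, hac.le⟩
  have hc : c ∈ Icc a c := ⟨hac.le, le_rfl⟩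
  have hvc : ContinuousOn v (Icc a c) := A3b.cont_of_lip hlip
  have hZc : ContinuousOn Z (Icc a c) := A3b.pos_cont hlip hpos
  have hlc : ContinuousOn (fun r => l (Z r) (v r) r) (Icc a c) :=
    hr.tl.cb.cont.comp_continuousOn (hZc.prodMk (hvc.prodMk continuousOn_id))
  have hFc : ContinuousOn (fun r => F (Z r) (v r)) (Icc a c) :=
    h.fins.cont.comp_continuousOn (hZc.prodMk hvc)
  obtain ⟨C, hC⟩ := hlip
  obtain ⟨u, hu, -, htr, hactu⟩ := adm_of_lip hac hC hpos
  have h1 := h.fd_le_length hu hac.le (Z a)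
  rw [htr a ha c hc] at h1
  have h2 := hactu (fun x w _ => F x w) a ha c hc hac.le
  have h3 : ∫ t in a..c, F (traj a (Z a) u t) (u t) = ∫ r in a..c, F (Z r) (v r) := h2
  rw [h3] at h1
  intro t ht
  by_contra hne
  have hsub : uIcc a c ⊆ Icc a c := by rw [uIcc_of_le hac.le]
  have hli : IntervalIntegrable (fun r => l (Z r) (v r) r) volume a c :=
    (hlc.mono hsub).intervalIntegrable
  have hFi : IntervalIntegrable (fun r => F (Z r) (v r)) volume a c :=
    (hFc.mono hsub).intervalIntegrable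
  have hgc : ContinuousOn (fun r => l (Z r) (v r) r - F (Z r) (v r) + 1 / 2) (Icc a c) :=
    (hlc.sub hFc).add continuousOn_const
  have h4 : 0 < ∫ r in a..c, (l (Z r) (v r) r - F (Z r) (v r) + 1 / 2) := by
    refine intervalIntegral.integral_pos hac hgc (fun r _ => ?_) ⟨t, ht, ?_⟩
    · have := hr.ge (Z r) (v r) r
      linarith
    · have := hr.gt (Z t) (v t) t hne
      linarith
  have h5 : ∫ r in a..c, (l (Z r) (v r) r - F (Z r) (v r) + 1 / 2) =
      (∫ r in a..c, l (Z r) (v r) r) - (∫ r in a..c, F (Z r) (v r)) + (c - a) / 2 := by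
    rw [intervalIntegral.integral_add (hli.sub hFi) (by simp),
      intervalIntegral.integral_sub hli hFi, intervalIntegral.integral_const, smul_eq_mul]
    ring
  linarith

theorem RFins.exists_fiso (h : RFins β F mF MF m) (x y : E) :
    ∃ Z : ℝ → E, Z 0 = x ∧ Z (fd F x y) = y ∧ FIso F Z 0 (fd F x y) := by
  set D := fd F x y with hD
  have hD0 : 0 ≤ D := fd_nonneg F x y
  have hself : ∀ p : E, fd F p p = 0 := fun p => C1_self h.fins p
  rcases hD0.eq_or_lt with h0 | hpos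
  · have hxy : x = y := by
      have h1 := le_fd h.fins x y
      rw [← hD, ← h0] at h1
      have h2 : ‖y - x‖ ≤ 0 := by
        by_contra h3
        have := mul_pos h.fins.mF_pos (not_le.1 h3)
        linarith
      exact (sub_eq_zero.1 (norm_le_zero_iff.1 h2)).symm
    refine ⟨fun _ => x, rfl, hxy, ?_⟩
    intro s hs t ht
    rw [← h0] at hs ht
    have hs0 : s = 0 := le_antisymm hs.2 hs.1
    have ht0 : t = 0 := le_antisymm ht.2 ht.1
    rw [hs0, ht0, sub_self, abs_zero]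
    exact hself x
  obtain ⟨m', M, l, hr⟩ := h.exists_reg
  obtain ⟨V, -, hgeo⟩ := exists_geo (E := E) MF m' M ‖y - x‖ (T1 := D) hr.tl.m_pos hpos
  obtain ⟨⟨Z, v, hZ0, hZD, hG⟩, -⟩ := hgeo hr.tl (a := 0) (b := D) (by simp) (by simp) (z := x)
    (z' := y) le_rfl
  refine ⟨Z, hZ0, hZD, ?_⟩
  have hDD : fd F (Z 0) (Z D) = D := by rw [hZ0, hZD]
  have hadd : ∀ s t r, 0 ≤ s → s ≤ t → t ≤ r → r ≤ D →
      kerl l s t (Z s) (Z t) + kerl l t r (Z t) (Z r) = kerl l s r (Z s) (Z r) := by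
    intro s t r hs hst htr hrD
    rcases hst.eq_or_lt with rfl | h1
    · rw [O3.kerl_self, zero_add]
    rcases htr.eq_or_lt with rfl | h2
    · rw [O3.kerl_self, add_zero]
    exact Geo.add hr.tl (hG.restrict hs hrD) h1 h2
  have hlow : ∀ s t, s ≤ t →
      fd F (Z s) (Z t) - (t - s) / 2 ≤ kerl l s t (Z s) (Z t) := by
    intro s t hst
    rcases hst.eq_or_lt with rfl | h1
    · rw [O3.kerl_self, hself]
      simp
    · exact h.reg_ge hr h1 _ _
  have e0 : kerl l 0 D (Z 0) (Z D) = D / 2 := by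
    have := h.kerl_reg hr hpos (x := Z 0) (y := Z D) (by rw [hDD, sub_zero])
    rw [this, sub_zero]
  -- unit speed
  have hact0 : ∫ r in (0:ℝ)..D, l (Z r) (v r) r ≤ (D - 0) / 2 := by
    rw [hG.act 0 D le_rfl hpos le_rfl, e0, sub_zero]
  have hunit := Fn4_unit h hr hpos hG.lip hG.pos hact0 (by rw [hDD, sub_zero])
  have hker : ∀ s t, 0 ≤ s → s < t → t ≤ D → kerl l s t (Z s) (Z t) = (t - s) / 2 := by
    intro s t hs hst ht
    rw [← hG.act s t hs hst ht]
    have h1 : ∫ r in s..t, l (Z r) (v r) r = ∫ _r in s..t, (1 / 2 : ℝ) := by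
      refine intervalIntegral.integral_congr fun r hr' => ?_
      rw [uIcc_of_le hst.le] at hr'
      have h2 := hunit r ⟨hs.trans hr'.1, hr'.2.trans ht⟩
      show l (Z r) (v r) r = 1 / 2
      rw [hr.eq (Z r) (v r) r (by rw [h2]; norm_num), h2]
      norm_num
    rw [h1, intervalIntegral.integral_const, smul_eq_mul]
    ring
  have key : ∀ s t, 0 ≤ s → s < t → t ≤ D → fd F (Z s) (Z t) = t - s := by
    intro s t hs hst ht
    have k1 := hlow 0 s hs
    have k2 := hlow s t hst.le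
    have k3 := hlow t D ht
    have a1 := hadd 0 s t le_rfl hs hst.le ht
    have a2 := hadd 0 t D le_rfl (hs.trans hst.le) ht le_rfl
    have t1 := fd_tri h.fins (Z 0) (Z s) (Z t)
    have t2 := fd_tri h.fins (Z 0) (Z t) (Z D)
    have e1 := hker s t hs hst ht
    linarith
  intro s hs t ht
  rcases lt_trichotomy s t with h1 | h1 | h1
  · rw [key s t hs.1 h1 ht.2, abs_sub_comm, abs_of_pos (sub_pos.2 h1)]
  · rw [h1, hself, sub_self, abs_zero]
  · rw [h.fd_symm, key t s ht.1 h1 hs.2, abs_of_pos (sub_pos.2 h1)]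

theorem RFins.fiso_geo (h : RFins β F mF MF m) (hr : Reg β F mF MF m' M l) {Z : ℝ → E} {a c : ℝ}
    (hac : a < c) (hZ : FIso F Z a c) : ∃ v : ℝ → E, FGeo F l Z v a c := by
  have htl := hr.tl
  have hmF := h.fins.mF_pos
  have ha : a ∈ Icc a c := ⟨le_rfl, hac.le⟩
  have hcc : c ∈ Icc a c := ⟨hac.le, le_rfl⟩
  have hlip : ∀ s ∈ Icc a c, ∀ t ∈ Icc a c, ‖Z t - Z s‖ ≤ 1 / mF * |t - s| := by
    intro s hs t ht
    have h1 := le_fd h.fins (Z s) (Z t)
    rw [hZ s hs t ht, abs_sub_comm] at h1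
    rw [div_mul_eq_mul_div, one_mul, le_div_iff₀ hmF]
    linarith
  -- the kernels of `l`
  have hfd : ∀ s t, a ≤ s → s < t → t ≤ c → fd F (Z s) (Z t) = t - s := by
    intro s t h1 h2 h3
    rw [hZ s ⟨h1, h2.le.trans h3⟩ t ⟨h1.trans h2.le, h3⟩, abs_sub_comm, abs_of_pos (sub_pos.2 h2)]
  have hk : ∀ s t, a ≤ s → s < t → t ≤ c → kerl l s t (Z s) (Z t) = (t - s) / 2 := by
    intro s t h1 h2 h3
    exact h.kerl_reg hr h2 (hfd s t h1 h2 h3)
  obtain ⟨V, hV, hgeo⟩ := exists_geo (E := E) MF m' M ‖Z c - Z a‖ (T1 := c - a)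
    htl.m_pos (sub_pos.2 hac)
  obtain ⟨-, hcut⟩ := hgeo htl (a := a) (b := c) le_rfl le_rfl (z := Z a) (z' := Z c) le_rfl
  obtain ⟨l', lx', lu', Λ, hc⟩ := htl.exists_cut (max V (1 / mF))
  have hck := hc.cl.toCK
  have hkac : kerl l' a c (Z a) (Z c) = (c - a) / 2 :=
    (hcut hc (le_max_left _ _)).symm.trans (hk a c le_rfl hac le_rfl)
  have hle : ∀ s t, a ≤ s → s ≤ t → t ≤ c → kerl l' s t (Z s) (Z t) ≤ (t - s) / 2 := by
    intro s t h1 h2 h3
    rcases h2.eq_or_lt with rfl | h4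
    · rw [O3.kerl_self]
      simp
    · rw [← hk s t h1 h4 h3]
      exact A3b.cut_le htl hc h4 _ _
  have hEq : ∀ s t, a ≤ s → s ≤ t → t ≤ c → kerl l' s t (Z s) (Z t) = (t - s) / 2 := by
    intro s t h1 h2 h3
    have k1 := O3.kerl_le_add' hck (h1.trans h2) h3 Z
    have k2 := O3.kerl_le_add' hck h1 h2 Z
    have k3 := hle a s le_rfl h1 (h2.trans h3)
    have k4 := hle s t h1 h2 h3
    have k5 := hle t c (h1.trans h2) h3 le_rfl
    linarith
  have hKG : KGeo l' a c Z := by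
    refine ⟨⟨(1 / mF) ^ 2 * (c - a), fun p hp q hq => ?_⟩, fun p q hp hpq hq => ?_⟩
    · have e1 := hlip p hp q hq
      have e2 : |q - p| ≤ c - a := abs_sub_le_iff.2 ⟨by linarith [hp.1, hq.2], by linarith [hp.2, hq.1]⟩
      have e3 : ‖Z q - Z p‖ ^ 2 ≤ (1 / mF * |q - p|) ^ 2 :=
        pow_le_pow_left₀ (norm_nonneg _) e1 2
      have e4 : (1 / mF * |q - p|) ^ 2 = (1 / mF) ^ 2 * |q - p| * |q - p| := by ring
      rw [e4] at e3
      refine e3.trans ?_
      have e5 : (1 / mF) ^ 2 * |q - p| ≤ (1 / mF) ^ 2 * (c - a) :=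
        mul_le_mul_of_nonneg_left e2 (by positivity)
      exact mul_le_mul_of_nonneg_right e5 (abs_nonneg _)
    · rw [hEq a p le_rfl hp (hpq.trans hq), hEq p q hp hpq hq,
        hEq q c (hp.trans hpq) hq le_rfl, hEq a c le_rfl hac.le le_rfl]
      ring
  obtain ⟨v, ⟨Cv, hv⟩, hint⟩ := kgeo_c11 hc.cl hac hKG
  have hvc : ContinuousOn v (Icc a c) := R1b_cont hv
  have hdZ : ∀ t ∈ Icc a c, HasDerivWithinAt Z (v t) (Icc a c) t :=
    R1b_ftc hac.le hvc fun t ht => hint a ha t ht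
  have hvb : ∀ t ∈ Icc a c, ‖v t‖ ≤ 1 / mF := fun t ht => R1b_speed hac hlip ht (hdZ t ht)
  obtain ⟨hG, -⟩ := A3b.geo_of_cut htl hc hac (le_max_right _ _) hKG ⟨Cv, hv⟩ hint hvb
  refine ⟨v, hG.lip, hG.pos, ?_, hG.el⟩
  refine Fn4_unit h hr hac hG.lip hG.pos ?_ (hfd a c le_rfl hac le_rfl).ge
  rw [hG.act a c le_rfl hac le_rfl, hk a c le_rfl hac le_rfl]

end Pool.Agent.EscG
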