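import Pool.Agent.EscG.R1b

set_option autoImplicit false

/-!
# EscG geometry: non-branching (uniqueness for the geodesic equation), the distance `Pl` of a
conformal metric

With `q = ρ(Z)² v`: `Z' = q / ρ(Z)²`, `q' = ∇ρ(Z) / ρ(Z)`, a vector field of class `C^1` on `E × E`
(`ρ` is `C^2` and `≥ mF`), so locally Lipschitz: Gronwall on a bounded set. `gode_unique`: same
position and velocity at one time. `nb`: two isometric curves that agree on `[a,m]`, `a < m`, have
the same velocity at `a` (one-sided derivative at `a`).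
-/

noncomputable section

namespace Pool.Agent.EscG

open MeasureTheory Set Filter Topology Esc EscF _root_.EscG

variable {E : Type*} [NormedAddCommGroup E] [InnerProductSpace ℝ E] [FiniteDimensional ℝ E]
  {β : Module.Basis (Fin 2) ℝ E} {ρ : E → ℝ} {mF MF : ℝ}

/-- the vector field of the geodesic equation -/
def R2_F (ρ : E → ℝ) (X : E × E) : E × E :=
  ((ρ X.1 ^ 2)⁻¹ • X.2, (ρ X.1)⁻¹ • gradient ρ X.1)

omit [FiniteDimensional ℝ E] in
theorem R2_pos (h : Conf β ρ mF MF) (x : E) : 0 < ρ x := h.mF_pos.trans_le (h.low x)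

/-- the inverse of the Riesz isomorphism as a continuous linear map -/
def R2_riesz (E : Type*) [NormedAddCommGroup E] [InnerProductSpace ℝ E] [FiniteDimensional ℝ E] :
    (StrongDual ℝ E) →L[ℝ] E :=
  LinearMap.toContinuousLinearMap
    { toFun := fun f => (InnerProductSpace.toDual ℝ E).symm f
      map_add' := fun f g => map_add _ f g
      map_smul' := fun r f => by simp }

theorem R2_grad (h : Conf β ρ mF MF) : ContDiff ℝ 1 (gradient ρ) := by
  have h1 : ContDiff ℝ 1 (fderiv ℝ ρ) := h.smooth.fderiv_right (by norm_num)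
  have h2 : gradient ρ = fun x => R2_riesz E (fderiv ℝ ρ x) := rfl
  rw [h2]
  exact (R2_riesz E).contDiff.comp h1

theorem R2_contDiff (h : Conf β ρ mF MF) : ContDiff ℝ 1 (R2_F ρ) := by
  have h1 : ContDiff ℝ 1 (fun X : E × E => ρ X.1) :=
    (h.smooth.of_le (by norm_num)).comp contDiff_fst
  have h2 : ContDiff ℝ 1 (fun X : E × E => gradient ρ X.1) := (R2_grad h).comp contDiff_fst
  refine ContDiff.prodMk ?_ ?_
  · exact ((h1.pow 2).inv fun X => (pow_pos (R2_pos h X.1) 2).ne').smul contDiff_snd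
  · exact (h1.inv fun X => (R2_pos h X.1).ne').smul h2

theorem R2_lip (h : Conf β ρ mF MF) (R : ℝ) : ∃ K : NNReal,
    LipschitzOnWith K (R2_F ρ) (Metric.closedBall (0 : E × E) R) := by
  have h1 := R2_contDiff h
  have hc : Continuous (fun X => ‖fderiv ℝ (R2_F ρ) X‖) := (h1.continuous_fderiv one_ne_zero).norm
  obtain ⟨C, hC⟩ := (isCompact_closedBall (0 : E × E) R).exists_bound_of_continuousOn
    hc.continuousOn
  refine ⟨C.toNNReal, (convex_closedBall _ _).lipschitzOnWith_of_nnnorm_fderiv_le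
    (fun X _ => h1.differentiable one_ne_zero X) fun X hX => ?_⟩
  rw [← norm_toNNReal]
  exact Real.toNNReal_le_toNNReal ((le_abs_self _).trans (hC X hX))

/-- the first order system -/
theorem R2_sys (h : Conf β ρ mF MF) {Z v : ℝ → E} {a c : ℝ} (hZ : Gode ρ Z v a c) :
    ∀ t ∈ Icc a c, HasDerivWithinAt (fun s => (Z s, ρ (Z s) ^ 2 • v s))
      (R2_F ρ (Z t, ρ (Z t) ^ 2 • v t)) (Icc a c) t := by
  intro t ht
  obtain ⟨h1, h2, h3⟩ := hZ t ht
  have e : R2_F ρ (Z t, ρ (Z t) ^ 2 • v t) = (v t, (ρ (Z t))⁻¹ • gradient ρ (Z t)) := by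
    unfold R2_F
    rw [smul_smul, inv_mul_cancel₀ (pow_pos (R2_pos h _) 2).ne', one_smul]
  rw [e]
  exact h1.prodMk h3

theorem Conf.gode_unique (h : Conf β ρ mF MF) {Z Z' v v' : ℝ → E} {a c t0 : ℝ}
    (hZ : Gode ρ Z v a c) (hZ' : Gode ρ Z' v' a c) (ht0 : t0 ∈ Icc a c) (h0 : Z t0 = Z' t0)
    (h1 : v t0 = v' t0) : ∀ t ∈ Icc a c, Z t = Z' t := by
  set X : ℝ → E × E := fun s => (Z s, ρ (Z s) ^ 2 • v s) with hX
  set X' : ℝ → E × E := fun s => (Z' s, ρ (Z' s) ^ 2 • v' s) with hX'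
  have d1 := R2_sys h hZ
  have d2 := R2_sys h hZ'
  have c1 : ContinuousOn X (Icc a c) := fun t ht => (d1 t ht).continuousWithinAt
  have c2 : ContinuousOn X' (Icc a c) := fun t ht => (d2 t ht).continuousWithinAt
  obtain ⟨R1, hR1⟩ := isCompact_Icc.exists_bound_of_continuousOn c1
  obtain ⟨R2, hR2⟩ := isCompact_Icc.exists_bound_of_continuousOn c2
  set R := max R1 R2
  obtain ⟨K, hK⟩ := R2_lip h R
  have b1 : ∀ t ∈ Icc a c, X t ∈ Metric.closedBall (0 : E × E) R := fun t ht => by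
    rw [mem_closedBall_zero_iff]
    exact (hR1 t ht).trans (le_max_left _ _)
  have b2 : ∀ t ∈ Icc a c, X' t ∈ Metric.closedBall (0 : E × E) R := fun t ht => by
    rw [mem_closedBall_zero_iff]
    exact (hR2 t ht).trans (le_max_right _ _)
  have hx : X t0 = X' t0 := by
    simp only [hX, hX', h0, h1]
  have r1 : EqOn X X' (Icc t0 c) := by
    refine ODE_solution_unique_of_mem_Icc_right (v := fun _ => R2_F ρ)
      (s := fun _ => Metric.closedBall (0 : E × E) R) (K := K) (fun t _ => hK)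
      (c1.mono (Icc_subset_Icc_left ht0.1)) (fun t ht => ?_) (fun t ht => ?_)
      (c2.mono (Icc_subset_Icc_left ht0.1)) (fun t ht => ?_) (fun t ht => ?_) hx
    · exact (d1 t ⟨ht0.1.trans ht.1, ht.2.le⟩).mono_of_mem_nhdsWithin
        (Icc_mem_nhdsGE_of_mem ⟨ht0.1.trans ht.1, ht.2⟩)
    · exact b1 t ⟨ht0.1.trans ht.1, ht.2.le⟩
    · exact (d2 t ⟨ht0.1.trans ht.1, ht.2.le⟩).mono_of_mem_nhdsWithin
        (Icc_mem_nhdsGE_of_mem ⟨ht0.1.trans ht.1, ht.2⟩)
    · exact b2 t ⟨ht0.1.trans ht.1, ht.2.le⟩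
  have r2 : EqOn X X' (Icc a t0) := by
    refine ODE_solution_unique_of_mem_Icc_left (v := fun _ => R2_F ρ)
      (s := fun _ => Metric.closedBall (0 : E × E) R) (K := K) (fun t _ => hK)
      (c1.mono (Icc_subset_Icc_right ht0.2)) (fun t ht => ?_) (fun t ht => ?_)
      (c2.mono (Icc_subset_Icc_right ht0.2)) (fun t ht => ?_) (fun t ht => ?_) hx
    · exact (d1 t ⟨ht.1.le, ht.2.trans ht0.2⟩).mono_of_mem_nhdsWithin
        (Icc_mem_nhdsLE_of_mem ⟨ht.1, ht.2.trans ht0.2⟩)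
    · exact b1 t ⟨ht.1.le, ht.2.trans ht0.2⟩
    · exact (d2 t ⟨ht.1.le, ht.2.trans ht0.2⟩).mono_of_mem_nhdsWithin
        (Icc_mem_nhdsLE_of_mem ⟨ht.1, ht.2.trans ht0.2⟩)
    · exact b2 t ⟨ht.1.le, ht.2.trans ht0.2⟩
  intro t ht
  rcases le_total t t0 with h2 | h2
  · exact congrArg Prod.fst (r2 ⟨ht.1, h2⟩)
  · exact congrArg Prod.fst (r1 ⟨h2, ht.2⟩)

/-- the vector field is bounded for `ρ ‖v‖ = 1`: a geodesic equation on every `[-n, n]` with velocities
determined by `Z` -/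
theorem Conf.iso_gode_univ (h : Conf β ρ mF MF) {Z : ℝ → E} (hZ : ∀ s t, ed ρ (Z s) (Z t) = |s - t|) :
    ∃ v : ℝ → E, Continuous v ∧ (∀ t, HasDerivAt Z (v t) t) ∧ (∀ t, ρ (Z t) * ‖v t‖ = 1) ∧
      ∀ t, HasDerivAt (fun s => ρ (Z s) ^ 2 • v s) ((ρ (Z t))⁻¹ • gradient ρ (Z t)) t := by
  have key : ∀ t : ℝ, HasDerivAt Z (deriv Z t) t ∧ ρ (Z t) * ‖deriv Z t‖ = 1 ∧
      HasDerivAt (fun s => ρ (Z s) ^ 2 • deriv Z s) ((ρ (Z t))⁻¹ • gradient ρ (Z t)) t := by
    intro t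
    obtain ⟨v, hv⟩ := h.iso_gode (a := t - 1) (c := t + 1) (by linarith)
      (Z := Z) (fun s _ t _ => hZ s t)
    have hd : ∀ s ∈ Ioo (t - 1) (t + 1), HasDerivAt Z (v s) s := fun s hs =>
      (hv s ⟨hs.1.le, hs.2.le⟩).1.hasDerivAt (Icc_mem_nhds hs.1 hs.2)
    have he : ∀ s ∈ Ioo (t - 1) (t + 1), deriv Z s = v s := fun s hs => (hd s hs).deriv
    have ht : t ∈ Ioo (t - 1) (t + 1) := ⟨by linarith, by linarith⟩
    obtain ⟨h1, h2, h3⟩ := hv t ⟨ht.1.le, ht.2.le⟩
    rw [he t ht]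
    refine ⟨hd t ht, h2, ?_⟩
    have h4 := h3.hasDerivAt (Icc_mem_nhds ht.1 ht.2)
    refine h4.congr_of_eventuallyEq ?_
    filter_upwards [Ioo_mem_nhds ht.1 ht.2] with s hs
    rw [he s hs]
  refine ⟨deriv Z, ?_, fun t => (key t).1, fun t => (key t).2.1, fun t => (key t).2.2⟩
  have c1 : Continuous (fun s => ρ (Z s) ^ 2 • deriv Z s) :=
    continuous_iff_continuousAt.2 fun t => (key t).2.2.continuousAt
  have c2 : Continuous Z := continuous_iff_continuousAt.2 fun t => (key t).1.continuousAt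
  have c3 : Continuous (fun s => (ρ (Z s) ^ 2)⁻¹) :=
    ((h.smooth.continuous.comp c2).pow 2).inv₀ fun s => (pow_pos (R2_pos h _) 2).ne'
  have e : deriv Z = fun s => (ρ (Z s) ^ 2)⁻¹ • (ρ (Z s) ^ 2 • deriv Z s) := by
    funext s
    rw [smul_smul, inv_mul_cancel₀ (pow_pos (R2_pos h _) 2).ne', one_smul]
  rw [e]
  exact c3.smul c1

theorem Conf.nb (h : Conf β ρ mF MF) {Z Z' : ℝ → E} {a m c : ℝ} (ham : a < m) (hmc : m ≤ c)
    (hZ : Iso ρ Z a c) (hZ' : Iso ρ Z' a c) (he : ∀ t ∈ Icc a m, Z t = Z' t) :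
    ∀ t ∈ Icc a c, Z t = Z' t := by
  have hac : a < c := ham.trans_le hmc
  obtain ⟨v, hv⟩ := h.iso_gode hac hZ
  obtain ⟨v', hv'⟩ := h.iso_gode hac hZ'
  have ha : a ∈ Icc a c := left_mem_Icc.2 hac.le
  have ha' : a ∈ Icc a m := left_mem_Icc.2 ham.le
  refine h.gode_unique hv hv' ha (he a ha') ?_
  have d1 : HasDerivWithinAt Z (v a) (Icc a m) a := (hv a ha).1.mono (Icc_subset_Icc_right hmc)
  have d2 : HasDerivWithinAt Z' (v' a) (Icc a m) a := (hv' a ha).1.mono (Icc_subset_Icc_right hmc)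
  have d3 : HasDerivWithinAt Z (v' a) (Icc a m) a := d2.congr he (he a ha')
  exact (uniqueDiffOn_Icc ham a ha').eq_deriv _ d1 d3

/-- `co β` is a linear isomorphism -/
theorem co_surj (β : Module.Basis (Fin 2) ℝ E) (x : E) : ∃ z, co β z = x := by
  refine ⟨(β.repr x 0, β.repr x 1), ?_⟩
  have := β.sum_repr x
  rw [Fin.sum_univ_two] at this
  exact this

/-- the linear isomorphism -/
def R2_co (β : Module.Basis (Fin 2) ℝ E) : (ℝ × ℝ) ≃L[ℝ] E :=
  LinearEquiv.toContinuousLinearEquiv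
    { toFun := co β
      map_add' := fun x y => by
        unfold co
        rw [Prod.fst_add, Prod.snd_add, add_smul, add_smul]
        abel
      map_smul' := fun r x => by
        unfold co
        rw [Prod.smul_fst, Prod.smul_snd, smul_eq_mul, smul_eq_mul, RingHom.id_apply, smul_add,
          mul_smul, mul_smul]
      invFun := fun x => (β.repr x 0, β.repr x 1)
      left_inv := fun x => by
        unfold co
        simp
      right_inv := fun x => by
        have := β.sum_repr x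
        rw [Fin.sum_univ_two] at this
        exact this }

theorem co_inj (β : Module.Basis (Fin 2) ℝ E) {z z' : ℝ × ℝ} (h : co β z = co β z') : z = z' :=
  (R2_co β).injective h

theorem co_bd (β : Module.Basis (Fin 2) ℝ E) : ∃ c C : ℝ, 0 < c ∧ 0 < C ∧ ∀ z z' : ℝ × ℝ,
    c * ‖z - z'‖ ≤ ‖co β z - co β z'‖ ∧ ‖co β z - co β z'‖ ≤ C * ‖z - z'‖ := by
  set L : (ℝ × ℝ) →L[ℝ] E := (R2_co β : (ℝ × ℝ) →L[ℝ] E)
  set L' : E →L[ℝ] (ℝ × ℝ) := ((R2_co β).symm : E →L[ℝ] (ℝ × ℝ))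
  refine ⟨(‖L'‖ + 1)⁻¹, ‖L‖ + 1, by positivity, by positivity, fun z z' => ?_⟩
  have e : co β z - co β z' = L (z - z') := by
    rw [map_sub]
    rfl
  have e' : L' (L (z - z')) = z - z' := (R2_co β).symm_apply_apply _
  rw [e]
  constructor
  · rw [inv_mul_le_iff₀ (by positivity)]
    calc ‖z - z'‖ = ‖L' (L (z - z'))‖ := by rw [e']
      _ ≤ ‖L'‖ * ‖L (z - z')‖ := L'.le_opNorm _
      _ ≤ (‖L'‖ + 1) * ‖L (z - z')‖ := by
        refine mul_le_mul_of_nonneg_right (by linarith) (norm_nonneg _)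
  · refine (L.le_opNorm _).trans ?_
    exact mul_le_mul_of_nonneg_right (by linarith) (norm_nonneg _)

theorem R2_per (h : Conf β ρ mF MF) (i : Fin 2) (n : ℤ) (x y : E) :
    ed ρ (x + (n : ℝ) • β i) (y + (n : ℝ) • β i) = ed ρ x y := by
  induction n using Int.induction_on with
  | zero => simp
  | succ n ih =>
    have e : ∀ x : E, x + (((n : ℤ) + 1 : ℤ) : ℝ) • β i = x + ((n : ℤ) : ℝ) • β i + β i := by
      intro x
      push_cast
      rw [add_smul, one_smul, add_assoc]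
    rw [e, e, h.ed_per, ih]
  | pred n ih =>
    have e : ∀ x : E, x + ((-(n : ℤ) - 1 : ℤ) : ℝ) • β i + β i = x + ((-(n : ℤ) : ℤ) : ℝ) • β i := by
      intro x
      push_cast
      rw [sub_smul, one_smul, add_assoc, sub_add_cancel]
    rw [← h.ed_per i, e, e, ih]

omit [FiniteDimensional ℝ E] in
theorem R2_co_add (β : Module.Basis (Fin 2) ℝ E) (i j : ℤ) (x : ℝ × ℝ) :
    co β (x + ((i : ℝ), (j : ℝ))) = co β x + (i : ℝ) • β 0 + (j : ℝ) • β 1 := by
  unfold co
  rw [Prod.fst_add, Prod.snd_add, add_smul, add_smul]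
  abel

/-- the distance of the conformal metric in coordinates -/
theorem Conf.exists_pl (h : Conf β ρ mF MF) : ∃ T : Pl, ∀ x y, T.d x y = ed ρ (co β x) (co β y) := by
  obtain ⟨c, C, hc, hC, hcC⟩ := co_bd β
  have hMF : 0 ≤ MF := (R2_pos h 0).le.trans (h.upp 0)
  refine ⟨{
    d := fun x y => ed ρ (co β x) (co β y)
    m := mF * c
    M := MF * C
    m_pos := mul_pos h.mF_pos hc
    symm := fun x y => h.ed_symm _ _
    tri := fun x y z => h.ed_tri _ _ _
    low := fun x y => ?_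
    upp := fun x y => ?_
    per := fun i j x y => ?_
    geo := fun x y => ?_
    nb := fun γ γ' a m c ham hmc hγ hγ' he t ht => ?_ }, fun x y => rfl⟩
  · refine le_trans ?_ (h.ed_low _ _)
    rw [mul_assoc]
    exact mul_le_mul_of_nonneg_left (hcC x y).1 h.mF_pos.le
  · refine (h.ed_upp _ _).trans ?_
    rw [mul_assoc]
    exact mul_le_mul_of_nonneg_left (hcC x y).2 hMF
  · rw [R2_co_add, R2_co_add, R2_per h, R2_per h]
  · obtain ⟨Z, h1, h2, h3⟩ := h.exists_iso (co β x) (co β y)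
    have e : ∀ t, co β ((R2_co β).symm (Z t)) = Z t := fun t => (R2_co β).apply_symm_apply _
    refine ⟨fun t => (R2_co β).symm (Z t), co_inj β ?_, co_inj β ?_, fun s hs t ht => ?_⟩
    · rw [e, h1]
    · rw [e, h2]
    · change ed ρ (co β ((R2_co β).symm (Z s))) (co β ((R2_co β).symm (Z t))) = |s - t|
      rw [e, e]
      exact h3 s hs t ht
  · exact co_inj β (h.nb (Z := fun t => co β (γ t)) (Z' := fun t => co β (γ' t)) ham hmc hγ hγ'
      (fun t ht => congrArg (co β) (he t ht)) t ht)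

end Pool.Agent.EscG
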