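import Pool.Agent.EscG.GB
import Pool.Agent.EscG.GY

set_option autoImplicit false

/-!
# EscG geometry: output of the metric part

From `exists_adj`, `Adj.exists_B`, `Adj.exists_y`. For `η > 0` the set
`{x | η ≤ y x ≤ τ - η, 0 ≤ x.1 ≤ 1}` is closed and bounded (`y` is `(1,0)`-periodic and
`y (x + (0,1)) = y x + 1`: `|y x - x.2|` is bounded), hence compact.
-/

noncomputable section

open Set Filter Topology

namespace Pool.Agent.EscG

namespace Pl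

/-- gap data for a distance on the plane, in the metric form -/
structure Gap (T : Pl) (B y : ℝ × ℝ → ℝ) (a τ : ℝ) (c0 c1 : ℝ → ℝ × ℝ) : Prop where
  sub : T.Sub B
  Bg : ∀ x, B (x + (0, 1)) = B x + a
  τ_pos : 0 < τ
  τ_le : τ ≤ 1
  yc : Continuous y
  yb : ∀ x, y (x + (1, 0)) = y x
  yg : ∀ x, y (x + (0, 1)) = y x + 1
  cl0 : T.Cl c0
  cl1 : T.Cl c1
  y0 : {x | y x = 0} = range c0
  y1 : {x | y x = τ} = range c1
  strict : ∀ η > 0, ∃ θ δ : ℝ, 0 < θ ∧ 0 < δ ∧ ∀ x x', η ≤ y x → y x ≤ τ - η → T.d x x' ≤ δ →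
    |B x' - B x| ≤ (1 - θ) * T.d x x'

theorem out_int {y : ℝ × ℝ → ℝ} {v : ℝ × ℝ} {c : ℝ} (h : ∀ x, y (x + v) = y x + c) (i : ℤ)
    (x : ℝ × ℝ) : y (x + (i : ℝ) • v) = y x + i * c := by
  induction i using Int.induction_on with
  | zero => simp
  | succ i ih =>
    have e : x + (((i : ℤ) + 1 : ℤ) : ℝ) • v = x + ((i : ℤ) : ℝ) • v + v := by
      push_cast
      rw [add_smul, one_smul, add_assoc]
    rw [e, h, ih]
    push_cast
    ring
  | pred i ih =>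
    have e : x + ((-(i : ℤ) : ℤ) : ℝ) • v = x + ((-(i : ℤ) - 1 : ℤ) : ℝ) • v + v := by
      push_cast
      rw [sub_smul, one_smul]
      abel
    rw [e, h] at ih
    push_cast at ih ⊢
    linarith

theorem exists_gap (T : Pl) {p : ℝ × ℝ} (hp : p ∉ T.D) :
    ∃ B y a τ c0 c1, T.Gap B y a τ c0 c1 := by
  obtain ⟨G0, G1, hA⟩ := T.exists_adj hp
  obtain ⟨B, a, hB, hBg, hK⟩ := hA.exists_B
  obtain ⟨y, τ, hτ, hτ1, hyc, hyb, hyg, hy0, hy1, hy⟩ := hA.exists_y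
  refine ⟨B, y, a, τ, G0, G1, ⟨hB, hBg, hτ, hτ1, hyc, hyb, hyg, hA.cl0, hA.cl1, hy0, hy1, ?_⟩⟩
  intro η hη
  have hb : ∀ (i : ℤ) (x : ℝ × ℝ), y (x + ((i : ℝ), 0)) = y x := by
    intro i x
    have h1 := out_int (y := y) (v := (1, 0)) (c := 0) (fun x => by rw [hyb, add_zero]) i x
    simpa using h1
  have hg : ∀ (j : ℤ) (x : ℝ × ℝ), y (x + (0, (j : ℝ))) = y x + j := by
    intro j x
    have h1 := out_int (y := y) (v := (0, 1)) (c := 1) hyg j x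
    simpa using h1
  set K : Set (ℝ × ℝ) := {x | η ≤ y x ∧ y x ≤ τ - η ∧ 0 ≤ x.1 ∧ x.1 ≤ 1} with hKdef
  obtain ⟨C, hC⟩ := (isCompact_Icc (a := ((0 : ℝ), (0 : ℝ))) (b := ((1 : ℝ), (1 : ℝ)))).exists_bound_of_continuousOn
    (f := fun x : ℝ × ℝ => y x - x.2) (by fun_prop)
  have hKc : IsCompact K := by
    refine (isCompact_Icc (a := ((0 : ℝ), -(C + 1))) (b := ((1 : ℝ), C + 1))).of_isClosed_subset
      ?_ ?_
    · have e1 : IsClosed {x : ℝ × ℝ | η ≤ y x} := isClosed_le continuous_const hyc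
      have e2 : IsClosed {x : ℝ × ℝ | y x ≤ τ - η} := isClosed_le hyc continuous_const
      have e3 : IsClosed {x : ℝ × ℝ | 0 ≤ x.1} := isClosed_le continuous_const continuous_fst
      have e4 : IsClosed {x : ℝ × ℝ | x.1 ≤ 1} := isClosed_le continuous_fst continuous_const
      exact e1.inter (e2.inter (e3.inter e4))
    · rintro x ⟨h1, h2, h3, h4⟩
      have h5 : x = (x.1, x.2 - ⌊x.2⌋) + (0, ((⌊x.2⌋ : ℤ) : ℝ)) := by
        ext <;> simp
      have h6 := hC (x.1, x.2 - ⌊x.2⌋) ⟨⟨h3, sub_nonneg.2 (Int.floor_le x.2)⟩,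
        ⟨h4, by simpa using (Int.fract_lt_one x.2).le⟩⟩
      have h7 : y x = y (x.1, x.2 - ⌊x.2⌋) + ⌊x.2⌋ := by
        conv_lhs => rw [h5]
        exact hg _ _
      rw [Real.norm_eq_abs] at h6
      simp only at h6
      have h8 : |y x - x.2| ≤ C := by
        rw [h7]
        refine le_trans (le_of_eq ?_) h6
        congr 1
        ring
      rw [abs_le] at h8
      exact ⟨⟨h3, by show -(C + 1) ≤ x.2; linarith [h8.1, h8.2]⟩,
        ⟨h4, by show x.2 ≤ C + 1; linarith [h8.1, h8.2]⟩⟩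
  obtain ⟨θ, δ, hθ, hδ, h⟩ := hK K hKc (fun x hx => hy x ⟨by linarith [hx.1], by linarith [hx.2.1]⟩)
  refine ⟨θ, δ, hθ, hδ, fun x x' h1 h2 h3 => ?_⟩
  have h4 : x = (x.1 - ⌊x.1⌋, x.2) + (((⌊x.1⌋ : ℤ) : ℝ), 0) := by
    ext <;> simp
  have h5 : y (x.1 - ⌊x.1⌋, x.2) = y x := by
    conv_rhs => rw [h4]
    rw [hb]
  have h6 := h (x.1 - ⌊x.1⌋, x.2) ⟨by rw [h5]; exact h1, by rw [h5]; exact h2,
    sub_nonneg.2 (Int.floor_le x.1), by simpa using (Int.fract_lt_one x.1).le⟩ ⌊x.1⌋ x'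
  rw [← h4] at h6
  exact h6 h3

end Pl

end Pool.Agent.EscG
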