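import Pool.Agent.EscG.R2
import Pool.Agent.EscG.GOut

set_option autoImplicit false

/-!
# EscG geometry: from the metric gap data to the gap data in `E`

`curve_le`: subdivide `[a,b]` in small intervals; on each of them
`B (traj t) - B (traj s) ≤ (q ρ (traj s) + ε / 2) ‖traj t - traj s‖ ≤ ∫ (q ρ (traj r) + ε) ‖u r‖ dr`.
`gap_transfer`: `B' := B ∘ (co β)⁻¹` etc. A function with `B y - B x ≤ ed x y` satisfies the
hypothesis of `curve_le` by `Conf.ed_loc`, and `strict` gives it with `q = 1 - θ` on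
`{η ≤ y ≤ τ - η}` for `‖y - x‖ ≤ δ / MF`. The curves `c_i` are isometric lines, so `iso_gode_univ`.
-/

noncomputable section

namespace Pool.Agent.EscG

open MeasureTheory Set Filter Topology Esc EscF _root_.EscG

variable {E : Type*} [NormedAddCommGroup E] [InnerProductSpace ℝ E] [FiniteDimensional ℝ E]
  {β : Module.Basis (Fin 2) ℝ E} {ρ : E → ℝ} {mF MF : ℝ}

/-- chaining of small steps -/
theorem R3_chain {f : ℝ → ℝ} {a b h : ℝ} (hh : 0 < h)
    (hs : ∀ s t, a ≤ s → s ≤ t → t ≤ b → t - s ≤ h → f s ≤ f t) (hab : a ≤ b) : f a ≤ f b := by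
  have key : ∀ n : ℕ, ∀ t, a ≤ t → t ≤ b → t - a ≤ n * h → f a ≤ f t := by
    intro n
    induction n with
    | zero =>
      intro t h1 h2 h3
      have h4 : t = a := by
        simp only [Nat.cast_zero, zero_mul] at h3
        linarith
      rw [h4]
    | succ n ih =>
      intro t h1 h2 h3
      push_cast at h3
      have h4 := ih (max a (t - h)) (le_max_left _ _)
        (max_le (h1.trans h2) (by linarith)) (by
          rcases max_cases a (t - h) with h5 | h5
          · rw [h5.1]
            have : 0 ≤ (n : ℝ) * h := by positivity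
            linarith
          · rw [h5.1]
            linarith)
      refine h4.trans (hs _ _ (le_max_left _ _) (max_le h1 (by linarith)) h2 ?_)
      have := le_max_right a (t - h)
      linarith
  obtain ⟨n, hn⟩ := exists_nat_ge ((b - a) / h)
  exact key n b hab le_rfl ((div_le_iff₀ hh).1 hn)

theorem R3_ii (hρ : Continuous ρ) (z : E) {u : ℝ → E} (hu : Adm u) (a c d : ℝ) :
    IntervalIntegrable (fun t => ρ (traj a z u t) * ‖u t‖) volume c d :=
  (hu.ii c d).norm.continuousOn_mul (hρ.comp (traj_cont hu a z)).continuousOn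

theorem curve_le (hρ : Continuous ρ) {B : E → ℝ} {S : Set E} {q L δ : ℝ} (hq : 0 ≤ q) (hδ : 0 < δ)
    (hB : ∀ x ∈ S, ∀ y, ‖y - x‖ ≤ δ → |B y - B x| ≤ q * ((ρ x + L * ‖y - x‖) * ‖y - x‖)) {z : E}
    {u : ℝ → E} (hu : Adm u) {a b : ℝ} (hab : a ≤ b) (hS : ∀ t ∈ Icc a b, traj a z u t ∈ S) :
    B (traj a z u b) - B z ≤ q * ∫ t in a..b, ρ (traj a z u t) * ‖u t‖ := by
  classical
  -- the factor is nonnegative on `S` unless the space is trivial
  have hpos : (∃ v : E, v ≠ 0) → ∀ x ∈ S, 0 ≤ q * ρ x := by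
    rintro ⟨v, hv⟩ x hx
    have hvn : 0 < ‖v‖ := norm_pos_iff.2 hv
    by_contra hneg
    push Not at hneg
    -- a small multiple of `v`
    obtain ⟨r, hr0, hrδ, hr1⟩ : ∃ r : ℝ, 0 < r ∧ r ≤ δ ∧ q * (ρ x + L * r) < 0 := by
      have hcont : Tendsto (fun r : ℝ => q * (ρ x + L * r)) (𝓝[>] 0) (𝓝 (q * (ρ x + L * 0))) := by
        apply Tendsto.mono_left _ nhdsWithin_le_nhds
        exact (by fun_prop : Continuous fun r : ℝ => q * (ρ x + L * r)).tendsto 0
      rw [mul_zero, add_zero] at hcont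
      have h1 := hcont.eventually (gt_mem_nhds hneg)
      have h2 : ∀ᶠ r : ℝ in 𝓝[>] 0, r ∈ Ioc 0 δ := Ioc_mem_nhdsGT hδ
      obtain ⟨r, hr, hr'⟩ := (h1.and h2).exists
      exact ⟨r, hr'.1, hr'.2, hr⟩
    have h1 := hB x hx (x + (r / ‖v‖) • v)
    have h2 : ‖x + (r / ‖v‖) • v - x‖ = r := by
      rw [add_sub_cancel_left, norm_smul, Real.norm_eq_abs, abs_of_pos (by positivity)]
      field_simp
    rw [h2] at h1
    have h3 := (abs_nonneg _).trans (h1 hrδ)
    have h4 : q * ((ρ x + L * r) * r) = (q * (ρ x + L * r)) * r := by ring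
    rw [h4] at h3
    have h5 := mul_neg_of_neg_of_pos hr1 hr0
    linarith
  by_cases hE : ∃ v : E, v ≠ 0
  swap
  · push Not at hE
    have h1 : traj a z u b = z := by rw [hE (traj a z u b), hE z]
    have h2 : ∀ t, u t = 0 := fun t => hE _
    rw [h1, sub_self]
    simp [h2]
  have hpos' := hpos hE
  have hI : IntervalIntegrable (fun t => ‖u t‖) volume a b := (hu.ii a b).norm
  -- main estimate with `ε`
  have main : ∀ ε > 0, B (traj a z u b) - B z ≤
      (q * ∫ t in a..b, ρ (traj a z u t) * ‖u t‖) + ε * ∫ t in a..b, ‖u t‖ := by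
    intro ε hε
    have hc : Continuous (traj a z u) := traj_cont hu a z
    -- uniform continuity
    have huc1 : UniformContinuousOn (traj a z u) (Icc a b) :=
      isCompact_Icc.uniformContinuousOn_of_continuous hc.continuousOn
    have huc2 : UniformContinuousOn (fun t => q * ρ (traj a z u t)) (Icc a b) :=
      isCompact_Icc.uniformContinuousOn_of_continuous
        (continuous_const.mul (hρ.comp hc)).continuousOn
    rw [Metric.uniformContinuousOn_iff] at huc1 huc2
    have hη : 0 < min δ (ε / (2 * (q * |L| + 1))) := lt_min hδ (by positivity)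
    obtain ⟨h1, hh1, hs1⟩ := huc1 _ hη
    obtain ⟨h2, hh2, hs2⟩ := huc2 (ε / 2) (by positivity)
    set Ψ : ℝ → ℝ := fun t => (q * ∫ r in a..t, ρ (traj a z u r) * ‖u r‖) + ε * ∫ r in a..t, ‖u r‖
      with hΨ
    have hstep : ∀ s t, a ≤ s → s ≤ t → t ≤ b → t - s ≤ min h1 h2 / 2 →
        Ψ s - B (traj a z u s) ≤ Ψ t - B (traj a z u t) := by
      intro s t has hst htb hsmall
      have hmin : 0 < min h1 h2 := lt_min hh1 hh2
      have hds : dist t s < min h1 h2 := by
        rw [Real.dist_eq, abs_of_nonneg (by linarith)]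
        linarith
      have hsI : s ∈ Icc a b := ⟨has, hst.trans htb⟩
      have htI : t ∈ Icc a b := ⟨has.trans hst, htb⟩
      have hw := hs1 t htI s hsI (hds.trans_le (min_le_left _ _))
      rw [dist_eq_norm] at hw
      have hwδ : ‖traj a z u t - traj a z u s‖ ≤ δ := hw.le.trans (min_le_left _ _)
      have hwL : q * L * ‖traj a z u t - traj a z u s‖ ≤ ε / 2 := by
        have h3 : ‖traj a z u t - traj a z u s‖ ≤ ε / (2 * (q * |L| + 1)) :=
          hw.le.trans (min_le_right _ _)
        have h4 : q * L ≤ q * |L| := mul_le_mul_of_nonneg_left (le_abs_self L) hq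
        calc q * L * ‖traj a z u t - traj a z u s‖
            ≤ q * |L| * ‖traj a z u t - traj a z u s‖ :=
              mul_le_mul_of_nonneg_right h4 (norm_nonneg _)
          _ ≤ (q * |L| + 1) * ‖traj a z u t - traj a z u s‖ :=
              mul_le_mul_of_nonneg_right (by linarith) (norm_nonneg _)
          _ ≤ (q * |L| + 1) * (ε / (2 * (q * |L| + 1))) :=
              mul_le_mul_of_nonneg_left h3 (by positivity)
          _ = ε / 2 := by field_simp
      have hBs := (le_abs_self _).trans (hB _ (hS s hsI) (traj a z u t) hwδ)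
      -- the displacement
      have hdisp : ‖traj a z u t - traj a z u s‖ ≤ ∫ r in s..t, ‖u r‖ := by
        have h3 : traj a z u t - traj a z u s = ∫ r in s..t, u r := by
          unfold traj
          rw [add_sub_add_left_eq_sub, intervalIntegral.integral_interval_sub_left
            (hu.ii a t) (hu.ii a s)]
        rw [h3]
        exact intervalIntegral.norm_integral_le_integral_norm hst
      have hqs := hpos' _ (hS s hsI)
      have hA : B (traj a z u t) - B (traj a z u s) ≤
          (q * ρ (traj a z u s) + ε / 2) * ∫ r in s..t, ‖u r‖ := by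
        calc B (traj a z u t) - B (traj a z u s)
            ≤ q * ((ρ (traj a z u s) + L * ‖traj a z u t - traj a z u s‖) *
              ‖traj a z u t - traj a z u s‖) := hBs
          _ = (q * ρ (traj a z u s) + q * L * ‖traj a z u t - traj a z u s‖) *
              ‖traj a z u t - traj a z u s‖ := by ring
          _ ≤ (q * ρ (traj a z u s) + ε / 2) * ‖traj a z u t - traj a z u s‖ :=
              mul_le_mul_of_nonneg_right (by linarith) (norm_nonneg _)
          _ ≤ (q * ρ (traj a z u s) + ε / 2) * ∫ r in s..t, ‖u r‖ :=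
              mul_le_mul_of_nonneg_left hdisp (by linarith)
      have hC : (q * ρ (traj a z u s) + ε / 2) * ∫ r in s..t, ‖u r‖ ≤
          (q * ∫ r in s..t, ρ (traj a z u r) * ‖u r‖) + ε * ∫ r in s..t, ‖u r‖ := by
        rw [← intervalIntegral.integral_const_mul, ← intervalIntegral.integral_const_mul,
          ← intervalIntegral.integral_const_mul, ← intervalIntegral.integral_add
            ((R3_ii hρ z hu a s t).const_mul q) ((hu.ii s t).norm.const_mul ε)]
        refine intervalIntegral.integral_mono_on hst ((hu.ii s t).norm.const_mul _)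
          (((R3_ii hρ z hu a s t).const_mul q).add ((hu.ii s t).norm.const_mul ε)) ?_
        intro r hr
        have hrI : r ∈ Icc a b := ⟨has.trans hr.1, hr.2.trans htb⟩
        have h3 := hs2 r hrI s hsI (by
          refine lt_of_le_of_lt ?_ (hds.trans_le (min_le_right _ _))
          rw [Real.dist_eq, Real.dist_eq, abs_of_nonneg (by linarith [hr.1]),
            abs_of_nonneg (by linarith)]
          linarith [hr.2])
        rw [Real.dist_eq] at h3
        have h4 := (abs_lt.1 h3).1
        have h5 : (q * ρ (traj a z u s) + ε / 2) ≤ q * ρ (traj a z u r) + ε := by linarith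
        calc (q * ρ (traj a z u s) + ε / 2) * ‖u r‖ ≤ (q * ρ (traj a z u r) + ε) * ‖u r‖ :=
              mul_le_mul_of_nonneg_right h5 (norm_nonneg _)
          _ = q * (ρ (traj a z u r) * ‖u r‖) + ε * ‖u r‖ := by ring
      have e1 : (∫ r in a..t, ρ (traj a z u r) * ‖u r‖) =
          (∫ r in a..s, ρ (traj a z u r) * ‖u r‖) + ∫ r in s..t, ρ (traj a z u r) * ‖u r‖ :=
        (intervalIntegral.integral_add_adjacent_intervals (R3_ii hρ z hu a a s)
          (R3_ii hρ z hu a s t)).symm
      have e2 : (∫ r in a..t, ‖u r‖) = (∫ r in a..s, ‖u r‖) + ∫ r in s..t, ‖u r‖ :=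
        (intervalIntegral.integral_add_adjacent_intervals (hu.ii a s).norm (hu.ii s t).norm).symm
      simp only [hΨ]
      rw [e1, e2]
      have := hA.trans hC
      nlinarith
    have h3 := R3_chain (f := fun t => Ψ t - B (traj a z u t))
      (by have := lt_min hh1 hh2; positivity : 0 < min h1 h2 / 2) hstep hab
    have h4 : traj a z u a = z := by simp [traj]
    have h5 : Ψ a = 0 := by simp [hΨ]
    simp only [h4, h5] at h3
    simp only [hΨ] at h3
    linarith
  refine le_of_forall_pos_le_add fun ε hε => ?_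
  have hIn : 0 ≤ ∫ t in a..b, ‖u t‖ :=
    intervalIntegral.integral_nonneg hab fun t _ => norm_nonneg _
  have h1 := main (ε / ((∫ t in a..b, ‖u t‖) + 1)) (by positivity)
  refine h1.trans ?_
  have h2 : ε / ((∫ t in a..b, ‖u t‖) + 1) * ∫ t in a..b, ‖u t‖ ≤ ε := by
    rw [div_mul_eq_mul_div, div_le_iff₀ (by positivity)]
    nlinarith
  linarith

/-! ### Coordinates -/

/-- the inverse of `co β` -/
def R3_ic (β : Module.Basis (Fin 2) ℝ E) (x : E) : ℝ × ℝ := (co_surj β x).choose

theorem R3_co_ic (β : Module.Basis (Fin 2) ℝ E) (x : E) : co β (R3_ic β x) = x :=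
  (co_surj β x).choose_spec

theorem R3_ic_co (β : Module.Basis (Fin 2) ℝ E) (z : ℝ × ℝ) : R3_ic β (co β z) = z :=
  co_inj β (R3_co_ic β _)

theorem R3_co_add (β : Module.Basis (Fin 2) ℝ E) (z w : ℝ × ℝ) :
    co β (z + w) = co β z + co β w := by
  simp only [co, Prod.fst_add, Prod.snd_add]
  module

theorem R3_co_10 (β : Module.Basis (Fin 2) ℝ E) : co β (1, 0) = β 0 := by simp [co]

theorem R3_co_01 (β : Module.Basis (Fin 2) ℝ E) : co β (0, 1) = β 1 := by simp [co]

theorem R3_ic_b (β : Module.Basis (Fin 2) ℝ E) (x : E) : R3_ic β (x + β 0) = R3_ic β x + (1, 0) := by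
  apply co_inj β
  rw [R3_co_ic, R3_co_add, R3_co_ic, R3_co_10]

theorem R3_ic_g (β : Module.Basis (Fin 2) ℝ E) (x : E) : R3_ic β (x + β 1) = R3_ic β x + (0, 1) := by
  apply co_inj β
  rw [R3_co_ic, R3_co_add, R3_co_ic, R3_co_01]

theorem R3_ic_cont (β : Module.Basis (Fin 2) ℝ E) : Continuous (R3_ic β) := by
  obtain ⟨c, C, hc, hC, h⟩ := co_bd β
  have h1 : LipschitzWith (Real.toNNReal c⁻¹) (R3_ic β) := by
    refine LipschitzWith.of_dist_le_mul fun x y => ?_
    rw [Real.coe_toNNReal _ (inv_pos.2 hc).le, dist_eq_norm, dist_eq_norm]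
    have h2 := (h (R3_ic β x) (R3_ic β y)).1
    rw [R3_co_ic, R3_co_ic] at h2
    rw [inv_mul_eq_div, le_div_iff₀ hc, mul_comm]
    exact h2
  exact h1.continuous

/-- `B` grows with unit speed along closed minimal lines -/
theorem R3_cal {T : Pl} {B : ℝ × ℝ → ℝ} (hB : T.Sub B) {G : ℝ → ℝ × ℝ} (hG : T.Cl G) (s t : ℝ) :
    B (G t) - B (G s) = t - s := by
  have hl : 0 < T.l := T.l_pos
  -- periods
  have hper : ∀ (n : ℕ) (t : ℝ), B (G (t + n * T.l)) = B (G t) + n * T.l := by
    intro n
    induction n with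
    | zero => intro t; simp
    | succ n ih =>
      intro t
      have e : t + ((n + 1 : ℕ) : ℝ) * T.l = (t + n * T.l) + T.l := by push_cast; ring
      rw [e, hG.2, hB.2, ih]
      push_cast
      ring
  -- one inequality for `s ≤ t`, the other by periodicity
  have key : ∀ s t : ℝ, s ≤ t → B (G t) - B (G s) = t - s := by
    intro s t hst
    have h1 : B (G t) - B (G s) ≤ t - s := by
      have h := hB.1 (G s) (G t)
      rw [hG.1, abs_sub_comm, abs_of_nonneg (by linarith)] at h
      exact h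
    obtain ⟨n, hn⟩ := exists_nat_ge ((t - s) / T.l)
    rw [div_le_iff₀ hl] at hn
    have h2 : B (G (s + n * T.l)) - B (G t) ≤ s + n * T.l - t := by
      have h := hB.1 (G t) (G (s + n * T.l))
      rw [hG.1, abs_sub_comm, abs_of_nonneg (by linarith)] at h
      exact h
    have h3 := hper n s
    linarith
  rcases le_total s t with h | h
  · exact key s t h
  · have := key t s h
    linarith

/-- from `Pl.Gap` to `GapE` -/
theorem Conf.gap_transfer (h : Conf β ρ mF MF) {T : Pl}
    (hT : ∀ x y, T.d x y = ed ρ (co β x) (co β y)) {B y : ℝ × ℝ → ℝ} {a τ : ℝ} {c0 c1 : ℝ → ℝ × ℝ}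
    (hG : T.Gap B y a τ c0 c1) : ∃ (B' y' : E → ℝ) (c0' c1' : ℝ → E),
      GapE β ρ B' y' T.l a τ c0' c1' := by
  obtain ⟨L, hL0, hL⟩ := h.lip
  have hρc : Continuous ρ := h.smooth.continuous
  have hMF : 0 < MF := h.mF_pos.trans_le ((h.low 0).trans (h.upp 0))
  have hd : ∀ x x' : E, T.d (R3_ic β x) (R3_ic β x') = ed ρ x x' := by
    intro x x'
    rw [hT, R3_co_ic, R3_co_ic]
  have hBd : ∀ x x' : E, |B (R3_ic β x') - B (R3_ic β x)| ≤ ed ρ x x' := by
    intro x x'
    rw [← hd]
    exact T.abs_sub_le hG.sub.1 _ _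
  have iso : ∀ c : ℝ → ℝ × ℝ, T.Cl c → ∃ v : ℝ → E, Continuous v ∧
      ∀ t, HasDerivAt (fun s => co β (c s)) (v t) t ∧ ρ (co β (c t)) * ‖v t‖ = 1 := by
    intro c hc
    obtain ⟨v, h1, h2, h3, -⟩ := h.iso_gode_univ (Z := fun s => co β (c s)) (by
      intro s t
      rw [← hT]
      exact hc.1 s t)
    exact ⟨v, h1, fun t => ⟨h2 t, h3 t⟩⟩
  have rng : ∀ (r : ℝ) (c : ℝ → ℝ × ℝ), {x | y x = r} = range c →
      {x : E | y (R3_ic β x) = r} = range fun s => co β (c s) := by
    intro r c hc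
    ext x
    have h1 : R3_ic β x ∈ {x | y x = r} ↔ R3_ic β x ∈ range c := by rw [hc]
    constructor
    · intro hx
      obtain ⟨s, hs⟩ := h1.1 hx
      refine ⟨s, ?_⟩
      show co β (c s) = x
      rw [hs, R3_co_ic]
    · rintro ⟨s, rfl⟩
      show y (R3_ic β (co β (c s))) = r
      rw [R3_ic_co]
      have h2 : c s ∈ {x | y x = r} := by
        rw [hc]
        exact mem_range_self s
      exact h2
  have per : ∀ c : ℝ → ℝ × ℝ, T.Cl c → ∀ t, co β (c (t + T.l)) = co β (c t) + β 0 := by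
    intro c hc t
    rw [hc.2, R3_co_add, R3_co_10]
  refine ⟨fun x => B (R3_ic β x), fun x => y (R3_ic β x), fun s => co β (c0 s),
    fun s => co β (c1 s), ?_⟩
  refine ⟨T.l_pos, ?_, ?_, ?_, hG.τ_pos, hG.τ_le, ?_, ?_, ?_, per c0 hG.cl0, per c1 hG.cl1,
    iso c0 hG.cl0, iso c1 hG.cl1, ?_, ?_, rng 0 c0 hG.y0, rng τ c1 hG.y1, ?_⟩
  · intro z u hu a b hab
    have h1 := curve_le (B := fun x => B (R3_ic β x)) (S := univ) (q := 1) (L := L) (δ := 1) hρc
      zero_le_one one_pos (by
        intro x _ x' _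
        rw [one_mul]
        exact (hBd x x').trans (h.ed_loc hL x x')) (z := z) hu hab (fun t _ => mem_univ _)
    rw [one_mul] at h1
    exact h1
  · intro x
    show B (R3_ic β (x + β 0)) = B (R3_ic β x) + T.l
    rw [R3_ic_b, hG.sub.2]
  · intro x
    show B (R3_ic β (x + β 1)) = B (R3_ic β x) + a
    rw [R3_ic_g, hG.Bg]
  · exact hG.yc.comp (R3_ic_cont β)
  · intro x
    show y (R3_ic β (x + β 0)) = y (R3_ic β x)
    rw [R3_ic_b, hG.yb]
  · intro x
    show y (R3_ic β (x + β 1)) = y (R3_ic β x) + 1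
    rw [R3_ic_g, hG.yg]
  · intro s t
    show B (R3_ic β (co β (c0 t))) - B (R3_ic β (co β (c0 s))) = t - s
    rw [R3_ic_co, R3_ic_co]
    exact R3_cal hG.sub hG.cl0 s t
  · intro s t
    show B (R3_ic β (co β (c1 t))) - B (R3_ic β (co β (c1 s))) = t - s
    rw [R3_ic_co, R3_ic_co]
    exact R3_cal hG.sub hG.cl1 s t
  · intro η hη
    obtain ⟨θ, δ, hθ, hδ, hs⟩ := hG.strict η hη
    refine ⟨min θ 1, lt_min hθ one_pos, ?_⟩
    intro z u hu a b hab hy
    refine curve_le (B := fun x => B (R3_ic β x))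
      (S := {x : E | η ≤ y (R3_ic β x) ∧ y (R3_ic β x) ≤ τ - η}) (L := L) (δ := δ / MF)
      hρc (by linarith [min_le_right θ 1]) (by positivity) ?_ hu hab hy
    intro x hx x' hxx
    have hed : ed ρ x x' ≤ δ := by
      refine (h.ed_upp x x').trans ?_
      rw [norm_sub_rev]
      rw [le_div_iff₀ hMF] at hxx
      linarith
    have h1 := hs (R3_ic β x) (R3_ic β x') hx.1 hx.2 (by rw [hd]; exact hed)
    rw [hd] at h1
    have hed0 : 0 ≤ ed ρ x x' := Real.sqrt_nonneg _
    have h2 : (1 - θ) * ed ρ x x' ≤ (1 - min θ 1) * ed ρ x x' :=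
      mul_le_mul_of_nonneg_right (by linarith [min_le_left θ 1]) hed0
    refine h1.trans (h2.trans ?_)
    exact mul_le_mul_of_nonneg_left (h.ed_loc hL x x') (by linarith [min_le_right θ 1])

/-- a class with non constant displacement gives a gap -/
theorem Conf.gap_of (h : Conf β ρ mF MF)
    (hd : ∃ x y, ed ρ x (x + β 0) ≠ ed ρ y (y + β 0)) :
    ∃ (B y : E → ℝ) (l a τ : ℝ) (c0 c1 : ℝ → E), GapE β ρ B y l a τ c0 c1 := by
  obtain ⟨T, hT⟩ := h.exists_pl
  have hd' : ∀ x : E, T.d (R3_ic β x) (R3_ic β x + (1, 0)) = ed ρ x (x + β 0) := by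
    intro x
    rw [hT, R3_co_add, R3_co_ic, R3_co_10]
  obtain ⟨p, hp⟩ : ∃ p, p ∉ T.D := by
    obtain ⟨x, x', hne⟩ := hd
    by_contra hcon
    push Not at hcon
    have h1 : T.d (R3_ic β x) (R3_ic β x + (1, 0)) = T.l := hcon _
    have h2 : T.d (R3_ic β x') (R3_ic β x' + (1, 0)) = T.l := hcon _
    rw [hd'] at h1 h2
    exact hne (h1.trans h2.symm)
  obtain ⟨B, y, a, τ, c0, c1, hG⟩ := T.exists_gap hp
  obtain ⟨B', y', c0', c1', hG'⟩ := h.gap_transfer hT hG
  exact ⟨B', y', T.l, a, τ, c0', c1', hG'⟩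

end Pool.Agent.EscG
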