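import Pool.Agent.EscG.GStep

set_option autoImplicit false

/-!
# EscG geometry: the extreme functions `U` (class `(l, a+)`) and `V` (class `(l, a-)`)

Fix a closed line `G`, `G_j := G + (0, j)`, `E := En G G_1`. `u_j x := j E + bus G_j x`
(`= inf_s (j E + s + d (G_j s) x)`). (1) `u_(j-1) ≤ u_j`: `En` inequality and triangle inequality:
for `s → -∞` and `s' ` fixed, `s + d (G_(j-1) s) x ≤ s + d (G_(j-1) s) (G_j s') + d (G_j s') x` and
`inf_s (s + d (G_(j-1) s) (G_j s')) = E + s'` (this infimum does not depend on `s'` up to the shift: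
`bus G_(j-1) (G_j s') - s'` is `l`-periodic and nonincreasing in `s'`, so constant, `= En`).
(2) if `¬ Lo (range G_j) x` then `u_j x ≤ u_(j-1) x`: a minimal segment from `G_(j-1) s` to `x` goes from
below `G_j` to a point of or above `G_j`, so it meets `G_j` at some `G_j s1` and
`s + d (G_(j-1) s) x = s + d (G_(j-1) s) (G_j s1) + d (G_j s1) x ≥ E + s1 + d (G_j s1) x`.
`U := inf_j u_j` (`= u_j x` for all `j` with `¬ Lo (range G_j) x`: bounded below and eventually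
constant as `j → -∞`). `U (x + (0,1)) = U x + E` because `u_j (x + (0,1)) = u_(j-1) x + E`.
Key property: let `G'` be any closed line and `¬ Lo (range G') x`. Take `j` with `G_j` strictly below
`G'` (`j` very negative; `Cl.cases`); then `U x = u_j x`, and a minimal segment from `G_j s` (with
`j E + s + d (G_j s) x < U x + ε`) to `x` meets `G'` at `z = G' s'`:
`U x + ε > j E + s + d (G_j s) z + d z x ≥ U z + d z x`.
`V` is obtained from the function `U` of the reflected distance `T.refl` and the closed line `rf ∘ G`.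
-/

noncomputable section

open Set Filter Topology

namespace Pool.Agent.EscG

namespace Pl

variable {T : Pl} {G : ℝ → ℝ × ℝ}

theorem GU_cl (h : T.Cl G) (j : ℤ) : T.Cl (fun t => G t + ((0 : ℝ), (j : ℝ))) := by
  have h1 := h.translate 0 j
  simpa using h1

theorem GU_height (h : T.Cl G) : ∃ C : ℝ, ∀ t, |(G t).2| ≤ C := by
  obtain ⟨C, hC⟩ := h.ul
  exact ⟨C, fun t => (hC.2 t).2⟩

theorem GU_per (T : Pl) (j : ℤ) (x y : ℝ × ℝ) :
    T.d (x + ((0 : ℝ), (j : ℝ))) (y + ((0 : ℝ), (j : ℝ))) = T.d x y := by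
  have h := T.per 0 j x y
  simpa using h

theorem GU_per1 (T : Pl) (x y : ℝ × ℝ) :
    T.d (x + ((0 : ℝ), (1 : ℝ))) (y + ((0 : ℝ), (1 : ℝ))) = T.d x y := by
  have h := GU_per T 1 x y
  simpa using h

theorem GU_perk (T : Pl) (k : ℤ) (x y : ℝ × ℝ) :
    T.d (x + ((k : ℝ), (0 : ℝ))) (y + ((k : ℝ), (0 : ℝ))) = T.d x y := by
  have h := T.per k 0 x y
  simpa using h

theorem GU_int (h : T.Cl G) (k : ℤ) (t : ℝ) : G (t + k * T.l) = G t + ((k : ℝ), (0 : ℝ)) := by
  have hnat : ∀ (n : ℕ) (t : ℝ), G (t + n * T.l) = G t + ((n : ℝ), (0 : ℝ)) := by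
    intro n
    induction n with
    | zero =>
      intro t
      simp
    | succ n ih =>
      intro t
      have e : t + ((n + 1 : ℕ) : ℝ) * T.l = (t + n * T.l) + T.l := by push_cast; ring
      rw [e, h.2, ih]
      ext
      · simp [add_assoc]
      · simp
  obtain ⟨n, rfl | rfl⟩ := Int.eq_nat_or_neg k
  · have := hnat n t
    simpa using this
  · have h1 := hnat n (t + ((-(n : ℤ) : ℤ) : ℝ) * T.l)
    have e : t + ((-(n : ℤ) : ℤ) : ℝ) * T.l + n * T.l = t := by push_cast; ring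
    rw [e] at h1
    rw [h1]
    ext
    · simp
    · simp

/-- the Busemann function of a closed line on the next translate -/
theorem GU_bus_next (h : T.Cl G) (s' : ℝ) :
    T.bus G (G s' + (0, 1)) = s' + T.En G (fun t => G t + (0, 1)) := by
  have h1 : T.Cl (fun t => G t + ((0 : ℝ), (1 : ℝ))) := by
    have := GU_cl h 1
    simpa using this
  apply le_antisymm
  · have h2 : T.bus G (G s' + (0, 1)) - s' ≤ T.En G (fun t => G t + (0, 1)) := by
      unfold En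
      refine le_ciInf (fun p => ?_)
      obtain ⟨s0, s1⟩ := p
      obtain ⟨n, hn⟩ := exists_nat_gt ((s1 - s') / T.l)
      have hl := T.l_pos
      rw [div_lt_iff₀ hl] at hn
      have h3 := h.bus_le (G s' + (0, 1)) (s0 + ((-(n : ℤ) : ℤ) : ℝ) * T.l)
      rw [GU_int h] at h3
      have h4 := T.tri (G s0 + (((-(n : ℤ) : ℤ) : ℝ), (0 : ℝ)))
        ((G s1 + (0, 1)) + (((-(n : ℤ) : ℤ) : ℝ), (0 : ℝ))) (G s' + (0, 1))
      rw [GU_perk] at h4
      have h5 : (G s1 + ((0 : ℝ), (1 : ℝ))) + (((-(n : ℤ) : ℤ) : ℝ), (0 : ℝ)) =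
          G (s1 + ((-(n : ℤ) : ℤ) : ℝ) * T.l) + (0, 1) := by
        rw [GU_int h]
        ext
        · simp
        · simp
      rw [h5] at h4
      have h6 := h1.1 (s1 + ((-(n : ℤ) : ℤ) : ℝ) * T.l) s'
      simp only at h6
      rw [h6] at h4
      have h7 : |s1 + ((-(n : ℤ) : ℤ) : ℝ) * T.l - s'| = s' - s1 + n * T.l := by
        rw [abs_of_nonpos]
        · push_cast; ring
        · push_cast; linarith
      rw [h7] at h4
      push_cast at h3 h4
      beta_reduce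
      linarith
    linarith
  · unfold bus
    refine le_ciInf (fun s => ?_)
    have h2 := En_le h h1 s s'
    beta_reduce at h2
    linarith

/-- the functions `u_j` -/
def GU_u (T : Pl) (G : ℝ → ℝ × ℝ) (j : ℤ) (x : ℝ × ℝ) : ℝ :=
  j * T.En G (fun t => G t + (0, 1)) + T.bus (fun t => G t + ((0 : ℝ), (j : ℝ))) x

theorem GU_bus_shift (T : Pl) (G : ℝ → ℝ × ℝ) (i j : ℤ) (x : ℝ × ℝ) :
    T.bus (fun t => G t + ((0 : ℝ), ((j + i : ℤ) : ℝ))) (x + ((0 : ℝ), (i : ℝ))) =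
      T.bus (fun t => G t + ((0 : ℝ), (j : ℝ))) x := by
  unfold bus
  congr 1
  funext s
  have e : G s + ((0 : ℝ), ((j + i : ℤ) : ℝ)) = (G s + ((0 : ℝ), (j : ℝ))) + ((0 : ℝ), (i : ℝ)) := by
    ext
    · simp
    · simp [add_assoc]
  beta_reduce
  rw [e, GU_per]

/-- value of the previous Busemann function on a translate -/
theorem GU_bus_prev (h : T.Cl G) (j : ℤ) (s' : ℝ) :
    T.bus (fun t => G t + ((0 : ℝ), ((j - 1 : ℤ) : ℝ))) (G s' + ((0 : ℝ), (j : ℝ))) =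
      s' + T.En G (fun t => G t + (0, 1)) := by
  have h1 := GU_bus_shift T G (j - 1) 0 (G s' + (0, 1))
  have e1 : (G s' + ((0 : ℝ), (1 : ℝ))) + ((0 : ℝ), ((j - 1 : ℤ) : ℝ)) =
      G s' + ((0 : ℝ), (j : ℝ)) := by
    ext
    · simp
    · simp [add_assoc]
  have e2 : (0 : ℤ) + (j - 1) = j - 1 := by ring
  rw [e1, e2] at h1
  rw [h1, ← GU_bus_next h s']
  congr 1
  funext t
  simp

/-- a continuous curve from below `S` to a point not below `S` meets `S` -/
theorem GU_meets {S : Set (ℝ × ℝ)} {γ : ℝ → ℝ × ℝ} {b : ℝ} (hb : 0 ≤ b)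
    (hγ : ContinuousOn γ (Icc 0 b)) (h0 : Lo S (γ 0)) (h1 : ¬ Lo S (γ b)) :
    ∃ t ∈ Icc 0 b, γ t ∈ S := by
  by_contra hcon
  push Not at hcon
  exact h1 (Lo.of_joinedIn (joinedIn_of_curve hb hγ hcon).symm h0)

/-- a minimal segment from below `S` to a point not below `S` meets `S` -/
theorem GU_seg (T : Pl) {S : Set (ℝ × ℝ)} {x y : ℝ × ℝ} (h0 : Lo S x) (h1 : ¬ Lo S y) :
    ∃ z ∈ S, T.d x y = T.d x z + T.d z y := by
  obtain ⟨γ, hγ0, hγ1, hγ⟩ := T.geo x y
  have hb := T.d_nonneg x y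
  have hc : ContinuousOn γ (Icc 0 (T.d x y)) := by
    have hm := T.m_pos
    rw [Metric.continuousOn_iff]
    intro t ht ε hε
    refine ⟨T.m * ε, by positivity, fun s hs hst => ?_⟩
    have h2 := T.low (γ s) (γ t)
    rw [hγ s hs t ht] at h2
    rw [Real.dist_eq] at hst
    rw [dist_eq_norm]
    have h3 : T.m * ‖γ s - γ t‖ < T.m * ε := lt_of_le_of_lt h2 hst
    exact lt_of_mul_lt_mul_left h3 hm.le
  obtain ⟨t, ht, htS⟩ := GU_meets hb hc (by rw [hγ0]; exact h0) (by rw [hγ1]; exact h1)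
  refine ⟨γ t, htS, ?_⟩
  have e1 := hγ 0 ⟨le_refl _, hb⟩ t ht
  have e2 := hγ t ht (T.d x y) ⟨hb, le_refl _⟩
  rw [hγ0] at e1
  rw [hγ1] at e2
  rw [e1, e2, abs_of_nonpos (by linarith [ht.1]), abs_of_nonpos (by linarith [ht.2])]
  ring

theorem GU_mono1 (h : T.Cl G) (j : ℤ) (x : ℝ × ℝ) : GU_u T G (j - 1) x ≤ GU_u T G j x := by
  have hj := GU_cl h j
  have hj1 := GU_cl h (j - 1)
  have h1 : T.bus (fun t => G t + ((0 : ℝ), ((j - 1 : ℤ) : ℝ))) x -
      T.En G (fun t => G t + (0, 1)) ≤ T.bus (fun t => G t + ((0 : ℝ), (j : ℝ))) x := by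
    conv_rhs => unfold bus
    refine le_ciInf (fun s => ?_)
    have h2 := hj1.bus_sub.1 (G s + ((0 : ℝ), (j : ℝ))) x
    rw [GU_bus_prev h] at h2
    linarith
  unfold GU_u
  push_cast at h1 ⊢
  linarith

theorem GU_mono (h : T.Cl G) {i j : ℤ} (hij : i ≤ j) (x : ℝ × ℝ) : GU_u T G i x ≤ GU_u T G j x := by
  obtain ⟨n, rfl⟩ := Int.le.dest hij
  clear hij
  induction n with
  | zero => simp
  | succ n ih =>
    refine ih.trans ?_
    have h1 := GU_mono1 h (i + (n + 1 : ℕ)) x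
    have e : i + ((n + 1 : ℕ) : ℤ) - 1 = i + (n : ℤ) := by push_cast; ring
    rwa [e] at h1

theorem GU_lt (h : T.Cl G) {i j : ℤ} (hij : i < j) :
    Lt (fun t => G t + ((0 : ℝ), (i : ℝ))) (fun t => G t + ((0 : ℝ), (j : ℝ))) :=
  h.lt_up_nat hij

theorem GU_nlo (h : T.Cl G) {i j : ℤ} (hij : i ≤ j) {x : ℝ × ℝ}
    (hx : ¬ Lo (range fun t => G t + ((0 : ℝ), (j : ℝ))) x) :
    ¬ Lo (range fun t => G t + ((0 : ℝ), (i : ℝ))) x := by
  rcases hij.eq_or_lt with rfl | hlt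
  · exact hx
  · intro hlo
    exact hx (Lt.lo (GU_cl h i).isLine (GU_cl h j).isLine (GU_lt h hlt) hlo)

theorem GU_eq1 (h : T.Cl G) (j : ℤ) {x : ℝ × ℝ}
    (hx : ¬ Lo (range fun t => G t + ((0 : ℝ), (j : ℝ))) x) :
    GU_u T G j x ≤ GU_u T G (j - 1) x := by
  have hj := GU_cl h j
  have hj1 := GU_cl h (j - 1)
  have h1 : T.En G (fun t => G t + (0, 1)) + T.bus (fun t => G t + ((0 : ℝ), (j : ℝ))) x ≤
      T.bus (fun t => G t + ((0 : ℝ), ((j - 1 : ℤ) : ℝ))) x := by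
    conv_rhs => unfold bus
    refine le_ciInf (fun s => ?_)
    have hlo : Lo (range fun t => G t + ((0 : ℝ), (j : ℝ)))
        (G s + ((0 : ℝ), ((j - 1 : ℤ) : ℝ))) := (GU_lt h (by omega : j - 1 < j)).2 s
    obtain ⟨z, ⟨s1, hz⟩, hd⟩ := GU_seg T hlo hx
    simp only at hz
    subst hz
    rw [hd]
    have h2 := hj1.bus_le (G s1 + ((0 : ℝ), (j : ℝ))) s
    rw [GU_bus_prev h] at h2
    have h3 := hj.bus_le x s1
    beta_reduce at h2 h3 ⊢
    linarith
  unfold GU_u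
  push_cast at h1 ⊢
  linarith

theorem GU_eq (h : T.Cl G) {i j : ℤ} (hij : i ≤ j) {x : ℝ × ℝ}
    (hx : ¬ Lo (range fun t => G t + ((0 : ℝ), (j : ℝ))) x) :
    GU_u T G i x = GU_u T G j x := by
  apply le_antisymm (GU_mono h hij x)
  obtain ⟨n, rfl⟩ := Int.le.dest hij
  clear hij
  induction n with
  | zero => simp
  | succ n ih =>
    have h1 := GU_eq1 h (i + (n + 1 : ℕ)) hx
    have e : i + ((n + 1 : ℕ) : ℤ) - 1 = i + (n : ℤ) := by push_cast; ring
    rw [e] at h1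
    exact h1.trans (ih (GU_nlo h (by push_cast; linarith) hx))

theorem GU_far (h : T.Cl G) (x : ℝ × ℝ) : ∃ j0 : ℤ, ∀ j ≤ j0,
    ¬ Lo (range fun t => G t + ((0 : ℝ), (j : ℝ))) x := by
  obtain ⟨C, hC⟩ := GU_height h
  obtain ⟨n, hn⟩ := exists_nat_gt (C - x.2)
  refine ⟨-(n : ℤ), fun j hj hlo => ?_⟩
  refine IsLine.not_lo_up (GU_cl h j).isLine hlo (up_far ?_)
  rintro z ⟨t, rfl⟩
  have h1 := (abs_le.1 (hC t)).2
  have h2 : (j : ℝ) ≤ -(n : ℝ) := by exact_mod_cast hj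
  simp only [Prod.snd_add]
  linarith

theorem GU_below (h : T.Cl G) {G' : ℝ → ℝ × ℝ} (h' : T.Cl G') : ∃ j : ℤ,
    Lt (fun t => G t + ((0 : ℝ), (j : ℝ))) G' := by
  obtain ⟨C, hC⟩ := GU_height h
  obtain ⟨C', hC'⟩ := GU_height h'
  obtain ⟨n, hn⟩ := exists_nat_gt (C + C')
  refine ⟨-(n : ℤ), fun t => up_far ?_, fun t => lo_far ?_⟩
  · rintro z ⟨s, rfl⟩
    have h1 := (abs_le.1 (hC s)).2
    have h2 := (abs_le.1 (hC' t)).1
    simp only [Prod.snd_add]
    push_cast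
    linarith
  · rintro z ⟨s, rfl⟩
    have h1 := (abs_le.1 (hC t)).2
    have h2 := (abs_le.1 (hC' s)).1
    simp only [Prod.snd_add]
    push_cast
    linarith

theorem exists_U {G : ℝ → ℝ × ℝ} (hG : T.Cl G) : ∃ U : ℝ × ℝ → ℝ, T.Sub U ∧
    (∀ x, U (x + (0, 1)) = U x + T.En G (fun t => G t + (0, 1))) ∧
    ∀ G', T.Cl G' → ∀ x, ¬ Lo (range G') x → ∀ ε > 0, ∃ s, U (G' s) + T.d (G' s) x < U x + ε := by
  choose J hJ using GU_far hG
  have hU : ∀ (x : ℝ × ℝ) (j : ℤ), ¬ Lo (range fun t => G t + ((0 : ℝ), (j : ℝ))) x →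
      GU_u T G (J x) x = GU_u T G j x := by
    intro x j hj
    rcases le_total j (J x) with h | h
    · exact (GU_eq hG h (hJ x (J x) le_rfl)).symm
    · exact GU_eq hG h hj
  have hUle : ∀ x j, GU_u T G (J x) x ≤ GU_u T G j x := by
    intro x j
    rcases le_total j (J x) with h | h
    · exact (GU_eq hG h (hJ x (J x) le_rfl)).ge
    · exact GU_mono hG h x
  refine ⟨fun x => GU_u T G (J x) x, ⟨fun x y => ?_, fun x => ?_⟩, fun x => ?_, ?_⟩
  · have h1 := hU x (min (J x) (J y)) (hJ x _ (min_le_left _ _))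
    have h2 := hU y (min (J x) (J y)) (hJ y _ (min_le_right _ _))
    simp only
    rw [h1, h2]
    have h3 := (GU_cl hG (min (J x) (J y))).bus_sub.1 x y
    unfold GU_u
    linarith
  · have h1 := hU x (min (J x) (J (x + (1, 0)))) (hJ x _ (min_le_left _ _))
    have h2 := hU (x + (1, 0)) (min (J x) (J (x + (1, 0)))) (hJ _ _ (min_le_right _ _))
    simp only
    rw [h1, h2]
    have h3 := (GU_cl hG (min (J x) (J (x + (1, 0))))).bus_sub.2 x
    unfold GU_u
    linarith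
  · set i := min (J x) (J (x + (0, 1)) - 1) with hi
    have h1 := hU x i (hJ x _ (min_le_left _ _))
    have h2 := hU (x + (0, 1)) (i + 1) (hJ _ _ (by
      have := min_le_right (J x) (J (x + (0, 1)) - 1)
      omega))
    simp only
    rw [h1, h2]
    have h3 := GU_bus_shift T G 1 i x
    have e : x + ((0 : ℝ), ((1 : ℤ) : ℝ)) = x + (0, 1) := by simp
    rw [e] at h3
    unfold GU_u
    rw [h3]
    push_cast
    ring
  · intro G' hG' x hx ε hε
    obtain ⟨j, hj⟩ := GU_below hG hG'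
    have hxj : ¬ Lo (range fun t => G t + ((0 : ℝ), (j : ℝ))) x := fun hlo =>
      hx (Lt.lo (GU_cl hG j).isLine hG'.isLine hj hlo)
    have hlt : T.bus (fun t => G t + ((0 : ℝ), (j : ℝ))) x <
        T.bus (fun t => G t + ((0 : ℝ), (j : ℝ))) x + ε := by linarith
    conv_lhs at hlt => unfold bus
    obtain ⟨s, hs⟩ := exists_lt_of_ciInf_lt hlt
    obtain ⟨z, ⟨s', hz⟩, hd⟩ := GU_seg T (hj.2 s) hx
    subst hz
    refine ⟨s', ?_⟩
    have h1 := (GU_cl hG j).bus_le (G' s') s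
    have h2 := hUle (G' s') j
    have h3 := hU x j hxj
    simp only at h1 h2 h3 hs hd ⊢
    rw [h3]
    rw [hd] at hs
    unfold GU_u at h2 ⊢
    linarith

theorem exists_V {G : ℝ → ℝ × ℝ} (hG : T.Cl G) : ∃ V : ℝ × ℝ → ℝ, T.Sub V ∧
    (∀ x, V (x + (0, 1)) = V x - T.En (fun t => G t + (0, 1)) G) ∧
    ∀ G', T.Cl G' → ∀ x, ¬ Up (range G') x → ∀ ε > 0, ∃ s, V (G' s) + T.d (G' s) x < V x + ε := by
  obtain ⟨U, hU1, hU2, hU3⟩ := exists_U (T := T.refl) ((T.refl_cl (G := G)).2 hG)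
  have hE : T.refl.En (fun t => rf (G t)) (fun t => rf (G t) + (0, 1)) =
      T.En (fun t => G t + (0, 1)) G := by
    have e1 : (fun t => rf (G t) + ((0 : ℝ), (1 : ℝ))) = fun t => rf (G t + (0, -1)) := by
      funext t
      ext
      · simp [rf]
      · simp [rf, add_comm]
    rw [e1, T.refl_En (G := G) (H := fun t => G t + (0, -1))]
    unfold En
    congr 1
    funext p
    have h1 := GU_per1 T (G p.1) (G p.2 + (0, -1))
    have e2 : G p.2 + ((0 : ℝ), (-1 : ℝ)) + (0, 1) = G p.2 := by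
      ext
      · simp
      · simp
    rw [e2] at h1
    rw [h1]
  refine ⟨fun x => U (rf x), ?_, fun x => ?_, fun G' hG' x hx ε hε => ?_⟩
  · rw [← T.refl_sub]
    have e : (fun x => U (rf (rf x))) = U := by
      funext x
      rw [rf_rf]
    rw [e]
    exact hU1
  · have h1 := hU2 (rf (x + (0, 1)))
    have e : rf (x + ((0 : ℝ), (1 : ℝ))) + (0, 1) = rf x := by
      ext
      · simp [rf]
      · simp [rf]
    rw [e, hE] at h1
    simp only
    linarith
  · have h1 : ¬ Lo (range fun t => rf (G' t)) (rf x) := by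
      have e : (range fun t => rf (G' t)) = rf '' range G' := by
        rw [← Set.range_comp]
        rfl
      rw [e, lo_rf]
      exact hx
    obtain ⟨s, hs⟩ := hU3 (fun t => rf (G' t)) ((T.refl_cl (G := G')).2 hG') (rf x) h1 ε hε
    refine ⟨s, ?_⟩
    have e := T.refl_d (rf (G' s)) (rf x)
    rw [rf_rf, rf_rf] at e
    rw [e] at hs
    exact hs

/-- the two extreme functions -/
structure UV (T : Pl) (U V : ℝ × ℝ → ℝ) (ap am : ℝ) : Prop where
  subU : T.Sub U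
  subV : T.Sub V
  gU : ∀ x, U (x + (0, 1)) = U x + ap
  gV : ∀ x, V (x + (0, 1)) = V x + am
  keyU : ∀ G, T.Cl G → ∀ x, ¬ Lo (range G) x → ∀ ε > 0, ∃ s, U (G s) + T.d (G s) x < U x + ε
  keyV : ∀ G, T.Cl G → ∀ x, ¬ Up (range G) x → ∀ ε > 0, ∃ s, V (G s) + T.d (G s) x < V x + ε

theorem exists_UV (T : Pl) : ∃ U V ap am, UV T U V ap am := by
  obtain ⟨G, hG⟩ := exists_sub T
  obtain ⟨U, hU1, hU2, hU3⟩ := exists_U hG
  obtain ⟨V, hV1, hV2, hV3⟩ := exists_V hG
  exact ⟨U, V, T.En G (fun t => G t + (0, 1)), -T.En (fun t => G t + (0, 1)) G, hU1, hV1, hU2,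
    fun x => by rw [hV2, sub_eq_add_neg], hU3, hV3⟩

namespace UV

variable {U V : ℝ × ℝ → ℝ} {ap am : ℝ}

/-- `U - V` is constant on lines calibrated by both functions -/
theorem const (h : UV T U V ap am) {P : ℝ → ℝ × ℝ} (hU : T.CalOn U P univ)
    (hV : T.CalOn V P univ) (s t : ℝ) : U (P s) - V (P s) = U (P t) - V (P t) := by
  have _ := h
  have h1 := hU.2 s (mem_univ _) t (mem_univ _)
  have h2 := hV.2 s (mem_univ _) t (mem_univ _)
  linarith

theorem constCl (h : UV T U V ap am) {G : ℝ → ℝ × ℝ} (hG : T.Cl G) (s t : ℝ) :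
    U (G s) - V (G s) = U (G t) - V (G t) :=
  h.const (hG.all U h.subU) (hG.all V h.subV) s t

/-- `U x + ε > U z + d z x ≥ U z + V x - V z` with `z = G s` -/
theorem ge_of (h : UV T U V ap am) {G : ℝ → ℝ × ℝ} (hG : T.Cl G) {x : ℝ × ℝ}
    (hx : ¬ Lo (range G) x) : U (G 0) - V (G 0) ≤ U x - V x := by
  refine le_of_forall_pos_lt_add (fun ε hε => ?_)
  obtain ⟨s, hs⟩ := h.keyU G hG x hx ε hε
  have h1 := h.subV.1 (G s) x
  have h2 := h.constCl hG 0 s
  linarith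

theorem le_of (h : UV T U V ap am) {G : ℝ → ℝ × ℝ} (hG : T.Cl G) {x : ℝ × ℝ}
    (hx : ¬ Up (range G) x) : U x - V x ≤ U (G 0) - V (G 0) := by
  refine le_of_forall_pos_lt_add (fun ε hε => ?_)
  obtain ⟨s, hs⟩ := h.keyV G hG x hx ε hε
  have h1 := h.subU.1 (G s) x
  have h2 := h.constCl hG 0 s
  linarith

/-- `keyU` for `G0` and a point of `G1`: `U (G1 s') - U (G0 s) ≥ d - ε ≥ En G0 G1 + s' - s - ε`, and
the same for `V` and `G1`, `G0` -/
theorem kappa_le (h : UV T U V ap am) {G0 G1 : ℝ → ℝ × ℝ} (h0 : T.Cl G0) (h1 : T.Cl G1)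
    (hlt : Lt G0 G1) :
    T.En G0 G1 + T.En G1 G0 ≤ (U (G1 0) - V (G1 0)) - (U (G0 0) - V (G0 0)) := by
  refine le_of_forall_pos_lt_add (fun ε hε => ?_)
  have n0 : ¬ Lo (range G0) (G1 0) := fun hlo => IsLine.not_lo_up h0.isLine hlo (hlt.1 0)
  have n1 : ¬ Up (range G1) (G0 0) := fun hup => IsLine.not_lo_up h1.isLine (hlt.2 0) hup
  obtain ⟨s, hs⟩ := h.keyU G0 h0 (G1 0) n0 (ε / 2) (by linarith)
  obtain ⟨r, hr⟩ := h.keyV G1 h1 (G0 0) n1 (ε / 2) (by linarith)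
  have e1 := En_le h0 h1 s 0
  have e2 := En_le h1 h0 r 0
  have e3 := (h0.all U h.subU).2 s (mem_univ _) 0 (mem_univ _)
  have e4 := (h1.all V h.subV).2 r (mem_univ _) 0 (mem_univ _)
  linarith

end UV

end Pl

end Pool.Agent.EscG
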