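import Pool.Agent.EscG.W2
import Pool.Agent.EscG.GU

set_option autoImplicit false
set_option linter.unusedSectionVars false

/-!
# EscG flatness: foliation data

For a primitive `k` choose (Bezout) a basis `β'` with `SameLat β β'`, `β' 0 = vk β k`, and let `B` be the
function `U` of `Pl.exists_UV` in the coordinates of `β'`. Every point is on a closed minimal line of the class
`k`, calibrated by `B`, so `B` is differentiable, with gradient `P k` (`Conf.quad`).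
-/

noncomputable section

namespace Pool.Agent.EscG

open MeasureTheory Set Filter Topology Esc EscF _root_.EscG

variable {E : Type*} [NormedAddCommGroup E] [InnerProductSpace ℝ E] [FiniteDimensional ℝ E]
  {β : Module.Basis (Fin 2) ℝ E} {ρ : E → ℝ} {mF MF : ℝ}

/-! ### integer periodicity -/

theorem W1_int {f : E → ℝ} {v : E} {a : ℝ} (hf : ∀ x, f (x + v) = f x + a) (n : ℤ) (x : E) :
    f (x + (n : ℝ) • v) = f x + n * a := by
  have hn : ∀ (n : ℕ) (x : E), f (x + (n : ℝ) • v) = f x + n * a := by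
    intro n
    induction n with
    | zero => intro x; simp
    | succ n ih =>
      intro x
      have e : x + ((n + 1 : ℕ) : ℝ) • v = (x + (n : ℝ) • v) + v := by
        push_cast
        rw [add_smul, one_smul, add_assoc]
      rw [e, hf, ih x]
      push_cast
      ring
  obtain ⟨m, rfl | rfl⟩ := Int.eq_nat_or_neg n
  · simpa using hn m x
  · have h1 := hn m (x + ((-(m : ℤ) : ℤ) : ℝ) • v)
    have e : x + ((-(m : ℤ) : ℤ) : ℝ) • v + (m : ℝ) • v = x := by
      push_cast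
      rw [neg_smul]
      abel
    rw [e] at h1
    push_cast at h1 ⊢
    linarith

theorem W1_int2 {f : E → ℝ} {a b : ℝ} (h0 : ∀ x, f (x + β 0) = f x + a)
    (h1 : ∀ x, f (x + β 1) = f x + b) (k : ℤ × ℤ) (x : E) :
    f (x + vk β k) = f x + (k.1 * a + k.2 * b) := by
  unfold vk
  rw [← add_assoc, W1_int h1, W1_int h0]
  ring

theorem SameLat.conf (h : Conf β ρ mF MF) {β' : Module.Basis (Fin 2) ℝ E} (hs : SameLat β β') :
    Conf β' ρ mF MF := by
  obtain ⟨p, q, r, s, -, h0, h1⟩ := hs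
  refine ⟨h.smooth, fun i x => ?_, h.mF_pos, h.low, h.upp⟩
  have key : ∀ k : ℤ × ℤ, ρ (x + vk β k) = ρ x := by
    intro k
    have := W1_int2 (β := β) (f := ρ) (a := 0) (b := 0) (fun x => by rw [h.per 0 x, add_zero])
      (fun x => by rw [h.per 1 x, add_zero]) k x
    simpa using this
  fin_cases i
  · have := key (p, q)
    unfold vk at this
    simp only [Fin.zero_eta, Fin.isValue, h0]
    exact this
  · have := key (r, s)
    unfold vk at this
    simp only [Fin.mk_one, Fin.isValue, h1]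
    exact this

theorem W1_rep0 (β : Module.Basis (Fin 2) ℝ E) (a b : ℝ) : β.repr (a • β 0 + b • β 1) 0 = a := by
  simp

theorem W1_rep1 (β : Module.Basis (Fin 2) ℝ E) (a b : ℝ) : β.repr (a • β 0 + b • β 1) 1 = b := by
  simp

theorem exists_sameLat (β : Module.Basis (Fin 2) ℝ E) {k : ℤ × ℤ} (hk : Prim k) :
    ∃ β' : Module.Basis (Fin 2) ℝ E, SameLat β β' ∧ β' 0 = vk β k := by
  obtain ⟨a, b, hab⟩ := hk
  have hR : (a : ℝ) * k.1 + b * k.2 = 1 := by exact_mod_cast hab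
  set w : Fin 2 → E := ![(k.1 : ℝ) • β 0 + (k.2 : ℝ) • β 1, ((-b : ℤ) : ℝ) • β 0 + (a : ℝ) • β 1] with hw
  have hli : LinearIndependent ℝ w := by
    rw [hw, LinearIndependent.pair_iff]
    intro s t hst
    have e : s • ((k.1 : ℝ) • β 0 + (k.2 : ℝ) • β 1) + t • (((-b : ℤ) : ℝ) • β 0 + (a : ℝ) • β 1) =
        (s * k.1 + t * (-b)) • β 0 + (s * k.2 + t * a) • β 1 := by
      push_cast
      simp only [smul_add, smul_smul, add_smul]
      abel
    rw [e] at hst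
    have h0 := W1_rep0 β (s * k.1 + t * (-b)) (s * k.2 + t * a)
    have h1 := W1_rep1 β (s * k.1 + t * (-b)) (s * k.2 + t * a)
    rw [hst] at h0 h1
    simp only [map_zero, Finsupp.coe_zero, Pi.zero_apply] at h0 h1
    constructor
    · linear_combination (-a) * h0 - b * h1 - s * hR
    · linear_combination k.2 * h0 - k.1 * h1 - t * hR
  have hcard : Fintype.card (Fin 2) = Module.finrank ℝ E := (Module.finrank_eq_card_basis β).symm
  refine ⟨basisOfLinearIndependentOfCardEqFinrank hli hcard, ⟨k.1, k.2, -b, a, ?_, ?_, ?_⟩, ?_⟩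
  · linarith
  · rw [coe_basisOfLinearIndependentOfCardEqFinrank]; rfl
  · rw [coe_basisOfLinearIndependentOfCardEqFinrank]; rfl
  · rw [coe_basisOfLinearIndependentOfCardEqFinrank]; rfl

/-! ### coordinates -/

/-- inverse of `co` -/
def ic (β : Module.Basis (Fin 2) ℝ E) (x : E) : ℝ × ℝ := (β.repr x 0, β.repr x 1)

theorem co_ic (β : Module.Basis (Fin 2) ℝ E) (x : E) : co β (ic β x) = x := by
  have := β.sum_repr x
  rw [Fin.sum_univ_two] at this
  exact this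

theorem ic_co (β : Module.Basis (Fin 2) ℝ E) (z : ℝ × ℝ) : ic β (co β z) = z :=
  co_inj β (co_ic β _)

theorem co_add0 (β : Module.Basis (Fin 2) ℝ E) (z : ℝ × ℝ) : co β (z + (1, 0)) = co β z + β 0 := by
  simp only [co, Prod.fst_add, Prod.snd_add, add_smul, one_smul, add_zero]
  abel

theorem co_add1 (β : Module.Basis (Fin 2) ℝ E) (z : ℝ × ℝ) : co β (z + (0, 1)) = co β z + β 1 := by
  simp only [co, Prod.fst_add, Prod.snd_add, add_smul, one_smul, add_zero]
  abel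

theorem ic_add0 (β : Module.Basis (Fin 2) ℝ E) (x : E) : ic β (x + β 0) = ic β x + (1, 0) := by
  apply co_inj β
  rw [co_ic, co_add0, co_ic]

theorem ic_add1 (β : Module.Basis (Fin 2) ℝ E) (x : E) : ic β (x + β 1) = ic β x + (0, 1) := by
  apply co_inj β
  rw [co_ic, co_add1, co_ic]

/-! ### classes -/

/-- data of one class: calibrating function `B` with periods `c`, closed minimal lines -/
structure Cla (β : Module.Basis (Fin 2) ℝ E) (ρ : E → ℝ) (k : ℤ × ℤ) (s : ℝ) (B : E → ℝ)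
    (c : ℝ × ℝ) : Prop where
  lipB : ∀ x y, B y - B x ≤ ed ρ x y
  B0 : ∀ x, B (x + β 0) = B x + c.1
  B1 : ∀ x, B (x + β 1) = B x + c.2
  cs : k.1 * c.1 + k.2 * c.2 = s
  line : ∀ x, ∃ Γ : ℝ → E, Γ 0 = x ∧ (∀ t, Γ (t + s) = Γ t + vk β k) ∧
    ∀ t t', ed ρ (Γ t) (Γ t') = |t - t'|
  cal : ∀ Γ : ℝ → E, (∀ t, Γ (t + s) = Γ t + vk β k) → (∀ t t', ed ρ (Γ t) (Γ t') = |t - t'|) →
    ∀ t t', B (Γ t') - B (Γ t) = t' - t

theorem exists_cla (h : Conf β ρ mF MF)
    (hall : ∀ β', SameLat β β' → ∀ x y, ed ρ x (x + β' 0) = ed ρ y (y + β' 0)) {k : ℤ × ℤ}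
    (hk : Prim k) : ∃ (B : E → ℝ) (c : ℝ × ℝ), Cla β ρ k (ed ρ 0 (vk β k)) B c := by
  obtain ⟨β', hs, h0⟩ := exists_sameLat β hk
  have h' := SameLat.conf h hs
  obtain ⟨T, hT⟩ := h'.exists_pl
  have hdisp : ∀ z : ℝ × ℝ, T.d z (z + (1, 0)) = ed ρ 0 (vk β k) := by
    intro z
    rw [hT, co_add0, hall β' hs _ 0, zero_add, h0]
  have hl : T.l = ed ρ 0 (vk β k) := by
    unfold Pl.l
    simp only [hdisp]
    exact ciInf_const
  have hD : ∀ z, z ∈ T.D := by
    intro z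
    show T.d z (z + (1, 0)) = T.l
    rw [hdisp, hl]
  obtain ⟨U, V, ap, am, hUV⟩ := Pl.exists_UV T
  obtain ⟨p, q, r, s, hdet, e0, e1⟩ := hs
  have hdetR : (p : ℝ) * s - q * r = 1 := by exact_mod_cast hdet
  have hB0 : ∀ x, U (ic β' (x + β' 0)) = U (ic β' x) + ed ρ 0 (vk β k) := by
    intro x
    rw [ic_add0, hUV.subU.2, hl]
  have hB1 : ∀ x, U (ic β' (x + β' 1)) = U (ic β' x) + ap := by
    intro x
    rw [ic_add1, hUV.gU]
  have hkey := fun kk x => W1_int2 (β := β') (f := fun x => U (ic β' x)) hB0 hB1 kk x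
  have f0 : β 0 = vk β' (s, -q) := by
    unfold vk
    rw [e0, e1]
    push_cast
    simp only [smul_add, smul_smul, neg_mul, neg_smul]
    have a1 : ((s : ℝ) * p) • β 0 + -(((q : ℝ) * r) • β 0) = β 0 := by
      rw [← sub_eq_add_neg, ← sub_smul, show (s : ℝ) * p - q * r = 1 by linarith, one_smul]
    have a2 : ((s : ℝ) * q) • β 1 + -(((q : ℝ) * s) • β 1) = 0 := by
      rw [mul_comm (s : ℝ) q]; abel
    calc β 0 = (((s : ℝ) * p) • β 0 + -(((q : ℝ) * r) • β 0)) +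
          (((s : ℝ) * q) • β 1 + -(((q : ℝ) * s) • β 1)) := by rw [a1, a2, add_zero]
      _ = _ := by abel
  have f1 : β 1 = vk β' (-r, p) := by
    unfold vk
    rw [e0, e1]
    push_cast
    simp only [smul_add, smul_smul, neg_mul, neg_smul]
    have a1 : ((p : ℝ) * s) • β 1 + -(((r : ℝ) * q) • β 1) = β 1 := by
      rw [← sub_eq_add_neg, ← sub_smul, show (p : ℝ) * s - r * q = 1 by linarith, one_smul]
    have a2 : ((p : ℝ) * r) • β 0 + -(((r : ℝ) * p) • β 0) = 0 := by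
      rw [mul_comm (p : ℝ) r]; abel
    calc β 1 = (((p : ℝ) * s) • β 1 + -(((r : ℝ) * q) • β 1)) +
          (((p : ℝ) * r) • β 0 + -(((r : ℝ) * p) • β 0)) := by rw [a1, a2, add_zero]
      _ = _ := by abel
  have hc0 : ∀ x, U (ic β' (x + β 0)) =
      U (ic β' x) + ((s : ℝ) * ed ρ 0 (vk β k) + ((-q : ℤ) : ℝ) * ap) := by
    intro x
    have := hkey (s, -q) x
    rwa [← f0] at this
  have hc1 : ∀ x, U (ic β' (x + β 1)) =
      U (ic β' x) + (((-r : ℤ) : ℝ) * ed ρ 0 (vk β k) + (p : ℝ) * ap) := by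
    intro x
    have := hkey (-r, p) x
    rwa [← f1] at this
  refine ⟨fun x => U (ic β' x), ((s : ℝ) * ed ρ 0 (vk β k) + ((-q : ℤ) : ℝ) * ap,
    ((-r : ℤ) : ℝ) * ed ρ 0 (vk β k) + (p : ℝ) * ap), ?_, hc0, hc1, ?_, ?_, ?_⟩
  · intro x y
    have := hUV.subU.1 (ic β' x) (ic β' y)
    rwa [hT, co_ic, co_ic] at this
  · have a1 := W1_int2 (β := β) (f := fun x => U (ic β' x)) hc0 hc1 k 0
    have a2 := hB0 0
    rw [h0] at a2
    linarith
  · intro x
    obtain ⟨G, hG, hG0⟩ := T.exists_cl (hD (ic β' x))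
    refine ⟨fun t => co β' (G t), ?_, ?_, ?_⟩
    · show co β' (G 0) = x
      rw [hG0, co_ic]
    · intro t
      show co β' (G (t + ed ρ 0 (vk β k))) = co β' (G t) + vk β k
      rw [← hl, hG.2, co_add0, h0]
    · intro t t'
      show ed ρ (co β' (G t)) (co β' (G t')) = _
      rw [← hT]
      exact hG.1 t t'
  · intro Γ hper hiso t t'
    have hG : T.Cl (fun t => ic β' (Γ t)) := by
      refine ⟨fun s t => ?_, fun t => ?_⟩
      · rw [hT, co_ic, co_ic]
        exact hiso s t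
      · show ic β' (Γ (t + T.l)) = ic β' (Γ t) + (1, 0)
        rw [hl, hper, ← h0, ic_add0]
    exact (hG.all U hUV.subU).2 t' (mem_univ _) t (mem_univ _)

/-! ### uniqueness of the gradient -/

theorem W1_uniq {B : E → ℝ} {x p p' : E} {K : ℝ} (hK : 0 ≤ K)
    (h : ∀ y, |B y - B x - inner ℝ p (y - x)| ≤ K * ‖y - x‖ ^ 2)
    (h' : ∀ y, |B y - B x - inner ℝ p' (y - x)| ≤ K * ‖y - x‖ ^ 2) : p = p' := by
  set ε : ℝ := 1 / (4 * (K + 1)) with hε
  have hε0 : 0 < ε := by positivity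
  have h1 := abs_le.1 (h (x + ε • (p - p')))
  have h2 := abs_le.1 (h' (x + ε • (p - p')))
  rw [add_sub_cancel_left, real_inner_smul_right, norm_smul, Real.norm_of_nonneg hε0.le] at h1 h2
  have h3 : (inner ℝ p (p - p') : ℝ) - inner ℝ p' (p - p') = ‖p - p'‖ ^ 2 := by
    rw [← inner_sub_left, real_inner_self_eq_norm_sq]
  have h4 : ε * ‖p - p'‖ ^ 2 ≤ 2 * (K * (ε * ‖p - p'‖) ^ 2) := by
    rw [← h3]
    linarith [h1.1, h2.2]
  have h5 : K * ε ≤ 1 / 4 := by
    rw [hε]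
    have : K * (1 / (4 * (K + 1))) = K / (4 * (K + 1)) := by ring
    rw [this, div_le_div_iff₀ (by positivity) (by norm_num)]
    linarith
  have h6 : 2 * (K * (ε * ‖p - p'‖) ^ 2) = 2 * (K * ε) * (ε * ‖p - p'‖ ^ 2) := by ring
  have h7 : 0 ≤ ε * ‖p - p'‖ ^ 2 := by positivity
  have h8 : ε * ‖p - p'‖ ^ 2 ≤ 0 := by nlinarith
  have h9 : ‖p - p'‖ ^ 2 ≤ 0 := by
    by_contra hcon
    push Not at hcon
    have := mul_pos hε0 hcon
    linarith
  have h10 : ‖p - p'‖ = 0 := by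
    have := sq_nonneg ‖p - p'‖
    exact pow_eq_zero_iff (two_ne_zero) |>.1 (le_antisymm h9 this)
  exact sub_eq_zero.1 (norm_eq_zero.1 h10)

/-! ### lines of two classes are different -/

theorem W1_vk_neg (β : Module.Basis (Fin 2) ℝ E) (k : ℤ × ℤ) : vk β (-k) = -vk β k := by
  unfold vk
  simp only [Prod.fst_neg, Prod.snd_neg, Int.cast_neg, neg_smul]
  abel

theorem Prim.neg {k : ℤ × ℤ} (hk : Prim k) : Prim (-k) := IsCoprime.neg_neg hk

theorem W1_vk_ne (β : Module.Basis (Fin 2) ℝ E) {k : ℤ × ℤ} (hk : Prim k) : vk β k ≠ 0 := by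
  intro h0
  have h1 := W1_rep0 β k.1 k.2
  have h2 := W1_rep1 β k.1 k.2
  unfold vk at h0
  rw [h0] at h1 h2
  simp only [map_zero, Finsupp.coe_zero, Pi.zero_apply] at h1 h2
  obtain ⟨a, b, hab⟩ := hk
  have e1 : k.1 = 0 := by exact_mod_cast h1.symm
  have e2 : k.2 = 0 := by exact_mod_cast h2.symm
  rw [e1, e2] at hab
  simp at hab

theorem W1_per_nat {Γ : ℝ → E} {s : ℝ} {v : E} (hper : ∀ t, Γ (t + s) = Γ t + v) (n : ℕ) (t : ℝ) :
    Γ (t + n * s) = Γ t + (n : ℝ) • v := by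
  induction n with
  | zero => simp
  | succ n ih =>
    have e : t + ((n + 1 : ℕ) : ℝ) * s = t + n * s + s := by push_cast; ring
    rw [e, hper, ih]
    push_cast
    rw [add_smul, one_smul]
    abel

/-- a line cannot be closed in two different classes -/
theorem W1_two (h : Conf β ρ mF MF) {Γ : ℝ → E} {k k' : ℤ × ℤ} {s s' : ℝ} (hs : 0 < s) (hs' : 0 < s')
    (hiso : ∀ t t', ed ρ (Γ t) (Γ t') = |t - t'|) (hper : ∀ t, Γ (t + s) = Γ t + vk β k)
    (hper' : ∀ t, Γ (t + s') = Γ t + vk β k') : dt k k' = 0 := by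
  by_contra hne
  set φ : E →ₗ[ℝ] ℝ := (k'.2 : ℝ) • β.coord 0 - (k'.1 : ℝ) • β.coord 1 with hφ
  have hφc : Continuous φ := φ.continuous_of_finiteDimensional
  set φc : E →L[ℝ] ℝ := ⟨φ, hφc⟩ with hφc_
  have hval : ∀ n m : ℝ, φc (n • vk β k - m • vk β k') = n * (dt k k' : ℝ) := by
    intro n m
    show φ (n • vk β k - m • vk β k') = _
    have e1 : φ (vk β k) = (dt k k' : ℝ) := by
      simp only [hφ, LinearMap.sub_apply, LinearMap.smul_apply, Module.Basis.coord_apply, smul_eq_mul]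
      unfold vk
      rw [W1_rep0, W1_rep1]
      unfold dt
      push_cast
      ring
    have e2 : φ (vk β k') = 0 := by
      simp only [hφ, LinearMap.sub_apply, LinearMap.smul_apply, Module.Basis.coord_apply, smul_eq_mul]
      unfold vk
      rw [W1_rep0, W1_rep1]
      ring
    rw [map_sub, map_smul, map_smul, e1, e2]
    simp
  have hdt : (1 : ℝ) ≤ |(dt k k' : ℝ)| := by
    have : 1 ≤ |dt k k'| := Int.one_le_abs hne
    exact_mod_cast this
  have key : ∀ n : ℕ, (n : ℝ) ≤ ‖φc‖ * (s' / mF) := by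
    intro n
    set m : ℕ := ⌊(n : ℝ) * s / s'⌋₊ with hm
    have hm1 : (m : ℝ) ≤ n * s / s' := Nat.floor_le (by positivity)
    have hm2 : (n : ℝ) * s / s' < m + 1 := Nat.lt_floor_add_one _
    have hd : |(0 + n * s) - (0 + m * s')| ≤ s' := by
      rw [le_div_iff₀ hs'] at hm1
      rw [div_lt_iff₀ hs'] at hm2
      rw [abs_le]
      constructor <;> linarith
    have h1 := h.ed_low (Γ (0 + n * s)) (Γ (0 + m * s'))
    rw [hiso, W1_per_nat hper n 0, W1_per_nat hper' m 0] at h1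
    have e : Γ 0 + (n : ℝ) • vk β k - (Γ 0 + (m : ℝ) • vk β k') =
        (n : ℝ) • vk β k - (m : ℝ) • vk β k' := by abel
    rw [e] at h1
    have h2 : ‖(n : ℝ) • vk β k - (m : ℝ) • vk β k'‖ ≤ s' / mF := by
      rw [le_div_iff₀ h.mF_pos]
      linarith
    have h3 := φc.le_opNorm ((n : ℝ) • vk β k - (m : ℝ) • vk β k')
    rw [hval, norm_mul, Real.norm_of_nonneg (Nat.cast_nonneg n), Real.norm_eq_abs] at h3
    calc (n : ℝ) ≤ n * |(dt k k' : ℝ)| := le_mul_of_one_le_right (Nat.cast_nonneg n) hdt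
      _ ≤ ‖φc‖ * ‖(n : ℝ) • vk β k - (m : ℝ) • vk β k'‖ := h3
      _ ≤ ‖φc‖ * (s' / mF) := by gcongr
  obtain ⟨n, hn⟩ := exists_nat_gt (‖φc‖ * (s' / mF))
  exact absurd (key n) (not_le.2 hn)

/-! ### the foliation data -/

theorem Conf.exists_fol (h : Conf β ρ mF MF)
    (hall : ∀ β', SameLat β β' → ∀ x y, ed ρ x (x + β' 0) = ed ρ y (y + β' 0)) :
    ∃ K σ U c P, Fol β ρ mF MF K σ U c P := by
  obtain ⟨K, hK, hquad⟩ := h.quad
  have hdisp : ∀ k, Prim k → ∀ x, ed ρ x (x + vk β k) = ed ρ 0 (vk β k) := by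
    intro k hk x
    obtain ⟨β', hs, h0⟩ := exists_sameLat β hk
    rw [← h0, hall β' hs x 0, zero_add]
  have hH : ∀ k, Prim k → ∃ (B : E → ℝ) (c : ℝ × ℝ), Cla β ρ k (ed ρ 0 (vk β k)) B c :=
    fun k hk => exists_cla h hall hk
  choose! U c hU using hH
  set σ : ℤ × ℤ → ℝ := fun k => ed ρ 0 (vk β k) with hσ
  have hσpos : ∀ k, Prim k → 0 < σ k := by
    intro k hk
    have h1 := h.ed_low 0 (vk β k)
    rw [zero_sub, norm_neg] at h1
    exact lt_of_lt_of_le (mul_pos h.mF_pos (norm_pos_iff.2 (W1_vk_ne β hk))) h1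
  have hσneg : ∀ k, Prim k → σ (-k) = σ k := by
    intro k hk
    have h1 := hdisp (-k) hk.neg (vk β k)
    rw [W1_vk_neg, add_neg_cancel] at h1
    show ed ρ 0 (vk β (-k)) = ed ρ 0 (vk β k)
    rw [W1_vk_neg, ← h1]
    exact h.ed_symm _ _
  -- lines
  have hL : ∀ k, Prim k → ∀ x, ∃ p : E, ∃ (Γ v : ℝ → E), Γ 0 = x ∧ (∀ t, Γ (t + σ k) = Γ t + vk β k) ∧
      (∀ t t', ed ρ (Γ t) (Γ t') = |t - t'|) ∧ (∀ t, HasDerivAt Γ (v t) t) ∧
      (∀ t, ρ (Γ t) * ‖v t‖ = 1) ∧ (∀ t, HasDerivAt (fun s => ρ (Γ s) ^ 2 • v s)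
        ((ρ (Γ t))⁻¹ • gradient ρ (Γ t)) t) ∧ p = ρ x ^ 2 • v 0 := by
    intro k hk x
    obtain ⟨Γ, h0, hper, hiso⟩ := (hU k hk).line x
    obtain ⟨v, -, hv, hn, hode⟩ := h.iso_gode_univ hiso
    exact ⟨_, Γ, v, h0, hper, hiso, hv, hn, hode, rfl⟩
  choose! P hP using hL
  -- the gradient of `U k` along a closed line
  have hgrad : ∀ k, Prim k → ∀ (Γ : ℝ → E), (∀ t, Γ (t + σ k) = Γ t + vk β k) →
      (∀ t t', ed ρ (Γ t) (Γ t') = |t - t'|) → ∀ (t : ℝ) (w : E), HasDerivAt Γ w t →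
      ∀ y, |U k y - U k (Γ t) - inner ℝ (ρ (Γ t) ^ 2 • w) (y - Γ t)| ≤ K * ‖y - Γ t‖ ^ 2 := by
    intro k hk Γ hper hiso t w hw y
    have h1 := hquad (U k) (hU k hk).lipB (fun r => Γ (t + r)) w (fun a b => by
      rw [hiso]; congr 1; ring) (fun a b => by
      have := (hU k hk).cal Γ hper hiso (t + a) (t + b)
      rw [this]; ring) (by
      have h2 : HasDerivAt Γ w (t + 0) := by rwa [add_zero]
      exact h2.comp_const_add t 0) y
    simp only [add_zero] at h1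
    exact h1
  have hPgrad : ∀ k, Prim k → ∀ x y, |U k y - U k x - inner ℝ (P k x) (y - x)| ≤ K * ‖y - x‖ ^ 2 := by
    intro k hk x y
    obtain ⟨Γ, v, h0, hper, hiso, hv, hn, hode, hp⟩ := hP k hk x
    have h1 := hgrad k hk Γ hper hiso 0 (v 0) (hv 0) y
    rw [h0] at h1
    rw [hp]
    exact h1
  have hPeq : ∀ k, Prim k → ∀ (Γ : ℝ → E), (∀ t, Γ (t + σ k) = Γ t + vk β k) →
      (∀ t t', ed ρ (Γ t) (Γ t') = |t - t'|) → ∀ (t : ℝ) (w : E), HasDerivAt Γ w t →
      P k (Γ t) = ρ (Γ t) ^ 2 • w := by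
    intro k hk Γ hper hiso t w hw
    exact W1_uniq hK (hPgrad k hk (Γ t)) (hgrad k hk Γ hper hiso t w hw)
  have hρpos : ∀ x, 0 < ρ x := fun x => lt_of_lt_of_le h.mF_pos (h.low x)
  refine ⟨K, σ, U, c, P, h, hK, hσpos, hσneg, ?_, fun k hk => (hU k hk).B0, fun k hk => (hU k hk).B1,
    fun k hk => (hU k hk).cs, ?_, ?_, ?_, hPgrad, ?_, ?_⟩
  · -- upper bound of sigma
    intro k hk
    have h1 := h.ed_upp 0 (vk β k)
    rwa [zero_sub, norm_neg] at h1
  · intro k k' hk hk'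
    have h1 := W1_int2 (hU k hk).B0 (hU k hk).B1 k' 0
    have h2 := (hU k hk).lipB 0 (0 + vk β k')
    rw [h1, hdisp k' hk' 0] at h2
    show _ ≤ ed ρ 0 (vk β k')
    linarith
  · intro k hk x
    obtain ⟨Γ, v, h0, hper, hiso, hv, hn, hode, hp⟩ := hP k hk x
    rw [hp, norm_smul, Real.norm_of_nonneg (by positivity)]
    have h1 := hn 0
    rw [h0] at h1
    calc ρ x ^ 2 * ‖v 0‖ = ρ x * (ρ x * ‖v 0‖) := by ring
      _ = ρ x := by rw [h1, mul_one]
  · intro k hk x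
    obtain ⟨Γ, v, h0, hper, hiso, hv, hn, hode, hp⟩ := hP k hk x
    have hrev : HasDerivAt (fun t => Γ (-t)) (-(v 0)) 0 := by
      have h1 : HasDerivAt Γ (v 0) (-(0 : ℝ)) := by rw [neg_zero]; exact hv 0
      have h2 := HasDerivAt.scomp (𝕜 := ℝ) (0 : ℝ) h1 (hasDerivAt_neg (0 : ℝ))
      have h3 : HasDerivAt (Γ ∘ Neg.neg) (-(v 0)) 0 := by simpa using h2
      exact h3
    have h1 := hPeq (-k) hk.neg (fun t => Γ (-t)) (fun t => by
      have h2 := hper (-(t + σ k))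
      have e : -(t + σ k) + σ k = -t := by ring
      rw [e] at h2
      show Γ (-(t + σ (-k))) = Γ (-t) + vk β (-k)
      rw [hσneg k hk, W1_vk_neg, h2]
      abel) (fun t t' => by
      show ed ρ (Γ (-t)) (Γ (-t')) = _
      rw [hiso, ← abs_neg]
      congr 1
      ring) 0 (-(v 0)) hrev
    simp only [neg_zero, h0] at h1
    rw [h1, hp, smul_neg]
  · intro k hk x
    obtain ⟨Γ, v, h0, hper, hiso, hv, hn, hode, hp⟩ := hP k hk x
    refine ⟨Γ, h0, hper, fun t => ?_⟩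
    rw [hPeq k hk Γ hper hiso t (v t) (hv t), smul_smul, inv_mul_cancel₀ (by
      have := hρpos (Γ t); positivity), one_smul]
    exact hv t
  · intro k k' hk hk' hd x heq
    obtain ⟨Γ, v, h0, hper, hiso, hv, hn, hode, hp⟩ := hP k hk x
    obtain ⟨Γ', v', h0', hper', hiso', hv', hn', hode', hp'⟩ := hP k' hk' x
    have hvv : v 0 = v' 0 := by
      have h1 : ρ x ^ 2 • v 0 = ρ x ^ 2 • v' 0 := by rw [← hp, ← hp', heq]
      have h2 : ρ x ^ 2 ≠ 0 := by have := hρpos x; positivity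
      exact smul_right_injective E h2 h1
    have hg : ∀ a : ℝ, Gode ρ Γ v (-a) a := fun a t _ =>
      ⟨(hv t).hasDerivWithinAt, hn t, (hode t).hasDerivWithinAt⟩
    have hg' : ∀ a : ℝ, Gode ρ Γ' v' (-a) a := fun a t _ =>
      ⟨(hv' t).hasDerivWithinAt, hn' t, (hode' t).hasDerivWithinAt⟩
    have hEq : ∀ t, Γ t = Γ' t := by
      intro t
      have ht : t ∈ Icc (-(|t|)) |t| := ⟨neg_abs_le t, le_abs_self t⟩
      exact h.gode_unique (hg |t|) (hg' |t|) (t0 := 0) ⟨by simp, abs_nonneg t⟩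
        (h0.trans h0'.symm) hvv t ht
    refine hd (W1_two h (hσpos k hk) (hσpos k' hk') hiso hper fun t => ?_)
    rw [hEq, hEq, hper']

end Pool.Agent.EscG
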