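import Pool.Agent.EscG.Fn5
import Pool.Agent.EscG.R3
import Pool.Agent.EscG.W1

set_option autoImplicit false

/-!
# EscG geometry, module Fn6: a non constant displacement gives a gap

`gap_transfer`, `gap_of`: as `Conf.gap_transfer`, `Conf.gap_of` in R3.lean (on main), with `curve_le` replaced by `RFins.curve_le` (its hypothesis is
directly `B y - B x ≤ q * fd F x y`, no local bound needed), `iso_gode_univ` by `RFins.fiso_univ`; `R3_ic` and its lemmas are reused.
`RFins.sameLat`: as `SameLat.conf` in W1.lean (all fields but the periodicity of `fins` are unchanged).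
`main`: `k ≠ 0` (`C1_self`); `k = n k0`, `n ≥ 1`, `k0` primitive (divide by the gcd). `exists_sameLat` (W1.lean): `β'` with `SameLat β β'`, `β' 0 = vk β k0`.
If `fd F x (x + β' 0)` is not constant, `gap_of` for `β'`. Otherwise let `T` be the plane of `β'` (`exists_pl`): every point is in `T.D`, so through every point
`x` passes a closed line `G` (`T.exists_cl`, GCl.lean: `T.Cl G`, `G 0 = x`), `G (n T.l) = x + (n, 0)` (`Cl.zper`), so `T.d x (x + (n,0)) = n T.l` for all `x`, i.e.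
`fd F x (x + n β' 0)` is constant: contradiction, because `vk β k = n β' 0`.
-/

noncomputable section

namespace Pool.Agent.EscG

open MeasureTheory Set Filter Topology Esc EscF _root_.EscG
open scoped ContDiff

variable {E : Type*} [NormedAddCommGroup E] [InnerProductSpace ℝ E] [FiniteDimensional ℝ E]
  {β : Module.Basis (Fin 2) ℝ E} {F : E → E → ℝ} {mF MF m : ℝ}

theorem RFins.gap_transfer (h : RFins β F mF MF m) {T : Pl}
    (hT : ∀ x y, T.d x y = fd F (co β x) (co β y)) {B y : ℝ × ℝ → ℝ} {a τ : ℝ} {c0 c1 : ℝ → ℝ × ℝ}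
    (hG : T.Gap B y a τ c0 c1) : ∃ (B' y' : E → ℝ) (c0' c1' : ℝ → E),
      GapF β F B' y' T.l a τ c0' c1' := by
  have hMF : 0 < MF := h.fins.mF_pos.trans_le h.fins.mF_le
  have hd : ∀ x x' : E, T.d (R3_ic β x) (R3_ic β x') = fd F x x' := by
    intro x x'
    rw [hT, R3_co_ic, R3_co_ic]
  have hBd : ∀ x x' : E, B (R3_ic β x') - B (R3_ic β x) ≤ fd F x x' := by
    intro x x'
    rw [← hd]
    exact hG.sub.1 _ _
  have iso : ∀ c : ℝ → ℝ × ℝ, T.Cl c → ∃ v : ℝ → E, Continuous v ∧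
      ∀ t, HasDerivAt (fun s => co β (c s)) (v t) t ∧ F (co β (c t)) (v t) = 1 := by
    intro c hc
    exact h.fiso_univ (Z := fun s => co β (c s)) (by
      intro s t
      rw [← hT]
      exact hc.1 s t)
  have rng : ∀ (r : ℝ) (c : ℝ → ℝ × ℝ), {x | y x = r} = range c →
      {x : E | y (R3_ic β x) = r} = range fun s => co β (c s) := by
    intro r c hc
    ext x
    have h1 : R3_ic β x ∈ {x | y x = r} ↔ R3_ic β x ∈ range c := by rw [hc]
    constructor
    · intro hx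
      obtain ⟨s, hs⟩ := h1.1 hx
      refine ⟨s, ?_⟩
      show co β (c s) = x
      rw [hs, R3_co_ic]
    · rintro ⟨s, rfl⟩
      show y (R3_ic β (co β (c s))) = r
      rw [R3_ic_co]
      have h2 : c s ∈ {x | y x = r} := by
        rw [hc]
        exact mem_range_self s
      exact h2
  have per : ∀ c : ℝ → ℝ × ℝ, T.Cl c → ∀ t, co β (c (t + T.l)) = co β (c t) + β 0 := by
    intro c hc t
    rw [hc.2, R3_co_add, R3_co_10]
  refine ⟨fun x => B (R3_ic β x), fun x => y (R3_ic β x), fun s => co β (c0 s),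
    fun s => co β (c1 s), ?_⟩
  refine ⟨T.l_pos, ?_, ?_, ?_, hG.τ_pos, hG.τ_le, ?_, ?_, ?_, per c0 hG.cl0, per c1 hG.cl1,
    iso c0 hG.cl0, iso c1 hG.cl1, ?_, ?_, rng 0 c0 hG.y0, rng τ c1 hG.y1, ?_⟩
  · intro z u hu a b hab
    have h1 := h.curve_le (B := fun x => B (R3_ic β x)) (S := univ) (q := 1) (δ := 1)
      zero_le_one one_pos (by
        intro x _ x' _
        rw [one_mul]
        exact hBd x x') (z := z) hu hab (fun t _ => mem_univ _)
    rw [one_mul] at h1
    exact h1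
  · intro x
    show B (R3_ic β (x + β 0)) = B (R3_ic β x) + T.l
    rw [R3_ic_b, hG.sub.2]
  · intro x
    show B (R3_ic β (x + β 1)) = B (R3_ic β x) + a
    rw [R3_ic_g, hG.Bg]
  · exact hG.yc.comp (R3_ic_cont β)
  · intro x
    show y (R3_ic β (x + β 0)) = y (R3_ic β x)
    rw [R3_ic_b, hG.yb]
  · intro x
    show y (R3_ic β (x + β 1)) = y (R3_ic β x) + 1
    rw [R3_ic_g, hG.yg]
  · intro s t
    show B (R3_ic β (co β (c0 t))) - B (R3_ic β (co β (c0 s))) = t - s
    rw [R3_ic_co, R3_ic_co]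
    exact R3_cal hG.sub hG.cl0 s t
  · intro s t
    show B (R3_ic β (co β (c1 t))) - B (R3_ic β (co β (c1 s))) = t - s
    rw [R3_ic_co, R3_ic_co]
    exact R3_cal hG.sub hG.cl1 s t
  · intro η hη
    obtain ⟨θ, δ, hθ, hδ, hs⟩ := hG.strict η hη
    refine ⟨min θ 1, lt_min hθ one_pos, ?_⟩
    intro z u hu a b hab hy
    refine h.curve_le (B := fun x => B (R3_ic β x))
      (S := {x : E | η ≤ y (R3_ic β x) ∧ y (R3_ic β x) ≤ τ - η}) (δ := δ / MF)
      (by linarith [min_le_right θ 1]) (by positivity) ?_ hu hab hy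
    intro x hx x' hxx
    have hed : fd F x x' ≤ δ := by
      refine (fd_le h.fins x x').trans ?_
      rw [le_div_iff₀ hMF] at hxx
      linarith
    have h1 := hs (R3_ic β x) (R3_ic β x') hx.1 hx.2 (by rw [hd]; exact hed)
    rw [hd] at h1
    have h2 : (1 - θ) * fd F x x' ≤ (1 - min θ 1) * fd F x x' :=
      mul_le_mul_of_nonneg_right (by linarith [min_le_left θ 1]) (fd_nonneg F x x')
    exact (le_abs_self _).trans (h1.trans h2)

theorem RFins.gap_of (h : RFins β F mF MF m) (hd : ∃ x y, fd F x (x + β 0) ≠ fd F y (y + β 0)) :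
    ∃ (B y : E → ℝ) (l a τ : ℝ) (c0 c1 : ℝ → E), GapF β F B y l a τ c0 c1 := by
  obtain ⟨T, hT⟩ := h.exists_pl
  have hd' : ∀ x : E, T.d (R3_ic β x) (R3_ic β x + (1, 0)) = fd F x (x + β 0) := by
    intro x
    rw [hT, R3_co_add, R3_co_ic, R3_co_10]
  obtain ⟨p, hp⟩ : ∃ p, p ∉ T.D := by
    obtain ⟨x, x', hne⟩ := hd
    by_contra hcon
    push Not at hcon
    have h1 : T.d (R3_ic β x) (R3_ic β x + (1, 0)) = T.l := hcon _
    have h2 : T.d (R3_ic β x') (R3_ic β x' + (1, 0)) = T.l := hcon _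
    rw [hd'] at h1 h2
    exact hne (h1.trans h2.symm)
  obtain ⟨B, y, a, τ, c0, c1, hG⟩ := T.exists_gap hp
  obtain ⟨B', y', c0', c1', hG'⟩ := h.gap_transfer hT hG
  exact ⟨B', y', T.l, a, τ, c0', c1', hG'⟩

theorem RFins.sameLat (h : RFins β F mF MF m) {β' : Module.Basis (Fin 2) ℝ E} (hs : SameLat β β') :
    RFins β' F mF MF m := by
  obtain ⟨p, q, r, s, -, h0, h1⟩ := hs
  refine ⟨⟨h.fins.mF_pos, h.fins.mF_le, h.fins.cont, fun i x v => ?_, h.fins.hom, h.fins.low,
    h.fins.upp⟩, h.rev, h.m_pos, h.smooth, h.hess⟩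
  have key : ∀ k : ℤ × ℤ, F (x + vk β k) v = F x v := by
    intro k
    have := W1_int2 (β := β) (f := fun x => F x v) (a := 0) (b := 0)
      (fun x => by rw [h.fins.per 0 x, add_zero])
      (fun x => by rw [h.fins.per 1 x, add_zero]) k x
    simpa using this
  fin_cases i
  · have := key (p, q)
    unfold vk at this
    simp only [Fin.zero_eta, Fin.isValue, h0]
    exact this
  · have := key (r, s)
    unfold vk at this
    simp only [Fin.mk_one, Fin.isValue, h1]
    exact this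

/-- a lattice vector is a multiple of a primitive one -/
theorem Fn6_prim (β : Module.Basis (Fin 2) ℝ E) {k : ℤ × ℤ} (hk : k ≠ 0) :
    ∃ (n : ℕ) (k0 : ℤ × ℤ), 0 < n ∧ Prim k0 ∧ vk β k = (n : ℝ) • vk β k0 := by
  have hg : 0 < Int.gcd k.1 k.2 := by
    rw [Int.gcd_pos_iff]
    by_contra hcon
    push Not at hcon
    exact hk (Prod.ext hcon.1 hcon.2)
  refine ⟨Int.gcd k.1 k.2, (k.1 / Int.gcd k.1 k.2, k.2 / Int.gcd k.1 k.2), hg, ?_, ?_⟩
  · exact Int.isCoprime_iff_gcd_eq_one.2 (Int.gcd_ediv_gcd_ediv_gcd hg)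
  · have h1 : (Int.gcd k.1 k.2 : ℤ) * (k.1 / Int.gcd k.1 k.2) = k.1 :=
      Int.mul_ediv_cancel' (Int.gcd_dvd_left _ _)
    have h2 : (Int.gcd k.1 k.2 : ℤ) * (k.2 / Int.gcd k.1 k.2) = k.2 :=
      Int.mul_ediv_cancel' (Int.gcd_dvd_right _ _)
    have h1' : ((Int.gcd k.1 k.2 : ℕ) : ℝ) * ((k.1 / Int.gcd k.1 k.2 : ℤ) : ℝ) = k.1 := by
      exact_mod_cast h1
    have h2' : ((Int.gcd k.1 k.2 : ℕ) : ℝ) * ((k.2 / Int.gcd k.1 k.2 : ℤ) : ℝ) = k.2 := by
      exact_mod_cast h2
    unfold vk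
    simp only
    rw [smul_add, smul_smul, smul_smul, h1', h2']

theorem Fn6_co_smul (β : Module.Basis (Fin 2) ℝ E) (n : ℝ) : co β (n, 0) = n • β 0 := by simp [co]

theorem RFins.main (h : RFins β F mF MF m) {k : ℤ × ℤ}
    (hd : ∃ x y, fd F x (x + vk β k) ≠ fd F y (y + vk β k)) : ∃ β', SameLat β β' ∧
      ∃ (B y : E → ℝ) (l a τ : ℝ) (c0 c1 : ℝ → E), GapF β' F B y l a τ c0 c1 := by
  have hk : k ≠ 0 := by
    rintro rfl
    obtain ⟨x, y, hne⟩ := hd
    apply hne
    have e : vk β 0 = 0 := by simp [vk]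
    rw [e, add_zero, add_zero, C1_self h.fins, C1_self h.fins]
  obtain ⟨n, k0, hn, hp, hnk⟩ := Fn6_prim β hk
  obtain ⟨β', hs, hβ'⟩ := exists_sameLat β hp
  refine ⟨β', hs, ?_⟩
  have h' := h.sameLat hs
  apply h'.gap_of
  by_contra hcon
  push Not at hcon
  obtain ⟨T, hT⟩ := h'.exists_pl
  have hconst : ∀ z w : ℝ × ℝ, T.d z (z + (1, 0)) = T.d w (w + (1, 0)) := by
    intro z w
    rw [hT, hT, R3_co_add, R3_co_add, R3_co_10]
    exact hcon _ _
  have hD : ∀ z, z ∈ T.D := by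
    intro z
    show T.d z (z + (1, 0)) = T.l
    unfold Pl.l
    have e : (fun x : ℝ × ℝ => T.d x (x + (1, 0))) = fun _ => T.d z (z + (1, 0)) :=
      funext fun x => hconst x z
    rw [e, ciInf_const]
  have key : ∀ x : E, fd F x (x + vk β k) = n * T.l := by
    intro x
    obtain ⟨G, hG, hG0⟩ := T.exists_cl (hD (R3_ic β' x))
    have h1 := hG.zper n 0
    have h2 := hG.1 0 (0 + (n : ℤ) * T.l)
    rw [h1, hG0, hT, R3_co_add, R3_co_ic] at h2
    have e1 : co β' (((n : ℤ) : ℝ), (0 : ℝ)) = vk β k := by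
      rw [Fn6_co_smul, hnk, hβ']
      norm_cast
    rw [e1] at h2
    rw [h2, zero_sub, abs_neg, zero_add, abs_of_nonneg]
    · norm_cast
    · have := T.l_pos.le
      positivity
  obtain ⟨x, y, hne⟩ := hd
  exact hne ((key x).trans (key y).symm)

end Pool.Agent.EscG
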