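import Pool.Agent.EscG.Fn4

set_option autoImplicit false

/-!
# EscG geometry, module Fn7: the energy distance is the infimum of the lengths of `C^1` curves

`fd ≤ cdist`: for a `C^1` curve `c` with `c 0 = x`, `c 1 = y` let `u t = deriv c t` for `t ∈ [0,1]`, extended by constants (continuous and bounded, so `Adm`);
`traj 0 x u t = c t` on `[0,1]`; `fd_le_length` (Fn1b). The set is nonempty (segment), `le_csInf`.
`cdist ≤ fd`: `D = fd F x y`. If `D = 0` then `x = y`, the constant curve has length `0`. If `D > 0`: `exists_fiso`, `fiso_geo` give `Z, v` on `[0,D]`; let `w` be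
`v` extended by constants outside of `[0,D]` (continuous), `c t = x + ∫ s in 0..(D t), w s`: `C^1`, `c t = Z (D t)`, `deriv c t = D • w (D t)`, length
`∫_0^1 F (Z (D t)) (D v (D t)) dt = D`. `csInf_le` with lower bound `0`.
-/

noncomputable section

namespace Pool.Agent.EscG

open MeasureTheory Set Filter Topology Esc EscF _root_.EscG
open scoped ContDiff

theorem Fn7_clamp_mem {a b : ℝ} (hab : a ≤ b) (t : ℝ) : max a (min b t) ∈ Icc a b :=
  ⟨le_max_left _ _, max_le hab (min_le_left _ _)⟩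

theorem Fn7_clamp_eq {a b t : ℝ} (ht : t ∈ Icc a b) : max a (min b t) = t := by
  rw [min_eq_right ht.2, max_eq_right ht.1]

theorem Fn7_clamp_cont {X : Type*} [TopologicalSpace X] {a b : ℝ} (hab : a ≤ b) {f : ℝ → X}
    (hf : ContinuousOn f (Icc a b)) : Continuous fun t => f (max a (min b t)) :=
  hf.comp_continuous (continuous_const.max (continuous_const.min continuous_id))
    (Fn7_clamp_mem hab)

theorem Fn7_adm {X : Type*} [NormedAddCommGroup X] {a b : ℝ} (hab : a ≤ b) {f : ℝ → X}
    (hf : ContinuousOn f (Icc a b)) : Adm fun t => f (max a (min b t)) := by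
  obtain ⟨C, hC⟩ := isCompact_Icc.exists_bound_of_continuousOn hf
  exact ⟨(Fn7_clamp_cont hab hf).stronglyMeasurable, C, fun t => hC _ (Fn7_clamp_mem hab t)⟩

theorem Fn7_lip_cont {X : Type*} [NormedAddCommGroup X] {a c C : ℝ} {v : ℝ → X}
    (hv : ∀ s ∈ Icc a c, ∀ t ∈ Icc a c, ‖v t - v s‖ ≤ C * |t - s|) : ContinuousOn v (Icc a c) := by
  have h1 : LipschitzOnWith (Real.toNNReal C) v (Icc a c) := by
    refine LipschitzOnWith.of_dist_le_mul fun t ht s hs => ?_
    rw [dist_eq_norm, Real.dist_eq]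
    refine (hv s hs t ht).trans ?_
    exact mul_le_mul_of_nonneg_right (Real.le_coe_toNNReal C) (abs_nonneg _)
  exact h1.continuousOn

variable {E : Type*} [NormedAddCommGroup E] [InnerProductSpace ℝ E] [FiniteDimensional ℝ E]
  {β : Module.Basis (Fin 2) ℝ E} {F : E → E → ℝ} {mF MF m : ℝ}

theorem Fn7_nonneg (h : RFins β F mF MF m) (x v : E) : 0 ≤ F x v :=
  (mul_nonneg h.fins.mF_pos.le (norm_nonneg v)).trans (h.fins.low x v)

/-- the length of a curve of class `C^1` is at least the energy distance -/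
theorem Fn7_le_length (h : RFins β F mF MF m) {c : ℝ → E} (hc : ContDiff ℝ 1 c) :
    fd F (c 0) (c 1) ≤ ∫ t in (0 : ℝ)..1, F (c t) (deriv c t) := by
  have hd : Continuous (deriv c) := hc.continuous_deriv le_rfl
  have hu := Fn7_adm zero_le_one (hd.continuousOn (s := Icc (0 : ℝ) 1))
  have htr : ∀ t ∈ Icc (0 : ℝ) 1,
      traj 0 (c 0) (fun t => deriv c (max 0 (min 1 t))) t = c t := by
    intro t ht
    unfold traj
    have h1 : ∫ s in (0 : ℝ)..t, deriv c (max 0 (min 1 s)) = ∫ s in (0 : ℝ)..t, deriv c s := by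
      refine intervalIntegral.integral_congr fun s hs => ?_
      rw [uIcc_of_le ht.1] at hs
      beta_reduce
      rw [Fn7_clamp_eq ⟨hs.1, hs.2.trans ht.2⟩]
    rw [h1, intervalIntegral.integral_deriv_eq_sub
      (fun s _ => (hc.differentiable one_ne_zero).differentiableAt) (hd.intervalIntegrable _ _)]
    abel
  have h2 := h.fd_le_length hu (zero_le_one (α := ℝ)) (c 0)
  rw [htr 1 ⟨zero_le_one, le_rfl⟩] at h2
  refine h2.trans (le_of_eq (intervalIntegral.integral_congr fun t ht => ?_))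
  rw [uIcc_of_le zero_le_one] at ht
  beta_reduce
  rw [htr t ht, Fn7_clamp_eq ht]

/-- a curve of class `C^1` whose length is the energy distance -/
theorem Fn7_exists (h : RFins β F mF MF m) (x y : E) : ∃ c : ℝ → E, ContDiff ℝ 1 c ∧ c 0 = x ∧
    c 1 = y ∧ fd F x y = ∫ t in (0 : ℝ)..1, F (c t) (deriv c t) := by
  rcases (fd_nonneg F x y).eq_or_lt with hD | hD
  · have h1 := le_fd h.fins x y
    rw [← hD] at h1
    have h2 : ‖y - x‖ = 0 := by
      have := h.fins.mF_pos
      have := norm_nonneg (y - x)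
      nlinarith
    have h3 : y = x := sub_eq_zero.1 (norm_eq_zero.1 h2)
    refine ⟨fun _ => x, contDiff_const, rfl, h3.symm, ?_⟩
    have h4 : F x 0 = 0 := le_antisymm (by simpa using h.fins.upp x 0) (Fn7_nonneg h x 0)
    rw [← hD]
    simp [h4]
  · obtain ⟨Z, hZ0, hZD, hZ⟩ := h.exists_fiso x y
    obtain ⟨m', M, l, hr⟩ := h.exists_reg
    obtain ⟨v, hv⟩ := h.fiso_geo hr hD hZ
    set D := fd F x y with hDdef
    obtain ⟨C, hC⟩ := hv.lip
    have hvc := Fn7_lip_cont hC
    set w : ℝ → E := fun t => v (max 0 (min D t)) with hw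
    have hwc : Continuous w := Fn7_clamp_cont hD.le hvc
    have hwe : ∀ t ∈ Icc (0 : ℝ) D, w t = v t := fun t ht => by
      simp only [hw]
      rw [Fn7_clamp_eq ht]
    have hWd : ∀ t, HasDerivAt (fun t => ∫ s in (0 : ℝ)..t, w s) (w t) t := fun t =>
      intervalIntegral.integral_hasDerivAt_right (hwc.intervalIntegrable _ _)
        hwc.stronglyMeasurable.stronglyMeasurableAtFilter hwc.continuousAt
    have hWZ : ∀ t ∈ Icc (0 : ℝ) D, x + ∫ s in (0 : ℝ)..t, w s = Z t := by
      intro t ht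
      have h1 : ∫ s in (0 : ℝ)..t, w s = ∫ s in (0 : ℝ)..t, v s := by
        refine intervalIntegral.integral_congr fun s hs => ?_
        rw [uIcc_of_le ht.1] at hs
        exact hwe s ⟨hs.1, hs.2.trans ht.2⟩
      rw [h1, ← hv.pos 0 ⟨le_rfl, hD.le⟩ t ht, hZ0]
      abel
    have hcd : ∀ t, HasDerivAt (fun t => x + ∫ s in (0 : ℝ)..(D * t), w s) (D • w (D * t)) t := by
      intro t
      have h1 : HasDerivAt (fun t : ℝ => D * t) D t := by
        simpa using (hasDerivAt_id t).const_mul D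
      exact ((hWd (D * t)).scomp t h1).const_add x
    have hde : deriv (fun t => x + ∫ s in (0 : ℝ)..(D * t), w s) = fun t => D • w (D * t) :=
      funext fun t => (hcd t).deriv
    have hmem : ∀ t ∈ Icc (0 : ℝ) 1, D * t ∈ Icc (0 : ℝ) D := fun t ht =>
      ⟨mul_nonneg hD.le ht.1, mul_le_of_le_one_right hD.le ht.2⟩
    refine ⟨fun t => x + ∫ s in (0 : ℝ)..(D * t), w s, ?_, by simp, ?_, ?_⟩
    · rw [contDiff_one_iff_deriv]
      refine ⟨fun t => (hcd t).differentiableAt, ?_⟩
      rw [hde]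
      exact continuous_const.smul (hwc.comp (continuous_const.mul continuous_id))
    · beta_reduce
      rw [hWZ _ (hmem 1 ⟨zero_le_one, le_rfl⟩), mul_one, hZD]
    · rw [hde]
      have h1 : ∫ t in (0 : ℝ)..1, F (x + ∫ s in (0 : ℝ)..(D * t), w s) (D • w (D * t)) =
          ∫ _ in (0 : ℝ)..1, D := by
        refine intervalIntegral.integral_congr fun t ht => ?_
        rw [uIcc_of_le zero_le_one] at ht
        have h2 := hmem t ht
        beta_reduce
        rw [hWZ _ h2, hwe _ h2, h.fins.hom _ _ _ hD.le, hv.unit _ h2, mul_one]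
      rw [h1]
      simp

theorem RFins.cdist_eq (h : RFins β F mF MF m) (x y : E) : cdist F x y = fd F x y := by
  apply le_antisymm
  · obtain ⟨c, h1, h2, h3, h4⟩ := Fn7_exists h x y
    refine csInf_le ⟨0, ?_⟩ ⟨c, h1, h2, h3, h4⟩
    rintro r ⟨c', -, -, -, rfl⟩
    exact intervalIntegral.integral_nonneg zero_le_one fun t _ => Fn7_nonneg h _ _
  · obtain ⟨c, h1, h2, h3, h4⟩ := Fn7_exists h x y
    refine le_csInf ⟨_, c, h1, h2, h3, h4⟩ ?_
    rintro r ⟨c', h1', h2', h3', rfl⟩
    have h5 := Fn7_le_length h h1'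
    rwa [h2', h3'] at h5

end Pool.Agent.EscG
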