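import Pool.Agent.EscF.TDefs

/-!
Outer definitions of project EscG: metrics on `𝕋² × 𝕋ⁿ` over a conformal metric of `𝕋²`, Lagrangians at
bounded distance of a kinetic energy, orbits that tend to infinity.
-/

namespace EscG.T

open Filter Topology Set EscF.T
open scoped ContDiff

variable {n : ℕ}

/-- A scalar product. -/
def IsScalarProduct (Q : Vec n →L[ℝ] Vec n →L[ℝ] ℝ) : Prop :=
  (∀ v w, Q v w = Q w v) ∧ ∀ v, v ≠ 0 → 0 < Q v v

/-- A positive function of class `C²` on `𝕋ⁿ`. -/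
structure IsConformalFactor (ρ : Vec n → ℝ) : Prop where
  smooth : ContDiff ℝ 2 ρ
  pos : ∀ x, 0 < ρ x
  periodic : ∀ (m : Fin n → ℤ) x, ρ (x + vz m) = ρ x

/-- A continuous Finsler metric on `𝕋ⁿ` (not assumed symmetric or convex). -/
structure IsFinsler (F : Vec n → Vec n → ℝ) : Prop where
  cont : Continuous (fun p : Vec n × Vec n => F p.1 p.2)
  periodic : ∀ (m : Fin n → ℤ) x v, F (x + vz m) v = F x v
  hom : ∀ x v (c : ℝ), 0 ≤ c → F x (c • v) = c * F x v
  pos : ∀ x v, v ≠ 0 → 0 < F x v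

/-- The projection to `𝕋²`. -/
noncomputable def base (x : Vec (2 + n)) : Vec 2 := WithLp.toLp 2 (fun i => x (Fin.castAdd n i))

/-- The projection to the fibre `𝕋ⁿ`. -/
noncomputable def fib (x : Vec (2 + n)) : Vec n := WithLp.toLp 2 (fun j => x (Fin.natAdd 2 j))

/-- A continuous family of scalar products on the fibres of `𝕋² × 𝕋ⁿ → 𝕋²`. -/
structure IsFibreMetric (h : Vec (2 + n) → Vec n →L[ℝ] Vec n →L[ℝ] ℝ) : Prop where
  cont : Continuous h
  periodic : ∀ (m : Fin (2 + n) → ℤ) x, h (x + vz m) = h x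
  scalar : ∀ x, IsScalarProduct (h x)

/-- A continuous family of linear maps `ℝ² → ℝⁿ` on `𝕋²`: its graphs are a field of horizontal planes on
`𝕋² × 𝕋ⁿ`, invariant under the translations of `𝕋ⁿ`. -/
structure IsConnection (A : Vec 2 → Vec 2 →L[ℝ] Vec n) : Prop where
  cont : Continuous A
  periodic : ∀ (m : Fin 2 → ℤ) x, A (x + vz m) = A x

/-- The vertical part of a velocity. -/
noncomputable def vert (A : Vec 2 → Vec 2 →L[ℝ] Vec n) (x v : Vec (2 + n)) : Vec n :=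
  fib v - A (base x) (base v)

/-- The kinetic energy of the metric on `𝕋² × 𝕋ⁿ` which is `h` on the fibres and `ρ² Q` on the horizontal
planes, which are orthogonal to the fibres. -/
noncomputable def kinetic (Q : Vec 2 →L[ℝ] Vec 2 →L[ℝ] ℝ) (ρ : Vec 2 → ℝ)
    (h : Vec (2 + n) → Vec n →L[ℝ] Vec n →L[ℝ] ℝ) (A : Vec 2 → Vec 2 →L[ℝ] Vec n)
    (x v : Vec (2 + n)) : ℝ :=
  (ρ (base x) ^ 2 * Q (base v) (base v) + h x (vert A x v) (vert A x v)) / 2

/-- The mechanical Lagrangian of the metric `ρ² Q` on `𝕋ⁿ` and of the potential `-V`. -/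
noncomputable def mech {k : ℕ∞} (Q : Vec n →L[ℝ] Vec n →L[ℝ] ℝ) (ρ : Vec n → ℝ) (V : Pot n k) : Lag n :=
  fun q => ρ q.1 ^ 2 * Q q.2.1 q.2.1 / 2 + V.toFun (q.1, q.2.2)

/-- `L` is a Lagrangian of class `C²` on `T𝕋ⁿ × 𝕋`, uniformly convex in the velocity, at bounded
distance of the kinetic energy `K`, with bounded derivative in time. -/
structure IsNear (K : Vec n → Vec n → ℝ) (L : Lag n) : Prop where
  smooth : ContDiff ℝ 2 L
  periodic : ∀ (m : Fin n → ℤ) (l : ℤ) x v t, L (x + vz m, v, t + l) = L (x, v, t)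
  convex : ∃ c : ℝ, 0 < c ∧ ∀ x v t w,
    c * ‖w‖ ^ 2 ≤ iteratedFDeriv ℝ 2 (fun u => L (x, u, t)) v ![w, w]
  near : ∃ M : ℝ, ∀ x v t, |L (x, v, t) - K x v| ≤ M
  time : ∃ M : ℝ, ∀ x v t, |deriv (fun s => L (x, v, s)) t| ≤ M

/-- The Euler-Lagrange flow of `L` has an orbit, on `(0,∞)`, that tends to infinity. -/
def HasOrbitToInfinity (L : Lag n) : Prop :=
  ∃ x : ℝ → Vec n, IsOrbit L x ∧ Tendsto (fun t => ‖deriv x t‖) atTop atTop

end EscG.T
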