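import Pool.Agent.EscG.SDefs
import Pool.Agent.EscG.TDefs
import Pool.Agent.EscF.TCore
import Pool.Agent.EscF.TT

/-!
Auxiliary definitions of the outer layer of project EscG.
-/

noncomputable section

namespace EscG.T

open Filter Topology Set Esc EscN EscF.T
open scoped ContDiff

/-- the Lagrangian in the coordinates `X = A x` -/
def tl {n : ℕ} (A : Vec n ≃L[ℝ] Vec n) (L : Lag n) : Vec n → Vec n → ℝ → ℝ :=
  fun X U t => L (A.symm X, A.symm U, t)

/-- a basis of the lattice `A ℤⁿ` -/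
def IsLatBasis {n : ℕ} (A : Vec n ≃L[ℝ] Vec n) (β : Module.Basis (Fin n) ℝ (Vec n)) : Prop :=
  (∀ i, ∃ m : Fin n → ℤ, β i = A (vz m)) ∧
    ∀ m : Fin n → ℤ, ∃ c : Fin n → ℤ, A (vz m) = ∑ i, (c i : ℝ) • β i

/-- the metric in the coordinates `X = A x` -/
def tF {n : ℕ} (A : Vec n ≃L[ℝ] Vec n) (F : Vec n → Vec n → ℝ) : Vec n → Vec n → ℝ :=
  fun X U => F (A.symm X) (A.symm U)

/-- the potential in the coordinates `X = A x` -/
def core {n : ℕ} (A : Vec n ≃L[ℝ] Vec n) (f : Fun n) : Vec n → ℝ → ℝ := fun X t => f (A.symm X, t)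

end EscG.T
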