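import Pool.Agent.EscG.PDefs
import Pool.Agent.EscG.OCore

/-!
Project EscG, application to `𝕋² × 𝕋ⁿ`: gap data in the plane for a Finsler metric, data on the product,
and the resulting data `GD` of the core. Definitions.
-/

noncomputable section

namespace EscG.X

open MeasureTheory Set Filter Topology Esc EscF EscF.T EscG.T
open scoped ContDiff

/-- embedding of the base -/
def ib (n : ℕ) (x : Vec 2) : Vec (2 + n) := WithLp.toLp 2 (Fin.addCases (fun i => x i) (fun _ => 0))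

/-- embedding of the fibre -/
def fb {n : ℕ} (x : Vec n) : Vec (2 + n) := WithLp.toLp 2 (Fin.addCases (fun _ => 0) (fun j => x j))

/-- a closed curve of unit speed, calibrated by `B`, in the class of `bv` -/
structure Anch (F2 : Vec 2 → Vec 2 → ℝ) (bv : Vec 2) (B : Vec 2 → ℝ) (l : ℝ) (c : ℝ → Vec 2) : Prop where
  per : ∀ t, c (t + l) = c t + bv
  der : ∃ v : ℝ → Vec 2, Continuous v ∧ ∀ t, HasDerivAt c (v t) t ∧ F2 (c t) (v t) = 1
  Bc : ∀ s t, B (c t) - B (c s) = t - s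

/-- gap data in the plane with the Finsler metric `F2` -/
structure Gap2 (F2 : Vec 2 → Vec 2 → ℝ) (bv gv : Vec 2) (B y : Vec 2 → ℝ) (l a τ : ℝ)
    (c0 c1 : ℝ → Vec 2) : Prop where
  l_pos : 0 < l
  cal : ∀ (z : Vec 2) (u : ℝ → Vec 2), Adm u → ∀ a b : ℝ, a ≤ b →
    B (traj a z u b) - B z ≤ ∫ t in a..b, F2 (traj a z u t) (u t)
  Bb : ∀ x, B (x + bv) = B x + l
  Bg : ∀ x, B (x + gv) = B x + a
  τ_pos : 0 < τ
  τ_le : τ ≤ 1
  yc : Continuous y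
  yb : ∀ x, y (x + bv) = y x
  yg : ∀ x, y (x + gv) = y x + 1
  an0 : Anch F2 bv B l c0
  an1 : Anch F2 bv B l c1
  y0 : {x | y x = 0} = range c0
  y1 : {x | y x = τ} = range c1
  strict : ∀ η : ℝ, 0 < η → ∃ θ : ℝ, 0 < θ ∧ ∀ (z : Vec 2) (u : ℝ → Vec 2), Adm u → ∀ a b : ℝ, a ≤ b →
    (∀ t ∈ Icc a b, η ≤ y (traj a z u t) ∧ y (traj a z u t) ≤ τ - η) →
    B (traj a z u b) - B z ≤ (1 - θ) * ∫ t in a..b, F2 (traj a z u t) (u t)

/-- data on the product: basis `β` of the lattice, metric `F` over the metric `F2` of the plane, connection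
`om`, gap data -/
structure XD (n : ℕ) where
  β : Module.Basis (Fin (2 + n)) ℝ (Vec (2 + n))
  F : Vec (2 + n) → Vec (2 + n) → ℝ
  mF : ℝ
  MF : ℝ
  F2 : Vec 2 → Vec 2 → ℝ
  om : Vec 2 → Vec 2 →L[ℝ] Vec n
  Cf : ℝ
  bv : Vec 2
  gv : Vec 2
  B : Vec 2 → ℝ
  y : Vec 2 → ℝ
  l : ℝ
  a : ℝ
  τ : ℝ
  c0 : ℝ → Vec 2
  c1 : ℝ → Vec 2

namespace XD

variable {n : ℕ} (X : XD n)

/-- the hypotheses on the data -/
structure Ok : Prop where
  fins : Fins X.β X.F X.mF X.MF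
  β0 : X.β (Fin.castAdd n 0) = ib n X.bv
  β1 : X.β (Fin.castAdd n 1) = ib n X.gv
  β2 : ∀ j : Fin n, X.β (Fin.natAdd 2 j) = fb (EuclideanSpace.single j (1:ℝ))
  F2c : Continuous (fun p : Vec 2 × Vec 2 => X.F2 p.1 p.2)
  hom2 : ∀ x v (c : ℝ), 0 ≤ c → X.F2 x (c • v) = c * X.F2 x v
  low2 : ∀ x v, X.mF * ‖v‖ ≤ X.F2 x v
  perb : ∀ x v, X.F2 (x + X.bv) v = X.F2 x v
  perg : ∀ x v, X.F2 (x + X.gv) v = X.F2 x v
  ge : ∀ x v, X.F2 (base x) (base v) ≤ X.F x v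
  omc : Continuous X.om
  le : ∀ x v, X.F x v ^ 2 ≤ X.F2 (base x) (base v) ^ 2 + X.Cf * ‖fib v - X.om (base x) (base v)‖ ^ 2
  gap : Gap2 X.F2 X.bv X.gv X.B X.y X.l X.a X.τ X.c0 X.c1

/-- the height function -/
def Y (x : Vec (2 + n)) : ℝ := X.y (base x)

/-- the data of the core -/
def gd : GD (Fin (2 + n)) (1 + n) (Vec (2 + n)) where
  β := X.β
  b := Fin.addCases (fun _ => ib n X.bv) (fun j => fb (EuclideanSpace.single j (1:ℝ)))
  F := X.F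
  mF := X.mF
  MF := X.MF
  B := fun x => X.B (base x)
  c := Fin.addCases (fun _ => X.l) (fun _ => 0)
  Z := {x | X.τ - 1 ≤ X.Y x ∧ X.Y x ≤ 0}
  q0 := ib n (X.c0 0)
  q1 := ib n (X.c1 0) - ib n X.gv
  g := ib n X.gv

end XD

/-- `bv, gv` is a basis of `ℤ²` -/
structure ZB (bv gv : Vec 2) : Prop where
  b : ∃ m : Fin 2 → ℤ, bv = vz m
  g : ∃ m : Fin 2 → ℤ, gv = vz m
  span : ∀ m : Fin 2 → ℤ, ∃ p q : ℤ, vz m = (p : ℝ) • bv + (q : ℝ) • gv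

end EscG.X
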