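import Pool.Agent.EscG.Fn0
import Pool.Agent.EscG.Fn6
import Pool.Agent.EscG.Fn7
import Pool.Agent.EscG.XDefs

set_option autoImplicit false

/-!
# EscG geometry, module Fn8: gap data in the plane `Vec 2` for a reversible Finsler metric on `𝕋²`

The basis is the standard basis of `Vec 2`; `IsRevFinsler β F2` from the hypothesis; `RFins` by Fn0; the
displacement of `vz m` is that of `vk β (m 0, m 1)`; `cdist_eq` (Fn7); `RFins.main` (Fn6) gives `β'`, and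
`bv = β' 0`, `gv = β' 1`; `ZB bv gv` from `SameLat` (the integral matrix has determinant one). `Gap2` has the
same fields as `GapF`.
-/

noncomputable section

namespace EscG.X

open MeasureTheory Set Filter Topology Esc EscF EscF.T EscG.T
open scoped ContDiff

/-- reversible Finsler metrics on `𝕋² = ℝ²/ℤ²`, of class `C^2` off the zero section -/
structure IsRevFinsler2 (F : Vec 2 → Vec 2 → ℝ) : Prop where
  smooth : ContDiffOn ℝ 2 (fun p : Vec 2 × Vec 2 => F p.1 p.2) {p | p.2 ≠ 0}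
  pos : ∀ x v, v ≠ 0 → 0 < F x v
  hom : ∀ x v (c : ℝ), F x (c • v) = |c| * F x v
  per : ∀ (n : Fin 2 → ℤ) x v, F (x + vz n) v = F x v
  conv : ∀ x v w, v ≠ 0 → w ≠ 0 → 0 < fderiv ℝ (fderiv ℝ (fun z => F x z ^ 2)) v w w

/-- the standard basis of `Vec 2` -/
def Fn8_β : Module.Basis (Fin 2) ℝ (Vec 2) := (EuclideanSpace.basisFun (Fin 2) ℝ).toBasis

theorem Fn8_β_apply (i : Fin 2) : Fn8_β i = vz (fun j => if j = i then 1 else 0) := by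
  unfold Fn8_β
  rw [OrthonormalBasis.coe_toBasis, EuclideanSpace.basisFun_apply]
  ext j
  show (EuclideanSpace.single i (1:ℝ)) j = (((if j = i then 1 else 0 : ℤ)) : ℝ)
  rw [PiLp.single_apply]
  split_ifs <;> simp

theorem Fn8_lin (p q : ℤ) (m m' : Fin 2 → ℤ) :
    (p : ℝ) • vz m + (q : ℝ) • vz m' = vz (fun i => p * m i + q * m' i) := by
  ext i
  show (p : ℝ) * (m i : ℝ) + (q : ℝ) * (m' i : ℝ) = ((p * m i + q * m' i : ℤ) : ℝ)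
  push_cast
  ring

theorem Fn8_vz (m : Fin 2 → ℤ) : vz m = (m 0 : ℝ) • Fn8_β 0 + (m 1 : ℝ) • Fn8_β 1 := by
  rw [Fn8_β_apply, Fn8_β_apply, Fn8_lin]
  congr 1
  funext i
  fin_cases i <;> simp

theorem Fn8_gap2 {F2 : Vec 2 → Vec 2 → ℝ} {β : Module.Basis (Fin 2) ℝ (Vec 2)} {B y : Vec 2 → ℝ}
    {l a τ : ℝ} {c0 c1 : ℝ → Vec 2} (h : Pool.Agent.EscG.GapF β F2 B y l a τ c0 c1) :
    Gap2 F2 (β 0) (β 1) B y l a τ c0 c1 :=
  ⟨h.l_pos, h.cal, h.Bb, h.Bg, h.τ_pos, h.τ_le, h.yc, h.yb, h.yg, ⟨h.c0_b, h.c0_d, h.c0_B⟩,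
    ⟨h.c1_b, h.c1_d, h.c1_B⟩, h.y0, h.y1, h.strict⟩

theorem Fn8_zb {β' : Module.Basis (Fin 2) ℝ (Vec 2)} (h : Pool.Agent.EscG.SameLat Fn8_β β') :
    ZB (β' 0) (β' 1) := by
  obtain ⟨p, q, r, s, hdet, h0, h1⟩ := h
  refine ⟨⟨_, by rw [h0, Fn8_β_apply, Fn8_β_apply, Fn8_lin]⟩,
    ⟨_, by rw [h1, Fn8_β_apply, Fn8_β_apply, Fn8_lin]⟩, fun m => ?_⟩
  have hdet' : (p : ℝ) * s - q * r = 1 := by exact_mod_cast hdet
  refine ⟨m 0 * s - m 1 * r, -(m 0 * q) + m 1 * p, ?_⟩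
  have e3 : (m 0 : ℝ) = m 0 * (p * s - q * r) := by rw [hdet', mul_one]
  have e4 : (m 1 : ℝ) = m 1 * (p * s - q * r) := by rw [hdet', mul_one]
  rw [Fn8_vz, h0, h1]
  push_cast
  have e5 : (m 0 : ℝ) • Fn8_β 0 + (m 1 : ℝ) • Fn8_β 1 =
      ((m 0 : ℝ) * (p * s - q * r)) • Fn8_β 0 + ((m 1 : ℝ) * (p * s - q * r)) • Fn8_β 1 := by
    rw [← e3, ← e4]
  rw [e5]
  module

theorem Fn8_rev {F2 : Vec 2 → Vec 2 → ℝ} (hF : IsRevFinsler2 F2) :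
    Pool.Agent.EscG.IsRevFinsler Fn8_β F2 := by
  refine ⟨hF.smooth, hF.pos, hF.hom, fun i x v => ?_, hF.conv⟩
  rw [Fn8_β_apply]
  exact hF.per _ x v

/-- a reversible Finsler metric is continuous, also at the zero section -/
theorem IsRevFinsler2.isFinsler {F2 : Vec 2 → Vec 2 → ℝ} (hF : IsRevFinsler2 F2) :
    EscG.T.IsFinsler F2 := by
  obtain ⟨mF, MF, m, hR⟩ := (Fn8_rev hF).rfins
  refine ⟨?_, fun n x v => hF.per n x v, fun x v c hc => by rw [hF.hom, abs_of_nonneg hc], hF.pos⟩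
  exact hR.fins.cont

theorem exists_gap2F {F2 : Vec 2 → Vec 2 → ℝ} (hF : IsRevFinsler2 F2)
    (hd : ∃ (n : Fin 2 → ℤ) (x y : Vec 2),
      Pool.Agent.EscG.cdist F2 x (x + vz n) ≠ Pool.Agent.EscG.cdist F2 y (y + vz n)) :
    ∃ (bv gv : Vec 2) (B y : Vec 2 → ℝ) (l a τ : ℝ) (c0 c1 : ℝ → Vec 2), ZB bv gv ∧
      Gap2 F2 bv gv B y l a τ c0 c1 := by
  obtain ⟨mF, MF, m, hR⟩ := (Fn8_rev hF).rfins
  obtain ⟨n, x, y, hne⟩ := hd
  have hv : vz n = Pool.Agent.EscG.vk Fn8_β (n 0, n 1) := Fn8_vz n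
  rw [hR.cdist_eq, hR.cdist_eq, hv] at hne
  obtain ⟨β', hs, B, y', l, a, τ, c0, c1, hG⟩ := hR.main ⟨x, y, hne⟩
  exact ⟨β' 0, β' 1, B, y', l, a, τ, c0, c1, Fn8_zb hs, Fn8_gap2 hG⟩

end EscG.X
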