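import Pool.Agent.EscG.RDefs
import Pool.Agent.EscG.C1

set_option autoImplicit false

/-!
# EscG geometry: reversible Finsler metrics on a lattice plane, definitions
-/

noncomputable section

namespace Pool.Agent.EscG

open MeasureTheory Set Filter Topology Esc EscF _root_.EscG
open scoped ContDiff

variable {E : Type*} [NormedAddCommGroup E] [InnerProductSpace ℝ E]

/-- reversible Finsler metrics of class `C^2` off the zero section: even and homogeneous, positive, periodic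
under the lattice with basis `β`, and `F²` has positive definite second derivative in the velocity -/
structure IsRevFinsler (β : Module.Basis (Fin 2) ℝ E) (F : E → E → ℝ) : Prop where
  smooth : ContDiffOn ℝ 2 (fun p : E × E => F p.1 p.2) {p | p.2 ≠ 0}
  pos : ∀ x v, v ≠ 0 → 0 < F x v
  hom : ∀ x v (c : ℝ), F x (c • v) = |c| * F x v
  per : ∀ i x v, F (x + β i) v = F x v
  conv : ∀ x v w, v ≠ 0 → w ≠ 0 → 0 < fderiv ℝ (fderiv ℝ (fun z => F x z ^ 2)) v w w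

/-- quantitative form of `IsRevFinsler` -/
structure RFins (β : Module.Basis (Fin 2) ℝ E) (F : E → E → ℝ) (mF MF m : ℝ) : Prop where
  fins : Fins β F mF MF
  rev : ∀ x v, F x (-v) = F x v
  m_pos : 0 < m
  smooth : ContDiffOn ℝ 2 (fun p : E × E => F p.1 p.2) {p | p.2 ≠ 0}
  hess : ∀ x v w, v ≠ 0 → m * ‖w‖ ^ 2 ≤ fderiv ℝ (fderiv ℝ (fun z => F x z ^ 2 / 2)) v w w

/-- distance of `F`: infimum of the lengths of the curves of class `C^1` from `x` to `y` -/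
def cdist (F : E → E → ℝ) (x y : E) : ℝ :=
  sInf {r | ∃ c : ℝ → E, ContDiff ℝ 1 c ∧ c 0 = x ∧ c 1 = y ∧ r = ∫ t in (0 : ℝ)..1, F (c t) (deriv c t)}

/-- `Z` is isometric on `[a,c]` for the energy distance of `F` -/
def FIso (F : E → E → ℝ) (Z : ℝ → E) (a c : ℝ) : Prop :=
  ∀ s ∈ Icc a c, ∀ t ∈ Icc a c, fd F (Z s) (Z t) = |s - t|

/-- cut-off functions of one variable for the regularisation of `F²/2` near the zero section -/
structure Cuts (φ χ : ℝ → ℝ) (c : ℝ) : Prop where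
  sφ : ContDiff ℝ ∞ φ
  sχ : ContDiff ℝ ∞ χ
  c_pos : 0 < c
  nn : ∀ s, 0 ≤ φ s
  id : ∀ s, 1 / 8 ≤ s → φ s = s
  const : ∀ s, s ≤ 1 / 32 → φ s = φ 0
  d1 : ∀ s, 0 ≤ deriv φ s
  d2 : ∀ s, 0 ≤ deriv (deriv φ) s
  d1c : ∀ s, 1 / 16 ≤ s → c ≤ deriv φ s
  χ1 : ∀ s, s ≤ 1 / 16 → χ s = 1
  χ0 : ∀ s, 1 / 8 ≤ s → χ s = 0
  χn : ∀ s, 0 ≤ χ s ∧ χ s ≤ 1

/-- the regularised energy -/
def rg (φ χ : ℝ → ℝ) (δ : ℝ) (F : E → E → ℝ) (x v : E) (_ : ℝ) : ℝ :=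
  φ (F x v ^ 2 / 2) + δ * (χ (F x v ^ 2 / 2) * (‖v‖ ^ 2 / 2))

/-- regularised energy: of class `C^2`, strongly convex, equal to `F²/2` for `F ≥ 1/2`, `≥ F - 1/2` -/
structure Reg [CompleteSpace E] (β : Module.Basis (Fin 2) ℝ E) (F : E → E → ℝ) (mF MF m' M : ℝ)
    (l : E → E → ℝ → ℝ) : Prop where
  tl : TL β F mF MF m' M l
  eq : ∀ x v t, 1 / 2 ≤ F x v → l x v t = F x v ^ 2 / 2
  ge : ∀ x v t, F x v - 1 / 2 ≤ l x v t
  gt : ∀ x v t, F x v ≠ 1 → F x v - 1 / 2 < l x v t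

/-- geodesic of unit speed on `[a,c]`: of class `C^{1,1}`, Euler-Lagrange equation of the regularised energy -/
structure FGeo [CompleteSpace E] (F : E → E → ℝ) (l : E → E → ℝ → ℝ) (Z v : ℝ → E) (a c : ℝ) : Prop where
  lip : ∃ C : ℝ, ∀ s ∈ Icc a c, ∀ t ∈ Icc a c, ‖v t - v s‖ ≤ C * |t - s|
  pos : ∀ s ∈ Icc a c, ∀ t ∈ Icc a c, Z t - Z s = ∫ r in s..t, v r
  unit : ∀ t ∈ Icc a c, F (Z t) (v t) = 1
  el : ∀ s ∈ Icc a c, ∀ t ∈ Icc a c,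
    gu l (Z t) (v t) t - gu l (Z s) (v s) s = ∫ r in s..t, gx l (Z r) (v r) r

/-- gap data in the plane `E` with the metric `F` (GH2 of the core) -/
structure GapF (β : Module.Basis (Fin 2) ℝ E) (F : E → E → ℝ) (B y : E → ℝ) (l a τ : ℝ)
    (c0 c1 : ℝ → E) : Prop where
  l_pos : 0 < l
  cal : ∀ (z : E) (u : ℝ → E), Adm u → ∀ a b : ℝ, a ≤ b →
    B (traj a z u b) - B z ≤ ∫ t in a..b, F (traj a z u t) (u t)
  Bb : ∀ x, B (x + β 0) = B x + l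
  Bg : ∀ x, B (x + β 1) = B x + a
  τ_pos : 0 < τ
  τ_le : τ ≤ 1
  yc : Continuous y
  yb : ∀ x, y (x + β 0) = y x
  yg : ∀ x, y (x + β 1) = y x + 1
  c0_b : ∀ t, c0 (t + l) = c0 t + β 0
  c1_b : ∀ t, c1 (t + l) = c1 t + β 0
  c0_d : ∃ v : ℝ → E, Continuous v ∧ ∀ t, HasDerivAt c0 (v t) t ∧ F (c0 t) (v t) = 1
  c1_d : ∃ v : ℝ → E, Continuous v ∧ ∀ t, HasDerivAt c1 (v t) t ∧ F (c1 t) (v t) = 1
  c0_B : ∀ s t, B (c0 t) - B (c0 s) = t - s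
  c1_B : ∀ s t, B (c1 t) - B (c1 s) = t - s
  y0 : {x | y x = 0} = range c0
  y1 : {x | y x = τ} = range c1
  strict : ∀ η > 0, ∃ θ > 0, ∀ (z : E) (u : ℝ → E), Adm u → ∀ a b : ℝ, a ≤ b →
    (∀ t ∈ Icc a b, η ≤ y (traj a z u t) ∧ y (traj a z u t) ≤ τ - η) →
    B (traj a z u b) - B z ≤ (1 - θ) * ∫ t in a..b, F (traj a z u t) (u t)

end Pool.Agent.EscG
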