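import Pool.Agent.EscG.UDefs

/-!
Definitions for the final statements of project EscG about `𝕋²` with an arbitrary Riemannian metric, and about
reversible Finsler metrics.
-/

namespace EscG.U

open Filter Topology Set EscF.T EscG.T

variable {n : ℕ}

/-- A Riemannian metric of class `C^k` on `𝕋ⁿ`. -/
structure IsRiemannian (k : ℕ∞) (g : Vec n → Vec n → Vec n → ℝ) : Prop where
  smooth : ∀ v w, ContDiff ℝ k (fun x => g x v w)
  periodic : ∀ (m : Fin n → ℤ) x, g (x + vz m) = g x
  scalar : ∀ x, IsScalarProduct (g x)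

/-- The mechanical Lagrangian of the metric `g` and of the potential `-V`. -/
noncomputable def mech {k : ℕ∞} (g : Vec n → Vec n → Vec n → ℝ) (V : Pot n k) : Lag n :=
  fun q => g q.1 q.2.1 q.2.1 / 2 + V.toFun (q.1, q.2.2)

/-- A reversible Finsler metric on `𝕋²`, of class `C²` off the zero section, such that the second derivative
of its square in the velocity is positive definite. -/
structure IsReversibleFinsler (F : Vec 2 → Vec 2 → ℝ) : Prop where
  smooth : ContDiffOn ℝ 2 (fun p : Vec 2 × Vec 2 => F p.1 p.2) {p | p.2 ≠ 0}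
  pos : ∀ x v, v ≠ 0 → 0 < F x v
  hom : ∀ x v (c : ℝ), F x (c • v) = |c| * F x v
  periodic : ∀ (m : Fin 2 → ℤ) x v, F (x + vz m) v = F x v
  convex : ∀ x v w, v ≠ 0 → w ≠ 0 → 0 < fderiv ℝ (fderiv ℝ (fun z => F x z ^ 2)) v w w

/-- The distance of `F` on the universal cover: infimum of the lengths of the curves of class `C¹` from `x`
to `y`. -/
noncomputable def coverDist (F : Vec 2 → Vec 2 → ℝ) (x y : Vec 2) : ℝ :=
  sInf {r | ∃ c : ℝ → Vec 2, ContDiff ℝ 1 c ∧ c 0 = x ∧ c 1 = y ∧ r = ∫ t in (0 : ℝ)..1, F (c t) (deriv c t)}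

/-- For some integer vector `m` the distance from `x` to `x + m` depends on `x`. For a Riemannian metric this
means that the metric is not flat (theorem of E. Hopf). -/
def HasNonconstantDisplacement (F : Vec 2 → Vec 2 → ℝ) : Prop :=
  ∃ (m : Fin 2 → ℤ) (x y : Vec 2), coverDist F x (x + vz m) ≠ coverDist F y (y + vz m)

/-- The metric of the base: the norm of a conformally flat metric of `𝕋²` which is not flat, or any reversible
Finsler metric of `𝕋²` of non constant displacement. -/
def IsCurvedBase (F : Vec 2 → Vec 2 → ℝ) : Prop :=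
  IsNonflatConformal F ∨ (IsReversibleFinsler F ∧ HasNonconstantDisplacement F)

end EscG.U
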