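import Pool.Agent.EscG.GU

set_option autoImplicit false

/-!
# EscG geometry: adjacent closed lines around a point outside `D`

For `p ∉ D` every closed line `G` has `Up (range G) p` or `Lo (range G) p` (`All.tri`; points of `G` are
in `D`). `A` := closed lines with `Up (range G) p`: nonempty (translates far down). `G0`: an element of
`A` with `top (range G)` maximal: `top` is bounded above on `A`: for `G ∈ A` and a fixed closed line `H`
with `Lo (range H) p` one has `Lt G H` (`Cl.cases`; `Lt H G` would give `Lo (range G) p`), so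
`top (range G) < top (range H)`. Take a maximizing sequence `G_n`, shifted in time so that
`(0, top (range G_n)) = G_n 0`; by `exists_lim` a subsequence converges to `G0`, a closed line through
`(0, y)`, `y = sup`, so `top (range G0) ≥ y` (`le_top`); `G0 ∈ A`: otherwise `Lo (range G0) p` and
`lo_stable` gives `Lo (range G_n) p`. So every `G ∈ A` has `top (range G) ≤ top (range G0)`, hence
`range G = range G0` or `Lt G G0` (`Cl.cases`, `Lt.top_lt`). `G1` by reflection (`T.refl`, `rf p`).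
`Lt G0 G1`: `Cl.cases`: equality and `Lt G1 G0` contradict `Up (range G0) p`, `Lo (range G1) p`.
-/

noncomputable section

open Set Filter Topology

namespace Pool.Agent.EscG

namespace Pl

variable {T : Pl}

theorem GAdj_notMem {p : ℝ × ℝ} (hp : p ∉ T.D) {G : ℝ → ℝ × ℝ} (hG : T.Cl G) :
    p ∉ range G := by
  rintro ⟨t, rfl⟩
  exact hp (hG.mem_D t)

/-- a point outside `D` is below or above every closed line -/
theorem GAdj_tri {p : ℝ × ℝ} (hp : p ∉ T.D) {G : ℝ → ℝ × ℝ} (hG : T.Cl G) :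
    Lo (range G) p ∨ Up (range G) p := by
  rcases hG.all.tri p with h | h
  · exact absurd h (GAdj_notMem hp hG)
  · exact h

/-- a closed line far below, and one far above a point -/
theorem GAdj_far (T : Pl) (p : ℝ × ℝ) :
    (∃ G, T.Cl G ∧ Up (range G) p) ∧ ∃ G, T.Cl G ∧ Lo (range G) p := by
  obtain ⟨G, hG⟩ := T.exists_sub
  obtain ⟨C, hC⟩ := hG.ul
  obtain ⟨k, hk⟩ := exists_nat_gt (C + |p.2|)
  have h1 := le_abs_self p.2
  have h2 := neg_abs_le p.2
  constructor
  · refine ⟨_, hG.translate 0 (-(k : ℤ)), up_far ?_⟩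
    rintro _ ⟨t, rfl⟩
    have h3 := abs_le.1 (hC.2 t).2
    simp only [Prod.snd_add]
    push_cast
    linarith [h3.2]
  · refine ⟨_, hG.translate 0 (k : ℤ), lo_far ?_⟩
    rintro _ ⟨t, rfl⟩
    have h3 := abs_le.1 (hC.2 t).2
    simp only [Prod.snd_add]
    push_cast
    linarith [h3.1]

/-- a closed line of the set `A` is strictly below a closed line above `p` -/
theorem GAdj_lt {p : ℝ × ℝ} {G H : ℝ → ℝ × ℝ} (hG : T.Cl G) (hH : T.Cl H)
    (h1 : Up (range G) p) (h2 : Lo (range H) p) : Lt G H := by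
  rcases hG.cases hH with h | h | h
  · rw [h] at h1
    exact (hH.isLine.not_lo_up h2 h1).elim
  · exact h
  · exact (hG.isLine.not_lo_up (h.lo hH.isLine hG.isLine h2) h1).elim

theorem exists_below {p : ℝ × ℝ} (hp : p ∉ T.D) : ∃ G0, T.Cl G0 ∧ Up (range G0) p ∧
    ∀ G, T.Cl G → Up (range G) p → range G = range G0 ∨ Lt G G0 := by
  obtain ⟨⟨Gd, hGd, hGdp⟩, H, hH, hHp⟩ := GAdj_far T p
  let S : Set ℝ := {y | ∃ G, T.Cl G ∧ Up (range G) p ∧ top (range G) = y}
  have hne : S.Nonempty := ⟨_, Gd, hGd, hGdp, rfl⟩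
  have hbdd : BddAbove S := by
    refine ⟨top (range H), ?_⟩
    rintro _ ⟨G, hG, hGp, rfl⟩
    exact ((GAdj_lt hG hH hGp hHp).top_lt hG.isLine hH.isLine).le
  have hle : ∀ G, T.Cl G → Up (range G) p → top (range G) ≤ sSup S := fun G hG hGp =>
    le_csSup hbdd ⟨G, hG, hGp, rfl⟩
  have hseq : ∀ n : ℕ, ∃ P : ℝ → ℝ × ℝ, T.Cl P ∧ Up (range P) p ∧
      sSup S - 1 / ((n : ℝ) + 1) < top (range P) ∧ P 0 = (0, top (range P)) := by
    intro n
    have h1 : sSup S - 1 / ((n : ℝ) + 1) < sSup S := by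
      have : (0 : ℝ) < 1 / ((n : ℝ) + 1) := by positivity
      linarith
    obtain ⟨_, ⟨G, hG, hGp, rfl⟩, h2⟩ := exists_lt_of_lt_csSup hne h1
    obtain ⟨s, hs⟩ := top_mem hG.isLine
    refine ⟨fun t => G (t + s), hG.shift s, ?_, ?_, ?_⟩
    · rw [Cl.range_shift]
      exact hGp
    · rw [Cl.range_shift]
      exact h2
    · rw [Cl.range_shift]
      simp only [zero_add]
      exact hs
  choose P hP1 hP2 hP3 hP4 using hseq
  have hnorm : ∀ n, ‖P n 0‖ ≤ |sSup S| + 1 := by
    intro n
    rw [hP4 n, Prod.norm_def]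
    simp only [norm_zero, Real.norm_eq_abs]
    have h1 : (1 : ℝ) / ((n : ℝ) + 1) ≤ 1 := by
      rw [div_le_one (by positivity)]
      have : (0 : ℝ) ≤ (n : ℝ) := Nat.cast_nonneg n
      linarith
    have h2 := hle _ (hP1 n) (hP2 n)
    have h3 := hP3 n
    have h4 := le_abs_self (sSup S)
    have h5 := neg_abs_le (sSup S)
    refine max_le (by positivity) (abs_le.2 ⟨by linarith, by linarith⟩)
  have hlip : ∀ n s t, T.d (P n s) (P n t) ≤ |s - t| := fun n s t => ((hP1 n).1 s t).le
  obtain ⟨φ, hφ, Q, hQ, -⟩ := T.exists_lim hlip hnorm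
  have hQcl : T.Cl Q := by
    constructor
    · intro s t
      have h1 : Tendsto (fun n => T.d (P (φ n) s) (P (φ n) t)) atTop (𝓝 (T.d (Q s) (Q t))) :=
        (T.cont.tendsto (Q s, Q t)).comp ((hQ s).prodMk_nhds (hQ t))
      have h2 : (fun n => T.d (P (φ n) s) (P (φ n) t)) = fun _ => |s - t| :=
        funext fun n => (hP1 (φ n)).1 s t
      rw [h2] at h1
      exact tendsto_nhds_unique h1 tendsto_const_nhds
    · intro t
      have h1 : Tendsto (fun n => P (φ n) (t + T.l)) atTop (𝓝 (Q t + (1, 0))) := by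
        have h2 : (fun n => P (φ n) (t + T.l)) = fun n => P (φ n) t + (1, 0) :=
          funext fun n => (hP1 (φ n)).2 t
        rw [h2]
        exact (hQ t).add_const _
      exact tendsto_nhds_unique (hQ (t + T.l)) h1
  have hQ0 : Q 0 = (0, sSup S) := by
    have h1 : Tendsto (fun n : ℕ => top (range (P n))) atTop (𝓝 (sSup S)) := by
      have h2 : Tendsto (fun n : ℕ => sSup S - 1 / ((n : ℝ) + 1)) atTop (𝓝 (sSup S)) := by
        have h3 := (tendsto_const_nhds (x := sSup S)).sub
          (tendsto_one_div_add_atTop_nhds_zero_nat (𝕜 := ℝ))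
        rwa [sub_zero] at h3
      exact tendsto_of_tendsto_of_tendsto_of_le_of_le h2 tendsto_const_nhds
        (fun n => (hP3 n).le) (fun n => hle _ (hP1 n) (hP2 n))
    have h4 : Tendsto (fun n => P (φ n) 0) atTop (𝓝 ((0 : ℝ), sSup S)) := by
      have h5 : (fun n => P (φ n) 0) = fun n => ((0 : ℝ), top (range (P (φ n)))) :=
        funext fun n => hP4 (φ n)
      rw [h5]
      exact tendsto_const_nhds.prodMk_nhds (h1.comp hφ.tendsto_atTop)
    exact tendsto_nhds_unique (hQ 0) h4
  have htop : sSup S ≤ top (range Q) := le_top hQcl.isLine ⟨0, hQ0⟩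
  have hQp : Up (range Q) p := by
    rcases GAdj_tri hp hQcl with h | h
    · exfalso
      obtain ⟨C, hC⟩ := All.ul T (|sSup S| + 1)
      have h1 : ∀ n, UL (1 / T.l) C (P (φ n)) := fun n => hC _ (hP1 (φ n)).all (hnorm (φ n))
      have h2 : ∀ n s t, ‖P (φ n) s - P (φ n) t‖ ≤ T.m⁻¹ * |s - t| := fun n s t =>
        T.lip_of (hlip (φ n) s t)
      have h3 := lo_stable (one_div_pos.2 T.l_pos) h1 h2 hQ h
      obtain ⟨n, hn⟩ := h3.exists
      exact (hP1 (φ n)).isLine.not_lo_up hn (hP2 (φ n))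
    · exact h
  refine ⟨Q, hQcl, hQp, ?_⟩
  intro G hG hGp
  rcases hG.cases hQcl with h | h | h
  · exact Or.inl h
  · exact Or.inr h
  · exfalso
    have h1 := h.top_lt hQcl.isLine hG.isLine
    have h2 := hle G hG hGp
    linarith

/-- adjacent closed lines around `p` -/
structure Adj (T : Pl) (G0 G1 : ℝ → ℝ × ℝ) (p : ℝ × ℝ) : Prop where
  cl0 : T.Cl G0
  cl1 : T.Cl G1
  lt : Lt G0 G1
  up : Up (range G0) p
  lo : Lo (range G1) p
  notMem : p ∉ T.D
  all : ∀ G, T.Cl G → (range G = range G0 ∨ Lt G G0) ∨ (range G = range G1 ∨ Lt G1 G)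

theorem GAdj_image (G : ℝ → ℝ × ℝ) : rf '' range G = range fun t => rf (G t) := by
  rw [← range_comp]
  rfl

/-- reflection of the order of lines -/
theorem GAdj_lt_rf {G H : ℝ → ℝ × ℝ} (h : Lt (fun t => rf (G t)) fun t => rf (H t)) : Lt H G := by
  constructor
  · intro t
    have h1 := h.2 t
    rw [← GAdj_image H] at h1
    exact lo_rf.1 h1
  · intro t
    have h1 := h.1 t
    rw [← GAdj_image G] at h1
    exact up_rf.1 h1

theorem exists_adj {p : ℝ × ℝ} (hp : p ∉ T.D) : ∃ G0 G1, T.Adj G0 G1 p := by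
  obtain ⟨G0, h0, h0p, h0all⟩ := exists_below hp
  have hp' : rf p ∉ T.refl.D := fun h => hp (T.refl_D.1 h)
  obtain ⟨K, hK, hKp, hKall⟩ := exists_below hp'
  have hKK : (fun t => rf (rf (K t))) = K := funext fun t => rf_rf (K t)
  have h1 : T.Cl (fun t => rf (K t)) := by
    apply T.refl_cl.1
    rw [hKK]
    exact hK
  have h1p : Lo (range fun t => rf (K t)) p := by
    apply up_rf.1
    rw [GAdj_image, hKK]
    exact hKp
  have hlt : Lt G0 (fun t => rf (K t)) := GAdj_lt h0 h1 h0p h1p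
  refine ⟨G0, fun t => rf (K t), ⟨h0, h1, hlt, h0p, h1p, hp, ?_⟩⟩
  intro G hG
  rcases GAdj_tri hp hG with h | h
  · right
    have h2 : T.refl.Cl (fun t => rf (G t)) := T.refl_cl.2 hG
    have h3 : Up (range fun t => rf (G t)) (rf p) := by
      rw [← GAdj_image]
      exact up_rf.2 h
    rcases hKall _ h2 h3 with h4 | h4
    · left
      have h5 : rf '' (range fun t => rf (G t)) = rf '' range K := by rw [h4]
      rw [GAdj_image, GAdj_image] at h5
      have hGG : (fun t => rf (rf (G t))) = G := funext fun t => rf_rf (G t)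
      rw [hGG] at h5
      exact h5
    · right
      apply GAdj_lt_rf
      rw [hKK]
      exact h4
  · left
    exact h0all G hG h

end Pl

end Pool.Agent.EscG
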