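import Pool.Agent.EscG.GStat

set_option autoImplicit false

/-!
# EscG geometry: the function `B`, strict inside the gap

`a := (ap + am) / 2`, `c i j := i l + j a ≤ d x (x + (i,j))` for all `x` (from `(U + V)/2`).
For `x` in the open gap let `β_x y := (inf_(i,j) (c i j + d (x + (i,j)) y) + sup_(i,j) (c i j - d y (x + (i,j)))) / 2`:
1-Lipschitz, `β_x (y + (1,0)) = β_x y + l`, `β_x (y + (0,1)) = β_x y + a`
(bounded: `c i j + d (x + (i,j)) y ≥ c i j + d (x + (i,j)) x - d x y ≥ - d x y`). If `r` is as in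
`nonstatic` and `d x y ≤ r / 2` then the infimum is `d x y` and the supremum is `- d x y` (both at
`(0,0)`), so `β_x y = 0`. The open gap is covered by countably many balls `d x_n y < r_n / 4`
(Lindelof), let
`B y := ∑ n, 2^(-n-1) (β_(x_n) y - β_(x_n) 0)` (`|β_x y - β_x 0| ≤ d 0 y`: summable). On a compact
subset `K` of the gap finitely many balls suffice; let `n ≤ N` be their indices, `θ := 2^(-N-1)`,
`δ := min r_n / 4`: for `y ∈ K`, `d y y' ≤ δ`, both points are in some ball `d x_n · ≤ r_n / 2`, so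
`|B y' - B y| ≤ (1 - 2^(-n-1)) d y y'`. Translation by `(i, 0)` gives the statement on `K + Z b`.
-/

noncomputable section

open Set Filter Topology

namespace Pool.Agent.EscG

namespace Pl

variable {T : Pl} {G0 G1 : ℝ → ℝ × ℝ} {p : ℝ × ℝ}

/-- lattice vector -/
def gbv (q : ℤ × ℤ) : ℝ × ℝ := ((q.1 : ℝ), (q.2 : ℝ))

theorem gbv_add (q e : ℤ × ℤ) : gbv (q + e) = gbv q + gbv e := by
  simp [gbv]

theorem gbv_zero : gbv 0 = 0 := by
  ext <;> simp [gbv]

theorem gbv_neg (q : ℤ × ℤ) : gbv (-q) = - gbv q := by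
  ext <;> simp [gbv]

theorem gb_per (q : ℤ × ℤ) (x y : ℝ × ℝ) : T.d (x + gbv q) (y + gbv q) = T.d x y :=
  T.per q.1 q.2 x y

/-- value of the cohomology class -/
def gbc (T : Pl) (a : ℝ) (q : ℤ × ℤ) : ℝ := q.1 * T.l + q.2 * a

theorem gbc_add (a : ℝ) (q e : ℤ × ℤ) : gbc T a (q + e) = gbc T a q + gbc T a e := by
  simp only [gbc, Prod.fst_add, Prod.snd_add, Int.cast_add]; ring

theorem gbc_zero (a : ℝ) : gbc T a 0 = 0 := by simp [gbc]

theorem gbc_neg (a : ℝ) (q : ℤ × ℤ) : gbc T a (-q) = - gbc T a q := by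
  simp only [gbc, Prod.fst_neg, Prod.snd_neg, Int.cast_neg]; ring

theorem gb_back {a : ℝ} (hc : ∀ (x : ℝ × ℝ) (q : ℤ × ℤ), gbc T a q ≤ T.d x (x + gbv q))
    (x : ℝ × ℝ) (q : ℤ × ℤ) : - gbc T a q ≤ T.d (x + gbv q) x := by
  have h1 := hc x (-q)
  have h2 := gb_per (T := T) q x (x + gbv (-q))
  rw [gbv_neg] at h1 h2
  rw [neg_add_cancel_right] at h2
  rw [gbc_neg, ← h2] at h1
  exact h1

/-- lower envelope -/
def gbf (T : Pl) (a : ℝ) (x y : ℝ × ℝ) : ℝ := ⨅ q : ℤ × ℤ, (gbc T a q + T.d (x + gbv q) y)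

/-- upper envelope -/
def gbg (T : Pl) (a : ℝ) (x y : ℝ × ℝ) : ℝ := ⨆ q : ℤ × ℤ, (gbc T a q - T.d y (x + gbv q))

section

variable {a : ℝ} (hc : ∀ (x : ℝ × ℝ) (q : ℤ × ℤ), gbc T a q ≤ T.d x (x + gbv q))

include hc

theorem gbf_low (x y : ℝ × ℝ) (q : ℤ × ℤ) : - T.d x y ≤ gbc T a q + T.d (x + gbv q) y := by
  have h1 := gb_back hc x q
  have h2 := T.tri (x + gbv q) y x
  rw [T.symm y x] at h2
  linarith

theorem gbg_upp (x y : ℝ × ℝ) (q : ℤ × ℤ) : gbc T a q - T.d y (x + gbv q) ≤ T.d x y := by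
  have h1 := hc x q
  have h2 := T.tri x y (x + gbv q)
  linarith

theorem gbf_bdd (x y : ℝ × ℝ) :
    BddBelow (range fun q : ℤ × ℤ => gbc T a q + T.d (x + gbv q) y) :=
  ⟨- T.d x y, by rintro _ ⟨q, rfl⟩; exact gbf_low hc x y q⟩

theorem gbg_bdd (x y : ℝ × ℝ) :
    BddAbove (range fun q : ℤ × ℤ => gbc T a q - T.d y (x + gbv q)) :=
  ⟨T.d x y, by rintro _ ⟨q, rfl⟩; exact gbg_upp hc x y q⟩

theorem gbf_le (x y : ℝ × ℝ) (q : ℤ × ℤ) : gbf T a x y ≤ gbc T a q + T.d (x + gbv q) y :=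
  ciInf_le (gbf_bdd hc x y) q

theorem le_gbg (x y : ℝ × ℝ) (q : ℤ × ℤ) : gbc T a q - T.d y (x + gbv q) ≤ gbg T a x y :=
  le_ciSup (gbg_bdd hc x y) q

theorem gbf_lip (x y z : ℝ × ℝ) : gbf T a x z - gbf T a x y ≤ T.d y z := by
  have : gbf T a x z - T.d y z ≤ gbf T a x y := by
    refine le_ciInf fun q => ?_
    have h1 := gbf_le hc x z q
    have h2 := T.tri (x + gbv q) y z
    linarith
  linarith

theorem gbg_lip (x y z : ℝ × ℝ) : gbg T a x z - gbg T a x y ≤ T.d y z := by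
  have : gbg T a x z ≤ gbg T a x y + T.d y z := by
    refine ciSup_le fun q => ?_
    have h1 := le_gbg hc x y q
    have h2 := T.tri y z (x + gbv q)
    linarith
  linarith

theorem gbf_shift_le (x y : ℝ × ℝ) (e : ℤ × ℤ) :
    gbf T a x (y + gbv e) ≤ gbf T a x y + gbc T a e := by
  have : gbf T a x (y + gbv e) - gbc T a e ≤ gbf T a x y := by
    refine le_ciInf fun q => ?_
    have h1 := gbf_le hc x (y + gbv e) (q + e)
    rw [gbc_add, gbv_add, ← add_assoc, gb_per] at h1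
    linarith
  linarith

theorem gbf_shift (x y : ℝ × ℝ) (e : ℤ × ℤ) :
    gbf T a x (y + gbv e) = gbf T a x y + gbc T a e := by
  refine le_antisymm (gbf_shift_le hc x y e) ?_
  have h := gbf_shift_le hc x (y + gbv e) (-e)
  rw [gbv_neg, add_neg_cancel_right, gbc_neg] at h
  linarith

theorem gbg_shift_le (x y : ℝ × ℝ) (e : ℤ × ℤ) :
    gbg T a x y + gbc T a e ≤ gbg T a x (y + gbv e) := by
  have : gbg T a x y ≤ gbg T a x (y + gbv e) - gbc T a e := by
    refine ciSup_le fun q => ?_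
    have h1 := le_gbg hc x (y + gbv e) (q + e)
    rw [gbc_add, gbv_add, ← add_assoc, gb_per] at h1
    linarith
  linarith

theorem gbg_shift (x y : ℝ × ℝ) (e : ℤ × ℤ) :
    gbg T a x (y + gbv e) = gbg T a x y + gbc T a e := by
  refine le_antisymm ?_ (gbg_shift_le hc x y e)
  have h := gbg_shift_le hc x (y + gbv e) (-e)
  rw [gbv_neg, add_neg_cancel_right, gbc_neg] at h
  linarith

theorem gbf_near {x : ℝ × ℝ} {r : ℝ}
    (hr : ∀ q : ℤ × ℤ, q ≠ 0 → gbc T a q + r ≤ T.d x (x + gbv q)) {y : ℝ × ℝ}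
    (hy : T.d x y ≤ r / 2) : gbf T a x y = T.d x y := by
  refine le_antisymm ?_ (le_ciInf fun q => ?_)
  · have h := gbf_le hc x y 0
    rw [gbc_zero, gbv_zero, add_zero, zero_add] at h
    exact h
  · by_cases hq : q = 0
    · rw [hq, gbc_zero, gbv_zero, add_zero, zero_add]
    · have h1 := hr (-q) (neg_ne_zero.2 hq)
      have h2 := gb_per (T := T) q x (x + gbv (-q))
      rw [gbv_neg] at h1 h2
      rw [neg_add_cancel_right] at h2
      rw [gbc_neg, ← h2] at h1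
      have h3 := T.tri (x + gbv q) y x
      rw [T.symm y x] at h3
      linarith

theorem gbg_near {x : ℝ × ℝ} {r : ℝ}
    (hr : ∀ q : ℤ × ℤ, q ≠ 0 → gbc T a q + r ≤ T.d x (x + gbv q)) {y : ℝ × ℝ}
    (hy : T.d x y ≤ r / 2) : gbg T a x y = - T.d x y := by
  refine le_antisymm (ciSup_le fun q => ?_) ?_
  · by_cases hq : q = 0
    · rw [hq, gbc_zero, gbv_zero, add_zero, zero_sub, T.symm y x]
    · have h1 := hr q hq
      have h3 := T.tri x y (x + gbv q)
      linarith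
  · have h := le_gbg hc x y 0
    rw [gbc_zero, gbv_zero, add_zero, zero_sub, T.symm y x] at h
    exact h

/-- the function `β_x` -/
theorem gb_beta (x : ℝ × ℝ) : ∃ β : ℝ × ℝ → ℝ, (∀ y z, β z - β y ≤ T.d y z) ∧
    (∀ y e, β (y + gbv e) = β y + gbc T a e) ∧
    ∀ r, (∀ q : ℤ × ℤ, q ≠ 0 → gbc T a q + r ≤ T.d x (x + gbv q)) →
      ∀ y, T.d x y ≤ r / 2 → β y = 0 := by
  refine ⟨fun y => (gbf T a x y + gbg T a x y) / 2, fun y z => ?_, fun y e => ?_,
    fun r hr y hy => ?_⟩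
  · have h1 := gbf_lip hc x y z
    have h2 := gbg_lip hc x y z
    simp only
    linarith
  · simp only [gbf_shift hc, gbg_shift hc]
    ring
  · simp only [gbf_near hc hr hy, gbg_near hc hr hy]
    ring

end

/-- the weights -/
def gbw (n : ℕ) : ℝ := 1 / 2 / 2 ^ n

theorem gbw_pos (n : ℕ) : 0 < gbw n := by unfold gbw; positivity

theorem gbw_sum : HasSum gbw 1 := hasSum_geometric_two' 1

theorem gbw_anti {m n : ℕ} (h : m ≤ n) : gbw n ≤ gbw m := by
  unfold gbw
  gcongr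
  norm_num

section

variable {β : ℕ → ℝ × ℝ → ℝ} (hβ : ∀ n y z, β n z - β n y ≤ T.d y z)

include hβ

theorem gb_summable (x y : ℝ × ℝ) : Summable fun n => gbw n * (β n y - β n x) := by
  refine Summable.of_norm_bounded (gbw_sum.summable.mul_right (T.d x y)) fun n => ?_
  rw [norm_mul, Real.norm_of_nonneg (gbw_pos n).le]
  exact mul_le_mul_of_nonneg_left (T.abs_sub_le (hβ n) x y) (gbw_pos n).le

theorem gb_sub (x y : ℝ × ℝ) : (∑' n, gbw n * (β n y - β n 0)) - ∑' n, gbw n * (β n x - β n 0) =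
    ∑' n, gbw n * (β n y - β n x) := by
  rw [← (gb_summable hβ 0 y).tsum_sub (gb_summable hβ 0 x)]
  refine tsum_congr fun n => ?_
  ring

theorem gb_lip (x y : ℝ × ℝ) : ∑' n, gbw n * (β n y - β n x) ≤ T.d x y := by
  have h : HasSum (fun n => gbw n * T.d x y) (1 * T.d x y) := gbw_sum.mul_right _
  rw [one_mul] at h
  refine (gb_summable hβ x y).tsum_le_of_sum_le fun s => ?_
  refine le_trans (Finset.sum_le_sum fun n _ =>
    mul_le_mul_of_nonneg_left (hβ n x y) (gbw_pos n).le) ?_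
  exact sum_le_hasSum s (fun n _ => mul_nonneg (gbw_pos n).le (T.d_nonneg x y)) h

theorem gb_strict {x y : ℝ × ℝ} {m : ℕ} (h0 : β m y = β m x) :
    ∑' n, gbw n * (β n y - β n x) ≤ (1 - gbw m) * T.d x y := by
  have h : HasSum (fun n => gbw n * T.d x y) (1 * T.d x y) := gbw_sum.mul_right _
  have h1 : HasSum (fun n => if n = m then gbw m * T.d x y else 0) (gbw m * T.d x y) :=
    hasSum_ite_eq m _
  have h2 := h.sub h1
  rw [← sub_mul] at h2
  refine hasSum_le (fun n => ?_) (gb_summable hβ x y).hasSum h2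
  by_cases hn : n = m
  · subst hn
    simp [h0]
  · rw [if_neg hn, sub_zero]
    exact mul_le_mul_of_nonneg_left (hβ n x y) (gbw_pos n).le

end

/-- abstract form -/
theorem gb_exists {a : ℝ} (hc : ∀ (x : ℝ × ℝ) (q : ℤ × ℤ), gbc T a q ≤ T.d x (x + gbv q))
    {Gap : Set (ℝ × ℝ)} (hne : Gap.Nonempty)
    (hr : ∀ x ∈ Gap, ∃ r > 0, ∀ q : ℤ × ℤ, q ≠ 0 → gbc T a q + r ≤ T.d x (x + gbv q)) :
    ∃ B : ℝ × ℝ → ℝ, (∀ x y, B y - B x ≤ T.d x y) ∧ (∀ y e, B (y + gbv e) = B y + gbc T a e) ∧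
      ∀ K : Set (ℝ × ℝ), IsCompact K → K ⊆ Gap → ∃ θ δ : ℝ, 0 < θ ∧ 0 < δ ∧
        ∀ x ∈ K, ∀ y, T.d x y ≤ δ → B y - B x ≤ (1 - θ) * T.d x y ∧
          B x - B y ≤ (1 - θ) * T.d x y := by
  classical
  choose! r hr0 hr using hr
  choose β hβ1 hβ2 hβ3 using gb_beta (T := T) hc
  -- the balls
  have hcont : ∀ x : ℝ × ℝ, Continuous fun y => T.d x y := fun x =>
    T.cont.comp (by fun_prop : Continuous fun y : ℝ × ℝ => (x, y))
  have hopen : ∀ x, IsOpen {y | T.d x y < r x / 4} := fun x =>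
    isOpen_lt (hcont x) continuous_const
  obtain ⟨S, hSG, hScount, hSU⟩ := TopologicalSpace.isOpen_biUnion_countable Gap
    (fun x => {y | T.d x y < r x / 4}) (fun x _ => hopen x)
  have hcov : Gap ⊆ ⋃ x ∈ S, {y | T.d x y < r x / 4} := by
    rw [hSU]
    intro x hx
    refine mem_iUnion₂.2 ⟨x, hx, ?_⟩
    have := hr0 x hx
    simp only [mem_ofPred_eq, T.d_self]
    linarith
  have hSne : S.Nonempty := by
    obtain ⟨x, hx⟩ := hne
    obtain ⟨y, hy, -⟩ := mem_iUnion₂.1 (hcov hx)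
    exact ⟨y, hy⟩
  obtain ⟨c, hcS⟩ := hScount.exists_eq_range hSne
  have hcG : ∀ n, c n ∈ Gap := fun n => hSG (hcS ▸ mem_range_self n)
  have hb : ∀ n y z, β (c n) z - β (c n) y ≤ T.d y z := fun n => hβ1 (c n)
  have hB : ∀ x y, (∑' n, gbw n * (β (c n) y - β (c n) 0)) -
      (∑' n, gbw n * (β (c n) x - β (c n) 0)) = ∑' n, gbw n * (β (c n) y - β (c n) x) :=
    fun x y => gb_sub (β := fun n => β (c n)) hb x y
  refine ⟨fun y => ∑' n, gbw n * (β (c n) y - β (c n) 0), fun x y => ?_, fun y e => ?_,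
    fun K hK hKG => ?_⟩
  · simp only [hB]
    exact gb_lip (β := fun n => β (c n)) hb x y
  · rw [← sub_eq_iff_eq_add', hB]
    simp only [hβ2, add_sub_cancel_left]
    rw [tsum_mul_right, gbw_sum.tsum_eq, one_mul]
  · obtain ⟨t, ht⟩ := hK.elim_finite_subcover (fun n => {y | T.d (c n) y < r (c n) / 4})
      (fun n => hopen (c n)) (by
        refine (hKG.trans hcov).trans ?_
        rw [hcS]
        intro y hy
        obtain ⟨x, ⟨n, rfl⟩, hy⟩ := mem_iUnion₂.1 hy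
        exact mem_iUnion.2 ⟨n, hy⟩)
    obtain ⟨δ, hδ0, hδ⟩ : ∃ δ : ℝ, 0 < δ ∧ ∀ n ∈ t, δ ≤ r (c n) / 4 := by
      clear ht
      induction t using Finset.induction_on with
      | empty => exact ⟨1, one_pos, by simp⟩
      | insert n t hn ih =>
        obtain ⟨δ, h0, h1⟩ := ih
        refine ⟨min δ (r (c n) / 4), lt_min h0 (by have := hr0 _ (hcG n); linarith), ?_⟩
        intro k hk
        rcases Finset.mem_insert.1 hk with rfl | hk
        · exact min_le_right _ _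
        · exact (min_le_left _ _).trans (h1 k hk)
    refine ⟨gbw (t.sup id), δ, gbw_pos _, hδ0, fun x hx y hxy => ?_⟩
    obtain ⟨n, hn, hxn⟩ := mem_iUnion₂.1 (ht hx)
    have hxn' : T.d (c n) x < r (c n) / 4 := hxn
    have hyn : T.d (c n) y ≤ r (c n) / 2 := by
      have h1 := T.tri (c n) x y
      have h2 := hδ n hn
      linarith
    have hr0' := hr0 _ (hcG n)
    have e1 : β (c n) x = 0 := hβ3 (c n) (r (c n)) (hr _ (hcG n)) x (by linarith)
    have e2 : β (c n) y = 0 := hβ3 (c n) (r (c n)) (hr _ (hcG n)) y hyn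
    have hle : (1 - gbw n) * T.d x y ≤ (1 - gbw (t.sup id)) * T.d x y := by
      have h1 : gbw (t.sup id) ≤ gbw n := gbw_anti (Finset.le_sup (f := id) hn)
      have h2 := T.d_nonneg x y
      nlinarith
    simp only [hB]
    refine ⟨le_trans (gb_strict (β := fun n => β (c n)) hb (m := n) (by simp only [e1, e2])) hle,
      ?_⟩
    have h3 := gb_strict (β := fun n => β (c n)) hb (x := y) (y := x) (m := n)
      (by simp only [e1, e2])
    rw [T.symm y x] at h3
    exact h3.trans hle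

theorem Adj.exists_B (h : T.Adj G0 G1 p) : ∃ (B : ℝ × ℝ → ℝ) (a : ℝ), T.Sub B ∧
    (∀ x, B (x + (0, 1)) = B x + a) ∧
    ∀ K : Set (ℝ × ℝ), IsCompact K → (∀ x ∈ K, Up (range G0) x ∧ Lo (range G1) x) →
      ∃ θ δ : ℝ, 0 < θ ∧ 0 < δ ∧ ∀ x ∈ K, ∀ (i : ℤ) (y : ℝ × ℝ),
        T.d (x + ((i : ℝ), 0)) y ≤ δ →
        |B y - B (x + ((i : ℝ), 0))| ≤ (1 - θ) * T.d (x + ((i : ℝ), 0)) y := by
  obtain ⟨U, V, ap, am, hUV⟩ := T.exists_UV
  -- the class of `(U + V) / 2`
  have hc : ∀ (x : ℝ × ℝ) (q : ℤ × ℤ), gbc T ((ap + am) / 2) q ≤ T.d x (x + gbv q) := by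
    intro x q
    have hU1 : ∀ (j : ℤ) (x : ℝ × ℝ), U (x + (0, (j : ℝ))) = U x + j * ap := by
      intro j
      induction j using Int.induction_on with
      | zero =>
        intro x
        have : x + (0, ((0 : ℤ) : ℝ)) = x := by ext <;> simp
        rw [this]; simp
      | succ k ih =>
        intro x
        have : x + (0, (((k : ℤ) + 1 : ℤ) : ℝ)) = (x + (0, ((k : ℤ) : ℝ))) + (0, 1) := by
          ext <;> simp [add_assoc]
        rw [this, hUV.gU, ih]; push_cast; ring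
      | pred k ih =>
        intro x
        have : x + (0, ((-(k : ℤ) : ℤ) : ℝ)) = (x + (0, ((-(k : ℤ) - 1 : ℤ) : ℝ))) + (0, 1) := by
          ext <;> simp
          ring
        have h1 := ih x
        rw [this, hUV.gU] at h1
        push_cast at h1 ⊢
        linarith
    have hV1 : ∀ (j : ℤ) (x : ℝ × ℝ), V (x + (0, (j : ℝ))) = V x + j * am := by
      intro j
      induction j using Int.induction_on with
      | zero =>
        intro x
        have : x + (0, ((0 : ℤ) : ℝ)) = x := by ext <;> simp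
        rw [this]; simp
      | succ k ih =>
        intro x
        have : x + (0, (((k : ℤ) + 1 : ℤ) : ℝ)) = (x + (0, ((k : ℤ) : ℝ))) + (0, 1) := by
          ext <;> simp [add_assoc]
        rw [this, hUV.gV, ih]; push_cast; ring
      | pred k ih =>
        intro x
        have : x + (0, ((-(k : ℤ) : ℤ) : ℝ)) = (x + (0, ((-(k : ℤ) - 1 : ℤ) : ℝ))) + (0, 1) := by
          ext <;> simp
          ring
        have h1 := ih x
        rw [this, hUV.gV] at h1
        push_cast at h1 ⊢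
        linarith
    have hsp : x + gbv q = (x + (0, (q.2 : ℝ))) + ((q.1 : ℝ), 0) := by
      ext <;> simp [gbv]
    have hU2 : U (x + gbv q) = U x + q.2 * ap + q.1 * T.l := by
      rw [hsp, Sub.int T hUV.subU, hU1]
    have hV2 : V (x + gbv q) = V x + q.2 * am + q.1 * T.l := by
      rw [hsp, Sub.int T hUV.subV, hV1]
    have h1 := hUV.subU.1 x (x + gbv q)
    have h2 := hUV.subV.1 x (x + gbv q)
    rw [hU2] at h1
    rw [hV2] at h2
    unfold gbc
    linarith
  obtain ⟨B, hB1, hB2, hB3⟩ := gb_exists hc (Gap := {x | Up (range G0) x ∧ Lo (range G1) x})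
    ⟨p, h.up, h.lo⟩ (by
      rintro x ⟨hx0, hx1⟩
      obtain ⟨r, hr0, hr⟩ := h.nonstatic hUV hx0 hx1
      refine ⟨r, hr0, fun q hq => ?_⟩
      exact hr q.1 q.2 hq)
  have hBi : ∀ (i : ℤ) (x : ℝ × ℝ), B (x + ((i : ℝ), 0)) = B x + i * T.l := by
    intro i x
    have := hB2 x (i, 0)
    simpa [gbv, gbc] using this
  refine ⟨B, (ap + am) / 2, ⟨hB1, fun x => ?_⟩, fun x => ?_, fun K hK hKG => ?_⟩
  · have := hBi 1 x
    simpa using this
  · have := hB2 x (0, 1)
    simpa [gbv, gbc] using this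
  · obtain ⟨θ, δ, hθ, hδ, H⟩ := hB3 K hK hKG
    refine ⟨θ, δ, hθ, hδ, fun x hx i y hxy => ?_⟩
    have hy : y = (y + (((-i : ℤ) : ℝ), 0)) + ((i : ℝ), 0) := by
      ext <;> simp
    have hd : T.d (x + ((i : ℝ), 0)) y = T.d x (y + (((-i : ℤ) : ℝ), 0)) := by
      conv_lhs => rw [hy]
      have := T.per i 0 x (y + (((-i : ℤ) : ℝ), 0))
      simpa using this
    have hBy : B y = B (y + (((-i : ℤ) : ℝ), 0)) + i * T.l := by
      conv_lhs => rw [hy]
      rw [hBi]
    rw [hd] at hxy ⊢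
    rw [hBy, hBi i x, abs_le]
    obtain ⟨h1, h2⟩ := H x hx _ hxy
    constructor <;> linarith

end Pl

end Pool.Agent.EscG
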