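import Pool.Agent.EscG.GTopo

set_option autoImplicit false

/-!
# EscG geometry: limits of lines, highest crossing with the vertical axis
-/

noncomputable section

open Set Filter Topology

namespace Pool.Agent.EscG

theorem GTopo2_lip_lim {K : ℝ} {P : ℕ → ℝ → ℝ × ℝ} {Q : ℝ → ℝ × ℝ}
    (h2 : ∀ n s t, ‖P n s - P n t‖ ≤ K * |s - t|)
    (hlim : ∀ t, Tendsto (fun n => P n t) atTop (𝓝 (Q t))) (s t : ℝ) :
    ‖Q s - Q t‖ ≤ K * |s - t| :=
  le_of_tendsto ((hlim s).sub (hlim t)).norm (Eventually.of_forall fun n => h2 n s t)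

/-- limit of lines (pointwise, equi-Lipschitz) -/
theorem UL.lim {a C K : ℝ} {P : ℕ → ℝ → ℝ × ℝ} {Q : ℝ → ℝ × ℝ} (h1 : ∀ n, UL a C (P n))
    (h2 : ∀ n s t, ‖P n s - P n t‖ ≤ K * |s - t|)
    (hlim : ∀ t, Tendsto (fun n => P n t) atTop (𝓝 (Q t))) : UL a C Q := by
  refine ⟨?_, fun t => ⟨?_, ?_⟩⟩
  · have hL := GTopo2_lip_lim h2 hlim
    have hK : 0 ≤ K := by
      have h := (norm_nonneg _).trans (h2 0 1 0)
      simpa using h
    have h3 : LipschitzWith ⟨K, hK⟩ Q := by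
      refine LipschitzWith.of_dist_le_mul fun s t => ?_
      rw [dist_eq_norm, Real.dist_eq]
      exact hL s t
    exact h3.continuous
  · have h3 : Tendsto (fun n => |(P n t).1 - a * t|) atTop (𝓝 |(Q t).1 - a * t|) :=
      ((((continuous_fst.tendsto _).comp (hlim t)).sub_const _).abs)
    exact le_of_tendsto h3 (Eventually.of_forall fun n => ((h1 n).2 t).1)
  · have h3 : Tendsto (fun n => |(P n t).2|) atTop (𝓝 |(Q t).2|) :=
      ((continuous_snd.tendsto _).comp (hlim t)).abs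
    exact le_of_tendsto h3 (Eventually.of_forall fun n => ((h1 n).2 t).2)

theorem mem_lim {a C K : ℝ} (ha : 0 < a) {P : ℕ → ℝ → ℝ × ℝ} {Q : ℝ → ℝ × ℝ}
    (h1 : ∀ n, UL a C (P n)) (h2 : ∀ n s t, ‖P n s - P n t‖ ≤ K * |s - t|)
    (hlim : ∀ t, Tendsto (fun n => P n t) atTop (𝓝 (Q t))) {x : ℕ → ℝ × ℝ} {y : ℝ × ℝ}
    (hx : ∀ n, x n ∈ range (P n)) (hy : Tendsto x atTop (𝓝 y)) : y ∈ range Q := by
  choose s hs using hx
  -- the parameters are bounded
  have hb : ∃ R : ℝ, ∀ n, |(x n).1| ≤ R := by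
    obtain ⟨R, hR⟩ := (((continuous_fst.tendsto _).comp hy).abs).bddAbove_range
    exact ⟨R, fun n => hR ⟨n, rfl⟩⟩
  obtain ⟨R, hR⟩ := hb
  have hsb : ∀ n, s n ∈ Icc (-((R + C) / a)) ((R + C) / a) := by
    intro n
    have h3 := ((h1 n).2 (s n)).1
    rw [hs n] at h3
    have h4 : |a * s n| ≤ R + C := by
      have h5 : a * s n = (x n).1 - ((x n).1 - a * s n) := by ring
      calc |a * s n| = |(x n).1 - ((x n).1 - a * s n)| := by rw [← h5]
        _ ≤ |(x n).1| + |(x n).1 - a * s n| := abs_sub _ _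
        _ ≤ R + C := add_le_add (hR n) h3
    rw [abs_mul, abs_of_pos ha] at h4
    have h5 : |s n| ≤ (R + C) / a := by
      rw [le_div_iff₀ ha]
      linarith
    exact abs_le.1 h5
  obtain ⟨r, -, φ, hφ, hr⟩ := isCompact_Icc.tendsto_subseq hsb
  refine ⟨r, ?_⟩
  have h3 : Tendsto (fun n => P (φ n) (s (φ n))) atTop (𝓝 y) := by
    have h4 : (fun n => P (φ n) (s (φ n))) = fun n => x (φ n) := funext fun n => hs (φ n)
    rw [h4]
    exact hy.comp hφ.tendsto_atTop
  have h4 : Tendsto (fun n => P (φ n) r) atTop (𝓝 (Q r)) := (hlim r).comp hφ.tendsto_atTop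
  have h5 : Tendsto (fun n => P (φ n) (s (φ n)) - P (φ n) r) atTop (𝓝 0) := by
    have h6 : Tendsto (fun n => K * |s (φ n) - r|) atTop (𝓝 0) := by
      have h7 : Tendsto (fun n => K * |s (φ n) - r|) atTop (𝓝 (K * |r - r|)) :=
        ((hr.sub_const r).abs).const_mul K
      simpa using h7
    exact squeeze_zero_norm (fun n => h2 (φ n) (s (φ n)) r) h6
  have h6 : Tendsto (fun n => P (φ n) (s (φ n))) atTop (𝓝 (Q r)) := by
    have h7 := h5.add h4
    simpa using h7
  exact tendsto_nhds_unique h6 h3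

/-- a path avoiding the limit avoids the approximating lines -/
theorem GTopo2_joined {a C K : ℝ} (ha : 0 < a) {P : ℕ → ℝ → ℝ × ℝ} {Q : ℝ → ℝ × ℝ}
    (h1 : ∀ n, UL a C (P n)) (h2 : ∀ n s t, ‖P n s - P n t‖ ≤ K * |s - t|)
    (hlim : ∀ t, Tendsto (fun n => P n t) atTop (𝓝 (Q t))) {x u : ℝ × ℝ}
    (hj : JoinedIn (range Q)ᶜ x u) : ∀ᶠ n in atTop, JoinedIn (range (P n))ᶜ x u := by
  obtain ⟨γ, hγ⟩ := hj
  have key : ∀ᶠ n in atTop, ∀ t : unitInterval, γ t ∉ range (P n) := by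
    by_contra hcon
    rw [not_eventually] at hcon
    obtain ⟨φ, hφ, hφ'⟩ := extraction_of_frequently_atTop hcon
    have h3 : ∀ n, ∃ t : unitInterval, γ t ∈ range (P (φ n)) := by
      intro n
      have := hφ' n
      push Not at this
      exact this
    choose t ht using h3
    obtain ⟨t0, -, ψ, hψ, ht0⟩ := (isCompact_univ (X := unitInterval)).tendsto_subseq
      (fun n => mem_univ (t n))
    have h4 : Tendsto (fun n => γ (t (ψ n))) atTop (𝓝 (γ t0)) :=
      (γ.continuous.tendsto t0).comp ht0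
    have h5 : γ t0 ∈ range Q := mem_lim (P := fun n => P (φ (ψ n))) ha (fun n => h1 _)
      (fun n => h2 _) (fun t => (hlim t).comp (hφ.tendsto_atTop.comp hψ.tendsto_atTop))
      (fun n => ht (ψ n)) h4
    exact hγ t0 h5
  exact key.mono fun n hn => ⟨γ, hn⟩

/-- being below is stable. Proof: the path from `x` to `u`, prolonged vertically downwards below
all `P n`, is compact and at positive distance of `range Q`; only `t` in a compact interval matter
(`a t` is at distance `≤ C` of the first coordinate), and there the convergence is uniform. -/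
theorem lo_stable {a C K : ℝ} (ha : 0 < a) {P : ℕ → ℝ → ℝ × ℝ} {Q : ℝ → ℝ × ℝ}
    (h1 : ∀ n, UL a C (P n)) (h2 : ∀ n s t, ‖P n s - P n t‖ ≤ K * |s - t|)
    (hlim : ∀ t, Tendsto (fun n => P n t) atTop (𝓝 (Q t))) {x : ℝ × ℝ} (hx : Lo (range Q) x) :
    ∀ᶠ n in atTop, Lo (range (P n)) x := by
  obtain ⟨u, hu, -, hj⟩ := GTopo_lo_low hx (-C)
  refine (GTopo2_joined ha h1 h2 hlim hj).mono fun n hn => ⟨u, ?_, hn⟩
  rintro _ ⟨t, rfl⟩
  exact hu.trans_le (abs_le.1 ((h1 n).2 t).2).1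

theorem up_stable {a C K : ℝ} (ha : 0 < a) {P : ℕ → ℝ → ℝ × ℝ} {Q : ℝ → ℝ × ℝ}
    (h1 : ∀ n, UL a C (P n)) (h2 : ∀ n s t, ‖P n s - P n t‖ ≤ K * |s - t|)
    (hlim : ∀ t, Tendsto (fun n => P n t) atTop (𝓝 (Q t))) {x : ℝ × ℝ} (hx : Up (range Q) x) :
    ∀ᶠ n in atTop, Up (range (P n)) x := by
  obtain ⟨u, hu, -, hj⟩ := GTopo_up_high hx C
  refine (GTopo2_joined ha h1 h2 hlim hj).mono fun n hn => ⟨u, ?_, hn⟩
  rintro _ ⟨t, rfl⟩
  exact (abs_le.1 ((h1 n).2 t).2).2.trans_lt hu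

/-- height of the highest crossing with the vertical axis -/
def top (S : Set (ℝ × ℝ)) : ℝ := sSup {y : ℝ | (0, y) ∈ S}

theorem top_mem {P : ℝ → ℝ × ℝ} (hP : IsLine P) : ((0 : ℝ), top (range P)) ∈ range P :=
  (GTopo_axis hP).2.sSup_mem (GTopo_axis hP).1

theorem le_top {P : ℝ → ℝ × ℝ} (hP : IsLine P) {y : ℝ} (hy : ((0 : ℝ), y) ∈ range P) :
    y ≤ top (range P) :=
  le_csSup (GTopo_axis hP).2.bddAbove hy

theorem GTopo2_isGreatest {P : ℝ → ℝ × ℝ} (hP : IsLine P) :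
    IsGreatest {y : ℝ | ((0 : ℝ), y) ∈ range P} (top (range P)) :=
  ⟨top_mem hP, fun _ hy => le_top hP hy⟩

/-- see the proof of `lt_or_gt` -/
theorem Lt.top_lt {P P' : ℝ → ℝ × ℝ} (hP : IsLine P) (hP' : IsLine P') (h : Lt P P') :
    top (range P) < top (range P') := by
  have hd := h.disjoint
  rcases lt_trichotomy (top (range P)) (top (range P')) with hlt | heq | hgt
  · exact hlt
  · have h3 := top_mem hP
    rw [heq] at h3
    exact (disjoint_left.1 hd h3 (top_mem hP')).elim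
  · exact (Lt.asymm hP h (GTopo_lt hP' hP hd.symm (GTopo2_isGreatest hP') (GTopo2_isGreatest hP)
      hgt)).elim

theorem GTopo2_line_shift {P : ℝ → ℝ × ℝ} (hP : IsLine P) : IsLine (fun t => P t + (0, 1)) := by
  obtain ⟨a, C, ha, hc, hb⟩ := hP
  refine ⟨a, C + 1, ha, by fun_prop, fun t => ⟨?_, ?_⟩⟩
  · have h1 := (hb t).1
    show |(P t).1 + 0 - a * t| ≤ C + 1
    rw [add_zero]
    linarith
  · have h1 := (hb t).2
    show |(P t).2 + 1| ≤ C + 1
    exact (abs_add_le _ _).trans (by rw [abs_one]; linarith)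

/-- a translate upwards of a `(1,0)`-periodic line, disjoint from it, is above it.
Proof: let `z` be a highest point of `P` (it exists by periodicity); `z + (0,1)` is above all
points of `P`. -/
theorem lt_translate {P : ℝ → ℝ × ℝ} (hP : IsLine P) {τ : ℝ} (hτ : 0 < τ)
    (hper : ∀ t, P (t + τ) = P t + (1, 0))
    (hd : Disjoint (range P) (range fun t => P t + (0, 1))) : Lt P (fun t => P t + (0, 1)) := by
  have hP' := GTopo2_line_shift hP
  rcases lt_or_gt hP hP' hd with h | h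
  · exact h
  · exfalso
    have h1 := h.top_lt hP' hP
    obtain ⟨t, ht⟩ := top_mem hP
    have h2 : ((0 : ℝ), top (range P) + 1) ∈ range (fun t => P t + (0, 1)) :=
      ⟨t, by
        show P t + (0, 1) = (0, top (range P) + 1)
        rw [ht]
        simp⟩
    have h3 := le_top hP' h2
    linarith

end Pool.Agent.EscG
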