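import Pool.Agent.EscG.GFact1
import Pool.Agent.EscG.GTopo2

set_option autoImplicit false

/-!
# EscG geometry: closed minimal lines, non-branching
-/

noncomputable section

open Set Filter Topology

namespace Pool.Agent.EscG

namespace Pl

variable (T : Pl)

/-- periodic prolongation of the minimal segment (`Pl.ext`); isometric by `fact1`:
`m l <= d (G s) (G (s + m l)) <= d (G s) (G t) + (s + m l - t)` -/
theorem exists_cl {x : ℝ × ℝ} (hx : x ∈ T.D) : ∃ G, T.Cl G ∧ G 0 = x := by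
  have hx1 : T.d x (x + (1, 0)) = T.l := hx
  obtain ⟨P, h0, hper, hlip, -⟩ := T.ext x 1 0 (by simp)
  have e1 : (((1 : ℤ) : ℝ), ((0 : ℤ) : ℝ)) = ((1 : ℝ), (0 : ℝ)) := by simp
  rw [e1, hx1] at hper
  have hlp := T.l_pos
  have hperm : ∀ (m : ℕ) (t : ℝ), P (t + m * T.l) = P t + ((m : ℝ), 0) := by
    intro m
    induction m with
    | zero =>
      intro t
      have e2 : (((0 : ℕ) : ℝ), (0 : ℝ)) = (0 : ℝ × ℝ) := by simp
      rw [e2, Nat.cast_zero, zero_mul, add_zero, add_zero]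
    | succ m ih =>
      intro t
      have e2 : t + ((m + 1 : ℕ) : ℝ) * T.l = (t + m * T.l) + T.l := by push_cast; ring
      rw [e2, hper, ih, add_assoc]
      congr 1
      ext <;> simp
  have key : ∀ s t : ℝ, s ≤ t → t - s ≤ T.d (P s) (P t) := by
    intro s t hst
    obtain ⟨m, hm⟩ := exists_nat_ge ((t - s) / T.l)
    have hm2 : t - s ≤ m * T.l := (div_le_iff₀ hlp).1 hm
    have h1 := T.fact1 m (P s)
    rw [← hperm m s] at h1
    have h2 := T.tri (P s) (P t) (P (s + m * T.l))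
    have h3 := hlip t (s + m * T.l)
    rw [abs_of_nonpos (by linarith)] at h3
    linarith
  refine ⟨P, ⟨?_, hper⟩, h0⟩
  intro s t
  rcases le_total s t with h | h
  · refine le_antisymm (hlip s t) ?_
    rw [abs_of_nonpos (by linarith)]
    linarith [key s t h]
  · refine le_antisymm (hlip s t) ?_
    rw [abs_of_nonneg (by linarith), T.symm]
    exact key t s h

variable {T}

theorem Cl.mem_D {G : ℝ → ℝ × ℝ} (h : T.Cl G) (t : ℝ) : G t ∈ T.D := by
  change T.d (G t) (G t + (1, 0)) = T.l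
  rw [← h.2 t, h.1, abs_of_nonpos (by linarith [T.l_pos])]
  ring

theorem Cl.shift {G : ℝ → ℝ × ℝ} (h : T.Cl G) (s : ℝ) : T.Cl (fun t => G (t + s)) := by
  refine ⟨fun u t => ?_, fun t => ?_⟩
  · change T.d (G (u + s)) (G (t + s)) = |u - t|
    rw [h.1]
    congr 1
    ring
  · change G (t + T.l + s) = G (t + s) + (1, 0)
    rw [← h.2]
    congr 1
    ring

theorem Cl.translate {G : ℝ → ℝ × ℝ} (h : T.Cl G) (i j : ℤ) :
    T.Cl (fun t => G t + ((i : ℝ), (j : ℝ))) := by
  refine ⟨fun u t => ?_, fun t => ?_⟩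
  · change T.d (G u + ((i : ℝ), (j : ℝ))) (G t + ((i : ℝ), (j : ℝ))) = |u - t|
    rw [T.per, h.1]
  · change G (t + T.l) + ((i : ℝ), (j : ℝ)) = G t + ((i : ℝ), (j : ℝ)) + (1, 0)
    rw [h.2]
    abel

theorem Cl.range_shift {G : ℝ → ℝ × ℝ} (s : ℝ) : range (fun t => G (t + s)) = range G := by
  ext z
  constructor
  · rintro ⟨t, rfl⟩
    exact ⟨t + s, rfl⟩
  · rintro ⟨t, rfl⟩
    exact ⟨t - s, by simp⟩

/-- integral translates of a closed line -/
theorem Cl.zper {G : ℝ → ℝ × ℝ} (h : T.Cl G) (n : ℤ) (t : ℝ) :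
    G (t + n * T.l) = G t + ((n : ℝ), 0) := by
  have hnat : ∀ (m : ℕ) (t : ℝ), G (t + m * T.l) = G t + ((m : ℝ), 0) := by
    intro m
    induction m with
    | zero =>
      intro t
      have e2 : (((0 : ℕ) : ℝ), (0 : ℝ)) = (0 : ℝ × ℝ) := by simp
      rw [e2, Nat.cast_zero, zero_mul, add_zero, add_zero]
    | succ m ih =>
      intro t
      have e2 : t + ((m + 1 : ℕ) : ℝ) * T.l = (t + m * T.l) + T.l := by push_cast; ring
      rw [e2, h.2, ih, add_assoc]
      congr 1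
      ext <;> simp
  obtain ⟨m, rfl | rfl⟩ := n.eq_nat_or_neg
  · simpa using hnat m t
  · have h1 := hnat m (t + ((-(m : ℤ) : ℤ) : ℝ) * T.l)
    have e2 : t + ((-(m : ℤ) : ℤ) : ℝ) * T.l + m * T.l = t := by push_cast; ring
    rw [e2] at h1
    rw [h1, add_assoc]
    have e3 : ((m : ℝ), (0 : ℝ)) + ((((-(m : ℤ) : ℤ) : ℝ)), (0 : ℝ)) = 0 := by
      ext <;> simp
    rw [e3, add_zero]

/-- a closed line is calibrated by every `B` with `Sub B` -/
theorem Cl.all {G : ℝ → ℝ × ℝ} (h : T.Cl G) : T.All G := by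
  intro B hB
  refine ⟨fun t _ u _ => (h.1 t u).le, ?_⟩
  have key : ∀ u t : ℝ, u ≤ t → B (G t) - B (G u) = t - u := by
    intro u t hut
    obtain ⟨m, hm⟩ := exists_nat_ge ((t - u) / T.l)
    have hm2 : t - u ≤ m * T.l := (div_le_iff₀ T.l_pos).1 hm
    have h1 : B (G (u + (m : ℤ) * T.l)) = B (G u) + (m : ℤ) * T.l := by
      rw [h.zper m u]
      exact Sub.int T hB m (G u)
    have h2 := hB.1 (G t) (G (u + (m : ℤ) * T.l))
    rw [h.1, abs_of_nonpos (by push_cast; linarith)] at h2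
    have h3 := hB.1 (G u) (G t)
    rw [h.1, abs_of_nonpos (by linarith)] at h3
    push_cast at h1 h2
    linarith
  intro t _ u _
  rcases le_total u t with h1 | h1
  · exact key u t h1
  · have := key t u h1
    linarith

/-- a closed line invariant by `b` is a line with slope `1 / l` -/
theorem Cl.ul {G : ℝ → ℝ × ℝ} (h : T.Cl G) : ∃ C, UL (1 / T.l) C G := by
  have hlp := T.l_pos
  have hmp := T.m_pos
  have hlip : ∀ s t, ‖G s - G t‖ ≤ T.m⁻¹ * |s - t| := fun s t => T.lip_of (h.1 s t).le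
  have hc : Continuous G := by
    have h1 : LipschitzWith (Real.toNNReal T.m⁻¹) G := by
      apply LipschitzWith.of_dist_le_mul
      intro s t
      rw [dist_eq_norm, Real.dist_eq, Real.coe_toNNReal _ (by positivity)]
      exact hlip s t
    exact h1.continuous
  refine ⟨‖G 0‖ + T.m⁻¹ * T.l + 1, hc, ?_⟩
  intro t
  -- reduction to `[0, l]`
  let n : ℤ := ⌊t / T.l⌋
  let r : ℝ := t - n * T.l
  have hr0 : 0 ≤ r := by
    have h1 : (n : ℝ) ≤ t / T.l := Int.floor_le _
    have h2 : (n : ℝ) * T.l ≤ t := (le_div_iff₀ hlp).1 h1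
    simpa [r] using h2
  have hr1 : r ≤ T.l := by
    have h1 : t / T.l < n + 1 := Int.lt_floor_add_one _
    have h2 : t < (n + 1) * T.l := (div_lt_iff₀ hlp).1 h1
    have h3 : t - n * T.l < T.l := by linarith
    exact h3.le
  have ht : t = r + n * T.l := by simp [r]
  have hG : G t = G r + ((n : ℝ), 0) := by
    conv_lhs => rw [ht]
    exact h.zper n r
  have hr2 : ‖G r - G 0‖ ≤ T.m⁻¹ * T.l := by
    refine (hlip r 0).trans ?_
    rw [sub_zero, abs_of_nonneg hr0]
    gcongr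
  have hr3 : ‖G r‖ ≤ ‖G 0‖ + T.m⁻¹ * T.l := by
    have := norm_le_norm_add_norm_sub' (G r) (G 0)
    linarith
  have h1 : |(G r).1| ≤ ‖G r‖ := norm_fst_le (G r)
  have h2 : |(G r).2| ≤ ‖G r‖ := norm_snd_le (G r)
  constructor
  · have e1 : (G t).1 - 1 / T.l * t = (G r).1 - r / T.l := by
      rw [hG, ht]
      simp only [Prod.fst_add]
      field_simp
      ring
    rw [e1]
    have h3 : |r / T.l| ≤ 1 := by
      rw [abs_of_nonneg (by positivity)]
      exact (div_le_one hlp).2 hr1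
    have h4 := abs_sub (G r).1 (r / T.l)
    linarith
  · rw [hG]
    simp only [Prod.snd_add, add_zero]
    linarith

theorem Cl.isLine {G : ℝ → ℝ × ℝ} (h : T.Cl G) : IsLine G := by
  obtain ⟨C, hC⟩ := h.ul
  exact ⟨1 / T.l, C, by have := T.l_pos; positivity, hC⟩

theorem CalOn.iso {B : ℝ × ℝ → ℝ} (hB : ∀ x y, B y - B x ≤ T.d x y) {P : ℝ → ℝ × ℝ} {s : Set ℝ}
    (h : T.CalOn B P s) : IsoOn T.d P s := by
  intro t ht u hu
  refine le_antisymm (h.1 t ht u hu) ?_
  rw [← h.2 t ht u hu, T.symm]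
  exact T.abs_sub_le hB (P u) (P t)

/-- non-branching forwards: `P` restricted to `[s - 1, s]` followed by `R` is calibrated by `B`, hence
isometric, and it coincides with `P` before `s` -/
theorem nb_fwd {B : ℝ × ℝ → ℝ} (hB : ∀ x y, B y - B x ≤ T.d x y) {P R : ℝ → ℝ × ℝ} {r s : ℝ}
    (hr : 0 ≤ r) (hP : T.CalOn B P univ) (hR : T.CalOn B R (Icc 0 r)) (h0 : R 0 = P s) :
    ∀ t ∈ Icc 0 r, R t = P (s + t) := by
  classical
  have h0m : (0 : ℝ) ∈ Icc 0 r := ⟨le_refl _, hr⟩
  have hga : T.CalOn B (fun t => P (s + t)) (Icc (-1) r) := by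
    refine ⟨fun t _ u _ => ?_, fun t _ u _ => ?_⟩
    · have := hP.1 (s + t) (mem_univ _) (s + u) (mem_univ _)
      rwa [add_sub_add_left_eq_sub] at this
    · have := hP.2 (s + t) (mem_univ _) (s + u) (mem_univ _)
      rwa [add_sub_add_left_eq_sub] at this
  let γ' : ℝ → ℝ × ℝ := fun t => if t ≤ 0 then P (s + t) else R t
  have hB' : ∀ t ∈ Icc (-1) r, B (γ' t) = B (P s) + t := by
    intro t ht
    by_cases h : t ≤ 0
    · have e : γ' t = P (s + t) := if_pos h
      have h2 := hP.2 (s + t) (mem_univ _) s (mem_univ _)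
      rw [e]
      linarith
    · have e : γ' t = R t := if_neg h
      have h2 := hR.2 t ⟨(not_le.1 h).le, ht.2⟩ 0 h0m
      rw [e]
      rw [h0] at h2
      linarith
  have hle : ∀ t ∈ Icc (-1) r, ∀ u ∈ Icc (-1) r, t ≤ u → T.d (γ' t) (γ' u) ≤ u - t := by
    intro t ht u hu htu
    by_cases h : t ≤ 0
    · have e : γ' t = P (s + t) := if_pos h
      by_cases h' : u ≤ 0
      · have e' : γ' u = P (s + u) := if_pos h'
        rw [e, e']
        have h2 := hP.1 (s + t) (mem_univ _) (s + u) (mem_univ _)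
        rw [add_sub_add_left_eq_sub, abs_of_nonpos (by linarith)] at h2
        linarith
      · have e' : γ' u = R u := if_neg h'
        rw [e, e']
        have h2 := hP.1 (s + t) (mem_univ _) s (mem_univ _)
        have h3 := hR.1 0 h0m u ⟨(not_le.1 h').le, hu.2⟩
        rw [abs_of_nonpos (by linarith)] at h2
        rw [abs_of_nonpos (by linarith [not_le.1 h']), h0] at h3
        have h4 := T.tri (P (s + t)) (P s) (R u)
        linarith
    · have h' : ¬ u ≤ 0 := fun h2 => h (htu.trans h2)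
      have e : γ' t = R t := if_neg h
      have e' : γ' u = R u := if_neg h'
      rw [e, e']
      have h2 := hR.1 t ⟨(not_le.1 h).le, ht.2⟩ u ⟨(not_le.1 h').le, hu.2⟩
      rw [abs_of_nonpos (by linarith)] at h2
      linarith
  have hga' : T.CalOn B γ' (Icc (-1) r) := by
    refine ⟨fun t ht u hu => ?_, fun t ht u hu => ?_⟩
    · rcases le_total t u with h | h
      · rw [abs_of_nonpos (by linarith)]
        linarith [hle t ht u hu h]
      · rw [abs_of_nonneg (by linarith), T.symm]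
        exact hle u hu t ht h
    · rw [hB' t ht, hB' u hu]
      ring
  have h1 := T.nb (fun t => P (s + t)) γ' (-1) 0 r (by norm_num) hr (hga.iso hB) (hga'.iso hB)
    (fun t ht => (if_pos ht.2 : γ' t = P (s + t)).symm)
  intro t ht
  have h2 := h1 t ⟨by linarith [ht.1], ht.2⟩
  by_cases h : t ≤ 0
  · have h3 : t = 0 := le_antisymm h ht.1
    rw [h3, h0, add_zero]
  · have e : γ' t = R t := if_neg h
    rw [← e]
    exact h2.symm

/-- reversal of time -/
theorem CalOn.rev {B : ℝ × ℝ → ℝ} {P : ℝ → ℝ × ℝ} {s : Set ℝ} (h : T.CalOn B P s) {s' : Set ℝ}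
    (hs : ∀ t ∈ s', -t ∈ s) : T.CalOn (fun x => - B x) (fun t => P (-t)) s' := by
  refine ⟨fun t ht u hu => ?_, fun t ht u hu => ?_⟩
  · have h1 := h.1 (-t) (hs t ht) (-u) (hs u hu)
    have e : |(-t) - (-u)| = |t - u| := by
      rw [← abs_neg (t - u)]
      congr 1
      ring
    rwa [e] at h1
  · have h1 := h.2 (-t) (hs t ht) (-u) (hs u hu)
    change - B (P (-t)) - - B (P (-u)) = t - u
    linarith

/-- non-branching backwards (reverse the time of both curves) -/
theorem nb_bwd {B : ℝ × ℝ → ℝ} (hB : ∀ x y, B y - B x ≤ T.d x y) {P R : ℝ → ℝ × ℝ} {r s : ℝ}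
    (hr : 0 ≤ r) (hP : T.CalOn B P univ) (hR : T.CalOn B R (Icc (-r) 0)) (h0 : R 0 = P s) :
    ∀ t ∈ Icc (-r) 0, R t = P (s + t) := by
  have hB' : ∀ x y, (fun x => - B x) y - (fun x => - B x) x ≤ T.d x y := by
    intro x y
    have h1 := hB y x
    rw [T.symm y x] at h1
    change - B y - - B x ≤ T.d x y
    linarith
  have hP' := hP.rev (s' := univ) (fun t _ => mem_univ _)
  have hR' := hR.rev (s' := Icc 0 r) (fun t ht => ⟨by linarith [ht.2], by linarith [ht.1]⟩)
  have h1 := nb_fwd hB' (s := -s) hr hP' hR' (by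
    change R (-0) = P (- -s)
    rw [neg_zero, neg_neg, h0])
  intro t ht
  have h2 := h1 (-t) ⟨by linarith [ht.2], by linarith [ht.1]⟩
  change R (- -t) = P (-(-s + -t)) at h2
  rw [neg_neg] at h2
  rw [h2]
  congr 1
  ring

/-- shift of time -/
theorem CalOn.sh {B : ℝ × ℝ → ℝ} {P : ℝ → ℝ × ℝ} {s : Set ℝ} (h : T.CalOn B P s) (c : ℝ)
    {s' : Set ℝ} (hs : ∀ t ∈ s', c + t ∈ s) : T.CalOn B (fun t => P (c + t)) s' := by
  refine ⟨fun t ht u hu => ?_, fun t ht u hu => ?_⟩
  · have h1 := h.1 (c + t) (hs t ht) (c + u) (hs u hu)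
    rwa [add_sub_add_left_eq_sub] at h1
  · have h1 := h.2 (c + t) (hs t ht) (c + u) (hs u hu)
    rwa [add_sub_add_left_eq_sub] at h1

/-- two lines calibrated by the same `B` that meet coincide -/
theorem cal_meet {B : ℝ × ℝ → ℝ} (hB : ∀ x y, B y - B x ≤ T.d x y) {P Q : ℝ → ℝ × ℝ} {s s' : ℝ}
    (hP : T.CalOn B P univ) (hQ : T.CalOn B Q univ) (h0 : Q s' = P s) :
    ∀ t, Q (s' + t) = P (s + t) := by
  intro t
  rcases le_total 0 t with ht | ht
  · exact nb_fwd hB (R := fun t => Q (s' + t)) ht hP (hQ.sh s' (fun _ _ => mem_univ _))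
      (by simpa using h0) t ⟨ht, le_refl _⟩
  · exact nb_bwd hB (R := fun t => Q (s' + t)) (r := -t) (by linarith) hP
      (hQ.sh s' (fun _ _ => mem_univ _)) (by simpa using h0) t ⟨by linarith, ht⟩

theorem cal_meet_range {B : ℝ × ℝ → ℝ} (hB : ∀ x y, B y - B x ≤ T.d x y) {P Q : ℝ → ℝ × ℝ}
    (hP : T.CalOn B P univ) (hQ : T.CalOn B Q univ) (h0 : ¬ Disjoint (range P) (range Q)) :
    range P = range Q := by
  rw [Set.not_disjoint_iff] at h0
  obtain ⟨z, ⟨s, hs⟩, ⟨s', hs'⟩⟩ := h0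
  have h1 := cal_meet hB (s := s) (s' := s') hP hQ (hs'.trans hs.symm)
  ext w
  constructor
  · rintro ⟨u, rfl⟩
    refine ⟨s' + (u - s), ?_⟩
    rw [h1]
    congr 1
    ring
  · rintro ⟨u, rfl⟩
    refine ⟨s + (u - s'), ?_⟩
    rw [← h1]
    congr 1
    ring

/-- a backward ray calibrated by `B` which meets a calibrated line starts on this line -/
theorem ray_avoid {B : ℝ × ℝ → ℝ} (hB : ∀ x y, B y - B x ≤ T.d x y) {P R : ℝ → ℝ × ℝ} {t : ℝ}
    (ht : t ≤ 0) (hP : T.CalOn B P univ) (hR : T.CalOn B R (Iic 0)) (h : R t ∈ range P) :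
    R 0 ∈ range P := by
  obtain ⟨s, hs⟩ := h
  have h1 := nb_fwd hB (R := fun u => R (t + u)) (r := -t) (s := s) (by linarith) hP
    (hR.sh t (fun u hu => by
      change t + u ≤ 0
      linarith [hu.2])) (by
      change R (t + 0) = P s
      rw [add_zero, hs]) (-t) ⟨by linarith, le_refl _⟩
  change R (t + -t) = P (s + -t) at h1
  rw [add_neg_cancel] at h1
  exact ⟨_, h1.symm⟩

theorem ray_avoid' {B : ℝ × ℝ → ℝ} (hB : ∀ x y, B y - B x ≤ T.d x y) {P R : ℝ → ℝ × ℝ} {t : ℝ}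
    (ht : 0 ≤ t) (hP : T.CalOn B P univ) (hR : T.CalOn B R (Ici 0)) (h : R t ∈ range P) :
    R 0 ∈ range P := by
  obtain ⟨s, hs⟩ := h
  have h1 := nb_bwd hB (R := fun u => R (t + u)) (r := t) (s := s) ht hP
    (hR.sh t (fun u hu => by
      change 0 ≤ t + u
      linarith [hu.1])) (by
      change R (t + 0) = P s
      rw [add_zero, hs]) (-t) ⟨le_refl _, by linarith⟩
  change R (t + -t) = P (s + -t) at h1
  rw [add_neg_cancel] at h1
  exact ⟨_, h1.symm⟩

end Pl

end Pool.Agent.EscG
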