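import Mathlib
import Pool.Agent.helper66.Brouwer

set_option autoImplicit false

/-!
# The planar crossing lemma (Poincare-Miranda in dimension two)
-/

open Set

namespace Pool.Agent.EscG

/-- Poincare-Miranda in dimension two on the unit square. -/
theorem poincare_miranda_two (F G : ℝ × ℝ → ℝ)
    (hF : ContinuousOn F (Icc 0 1 ×ˢ Icc 0 1)) (hG : ContinuousOn G (Icc 0 1 ×ˢ Icc 0 1))
    (hF0 : ∀ t ∈ Icc (0 : ℝ) 1, F (0, t) ≤ 0) (hF1 : ∀ t ∈ Icc (0 : ℝ) 1, 0 ≤ F (1, t))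
    (hG0 : ∀ s ∈ Icc (0 : ℝ) 1, G (s, 0) ≤ 0) (hG1 : ∀ s ∈ Icc (0 : ℝ) 1, 0 ≤ G (s, 1)) :
    ∃ s ∈ Icc (0 : ℝ) 1, ∃ t ∈ Icc (0 : ℝ) 1, F (s, t) = 0 ∧ G (s, t) = 0 := by
  -- the clipped map on the box
  let cl : ℝ → ℝ := fun x => max 0 (min 1 x)
  have hcl : Continuous cl := by fun_prop
  have hcl01 : ∀ x, cl x ∈ Icc (0 : ℝ) 1 := fun x =>
    ⟨le_max_left _ _, max_le zero_le_one (min_le_left _ _)⟩
  let H : Fin 2 → (Fin 2 → ℝ) → ℝ := fun i x =>
    if i = 0 then F (x 0, x 1) else G (x 0, x 1)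
  let f : (Fin 2 → ℝ) → (Fin 2 → ℝ) := fun x i => cl (x i - H i x)
  have hmem : ∀ x ∈ Icc (0 : Fin 2 → ℝ) 1, (x 0, x 1) ∈ Icc (0 : ℝ) 1 ×ˢ Icc (0 : ℝ) 1 := by
    intro x hx
    exact ⟨⟨hx.1 0, hx.2 0⟩, ⟨hx.1 1, hx.2 1⟩⟩
  have hpair : Continuous fun x : Fin 2 → ℝ => (x 0, x 1) := by fun_prop
  have hH : ∀ i, ContinuousOn (H i) (Icc (0 : Fin 2 → ℝ) 1) := by
    intro i
    fin_cases i
    · exact hF.comp hpair.continuousOn hmem
    · exact hG.comp hpair.continuousOn hmem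
  have hf : ContinuousOn f (Icc (0 : Fin 2 → ℝ) 1) := by
    refine continuousOn_pi.2 fun i => ?_
    exact hcl.comp_continuousOn ((continuous_apply i).continuousOn.sub (hH i))
  obtain ⟨x, hx, hfx⟩ := helper66.Brouwer.exists_fixed_box (0 : Fin 2 → ℝ) 1
    (fun i => zero_le_one) f hf (fun x _ => ⟨fun i => (hcl01 _).1, fun i => (hcl01 _).2⟩)
  have key : ∀ u h : ℝ, u ∈ Icc (0 : ℝ) 1 → cl (u - h) = u → (u = 0 → h ≤ 0) →
      (u = 1 → 0 ≤ h) → h = 0 := by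
    intro u h hu hc h0 h1
    rcases lt_trichotomy h 0 with hh | hh | hh
    · by_cases hu1 : u = 1
      · exact absurd (h1 hu1) (not_le.2 hh)
      · have hlt : u < 1 := lt_of_le_of_ne hu.2 hu1
        have : u < cl (u - h) := by
          refine lt_of_lt_of_le ?_ (le_max_right _ _)
          exact lt_min hlt (by linarith)
        rw [hc] at this
        exact absurd this (lt_irrefl _)
    · exact hh
    · by_cases hu0 : u = 0
      · exact absurd (h0 hu0) (not_le.2 hh)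
      · have hlt : 0 < u := lt_of_le_of_ne hu.1 (Ne.symm hu0)
        have : cl (u - h) < u := by
          refine max_lt hlt ?_
          exact lt_of_le_of_lt (min_le_right _ _) (by linarith)
        rw [hc] at this
        exact absurd this (lt_irrefl _)
  have hx0 : x 0 ∈ Icc (0 : ℝ) 1 := ⟨hx.1 0, hx.2 0⟩
  have hx1 : x 1 ∈ Icc (0 : ℝ) 1 := ⟨hx.1 1, hx.2 1⟩
  refine ⟨x 0, hx0, x 1, hx1, ?_, ?_⟩
  · refine key (x 0) _ hx0 (congrFun hfx 0) ?_ ?_
    · intro h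
      show F (x 0, x 1) ≤ 0
      rw [h]
      exact hF0 _ hx1
    · intro h
      show 0 ≤ F (x 0, x 1)
      rw [h]
      exact hF1 _ hx1
  · refine key (x 1) _ hx1 (congrFun hfx 1) ?_ ?_
    · intro h
      show G (x 0, x 1) ≤ 0
      rw [h]
      exact hG0 _ hx0
    · intro h
      show 0 ≤ G (x 0, x 1)
      rw [h]
      exact hG1 _ hx0

/-- **Planar crossing lemma**: a path from the left side to the right side and a path from
the bottom side to the top side meet. -/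
theorem crossing (al be : ℝ → ℝ × ℝ) (a b c d : ℝ)
    (hal : ContinuousOn al (Icc 0 1)) (hbe : ContinuousOn be (Icc 0 1))
    (ha0 : (al 0).1 ≤ a) (ha1 : b ≤ (al 1).1)
    (hbx : ∀ t ∈ Icc (0 : ℝ) 1, a ≤ (be t).1 ∧ (be t).1 ≤ b)
    (hb0 : (be 0).2 ≤ c) (hb1 : d ≤ (be 1).2)
    (hay : ∀ s ∈ Icc (0 : ℝ) 1, c ≤ (al s).2 ∧ (al s).2 ≤ d) :
    ∃ s ∈ Icc (0 : ℝ) 1, ∃ t ∈ Icc (0 : ℝ) 1, al s = be t := by
  have h1 : ContinuousOn (fun p : ℝ × ℝ => al p.1) (Icc (0 : ℝ) 1 ×ˢ Icc (0 : ℝ) 1) :=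
    hal.comp continuousOn_fst fun p hp => hp.1
  have h2 : ContinuousOn (fun p : ℝ × ℝ => be p.2) (Icc (0 : ℝ) 1 ×ˢ Icc (0 : ℝ) 1) :=
    hbe.comp continuousOn_snd fun p hp => hp.2
  obtain ⟨s, hs, t, ht, e1, e2⟩ := poincare_miranda_two
    (fun p => (al p.1).1 - (be p.2).1) (fun p => (be p.2).2 - (al p.1).2)
    (h1.fst.sub h2.fst) (h2.snd.sub h1.snd)
    (fun t ht => by
      have := (hbx t ht).1
      show (al 0).1 - (be t).1 ≤ 0
      linarith)
    (fun t ht => by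
      have := (hbx t ht).2
      show 0 ≤ (al 1).1 - (be t).1
      linarith)
    (fun s hs => by
      have := (hay s hs).1
      show (be 0).2 - (al s).2 ≤ 0
      linarith)
    (fun s hs => by
      have := (hay s hs).2
      show 0 ≤ (be 1).2 - (al s).2
      linarith)
  refine ⟨s, hs, t, ht, Prod.ext ?_ ?_⟩
  · simp only at e1
    linarith
  · simp only at e2
    linarith

end Pool.Agent.EscG
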