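import Mathlib
import Pool.Agent.EscG.PM2

set_option autoImplicit false

/-!
# Project EscG, geometry of the plane with a `Z^2`-invariant distance: definitions

`b = (1, 0)`, `g = (0, 1)`. Everything is purely metric.
-/

noncomputable section

open Set Filter Topology

namespace Pool.Agent.EscG

/-! ### Topology: below and above -/

/-- `x` can be joined in the complement of `S` to a point far below `S` -/
def Lo (S : Set (ℝ × ℝ)) (x : ℝ × ℝ) : Prop :=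
  ∃ u : ℝ × ℝ, (∀ z ∈ S, u.2 < z.2) ∧ JoinedIn Sᶜ x u

/-- `x` can be joined in the complement of `S` to a point far above `S` -/
def Up (S : Set (ℝ × ℝ)) (x : ℝ × ℝ) : Prop :=
  ∃ u : ℝ × ℝ, (∀ z ∈ S, z.2 < u.2) ∧ JoinedIn Sᶜ x u

/-- a continuous curve at bounded distance of the horizontal motion of speed `a` -/
def UL (a C : ℝ) (P : ℝ → ℝ × ℝ) : Prop :=
  Continuous P ∧ ∀ t, |(P t).1 - a * t| ≤ C ∧ |(P t).2| ≤ C

/-- horizontal line (topological) -/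
def IsLine (P : ℝ → ℝ × ℝ) : Prop := ∃ a C : ℝ, 0 < a ∧ UL a C P

/-- `P` is strictly below `P'` -/
def Lt (P P' : ℝ → ℝ × ℝ) : Prop :=
  (∀ t, Up (range P) (P' t)) ∧ ∀ t, Lo (range P') (P t)

/-! ### Distances -/

/-- `γ` is isometric on `s` -/
def IsoOn (d : ℝ × ℝ → ℝ × ℝ → ℝ) (γ : ℝ → ℝ × ℝ) (s : Set ℝ) : Prop :=
  ∀ t ∈ s, ∀ u ∈ s, d (γ t) (γ u) = |t - u|

/-- a `Z^2`-invariant geodesic non-branching distance on the plane -/
structure Pl where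
  d : ℝ × ℝ → ℝ × ℝ → ℝ
  m : ℝ
  M : ℝ
  m_pos : 0 < m
  symm : ∀ x y, d x y = d y x
  tri : ∀ x y z, d x z ≤ d x y + d y z
  low : ∀ x y, m * ‖x - y‖ ≤ d x y
  upp : ∀ x y, d x y ≤ M * ‖x - y‖
  per : ∀ (i j : ℤ) (x y : ℝ × ℝ), d (x + ((i : ℝ), (j : ℝ))) (y + ((i : ℝ), (j : ℝ))) = d x y
  geo : ∀ x y, ∃ γ : ℝ → ℝ × ℝ, γ 0 = x ∧ γ (d x y) = y ∧ IsoOn d γ (Icc 0 (d x y))
  nb : ∀ (γ γ' : ℝ → ℝ × ℝ) (a m c : ℝ), a < m → m ≤ c → IsoOn d γ (Icc a c) →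
    IsoOn d γ' (Icc a c) → (∀ t ∈ Icc a m, γ t = γ' t) → ∀ t ∈ Icc a c, γ t = γ' t

namespace Pl

variable (T : Pl)

/-- minimal length in the class `b` -/
def l : ℝ := ⨅ x : ℝ × ℝ, T.d x (x + (1, 0))

/-- `1`-Lipschitz functions with `B (x + b) = B x + l` -/
def Sub (B : ℝ × ℝ → ℝ) : Prop :=
  (∀ x y, B y - B x ≤ T.d x y) ∧ ∀ x, B (x + (1, 0)) = B x + T.l

/-- closed minimal lines of class `b` -/
def Cl (G : ℝ → ℝ × ℝ) : Prop :=
  (∀ s t, T.d (G s) (G t) = |s - t|) ∧ ∀ t, G (t + T.l) = G t + (1, 0)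

/-- `P` is `1`-Lipschitz and calibrated by `B` on `s` -/
def CalOn (B : ℝ × ℝ → ℝ) (P : ℝ → ℝ × ℝ) (s : Set ℝ) : Prop :=
  (∀ t ∈ s, ∀ u ∈ s, T.d (P t) (P u) ≤ |t - u|) ∧ ∀ t ∈ s, ∀ u ∈ s, B (P t) - B (P u) = t - u

/-- lines calibrated by all functions `B` with `Sub B` -/
def All (P : ℝ → ℝ × ℝ) : Prop := ∀ B, T.Sub B → T.CalOn B P univ

/-- Busemann function of the closed line `G` from the left -/
def bus (G : ℝ → ℝ × ℝ) (x : ℝ × ℝ) : ℝ := ⨅ s : ℝ, (s + T.d (G s) x)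

/-- Busemann function of the closed line `G` to the right -/
def fus (G : ℝ → ℝ × ℝ) (x : ℝ × ℝ) : ℝ := ⨆ s : ℝ, (s - T.d x (G s))

/-- relative cost from `G` to `H` -/
def En (G H : ℝ → ℝ × ℝ) : ℝ := ⨅ p : ℝ × ℝ, (T.d (G p.1) (H p.2) - (p.2 - p.1))

/-- points on closed minimal lines -/
def D : Set (ℝ × ℝ) := {x | T.d x (x + (1, 0)) = T.l}

end Pl

/-- vertical reflection of points -/
def rf (x : ℝ × ℝ) : ℝ × ℝ := (x.1, -x.2)

end Pool.Agent.EscG
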