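import Pool.Agent.EscG.GDefs

set_option autoImplicit false

/-!
# EscG geometry: topology of horizontal lines in the plane (only the crossing lemma PM2 is used)
-/

noncomputable section

open Set Filter Topology

namespace Pool.Agent.EscG

theorem Lo.notMem {S : Set (ℝ × ℝ)} {x : ℝ × ℝ} (h : Lo S x) : x ∉ S := by
  obtain ⟨u, -, hu⟩ := h
  exact hu.source_mem

theorem Up.notMem {S : Set (ℝ × ℝ)} {x : ℝ × ℝ} (h : Up S x) : x ∉ S := by
  obtain ⟨u, -, hu⟩ := h
  exact hu.source_mem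

theorem Lo.of_joinedIn {S : Set (ℝ × ℝ)} {x y : ℝ × ℝ} (h : JoinedIn Sᶜ x y) (hy : Lo S y) : Lo S x := by
  obtain ⟨u, h1, h2⟩ := hy
  exact ⟨u, h1, h.trans h2⟩

theorem Up.of_joinedIn {S : Set (ℝ × ℝ)} {x y : ℝ × ℝ} (h : JoinedIn Sᶜ x y) (hy : Up S y) : Up S x := by
  obtain ⟨u, h1, h2⟩ := hy
  exact ⟨u, h1, h.trans h2⟩

theorem lo_far {S : Set (ℝ × ℝ)} {x : ℝ × ℝ} (h : ∀ z ∈ S, x.2 < z.2) : Lo S x :=
  ⟨x, h, JoinedIn.refl fun hx => lt_irrefl _ (h x hx)⟩

theorem up_far {S : Set (ℝ × ℝ)} {x : ℝ × ℝ} (h : ∀ z ∈ S, z.2 < x.2) : Up S x :=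
  ⟨x, h, JoinedIn.refl fun hx => lt_irrefl _ (h x hx)⟩

/-- a curve with values in `F` joins its end points -/
theorem GTopo_joinedIn {F : Set (ℝ × ℝ)} {η : ℝ → ℝ × ℝ} {a b : ℝ} (hab : a ≤ b)
    (hη : ContinuousOn η (Icc a b)) (h : ∀ t ∈ Icc a b, η t ∈ F) : JoinedIn F (η a) (η b) := by
  have hmem : ∀ s ∈ (unitInterval : Set ℝ), a + s * (b - a) ∈ Icc a b := by
    intro s hs
    have h0 : 0 ≤ b - a := sub_nonneg.2 hab
    constructor
    · have := mul_nonneg hs.1 h0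
      linarith
    · have := mul_le_mul_of_nonneg_right hs.2 h0
      linarith
  refine JoinedIn.ofLine (f := fun s => η (a + s * (b - a))) ?_ ?_ ?_ ?_
  · exact hη.comp (by fun_prop) hmem
  · simp
  · simp
  · rintro _ ⟨s, hs, rfl⟩
    exact h _ (hmem s hs)

/-- a curve avoiding `S` joins its end points -/
theorem joinedIn_of_curve {S : Set (ℝ × ℝ)} {η : ℝ → ℝ × ℝ} {a b : ℝ} (hab : a ≤ b)
    (hη : ContinuousOn η (Icc a b)) (h : ∀ t ∈ Icc a b, η t ∉ S) : JoinedIn Sᶜ (η a) (η b) :=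
  GTopo_joinedIn hab hη h

/-- vertical segments -/
theorem GTopo_vert {F : Set (ℝ × ℝ)} {x a b : ℝ} (h : ∀ y, (a ≤ y ∧ y ≤ b) ∨ (b ≤ y ∧ y ≤ a) →
    (x, y) ∈ F) : JoinedIn F (x, a) (x, b) := by
  rcases le_total a b with hab | hab
  · exact GTopo_joinedIn (η := fun y => (x, y)) hab (by fun_prop) fun t ht => h t (Or.inl ht)
  · exact (GTopo_joinedIn (η := fun y => (x, y)) hab (by fun_prop)
      fun t ht => h t (Or.inr ht)).symm

/-- the main topological fact, from `crossing` in a large rectangle: a path from far below to far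
above meets a line -/
theorem IsLine.not_lo_up {P : ℝ → ℝ × ℝ} (hP : IsLine P) {x : ℝ × ℝ} (h : Lo (range P) x)
    (h' : Up (range P) x) : False := by
  obtain ⟨a, C, ha, hPc, hPb⟩ := hP
  obtain ⟨u, hu, ju⟩ := h
  obtain ⟨w, hw, jw⟩ := h'
  obtain ⟨γ, hγ⟩ := ju.symm.trans jw
  -- bound for the path
  obtain ⟨R, hR⟩ : ∃ R : ℝ, ∀ t : unitInterval, |(γ t).1| ≤ R := by
    have hc : Continuous fun t : unitInterval => |(γ t).1| :=
      (continuous_fst.comp γ.continuous).abs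
    obtain ⟨R, hR⟩ := (isCompact_univ (X := unitInterval)).bddAbove_image hc.continuousOn
    exact ⟨R, fun t => hR ⟨t, mem_univ _, rfl⟩⟩
  set T : ℝ := (C + |R|) / a with hT
  have hC : 0 ≤ C := (abs_nonneg _).trans (hPb 0).2
  have hT0 : 0 ≤ T := by positivity
  have haT : a * T = C + |R| := by rw [hT]; field_simp
  have hRR := le_abs_self R
  obtain ⟨s, hs, t, ht, e⟩ := crossing (fun s => P (-T + s * (2 * T))) (fun t => γ.extend t)
    (-|R|) |R| u.2 w.2 (by fun_prop) (γ.continuous_extend.continuousOn)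
    (by
      have := abs_le.1 (hPb (-T + 0 * (2 * T))).1
      have h2 : a * (-T + 0 * (2 * T)) = -(C + |R|) := by rw [← haT]; ring
      rw [h2] at this
      show (P (-T + 0 * (2 * T))).1 ≤ -|R|
      linarith [this.2])
    (by
      have := abs_le.1 (hPb (-T + 1 * (2 * T))).1
      have h2 : a * (-T + 1 * (2 * T)) = (C + |R|) := by rw [← haT]; ring
      rw [h2] at this
      show |R| ≤ (P (-T + 1 * (2 * T))).1
      linarith [this.1])
    (by
      intro t ht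
      have h1 := abs_le.1 (hR ⟨t, ht⟩)
      have h2 : γ.extend t = γ ⟨t, ht⟩ := by rw [Path.extend_apply γ ht]
      rw [h2]
      constructor <;> linarith [h1.1, h1.2])
    (by show (γ.extend 0).2 ≤ u.2; rw [Path.extend_zero])
    (by show w.2 ≤ (γ.extend 1).2; rw [Path.extend_one])
    (by
      intro s hs
      exact ⟨(hu _ (mem_range_self _)).le, (hw _ (mem_range_self _)).le⟩)
  have h3 : γ.extend t = γ ⟨t, ht⟩ := by rw [Path.extend_apply γ ht]
  exact hγ ⟨t, ht⟩ ⟨_, e.trans h3⟩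

theorem GTopo_tendsto {P : ℝ → ℝ × ℝ} (hP : IsLine P) :
    Tendsto P (cocompact ℝ) (cocompact (ℝ × ℝ)) := by
  obtain ⟨a, C, ha, hPc, hPb⟩ := hP
  rw [← Metric.cobounded_eq_cocompact (α := ℝ × ℝ), ← tendsto_norm_atTop_iff_cobounded]
  have h1 : Tendsto (fun t : ℝ => a * ‖t‖ - C) (cocompact ℝ) atTop :=
    tendsto_atTop_add_const_right _ _ ((tendsto_norm_cocompact_atTop (E := ℝ)).const_mul_atTop ha)
  refine tendsto_atTop_mono (fun t => ?_) h1
  have h2 := (hPb t).1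
  have h3 : |a * t| ≤ |(P t).1| + C := by
    have : a * t = (P t).1 - ((P t).1 - a * t) := by ring
    calc |a * t| = |(P t).1 - ((P t).1 - a * t)| := by rw [← this]
      _ ≤ |(P t).1| + |(P t).1 - a * t| := abs_sub _ _
      _ ≤ _ := by linarith
  have h4 : |(P t).1| ≤ ‖P t‖ := by
    have := norm_fst_le (P t)
    rwa [Real.norm_eq_abs] at this
  rw [abs_mul, abs_of_pos ha] at h3
  rw [Real.norm_eq_abs]
  linarith

theorem isClosed_range {P : ℝ → ℝ × ℝ} (hP : IsLine P) : IsClosed (range P) := by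
  have h1 : Continuous P := by
    obtain ⟨a, C, ha, hPc, hPb⟩ := hP
    exact hPc
  have h2 : IsProperMap P := isProperMap_iff_tendsto_cocompact.2 ⟨h1, GTopo_tendsto hP⟩
  exact h2.isClosedMap.isClosed_range

theorem isOpen_lo {S : Set (ℝ × ℝ)} (hS : IsClosed S) : IsOpen {x | Lo S x} := by
  rw [Metric.isOpen_iff]
  intro x hx
  obtain ⟨ε, hε, hb⟩ := Metric.isOpen_iff.1 hS.isOpen_compl x (Lo.notMem hx)
  refine ⟨ε, hε, fun y hy => ?_⟩
  have h1 : JoinedIn (Metric.ball x ε) y x :=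
    ((convex_ball x ε).isPathConnected ⟨x, Metric.mem_ball_self hε⟩).joinedIn y hy x
      (Metric.mem_ball_self hε)
  exact Lo.of_joinedIn (h1.mono hb) hx

theorem isOpen_up {S : Set (ℝ × ℝ)} (hS : IsClosed S) : IsOpen {x | Up S x} := by
  rw [Metric.isOpen_iff]
  intro x hx
  obtain ⟨ε, hε, hb⟩ := Metric.isOpen_iff.1 hS.isOpen_compl x (Up.notMem hx)
  refine ⟨ε, hε, fun y hy => ?_⟩
  have h1 : JoinedIn (Metric.ball x ε) y x :=
    ((convex_ball x ε).isPathConnected ⟨x, Metric.mem_ball_self hε⟩).joinedIn y hy x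
      (Metric.mem_ball_self hε)
  exact Up.of_joinedIn (h1.mono hb) hx

/-- two points of a line are joined inside any set containing the line -/
theorem GTopo_line_joined {P : ℝ → ℝ × ℝ} (hP : IsLine P) {F : Set (ℝ × ℝ)} (h : ∀ t, P t ∈ F)
    (s t : ℝ) : JoinedIn F (P s) (P t) := by
  have h1 : Continuous P := by
    obtain ⟨a, C, ha, hPc, hPb⟩ := hP
    exact hPc
  rcases le_total s t with hst | hst
  · exact GTopo_joinedIn hst h1.continuousOn fun t _ => h t
  · exact (GTopo_joinedIn hst h1.continuousOn fun t _ => h t).symm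

/-- heights of the crossings with the vertical axis: closed, nonempty, bounded -/
theorem GTopo_axis {P : ℝ → ℝ × ℝ} (hP : IsLine P) :
    ({y : ℝ | ((0 : ℝ), y) ∈ range P}).Nonempty ∧ IsCompact {y : ℝ | ((0 : ℝ), y) ∈ range P} := by
  have hcl := isClosed_range hP
  obtain ⟨a, C, ha, hPc, hPb⟩ := hP
  have hC : 0 ≤ C := (abs_nonneg _).trans (hPb 0).2
  constructor
  · have h1 : (P (-(C / a))).1 ≤ 0 := by
      have := abs_le.1 (hPb (-(C / a))).1
      have h2 : a * (-(C / a)) = -C := by field_simp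
      rw [h2] at this
      linarith [this.2]
    have h1' : 0 ≤ (P (C / a)).1 := by
      have := abs_le.1 (hPb (C / a)).1
      have h2 : a * (C / a) = C := by field_simp
      rw [h2] at this
      linarith [this.1]
    have hle : -(C / a) ≤ C / a := by
      have : 0 ≤ C / a := by positivity
      linarith
    have h3 := intermediate_value_Icc hle (hPc.fst.continuousOn (s := Icc (-(C / a)) (C / a)))
    obtain ⟨t, -, ht⟩ := h3 ⟨h1, h1'⟩
    exact ⟨(P t).2, t, Prod.ext ht rfl⟩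
  · refine Metric.isCompact_of_isClosed_isBounded ?_ ?_
    · exact hcl.preimage (by fun_prop : Continuous fun y : ℝ => ((0 : ℝ), y))
    · refine (Metric.isBounded_Icc (-C) C).subset ?_
      rintro y ⟨t, ht⟩
      have := (hPb t).2
      rw [ht] at this
      exact abs_le.1 this

/-- one inequality between the highest crossings orders the lines -/
theorem GTopo_lt {P P' : ℝ → ℝ × ℝ} (hP : IsLine P) (hP' : IsLine P')
    (hd : Disjoint (range P) (range P')) {h h' : ℝ}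
    (hh : IsGreatest {y : ℝ | ((0 : ℝ), y) ∈ range P} h)
    (hh' : IsGreatest {y : ℝ | ((0 : ℝ), y) ∈ range P'} h') (hlt : h < h') : Lt P P' := by
  obtain ⟨⟨s0, hs0⟩, hub⟩ := hh
  obtain ⟨⟨s0', hs0'⟩, hub'⟩ := hh'
  have hPb : ∃ C : ℝ, ∀ z ∈ range P, |z.2| ≤ C := by
    obtain ⟨a, C, ha, hPc, hPb⟩ := hP
    exact ⟨C, by rintro _ ⟨t, rfl⟩; exact (hPb t).2⟩
  have hPb' : ∃ C : ℝ, ∀ z ∈ range P', |z.2| ≤ C := by
    obtain ⟨a, C, ha, hPc, hPb⟩ := hP'
    exact ⟨C, by rintro _ ⟨t, rfl⟩; exact (hPb t).2⟩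
  obtain ⟨C, hC⟩ := hPb
  obtain ⟨C', hC'⟩ := hPb'
  have hnot : ∀ t, P' t ∈ (range P)ᶜ := fun t ht =>
    (disjoint_left.1 hd ht) (mem_range_self t)
  have hnot' : ∀ t, P t ∈ (range P')ᶜ := fun t ht =>
    (disjoint_left.1 hd (mem_range_self t)) ht
  -- step 1
  have up0 : Up (range P) (P' s0') := by
    rw [hs0']
    refine ⟨(0, max h' (C + 1)), ?_, ?_⟩
    · intro z hz
      have h1 := (abs_le.1 (hC z hz)).2
      have h2 : C + 1 ≤ max h' (C + 1) := le_max_right _ _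
      show z.2 < max h' (C + 1)
      linarith
    · refine GTopo_vert fun y hy => ?_
      have hy1 : h' ≤ y := by
        rcases hy with hy | hy
        · exact hy.1
        · exact (le_max_left _ _).trans hy.1
      intro hyP
      exact absurd (hub hyP) (not_le.2 (hlt.trans_le hy1))
  have up1 : ∀ t, Up (range P) (P' t) := fun t =>
    Up.of_joinedIn (GTopo_line_joined hP' hnot t s0') up0
  refine ⟨up1, ?_⟩
  obtain ⟨hne, hcpt⟩ := GTopo_axis hP
  obtain ⟨hne', hcpt'⟩ := GTopo_axis hP'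
  obtain ⟨l, hl⟩ := hcpt.exists_isLeast hne
  obtain ⟨l', hl'⟩ := hcpt'.exists_isLeast hne'
  have hll : l < l' := by
    by_contra hcon
    have hne2 : l' ≠ l := by
      rintro rfl
      exact disjoint_left.1 hd hl.1 hl'.1
    have hlt2 : l' < l := lt_of_le_of_ne (not_lt.1 hcon) hne2
    obtain ⟨s1, hs1⟩ := hl'.1
    have lo1 : Lo (range P) (P' s1) := by
      rw [hs1]
      refine ⟨(0, min l' (-C - 1)), ?_, ?_⟩
      · intro z hz
        have h1 := (abs_le.1 (hC z hz)).1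
        have h2 : min l' (-C - 1) ≤ -C - 1 := min_le_right _ _
        show min l' (-C - 1) < z.2
        linarith
      · refine GTopo_vert fun y hy => ?_
        have hy1 : y ≤ l' := by
          rcases hy with hy | hy
          · exact hy.2.trans (min_le_left _ _)
          · exact hy.2
        intro hyP
        exact absurd (hl.2 hyP) (not_le.2 (hy1.trans_lt hlt2))
    exact hP.not_lo_up lo1 (up1 s1)
  obtain ⟨s1, hs1⟩ := hl.1
  have lo0 : Lo (range P') (P s1) := by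
    rw [hs1]
    refine ⟨(0, min l (-C' - 1)), ?_, ?_⟩
    · intro z hz
      have h1 := (abs_le.1 (hC' z hz)).1
      have h2 : min l (-C' - 1) ≤ -C' - 1 := min_le_right _ _
      show min l (-C' - 1) < z.2
      linarith
    · refine GTopo_vert fun y hy => ?_
      have hy1 : y ≤ l := by
        rcases hy with hy | hy
        · exact hy.2.trans (min_le_left _ _)
        · exact hy.2
      intro hyP
      exact absurd (hl'.2 hyP) (not_le.2 (hy1.trans_lt hll))
  exact fun t => Lo.of_joinedIn (GTopo_line_joined hP hnot' t s1) lo0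

/-- two disjoint lines are ordered. Proof: on the vertical axis let `h, h'` be the largest and
`l, l'` the smallest heights of the points of `P, P'`. If `h' > h` then the vertical ray from
`(0, h')` avoids `P`, so `Up P (0, h')`, so `Up P (P' t)` for all `t`; then `l' > l` (otherwise
`(0, l')` is below `P`), so `(0, l)` is below `P'`, so `Lo P' (P t)` for all `t`. Otherwise
`h > h'` and the roles are exchanged. -/
theorem lt_or_gt {P P' : ℝ → ℝ × ℝ} (hP : IsLine P) (hP' : IsLine P')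
    (h : Disjoint (range P) (range P')) : Lt P P' ∨ Lt P' P := by
  obtain ⟨hne, hcpt⟩ := GTopo_axis hP
  obtain ⟨hne', hcpt'⟩ := GTopo_axis hP'
  obtain ⟨u, hu⟩ := hcpt.exists_isGreatest hne
  obtain ⟨u', hu'⟩ := hcpt'.exists_isGreatest hne'
  rcases lt_trichotomy u u' with hlt | heq | hgt
  · exact Or.inl (GTopo_lt hP hP' h hu hu' hlt)
  · exfalso
    subst heq
    exact disjoint_left.1 h hu.1 hu'.1
  · exact Or.inr (GTopo_lt hP' hP h.symm hu' hu hgt)

theorem Lt.disjoint {P P' : ℝ → ℝ × ℝ} (h : Lt P P') : Disjoint (range P) (range P') := by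
  rw [disjoint_left]
  rintro _ hx ⟨t, rfl⟩
  exact (h.1 t).notMem hx

theorem Lt.asymm {P P' : ℝ → ℝ × ℝ} (hP : IsLine P) (h : Lt P P') : ¬ Lt P' P := fun h' =>
  hP.not_lo_up (h'.2 0) (h.1 0)

theorem GTopo_up_high {S : Set (ℝ × ℝ)} {x : ℝ × ℝ} (h : Up S x) (Y : ℝ) :
    ∃ u : ℝ × ℝ, Y < u.2 ∧ (∀ z ∈ S, z.2 < u.2) ∧ JoinedIn Sᶜ x u := by
  obtain ⟨u, hu, j⟩ := h
  refine ⟨(u.1, max u.2 (Y + 1)), ?_, ?_, ?_⟩
  · have h2 : Y + 1 ≤ max u.2 (Y + 1) := le_max_right _ _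
    show Y < max u.2 (Y + 1)
    linarith
  · intro z hz
    exact (hu z hz).trans_le (le_max_left _ _)
  · refine j.trans ?_
    have : JoinedIn Sᶜ (u.1, u.2) (u.1, max u.2 (Y + 1)) := by
      refine GTopo_vert fun y hy => ?_
      have hy1 : u.2 ≤ y := by
        rcases hy with hy | hy
        · exact hy.1
        · exact (le_max_left _ _).trans hy.1
      intro hyS
      exact absurd (hu _ hyS) (not_lt.2 hy1)
    exact this

theorem GTopo_lo_low {S : Set (ℝ × ℝ)} {x : ℝ × ℝ} (h : Lo S x) (Y : ℝ) :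
    ∃ u : ℝ × ℝ, u.2 < Y ∧ (∀ z ∈ S, u.2 < z.2) ∧ JoinedIn Sᶜ x u := by
  obtain ⟨u, hu, j⟩ := h
  refine ⟨(u.1, min u.2 (Y - 1)), ?_, ?_, ?_⟩
  · have h2 : min u.2 (Y - 1) ≤ Y - 1 := min_le_right _ _
    show min u.2 (Y - 1) < Y
    linarith
  · intro z hz
    exact (min_le_left _ _).trans_lt (hu z hz)
  · refine j.trans ?_
    have : JoinedIn Sᶜ (u.1, u.2) (u.1, min u.2 (Y - 1)) := by
      refine GTopo_vert fun y hy => ?_
      have hy1 : y ≤ u.2 := by
        rcases hy with hy | hy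
        · exact hy.2.trans (min_le_left _ _)
        · exact hy.2
      intro hyS
      exact absurd (hu _ hyS) (not_lt.2 hy1)
    exact this

theorem GTopo_snd_bound {P : ℝ → ℝ × ℝ} (hP : IsLine P) :
    ∃ C : ℝ, ∀ z ∈ range P, |z.2| ≤ C := by
  obtain ⟨a, C, ha, hPc, hPb⟩ := hP
  exact ⟨C, by rintro _ ⟨t, rfl⟩; exact (hPb t).2⟩

/-- every point of a path is joined to its end point -/
theorem GTopo_path_tail {F : Set (ℝ × ℝ)} {x u : ℝ × ℝ} (γ : Path x u) (hγ : ∀ t, γ t ∈ F)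
    (t : unitInterval) : JoinedIn F (γ t) u := by
  have h1 : JoinedIn F (γ.extend (t : ℝ)) (γ.extend 1) :=
    GTopo_joinedIn t.2.2 γ.continuous_extend.continuousOn fun s hs => by
      have hs' : s ∈ unitInterval := ⟨t.2.1.trans hs.1, hs.2⟩
      rw [Path.extend_apply γ hs']
      exact hγ _
  rw [Path.extend_one, Path.extend_apply γ t.2] at h1
  exact h1

/-- a path from `x` to far above avoiding `P'` also avoids `P` (otherwise some point of `P` would be
above and below `P'`) -/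
theorem Lt.up {P P' : ℝ → ℝ × ℝ} (hP : IsLine P) (hP' : IsLine P') (h : Lt P P') {x : ℝ × ℝ}
    (hx : Up (range P') x) : Up (range P) x := by
  obtain ⟨C, hC⟩ := GTopo_snd_bound hP
  obtain ⟨u, hu1, hu2, γ, hγ⟩ := GTopo_up_high hx C
  refine ⟨u, fun z hz => ((abs_le.1 (hC z hz)).2).trans_lt hu1, γ, fun t ht => ?_⟩
  obtain ⟨s, hs⟩ := ht
  have h1 : Up (range P') (P s) := by
    rw [hs]
    exact ⟨u, hu2, GTopo_path_tail γ hγ t⟩
  exact hP'.not_lo_up (h.2 s) h1

theorem Lt.lo {P P' : ℝ → ℝ × ℝ} (hP : IsLine P) (hP' : IsLine P') (h : Lt P P') {x : ℝ × ℝ}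
    (hx : Lo (range P) x) : Lo (range P') x := by
  obtain ⟨C, hC⟩ := GTopo_snd_bound hP'
  obtain ⟨u, hu1, hu2, γ, hγ⟩ := GTopo_lo_low hx (-C)
  refine ⟨u, fun z hz => hu1.trans_le (abs_le.1 (hC z hz)).1, γ, fun t ht => ?_⟩
  obtain ⟨s, hs⟩ := ht
  have h1 : Lo (range P) (P' s) := by
    rw [hs]
    exact ⟨u, hu2, GTopo_path_tail γ hγ t⟩
  exact hP.not_lo_up h1 (h.1 s)

theorem Lt.trans {P Q R : ℝ → ℝ × ℝ} (hP : IsLine P) (hQ : IsLine Q) (hR : IsLine R) (h : Lt P Q)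
    (h' : Lt Q R) : Lt P R :=
  ⟨fun t => Lt.up hP hQ h (h'.1 t), fun t => Lt.lo hQ hR h' (h.2 t)⟩

theorem GTopo_joinedIn_map {F G : Set (ℝ × ℝ)} {x y : ℝ × ℝ} (f : ℝ × ℝ → ℝ × ℝ)
    (hf : Continuous f) (hFG : ∀ z ∈ F, f z ∈ G) (h : JoinedIn F x y) : JoinedIn G (f x) (f y) := by
  obtain ⟨γ, hγ⟩ := h
  exact ⟨γ.map hf, fun t => hFG _ (hγ t)⟩

theorem GTopo_lo_shift {S : Set (ℝ × ℝ)} {x : ℝ × ℝ} (v : ℝ × ℝ) (h : Lo S x) :
    Lo ((fun z => z + v) '' S) (x + v) := by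
  obtain ⟨u, hu, j⟩ := h
  refine ⟨u + v, ?_, GTopo_joinedIn_map (fun z => z + v) (by fun_prop) ?_ j⟩
  · rintro _ ⟨z, hz, rfl⟩
    have := hu z hz
    show u.2 + v.2 < z.2 + v.2
    linarith
  · rintro z hz ⟨w, hw, he⟩
    exact hz (by rwa [← add_right_cancel he])

theorem GTopo_up_shift {S : Set (ℝ × ℝ)} {x : ℝ × ℝ} (v : ℝ × ℝ) (h : Up S x) :
    Up ((fun z => z + v) '' S) (x + v) := by
  obtain ⟨u, hu, j⟩ := h
  refine ⟨u + v, ?_, GTopo_joinedIn_map (fun z => z + v) (by fun_prop) ?_ j⟩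
  · rintro _ ⟨z, hz, rfl⟩
    have := hu z hz
    show z.2 + v.2 < u.2 + v.2
    linarith
  · rintro z hz ⟨w, hw, he⟩
    exact hz (by rwa [← add_right_cancel he])

theorem GTopo_shift_shift (S : Set (ℝ × ℝ)) (v : ℝ × ℝ) :
    (fun z => z + -v) '' ((fun z => z + v) '' S) = S := by
  rw [image_image]
  simp

theorem lo_shift {S : Set (ℝ × ℝ)} {x v : ℝ × ℝ} :
    Lo ((fun z => z + v) '' S) (x + v) ↔ Lo S x := by
  refine ⟨fun h => ?_, GTopo_lo_shift v⟩
  have := GTopo_lo_shift (-v) h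
  rwa [GTopo_shift_shift, add_neg_cancel_right] at this

theorem up_shift {S : Set (ℝ × ℝ)} {x v : ℝ × ℝ} :
    Up ((fun z => z + v) '' S) (x + v) ↔ Up S x := by
  refine ⟨fun h => ?_, GTopo_up_shift v⟩
  have := GTopo_up_shift (-v) h
  rwa [GTopo_shift_shift, add_neg_cancel_right] at this

theorem GTopo_rf_rf (x : ℝ × ℝ) : rf (rf x) = x := by
  simp [rf]

theorem GTopo_rf_image (S : Set (ℝ × ℝ)) : rf '' (rf '' S) = S := by
  rw [image_image]
  simp [GTopo_rf_rf]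

theorem GTopo_continuous_rf : Continuous rf := by
  unfold rf
  fun_prop

theorem GTopo_rf_notMem {S : Set (ℝ × ℝ)} : ∀ z ∈ Sᶜ, rf z ∈ (rf '' S)ᶜ := by
  rintro z hz ⟨w, hw, he⟩
  have h1 : w = z := by rw [← GTopo_rf_rf w, he, GTopo_rf_rf]
  exact hz (by rwa [← h1])

theorem GTopo_lo_rf {S : Set (ℝ × ℝ)} {x : ℝ × ℝ} (h : Up S x) : Lo (rf '' S) (rf x) := by
  obtain ⟨u, hu, j⟩ := h
  refine ⟨rf u, ?_, GTopo_joinedIn_map rf GTopo_continuous_rf GTopo_rf_notMem j⟩
  rintro _ ⟨z, hz, rfl⟩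
  have := hu z hz
  show -u.2 < -z.2
  linarith

theorem GTopo_up_rf {S : Set (ℝ × ℝ)} {x : ℝ × ℝ} (h : Lo S x) : Up (rf '' S) (rf x) := by
  obtain ⟨u, hu, j⟩ := h
  refine ⟨rf u, ?_, GTopo_joinedIn_map rf GTopo_continuous_rf GTopo_rf_notMem j⟩
  rintro _ ⟨z, hz, rfl⟩
  have := hu z hz
  show -z.2 < -u.2
  linarith

theorem lo_rf {S : Set (ℝ × ℝ)} {x : ℝ × ℝ} : Lo (rf '' S) (rf x) ↔ Up S x := by
  refine ⟨fun h => ?_, GTopo_lo_rf⟩
  have := GTopo_up_rf h
  rwa [GTopo_rf_image, GTopo_rf_rf] at this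

theorem up_rf {S : Set (ℝ × ℝ)} {x : ℝ × ℝ} : Up (rf '' S) (rf x) ↔ Lo S x := by
  refine ⟨fun h => ?_, GTopo_up_rf⟩
  have := GTopo_lo_rf h
  rwa [GTopo_rf_image, GTopo_rf_rf] at this

/-- a curve from below to above a line meets the line -/
theorem curve_meets {P : ℝ → ℝ × ℝ} (hP : IsLine P) {η : ℝ → ℝ × ℝ} {a b : ℝ} (hab : a ≤ b)
    (hη : ContinuousOn η (Icc a b)) (h1 : Lo (range P) (η a)) (h2 : Up (range P) (η b)) :
    ∃ t ∈ Icc a b, η t ∈ range P := by
  by_contra hcon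
  push Not at hcon
  exact hP.not_lo_up h1 (Up.of_joinedIn (joinedIn_of_curve hab hη hcon) h2)

/-- the same in the other direction -/
theorem curve_meets' {P : ℝ → ℝ × ℝ} (hP : IsLine P) {η : ℝ → ℝ × ℝ} {a b : ℝ} (hab : a ≤ b)
    (hη : ContinuousOn η (Icc a b)) (h1 : Up (range P) (η a)) (h2 : Lo (range P) (η b)) :
    ∃ t ∈ Icc a b, η t ∈ range P := by
  by_contra hcon
  push Not at hcon
  exact hP.not_lo_up (Lo.of_joinedIn (joinedIn_of_curve hab hη hcon) h2) h1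

end Pool.Agent.EscG
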