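import Pool.Agent.EscG.GU

set_option autoImplicit false

/-!
# EscG geometry: a line calibrated by `U` and `V` lies between two closed lines with the same `U - V`

`am < ap`. `W := U - V`, `W (x + (0,1)) = W x + (ap - am)`, `W (x + (1,0)) = W x`, so
`|W x - (ap - am) x.2|` is bounded. Let `F` be the set of lines `Q` calibrated by `U` and `V` with
`W (Q 0) = w := W (P 0)`: all their points have bounded height (uniformly), and they are lines with
uniform constants up to a time shift. `top` is bounded on `F`; take a maximizing sequence `Q_n`, shifted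
in time so that `Q_n 0 = (0, top (range Q_n))`; the limit `Q` (`exists_lim`) is in `F` and has
`top (range Q) ≥ sup`. `P` and `Q` have the same range or `Lt P Q` (`cal_meet_range`, `lt_or_gt`,
`Lt.top_lt`). The same for `Q ± (1, 0)`, which are in `F` too: `Lt Q (Q + (1,0))` is impossible, and
`Lt (Q + (1,0)) Q` gives `Lt Q (Q - (1,0))` (translation), impossible. So the ranges of `Q` and
`Q + (1,0)` are equal, and `U` gives `Q (t + l) = Q t + (1, 0)`. `Q` is isometric (`CalOn.iso`).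
The lower closed line: the same with the lowest crossing, or by reflection: `T.refl` with
`U' x = V (rf x)`, `V' x = U (rf x)`, `ap' = - am`, `am' = - ap` is again `UV`.
-/

noncomputable section

open Set Filter Topology

namespace Pool.Agent.EscG

namespace Pl

variable {T : Pl}

theorem GMax_range_rf (P : ℝ → ℝ × ℝ) : range (fun t => rf (P t)) = rf '' range P := by
  rw [← range_comp]
  rfl

theorem GMax_rf_add (x : ℝ × ℝ) : rf (x + (0, 1)) + (0, 1) = rf x := by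
  ext
  · simp [rf]
  · simp [rf]

theorem GMax_key {A : ℝ × ℝ → ℝ} {G : ℝ → ℝ × ℝ} (hG : T.refl.Cl G) {x : ℝ × ℝ} {ε : ℝ}
    (h : ∀ G', T.Cl G' → range G' = rf '' range G → ∃ s, A (G' s) + T.d (G' s) (rf x) < A (rf x) + ε) :
    ∃ s, A (rf (G s)) + T.refl.d (G s) x < A (rf x) + ε := by
  have hG' : T.Cl (fun t => rf (G t)) := by
    rw [← T.refl_cl]
    simpa [rf_rf] using hG
  exact h _ hG' (GMax_range_rf G)

theorem UV.refl {U V : ℝ × ℝ → ℝ} {ap am : ℝ} (h : UV T U V ap am) :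
    UV T.refl (fun x => V (rf x)) (fun x => U (rf x)) (-am) (-ap) where
  subU := T.refl_sub.2 h.subV
  subV := T.refl_sub.2 h.subU
  gU x := by
    have h1 := h.gV (rf (x + (0, 1)))
    rw [GMax_rf_add] at h1
    show V (rf (x + (0, 1))) = V (rf x) + -am
    linarith
  gV x := by
    have h1 := h.gU (rf (x + (0, 1)))
    rw [GMax_rf_add] at h1
    show U (rf (x + (0, 1))) = U (rf x) + -ap
    linarith
  keyU G hG x hx ε hε := by
    refine GMax_key hG fun G' hG' hr => h.keyV G' hG' (rf x) ?_ ε hε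
    rw [hr, up_rf]
    exact hx
  keyV G hG x hx ε hε := by
    refine GMax_key hG fun G' hG' hr => h.keyU G' hG' (rf x) ?_ ε hε
    rw [hr, lo_rf]
    exact hx

theorem UV.isLine {U V : ℝ × ℝ → ℝ} {ap am : ℝ} (h : UV T U V ap am) {P : ℝ → ℝ × ℝ}
    (hU : T.CalOn U P univ) : IsLine P := T.cal_isLine h.subU hU

/-- growth along `g` -/
theorem GMax_int {B : ℝ × ℝ → ℝ} {a : ℝ} (hB : ∀ x, B (x + (0, 1)) = B x + a) (j : ℤ)
    (x : ℝ × ℝ) : B (x + (0, (j : ℝ))) = B x + j * a := by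
  induction j using Int.induction_on generalizing x with
  | zero =>
    have h1 : x + (0, ((0 : ℤ) : ℝ)) = x := by
      ext <;> simp
    rw [h1]
    simp
  | succ n ih =>
    have h1 : x + (0, (((n : ℤ) + 1 : ℤ) : ℝ)) = (x + (0, ((n : ℤ) : ℝ))) + (0, 1) := by
      ext <;> simp [add_assoc]
    rw [h1, hB, ih]
    push_cast
    ring
  | pred n ih =>
    have h1 : x + (0, ((-(n : ℤ) : ℤ) : ℝ)) = (x + (0, ((-(n : ℤ) - 1 : ℤ) : ℝ))) + (0, 1) := by
      ext <;> simp [add_assoc]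
    have h2 := ih x
    rw [h1, hB] at h2
    have h3 : B (x + (0, ((-(n : ℤ) - 1 : ℤ) : ℝ))) = B x + ((-(n : ℤ) : ℤ) : ℝ) * a - a := by
      linarith
    rw [h3]
    push_cast
    ring

/-- uniform bound for `U - V - (ap - am) x.2` -/
theorem GMax_bound {U V : ℝ × ℝ → ℝ} {ap am : ℝ} (h : UV T U V ap am) :
    ∃ C, ∀ x, |(U x - V x) - (ap - am) * x.2| ≤ C := by
  refine ⟨2 * (T.M * 2 + T.l) + |U 0 - V 0| + |ap - am|, fun x => ?_⟩
  set j : ℤ := ⌊x.2⌋ with hj
  set z : ℝ × ℝ := (x.1, x.2 - j) with hz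
  have hx : x = z + (0, (j : ℝ)) := by
    ext <;> simp [hz]
  have hz0 : 0 ≤ z.2 := by
    have := Int.floor_le x.2
    show 0 ≤ x.2 - j
    linarith
  have hz1 : z.2 ≤ 1 := by
    have := Int.lt_floor_add_one x.2
    show x.2 - j ≤ 1
    linarith
  have hzz : |z.2| ≤ 1 := abs_le.2 ⟨by linarith, hz1⟩
  have h1 : U x = U z + j * ap := by
    conv_lhs => rw [hx]
    exact GMax_int h.gU j z
  have h2 : V x = V z + j * am := by
    conv_lhs => rw [hx]
    exact GMax_int h.gV j z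
  have h3 : x.2 = z.2 + j := by
    show x.2 = x.2 - j + j
    ring
  have hM := T.M_pos
  have h4 := Sub.growth T h.subU z
  have h5 := Sub.growth T h.subV z
  have h6 : T.M * (|z.2| + 1) ≤ T.M * 2 := by
    apply mul_le_mul_of_nonneg_left _ hM.le
    linarith
  have h7 : (U x - V x) - (ap - am) * x.2 =
      (U z - U 0 - T.l * z.1) - (V z - V 0 - T.l * z.1) + (U 0 - V 0) - (ap - am) * z.2 := by
    rw [h1, h2, h3]
    ring
  rw [h7]
  have h8 : |(ap - am) * z.2| ≤ |ap - am| := by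
    rw [abs_mul]
    exact mul_le_of_le_one_right (abs_nonneg _) hzz
  have h9 := abs_sub ((U z - U 0 - T.l * z.1) - (V z - V 0 - T.l * z.1) + (U 0 - V 0))
    ((ap - am) * z.2)
  have h10 := abs_add_le ((U z - U 0 - T.l * z.1) - (V z - V 0 - T.l * z.1)) (U 0 - V 0)
  have h11 := abs_sub (U z - U 0 - T.l * z.1) (V z - V 0 - T.l * z.1)
  linarith

/-- translates by `(i, 0)` of calibrated curves -/
theorem GMax_translate {B : ℝ × ℝ → ℝ} (hB : T.Sub B) {P : ℝ → ℝ × ℝ} (hP : T.CalOn B P univ)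
    (i : ℤ) : T.CalOn B (fun t => P t + ((i : ℝ), 0)) univ := by
  refine ⟨fun t ht u hu => ?_, fun t ht u hu => ?_⟩
  · have h1 := T.per i 0 (P t) (P u)
    simp only [Int.cast_zero] at h1
    show T.d (P t + ((i : ℝ), 0)) (P u + ((i : ℝ), 0)) ≤ |t - u|
    rw [h1]
    exact hP.1 t ht u hu
  · show B (P t + ((i : ℝ), 0)) - B (P u + ((i : ℝ), 0)) = t - u
    rw [Sub.int T hB, Sub.int T hB]
    have := hP.2 t ht u hu
    linarith

theorem GMax_shift {B : ℝ × ℝ → ℝ} {P : ℝ → ℝ × ℝ} (hP : T.CalOn B P univ)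
    (s : ℝ) : T.CalOn B (fun t => P (t + s)) univ := by
  refine ⟨fun t _ u _ => ?_, fun t _ u _ => ?_⟩
  · have := hP.1 (t + s) (mem_univ _) (u + s) (mem_univ _)
    have h2 : t + s - (u + s) = t - u := by ring
    rwa [h2] at this
  · have := hP.2 (t + s) (mem_univ _) (u + s) (mem_univ _)
    have h2 : t + s - (u + s) = t - u := by ring
    rwa [h2] at this

theorem GMax_lim {B : ℝ × ℝ → ℝ} (hB : T.Sub B) {P : ℕ → ℝ → ℝ × ℝ} {Q : ℝ → ℝ × ℝ}
    (hP : ∀ n, T.CalOn B (P n) univ) (hlim : ∀ t, Tendsto (fun n => P n t) atTop (𝓝 (Q t)))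
    (h1 : ∀ s t, T.d (Q s) (Q t) ≤ |s - t|) : T.CalOn B Q univ := by
  refine ⟨fun t _ u _ => h1 t u, fun t _ u _ => ?_⟩
  have hc := T.continuous_of hB.1
  have h2 : Tendsto (fun n => B (P n t) - B (P n u)) atTop (𝓝 (B (Q t) - B (Q u))) :=
    ((hc.tendsto _).comp (hlim t)).sub ((hc.tendsto _).comp (hlim u))
  have h3 : (fun n => B (P n t) - B (P n u)) = fun _ => t - u :=
    funext fun n => (hP n).2 t (mem_univ _) u (mem_univ _)
  rw [h3] at h2
  exact tendsto_nhds_unique h2 tendsto_const_nhds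

/-- translation of `Lt` -/
theorem GMax_lt_translate {P Q : ℝ → ℝ × ℝ} (v : ℝ × ℝ) (h : Lt P Q) :
    Lt (fun t => P t + v) (fun t => Q t + v) := by
  have hP : range (fun t => P t + v) = (fun z => z + v) '' range P := by
    rw [← range_comp]
    rfl
  have hQ : range (fun t => Q t + v) = (fun z => z + v) '' range Q := by
    rw [← range_comp]
    rfl
  refine ⟨fun t => ?_, fun t => ?_⟩
  · rw [hP]
    exact up_shift.2 (h.1 t)
  · rw [hQ]
    exact lo_shift.2 (h.2 t)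

theorem UV.exists_above {U V : ℝ × ℝ → ℝ} {ap am : ℝ} (h : UV T U V ap am) (hpm : am < ap)
    {P : ℝ → ℝ × ℝ} (hU : T.CalOn U P univ) (hV : T.CalOn V P univ) :
    ∃ G, T.Cl G ∧ (range G = range P ∨ Lt P G) ∧ U (G 0) - V (G 0) = U (P 0) - V (P 0) := by
  obtain ⟨C, hC⟩ := GMax_bound h
  set w : ℝ := U (P 0) - V (P 0) with hw
  -- the family
  let F : Set (ℝ → ℝ × ℝ) := {Q | T.CalOn U Q univ ∧ T.CalOn V Q univ ∧ U (Q 0) - V (Q 0) = w}
  have hPF : P ∈ F := ⟨hU, hV, rfl⟩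
  have hFW : ∀ Q ∈ F, ∀ t, U (Q t) - V (Q t) = w := fun Q hQ t => by
    rw [h.const hQ.1 hQ.2.1 t 0, hQ.2.2]
  have hFL : ∀ Q ∈ F, IsLine Q := fun Q hQ => h.isLine hQ.1
  have hκ : 0 < ap - am := by linarith
  set H : ℝ := (|w| + C) / (ap - am) with hH
  have hFH : ∀ Q ∈ F, ∀ t, |(Q t).2| ≤ H := by
    intro Q hQ t
    have h1 := hC (Q t)
    rw [hFW Q hQ t] at h1
    rw [hH, le_div_iff₀ hκ]
    have h2 : |(Q t).2| * (ap - am) = |(ap - am) * (Q t).2| := by
      rw [abs_mul, abs_of_pos hκ, mul_comm]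
    rw [h2]
    have h3 : (ap - am) * (Q t).2 = w - (w - (ap - am) * (Q t).2) := by ring
    rw [h3]
    have := abs_sub w (w - (ap - am) * (Q t).2)
    linarith
  have hFtop : ∀ Q ∈ F, |top (range Q)| ≤ H := by
    intro Q hQ
    obtain ⟨t, ht⟩ := top_mem (hFL Q hQ)
    have := hFH Q hQ t
    rwa [ht] at this
  have hFs : ∀ Q ∈ F, ∀ s, (fun t => Q (t + s)) ∈ F := fun Q hQ s =>
    ⟨GMax_shift hQ.1 s, GMax_shift hQ.2.1 s, by
      show U (Q (0 + s)) - V (Q (0 + s)) = w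
      exact hFW Q hQ _⟩
  have hFt : ∀ Q ∈ F, ∀ i : ℤ, (fun t => Q t + ((i : ℝ), 0)) ∈ F := fun Q hQ i =>
    ⟨GMax_translate h.subU hQ.1 i, GMax_translate h.subV hQ.2.1 i, by
      show U (Q 0 + ((i : ℝ), 0)) - V (Q 0 + ((i : ℝ), 0)) = w
      rw [Sub.int T h.subU, Sub.int T h.subV, ← hFW Q hQ 0]
      ring⟩
  -- a maximizing sequence
  set S : Set ℝ := (fun Q : ℝ → ℝ × ℝ => top (range Q)) '' F with hS
  have hSne : S.Nonempty := ⟨_, P, hPF, rfl⟩
  have hSb : BddAbove S := by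
    refine ⟨H, ?_⟩
    rintro _ ⟨Q, hQ, rfl⟩
    exact (abs_le.1 (hFtop Q hQ)).2
  obtain ⟨u, -, hu, huS⟩ := exists_seq_tendsto_sSup hSne hSb
  choose Q0 hQ0 hQ0t using huS
  have hq : ∀ n, ∃ s, Q0 n s = ((0 : ℝ), u n) := by
    intro n
    obtain ⟨s, hs⟩ := top_mem (hFL _ (hQ0 n))
    refine ⟨s, ?_⟩
    rw [hs]
    exact congrArg (Prod.mk (0 : ℝ)) (hQ0t n)
  choose s hs using hq
  let Q1 : ℕ → ℝ → ℝ × ℝ := fun n t => Q0 n (t + s n)
  have hQ1 : ∀ n, Q1 n ∈ F := fun n => hFs _ (hQ0 n) (s n)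
  have hQ10 : ∀ n, Q1 n 0 = ((0 : ℝ), u n) := by
    intro n
    show Q0 n (0 + s n) = _
    rw [zero_add]
    exact hs n
  have hu' : ∀ n, |u n| ≤ H := by
    intro n
    rw [← hQ0t n]
    exact hFtop _ (hQ0 n)
  obtain ⟨φ, hφ, Q, hQlim, hQlip⟩ := T.exists_lim (P := Q1)
    (fun n s t => (hQ1 n).1.1 s (mem_univ _) t (mem_univ _)) (C := H) (by
      intro n
      rw [hQ10, Prod.norm_def]
      simp only [norm_zero, Real.norm_eq_abs]
      exact max_le ((abs_nonneg _).trans (hu' n)) (hu' n))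
  have hQU : T.CalOn U Q univ := GMax_lim h.subU (P := fun n => Q1 (φ n))
    (fun n => (hQ1 (φ n)).1) hQlim hQlip
  have hQV : T.CalOn V Q univ := GMax_lim h.subV (P := fun n => Q1 (φ n))
    (fun n => (hQ1 (φ n)).2.1) hQlim hQlip
  have hQ0' : Q 0 = ((0 : ℝ), sSup S) := by
    have h1 : Tendsto (fun n => Q1 (φ n) 0) atTop (𝓝 ((0 : ℝ), sSup S)) := by
      have h2 : (fun n => Q1 (φ n) 0) = fun n => ((0 : ℝ), u (φ n)) := funext fun n => hQ10 _
      rw [h2]
      exact (tendsto_const_nhds).prodMk_nhds (hu.comp hφ.tendsto_atTop)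
    exact tendsto_nhds_unique (hQlim 0) h1
  have hQW : U (Q 0) - V (Q 0) = w := by
    have hc := (T.continuous_of h.subU.1).sub (T.continuous_of h.subV.1)
    have h1 : Tendsto (fun n => U (Q1 (φ n) 0) - V (Q1 (φ n) 0)) atTop
        (𝓝 (U (Q 0) - V (Q 0))) := (hc.tendsto _).comp (hQlim 0)
    have h2 : (fun n => U (Q1 (φ n) 0) - V (Q1 (φ n) 0)) = fun _ => w :=
      funext fun n => hFW _ (hQ1 (φ n)) 0
    rw [h2] at h1
    exact tendsto_nhds_unique h1 tendsto_const_nhds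
  have hQF : Q ∈ F := ⟨hQU, hQV, hQW⟩
  have hQL := hFL Q hQF
  have hQtop : sSup S ≤ top (range Q) := le_top hQL ⟨0, hQ0'⟩
  have hmax : ∀ R ∈ F, top (range R) ≤ top (range Q) := fun R hR =>
    (le_csSup hSb ⟨R, hR, rfl⟩).trans hQtop
  have hcase : ∀ R ∈ F, range Q = range R ∨ Lt R Q := by
    intro R hR
    by_cases hd : Disjoint (range R) (range Q)
    · rcases lt_or_gt (hFL R hR) hQL hd with h1 | h1
      · exact Or.inr h1
      · exact absurd (h1.top_lt hQL (hFL R hR)) (not_lt.2 (hmax R hR))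
    · exact Or.inl (cal_meet_range h.subU.1 hR.1 hQU hd).symm
  -- periodicity
  have hper : range Q = range (fun t => Q t + (((1 : ℤ) : ℝ), 0)) := by
    rcases hcase _ (hFt Q hQF 1) with h1 | h1
    · exact h1
    · exfalso
      have h2 := GMax_lt_translate (((-1 : ℤ) : ℝ), (0 : ℝ)) h1
      have h3 : (fun t => Q t + (((1 : ℤ) : ℝ), (0 : ℝ)) + (((-1 : ℤ) : ℝ), (0 : ℝ))) = Q := by
        funext t
        ext <;> simp
      rw [h3] at h2
      have hR := hFt Q hQF (-1)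
      exact absurd (h2.top_lt hQL (hFL _ hR)) (not_lt.2 (hmax _ hR))
  obtain ⟨s0, hs0⟩ : Q 0 + (((1 : ℤ) : ℝ), (0 : ℝ)) ∈ range Q := by
    rw [hper]
    exact ⟨0, rfl⟩
  have hs0l : s0 = T.l := by
    have h1 := hQU.2 s0 (mem_univ _) 0 (mem_univ _)
    rw [hs0, Sub.int T h.subU] at h1
    push_cast at h1
    linarith
  have hcl : T.Cl Q := by
    refine ⟨fun a b => CalOn.iso h.subU.1 hQU a (mem_univ _) b (mem_univ _), fun t => ?_⟩
    have h1 := cal_meet h.subU.1 (P := Q) (Q := fun t => Q t + (((1 : ℤ) : ℝ), (0 : ℝ)))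
      (s := s0) (s' := 0) hQU (GMax_translate h.subU hQU 1) (by
        show Q 0 + (((1 : ℤ) : ℝ), (0 : ℝ)) = Q s0
        exact hs0.symm) t
    have h2 : Q (0 + t) + (((1 : ℤ) : ℝ), (0 : ℝ)) = Q (s0 + t) := h1
    rw [zero_add, hs0l, add_comm T.l t] at h2
    rw [← h2]
    simp
  exact ⟨Q, hcl, hcase P hPF, hQW⟩

theorem UV.exists_under {U V : ℝ × ℝ → ℝ} {ap am : ℝ} (h : UV T U V ap am) (hpm : am < ap)
    {P : ℝ → ℝ × ℝ} (hU : T.CalOn U P univ) (hV : T.CalOn V P univ) :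
    ∃ G, T.Cl G ∧ (range G = range P ∨ Lt G P) ∧ U (G 0) - V (G 0) = U (P 0) - V (P 0) := by
  obtain ⟨G, hG, hr, hW⟩ := h.refl.exists_above (by linarith) (P := fun t => rf (P t))
    (T.refl_calOn.2 hV) (T.refl_calOn.2 hU)
  have hrf : ∀ x : ℝ × ℝ, rf (rf x) = x := GTopo_rf_rf
  refine ⟨fun t => rf (G t), ?_, ?_, ?_⟩
  · rw [← T.refl_cl]
    simpa [hrf] using hG
  · rcases hr with hr | hr
    · left
      rw [GMax_range_rf, hr, GMax_range_rf, GTopo_rf_image]
    · right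
      refine ⟨fun t => ?_, fun t => ?_⟩
      · rw [← lo_rf, ← GMax_range_rf]
        simp only [hrf]
        exact hr.2 t
      · have h1 := hr.1 t
        rw [GMax_range_rf, ← hrf (G t), up_rf] at h1
        exact h1
  · simp only [hrf] at hW
    show U (rf (G 0)) - V (rf (G 0)) = U (P 0) - V (P 0)
    linarith

end Pl

end Pool.Agent.EscG
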