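import Pool.Agent.EscG.GStep

set_option autoImplicit false

/-!
# EscG geometry: the main step

Apply `half_step` to `T`, giving `P`, and to `T.refl` with the lines `rf ∘ G1`, `rf ∘ G0` and the
point `rf p`, giving (reflected back) `Q` with `T.All Q`, `¬ Up (range Q) p`, `¬ Lo (range Q) (p + b)`.
`All.cases`: if `Lt P Q`: `¬ Lo Q (p+b)`, so by `All.tri` `p + b ∈ range Q` or `Up Q (p+b)`, in both
cases `Up (range P) (p + b)` (`Lt.up`), contradiction. If `Lt Q P`: `¬ Lo P p`, so `p ∈ range P` or
`Up P p`, so `Up (range Q) p`, contradiction. So the ranges are equal, and by `All.tri` `p` and `p + b`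
are in `range P`: `p = P s`, `p + b = P s'`, and `B = bus G0` gives `s' = s + l`; `P` is isometric
(`CalOn.iso`), so `d p (p + b) = l`.
-/

noncomputable section

open Set Filter Topology

namespace Pool.Agent.EscG

theorem GStep3_range (G : ℝ → ℝ × ℝ) : range (fun t => rf (G t)) = rf '' range G := by
  ext x
  simp [mem_range]

theorem GStep3_rf (p : ℝ × ℝ) : rf (p + (1, 0)) = rf p + (1, 0) := by
  simp [rf]

namespace Pl

variable {T : Pl}

theorem step3 {G0 G1 : ℝ → ℝ × ℝ} (h0 : T.Cl G0) (h1 : T.Cl G1) (hlt : Lt G0 G1)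
    (hk : T.En G0 G1 + T.En G1 G0 ≤ 0) {p : ℝ × ℝ} (hp0 : Up (range G0) p)
    (hp1 : Lo (range G1) p) : p ∈ T.D := by
  obtain ⟨P, hP, hPp, hPb⟩ := half_step h0 h1 hlt hk hp0 hp1
  have hlt' : Lt (fun t => rf (G1 t)) (fun t => rf (G0 t)) := by
    refine ⟨fun t => ?_, fun t => ?_⟩
    · rw [GStep3_range, up_rf]
      exact hlt.2 t
    · rw [GStep3_range, lo_rf]
      exact hlt.1 t
  have hk' : T.refl.En (fun t => rf (G1 t)) (fun t => rf (G0 t)) +
      T.refl.En (fun t => rf (G0 t)) (fun t => rf (G1 t)) ≤ 0 := by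
    rw [refl_En, refl_En, add_comm]
    exact hk
  have hq0 : Up (range fun t => rf (G1 t)) (rf p) := by
    rw [GStep3_range, up_rf]
    exact hp1
  have hq1 : Lo (range fun t => rf (G0 t)) (rf p) := by
    rw [GStep3_range, lo_rf]
    exact hp0
  obtain ⟨P', hP', hPp', hPb'⟩ := half_step ((refl_cl T).2 h1) ((refl_cl T).2 h0) hlt' hk' hq0 hq1
  have hrr : (fun t => rf (rf (P' t))) = P' := by
    funext t
    exact rf_rf _
  have hQ : T.All (fun t => rf (P' t)) := by
    rw [← refl_all, hrr]
    exact hP'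
  have hr : rf '' range (fun t => rf (P' t)) = range P' := by
    rw [← GStep3_range]
    exact congrArg range hrr
  have hQp : ¬ Up (range fun t => rf (P' t)) p := by
    rw [← lo_rf, hr]
    exact hPp'
  have hQb : ¬ Lo (range fun t => rf (P' t)) (p + (1, 0)) := by
    rw [← up_rf, hr, GStep3_rf]
    exact hPb'
  rcases hP.cases hQ with h | h | h
  · have hp : p ∈ range P := by
      rcases hP.tri p with h2 | h2 | h2
      · exact h2
      · exact absurd h2 hPp
      · rw [h] at h2
        exact absurd h2 hQp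
    have hpb : p + (1, 0) ∈ range P := by
      rcases hP.tri (p + (1, 0)) with h2 | h2 | h2
      · exact h2
      · rw [h] at h2
        exact absurd h2 hQb
      · exact absurd h2 hPb
    obtain ⟨s, hs⟩ := hp
    obtain ⟨s', hs'⟩ := hpb
    have hB := h0.bus_sub
    have hcal := hP _ hB
    have h3 := hcal.2 s' (mem_univ _) s (mem_univ _)
    rw [hs, hs', hB.2] at h3
    have h4 := (CalOn.iso hB.1 hcal) s (mem_univ _) s' (mem_univ _)
    rw [hs, hs'] at h4
    have h5 : |s - s'| = T.l := by
      rw [abs_sub_comm, show s' - s = T.l by linarith, abs_of_pos T.l_pos]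
    exact h4.trans h5
  · exfalso
    rcases hQ.tri (p + (1, 0)) with h2 | h2 | h2
    · obtain ⟨t, ht⟩ := h2
      have h3 := h.1 t
      rw [ht] at h3
      exact hPb h3
    · exact hQb h2
    · exact hPb (h.up hP.isLine hQ.isLine h2)
  · exfalso
    rcases hP.tri p with h2 | h2 | h2
    · obtain ⟨t, ht⟩ := h2
      have h3 := h.1 t
      rw [ht] at h3
      exact hQp h3
    · exact hPp h2
    · exact hQp (h.up hQ.isLine hP.isLine h2)

end Pl

end Pool.Agent.EscG
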