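import Pool.Agent.EscG.GAll

set_option autoImplicit false

/-!
# EscG geometry: one half of the main step

`G0` below `G1` closed lines, `κ := En G0 G1 + En G1 G0 ≤ 0` (so `= 0`), `E := En G0 G1`. For every
`B` with `Sub B`: `B (G0 s) = s + β0`, `B (G1 s) = s + β1`, and `d (G0 s) (G1 s') ≥ s' - s + β1 - β0`
gives `E ≥ β1 - β0`, `En G1 G0 ≥ β0 - β1`, hence `β1 - β0 = E`.
`d (G0 (-n)) (G1 n) - 2 n =: E_n` is nonincreasing in `n` and tends to `E` (`(s, s') ↦ d (G0 s) (G1 s')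
- (s' - s)` is nondecreasing in `s` and nonincreasing in `s'`).
`A_n` := `G0 t` for `t ≤ -n`, a minimal segment from `G0 (-n)` to `G1 n` on `[-n, n + E_n]`,
`G1 (t - E_n)` for `t ≥ n + E_n`: 1-Lipschitz, and for every `B` with `Sub B`
`t + β0 - (E_n - E) ≤ B (A_n t) ≤ t + β0` (the difference is nonincreasing, `0` on the left, `E - E_n`
on the right). The minimal segment meets `G0` only at its start and `G1` only at its end (`Cl.hit`; it
contains a point of the other, disjoint line), hence it stays above `G0` and below `G1`, so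
`A_n` is a line with uniform constants (`UL (1/l) C`), by `Sub.growth` with `B = bus G0`.
Let `p` with `Up G0 p`, `Lo G1 p`. For `k` very negative `p + k b` is above `A_n` (a path from `p` to far
above avoiding `G0`, translated by `k b`, lies in the region where `A_n = G0`), so not below; for `k`
large it is below `A_n`. Let `k_n` be the largest `k` with `¬ Lo (range A_n) (p + k b)`, and
`P_n t := A_n (t + k_n l) - k_n b`. Then `B (P_n t) ∈ [t + β0 - (E_n - E), t + β0]` for all `t : ℝ`,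
`¬ Lo (range P_n) p`, `Lo (range P_n) (p + b)`. `P_n 0` is bounded, `exists_lim` gives a limit `P`,
calibrated by all `B` on the whole line; by `lo_stable`, `up_stable`: `¬ Lo (range P) p` and
`¬ Up (range P) (p + b)` (else `P_n` has `p + b` above and below).
-/

noncomputable section

open Set Filter Topology

namespace Pool.Agent.EscG

namespace Pl

variable {T : Pl}

theorem GStep_cal {G : ℝ → ℝ × ℝ} (h : T.Cl G) {B : ℝ × ℝ → ℝ} (hB : T.Sub B) (t : ℝ) :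
    B (G t) = t + B (G 0) := by
  have h1 := (h.all B hB).2 t (mem_univ _) 0 (mem_univ _)
  linarith

theorem GStep_low {G0 G1 : ℝ → ℝ × ℝ} (h0 : T.Cl G0) (h1 : T.Cl G1) {B : ℝ × ℝ → ℝ}
    (hB : T.Sub B) (s s' : ℝ) : B (G1 0) - B (G0 0) ≤ T.d (G0 s) (G1 s') - (s' - s) := by
  have e1 := GStep_cal h0 hB s
  have e2 := GStep_cal h1 hB s'
  have e3 := hB.1 (G0 s) (G1 s')
  linarith

theorem En_bdd {G0 G1 : ℝ → ℝ × ℝ} (h0 : T.Cl G0) (h1 : T.Cl G1) :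
    BddBelow (range fun p : ℝ × ℝ => T.d (G0 p.1) (G1 p.2) - (p.2 - p.1)) := by
  refine ⟨T.bus G0 (G1 0) - T.bus G0 (G0 0), ?_⟩
  rintro _ ⟨p, rfl⟩
  exact GStep_low h0 h1 h0.bus_sub p.1 p.2

theorem En_le {G0 G1 : ℝ → ℝ × ℝ} (h0 : T.Cl G0) (h1 : T.Cl G1) (s s' : ℝ) :
    T.En G0 G1 ≤ T.d (G0 s) (G1 s') - (s' - s) :=
  ciInf_le (En_bdd h0 h1) ((s, s') : ℝ × ℝ)

theorem GStep_En_ge {G0 G1 : ℝ → ℝ × ℝ} (h0 : T.Cl G0) (h1 : T.Cl G1) {B : ℝ × ℝ → ℝ}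
    (hB : T.Sub B) : B (G1 0) - B (G0 0) ≤ T.En G0 G1 :=
  le_ciInf fun p => GStep_low h0 h1 hB p.1 p.2

theorem En_ge {G0 G1 : ℝ → ℝ × ℝ} (h0 : T.Cl G0) (h1 : T.Cl G1) {B : ℝ × ℝ → ℝ} (hB : T.Sub B)
    (s s' : ℝ) : B (G1 s') - B (G0 s) - (s' - s) ≤ T.En G0 G1 := by
  have e1 := GStep_cal h0 hB s
  have e2 := GStep_cal h1 hB s'
  have e3 := GStep_En_ge h0 h1 hB
  linarith

theorem GStep_mono {G0 G1 : ℝ → ℝ × ℝ} (h0 : T.Cl G0) (h1 : T.Cl G1) {s s2 s' s2' : ℝ}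
    (hs : s ≤ s2) (hs' : s2' ≤ s') :
    T.d (G0 s) (G1 s') - (s' - s) ≤ T.d (G0 s2) (G1 s2') - (s2' - s2) := by
  have e1 := T.tri (G0 s) (G0 s2) (G1 s')
  have e2 := T.tri (G0 s2) (G1 s2') (G1 s')
  have e3 : T.d (G0 s) (G0 s2) = s2 - s := by
    rw [h0.1, abs_sub_comm, abs_of_nonneg (by linarith)]
  have e4 : T.d (G1 s2') (G1 s') = s' - s2' := by
    rw [h1.1, abs_sub_comm, abs_of_nonneg (by linarith)]
  linarith

theorem En_lim {G0 G1 : ℝ → ℝ × ℝ} (h0 : T.Cl G0) (h1 : T.Cl G1) {ε : ℝ} (hε : 0 < ε) :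
    ∃ N : ℝ, ∀ n, N ≤ n → T.d (G0 (-n)) (G1 n) - 2 * n < T.En G0 G1 + ε := by
  have hlt : (⨅ p : ℝ × ℝ, (T.d (G0 p.1) (G1 p.2) - (p.2 - p.1))) < T.En G0 G1 + ε := by
    have : T.En G0 G1 = ⨅ p : ℝ × ℝ, (T.d (G0 p.1) (G1 p.2) - (p.2 - p.1)) := rfl
    linarith
  obtain ⟨p, hp⟩ := exists_lt_of_ciInf_lt hlt
  refine ⟨max (-p.1) p.2, fun n hn => ?_⟩
  have e1 := (le_max_left (-p.1) p.2).trans hn
  have e2 := (le_max_right (-p.1) p.2).trans hn
  have e3 := GStep_mono h0 h1 (s := -n) (s2 := p.1) (s' := n) (s2' := p.2) (by linarith) e2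
  linarith

/-- a minimal segment from `G0` to `G1` stays between them -/
theorem GStep_between {G0 G1 : ℝ → ℝ × ℝ} (h0 : T.Cl G0) (h1 : T.Cl G1) (hlt : Lt G0 G1) {C0 : ℝ}
    (b0 : ∀ t, |(G0 t).2| ≤ C0) (b1 : ∀ t, |(G1 t).2| ≤ C0) {γ : ℝ → ℝ × ℝ} {L u v : ℝ}
    (hγ0 : γ 0 = G0 u) (hγL : γ L = G1 v) (hγ : IsoOn T.d γ (Icc 0 L)) {r : ℝ} (hr : r ∈ Icc 0 L) :
    |(γ r).2| ≤ C0 := by
  have hL : (0 : ℝ) ≤ L := hr.1.trans hr.2
  have hd := hlt.disjoint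
  have hcont : ContinuousOn γ (Icc 0 L) := by
    have hK : 0 ≤ T.m⁻¹ := inv_nonneg.2 T.m_pos.le
    have h3 : LipschitzOnWith ⟨T.m⁻¹, hK⟩ γ (Icc 0 L) := by
      refine LipschitzOnWith.of_dist_le_mul fun s hs t ht => ?_
      rw [dist_eq_norm, Real.dist_eq]
      exact T.lip_of (hγ s hs t ht).le
    exact h3.continuousOn
  rcases eq_or_lt_of_le hr.1 with hr0 | hr0
  · rw [← hr0, hγ0]
    exact b0 u
  rcases eq_or_lt_of_le hr.2 with hrL | hrL
  · rw [hrL, hγL]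
    exact b1 v
  -- above `G0`
  have hup : Up (range G0) (γ r) := by
    refine Up.of_joinedIn (joinedIn_of_curve hr.2 (hcont.mono (Icc_subset_Icc_left hr.1)) ?_)
      (y := γ L) (by rw [hγL]; exact hlt.1 v)
    intro t ht hmem
    have h3 := h0.hit hγ (left_mem_Icc.2 hL) ⟨hr.1.trans ht.1, ht.2⟩ (hr0.trans_le ht.1)
      (by rw [hγ0]; exact mem_range_self u) hmem L (right_mem_Icc.2 hL)
    rw [hγL] at h3
    exact disjoint_left.1 hd h3 (mem_range_self v)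
  have hlo : Lo (range G1) (γ r) := by
    refine Lo.of_joinedIn (joinedIn_of_curve hr.1 (hcont.mono (Icc_subset_Icc_right hr.2)) ?_).symm
      (y := γ 0) (by rw [hγ0]; exact hlt.2 u)
    intro t ht hmem
    have h3 := h1.hit hγ ⟨ht.1, ht.2.trans hr.2⟩ (right_mem_Icc.2 hL) (ht.2.trans_lt hrL)
      hmem (by rw [hγL]; exact mem_range_self v) 0 (left_mem_Icc.2 hL)
    rw [hγ0] at h3
    exact disjoint_left.1 hd (mem_range_self u) h3
  rw [abs_le]
  constructor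
  · by_contra hcon
    rw [not_le] at hcon
    refine h0.isLine.not_lo_up (lo_far ?_) hup
    rintro _ ⟨t, rfl⟩
    exact hcon.trans_le (abs_le.1 (b0 t)).1
  · by_contra hcon
    rw [not_le] at hcon
    refine h1.isLine.not_lo_up hlo (up_far ?_)
    rintro _ ⟨t, rfl⟩
    exact (abs_le.1 (b1 t)).2.trans_lt hcon

/-- the relative height of `G1` over `G0` is the same for all `B` -/
theorem GStep_E {G0 G1 : ℝ → ℝ × ℝ} (h0 : T.Cl G0) (h1 : T.Cl G1)
    (hk : T.En G0 G1 + T.En G1 G0 ≤ 0) {B : ℝ × ℝ → ℝ} (hB : T.Sub B) :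
    B (G1 0) = B (G0 0) + T.En G0 G1 := by
  have e1 := GStep_En_ge h0 h1 hB
  have e2 := GStep_En_ge h1 h0 hB
  linarith

/-- the approximating line -/
theorem GStep_approx {G0 G1 : ℝ → ℝ × ℝ} (h0 : T.Cl G0) (h1 : T.Cl G1) (hlt : Lt G0 G1)
    (hk : T.En G0 G1 + T.En G1 G0 ≤ 0) {C0 : ℝ}
    (b0 : ∀ t, |(G0 t).2| ≤ C0) (b1 : ∀ t, |(G1 t).2| ≤ C0) {ε : ℝ} (hε : 0 < ε) :
    ∃ (A : ℝ → ℝ × ℝ) (R : ℝ), (∀ s t, T.d (A s) (A t) ≤ |s - t|) ∧ (∀ t, |(A t).2| ≤ C0) ∧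
      (∀ B, T.Sub B → ∀ t, t + B (G0 0) - ε ≤ B (A t) ∧ B (A t) ≤ t + B (G0 0)) ∧
      (∀ t ≤ -R, A t ∈ range G0) ∧ ∀ t, R ≤ t → A t ∈ range G1 := by
  obtain ⟨n, hn⟩ := En_lim h0 h1 hε
  replace hn := hn n le_rfl
  set L : ℝ := T.d (G0 (-n)) (G1 n) with hL
  have hL0 : 0 ≤ L := T.d_nonneg _ _
  obtain ⟨γ, hγ0, hγL, hγ⟩ := T.geo (G0 (-n)) (G1 n)
  rw [← hL] at hγL hγ
  have hclamp : ∀ t : ℝ, max 0 (min t L) ∈ Icc 0 L := fun t =>
    ⟨le_max_left _ _, max_le hL0 (min_le_right _ _)⟩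
  have hclamp2 : ∀ s t : ℝ, |max 0 (min s L) - max 0 (min t L)| ≤ |s - t| := by
    intro s t
    have e1 : |max (min s L) 0 - max (min t L) 0| ≤ |min s L - min t L| :=
      abs_max_sub_max_le_abs _ _ _
    have e2 : |min s L - min t L| ≤ max |s - t| |L - L| := abs_min_sub_min_le_max _ _ _ _
    rw [sub_self, abs_zero, max_eq_left (abs_nonneg _)] at e2
    rw [max_comm 0, max_comm 0]
    exact e1.trans e2
  have hLpos : 0 < L := by
    rcases eq_or_lt_of_le hL0 with h | h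
    · exfalso
      have h3 : G0 (-n) = G1 n := T.eq_of_d (by rw [← hL, ← h])
      exact disjoint_left.1 hlt.disjoint (mem_range_self (-n)) (by rw [h3]; exact mem_range_self n)
    · exact h
  let A1 : ℝ → ℝ × ℝ := fun t => if t ≤ -n then G0 t else γ (max 0 (min (t + n) L))
  have hA1 : ∀ s t, T.d (A1 s) (A1 t) ≤ |s - t| := by
    intro s t
    refine T.paste (P := G0) (Q := fun t => γ (max 0 (min (t + n) L))) (c := -n)
      (fun s _ t _ => (h0.1 s t).le) (fun s _ t _ => ?_) ?_ s t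
    · rw [hγ _ (hclamp _) _ (hclamp _)]
      refine (hclamp2 _ _).trans ?_
      rw [add_sub_add_right_eq_sub]
    · simp only [neg_add_cancel]
      rw [min_eq_left hL0, max_self, hγ0]
  let A : ℝ → ℝ × ℝ := fun t => if t ≤ -n + L then A1 t else G1 (t - (L - 2 * n))
  have hA : ∀ s t, T.d (A s) (A t) ≤ |s - t| := by
    intro s t
    refine T.paste (P := A1) (Q := fun t => G1 (t - (L - 2 * n))) (c := -n + L)
      (fun s _ t _ => hA1 s t) (fun s _ t _ => ?_) ?_ s t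
    · rw [h1.1]
      rw [sub_sub_sub_cancel_right]
    · have h3 : ¬ (-n + L ≤ -n) := by linarith
      show (if -n + L ≤ -n then G0 (-n + L) else γ (max 0 (min (-n + L + n) L))) =
        G1 (-n + L - (L - 2 * n))
      rw [if_neg h3]
      have h4 : -n + L + n = L := by ring
      have h5 : -n + L - (L - 2 * n) = n := by ring
      rw [h4, h5, min_self, max_eq_right hL0, hγL]
  have hAl : ∀ t ≤ -n, A t = G0 t := by
    intro t ht
    show (if t ≤ -n + L then A1 t else G1 (t - (L - 2 * n))) = G0 t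
    rw [if_pos (by linarith)]
    show (if t ≤ -n then G0 t else γ (max 0 (min (t + n) L))) = G0 t
    rw [if_pos ht]
  have hAr : ∀ t, -n + L < t → A t = G1 (t - (L - 2 * n)) := by
    intro t ht
    show (if t ≤ -n + L then A1 t else G1 (t - (L - 2 * n))) = G1 (t - (L - 2 * n))
    rw [if_neg (by linarith)]
  have hAm : ∀ t, -n < t → t ≤ -n + L → A t = γ (t + n) := by
    intro t ht ht'
    show (if t ≤ -n + L then A1 t else G1 (t - (L - 2 * n))) = γ (t + n)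
    rw [if_pos ht']
    show (if t ≤ -n then G0 t else γ (max 0 (min (t + n) L))) = γ (t + n)
    rw [if_neg (by linarith), min_eq_left (by linarith), max_eq_right (by linarith)]
  refine ⟨A, max n (-n + L + 1), hA, ?_, ?_, ?_, ?_⟩
  · intro t
    rcases le_or_gt t (-n) with ht | ht
    · rw [hAl t ht]
      exact b0 t
    rcases le_or_gt t (-n + L) with ht' | ht'
    · rw [hAm t ht ht']
      exact GStep_between h0 h1 hlt b0 b1 hγ0 hγL hγ ⟨by linarith, by linarith⟩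
    · rw [hAr t ht']
      exact b1 _
  · intro B hB t
    constructor
    · have e1 := hAr (max t (-n + L + 1)) (lt_of_lt_of_le (by linarith) (le_max_right _ _))
      have e2 := hB.1 (A t) (A (max t (-n + L + 1)))
      have e3 := hA t (max t (-n + L + 1))
      have e4 : |t - max t (-n + L + 1)| = max t (-n + L + 1) - t := by
        rw [abs_sub_comm, abs_of_nonneg (sub_nonneg.2 (le_max_left _ _))]
      have e5 := GStep_cal h1 hB (max t (-n + L + 1) - (L - 2 * n))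
      rw [← e1] at e5
      have e6 := GStep_E h0 h1 hk hB
      linarith
    · have e1 := hAl (min t (-n)) (min_le_right _ _)
      have e2 := hB.1 (A (min t (-n))) (A t)
      have e3 := hA (min t (-n)) t
      have e4 : |min t (-n) - t| = t - min t (-n) := by
        rw [abs_sub_comm, abs_of_nonneg (sub_nonneg.2 (min_le_left _ _))]
      have e5 := GStep_cal h0 hB (min t (-n))
      rw [← e1] at e5
      linarith
  · intro t ht
    have e1 : n ≤ max n (-n + L + 1) := le_max_left _ _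
    rw [hAl t (by linarith)]
    exact mem_range_self _
  · intro t ht
    have e1 : -n + L + 1 ≤ max n (-n + L + 1) := le_max_right _ _
    rw [hAr t (by linarith)]
    exact mem_range_self _

theorem GStep_continuous {P : ℝ → ℝ × ℝ} (h : ∀ s t, T.d (P s) (P t) ≤ |s - t|) :
    Continuous P := by
  have hK : 0 ≤ T.m⁻¹ := inv_nonneg.2 T.m_pos.le
  have h3 : LipschitzWith ⟨T.m⁻¹, hK⟩ P := by
    refine LipschitzWith.of_dist_le_mul fun s t => ?_
    rw [dist_eq_norm, Real.dist_eq]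
    exact T.lip_of (h s t)
  exact h3.continuous

/-- uniform constants of the approximating lines -/
theorem GStep_ul {B : ℝ × ℝ → ℝ} (hB : T.Sub B) (β : ℝ) {C0 : ℝ} (hC0 : 0 ≤ C0) :
    ∃ C, C0 ≤ C ∧ ∀ A : ℝ → ℝ × ℝ, (∀ s t, T.d (A s) (A t) ≤ |s - t|) → (∀ t, |(A t).2| ≤ C0) →
      (∀ t, t + β - 1 ≤ B (A t) ∧ B (A t) ≤ t + β) → UL (1 / T.l) C A := by
  have hl := T.l_pos
  set D : ℝ := T.M * (C0 + 1) + T.l + |B 0| + |β| + 1 with hD
  have hD0 : 0 ≤ D := by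
    have := T.M_pos
    positivity
  refine ⟨C0 + D / T.l, by have := div_nonneg hD0 hl.le; linarith, fun A hA hA2 hAB =>
    ⟨GStep_continuous hA, fun t => ⟨?_, ?_⟩⟩⟩
  · have e1 : |B (A t) - B 0 - T.l * (A t).1| ≤ T.M * (|(A t).2| + 1) + T.l :=
      Sub.growth T hB (A t)
    have e2 := hAB t
    have e3 : T.M * (|(A t).2| + 1) ≤ T.M * (C0 + 1) :=
      mul_le_mul_of_nonneg_left (by linarith [hA2 t]) T.M_pos.le
    have e4 := abs_le.1 e1
    have e5 := neg_abs_le (B 0)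
    have e6 := le_abs_self (B 0)
    have e7 := neg_abs_le β
    have e8 := le_abs_self β
    have e9 : |T.l * (A t).1 - t| ≤ D := by
      rw [abs_le]
      constructor <;> linarith [e4.1, e4.2, e2.1, e2.2]
    have e10 : (A t).1 - 1 / T.l * t = (T.l * (A t).1 - t) / T.l := by
      field_simp
    rw [e10, abs_div, abs_of_pos hl]
    have e11 := (div_le_div_iff_of_pos_right hl).2 e9
    linarith
  · have := div_nonneg hD0 hl.le
    linarith [hA2 t]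

theorem GStep_per {G : ℝ → ℝ × ℝ} (h : T.Cl G) (k : ℤ) (t : ℝ) :
    G (t + k * T.l) = G t + ((k : ℝ), 0) := by
  induction k using Int.induction_on with
  | zero => simp
  | succ i ih =>
    have e1 := h.2 (t + (i : ℝ) * T.l)
    have e2 : t + ((i + 1 : ℤ) : ℝ) * T.l = t + (i : ℝ) * T.l + T.l := by push_cast; ring
    rw [e2, e1]
    push_cast at ih ⊢
    rw [ih]
    ext <;> simp [add_assoc]
  | pred i ih =>
    have e1 := h.2 (t + ((-i - 1 : ℤ) : ℝ) * T.l)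
    have e2 : t + ((-i - 1 : ℤ) : ℝ) * T.l + T.l = t + ((-i : ℤ) : ℝ) * T.l := by push_cast; ring
    rw [e2, ih] at e1
    have e3 : G (t + ((-i - 1 : ℤ) : ℝ) * T.l) = G t + (((-i : ℤ) : ℝ), 0) - (1, 0) := by
      rw [e1, add_sub_cancel_right]
    rw [e3]
    ext <;> simp
    ring

/-- transfer of a path from the complement of `G` to the complement of `A` -/
theorem GStep_joined {G : ℝ → ℝ × ℝ} (h : T.Cl G) {x u : ℝ × ℝ} (hj : JoinedIn (range G)ᶜ x u) :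
    ∃ ρ : ℝ, ∀ (A : ℝ → ℝ × ℝ) (k : ℤ), (∀ t, |(A t).1 - k| ≤ ρ → A t ∈ range G) →
      JoinedIn (range A)ᶜ (x + ((k : ℝ), 0)) (u + ((k : ℝ), 0)) := by
  obtain ⟨γ, hγ⟩ := hj
  obtain ⟨R, hR⟩ : ∃ R : ℝ, ∀ t : unitInterval, |(γ t).1| ≤ R := by
    have hc : Continuous fun t : unitInterval => |(γ t).1| :=
      (continuous_fst.comp γ.continuous).abs
    obtain ⟨R, hR⟩ := (isCompact_univ (X := unitInterval)).bddAbove_image hc.continuousOn
    exact ⟨R, fun t => hR ⟨t, mem_univ _, rfl⟩⟩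
  refine ⟨R, fun A k hA => ?_⟩
  have h2 : JoinedIn ((range G)ᶜ ∩ {z : ℝ × ℝ | |z.1| ≤ R}) x u := ⟨γ, fun t => ⟨hγ t, hR t⟩⟩
  refine GTopo_joinedIn_map (fun z => z + ((k : ℝ), 0)) (by fun_prop) ?_ h2
  rintro z ⟨hz, hz2⟩ ⟨t, ht⟩
  apply hz
  have h3 : |(A t).1 - k| ≤ R := by
    rw [ht]
    show |z.1 + (k : ℝ) - k| ≤ R
    rw [add_sub_cancel_right]
    exact hz2
  obtain ⟨s, hs⟩ := hA t h3
  have h5 := GStep_per h k (s - k * T.l)
  rw [sub_add_cancel, hs, ht] at h5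
  exact ⟨s - k * T.l, (add_right_cancel h5).symm⟩

theorem GStep_far_lo {G : ℝ → ℝ × ℝ} (h : T.Cl G) {p : ℝ × ℝ} (hp : Lo (range G) p)
    {A : ℝ → ℝ × ℝ} {C R : ℝ} (hA : UL (1 / T.l) C A) (hR : ∀ t, R ≤ t → A t ∈ range G) :
    ∃ K : ℤ, ∀ k : ℤ, K ≤ k → Lo (range A) (p + ((k : ℝ), 0)) := by
  have hl := T.l_pos
  obtain ⟨u, hu1, hu2, hj⟩ := GTopo_lo_low hp (-C)
  obtain ⟨ρ, hρ⟩ := GStep_joined h hj
  refine ⟨⌈ρ + C + 1 / T.l * R⌉, fun k hk => ⟨u + ((k : ℝ), 0), ?_, hρ A k fun t ht => hR t ?_⟩⟩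
  · rintro _ ⟨t, rfl⟩
    have e1 := (abs_le.1 (hA.2 t).2).1
    show u.2 + 0 < (A t).2
    linarith
  · have e1 : ρ + C + 1 / T.l * R ≤ k := (Int.le_ceil _).trans (by exact_mod_cast hk)
    have e2 := (abs_le.1 ht).1
    have e3 := (abs_le.1 (hA.2 t).1).2
    have e4 : 1 / T.l * R ≤ 1 / T.l * t := by linarith
    exact le_of_mul_le_mul_left e4 (by positivity)

theorem GStep_far_up {G : ℝ → ℝ × ℝ} (h : T.Cl G) {p : ℝ × ℝ} (hp : Up (range G) p)
    {A : ℝ → ℝ × ℝ} {C R : ℝ} (hA : UL (1 / T.l) C A) (hR : ∀ t ≤ -R, A t ∈ range G) :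
    ∃ k : ℤ, Up (range A) (p + ((k : ℝ), 0)) := by
  have hl := T.l_pos
  obtain ⟨u, hu1, hu2, hj⟩ := GTopo_up_high hp C
  obtain ⟨ρ, hρ⟩ := GStep_joined h hj
  refine ⟨-⌈ρ + C + 1 / T.l * R⌉, u + (((-⌈ρ + C + 1 / T.l * R⌉ : ℤ) : ℝ), 0), ?_,
    hρ A _ fun t ht => hR t ?_⟩
  · rintro _ ⟨t, rfl⟩
    have e1 := (abs_le.1 (hA.2 t).2).2
    show (A t).2 < u.2 + 0
    linarith
  · have e1 : ρ + C + 1 / T.l * R ≤ (⌈ρ + C + 1 / T.l * R⌉ : ℝ) := Int.le_ceil _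
    have e2 := (abs_le.1 ht).2
    rw [Int.cast_neg] at e2
    have e3 := (abs_le.1 (hA.2 t).1).1
    have e4 : 1 / T.l * t ≤ 1 / T.l * (-R) := by linarith
    exact le_of_mul_le_mul_left e4 (by positivity)

/-- the approximating line, translated -/
theorem GStep_shifted {G0 G1 : ℝ → ℝ × ℝ} (h0 : T.Cl G0) (h1 : T.Cl G1) {p : ℝ × ℝ}
    (hp0 : Up (range G0) p) (hp1 : Lo (range G1) p) {A : ℝ → ℝ × ℝ} {C R ε : ℝ}
    (hA : ∀ s t, T.d (A s) (A t) ≤ |s - t|) (hUL : UL (1 / T.l) C A)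
    (hAB : ∀ B, T.Sub B → ∀ t, t + B (G0 0) - ε ≤ B (A t) ∧ B (A t) ≤ t + B (G0 0))
    (hl : ∀ t ≤ -R, A t ∈ range G0) (hr : ∀ t, R ≤ t → A t ∈ range G1) :
    ∃ P : ℝ → ℝ × ℝ, (∀ s t, T.d (P s) (P t) ≤ |s - t|) ∧ UL (1 / T.l) C P ∧
      (∀ B, T.Sub B → ∀ t, t + B (G0 0) - ε ≤ B (P t) ∧ B (P t) ≤ t + B (G0 0)) ∧
      ¬ Lo (range P) p ∧ Lo (range P) (p + (1, 0)) := by
  have hlpos := T.l_pos
  have hline : IsLine A := ⟨1 / T.l, C, by positivity, hUL⟩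
  obtain ⟨K, hK⟩ := GStep_far_lo h1 hp1 hUL hr
  obtain ⟨k0, hk0⟩ := GStep_far_up h0 hp0 hUL hl
  obtain ⟨k, hk, hk2⟩ := Int.exists_greatest_of_bdd
    (P := fun k : ℤ => ¬ Lo (range A) (p + ((k : ℝ), 0)))
    ⟨K, fun z hz => by
      by_contra hcon
      exact hz (hK z (not_le.1 hcon).le)⟩
    ⟨k0, fun hlo => hline.not_lo_up hlo hk0⟩
  have hk3 : Lo (range A) (p + (((k + 1 : ℤ) : ℝ), 0)) := by
    by_contra hcon
    have := hk2 (k + 1) hcon
    omega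
  have hrange : range (fun t => A (t + k * T.l) + (((-k : ℤ) : ℝ), (0 : ℝ))) =
      (fun z => z + (((-k : ℤ) : ℝ), (0 : ℝ))) '' range A := by
    ext z
    constructor
    · rintro ⟨t, rfl⟩
      exact ⟨A (t + k * T.l), mem_range_self _, rfl⟩
    · rintro ⟨_, ⟨t, rfl⟩, rfl⟩
      refine ⟨t - k * T.l, ?_⟩
      simp only [sub_add_cancel]
  refine ⟨fun t => A (t + k * T.l) + (((-k : ℤ) : ℝ), (0 : ℝ)), ?_, ⟨?_, fun t => ⟨?_, ?_⟩⟩, ?_, ?_, ?_⟩
  · intro s t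
    have e1 := T.per (-k) 0 (A (s + k * T.l)) (A (t + k * T.l))
    rw [Int.cast_zero] at e1
    show T.d (A (s + k * T.l) + (((-k : ℤ) : ℝ), (0 : ℝ)))
      (A (t + k * T.l) + (((-k : ℤ) : ℝ), (0 : ℝ))) ≤ |s - t|
    rw [e1]
    refine (hA _ _).trans ?_
    rw [add_sub_add_right_eq_sub]
  · have := hUL.1
    fun_prop
  · have e1 := (hUL.2 (t + k * T.l)).1
    show |(A (t + k * T.l)).1 + ((-k : ℤ) : ℝ) - 1 / T.l * t| ≤ C
    have e2 : (A (t + k * T.l)).1 + ((-k : ℤ) : ℝ) - 1 / T.l * t =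
        (A (t + k * T.l)).1 - 1 / T.l * (t + k * T.l) := by
      push_cast
      field_simp
      ring
    rw [e2]
    exact e1
  · have e1 := (hUL.2 (t + k * T.l)).2
    show |(A (t + k * T.l)).2 + 0| ≤ C
    rw [add_zero]
    exact e1
  · intro B hB t
    have e1 := hAB B hB (t + k * T.l)
    have e2 : B (A (t + k * T.l) + (((-k : ℤ) : ℝ), (0 : ℝ))) =
        B (A (t + k * T.l)) + ((-k : ℤ) : ℝ) * T.l := Sub.int T hB (-k) (A (t + k * T.l))
    show t + B (G0 0) - ε ≤ B (A (t + k * T.l) + (((-k : ℤ) : ℝ), (0 : ℝ))) ∧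
      B (A (t + k * T.l) + (((-k : ℤ) : ℝ), (0 : ℝ))) ≤ t + B (G0 0)
    rw [e2]
    push_cast
    constructor <;> linarith [e1.1, e1.2]
  · rw [hrange]
    have e1 : p = p + ((k : ℝ), 0) + (((-k : ℤ) : ℝ), (0 : ℝ)) := by
      ext <;> simp
    rw [e1, lo_shift]
    exact hk
  · rw [hrange]
    have e1 : p + (1, 0) = p + (((k + 1 : ℤ) : ℝ), 0) + (((-k : ℤ) : ℝ), (0 : ℝ)) := by
      ext
      · simp only [Prod.fst_add]
        push_cast
        ring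
      · simp
    rw [e1, lo_shift]
    exact hk3

/-- the half step -/
theorem half_step {G0 G1 : ℝ → ℝ × ℝ} (h0 : T.Cl G0) (h1 : T.Cl G1) (hlt : Lt G0 G1)
    (hk : T.En G0 G1 + T.En G1 G0 ≤ 0) {p : ℝ × ℝ} (hp0 : Up (range G0) p)
    (hp1 : Lo (range G1) p) :
    ∃ P, T.All P ∧ ¬ Lo (range P) p ∧ ¬ Up (range P) (p + (1, 0)) := by
  have hlpos := T.l_pos
  have ha : 0 < 1 / T.l := by positivity
  obtain ⟨c0, b0⟩ := GTopo_snd_bound h0.isLine
  obtain ⟨c1, b1⟩ := GTopo_snd_bound h1.isLine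
  have b0' : ∀ t, |(G0 t).2| ≤ max c0 c1 := fun t =>
    (b0 _ (mem_range_self t)).trans (le_max_left _ _)
  have b1' : ∀ t, |(G1 t).2| ≤ max c0 c1 := fun t =>
    (b1 _ (mem_range_self t)).trans (le_max_right _ _)
  have hC0 : 0 ≤ max c0 c1 := (abs_nonneg _).trans (b0' 0)
  obtain ⟨C, hCC, hC⟩ := GStep_ul (T := T) h0.bus_sub (T.bus G0 (G0 0)) hC0
  have key : ∀ n : ℕ, ∃ P : ℝ → ℝ × ℝ, (∀ s t, T.d (P s) (P t) ≤ |s - t|) ∧ UL (1 / T.l) C P ∧
      (∀ B, T.Sub B → ∀ t, t + B (G0 0) - 1 / ((n : ℝ) + 1) ≤ B (P t) ∧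
        B (P t) ≤ t + B (G0 0)) ∧
      ¬ Lo (range P) p ∧ Lo (range P) (p + (1, 0)) := by
    intro n
    have hε : 0 < 1 / ((n : ℝ) + 1) := by positivity
    have hε1 : 1 / ((n : ℝ) + 1) ≤ 1 := by
      rw [div_le_one (by positivity)]
      have : (0 : ℝ) ≤ n := Nat.cast_nonneg n
      linarith
    obtain ⟨A, R, hA, hA2, hAB, hAl, hAr⟩ := GStep_approx h0 h1 hlt hk b0' b1' hε
    refine GStep_shifted h0 h1 hp0 hp1 hA (hC A hA hA2 fun t => ?_) hAB hAl hAr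
    have e1 := hAB _ h0.bus_sub t
    constructor <;> linarith [e1.1, e1.2]
  choose P hP1 hP2 hP3 hP4 hP5 using key
  have hP0 : ∀ n, ‖P n 0‖ ≤ C := by
    intro n
    have e1 := (hP2 n).2 0
    rw [mul_zero, sub_zero] at e1
    rw [Prod.norm_def, Real.norm_eq_abs, Real.norm_eq_abs]
    exact max_le e1.1 e1.2
  obtain ⟨φ, hφ, Q, hQ, hQd⟩ := T.exists_lim hP1 hP0
  have hlip : ∀ n s t, ‖P (φ n) s - P (φ n) t‖ ≤ T.m⁻¹ * |s - t| := fun n s t =>
    T.lip_of (hP1 (φ n) s t)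
  have hB : ∀ B, T.Sub B → ∀ t, B (Q t) = t + B (G0 0) := by
    intro B hB t
    have hc := T.continuous_of hB.1
    have e1 : Tendsto (fun n => B (P (φ n) t)) atTop (𝓝 (B (Q t))) := (hc.tendsto _).comp (hQ t)
    have e2 : Tendsto (fun n : ℕ => t + B (G0 0) - 1 / (((φ n : ℕ) : ℝ) + 1)) atTop
        (𝓝 (t + B (G0 0) - 0)) :=
      tendsto_const_nhds.sub (tendsto_one_div_add_atTop_nhds_zero_nat.comp hφ.tendsto_atTop)
    rw [sub_zero] at e2
    refine le_antisymm (le_of_tendsto e1 (Eventually.of_forall fun n => (hP3 (φ n) B hB t).2)) ?_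
    exact le_of_tendsto_of_tendsto' e2 e1 fun n => (hP3 (φ n) B hB t).1
  refine ⟨Q, fun B hB' => ⟨fun t _ u _ => hQd t u, fun t _ u _ => ?_⟩, ?_, ?_⟩
  · rw [hB B hB' t, hB B hB' u]
    ring
  · intro hlo
    obtain ⟨n, hn⟩ := (lo_stable ha (fun n => hP2 (φ n)) hlip hQ hlo).exists
    exact hP4 (φ n) hn
  · intro hup
    obtain ⟨n, hn⟩ := (up_stable ha (fun n => hP2 (φ n)) hlip hQ hup).exists
    exact IsLine.not_lo_up ⟨1 / T.l, C, ha, hP2 (φ n)⟩ (hP5 (φ n)) hn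

end Pl

end Pool.Agent.EscG
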