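import Pool.Agent.EscG.CDefs
import Pool.Agent.EscG.A1
import Pool.Agent.EscG.A2b
import Pool.Agent.EscG.A5a
import Pool.Agent.EscG.A6
import Pool.Agent.EscG.H1
import Pool.Agent.EscG.H3

/-!
Project EscG, module H4: escape (helper86).
-/

noncomputable section

namespace EscG

open MeasureTheory Set Filter Topology Esc EscF
open scoped ContDiff

variable {ι : Type} [Fintype ι] {d : ℕ} {E : Type*} [NormedAddCommGroup E] [InnerProductSpace ℝ E]
  [FiniteDimensional ℝ E] {D : GD ι d E} {p : GP} {m M Mf : ℝ} {ll l : E → E → ℝ → ℝ}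
  {f f' : E → ℝ → ℝ}

namespace H4

theorem exists_idx {τ : ℕ → ℝ} (hunb : ∀ t, ∃ j, t < τ j) {t : ℝ} (ht : τ 0 ≤ t) :
    ∃ j, τ j ≤ t ∧ t < τ (j + 1) := by
  classical
  obtain ⟨j, hj⟩ := hunb t
  have h1 := Nat.find_spec (⟨j, hj⟩ : ∃ j, t < τ j)
  have h2 : Nat.find (⟨j, hj⟩ : ∃ j, t < τ j) ≠ 0 := by
    intro h0
    rw [h0] at h1
    linarith
  obtain ⟨i, hi⟩ := Nat.exists_eq_succ_of_ne_zero h2
  refine ⟨i, ?_, ?_⟩
  · by_contra hlt
    rw [not_le] at hlt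
    have := Nat.find_min' (⟨j, hj⟩ : ∃ j, t < τ j) hlt
    omega
  · rw [hi] at h1
    exact h1

theorem lower {τ : ℕ → ℝ} (hτ : ∀ j, 1 ≤ τ (j + 1) - τ j) (j : ℕ) : τ 0 + j ≤ τ j := by
  induction j with
  | zero => simp
  | succ j ih =>
    have := hτ j
    push_cast
    linarith

theorem mono_le {τ : ℕ → ℝ} (hτ : ∀ j, 1 ≤ τ (j + 1) - τ j) {i j : ℕ} (h : i ≤ j) : τ i ≤ τ j :=
  (strictMono_nat_of_lt_succ (fun j => by linarith [hτ j])).monotone h

/-- the displacement is large if the class is large -/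
theorem disp_big (h : D.Ok) (hl : TL D.β D.F D.mF D.MF m M ll) {s C t t' : ℝ} (hs : 1 ≤ s)
    (h1 : 1 ≤ t' - t) (h2 : t' - t ≤ 2) {z z' : E}
    (hc : kerl ll t t' z z' - s * (D.B z' - D.B z) + s ^ 2 / 2 * (t' - t) ≤ C * s) :
    s / 2 - |C| - 2 * M ≤ D.MF * ‖z' - z‖ := by
  have hb : -M * (t' - t) ≤ kerl ll t t' z z' := hl.cb.kerl_ge (by linarith) z z'
  have hB : |D.B z' - D.B z| ≤ D.MF * ‖z' - z‖ := Cal.lip h.fins h.cal z' z
  have hB' := (le_abs_self _).trans hB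
  have hM := hl.M_nonneg
  have h3 : s ^ 2 / 2 ≤ s ^ 2 / 2 * (t' - t) := by nlinarith [sq_nonneg s]
  have h4 : -(2 * M) ≤ -M * (t' - t) := by nlinarith
  have h5 : s * (D.B z' - D.B z) ≤ s * (D.MF * ‖z' - z‖) :=
    mul_le_mul_of_nonneg_left hB' (by linarith)
  have h6 : C * s ≤ |C| * s := mul_le_mul_of_nonneg_right (le_abs_self C) (by linarith)
  have h7 : 2 * M ≤ 2 * M * s := by nlinarith
  have h8 : s * (s / 2 - |C| - 2 * M) ≤ s * (D.MF * ‖z' - z‖) := by nlinarith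
  exact le_of_mul_le_mul_left h8 (by linarith)

end H4

open H4 in
theorem escapes_of_stages (h : D.Ok) (hp : p.Ok D) (hl : TL D.β D.F D.mF D.MF m M l) (Mf : ℝ) :
    ∃ q0 : ℕ, ∀ q1 : ℕ, q0 ≤ q1 → ∀ f, Pt D.β f → Good Mf f →
      (∀ q : ℕ, q1 ≤ q → D.Stage p (lf l f) q) → Escapes l f := by
  obtain ⟨s0, hs0, hseq⟩ := chn_seq h hp m (M + Mf)
  refine ⟨⌈s0⌉₊, fun q1 hq1 f hf hg hS => ?_⟩
  have hll : TL D.β D.F D.mF D.MF m (M + Mf) (lf l f) := hl.add hf hg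
  obtain ⟨s, r, T, z, y, hchn, hsn⟩ := exists_chn h hp hll q1 hS
  obtain ⟨τ, w, σ, C, hτ0, hτ, hmin, hσ, hcost⟩ :=
    hseq (lf l f) hll s r T z y hchn (fun n =>
      ((Nat.le_ceil s0).trans (Nat.cast_le.2 hq1)).trans (hsn n))
  obtain ⟨x, v, hx, hv, hel, -, -, c, C', hc, hsp⟩ :=
    orbit_of_sitewise hll one_pos τ hτ w hmin
  have hτ1 : ∀ j, 1 ≤ τ (j + 1) - τ j := fun j => (hτ j).1
  have hunb : ∀ t, ∃ j, t < τ j := by
    intro t
    obtain ⟨n, hn⟩ := exists_nat_gt (t - τ 0)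
    exact ⟨n, by linarith [lower hτ1 n]⟩
  have hMF : 0 < D.MF := h.fins.mF_pos.trans_le h.fins.mF_le
  refine ⟨x, v, fun t ht => hx t (hτ0.trans_lt ht), hv.mono (fun t ht => hτ0.trans (le_of_lt ht)),
    fun t ht => ?_, ?_⟩
  · have h1 := hel t (hτ0.trans_lt ht)
    have h2 : (fun t => gu (lf l f) (x t) (v t) t) = fun t => gu l (x t) (v t) t := by
      funext t
      exact gu_lf hl _ _ _
    rwa [h2] at h1
  · -- the speed tends to infinity
    rw [tendsto_atTop]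
    intro b
    set N := Real.sqrt (max 0 ((b ^ 2 + C') / c)) with hN
    obtain ⟨j0, hj0⟩ := eventually_atTop.1 (tendsto_atTop.1 hσ
      (max 1 (2 * (|C| + 2 * (M + Mf) + D.MF * N))))
    filter_upwards [eventually_ge_atTop (τ j0), eventually_ge_atTop (τ 0)] with t ht ht0
    obtain ⟨j, hj1, hj2⟩ := exists_idx hunb ht0
    have hj : j0 ≤ j := by
      by_contra hlt
      rw [not_le] at hlt
      have := mono_le hτ1 (Nat.succ_le_of_lt hlt)
      simp only [Nat.succ_eq_add_one] at this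
      linarith
    have hσj := hj0 j hj
    have hσ1 : 1 ≤ σ j := (le_max_left _ _).trans hσj
    have hσ2 : 2 * (|C| + 2 * (M + Mf) + D.MF * N) ≤ σ j := (le_max_right _ _).trans hσj
    have h1 := disp_big h hll hσ1 (hτ j).1 (hτ j).2 (hcost j)
    have h2 : N ≤ ‖w (j + 1) - w j‖ := by
      refine le_of_mul_le_mul_left ?_ hMF
      linarith
    have h3 : max 0 ((b ^ 2 + C') / c) ≤ ‖w (j + 1) - w j‖ ^ 2 := by
      rw [← Real.sq_sqrt (le_max_left 0 ((b ^ 2 + C') / c))]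
      exact pow_le_pow_left₀ (Real.sqrt_nonneg _) h2 2
    have h4 : b ^ 2 + C' ≤ c * ‖w (j + 1) - w j‖ ^ 2 := by
      have := (le_max_right 0 ((b ^ 2 + C') / c)).trans h3
      rw [div_le_iff₀ hc] at this
      linarith
    have h5 := hsp j t ⟨hj1, hj2.le⟩
    exact (le_abs_self b).trans (abs_le_of_sq_le_sq (by linarith) (norm_nonneg _))

end EscG
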