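import Pool.Agent.EscG.FnDefs
import Pool.Agent.EscG.FDefs

set_option autoImplicit false

/-!
# EscG geometry, project H: Riemannian metrics on a lattice plane, definitions
-/

noncomputable section

namespace Pool.Agent.EscG

open MeasureTheory Set Filter Topology Esc EscF _root_.EscG
open scoped ContDiff

variable {E : Type*} [NormedAddCommGroup E] [InnerProductSpace ℝ E]

/-- a Riemannian metric of class `C^k`, periodic under the lattice with basis `β` -/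
structure IsRiem (β : Module.Basis (Fin 2) ℝ E) (k : WithTop ℕ∞) (g : E → E →L[ℝ] E →L[ℝ] ℝ) : Prop where
  smooth : ContDiff ℝ k g
  symm : ∀ x v w, g x v w = g x w v
  pos : ∀ x v, v ≠ 0 → 0 < g x v v
  per : ∀ i x, g (x + β i) = g x

/-- the norm of the metric -/
def rn (g : E → E →L[ℝ] E →L[ℝ] ℝ) (x v : E) : ℝ := √(g x v v)

/-- wedge product of the covectors `g x v` and `g x w`, in the basis `β` -/
def wr (β : Module.Basis (Fin 2) ℝ E) (g : E → E →L[ℝ] E →L[ℝ] ℝ) (x v w : E) : ℝ :=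
  g x v (β 0) * g x w (β 1) - g x v (β 1) * g x w (β 0)

/-- area density of the metric in the basis `β` -/
def dens (β : Module.Basis (Fin 2) ℝ E) (g : E → E →L[ℝ] E →L[ℝ] ℝ) (x : E) : ℝ :=
  √(g x (β 0) (β 0) * g x (β 1) (β 1) - g x (β 0) (β 1) ^ 2)

/-- a closed one-form `dU = g (W, ·)` of length one, with periods `a` -/
structure CF (β : Module.Basis (Fin 2) ℝ E) (g : E → E →L[ℝ] E →L[ℝ] ℝ) (K : ℝ) (a : ℝ × ℝ)
    (U : E → ℝ) (W : E → E) : Prop where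
  U0 : ∀ x, U (x + β 0) = U x + a.1
  U1 : ∀ x, U (x + β 1) = U x + a.2
  quad : ∀ x y, |U y - U x - g x (W x) (y - x)| ≤ K * ‖y - x‖ ^ 2
  unit : ∀ x, g x (W x) (W x) = 1

/-- data of a Riemannian metric foliated by closed minimal geodesics in every primitive class -/
structure FolR (β : Module.Basis (Fin 2) ℝ E) (g : E → E →L[ℝ] E →L[ℝ] ℝ) (K : ℝ) (σ : ℤ × ℤ → ℝ)
    (U : ℤ × ℤ → E → ℝ) (c : ℤ × ℤ → ℝ × ℝ) (W : ℤ × ℤ → E → E) : Prop where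
  riem : IsRiem β 2 g
  K_nonneg : 0 ≤ K
  cf : ∀ k, Prim k → CF β g K (c k) (U k) (W k)
  σ_pos : ∀ k, Prim k → 0 < σ k
  σ_neg : ∀ k, Prim k → σ (-k) = σ k
  σ_upp : ∃ C : ℝ, ∀ k, Prim k → σ k ≤ C * ‖vk β k‖
  cσ : ∀ k, Prim k → k.1 * (c k).1 + k.2 * (c k).2 = σ k
  cσ_le : ∀ k k', Prim k → Prim k' → k'.1 * (c k).1 + k'.2 * (c k).2 ≤ σ k'
  W_neg : ∀ k, Prim k → ∀ x, W (-k) x = -W k x
  c_neg : ∀ k, Prim k → c (-k) = -c k
  curve : ∀ k, Prim k → ∀ x, ∃ Γ : ℝ → E, Γ 0 = x ∧ (∀ t, Γ (t + σ k) = Γ t + vk β k) ∧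
    ∀ t, HasDerivAt Γ (W k (Γ t)) t
  trans : ∀ k k', Prim k → Prim k' → dt k k' ≠ 0 → ∀ x, W k x ≠ W k' x

/-- square root of a quadratic form with matrix `(e, f; f, h)`, `D² = e h - f²`, on covectors -/
def chol (e f D p0 p1 : ℝ) : ℂ := ⟨p0 / √e, (e * p1 - f * p0) / (√e * D)⟩

/-- a flat structure: `g x v w = Q (P x v) (P x w)`, `P` the derivative of `φ`, `φ` equivariant -/
structure FlatS (β : Module.Basis (Fin 2) ℝ E) (g : E → E →L[ℝ] E →L[ℝ] ℝ) (Q : E →L[ℝ] E →L[ℝ] ℝ)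
    (φ : E → E) (P : E → E →L[ℝ] E) : Prop where
  symm : ∀ v w, Q v w = Q w v
  pos : ∀ v, v ≠ 0 → 0 < Q v v
  per : ∀ i x, φ (x + β i) = φ x + β i
  quad : ∃ K : ℝ, ∀ x y, ‖φ y - φ x - P x (y - x)‖ ≤ K * ‖y - x‖ ^ 2
  lip : ∃ K : ℝ, ∀ x y, ‖P y - P x‖ ≤ K * ‖y - x‖
  iso : ∀ x v w, g x v w = Q (P x v) (P x w)

end Pool.Agent.EscG
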