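import Pool.Agent.EscG.Ht1

set_option autoImplicit false
set_option maxSynthPendingDepth 3

/-!
# EscG geometry, project H, module Ht1b: bootstrap of the regularity (helper63)

`P x` is injective (`iso`, positivity of `g x`: hypothesis `IsRiem`), so bijective. `T u v = fderiv P x u v` is determined by `FlatS.c2`: with
`Ψ x a = (Q a (P x (β i)))_i` (invertible, of class `C^j` if `P` is), `fderiv P x u v = (Ψ x)⁻¹ (i ↦ (..)/2)`, a smooth function of `(P x, fderiv g x)` (inverse of continuous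
linear maps: `contDiffAt_map_inverse`). So `P` of class `C^j`, `j ≤ k - 1`, implies `fderiv P` of class `C^j`, so `P` of class `C^(j+1)`. Induction from `j = 1`.
-/

noncomputable section

namespace Pool.Agent.EscG

open MeasureTheory Set Filter Topology
open scoped ContDiff

variable {E : Type*} [NormedAddCommGroup E] [InnerProductSpace ℝ E] [FiniteDimensional ℝ E]
  {β : Module.Basis (Fin 2) ℝ E} {g : E → E →L[ℝ] E →L[ℝ] ℝ} {Q : E →L[ℝ] E →L[ℝ] ℝ}
  {φ : E → E} {P : E → E →L[ℝ] E}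

/-- the map `a ↦ (Q a (A (β i)))_i` -/
def Ht1b_Psi (β : Module.Basis (Fin 2) ℝ E) (Q : E →L[ℝ] E →L[ℝ] ℝ) (A : E →L[ℝ] E) :
    E →L[ℝ] (Fin 2 → ℝ) :=
  ContinuousLinearMap.pi fun i => Q.flip (A (β i))

omit [FiniteDimensional ℝ E] in
theorem Ht1b_Psi_apply (β : Module.Basis (Fin 2) ℝ E) (Q : E →L[ℝ] E →L[ℝ] ℝ) (A : E →L[ℝ] E)
    (a : E) (i : Fin 2) : Ht1b_Psi β Q A a i = Q a (A (β i)) := rfl

omit [FiniteDimensional ℝ E] in
theorem Ht1b_inj (h : FlatS β g Q φ P) {k : WithTop ℕ∞} (hg : IsRiem β k g) (x : E) :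
    Function.Injective (P x) := by
  rw [injective_iff_map_eq_zero]
  intro v hv
  by_contra hne
  have h1 := hg.pos x v hne
  rw [h.iso, hv] at h1
  simp at h1

theorem Ht1b_equiv (h : FlatS β g Q φ P) {k : WithTop ℕ∞} (hg : IsRiem β k g) (x : E) :
    ∃ e : E ≃L[ℝ] (Fin 2 → ℝ), (e : E →L[ℝ] (Fin 2 → ℝ)) = Ht1b_Psi β Q (P x) := by
  have hs : Function.Surjective (P x) :=
    (LinearMap.injective_iff_surjective (f := (P x : E →ₗ[ℝ] E))).1 (Ht1b_inj h hg x)
  have hinj : Function.Injective (Ht1b_Psi β Q (P x) : E →ₗ[ℝ] (Fin 2 → ℝ)) := by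
    rw [injective_iff_map_eq_zero]
    intro a ha
    have h1 : ∀ i, Q a (P x (β i)) = 0 := fun i => congrFun ha i
    have h2 : ((Q a).comp (P x) : E →ₗ[ℝ] ℝ) = 0 := β.ext fun i => by
      simpa using h1 i
    obtain ⟨w, hw⟩ := hs a
    have h3 : Q a (P x w) = 0 := by
      have := LinearMap.congr_fun h2 w
      simpa using this
    rw [hw] at h3
    by_contra hne
    exact (h.pos a hne).ne' h3
  have hfr : Module.finrank ℝ E = Module.finrank ℝ (Fin 2 → ℝ) := by
    rw [Module.finrank_eq_card_basis β]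
    simp
  refine ⟨(LinearEquiv.ofInjectiveOfFinrankEq _ hinj hfr).toContinuousLinearEquiv, ?_⟩
  ext a i
  rfl

/-- one step of the bootstrap -/
theorem Ht1b_step (h : FlatS β g Q φ P) {k : ℕ∞} (hg : IsRiem β k g) {n : ℕ} (hn : 1 ≤ n)
    (hnk : ((n + 1 : ℕ) : ℕ∞) ≤ k) (hP : ContDiff ℝ n P) : ContDiff ℝ (n + 1 : ℕ) P := by
  have hk1 : ((n : WithTop ℕ∞) + 1) ≤ ((k : ℕ∞) : WithTop ℕ∞) := by
    exact_mod_cast hnk
  have hg1 : ContDiff ℝ 1 g := hg.smooth.of_le (le_trans (by simp) hk1)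
  have hdg : ContDiff ℝ n (fderiv ℝ g) := hg.smooth.fderiv_right hk1
  obtain ⟨-, hT⟩ := h.c2 hg.pos hg1
  have hPsi : ContDiff ℝ n fun x => Ht1b_Psi β Q (P x) := by
    rw [contDiff_clm_apply_iff]
    intro a
    rw [contDiff_pi]
    intro i
    exact (Q a).contDiff.comp (hP.clm_apply contDiff_const)
  have hinv : ContDiff ℝ n fun x => ContinuousLinearMap.inverse (Ht1b_Psi β Q (P x)) := by
    rw [contDiff_iff_contDiffAt]
    intro x
    obtain ⟨e, he⟩ := Ht1b_equiv h hg x
    have h1 := contDiffAt_map_inverse (n := (n : WithTop ℕ∞)) e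
    rw [he] at h1
    exact h1.comp x hPsi.contDiffAt
  have hdP : ContDiff ℝ n (fderiv ℝ P) := by
    rw [contDiff_clm_apply_iff]
    intro u
    rw [contDiff_clm_apply_iff]
    intro v
    have e1 : (fun x => fderiv ℝ P x u v) = fun x =>
        ContinuousLinearMap.inverse (Ht1b_Psi β Q (P x)) fun i =>
          (fderiv ℝ g x u v (β i) + fderiv ℝ g x v u (β i) - fderiv ℝ g x (β i) u v) / 2 := by
      funext x
      obtain ⟨e, he⟩ := Ht1b_equiv h hg x
      have h1 : (fun i => (fderiv ℝ g x u v (β i) + fderiv ℝ g x v u (β i) -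
          fderiv ℝ g x (β i) u v) / 2) = Ht1b_Psi β Q (P x) (fderiv ℝ P x u v) := by
        funext i
        rw [Ht1b_Psi_apply, hT]
      rw [h1, ← he, ContinuousLinearMap.inverse_equiv]
      simp
    rw [e1]
    refine hinv.clm_apply ?_
    rw [contDiff_pi]
    intro i
    have c : ∀ p q r : E, ContDiff ℝ n fun x => fderiv ℝ g x p q r := fun p q r =>
      ((hdg.clm_apply contDiff_const).clm_apply contDiff_const).clm_apply contDiff_const
    exact (((c _ _ _).add (c _ _ _)).sub (c _ _ _)).div_const 2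
  have h2 : ContDiff ℝ ((n : WithTop ℕ∞) + 1) P := by
    rw [contDiff_succ_iff_fderiv]
    refine ⟨hP.differentiable ?_, ?_, hdP⟩
    · exact_mod_cast (by omega : n ≠ 0)
    · intro h3
      exact absurd h3 (by simp)
  exact_mod_cast h2

theorem Ht1b_P (h : FlatS β g Q φ P) {k : ℕ∞} (hg : IsRiem β k g) {n : ℕ} (hn : 1 ≤ n)
    (hnk : (n : ℕ∞) ≤ k) : ContDiff ℝ n P := by
  induction n, hn using Nat.le_induction with
  | base =>
    have hk1 : (1 : WithTop ℕ∞) ≤ ((k : ℕ∞) : WithTop ℕ∞) := by exact_mod_cast hnk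
    have := (h.c2 hg.pos (hg.smooth.of_le hk1)).1
    exact_mod_cast this
  | succ n hn ih =>
    refine Ht1b_step h hg hn hnk (ih ?_)
    exact le_trans (by exact_mod_cast Nat.le_succ n) hnk

theorem FlatS.contDiff (h : FlatS β g Q φ P) {k : ℕ∞} (hk : 1 ≤ k) (hg : IsRiem β k g) :
    ContDiff ℝ (k + 1 : ℕ∞) φ := by
  have hP : ContDiff ℝ k P := by
    rw [contDiff_iff_forall_nat_le]
    intro n hn
    rcases Nat.eq_zero_or_pos n with h0 | h0
    · subst h0
      have := (Ht1b_P h hg le_rfl (by exact_mod_cast hk)).continuous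
      exact_mod_cast contDiff_zero.2 this
    · exact Ht1b_P h hg h0 (by exact_mod_cast hn)
  have e : fderiv ℝ φ = P := by
    funext x
    exact (h.hasFDerivAt x).fderiv
  have h2 : ContDiff ℝ ((k : WithTop ℕ∞) + 1) φ := by
    rw [contDiff_succ_iff_fderiv]
    refine ⟨fun x => (h.hasFDerivAt x).differentiableAt, ?_, ?_⟩
    · intro h3
      exact absurd h3 (by simp)
    · rw [e]
      exact hP
  exact_mod_cast h2

end Pool.Agent.EscG
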