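import Pool.Agent.EscG.HDefs
import Pool.Agent.EscG.R1a

set_option autoImplicit false

/-!
# EscG geometry, project H, module Ht2: the flat structure is a global diffeomorphism

`φ` has derivative `P x`, which is invertible (`iso` and the positivity of `g`) and depends continuously on `x`,
so `φ` is a local homeomorphism. `φ - id` is continuous and periodic, so bounded: `φ` is proper. A proper local
homeomorphism is a covering map (`IsClosedMap.isCoveringMapOn_of_isLocalHomeomorphOn`). The plane is simply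
connected, so the identity lifts to `ψ` with `φ ∘ ψ = id`, and `ψ ∘ φ = id` by uniqueness of lifts.
-/

noncomputable section

namespace Pool.Agent.EscG

open MeasureTheory Set Filter Topology Esc EscF _root_.EscG
open scoped ContDiff

variable {E : Type*} [NormedAddCommGroup E] [InnerProductSpace ℝ E] [FiniteDimensional ℝ E]
  {β : Module.Basis (Fin 2) ℝ E} {g : E → E →L[ℝ] E →L[ℝ] ℝ} {Q : E →L[ℝ] E →L[ℝ] ℝ}
  {φ : E → E} {P : E → E →L[ℝ] E}

omit [FiniteDimensional ℝ E] in
theorem Ht2_deriv (h : FlatS β g Q φ P) (x : E) : HasFDerivAt φ (P x) x := by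
  obtain ⟨K, hK⟩ := h.quad
  rw [hasFDerivAt_iff_isLittleO]
  refine (Asymptotics.IsBigO.of_bound K (Filter.Eventually.of_forall fun y => ?_)).trans_isLittleO
    (Asymptotics.isLittleO_pow_sub_sub x one_lt_two)
  simpa using hK x y

omit [FiniteDimensional ℝ E] in
theorem Ht2_cont (h : FlatS β g Q φ P) : Continuous P := by
  obtain ⟨K, hK⟩ := h.lip
  refine (LipschitzWith.of_dist_le' (K := K) fun x y => ?_).continuous
  rw [dist_comm, dist_comm x y, dist_eq_norm, dist_eq_norm]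
  exact hK x y

omit [FiniteDimensional ℝ E] in
theorem Ht2_ker (h : FlatS β g Q φ P) (hg : IsRiem β 2 g) (x : E) : Function.Injective (P x) := by
  rw [injective_iff_map_eq_zero]
  intro v hv
  by_contra hne
  have h1 := hg.pos x v hne
  rw [h.iso x v v, hv] at h1
  simp at h1

theorem Ht2_equiv (h : FlatS β g Q φ P) (hg : IsRiem β 2 g) (x : E) :
    ∃ e : E ≃L[ℝ] E, (e : E →L[ℝ] E) = P x :=
  ⟨(LinearEquiv.ofInjectiveEndo (P x : E →ₗ[ℝ] E) (Ht2_ker h hg x)).toContinuousLinearEquiv, by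
    ext v; rfl⟩

theorem Ht2_lh (h : FlatS β g Q φ P) (hg : IsRiem β 2 g) : IsLocalHomeomorph φ := by
  intro x
  obtain ⟨e, he⟩ := Ht2_equiv h hg x
  have h1 : HasStrictFDerivAt φ (e : E →L[ℝ] E) x := by
    rw [he]
    exact hasStrictFDerivAt_of_hasFDerivAt_of_continuousAt
      (Eventually.of_forall (Ht2_deriv h)) (Ht2_cont h).continuousAt
  exact ⟨h1.toOpenPartialHomeomorph φ, h1.mem_toOpenPartialHomeomorph_source,
    h1.toOpenPartialHomeomorph_coe.symm⟩

theorem Ht2_proper (h : FlatS β g Q φ P) (hg : IsRiem β 2 g) : IsProperMap φ := by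
  have hc : Continuous φ := (Ht2_lh h hg).continuous
  obtain ⟨C, -, hC⟩ := R1a_bdd β (g := fun x => ‖φ x - x‖) ((hc.sub continuous_id).norm) (fun i x => by
    show ‖φ (x + β i) - (x + β i)‖ = ‖φ x - x‖
    rw [h.per i x]
    congr 1
    abel)
  rw [isProperMap_iff_tendsto_cocompact]
  refine ⟨hc, ?_⟩
  rw [← Metric.cobounded_eq_cocompact, ← tendsto_norm_atTop_iff_cobounded]
  refine tendsto_atTop_mono (fun x => ?_)
    (tendsto_atTop_add_const_right _ (-C) (tendsto_norm_cobounded_atTop (E := E)))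
  have h1 : ‖φ x - x‖ ≤ C := hC x
  have h2 : ‖x‖ ≤ ‖φ x‖ + ‖φ x - x‖ := by
    have := norm_sub_le (φ x) (φ x - x)
    rwa [sub_sub_cancel] at this
  show ‖x‖ + -C ≤ ‖φ x‖
  linarith

theorem Ht2_cov (h : FlatS β g Q φ P) (hg : IsRiem β 2 g) : IsCoveringMap φ := by
  rw [isCoveringMap_iff_isCoveringMapOn_univ]
  have hl := Ht2_lh h hg
  have hp := Ht2_proper h hg
  refine IsClosedMap.isCoveringMapOn_of_isLocalHomeomorphOn hp.isClosedMap (fun x _ => ?_)
    (fun e _ => hl e)
  exact (hp.isCompact_preimage isCompact_singleton).finite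
    (.of_openPartialHomeomorph φ subset_rfl fun e _ => by
      obtain ⟨f, hf, hf'⟩ := hl e
      exact ⟨f, hf, hf'.symm⟩)

theorem Ht2_inv (h : FlatS β g Q φ P) (hg : IsRiem β 2 g) :
    ∃ ψ : C(E, E), (∀ x, ψ (φ x) = x) ∧ ∀ y, φ (ψ y) = y := by
  have cov := Ht2_cov h hg
  obtain ⟨ψ, ⟨h0, h1⟩, -⟩ :=
    cov.existsUnique_continuousMap_lifts (ContinuousMap.id E) (φ 0) 0 rfl
  have h2 : ∀ y, φ (ψ y) = y := fun y => congrFun h1 y
  refine ⟨ψ, fun x => ?_, h2⟩
  have h3 : (ψ ∘ φ : E → E) = id :=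
    cov.eq_of_comp_eq (ψ.continuous.comp cov.continuous) continuous_id
      (funext fun x => h2 (φ x)) 0 h0
  exact congrFun h3 x

theorem FlatS.inj (h : FlatS β g Q φ P) (hg : IsRiem β 2 g) : Function.Injective φ := by
  obtain ⟨ψ, h1, -⟩ := Ht2_inv h hg
  exact Function.LeftInverse.injective h1

theorem FlatS.surj (h : FlatS β g Q φ P) (hg : IsRiem β 2 g) : Function.Surjective φ := by
  obtain ⟨ψ, -, h2⟩ := Ht2_inv h hg
  exact fun y => ⟨ψ y, h2 y⟩

theorem FlatS.exists_inv (h : FlatS β g Q φ P) (hg : IsRiem β 2 g) {k : ℕ∞} (hk : 1 ≤ k)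
    (hφ : ContDiff ℝ k φ) : ∃ ψ : E → E, (∀ x, ψ (φ x) = x) ∧ (∀ y, φ (ψ y) = y) ∧ ContDiff ℝ k ψ ∧
      ∀ i y, ψ (y + β i) = ψ y + β i := by
  have _ := hk
  obtain ⟨ψ, h1, h2⟩ := Ht2_inv h hg
  choose e he using Ht2_equiv h hg
  let Φ : E ≃ₜ E :=
    { toFun := φ
      invFun := ψ
      left_inv := h1
      right_inv := h2
      continuous_toFun := (Ht2_lh h hg).continuous
      continuous_invFun := ψ.continuous }
  refine ⟨ψ, h1, h2, ?_, fun i y => ?_⟩
  · exact Φ.contDiff_symm (f₀' := e) (fun x => by rw [he]; exact Ht2_deriv h x) hφ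
  · have h3 : φ (ψ y + β i) = y + β i := by rw [h.per i, h2]
    rw [← h3, h1]

end Pool.Agent.EscG
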