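import Pool.Agent.EscG.HtDefs
import Pool.Agent.EscF.TT

set_option autoImplicit false

/-!
# EscG, project H, module Ht3: composition with a diffeomorphism preserves residual sets of potentials

`cont`: the topology of `Pot n k` is induced by `jet`; `f ↦ f ∘ Φ`, `Φ q = (φ q.1, q.2)`. For `j ≤ k` the
derivatives of `Φ` of order `1..j` are bounded (periodic and continuous), and
`norm_iteratedFDeriv_comp_le` gives `‖D^j (f ∘ Φ)‖ ≤ j! (max_{i ≤ j} sup ‖D^i f‖) D^j`.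
`residual_pull`: `pull` is a homeomorphism (inverse `h.symm.pull`), so the preimage of a residual set is residual.
-/

noncomputable section

namespace EscG.T

open Filter Topology Set EscF.T
open scoped ContDiff UniformConvergence

/-- neighbourhoods given by one derivative -/
theorem Ht3_mem_nhds {n : ℕ} {k : ℕ∞} (f : Pot n k) {j : ℕ} (hj : (j : ℕ∞) ≤ k) {ρ : ℝ} (hρ : 0 < ρ) :
    {f' : Pot n k | ∀ q, ‖iteratedFDeriv ℝ j f'.toFun q - iteratedFDeriv ℝ j f.toFun q‖ < ρ} ∈ 𝓝 f := by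
  have hc : Continuous (jet : Pot n k → _) := continuous_induced_dom
  have h0 : Continuous fun f : Pot n k => jet f ⟨j, hj⟩ := (continuous_pi_iff.1 hc) _
  have hb := UniformFun.hasBasis_nhds_of_basis (Vec n × ℝ)
    (ContinuousMultilinearMap ℝ (fun _ : Fin j => Vec n × ℝ) ℝ) (jet f ⟨j, hj⟩)
    Metric.uniformity_basis_dist
  have h1 := h0.continuousAt.preimage_mem_nhds (hb.mem_of_mem hρ)
  refine mem_of_superset h1 fun f' hf' q => ?_
  have h2 := hf' q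
  simp only [jet, UniformFun.toFun_ofFun] at h2
  rw [← dist_eq_norm, dist_comm]
  exact h2

/-- neighbourhoods given by finitely many derivatives -/
theorem Ht3_mem_nhds_le {n : ℕ} {k : ℕ∞} (f : Pot n k) {r : ℕ} (hr : (r : ℕ∞) ≤ k) {ρ : ℝ} (hρ : 0 < ρ) :
    {f' : Pot n k | ∀ j ≤ r, ∀ q,
      ‖iteratedFDeriv ℝ j f'.toFun q - iteratedFDeriv ℝ j f.toFun q‖ < ρ} ∈ 𝓝 f := by
  have h1 : ∀ j ∈ Finset.range (r + 1), {f' : Pot n k | ∀ q,
      ‖iteratedFDeriv ℝ j f'.toFun q - iteratedFDeriv ℝ j f.toFun q‖ < ρ} ∈ 𝓝 f := by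
    intro j hj
    refine Ht3_mem_nhds f (le_trans ?_ hr) hρ
    have := Finset.mem_range.1 hj
    exact_mod_cast (by omega : j ≤ r)
  refine mem_of_superset ((Filter.biInter_finset_mem _).2 h1) fun f' hf' j hj q => ?_
  have h2 := Set.mem_iInter₂.1 hf' j (Finset.mem_range.2 (by omega))
  exact h2 q

/-- a continuous periodic function is bounded -/
theorem Ht3_bdd {n : ℕ} (N : Vec n × ℝ → ℝ) (hN : Continuous N)
    (hp : ∀ (m : Fin n → ℤ) (l : ℤ) (q : Vec n × ℝ), N (q + (vz m, (l : ℝ))) = N q) :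
    ∃ B : ℝ, ∀ q, N q ≤ B := by
  obtain ⟨B, hB⟩ := (isCompact_closedBall (0 : Vec n × ℝ) (√n + 1)).bddAbove_image hN.continuousOn
  refine ⟨B, fun q => ?_⟩
  rw [← hp (fun i => -⌊q.1 i⌋) (-⌊q.2⌋) q]
  refine hB (mem_image_of_mem N ?_)
  rw [mem_closedBall_zero_iff, Prod.norm_def]
  refine max_le ?_ ?_
  · show ‖q.1 + vz (fun i => -⌊q.1 i⌋)‖ ≤ √n + 1
    rw [EuclideanSpace.norm_eq]
    have h1 : ∑ i, ‖(q.1 + vz (fun i => -⌊q.1 i⌋)) i‖ ^ 2 ≤ (n : ℝ) := by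
      calc ∑ i, ‖(q.1 + vz (fun i => -⌊q.1 i⌋)) i‖ ^ 2 ≤ ∑ _i : Fin n, (1 : ℝ) := by
            refine Finset.sum_le_sum fun i _ => ?_
            have e : (q.1 + vz (fun i => -⌊q.1 i⌋)) i = Int.fract (q.1 i) := by
              show q.1 i + ((-⌊q.1 i⌋ : ℤ) : ℝ) = Int.fract (q.1 i)
              rw [Int.cast_neg, ← sub_eq_add_neg, Int.self_sub_floor]
            rw [e, Real.norm_eq_abs, sq_abs]
            have h2 := Int.fract_nonneg (q.1 i)
            have h3 := (Int.fract_lt_one (q.1 i)).le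
            nlinarith
        _ = (n : ℝ) := by simp
    have h2 := Real.sqrt_le_sqrt h1
    linarith
  · show ‖q.2 + ((-⌊q.2⌋ : ℤ) : ℝ)‖ ≤ √n + 1
    rw [Int.cast_neg, ← sub_eq_add_neg, Int.self_sub_floor, Real.norm_eq_abs,
      abs_of_nonneg (Int.fract_nonneg _)]
    have h3 := (Int.fract_lt_one q.2).le
    have h4 := Real.sqrt_nonneg (n : ℝ)
    linarith

/-- the map `q ↦ (φ q.1, q.2)` -/
def Ht3_Phi {n : ℕ} (φ : Vec n → Vec n) (q : Vec n × ℝ) : Vec n × ℝ := (φ q.1, q.2)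

theorem Ht3_Phi_contDiff {n : ℕ} {k : ℕ∞} {φ ψ : Vec n → Vec n} (h : TDiff k φ ψ) :
    ContDiff ℝ k (Ht3_Phi φ) :=
  (h.sφ.comp contDiff_fst).prodMk contDiff_snd

theorem Ht3_Phi_add {n : ℕ} {k : ℕ∞} {φ ψ : Vec n → Vec n} (h : TDiff k φ ψ) (m : Fin n → ℤ) (l : ℤ)
    (q : Vec n × ℝ) : Ht3_Phi φ (q + (vz m, (l : ℝ))) = Ht3_Phi φ q + (vz m, (l : ℝ)) := by
  show (φ (q.1 + vz m), q.2 + (l : ℝ)) = (φ q.1 + vz m, q.2 + (l : ℝ))
  rw [h.pφ]

/-- the derivatives of `Φ` are periodic -/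
theorem Ht3_iter_add {n : ℕ} {k : ℕ∞} {φ ψ : Vec n → Vec n} (h : TDiff k φ ψ) (m : Fin n → ℤ) (l : ℤ)
    {j : ℕ} (hj : 1 ≤ j) (q : Vec n × ℝ) :
    iteratedFDeriv ℝ j (Ht3_Phi φ) (q + (vz m, (l : ℝ))) = iteratedFDeriv ℝ j (Ht3_Phi φ) q := by
  have h1 : iteratedFDeriv ℝ j (fun q => Ht3_Phi φ (q + (vz m, (l : ℝ)))) q =
      iteratedFDeriv ℝ j (Ht3_Phi φ) (q + (vz m, (l : ℝ))) := iteratedFDeriv_comp_add_right _ _ _
  rw [← h1]
  have h2 : (fun q => Ht3_Phi φ (q + (vz m, (l : ℝ)))) = fun q => Ht3_Phi φ q + (vz m, (l : ℝ)) :=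
    funext fun q => Ht3_Phi_add h m l q
  rw [h2]
  obtain ⟨i, rfl⟩ : ∃ i, j = i + 1 := ⟨j - 1, by omega⟩
  rw [iteratedFDeriv_succ_eq_comp_right, iteratedFDeriv_succ_eq_comp_right]
  simp only [Function.comp]
  congr 2
  funext q
  rw [fderiv_add_const]

/-- the derivatives of `Φ` are bounded -/
theorem Ht3_bound {n : ℕ} {k : ℕ∞} {φ ψ : Vec n → Vec n} (h : TDiff k φ ψ) {r : ℕ} (hr : (r : ℕ∞) ≤ k) :
    ∃ D : ℝ, 1 ≤ D ∧ ∀ i, 1 ≤ i → i ≤ r → ∀ q, ‖iteratedFDeriv ℝ i (Ht3_Phi φ) q‖ ≤ D ^ i := by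
  have h1 : ∀ i : ℕ, 1 ≤ i → i ≤ r → ∃ B : ℝ, ∀ q, ‖iteratedFDeriv ℝ i (Ht3_Phi φ) q‖ ≤ B := by
    intro i hi hir
    refine Ht3_bdd _ ?_ ?_
    · have hc : ContDiff ℝ i (Ht3_Phi φ) := (Ht3_Phi_contDiff h).of_le (by
        have : (i : ℕ∞) ≤ k := le_trans (by exact_mod_cast hir) hr
        exact_mod_cast this)
      exact (hc.continuous_iteratedFDeriv le_rfl).norm
    · intro m l q
      rw [Ht3_iter_add h m l hi]
  have h2 : ∀ i : ℕ, ∃ B : ℝ, 1 ≤ i → i ≤ r → ∀ q, ‖iteratedFDeriv ℝ i (Ht3_Phi φ) q‖ ≤ B := by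
    intro i
    by_cases hi : 1 ≤ i ∧ i ≤ r
    · obtain ⟨B, hB⟩ := h1 i hi.1 hi.2
      exact ⟨B, fun _ _ => hB⟩
    · exact ⟨0, fun a b => absurd ⟨a, b⟩ hi⟩
  choose B hB using h2
  refine ⟨1 + ∑ i ∈ Finset.range (r + 1), |B i|, ?_, ?_⟩
  · have := Finset.sum_nonneg (s := Finset.range (r + 1)) (fun i _ => abs_nonneg (B i))
    linarith
  · intro i hi hir q
    have h3 : |B i| ≤ ∑ i ∈ Finset.range (r + 1), |B i| :=
      Finset.single_le_sum (f := fun i => |B i|) (fun i _ => abs_nonneg (B i))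
        (Finset.mem_range.2 (by omega))
    have h4 : (1 : ℝ) ≤ 1 + ∑ i ∈ Finset.range (r + 1), |B i| := by
      have := Finset.sum_nonneg (s := Finset.range (r + 1)) (fun i _ => abs_nonneg (B i))
      linarith
    calc ‖iteratedFDeriv ℝ i (Ht3_Phi φ) q‖ ≤ B i := hB i hi hir q
      _ ≤ |B i| := le_abs_self _
      _ ≤ 1 + ∑ i ∈ Finset.range (r + 1), |B i| := by linarith
      _ = (1 + ∑ i ∈ Finset.range (r + 1), |B i|) ^ 1 := (pow_one _).symm
      _ ≤ (1 + ∑ i ∈ Finset.range (r + 1), |B i|) ^ i := pow_le_pow_right₀ h4 hi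

theorem TDiff.cont {n : ℕ} {k : ℕ∞} {φ ψ : Vec n → Vec n} (h : TDiff k φ ψ) :
    Continuous (h.pull : Pot n k → Pot n k) := by
  rw [continuous_iff_continuousAt]
  intro f
  rw [ContinuousAt, tendsto_def]
  intro O hO
  obtain ⟨r, ε, hε, hrk, hO2⟩ := nhds_small _ hO
  obtain ⟨D, hD1, hD⟩ := Ht3_bound h hrk
  have hD0 : (0 : ℝ) < D := by linarith
  have hpos : (0 : ℝ) < ε / (2 * ((r.factorial : ℕ) * D ^ r)) := by
    have : (0 : ℝ) < ((r.factorial : ℕ) : ℝ) := by exact_mod_cast Nat.factorial_pos r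
    positivity
  refine mem_of_superset (Ht3_mem_nhds_le f hrk hpos) fun f' hf' => hO2 _ fun j hj q => ?_
  have hjk : (j : ℕ∞) ≤ k := le_trans (by exact_mod_cast hj) hrk
  have hle : ∀ i ≤ j, ((i : ℕ) : WithTop ℕ∞) ≤ (k : WithTop ℕ∞) := fun i hi => by
    have : (i : ℕ∞) ≤ k := le_trans (by exact_mod_cast hi) hjk
    exact_mod_cast this
  have e1 : iteratedFDeriv ℝ j (h.pull f').toFun q - iteratedFDeriv ℝ j (h.pull f).toFun q =
      iteratedFDeriv ℝ j ((f'.toFun - f.toFun) ∘ Ht3_Phi φ) q := by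
    have e2 : (f'.toFun - f.toFun) ∘ Ht3_Phi φ = (h.pull f').toFun - (h.pull f).toFun := rfl
    rw [e2, iteratedFDeriv_sub_apply]
    · exact ((h.pull f').contDiff.of_le (hle j le_rfl)).contDiffAt
    · exact ((h.pull f).contDiff.of_le (hle j le_rfl)).contDiffAt
  rw [e1]
  have h3 := norm_iteratedFDeriv_comp_le (𝕜 := ℝ) (n := j) (N := k) (f'.contDiff.sub f.contDiff)
    (Ht3_Phi_contDiff h) (hle j le_rfl) q (C := ε / (2 * ((r.factorial : ℕ) * D ^ r))) (D := D) (fun i hi => ?_)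
    (fun i hi hij => hD i hi (by omega) q)
  · refine lt_of_le_of_lt h3 ?_
    have hjr : ((j.factorial : ℕ) : ℝ) ≤ ((r.factorial : ℕ) : ℝ) := by exact_mod_cast Nat.factorial_le hj
    have hDjr : D ^ j ≤ D ^ r := pow_le_pow_right₀ hD1 hj
    have hr0 : (0 : ℝ) < ((r.factorial : ℕ) : ℝ) := by exact_mod_cast Nat.factorial_pos r
    have hDr : 0 < D ^ r := by positivity
    have hDj : 0 < D ^ j := by positivity
    calc ((j.factorial : ℕ) : ℝ) * (ε / (2 * ((r.factorial : ℕ) * D ^ r))) * D ^ j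
        ≤ ((r.factorial : ℕ) : ℝ) * (ε / (2 * ((r.factorial : ℕ) * D ^ r))) * D ^ r := by gcongr
      _ = ε / 2 := by field_simp
      _ < ε := by linarith
  · have e2 : iteratedFDeriv ℝ i (fun y => f'.toFun y - f.toFun y) (Ht3_Phi φ q) =
        iteratedFDeriv ℝ i f'.toFun (Ht3_Phi φ q) - iteratedFDeriv ℝ i f.toFun (Ht3_Phi φ q) := by
      have e3 : (fun y => f'.toFun y - f.toFun y) = f'.toFun - f.toFun := rfl
      rw [e3, iteratedFDeriv_sub_apply]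
      · exact (f'.contDiff.of_le (hle i hi)).contDiffAt
      · exact (f.contDiff.of_le (hle i hi)).contDiffAt
    rw [e2]
    exact (hf' i (by omega) _).le

theorem Ht3_pull_pull {n : ℕ} {k : ℕ∞} {φ ψ : Vec n → Vec n} (h : TDiff k φ ψ) (f : Pot n k) :
    h.symm.pull (h.pull f) = f := by
  have e : (h.symm.pull (h.pull f)).toFun = f.toFun := by
    funext q
    show f.toFun (φ (ψ q.1), q.2) = f.toFun q
    rw [h.right]
  cases f
  simp only [TDiff.pull] at e ⊢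
  simp only [Pot.mk.injEq]
  exact e

/-- composition with a diffeomorphism, as a homeomorphism -/
def Ht3_homeo {n : ℕ} {k : ℕ∞} {φ ψ : Vec n → Vec n} (h : TDiff k φ ψ) : Pot n k ≃ₜ Pot n k where
  toFun := h.pull
  invFun := h.symm.pull
  left_inv := Ht3_pull_pull h
  right_inv := Ht3_pull_pull h.symm
  continuous_toFun := h.cont
  continuous_invFun := h.symm.cont

theorem TDiff.residual_pull {n : ℕ} {k : ℕ∞} {φ ψ : Vec n → Vec n} (h : TDiff k φ ψ)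
    {S : Set (Pot n k)} (hS : S ∈ residual (Pot n k)) :
    {f : Pot n k | h.pull f ∈ S} ∈ residual (Pot n k) :=
  tendsto_residual_of_isOpenMap (Ht3_homeo h).continuous (Ht3_homeo h).isOpenMap hS

end EscG.T
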