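import Pool.Agent.EscG.HtDefs

set_option autoImplicit false

/-!
# EscG, project H, module Ht4: orbits are transported by a flat structure

`g x v w = Q (φ' x v) (φ' x w)`, `φ' = fderiv φ`. Let `y` be an orbit of `Q w w / 2 + V' + f'` with `V' = V ∘ ψ`, `f' = f ∘ ψ`, `‖y'‖ → ∞`, and `x = ψ ∘ y`, so `y = φ ∘ x`, `y' = φ'(x) x'`. `x` is `C^2`;
`L = rmech g V + f` is `C^2` (`g` is `C^2`). Momentum of `L` along `x`: `η ↦ g x x' η = Q y' (φ' x η)`; its derivative is `Q y'' (φ' x η) + Q y' (φ'' x x' η)`. `∂L/∂x η = (fderiv g x η) x' x' / 2 + d(V+f) η`, and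
differentiating the isometry relation `fderiv g x η x' x' = 2 Q (φ'' x η x') (φ' x x')`; `φ''` is symmetric. The Euler-Lagrange equation of `y` is `Q y'' w = d(V' + f')_y w`, with `w = φ' x η` and
`d(V+f)_x η = d(V'+f')_y (φ' x η)`. Speed: `‖y'‖ ≤ C ‖x'‖`, `C` a bound of `φ'` (periodic, continuous).
-/

noncomputable section

namespace EscG.T

open Filter Topology Set EscF.T
open scoped ContDiff

private theorem Ht4_quad {E : Type*} [NormedAddCommGroup E] [NormedSpace ℝ E]
    (B : E →L[ℝ] E →L[ℝ] ℝ) (hB : ∀ v w, B v w = B w v) (c d : ℝ) (v0 : E) :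
    HasFDerivAt (fun v => B v v / 2 + c + d) (B v0) v0 := by
  have h1 : HasFDerivAt (fun v => B v v) (B v0 + B.flip v0) v0 := by
    simpa using (B.hasFDerivAt (x := v0)).clm_apply (hasFDerivAt_id v0)
  have h2 := ((h1.const_mul (1 / 2 : ℝ)).add_const c).add_const d
  have e1 : (fun v => B v v / 2 + c + d) = fun v => 1 / 2 * B v v + c + d := by
    funext v
    ring
  rw [e1]
  refine h2.congr_fderiv ?_
  ext w
  simp only [add_apply, smul_apply,
    ContinuousLinearMap.flip_apply, smul_eq_mul]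
  rw [hB w v0]
  ring

/-- a continuous periodic function is bounded -/
private theorem Ht4_bdd {n : ℕ} {F : Type*} [NormedAddCommGroup F] {P : Vec n → F}
    (hc : Continuous P) (hp : ∀ (m : Fin n → ℤ) x, P (x + vz m) = P x) :
    ∃ C : ℝ, 0 < C ∧ ∀ x, ‖P x‖ ≤ C := by
  obtain ⟨C, hC⟩ := (isCompact_closedBall (0 : Vec n) (√n)).exists_bound_of_continuousOn
    hc.continuousOn
  refine ⟨max C 1, by positivity, fun x => ?_⟩
  have h1 := hp (fun i => ⌊x i⌋) (x - vz (fun i => ⌊x i⌋))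
  rw [sub_add_cancel] at h1
  rw [h1]
  refine (hC _ ?_).trans (le_max_left _ _)
  rw [mem_closedBall_zero_iff, EuclideanSpace.norm_eq]
  apply Real.sqrt_le_sqrt
  calc ∑ i, ‖(x - vz (fun i => ⌊x i⌋)) i‖ ^ 2 ≤ ∑ i : Fin n, (1 : ℝ) := by
        apply Finset.sum_le_sum
        intro i _
        have e : (x - vz (fun i => ⌊x i⌋)) i = Int.fract (x i) := rfl
        rw [e, Real.norm_eq_abs, sq_abs]
        have h2 := Int.fract_nonneg (x i)
        have h3 := (Int.fract_lt_one (x i)).le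
        nlinarith
    _ = n := by simp

theorem TDiff.orbit {n : ℕ} {k : ℕ∞} (hk : 2 ≤ k) {φ ψ : Vec n → Vec n} (h : TDiff k φ ψ)
    {Q : Vec n →L[ℝ] Vec n →L[ℝ] ℝ} (hQ : IsScalarProduct Q) {g : Vec n → Vec n →L[ℝ] Vec n →L[ℝ] ℝ}
    (hg : ContDiff ℝ 2 g) (hiso : ∀ x v w, g x v w = Q (fderiv ℝ φ x v) (fderiv ℝ φ x w)) (V f : Pot n k)
    {L' : Lag n} (hL' : ∀ x v t, L' (x, v, t) = Q v v / 2 + (h.symm.pull V).toFun (x, t))
    (ho : HasOrbitToInfinity (addPot L' (h.symm.pull f).toFun)) :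
    HasOrbitToInfinity (addPot (rmech g V) f.toFun) := by
  obtain ⟨y, ⟨hy2, hyo⟩, hyi⟩ := ho
  have hk2 : ((2 : ℕ∞) : WithTop ℕ∞) ≤ (k : WithTop ℕ∞) := WithTop.coe_le_coe.2 hk
  have hφ2 : ContDiff ℝ 2 φ := h.sφ.of_le hk2
  have hψ2 : ContDiff ℝ 2 ψ := h.sψ.of_le hk2
  have hV2 : ContDiff ℝ 2 V.toFun := V.contDiff.of_le hk2
  have hf2 : ContDiff ℝ 2 f.toFun := f.contDiff.of_le hk2
  have hgs : ∀ x v w, g x v w = g x w v := fun x v w => by rw [hiso, hiso, hQ.1]
  have hφd : ∀ x, HasFDerivAt φ (fderiv ℝ φ x) x := fun x =>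
    (hφ2.differentiable (by norm_num) x).hasFDerivAt
  have hψd : ∀ x, HasFDerivAt ψ (fderiv ℝ ψ x) x := fun x =>
    (hψ2.differentiable (by norm_num) x).hasFDerivAt
  have hφ' : ContDiff ℝ 1 (fderiv ℝ φ) := hφ2.fderiv_right (by norm_num)
  have hφ'd : ∀ x, HasFDerivAt (fderiv ℝ φ) (fderiv ℝ (fderiv ℝ φ) x) x := fun x =>
    (hφ'.differentiable (by norm_num) x).hasFDerivAt
  -- the inverse derivative
  have hinv : ∀ z v, fderiv ℝ φ (ψ z) (fderiv ℝ ψ z v) = v := by
    intro z v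
    have h1 : HasFDerivAt (fun z => φ (ψ z)) ((fderiv ℝ φ (ψ z)).comp (fderiv ℝ ψ z)) z :=
      (hφd (ψ z)).comp z (hψd z)
    have h2 : (fun z => φ (ψ z)) = id := funext h.right
    rw [h2] at h1
    have h3 := h1.unique (hasFDerivAt_id z)
    have h4 := congrArg (fun T : Vec n →L[ℝ] Vec n => T v) h3
    simpa using h4
  have hyd : ∀ t, 0 < t → HasDerivAt y (deriv y t) t := fun t ht =>
    ((hy2.contDiffAt (Ioi_mem_nhds ht)).differentiableAt (by norm_num)).hasDerivAt
  have hxd : ∀ t, 0 < t → HasDerivAt (fun s => ψ (y s)) (fderiv ℝ ψ (y t) (deriv y t)) t :=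
    fun t ht => (hψd (y t)).comp_hasDerivAt t (hyd t ht)
  have hxd' : ∀ t, 0 < t → deriv (fun s => ψ (y s)) t = fderiv ℝ ψ (y t) (deriv y t) :=
    fun t ht => (hxd t ht).deriv
  have hvel : ∀ t, 0 < t →
      fderiv ℝ φ (ψ (y t)) (deriv (fun s => ψ (y s)) t) = deriv y t := fun t ht => by
    rw [hxd' t ht, hinv]
  have hLsm : ContDiff ℝ 2 (addPot (rmech g V) f.toFun) := by
    have e : addPot (rmech g V) f.toFun = fun q : Vec n × Vec n × ℝ =>
        g q.1 q.2.1 q.2.1 / 2 + V.toFun (q.1, q.2.2) + f.toFun (q.1, q.2.2) := rfl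
    rw [e]
    have a1 : ContDiff ℝ 2 (fun q : Vec n × Vec n × ℝ => g q.1) := hg.comp contDiff_fst
    have a2 : ContDiff ℝ 2 (fun q : Vec n × Vec n × ℝ => q.2.1) := contDiff_fst.comp contDiff_snd
    have a3 : ContDiff ℝ 2 (fun q : Vec n × Vec n × ℝ => (q.1, q.2.2)) :=
      contDiff_fst.prodMk (contDiff_snd.comp contDiff_snd)
    exact ((((a1.clm_apply a2).clm_apply a2).div_const 2).add (hV2.comp a3)).add (hf2.comp a3)
  refine ⟨fun s => ψ (y s), ⟨hψ2.comp_contDiffOn hy2, fun t ht => ⟨hLsm.contDiffAt, ?_⟩⟩, ?_⟩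
  · -- Euler-Lagrange
    obtain ⟨-, hEL⟩ := hyo t ht
    have hm1 : (fun s => fderiv ℝ (fun v => addPot L' (h.symm.pull f).toFun (y s, v, s)) (deriv y s))
        = fun s => Q (deriv y s) := by
      funext s
      have e : (fun v => addPot L' (h.symm.pull f).toFun (y s, v, s)) =
          fun v => Q v v / 2 + (h.symm.pull V).toFun (y s, s) + (h.symm.pull f).toFun (y s, s) := by
        funext v
        show L' (y s, v, s) + _ = _
        rw [hL']
      rw [e]
      exact (Ht4_quad Q hQ.1 _ _ _).fderiv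
    have e1 : (fun z => addPot L' (h.symm.pull f).toFun (z, deriv y t, t)) =
        fun z => Q (deriv y t) (deriv y t) / 2 + (V.toFun (ψ z, t) + f.toFun (ψ z, t)) := by
      funext z
      show L' (z, deriv y t, t) + _ = _
      rw [hL', add_assoc]
      rfl
    rw [hm1, e1] at hEL
    have hVd : ∀ z, HasFDerivAt (fun z => V.toFun (z, t) + f.toFun (z, t))
        (fderiv ℝ (fun z => V.toFun (z, t) + f.toFun (z, t)) z) z := by
      intro z
      have a3 : ContDiff ℝ 2 (fun z : Vec n => (z, t)) := contDiff_id.prodMk contDiff_const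
      exact (((hV2.comp a3).add (hf2.comp a3)).differentiable (by norm_num) z).hasFDerivAt
    set W : Vec n → ℝ := fun z => V.toFun (z, t) + f.toFun (z, t) with hW
    set DW := fderiv ℝ W (ψ (y t)) with hDW
    have hA : fderiv ℝ (fun z => Q (deriv y t) (deriv y t) / 2 +
        (V.toFun (ψ z, t) + f.toFun (ψ z, t))) (y t) = DW.comp (fderiv ℝ ψ (y t)) := by
      have := ((hVd (ψ (y t))).comp (y t) (hψd (y t))).const_add (Q (deriv y t) (deriv y t) / 2)
      exact this.fderiv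
    rw [hA] at hEL
    -- the momentum of the new orbit
    have hm2 : (fun s => fderiv ℝ (fun v => addPot (rmech g V) f.toFun (ψ (y s), v, s))
        (deriv (fun s => ψ (y s)) s)) =ᶠ[𝓝 t]
        fun s => (Q (deriv y s)).comp (fderiv ℝ φ (ψ (y s))) := by
      filter_upwards [Ioi_mem_nhds ht] with s hs
      have e : (fun v => addPot (rmech g V) f.toFun (ψ (y s), v, s)) =
          fun v => g (ψ (y s)) v v / 2 + V.toFun (ψ (y s), s) + f.toFun (ψ (y s), s) := rfl
      rw [e, (Ht4_quad (g (ψ (y s))) (hgs _) _ _ _).fderiv]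
      ext w
      rw [ContinuousLinearMap.comp_apply, hiso, hvel s hs]
    refine HasDerivAt.congr_of_eventuallyEq ?_ hm2
    have hP : HasDerivAt (fun s => fderiv ℝ φ (ψ (y s)))
        (fderiv ℝ (fderiv ℝ φ) (ψ (y t)) (fderiv ℝ ψ (y t) (deriv y t))) t :=
      (hφ'd _).comp_hasDerivAt t (hxd t ht)
    have hD := hEL.clm_comp hP
    refine hD.congr_deriv ?_
    -- the derivative in the position
    set X := deriv (fun s => ψ (y s)) t with hX
    have e2 : (fun z => addPot (rmech g V) f.toFun (z, X, t)) =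
        fun z => Q (fderiv ℝ φ z X) (fderiv ℝ φ z X) / 2 + W z := by
      funext z
      show g z X X / 2 + V.toFun (z, t) + f.toFun (z, t) = _
      rw [hiso, add_assoc]
    rw [e2]
    have h3 : HasFDerivAt (fun z => fderiv ℝ φ z X)
        ((fderiv ℝ (fderiv ℝ φ) (ψ (y t))).flip X) (ψ (y t)) := by
      simpa using (hφ'd (ψ (y t))).clm_apply (hasFDerivAt_const X (ψ (y t)))
    have h4 := ((Ht4_quad Q hQ.1 0 0 (fderiv ℝ φ (ψ (y t)) X)).comp (ψ (y t)) h3).add
      (hVd (ψ (y t)))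
    have h5 : HasFDerivAt (fun z => Q (fderiv ℝ φ z X) (fderiv ℝ φ z X) / 2 + W z)
        ((Q (fderiv ℝ φ (ψ (y t)) X)).comp ((fderiv ℝ (fderiv ℝ φ) (ψ (y t))).flip X) + DW)
        (ψ (y t)) := by
      refine h4.congr_of_eventuallyEq (Eventually.of_forall fun z => ?_)
      simp [Function.comp]
    rw [h5.fderiv]
    have hsym : ∀ v w, fderiv ℝ (fderiv ℝ φ) (ψ (y t)) v w = fderiv ℝ (fderiv ℝ φ) (ψ (y t)) w v := by
      have := (hφ2.contDiffAt (x := ψ (y t))).isSymmSndFDerivAt (by simp)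
      exact fun v w => this v w
    ext w
    simp only [add_apply, ContinuousLinearMap.comp_apply,
      ContinuousLinearMap.flip_apply]
    rw [hvel t ht, hsym w X, hX, hxd' t ht]
    have h6 : fderiv ℝ ψ (y t) (fderiv ℝ φ (ψ (y t)) w) = w := by
      have h1 : HasFDerivAt (fun z => ψ (φ z))
          ((fderiv ℝ ψ (φ (ψ (y t)))).comp (fderiv ℝ φ (ψ (y t)))) (ψ (y t)) :=
        (hψd _).comp _ (hφd _)
      have h2 : (fun z => ψ (φ z)) = id := funext h.left
      rw [h2, h.right] at h1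
      have h3 := h1.unique (hasFDerivAt_id _)
      have h4 := congrArg (fun T : Vec n →L[ℝ] Vec n => T w) h3
      simpa using h4
    rw [h6, add_comm]
  · -- the speed
    have hper : ∀ (m : Fin n → ℤ) x, fderiv ℝ φ (x + vz m) = fderiv ℝ φ x := by
      intro m x
      have h1 : HasFDerivAt (fun z => φ (z + vz m)) (fderiv ℝ φ (x + vz m)) x := by
        have h3 : HasFDerivAt (fun z => φ (z + vz m))
            ((fderiv ℝ φ (x + vz m)).comp (ContinuousLinearMap.id ℝ (Vec n))) x :=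
          (hφd (x + vz m)).comp x ((hasFDerivAt_id x).add_const (vz m))
        rwa [ContinuousLinearMap.comp_id] at h3
      have h2 : (fun z => φ (z + vz m)) = fun z => φ z + vz m := funext fun z => h.pφ m z
      rw [h2] at h1
      exact h1.unique ((hφd x).add_const (vz m))
    obtain ⟨C, hC0, hC⟩ := Ht4_bdd hφ'.continuous hper
    have h1 : ∀ t, 0 < t → ‖deriv y t‖ / C ≤ ‖deriv (fun s => ψ (y s)) t‖ := by
      intro t ht
      rw [div_le_iff₀ hC0, mul_comm]
      conv_lhs => rw [← hvel t ht]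
      exact (ContinuousLinearMap.le_opNorm _ _).trans
        (mul_le_mul_of_nonneg_right (hC _) (norm_nonneg _))
    refine tendsto_atTop_mono' atTop ?_ (hyi.atTop_div_const hC0)
    filter_upwards [eventually_gt_atTop 0] with t ht using h1 t ht

end EscG.T
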