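import Pool.Agent.EscG.TDefs
import Pool.Agent.EscF.TR

/-!
Project EscG, module O6: mechanical Lagrangians of flat metrics (from project EscF).
-/

noncomputable section

namespace EscG.T

open Filter Topology Set EscF.T
open scoped ContDiff

theorem O6_hasFDeriv {n : ℕ} {Q : Vec n →L[ℝ] Vec n →L[ℝ] ℝ} (hQ : ∀ v w, Q v w = Q w v) (v : Vec n) :
    HasFDerivAt (fun v => Q v v / 2) (Q v) v := by
  have h1 : HasFDerivAt (fun v => Q v v) (Q v + Q.flip v) v := by
    have h2 := (Q.hasFDerivAt (x := v)).clm_apply (hasFDerivAt_id (𝕜 := ℝ) v)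
    refine h2.congr_fderiv ?_
    ext w
    simp
  have h3 := h1.const_mul (1 / 2 : ℝ)
  refine (h3.congr_fderiv ?_).congr_of_eventuallyEq (Eventually.of_forall fun w => ?_)
  · ext w
    simp [hQ w v]
    ring
  · simp only
    ring

theorem O6_kinetic {n : ℕ} {Q : Vec n →L[ℝ] Vec n →L[ℝ] ℝ} (hQ : IsScalarProduct Q) {c : ℝ} (hc : 0 < c) :
    IsKinetic {v : Vec n | v ≠ 0} (fun v => c * (Q v v / 2)) := by
  have hs : ContDiff ℝ 2 (fun v : Vec n => c * (Q v v / 2)) :=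
    contDiff_const.mul ((Q.contDiff.clm_apply contDiff_id).div_const 2)
  refine ⟨hs.contDiffOn, fun v _ a _ => ?_, fun v _ w hw => ?_⟩
  · simp only [map_smul, ContinuousLinearMap.smul_apply, smul_eq_mul]
    ring
  · have h1 : fderiv ℝ (fun v => c * (Q v v / 2)) = fun v => c • Q v := by
      funext v
      exact ((O6_hasFDeriv hQ.1 v).const_mul c).fderiv
    rw [iteratedFDeriv_two_apply, h1]
    have h2 : HasFDerivAt (fun v : Vec n => c • Q v) (c • Q) v := Q.hasFDerivAt.const_smul c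
    rw [h2.fderiv]
    simpa using mul_pos hc (hQ.2 w hw)

theorem O6_asym {n : ℕ} {k : ℕ∞} {Q : Vec n →L[ℝ] Vec n →L[ℝ] ℝ} {c : ℝ} (V : Pot n k) {L : Lag n}
    (hL : ∀ x v t, L (x, v, t) = c * (Q v v / 2) + V.toFun (x, t)) :
    IsAsymptotic {v : Vec n | v ≠ 0} (fun v => c * (Q v v / 2)) k L := by
  refine ⟨fun q => V.toFun (q.1, q.2.2), fun _ => 0, 0, ⟨?_, ?_, ?_⟩, ⟨contDiffOn_const, ?_, ?_⟩, ?_⟩
  · have h1 : ContDiff ℝ k (fun q : Vec n × Vec n × ℝ => V.toFun (q.1, q.2.2)) :=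
      V.contDiff.comp (contDiff_fst.prodMk (contDiff_snd.comp contDiff_snd))
    exact h1.contDiffOn
  · intro x v t _ a _
    rfl
  · intro m l x v t _
    exact V.periodic m l x t
  · intro j _ ε hε
    refine ⟨0, fun x v t _ _ => ?_⟩
    have : iteratedFDeriv ℝ j (fun _ : Vec n × Vec n × ℝ => (0:ℝ)) (x, v, t) = 0 := by
      have h := iteratedFDeriv_zero_fun (𝕜 := ℝ) (E := Vec n × Vec n × ℝ) (F := ℝ) (n := j)
      exact congrFun h _
    rw [this, norm_zero]
    exact hε.le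
  · intro m l x v t _ _
    rfl
  · intro x v t _ _
    rw [hL, add_zero]

/-- mechanical Lagrangians of flat metrics -/
theorem flat_mech {n : ℕ} (hn : 2 ≤ n) {k : ℕ∞} (hk : 2 ≤ k) {Q : Vec n →L[ℝ] Vec n →L[ℝ] ℝ}
    (hQ : IsScalarProduct Q) {c : ℝ} (hc : 0 < c) (V : Pot n k) {L : Lag n}
    (hL : ∀ x v t, L (x, v, t) = c * (Q v v / 2) + V.toFun (x, t)) :
    {f : Pot n k | HasOrbitToInfinity (addPot L f.toFun)} ∈ residual (Pot n k) := by
  have hC : IsOpenCone {v : Vec n | v ≠ 0} := ⟨isOpen_ne, fun h => h rfl, fun v hv a ha =>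
    smul_ne_zero ha.ne' hv⟩
  have h1 := (EscF.T.result hn hk hC (O6_kinetic hQ hc) (O6_asym V hL)).1
  refine mem_of_superset h1 fun f hf => ?_
  have hne : ({v : Vec n | v ≠ 0}).Nonempty := by
    have : Nonempty (Fin n) := ⟨⟨0, by omega⟩⟩
    have : Nontrivial (Vec n) := inferInstance
    exact exists_ne 0
  obtain ⟨x, h2, -, h3⟩ := hf {v | v ≠ 0} hC hne subset_rfl
  exact ⟨x, h2, h3⟩

end EscG.T
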