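import Pool.Agent.EscG.Hr12
import Pool.Agent.EscG.Ht1b
import Pool.Agent.EscG.Ht2
import Pool.Agent.EscG.Ht3
import Pool.Agent.EscG.Ht4
import Pool.Agent.EscG.O6
import Pool.Agent.EscG.Fn7

set_option autoImplicit false

/-!
# EscG, project H, module Ht5: the flat case on `𝕋²`

`β = (EuclideanSpace.basisFun (Fin 2) ℝ).toBasis`. `IsRiem β k g` from the hypotheses; the displacement functions of all lattice vectors `β' 0` (`SameLat β β'`, integer vectors) are constant by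
`hconst` and `cdist_eq` (Fn7), so `IsRiem.hopf` (Hr12), `FlatS.contDiff` (Ht1b), `FlatS.exists_inv` (Ht2) give `TDiff k φ ψ` (periodicity for all integer vectors by induction) with
`g x v w = Q (fderiv φ x v) (fderiv φ x w)`. `flat_mech` (O6.lean, `c = 1`) for `V' = h.symm.pull V`, transported by `residual_pull` for `h.symm` and `TDiff.orbit`.
-/

noncomputable section

namespace EscG.T

open Filter Topology Set EscF.T
open scoped ContDiff

/-- the standard basis of `Vec 2` -/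
def Ht5_β : Module.Basis (Fin 2) ℝ (Vec 2) := (EuclideanSpace.basisFun (Fin 2) ℝ).toBasis

theorem Ht5_β_apply (i : Fin 2) : Ht5_β i = vz (fun j => if j = i then 1 else 0) := by
  unfold Ht5_β
  rw [OrthonormalBasis.coe_toBasis, EuclideanSpace.basisFun_apply]
  ext j
  show (EuclideanSpace.single i (1:ℝ)) j = (((if j = i then 1 else 0 : ℤ)) : ℝ)
  rw [PiLp.single_apply]
  split_ifs <;> simp

theorem Ht5_lin (p q : ℤ) (m m' : Fin 2 → ℤ) :
    (p : ℝ) • vz m + (q : ℝ) • vz m' = vz (fun i => p * m i + q * m' i) := by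
  ext i
  show (p : ℝ) * (m i : ℝ) + (q : ℝ) * (m' i : ℝ) = ((p * m i + q * m' i : ℤ) : ℝ)
  push_cast
  ring

theorem Ht5_vz (m : Fin 2 → ℤ) : vz m = (m 0 : ℝ) • Ht5_β 0 + (m 1 : ℝ) • Ht5_β 1 := by
  rw [Ht5_β_apply, Ht5_β_apply, Ht5_lin]
  congr 1
  funext i
  fin_cases i <;> simp

theorem Ht5_smul {φ : Vec 2 → Vec 2} {b : Vec 2} (h : ∀ x, φ (x + b) = φ x + b) (n : ℤ) :
    ∀ x, φ (x + (n : ℝ) • b) = φ x + (n : ℝ) • b := by
  induction n using Int.induction_on with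
  | zero => intro x; simp
  | succ n ih =>
    intro x
    have e1 : x + ((((n : ℤ) + 1 : ℤ)) : ℝ) • b = (x + ((n : ℤ) : ℝ) • b) + b := by
      push_cast
      module
    rw [e1, h, ih]
    push_cast
    module
  | pred n ih =>
    intro x
    have e1 : (x + (((-(n : ℤ) - 1 : ℤ)) : ℝ) • b) + b = x + ((-(n : ℤ) : ℤ) : ℝ) • b := by
      push_cast
      module
    have h1 := h (x + (((-(n : ℤ) - 1 : ℤ)) : ℝ) • b)
    rw [e1, ih] at h1
    have h2 : φ (x + (((-(n : ℤ) - 1 : ℤ)) : ℝ) • b) = φ x + ((-(n : ℤ) : ℤ) : ℝ) • b - b :=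
      eq_sub_of_add_eq h1.symm
    rw [h2]
    push_cast
    module

theorem Ht5_per {φ : Vec 2 → Vec 2} (h : ∀ i x, φ (x + Ht5_β i) = φ x + Ht5_β i)
    (m : Fin 2 → ℤ) (x : Vec 2) : φ (x + vz m) = φ x + vz m := by
  rw [Ht5_vz, ← add_assoc, Ht5_smul (h 1), Ht5_smul (h 0), add_assoc]

theorem Ht5_lat {β' : Module.Basis (Fin 2) ℝ (Vec 2)} (h : Pool.Agent.EscG.SameLat Ht5_β β') :
    ∃ m : Fin 2 → ℤ, β' 0 = vz m := by
  obtain ⟨p, q, r, s, -, h0, -⟩ := h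
  exact ⟨_, by rw [h0, Ht5_β_apply, Ht5_β_apply, Ht5_lin]⟩

theorem flat_riem {k : ℕ∞} (hk : 2 ≤ k) {g : Vec 2 → Vec 2 →L[ℝ] Vec 2 →L[ℝ] ℝ}
    (hg : ContDiff ℝ k g) (hs : ∀ x, IsScalarProduct (g x)) (hp : ∀ (m : Fin 2 → ℤ) x, g (x + vz m) = g x)
    (hconst : ∀ (m : Fin 2 → ℤ) (x y : Vec 2), Pool.Agent.EscG.cdist (fun x v => √(g x v v)) x (x + vz m) =
      Pool.Agent.EscG.cdist (fun x v => √(g x v v)) y (y + vz m)) (V : Pot 2 k) :
    {f : Pot 2 k | HasOrbitToInfinity (addPot (rmech g V) f.toFun)} ∈ residual (Pot 2 k) := by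
  have hk2 : (2 : WithTop ℕ∞) ≤ (k : WithTop ℕ∞) := WithTop.coe_le_coe.2 hk
  have hk1 : (1 : ℕ∞) ≤ k := le_trans (by norm_num) hk
  have hR : Pool.Agent.EscG.IsRiem Ht5_β k g :=
    ⟨hg, fun x => (hs x).1, fun x => (hs x).2, fun i x => by rw [Ht5_β_apply]; exact hp _ x⟩
  have hR2 : Pool.Agent.EscG.IsRiem Ht5_β 2 g := ⟨hg.of_le hk2, hR.symm, hR.pos, hR.per⟩
  obtain ⟨mF, MF, m, hF⟩ := hR2.rev.rfins
  have hall : ∀ β', Pool.Agent.EscG.SameLat Ht5_β β' → ∀ x y,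
      _root_.EscG.fd (Pool.Agent.EscG.rn g) x (x + β' 0) =
        _root_.EscG.fd (Pool.Agent.EscG.rn g) y (y + β' 0) := by
    intro β' hβ x y
    obtain ⟨n, hn⟩ := Ht5_lat hβ
    rw [hn, ← hF.cdist_eq, ← hF.cdist_eq]
    exact hconst n x y
  obtain ⟨Q, φ, P, hS⟩ := hR2.hopf hall
  have hφ1 : ContDiff ℝ (k + 1 : ℕ∞) φ := hS.contDiff hk1 hR
  have hφ : ContDiff ℝ k φ := hφ1.of_le (by exact_mod_cast le_self_add)
  obtain ⟨ψ, hl, hr, hψ, hper⟩ := hS.exists_inv hR2 hk1 hφ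
  have hT : TDiff k φ ψ := ⟨hl, hr, hφ, hψ, Ht5_per hS.per, Ht5_per hper⟩
  have hQ : IsScalarProduct Q := ⟨hS.symm, hS.pos⟩
  have hiso : ∀ x v w, g x v w = Q (fderiv ℝ φ x v) (fderiv ℝ φ x w) := by
    intro x v w
    rw [(hS.hasFDerivAt x).fderiv]
    exact hS.iso x v w
  set L' : Lag 2 := fun q => 1 * (Q q.2.1 q.2.1 / 2) + (hT.symm.pull V).toFun (q.1, q.2.2) with hL'
  have h1 := flat_mech (le_refl 2) hk hQ one_pos (hT.symm.pull V) (L := L') (fun x v t => rfl)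
  refine mem_of_superset (hT.symm.residual_pull h1) fun f hf => ?_
  exact hT.orbit hk hQ hR2.smooth hiso V f (L' := L') (fun x v t => by simp only [hL']; ring) hf

end EscG.T
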