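import Pool.Agent.EscG.OCore

/-!
Project EscG, module O2: transfer of potentials between the torus and the coordinates `X = A x`.
-/

noncomputable section

namespace EscG.T

open Filter Topology Set Esc EscN EscF.T
open scoped ContDiff

/-! ### periods -/

/-- a linear combination with integer coefficients of periods is a period -/
theorem O2_per_sum {ι : Type*} [Fintype ι] {V : Type*} [AddCommGroup V] [Module ℝ V] {W : Type*}
    {f : V → W} {v : ι → V} (h : ∀ i, Function.Periodic f (v i)) (m : ι → ℤ) :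
    Function.Periodic f (∑ i, (m i : ℝ) • v i) := by
  classical
  induction (Finset.univ : Finset ι) using Finset.induction_on with
  | empty => intro x; simp
  | insert i s hi ih =>
    rw [Finset.sum_insert hi]
    have h1 : Function.Periodic f ((m i : ℝ) • v i) := by
      rw [Int.cast_smul_eq_zsmul]
      exact (h i).zsmul (m i)
    exact h1.add_period ih

theorem O2_per_vz {n : ℕ} {f : Fun n} (hf : IsPeriodic f) (m : Fin n → ℤ) :
    Function.Periodic f (vz m, 0) := by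
  intro q
  have := hf m 0 q.1 q.2
  rw [Int.cast_zero] at this
  exact this

theorem O2_per_time {n : ℕ} {f : Fun n} (hf : IsPeriodic f) : Function.Periodic f (0, 1) := by
  intro q
  have := hf 0 1 q.1 q.2
  rw [Int.cast_one] at this
  have e : (vz (0 : Fin n → ℤ)) = 0 := by
    ext i
    show ((0 : ℤ) : ℝ) = 0
    simp
  rw [e] at this
  exact this

/-- continuous periodic functions are bounded -/
theorem O2_bdd {E : Type*} [NormedAddCommGroup E] [InnerProductSpace ℝ E] [FiniteDimensional ℝ E]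
    {ι : Type*} [Fintype ι] (β : Module.Basis ι ℝ E) {W : Type*} [NormedAddCommGroup W]
    {Φ : E × ℝ → W} (hc : Continuous Φ) (hx : ∀ i, Function.Periodic Φ (β i, 0))
    (ht : Function.Periodic Φ (0, 1)) : ∃ C : ℝ, ∀ p, ‖Φ p‖ ≤ C := by
  have hK : IsCompact ((Metric.closedBall (0 : E) (∑ i, ‖β i‖)) ×ˢ (Icc (0 : ℝ) 1)) :=
    (isCompact_closedBall _ _).prod isCompact_Icc
  obtain ⟨C, hC⟩ := hK.exists_bound_of_continuousOn hc.continuousOn
  refine ⟨C, ?_⟩
  rintro ⟨x, t⟩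
  have h1 : ∀ v ∈ Submodule.span ℤ (range β), Function.Periodic Φ (v, 0) := by
    intro v hv
    induction hv using Submodule.span_induction with
    | mem v hv =>
      obtain ⟨i, rfl⟩ := hv
      exact hx i
    | zero =>
      intro p
      have e : p + ((0 : E), (0 : ℝ)) = p := by
        rw [Prod.mk_zero_zero, add_zero]
      rw [e]
    | add v w _ _ hv hw =>
      have h2 := hv.add_period hw
      have e : ((v, 0) : E × ℝ) + (w, 0) = (v + w, 0) := by simp
      rwa [e] at h2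
    | smul k v _ hv =>
      have h2 := hv.zsmul k
      have e : k • ((v, 0) : E × ℝ) = (k • v, 0) := by simp
      rwa [e] at h2
  have h2 := h1 _ (ZSpan.floor β x).2 (ZSpan.fract β x, t)
  have h3 := (ht.zsmul ⌊t⌋) (ZSpan.fract β x, Int.fract t)
  have e2 : ((ZSpan.fract β x, t) : E × ℝ) + ((ZSpan.floor β x : E), 0) = (x, t) := by
    refine Prod.ext ?_ ?_
    · simp [ZSpan.fract_apply]
    · simp
  have e3 : ((ZSpan.fract β x, Int.fract t) : E × ℝ) + ⌊t⌋ • ((0, 1) : E × ℝ) =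
      (ZSpan.fract β x, t) := by
    refine Prod.ext ?_ ?_
    · simp
    · simp [Int.fract_add_floor]
  rw [e2] at h2
  rw [e3] at h3
  rw [h2, h3]
  refine hC _ ⟨?_, ?_⟩
  · rw [mem_closedBall_zero_iff]
    exact ZSpan.norm_fract_le β x
  · exact ⟨Int.fract_nonneg t, (Int.fract_lt_one t).le⟩

/-! ### Norms on smooth perturbations -/

section Norms

variable {E : Type*} [NormedAddCommGroup E] [InnerProductSpace ℝ E] [FiniteDimensional ℝ E]
  {ι : Type*} [Fintype ι] {β : Module.Basis ι ℝ E}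

theorem O2_sm_bdd {G : E → ℝ → ℝ} (hG : Sm β G) (j : ℕ) :
    BddAbove (range fun p => ‖iteratedFDeriv ℝ j (fun p : E × ℝ => G p.1 p.2) p‖) := by
  have hper : ∀ c : E × ℝ, Function.Periodic (fun p : E × ℝ => G p.1 p.2) c →
      Function.Periodic (iteratedFDeriv ℝ j (fun p : E × ℝ => G p.1 p.2)) c := by
    intro c hc p
    rw [← iteratedFDeriv_comp_add_right (𝕜 := ℝ) (f := fun p : E × ℝ => G p.1 p.2) j c p]
    congr 1
    exact funext fun q => hc q
  obtain ⟨C, hC⟩ := O2_bdd β (hG.smooth.continuous_iteratedFDeriv (m := j)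
    (by exact_mod_cast le_top)) (fun i => hper _ (fun p => by
      change G (p.1 + β i) (p.2 + 0) = G p.1 p.2
      rw [add_zero]
      exact hG.per i p.1 p.2)) (hper _ (fun p => by
      change G (p.1 + 0) (p.2 + 1) = G p.1 p.2
      rw [add_zero]
      exact hG.pert p.1 p.2))
  exact ⟨C, by rintro _ ⟨p, rfl⟩; exact hC p⟩

/-- a `C^r` norm -/
def O2_cnm (K : ℝ) (hK : 1 ≤ K) (r : ℕ) : SmNorm β where
  nm G := K * ∑ j ∈ Finset.range (r + 1), ⨆ p, ‖iteratedFDeriv ℝ j (fun p : E × ℝ => G p.1 p.2) p‖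
  sup_le := by
    intro G hG x t
    have h1 : |G x t| ≤ ⨆ p, ‖iteratedFDeriv ℝ 0 (fun p : E × ℝ => G p.1 p.2) p‖ := by
      refine le_trans (le_of_eq ?_) (le_ciSup (O2_sm_bdd hG 0) (x, t))
      rw [norm_iteratedFDeriv_zero, Real.norm_eq_abs]
    have h2 : (⨆ p, ‖iteratedFDeriv ℝ 0 (fun p : E × ℝ => G p.1 p.2) p‖) ≤
        ∑ j ∈ Finset.range (r + 1), ⨆ p, ‖iteratedFDeriv ℝ j (fun p : E × ℝ => G p.1 p.2) p‖ :=
      Finset.single_le_sum (f := fun j => ⨆ p, ‖iteratedFDeriv ℝ j (fun p : E × ℝ => G p.1 p.2) p‖)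
        (fun j _ => Real.iSup_nonneg fun p => norm_nonneg _) (by simp)
    have h3 : 0 ≤ ∑ j ∈ Finset.range (r + 1),
        ⨆ p, ‖iteratedFDeriv ℝ j (fun p : E × ℝ => G p.1 p.2) p‖ :=
      Finset.sum_nonneg fun j _ => Real.iSup_nonneg fun p => norm_nonneg _
    nlinarith
  add_le := by
    intro G G' hG hG'
    rw [← mul_add, ← Finset.sum_add_distrib]
    refine mul_le_mul_of_nonneg_left (Finset.sum_le_sum fun j _ => ?_) (by linarith)
    refine ciSup_le fun p => ?_
    have e : iteratedFDeriv ℝ j (fun p : E × ℝ => G p.1 p.2 + G' p.1 p.2) p =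
        iteratedFDeriv ℝ j (fun p : E × ℝ => G p.1 p.2) p +
          iteratedFDeriv ℝ j (fun p : E × ℝ => G' p.1 p.2) p :=
      fun_iteratedFDeriv_add_apply (hG.smooth.of_le (by exact_mod_cast le_top)).contDiffAt
        (hG'.smooth.of_le (by exact_mod_cast le_top)).contDiffAt
    rw [e]
    exact (norm_add_le _ _).trans (add_le_add (le_ciSup (O2_sm_bdd hG j) p)
      (le_ciSup (O2_sm_bdd hG' j) p))
  smul_le := by
    intro c G hG
    rw [mul_left_comm |c| K, Finset.mul_sum (a := |c|)]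
    refine mul_le_mul_of_nonneg_left (Finset.sum_le_sum fun j _ => ?_) (by linarith)
    refine ciSup_le fun p => ?_
    have e : iteratedFDeriv ℝ j (fun p : E × ℝ => c * G p.1 p.2) p =
        c • iteratedFDeriv ℝ j (fun p : E × ℝ => G p.1 p.2) p := by
      have e0 : (fun p : E × ℝ => c * G p.1 p.2) = c • (fun p : E × ℝ => G p.1 p.2) := rfl
      rw [e0]
      exact iteratedFDeriv_const_smul_apply (hG.smooth.of_le (by exact_mod_cast le_top)).contDiffAt
    rw [e, norm_smul, Real.norm_eq_abs]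
    exact mul_le_mul_of_nonneg_left (le_ciSup (O2_sm_bdd hG j) p) (abs_nonneg _)

/-- the linear change of variables -/
def O2_sh (T : E ≃L[ℝ] E) : E × ℝ →L[ℝ] E × ℝ :=
  (T.toContinuousLinearMap.comp (ContinuousLinearMap.fst ℝ E ℝ)).prod
    (ContinuousLinearMap.snd ℝ E ℝ)

theorem O2_sh_apply (T : E ≃L[ℝ] E) (q : E × ℝ) : O2_sh T q = (T q.1, q.2) := rfl

/-- smallness of the transported perturbation -/
theorem O2_small (β : Module.Basis ι ℝ E) (T : E ≃L[ℝ] E) (r : ℕ) : ∃ N : SmNorm β, ∀ G, Sm β G →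
    ∀ j ≤ r, ∀ p, ‖iteratedFDeriv ℝ j (fun q : E × ℝ => G (T q.1) q.2) p‖ ≤ N.nm G := by
  set K : ℝ := 1 + ∑ j ∈ Finset.range (r + 1), ‖O2_sh T‖ ^ j with hK
  have hsum : ∀ j ≤ r, ‖O2_sh T‖ ^ j ≤ K := by
    intro j hj
    have := Finset.single_le_sum (f := fun j => ‖O2_sh T‖ ^ j)
      (s := Finset.range (r + 1)) (fun j _ => by positivity) (Finset.mem_range.2 (Nat.lt_succ_of_le hj))
    linarith
  have hK1 : 1 ≤ K := by
    have : 0 ≤ ∑ j ∈ Finset.range (r + 1), ‖O2_sh T‖ ^ j :=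
      Finset.sum_nonneg fun j _ => by positivity
    linarith
  refine ⟨O2_cnm K hK1 r, fun G hG j hj p => ?_⟩
  have hsm : ContDiff ℝ j (fun p : E × ℝ => G p.1 p.2) :=
    hG.smooth.of_le (by exact_mod_cast le_top)
  have e2 := (O2_sh T).iteratedFDeriv_comp_right hsm p le_rfl
  have e0 : (fun q : E × ℝ => G (T q.1) q.2) = (fun p : E × ℝ => G p.1 p.2) ∘ O2_sh T := rfl
  rw [e0, e2]
  have h1 : ‖(iteratedFDeriv ℝ j (fun p : E × ℝ => G p.1 p.2)
      (O2_sh T p)).compContinuousLinearMap fun _ => O2_sh T‖ ≤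
      ‖iteratedFDeriv ℝ j (fun p : E × ℝ => G p.1 p.2) (O2_sh T p)‖ * ‖O2_sh T‖ ^ j := by
    refine (ContinuousMultilinearMap.norm_compContinuousLinearMap_le _ _).trans ?_
    simp
  have h2 : ‖iteratedFDeriv ℝ j (fun p : E × ℝ => G p.1 p.2) (O2_sh T p)‖ ≤
      ∑ j ∈ Finset.range (r + 1), ⨆ p, ‖iteratedFDeriv ℝ j (fun p : E × ℝ => G p.1 p.2) p‖ :=
    (le_ciSup (O2_sm_bdd hG j) (O2_sh T p)).trans
      (Finset.single_le_sum (f := fun j => ⨆ p, ‖iteratedFDeriv ℝ j (fun p : E × ℝ => G p.1 p.2) p‖)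
        (fun j _ => Real.iSup_nonneg fun p => norm_nonneg _)
        (Finset.mem_range.2 (Nat.lt_succ_of_le hj)))
  calc _ ≤ ‖iteratedFDeriv ℝ j (fun p : E × ℝ => G p.1 p.2) (O2_sh T p)‖ * ‖O2_sh T‖ ^ j := h1
    _ = ‖O2_sh T‖ ^ j * ‖iteratedFDeriv ℝ j (fun p : E × ℝ => G p.1 p.2) (O2_sh T p)‖ := by ring
    _ ≤ K * ∑ j ∈ Finset.range (r + 1), ⨆ p, ‖iteratedFDeriv ℝ j (fun p : E × ℝ => G p.1 p.2) p‖ :=
        mul_le_mul (hsum j hj) h2 (norm_nonneg _) (by linarith)

end Norms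

/-! ### transport -/

theorem core_pt {n : ℕ} {k : ℕ∞} (hk : 2 ≤ k) {A : Vec n ≃L[ℝ] Vec n}
    {β : Module.Basis (Fin n) ℝ (Vec n)} (hβ : IsLatBasis A β) (f : Pot n k) :
    Pt β (core A f.toFun) where
  smooth := by
    have h1 : ContDiff ℝ 2 f.toFun := f.contDiff.of_le (WithTop.coe_le_coe.2 hk)
    exact h1.comp ((A.symm.contDiff.comp contDiff_fst).prodMk contDiff_snd)
  per i X t := by
    obtain ⟨m, hm⟩ := hβ.1 i
    have h1 := O2_per_vz f.periodic m (A.symm X, t)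
    simp only [core, map_add]
    rw [hm, ContinuousLinearEquiv.symm_apply_apply, ← h1]
    simp
  pert X t := by
    have h1 := O2_per_time f.periodic (A.symm X, t)
    simp only [core]
    rw [← h1]
    simp

/-- open sets of potentials -/
theorem isOpen_of {n : ℕ} {k : ℕ∞} (hk : 2 ≤ k) {A : Vec n ≃L[ℝ] Vec n}
    {β : Module.Basis (Fin n) ℝ (Vec n)} (hβ : IsLatBasis A β) (P : (Vec n → ℝ → ℝ) → Prop)
    (hP : ∀ f, Pt β f → P f → ∃ r > 0, ∀ f', Pt β f' → (∀ x t, |f x t - f' x t| ≤ r) → P f') :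
    IsOpen {f : Pot n k | P (core A f.toFun)} := by
  rw [isOpen_iff_mem_nhds]
  intro f hf
  obtain ⟨r, hr, h⟩ := hP _ (core_pt hk hβ f) hf
  filter_upwards [mem_nhds_zero f (ρ := r) hr] with f' hf'
  exact h _ (core_pt hk hβ f') fun X t => hf' _

/-- transport back -/
def O2_back {n : ℕ} (A : Vec n ≃L[ℝ] Vec n) (G : Vec n → ℝ → ℝ) : Fun n := fun q => G (A q.1) q.2

theorem O2_back_periodic {n : ℕ} {A : Vec n ≃L[ℝ] Vec n}
    {β : Module.Basis (Fin n) ℝ (Vec n)} (hβ : IsLatBasis A β) {G : Vec n → ℝ → ℝ} (hG : Sm β G) :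
    IsPeriodic (O2_back A G) := by
  intro m l x t
  obtain ⟨c, hc⟩ := hβ.2 m
  have h1 : ∀ t, Function.Periodic (fun x => G x t) (A (vz m)) := by
    intro t
    rw [hc]
    exact O2_per_sum (fun i x => hG.per i x t) c
  have h2 : ∀ x, Function.Periodic (fun t => G x t) ((l : ℝ)) := by
    intro x
    have h3 : Function.Periodic (fun t => G x t) 1 := fun t => hG.pert x t
    have h4 := h3.zsmul l
    simpa using h4
  change G (A (x + vz m)) (t + l) = G (A x) t
  rw [map_add]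
  exact (h1 (t + l) (A x)).trans (h2 (A x) t)

/-- the transported perturbation as a potential -/
def O2_backPot {n : ℕ} {A : Vec n ≃L[ℝ] Vec n}
    {β : Module.Basis (Fin n) ℝ (Vec n)} (hβ : IsLatBasis A β) {G : Vec n → ℝ → ℝ} (hG : Sm β G)
    (k : ℕ∞) : Pot n k where
  toFun := O2_back A G
  contDiff := by
    have h1 : ContDiff ℝ k (fun p : Vec n × ℝ => G p.1 p.2) :=
      hG.smooth.of_le (by exact_mod_cast le_top)
    exact h1.comp (O2_sh A).contDiff
  periodic := O2_back_periodic hβ hG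

theorem O2_core_back {n : ℕ} (A : Vec n ≃L[ℝ] Vec n) (f : Fun n) (G : Vec n → ℝ → ℝ) :
    core A (f + O2_back A G) = fun X t => core A f X t + G X t := by
  funext X t
  simp only [core, O2_back, Pi.add_apply]
  rw [ContinuousLinearEquiv.apply_symm_apply]

/-- small perturbations of potentials -/
theorem dense_of {n : ℕ} {k : ℕ∞} {A : Vec n ≃L[ℝ] Vec n}
    {β : Module.Basis (Fin n) ℝ (Vec n)} (hβ : IsLatBasis A β) (P : (Vec n → ℝ → ℝ) → Prop) (f : Pot n k)
    (hP : ∀ (N : SmNorm β) (ε : ℝ), 0 < ε → ∃ G, Sm β G ∧ N.nm G < ε ∧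
      P (fun x t => core A f.toFun x t + G x t)) (r : ℕ) {ε : ℝ} (hε : 0 < ε) :
    ∃ G : Pot n k, (∀ j ≤ r, ∀ q, ‖iteratedFDeriv ℝ j G.toFun q‖ < ε) ∧
      P (core A (Pot.add f G).toFun) := by
  obtain ⟨N, hN⟩ := O2_small β A r
  obtain ⟨G, hG, hGε, hPG⟩ := hP N ε hε
  refine ⟨O2_backPot hβ hG k, fun j hj q => (hN G hG j hj q).trans_lt hGε, ?_⟩
  change P (core A (f.toFun + O2_back A G))
  rw [O2_core_back]
  exact hPG

end EscG.T
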