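import Pool.Agent.EscG.O5
import Pool.Agent.EscG.O6
import Pool.Agent.EscG.O2

/-!
Project EscG, module O7: mechanical Lagrangians on `𝕋²`, for every conformal factor.
-/

noncomputable section

namespace EscG.T

open Filter Topology Set EscF.T
open scoped ContDiff

theorem O7_single {n : ℕ} (i : Fin n) :
    (EuclideanSpace.basisFun (Fin n) ℝ).toBasis i = vz (Pi.single i (1:ℤ)) := by
  ext j
  by_cases h : j = i
  · subst h
    simp [vz]
  · simp [vz, h]

/-- periodic continuous functions of position and time are bounded -/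
theorem O7_bdd {n : ℕ} {W : Type*} [NormedAddCommGroup W] {Φ : Vec n × ℝ → W} (hc : Continuous Φ)
    (hper : ∀ (m : Fin n → ℤ) (l : ℤ) x t, Φ (x + vz m, t + l) = Φ (x, t)) : ∃ C : ℝ, ∀ p, ‖Φ p‖ ≤ C := by
  refine O2_bdd (EuclideanSpace.basisFun (Fin n) ℝ).toBasis hc (fun i => ?_) ?_
  · rintro ⟨x, t⟩
    have h := hper (Pi.single i 1) 0 x t
    rw [O7_single, Prod.mk_add_mk, add_zero]
    rw [Int.cast_zero, add_zero] at h
    exact h
  · rintro ⟨x, t⟩
    have h := hper 0 1 x t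
    have e : vz (0 : Fin n → ℤ) = 0 := by
      ext i
      simp [vz]
    rw [e, add_zero, Int.cast_one] at h
    rw [Prod.mk_add_mk, add_zero]
    exact h

/-- positive lower bound -/
theorem O7_low {n : ℕ} {ρ : Vec n → ℝ} (hρ : IsConformalFactor ρ) : ∃ c : ℝ, 0 < c ∧ ∀ x, c ≤ ρ x := by
  obtain ⟨C, hC⟩ := O7_bdd (Φ := fun p : Vec n × ℝ => (ρ p.1)⁻¹)
    ((hρ.smooth.continuous.inv₀ fun x => (hρ.pos x).ne').comp continuous_fst)
    (fun m l x t => by rw [hρ.periodic])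
  have hC0 : 0 < C := by
    have h1 := hC (0, 0)
    have h2 : 0 < ‖(ρ (0 : Vec n))⁻¹‖ := norm_pos_iff.2 (inv_ne_zero (hρ.pos 0).ne')
    exact h2.trans_le h1
  refine ⟨C⁻¹, inv_pos.2 hC0, fun x => ?_⟩
  have h1 := hC (x, 0)
  rw [Real.norm_of_nonneg (inv_nonneg.2 (hρ.pos x).le)] at h1
  rw [inv_le_comm₀ hC0 (hρ.pos x)]
  exact h1

/-- a scalar product is bounded below -/
theorem O7_low_Q {n : ℕ} {Q : Vec n →L[ℝ] Vec n →L[ℝ] ℝ} (hQ : IsScalarProduct Q) :
    ∃ c : ℝ, 0 < c ∧ ∀ v, c * ‖v‖ ^ 2 ≤ Q v v := by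
  have hc : Continuous fun v : Vec n => Q v v := Q.continuous.clm_apply continuous_id
  have hK : IsCompact (Metric.sphere (0 : Vec n) 1) := isCompact_sphere _ _
  rcases (Metric.sphere (0 : Vec n) 1).eq_empty_or_nonempty with h0 | h0
  · refine ⟨1, one_pos, fun v => ?_⟩
    have hv : v = 0 := by
      by_contra hv
      have h1 : (‖v‖⁻¹ • v) ∈ Metric.sphere (0 : Vec n) 1 := by
        rw [mem_sphere_zero_iff_norm, norm_smul, norm_inv, norm_norm,
          inv_mul_cancel₀ (norm_ne_zero_iff.2 hv)]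
      rw [h0] at h1
      exact h1
    rw [hv]
    simp
  · obtain ⟨w, hw, hmin⟩ := hK.exists_isMinOn h0 hc.continuousOn
    have hw0 : w ≠ 0 := by
      rintro rfl
      simp at hw
    refine ⟨Q w w, hQ.2 w hw0, fun v => ?_⟩
    by_cases hv : v = 0
    · rw [hv]
      simp
    have hn : ‖v‖ ≠ 0 := norm_ne_zero_iff.2 hv
    have h1 : (‖v‖⁻¹ • v) ∈ Metric.sphere (0 : Vec n) 1 := by
      rw [mem_sphere_zero_iff_norm, norm_smul, norm_inv, norm_norm, inv_mul_cancel₀ hn]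
    have h2 := isMinOn_iff.1 hmin _ h1
    simp only [map_smul, FunLike.coe_smul, Pi.smul_apply, smul_eq_mul] at h2
    have h3 : Q v v = ‖v‖ ^ 2 * (‖v‖⁻¹ * (‖v‖⁻¹ * Q v v)) := by
      field_simp
    rw [h3]
    nlinarith [sq_nonneg ‖v‖]

/-- the mechanical Lagrangian is near its kinetic energy -/
theorem O7_near {n : ℕ} {k : ℕ∞} (hk : 2 ≤ k) {Q : Vec n →L[ℝ] Vec n →L[ℝ] ℝ} (hQ : IsScalarProduct Q)
    {ρ : Vec n → ℝ} (hρ : IsConformalFactor ρ) (V : Pot n k) :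
    IsNear (fun x v => ρ x ^ 2 * Q v v / 2) (mech Q ρ V) := by
  have hk2 : (((2 : ℕ∞)) : WithTop ℕ∞) ≤ (k : WithTop ℕ∞) := WithTop.coe_le_coe.2 hk
  have hV : ContDiff ℝ 2 V.toFun := V.contDiff.of_le hk2
  refine ⟨?_, ?_, ?_, ?_, ?_⟩
  · have h1 : ContDiff ℝ 2 (fun q : Vec n × Vec n × ℝ => ρ q.1 ^ 2) :=
      (hρ.smooth.comp contDiff_fst).pow 2
    have h2 : ContDiff ℝ 2 (fun q : Vec n × Vec n × ℝ => Q q.2.1 q.2.1) :=
      (Q.contDiff.comp (contDiff_fst.comp contDiff_snd)).clm_apply (contDiff_fst.comp contDiff_snd)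
    have h3 : ContDiff ℝ 2 (fun q : Vec n × Vec n × ℝ => V.toFun (q.1, q.2.2)) :=
      hV.comp (contDiff_fst.prodMk (contDiff_snd.comp contDiff_snd))
    exact ((h1.mul h2).div_const 2).add h3
  · intro m l x v t
    show ρ (x + vz m) ^ 2 * Q v v / 2 + V.toFun (x + vz m, t + l) = _
    rw [hρ.periodic, V.periodic]
    rfl
  · obtain ⟨c, hc, hc'⟩ := O7_low hρ
    obtain ⟨q, hq, hq'⟩ := O7_low_Q hQ
    refine ⟨c ^ 2 * q, by positivity, fun x v t w => ?_⟩
    have h1 : fderiv ℝ (fun u => mech Q ρ V (x, u, t)) = fun v => (ρ x ^ 2) • Q v := by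
      funext v
      have h2 := ((O6_hasFDeriv hQ.1 v).const_mul (ρ x ^ 2)).add_const (V.toFun (x, t))
      refine (h2.congr_of_eventuallyEq (Eventually.of_forall fun u => ?_)).fderiv
      show ρ x ^ 2 * Q u u / 2 + V.toFun (x, t) = ρ x ^ 2 * (Q u u / 2) + V.toFun (x, t)
      ring
    rw [iteratedFDeriv_two_apply, h1]
    have h3 : HasFDerivAt (fun v : Vec n => (ρ x ^ 2) • Q v) ((ρ x ^ 2) • Q) v :=
      Q.hasFDerivAt.const_smul (ρ x ^ 2)
    rw [h3.fderiv]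
    have h4 : c ^ 2 ≤ ρ x ^ 2 := pow_le_pow_left₀ hc.le (hc' x) 2
    have h5 := hq' w
    have h6 : c ^ 2 * q * ‖w‖ ^ 2 ≤ ρ x ^ 2 * Q w w := by
      have h7 : 0 ≤ Q w w := le_trans (by positivity) h5
      calc c ^ 2 * q * ‖w‖ ^ 2 = c ^ 2 * (q * ‖w‖ ^ 2) := by ring
        _ ≤ c ^ 2 * Q w w := mul_le_mul_of_nonneg_left h5 (sq_nonneg _)
        _ ≤ ρ x ^ 2 * Q w w := mul_le_mul_of_nonneg_right h4 h7
    simpa using h6
  · obtain ⟨C, hC⟩ := O7_bdd V.contDiff.continuous V.periodic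
    refine ⟨C, fun x v t => ?_⟩
    have e : mech Q ρ V (x, v, t) - ρ x ^ 2 * Q v v / 2 = V.toFun (x, t) := by
      unfold mech
      ring
    rw [e]
    exact hC (x, t)
  · have hd : Continuous fun p : Vec n × ℝ => fderiv ℝ V.toFun p (0, 1) :=
      (hV.continuous_fderiv (by norm_num)).clm_apply continuous_const
    obtain ⟨C, hC⟩ := O7_bdd hd (fun m l x t => by
      have h1 : (fun p : Vec n × ℝ => V.toFun (p + (vz m, (l:ℝ)))) = V.toFun := by
        funext p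
        exact V.periodic m l p.1 p.2
      have h2 := fderiv_comp_add_right (𝕜 := ℝ) (f := V.toFun) (x := (x, t)) (vz m, (l:ℝ))
      rw [h1] at h2
      rw [h2]
      rfl)
    refine ⟨C, fun x v t => ?_⟩
    have h3 : HasDerivAt (fun s => mech Q ρ V (x, v, s)) (fderiv ℝ V.toFun (x, t) (0, 1)) t := by
      have h4 : HasFDerivAt V.toFun (fderiv ℝ V.toFun (x, t)) (x, t) :=
        ((hV.differentiable (by norm_num)) (x, t)).hasFDerivAt
      have h5 : HasDerivAt (fun s : ℝ => (x, s)) ((0 : Vec n), (1:ℝ)) t :=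
        (hasDerivAt_const t x).prodMk (hasDerivAt_id t)
      have h6 := (h4.comp_hasDerivAt t h5).const_add (ρ x ^ 2 * Q v v / 2)
      exact h6
    rw [h3.deriv]
    exact hC (x, t)

/-- the kinetic energy for `n = 0` -/
theorem O7_kinetic (Q : Vec 2 →L[ℝ] Vec 2 →L[ℝ] ℝ) (ρ : Vec 2 → ℝ) :
    kinetic (n := 0) Q ρ (fun _ => 0) (fun _ => 0) = fun x v => ρ x ^ 2 * Q v v / 2 := by
  funext x v
  have h1 : ∀ y : Vec (2 + 0), base (n := 0) y = y := by
    intro y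
    ext i
    rfl
  unfold kinetic
  rw [h1, h1]
  simp

theorem O7_fibre : IsFibreMetric (n := 0) (fun _ => 0) :=
  ⟨continuous_const, fun _ _ => rfl, fun _ => ⟨fun _ _ => rfl, fun v hv => absurd (Subsingleton.elim v 0) hv⟩⟩

theorem O7_conn : IsConnection (n := 0) (fun _ => 0) := ⟨continuous_const, fun _ _ => rfl⟩

/-- mechanical Lagrangians of all conformal metrics of the two-dimensional torus -/
theorem mech_residual {k : ℕ∞} (hk : 2 ≤ k) {Q : Vec 2 →L[ℝ] Vec 2 →L[ℝ] ℝ} (hQ : IsScalarProduct Q)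
    {ρ : Vec 2 → ℝ} (hρ : IsConformalFactor ρ) (V : Pot 2 k) :
    {f : Pot 2 k | HasOrbitToInfinity (addPot (mech Q ρ V) f.toFun)} ∈ residual (Pot 2 k) := by
  by_cases hne : ∃ x y, ρ x ≠ ρ y
  · have h1 : IsNear (kinetic (n := 0) Q ρ (fun _ => 0) (fun _ => 0)) (mech Q ρ V) := by
      rw [O7_kinetic]
      exact O7_near hk hQ hρ V
    exact (result (n := 0) hk hQ hρ hne O7_fibre O7_conn h1).1
  · push Not at hne
    have hc : ∀ x, ρ x = ρ 0 := fun x => hne x 0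
    refine flat_mech le_rfl hk hQ (c := ρ 0 ^ 2) (by have := hρ.pos 0; positivity) V fun x v t => ?_
    show ρ x ^ 2 * Q v v / 2 + V.toFun (x, t) = ρ 0 ^ 2 * (Q v v / 2) + V.toFun (x, t)
    rw [hc x]
    ring

end EscG.T
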