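import Pool.Agent.EscG.FnFinal
import Pool.Agent.EscG.Ht5
import Pool.Agent.EscG.O7

/-!
Project EscG: final theorem for `𝕋²` with an arbitrary Riemannian metric.
-/

set_option autoImplicit false

namespace EscG.U

open Filter Topology Set EscF.T EscG.T

variable {k : ℕ∞} {g : Vec 2 → Vec 2 → Vec 2 → ℝ}

/-- the continuous linear maps of the metric -/
noncomputable def HFinal_G (hg : IsRiemannian k g) : Vec 2 → Vec 2 →L[ℝ] Vec 2 →L[ℝ] ℝ :=
  fun x => toQ (g x) (hg.scalar x)

theorem HFinal_apply (hg : IsRiemannian k g) (x v w : Vec 2) : HFinal_G hg x v w = g x v w := rfl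

theorem HFinal_smooth (hg : IsRiemannian k g) : ContDiff ℝ k (HFinal_G hg) :=
  contDiff_clm_apply_iff.2 fun v => contDiff_clm_apply_iff.2 fun w => hg.smooth v w

theorem HFinal_scalar (hg : IsRiemannian k g) (x : Vec 2) : T.IsScalarProduct (HFinal_G hg x) :=
  toQ_scalar _

theorem HFinal_per (hg : IsRiemannian k g) (m : Fin 2 → ℤ) (x : Vec 2) :
    HFinal_G hg (x + vz m) = HFinal_G hg x := by
  ext v w
  show g (x + vz m) v w = g x v w
  rw [hg.periodic]

theorem HFinal_riem (hk : 2 ≤ k) (hg : IsRiemannian k g) :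
    Pool.Agent.EscG.IsRiem Ht5_β 2 (HFinal_G hg) :=
  ⟨(HFinal_smooth hg).of_le (WithTop.coe_le_coe.2 hk), fun x => (HFinal_scalar hg x).1,
    fun x => (HFinal_scalar hg x).2, fun i x => by rw [Ht5_β_apply]; exact HFinal_per hg _ x⟩

/-- the norm of the metric is a reversible Finsler metric -/
theorem HFinal_fins (hk : 2 ≤ k) (hg : IsRiemannian k g) :
    IsReversibleFinsler (fun x v => √(g x v v)) := by
  have h := (HFinal_riem hk hg).rev
  exact ⟨h.smooth, h.pos, h.hom, fun m x v => by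
    show √(g (x + vz m) v v) = √(g x v v)
    rw [hg.periodic], h.conv⟩

/-- the mechanical Lagrangian is near its kinetic energy -/
theorem HFinal_near (hk : 2 ≤ k) (hg : IsRiemannian k g) (V : Pot 2 k) :
    IsNear (fun x v => g x v v / 2) (U.mech g V) := by
  have hk2 : (((2 : ℕ∞)) : WithTop ℕ∞) ≤ (k : WithTop ℕ∞) := WithTop.coe_le_coe.2 hk
  have hV : ContDiff ℝ 2 V.toFun := V.contDiff.of_le hk2
  have hR := HFinal_riem hk hg
  refine ⟨?_, ?_, ?_, ?_, ?_⟩
  · have h2 : ContDiff ℝ 2 (fun q : Vec 2 × Vec 2 × ℝ => HFinal_G hg q.1 q.2.1 q.2.1) :=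
      ((hR.smooth.comp contDiff_fst).clm_apply (contDiff_fst.comp contDiff_snd)).clm_apply
        (contDiff_fst.comp contDiff_snd)
    have h3 : ContDiff ℝ 2 (fun q : Vec 2 × Vec 2 × ℝ => V.toFun (q.1, q.2.2)) :=
      hV.comp (contDiff_fst.prodMk (contDiff_snd.comp contDiff_snd))
    exact (h2.div_const 2).add h3
  · intro m l x v t
    show g (x + vz m) v v / 2 + V.toFun (x + vz m, t + l) = _
    rw [hg.periodic, V.periodic]
    rfl
  · obtain ⟨mF, MF, m, hF⟩ := hR.rev.rfins
    refine ⟨mF ^ 2, pow_pos hF.fins.mF_pos 2, fun x v t w => ?_⟩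
    have h1 : fderiv ℝ (fun u => U.mech g V (x, u, t)) = fun v => HFinal_G hg x v := by
      funext v
      exact ((O6_hasFDeriv (HFinal_scalar hg x).1 v).add_const (V.toFun (x, t))).fderiv
    rw [iteratedFDeriv_two_apply, h1]
    have h3 : HasFDerivAt (fun v : Vec 2 => HFinal_G hg x v) (HFinal_G hg x) v :=
      (HFinal_G hg x).hasFDerivAt
    rw [h3.fderiv]
    have h4 : mF * ‖w‖ ≤ Pool.Agent.EscG.rn (HFinal_G hg) x w := hF.fins.low x w
    have h5 : (mF * ‖w‖) ^ 2 ≤ Pool.Agent.EscG.rn (HFinal_G hg) x w ^ 2 :=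
      pow_le_pow_left₀ (mul_nonneg hF.fins.mF_pos.le (norm_nonneg _)) h4 2
    rw [hR.sq, mul_pow] at h5
    simpa using h5
  · obtain ⟨C, hC⟩ := O7_bdd V.contDiff.continuous V.periodic
    refine ⟨C, fun x v t => ?_⟩
    have e : U.mech g V (x, v, t) - g x v v / 2 = V.toFun (x, t) := by
      unfold U.mech
      ring
    rw [e]
    exact hC (x, t)
  · have hd : Continuous fun p : Vec 2 × ℝ => fderiv ℝ V.toFun p (0, 1) :=
      (hV.continuous_fderiv (by norm_num)).clm_apply continuous_const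
    obtain ⟨C, hC⟩ := O7_bdd hd (fun m l x t => by
      have h1 : (fun p : Vec 2 × ℝ => V.toFun (p + (vz m, (l:ℝ)))) = V.toFun := by
        funext p
        exact V.periodic m l p.1 p.2
      have h2 := fderiv_comp_add_right (𝕜 := ℝ) (f := V.toFun) (x := (x, t)) (vz m, (l:ℝ))
      rw [h1] at h2
      rw [h2]
      rfl)
    refine ⟨C, fun x v t => ?_⟩
    have h3 : HasDerivAt (fun s => U.mech g V (x, v, s)) (fderiv ℝ V.toFun (x, t) (0, 1)) t := by
      have h4 : HasFDerivAt V.toFun (fderiv ℝ V.toFun (x, t)) (x, t) :=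
        ((hV.differentiable (by norm_num)) (x, t)).hasFDerivAt
      have h5 : HasDerivAt (fun s : ℝ => (x, s)) ((0 : Vec 2), (1:ℝ)) t :=
        (hasDerivAt_const t x).prodMk (hasDerivAt_id t)
      exact (h4.comp_hasDerivAt t h5).const_add (g x v v / 2)
    rw [h3.deriv]
    exact hC (x, t)

/-- the kinetic energy for `n = 0` -/
theorem HFinal_kinetic (hk : 2 ≤ k) (hg : IsRiemannian k g) :
    U.kinetic (n := 0) (fun x v => √(g x v v)) (fun _ _ _ => 0) (fun _ _ => 0) =
      fun x v => g x v v / 2 := by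
  funext x v
  have h1 : ∀ y : Vec (2 + 0), base (n := 0) y = y := by
    intro y
    ext i
    rfl
  unfold U.kinetic
  rw [h1, h1, add_zero]
  have h2 : √(g x v v) ^ 2 = g x v v := (HFinal_riem hk hg).sq x v
  rw [h2]

theorem HFinal_fibre : U.IsFibreMetric (n := 0) (fun _ _ _ => 0) :=
  ⟨fun _ _ => continuous_const, fun _ _ => rfl,
    fun _ => ⟨fun _ _ => rfl, fun _ _ _ => (add_zero 0).symm, fun _ _ _ => (mul_zero _).symm,
      fun v hv => absurd (Subsingleton.elim v 0) hv⟩⟩

theorem HFinal_conn : U.IsConnection (n := 0) (fun _ _ => 0) :=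
  ⟨fun _ => continuous_const, fun _ _ => rfl, fun _ _ _ => (add_zero 0).symm,
    fun _ _ _ => (smul_zero _).symm⟩

theorem result_torus {k : ℕ∞} (hk : 2 ≤ k) {g : Vec 2 → Vec 2 → Vec 2 → ℝ} (hg : IsRiemannian k g)
    (V : Pot 2 k) :
    {f : Pot 2 k | HasOrbitToInfinity (addPot (mech g V) f.toFun)} ∈ residual (Pot 2 k) ∧
      Dense {f : Pot 2 k | HasOrbitToInfinity (addPot (mech g V) f.toFun)} := by
  have := baire 2 k
  refine (fun h => ⟨h, dense_of_mem_residual h⟩) ?_
  by_cases hd : HasNonconstantDisplacement (fun x v => √(g x v v))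
  · have hn : IsNear (U.kinetic (n := 0) (fun x v => √(g x v v)) (fun _ _ _ => 0) (fun _ _ => 0))
        (U.mech g V) := by
      rw [HFinal_kinetic hk hg]
      exact HFinal_near hk hg V
    exact (result_fins (n := 0) hk (HFinal_fins hk hg) hd HFinal_fibre HFinal_conn hn).1
  · unfold HasNonconstantDisplacement at hd
    push Not at hd
    exact flat_riem hk (g := HFinal_G hg) (HFinal_smooth hg) (HFinal_scalar hg) (HFinal_per hg)
      (fun m x y => hd m x y) V

end EscG.U
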