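import Pool.Agent.EscG.HDefs
import Pool.Agent.EscG.R1a

set_option autoImplicit false
set_option linter.unusedSectionVars false

/-!
# EscG geometry, project H, module Hr0: a Riemannian metric is a reversible Finsler metric
-/

noncomputable section

namespace Pool.Agent.EscG

open MeasureTheory Set Filter Topology Esc EscF _root_.EscG
open scoped ContDiff

variable {E : Type*} [NormedAddCommGroup E] [InnerProductSpace ℝ E] [FiniteDimensional ℝ E]
  {β : Module.Basis (Fin 2) ℝ E} {g : E → E →L[ℝ] E →L[ℝ] ℝ}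

/-! ### auxiliary facts -/

theorem Hr0_per {γ : Type*} {f : E → γ} (h : ∀ i x, f (x + β i) = f x) {y : E}
    (hy : y ∈ Submodule.span ℤ (Set.range β)) (x : E) : f (x + y) = f x := by
  induction hy using Submodule.span_induction generalizing x with
  | mem y hy =>
    obtain ⟨i, rfl⟩ := hy
    exact h i x
  | zero => rw [add_zero]
  | add y z _ _ h1 h2 => rw [← add_assoc, h2, h1]
  | smul n y _ h1 =>
    induction n using Int.induction_on generalizing x with
    | zero => rw [zero_smul, add_zero]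
    | succ k ih => rw [add_smul, one_smul, ← add_assoc, h1, ih]
    | pred k ih =>
      rw [sub_smul, one_smul]
      have := h1 (x + (-(k : ℤ) • y - y))
      rw [add_assoc, sub_add_cancel] at this
      rw [← this, ih]

/-- each point is equivalent to a point of a fixed ball -/
theorem Hr0_cell (β : Module.Basis (Fin 2) ℝ E) : ∃ r : ℝ, ∀ x : E, ∃ x' : E, ‖x'‖ ≤ r ∧
    ∀ {γ : Type} (f : E → γ), (∀ i x, f (x + β i) = f x) → f x = f x' := by
  obtain ⟨r, hr⟩ := (ZSpan.fundamentalDomain_isBounded β).subset_closedBall 0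
  refine ⟨r, fun x => ⟨ZSpan.fract β x, ?_, fun f hf => ?_⟩⟩
  · have := hr (ZSpan.fract_mem_fundamentalDomain β x)
    simpa using this
  · have h1 := Hr0_per hf (ZSpan.floor β x).2 (ZSpan.fract β x)
    rw [ZSpan.fract_apply, sub_add_cancel] at h1
    rw [ZSpan.fract_apply]
    exact h1

theorem Hr0_cd {k : WithTop ℕ∞} (h : IsRiem β k g) :
    ContDiff ℝ k (fun p : E × E => g p.1 p.2 p.2) :=
  ((h.smooth.comp contDiff_fst).clm_apply contDiff_snd).clm_apply contDiff_snd

theorem Hr0_nn {k : WithTop ℕ∞} (h : IsRiem β k g) (x v : E) : 0 ≤ g x v v := by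
  by_cases hv : v = 0
  · subst hv; simp
  · exact (h.pos x v hv).le

theorem Hr0_smul {k : WithTop ℕ∞} (_ : IsRiem β k g) (x v : E) (c : ℝ) :
    g x (c • v) (c • v) = c ^ 2 * g x v v := by
  simp only [map_smul, ContinuousLinearMap.smul_apply, smul_eq_mul]
  ring

theorem Hr0_add {k : WithTop ℕ∞} (h : IsRiem β k g) (x v w : E) :
    g x (v + w) (v + w) = g x v v + 2 * g x v w + g x w w := by
  simp only [map_add, ContinuousLinearMap.add_apply]
  rw [h.symm x w v]
  ring

theorem IsRiem.bounds (h : IsRiem β 2 g) : ∃ m M : ℝ, 0 < m ∧ 0 < M ∧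
    ∀ x v, m ^ 2 * ‖v‖ ^ 2 ≤ g x v v ∧ g x v v ≤ M ^ 2 * ‖v‖ ^ 2 := by
  obtain ⟨r, hr⟩ := Hr0_cell β
  have hc := (Hr0_cd h).continuous
  have hK : IsCompact (Metric.closedBall (0 : E) r ×ˢ Metric.sphere (0 : E) 1) :=
    (isCompact_closedBall _ _).prod (isCompact_sphere _ _)
  have hb : β 0 ≠ 0 := β.ne_zero 0
  have hbn : ‖β 0‖ ≠ 0 := norm_ne_zero_iff.2 hb
  have h0 : ‖‖β 0‖⁻¹ • β 0‖ = 1 := by
    rw [norm_smul, norm_inv, norm_norm, inv_mul_cancel₀ hbn]
  have hne : (Metric.closedBall (0 : E) r ×ˢ Metric.sphere (0 : E) 1).Nonempty := by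
    obtain ⟨x', hx', -⟩ := hr 0
    exact ⟨(x', ‖β 0‖⁻¹ • β 0), by simpa using hx', by simpa using h0⟩
  obtain ⟨p, hp, hmin⟩ := hK.exists_isMinOn hne hc.continuousOn
  obtain ⟨q, hq, hmax⟩ := hK.exists_isMaxOn hne hc.continuousOn
  have hsn : ∀ v : E, v ∈ Metric.sphere (0 : E) 1 → v ≠ 0 := by
    intro v hv h0
    rw [h0] at hv
    simp at hv
  have hp0 : 0 < g p.1 p.2 p.2 := h.pos _ _ (hsn _ hp.2)
  have hq0 : 0 < g q.1 q.2 q.2 := h.pos _ _ (hsn _ hq.2)
  refine ⟨√(g p.1 p.2 p.2), √(g q.1 q.2 q.2), Real.sqrt_pos.2 hp0, Real.sqrt_pos.2 hq0, ?_⟩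
  intro x v
  rw [Real.sq_sqrt hp0.le, Real.sq_sqrt hq0.le]
  by_cases hv : v = 0
  · subst hv; simp
  have hn : ‖v‖ ≠ 0 := norm_ne_zero_iff.2 hv
  obtain ⟨x', hx', hf⟩ := hr x
  have e1 : g x v v = g x' v v := hf (fun y => g y v v) (fun i y => by rw [h.per])
  have e2 : g x' v v = ‖v‖ ^ 2 * g x' (‖v‖⁻¹ • v) (‖v‖⁻¹ • v) := by
    rw [Hr0_smul h]
    field_simp
  have hm : (x', ‖v‖⁻¹ • v) ∈ Metric.closedBall (0 : E) r ×ˢ Metric.sphere (0 : E) 1 := by
    refine ⟨by simpa using hx', ?_⟩
    simp only [mem_sphere_iff_norm, sub_zero]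
    rw [norm_smul, norm_inv, norm_norm, inv_mul_cancel₀ hn]
  have h1 : g p.1 p.2 p.2 ≤ g x' (‖v‖⁻¹ • v) (‖v‖⁻¹ • v) := hmin hm
  have h2 : g x' (‖v‖⁻¹ • v) (‖v‖⁻¹ • v) ≤ g q.1 q.2 q.2 := hmax hm
  have h3 : 0 ≤ ‖v‖ ^ 2 := by positivity
  rw [e1, e2]
  constructor
  · rw [mul_comm]
    exact mul_le_mul_of_nonneg_left h1 h3
  · rw [mul_comm (g q.1 q.2 q.2)]
    exact mul_le_mul_of_nonneg_left h2 h3

theorem IsRiem.sq (h : IsRiem β 2 g) (x v : E) : rn g x v ^ 2 = g x v v :=
  Real.sq_sqrt (Hr0_nn h x v)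

theorem Hr0_hom (h : IsRiem β 2 g) (x v : E) (c : ℝ) : rn g x (c • v) = |c| * rn g x v := by
  unfold rn
  rw [Hr0_smul h, Real.sqrt_mul (sq_nonneg c), Real.sqrt_sq_eq_abs]

/-- derivative of the quadratic form -/
theorem Hr0_fd (B : E →L[ℝ] E →L[ℝ] ℝ) (z : E) :
    HasFDerivAt (fun z => B z z) ((B + B.flip) z) z := by
  have h1 : HasFDerivAt (fun z => B z) B z := B.hasFDerivAt
  have h2 := h1.clm_apply (hasFDerivAt_id z)
  refine h2.congr_fderiv ?_
  ext w
  simp

theorem IsRiem.rev (h : IsRiem β 2 g) : IsRevFinsler β (rn g) where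
  smooth := by
    refine ContDiffOn.sqrt (Hr0_cd h).contDiffOn fun p hp => ?_
    exact (h.pos p.1 p.2 hp).ne'
  pos x v hv := Real.sqrt_pos.2 (h.pos x v hv)
  hom := Hr0_hom h
  per i x v := by unfold rn; rw [h.per]
  conv x v w _ hw := by
    have e1 : (fun z => rn g x z ^ 2) = fun z => g x z z := funext fun z => h.sq x z
    have e2 : fderiv ℝ (fun z => g x z z) = fun z => (g x + (g x).flip) z :=
      funext fun z => (Hr0_fd (g x) z).fderiv
    have e3 : fderiv ℝ (fun z => (g x + (g x).flip) z) v = g x + (g x).flip :=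
      (g x + (g x).flip).fderiv
    rw [e1, e2, e3]
    have := h.pos x w hw
    simp only [ContinuousLinearMap.add_apply, ContinuousLinearMap.flip_apply]
    linarith

theorem IsRiem.gu_eq (h : IsRiem β 2 g) (x v w : E) (t : ℝ) :
    inner ℝ (gu (fun x v _ => g x v v / 2) x v t) w = g x v w := by
  unfold gu gradient
  rw [InnerProductSpace.toDual_symm_apply]
  have h1 : HasFDerivAt (fun z => g x z z / 2) ((1 / 2 : ℝ) • ((g x + (g x).flip) v)) v := by
    have h2 := (Hr0_fd (g x) v).const_mul (1 / 2 : ℝ)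
    have e1 : (fun z => g x z z / 2) = fun z => 1 / 2 * g x z z := by
      funext z; ring
    rw [e1]
    exact h2
  rw [h1.fderiv]
  simp only [ContinuousLinearMap.smul_apply, ContinuousLinearMap.add_apply,
    ContinuousLinearMap.flip_apply, smul_eq_mul]
  rw [h.symm x w v]
  ring

theorem IsRiem.gx_eq (h : IsRiem β 2 g) (x v w : E) (t : ℝ) :
    inner ℝ (gx (fun x v _ => g x v v / 2) x v t) w = fderiv ℝ g x w v v / 2 := by
  unfold gx gradient
  rw [InnerProductSpace.toDual_symm_apply]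
  have h0 : HasFDerivAt g (fderiv ℝ g x) x :=
    ((h.smooth.differentiable (by norm_num)) x).hasFDerivAt
  have h1 := (h0.clm_apply (hasFDerivAt_const v x)).clm_apply (hasFDerivAt_const v x)
  have h2 := h1.const_mul (1 / 2 : ℝ)
  have e1 : (fun y => g y v v / 2) = fun y => 1 / 2 * g y v v := by
    funext y; ring
  rw [e1, h2.fderiv]
  simp
  ring

theorem IsRiem.tl (h : IsRiem β 2 g) : ∃ mF MF m : ℝ,
    TL β (rn g) mF MF m 0 (fun x v _ => g x v v / 2) := by
  obtain ⟨m, M, hm, hM, hb⟩ := h.bounds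
  have hle : m ≤ M := by
    have h1 := (hb 0 (β 0)).1.trans (hb 0 (β 0)).2
    have h2 : 0 < ‖β 0‖ ^ 2 := by
      have := norm_pos_iff.2 (β.ne_zero 0)
      positivity
    have h3 := le_of_mul_le_mul_right h1 h2
    exact le_of_sq_le_sq h3 hM.le
  refine ⟨m, M, m ^ 2, ?_⟩
  exact
    { fins :=
        { mF_pos := hm
          mF_le := hle
          cont := (Hr0_cd h).continuous.sqrt
          per := fun i x v => by unfold rn; rw [h.per]
          hom := fun x v c hc => by rw [Hr0_hom h, abs_of_nonneg hc]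
          low := fun x v => by
            unfold rn
            apply Real.le_sqrt_of_sq_le
            rw [mul_pow]
            exact (hb x v).1
          upp := fun x v => by
            unfold rn
            rw [Real.sqrt_le_left (by positivity), mul_pow]
            exact (hb x v).2 }
      m_pos := by positivity
      M_nonneg := le_rfl
      smooth := by
        have h1 : ContDiff ℝ 2 (fun p : E × E × ℝ => g p.1 p.2.1 p.2.1) :=
          (Hr0_cd h).comp (contDiff_fst.prodMk (contDiff_fst.comp contDiff_snd))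
        exact h1.div_const 2
      per := fun i x v t => by simp only [h.per]
      pert := fun x v t => rfl
      conv := fun x u v t => by
        rw [h.gu_eq]
        have h1 := Hr0_add h x v (u - v)
        rw [add_sub_cancel] at h1
        have h2 := (hb x (u - v)).1
        simp only [h1]
        linarith
      l_t := fun x v t t' => by simp
      l_F := fun x v t => by
        rw [h.sq]
        simp }

end Pool.Agent.EscG
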