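import Pool.Agent.EscG.Hr0
import Pool.Agent.EscG.Fn0
import Pool.Agent.EscG.Fn5

set_option autoImplicit false

/-!
# EscG geometry, project H, module Hr1: isometric lines of a Riemannian metric

`RFins` for `rn g` from `IsRiem.rev` and Fn0, a regularised energy `l` from `RFins.exists_reg`; on every `[-n, n]` (or `[t-1,t+1]`) `RFins.fiso_geo` (Fn4) gives
`FGeo (rn g) l Z v`. Since `rn g (Z t) (v t) = 1 > 1/2` and `l = (rn g)²/2 = g x v v / 2` on the open set `{rn g x v > 1/2}` (`Reg.eq`), `gu l` and `gx l` at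
`(Z t, v t)` are those of `g x v v / 2` (`Filter.EventuallyEq` for gradients), i.e. the Riesz vectors of `g (Z t) (v t)` and `fderiv g (Z t) · (v t) (v t) / 2`
(`gu_eq`, `gx_eq`). See `RFins.fiso_univ` in Fn5.lean and `Conf.iso_gode_univ` in R2.lean for the passage to the whole line.
`line_unique`: `RFins.fgeo_unique` on `[-n, n]`.
-/

noncomputable section

namespace Pool.Agent.EscG

open MeasureTheory Set Filter Topology Esc EscF _root_.EscG
open scoped ContDiff

variable {E : Type*} [NormedAddCommGroup E] [InnerProductSpace ℝ E] [FiniteDimensional ℝ E]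
  {β : Module.Basis (Fin 2) ℝ E} {g : E → E →L[ℝ] E →L[ℝ] ℝ}

/-- the geodesics of the regularised energy on compact intervals -/
theorem Hr1_geo {F : E → E → ℝ} {mF MF m m' M : ℝ} {l : E → E → ℝ → ℝ} (hF : RFins β F mF MF m)
    (hr : Reg β F mF MF m' M l) {Z : ℝ → E} (hZ : ∀ s t, fd F (Z s) (Z t) = |s - t|) {a c : ℝ}
    (hac : a < c) : ∃ v, FGeo F l Z v a c ∧ ∀ r ∈ Ioo a c, HasDerivAt Z (v r) r := by
  obtain ⟨v, hv⟩ := hF.fiso_geo hr hac (Z := Z) (fun s _ t _ => hZ s t)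
  exact ⟨v, hv, fun r hrm => (Fn5_dZ hac.le hv r ⟨hrm.1.le, hrm.2.le⟩).hasDerivAt
    (Icc_mem_nhds hrm.1 hrm.2)⟩

theorem Hr1_gu (h : IsRiem β 2 g) {mF MF m m' M : ℝ} {l : E → E → ℝ → ℝ}
    (hF : RFins β (rn g) mF MF m) (hr : Reg β (rn g) mF MF m' M l) {x v : E} (hv : rn g x v = 1)
    (w : E) (t : ℝ) : inner ℝ (gu l x v t) w = g x v w := by
  rw [← h.gu_eq x v w t]
  have hc : Continuous (fun z : E => rn g x z) :=
    hF.fins.cont.comp (continuous_const.prodMk continuous_id)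
  have h1 : ∀ᶠ z in 𝓝 v, 1 / 2 < rn g x z :=
    hc.continuousAt.eventually (lt_mem_nhds (by show 1 / 2 < rn g x v; rw [hv]; norm_num))
  have h2 : (fun z => l x z t) =ᶠ[𝓝 v] (fun z => g x z z / 2) := by
    filter_upwards [h1] with z hz
    rw [hr.eq x z t hz.le, h.sq]
  have h3 : gu l x v t = gu (fun x v _ => g x v v / 2) x v t := by
    unfold gu gradient
    rw [h2.fderiv_eq]
  rw [h3]

theorem Hr1_gx (h : IsRiem β 2 g) {mF MF m m' M : ℝ} {l : E → E → ℝ → ℝ}
    (hF : RFins β (rn g) mF MF m) (hr : Reg β (rn g) mF MF m' M l) {x v : E} (hv : rn g x v = 1)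
    (w : E) (t : ℝ) : inner ℝ (gx l x v t) w = fderiv ℝ g x w v v / 2 := by
  rw [← h.gx_eq x v w t]
  have hc : Continuous (fun z : E => rn g z v) :=
    hF.fins.cont.comp (continuous_id.prodMk continuous_const)
  have h1 : ∀ᶠ z in 𝓝 x, 1 / 2 < rn g z v :=
    hc.continuousAt.eventually (lt_mem_nhds (by show 1 / 2 < rn g x v; rw [hv]; norm_num))
  have h2 : (fun z => l z v t) =ᶠ[𝓝 x] (fun z => g z v v / 2) := by
    filter_upwards [h1] with z hz
    rw [hr.eq z v t hz.le, h.sq]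
  have h3 : gx l x v t = gx (fun x v _ => g x v v / 2) x v t := by
    unfold gx gradient
    rw [h2.fderiv_eq]
  rw [h3]

theorem IsRiem.line (h : IsRiem β 2 g) {Z : ℝ → E} (hZ : ∀ s t, fd (rn g) (Z s) (Z t) = |s - t|) :
    ∃ v : ℝ → E, Continuous v ∧ (∀ t, HasDerivAt Z (v t) t) ∧ (∀ t, g (Z t) (v t) (v t) = 1) ∧
      ∀ s t, ∀ w, g (Z t) (v t) w - g (Z s) (v s) w = ∫ r in s..t, fderiv ℝ g (Z r) w (v r) (v r) / 2 := by
  obtain ⟨mF, MF, m, hF⟩ := h.rev.rfins
  obtain ⟨m', M, l, hr⟩ := hF.exists_reg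
  obtain ⟨v, hvc, hv⟩ := hF.fiso_univ hZ
  refine ⟨v, hvc, fun t => (hv t).1, fun t => ?_, fun s t w => ?_⟩
  · rw [← h.sq, (hv t).2, one_pow]
  · obtain ⟨v', hg, hd⟩ := Hr1_geo hF hr hZ (a := min s t - 1) (c := max s t + 1)
      (by linarith [min_le_max (a := s) (b := t)])
    have he : ∀ r ∈ Ioo (min s t - 1) (max s t + 1), v' r = v r := fun r hrm =>
      (hd r hrm).unique (hv r).1
    have hsm : s ∈ Ioo (min s t - 1) (max s t + 1) :=
      ⟨by linarith [min_le_left s t], by linarith [le_max_left s t]⟩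
    have htm : t ∈ Ioo (min s t - 1) (max s t + 1) :=
      ⟨by linarith [min_le_right s t], by linarith [le_max_right s t]⟩
    have hsub : ∀ r ∈ uIcc s t, r ∈ Ioo (min s t - 1) (max s t + 1) := by
      intro r hrm
      have h1 : min s t ≤ r ∧ r ≤ max s t := hrm
      exact ⟨by linarith [h1.1], by linarith [h1.2]⟩
    have hel := hg.el s ⟨hsm.1.le, hsm.2.le⟩ t ⟨htm.1.le, htm.2.le⟩
    have hac : min s t - 1 ≤ max s t + 1 := by linarith [min_le_max (a := s) (b := t)]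
    obtain ⟨C, hC⟩ := hg.lip
    have hZc : ContinuousOn Z (Icc (min s t - 1) (max s t + 1)) := fun r hrm =>
      (Fn5_dZ hac hg r hrm).continuousWithinAt
    have hi : IntervalIntegrable (fun r => gx l (Z r) (v' r) r) volume s t := by
      refine ((R1b_comp hr.tl.gx_cont hZc (R1b_cont hC)).mono fun r hrm => ?_).intervalIntegrable
      exact ⟨(hsub r hrm).1.le, (hsub r hrm).2.le⟩
    have h2 : inner ℝ (gu l (Z t) (v' t) t - gu l (Z s) (v' s) s) w =
        ∫ r in s..t, fderiv ℝ g (Z r) w (v r) (v r) / 2 := by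
      rw [hel, real_inner_comm]
      have h3 := (innerSL ℝ w).intervalIntegral_comp_comm hi
      rw [innerSL_apply_apply] at h3
      rw [← h3]
      refine intervalIntegral.integral_congr fun r hrm => ?_
      have hrm' := hsub r hrm
      show inner ℝ w (gx l (Z r) (v' r) r) = _
      rw [real_inner_comm, he r hrm', Hr1_gx h hF hr (hv r).2 w r]
    rw [← h2, inner_sub_left, he t htm, he s hsm, Hr1_gu h hF hr (hv t).2 w t,
      Hr1_gu h hF hr (hv s).2 w s]

theorem IsRiem.line_unique (h : IsRiem β 2 g) {Z Z' : ℝ → E}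
    (hZ : ∀ s t, fd (rn g) (Z s) (Z t) = |s - t|) (hZ' : ∀ s t, fd (rn g) (Z' s) (Z' t) = |s - t|)
    (h0 : Z 0 = Z' 0) (h1 : deriv Z 0 = deriv Z' 0) : ∀ t, Z t = Z' t := by
  intro t
  obtain ⟨mF, MF, m, hF⟩ := h.rev.rfins
  obtain ⟨m', M, l, hr⟩ := hF.exists_reg
  have hn := neg_abs_le t
  have hn' := le_abs_self t
  have hn0 := abs_nonneg t
  obtain ⟨v, hg, hd⟩ := Hr1_geo hF hr hZ (a := -(|t| + 1)) (c := |t| + 1) (by linarith)
  obtain ⟨v', hg', hd'⟩ := Hr1_geo hF hr hZ' (a := -(|t| + 1)) (c := |t| + 1) (by linarith)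
  have h00 : (0 : ℝ) ∈ Ioo (-(|t| + 1)) (|t| + 1) := ⟨by linarith, by linarith⟩
  refine hF.fgeo_unique hr hg hg' (t0 := 0) ⟨h00.1.le, h00.2.le⟩ h0 ?_ t
    ⟨by linarith, by linarith⟩
  rw [← (hd 0 h00).deriv, ← (hd' 0 h00).deriv, h1]

end Pool.Agent.EscG
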