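import Pool.Agent.EscG.Hr0

set_option autoImplicit false

/-!
# EscG geometry, project H, module Hr10: limits of the forms

Tychonoff. Let `m, M` be the bounds of `g` (`IsRiem.bounds`). If `CF β g K a U W` then `‖W x‖ ≤ 1/m`, and, for `U 0 = 0` (subtract the constant `U 0`),
`|U x| ≤ C ‖x‖ + K ‖x‖²` with `C = M/m`. Consider in the product space `(ℝ × ℝ) × (E → ℝ) × (E → E)` the set of `(a, U, W)` with `U 0 = 0` and `CF β g K a U W`: every condition is
closed (it involves finitely many coordinates, continuous), the set is contained in a product of compact sets (`isCompact_univ_pi`; closed balls in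
finite dimensional spaces; `|a.1|, |a.2|` bounded: `a.1 = U (β 0)`), so it is compact, and so is its projection to `ℝ × ℝ`. This projection contains all `c k`, hence their closure.
-/

noncomputable section

namespace Pool.Agent.EscG

open MeasureTheory Set Filter Topology Esc EscF _root_.EscG
open scoped ContDiff

variable {E : Type*} [NormedAddCommGroup E] [InnerProductSpace ℝ E] [FiniteDimensional ℝ E]
  {β : Module.Basis (Fin 2) ℝ E} {g : E → E →L[ℝ] E →L[ℝ] ℝ} {K : ℝ} {σ : ℤ × ℤ → ℝ}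
  {U : ℤ × ℤ → E → ℝ} {c : ℤ × ℤ → ℝ × ℝ} {W : ℤ × ℤ → E → E}

/-- the normalised forms -/
def Hr10_set (β : Module.Basis (Fin 2) ℝ E) (g : E → E →L[ℝ] E →L[ℝ] ℝ) (K : ℝ) :
    Set ((ℝ × ℝ) × (E → ℝ) × (E → E)) :=
  {p | p.2.1 0 = 0 ∧ CF β g K p.1 p.2.1 p.2.2}

theorem Hr10_closed : IsClosed (Hr10_set β g K) := by
  have h : Hr10_set β g K =
      {p : (ℝ × ℝ) × (E → ℝ) × (E → E) | p.2.1 0 = 0} ∩
      ((⋂ x : E, {p : (ℝ × ℝ) × (E → ℝ) × (E → E) | p.2.1 (x + β 0) = p.2.1 x + p.1.1}) ∩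
      ((⋂ x : E, {p : (ℝ × ℝ) × (E → ℝ) × (E → E) | p.2.1 (x + β 1) = p.2.1 x + p.1.2}) ∩
      ((⋂ x : E, ⋂ y : E, {p : (ℝ × ℝ) × (E → ℝ) × (E → E) |
        |p.2.1 y - p.2.1 x - g x (p.2.2 x) (y - x)| ≤ K * ‖y - x‖ ^ 2}) ∩
      (⋂ x : E, {p : (ℝ × ℝ) × (E → ℝ) × (E → E) | g x (p.2.2 x) (p.2.2 x) = 1})))) := by
    ext p
    simp only [Hr10_set, mem_ofPred_eq, mem_inter_iff, mem_iInter]
    constructor
    · rintro ⟨h0, h⟩
      exact ⟨h0, h.U0, h.U1, h.quad, h.unit⟩
    · rintro ⟨h0, h1, h2, h3, h4⟩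
      exact ⟨h0, h1, h2, h3, h4⟩
  have eU : ∀ x : E, Continuous fun p : (ℝ × ℝ) × (E → ℝ) × (E → E) => p.2.1 x := fun x =>
    (continuous_apply x).comp (continuous_fst.comp continuous_snd)
  have eW : ∀ x : E, Continuous fun p : (ℝ × ℝ) × (E → ℝ) × (E → E) => p.2.2 x := fun x =>
    (continuous_apply x).comp (continuous_snd.comp continuous_snd)
  have e1 : Continuous fun p : (ℝ × ℝ) × (E → ℝ) × (E → E) => p.1.1 :=
    continuous_fst.comp continuous_fst
  have e2 : Continuous fun p : (ℝ × ℝ) × (E → ℝ) × (E → E) => p.1.2 :=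
    continuous_snd.comp continuous_fst
  rw [h]
  refine (isClosed_eq (eU 0) continuous_const).inter ?_
  refine (isClosed_iInter fun x => isClosed_eq (eU _) ((eU x).add e1)).inter ?_
  refine (isClosed_iInter fun x => isClosed_eq (eU _) ((eU x).add e2)).inter ?_
  refine (isClosed_iInter fun x => isClosed_iInter fun y => isClosed_le ?_ continuous_const).inter ?_
  · exact (((eU y).sub (eU x)).sub
      (((g x).continuous.comp (eW x)).clm_apply continuous_const)).abs
  · exact isClosed_iInter fun x => isClosed_eq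
      (((g x).continuous.comp (eW x)).clm_apply (eW x)) continuous_const

/-- the set of periods of the forms with constant `K` -/
theorem cf_compact (hg : IsRiem β 2 g) (hK : 0 ≤ K) :
    IsCompact {a : ℝ × ℝ | ∃ (u : E → ℝ) (w : E → E), CF β g K a u w} := by
  obtain ⟨m, M, hm, hM, hb⟩ := hg.bounds
  have hW : ∀ {a : ℝ × ℝ} {u : E → ℝ} {w : E → E}, CF β g K a u w → ∀ x, ‖w x‖ ≤ 1 / m := by
    intro a u w h x
    have h1 := (hb x (w x)).1
    rw [h.unit x] at h1
    have h2 : (m * ‖w x‖) ^ 2 ≤ 1 ^ 2 := by rw [mul_pow]; simpa using h1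
    have h3 : m * ‖w x‖ ≤ 1 := le_of_sq_le_sq h2 zero_le_one
    rw [le_div_iff₀ hm, mul_comm]
    exact h3
  set B : E → ℝ := fun x => ‖g 0‖ * (1 / m) * ‖x‖ + K * ‖x‖ ^ 2 with hB
  have hU : ∀ {a : ℝ × ℝ} {u : E → ℝ} {w : E → E}, u 0 = 0 → CF β g K a u w →
      ∀ x, |u x| ≤ B x := by
    intro a u w h0 h x
    have h1 := h.quad 0 x
    rw [h0, sub_zero, sub_zero] at h1
    have h2 : |g 0 (w 0) x| ≤ ‖g 0‖ * (1 / m) * ‖x‖ := by
      have h3 : ‖g 0 (w 0) x‖ ≤ ‖g 0‖ * ‖w 0‖ * ‖x‖ := (g 0).le_opNorm₂ (w 0) x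
      refine h3.trans ?_
      have := hW h 0
      gcongr
    calc |u x| = |(u x - g 0 (w 0) x) + g 0 (w 0) x| := by ring_nf
      _ ≤ |u x - g 0 (w 0) x| + |g 0 (w 0) x| := abs_add_le _ _
      _ ≤ K * ‖x‖ ^ 2 + ‖g 0‖ * (1 / m) * ‖x‖ := add_le_add h1 h2
      _ = B x := by rw [hB]; ring
  set R : ℝ := max (B (β 0)) (B (β 1)) with hR
  have hsub : Hr10_set β g K ⊆ (Metric.closedBall (0 : ℝ × ℝ) R) ×ˢ
      ((Set.pi univ fun x : E => Metric.closedBall (0 : ℝ) (B x)) ×ˢ
        (Set.pi univ fun _ : E => Metric.closedBall (0 : E) (1 / m))) := by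
    rintro ⟨a, u, w⟩ ⟨h0, h⟩
    simp only at h0 h
    refine ⟨?_, ?_, ?_⟩
    · rw [mem_closedBall_zero_iff, Prod.norm_def]
      have ha1 : a.1 = u (β 0) := by
        have := h.U0 0
        rw [zero_add, h0, zero_add] at this
        exact this.symm
      have ha2 : a.2 = u (β 1) := by
        have := h.U1 0
        rw [zero_add, h0, zero_add] at this
        exact this.symm
      refine max_le_max ?_ ?_
      · show ‖a.1‖ ≤ _
        rw [ha1, Real.norm_eq_abs]
        exact hU h0 h _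
      · show ‖a.2‖ ≤ _
        rw [ha2, Real.norm_eq_abs]
        exact hU h0 h _
    · intro x _
      rw [mem_closedBall_zero_iff, Real.norm_eq_abs]
      exact hU h0 h x
    · intro x _
      rw [mem_closedBall_zero_iff]
      exact hW h x
  have : ProperSpace E := FiniteDimensional.proper_real E
  have hcomp : IsCompact (Hr10_set β g K) := by
    refine IsCompact.of_isClosed_subset ?_ Hr10_closed hsub
    refine (isCompact_closedBall _ _).prod ((isCompact_univ_pi fun x => isCompact_closedBall _ _).prod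
      (isCompact_univ_pi fun x => isCompact_closedBall _ _))
  have himg : {a : ℝ × ℝ | ∃ (u : E → ℝ) (w : E → E), CF β g K a u w} =
      Prod.fst '' (Hr10_set β g K) := by
    ext a
    constructor
    · rintro ⟨u, w, h⟩
      refine ⟨(a, fun x => u x - u 0, w), ⟨sub_self _, ?_⟩, rfl⟩
      refine ⟨fun x => ?_, fun x => ?_, fun x y => ?_, h.unit⟩
      · show u (x + β 0) - u 0 = u x - u 0 + a.1
        rw [h.U0 x]; ring
      · show u (x + β 1) - u 0 = u x - u 0 + a.2
        rw [h.U1 x]; ring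
      · show |u y - u 0 - (u x - u 0) - g x (w x) (y - x)| ≤ K * ‖y - x‖ ^ 2
        rw [sub_sub_sub_cancel_right]
        exact h.quad x y
    · rintro ⟨⟨a', u, w⟩, ⟨_, h⟩, rfl⟩
      exact ⟨u, w, h⟩
  rw [himg]
  exact hcomp.image continuous_fst

theorem FolR.closure (h : FolR β g K σ U c W) :
    IsCompact (closure {a : ℝ × ℝ | ∃ k, Prim k ∧ a = c k}) ∧
      ∀ a ∈ closure {a : ℝ × ℝ | ∃ k, Prim k ∧ a = c k}, ∃ (u : E → ℝ) (w : E → E), CF β g K a u w := by
  have hc : IsCompact {a : ℝ × ℝ | ∃ (u : E → ℝ) (w : E → E), CF β g K a u w} :=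
    cf_compact h.riem h.K_nonneg
  have hs : {a : ℝ × ℝ | ∃ k, Prim k ∧ a = c k} ⊆
      {a : ℝ × ℝ | ∃ (u : E → ℝ) (w : E → E), CF β g K a u w} := by
    rintro a ⟨k, hk, rfl⟩
    exact ⟨U k, W k, h.cf k hk⟩
  exact ⟨hc.closure_of_subset hs, fun a ha => closure_minimal hs hc.isClosed ha⟩

end Pool.Agent.EscG
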