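import Pool.Agent.EscG.HDefs

set_option autoImplicit false

/-!
# EscG geometry, project H, module Hr11: the case of equality (abstract)

With `S = 2 Σ w i p_i ⊗ p_i` one has `e² (D² - det S) = D² (S00 - e)² + (e S01 - f S00)²`, and
`det S = 2 Σ w i w j (p_i ∧ p_j)²` (Lagrange). The rest is the equality case of the inequality of
Cauchy and Schwarz.
-/

noncomputable section

namespace Pool.Agent.EscG

open MeasureTheory Set Filter Topology

theorem Hr11_lagrange {m : ℕ} (w a b : Fin m → ℝ) :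
    ∑ i, ∑ j, w i * w j * (a i * b j - b i * a j) ^ 2 =
      2 * ((∑ i, w i * a i ^ 2) * (∑ i, w i * b i ^ 2) - (∑ i, w i * (a i * b i)) ^ 2) := by
  have h1 : (∑ i, w i * a i ^ 2) * (∑ j, w j * b j ^ 2) =
      ∑ i, ∑ j, (w i * a i ^ 2) * (w j * b j ^ 2) := by
    rw [Finset.sum_mul_sum]
  have h2 : (∑ i, w i * b i ^ 2) * (∑ j, w j * a j ^ 2) =
      ∑ i, ∑ j, (w i * b i ^ 2) * (w j * a j ^ 2) := by
    rw [Finset.sum_mul_sum]
  have h3 : (∑ i, w i * (a i * b i)) ^ 2 =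
      ∑ i, ∑ j, (w i * (a i * b i)) * (w j * (a j * b j)) := by
    rw [sq, Finset.sum_mul_sum]
  have h4 : ∑ i, ∑ j, w i * w j * (a i * b j - b i * a j) ^ 2 =
      ∑ i, ∑ j, (w i * a i ^ 2) * (w j * b j ^ 2) +
        ∑ i, ∑ j, (w i * b i ^ 2) * (w j * a j ^ 2) -
        2 * ∑ i, ∑ j, (w i * (a i * b i)) * (w j * (a j * b j)) := by
    simp only [Finset.mul_sum, ← Finset.sum_add_distrib, ← Finset.sum_sub_distrib]
    refine Finset.sum_congr rfl fun i _ => Finset.sum_congr rfl fun j _ => ?_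
    ring
  rw [h4, ← h1, ← h2, ← h3]
  ring

theorem Hr11_ident {e f h D x y t : ℝ} (hD2 : D ^ 2 = e * h - f ^ 2)
    (hT : h * x - 2 * f * y + e * t = 2 * D ^ 2) :
    e ^ 2 * (D ^ 2 - (x * t - y ^ 2)) = D ^ 2 * (x - e) ^ 2 + (e * y - f * x) ^ 2 := by
  linear_combination (-x * e) * hT - x ^ 2 * hD2

theorem Hr11_det_le {e f h D x y t : ℝ} (he : 0 < e) (hD2 : D ^ 2 = e * h - f ^ 2)
    (hT : h * x - 2 * f * y + e * t = 2 * D ^ 2) : x * t - y ^ 2 ≤ D ^ 2 := by
  have h1 := Hr11_ident hD2 hT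
  have h2 : 0 ≤ e ^ 2 * (D ^ 2 - (x * t - y ^ 2)) := by
    rw [h1]
    positivity
  have h3 : 0 < e ^ 2 := by positivity
  have h4 : 0 ≤ D ^ 2 - (x * t - y ^ 2) := by
    by_contra hc
    push Not at hc
    have := mul_neg_of_pos_of_neg h3 hc
    linarith
  linarith

theorem Hr11_det_eq {e f h D x y t : ℝ} (he : 0 < e) (hD : 0 < D)
    (hD2 : D ^ 2 = e * h - f ^ 2) (hT : h * x - 2 * f * y + e * t = 2 * D ^ 2)
    (hE : x * t - y ^ 2 = D ^ 2) : x = e ∧ y = f ∧ t = h := by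
  have h1 := Hr11_ident hD2 hT
  rw [hE, sub_self, mul_zero] at h1
  have h2 : 0 ≤ D ^ 2 * (x - e) ^ 2 := by positivity
  have h3 : 0 ≤ (e * y - f * x) ^ 2 := by positivity
  have h4 : D ^ 2 * (x - e) ^ 2 = 0 := by linarith
  have h5 : (e * y - f * x) ^ 2 = 0 := by linarith
  have h6 : (x - e) ^ 2 = 0 := by
    rcases mul_eq_zero.mp h4 with h | h
    · have : 0 < D ^ 2 := by positivity
      linarith
    · exact h
  have h7 : x = e := by
    have := pow_eq_zero_iff (two_ne_zero) |>.mp h6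
    linarith
  have h8 : e * y - f * x = 0 := pow_eq_zero_iff (two_ne_zero) |>.mp h5
  subst h7
  have h9 : y = f := by
    have : x * (y - f) = 0 := by linarith
    rcases mul_eq_zero.mp this with h | h
    · linarith
    · linarith
  subst h9
  refine ⟨rfl, rfl, ?_⟩
  have : x * (t - h) = 0 := by
    have := hD2
    nlinarith
  rcases mul_eq_zero.mp this with h | h
  · linarith
  · linarith

theorem Hr11_closure : Icc (0 : ℝ × ℝ) (1, 1) ⊆ closure (interior (Icc (0 : ℝ × ℝ) (1, 1))) := by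
  have h0 : Icc (0 : ℝ × ℝ) (1, 1) = Icc (0 : ℝ) 1 ×ˢ Icc (0 : ℝ) 1 := by
    rw [← Icc_prod_Icc]
    rfl
  rw [h0, interior_prod_eq, closure_prod_eq, interior_Icc, closure_Ioo (by norm_num)]

theorem Hr11_eq_zero {g : ℝ × ℝ → ℝ} (cg : Continuous g) (hg : ∀ z, 0 ≤ g z)
    (h : ∫ z in Icc (0 : ℝ × ℝ) (1, 1), g z ≤ 0) : ∀ z ∈ Icc (0 : ℝ × ℝ) (1, 1), g z = 0 := by
  have hint : IntegrableOn g (Icc (0 : ℝ × ℝ) (1, 1)) :=
    cg.continuousOn.integrableOn_compact isCompact_Icc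
  have h0 : ∫ z in Icc (0 : ℝ × ℝ) (1, 1), g z = 0 :=
    le_antisymm h (integral_nonneg fun z => hg z)
  have h1 : g =ᵐ[volume.restrict (Icc (0 : ℝ × ℝ) (1, 1))] 0 := by
    rwa [integral_eq_zero_iff_of_nonneg (fun z => hg z) hint] at h0
  have h2 : EqOn g 0 (Icc (0 : ℝ × ℝ) (1, 1)) :=
    Measure.eqOn_of_ae_eq h1 cg.continuousOn continuousOn_const Hr11_closure
  intro z hz
  exact h2 hz

theorem Hr11_pos {D : ℝ × ℝ → ℝ} (cD : Continuous D) (hD : ∀ z, 0 < D z) :
    0 < ∫ z in Icc (0 : ℝ × ℝ) (1, 1), D z := by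
  by_contra hc
  push Not at hc
  have h1 := Hr11_eq_zero cD (fun z => (hD z).le) hc 0 ⟨le_refl _, by constructor <;> norm_num⟩
  have h2 := hD 0
  linarith

theorem rigid {m : ℕ} {w : Fin m → ℝ} (hw : ∀ i, 0 < w i) (hw1 : ∑ i, w i = 1)
    {e f h D : ℝ × ℝ → ℝ} {p : Fin m → ℝ × ℝ → ℝ × ℝ} (ce : Continuous e) (cf : Continuous f)
    (ch : Continuous h) (cD : Continuous D) (cp : ∀ i, Continuous (p i)) (he : ∀ z, 0 < e z)
    (hD : ∀ z, 0 < D z) (hD2 : ∀ z, D z ^ 2 = e z * h z - f z ^ 2)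
    (hN : ∀ i z, h z * (p i z).1 ^ 2 - 2 * f z * (p i z).1 * (p i z).2 + e z * (p i z).2 ^ 2 = D z ^ 2)
    {ω : Fin m → Fin m → ℝ}
    (hω : ∀ i j, ∫ z in Icc (0 : ℝ × ℝ) (1, 1), ((p i z).1 * (p j z).2 - (p i z).2 * (p j z).1) = ω i j)
    (hV : (∫ z in Icc (0 : ℝ × ℝ) (1, 1), D z) ^ 2 ≤ 2 * ∑ i, ∑ j, w i * w j * ω i j ^ 2) :
    ∀ z ∈ Icc (0 : ℝ × ℝ) (1, 1), 2 * ∑ i, w i * (p i z).1 ^ 2 = e z ∧
      2 * ∑ i, w i * ((p i z).1 * (p i z).2) = f z ∧ 2 * ∑ i, w i * (p i z).2 ^ 2 = h z ∧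
      ∃ μ : ℝ, 0 < μ ∧ ∀ i j, (p i z).1 * (p j z).2 - (p i z).2 * (p j z).1 = μ * ω i j := by
  -- notation
  set V : ℝ := ∫ z in Icc (0 : ℝ × ℝ) (1, 1), D z with hVdef
  set W : ℝ := 2 * ∑ i, ∑ j, w i * w j * ω i j ^ 2 with hWdef
  set y : Fin m → Fin m → ℝ × ℝ → ℝ :=
    fun i j z => (p i z).1 * (p j z).2 - (p i z).2 * (p j z).1 with hydef
  have cy : ∀ i j, Continuous (y i j) := by
    intro i j
    simp only [hydef]
    exact ((continuous_fst.comp (cp i)).mul (continuous_snd.comp (cp j))).sub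
      ((continuous_snd.comp (cp i)).mul (continuous_fst.comp (cp j)))
  have hVpos : 0 < V := Hr11_pos cD hD
  have hWpos : 0 < W := lt_of_lt_of_le (by positivity) hV
  set s : ℝ := Real.sqrt W with hsdef
  have hs : 0 < s := Real.sqrt_pos.mpr hWpos
  have hs2 : s ^ 2 = W := Real.sq_sqrt hWpos.le
  have hVs : V ≤ s := by
    apply Real.le_sqrt_of_sq_le
    exact hV
  -- trace
  have hT : ∀ z, h z * (2 * ∑ i, w i * (p i z).1 ^ 2) -
      2 * f z * (2 * ∑ i, w i * ((p i z).1 * (p i z).2)) + e z * (2 * ∑ i, w i * (p i z).2 ^ 2) =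
        2 * D z ^ 2 := by
    intro z
    have h1 : ∑ i, w i * (h z * (p i z).1 ^ 2 - 2 * f z * (p i z).1 * (p i z).2 +
        e z * (p i z).2 ^ 2) = D z ^ 2 := by
      rw [Finset.sum_congr rfl fun i _ => by rw [hN i z], ← Finset.sum_mul, hw1, one_mul]
    rw [← h1]
    simp only [Finset.mul_sum, ← Finset.sum_add_distrib, ← Finset.sum_sub_distrib]
    refine Finset.sum_congr rfl fun i _ => ?_
    ring
  have hQ : ∀ z, 2 * ∑ i, ∑ j, w i * w j * (y i j z) ^ 2 =
      (2 * ∑ i, w i * (p i z).1 ^ 2) * (2 * ∑ i, w i * (p i z).2 ^ 2) -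
        (2 * ∑ i, w i * ((p i z).1 * (p i z).2)) ^ 2 := by
    intro z
    have := Hr11_lagrange w (fun i => (p i z).1) (fun i => (p i z).2)
    simp only [hydef]
    rw [this]
    ring
  have hQle : ∀ z, 2 * ∑ i, ∑ j, w i * w j * (y i j z) ^ 2 ≤ D z ^ 2 := by
    intro z
    rw [hQ z]
    exact Hr11_det_le (he z) (hD2 z) (hT z)
  -- the bilinear form
  set B : ℝ × ℝ → ℝ := fun z => 2 * ∑ i, ∑ j, w i * w j * (y i j z * ω i j) with hBdef
  have cB : Continuous B := by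
    simp only [hBdef]
    refine continuous_const.mul (continuous_finsetSum _ fun i _ =>
      continuous_finsetSum _ fun j _ => ?_)
    exact continuous_const.mul ((cy i j).mul continuous_const)
  have hexp : ∀ z, 2 * ∑ i, ∑ j, w i * w j * (y i j z - D z / s * ω i j) ^ 2 =
      2 * ∑ i, ∑ j, w i * w j * (y i j z) ^ 2 - 2 * (D z / s) * B z + D z ^ 2 := by
    intro z
    have h1 : D z ^ 2 = (D z / s) ^ 2 * W := by
      rw [← hs2]
      field_simp
    rw [h1, hWdef, hBdef]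
    simp only [Finset.mul_sum, ← Finset.sum_add_distrib, ← Finset.sum_sub_distrib]
    refine Finset.sum_congr rfl fun i _ => Finset.sum_congr rfl fun j _ => ?_
    ring
  have hsq : ∀ z, 0 ≤ 2 * ∑ i, ∑ j, w i * w j * (y i j z - D z / s * ω i j) ^ 2 := by
    intro z
    refine mul_nonneg (by norm_num) (Finset.sum_nonneg fun i _ => Finset.sum_nonneg fun j _ => ?_)
    exact mul_nonneg (mul_pos (hw i) (hw j)).le (sq_nonneg _)
  have hBle : ∀ z, B z ≤ D z * s := by
    intro z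
    have h1 := hsq z
    rw [hexp z] at h1
    have h2 := hQle z
    have h3 : 2 * (D z / s) * B z ≤ 2 * D z ^ 2 := by linarith
    have h4 : 0 < D z := hD z
    have h5 : 2 * (D z / s) * B z = (2 * D z / s) * B z := by ring
    have h6 : 2 * D z ^ 2 = (2 * D z / s) * (D z * s) := by
      field_simp
    rw [h5, h6] at h3
    exact le_of_mul_le_mul_left h3 (by positivity)
  have hBint : ∫ z in Icc (0 : ℝ × ℝ) (1, 1), B z = W := by
    have hi : ∀ i j, Integrable (fun z => w i * w j * (y i j z * ω i j))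
        (volume.restrict (Icc (0 : ℝ × ℝ) (1, 1))) := by
      intro i j
      exact (continuous_const.mul ((cy i j).mul continuous_const)).continuousOn.integrableOn_compact
        isCompact_Icc
    simp only [hBdef]
    rw [integral_const_mul, integral_finsetSum _ fun i _ => integrable_finsetSum _ fun j _ => hi i j]
    rw [hWdef]
    congr 1
    refine Finset.sum_congr rfl fun i _ => ?_
    rw [integral_finsetSum _ fun j _ => hi i j]
    refine Finset.sum_congr rfl fun j _ => ?_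
    rw [integral_const_mul, integral_mul_const, hω i j]
    ring
  have hzero : ∀ z ∈ Icc (0 : ℝ × ℝ) (1, 1), D z * s - B z = 0 := by
    refine Hr11_eq_zero ((cD.mul continuous_const).sub cB) (fun z => ?_) ?_
    · have := hBle z
      linarith
    · rw [integral_sub, integral_mul_const, hBint, ← hVdef, ← hs2]
      · nlinarith
      · exact (cD.mul continuous_const).continuousOn.integrableOn_compact isCompact_Icc
      · exact cB.continuousOn.integrableOn_compact isCompact_Icc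
  intro z hz
  have hz1 : B z = D z * s := by
    have := hzero z hz
    linarith
  have hDz : 0 < D z := hD z
  have h1 := hexp z
  have h2 : 2 * (D z / s) * B z = 2 * D z ^ 2 := by
    rw [hz1]
    field_simp
  have h3 := hsq z
  have h4 := hQle z
  have h5 : 2 * ∑ i, ∑ j, w i * w j * (y i j z) ^ 2 = D z ^ 2 := by
    rw [h1, h2] at h3
    linarith
  have h6 : 2 * ∑ i, ∑ j, w i * w j * (y i j z - D z / s * ω i j) ^ 2 = 0 := by
    rw [h1, h2, h5]
    ring
  have h7 : ∀ i j, y i j z = D z / s * ω i j := by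
    intro i j
    have h8 : ∑ i, ∑ j, w i * w j * (y i j z - D z / s * ω i j) ^ 2 = 0 := by linarith
    have h9 : ∀ i ∈ Finset.univ, (0 : ℝ) ≤ ∑ j, w i * w j * (y i j z - D z / s * ω i j) ^ 2 :=
      fun i _ => Finset.sum_nonneg fun j _ =>
        mul_nonneg (mul_pos (hw i) (hw j)).le (sq_nonneg _)
    have h10 := (Finset.sum_eq_zero_iff_of_nonneg h9).mp h8 i (Finset.mem_univ i)
    have h11 : ∀ j ∈ Finset.univ, (0 : ℝ) ≤ w i * w j * (y i j z - D z / s * ω i j) ^ 2 :=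
      fun j _ => mul_nonneg (mul_pos (hw i) (hw j)).le (sq_nonneg _)
    have h12 := (Finset.sum_eq_zero_iff_of_nonneg h11).mp h10 j (Finset.mem_univ j)
    rcases mul_eq_zero.mp h12 with h13 | h13
    · have := mul_pos (hw i) (hw j)
      linarith
    · have := pow_eq_zero_iff (two_ne_zero) |>.mp h13
      linarith
  have h8 : (2 * ∑ i, w i * (p i z).1 ^ 2) * (2 * ∑ i, w i * (p i z).2 ^ 2) -
        (2 * ∑ i, w i * ((p i z).1 * (p i z).2)) ^ 2 = D z ^ 2 := by
    rw [← hQ z, h5]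
  obtain ⟨h9, h10, h11⟩ := Hr11_det_eq (he z) hDz (hD2 z) (hT z) h8
  exact ⟨h9, h10, h11, D z / s, by positivity, fun i j => h7 i j⟩

end Pool.Agent.EscG
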