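import Pool.Agent.EscG.Hr0

set_option autoImplicit false
set_option linter.unusedSectionVars false
set_option linter.deprecated false

/-!
# EscG geometry, project H, module Hr6: complexification of the covectors

Pure algebra. `chol_norm`: `p0²/e + (e p1 - f p0)²/(e D²) = (h p0² - 2 f p0 p1 + e p1²)/D²` with `D² = e h - f²`.
`chol_im`: `(p0 (e q1 - f q0) - (e p1 - f p0) q0)/(e D) = (p0 q1 - p1 q0)/D`.
`cq_norm`: for `p0 = g x v (β 0)`, `p1 = g x v (β 1)`, `v = v0 β 0 + v1 β 1`: `p0 = e v0 + f v1`, `p1 = f v0 + h v1`, so `(h p0² - 2 f p0 p1 + e p1²)/D² = e v0² + 2 f v0 v1 + h v1² = g x v v`.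
-/

noncomputable section

namespace Pool.Agent.EscG

open MeasureTheory Set Filter Topology Esc EscF _root_.EscG ComplexConjugate
open scoped ContDiff

theorem chol_norm {e f h D p0 p1 : ℝ} (he : 0 < e) (hD : 0 < D) (hD2 : D ^ 2 = e * h - f ^ 2) :
    ‖chol e f D p0 p1‖ ^ 2 = (h * p0 ^ 2 - 2 * f * p0 * p1 + e * p1 ^ 2) / D ^ 2 := by
  rw [chol, Complex.sq_norm, Complex.normSq_mk]
  have hs : √e * √e = e := Real.mul_self_sqrt he.le
  have hs0 : √e ≠ 0 := (Real.sqrt_pos.2 he).ne'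
  have h1 : p0 / √e * (p0 / √e) + (e * p1 - f * p0) / (√e * D) * ((e * p1 - f * p0) / (√e * D)) =
      p0 ^ 2 / (√e * √e) + (e * p1 - f * p0) ^ 2 / ((√e * √e) * D ^ 2) := by
    field_simp
  rw [h1, hs]
  have hD0 : D ≠ 0 := hD.ne'
  have he0 : e ≠ 0 := he.ne'
  rw [div_add_div _ _ he0 (mul_ne_zero he0 (pow_ne_zero 2 hD0)),
    div_eq_div_iff (mul_ne_zero he0 (mul_ne_zero he0 (pow_ne_zero 2 hD0))) (pow_ne_zero 2 hD0), hD2]
  ring

theorem chol_im {e f D p0 p1 q0 q1 : ℝ} (he : 0 < e) (hD : 0 < D) :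
    (conj (chol e f D p0 p1) * chol e f D q0 q1).im = (p0 * q1 - p1 * q0) / D := by
  have hs : √e * √e = e := Real.mul_self_sqrt he.le
  have hs0 : √e ≠ 0 := (Real.sqrt_pos.2 he).ne'
  have hD0 : D ≠ 0 := hD.ne'
  have he0 : e ≠ 0 := he.ne'
  have h1 : (conj (chol e f D p0 p1) * chol e f D q0 q1).im =
      p0 / √e * ((e * q1 - f * q0) / (√e * D)) - (e * p1 - f * p0) / (√e * D) * (q0 / √e) := by
    simp only [chol, Complex.mul_im, Complex.conj_re, Complex.conj_im]
    ring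
  have h2 : p0 / √e * ((e * q1 - f * q0) / (√e * D)) - (e * p1 - f * p0) / (√e * D) * (q0 / √e) =
      (p0 * (e * q1 - f * q0) - (e * p1 - f * p0) * q0) / ((√e * √e) * D) := by
    field_simp
  rw [h1, h2, hs, div_eq_div_iff (mul_ne_zero he0 hD0) hD0]
  ring

variable {E : Type*} [NormedAddCommGroup E] [InnerProductSpace ℝ E] [FiniteDimensional ℝ E]
  {β : Module.Basis (Fin 2) ℝ E} {g : E → E →L[ℝ] E →L[ℝ] ℝ}

/-- the covector `g x v` as a complex number, normalised so that the norm of the metric is conformal -/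
def cq (β : Module.Basis (Fin 2) ℝ E) (g : E → E →L[ℝ] E →L[ℝ] ℝ) (x v : E) : ℂ :=
  (√(dens β g x) : ℝ) * chol (g x (β 0) (β 0)) (g x (β 0) (β 1)) (dens β g x) (g x v (β 0)) (g x v (β 1))

theorem Hr6_e (h : IsRiem β 2 g) (x : E) : 0 < g x (β 0) (β 0) :=
  h.pos x _ (β.ne_zero 0)

theorem Hr6_det (h : IsRiem β 2 g) (x : E) :
    0 < g x (β 0) (β 0) * g x (β 1) (β 1) - g x (β 0) (β 1) ^ 2 := by
  have he := Hr6_e h x
  have hv : g x (β 0) (β 0) • β 1 - g x (β 0) (β 1) • β 0 ≠ 0 := by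
    intro h0
    have h1 := congrArg (fun z => β.repr z 1) h0
    simp only [map_sub, map_smul, Finsupp.sub_apply, Finsupp.smul_apply, Module.Basis.repr_self,
      smul_eq_mul, map_zero, Finsupp.zero_apply] at h1
    rw [Finsupp.single_eq_same, Finsupp.single_eq_of_ne (by decide)] at h1
    linarith
  have h2 := h.pos x _ hv
  have h3 : g x (g x (β 0) (β 0) • β 1 - g x (β 0) (β 1) • β 0)
      (g x (β 0) (β 0) • β 1 - g x (β 0) (β 1) • β 0) =
      g x (β 0) (β 0) * (g x (β 0) (β 0) * g x (β 1) (β 1) - g x (β 0) (β 1) ^ 2) := by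
    simp only [map_sub, map_smul, ContinuousLinearMap.sub_apply, ContinuousLinearMap.smul_apply,
      smul_eq_mul]
    rw [h.symm x (β 1) (β 0)]
    ring
  rw [h3] at h2
  exact (pos_iff_pos_of_mul_pos h2).1 he

theorem IsRiem.dens_pos (h : IsRiem β 2 g) (x : E) : 0 < dens β g x :=
  Real.sqrt_pos.2 (Hr6_det h x)

theorem IsRiem.dens_sq (h : IsRiem β 2 g) (x : E) :
    dens β g x ^ 2 = g x (β 0) (β 0) * g x (β 1) (β 1) - g x (β 0) (β 1) ^ 2 :=
  Real.sq_sqrt (Hr6_det h x).le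

theorem Hr6_cont (h : IsRiem β 2 g) (v w : E) : Continuous (fun x => g x v w) :=
  (h.smooth.continuous.clm_apply continuous_const).clm_apply continuous_const

theorem IsRiem.dens_cont (h : IsRiem β 2 g) : Continuous (dens β g) :=
  (((Hr6_cont h _ _).mul (Hr6_cont h _ _)).sub ((Hr6_cont h _ _).pow 2)).sqrt

theorem IsRiem.cq_norm (h : IsRiem β 2 g) (x v : E) : ‖cq β g x v‖ ^ 2 = dens β g x * g x v v := by
  have hD := h.dens_pos x
  have hD2 := h.dens_sq x
  rw [cq, norm_mul, mul_pow, chol_norm (Hr6_e h x) hD hD2, Complex.norm_real, Real.norm_eq_abs,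
    sq_abs, Real.sq_sqrt hD.le]
  congr 1
  rw [div_eq_iff (pow_ne_zero 2 hD.ne'), hD2]
  have hv : v = β.repr v 0 • β 0 + β.repr v 1 • β 1 := by
    have := β.sum_repr v
    rw [Fin.sum_univ_two] at this
    exact this.symm
  have hs := h.symm x (β 1) (β 0)
  have e0 : g x v (β 0) = β.repr v 0 * g x (β 0) (β 0) + β.repr v 1 * g x (β 0) (β 1) := by
    conv_lhs => rw [hv]
    simp only [map_add, map_smul, ContinuousLinearMap.add_apply, ContinuousLinearMap.smul_apply,
      smul_eq_mul]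
    rw [hs]
  have e1 : g x v (β 1) = β.repr v 0 * g x (β 0) (β 1) + β.repr v 1 * g x (β 1) (β 1) := by
    conv_lhs => rw [hv]
    simp only [map_add, map_smul, ContinuousLinearMap.add_apply, ContinuousLinearMap.smul_apply,
      smul_eq_mul]
  have e2 : g x v v = β.repr v 0 * g x v (β 0) + β.repr v 1 * g x v (β 1) := by
    conv_lhs => rw [h.symm, hv]
    simp only [map_add, map_smul, ContinuousLinearMap.add_apply, ContinuousLinearMap.smul_apply,
      smul_eq_mul]
    rw [e0, e1]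
    simp only [hs]
  rw [e2, e0, e1]
  ring

theorem IsRiem.cq_im (h : IsRiem β 2 g) (x v w : E) :
    (conj (cq β g x v) * cq β g x w).im = wr β g x v w := by
  have hD := h.dens_pos x
  have hs : √(dens β g x) * √(dens β g x) = dens β g x := Real.mul_self_sqrt hD.le
  have h1 : conj (cq β g x v) * cq β g x w = ((√(dens β g x) * √(dens β g x) : ℝ) : ℂ) *
      (conj (chol (g x (β 0) (β 0)) (g x (β 0) (β 1)) (dens β g x) (g x v (β 0)) (g x v (β 1))) *
      chol (g x (β 0) (β 0)) (g x (β 0) (β 1)) (dens β g x) (g x w (β 0)) (g x w (β 1))) := by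
    rw [cq, cq, map_mul, Complex.conj_ofReal]
    push_cast
    ring
  rw [h1, hs, Complex.im_ofReal_mul, chol_im (Hr6_e h x) hD, wr]
  field_simp

theorem IsRiem.cq_sub (h : IsRiem β 2 g) (x v w : E) : cq β g x (v - w) = cq β g x v - cq β g x w := by
  rw [cq, cq, cq, ← mul_sub]
  congr 1
  apply Complex.ext
  · simp only [chol, Complex.sub_re, map_sub, ContinuousLinearMap.sub_apply]
    ring
  · simp only [chol, Complex.sub_im, map_sub, ContinuousLinearMap.sub_apply]
    ring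

theorem IsRiem.cq_cont (h : IsRiem β 2 g) : Continuous (fun p : E × E => cq β g p.1 p.2) := by
  have hg : ∀ w : E, Continuous (fun p : E × E => g p.1 p.2 w) := fun w =>
    ((h.smooth.continuous.comp continuous_fst).clm_apply continuous_snd).clm_apply continuous_const
  have hc : ∀ v w : E, Continuous (fun p : E × E => g p.1 v w) := fun v w =>
    (Hr6_cont h v w).comp continuous_fst
  have hd : Continuous (fun p : E × E => dens β g p.1) := h.dens_cont.comp continuous_fst
  have hs0 : ∀ p : E × E, √(g p.1 (β 0) (β 0)) ≠ 0 := fun p =>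
    (Real.sqrt_pos.2 (Hr6_e h p.1)).ne'
  unfold cq chol
  refine (Complex.continuous_ofReal.comp hd.sqrt).mul ?_
  have e : (fun p : E × E => (⟨g p.1 p.2 (β 0) / √(g p.1 (β 0) (β 0)),
      (g p.1 (β 0) (β 0) * g p.1 p.2 (β 1) - g p.1 (β 0) (β 1) * g p.1 p.2 (β 0)) /
        (√(g p.1 (β 0) (β 0)) * dens β g p.1)⟩ : ℂ)) =
      fun p : E × E => Complex.equivRealProdCLM.symm (g p.1 p.2 (β 0) / √(g p.1 (β 0) (β 0)),
      (g p.1 (β 0) (β 0) * g p.1 p.2 (β 1) - g p.1 (β 0) (β 1) * g p.1 p.2 (β 0)) /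
        (√(g p.1 (β 0) (β 0)) * dens β g p.1)) := by
    funext p
    apply Complex.ext <;> simp
  rw [e]
  refine Complex.equivRealProdCLM.symm.continuous.comp (Continuous.prodMk ?_ ?_)
  · exact (hg _).div (hc _ _).sqrt hs0
  · exact (((hc _ _).mul (hg _)).sub ((hc _ _).mul (hg _))).div ((hc _ _).sqrt.mul hd)
      (fun p => mul_ne_zero (hs0 p) (h.dens_pos p.1).ne')

end Pool.Agent.EscG
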