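import Mathlib

set_option autoImplicit false

/-!
# EscG flatness: the sum of the angles over Farey neighbours

`A = ∫ ρ²`, `W k = ∫ P k`, `‖W k‖ ≤ R := ∫ ρ`. For `f : (ℤ×ℤ) → (ℤ×ℤ) → ℝ` let `T 0 f k k' = f k k'`,
`T (n+1) f k k' = T n f k (k+k') + T n f (k+k') k'`, and `S n f = T n f (1,0) (0,1) + T n f (0,1) (-1,0)`.
All pairs occurring have `dt = 1`, are primitive, in a common closed quadrant, and at depth `n` one has
`|k| + |k'| ≥ n + 2`. The angle `θ k k' = arg (conj (P k x) * P k' x) ∈ (0, π)` is additive, so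
`S n θ = π`; the same for `W`. Now `im (conj (P k x) * P k' x) = ρ² sin θ ≥ ρ² θ cos θ`, and
`1 - cos θ = ‖P k x - P k' x‖² / (2 ρ²)` is small at large depth. So
`(1 - ε) π A ≤ ∫ S n (im ..) = S n (im (conj W * W')) ≤ R² π`; hence `A ≤ R²` and the variance of `ρ` vanishes.
-/

noncomputable section

open MeasureTheory Set Filter Topology ComplexConjugate

namespace Pool.Agent.EscG

namespace FareyAux

/-- neighbours in a common closed quadrant -/
def Gd (k k' : ℤ × ℤ) : Prop :=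
  k.1 * k'.2 - k.2 * k'.1 = 1 ∧ 0 ≤ k.1 * k'.1 ∧ 0 ≤ k.2 * k'.2

/-- size -/
def sz (k : ℤ × ℤ) : ℤ := |k.1| + |k.2|

/-- Farey sums -/
def T : ℕ → (ℤ × ℤ → ℤ × ℤ → ℝ) → ℤ × ℤ → ℤ × ℤ → ℝ
  | 0, f, k, k' => f k k'
  | n + 1, f, k, k' => T n f k (k + k') + T n f (k + k') k'

theorem Gd.left {k k' : ℤ × ℤ} (h : Gd k k') : Gd k (k + k') := by
  obtain ⟨h1, h2, h3⟩ := h
  refine ⟨?_, ?_, ?_⟩
  · simp only [Prod.fst_add, Prod.snd_add]; linarith
  · simp only [Prod.fst_add]; nlinarith [mul_self_nonneg k.1]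
  · simp only [Prod.snd_add]; nlinarith [mul_self_nonneg k.2]

theorem Gd.right {k k' : ℤ × ℤ} (h : Gd k k') : Gd (k + k') k' := by
  obtain ⟨h1, h2, h3⟩ := h
  refine ⟨?_, ?_, ?_⟩
  · simp only [Prod.fst_add, Prod.snd_add]; linarith
  · simp only [Prod.fst_add]; nlinarith [mul_self_nonneg k'.1]
  · simp only [Prod.snd_add]; nlinarith [mul_self_nonneg k'.2]

theorem Gd.cl {k k' : ℤ × ℤ} (h : Gd k k') : IsCoprime k.1 k.2 :=
  ⟨k'.2, -k'.1, by have := h.1; linarith⟩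

theorem Gd.cr {k k' : ℤ × ℤ} (h : Gd k k') : IsCoprime k'.1 k'.2 :=
  ⟨-k.2, k.1, by have := h.1; linarith⟩

theorem abs_add_of {a b : ℤ} (h : 0 ≤ a * b) : |a + b| = |a| + |b| := by
  rw [abs_add_eq_add_abs_iff]
  exact mul_nonneg_iff.1 h

theorem Gd.sz_add {k k' : ℤ × ℤ} (h : Gd k k') : sz (k + k') = sz k + sz k' := by
  obtain ⟨h1, h2, h3⟩ := h
  simp only [sz, Prod.fst_add, Prod.snd_add]
  rw [abs_add_of h2, abs_add_of h3]
  ring

theorem sz_pos {k : ℤ × ℤ} (h : IsCoprime k.1 k.2) : 1 ≤ sz k := by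
  by_contra hc
  have h1 : |k.1| + |k.2| < 1 := not_le.1 hc
  have h2 := abs_nonneg k.1
  have h3 := abs_nonneg k.2
  have h4 : k.1 = 0 := abs_eq_zero.1 (by omega)
  have h5 : k.2 = 0 := abs_eq_zero.1 (by omega)
  rw [h4, h5] at h
  obtain ⟨a, b, hab⟩ := h
  simp at hab

/-- additive functions are fixed by the Farey sums -/
theorem T_add {f : ℤ × ℤ → ℤ × ℤ → ℝ}
    (hf : ∀ k k', Gd k k' → f k (k + k') + f (k + k') k' = f k k') :
    ∀ (n : ℕ) (k k' : ℤ × ℤ), Gd k k' → T n f k k' = f k k'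
  | 0, _, _, _ => rfl
  | n + 1, k, k', h => by
    show T n f k (k + k') + T n f (k + k') k' = f k k'
    rw [T_add hf n _ _ h.left, T_add hf n _ _ h.right, hf _ _ h]

/-- monotonicity -/
theorem T_mono {f g : ℤ × ℤ → ℤ × ℤ → ℝ} {s : ℤ}
    (hfg : ∀ k k', Gd k k' → s ≤ sz k + sz k' → f k k' ≤ g k k') :
    ∀ (n : ℕ) (k k' : ℤ × ℤ), Gd k k' → s ≤ sz k + sz k' + n → T n f k k' ≤ T n g k k'
  | 0, k, k', h, hs => hfg _ _ h (by simpa using hs)
  | n + 1, k, k', h, hs => by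
    show T n f k (k + k') + T n f (k + k') k' ≤ T n g k (k + k') + T n g (k + k') k'
    have e := h.sz_add
    have p1 := sz_pos h.cl
    have p2 := sz_pos h.cr
    push_cast at hs
    exact add_le_add (T_mono hfg n _ _ h.left (by omega)) (T_mono hfg n _ _ h.right (by omega))

theorem T_smul (f : ℤ × ℤ → ℤ × ℤ → ℝ) (c : ℝ) :
    ∀ (n : ℕ) (k k' : ℤ × ℤ), T n (fun a b => c * f a b) k k' = c * T n f k k'
  | 0, _, _ => rfl
  | n + 1, k, k' => by
    show T n (fun a b => c * f a b) k (k + k') + T n (fun a b => c * f a b) (k + k') k' = _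
    rw [T_smul f c n, T_smul f c n, ← mul_add]
    rfl

theorem T_int {X : Type*} [MeasurableSpace X] {μ : Measure X} {f : X → ℤ × ℤ → ℤ × ℤ → ℝ}
    (hf : ∀ k k', Gd k k' → Integrable (fun x => f x k k') μ) :
    ∀ (n : ℕ) (k k' : ℤ × ℤ), Gd k k' → Integrable (fun x => T n (f x) k k') μ ∧
      ∫ x, T n (f x) k k' ∂μ = T n (fun a b => ∫ x, f x a b ∂μ) k k'
  | 0, k, k', h => ⟨hf _ _ h, rfl⟩
  | n + 1, k, k', h => by
    obtain ⟨i1, e1⟩ := T_int hf n _ _ h.left
    obtain ⟨i2, e2⟩ := T_int hf n _ _ h.right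
    refine ⟨i1.add i2, ?_⟩
    show ∫ x, (T n (f x) k (k + k') + T n (f x) (k + k') k') ∂μ = _
    rw [integral_add i1 i2, e1, e2]
    rfl

/-! ### angles -/

/-- angle from `a` to `b` -/
def an (a b : ℂ) : ℝ := (conj a * b).arg

theorem an_mem {a b : ℂ} (h : 0 < (conj a * b).im) : 0 < an a b ∧ an a b < Real.pi := by
  refine ⟨lt_of_le_of_ne (Complex.arg_nonneg_iff.2 h.le) ?_, ?_⟩
  · intro h0
    have h1 := Complex.arg_eq_zero_iff.1 h0.symm
    exact absurd h1.2 h.ne'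
  · exact Complex.arg_lt_pi_iff.2 (Or.inr h.ne')

theorem an_add {a b c : ℂ} (h1 : 0 < (conj a * c).im) (h2 : 0 < (conj c * b).im)
    (h3 : 0 < (conj a * b).im) : an a c + an c b = an a b := by
  have hc : c ≠ 0 := by
    rintro rfl
    simp at h2
  have e : (conj a * c) * (conj c * b) = ((‖c‖ ^ 2 : ℝ) : ℂ) * (conj a * b) := by
    have : c * conj c = ((‖c‖ ^ 2 : ℝ) : ℂ) := by
      rw [Complex.mul_conj, Complex.normSq_eq_norm_sq]
    calc (conj a * c) * (conj c * b) = (c * conj c) * (conj a * b) := by ring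
      _ = _ := by rw [this]
  have hp : 0 < ‖c‖ ^ 2 := by positivity
  have e2 : ((conj a * c) * (conj c * b)).arg = an a b := by
    rw [e, Complex.arg_real_mul _ hp]
    rfl
  have n1 : conj a * c ≠ 0 := by
    intro h
    rw [h] at h1
    simp at h1
  have n2 : conj c * b ≠ 0 := by
    intro h
    rw [h] at h2
    simp at h2
  obtain ⟨p1, q1⟩ := an_mem h1
  obtain ⟨p2, q2⟩ := an_mem h2
  obtain ⟨p3, q3⟩ := an_mem h3
  have e3 : (((conj a * c) * (conj c * b)).arg : Real.Angle) =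
      ((conj a * c).arg : Real.Angle) + ((conj c * b).arg : Real.Angle) :=
    Complex.arg_mul_coe_angle n1 n2
  rw [e2, ← Real.Angle.coe_add, Real.Angle.angle_eq_iff_two_pi_dvd_sub] at e3
  obtain ⟨j, hj⟩ := e3
  have hj' : an a b - (an a c + an c b) = 2 * Real.pi * j := hj
  have hpi := Real.pi_pos
  have j1 : (-1 : ℝ) < j := by
    by_contra hcon
    have : (j : ℝ) ≤ -1 := not_lt.1 hcon
    nlinarith
  have j2 : (j : ℝ) < 1 := by
    by_contra hcon
    have : (1 : ℝ) ≤ j := not_lt.1 hcon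
    nlinarith
  have j3 : (-1 : ℤ) < j := by exact_mod_cast j1
  have j4 : j < 1 := by exact_mod_cast j2
  have j5 : j = 0 := by omega
  rw [j5] at hj'
  simp at hj'
  linarith

theorem an_half {a b : ℂ} (h : 0 < (conj a * b).im) : an a b + an b (-a) = Real.pi := by
  have e : conj b * -a = -(conj (conj a * b)) := by
    simp [mul_comm]
  have him : (conj (conj a * b)).im < 0 := by
    rw [Complex.conj_im]
    linarith
  have h2 : an b (-a) = (conj (conj a * b)).arg + Real.pi := by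
    unfold an
    rw [e, Complex.arg_neg_eq_arg_add_pi_of_im_neg him]
  have hne : (conj a * b).arg ≠ Real.pi := (an_mem h).2.ne
  rw [h2, Complex.arg_conj, if_neg hne]
  unfold an
  ring

theorem im_eq (a b : ℂ) : (conj a * b).im = ‖a‖ * ‖b‖ * Real.sin (an a b) := by
  have h := Complex.norm_mul_sin_arg (conj a * b)
  rw [norm_mul, Complex.norm_conj] at h
  exact h.symm

theorem re_eq (a b : ℂ) : (conj a * b).re = ‖a‖ * ‖b‖ * Real.cos (an a b) := by
  have h := Complex.norm_mul_cos_arg (conj a * b)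
  rw [norm_mul, Complex.norm_conj] at h
  exact h.symm

theorem mul_cos_le_sin {t : ℝ} (h0 : 0 < t) (h1 : t < Real.pi) : t * Real.cos t ≤ Real.sin t := by
  by_cases h : t < Real.pi / 2
  · have hc : 0 < Real.cos t := Real.cos_pos_of_mem_Ioo ⟨by linarith, h⟩
    have h2 := Real.lt_tan h0 h
    rw [Real.tan_eq_sin_div_cos, lt_div_iff₀ hc] at h2
    exact h2.le
  · have hc : Real.cos t ≤ 0 := Real.cos_nonpos_of_pi_div_two_le_of_le (not_lt.1 h) (by linarith)
    have hs : 0 ≤ Real.sin t := Real.sin_nonneg_of_nonneg_of_le_pi h0.le h1.le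
    nlinarith

/-- lower bound of the wedge product for small differences -/
theorem im_ge {a b : ℂ} {r δ : ℝ} (ha : ‖a‖ = r) (hb : ‖b‖ = r) (h : 0 < (conj a * b).im)
    (hd : ‖a - b‖ ≤ δ) : (r ^ 2 - δ ^ 2 / 2) * an a b ≤ (conj a * b).im := by
  obtain ⟨p, q⟩ := an_mem h
  have e1 : ‖a - b‖ ^ 2 = 2 * r ^ 2 - 2 * (conj a * b).re := by
    rw [← Complex.normSq_eq_norm_sq, Complex.normSq_sub, Complex.normSq_eq_norm_sq,
      Complex.normSq_eq_norm_sq, ha, hb]
    simp only [Complex.mul_re, Complex.conj_re, Complex.conj_im]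
    ring
  have e2 := re_eq a b
  have e3 := im_eq a b
  rw [ha, hb] at e2 e3
  have h1 := mul_cos_le_sin p q
  have h2 : ‖a - b‖ ^ 2 ≤ δ ^ 2 := by
    have := norm_nonneg (a - b)
    gcongr
  have h3 : r ^ 2 - δ ^ 2 / 2 ≤ r * r * Real.cos (an a b) := by
    rw [← e2]
    linarith
  calc (r ^ 2 - δ ^ 2 / 2) * an a b ≤ (r * r * Real.cos (an a b)) * an a b := by
        gcongr
    _ = r * r * (an a b * Real.cos (an a b)) := by ring
    _ ≤ r * r * Real.sin (an a b) := by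
        have : 0 ≤ r * r := mul_self_nonneg r
        gcongr
    _ = _ := e3.symm

/-- upper bound of the wedge product -/
theorem im_le {a b : ℂ} {R : ℝ} (ha : ‖a‖ ≤ R) (hb : ‖b‖ ≤ R) (h : 0 < (conj a * b).im) :
    (conj a * b).im ≤ R ^ 2 * an a b := by
  obtain ⟨p, q⟩ := an_mem h
  have h0 := norm_nonneg a
  have h1 := norm_nonneg b
  rw [im_eq]
  have hs : Real.sin (an a b) ≤ an a b := Real.sin_le p.le
  have hs0 : 0 ≤ Real.sin (an a b) := Real.sin_nonneg_of_nonneg_of_le_pi p.le q.le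
  have h2 : ‖a‖ * ‖b‖ ≤ R ^ 2 := by nlinarith
  calc ‖a‖ * ‖b‖ * Real.sin (an a b) ≤ R ^ 2 * Real.sin (an a b) := by gcongr
    _ ≤ R ^ 2 * an a b := by
        have : 0 ≤ R ^ 2 := sq_nonneg R
        gcongr

theorem gd0 : Gd (1, 0) (0, 1) := by
  refine ⟨?_, ?_, ?_⟩ <;> simp

theorem gd1 : Gd (0, 1) (-1, 0) := by
  refine ⟨?_, ?_, ?_⟩ <;> simp

/-- the sum of all angles is `π` -/
theorem an_sum {Z : ℤ × ℤ → ℂ} (hneg : ∀ k : ℤ × ℤ, IsCoprime k.1 k.2 → Z (-k) = -Z k)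
    (hpos : ∀ k k' : ℤ × ℤ, IsCoprime k.1 k.2 → IsCoprime k'.1 k'.2 →
      0 < k.1 * k'.2 - k.2 * k'.1 → 0 < (conj (Z k) * Z k').im) (n : ℕ) :
    T n (fun k k' => an (Z k) (Z k')) (1, 0) (0, 1) +
      T n (fun k k' => an (Z k) (Z k')) (0, 1) (-1, 0) = Real.pi := by
  have hp : ∀ k k', Gd k k' → 0 < (conj (Z k) * Z k').im := fun k k' h =>
    hpos _ _ h.cl h.cr (by rw [h.1]; exact one_pos)
  have ha : ∀ k k', Gd k k' → an (Z k) (Z (k + k')) + an (Z (k + k')) (Z k') = an (Z k) (Z k') :=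
    fun k k' h => an_add (hp _ _ h.left) (hp _ _ h.right) (hp _ _ h)
  rw [T_add ha n _ _ gd0, T_add ha n _ _ gd1]
  have e : Z (-1, 0) = -Z (1, 0) := by
    have := hneg (1, 0) gd0.cl
    simpa using this
  rw [e]
  exact an_half (hp _ _ gd0)

end FareyAux

open FareyAux in
theorem farey_flat {X : Type*} [MeasurableSpace X] (μ : Measure X) [IsProbabilityMeasure μ]
    (ρ : X → ℝ) (P : ℤ × ℤ → X → ℂ) {m M : ℝ} (hm : 0 < m) (hρ : ∀ x, m ≤ ρ x ∧ ρ x ≤ M)
    (hρm : AEStronglyMeasurable ρ μ)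
    (hPm : ∀ k : ℤ × ℤ, IsCoprime k.1 k.2 → AEStronglyMeasurable (P k) μ)
    (hn : ∀ k : ℤ × ℤ, IsCoprime k.1 k.2 → ∀ x, ‖P k x‖ = ρ x)
    (hneg : ∀ k : ℤ × ℤ, IsCoprime k.1 k.2 → ∀ x, P (-k) x = -P k x)
    (hpos : ∀ k k' : ℤ × ℤ, IsCoprime k.1 k.2 → IsCoprime k'.1 k'.2 →
      0 < k.1 * k'.2 - k.2 * k'.1 → ∀ x, 0 < (conj (P k x) * P k' x).im)
    (hint : ∀ k k' : ℤ × ℤ, IsCoprime k.1 k.2 → IsCoprime k'.1 k'.2 →
      ∫ x, (conj (P k x) * P k' x).im ∂μ = (conj (∫ x, P k x ∂μ) * ∫ x, P k' x ∂μ).im)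
    (hsm : ∀ δ > 0, ∃ N : ℕ, ∀ k k' : ℤ × ℤ, IsCoprime k.1 k.2 → IsCoprime k'.1 k'.2 →
      k.1 * k'.2 - k.2 * k'.1 = 1 → 0 ≤ k.1 * k'.1 → 0 ≤ k.2 * k'.2 →
      ((N : ℤ) ≤ |k.1| + |k.2| ∨ (N : ℤ) ≤ |k'.1| + |k'.2|) → ∀ x, ‖P k x - P k' x‖ ≤ δ) :
    ∃ c : ℝ, ∀ᵐ x ∂μ, ρ x = c := by
  set W : ℤ × ℤ → ℂ := fun k => ∫ x, P k x ∂μ with hW
  set R : ℝ := ∫ x, ρ x ∂μ with hR
  set A : ℝ := ∫ x, ρ x ^ 2 ∂μ with hA
  have hρ0 : ∀ x, 0 < ρ x := fun x => lt_of_lt_of_le hm (hρ x).1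
  have hρi : Integrable ρ μ := Integrable.of_bound hρm M (Eventually.of_forall fun x => by
    rw [Real.norm_eq_abs, abs_of_pos (hρ0 x)]
    exact (hρ x).2)
  have hρ2 : Integrable (fun x => ρ x ^ 2) μ := Integrable.of_bound (hρm.pow 2) (M ^ 2)
    (Eventually.of_forall fun x => by
      rw [Real.norm_eq_abs, abs_of_pos (by have := hρ0 x; positivity)]
      have := hρ0 x
      have := (hρ x).2
      gcongr)
  -- wedge products
  have hwi : ∀ k k' : ℤ × ℤ, IsCoprime k.1 k.2 → IsCoprime k'.1 k'.2 →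
      Integrable (fun x => (conj (P k x) * P k' x).im) μ := by
    intro k k' hk hk'
    refine Integrable.of_bound ?_ (M ^ 2) (Eventually.of_forall fun x => ?_)
    · exact Complex.continuous_im.comp_aestronglyMeasurable
        ((Complex.continuous_conj.comp_aestronglyMeasurable (hPm k hk)).mul (hPm k' hk'))
    · rw [Real.norm_eq_abs]
      refine (Complex.abs_im_le_norm _).trans ?_
      rw [norm_mul, Complex.norm_conj, hn k hk, hn k' hk', ← sq]
      have := hρ0 x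
      have := (hρ x).2
      gcongr
  -- properties of the means
  have hWn : ∀ k : ℤ × ℤ, IsCoprime k.1 k.2 → ‖W k‖ ≤ R := by
    intro k hk
    refine (norm_integral_le_integral_norm _).trans (le_of_eq ?_)
    exact integral_congr_ae (Eventually.of_forall fun x => hn k hk x)
  have hWneg : ∀ k : ℤ × ℤ, IsCoprime k.1 k.2 → W (-k) = -W k := by
    intro k hk
    show ∫ x, P (-k) x ∂μ = -∫ x, P k x ∂μ
    rw [← integral_neg]
    exact integral_congr_ae (Eventually.of_forall fun x => hneg k hk x)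
  have hWpos : ∀ k k' : ℤ × ℤ, IsCoprime k.1 k.2 → IsCoprime k'.1 k'.2 →
      0 < k.1 * k'.2 - k.2 * k'.1 → 0 < (conj (W k) * W k').im := by
    intro k k' hk hk' hd
    have e : (conj (W k) * W k').im = ∫ x, (conj (P k x) * P k' x).im ∂μ :=
      (hint k k' hk hk').symm
    rw [e]
    rw [integral_pos_iff_support_of_nonneg (fun x => (hpos k k' hk hk' hd x).le)
      (hwi k k' hk hk')]
    have hs : Function.support (fun x => (conj (P k x) * P k' x).im) = univ := by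
      ext x
      simp only [Function.mem_support, mem_univ, iff_true]
      exact (hpos k k' hk hk' hd x).ne'
    rw [hs, measure_univ]
    exact one_pos
  -- main estimate
  have hpi := Real.pi_pos
  have key : ∀ δ : ℝ, 0 < δ → A - δ ^ 2 / 2 ≤ R ^ 2 := by
    intro δ hδ
    obtain ⟨N, hN⟩ := hsm δ hδ
    set n : ℕ := 2 * N with hn2
    -- the function of the wedge products at `x`
    set f : X → ℤ × ℤ → ℤ × ℤ → ℝ := fun x k k' => (conj (P k x) * P k' x).im with hf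
    have hfi : ∀ k k', Gd k k' → Integrable (fun x => f x k k') μ := fun k k' h =>
      hwi k k' h.cl h.cr
    obtain ⟨i0, e0⟩ := T_int hfi n _ _ gd0
    obtain ⟨i1, e1⟩ := T_int hfi n _ _ gd1
    -- lower bound
    have hlow : ∀ x, (ρ x ^ 2 - δ ^ 2 / 2) * Real.pi ≤
        T n (f x) (1, 0) (0, 1) + T n (f x) (0, 1) (-1, 0) := by
      intro x
      have hs := an_sum (Z := fun k => P k x) (fun k hk => hneg k hk x)
        (fun k k' hk hk' hd => hpos k k' hk hk' hd x) n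
      rw [← hs, mul_add, ← T_smul, ← T_smul]
      have hle : ∀ k k', Gd k k' → ((n : ℤ) + 2) ≤ sz k + sz k' →
          (ρ x ^ 2 - δ ^ 2 / 2) * an (P k x) (P k' x) ≤ f x k k' := by
        intro k k' h hsz
        refine im_ge (hn k h.cl x) (hn k' h.cr x) (hpos k k' h.cl h.cr (by rw [h.1]; exact one_pos) x)
          ?_
        refine hN k k' h.cl h.cr h.1 h.2.1 h.2.2 ?_ x
        have hsz' : (n : ℤ) + 2 ≤ (|k.1| + |k.2|) + (|k'.1| + |k'.2|) := hsz
        have hnN : (n : ℤ) = 2 * N := by rw [hn2]; push_cast; ring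
        omega
      have z0 : ((n : ℤ) + 2) ≤ sz (1, 0) + sz (0, 1) + n := by simp [sz]; omega
      have z1 : ((n : ℤ) + 2) ≤ sz (0, 1) + sz (-1, 0) + n := by simp [sz]; omega
      exact add_le_add (T_mono hle n _ _ gd0 z0) (T_mono hle n _ _ gd1 z1)
    -- upper bound
    have hupp : T n (fun a b => ∫ x, f x a b ∂μ) (1, 0) (0, 1) +
        T n (fun a b => ∫ x, f x a b ∂μ) (0, 1) (-1, 0) ≤ R ^ 2 * Real.pi := by
      have hs := an_sum (Z := W) hWneg hWpos n
      rw [← hs, mul_add, ← T_smul, ← T_smul]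
      have hle : ∀ k k', Gd k k' → (0 : ℤ) ≤ sz k + sz k' →
          ∫ x, f x k k' ∂μ ≤ R ^ 2 * an (W k) (W k') := by
        intro k k' h _
        have e : ∫ x, f x k k' ∂μ = (conj (W k) * W k').im := hint k k' h.cl h.cr
        rw [e]
        exact im_le (hWn k h.cl) (hWn k' h.cr) (hWpos k k' h.cl h.cr (by rw [h.1]; exact one_pos))
      have z0 : (0 : ℤ) ≤ sz (1, 0) + sz (0, 1) + n := by simp [sz]; omega
      have z1 : (0 : ℤ) ≤ sz (0, 1) + sz (-1, 0) + n := by simp [sz]; omega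
      exact add_le_add (T_mono hle n _ _ gd0 z0) (T_mono hle n _ _ gd1 z1)
    have hI : ∫ x, (ρ x ^ 2 - δ ^ 2 / 2) * Real.pi ∂μ ≤
        ∫ x, (T n (f x) (1, 0) (0, 1) + T n (f x) (0, 1) (-1, 0)) ∂μ :=
      integral_mono ((hρ2.sub (integrable_const _)).mul_const _) (i0.add i1) hlow
    rw [integral_add i0 i1, e0, e1] at hI
    rw [integral_mul_const, integral_sub hρ2 (integrable_const _)] at hI
    simp only [integral_const, probReal_univ, smul_eq_mul, one_mul] at hI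
    have h2 : (A - δ ^ 2 / 2) * Real.pi ≤ R ^ 2 * Real.pi := hI.trans hupp
    exact le_of_mul_le_mul_right h2 hpi
  have hAR : A ≤ R ^ 2 := by
    by_contra hc
    have h1 : 0 < A - R ^ 2 := by linarith [not_le.1 hc]
    have h2 := key (√(A - R ^ 2)) (Real.sqrt_pos.2 h1)
    rw [Real.sq_sqrt h1.le] at h2
    linarith
  -- the variance vanishes
  refine ⟨R, ?_⟩
  have hvi : Integrable (fun x => (ρ x - R) ^ 2) μ := by
    have : (fun x => (ρ x - R) ^ 2) = fun x => ρ x ^ 2 - 2 * R * ρ x + R ^ 2 := by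
      funext x
      ring
    rw [this]
    exact (hρ2.sub (hρi.const_mul _)).add (integrable_const _)
  have hv : ∫ x, (ρ x - R) ^ 2 ∂μ = A - R ^ 2 := by
    have : (fun x => (ρ x - R) ^ 2) = fun x => ρ x ^ 2 - 2 * R * ρ x + R ^ 2 := by
      funext x
      ring
    have hi1 : Integrable (fun x => ρ x ^ 2 - 2 * R * ρ x) μ := hρ2.sub (hρi.const_mul _)
    rw [this, integral_add hi1 (integrable_const _),
      integral_sub hρ2 (hρi.const_mul _), integral_const_mul]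
    simp only [integral_const, probReal_univ, smul_eq_mul, one_mul]
    rw [← hR, ← hA]
    ring
  have hv0 : ∫ x, (ρ x - R) ^ 2 ∂μ = 0 :=
    le_antisymm (by rw [hv]; linarith) (integral_nonneg fun x => sq_nonneg _)
  have h3 := (integral_eq_zero_iff_of_nonneg (fun x => sq_nonneg (ρ x - R)) hvi).1 hv0
  filter_upwards [h3] with x hx
  have hx' : (ρ x - R) ^ 2 = 0 := hx
  have := pow_eq_zero_iff (two_ne_zero) |>.1 hx'
  linarith

end Pool.Agent.EscG
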