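import Pool.Agent.EscG.HDefs
import Pool.Agent.EscG.W6

set_option autoImplicit false

/-!
# EscG geometry, project H, module Hr7: area inequality for Farey neighbours (abstract)

The model is `farey_flat` in W6.lean. For `δ > 0` and `n` large
`(ρ x ^ 2 - δ ^ 2 / 2) π ≤ S n (im (conj (P k x) * P k' x))`; integration and `hint` give
`κ (∫ ρ ^ 2 - δ ^ 2 / 2) π ≤ S n (im (conj (Z k) * Z k')) ≤ R ^ 2 π`. Let `δ → 0`.
Here `S n f = T n f (1,0) (0,1) + T n f (0,1) (-1,0)`.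
-/

noncomputable section

namespace Pool.Agent.EscG

open MeasureTheory Set Filter Topology ComplexConjugate

open FareyAux in
theorem farey_area {X : Type*} [MeasurableSpace X] (μ : Measure X) [IsProbabilityMeasure μ]
    (ρ : X → ℝ) (P : ℤ × ℤ → X → ℂ) (Z : ℤ × ℤ → ℂ) {m M R κ : ℝ} (hm : 0 < m) (hρ : ∀ x, m ≤ ρ x ∧ ρ x ≤ M)
    (hκ : 0 < κ) (hρm : AEStronglyMeasurable ρ μ)
    (hPm : ∀ k : ℤ × ℤ, IsCoprime k.1 k.2 → AEStronglyMeasurable (P k) μ)
    (hn : ∀ k : ℤ × ℤ, IsCoprime k.1 k.2 → ∀ x, ‖P k x‖ = ρ x)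
    (hneg : ∀ k : ℤ × ℤ, IsCoprime k.1 k.2 → ∀ x, P (-k) x = -P k x)
    (hpos : ∀ k k' : ℤ × ℤ, IsCoprime k.1 k.2 → IsCoprime k'.1 k'.2 →
      0 < k.1 * k'.2 - k.2 * k'.1 → ∀ x, 0 < (conj (P k x) * P k' x).im)
    (hZn : ∀ k : ℤ × ℤ, IsCoprime k.1 k.2 → ‖Z k‖ ≤ R)
    (hZneg : ∀ k : ℤ × ℤ, IsCoprime k.1 k.2 → Z (-k) = -Z k)
    (hint : ∀ k k' : ℤ × ℤ, IsCoprime k.1 k.2 → IsCoprime k'.1 k'.2 →
      κ * ∫ x, (conj (P k x) * P k' x).im ∂μ = (conj (Z k) * Z k').im)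
    (hsm : ∀ δ > 0, ∃ N : ℕ, ∀ k k' : ℤ × ℤ, IsCoprime k.1 k.2 → IsCoprime k'.1 k'.2 →
      k.1 * k'.2 - k.2 * k'.1 = 1 → 0 ≤ k.1 * k'.1 → 0 ≤ k.2 * k'.2 →
      ((N : ℤ) ≤ |k.1| + |k.2| ∨ (N : ℤ) ≤ |k'.1| + |k'.2|) → ∀ x, ‖P k x - P k' x‖ ≤ δ) :
    κ * ∫ x, ρ x ^ 2 ∂μ ≤ R ^ 2 := by
  set A : ℝ := ∫ x, ρ x ^ 2 ∂μ with hA
  have hρ0 : ∀ x, 0 < ρ x := fun x => lt_of_lt_of_le hm (hρ x).1
  have hρ2 : Integrable (fun x => ρ x ^ 2) μ := Integrable.of_bound (hρm.pow 2) (M ^ 2)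
    (Eventually.of_forall fun x => by
      rw [Real.norm_eq_abs, abs_of_pos (by have := hρ0 x; positivity)]
      have := hρ0 x
      have := (hρ x).2
      gcongr)
  -- wedge products
  have hwi : ∀ k k' : ℤ × ℤ, IsCoprime k.1 k.2 → IsCoprime k'.1 k'.2 →
      Integrable (fun x => (conj (P k x) * P k' x).im) μ := by
    intro k k' hk hk'
    refine Integrable.of_bound ?_ (M ^ 2) (Eventually.of_forall fun x => ?_)
    · exact Complex.continuous_im.comp_aestronglyMeasurable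
        ((Complex.continuous_conj.comp_aestronglyMeasurable (hPm k hk)).mul (hPm k' hk'))
    · rw [Real.norm_eq_abs]
      refine (Complex.abs_im_le_norm _).trans ?_
      rw [norm_mul, Complex.norm_conj, hn k hk, hn k' hk', ← sq]
      have := hρ0 x
      have := (hρ x).2
      gcongr
  have hZpos : ∀ k k' : ℤ × ℤ, IsCoprime k.1 k.2 → IsCoprime k'.1 k'.2 →
      0 < k.1 * k'.2 - k.2 * k'.1 → 0 < (conj (Z k) * Z k').im := by
    intro k k' hk hk' hd
    rw [← hint k k' hk hk']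
    refine mul_pos hκ ?_
    rw [integral_pos_iff_support_of_nonneg (fun x => (hpos k k' hk hk' hd x).le)
      (hwi k k' hk hk')]
    have hs : Function.support (fun x => (conj (P k x) * P k' x).im) = univ := by
      ext x
      simp only [Function.mem_support, mem_univ, iff_true]
      exact (hpos k k' hk hk' hd x).ne'
    rw [hs, measure_univ]
    exact one_pos
  -- main estimate
  have hpi := Real.pi_pos
  have key : ∀ δ : ℝ, 0 < δ → κ * (A - δ ^ 2 / 2) ≤ R ^ 2 := by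
    intro δ hδ
    obtain ⟨N, hN⟩ := hsm δ hδ
    set n : ℕ := 2 * N with hn2
    -- the function of the wedge products at `x`
    set f : X → ℤ × ℤ → ℤ × ℤ → ℝ := fun x k k' => (conj (P k x) * P k' x).im with hf
    have hfi : ∀ k k', Gd k k' → Integrable (fun x => f x k k') μ := fun k k' h =>
      hwi k k' h.cl h.cr
    obtain ⟨i0, e0⟩ := T_int hfi n _ _ gd0
    obtain ⟨i1, e1⟩ := T_int hfi n _ _ gd1
    -- lower bound
    have hlow : ∀ x, (ρ x ^ 2 - δ ^ 2 / 2) * Real.pi ≤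
        T n (f x) (1, 0) (0, 1) + T n (f x) (0, 1) (-1, 0) := by
      intro x
      have hs := an_sum (Z := fun k => P k x) (fun k hk => hneg k hk x)
        (fun k k' hk hk' hd => hpos k k' hk hk' hd x) n
      rw [← hs, mul_add, ← T_smul, ← T_smul]
      have hle : ∀ k k', Gd k k' → ((n : ℤ) + 2) ≤ sz k + sz k' →
          (ρ x ^ 2 - δ ^ 2 / 2) * an (P k x) (P k' x) ≤ f x k k' := by
        intro k k' h hsz
        refine im_ge (hn k h.cl x) (hn k' h.cr x) (hpos k k' h.cl h.cr (by rw [h.1]; exact one_pos) x)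
          ?_
        refine hN k k' h.cl h.cr h.1 h.2.1 h.2.2 ?_ x
        have hsz' : (n : ℤ) + 2 ≤ (|k.1| + |k.2|) + (|k'.1| + |k'.2|) := hsz
        have hnN : (n : ℤ) = 2 * N := by rw [hn2]; push_cast; ring
        omega
      have z0 : ((n : ℤ) + 2) ≤ sz (1, 0) + sz (0, 1) + n := by simp [sz]; omega
      have z1 : ((n : ℤ) + 2) ≤ sz (0, 1) + sz (-1, 0) + n := by simp [sz]; omega
      exact add_le_add (T_mono hle n _ _ gd0 z0) (T_mono hle n _ _ gd1 z1)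
    -- upper bound
    have hupp : T n (fun a b => κ * ∫ x, f x a b ∂μ) (1, 0) (0, 1) +
        T n (fun a b => κ * ∫ x, f x a b ∂μ) (0, 1) (-1, 0) ≤ R ^ 2 * Real.pi := by
      have hs := an_sum (Z := Z) hZneg hZpos n
      rw [← hs, mul_add, ← T_smul, ← T_smul]
      have hle : ∀ k k', Gd k k' → (0 : ℤ) ≤ sz k + sz k' →
          κ * ∫ x, f x k k' ∂μ ≤ R ^ 2 * an (Z k) (Z k') := by
        intro k k' h _
        have e : κ * ∫ x, f x k k' ∂μ = (conj (Z k) * Z k').im := hint k k' h.cl h.cr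
        rw [e]
        exact im_le (hZn k h.cl) (hZn k' h.cr) (hZpos k k' h.cl h.cr (by rw [h.1]; exact one_pos))
      have z0 : (0 : ℤ) ≤ sz (1, 0) + sz (0, 1) + n := by simp [sz]; omega
      have z1 : (0 : ℤ) ≤ sz (0, 1) + sz (-1, 0) + n := by simp [sz]; omega
      exact add_le_add (T_mono hle n _ _ gd0 z0) (T_mono hle n _ _ gd1 z1)
    rw [T_smul, T_smul, ← mul_add] at hupp
    have hI : ∫ x, (ρ x ^ 2 - δ ^ 2 / 2) * Real.pi ∂μ ≤
        ∫ x, (T n (f x) (1, 0) (0, 1) + T n (f x) (0, 1) (-1, 0)) ∂μ :=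
      integral_mono ((hρ2.sub (integrable_const _)).mul_const _) (i0.add i1) hlow
    rw [integral_add i0 i1, e0, e1] at hI
    rw [integral_mul_const, integral_sub hρ2 (integrable_const _)] at hI
    simp only [integral_const, probReal_univ, smul_eq_mul, one_mul] at hI
    have h3 : κ * ((A - δ ^ 2 / 2) * Real.pi) ≤ R ^ 2 * Real.pi :=
      (mul_le_mul_of_nonneg_left hI hκ.le).trans hupp
    rw [← mul_assoc] at h3
    exact le_of_mul_le_mul_right h3 hpi
  by_contra hc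
  have h1 : 0 < κ * A - R ^ 2 := by linarith [not_le.1 hc]
  have h0 : 0 < (κ * A - R ^ 2) / κ := div_pos h1 hκ
  have h2 := key (√((κ * A - R ^ 2) / κ)) (Real.sqrt_pos.2 h0)
  rw [Real.sq_sqrt h0.le] at h2
  have h4 : κ * (A - (κ * A - R ^ 2) / κ / 2) = κ * A - (κ * A - R ^ 2) / 2 := by
    field_simp
  rw [h4] at h2
  linarith

end Pool.Agent.EscG
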