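import Mathlib

set_option autoImplicit false

/-!
# EscG flatness: the integral of a wedge product over the unit square

`f`, `g` of class `C^1` on the plane with additive periods. The proof averages `g` in the first variable
over `[0,h]` and lets `h` tend to zero; Fubini and the fundamental theorem of calculus.
-/

noncomputable section

open MeasureTheory Set Filter Topology

namespace Pool.Agent.EscG

namespace Wdg

/-- integral over the unit square as an iterated integral -/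
lemma sq_eq {u : ℝ × ℝ → ℝ} (hu : Continuous u) :
    ∫ z in Icc (0 : ℝ × ℝ) (1, 1), u z = ∫ x in (0:ℝ)..1, ∫ y in (0:ℝ)..1, u (x, y) := by
  have e : Icc (0 : ℝ × ℝ) (1, 1) = Icc (0:ℝ) 1 ×ˢ Icc (0:ℝ) 1 := by
    ext z; simp [Prod.le_def]
  have hi : IntegrableOn u (Icc (0:ℝ) 1 ×ˢ Icc (0:ℝ) 1) (volume.prod volume) := by
    rw [← Measure.volume_eq_prod]
    exact hu.continuousOn.integrableOn_compact (isCompact_Icc.prod isCompact_Icc)
  rw [e, Measure.volume_eq_prod, setIntegral_prod _ hi, integral_Icc_eq_integral_Ioc,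
    intervalIntegral.integral_of_le zero_le_one]
  refine setIntegral_congr_fun measurableSet_Ioc fun x _ => ?_
  rw [integral_Icc_eq_integral_Ioc, intervalIntegral.integral_of_le zero_le_one]

/-- exchange of the order of integration -/
lemma swap {u : ℝ → ℝ → ℝ} (hu : Continuous fun z : ℝ × ℝ => u z.1 z.2) (a b c d : ℝ) :
    ∫ x in a..b, ∫ y in c..d, u x y = ∫ y in c..d, ∫ x in a..b, u x y := by
  apply intervalIntegral_intervalIntegral_swap
  have h1 : IntegrableOn (Function.uncurry u) (uIcc a b ×ˢ uIcc c d) :=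
    (show Continuous (Function.uncurry u) from hu).continuousOn.integrableOn_compact
      (isCompact_uIcc.prod isCompact_uIcc)
  exact h1.mono_set (prod_mono uIoc_subset_uIcc uIoc_subset_uIcc)

variable {f f1 f2 : ℝ × ℝ → ℝ}

lemma d1 (hf : ∀ z, HasFDerivAt f (f1 z • ContinuousLinearMap.fst ℝ ℝ ℝ +
    f2 z • ContinuousLinearMap.snd ℝ ℝ ℝ) z) (x y : ℝ) : HasDerivAt (fun x => f (x, y)) (f1 (x, y)) x := by
  have h := (hf (x, y)).comp_hasDerivAt x ((hasDerivAt_id x).prodMk (hasDerivAt_const x y))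
  simpa [Function.comp_def] using h

lemma d2 (hf : ∀ z, HasFDerivAt f (f1 z • ContinuousLinearMap.fst ℝ ℝ ℝ +
    f2 z • ContinuousLinearMap.snd ℝ ℝ ℝ) z) (x y : ℝ) : HasDerivAt (fun y => f (x, y)) (f2 (x, y)) y := by
  have h := (hf (x, y)).comp_hasDerivAt y ((hasDerivAt_const y x).prodMk (hasDerivAt_id y))
  simpa [Function.comp_def] using h

/-- derivative of `f (x + h, y) - f (x, y)` -/
lemma d1s (hf : ∀ z, HasFDerivAt f (f1 z • ContinuousLinearMap.fst ℝ ℝ ℝ +
    f2 z • ContinuousLinearMap.snd ℝ ℝ ℝ) z) (h x y : ℝ) :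
    HasDerivAt (fun x => f (x + h, y)) (f1 (x + h, y)) x :=
  (d1 hf (x + h) y).comp_add_const x h

lemma fc (hf : ∀ z, HasFDerivAt f (f1 z • ContinuousLinearMap.fst ℝ ℝ ℝ +
    f2 z • ContinuousLinearMap.snd ℝ ℝ ℝ) z) : Continuous f :=
  continuous_iff_continuousAt.2 fun z => (hf z).continuousAt

/-- the derivatives are periodic -/
lemma per {v : ℝ × ℝ} {a : ℝ} (hf : ∀ z, HasFDerivAt f (f1 z • ContinuousLinearMap.fst ℝ ℝ ℝ +
    f2 z • ContinuousLinearMap.snd ℝ ℝ ℝ) z) (pf : ∀ z, f (z + v) = f z + a) (z : ℝ × ℝ) :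
    f1 (z + v) = f1 z ∧ f2 (z + v) = f2 z := by
  have h1 : HasFDerivAt (fun z => f (z + v)) (f1 (z + v) • ContinuousLinearMap.fst ℝ ℝ ℝ +
      f2 (z + v) • ContinuousLinearMap.snd ℝ ℝ ℝ) z := by
    have := (hf (z + v)).comp z ((hasFDerivAt_id z).add_const v)
    simpa [Function.comp_def] using this
  have h2 : HasFDerivAt (fun z => f (z + v)) (f1 z • ContinuousLinearMap.fst ℝ ℝ ℝ +
      f2 z • ContinuousLinearMap.snd ℝ ℝ ℝ) z := by
    have := (hf z).add_const a
    refine this.congr_of_eventuallyEq (Eventually.of_forall fun z => ?_)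
    exact pf z
  have h3 := h1.unique h2
  constructor
  · have := congrArg (fun φ : ℝ × ℝ →L[ℝ] ℝ => φ (1, 0)) h3
    simpa using this
  · have := congrArg (fun φ : ℝ × ℝ →L[ℝ] ℝ => φ (0, 1)) h3
    simpa using this

end Wdg

open Wdg

theorem int_mean {f f1 f2 : ℝ × ℝ → ℝ} {a1 a2 : ℝ}
    (hf : ∀ z, HasFDerivAt f (f1 z • ContinuousLinearMap.fst ℝ ℝ ℝ +
      f2 z • ContinuousLinearMap.snd ℝ ℝ ℝ) z)
    (cf1 : Continuous f1) (cf2 : Continuous f2)
    (pf1 : ∀ z, f (z + (1, 0)) = f z + a1) (pf2 : ∀ z, f (z + (0, 1)) = f z + a2) :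
    ∫ z in Icc (0 : ℝ × ℝ) (1, 1), f1 z = a1 ∧ ∫ z in Icc (0 : ℝ × ℝ) (1, 1), f2 z = a2 := by
  constructor
  · rw [sq_eq cf1, swap (u := fun x y => f1 (x, y)) (by fun_prop)]
    have e : ∀ y : ℝ, ∫ x in (0:ℝ)..1, f1 (x, y) = a1 := by
      intro y
      rw [intervalIntegral.integral_eq_sub_of_hasDerivAt (f := fun x => f (x, y))
        (fun x _ => d1 hf x y) ((show Continuous fun x : ℝ => f1 (x, y) by fun_prop).intervalIntegrable _ _)]
      have := pf1 (0, y)
      simp only [Prod.mk_add_mk, zero_add, add_zero] at this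
      rw [this]; ring
    simp [e]
  · rw [sq_eq cf2]
    have e : ∀ x : ℝ, ∫ y in (0:ℝ)..1, f2 (x, y) = a2 := by
      intro x
      rw [intervalIntegral.integral_eq_sub_of_hasDerivAt (f := fun y => f (x, y))
        (fun y _ => d2 hf x y) ((show Continuous fun y : ℝ => f2 (x, y) by fun_prop).intervalIntegrable _ _)]
      have := pf2 (x, 0)
      simp only [Prod.mk_add_mk, zero_add, add_zero] at this
      rw [this]; ring
    simp [e]

namespace Wdg

variable {f g f1 f2 g1 g2 : ℝ × ℝ → ℝ} {a1 a2 b1 b2 : ℝ}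

/-- increments as integrals -/
lemma inc1 (hg : ∀ z, HasFDerivAt g (g1 z • ContinuousLinearMap.fst ℝ ℝ ℝ +
      g2 z • ContinuousLinearMap.snd ℝ ℝ ℝ) z) (cg1 : Continuous g1) (a b y : ℝ) :
    ∫ x in a..b, g1 (x, y) = g (b, y) - g (a, y) :=
  intervalIntegral.integral_eq_sub_of_hasDerivAt (f := fun x => g (x, y))
    (fun x _ => d1 hg x y) ((show Continuous fun x : ℝ => g1 (x, y) by fun_prop).intervalIntegrable _ _)

lemma inc2 (hg : ∀ z, HasFDerivAt g (g1 z • ContinuousLinearMap.fst ℝ ℝ ℝ +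
      g2 z • ContinuousLinearMap.snd ℝ ℝ ℝ) z) (cg2 : Continuous g2) (a b x : ℝ) :
    ∫ y in a..b, g2 (x, y) = g (x, b) - g (x, a) :=
  intervalIntegral.integral_eq_sub_of_hasDerivAt (f := fun y => g (x, y))
    (fun y _ => d2 hg x y) ((show Continuous fun y : ℝ => g2 (x, y) by fun_prop).intervalIntegrable _ _)

/-- the averaged identity -/
lemma avg (hf : ∀ z, HasFDerivAt f (f1 z • ContinuousLinearMap.fst ℝ ℝ ℝ +
      f2 z • ContinuousLinearMap.snd ℝ ℝ ℝ) z)
    (hg : ∀ z, HasFDerivAt g (g1 z • ContinuousLinearMap.fst ℝ ℝ ℝ +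
      g2 z • ContinuousLinearMap.snd ℝ ℝ ℝ) z)
    (cf1 : Continuous f1) (cf2 : Continuous f2) (cg1 : Continuous g1) (cg2 : Continuous g2)
    (pf1 : ∀ z, f (z + (1, 0)) = f z + a1) (pf2 : ∀ z, f (z + (0, 1)) = f z + a2)
    (pg1 : ∀ z, g (z + (1, 0)) = g z + b1) (pg2 : ∀ z, g (z + (0, 1)) = g z + b2) (h : ℝ) :
    ∫ x in (0:ℝ)..1, ∫ y in (0:ℝ)..1, (f1 (x, y) * (∫ t in (0:ℝ)..h, g2 (x + t, y)) -
      f2 (x, y) * (∫ t in (0:ℝ)..h, g1 (x + t, y))) = h * (a1 * b2 - a2 * b1) := by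
  have cf := fc hf
  have cg := fc hg
  -- primitives
  have hG0 : ∀ x y : ℝ, ∫ t in (0:ℝ)..h, g2 (x + t, y) = ∫ t in x..(x + h), g2 (t, y) := by
    intro x y
    rw [intervalIntegral.integral_comp_add_left (fun t => g2 (t, y)) x, add_zero]
  have hH : ∀ x y : ℝ, ∫ t in (0:ℝ)..h, g1 (x + t, y) = g (x + h, y) - g (x, y) := by
    intro x y
    rw [intervalIntegral.integral_comp_add_left (fun t => g1 (t, y)) x, add_zero, inc1 hg cg1]
  have cG : Continuous fun z : ℝ × ℝ => ∫ t in (0:ℝ)..h, g2 (z.1 + t, z.2) := by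
    apply intervalIntegral.continuous_parametric_intervalIntegral_of_continuous'
    fun_prop
  have dG : ∀ x y : ℝ, HasDerivAt (fun x => ∫ t in (0:ℝ)..h, g2 (x + t, y))
      (g2 (x + h, y) - g2 (x, y)) x := by
    intro x y
    have c : Continuous fun t : ℝ => g2 (t, y) := by fun_prop
    have e : (fun x : ℝ => ∫ t in (0:ℝ)..h, g2 (x + t, y)) =
        fun x => (∫ t in (0:ℝ)..(x + h), g2 (t, y)) - ∫ t in (0:ℝ)..x, g2 (t, y) := by
      funext x
      rw [hG0, intervalIntegral.integral_interval_sub_left (c.intervalIntegrable _ _)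
        (c.intervalIntegrable _ _)]
    rw [e]
    have p : ∀ x : ℝ, HasDerivAt (fun x => ∫ t in (0:ℝ)..x, g2 (t, y)) (g2 (x, y)) x := fun x =>
      intervalIntegral.integral_hasDerivAt_right (c.intervalIntegrable _ _)
        (c.stronglyMeasurableAtFilter _ _) c.continuousAt
    exact ((p (x + h)).comp_add_const x h).sub (p x)
  have pG : ∀ y : ℝ, ∫ t in (0:ℝ)..h, g2 (1 + t, y) = ∫ t in (0:ℝ)..h, g2 (0 + t, y) := by
    intro y
    refine intervalIntegral.integral_congr fun t _ => ?_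
    have := (per hg pg1 (t, y)).2
    simp only [Prod.mk_add_mk, add_zero] at this
    simp only [zero_add]
    rw [add_comm, this]
  have pf1' : ∀ y : ℝ, f (1, y) = f (0, y) + a1 := fun y => by
    have := pf1 (0, y)
    simpa using this
  have pf2' : ∀ x : ℝ, f (x, 1) = f (x, 0) + a2 := fun x => by
    have := pf2 (x, 0)
    simpa using this
  have pg1' : ∀ x y : ℝ, g (x + 1, y) = g (x, y) + b1 := fun x y => by
    have := pg1 (x, y)
    simpa using this
  have pg2' : ∀ x : ℝ, g (x, 1) = g (x, 0) + b2 := fun x => by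
    have := pg2 (x, 0)
    simpa using this
  -- the first term
  have I1 : ∫ y in (0:ℝ)..1, ∫ x in (0:ℝ)..1, (f1 (x, y) * (∫ t in (0:ℝ)..h, g2 (x + t, y)) +
      f (x, y) * (g2 (x + h, y) - g2 (x, y))) = h * (a1 * b2) := by
    have e : ∀ y : ℝ, ∫ x in (0:ℝ)..1, (f1 (x, y) * (∫ t in (0:ℝ)..h, g2 (x + t, y)) +
        f (x, y) * (g2 (x + h, y) - g2 (x, y))) = a1 * ∫ t in (0:ℝ)..h, g2 (t, y) := by
      intro y
      rw [intervalIntegral.integral_eq_sub_of_hasDerivAt
        (f := fun x => f (x, y) * ∫ t in (0:ℝ)..h, g2 (x + t, y))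
        (fun x _ => (d1 hf x y).mul (dG x y)) (Continuous.intervalIntegrable (by
          have := cG.comp (show Continuous fun x : ℝ => (x, y) by fun_prop)
          simp only [Function.comp_def] at this
          fun_prop) _ _)]
      rw [pG, pf1']
      simp only [zero_add]
      ring
    simp_rw [e]
    rw [intervalIntegral.integral_const_mul, swap (u := fun y t => g2 (t, y)) (by fun_prop)]
    have e2 : ∀ t : ℝ, ∫ y in (0:ℝ)..1, g2 (t, y) = b2 := by
      intro t
      rw [inc2 hg cg2, pg2']; ring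
    simp_rw [e2]
    simp
    ring
  -- the second term
  have I2 : ∫ x in (0:ℝ)..1, ∫ y in (0:ℝ)..1, (f2 (x, y) * (g (x + h, y) - g (x, y)) +
      f (x, y) * (g2 (x + h, y) - g2 (x, y))) = h * (a2 * b1) := by
    have e : ∀ x : ℝ, ∫ y in (0:ℝ)..1, (f2 (x, y) * (g (x + h, y) - g (x, y)) +
        f (x, y) * (g2 (x + h, y) - g2 (x, y))) = a2 * ∫ t in (0:ℝ)..h, g1 (x + t, 0) := by
      intro x
      rw [intervalIntegral.integral_eq_sub_of_hasDerivAt
        (f := fun y => f (x, y) * (g (x + h, y) - g (x, y)))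
        (fun y _ => (d2 hf x y).mul ((d2 hg (x + h) y).sub (d2 hg x y)))
        (Continuous.intervalIntegrable (by fun_prop) _ _)]
      rw [hH, pf2', pg2', pg2']
      ring
    simp_rw [e]
    rw [intervalIntegral.integral_const_mul, swap (u := fun x t => g1 (x + t, 0)) (by fun_prop)]
    have e2 : ∀ t : ℝ, ∫ x in (0:ℝ)..1, g1 (x + t, 0) = b1 := by
      intro t
      rw [intervalIntegral.integral_comp_add_right (fun x => g1 (x, 0)) t, inc1 hg cg1, zero_add,
        add_comm 1 t, pg1']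
      ring
    simp_rw [e2]
    simp
    ring
  rw [swap (u := fun y x => f1 (x, y) * (∫ t in (0:ℝ)..h, g2 (x + t, y)) +
      f (x, y) * (g2 (x + h, y) - g2 (x, y))) (by
        have := cG.comp (show Continuous fun z : ℝ × ℝ => (z.2, z.1) by fun_prop)
        simp only [Function.comp_def] at this
        fun_prop)] at I1
  have cG1 : ∀ x : ℝ, Continuous fun y : ℝ => ∫ t in (0:ℝ)..h, g2 (x + t, y) := fun x => by
    have := cG.comp (show Continuous fun y : ℝ => (x, y) by fun_prop)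
    simpa only [Function.comp_def] using this
  rw [mul_sub, ← I1, ← I2, ← intervalIntegral.integral_sub]
  · refine intervalIntegral.integral_congr fun x _ => ?_
    rw [← intervalIntegral.integral_sub]
    · refine intervalIntegral.integral_congr fun y _ => ?_
      rw [hH]
      ring
    · exact Continuous.intervalIntegrable (by have := cG1 x; fun_prop) _ _
    · exact Continuous.intervalIntegrable (by fun_prop) _ _
  · apply Continuous.intervalIntegrable
    apply intervalIntegral.continuous_parametric_intervalIntegral_of_continuous'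
    show Continuous fun z : ℝ × ℝ => f1 (z.1, z.2) * (∫ t in (0:ℝ)..h, g2 (z.1 + t, z.2)) +
      f (z.1, z.2) * (g2 (z.1 + h, z.2) - g2 (z.1, z.2))
    fun_prop
  · apply Continuous.intervalIntegrable
    apply intervalIntegral.continuous_parametric_intervalIntegral_of_continuous'
    show Continuous fun z : ℝ × ℝ => f2 (z.1, z.2) * (g (z.1 + h, z.2) - g (z.1, z.2)) +
      f (z.1, z.2) * (g2 (z.1 + h, z.2) - g2 (z.1, z.2))
    fun_prop

end Wdg

theorem int_wedge {f g f1 f2 g1 g2 : ℝ × ℝ → ℝ} {a1 a2 b1 b2 : ℝ}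
    (hf : ∀ z, HasFDerivAt f (f1 z • ContinuousLinearMap.fst ℝ ℝ ℝ +
      f2 z • ContinuousLinearMap.snd ℝ ℝ ℝ) z)
    (hg : ∀ z, HasFDerivAt g (g1 z • ContinuousLinearMap.fst ℝ ℝ ℝ +
      g2 z • ContinuousLinearMap.snd ℝ ℝ ℝ) z)
    (cf1 : Continuous f1) (cf2 : Continuous f2) (cg1 : Continuous g1) (cg2 : Continuous g2)
    (pf1 : ∀ z, f (z + (1, 0)) = f z + a1) (pf2 : ∀ z, f (z + (0, 1)) = f z + a2)
    (pg1 : ∀ z, g (z + (1, 0)) = g z + b1) (pg2 : ∀ z, g (z + (0, 1)) = g z + b2) :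
    ∫ z in Icc (0 : ℝ × ℝ) (1, 1), (f1 z * g2 z - f2 z * g1 z) = a1 * b2 - a2 * b1 := by
  -- the averages as integrals over `[0,1]`
  set Θ : ℝ → ℝ := fun h => ∫ x in (0:ℝ)..1, ∫ y in (0:ℝ)..1,
    (f1 (x, y) * (∫ t in (0:ℝ)..1, g2 (x + h * t, y)) -
      f2 (x, y) * (∫ t in (0:ℝ)..1, g1 (x + h * t, y))) with hΘ
  have c2 : Continuous fun z : (ℝ × ℝ) × ℝ => ∫ t in (0:ℝ)..1, g2 (z.1.2 + z.1.1 * t, z.2) := by
    apply intervalIntegral.continuous_parametric_intervalIntegral_of_continuous'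
    fun_prop
  have c1 : Continuous fun z : (ℝ × ℝ) × ℝ => ∫ t in (0:ℝ)..1, g1 (z.1.2 + z.1.1 * t, z.2) := by
    apply intervalIntegral.continuous_parametric_intervalIntegral_of_continuous'
    fun_prop
  have hc : Continuous Θ := by
    apply intervalIntegral.continuous_parametric_intervalIntegral_of_continuous'
    show Continuous fun w : ℝ × ℝ => ∫ y in (0:ℝ)..1,
      (f1 (w.2, y) * (∫ t in (0:ℝ)..1, g2 (w.2 + w.1 * t, y)) -
        f2 (w.2, y) * (∫ t in (0:ℝ)..1, g1 (w.2 + w.1 * t, y)))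
    apply intervalIntegral.continuous_parametric_intervalIntegral_of_continuous'
    show Continuous fun z : (ℝ × ℝ) × ℝ =>
      (f1 (z.1.2, z.2) * (∫ t in (0:ℝ)..1, g2 (z.1.2 + z.1.1 * t, z.2)) -
        f2 (z.1.2, z.2) * (∫ t in (0:ℝ)..1, g1 (z.1.2 + z.1.1 * t, z.2)))
    fun_prop
  have hs : ∀ h : ℝ, h ≠ 0 → Θ h = a1 * b2 - a2 * b1 := by
    intro h hh
    have := avg hf hg cf1 cf2 cg1 cg2 pf1 pf2 pg1 pg2 h
    have e : ∀ (k : ℝ × ℝ → ℝ) (x y : ℝ), ∫ t in (0:ℝ)..h, k (x + t, y) =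
        h * ∫ t in (0:ℝ)..1, k (x + h * t, y) := by
      intro k x y
      have e1 := intervalIntegral.mul_integral_comp_mul_left (a := 0) (b := 1)
        (f := fun t => k (x + t, y)) h
      simp only [mul_zero, mul_one] at e1
      rw [e1]
    simp_rw [e] at this
    have e2 : ∀ x y : ℝ, f1 (x, y) * (h * ∫ t in (0:ℝ)..1, g2 (x + h * t, y)) -
        f2 (x, y) * (h * ∫ t in (0:ℝ)..1, g1 (x + h * t, y)) =
        h * (f1 (x, y) * (∫ t in (0:ℝ)..1, g2 (x + h * t, y)) -
          f2 (x, y) * (∫ t in (0:ℝ)..1, g1 (x + h * t, y))) := fun x y => by ring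
    simp_rw [e2, intervalIntegral.integral_const_mul] at this
    exact mul_left_cancel₀ hh this
  have h0 : Θ 0 = a1 * b2 - a2 * b1 := by
    have h1 : Tendsto Θ (𝓝[≠] 0) (𝓝 (Θ 0)) := (hc.tendsto 0).mono_left nhdsWithin_le_nhds
    have h2 : Tendsto Θ (𝓝[≠] 0) (𝓝 (a1 * b2 - a2 * b1)) := by
      refine tendsto_const_nhds.congr' ?_
      filter_upwards [self_mem_nhdsWithin] with h hh
      exact (hs h hh).symm
    exact tendsto_nhds_unique h1 h2
  rw [← h0, hΘ, sq_eq (by fun_prop)]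
  simp

end Pool.Agent.EscG
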