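import Pool.Agent.EscG.W4
import Pool.Agent.EscG.W3

set_option autoImplicit false

/-!
# EscG flatness: signs and integrals of the wedge products

`U k ∘ co β` has partial derivatives `⟨P k, β 0⟩`, `⟨P k, β 1⟩` (`quad`), continuous (`Fol.lip`), so
`int_wedge` and `int_mean` give the integrals. Sign: `wd β (P k x) (P k' x)` is continuous in `x` and does
not vanish (if it vanishes the two vectors are parallel, of the same norm `ρ x`, so `P k x = ± P k' x`;
`trans`, `P_neg`), so it has a constant sign (`E` is connected), the sign of its integral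
`(c k).1 (c k').2 - (c k).2 (c k').1`, and `dt k k' ((c k).1 (c k').2 - (c k).2 (c k').1) = σ k σ k' - c_k(k') c_k'(k) ≥ 0`
(`|c_k(k')| ≤ σ k'` by `cσ_le` for `k'` and `-k'`).
-/

noncomputable section

namespace Pool.Agent.EscG

open MeasureTheory Set Filter Topology Esc EscF _root_.EscG

variable {E : Type*} [NormedAddCommGroup E] [InnerProductSpace ℝ E] [FiniteDimensional ℝ E]
  {β : Module.Basis (Fin 2) ℝ E} {ρ : E → ℝ} {mF MF K : ℝ} {σ : ℤ × ℤ → ℝ} {U : ℤ × ℤ → E → ℝ}
  {c : ℤ × ℤ → ℝ × ℝ} {P : ℤ × ℤ → E → E}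

/-- coordinates as a continuous linear map -/
private def coL (β : Module.Basis (Fin 2) ℝ E) : ℝ × ℝ →L[ℝ] E :=
  (ContinuousLinearMap.fst ℝ ℝ ℝ).smulRight (β 0) + (ContinuousLinearMap.snd ℝ ℝ ℝ).smulRight (β 1)

omit [FiniteDimensional ℝ E] in
private lemma coL_apply (β : Module.Basis (Fin 2) ℝ E) (z : ℝ × ℝ) : coL β z = co β z := by
  simp [coL, co]

omit [FiniteDimensional ℝ E] in
private lemma co_cont (β : Module.Basis (Fin 2) ℝ E) : Continuous (co β) := by
  unfold co
  fun_prop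

private lemma Fol.P_cont (h : Fol β ρ mF MF K σ U c P) {k : ℤ × ℤ} (hk : Prim k) :
    Continuous (P k) := by
  have hL : LipschitzWith (Real.toNNReal (6 * K)) (P k) := by
    refine LipschitzWith.of_dist_le_mul fun x y => ?_
    rw [dist_eq_norm, dist_eq_norm, Real.coe_toNNReal _ (by have := h.K_nonneg; positivity)]
    exact h.lip hk x y
  exact hL.continuous

omit [FiniteDimensional ℝ E] in
private lemma Fol.U_fderiv (h : Fol β ρ mF MF K σ U c P) {k : ℤ × ℤ} (hk : Prim k) (x : E) :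
    HasFDerivAt (U k) (innerSL ℝ (P k x)) x := by
  rw [hasFDerivAt_iff_isLittleO]
  have h1 : (fun y => U k y - U k x - (innerSL ℝ (P k x)) (y - x)) =O[𝓝 x]
      fun y => ‖y - x‖ ^ 2 := by
    refine Asymptotics.IsBigO.of_bound K (Eventually.of_forall fun y => ?_)
    rw [Real.norm_eq_abs, innerSL_apply_apply, Real.norm_eq_abs, abs_of_nonneg (by positivity : (0 : ℝ) ≤ ‖y - x‖ ^ 2)]
    exact h.quad k hk x y
  refine h1.trans_isLittleO ?_
  have h2 : (fun y : E => ‖y - x‖ ^ 2) =o[𝓝 x] fun y => ‖y - x‖ := by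
    have h3 : (fun y : E => ‖y - x‖) =o[𝓝 x] fun _ => (1 : ℝ) := by
      rw [Asymptotics.isLittleO_one_iff]
      have : Tendsto (fun y : E => ‖y - x‖) (𝓝 x) (𝓝 ‖x - x‖) := by
        apply Continuous.tendsto
        fun_prop
      simpa using this
    have h4 := h3.mul_isBigO (Asymptotics.isBigO_refl (fun y : E => ‖y - x‖) (𝓝 x))
    simpa [sq] using h4
  exact h2.of_norm_right

omit [FiniteDimensional ℝ E] in
private lemma Fol.f_fderiv (h : Fol β ρ mF MF K σ U c P) {k : ℤ × ℤ} (hk : Prim k) (z : ℝ × ℝ) :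
    HasFDerivAt (fun z => U k (co β z))
      ((inner ℝ (P k (co β z)) (β 0) : ℝ) • ContinuousLinearMap.fst ℝ ℝ ℝ +
        (inner ℝ (P k (co β z)) (β 1) : ℝ) • ContinuousLinearMap.snd ℝ ℝ ℝ) z := by
  have h1 : HasFDerivAt (fun z => co β z) (coL β) z := by
    have : (fun z => co β z) = coL β := by
      funext z
      exact (coL_apply β z).symm
    rw [this]
    exact (coL β).hasFDerivAt
  have h2 := (h.U_fderiv hk (co β z)).comp z h1
  refine h2.congr_fderiv ?_
  ext <;> simp [coL]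

omit [FiniteDimensional ℝ E] in
private lemma Fol.per0 (h : Fol β ρ mF MF K σ U c P) {k : ℤ × ℤ} (hk : Prim k) (z : ℝ × ℝ) :
    U k (co β (z + (1, 0))) = U k (co β z) + (c k).1 := by
  have : co β (z + (1, 0)) = co β z + β 0 := by
    simp only [co, Prod.fst_add, Prod.snd_add, add_zero, add_smul, one_smul]
    abel
  rw [this, h.U0 k hk]

omit [FiniteDimensional ℝ E] in
private lemma Fol.per1 (h : Fol β ρ mF MF K σ U c P) {k : ℤ × ℤ} (hk : Prim k) (z : ℝ × ℝ) :
    U k (co β (z + (0, 1))) = U k (co β z) + (c k).2 := by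
  have : co β (z + (0, 1)) = co β z + β 1 := by
    simp only [co, Prod.fst_add, Prod.snd_add, add_zero, add_smul, one_smul]
    abel
  rw [this, h.U1 k hk]

private lemma Fol.cont0 (h : Fol β ρ mF MF K σ U c P) {k : ℤ × ℤ} (hk : Prim k) (i : Fin 2) :
    Continuous fun z => (inner ℝ (P k (co β z)) (β i) : ℝ) :=
  ((h.P_cont hk).comp (co_cont β)).inner continuous_const

theorem Fol.int_wd (h : Fol β ρ mF MF K σ U c P) {k k' : ℤ × ℤ} (hk : Prim k) (hk' : Prim k') :
    ∫ z in Icc (0 : ℝ × ℝ) (1, 1), wd β (P k (co β z)) (P k' (co β z)) =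
      (c k).1 * (c k').2 - (c k).2 * (c k').1 :=
  int_wedge (h.f_fderiv hk) (h.f_fderiv hk') (h.cont0 hk 0) (h.cont0 hk 1) (h.cont0 hk' 0)
    (h.cont0 hk' 1) (h.per0 hk) (h.per1 hk) (h.per0 hk') (h.per1 hk')

theorem Fol.int_mean (h : Fol β ρ mF MF K σ U c P) {k : ℤ × ℤ} (hk : Prim k) :
    ∫ z in Icc (0 : ℝ × ℝ) (1, 1), (inner ℝ (P k (co β z)) (β 0) : ℝ) = (c k).1 ∧
      ∫ z in Icc (0 : ℝ × ℝ) (1, 1), (inner ℝ (P k (co β z)) (β 1) : ℝ) = (c k).2 :=
  Pool.Agent.EscG.int_mean (h.f_fderiv hk) (h.cont0 hk 0) (h.cont0 hk 1) (h.per0 hk) (h.per1 hk)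

omit [FiniteDimensional ℝ E] in
private lemma eq_zero_of_inner (β : Module.Basis (Fin 2) ℝ E) {w : E}
    (h0 : (inner ℝ w (β 0) : ℝ) = 0) (h1 : (inner ℝ w (β 1) : ℝ) = 0) : w = 0 := by
  have hw : w = β.repr w 0 • β 0 + β.repr w 1 • β 1 := by
    conv_lhs => rw [← β.sum_repr w]
    rw [Fin.sum_univ_two]
  have : (inner ℝ w w : ℝ) = 0 := by
    conv_lhs => rhs; rw [hw]
    rw [inner_add_right, inner_smul_right, inner_smul_right, h0, h1]
    simp
  exact inner_self_eq_zero.1 this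

omit [FiniteDimensional ℝ E] in
private lemma par_of_wd (β : Module.Basis (Fin 2) ℝ E) {p p' : E} (hn : ‖p‖ = ‖p'‖)
    (hp : p ≠ 0) (hw : wd β p p' = 0) : p' = p ∨ p' = -p := by
  unfold wd at hw
  have e0 : (inner ℝ p' (β 0) : ℝ) • p = (inner ℝ p (β 0) : ℝ) • p' := by
    rw [← sub_eq_zero]
    apply eq_zero_of_inner β
    · rw [inner_sub_left, inner_smul_left, inner_smul_left]
      simp only [conj_trivial]
      ring
    · rw [inner_sub_left, inner_smul_left, inner_smul_left]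
      simp only [conj_trivial]
      linarith
  have e1 : (inner ℝ p' (β 1) : ℝ) • p = (inner ℝ p (β 1) : ℝ) • p' := by
    rw [← sub_eq_zero]
    apply eq_zero_of_inner β
    · rw [inner_sub_left, inner_smul_left, inner_smul_left]
      simp only [conj_trivial]
      linarith
    · rw [inner_sub_left, inner_smul_left, inner_smul_left]
      simp only [conj_trivial]
      ring
  have hpn : ‖p‖ ≠ 0 := norm_ne_zero_iff.2 hp
  have key : ∀ a b : ℝ, a • p = b • p' → b ≠ 0 → p' = p ∨ p' = -p := by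
    intro a b hab hb
    have hn2 : |a| * ‖p‖ = |b| * ‖p‖ := by
      have := congrArg norm hab
      rw [norm_smul, norm_smul, Real.norm_eq_abs, Real.norm_eq_abs, ← hn] at this
      exact this
    have hab2 : |a| = |b| := mul_right_cancel₀ hpn hn2
    rcases abs_eq_abs.1 hab2 with h | h
    · left
      rw [h] at hab
      exact (smul_right_injective E hb hab).symm
    · right
      rw [h, neg_smul, ← smul_neg] at hab
      exact (smul_right_injective E hb hab).symm
  by_cases h0 : (inner ℝ p (β 0) : ℝ) = 0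
  · by_cases h1 : (inner ℝ p (β 1) : ℝ) = 0
    · exact absurd (eq_zero_of_inner β h0 h1) hp
    · exact key _ _ e1 h1
  · exact key _ _ e0 h0

private lemma prim_neg {k : ℤ × ℤ} (hk : Prim k) : Prim (-k) := by
  unfold Prim at *
  exact (IsCoprime.neg_neg_iff _ _).2 hk

omit [FiniteDimensional ℝ E] in
private lemma Fol.wd_ne (h : Fol β ρ mF MF K σ U c P) {k k' : ℤ × ℤ} (hk : Prim k) (hk' : Prim k')
    (hd : dt k k' ≠ 0) (x : E) : wd β (P k x) (P k' x) ≠ 0 := by
  intro hw
  have hρ : 0 < ρ x := lt_of_lt_of_le h.conf.mF_pos (h.conf.low x)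
  have hp : P k x ≠ 0 := by
    rw [← norm_ne_zero_iff, h.nP k hk]
    exact hρ.ne'
  rcases par_of_wd β ((h.nP k hk x).trans (h.nP k' hk' x).symm) hp hw with e | e
  · exact h.trans k k' hk hk' hd x e.symm
  · refine h.trans (-k) k' (prim_neg hk) hk' ?_ x ?_
    · intro h0
      apply hd
      unfold dt at *
      simp only [Prod.fst_neg, Prod.snd_neg] at h0
      linarith
    · rw [h.P_neg k hk]
      exact e.symm

omit [FiniteDimensional ℝ E] in
private lemma Fol.cc_nonneg (h : Fol β ρ mF MF K σ U c P) {k k' : ℤ × ℤ} (hk : Prim k)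
    (hk' : Prim k') (hd : 0 < dt k k') : 0 ≤ (c k).1 * (c k').2 - (c k).2 * (c k').1 := by
  have hd' : (0 : ℝ) < (dt k k' : ℝ) := by exact_mod_cast hd
  have hid : (dt k k' : ℝ) * ((c k).1 * (c k').2 - (c k).2 * (c k').1) =
      σ k * σ k' - (k'.1 * (c k).1 + k'.2 * (c k).2) * (k.1 * (c k').1 + k.2 * (c k').2) := by
    rw [← h.cσ k hk, ← h.cσ k' hk']
    unfold dt
    push_cast
    ring
  have a1 : |(k'.1 : ℝ) * (c k).1 + k'.2 * (c k).2| ≤ σ k' := by
    rw [abs_le]
    constructor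
    · have := h.cσ_le k (-k') hk (prim_neg hk')
      rw [h.σ_neg k' hk'] at this
      simp only [Prod.fst_neg, Prod.snd_neg, Int.cast_neg] at this
      linarith
    · exact h.cσ_le k k' hk hk'
  have a2 : |(k.1 : ℝ) * (c k').1 + k.2 * (c k').2| ≤ σ k := by
    rw [abs_le]
    constructor
    · have := h.cσ_le k' (-k) hk' (prim_neg hk)
      rw [h.σ_neg k hk] at this
      simp only [Prod.fst_neg, Prod.snd_neg, Int.cast_neg] at this
      linarith
    · exact h.cσ_le k' k hk' hk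
  have a3 : ((k'.1 : ℝ) * (c k).1 + k'.2 * (c k).2) * (k.1 * (c k').1 + k.2 * (c k').2) ≤
      σ k' * σ k := by
    refine (le_abs_self _).trans ?_
    rw [abs_mul]
    exact mul_le_mul a1 a2 (abs_nonneg _) (h.σ_pos k' hk').le
  have : 0 ≤ (dt k k' : ℝ) * ((c k).1 * (c k').2 - (c k).2 * (c k').1) := by
    rw [hid]
    nlinarith
  exact nonneg_of_mul_nonneg_right this hd'

theorem Fol.wd_pos (h : Fol β ρ mF MF K σ U c P) {k k' : ℤ × ℤ} (hk : Prim k) (hk' : Prim k')
    (hd : 0 < dt k k') (x : E) : 0 < wd β (P k x) (P k' x) := by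
  have hne : ∀ y, wd β (P k y) (P k' y) ≠ 0 := h.wd_ne hk hk' hd.ne'
  have hc : Continuous fun y => wd β (P k y) (P k' y) := by
    unfold wd
    have c1 := h.P_cont hk
    have c2 := h.P_cont hk'
    fun_prop
  by_contra hx
  have hx' : wd β (P k x) (P k' x) < 0 := lt_of_le_of_ne (not_lt.1 hx) (hne x)
  have hall : ∀ y, wd β (P k y) (P k' y) < 0 := by
    intro y
    by_contra hy
    have hy' : 0 < wd β (P k y) (P k' y) := lt_of_le_of_ne (not_lt.1 hy) (hne y).symm
    obtain ⟨w, hw⟩ := mem_range_of_exists_le_of_exists_ge hc ⟨x, hx'.le⟩ ⟨y, hy'.le⟩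
    exact hne w hw
  have hint := h.int_wd hk hk'
  have hcc := h.cc_nonneg hk hk' hd
  rw [← hint] at hcc
  -- the integral is negative
  have hcont : Continuous fun z : ℝ × ℝ => wd β (P k (co β z)) (P k' (co β z)) :=
    hc.comp (co_cont β)
  have hcomp : IsCompact (Icc (0 : ℝ × ℝ) (1, 1)) := isCompact_Icc
  have hnon : (Icc (0 : ℝ × ℝ) (1, 1)).Nonempty := ⟨0, by
    refine ⟨le_rfl, ?_⟩
    exact ⟨zero_le_one, zero_le_one⟩⟩
  obtain ⟨z0, hz0, hmax⟩ := hcomp.exists_isMaxOn hnon hcont.continuousOn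
  have hvol : (volume (Icc (0 : ℝ × ℝ) (1, 1))) = 1 := by
    have : Icc (0 : ℝ × ℝ) (1, 1) = Icc (0 : ℝ) 1 ×ˢ Icc (0 : ℝ) 1 := by
      rw [Icc_prod_eq]
      rfl
    rw [this, Measure.volume_eq_prod, Measure.prod_prod, Real.volume_Icc]
    simp
  have hle : ∫ z in Icc (0 : ℝ × ℝ) (1, 1), wd β (P k (co β z)) (P k' (co β z)) ≤
      ∫ _ in Icc (0 : ℝ × ℝ) (1, 1), wd β (P k (co β z0)) (P k' (co β z0)) := by
    refine setIntegral_mono_on (hcont.continuousOn.integrableOn_compact hcomp)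
      (integrableOn_const (by rw [hvol]; simp) ) measurableSet_Icc fun z hz => hmax hz
  rw [setIntegral_const, measureReal_def, hvol] at hle
  simp only [ENNReal.toReal_one, one_smul] at hle
  have := hall (co β z0)
  linarith

end Pool.Agent.EscG
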