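import Pool.Agent.EscG.W1
import Pool.Agent.EscG.W5
import Pool.Agent.EscG.W6
import Pool.Agent.EscG.R3

set_option autoImplicit false

/-!
# EscG geometry: main theorem (a non constant conformal factor gives a gap)

`flat`: `Conf.exists_fol`; `X = ℝ × ℝ` with the restriction of the Lebesgue measure to `[0,1]²`. Choose a
linear isometry `ι : E → ℂ` (`finrank = 2`) such that `(β 0, β 1)` is positively oriented, i.e.
`V := im (conj (ι (β 0)) * ι (β 1)) > 0` (compose with `conj` otherwise); then `wd β p p' = V im (conj (ι p) * ι p')`.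
`farey_flat` for `P' k z = ι (P k (co β z))`: `hint` from `Fol.int_wd`, `Fol.int_mean` (the mean `w` of `P k`
satisfies `⟨w, β i⟩ = c_i`, so `V im (conj (ι w) * ι w') = wd β w w' = c ∧ c'`), `hpos` from `Fol.wd_pos`, `hsm` from
`Fol.small` (for `k` and, exchanging the roles, for `k'`). Then `ρ` is constant a.e. on the square, hence on the
square by continuity and everywhere by periodicity.
`main`: otherwise some basis `β'` of the lattice has a non constant displacement, `Conf.gap_of`.
-/

noncomputable section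

namespace Pool.Agent.EscG

open MeasureTheory Set Filter Topology Esc EscF _root_.EscG ComplexConjugate

variable {E : Type*} [NormedAddCommGroup E] [InnerProductSpace ℝ E] [FiniteDimensional ℝ E]
  {β : Module.Basis (Fin 2) ℝ E} {ρ : E → ℝ} {mF MF : ℝ}

/-- Lagrange identity in the plane -/
theorem W7_lagrange (p p' a b : ℂ) :
    (conj p * a).re * (conj p' * b).re - (conj p * b).re * (conj p' * a).re =
      (conj a * b).im * (conj p * p').im := by
  simp only [Complex.mul_re, Complex.mul_im, Complex.conj_re, Complex.conj_im]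
  ring

/-- an isometry with `ℂ` for which the basis is positively oriented -/
theorem W7_exists_iota (β : Module.Basis (Fin 2) ℝ E) : ∃ ι : E ≃ₗᵢ[ℝ] ℂ,
    0 < (conj (ι (β 0)) * ι (β 1)).im := by
  have h2 : Module.finrank ℝ E = 2 := by
    rw [Module.finrank_eq_card_basis β]
    simp
  let ι0 : E ≃ₗᵢ[ℝ] ℂ := (Complex.isometryOfOrthonormal
    ((stdOrthonormalBasis ℝ E).reindex (finCongr h2))).symm
  have hne : (conj (ι0 (β 0)) * ι0 (β 1)).im ≠ 0 := by
    intro h0
    set a := ι0 (β 0) with ha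
    set b := ι0 (β 1) with hb
    set r := (conj a * b).re with hr
    have e1 : conj a * b = (r : ℂ) := by
      apply Complex.ext
      · simp [hr]
      · rw [h0]
        simp
    have e2 : ((Complex.normSq a : ℝ) : ℂ) * b = (r : ℂ) * a := by
      rw [← e1, ← Complex.mul_conj]
      ring
    have e3 : (-r) • β 0 + (Complex.normSq a) • β 1 = 0 := by
      apply ι0.injective
      rw [map_add, map_smul, map_smul, ι0.map_zero, ← ha, ← hb]
      rw [Complex.real_smul, Complex.real_smul, e2]
      push_cast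
      ring
    have hli := β.linearIndependent
    have h3 := Fintype.linearIndependent_iff.1 hli ![-r, Complex.normSq a] (by
      rw [Fin.sum_univ_two]
      simpa using e3)
    have h4 := h3 1
    simp only [Matrix.cons_val_one, Matrix.cons_val_fin_one] at h4
    have h5 : a = 0 := Complex.normSq_eq_zero.1 h4
    have h6 : β 0 = 0 := by
      apply ι0.injective
      rw [← ha, h5, ι0.map_zero]
    exact β.ne_zero 0 h6
  rcases lt_or_gt_of_ne hne with hlt | hgt
  · refine ⟨ι0.trans Complex.conjLIE, ?_⟩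
    have e : (conj ((ι0.trans Complex.conjLIE) (β 0)) * (ι0.trans Complex.conjLIE) (β 1)).im =
        -(conj (ι0 (β 0)) * ι0 (β 1)).im := by
      simp only [LinearIsometryEquiv.trans_apply, Complex.conjLIE_apply, Complex.mul_im,
        Complex.conj_re, Complex.conj_im]
      ring
    rw [e]
    linarith
  · exact ⟨ι0, hgt⟩

omit [FiniteDimensional ℝ E] in
theorem W7_wd (ι : E ≃ₗᵢ[ℝ] ℂ) (β : Module.Basis (Fin 2) ℝ E) (p p' : E) :
    wd β p p' = (conj (ι (β 0)) * ι (β 1)).im * (conj (ι p) * ι p').im := by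
  unfold wd
  rw [← ι.inner_map_map p (β 0), ← ι.inner_map_map p' (β 1), ← ι.inner_map_map p (β 1),
    ← ι.inner_map_map p' (β 0), Complex.inner, Complex.inner, Complex.inner, Complex.inner]
  rw [mul_comm (ι (β 0)) (conj (ι p)), mul_comm (ι (β 1)) (conj (ι p')),
    mul_comm (ι (β 1)) (conj (ι p)), mul_comm (ι (β 0)) (conj (ι p'))]
  exact W7_lagrange _ _ _ _

omit [FiniteDimensional ℝ E] in
theorem W7_co_cont (β : Module.Basis (Fin 2) ℝ E) : Continuous (co β) := by
  unfold co
  fun_prop

theorem W7_square : (Icc (0 : ℝ × ℝ) (1, 1)) = Icc (0 : ℝ) 1 ×ˢ Icc (0 : ℝ) 1 := by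
  rw [Icc_prod_Icc]
  rfl

theorem W7_prob : IsProbabilityMeasure ((volume : Measure (ℝ × ℝ)).restrict
    (Icc (0 : ℝ × ℝ) (1, 1))) := by
  refine ⟨?_⟩
  rw [Measure.restrict_apply_univ, W7_square, Measure.volume_eq_prod, Measure.prod_prod]
  simp

omit [FiniteDimensional ℝ E] in
theorem W7_per (hper : ∀ i x, ρ (x + β i) = ρ x) (i : Fin 2) (n : ℤ) (x : E) :
    ρ (x + (n : ℝ) • β i) = ρ x := by
  have hnat : ∀ (m : ℕ) (x : E), ρ (x + (m : ℝ) • β i) = ρ x := by
    intro m
    induction m with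
    | zero => intro x; simp
    | succ m ih =>
      intro x
      have : x + ((m + 1 : ℕ) : ℝ) • β i = (x + (m : ℝ) • β i) + β i := by
        push_cast
        rw [add_smul, one_smul, add_assoc]
      rw [this, hper, ih]
  rcases Int.eq_nat_or_neg n with ⟨m, rfl | rfl⟩
  · exact_mod_cast hnat m x
  · have := hnat m (x + ((-(m : ℤ) : ℤ) : ℝ) • β i)
    rw [← this]
    congr 1
    push_cast
    rw [neg_smul]
    abel

theorem Conf.flat (h : Conf β ρ mF MF)
    (hall : ∀ β', SameLat β β' → ∀ x y, ed ρ x (x + β' 0) = ed ρ y (y + β' 0)) :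
    ∃ c, ∀ x, ρ x = c := by
  obtain ⟨K, σ, U, c, P, hF⟩ := h.exists_fol hall
  obtain ⟨ι, hι⟩ := W7_exists_iota β
  set V := (conj (ι (β 0)) * ι (β 1)).im with hV
  have := W7_prob
  set μ := (volume : Measure (ℝ × ℝ)).restrict (Icc (0 : ℝ × ℝ) (1, 1)) with hμ
  have hρc : Continuous fun z : ℝ × ℝ => ρ (co β z) :=
    h.smooth.continuous.comp (W7_co_cont β)
  have hPc : ∀ k, Prim k → Continuous (P k) := by
    intro k hk
    have : LipschitzWith (Real.toNNReal (6 * K)) (P k) := by
      apply LipschitzWith.of_dist_le_mul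
      intro x y
      rw [dist_eq_norm, dist_eq_norm, Real.coe_toNNReal _ (by have := hF.K_nonneg; linarith)]
      exact hF.lip hk x y
    exact this.continuous
  have hPc' : ∀ k, Prim k → Continuous fun z : ℝ × ℝ => ι (P k (co β z)) := fun k hk =>
    ι.continuous.comp ((hPc k hk).comp (W7_co_cont β))
  have hPint : ∀ k, Prim k → Integrable (fun z : ℝ × ℝ => P k (co β z)) μ := by
    intro k hk
    have hc : Continuous fun z : ℝ × ℝ => P k (co β z) := (hPc k hk).comp (W7_co_cont β)
    exact hc.continuousOn.integrableOn_compact isCompact_Icc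
  have hmean : ∀ k, Prim k → inner ℝ (∫ z, P k (co β z) ∂μ) (β 0) = (c k).1 ∧
      inner ℝ (∫ z, P k (co β z) ∂μ) (β 1) = (c k).2 := by
    intro k hk
    have h1 := hF.int_mean hk
    constructor
    · rw [← h1.1, real_inner_comm, ← integral_inner (hPint k hk)]
      exact integral_congr_ae (ae_of_all _ fun z => real_inner_comm _ _)
    · rw [← h1.2, real_inner_comm, ← integral_inner (hPint k hk)]
      exact integral_congr_ae (ae_of_all _ fun z => real_inner_comm _ _)
  have hιint : ∀ k, Prim k → ∫ z, ι (P k (co β z)) ∂μ = ι (∫ z, P k (co β z) ∂μ) := by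
    intro k hk
    exact ι.toContinuousLinearEquiv.toContinuousLinearMap.integral_comp_comm (hPint k hk)
  obtain ⟨C, hC0, hC⟩ := hF.small
  obtain ⟨c0, hc0⟩ := farey_flat μ (fun z => ρ (co β z)) (fun k z => ι (P k (co β z)))
    (m := mF) (M := MF) h.mF_pos (fun z => ⟨h.low _, h.upp _⟩) hρc.aestronglyMeasurable
    (fun k hk => (hPc' k hk).aestronglyMeasurable)
    (fun k hk z => by
      show ‖ι (P k (co β z))‖ = ρ (co β z)
      rw [ι.norm_map]
      exact hF.nP k hk _)
    (fun k hk z => by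
      show ι (P (-k) (co β z)) = -ι (P k (co β z))
      rw [hF.P_neg k hk, map_neg])
    (fun k k' hk hk' hd z => by
      have h1 := hF.wd_pos hk hk' hd (co β z)
      rw [W7_wd ι] at h1
      exact pos_of_mul_pos_right h1 hι.le)
    (fun k k' hk hk' => by
      have h1 := hF.int_wd hk hk'
      have e1 : (∫ z in Icc (0 : ℝ × ℝ) (1, 1), wd β (P k (co β z)) (P k' (co β z))) =
          V * ∫ z, (conj (ι (P k (co β z))) * ι (P k' (co β z))).im ∂μ := by
        rw [← integral_const_mul]
        exact integral_congr_ae (ae_of_all _ fun z => W7_wd ι β _ _)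
      have e2 : V * (conj (∫ z, ι (P k (co β z)) ∂μ) * ∫ z, ι (P k' (co β z)) ∂μ).im =
          (c k).1 * (c k').2 - (c k).2 * (c k').1 := by
        rw [hιint k hk, hιint k' hk', hV, ← W7_wd ι β]
        unfold wd
        rw [(hmean k hk).1, (hmean k hk).2, (hmean k' hk').1, (hmean k' hk').2]
      rw [e1, ← e2] at h1
      exact mul_left_cancel₀ hι.ne' h1)
    (fun δ hδ => by
      obtain ⟨N, hN⟩ := exists_nat_gt (C / δ ^ 3)
      refine ⟨N, ?_⟩
      have key : ∀ k k' : ℤ × ℤ, Prim k → Prim k' → (dt k k' = 1 ∨ dt k k' = -1) →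
          0 ≤ k.1 * k'.1 → 0 ≤ k.2 * k'.2 → (N : ℤ) ≤ |k.1| + |k.2| →
          ∀ x, ‖P k x - P k' x‖ ≤ δ := by
        intro k k' hk hk' hd h1 h2 hNk x
        by_contra hcon
        push Not at hcon
        have h3 := hC k k' hk hk' hd h1 h2 x
        have hNk' : (N : ℝ) ≤ |(k.1 : ℝ)| + |(k.2 : ℝ)| := by
          have : ((N : ℤ) : ℝ) ≤ ((|k.1| + |k.2| : ℤ) : ℝ) := by exact_mod_cast hNk
          push_cast at this
          exact this
        have h4 : δ ^ 3 < ‖P k x - P k' x‖ ^ 3 := by gcongr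
        have hδ3 : 0 < δ ^ 3 := by positivity
        have h5 : C < N * δ ^ 3 := by
          rwa [div_lt_iff₀ hδ3] at hN
        have hNpos : (0 : ℝ) < N := lt_of_le_of_lt (by positivity) hN
        have h6 : (N : ℝ) * δ ^ 3 ≤ ‖P k x - P k' x‖ ^ 3 * (|(k.1 : ℝ)| + |(k.2 : ℝ)|) := by
          calc (N : ℝ) * δ ^ 3 = δ ^ 3 * N := by ring
            _ ≤ ‖P k x - P k' x‖ ^ 3 * (|(k.1 : ℝ)| + |(k.2 : ℝ)|) := by
              apply mul_le_mul h4.le hNk' hNpos.le (by positivity)
        linarith
      intro k k' hk hk' hd h1 h2 hor z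
      show ‖ι (P k (co β z)) - ι (P k' (co β z))‖ ≤ δ
      rw [← map_sub, ι.norm_map]
      rcases hor with hN1 | hN2
      · exact key k k' hk hk' (Or.inl hd) h1 h2 hN1 _
      · rw [norm_sub_rev]
        refine key k' k hk' hk (Or.inr ?_) (by rwa [mul_comm]) (by rwa [mul_comm]) hN2 _
        unfold dt
        linarith)
  have hsq : EqOn (fun z : ℝ × ℝ => ρ (co β z)) (fun _ => c0) (Icc (0 : ℝ × ℝ) (1, 1)) := by
    apply Measure.eqOn_of_ae_eq (μ := volume) hc0 hρc.continuousOn continuousOn_const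
    rw [W7_square, interior_prod_eq, closure_prod_eq, interior_Icc, closure_Ioo (by norm_num)]
  refine ⟨c0, fun x => ?_⟩
  set a := β.repr x 0 with ha
  set b := β.repr x 1 with hb
  have hx : x = a • β 0 + b • β 1 := by
    have := β.sum_repr x
    rw [Fin.sum_univ_two] at this
    exact this.symm
  have hx2 : x = (co β (Int.fract a, Int.fract b) + ((⌊a⌋ : ℤ) : ℝ) • β 0) +
      ((⌊b⌋ : ℤ) : ℝ) • β 1 := by
    conv_lhs => rw [hx, ← Int.fract_add_floor a, ← Int.fract_add_floor b]
    unfold co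
    rw [add_smul, add_smul]
    abel
  rw [hx2, W7_per h.per, W7_per h.per]
  apply hsq
  rw [W7_square]
  exact ⟨⟨Int.fract_nonneg _, (Int.fract_lt_one _).le⟩, ⟨Int.fract_nonneg _, (Int.fract_lt_one _).le⟩⟩

theorem Conf.main (h : Conf β ρ mF MF) (hρ : ¬ ∃ c, ∀ x, ρ x = c) :
    ∃ β', SameLat β β' ∧ ∃ (B y : E → ℝ) (l a τ : ℝ) (c0 c1 : ℝ → E),
      GapE β' ρ B y l a τ c0 c1 := by
  by_contra hcon
  push Not at hcon
  apply hρ
  apply h.flat
  intro β' hs x y
  by_contra hne
  obtain ⟨B, y', l, a, τ, c0, c1, hG⟩ := Conf.gap_of (SameLat.conf h hs) ⟨x, y, hne⟩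
  exact hcon β' hs B y' l a τ c0 c1 hG

end Pool.Agent.EscG
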