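import Pool.Agent.EscG.Hr5
import Pool.Agent.EscG.Hr6
import Pool.Agent.EscG.Hr7
import Pool.Agent.EscG.W7

set_option autoImplicit false

/-!
# EscG geometry, project H, module Hr8: area inequality for the mean forms

`farey_area` with `X = ℝ × ℝ`, `μ` the restriction of the Lebesgue measure to `Icc 0 (1,1)` (`W7_prob` in W7.lean), `ρ z = √(dens β g (co β z))`,
`P k z = cq β g (co β z) (W k (co β z))` for primitive `k` (norm: `cq_norm`, `unit`; sign: `cq_im`, `wd_pos`; integral: `CF.int_wd`; small: `FolR.small`, `cq_sub`, `cq_norm`,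
bounds of `dens` and `g`), `Δ = √(p r - q²)`, `Z k = chol p q Δ (c k).1 (c k).2`, `κ = 1/Δ`, `R = √2` (`chol_norm`, `chol_im`, hypothesis `hc`). The model for the
passage from `Fol` to the abstract lemma is `Conf.flat` in W7.lean.
-/

noncomputable section

namespace Pool.Agent.EscG

open MeasureTheory Set Filter Topology Esc EscF _root_.EscG ComplexConjugate
open scoped ContDiff

variable {E : Type*} [NormedAddCommGroup E] [InnerProductSpace ℝ E] [FiniteDimensional ℝ E]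
  {β : Module.Basis (Fin 2) ℝ E} {g : E → E →L[ℝ] E →L[ℝ] ℝ} {K : ℝ} {σ : ℤ × ℤ → ℝ}
  {U : ℤ × ℤ → E → ℝ} {c : ℤ × ℤ → ℝ × ℝ} {W : ℤ × ℤ → E → E}

omit [FiniteDimensional ℝ E] in
theorem Hr8_dens_per (h : IsRiem β 2 g) (i : Fin 2) (x : E) : dens β g (x + β i) = dens β g x := by
  unfold dens
  rw [h.per]

omit [FiniteDimensional ℝ E] in
theorem Hr8_co_mem (β : Module.Basis (Fin 2) ℝ E) (f : E → ℝ) (hf : ∀ i x, f (x + β i) = f x) (x : E) :
    ∃ z ∈ Icc (0 : ℝ × ℝ) (1, 1), f x = f (co β z) := by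
  set a := β.repr x 0 with ha
  set b := β.repr x 1 with hb
  have hx : x = a • β 0 + b • β 1 := by
    have := β.sum_repr x
    rw [Fin.sum_univ_two] at this
    exact this.symm
  have hx2 : x = (co β (Int.fract a, Int.fract b) + ((⌊a⌋ : ℤ) : ℝ) • β 0) +
      ((⌊b⌋ : ℤ) : ℝ) • β 1 := by
    conv_lhs => rw [hx, ← Int.fract_add_floor a, ← Int.fract_add_floor b]
    unfold co
    rw [add_smul, add_smul]
    abel
  refine ⟨(Int.fract a, Int.fract b), ?_, ?_⟩
  · rw [W7_square]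
    exact ⟨⟨Int.fract_nonneg _, (Int.fract_lt_one _).le⟩, ⟨Int.fract_nonneg _, (Int.fract_lt_one _).le⟩⟩
  · rw [hx2, W7_per hf, W7_per hf]

/-- bounds of the density -/
theorem Hr8_dens_bounds (h : IsRiem β 2 g) : ∃ a b : ℝ, 0 < a ∧ ∀ x, a ≤ dens β g x ∧ dens β g x ≤ b := by
  have hcont : ContinuousOn (fun z : ℝ × ℝ => dens β g (co β z)) (Icc (0 : ℝ × ℝ) (1, 1)) :=
    (h.dens_cont.comp (W7_co_cont β)).continuousOn
  have hne : (Icc (0 : ℝ × ℝ) (1, 1)).Nonempty := by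
    rw [W7_square]
    exact ⟨(0, 0), ⟨⟨le_refl _, zero_le_one⟩, ⟨le_refl _, zero_le_one⟩⟩⟩
  obtain ⟨z1, -, h1⟩ := isCompact_Icc.exists_isMinOn hne hcont
  obtain ⟨z2, -, h2⟩ := isCompact_Icc.exists_isMaxOn hne hcont
  refine ⟨dens β g (co β z1), dens β g (co β z2), h.dens_pos _, fun x => ?_⟩
  obtain ⟨z, hz, hxz⟩ := Hr8_co_mem β (dens β g) (Hr8_dens_per h) x
  rw [hxz]
  exact ⟨h1 hz, h2 hz⟩

theorem FolR.area (h : FolR β g K σ U c W) {p q r : ℝ} (hp : 0 < p) (hd : 0 < p * r - q ^ 2)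
    (hc : ∀ k, Prim k → r * (c k).1 ^ 2 - 2 * q * (c k).1 * (c k).2 + p * (c k).2 ^ 2 ≤ 2 * (p * r - q ^ 2)) :
    ∫ z in Icc (0 : ℝ × ℝ) (1, 1), dens β g (co β z) ≤ 2 * √(p * r - q ^ 2) := by
  have hg := h.riem
  have := W7_prob
  set μ := (volume : Measure (ℝ × ℝ)).restrict (Icc (0 : ℝ × ℝ) (1, 1)) with hμ
  obtain ⟨a, b, ha, hab⟩ := Hr8_dens_bounds hg
  obtain ⟨m0, M0, hm0, hM0, hgb⟩ := hg.bounds
  set Δ := √(p * r - q ^ 2) with hΔ
  have hΔ0 : 0 < Δ := Real.sqrt_pos.2 hd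
  have hΔ2 : Δ ^ 2 = p * r - q ^ 2 := Real.sq_sqrt hd.le
  obtain ⟨C, hC0, hC⟩ := h.small
  have hWc : ∀ k, Prim k → Continuous (W k) := fun k hk => (h.cf k hk).cont hg h.K_nonneg
  have hPc : ∀ k, Prim k → Continuous fun z : ℝ × ℝ => cq β g (co β z) (W k (co β z)) := by
    intro k hk
    exact hg.cq_cont.comp ((W7_co_cont β).prodMk ((hWc k hk).comp (W7_co_cont β)))
  have hρc : Continuous fun z : ℝ × ℝ => √(dens β g (co β z)) :=
    Real.continuous_sqrt.comp (hg.dens_cont.comp (W7_co_cont β))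
  have hsq : ∀ x : E, √(dens β g x) ^ 2 = dens β g x := fun x => Real.sq_sqrt (hg.dens_pos x).le
  have hnorm : ∀ k, Prim k → ∀ x, ‖cq β g x (W k x)‖ = √(dens β g x) := by
    intro k hk x
    have h1 := hg.cq_norm x (W k x)
    rw [(h.cf k hk).unit x, mul_one] at h1
    rw [← h1, Real.sqrt_sq (norm_nonneg _)]
  have hchn : ∀ k, Prim k → ‖chol p q Δ (c k).1 (c k).2‖ ^ 2 ≤ 2 := by
    intro k hk
    rw [chol_norm (h := r) hp hΔ0 hΔ2, div_le_iff₀ (by positivity), hΔ2]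
    exact hc k hk
  have key := farey_area μ (fun z => √(dens β g (co β z))) (fun k z => cq β g (co β z) (W k (co β z)))
    (fun k => chol p q Δ (c k).1 (c k).2) (m := √a) (M := √b) (R := √2) (κ := 1 / Δ)
    (Real.sqrt_pos.2 ha) (fun z => ⟨Real.sqrt_le_sqrt (hab _).1, Real.sqrt_le_sqrt (hab _).2⟩)
    (by positivity) hρc.aestronglyMeasurable
    (fun k hk => (hPc k hk).aestronglyMeasurable)
    (fun k hk z => hnorm k hk (co β z))
    (fun k hk z => by
      show cq β g (co β z) (W (-k) (co β z)) = -cq β g (co β z) (W k (co β z))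
      have e0 : cq β g (co β z) (W k (co β z) - W k (co β z)) = 0 := by
        rw [hg.cq_sub]
        ring
      rw [sub_self] at e0
      rw [h.W_neg k hk, ← zero_sub (W k (co β z)), hg.cq_sub, e0]
      ring)
    (fun k k' hk hk' hdt z => by
      rw [hg.cq_im]
      exact h.wd_pos hk hk' hdt (co β z))
    (fun k hk => by
      rw [← Real.sqrt_sq (norm_nonneg (chol p q Δ (c k).1 (c k).2))]
      exact Real.sqrt_le_sqrt (hchn k hk))
    (fun k hk => by
      show chol p q Δ (c (-k)).1 (c (-k)).2 = -chol p q Δ (c k).1 (c k).2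
      rw [h.c_neg k hk]
      unfold chol
      apply Complex.ext
      · simp only [Prod.fst_neg, Prod.snd_neg, Complex.neg_re]
        ring
      · simp only [Prod.fst_neg, Prod.snd_neg, Complex.neg_im]
        ring)
    (fun k k' hk hk' => by
      show 1 / Δ * ∫ z, (conj (cq β g (co β z) (W k (co β z))) * cq β g (co β z) (W k' (co β z))).im ∂μ =
        (conj (chol p q Δ (c k).1 (c k).2) * chol p q Δ (c k').1 (c k').2).im
      have e1 : ∀ z : ℝ × ℝ, (conj (cq β g (co β z) (W k (co β z))) * cq β g (co β z) (W k' (co β z))).im =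
          wr β g (co β z) (W k (co β z)) (W k' (co β z)) := fun z => hg.cq_im _ _ _
      rw [chol_im hp hΔ0]
      simp_rw [e1]
      rw [(h.cf k hk).int_wd hg h.K_nonneg (h.cf k' hk')]
      field_simp)
    (fun δ hδ => by
      obtain ⟨N, hN⟩ := exists_nat_gt (C * (√(b * M0 ^ 2) + 1) ^ 3 / δ ^ 3)
      refine ⟨N, ?_⟩
      have hb0 : 0 < b := lt_of_lt_of_le ha ((hab 0).1.trans (hab 0).2)
      set T := √(b * M0 ^ 2) + 1 with hT
      have hT0 : 0 < T := by positivity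
      have hTb : ∀ x v : E, ‖cq β g x v‖ ≤ T * ‖v‖ := by
        intro x v
        have h1 : ‖cq β g x v‖ ^ 2 ≤ (√(b * M0 ^ 2) * ‖v‖) ^ 2 := by
          rw [hg.cq_norm, mul_pow, Real.sq_sqrt (by positivity), mul_assoc]
          have hgv : 0 ≤ g x v v := le_trans (by positivity) (hgb x v).1
          exact mul_le_mul (hab x).2 (hgb x v).2 hgv hb0.le
        have h2 : ‖cq β g x v‖ ≤ √(b * M0 ^ 2) * ‖v‖ := by
          apply le_of_sq_le_sq h1 (by positivity)
        have h3 : 0 ≤ ‖v‖ := norm_nonneg v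
        rw [hT]
        nlinarith
      have key : ∀ k k' : ℤ × ℤ, Prim k → Prim k' → (dt k k' = 1 ∨ dt k k' = -1) →
          0 ≤ k.1 * k'.1 → 0 ≤ k.2 * k'.2 → (N : ℤ) ≤ |k.1| + |k.2| →
          ∀ x, T * ‖W k x - W k' x‖ ≤ δ := by
        intro k k' hk hk' hd h1 h2 hNk x
        by_contra hcon
        push Not at hcon
        have h3 := hC k k' hk hk' hd h1 h2 x
        have hNk' : (N : ℝ) ≤ |(k.1 : ℝ)| + |(k.2 : ℝ)| := by
          have : ((N : ℤ) : ℝ) ≤ ((|k.1| + |k.2| : ℤ) : ℝ) := by exact_mod_cast hNk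
          push_cast at this
          exact this
        have h4 : δ ^ 3 < (T * ‖W k x - W k' x‖) ^ 3 := by gcongr
        have hδ3 : 0 < δ ^ 3 := by positivity
        have h5 : C * T ^ 3 < N * δ ^ 3 := by
          rwa [div_lt_iff₀ hδ3] at hN
        have hNpos : (0 : ℝ) < N := lt_of_le_of_lt (by positivity) hN
        have h6 : (N : ℝ) * δ ^ 3 ≤ (T * ‖W k x - W k' x‖) ^ 3 * (|(k.1 : ℝ)| + |(k.2 : ℝ)|) := by
          calc (N : ℝ) * δ ^ 3 = δ ^ 3 * N := by ring
            _ ≤ (T * ‖W k x - W k' x‖) ^ 3 * (|(k.1 : ℝ)| + |(k.2 : ℝ)|) := by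
              apply mul_le_mul h4.le hNk' hNpos.le (by positivity)
        have h7 : (T * ‖W k x - W k' x‖) ^ 3 * (|(k.1 : ℝ)| + |(k.2 : ℝ)|) ≤ C * T ^ 3 := by
          calc (T * ‖W k x - W k' x‖) ^ 3 * (|(k.1 : ℝ)| + |(k.2 : ℝ)|)
              = T ^ 3 * (‖W k x - W k' x‖ ^ 3 * (|(k.1 : ℝ)| + |(k.2 : ℝ)|)) := by ring
            _ ≤ T ^ 3 * C := by gcongr
            _ = C * T ^ 3 := by ring
        linarith
      intro k k' hk hk' hdet h1 h2 hor z
      show ‖cq β g (co β z) (W k (co β z)) - cq β g (co β z) (W k' (co β z))‖ ≤ δ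
      rw [← hg.cq_sub]
      refine (hTb _ _).trans ?_
      rcases hor with hN1 | hN2
      · exact key k k' hk hk' (Or.inl hdet) h1 h2 hN1 _
      · rw [norm_sub_rev]
        refine key k' k hk' hk (Or.inr ?_) (by rwa [mul_comm]) (by rwa [mul_comm]) hN2 _
        unfold dt
        linarith)
  have e2 : (∫ z, √(dens β g (co β z)) ^ 2 ∂μ) = ∫ z in Icc (0 : ℝ × ℝ) (1, 1), dens β g (co β z) := by
    apply integral_congr_ae
    exact ae_of_all _ fun z => hsq _
  have key2 : 1 / Δ * (∫ z in Icc (0 : ℝ × ℝ) (1, 1), dens β g (co β z)) ≤ 2 := by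
    have h3 : (√2 : ℝ) ^ 2 = 2 := Real.sq_sqrt (by norm_num)
    rw [← e2, ← h3]
    exact key
  rw [one_div, inv_mul_le_iff₀ hΔ0] at key2
  linarith

end Pool.Agent.EscG
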