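import Pool.Agent.EscG.HDefs

set_option autoImplicit false

/-!
# EscG geometry, project H, module Hr9: optimal decomposition (John, Kiefer-Wolfowitz) in the plane

Let `V c = (c.1², c.1 c.2, c.2²) ∈ ℝ × ℝ × ℝ`, `M = convexHull ℝ (V '' C)`: compact (`IsCompact.convexHull`). Let `(p,q,r) ∈ M` maximize the continuous function
`p r - q²` on `M`. It is positive at `(V c + V c')/2`: `(c.1 c'.2 - c.2 c'.1)²/4`. For `c ∈ C` and `ε ∈ (0,1)`: `(1-ε)(p,q,r) + ε V c ∈ M`, whose determinant is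
`(1-ε)² Δ + ε (1-ε) t` with `Δ = p r - q²`, `t = r c.1² - 2 q c.1 c.2 + p c.2²` (the determinant of `V c` is `0`). So `(1-ε)² Δ + ε(1-ε) t ≤ Δ`, i.e.
`(1-ε) t ≤ (2 - ε) Δ`; `ε → 0`: `t ≤ 2 Δ`. Finally `(p,q,r)` is a finite convex combination of `V (a i)`, `a i ∈ C` (Carathéodory, positive weights), indexed by `Fin m`.
-/

noncomputable section

namespace Pool.Agent.EscG

open Set Filter Topology

/-- the convex hull of a compact set in three dimensions is compact -/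
theorem Hr9_compact {S : Set (ℝ × ℝ × ℝ)} (hS : IsCompact S) : IsCompact (convexHull ℝ S) := by
  have h : convexHull ℝ S = ⋃ n ∈ Finset.range 5,
      (fun p : (Fin n → ℝ) × (Fin n → ℝ × ℝ × ℝ) => ∑ i, p.1 i • p.2 i) ''
        (stdSimplex ℝ (Fin n) ×ˢ Set.pi univ (fun _ => S)) := by
    apply Set.Subset.antisymm
    · intro x hx
      obtain ⟨ι, hι, z, w, hz, hai, hw, hw1, hx⟩ := eq_pos_convex_span_of_mem_convexHull hx
      have hcard : Fintype.card ι ≤ 4 := by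
        have h1 := hai.card_le_finrank_succ
        have h2 : Module.finrank ℝ (vectorSpan ℝ (Set.range z)) ≤ 3 := by
          refine le_trans (Submodule.finrank_le _) ?_
          simp
        omega
      let e := Fintype.equivFin ι
      refine Set.mem_iUnion₂.2 ⟨Fintype.card ι, Finset.mem_range.2 (by omega), ?_⟩
      refine ⟨(fun i => w (e.symm i), fun i => z (e.symm i)), ⟨⟨fun i => (hw _).le, ?_⟩, ?_⟩, ?_⟩
      · rw [← hw1]
        exact Equiv.sum_comp e.symm w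
      · intro i _
        exact hz ⟨_, rfl⟩
      · rw [← hx]
        exact Equiv.sum_comp e.symm (fun i => w i • z i)
    · intro x hx
      obtain ⟨n, _, p, ⟨hp1, hp2⟩, rfl⟩ := Set.mem_iUnion₂.1 hx
      exact mem_convexHull_of_exists_fintype p.1 p.2 hp1.1 hp1.2 (fun i => hp2 i (mem_univ i)) rfl
  rw [h]
  refine (Finset.range 5).isCompact_biUnion fun n _ => ?_
  refine IsCompact.image ((isCompact_stdSimplex ℝ (Fin n)).prod (isCompact_univ_pi fun _ => hS)) ?_
  fun_prop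

theorem exists_opt {C : Set (ℝ × ℝ)} (hC : IsCompact C)
    (hne : ∃ c ∈ C, ∃ c' ∈ C, c.1 * c'.2 - c.2 * c'.1 ≠ 0) :
    ∃ (m : ℕ) (w : Fin m → ℝ) (a : Fin m → ℝ × ℝ) (p q r : ℝ), (∀ i, 0 < w i) ∧ ∑ i, w i = 1 ∧
      (∀ i, a i ∈ C) ∧ p = ∑ i, w i * (a i).1 ^ 2 ∧ q = ∑ i, w i * ((a i).1 * (a i).2) ∧
      r = ∑ i, w i * (a i).2 ^ 2 ∧ 0 < p ∧ 0 < p * r - q ^ 2 ∧
      ∀ c ∈ C, r * c.1 ^ 2 - 2 * q * c.1 * c.2 + p * c.2 ^ 2 ≤ 2 * (p * r - q ^ 2) := by
  obtain ⟨c, hc, c', hc', hcc⟩ := hne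
  let V : ℝ × ℝ → ℝ × ℝ × ℝ := fun c => (c.1 ^ 2, c.1 * c.2, c.2 ^ 2)
  have hV : Continuous V := by fun_prop
  have hS : IsCompact (V '' C) := hC.image hV
  have hM : IsCompact (convexHull ℝ (V '' C)) := Hr9_compact hS
  have hMc : Convex ℝ (convexHull ℝ (V '' C)) := convex_convexHull ℝ _
  have hVM : ∀ a ∈ C, V a ∈ convexHull ℝ (V '' C) := fun a ha =>
    subset_convexHull ℝ _ ⟨a, ha, rfl⟩
  let f : ℝ × ℝ × ℝ → ℝ := fun x => x.1 * x.2.2 - x.2.1 ^ 2
  have hf : Continuous f := by fun_prop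
  obtain ⟨x, hxM, hmax⟩ := hM.exists_isMaxOn ⟨V c, hVM c hc⟩ hf.continuousOn
  have hmax' : ∀ y ∈ convexHull ℝ (V '' C), f y ≤ f x := fun y hy => hmax hy
  have hpos : 0 < f x := by
    have h1 : (1 / 2 : ℝ) • V c + (1 / 2 : ℝ) • V c' ∈ convexHull ℝ (V '' C) :=
      hMc (hVM c hc) (hVM c' hc') (by norm_num) (by norm_num) (by norm_num)
    refine lt_of_lt_of_le ?_ (hmax' _ h1)
    have h2 : f ((1 / 2 : ℝ) • V c + (1 / 2 : ℝ) • V c') = (c.1 * c'.2 - c.2 * c'.1) ^ 2 / 4 := by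
      simp only [f, V, Prod.smul_mk, Prod.mk_add_mk, smul_eq_mul]
      ring
    rw [h2]
    have := pow_pos (abs_pos.2 hcc) 2
    rw [sq_abs] at this
    positivity
  obtain ⟨ι, hι, z, w, hz, hai, hw, hw1, hx⟩ := eq_pos_convex_span_of_mem_convexHull hxM
  have hz' : ∀ i, ∃ a ∈ C, V a = z i := fun i => hz ⟨i, rfl⟩
  choose a haC haz using hz'
  let e := Fintype.equivFin ι
  have hx1 : x.1 = ∑ i, w i * (a i).1 ^ 2 := by
    rw [← hx, Prod.fst_sum]
    refine Finset.sum_congr rfl fun i _ => ?_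
    rw [← haz i]
    rfl
  have hx2 : x.2.1 = ∑ i, w i * ((a i).1 * (a i).2) := by
    rw [← hx, Prod.snd_sum, Prod.fst_sum]
    refine Finset.sum_congr rfl fun i _ => ?_
    rw [← haz i]
    rfl
  have hx3 : x.2.2 = ∑ i, w i * (a i).2 ^ 2 := by
    rw [← hx, Prod.snd_sum, Prod.snd_sum]
    refine Finset.sum_congr rfl fun i _ => ?_
    rw [← haz i]
    rfl
  have hfx : f x = x.1 * x.2.2 - x.2.1 ^ 2 := rfl
  refine ⟨Fintype.card ι, fun i => w (e.symm i), fun i => a (e.symm i), x.1, x.2.1, x.2.2,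
    fun i => hw _, ?_, fun i => haC _, ?_, ?_, ?_, ?_, hpos, ?_⟩
  · rw [← hw1]
    exact Equiv.sum_comp e.symm w
  · rw [hx1]
    exact (Equiv.sum_comp e.symm (fun i => w i * (a i).1 ^ 2)).symm
  · rw [hx2]
    exact (Equiv.sum_comp e.symm (fun i => w i * ((a i).1 * (a i).2))).symm
  · rw [hx3]
    exact (Equiv.sum_comp e.symm (fun i => w i * (a i).2 ^ 2)).symm
  · have h0 : 0 ≤ x.1 := by
      rw [hx1]
      exact Finset.sum_nonneg fun i _ => mul_nonneg (hw i).le (sq_nonneg _)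
    rcases h0.lt_or_eq with h | h
    · exact h
    · exfalso
      rw [hfx, ← h] at hpos
      nlinarith [sq_nonneg x.2.1]
  · intro b hb
    by_contra hlt
    rw [not_le] at hlt
    set t : ℝ := x.2.2 * b.1 ^ 2 - 2 * x.2.1 * b.1 * b.2 + x.1 * b.2 ^ 2 with ht
    have hlt' : 2 * f x < t := hlt
    have hd : 0 < t - f x := by linarith
    set ε : ℝ := (t - 2 * f x) / (2 * (t - f x)) with hε
    have hε0 : 0 < ε := div_pos (by linarith) (by linarith)
    have hε1 : ε < 1 := by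
      rw [hε, div_lt_one (by linarith)]
      linarith
    have hεt : ε * (t - f x) = (t - 2 * f x) / 2 := by
      rw [hε]
      field_simp
    have h1 : (1 - ε) • x + ε • V b ∈ convexHull ℝ (V '' C) :=
      hMc hxM (hVM b hb) (by linarith) hε0.le (by ring)
    have h2 := hmax' _ h1
    have h3 : f ((1 - ε) • x + ε • V b) = (1 - ε) ^ 2 * f x + ε * (1 - ε) * t := by
      obtain ⟨x1, x2, x3⟩ := x
      simp only [f, V, Prod.smul_mk, Prod.mk_add_mk, smul_eq_mul, ht]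
      ring
    rw [h3] at h2
    have h4 : ε * ((1 - ε) * t - (2 - ε) * f x) ≤ 0 := by nlinarith
    have h5 : (1 - ε) * t - (2 - ε) * f x ≤ 0 := by
      by_contra h
      rw [not_le] at h
      have := mul_pos hε0 h
      linarith
    have h6 : (1 - ε) * t - (2 - ε) * f x = (t - 2 * f x) - ε * (t - f x) := by ring
    rw [h6, hεt] at h5
    linarith

end Pool.Agent.EscG
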