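import Pool.Agent.EscG.Hr3
import Pool.Agent.EscG.Hr8
import Pool.Agent.EscG.Hr9
import Pool.Agent.EscG.Hr10
import Pool.Agent.EscG.Hr11

set_option autoImplicit false

/-!
# EscG geometry, project H, module Hr12: the theorem of E. Hopf on the two-torus

`FolR` from `exists_fol`. `C = closure {c k}`; two independent vectors: `c (1,0)`, `c (0,1)` (`wd_pos` and `CF.int_wd`: the integral of a positive continuous function). `exists_opt`:
`w, a, p, q, r`; `FolR.closure`: forms `(u i, W i)` with periods `a i`. `FolR.area` gives `V := ∫ dens ≤ 2 √(p r - q²)`; `2 Σ_{i,j} w i w j (a i ∧ a j)² = 4 (p r - q²)`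
(Lagrange), so `rigid` (Hr11) applies to `e z = g (co β z) (β 0) (β 0)` .., `p i z = (g x (W i x) (β 0), g x (W i x) (β 1))`, `x = co β z`,
`ω i j = a i ∧ a j`. By periodicity (`CF.per`) the conclusions hold for all `z`. Choose `i, j` with `a i ∧ a j ≠ 0`. The covector `a l` of the lattice plane takes the value `(a l).1`, `(a l).2`
at `β 0`, `β 1`; `Q v v' = 2 Σ_l w l (a l v) (a l v')`; `b i, b j` is the basis dual to `a i, a j`; `φ x = u i x • b i + u j x • b j` and `P x v` the same combination of the `g x (W s x) v`.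
Since all wedge products of the `g x (W l x)` are `μ(x)` times those of the `a l`, `a l (P x v) = g x (W l x) v` for all `l`.
-/

noncomputable section

namespace Pool.Agent.EscG

open MeasureTheory Set Filter Topology Esc EscF _root_.EscG

variable {E : Type*} [NormedAddCommGroup E] [InnerProductSpace ℝ E] [FiniteDimensional ℝ E]
  {β : Module.Basis (Fin 2) ℝ E} {g : E → E →L[ℝ] E →L[ℝ] ℝ}

omit [FiniteDimensional ℝ E] in
/-- periodicity, all integer multiples -/
theorem Hr12_per {α : Type*} {F : E → α} (hper : ∀ i x, F (x + β i) = F x) (i : Fin 2) (n : ℤ)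
    (x : E) : F (x + (n : ℝ) • β i) = F x := by
  have hnat : ∀ (m : ℕ) (x : E), F (x + (m : ℝ) • β i) = F x := by
    intro m
    induction m with
    | zero => intro x; simp
    | succ m ih =>
      intro x
      have : x + ((m + 1 : ℕ) : ℝ) • β i = (x + (m : ℝ) • β i) + β i := by
        push_cast
        rw [add_smul, one_smul, add_assoc]
      rw [this, hper, ih]
  rcases Int.eq_nat_or_neg n with ⟨m, rfl | rfl⟩
  · exact_mod_cast hnat m x
  · have := hnat m (x + ((-(m : ℤ) : ℤ) : ℝ) • β i)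
    rw [← this]
    congr 1
    push_cast
    rw [neg_smul]
    abel

omit [FiniteDimensional ℝ E] in
theorem Hr12_eq (x : E) : x = β.repr x 0 • β 0 + β.repr x 1 • β 1 := by
  have := β.sum_repr x
  rw [Fin.sum_univ_two] at this
  exact this.symm

omit [FiniteDimensional ℝ E] in
/-- reduction to the unit square -/
theorem Hr12_red {α : Type*} {F : E → α} (hper : ∀ i x, F (x + β i) = F x) (x : E) :
    ∃ z ∈ Icc (0 : ℝ × ℝ) (1, 1), F (co β z) = F x := by
  set a := β.repr x 0 with ha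
  set b := β.repr x 1 with hb
  refine ⟨(Int.fract a, Int.fract b), ?_, ?_⟩
  · rw [W7_square]
    exact ⟨⟨Int.fract_nonneg _, (Int.fract_lt_one _).le⟩, ⟨Int.fract_nonneg _, (Int.fract_lt_one _).le⟩⟩
  · have hx2 : x = (co β (Int.fract a, Int.fract b) + ((⌊a⌋ : ℤ) : ℝ) • β 0) +
        ((⌊b⌋ : ℤ) : ℝ) • β 1 := by
      conv_lhs => rw [Hr12_eq (β := β) x, ← ha, ← hb, ← Int.fract_add_floor a, ← Int.fract_add_floor b]
      unfold co
      rw [add_smul, add_smul]
      abel
    conv_rhs => rw [hx2]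
    rw [Hr12_per hper, Hr12_per hper]

/-- integral of a positive continuous function over the square -/
theorem Hr12_int_pos {f : ℝ × ℝ → ℝ} (hf : Continuous f) (hp : ∀ z, 0 < f z) :
    0 < ∫ z in Icc (0 : ℝ × ℝ) (1, 1), f z := by
  have := W7_prob
  have hi : Integrable f ((volume : Measure (ℝ × ℝ)).restrict (Icc (0 : ℝ × ℝ) (1, 1))) :=
    hf.continuousOn.integrableOn_compact isCompact_Icc
  rw [integral_pos_iff_support_of_nonneg (fun z => (hp z).le) hi]
  have : Function.support f = univ := by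
    ext z
    simpa using (hp z).ne'
  rw [this, measure_univ]
  exact one_pos

/-- Lagrange identity -/
theorem Hr12_lagrange {m : ℕ} (w : Fin m → ℝ) (a : Fin m → ℝ × ℝ) :
    ∑ i, ∑ j, w i * w j * ((a i).1 * (a j).2 - (a i).2 * (a j).1) ^ 2 =
      2 * ((∑ i, w i * (a i).1 ^ 2) * (∑ i, w i * (a i).2 ^ 2) -
        (∑ i, w i * ((a i).1 * (a i).2)) ^ 2) := by
  have e1 : (∑ i, w i * (a i).1 ^ 2) * (∑ i, w i * (a i).2 ^ 2) =
      ∑ i, ∑ j, (w i * (a i).1 ^ 2) * (w j * (a j).2 ^ 2) := by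
    rw [Finset.sum_mul_sum]
  have e2 : (∑ i, w i * (a i).2 ^ 2) * (∑ i, w i * (a i).1 ^ 2) =
      ∑ i, ∑ j, (w i * (a i).2 ^ 2) * (w j * (a j).1 ^ 2) := by
    rw [Finset.sum_mul_sum]
  have e3 : (∑ i, w i * ((a i).1 * (a i).2)) ^ 2 =
      ∑ i, ∑ j, (w i * ((a i).1 * (a i).2)) * (w j * ((a j).1 * (a j).2)) := by
    rw [sq, Finset.sum_mul_sum]
  have e4 : 2 * ((∑ i, w i * (a i).1 ^ 2) * (∑ i, w i * (a i).2 ^ 2) -
        (∑ i, w i * ((a i).1 * (a i).2)) ^ 2) =
      (∑ i, w i * (a i).1 ^ 2) * (∑ i, w i * (a i).2 ^ 2) +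
      (∑ i, w i * (a i).2 ^ 2) * (∑ i, w i * (a i).1 ^ 2) -
      2 * (∑ i, w i * ((a i).1 * (a i).2)) ^ 2 := by ring
  rw [e4, e1, e2, e3, Finset.mul_sum, ← Finset.sum_add_distrib, ← Finset.sum_sub_distrib]
  refine Finset.sum_congr rfl fun i _ => ?_
  rw [Finset.mul_sum, ← Finset.sum_add_distrib, ← Finset.sum_sub_distrib]
  refine Finset.sum_congr rfl fun j _ => ?_
  ring

/-- covector with given values at the basis -/
def Hr12_cv (β : Module.Basis (Fin 2) ℝ E) (a : ℝ × ℝ) : E →L[ℝ] ℝ :=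
  LinearMap.toContinuousLinearMap (β.constr ℝ ![a.1, a.2])

theorem Hr12_cv0 (a : ℝ × ℝ) : Hr12_cv β a (β 0) = a.1 := by
  show β.constr ℝ ![a.1, a.2] (β 0) = a.1
  rw [Module.Basis.constr_basis]
  rfl

theorem Hr12_cv1 (a : ℝ × ℝ) : Hr12_cv β a (β 1) = a.2 := by
  show β.constr ℝ ![a.1, a.2] (β 1) = a.2
  rw [Module.Basis.constr_basis]
  rfl

/-- dual norm of a unit vector -/
theorem Hr12_dual (h : IsRiem β 2 g) (x v : E) (hv : g x v v = 1) :
    g x (β 1) (β 1) * (g x v (β 0)) ^ 2 - 2 * g x (β 0) (β 1) * (g x v (β 0)) * (g x v (β 1)) +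
      g x (β 0) (β 0) * (g x v (β 1)) ^ 2 = dens β g x ^ 2 := by
  rw [h.dens_sq]
  have hx := Hr12_eq (β := β) v
  set s := β.repr v 0
  set t := β.repr v 1
  have e0 : g x v (β 0) = s * g x (β 0) (β 0) + t * g x (β 0) (β 1) := by
    conv_lhs => rw [hx]
    rw [map_add, map_smul, map_smul, add_apply, smul_apply, smul_apply, smul_eq_mul, smul_eq_mul,
      h.symm x (β 1) (β 0)]
  have e1 : g x v (β 1) = s * g x (β 0) (β 1) + t * g x (β 1) (β 1) := by
    conv_lhs => rw [hx]
    rw [map_add, map_smul, map_smul, add_apply, smul_apply, smul_apply, smul_eq_mul, smul_eq_mul]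
  have e2 : s * g x v (β 0) + t * g x v (β 1) = 1 := by
    rw [← hv]
    calc s * g x v (β 0) + t * g x v (β 1) = g x v (s • β 0 + t • β 1) := by
          rw [map_add, map_smul, map_smul, smul_eq_mul, smul_eq_mul]
      _ = g x v v := by rw [← hx]
  rw [e0, e1] at e2
  rw [e0, e1]
  linear_combination (g x (β 0) (β 0) * g x (β 1) (β 1) - g x (β 0) (β 1) ^ 2) * e2

omit [FiniteDimensional ℝ E] in
theorem Hr12_ex2 (x : E) (A B : E →L[ℝ] ℝ) (h0 : A (β 0) = B (β 0)) (h1 : A (β 1) = B (β 1)) :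
    A x = B x := by
  rw [Hr12_eq (β := β) x]
  simp only [map_add, map_smul, h0, h1]

/-- the flat structure from the decomposition -/
theorem Hr12_flat (h : IsRiem β 2 g) {K : ℝ} (hK : 0 ≤ K) {m : ℕ} {w : Fin m → ℝ}
    (hw : ∀ i, 0 < w i) {a : Fin m → ℝ × ℝ} {u : Fin m → E → ℝ} {W : Fin m → E → E}
    (hcf : ∀ i, CF β g K (a i) (u i) (W i)) {i j : Fin m}
    (hij : (a i).1 * (a j).2 - (a i).2 * (a j).1 ≠ 0)
    (hg : ∀ x, 2 * ∑ l, w l * (g x (W l x) (β 0)) ^ 2 = g x (β 0) (β 0) ∧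
      2 * ∑ l, w l * (g x (W l x) (β 0) * g x (W l x) (β 1)) = g x (β 0) (β 1) ∧
      2 * ∑ l, w l * (g x (W l x) (β 1)) ^ 2 = g x (β 1) (β 1))
    (hμ : ∀ x, ∃ μ : ℝ, 0 < μ ∧ ∀ k l, wr β g x (W k x) (W l x) =
      μ * ((a k).1 * (a l).2 - (a k).2 * (a l).1)) :
    ∃ (Q : E →L[ℝ] E →L[ℝ] ℝ) (φ : E → E) (P : E → E →L[ℝ] E), FlatS β g Q φ P := by
  set δ := (a i).1 * (a j).2 - (a i).2 * (a j).1 with hδ
  set A : Fin m → E →L[ℝ] ℝ := fun l => Hr12_cv β (a l) with hA
  set bi : E := ((a j).2 / δ) • β 0 - ((a j).1 / δ) • β 1 with hbi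
  set bj : E := ((a i).1 / δ) • β 1 - ((a i).2 / δ) • β 0 with hbj
  have hA0 : ∀ l, A l (β 0) = (a l).1 := fun l => Hr12_cv0 _
  have hA1 : ∀ l, A l (β 1) = (a l).2 := fun l => Hr12_cv1 _
  set Q : E →L[ℝ] E →L[ℝ] ℝ := ∑ l, (2 * w l) • (A l).smulRight (A l) with hQ
  have hQa : ∀ v v', Q v v' = ∑ l, 2 * w l * (A l v * A l v') := by
    intro v v'
    rw [hQ]
    simp only [sum_apply, smul_apply, ContinuousLinearMap.smulRight_apply, smul_eq_mul]
  set φ : E → E := fun x => u i x • bi + u j x • bj with hφ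
  set P : E → E →L[ℝ] E := fun x => (g x (W i x)).smulRight bi + (g x (W j x)).smulRight bj with hP
  have hPa : ∀ x v, P x v = g x (W i x) v • bi + g x (W j x) v • bj := by
    intro x v
    rw [hP]
    simp only [add_apply, ContinuousLinearMap.smulRight_apply]
  have hAb : ∀ l, A l bi = ((a l).1 * (a j).2 - (a l).2 * (a j).1) / δ ∧
      A l bj = ((a i).1 * (a l).2 - (a i).2 * (a l).1) / δ := by
    intro l
    constructor
    · rw [hbi, map_sub, map_smul, map_smul, hA0, hA1, smul_eq_mul, smul_eq_mul]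
      field_simp
    · rw [hbj, map_sub, map_smul, map_smul, hA0, hA1, smul_eq_mul, smul_eq_mul]
      field_simp
  have hAP : ∀ l x v, A l (P x v) = g x (W l x) v := by
    intro l x v
    rw [hPa, map_add, map_smul, map_smul, smul_eq_mul, smul_eq_mul, (hAb l).1, (hAb l).2]
    obtain ⟨μ, hμ0, hμe⟩ := hμ x
    have e1 := hμe i j
    have e2 := hμe l j
    have e3 := hμe i l
    rw [← hδ] at e1
    unfold wr at e1 e2 e3
    have key : ∀ s : Fin 2, δ * g x (W l x) (β s) =
        ((a l).1 * (a j).2 - (a l).2 * (a j).1) * g x (W i x) (β s) +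
        ((a i).1 * (a l).2 - (a i).2 * (a l).1) * g x (W j x) (β s) := by
      intro s
      apply mul_left_cancel₀ hμ0.ne'
      rw [mul_add, ← mul_assoc, ← mul_assoc, ← mul_assoc, ← e1, ← e2, ← e3]
      fin_cases s
      · show _ * g x (W l x) (β 0) = _ * g x (W i x) (β 0) + _ * g x (W j x) (β 0)
        ring
      · show _ * g x (W l x) (β 1) = _ * g x (W i x) (β 1) + _ * g x (W j x) (β 1)
        ring
    have := Hr12_ex2 (β := β) v (δ • g x (W l x))
      (((a l).1 * (a j).2 - (a l).2 * (a j).1) • g x (W i x) +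
        ((a i).1 * (a l).2 - (a i).2 * (a l).1) • g x (W j x))
      (by simpa using key 0) (by simpa using key 1)
    simp only [add_apply, smul_apply, smul_eq_mul] at this
    field_simp
    linarith
  refine ⟨Q, φ, P, ?_⟩
  refine
    { symm := ?_
      pos := ?_
      per := ?_
      quad := ?_
      lip := ?_
      iso := ?_ }
  · intro v v'
    rw [hQa, hQa]
    exact Finset.sum_congr rfl fun l _ => by ring
  · intro v hv
    rw [hQa]
    have hnn : ∀ l ∈ Finset.univ, 0 ≤ 2 * w l * (A l v * A l v) := fun l _ =>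
      mul_nonneg (by have := hw l; linarith) (mul_self_nonneg _)
    by_contra hcon
    have h0 : ∑ l, 2 * w l * (A l v * A l v) = 0 := le_antisymm (not_lt.1 hcon) (Finset.sum_nonneg hnn)
    rw [Finset.sum_eq_zero_iff_of_nonneg hnn] at h0
    have hz : ∀ l, A l v = 0 := by
      intro l
      have h1 := h0 l (Finset.mem_univ l)
      have h2 := hw l
      rcases mul_eq_zero.1 h1 with h3 | h3
      · linarith
      · exact mul_self_eq_zero.1 h3
    apply hv
    have hx := Hr12_eq (β := β) v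
    have hi := hz i
    have hj := hz j
    rw [hx, map_add, map_smul, map_smul, hA0, hA1, smul_eq_mul, smul_eq_mul] at hi hj
    have h5 : β.repr v 0 = 0 := by
      have : β.repr v 0 * δ = 0 := by
        rw [hδ]
        linear_combination (a j).2 * hi - (a i).2 * hj
      exact (mul_eq_zero.1 this).resolve_right hij
    have h6 : β.repr v 1 = 0 := by
      have : β.repr v 1 * δ = 0 := by
        rw [hδ]
        linear_combination (a i).1 * hj - (a j).1 * hi
      exact (mul_eq_zero.1 this).resolve_right hij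
    rw [hx, h5, h6, zero_smul, zero_smul, add_zero]
  · intro s x
    show u i (x + β s) • bi + u j (x + β s) • bj = (u i x • bi + u j x • bj) + β s
    have hco0 : (a i).1 • bi + (a j).1 • bj = β 0 := by
      rw [hbi, hbj]
      have e1 : (a i).1 • (((a j).2 / δ) • β 0 - ((a j).1 / δ) • β 1) +
          (a j).1 • (((a i).1 / δ) • β 1 - ((a i).2 / δ) • β 0) =
          (((a i).1 * (a j).2 - (a i).2 * (a j).1) / δ) • β 0 := by
        module
      rw [e1, ← hδ, div_self hij, one_smul]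
    have hco1 : (a i).2 • bi + (a j).2 • bj = β 1 := by
      rw [hbi, hbj]
      have e1 : (a i).2 • (((a j).2 / δ) • β 0 - ((a j).1 / δ) • β 1) +
          (a j).2 • (((a i).1 / δ) • β 1 - ((a i).2 / δ) • β 0) =
          (((a i).1 * (a j).2 - (a i).2 * (a j).1) / δ) • β 1 := by
        module
      rw [e1, ← hδ, div_self hij, one_smul]
    fin_cases s
    · show u i (x + β 0) • bi + u j (x + β 0) • bj = (u i x • bi + u j x • bj) + β 0
      rw [(hcf i).U0, (hcf j).U0]
      conv_rhs => rw [← hco0]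
      module
    · show u i (x + β 1) • bi + u j (x + β 1) • bj = (u i x • bi + u j x • bj) + β 1
      rw [(hcf i).U1, (hcf j).U1]
      conv_rhs => rw [← hco1]
      module
  · refine ⟨K * (‖bi‖ + ‖bj‖), fun x y => ?_⟩
    have e : φ y - φ x - P x (y - x) = (u i y - u i x - g x (W i x) (y - x)) • bi +
        (u j y - u j x - g x (W j x) (y - x)) • bj := by
      rw [hPa]
      show (u i y • bi + u j y • bj) - (u i x • bi + u j x • bj) - _ = _
      module
    rw [e]
    refine (norm_add_le _ _).trans ?_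
    rw [norm_smul, norm_smul, Real.norm_eq_abs, Real.norm_eq_abs]
    have h1 := mul_le_mul_of_nonneg_right ((hcf i).quad x y) (norm_nonneg bi)
    have h2 := mul_le_mul_of_nonneg_right ((hcf j).quad x y) (norm_nonneg bj)
    calc _ ≤ K * ‖y - x‖ ^ 2 * ‖bi‖ + K * ‖y - x‖ ^ 2 * ‖bj‖ := add_le_add h1 h2
      _ = K * (‖bi‖ + ‖bj‖) * ‖y - x‖ ^ 2 := by ring
  · refine ⟨6 * K * (‖bi‖ + ‖bj‖), fun x y => ?_⟩
    have e : P y - P x = (g y (W i y) - g x (W i x)).smulRight bi +
        (g y (W j y) - g x (W j x)).smulRight bj := by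
      ext v
      rw [sub_apply, hPa, hPa]
      simp only [add_apply, sub_apply, ContinuousLinearMap.smulRight_apply]
      module
    rw [e]
    refine (norm_add_le _ _).trans ?_
    rw [ContinuousLinearMap.norm_smulRight_apply, ContinuousLinearMap.norm_smulRight_apply]
    have h1 := mul_le_mul_of_nonneg_right ((hcf i).lip hK y x) (norm_nonneg bi)
    have h2 := mul_le_mul_of_nonneg_right ((hcf j).lip hK y x) (norm_nonneg bj)
    calc _ ≤ 6 * K * ‖y - x‖ * ‖bi‖ + 6 * K * ‖y - x‖ * ‖bj‖ := add_le_add h1 h2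
      _ = 6 * K * (‖bi‖ + ‖bj‖) * ‖y - x‖ := by ring
  · intro x v v'
    rw [hQa]
    have e : ∀ l, 2 * w l * (A l (P x v) * A l (P x v')) =
        2 * w l * (g x (W l x) v * g x (W l x) v') := by
      intro l
      rw [hAP, hAP]
    rw [Finset.sum_congr rfl fun l _ => e l]
    obtain ⟨g00, g01, g11⟩ := hg x
    have hv := Hr12_eq (β := β) v
    have hv' := Hr12_eq (β := β) v'
    set s := β.repr v 0
    set t := β.repr v 1
    set s' := β.repr v' 0
    set t' := β.repr v' 1
    have e1 : g x v v' = s * s' * g x (β 0) (β 0) + (s * t' + t * s') * g x (β 0) (β 1) +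
        t * t' * g x (β 1) (β 1) := by
      rw [hv, hv']
      simp only [map_add, map_smul, add_apply, smul_apply, smul_eq_mul]
      rw [h.symm x (β 1) (β 0)]
      ring
    rw [e1, ← g00, ← g01, ← g11]
    simp only [Finset.mul_sum]
    rw [← Finset.sum_add_distrib, ← Finset.sum_add_distrib]
    refine Finset.sum_congr rfl fun l _ => ?_
    rw [hv, hv']
    simp only [map_add, map_smul, smul_eq_mul]
    ring

/-- a Riemannian metric on the two-torus all of whose displacement functions are constant is flat -/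
theorem IsRiem.hopf (h : IsRiem β 2 g)
    (hall : ∀ β', SameLat β β' → ∀ x y, fd (rn g) x (x + β' 0) = fd (rn g) y (y + β' 0)) :
    ∃ (Q : E →L[ℝ] E →L[ℝ] ℝ) (φ : E → E) (P : E → E →L[ℝ] E), FlatS β g Q φ P := by
  obtain ⟨K, σ, U, c, W0, hF⟩ := h.exists_fol hall
  have hK := hF.K_nonneg
  have hgc : Continuous fun z : ℝ × ℝ => g (co β z) := h.smooth.continuous.comp (W7_co_cont β)
  have hWc : ∀ {a : ℝ × ℝ} {u : E → ℝ} {w : E → E}, CF β g K a u w →
      ∀ s, Continuous fun z : ℝ × ℝ => g (co β z) (w (co β z)) (β s) := by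
    intro a u w hc s
    have h1 : Continuous fun z : ℝ × ℝ => w (co β z) := (hc.cont h hK).comp (W7_co_cont β)
    exact (hgc.clm_apply h1).clm_apply continuous_const
  obtain ⟨hCc, hCF⟩ := hF.closure
  set C := closure {a : ℝ × ℝ | ∃ k, Prim k ∧ a = c k} with hC
  have hmem : ∀ k, Prim k → c k ∈ C := fun k hk => subset_closure ⟨k, hk, rfl⟩
  have hp10 : Prim (1, 0) := isCoprime_one_left
  have hp01 : Prim (0, 1) := isCoprime_one_right
  have hne : ∃ c1 ∈ C, ∃ c2 ∈ C, c1.1 * c2.2 - c1.2 * c2.1 ≠ 0 := by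
    refine ⟨c (1, 0), hmem _ hp10, c (0, 1), hmem _ hp01, ?_⟩
    have h1 := (hF.cf _ hp10).int_wd h hK (hF.cf _ hp01)
    rw [← h1]
    refine (Hr12_int_pos ?_ ?_).ne'
    · unfold wr
      exact ((hWc (hF.cf _ hp10) 0).mul (hWc (hF.cf _ hp01) 1)).sub
        ((hWc (hF.cf _ hp10) 1).mul (hWc (hF.cf _ hp01) 0))
    · intro z
      exact hF.wd_pos hp10 hp01 (by unfold dt; norm_num) _
  obtain ⟨m, w, a, p, q, r, hw, hw1, haC, hp, hq, hr, hp0, hd, hc⟩ := exists_opt hCc hne
  have harea := hF.area hp0 hd (fun k hk => hc _ (hmem k hk))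
  choose u W hcf using fun i => hCF (a i) (haC i)
  have hL := Hr12_lagrange w a
  rw [← hp, ← hq, ← hr] at hL
  have hDc : Continuous fun z : ℝ × ℝ => dens β g (co β z) := h.dens_cont.comp (W7_co_cont β)
  have hV : (∫ z in Icc (0 : ℝ × ℝ) (1, 1), dens β g (co β z)) ^ 2 ≤
      2 * ∑ i, ∑ j, w i * w j * ((a i).1 * (a j).2 - (a i).2 * (a j).1) ^ 2 := by
    rw [hL]
    have h0 : 0 ≤ ∫ z in Icc (0 : ℝ × ℝ) (1, 1), dens β g (co β z) :=
      (Hr12_int_pos hDc fun z => h.dens_pos _).le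
    calc (∫ z in Icc (0 : ℝ × ℝ) (1, 1), dens β g (co β z)) ^ 2 ≤ (2 * √(p * r - q ^ 2)) ^ 2 := by
          gcongr
      _ = 2 * (2 * (p * r - q ^ 2)) := by
          rw [mul_pow, Real.sq_sqrt hd.le]
          ring
  have hrig := rigid (e := fun z => g (co β z) (β 0) (β 0)) (f := fun z => g (co β z) (β 0) (β 1))
    (h := fun z => g (co β z) (β 1) (β 1)) (D := fun z => dens β g (co β z))
    (p := fun i z => (g (co β z) (W i (co β z)) (β 0), g (co β z) (W i (co β z)) (β 1)))
    (ω := fun i j => (a i).1 * (a j).2 - (a i).2 * (a j).1) hw hw1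
    ((hgc.clm_apply continuous_const).clm_apply continuous_const)
    ((hgc.clm_apply continuous_const).clm_apply continuous_const)
    ((hgc.clm_apply continuous_const).clm_apply continuous_const) hDc
    (fun i => (hWc (hcf i) 0).prodMk (hWc (hcf i) 1))
    (fun z => h.pos _ _ (β.ne_zero 0)) (fun z => h.dens_pos _) (fun z => h.dens_sq _)
    (fun i z => Hr12_dual h _ _ ((hcf i).unit _))
    (fun i j => (hcf i).int_wd h hK (hcf j)) hV
  have hper : ∀ (s : Fin 2) (x : E), (fun x => (g x, fun i => W i x)) (x + β s) =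
      (fun x => (g x, fun i => W i x)) x := by
    intro s x
    show (g (x + β s), fun i => W i (x + β s)) = (g x, fun i => W i x)
    rw [h.per]
    congr 1
    funext i
    exact (hcf i).per h hK s x
  have hall' : ∀ x, 2 * ∑ i, w i * (g x (W i x) (β 0)) ^ 2 = g x (β 0) (β 0) ∧
      2 * ∑ i, w i * (g x (W i x) (β 0) * g x (W i x) (β 1)) = g x (β 0) (β 1) ∧
      2 * ∑ i, w i * (g x (W i x) (β 1)) ^ 2 = g x (β 1) (β 1) ∧
      ∃ μ : ℝ, 0 < μ ∧ ∀ i j, wr β g x (W i x) (W j x) =
        μ * ((a i).1 * (a j).2 - (a i).2 * (a j).1) := by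
    intro x
    obtain ⟨z, hz, hzx⟩ := Hr12_red (β := β) (F := fun x => (g x, fun i => W i x)) hper x
    have e1 : g (co β z) = g x := congrArg Prod.fst hzx
    have e2 : ∀ i, W i (co β z) = W i x := fun i => congrFun (congrArg Prod.snd hzx) i
    have h1 := hrig z hz
    simp only [e1, e2] at h1
    exact h1
  have hsum : ∃ i j, (a i).1 * (a j).2 - (a i).2 * (a j).1 ≠ 0 := by
    by_contra hcon
    push Not at hcon
    have : ∑ i, ∑ j, w i * w j * ((a i).1 * (a j).2 - (a i).2 * (a j).1) ^ 2 = 0 :=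
      Finset.sum_eq_zero fun i _ => Finset.sum_eq_zero fun j _ => by
        rw [hcon i j]
        ring
    rw [hL] at this
    linarith
  obtain ⟨i, j, hij⟩ := hsum
  exact Hr12_flat h hK hw hcf hij (fun x => ⟨(hall' x).1, (hall' x).2.1, (hall' x).2.2.1⟩)
    (fun x => (hall' x).2.2.2)

end Pool.Agent.EscG
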