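import Pool.Agent.EscG.R2
import Pool.Agent.EscG.FDefs

set_option autoImplicit false

/-!
# EscG flatness: quadratic estimate at a calibrated line

Let `Z` be an isometric line, calibrated by `B` (1-Lipschitz for `ed`), `v` its velocity, `p t = ρ(Z t)² v t`,
`h = y - Z 0`. Upper bound: the control `v t + h` on `[-1, 0]` from `Z (-1)` ends at `y`;
`kerl (cl ρ) (-1) 0 (Z (-1)) y ≤ 1/2 ∫ ρ(Z + (1+t) h)² ‖v + h‖² ≤ 1/2 + ∫ ((1+t) ⟨∇ρ/ρ, h⟩ + ⟨p, h⟩) dt + C ‖h‖²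
= 1/2 + ⟨p 0, h⟩ + C ‖h‖²` for `‖h‖ ≤ 1` (Taylor estimate of the cut-off of `cl ρ`; `p' = ∇ρ/ρ`,
`iso_gode_univ`), and `ed = √(2 kerl) ≤ 1 + ⟨p 0, h⟩ + C' ‖h‖²` (`√(1+2s) ≤ 1+s`), so
`B y ≤ B (Z (-1)) + ed (Z (-1)) y ≤ B (Z 0) + ⟨p 0, h⟩ + C' ‖h‖²`. Lower bound: apply the upper bound to
`-B` and the reversed line. For `‖h‖ > 1` use the Lipschitz bound.
-/

noncomputable section

namespace Pool.Agent.EscG

open MeasureTheory Set Filter Topology Esc EscF _root_.EscG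

variable {E : Type*} [NormedAddCommGroup E] [InnerProductSpace ℝ E] [FiniteDimensional ℝ E]
  {β : Module.Basis (Fin 2) ℝ E} {ρ : E → ℝ} {mF MF : ℝ}

theorem quad_gu (ρ : E → ℝ) (x v : E) (t : ℝ) : gu (cl ρ) x v t = ρ x ^ 2 • v := by
  have h1 : HasFDerivAt (fun w : E => ‖w‖ ^ 2) (2 • (innerSL ℝ v)) v :=
    (hasStrictFDerivAt_norm_sq v).hasFDerivAt
  have h2 : HasGradientAt (fun w : E => cl ρ x w t) (ρ x ^ 2 • v) v := by
    rw [hasGradientAt_iff_hasFDerivAt]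
    have h3 : HasFDerivAt (fun w : E => ρ x ^ 2 / 2 * ‖w‖ ^ 2)
        ((ρ x ^ 2 / 2) • (2 • (innerSL ℝ v))) v := h1.const_mul _
    have e1 : (fun w : E => cl ρ x w t) = fun w : E => ρ x ^ 2 / 2 * ‖w‖ ^ 2 := by
      funext w
      unfold cl
      ring
    rw [e1]
    have e2 : (InnerProductSpace.toDual ℝ E) (ρ x ^ 2 • v) =
        (ρ x ^ 2 / 2) • (2 • (innerSL ℝ v)) := by
      ext w
      simp
      ring
    rw [e2]
    exact h3
  exact h2.gradient

theorem Conf.quad_gx (h : Conf β ρ mF MF) (x v : E) (t : ℝ) :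
    gx (cl ρ) x v t = (ρ x * ‖v‖ ^ 2) • gradient ρ x := by
  have hd : DifferentiableAt ℝ ρ x := (h.smooth.differentiable (by norm_num)) x
  have h1 : HasFDerivAt ρ (InnerProductSpace.toDual ℝ E (gradient ρ x)) x :=
    hasGradientAt_iff_hasFDerivAt.1 hd.hasGradientAt
  have h2 : HasGradientAt (fun w : E => cl ρ w v t) ((ρ x * ‖v‖ ^ 2) • gradient ρ x) x := by
    rw [hasGradientAt_iff_hasFDerivAt]
    have h3 := (h1.mul h1).const_mul (‖v‖ ^ 2 / 2)
    have e1 : (fun w : E => cl ρ w v t) = fun w : E => ‖v‖ ^ 2 / 2 * (ρ w * ρ w) := by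
      funext w
      unfold cl
      ring
    rw [e1]
    refine h3.congr_fderiv ?_
    ext w
    simp
    ring
  exact h2.gradient

theorem Conf.quad_grad_cont (h : Conf β ρ mF MF) : Continuous (gradient ρ) := by
  have h1 : Continuous (fderiv ℝ ρ) := h.smooth.continuous_fderiv (by norm_num)
  exact (InnerProductSpace.toDual ℝ E).symm.continuous.comp h1

theorem quad_int {g : ℝ → ℝ} (hg : Continuous g) (c d : ℝ) :
    ∫ t in (-1 : ℝ)..0, (c + g t + d) = c + (∫ t in (-1 : ℝ)..0, g t) + d := by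
  have h1 : IntervalIntegrable (fun t => c + g t) volume (-1) 0 :=
    (continuous_const.add hg).intervalIntegrable _ _
  have h2 : IntervalIntegrable (fun _ : ℝ => d) volume (-1) 0 :=
    continuous_const.intervalIntegrable _ _
  have h3 : IntervalIntegrable (fun _ : ℝ => c) volume (-1) 0 :=
    continuous_const.intervalIntegrable _ _
  rw [intervalIntegral.integral_add h1 h2,
    intervalIntegral.integral_add h3 (hg.intervalIntegrable _ _),
    intervalIntegral.integral_const, intervalIntegral.integral_const]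
  norm_num

/-- upper bound near the line -/
theorem Conf.quad_upp (h : Conf β ρ mF MF) : ∃ K : ℝ, 0 ≤ K ∧ ∀ (B : E → ℝ),
    (∀ x y, B y - B x ≤ ed ρ x y) → ∀ (Z : ℝ → E) (v : E), (∀ s t, ed ρ (Z s) (Z t) = |s - t|) →
    (∀ s t, B (Z t) - B (Z s) = t - s) → HasDerivAt Z v 0 →
    ∀ y, ‖y - Z 0‖ ≤ 1 →
      B y - B (Z 0) - inner ℝ (ρ (Z 0) ^ 2 • v) (y - Z 0) ≤ K * ‖y - Z 0‖ ^ 2 := by
  obtain ⟨l', lx', lu', Λ, hc⟩ := h.tl.exists_cut (1 / mF + 1)
  have hΛ : 1 ≤ Λ := hc.cl.Λ_ge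
  refine ⟨4 * Λ, by linarith, ?_⟩
  intro B hB Z v hZ hBZ hv y hy
  obtain ⟨V, hVc, hVd, hV1, hp⟩ := h.iso_gode_univ hZ
  have hv0 : V 0 = v := (hVd 0).unique hv
  have hρpos : ∀ x, 0 < ρ x := fun x => lt_of_lt_of_le h.mF_pos (h.low x)
  have hVb : ∀ t, ‖V t‖ ≤ 1 / mF := by
    intro t
    rw [le_div_iff₀ h.mF_pos]
    have := hV1 t
    have h2 := h.low (Z t)
    nlinarith [norm_nonneg (V t)]
  obtain ⟨w, hw⟩ : ∃ w, w = y - Z 0 := ⟨_, rfl⟩
  rw [← hw] at hy ⊢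
  have hZc : Continuous Z := continuous_iff_continuousAt.2 fun t => (hVd t).continuousAt
  have hρc : Continuous ρ := h.smooth.continuous
  have hadm : Adm (fun t => V t + w) :=
    ⟨(hVc.add continuous_const).stronglyMeasurable, 1 / mF + 1, fun t =>
      (norm_add_le _ _).trans (add_le_add (hVb t) hy)⟩
  have htr : ∀ t, traj (-1) (Z (-1)) (fun t => V t + w) t = Z t + (1 + t) • w := by
    intro t
    unfold traj
    rw [intervalIntegral.integral_add (hVc.intervalIntegrable _ _)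
      (continuous_const.intervalIntegrable _ _),
      intervalIntegral.integral_eq_sub_of_hasDerivAt (fun s _ => hVd s)
        (hVc.intervalIntegrable _ _), intervalIntegral.integral_const]
    have : (t - -1 : ℝ) = 1 + t := by ring
    rw [this]
    abel
  have hend : traj (-1) (Z (-1)) (fun t => V t + w) 0 = y := by
    rw [htr, hw]
    simp
  have hcb : CB 0 (cl ρ) := h.tl.cb
  have hk := hcb.kerl_le (a := -1) (b := 0) (by norm_num) hadm hend
  -- the pointwise estimate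
  have hpt : ∀ t ∈ Icc (-1 : ℝ) 0, cl ρ (traj (-1) (Z (-1)) (fun t => V t + w) t) (V t + w) t ≤
      1 / 2 + (inner ℝ (ρ (Z t) ^ 2 • V t) w +
        (1 + t) * inner ℝ ((ρ (Z t))⁻¹ • gradient ρ (Z t)) w) + 4 * Λ * ‖w‖ ^ 2 := by
    intro t ht
    rw [htr]
    have hb1 : ‖V t + w‖ ≤ 1 / mF + 1 := (norm_add_le _ _).trans (add_le_add (hVb t) hy)
    have hb2 : ‖V t‖ ≤ 1 / mF + 1 := (hVb t).trans (by linarith)
    have h1 := hc.cl.tay (Z t) (V t) (Z t + (1 + t) • w) (V t + w) t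
    rw [hc.eq _ _ _ hb1, hc.eq _ _ _ hb2, hc.equ _ _ _ hb2, hc.eqx _ _ _ hb2, quad_gu,
      h.quad_gx] at h1
    have e1 : Z t + (1 + t) • w - Z t = (1 + t) • w := by abel
    have e2 : V t + w - V t = w := by abel
    rw [e1, e2, norm_smul, Real.norm_of_nonneg (by linarith [ht.1])] at h1
    have h2 := (abs_le.1 h1).2
    have e3 : cl ρ (Z t) (V t) t = 1 / 2 := by
      unfold cl
      have := hV1 t
      have h3 : ρ (Z t) ^ 2 * ‖V t‖ ^ 2 = (ρ (Z t) * ‖V t‖) ^ 2 := by ring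
      rw [h3, this]
      norm_num
    have e4 : ρ (Z t) * ‖V t‖ ^ 2 = (ρ (Z t))⁻¹ := by
      have := hV1 t
      have h4 := (hρpos (Z t)).ne'
      field_simp
      have h3 : ρ (Z t) ^ 2 * ‖V t‖ ^ 2 = (ρ (Z t) * ‖V t‖) ^ 2 := by ring
      rw [h3, this]
      norm_num
    rw [e3, e4, inner_smul_right] at h2
    have h5 : ((1 + t) * ‖w‖ + ‖w‖) ^ 2 ≤ 4 * ‖w‖ ^ 2 := by
      have h6 : (1 + t) * ‖w‖ + ‖w‖ = (2 + t) * ‖w‖ := by ring
      rw [h6, mul_pow]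
      refine mul_le_mul_of_nonneg_right ?_ (by positivity)
      nlinarith [ht.1, ht.2]
    have h7 : Λ * ((1 + t) * ‖w‖ + ‖w‖) ^ 2 ≤ Λ * (4 * ‖w‖ ^ 2) :=
      mul_le_mul_of_nonneg_left h5 (by linarith)
    linarith
  -- the integral
  have hgd : ∀ t, HasDerivAt (fun s => (1 + s) * inner ℝ (ρ (Z s) ^ 2 • V s) w)
      (inner ℝ (ρ (Z t) ^ 2 • V t) w +
        (1 + t) * inner ℝ ((ρ (Z t))⁻¹ • gradient ρ (Z t)) w) t := by
    intro t
    have h1 : HasDerivAt (fun s : ℝ => 1 + s) 1 t := (hasDerivAt_id t).const_add 1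
    have h2 : HasDerivAt (fun s => inner ℝ (ρ (Z s) ^ 2 • V s) w)
        (inner ℝ ((ρ (Z t))⁻¹ • gradient ρ (Z t)) w) t := by
      have := (hp t).inner ℝ (hasDerivAt_const t w)
      simpa using this
    have h3 : HasDerivAt (fun s => (1 + s) * inner ℝ (ρ (Z s) ^ 2 • V s) w)
        (1 * inner ℝ (ρ (Z t) ^ 2 • V t) w +
          (1 + t) * inner ℝ ((ρ (Z t))⁻¹ • gradient ρ (Z t)) w) t := h1.mul h2
    rw [one_mul] at h3
    exact h3
  have hpc : Continuous fun s => ρ (Z s) ^ 2 • V s :=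
    ((hρc.comp hZc).pow 2).smul hVc
  have hqc : Continuous fun s => (ρ (Z s))⁻¹ • gradient ρ (Z s) :=
    ((hρc.comp hZc).inv₀ fun s => (hρpos (Z s)).ne').smul (h.quad_grad_cont.comp hZc)
  have hgc : Continuous fun t => (inner ℝ (ρ (Z t) ^ 2 • V t) w +
        (1 + t) * inner ℝ ((ρ (Z t))⁻¹ • gradient ρ (Z t)) w : ℝ) := by
    exact (hpc.inner continuous_const).add
      ((continuous_const.add continuous_id).mul (hqc.inner continuous_const))
  have hint : ∫ t in (-1 : ℝ)..0, (inner ℝ (ρ (Z t) ^ 2 • V t) w +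
        (1 + t) * inner ℝ ((ρ (Z t))⁻¹ • gradient ρ (Z t)) w : ℝ) =
        inner ℝ (ρ (Z 0) ^ 2 • v) w := by
    rw [intervalIntegral.integral_eq_sub_of_hasDerivAt (fun s _ => hgd s)
      (hgc.intervalIntegrable _ _), hv0]
    norm_num
  have hact : actl (cl ρ) (-1) 0 (Z (-1)) (fun t => V t + w) ≤
      1 / 2 + inner ℝ (ρ (Z 0) ^ 2 • v) w + 4 * Λ * ‖w‖ ^ 2 := by
    unfold actl
    have h1 : ∫ t in (-1 : ℝ)..0, cl ρ (traj (-1) (Z (-1)) (fun t => V t + w) t) (V t + w) t ≤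
        ∫ t in (-1 : ℝ)..0, (1 / 2 + (inner ℝ (ρ (Z t) ^ 2 • V t) w +
        (1 + t) * inner ℝ ((ρ (Z t))⁻¹ • gradient ρ (Z t)) w) + 4 * Λ * ‖w‖ ^ 2) := by
      refine intervalIntegral.integral_mono_on (by norm_num) ?_ ?_ hpt
      · exact hcb.ii hadm _ _ _ _
      · exact ((continuous_const.add hgc).add continuous_const).intervalIntegrable _ _
    refine h1.trans (le_of_eq ?_)
    rw [quad_int hgc, hint]
  have hke := h.kerl_eq (a := -1) (b := 0) (by norm_num) (Z (-1)) y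
  rw [hke] at hk
  obtain ⟨s, hs⟩ : ∃ s, s = inner ℝ (ρ (Z 0) ^ 2 • v) w + 4 * Λ * ‖w‖ ^ 2 := ⟨_, rfl⟩
  have h8 : ed ρ (Z (-1)) y ^ 2 ≤ 1 + 2 * s := by
    have : ed ρ (Z (-1)) y ^ 2 / (2 * (0 - -1)) ≤ 1 / 2 + s := by
      rw [hs]
      linarith
    have e5 : (2 * (0 - -1) : ℝ) = 2 := by norm_num
    rw [e5] at this
    linarith
  have h9 : -(1 / 2) ≤ s := by nlinarith [sq_nonneg (ed ρ (Z (-1)) y)]
  have h10 : ed ρ (Z (-1)) y ≤ 1 + s :=
    abs_le_of_sq_le_sq' (by nlinarith [sq_nonneg s]) (by linarith) |>.2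
  have h11 := hB (Z (-1)) y
  have h12 := hBZ (-1) 0
  linarith

theorem Conf.quad (h : Conf β ρ mF MF) : ∃ K : ℝ, 0 ≤ K ∧ ∀ (B : E → ℝ),
    (∀ x y, B y - B x ≤ ed ρ x y) → ∀ (Z : ℝ → E) (v : E), (∀ s t, ed ρ (Z s) (Z t) = |s - t|) →
    (∀ s t, B (Z t) - B (Z s) = t - s) → HasDerivAt Z v 0 →
    ∀ y, |B y - B (Z 0) - inner ℝ (ρ (Z 0) ^ 2 • v) (y - Z 0)| ≤ K * ‖y - Z 0‖ ^ 2 := by
  obtain ⟨K, hK0, hK⟩ := h.quad_upp
  have hM : 0 ≤ MF := (h.mF_pos.le.trans (h.low 0)).trans (h.upp 0)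
  refine ⟨max K (2 * MF), le_max_of_le_left hK0, ?_⟩
  intro B hB Z v hZ hBZ hv y
  have hK1 : K * ‖y - Z 0‖ ^ 2 ≤ max K (2 * MF) * ‖y - Z 0‖ ^ 2 :=
    mul_le_mul_of_nonneg_right (le_max_left _ _) (by positivity)
  have hK2 : 2 * MF * ‖y - Z 0‖ ^ 2 ≤ max K (2 * MF) * ‖y - Z 0‖ ^ 2 :=
    mul_le_mul_of_nonneg_right (le_max_right _ _) (by positivity)
  by_cases hy : ‖y - Z 0‖ ≤ 1
  · have h1 := hK B hB Z v hZ hBZ hv y hy
    have h2 := hK (fun x => -B x) (fun x y => by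
        have := hB y x
        rw [h.ed_symm y x] at this
        linarith) (fun t => Z (-t)) (-v) (fun s t => by
        rw [hZ, abs_sub_comm]
        congr 1
        ring) (fun s t => by
        have := hBZ (-t) (-s)
        linarith) (by
        have h3 : HasDerivAt (fun t : ℝ => -t) (-1) 0 := hasDerivAt_neg 0
        have h4 : HasDerivAt Z v (-(0 : ℝ)) := by simpa using hv
        have h5 := h4.scomp (0 : ℝ) h3
        simpa [Function.comp_def] using h5) y (by simpa using hy)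
    simp only [neg_zero, smul_neg, inner_neg_left] at h2
    rw [abs_le]
    constructor <;> linarith
  · have hy1 : 1 < ‖y - Z 0‖ := not_le.1 hy
    obtain ⟨V, hVc, hVd, hV1, hp⟩ := h.iso_gode_univ hZ
    have hv0 : V 0 = v := (hVd 0).unique hv
    have hρpos : 0 < ρ (Z 0) := lt_of_lt_of_le h.mF_pos (h.low _)
    have h1 := hB (Z 0) y
    have h2 := hB y (Z 0)
    have h3 := h.ed_upp (Z 0) y
    have h4 := h.ed_upp y (Z 0)
    rw [norm_sub_rev] at h3
    have h5 : |inner ℝ (ρ (Z 0) ^ 2 • v) (y - Z 0)| ≤ MF * ‖y - Z 0‖ := by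
      refine (abs_real_inner_le_norm _ _).trans ?_
      refine mul_le_mul_of_nonneg_right ?_ (norm_nonneg _)
      rw [norm_smul, Real.norm_of_nonneg (by positivity), ← hv0]
      have h6 := hV1 0
      have h7 : ρ (Z 0) ^ 2 * ‖V 0‖ = ρ (Z 0) * (ρ (Z 0) * ‖V 0‖) := by ring
      rw [h7, h6, mul_one]
      exact h.upp _
    have h8 := abs_le.1 h5
    have h9 : MF * ‖y - Z 0‖ ≤ MF * ‖y - Z 0‖ ^ 2 := by
      refine mul_le_mul_of_nonneg_left ?_ hM
      nlinarith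
    rw [abs_le]
    constructor <;> linarith [h8.1, h8.2]

end Pool.Agent.EscG
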