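import Pool.Agent.EscG.Hr1
import Pool.Agent.EscG.W2

set_option autoImplicit false

/-!
# EscG geometry, project H, module Hr2: quadratic estimate at a calibrated line

The model is W2.lean (`Conf.quad`, on main; lemma `quad_int` can be reused). Let `Z` be an isometric line calibrated by `B`, `v` its velocity (`IsRiem.line`), `h = y - Z 0`,
`‖h‖ ≤ 1`. The control `v t + h` on `[-1, 0]` from `Z (-1)` has the trajectory `Z t + (1+t) h` and ends at `y`; with `l x v = g x v v / 2`: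
`fd (rn g) (Z (-1)) y ^ 2 / 2 ≤ ∫ l (Z + (1+t) h) (v + h) ≤ 1/2 + ∫ ((1+t) fderiv g (Z) h v v / 2 + g (Z) v h) dt + C ‖h‖²` (Taylor: `l` is `C^2`, `Z` arbitrary but
`g` is periodic and `v` bounded, so second derivatives are bounded; `TL.exists_cut` of `IsRiem.tl` and the field `tay` of `CL` as in W2). By `IsRiem.line`
(integration by parts, as in W2) the middle term is `g (Z 0) (v 0) h`. Then `fd ≤ √(1 + 2 s) ≤ 1 + s`, and `B y ≤ B (Z (-1)) + fd (Z (-1)) y`.
Lower bound: `-B` and the reversed line (`fd_symm`). For `‖h‖ > 1` the Lipschitz bound `fd ≤ MF ‖·‖`.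
-/

noncomputable section

namespace Pool.Agent.EscG

open MeasureTheory Set Filter Topology Esc EscF _root_.EscG
open scoped ContDiff

variable {E : Type*} [NormedAddCommGroup E] [InnerProductSpace ℝ E] [FiniteDimensional ℝ E]
  {β : Module.Basis (Fin 2) ℝ E} {g : E → E →L[ℝ] E →L[ℝ] ℝ}

/-- Cauchy-Schwarz for a unit vector -/
theorem Hr2_cs (h : IsRiem β 2 g) {x v : E} (hv : g x v v = 1) (w : E) :
    |g x v w| ≤ rn g x w := by
  have h1 := Hr0_nn h x ((g x v w) • v - w)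
  have h2 : g x ((g x v w) • v - w) ((g x v w) • v - w) = g x w w - g x v w ^ 2 := by
    simp only [map_sub, map_smul, ContinuousLinearMap.sub_apply, ContinuousLinearMap.smul_apply,
      smul_eq_mul]
    rw [hv, h.symm x w v]
    ring
  rw [h2] at h1
  unfold rn
  apply Real.abs_le_sqrt
  linarith

/-- upper bound near the line -/
theorem Hr2_upp (h : IsRiem β 2 g) : ∃ K : ℝ, 0 ≤ K ∧ ∀ (B : E → ℝ),
    (∀ x y, B y - B x ≤ fd (rn g) x y) → ∀ (Z : ℝ → E) (v : E), (∀ s t, fd (rn g) (Z s) (Z t) = |s - t|) →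
    (∀ s t, B (Z t) - B (Z s) = t - s) → HasDerivAt Z v 0 →
    ∀ y, ‖y - Z 0‖ ≤ 1 →
      B y - B (Z 0) - g (Z 0) v (y - Z 0) ≤ K * ‖y - Z 0‖ ^ 2 := by
  obtain ⟨mF, MF, m, ht⟩ := h.tl
  obtain ⟨l', lx', lu', Λ, hc⟩ := ht.exists_cut (1 / mF + 1)
  have hΛ : 1 ≤ Λ := hc.cl.Λ_ge
  have hmF : 0 < mF := ht.fins.mF_pos
  refine ⟨4 * Λ, by linarith, ?_⟩
  intro B hB Z v hZ hBZ hv y hy
  obtain ⟨V, hVc, hVd, hV1, hp⟩ := h.line hZ
  have hv0 : V 0 = v := (hVd 0).unique hv
  have hVb : ∀ t, ‖V t‖ ≤ 1 / mF := by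
    intro t
    have h1 := ht.fins.low (Z t) (V t)
    have h2 : rn g (Z t) (V t) = 1 := by
      unfold rn
      rw [hV1, Real.sqrt_one]
    rw [h2] at h1
    rw [le_div_iff₀ hmF]
    linarith
  obtain ⟨w, hw⟩ : ∃ w, w = y - Z 0 := ⟨_, rfl⟩
  rw [← hw] at hy ⊢
  have hZc : Continuous Z := continuous_iff_continuousAt.2 fun t => (hVd t).continuousAt
  have hadm : Adm (fun t => V t + w) :=
    ⟨(hVc.add continuous_const).stronglyMeasurable, 1 / mF + 1, fun t =>
      (norm_add_le _ _).trans (add_le_add (hVb t) hy)⟩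
  have htr : ∀ t, traj (-1) (Z (-1)) (fun t => V t + w) t = Z t + (1 + t) • w := by
    intro t
    unfold traj
    rw [intervalIntegral.integral_add (hVc.intervalIntegrable _ _)
      (continuous_const.intervalIntegrable _ _),
      intervalIntegral.integral_eq_sub_of_hasDerivAt (fun s _ => hVd s)
        (hVc.intervalIntegrable _ _), intervalIntegral.integral_const]
    have : (t - -1 : ℝ) = 1 + t := by ring
    rw [this]
    abel
  have hend : traj (-1) (Z (-1)) (fun t => V t + w) 0 = y := by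
    rw [htr, hw]
    simp
  have hk := fd_sq_le ht.fins (t := -1) (t' := 0) (by norm_num) (Z (-1)) hadm
  rw [hend] at hk
  -- the pointwise estimate
  have hpt : ∀ t ∈ Icc (-1 : ℝ) 0,
      rn g (traj (-1) (Z (-1)) (fun t => V t + w) t) (V t + w) ^ 2 ≤
      1 + 2 * (g (Z t) (V t) w + (1 + t) * (fderiv ℝ g (Z t) w (V t) (V t) / 2)) +
        8 * Λ * ‖w‖ ^ 2 := by
    intro t htt
    rw [htr, h.sq]
    have hb1 : ‖V t + w‖ ≤ 1 / mF + 1 := (norm_add_le _ _).trans (add_le_add (hVb t) hy)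
    have hb2 : ‖V t‖ ≤ 1 / mF + 1 := (hVb t).trans (by linarith)
    have h1 := hc.cl.tay (Z t) (V t) (Z t + (1 + t) • w) (V t + w) t
    have e1 : Z t + (1 + t) • w - Z t = (1 + t) • w := by abel
    have e2 : V t + w - V t = w := by abel
    rw [hc.eq _ _ _ hb1, hc.eq _ _ _ hb2, hc.equ _ _ _ hb2, hc.eqx _ _ _ hb2, e1, e2, h.gu_eq,
      inner_smul_right, h.gx_eq, norm_smul, Real.norm_of_nonneg (by linarith [htt.1])] at h1
    have h2 := (abs_le.1 h1).2
    simp only [hV1] at h2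
    have h5 : ((1 + t) * ‖w‖ + ‖w‖) ^ 2 ≤ 4 * ‖w‖ ^ 2 := by
      have h6 : (1 + t) * ‖w‖ + ‖w‖ = (2 + t) * ‖w‖ := by ring
      rw [h6, mul_pow]
      refine mul_le_mul_of_nonneg_right ?_ (by positivity)
      nlinarith [htt.1, htt.2]
    have h7 : Λ * ((1 + t) * ‖w‖ + ‖w‖) ^ 2 ≤ Λ * (4 * ‖w‖ ^ 2) :=
      mul_le_mul_of_nonneg_left h5 (by linarith)
    linarith
  -- the integral
  have hfc := h.smooth.continuous_fderiv (by norm_num)
  have hqc : Continuous fun t => fderiv ℝ g (Z t) w (V t) (V t) / 2 :=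
    ((((hfc.comp hZc).clm_apply continuous_const).clm_apply hVc).clm_apply hVc).div_const 2
  have hgc0 : Continuous g := h.smooth.continuous
  have hpc : Continuous fun t => g (Z t) (V t) w :=
    ((hgc0.comp hZc).clm_apply hVc).clm_apply continuous_const
  have hgd : ∀ t, HasDerivAt (fun s => (1 + s) * g (Z s) (V s) w)
      (g (Z t) (V t) w + (1 + t) * (fderiv ℝ g (Z t) w (V t) (V t) / 2)) t := by
    intro t
    have h1 : HasDerivAt (fun s : ℝ => 1 + s) 1 t := (hasDerivAt_id t).const_add 1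
    have h2 : HasDerivAt (fun s => g (Z s) (V s) w)
        (fderiv ℝ g (Z t) w (V t) (V t) / 2) t := by
      have h3 := (hqc.integral_hasStrictDerivAt 0 t).hasDerivAt.const_add (g (Z 0) (V 0) w)
      have h4 : (fun s => g (Z s) (V s) w) = fun s => g (Z 0) (V 0) w +
          ∫ r in (0 : ℝ)..s, fderiv ℝ g (Z r) w (V r) (V r) / 2 := by
        funext s
        have := hp 0 s w
        linarith
      rw [h4]
      exact h3
    have h3 := h1.mul h2
    rw [one_mul] at h3
    exact h3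
  have hgc : Continuous fun t => g (Z t) (V t) w +
      (1 + t) * (fderiv ℝ g (Z t) w (V t) (V t) / 2) :=
    hpc.add ((continuous_const.add continuous_id).mul hqc)
  have hint : ∫ t in (-1 : ℝ)..0, (g (Z t) (V t) w +
      (1 + t) * (fderiv ℝ g (Z t) w (V t) (V t) / 2)) = g (Z 0) v w := by
    rw [intervalIntegral.integral_eq_sub_of_hasDerivAt (fun s _ => hgd s)
      (hgc.intervalIntegrable _ _), hv0]
    norm_num
  have hcF : Continuous fun p : E × E => rn g p.1 p.2 := ht.fins.cont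
  have hact : ∫ r in (-1 : ℝ)..0, rn g (traj (-1) (Z (-1)) (fun t => V t + w) r) (V r + w) ^ 2 ≤
      1 + 2 * g (Z 0) v w + 8 * Λ * ‖w‖ ^ 2 := by
    have h1 : ∫ r in (-1 : ℝ)..0,
        rn g (traj (-1) (Z (-1)) (fun t => V t + w) r) (V r + w) ^ 2 ≤
        ∫ t in (-1 : ℝ)..0, (1 + 2 * (g (Z t) (V t) w +
          (1 + t) * (fderiv ℝ g (Z t) w (V t) (V t) / 2)) + 8 * Λ * ‖w‖ ^ 2) := by
      refine intervalIntegral.integral_mono_on (by norm_num) ?_ ?_ hpt
      · refine Continuous.intervalIntegrable ?_ _ _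
        simp only [htr]
        have h2 : Continuous fun r : ℝ => (Z r + (1 + r) • w, V r + w) :=
          (hZc.add ((continuous_const.add continuous_id).smul continuous_const)).prodMk
            (hVc.add continuous_const)
        exact (hcF.comp h2).pow 2
      · exact ((continuous_const.add (continuous_const.mul hgc)).add
          continuous_const).intervalIntegrable _ _
    refine h1.trans (le_of_eq ?_)
    have h2 : Continuous fun t => 2 * (g (Z t) (V t) w +
      (1 + t) * (fderiv ℝ g (Z t) w (V t) (V t) / 2)) := continuous_const.mul hgc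
    rw [quad_int h2, intervalIntegral.integral_const_mul, hint]
  obtain ⟨s, hs⟩ : ∃ s, s = g (Z 0) v w + 4 * Λ * ‖w‖ ^ 2 := ⟨_, rfl⟩
  have h8 : fd (rn g) (Z (-1)) y ^ 2 ≤ 1 + 2 * s := by
    rw [hs]
    have e5 : (0 - -1 : ℝ) = 1 := by norm_num
    rw [e5, one_mul] at hk
    linarith
  have h9 : -(1 / 2) ≤ s := by nlinarith [sq_nonneg (fd (rn g) (Z (-1)) y)]
  have h10 : fd (rn g) (Z (-1)) y ≤ 1 + s :=
    abs_le_of_sq_le_sq' (by nlinarith [sq_nonneg s]) (by linarith) |>.2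
  have h11 := hB (Z (-1)) y
  have h12 := hBZ (-1) 0
  linarith

theorem IsRiem.quad (h : IsRiem β 2 g) : ∃ K : ℝ, 0 ≤ K ∧ ∀ (B : E → ℝ),
    (∀ x y, B y - B x ≤ fd (rn g) x y) → ∀ (Z : ℝ → E) (v : E), (∀ s t, fd (rn g) (Z s) (Z t) = |s - t|) →
    (∀ s t, B (Z t) - B (Z s) = t - s) → HasDerivAt Z v 0 →
    ∀ y, |B y - B (Z 0) - g (Z 0) v (y - Z 0)| ≤ K * ‖y - Z 0‖ ^ 2 := by
  obtain ⟨K, hK0, hK⟩ := Hr2_upp h
  obtain ⟨mF, MF, m, hF⟩ := h.rev.rfins
  have hM : 0 ≤ MF := hF.fins.mF_pos.le.trans hF.fins.mF_le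
  refine ⟨max K (2 * MF), le_max_of_le_left hK0, ?_⟩
  intro B hB Z v hZ hBZ hv y
  have hK1 : K * ‖y - Z 0‖ ^ 2 ≤ max K (2 * MF) * ‖y - Z 0‖ ^ 2 :=
    mul_le_mul_of_nonneg_right (le_max_left _ _) (by positivity)
  have hK2 : 2 * MF * ‖y - Z 0‖ ^ 2 ≤ max K (2 * MF) * ‖y - Z 0‖ ^ 2 :=
    mul_le_mul_of_nonneg_right (le_max_right _ _) (by positivity)
  by_cases hy : ‖y - Z 0‖ ≤ 1
  · have h1 := hK B hB Z v hZ hBZ hv y hy
    have h2 := hK (fun x => -B x) (fun x y => by
        have := hB y x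
        rw [hF.fd_symm y x] at this
        linarith) (fun t => Z (-t)) (-v) (fun s t => by
        rw [hZ, abs_sub_comm]
        congr 1
        ring) (fun s t => by
        have := hBZ (-t) (-s)
        linarith) (by
        have h3 : HasDerivAt (fun t : ℝ => -t) (-1) 0 := hasDerivAt_neg 0
        have h4 : HasDerivAt Z v (-(0 : ℝ)) := by simpa using hv
        have h5 := h4.scomp (0 : ℝ) h3
        simpa [Function.comp_def] using h5) y (by simpa using hy)
    simp only [neg_zero, map_neg, neg_apply] at h2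
    rw [abs_le]
    constructor <;> linarith
  · have hy1 : 1 < ‖y - Z 0‖ := not_le.1 hy
    obtain ⟨V, hVc, hVd, hV1, hp⟩ := h.line hZ
    have hv0 : V 0 = v := (hVd 0).unique hv
    have h1 := hB (Z 0) y
    have h2 := hB y (Z 0)
    have h3 := fd_le hF.fins (Z 0) y
    have h4 := fd_le hF.fins y (Z 0)
    rw [norm_sub_rev (Z 0) y] at h4
    have h5 : |g (Z 0) v (y - Z 0)| ≤ MF * ‖y - Z 0‖ := by
      have h6 := hV1 0
      rw [hv0] at h6
      exact (Hr2_cs h h6 _).trans (hF.fins.upp _ _)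
    have h8 := abs_le.1 h5
    have h9 : MF * ‖y - Z 0‖ ≤ MF * ‖y - Z 0‖ ^ 2 := by
      refine mul_le_mul_of_nonneg_left ?_ hM
      nlinarith
    rw [abs_le]
    constructor <;> linarith [h8.1, h8.2]

end Pool.Agent.EscG
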