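import Pool.Agent.EscG.Hr2
import Pool.Agent.EscG.W1

set_option autoImplicit false
set_option linter.unusedSectionVars false

/-!
# EscG geometry, project H, module Hr3: foliation data of a Riemannian metric

The model is W1.lean (`exists_cla`, `Conf.exists_fol`, on main), with `ed ρ` replaced by `fd (rn g)`, `exists_pl` by `RFins.exists_pl` (Fn5; `RFins` of `rn g` for every
basis of the lattice), `ρ² v` by `g x v`, `Conf.quad` by `IsRiem.quad`, `iso_gode_univ` and `gode_unique` by `IsRiem.line`, `IsRiem.line_unique`; `W k x` is the velocity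
at `x` of the closed line of class `k` through `x` (unique because `g x (W k x)` is the derivative of `U k` at `x`). `c_neg`: `U (-k) + U k` has derivative
`g x (W (-k) x + W k x) = 0` (`quad`), so it is constant.
-/

noncomputable section

namespace Pool.Agent.EscG

open MeasureTheory Set Filter Topology Esc EscF _root_.EscG
open scoped ContDiff

variable {E : Type*} [NormedAddCommGroup E] [InnerProductSpace ℝ E] [FiniteDimensional ℝ E]
  {β : Module.Basis (Fin 2) ℝ E} {g : E → E →L[ℝ] E →L[ℝ] ℝ}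

/-! ### other bases -/

theorem Hr3_per {k : WithTop ℕ∞} (h : IsRiem β k g) (n : ℤ × ℤ) (x : E) : g (x + vk β n) = g x := by
  ext v w
  have := W1_int2 (β := β) (f := fun x => g x v w) (a := 0) (b := 0)
    (fun x => by rw [h.per 0 x, add_zero]) (fun x => by rw [h.per 1 x, add_zero]) n x
  simpa using this

theorem SameLat.riem {k : WithTop ℕ∞} (h : IsRiem β k g) {β' : Module.Basis (Fin 2) ℝ E}
    (hs : SameLat β β') : IsRiem β' k g := by
  obtain ⟨p, q, r, s, -, h0, h1⟩ := hs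
  refine ⟨h.smooth, h.symm, h.pos, fun i x => ?_⟩
  fin_cases i
  · have := Hr3_per h (p, q) x
    unfold vk at this
    simp only [Fin.zero_eta, Fin.isValue, h0]
    exact this
  · have := Hr3_per h (r, s) x
    unfold vk at this
    simp only [Fin.mk_one, Fin.isValue, h1]
    exact this

/-! ### classes -/

/-- data of one class: calibrating function `B` with periods `c`, closed minimal lines -/
structure ClaR (β : Module.Basis (Fin 2) ℝ E) (g : E → E →L[ℝ] E →L[ℝ] ℝ) (k : ℤ × ℤ) (s : ℝ)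
    (B : E → ℝ) (c : ℝ × ℝ) : Prop where
  lipB : ∀ x y, B y - B x ≤ fd (rn g) x y
  B0 : ∀ x, B (x + β 0) = B x + c.1
  B1 : ∀ x, B (x + β 1) = B x + c.2
  cs : k.1 * c.1 + k.2 * c.2 = s
  line : ∀ x, ∃ Γ : ℝ → E, Γ 0 = x ∧ (∀ t, Γ (t + s) = Γ t + vk β k) ∧
    ∀ t t', fd (rn g) (Γ t) (Γ t') = |t - t'|
  cal : ∀ Γ : ℝ → E, (∀ t, Γ (t + s) = Γ t + vk β k) →
    (∀ t t', fd (rn g) (Γ t) (Γ t') = |t - t'|) → ∀ t t', B (Γ t') - B (Γ t) = t' - t

theorem exists_claR (h : IsRiem β 2 g)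
    (hall : ∀ β', SameLat β β' → ∀ x y, fd (rn g) x (x + β' 0) = fd (rn g) y (y + β' 0))
    {k : ℤ × ℤ} (hk : Prim k) :
    ∃ (B : E → ℝ) (c : ℝ × ℝ), ClaR β g k (fd (rn g) 0 (vk β k)) B c := by
  obtain ⟨β', hs, h0⟩ := exists_sameLat β hk
  obtain ⟨mF, MF, m, hF⟩ := (SameLat.riem h hs).rev.rfins
  obtain ⟨T, hT⟩ := hF.exists_pl
  have hdisp : ∀ z : ℝ × ℝ, T.d z (z + (1, 0)) = fd (rn g) 0 (vk β k) := by
    intro z
    rw [hT, co_add0, hall β' hs _ 0, zero_add, h0]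
  have hl : T.l = fd (rn g) 0 (vk β k) := by
    unfold Pl.l
    simp only [hdisp]
    exact ciInf_const
  have hD : ∀ z, z ∈ T.D := by
    intro z
    show T.d z (z + (1, 0)) = T.l
    rw [hdisp, hl]
  obtain ⟨U, V, ap, am, hUV⟩ := Pl.exists_UV T
  obtain ⟨p, q, r, s, hdet, e0, e1⟩ := hs
  have hdetR : (p : ℝ) * s - q * r = 1 := by exact_mod_cast hdet
  have hB0 : ∀ x, U (ic β' (x + β' 0)) = U (ic β' x) + fd (rn g) 0 (vk β k) := by
    intro x
    rw [ic_add0, hUV.subU.2, hl]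
  have hB1 : ∀ x, U (ic β' (x + β' 1)) = U (ic β' x) + ap := by
    intro x
    rw [ic_add1, hUV.gU]
  have hkey := fun kk x => W1_int2 (β := β') (f := fun x => U (ic β' x)) hB0 hB1 kk x
  have f0 : β 0 = vk β' (s, -q) := by
    unfold vk
    rw [e0, e1]
    push_cast
    simp only [smul_add, smul_smul, neg_mul, neg_smul]
    have a1 : ((s : ℝ) * p) • β 0 + -(((q : ℝ) * r) • β 0) = β 0 := by
      rw [← sub_eq_add_neg, ← sub_smul, show (s : ℝ) * p - q * r = 1 by linarith, one_smul]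
    have a2 : ((s : ℝ) * q) • β 1 + -(((q : ℝ) * s) • β 1) = 0 := by
      rw [mul_comm (s : ℝ) q]; abel
    calc β 0 = (((s : ℝ) * p) • β 0 + -(((q : ℝ) * r) • β 0)) +
          (((s : ℝ) * q) • β 1 + -(((q : ℝ) * s) • β 1)) := by rw [a1, a2, add_zero]
      _ = _ := by abel
  have f1 : β 1 = vk β' (-r, p) := by
    unfold vk
    rw [e0, e1]
    push_cast
    simp only [smul_add, smul_smul, neg_mul, neg_smul]
    have a1 : ((p : ℝ) * s) • β 1 + -(((r : ℝ) * q) • β 1) = β 1 := by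
      rw [← sub_eq_add_neg, ← sub_smul, show (p : ℝ) * s - r * q = 1 by linarith, one_smul]
    have a2 : ((p : ℝ) * r) • β 0 + -(((r : ℝ) * p) • β 0) = 0 := by
      rw [mul_comm (p : ℝ) r]; abel
    calc β 1 = (((p : ℝ) * s) • β 1 + -(((r : ℝ) * q) • β 1)) +
          (((p : ℝ) * r) • β 0 + -(((r : ℝ) * p) • β 0)) := by rw [a1, a2, add_zero]
      _ = _ := by abel
  have hc0 : ∀ x, U (ic β' (x + β 0)) =
      U (ic β' x) + ((s : ℝ) * fd (rn g) 0 (vk β k) + ((-q : ℤ) : ℝ) * ap) := by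
    intro x
    have := hkey (s, -q) x
    rwa [← f0] at this
  have hc1 : ∀ x, U (ic β' (x + β 1)) =
      U (ic β' x) + (((-r : ℤ) : ℝ) * fd (rn g) 0 (vk β k) + (p : ℝ) * ap) := by
    intro x
    have := hkey (-r, p) x
    rwa [← f1] at this
  refine ⟨fun x => U (ic β' x), ((s : ℝ) * fd (rn g) 0 (vk β k) + ((-q : ℤ) : ℝ) * ap,
    ((-r : ℤ) : ℝ) * fd (rn g) 0 (vk β k) + (p : ℝ) * ap), ?_, hc0, hc1, ?_, ?_, ?_⟩
  · intro x y
    have := hUV.subU.1 (ic β' x) (ic β' y)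
    rwa [hT, co_ic, co_ic] at this
  · have a1 := W1_int2 (β := β) (f := fun x => U (ic β' x)) hc0 hc1 k 0
    have a2 := hB0 0
    rw [h0] at a2
    linarith
  · intro x
    obtain ⟨G, hG, hG0⟩ := T.exists_cl (hD (ic β' x))
    refine ⟨fun t => co β' (G t), ?_, ?_, ?_⟩
    · show co β' (G 0) = x
      rw [hG0, co_ic]
    · intro t
      show co β' (G (t + fd (rn g) 0 (vk β k))) = co β' (G t) + vk β k
      rw [← hl, hG.2, co_add0, h0]
    · intro t t'
      show fd (rn g) (co β' (G t)) (co β' (G t')) = _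
      rw [← hT]
      exact hG.1 t t'
  · intro Γ hper hiso t t'
    have hG : T.Cl (fun t => ic β' (Γ t)) := by
      refine ⟨fun s t => ?_, fun t => ?_⟩
      · rw [hT, co_ic, co_ic]
        exact hiso s t
      · show ic β' (Γ (t + T.l)) = ic β' (Γ t) + (1, 0)
        rw [hl, hper, ← h0, ic_add0]
    exact (hG.all U hUV.subU).2 t' (mem_univ _) t (mem_univ _)

/-! ### uniqueness of the derivative -/

theorem Hr3_uniq {B : E → ℝ} {x : E} {p p' : E →L[ℝ] ℝ} {K : ℝ} (hK : 0 ≤ K)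
    (h : ∀ y, |B y - B x - p (y - x)| ≤ K * ‖y - x‖ ^ 2)
    (h' : ∀ y, |B y - B x - p' (y - x)| ≤ K * ‖y - x‖ ^ 2) : p = p' := by
  have h1 := W1_uniq (B := B) (x := x) (p := (InnerProductSpace.toDual ℝ E).symm p)
    (p' := (InnerProductSpace.toDual ℝ E).symm p') hK
    (by simpa only [InnerProductSpace.toDual_symm_apply] using h)
    (by simpa only [InnerProductSpace.toDual_symm_apply] using h')
  exact (InnerProductSpace.toDual ℝ E).symm.injective h1

theorem Hr3_inj {k : WithTop ℕ∞} (h : IsRiem β k g) {x v w : E} (hvw : g x v = g x w) : v = w := by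
  by_contra hne
  have h1 := h.pos x (v - w) (sub_ne_zero.2 hne)
  have h2 : g x (v - w) = 0 := by rw [map_sub, hvw, sub_self]
  rw [h2] at h1
  exact lt_irrefl (0 : ℝ) h1

/-- a line cannot be closed in two different classes -/
theorem Hr3_two {d : E → E → ℝ} {mF : ℝ} (hm : 0 < mF) (hlow : ∀ x y, mF * ‖x - y‖ ≤ d x y)
    {Γ : ℝ → E} {k k' : ℤ × ℤ} {s s' : ℝ} (hs : 0 < s) (hs' : 0 < s')
    (hiso : ∀ t t', d (Γ t) (Γ t') = |t - t'|) (hper : ∀ t, Γ (t + s) = Γ t + vk β k)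
    (hper' : ∀ t, Γ (t + s') = Γ t + vk β k') : dt k k' = 0 := by
  by_contra hne
  set φ : E →ₗ[ℝ] ℝ := (k'.2 : ℝ) • β.coord 0 - (k'.1 : ℝ) • β.coord 1 with hφ
  have hφc : Continuous φ := φ.continuous_of_finiteDimensional
  set φc : E →L[ℝ] ℝ := ⟨φ, hφc⟩ with hφc_
  have hval : ∀ n m : ℝ, φc (n • vk β k - m • vk β k') = n * (dt k k' : ℝ) := by
    intro n m
    show φ (n • vk β k - m • vk β k') = _
    have e1 : φ (vk β k) = (dt k k' : ℝ) := by
      simp only [hφ, LinearMap.sub_apply, LinearMap.smul_apply, Module.Basis.coord_apply, smul_eq_mul]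
      unfold vk
      rw [W1_rep0, W1_rep1]
      unfold dt
      push_cast
      ring
    have e2 : φ (vk β k') = 0 := by
      simp only [hφ, LinearMap.sub_apply, LinearMap.smul_apply, Module.Basis.coord_apply, smul_eq_mul]
      unfold vk
      rw [W1_rep0, W1_rep1]
      ring
    rw [map_sub, map_smul, map_smul, e1, e2]
    simp
  have hdt : (1 : ℝ) ≤ |(dt k k' : ℝ)| := by
    have : 1 ≤ |dt k k'| := Int.one_le_abs hne
    exact_mod_cast this
  have key : ∀ n : ℕ, (n : ℝ) ≤ ‖φc‖ * (s' / mF) := by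
    intro n
    set m : ℕ := ⌊(n : ℝ) * s / s'⌋₊ with hm
    have hm1 : (m : ℝ) ≤ n * s / s' := Nat.floor_le (by positivity)
    have hm2 : (n : ℝ) * s / s' < m + 1 := Nat.lt_floor_add_one _
    have hd : |(0 + n * s) - (0 + m * s')| ≤ s' := by
      rw [le_div_iff₀ hs'] at hm1
      rw [div_lt_iff₀ hs'] at hm2
      rw [abs_le]
      constructor <;> linarith
    have h1 := hlow (Γ (0 + n * s)) (Γ (0 + m * s'))
    rw [hiso, W1_per_nat hper n 0, W1_per_nat hper' m 0] at h1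
    have e : Γ 0 + (n : ℝ) • vk β k - (Γ 0 + (m : ℝ) • vk β k') =
        (n : ℝ) • vk β k - (m : ℝ) • vk β k' := by abel
    rw [e] at h1
    have h2 : ‖(n : ℝ) • vk β k - (m : ℝ) • vk β k'‖ ≤ s' / mF := by
      rw [le_div_iff₀ (by assumption)]
      linarith
    have h3 := φc.le_opNorm ((n : ℝ) • vk β k - (m : ℝ) • vk β k')
    rw [hval, norm_mul, Real.norm_of_nonneg (Nat.cast_nonneg n), Real.norm_eq_abs] at h3
    calc (n : ℝ) ≤ n * |(dt k k' : ℝ)| := le_mul_of_one_le_right (Nat.cast_nonneg n) hdt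
      _ ≤ ‖φc‖ * ‖(n : ℝ) • vk β k - (m : ℝ) • vk β k'‖ := h3
      _ ≤ ‖φc‖ * (s' / mF) := by gcongr
  obtain ⟨n, hn⟩ := exists_nat_gt (‖φc‖ * (s' / mF))
  exact absurd (key n) (not_le.2 hn)

/-- a function with quadratic bound around every point for the zero derivative is constant -/
theorem Hr3_const {f : E → ℝ} {K : ℝ} (h : ∀ x y, |f y - f x| ≤ K * ‖y - x‖ ^ 2) (x y : E) :
    f x = f y := by
  have h1 : ∀ z, HasFDerivAt f (0 : E →L[ℝ] ℝ) z := by
    intro z
    rw [hasFDerivAt_iff_isLittleO_nhds_zero]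
    have h2 : (fun w : E => f (z + w) - f z - (0 : E →L[ℝ] ℝ) w) =O[𝓝 0] fun w => ‖w‖ ^ 2 := by
      refine Asymptotics.IsBigO.of_bound |K| (Eventually.of_forall fun w => ?_)
      have h3 := h z (z + w)
      rw [add_sub_cancel_left] at h3
      rw [Real.norm_eq_abs, Real.norm_of_nonneg (by positivity : (0 : ℝ) ≤ ‖w‖ ^ 2)]
      have e0 : (0 : E →L[ℝ] ℝ) w = 0 := rfl
      rw [e0, sub_zero]
      exact h3.trans (mul_le_mul_of_nonneg_right (le_abs_self K) (by positivity))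
    refine h2.trans_isLittleO ?_
    exact Asymptotics.isLittleO_norm_pow_id one_lt_two
  have h2 : Differentiable ℝ f := fun z => (h1 z).differentiableAt
  exact is_const_of_fderiv_eq_zero h2 (fun z => (h1 z).fderiv) x y

/-! ### the foliation data -/

theorem IsRiem.exists_fol (h : IsRiem β 2 g)
    (hall : ∀ β', SameLat β β' → ∀ x y, fd (rn g) x (x + β' 0) = fd (rn g) y (y + β' 0)) :
    ∃ K σ U c W, FolR β g K σ U c W := by
  obtain ⟨K, hK, hquad⟩ := h.quad
  obtain ⟨mF, MF, m, hF⟩ := h.rev.rfins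
  have hlow : ∀ x y, mF * ‖x - y‖ ≤ fd (rn g) x y := by
    intro x y
    rw [norm_sub_rev]
    exact le_fd hF.fins x y
  have hdisp : ∀ k, Prim k → ∀ x, fd (rn g) x (x + vk β k) = fd (rn g) 0 (vk β k) := by
    intro k hk x
    obtain ⟨β', hs, h0⟩ := exists_sameLat β hk
    rw [← h0, hall β' hs x 0, zero_add]
  have hH : ∀ k, Prim k → ∃ (B : E → ℝ) (c : ℝ × ℝ), ClaR β g k (fd (rn g) 0 (vk β k)) B c :=
    fun k hk => exists_claR h hall hk
  choose! U c hU using hH
  set σ : ℤ × ℤ → ℝ := fun k => fd (rn g) 0 (vk β k) with hσ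
  have hσpos : ∀ k, Prim k → 0 < σ k := by
    intro k hk
    have h1 := hlow 0 (vk β k)
    rw [zero_sub, norm_neg] at h1
    exact lt_of_lt_of_le (mul_pos hF.fins.mF_pos (norm_pos_iff.2 (W1_vk_ne β hk))) h1
  have hσneg : ∀ k, Prim k → σ (-k) = σ k := by
    intro k hk
    have h1 := hdisp (-k) hk.neg (vk β k)
    rw [W1_vk_neg, add_neg_cancel] at h1
    show fd (rn g) 0 (vk β (-k)) = fd (rn g) 0 (vk β k)
    rw [W1_vk_neg, ← h1]
    exact hF.fd_symm _ _
  -- lines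
  have hL : ∀ k, Prim k → ∀ x, ∃ p : E, ∃ (Γ v : ℝ → E), Γ 0 = x ∧
      (∀ t, Γ (t + σ k) = Γ t + vk β k) ∧ (∀ t t', fd (rn g) (Γ t) (Γ t') = |t - t'|) ∧
      (∀ t, HasDerivAt Γ (v t) t) ∧ (∀ t, g (Γ t) (v t) (v t) = 1) ∧ p = v 0 := by
    intro k hk x
    obtain ⟨Γ, h0, hper, hiso⟩ := (hU k hk).line x
    obtain ⟨v, -, hv, hn, -⟩ := h.line hiso
    exact ⟨_, Γ, v, h0, hper, hiso, hv, hn, rfl⟩
  choose! W hW using hL
  -- the derivative of `U k` along a closed line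
  have hgrad : ∀ k, Prim k → ∀ (Γ : ℝ → E), (∀ t, Γ (t + σ k) = Γ t + vk β k) →
      (∀ t t', fd (rn g) (Γ t) (Γ t') = |t - t'|) → ∀ (t : ℝ) (w : E), HasDerivAt Γ w t →
      ∀ y, |U k y - U k (Γ t) - g (Γ t) w (y - Γ t)| ≤ K * ‖y - Γ t‖ ^ 2 := by
    intro k hk Γ hper hiso t w hw y
    have h1 := hquad (U k) (hU k hk).lipB (fun r => Γ (t + r)) w (fun a b => by
      rw [hiso]; congr 1; ring) (fun a b => by
      have := (hU k hk).cal Γ hper hiso (t + a) (t + b)
      rw [this]; ring) (by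
      have h2 : HasDerivAt Γ w (t + 0) := by rwa [add_zero]
      exact h2.comp_const_add t 0) y
    simp only [add_zero] at h1
    exact h1
  have hPgrad : ∀ k, Prim k → ∀ x y, |U k y - U k x - g x (W k x) (y - x)| ≤ K * ‖y - x‖ ^ 2 := by
    intro k hk x y
    obtain ⟨Γ, v, h0, hper, hiso, hv, hn, hp⟩ := hW k hk x
    have h1 := hgrad k hk Γ hper hiso 0 (v 0) (hv 0) y
    rw [h0] at h1
    rw [hp]
    exact h1
  have hPeq : ∀ k, Prim k → ∀ (Γ : ℝ → E), (∀ t, Γ (t + σ k) = Γ t + vk β k) →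
      (∀ t t', fd (rn g) (Γ t) (Γ t') = |t - t'|) → ∀ (t : ℝ) (w : E), HasDerivAt Γ w t →
      W k (Γ t) = w := by
    intro k hk Γ hper hiso t w hw
    exact Hr3_inj h (Hr3_uniq hK (hPgrad k hk (Γ t)) (hgrad k hk Γ hper hiso t w hw))
  have hWneg : ∀ k, Prim k → ∀ x, W (-k) x = -W k x := by
    intro k hk x
    obtain ⟨Γ, v, h0, hper, hiso, hv, hn, hp⟩ := hW k hk x
    have hrev : HasDerivAt (fun t => Γ (-t)) (-(v 0)) 0 := by
      have h1 : HasDerivAt Γ (v 0) (-(0 : ℝ)) := by rw [neg_zero]; exact hv 0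
      have h2 := HasDerivAt.scomp (𝕜 := ℝ) (0 : ℝ) h1 (hasDerivAt_neg (0 : ℝ))
      have h3 : HasDerivAt (Γ ∘ Neg.neg) (-(v 0)) 0 := by simpa using h2
      exact h3
    have h1 := hPeq (-k) hk.neg (fun t => Γ (-t)) (fun t => by
      have h2 := hper (-(t + σ k))
      have e : -(t + σ k) + σ k = -t := by ring
      rw [e] at h2
      show Γ (-(t + σ (-k))) = Γ (-t) + vk β (-k)
      rw [hσneg k hk, W1_vk_neg, h2]
      abel) (fun t t' => by
      show fd (rn g) (Γ (-t)) (Γ (-t')) = _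
      rw [hiso, ← abs_neg]
      congr 1
      ring) 0 (-(v 0)) hrev
    simp only [neg_zero, h0] at h1
    rw [h1, hp]
  refine ⟨K, σ, U, c, W, h, hK, fun k hk => ⟨(hU k hk).B0, (hU k hk).B1, hPgrad k hk, ?_⟩, hσpos,
    hσneg, ⟨MF, ?_⟩, fun k hk => (hU k hk).cs, ?_, hWneg, ?_, ?_, ?_⟩
  · intro x
    obtain ⟨Γ, v, h0, hper, hiso, hv, hn, hp⟩ := hW k hk x
    have h1 := hn 0
    rw [h0] at h1
    rw [hp]
    exact h1
  · -- upper bound of sigma
    intro k hk
    have h1 := fd_le hF.fins 0 (vk β k)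
    rwa [sub_zero] at h1
  · intro k k' hk hk'
    have h1 := W1_int2 (hU k hk).B0 (hU k hk).B1 k' 0
    have h2 := (hU k hk).lipB 0 (0 + vk β k')
    rw [h1, hdisp k' hk' 0] at h2
    show _ ≤ fd (rn g) 0 (vk β k')
    linarith
  · -- the periods of the opposite class
    intro k hk
    have h1 : ∀ x y, |(U (-k) y + U k y) - (U (-k) x + U k x)| ≤ (2 * K) * ‖y - x‖ ^ 2 := by
      intro x y
      have a1 := abs_le.1 (hPgrad k hk x y)
      have a2 := abs_le.1 (hPgrad (-k) hk.neg x y)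
      have e1 : g x (W (-k) x) (y - x) = -g x (W k x) (y - x) := by
        rw [hWneg k hk x, map_neg]
        rfl
      rw [e1] at a2
      rw [abs_le]
      constructor <;> linarith [a1.1, a1.2, a2.1, a2.2]
    have h2 := fun x y => Hr3_const (f := fun x => U (-k) x + U k x) h1 x y
    have h3 := h2 0 (0 + β 0)
    have h4 := h2 0 (0 + β 1)
    simp only [(hU k hk).B0, (hU k hk).B1, (hU (-k) hk.neg).B0, (hU (-k) hk.neg).B1] at h3 h4
    refine Prod.ext ?_ ?_
    · rw [Prod.fst_neg]; linarith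
    · rw [Prod.snd_neg]; linarith
  · intro k hk x
    obtain ⟨Γ, v, h0, hper, hiso, hv, hn, hp⟩ := hW k hk x
    refine ⟨Γ, h0, hper, fun t => ?_⟩
    rw [hPeq k hk Γ hper hiso t (v t) (hv t)]
    exact hv t
  · intro k k' hk hk' hd x heq
    obtain ⟨Γ, v, h0, hper, hiso, hv, hn, hp⟩ := hW k hk x
    obtain ⟨Γ', v', h0', hper', hiso', hv', hn', hp'⟩ := hW k' hk' x
    have hvv : v 0 = v' 0 := by rw [← hp, ← hp', heq]
    have hEq : ∀ t, Γ t = Γ' t :=
      h.line_unique hiso hiso' (h0.trans h0'.symm) (by rw [(hv 0).deriv, (hv' 0).deriv, hvv])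
    refine hd (Hr3_two hF.fins.mF_pos hlow (hσpos k hk) (hσpos k' hk') hiso hper fun t => ?_)
    rw [hEq, hEq, hper']

end Pool.Agent.EscG
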