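import Pool.Agent.EscG.Hr0
import Pool.Agent.EscG.W4

set_option autoImplicit false
set_option linter.unusedSectionVars false

/-!
# EscG geometry, project H, module Hr4: regularity of the forms, neighbours have almost the same direction

`CF.lip`: three points `x`, `y`, `y + v`, `‖v‖ = ‖x - y‖`. `Hr4_lipW`: `W x` is the solution of `g x (W x) = p x`, `p` Lipschitz,
`g` Lipschitz with `g x v v ≥ m² ‖v‖²`:
`m² ‖W y - W x‖² ≤ g y (W y - W x) (W y - W x) = (p y - p x) (W y - W x) - (g y (W x) - g x (W x)) (W y - W x)`.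
`small`: along the curve `Γ` of class `k'` through `x`, `t - U k (Γ t)` has derivative `g (W k - W k', W k - W k') / 2`
and grows over a period by the excess `σ k' - c_k(k')`, at most `C / (|k.1| + |k.2|)`.
-/

noncomputable section

namespace Pool.Agent.EscG

open MeasureTheory Set Filter Topology Esc EscF _root_.EscG
open scoped ContDiff

variable {E : Type*} [NormedAddCommGroup E] [InnerProductSpace ℝ E] [FiniteDimensional ℝ E]
  {β : Module.Basis (Fin 2) ℝ E} {g : E → E →L[ℝ] E →L[ℝ] ℝ} {K : ℝ} {σ : ℤ × ℤ → ℝ}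
  {U : ℤ × ℤ → E → ℝ} {c : ℤ × ℤ → ℝ × ℝ} {W : ℤ × ℤ → E → E}

theorem CF.lip (hK : 0 ≤ K) {a : ℝ × ℝ} {u : E → ℝ} {w : E → E} (h : CF β g K a u w) (x y : E) :
    ‖g x (w x) - g y (w y)‖ ≤ 6 * K * ‖x - y‖ := by
  rcases eq_or_ne x y with rfl | hxy
  · simp
  have hr : 0 < ‖x - y‖ := norm_pos_iff.2 (sub_ne_zero.2 hxy)
  refine ContinuousLinearMap.opNorm_le_bound _ (by positivity) fun v => ?_
  rcases eq_or_ne v 0 with rfl | hv
  · simp
  have hvp : 0 < ‖v‖ := norm_pos_iff.2 hv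
  set r := ‖x - y‖ with hr_def
  set z : E := (r / ‖v‖) • v with hz
  have hzn : ‖z‖ = r := by
    rw [hz, norm_smul, Real.norm_of_nonneg (by positivity), div_mul_cancel₀ _ hvp.ne']
  have q1 := h.quad y (y + z)
  have q2 := h.quad x (y + z)
  have q3 := h.quad x y
  have e1 : y + z - y = z := by abel
  rw [e1, hzn] at q1
  have hyx : ‖y - x‖ = r := norm_sub_rev _ _
  rw [hyx] at q3
  have n2 : ‖y + z - x‖ ≤ 2 * r := by
    have e2 : y + z - x = (y - x) + z := by abel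
    rw [e2]
    have h2 := norm_add_le (y - x) z
    rw [hyx, hzn] at h2
    linarith
  have n2' : ‖y + z - x‖ ^ 2 ≤ 4 * r ^ 2 := by
    have h2 := pow_le_pow_left₀ (norm_nonneg (y + z - x)) n2 2
    have e2 : (2 * r) ^ 2 = 4 * r ^ 2 := by ring
    rw [e2] at h2
    exact h2
  have i2 : g x (w x) (y + z - x) = g x (w x) (y - x) + g x (w x) z := by
    rw [← map_add]
    congr 1
    abel
  rw [i2] at q2
  have q2' := q2.trans (mul_le_mul_of_nonneg_left n2' hK)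
  have e4 : K * (4 * r ^ 2) = 4 * (K * r ^ 2) := by ring
  rw [e4] at q2'
  have h3 : |g x (w x) z - g y (w y) z| ≤ 6 * (K * r ^ 2) := by
    rw [abs_le] at q1 q2' q3 ⊢
    constructor <;> linarith [q1.1, q1.2, q2'.1, q2'.2, q3.1, q3.2]
  have e5 : g x (w x) z - g y (w y) z = r / ‖v‖ * ((g x (w x) - g y (w y)) v) := by
    rw [hz, map_smul, map_smul, smul_eq_mul, smul_eq_mul, _root_.sub_apply]
    ring
  rw [e5, abs_mul, abs_of_pos (by positivity : 0 < r / ‖v‖)] at h3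
  rw [Real.norm_eq_abs]
  have e6 : r / ‖v‖ * (6 * K * r * ‖v‖) = 6 * (K * r ^ 2) := by
    field_simp
  rw [← e6] at h3
  exact le_of_mul_le_mul_left h3 (by positivity)

/-- a periodic map of class `C²` is Lipschitz -/
theorem Hr4_lipF (β : Module.Basis (Fin 2) ℝ E) {F : Type*} [NormedAddCommGroup F]
    [NormedSpace ℝ F] {f : E → F} (hf : ContDiff ℝ 2 f) (hp : ∀ i x, f (x + β i) = f x) :
    ∃ L : ℝ, 0 ≤ L ∧ ∀ x y, ‖f x - f y‖ ≤ L * ‖x - y‖ := by
  obtain ⟨r, hr⟩ := Hr0_cell β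
  have hd : Differentiable ℝ f := hf.differentiable (by norm_num)
  have hc : Continuous (fderiv ℝ f) := hf.continuous_fderiv (by norm_num)
  have hcn : Continuous fun x => ‖fderiv ℝ f x‖ := hc.norm
  obtain ⟨L, hL⟩ := (isCompact_closedBall (0 : E) r).bddAbove_image hcn.continuousOn
  have hper : ∀ i x, ‖fderiv ℝ f (x + β i)‖ = ‖fderiv ℝ f x‖ := by
    intro i x
    have e : (fun y => f (y + β i)) = f := funext fun y => hp i y
    have h1 := fderiv_comp_add_right (𝕜 := ℝ) (f := f) (x := x) (β i)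
    rw [e] at h1
    rw [h1]
  have hb : ∀ x, ‖fderiv ℝ f x‖ ≤ max L 0 := by
    intro x
    obtain ⟨x', hx', hf'⟩ := hr x
    rw [hf' (fun y => ‖fderiv ℝ f y‖) hper]
    exact (hL ⟨x', by simpa using hx', rfl⟩).trans (le_max_left _ _)
  refine ⟨max L 0, le_max_right _ _, fun x y => ?_⟩
  exact convex_univ.norm_image_sub_le_of_norm_fderiv_le (𝕜 := ℝ) (fun z _ => hd z)
    (fun z _ => hb z) (mem_univ y) (mem_univ x)

/-- a metric is Lipschitz -/
theorem Hr4_lipg (hg : IsRiem β 2 g) : ∃ L : ℝ, 0 ≤ L ∧ ∀ x y, ‖g x - g y‖ ≤ L * ‖x - y‖ :=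
  Hr4_lipF β hg.smooth hg.per

/-- bound of a vector of length one -/
theorem Hr4_bd {m : ℝ} (hm : 0 < m) (hb : ∀ x v, m ^ 2 * ‖v‖ ^ 2 ≤ g x v v) {x v : E}
    (h1 : g x v v = 1) : ‖v‖ ≤ m⁻¹ := by
  have h2 := hb x v
  rw [h1, ← mul_pow] at h2
  have h3 : m * ‖v‖ ≤ 1 := by
    by_contra hcon
    rw [not_le] at hcon
    have := one_lt_pow₀ hcon two_ne_zero
    linarith
  rw [← one_div, le_div_iff₀ hm]
  linarith

/-- the directions are Lipschitz, uniformly -/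
theorem Hr4_lipW (hg : IsRiem β 2 g) (hK : 0 ≤ K) : ∃ L : ℝ, 0 ≤ L ∧
    ∀ (a : ℝ × ℝ) (u : E → ℝ) (w : E → E), CF β g K a u w → ∀ x y, ‖w x - w y‖ ≤ L * ‖x - y‖ := by
  obtain ⟨m, M, hm, hM, hb⟩ := hg.bounds
  obtain ⟨Lg, hLg0, hLg⟩ := Hr4_lipg hg
  refine ⟨(m ^ 2)⁻¹ * (6 * K + Lg * m⁻¹), by positivity, ?_⟩
  intro a u w h x y
  rcases eq_or_ne (w x - w y) 0 with h0 | h0
  · rw [h0, norm_zero]; positivity
  have hD : 0 < ‖w x - w y‖ := norm_pos_iff.2 h0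
  set D := w x - w y with hDd
  have h1 := (hb x D).1
  have h2 : g x D D = (g x (w x) - g y (w y)) D - (g x - g y) (w y) D := by
    have e : g x D = g x (w x) - g x (w y) := by rw [hDd, map_sub]
    rw [e]
    simp only [_root_.sub_apply]
    ring
  have h3 : |(g x (w x) - g y (w y)) D| ≤ 6 * K * ‖x - y‖ * ‖D‖ :=
    ((g x (w x) - g y (w y)).le_opNorm D).trans
      (mul_le_mul_of_nonneg_right (h.lip hK x y) (norm_nonneg _))
  have hwy : ‖w y‖ ≤ m⁻¹ := Hr4_bd hm (fun x v => (hb x v).1) (h.unit y)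
  have h4 : |(g x - g y) (w y) D| ≤ Lg * ‖x - y‖ * m⁻¹ * ‖D‖ := by
    refine ((g x - g y).le_opNorm₂ (w y) D).trans ?_
    have h5 := hLg x y
    gcongr
  rw [abs_le] at h3 h4
  have h5 : m ^ 2 * ‖D‖ ^ 2 ≤ (6 * K + Lg * m⁻¹) * ‖x - y‖ * ‖D‖ := by
    have e : (6 * K + Lg * m⁻¹) * ‖x - y‖ * ‖D‖ =
      6 * K * ‖x - y‖ * ‖D‖ + Lg * ‖x - y‖ * m⁻¹ * ‖D‖ := by ring
    rw [e]
    linarith [h3.2, h4.1]
  have h6 : m ^ 2 * ‖D‖ ≤ (6 * K + Lg * m⁻¹) * ‖x - y‖ := by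
    have e : m ^ 2 * ‖D‖ ^ 2 = m ^ 2 * ‖D‖ * ‖D‖ := by ring
    rw [e] at h5
    exact le_of_mul_le_mul_right h5 hD
  have e : (m ^ 2)⁻¹ * (6 * K + Lg * m⁻¹) * ‖x - y‖ =
    (m ^ 2)⁻¹ * ((6 * K + Lg * m⁻¹) * ‖x - y‖) := by ring
  rw [e, le_inv_mul_iff₀ (by positivity)]
  exact h6

theorem CF.cont (hg : IsRiem β 2 g) (hK : 0 ≤ K) {a : ℝ × ℝ} {u : E → ℝ} {w : E → E}
    (h : CF β g K a u w) : Continuous w := by
  obtain ⟨L, hL, hl⟩ := Hr4_lipW hg hK
  have h1 : LipschitzWith ⟨L, hL⟩ w := LipschitzWith.of_dist_le_mul fun x y => by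
    rw [dist_eq_norm, dist_eq_norm]
    exact hl a u w h x y
  exact h1.continuous

/-- additive quasi-periodicity under integer multiples -/
private lemma hr4_int {f : E → ℝ} {v : E} {a : ℝ} (hf : ∀ x, f (x + v) = f x + a) (n : ℤ) (x : E) :
    f (x + (n : ℝ) • v) = f x + n * a := by
  induction n using Int.induction_on with
  | zero => simp
  | succ i ih =>
    have e : x + (((i : ℤ) + 1 : ℤ) : ℝ) • v = (x + ((i : ℤ) : ℝ) • v) + v := by
      push_cast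
      rw [add_smul, one_smul]
      abel
    rw [e, hf, ih]
    push_cast
    ring
  | pred i ih =>
    have e : x + ((-(i : ℤ) : ℤ) : ℝ) • v = (x + ((-(i : ℤ) - 1 : ℤ) : ℝ) • v) + v := by
      push_cast
      rw [sub_smul, one_smul]
      abel
    rw [e, hf] at ih
    push_cast at ih ⊢
    linarith

theorem Hr4_vk {a : ℝ × ℝ} {u : E → ℝ} {w : E → E} (h : CF β g K a u w) (j : ℤ × ℤ) (x : E) :
    u (x + vk β j) = u x + (j.1 * a.1 + j.2 * a.2) := by
  have e : x + vk β j = (x + (j.1 : ℝ) • β 0) + (j.2 : ℝ) • β 1 := by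
    unfold vk; abel
  rw [e, hr4_int h.U1 j.2, hr4_int h.U0 j.1]
  ring

/-- the basis vectors are independent: lower bound -/
private lemma hr4_low (β : Module.Basis (Fin 2) ℝ E) : ∃ a : ℝ, 0 < a ∧ ∀ k : ℤ × ℤ,
    a * (|(k.1 : ℝ)| + |(k.2 : ℝ)|) ≤ ‖vk β k‖ := by
  obtain ⟨C, hC, hCb⟩ : ∃ C : ℝ, 0 < C ∧ ∀ v : E, ‖β.equivFun v‖ ≤ C * ‖v‖ := by
    have hc : Continuous β.equivFun := LinearMap.continuous_of_finiteDimensional
      (β.equivFun : E →ₗ[ℝ] (Fin 2 → ℝ))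
    let L : E →L[ℝ] (Fin 2 → ℝ) := ⟨(β.equivFun : E →ₗ[ℝ] (Fin 2 → ℝ)), hc⟩
    refine ⟨‖L‖ + 1, by positivity, fun v => ?_⟩
    have h1 : ‖L v‖ ≤ ‖L‖ * ‖v‖ := L.le_opNorm v
    have h2 : ‖L‖ * ‖v‖ ≤ (‖L‖ + 1) * ‖v‖ := by
      apply mul_le_mul_of_nonneg_right _ (norm_nonneg v)
      linarith
    exact h1.trans h2
  refine ⟨1 / (2 * C), by positivity, fun k => ?_⟩
  have hk0 : β.equivFun (vk β k) 0 = (k.1 : ℝ) := by
    unfold vk
    simp
  have hk1 : β.equivFun (vk β k) 1 = (k.2 : ℝ) := by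
    unfold vk
    simp
  have h1 : |(k.1 : ℝ)| ≤ C * ‖vk β k‖ := by
    have h3 := norm_le_pi_norm (β.equivFun (vk β k)) 0
    rw [hk0, Real.norm_eq_abs] at h3
    exact h3.trans (hCb _)
  have h2 : |(k.2 : ℝ)| ≤ C * ‖vk β k‖ := by
    have h3 := norm_le_pi_norm (β.equivFun (vk β k)) 1
    rw [hk1, Real.norm_eq_abs] at h3
    exact h3.trans (hCb _)
  rw [one_div, inv_mul_le_iff₀ (by positivity)]
  linarith

/-- `u` is differentiable -/
theorem Hr4_fd {a : ℝ × ℝ} {u : E → ℝ} {w : E → E} (h : CF β g K a u w) (x : E) :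
    HasFDerivAt u (g x (w x)) x := by
  rw [hasFDerivAt_iff_isLittleO_nhds_zero]
  have h1 : (fun z : E => u (x + z) - u x - (g x (w x)) z) =O[𝓝 0]
      (fun z : E => ‖z‖ ^ 2) := by
    refine Asymptotics.IsBigO.of_bound K (Eventually.of_forall fun z => ?_)
    have h2 := h.quad x (x + z)
    rw [add_sub_cancel_left] at h2
    rw [Real.norm_eq_abs, Real.norm_of_nonneg (by positivity)]
    exact h2
  exact h1.trans_isLittleO (Asymptotics.isLittleO_norm_pow_id one_lt_two)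

/-- speed of the curves -/
theorem Hr4_speed (h : FolR β g K σ U c W) {m : ℝ} (hm : 0 < m)
    (hb : ∀ x v, m ^ 2 * ‖v‖ ^ 2 ≤ g x v v) {k : ℤ × ℤ} (hk : Prim k) {Γ : ℝ → E}
    (hΓ : ∀ t, HasDerivAt Γ (W k (Γ t)) t) (s t : ℝ) : ‖Γ t - Γ s‖ ≤ m⁻¹ * |t - s| := by
  have hbd : ∀ t, ‖W k (Γ t)‖ ≤ m⁻¹ := fun t => Hr4_bd hm hb ((h.cf k hk).unit _)
  have := Convex.norm_image_sub_le_of_norm_hasDerivWithin_le (f := Γ) (C := m⁻¹) (s := univ)
    (x := s) (y := t) (fun x _ => (hΓ x).hasDerivWithinAt) (fun x _ => hbd x) convex_univ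
    (mem_univ _) (mem_univ _)
  rwa [Real.norm_eq_abs] at this

theorem Hr4_σlow (h : FolR β g K σ U c W) {m : ℝ} (hm : 0 < m)
    (hb : ∀ x v, m ^ 2 * ‖v‖ ^ 2 ≤ g x v v) {k : ℤ × ℤ} (hk : Prim k) :
    m * ‖vk β k‖ ≤ σ k := by
  obtain ⟨Γ, _, hper, hd⟩ := h.curve k hk 0
  have h1 := Hr4_speed h hm hb hk hd 0 (0 + σ k)
  have h2 : Γ (0 + σ k) - Γ 0 = vk β k := by rw [hper]; abel
  have hσ := h.σ_pos k hk
  rw [h2, zero_add, sub_zero, abs_of_pos hσ, le_inv_mul_iff₀ hm] at h1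
  exact h1

private lemma hr4_excess (h : FolR β g K σ U c W) : ∃ C : ℝ, 0 ≤ C ∧ ∀ k k', Prim k → Prim k' →
    (dt k k' = 1 ∨ dt k k' = -1) → 0 ≤ k.1 * k'.1 → 0 ≤ k.2 * k'.2 →
    (σ k' - (k'.1 * (c k).1 + k'.2 * (c k).2)) * (|(k.1 : ℝ)| + |(k.2 : ℝ)|) ≤ C := by
  obtain ⟨a0, ha0, hlow⟩ := hr4_low β
  obtain ⟨mF, MF', hm, -, hbnd⟩ := h.riem.bounds
  have hbm : ∀ x v, mF ^ 2 * ‖v‖ ^ 2 ≤ g x v v := fun x v => (hbnd x v).1
  obtain ⟨MF0, hMF0⟩ := h.σ_upp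
  set MF := |MF0| with hMF
  have hM : 0 ≤ MF := abs_nonneg _
  have hσu : ∀ k, Prim k → σ k ≤ MF * ‖vk β k‖ := fun k hk =>
    (hMF0 k hk).trans (mul_le_mul_of_nonneg_right (le_abs_self _) (norm_nonneg _))
  clear_value MF
  have p0 : Prim ((1, 0) : ℤ × ℤ) := by unfold Prim; exact isCoprime_one_left
  have p1 : Prim ((0, 1) : ℤ × ℤ) := by unfold Prim; exact isCoprime_one_right
  have p0' : Prim (-(1, 0) : ℤ × ℤ) := by
    unfold Prim
    exact ⟨-1, 0, by norm_num⟩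
  have p1' : Prim (-(0, 1) : ℤ × ℤ) := by
    unfold Prim
    exact ⟨0, -1, by norm_num⟩
  have s0 := h.σ_pos _ p0
  have s1 := h.σ_pos _ p1
  set S0 := σ (1, 0) with hS0
  set S1 := σ (0, 1) with hS1
  have hc0 : ∀ k, Prim k → |(c k).1| ≤ S0 := by
    intro k hk
    have h1 := h.cσ_le k _ hk p0
    have h2 := h.cσ_le k _ hk p0'
    rw [h.σ_neg _ p0] at h2
    rw [abs_le]
    constructor
    · simp at h2; linarith
    · simp at h1; linarith
  have hc1 : ∀ k, Prim k → |(c k).2| ≤ S1 := by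
    intro k hk
    have h1 := h.cσ_le k _ hk p1
    have h2 := h.cσ_le k _ hk p1'
    rw [h.σ_neg _ p1] at h2
    rw [abs_le]
    constructor
    · simp at h2; linarith
    · simp at h1; linarith
  set B := ‖β 0‖ + ‖β 1‖ with hB
  have hB0 : 0 ≤ B := by positivity
  set A := S0 + S1 with hA
  have hA0 : 0 < A := by positivity
  refine ⟨(2 * S0 * S1 + 4 * A * MF * B) / (mF * a0), by positivity, ?_⟩
  intro k k' hk hk' hdt hq1 hq2
  have ha := hc0 k hk
  have hb := hc1 k hk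
  have ha' := hc0 k' hk'
  have hb' := hc1 k' hk'
  have E1 := h.cσ k hk
  have E2 := h.cσ k' hk'
  have I1 := h.cσ_le k k' hk hk'
  have I2 := h.cσ_le k' k hk' hk
  have nk : Prim (-k) := by
    unfold Prim at hk ⊢
    exact IsCoprime.neg_neg hk
  have I3 := h.cσ_le k' (-k) hk' nk
  rw [h.σ_neg k hk] at I3
  have hσk := h.σ_pos k hk
  have hupp := hσu k hk
  have hlw := Hr4_σlow h hm hbm hk
  have hlk := hlow k
  have hvk : ‖vk β k‖ ≤ B * (|(k.1 : ℝ)| + |(k.2 : ℝ)|) := by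
    have h1 : ‖vk β k‖ ≤ |(k.1 : ℝ)| * ‖β 0‖ + |(k.2 : ℝ)| * ‖β 1‖ := by
      unfold vk
      refine (norm_add_le _ _).trans ?_
      rw [norm_smul, norm_smul, Real.norm_eq_abs, Real.norm_eq_abs]
    have h2 := norm_nonneg (β 0)
    have h3 := norm_nonneg (β 1)
    have h4 := abs_nonneg (k.1 : ℝ)
    have h5 := abs_nonneg (k.2 : ℝ)
    have e : B * (|(k.1 : ℝ)| + |(k.2 : ℝ)|) = |(k.1 : ℝ)| * ‖β 0‖ + |(k.2 : ℝ)| * ‖β 1‖ +
        (|(k.1 : ℝ)| * ‖β 1‖ + |(k.2 : ℝ)| * ‖β 0‖) := by rw [hB]; ring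
    rw [e]
    linarith [mul_nonneg h4 h3, mul_nonneg h5 h2]
  have hdt' : ((k.1 : ℝ) * k'.2 - k.2 * k'.1) = 1 ∨ ((k.1 : ℝ) * k'.2 - k.2 * k'.1) = -1 := by
    unfold dt at hdt
    rcases hdt with h1 | h1
    · left; exact_mod_cast h1
    · right; exact_mod_cast h1
  have hq : (0 : ℝ) ≤ k.1 * k'.1 + k.2 * k'.2 := by
    have h1 : (0 : ℤ) ≤ k.1 * k'.1 + k.2 * k'.2 := add_nonneg hq1 hq2
    exact_mod_cast h1
  simp only [Prod.fst_neg, Prod.snd_neg, Int.cast_neg] at I3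
  generalize (c k).1 = a at *
  generalize (c k).2 = b at *
  generalize (c k').1 = a' at *
  generalize (c k').2 = b' at *
  generalize hx1 : (k.1 : ℝ) = x1 at *
  generalize hx2 : (k.2 : ℝ) = x2 at *
  generalize hy1 : (k'.1 : ℝ) = y1 at *
  generalize hy2 : (k'.2 : ℝ) = y2 at *
  generalize σ k = T at *
  generalize σ k' = T' at *
  set s := |x1| + |x2| with hs
  have hs0 : 0 ≤ s := by positivity
  set X := T' - (y1 * a + y2 * b) with hX
  have hX0 : 0 ≤ X := by rw [hX]; linarith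
  set X' := T - (x1 * a' + x2 * b') with hX'
  have hX'0 : 0 ≤ X' := by rw [hX']; linarith
  have hX'T : X' ≤ 2 * T := by rw [hX']; linarith
  set ε := x1 * y2 - x2 * y1 with hε
  have hid : ε * (a * b' - b * a') = T * X + (y1 * a + y2 * b) * X' := by
    rw [hε, hX, hX', ← E1, ← E2]; ring
  have habs : ∀ u v U V : ℝ, |u| ≤ U → |v| ≤ V → |u * v| ≤ U * V := by
    intro u v U V hu hv
    rw [abs_mul]
    exact mul_le_mul hu hv (abs_nonneg _) ((abs_nonneg _).trans hu)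
  have hab : |a * b' - b * a'| ≤ 2 * S0 * S1 := by
    have h1 := habs a b' S0 S1 ha hb'
    have h2 := habs b a' S1 S0 hb ha'
    rw [abs_le] at h1 h2 ⊢
    constructor <;> linarith [h1.1, h1.2, h2.1, h2.2, mul_comm S0 S1]
  have hεab : ε * (a * b' - b * a') ≤ 2 * S0 * S1 := by
    rw [abs_le] at hab
    rcases hdt' with h1 | h1
    · rw [h1]; linarith [hab.2]
    · rw [h1]; linarith [hab.1]
  -- lower bound of `c_k(k')`
  have hn : s ^ 2 ≤ 2 * (x1 ^ 2 + x2 ^ 2) := by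
    have e : s ^ 2 + (|x1| - |x2|) ^ 2 = 2 * (|x1| ^ 2 + |x2| ^ 2) := by rw [hs]; ring
    rw [sq_abs, sq_abs] at e
    linarith [sq_nonneg (|x1| - |x2|)]
  have hTs : T ≤ MF * (B * s) := hupp.trans (mul_le_mul_of_nonneg_left hvk hM)
  have hck : -(4 * A * MF * B) ≤ (y1 * a + y2 * b) * X' := by
    rcases le_or_gt 0 (y1 * a + y2 * b) with hpos | hneg
    · have h1 : 0 ≤ (y1 * a + y2 * b) * X' := mul_nonneg hpos hX'0
      have h2 : 0 ≤ 4 * A * MF * B := by positivity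
      linarith
    · -- `n c_k(k') = (k·k') σ k + ε (k.1 b - k.2 a)`
      have e1 : (x1 ^ 2 + x2 ^ 2) * (y1 * a + y2 * b) =
          (x1 * y1 + x2 * y2) * T + ε * (x1 * b - x2 * a) := by
        rw [hε, ← E1]; ring
      have e2 : -(A * s) ≤ ε * (x1 * b - x2 * a) := by
        have h1 := habs x1 b |x1| S1 le_rfl hb
        have h2 := habs x2 a |x2| S0 le_rfl ha
        have h3 : |x1| * S1 + |x2| * S0 ≤ A * s := by
          have h4 := abs_nonneg x1
          have h5 := abs_nonneg x2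
          have e : A * s = |x1| * S1 + |x2| * S0 + (|x1| * S0 + |x2| * S1) := by
            rw [hA, hs]; ring
          rw [e]
          linarith [mul_nonneg h4 s0.le, mul_nonneg h5 s1.le]
        rw [abs_le] at h1 h2
        rcases hdt' with h4 | h4
        · rw [h4]; linarith [h1.1, h1.2, h2.1, h2.2]
        · rw [h4]; linarith [h1.1, h1.2, h2.1, h2.2]
      have e3 : 0 ≤ (x1 * y1 + x2 * y2) * T := mul_nonneg hq hσk.le
      have e4 : -(A * s) ≤ (x1 ^ 2 + x2 ^ 2) * (y1 * a + y2 * b) := by rw [e1]; linarith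
      -- `-c ≤ A s / n`, `X' ≤ 2 MF B s`, `s² ≤ 2 n`
      set g := -(y1 * a + y2 * b) with hg
      have hg0 : 0 < g := by rw [hg]; linarith
      have e5 : (x1 ^ 2 + x2 ^ 2) * g ≤ A * s := by rw [hg]; linarith
      have e6 : X' ≤ 2 * (MF * (B * s)) := by linarith
      have e7 : s ^ 2 * g ≤ 2 * (A * s) := by
        have h1 : s ^ 2 * g ≤ 2 * (x1 ^ 2 + x2 ^ 2) * g := mul_le_mul_of_nonneg_right hn hg0.le
        linarith
      have e8 : s * g ≤ 2 * A := by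
        rcases hs0.eq_or_lt with h0 | h0
        · rw [← h0]; simp; positivity
        · have h1 : s * (s * g) ≤ s * (2 * A) := by
            have u1 : s * (s * g) = s ^ 2 * g := by ring
            have u2 : s * (2 * A) = 2 * (A * s) := by ring
            rw [u1, u2]
            exact e7
          exact le_of_mul_le_mul_left h1 h0
      have e9 : g * X' ≤ 4 * A * MF * B := by
        calc g * X' ≤ g * (2 * (MF * (B * s))) := mul_le_mul_of_nonneg_left e6 hg0.le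
          _ = (2 * MF * B) * (s * g) := by ring
          _ ≤ (2 * MF * B) * (2 * A) := mul_le_mul_of_nonneg_left e8 (by positivity)
          _ = 4 * A * MF * B := by ring
      have e10 : (y1 * a + y2 * b) * X' = -(g * X') := by rw [hg]; ring
      rw [e10]; linarith
  have hTX : T * X ≤ 2 * S0 * S1 + 4 * A * MF * B := by linarith
  have hTl : mF * (a0 * s) ≤ T := (mul_le_mul_of_nonneg_left hlk hm.le).trans hlw
  rw [le_div_iff₀ (by positivity)]
  calc X * s * (mF * a0) = (mF * (a0 * s)) * X := by ring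
    _ ≤ T * X := mul_le_mul_of_nonneg_right hTl hX0
    _ ≤ _ := hTX

theorem FolR.small (h : FolR β g K σ U c W) : ∃ C : ℝ, 0 ≤ C ∧ ∀ k k', Prim k → Prim k' →
    (dt k k' = 1 ∨ dt k k' = -1) → 0 ≤ k.1 * k'.1 → 0 ≤ k.2 * k'.2 →
    ∀ x, ‖W k x - W k' x‖ ^ 3 * (|(k.1 : ℝ)| + |(k.2 : ℝ)|) ≤ C := by
  obtain ⟨a0, ha0, hlow⟩ := hr4_low β
  obtain ⟨C, hC, hex⟩ := hr4_excess h
  obtain ⟨m, M, hm, -, hbnd⟩ := h.riem.bounds
  have hbm : ∀ x v, m ^ 2 * ‖v‖ ^ 2 ≤ g x v v := fun x v => (hbnd x v).1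
  obtain ⟨Lw, hLw0, hLw⟩ := Hr4_lipW h.riem h.K_nonneg
  set L := 2 * Lw * m⁻¹ + m⁻¹ with hL
  have hL0 : 0 < L := by positivity
  set N0 := (m * a0)⁻¹ + 1 with hN0
  have hN0p : 0 < N0 := by positivity
  refine ⟨16 * L / m ^ 2 * N0 * C, by positivity, ?_⟩
  intro k k' hk hk' hdt hq1 hq2 x
  have hX := hex k k' hk hk' hdt hq1 hq2
  set X := σ k' - (k'.1 * (c k).1 + k'.2 * (c k).2) with hXd
  have hX0 : 0 ≤ X := by
    have := h.cσ_le k k' hk hk'
    rw [hXd]; linarith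
  obtain ⟨Γ, hΓ0, hper, hd⟩ := h.curve k' hk' x
  set F : ℝ → ℝ := fun t => t - U k (Γ t) with hF
  have hFd : ∀ t, HasDerivAt F (g (Γ t) (W k (Γ t) - W k' (Γ t)) (W k (Γ t) - W k' (Γ t)) / 2) t := by
    intro t
    have h1 := (Hr4_fd (h.cf k hk) (Γ t)).comp_hasDerivAt t (hd t)
    have h2 := (hasDerivAt_id t).sub h1
    have h3 : g (Γ t) (W k (Γ t) - W k' (Γ t)) (W k (Γ t) - W k' (Γ t)) / 2 =
        1 - g (Γ t) (W k (Γ t)) (W k' (Γ t)) := by
      have u1 := (h.cf k hk).unit (Γ t)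
      have u2 := (h.cf k' hk').unit (Γ t)
      have u3 := h.riem.symm (Γ t) (W k' (Γ t)) (W k (Γ t))
      simp only [map_sub, _root_.sub_apply]
      rw [u1, u2, u3]
      ring
    rw [h3]
    exact h2
  have hFdiff : Differentiable ℝ F := fun t => (hFd t).differentiableAt
  have hFmono : Monotone F := monotone_of_deriv_nonneg hFdiff fun t => by
    rw [(hFd t).deriv]
    have h1 := hbm (Γ t) (W k (Γ t) - W k' (Γ t))
    have h2 : 0 ≤ m ^ 2 * ‖W k (Γ t) - W k' (Γ t)‖ ^ 2 := by positivity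
    linarith
  have hFper : ∀ n : ℕ, F (n * σ k') - F 0 = n * X := by
    intro n
    induction n with
    | zero => simp
    | succ n ih =>
      have e1 : ((n + 1 : ℕ) : ℝ) * σ k' = n * σ k' + σ k' := by push_cast; ring
      have e2 : F (n * σ k' + σ k') = F (n * σ k') + X := by
        simp only [hF]
        rw [hper, Hr4_vk (h.cf k hk), hXd]
        ring
      rw [e1, e2]
      push_cast
      linarith
  -- period
  have hσ' := h.σ_pos k' hk'
  have hk'1 : (1 : ℝ) ≤ |(k'.1 : ℝ)| + |(k'.2 : ℝ)| := by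
    have h1 : (1 : ℤ) ≤ |k'.1| + |k'.2| := by
      by_contra hcon
      have h2 : |k'.1| = 0 := by have := abs_nonneg k'.1; have := abs_nonneg k'.2; omega
      have h3 : |k'.2| = 0 := by have := abs_nonneg k'.1; have := abs_nonneg k'.2; omega
      rw [abs_eq_zero] at h2 h3
      unfold Prim at hk'
      rw [h2, h3] at hk'
      exact not_isCoprime_zero_zero hk'
    exact_mod_cast h1
  have hσl : m * a0 ≤ σ k' := by
    have h1 := Hr4_σlow h hm hbm hk'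
    have h2 := hlow k'
    have h3 : a0 ≤ ‖vk β k'‖ := by
      have h4 : a0 * 1 ≤ a0 * (|(k'.1 : ℝ)| + |(k'.2 : ℝ)|) := mul_le_mul_of_nonneg_left hk'1 ha0.le
      linarith
    exact (mul_le_mul_of_nonneg_left h3 hm.le).trans h1
  have hF1 : F 1 - F 0 ≤ N0 * X := by
    set n := ⌈(σ k')⁻¹⌉₊ with hn
    have h1 : (σ k')⁻¹ ≤ n := Nat.le_ceil _
    have h2 : (1 : ℝ) ≤ n * σ k' := by
      have := mul_le_mul_of_nonneg_right h1 hσ'.le
      rwa [inv_mul_cancel₀ hσ'.ne'] at this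
    have h3 := hFmono h2
    have h4 := hFper n
    have h5 : (n : ℝ) ≤ N0 := by
      have h6 : (n : ℝ) < (σ k')⁻¹ + 1 := Nat.ceil_lt_add_one (by positivity)
      have h7 : (σ k')⁻¹ ≤ (m * a0)⁻¹ := inv_anti₀ (by positivity) hσl
      rw [hN0]; linarith
    have h6 := mul_le_mul_of_nonneg_right h5 hX0
    linarith
  -- the value at zero
  set δ := ‖W k x - W k' x‖ with hδ
  have hδ0 : 0 ≤ δ := norm_nonneg _
  have hδM : δ ≤ 2 * m⁻¹ := by
    have h1 := norm_sub_le (W k x) (W k' x)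
    have h2 := Hr4_bd hm hbm ((h.cf k hk).unit x)
    have h3 := Hr4_bd hm hbm ((h.cf k' hk').unit x)
    linarith
  set τ := δ / (2 * L) with hτ
  have hτ0 : 0 ≤ τ := by positivity
  have hτ1 : τ ≤ 1 := by
    rw [hτ, div_le_one (by positivity)]
    have h1 : m⁻¹ ≤ L := by
      rw [hL]
      have : 0 ≤ 2 * Lw * m⁻¹ := by positivity
      linarith
    linarith
  have hg : ∀ t, 0 ≤ t → t ≤ τ → δ / 2 ≤ ‖W k (Γ t) - W k' (Γ t)‖ := by
    intro t ht0 htτ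
    have h1 := hLw _ _ _ (h.cf k hk) (Γ t) x
    have h2 := hLw _ _ _ (h.cf k' hk') (Γ t) x
    have h3 : ‖Γ t - x‖ ≤ m⁻¹ * t := by
      have := Hr4_speed h hm hbm hk' hd 0 t
      rw [hΓ0, sub_zero, abs_of_nonneg ht0] at this
      exact this
    have h4 : δ ≤ ‖W k (Γ t) - W k' (Γ t)‖ + ‖W k (Γ t) - W k x‖ + ‖W k' (Γ t) - W k' x‖ := by
      have e : W k x - W k' x = (W k (Γ t) - W k' (Γ t)) - (W k (Γ t) - W k x) +
          (W k' (Γ t) - W k' x) := by abel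
      calc δ = ‖(W k (Γ t) - W k' (Γ t)) - (W k (Γ t) - W k x) + (W k' (Γ t) - W k' x)‖ := by
            rw [hδ, e]
        _ ≤ ‖(W k (Γ t) - W k' (Γ t)) - (W k (Γ t) - W k x)‖ + ‖W k' (Γ t) - W k' x‖ :=
            norm_add_le _ _
        _ ≤ _ := by
            have := norm_sub_le (W k (Γ t) - W k' (Γ t)) (W k (Γ t) - W k x)
            linarith
    have h5 : 2 * Lw * ‖Γ t - x‖ ≤ 2 * Lw * (m⁻¹ * t) :=
      mul_le_mul_of_nonneg_left h3 (by positivity)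
    have h6 : 2 * Lw * (m⁻¹ * t) ≤ L * τ := by
      have h7 : 2 * Lw * m⁻¹ ≤ L := by
        rw [hL]
        have : 0 < m⁻¹ := by positivity
        linarith
      calc 2 * Lw * (m⁻¹ * t) = (2 * Lw * m⁻¹) * t := by ring
        _ ≤ L * τ := mul_le_mul h7 htτ ht0 hL0.le
    have h7 : L * τ = δ / 2 := by
      rw [hτ]; field_simp
    linarith
  have hmv : m ^ 2 * δ ^ 2 / 8 * (τ - 0) ≤ F τ - F 0 := by
    refine Convex.mul_sub_le_image_sub_of_le_deriv (convex_Icc 0 τ) hFdiff.continuous.continuousOn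
      (hFdiff.differentiableOn) (fun t ht => ?_) 0 ⟨le_rfl, hτ0⟩ τ ⟨hτ0, le_rfl⟩ hτ0
    rw [interior_Icc] at ht
    rw [(hFd t).deriv]
    have h1 := hg t ht.1.le ht.2.le
    have h4 : (δ / 2) ^ 2 ≤ ‖W k (Γ t) - W k' (Γ t)‖ ^ 2 := pow_le_pow_left₀ (by positivity) h1 2
    have h5 := hbm (Γ t) (W k (Γ t) - W k' (Γ t))
    have h6 := mul_le_mul_of_nonneg_left h4 (by positivity : 0 ≤ m ^ 2)
    have e : m ^ 2 * (δ / 2) ^ 2 = m ^ 2 * δ ^ 2 / 8 * 2 := by ring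
    linarith
  have hfin : F τ - F 0 ≤ N0 * X := by
    have := hFmono hτ1
    linarith
  have h9 : δ ^ 3 ≤ 16 * L / m ^ 2 * (N0 * X) := by
    have e : m ^ 2 * δ ^ 2 / 8 * (τ - 0) = δ ^ 3 / (16 * L / m ^ 2) := by
      rw [hτ, sub_zero]
      field_simp
      ring
    rw [e] at hmv
    have h1 := hmv.trans hfin
    rw [div_le_iff₀ (by positivity)] at h1
    linarith
  have hs0 : 0 ≤ |(k.1 : ℝ)| + |(k.2 : ℝ)| := by positivity
  calc δ ^ 3 * (|(k.1 : ℝ)| + |(k.2 : ℝ)|)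
      ≤ (16 * L / m ^ 2 * (N0 * X)) * (|(k.1 : ℝ)| + |(k.2 : ℝ)|) :=
        mul_le_mul_of_nonneg_right h9 hs0
    _ = (16 * L / m ^ 2 * N0) * (X * (|(k.1 : ℝ)| + |(k.2 : ℝ)|)) := by ring
    _ ≤ (16 * L / m ^ 2 * N0) * C := mul_le_mul_of_nonneg_left hX (by positivity)

end Pool.Agent.EscG
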