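import Pool.Agent.EscG.Hr4
import Pool.Agent.EscG.W5

set_option autoImplicit false

/-!
# EscG geometry, project H, module Hr5: integrals and signs of the wedge products

The model is W5.lean (on main). `CF.per`: `W (x + β i) = W x` (both give the derivative of `u`; `quad`). `CF.int_wd`: `u ∘ co β` has the partial derivatives `g x (w x) (β 0)`,
`g x (w x) (β 1)` (`quad`), continuous (`CF.lip`): `int_wedge` of W3.lean. `wd_pos`: `x ↦ wr β g x (W k x) (W k' x)` is continuous and does not vanish: if it vanishes the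
covectors `g x (W k x)`, `g x (W k' x)` are parallel, so `W k x`, `W k' x` are parallel of length one, `W k x = ± W k' x`, excluded by `trans` (for `k'` and `-k'`, `W_neg`).
So it has the sign of its integral `(c k).1 (c k').2 - (c k).2 (c k').1`, and `dt k k'` times this is `σ k σ k' - c_k(k') c_k'(k) ≥ 0` (as in W5).
-/

noncomputable section

namespace Pool.Agent.EscG

open MeasureTheory Set Filter Topology Esc EscF _root_.EscG
open scoped ContDiff

variable {E : Type*} [NormedAddCommGroup E] [InnerProductSpace ℝ E] [FiniteDimensional ℝ E]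
  {β : Module.Basis (Fin 2) ℝ E} {g : E → E →L[ℝ] E →L[ℝ] ℝ} {K : ℝ} {σ : ℤ × ℤ → ℝ}
  {U : ℤ × ℤ → E → ℝ} {c : ℤ × ℤ → ℝ × ℝ} {W : ℤ × ℤ → E → E}

/-- coordinates as a continuous linear map -/
private def Hr5_coL (β : Module.Basis (Fin 2) ℝ E) : ℝ × ℝ →L[ℝ] E :=
  (ContinuousLinearMap.fst ℝ ℝ ℝ).smulRight (β 0) + (ContinuousLinearMap.snd ℝ ℝ ℝ).smulRight (β 1)

omit [FiniteDimensional ℝ E] in
private lemma Hr5_coL_apply (β : Module.Basis (Fin 2) ℝ E) (z : ℝ × ℝ) : Hr5_coL β z = co β z := by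
  simp [Hr5_coL, co]

omit [FiniteDimensional ℝ E] in
private lemma Hr5_co_cont (β : Module.Basis (Fin 2) ℝ E) : Continuous (co β) := by
  unfold co
  fun_prop

/-- the covector field of a closed form is continuous -/
private lemma CF.Hr5_cov_cont (hK : 0 ≤ K) {a : ℝ × ℝ} {u : E → ℝ} {w : E → E}
    (h : CF β g K a u w) : Continuous fun x => g x (w x) := by
  have hL : LipschitzWith (Real.toNNReal (6 * K)) (fun x => g x (w x)) := by
    refine LipschitzWith.of_dist_le_mul fun x y => ?_
    rw [dist_eq_norm, dist_eq_norm, Real.coe_toNNReal _ (by positivity)]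
    exact h.lip hK x y
  exact hL.continuous

omit [FiniteDimensional ℝ E] in
/-- `u` is differentiable with derivative `g x (w x)` -/
private lemma CF.Hr5_fderiv {a : ℝ × ℝ} {u : E → ℝ} {w : E → E}
    (h : CF β g K a u w) (x : E) : HasFDerivAt u (g x (w x)) x := by
  rw [hasFDerivAt_iff_isLittleO]
  have h1 : (fun y => u y - u x - (g x (w x)) (y - x)) =O[𝓝 x]
      fun y => ‖y - x‖ ^ 2 := by
    refine Asymptotics.IsBigO.of_bound K (Eventually.of_forall fun y => ?_)
    rw [Real.norm_eq_abs, Real.norm_eq_abs, abs_of_nonneg (by positivity : (0 : ℝ) ≤ ‖y - x‖ ^ 2)]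
    exact h.quad x y
  refine h1.trans_isLittleO ?_
  have h2 : (fun y : E => ‖y - x‖ ^ 2) =o[𝓝 x] fun y => ‖y - x‖ := by
    have h3 : (fun y : E => ‖y - x‖) =o[𝓝 x] fun _ => (1 : ℝ) := by
      rw [Asymptotics.isLittleO_one_iff]
      have : Tendsto (fun y : E => ‖y - x‖) (𝓝 x) (𝓝 ‖x - x‖) := by
        apply Continuous.tendsto
        fun_prop
      simpa using this
    have h4 := h3.mul_isBigO (Asymptotics.isBigO_refl (fun y : E => ‖y - x‖) (𝓝 x))
    simpa [sq] using h4
  exact h2.of_norm_right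

omit [FiniteDimensional ℝ E] in
/-- the metric is nondegenerate -/
private lemma IsRiem.Hr5_inj (hg : IsRiem β 2 g) {x v w : E} (h : g x v = g x w) : v = w := by
  by_contra hne
  have h1 := hg.pos x (v - w) (sub_ne_zero.2 hne)
  have h2 : g x (v - w) = 0 := by rw [map_sub, h, sub_self]
  rw [h2] at h1
  exact lt_irrefl _ h1

omit [FiniteDimensional ℝ E] in
/-- the covectors are periodic -/
private lemma CF.Hr5_cov_per {a : ℝ × ℝ} {u : E → ℝ} {w : E → E}
    (h : CF β g K a u w) {v : E} {r : ℝ} (hv : ∀ x, u (x + v) = u x + r) (x : E) :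
    g (x + v) (w (x + v)) = g x (w x) := by
  have h1 : HasFDerivAt (fun y => u (y + v)) (g (x + v) (w (x + v))) x := by
    have := (h.Hr5_fderiv (x + v)).comp x ((hasFDerivAt_id x).add_const v)
    simpa [Function.comp_def] using this
  have h2 : HasFDerivAt (fun y => u (y + v)) (g x (w x)) x := by
    have := (h.Hr5_fderiv x).add_const r
    refine this.congr_of_eventuallyEq (Eventually.of_forall fun y => ?_)
    exact hv y
  exact h1.unique h2

theorem CF.per (hg : IsRiem β 2 g) (hK : 0 ≤ K) {a : ℝ × ℝ} {u : E → ℝ} {w : E → E}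
    (h : CF β g K a u w) (i : Fin 2) (x : E) : w (x + β i) = w x := by
  have _ := hK
  have key : g (x + β i) (w (x + β i)) = g x (w x) := by
    fin_cases i
    · exact h.Hr5_cov_per h.U0 x
    · exact h.Hr5_cov_per h.U1 x
  rw [hg.per i x] at key
  exact hg.Hr5_inj key

omit [FiniteDimensional ℝ E] in
private lemma CF.Hr5_f_fderiv {a : ℝ × ℝ} {u : E → ℝ} {w : E → E}
    (h : CF β g K a u w) (z : ℝ × ℝ) :
    HasFDerivAt (fun z => u (co β z))
      ((g (co β z) (w (co β z)) (β 0)) • ContinuousLinearMap.fst ℝ ℝ ℝ +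
        (g (co β z) (w (co β z)) (β 1)) • ContinuousLinearMap.snd ℝ ℝ ℝ) z := by
  have h1 : HasFDerivAt (fun z => co β z) (Hr5_coL β) z := by
    have : (fun z => co β z) = Hr5_coL β := by
      funext z
      exact (Hr5_coL_apply β z).symm
    rw [this]
    exact (Hr5_coL β).hasFDerivAt
  have h2 := (h.Hr5_fderiv (co β z)).comp z h1
  refine h2.congr_fderiv ?_
  ext <;> simp [Hr5_coL]

omit [FiniteDimensional ℝ E] in
private lemma CF.Hr5_per0 {a : ℝ × ℝ} {u : E → ℝ} {w : E → E}
    (h : CF β g K a u w) (z : ℝ × ℝ) :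
    u (co β (z + (1, 0))) = u (co β z) + a.1 := by
  have : co β (z + (1, 0)) = co β z + β 0 := by
    simp only [co, Prod.fst_add, Prod.snd_add, add_zero, add_smul, one_smul]
    abel
  rw [this, h.U0]

omit [FiniteDimensional ℝ E] in
private lemma CF.Hr5_per1 {a : ℝ × ℝ} {u : E → ℝ} {w : E → E}
    (h : CF β g K a u w) (z : ℝ × ℝ) :
    u (co β (z + (0, 1))) = u (co β z) + a.2 := by
  have : co β (z + (0, 1)) = co β z + β 1 := by
    simp only [co, Prod.fst_add, Prod.snd_add, add_zero, add_smul, one_smul]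
    abel
  rw [this, h.U1]

private lemma CF.Hr5_cont0 (hK : 0 ≤ K) {a : ℝ × ℝ} {u : E → ℝ} {w : E → E}
    (h : CF β g K a u w) (v : E) : Continuous fun z => g (co β z) (w (co β z)) v :=
  ((h.Hr5_cov_cont hK).comp (Hr5_co_cont β)).clm_apply continuous_const

theorem CF.int_wd (hg : IsRiem β 2 g) (hK : 0 ≤ K) {a a' : ℝ × ℝ} {u u' : E → ℝ} {w w' : E → E}
    (h : CF β g K a u w) (h' : CF β g K a' u' w') :
    ∫ z in Icc (0 : ℝ × ℝ) (1, 1), wr β g (co β z) (w (co β z)) (w' (co β z)) =
      a.1 * a'.2 - a.2 * a'.1 := by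
  have _ := hg
  exact int_wedge h.Hr5_f_fderiv h'.Hr5_f_fderiv (h.Hr5_cont0 hK (β 0)) (h.Hr5_cont0 hK (β 1))
    (h'.Hr5_cont0 hK (β 0)) (h'.Hr5_cont0 hK (β 1)) h.Hr5_per0 h.Hr5_per1 h'.Hr5_per0 h'.Hr5_per1

omit [FiniteDimensional ℝ E] in
/-- a covector vanishing on the basis vanishes -/
private lemma Hr5_cov_ext (β : Module.Basis (Fin 2) ℝ E) {p q : E →L[ℝ] ℝ}
    (h0 : p (β 0) = q (β 0)) (h1 : p (β 1) = q (β 1)) : p = q := by
  apply ContinuousLinearMap.coe_injective
  apply β.ext
  intro i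
  fin_cases i
  · exact h0
  · exact h1

omit [FiniteDimensional ℝ E] in
/-- two unit vectors whose covectors are parallel are equal or opposite -/
private lemma IsRiem.Hr5_par (hg : IsRiem β 2 g) {x p p' : E} (hp : g x p p = 1)
    (hp' : g x p' p' = 1) (hw : wr β g x p p' = 0) : p' = p ∨ p' = -p := by
  unfold wr at hw
  have e0 : (g x p' (β 0)) • p = (g x p (β 0)) • p' := by
    apply hg.Hr5_inj (x := x)
    apply Hr5_cov_ext β
    · simp only [map_smul, ContinuousLinearMap.smul_apply, smul_eq_mul]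
      ring
    · simp only [map_smul, ContinuousLinearMap.smul_apply, smul_eq_mul]
      linarith
  have e1 : (g x p' (β 1)) • p = (g x p (β 1)) • p' := by
    apply hg.Hr5_inj (x := x)
    apply Hr5_cov_ext β
    · simp only [map_smul, ContinuousLinearMap.smul_apply, smul_eq_mul]
      linarith
    · simp only [map_smul, ContinuousLinearMap.smul_apply, smul_eq_mul]
      ring
  have key : ∀ a b : ℝ, a • p = b • p' → b ≠ 0 → p' = p ∨ p' = -p := by
    intro a b hab hb
    have hn2 : a ^ 2 = b ^ 2 := by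
      have h1 : g x (a • p) (a • p) = g x (b • p') (b • p') := by rw [hab]
      simp only [map_smul, ContinuousLinearMap.smul_apply, smul_eq_mul, hp, hp'] at h1
      linarith
    rcases sq_eq_sq_iff_eq_or_eq_neg.1 hn2 with h | h
    · left
      rw [h] at hab
      exact (smul_right_injective E hb hab).symm
    · right
      rw [h, neg_smul, ← smul_neg] at hab
      exact (smul_right_injective E hb hab).symm
  by_cases h0 : g x p (β 0) = 0
  · by_cases h1 : g x p (β 1) = 0
    · exfalso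
      have hz : g x p = 0 := Hr5_cov_ext β (by simpa using h0) (by simpa using h1)
      rw [hz] at hp
      simp at hp
    · exact key _ _ e1 h1
  · exact key _ _ e0 h0

private lemma Hr5_prim_neg {k : ℤ × ℤ} (hk : Prim k) : Prim (-k) := by
  unfold Prim at *
  exact (IsCoprime.neg_neg_iff _ _).2 hk

omit [FiniteDimensional ℝ E] in
private lemma FolR.Hr5_wd_ne (h : FolR β g K σ U c W) {k k' : ℤ × ℤ} (hk : Prim k) (hk' : Prim k')
    (hd : dt k k' ≠ 0) (x : E) : wr β g x (W k x) (W k' x) ≠ 0 := by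
  intro hw
  rcases h.riem.Hr5_par ((h.cf k hk).unit x) ((h.cf k' hk').unit x) hw with e | e
  · exact h.trans k k' hk hk' hd x e.symm
  · refine h.trans (-k) k' (Hr5_prim_neg hk) hk' ?_ x ?_
    · intro h0
      apply hd
      unfold dt at *
      simp only [Prod.fst_neg, Prod.snd_neg] at h0
      linarith
    · rw [h.W_neg k hk]
      exact e.symm

omit [FiniteDimensional ℝ E] in
private lemma FolR.Hr5_cc_nonneg (h : FolR β g K σ U c W) {k k' : ℤ × ℤ} (hk : Prim k)
    (hk' : Prim k') (hd : 0 < dt k k') : 0 ≤ (c k).1 * (c k').2 - (c k).2 * (c k').1 := by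
  have hd' : (0 : ℝ) < (dt k k' : ℝ) := by exact_mod_cast hd
  have hid : (dt k k' : ℝ) * ((c k).1 * (c k').2 - (c k).2 * (c k').1) =
      σ k * σ k' - (k'.1 * (c k).1 + k'.2 * (c k).2) * (k.1 * (c k').1 + k.2 * (c k').2) := by
    rw [← h.cσ k hk, ← h.cσ k' hk']
    unfold dt
    push_cast
    ring
  have a1 : |(k'.1 : ℝ) * (c k).1 + k'.2 * (c k).2| ≤ σ k' := by
    rw [abs_le]
    constructor
    · have := h.cσ_le k (-k') hk (Hr5_prim_neg hk')
      rw [h.σ_neg k' hk'] at this
      simp only [Prod.fst_neg, Prod.snd_neg, Int.cast_neg] at this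
      linarith
    · exact h.cσ_le k k' hk hk'
  have a2 : |(k.1 : ℝ) * (c k').1 + k.2 * (c k').2| ≤ σ k := by
    rw [abs_le]
    constructor
    · have := h.cσ_le k' (-k) hk' (Hr5_prim_neg hk)
      rw [h.σ_neg k hk] at this
      simp only [Prod.fst_neg, Prod.snd_neg, Int.cast_neg] at this
      linarith
    · exact h.cσ_le k' k hk' hk
  have a3 : ((k'.1 : ℝ) * (c k).1 + k'.2 * (c k).2) * (k.1 * (c k').1 + k.2 * (c k').2) ≤
      σ k' * σ k := by
    refine (le_abs_self _).trans ?_
    rw [abs_mul]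
    exact mul_le_mul a1 a2 (abs_nonneg _) (h.σ_pos k' hk').le
  have : 0 ≤ (dt k k' : ℝ) * ((c k).1 * (c k').2 - (c k).2 * (c k').1) := by
    rw [hid]
    nlinarith
  exact nonneg_of_mul_nonneg_right this hd'

theorem FolR.wd_pos (h : FolR β g K σ U c W) {k k' : ℤ × ℤ} (hk : Prim k) (hk' : Prim k')
    (hd : 0 < dt k k') (x : E) : 0 < wr β g x (W k x) (W k' x) := by
  have hne : ∀ y, wr β g y (W k y) (W k' y) ≠ 0 := h.Hr5_wd_ne hk hk' hd.ne'
  have hc : Continuous fun y => wr β g y (W k y) (W k' y) := by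
    unfold wr
    have c1 := (h.cf k hk).Hr5_cov_cont h.K_nonneg
    have c2 := (h.cf k' hk').Hr5_cov_cont h.K_nonneg
    exact ((c1.clm_apply continuous_const).mul (c2.clm_apply continuous_const)).sub
      ((c1.clm_apply continuous_const).mul (c2.clm_apply continuous_const))
  by_contra hx
  have hx' : wr β g x (W k x) (W k' x) < 0 := lt_of_le_of_ne (not_lt.1 hx) (hne x)
  have hall : ∀ y, wr β g y (W k y) (W k' y) < 0 := by
    intro y
    by_contra hy
    have hy' : 0 < wr β g y (W k y) (W k' y) := lt_of_le_of_ne (not_lt.1 hy) (hne y).symm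
    obtain ⟨w, hw⟩ := mem_range_of_exists_le_of_exists_ge hc ⟨x, hx'.le⟩ ⟨y, hy'.le⟩
    exact hne w hw
  have hint := CF.int_wd h.riem h.K_nonneg (h.cf k hk) (h.cf k' hk')
  have hcc := h.Hr5_cc_nonneg hk hk' hd
  rw [← hint] at hcc
  -- the integral is negative
  have hcont : Continuous fun z : ℝ × ℝ => wr β g (co β z) (W k (co β z)) (W k' (co β z)) :=
    hc.comp (Hr5_co_cont β)
  have hcomp : IsCompact (Icc (0 : ℝ × ℝ) (1, 1)) := isCompact_Icc
  have hnon : (Icc (0 : ℝ × ℝ) (1, 1)).Nonempty := ⟨0, by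
    refine ⟨le_rfl, ?_⟩
    exact ⟨zero_le_one, zero_le_one⟩⟩
  obtain ⟨z0, hz0, hmax⟩ := hcomp.exists_isMaxOn hnon hcont.continuousOn
  have hvol : (volume (Icc (0 : ℝ × ℝ) (1, 1))) = 1 := by
    have : Icc (0 : ℝ × ℝ) (1, 1) = Icc (0 : ℝ) 1 ×ˢ Icc (0 : ℝ) 1 := by
      rw [Icc_prod_eq]
      rfl
    rw [this, Measure.volume_eq_prod, Measure.prod_prod, Real.volume_Icc]
    simp
  have hle : ∫ z in Icc (0 : ℝ × ℝ) (1, 1), wr β g (co β z) (W k (co β z)) (W k' (co β z)) ≤
      ∫ _ in Icc (0 : ℝ × ℝ) (1, 1), wr β g (co β z0) (W k (co β z0)) (W k' (co β z0)) := by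
    refine setIntegral_mono_on (hcont.continuousOn.integrableOn_compact hcomp)
      (integrableOn_const (by rw [hvol]; simp) ) measurableSet_Icc fun z hz => hmax hz
  rw [setIntegral_const, measureReal_def, hvol] at hle
  simp only [ENNReal.toReal_one, one_smul] at hle
  have := hall (co β z0)
  linarith

end Pool.Agent.EscG
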