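import Pool.Agent.EscG.HDefs

set_option autoImplicit false

/-!
# EscG geometry, project H, module Ht1: a flat structure of a metric of class `C^1` is of class `C^2`

`P` is Lipschitz, so differentiable almost everywhere (Rademacher). At every point `x` of differentiability `T = fderiv P x` is symmetric (`φ` has derivative `P` everywhere), and the product rule
for `g x v w = Q (P x v) (P x w)` gives the Koszul formula `Q (T u v) (P x w) = (D_u g v w + D_v g u w - D_w g u v)/2`, so `T = S x` with `S x u v = P x ((g x)⁻¹ (w ↦ (..)/2))`, which is continuous in `x`.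
By Fubini and absolute continuity along lines `P (x + u) - P x = ∫_0^1 S (x + s u) u ds` for almost every `x`, so for all `x` by continuity (`Ht1_c1`); so `P` is `C^1` with derivative `S`.
-/

noncomputable section

namespace Pool.Agent.EscG

open MeasureTheory Set Filter Topology
open scoped ContDiff

variable {E : Type*} [NormedAddCommGroup E] [InnerProductSpace ℝ E] [FiniteDimensional ℝ E]
  {β : Module.Basis (Fin 2) ℝ E} {g : E → E →L[ℝ] E →L[ℝ] ℝ} {Q : E →L[ℝ] E →L[ℝ] ℝ}
  {φ : E → E} {P : E → E →L[ℝ] E}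

omit [FiniteDimensional ℝ E] in
theorem FlatS.hasFDerivAt (h : FlatS β g Q φ P) (x : E) : HasFDerivAt φ (P x) x := by
  obtain ⟨K, hK⟩ := h.quad
  rw [hasFDerivAt_iff_isLittleO]
  have h1 : (fun y => φ y - φ x - P x (y - x)) =O[𝓝 x] fun y => ‖y - x‖ ^ 2 := by
    refine Asymptotics.IsBigO.of_bound K (Eventually.of_forall fun y => ?_)
    rw [Real.norm_eq_abs, abs_of_nonneg (by positivity)]
    exact hK x y
  refine h1.trans_isLittleO ?_
  have h3 : Tendsto (fun y : E => y - x) (𝓝 x) (𝓝 0) := by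
    have : Tendsto (fun y : E => y - x) (𝓝 x) (𝓝 (x - x)) := tendsto_id.sub tendsto_const_nhds
    simpa using this
  exact (Asymptotics.isLittleO_norm_pow_id (one_lt_two)).comp_tendsto h3

/-- a Lipschitz function whose derivative agrees with a continuous function wherever it exists is of class `C^1` -/
theorem Ht1_c1 {F : Type*} [NormedAddCommGroup F] [NormedSpace ℝ F] [FiniteDimensional ℝ F]
    {f : E → F} {C : NNReal} (hf : LipschitzWith C f) {S : E → E →L[ℝ] F} (hS : Continuous S)
    (hd : ∀ x, DifferentiableAt ℝ f x → fderiv ℝ f x = S x) (x : E) : HasFDerivAt f (S x) x := by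
  let _ : MeasurableSpace E := borel E
  have _ : BorelSpace E := ⟨rfl⟩
  have _ : CompleteSpace F := FiniteDimensional.complete ℝ F
  have _ : ProperSpace E := FiniteDimensional.proper_real E
  let μ : Measure E := Measure.addHaar
  have hR : ∀ᵐ x ∂μ, DifferentiableAt ℝ f x := hf.ae_differentiableAt
  have key : ∀ u x : E, f (x + u) - f x = ∫ s in (0 : ℝ)..1, S (x + s • u) u := by
    intro u
    have h1 : ∀ᵐ y ∂μ, ∀ᵐ s ∂(volume : Measure ℝ),
        y + (LinearMap.toSpanSingleton ℝ E u) s ∈ {x | DifferentiableAt ℝ f x} :=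
      (ae_ae_add_linearMap_mem_iff (LinearMap.toSpanSingleton ℝ E u) volume μ
        (measurableSet_of_differentiableAt ℝ f)).2 hR
    have hcS : ∀ x : E, Continuous fun s : ℝ => S (x + s • u) u := fun x =>
      (hS.comp (by fun_prop)).clm_apply continuous_const
    have h2 : (fun x => f (x + u) - f x) =ᵐ[μ] fun x => ∫ s in (0 : ℝ)..1, S (x + s • u) u := by
      filter_upwards [h1] with x hx
      refine (SeparatingDual.eq_iff_forall_dual_eq (R := ℝ)).2 fun ℓ => ?_
      have hlip : LipschitzWith (‖ℓ‖₊ * (C * ‖u‖₊)) (fun s : ℝ => ℓ (f (x + s • u))) := by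
        refine ℓ.lipschitz.comp (hf.comp ?_)
        refine LipschitzWith.of_dist_le_mul fun a b => ?_
        rw [dist_eq_norm, dist_eq_norm]
        have : x + a • u - (x + b • u) = (a - b) • u := by module
        rw [this, norm_smul, mul_comm]
        simp
      have hac := (hlip.lipschitzOnWith (s := uIcc (0 : ℝ) 1)).absolutelyContinuousOnInterval
      have hint := hac.integral_deriv_eq_sub
      have hderiv : ∀ᵐ s ∂(volume : Measure ℝ), s ∈ uIoc (0 : ℝ) 1 →
          deriv (fun s : ℝ => ℓ (f (x + s • u))) s = ℓ (S (x + s • u) u) := by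
        filter_upwards [hx] with s hs _
        have hs' : DifferentiableAt ℝ f (x + s • u) := by simpa using hs
        have e1 : HasFDerivAt f (S (x + s • u)) (x + s • u) := by
          rw [← hd _ hs']
          exact hs'.hasFDerivAt
        have e2 : HasDerivAt (fun s : ℝ => x + s • u) u s := by
          simpa using ((hasDerivAt_id s).smul_const u).const_add x
        have e3 := (ℓ.hasFDerivAt.comp_hasDerivAt s (e1.comp_hasDerivAt s e2))
        exact e3.deriv
      rw [intervalIntegral.integral_congr_ae hderiv] at hint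
      rw [← ContinuousLinearMap.intervalIntegral_comp_comm ℓ ((hcS x).intervalIntegrable _ _), hint]
      simp
    have h3 : Continuous fun x => ∫ s in (0 : ℝ)..1, S (x + s • u) u := by
      refine intervalIntegral.continuous_parametric_intervalIntegral_of_continuous' ?_ 0 1
      exact (hS.comp (by fun_prop)).clm_apply continuous_const
    have h4 : Continuous fun x => f (x + u) - f x :=
      (hf.continuous.comp (by fun_prop)).sub hf.continuous
    exact fun x => congrFun ((h4.ae_eq_iff_eq μ h3).1 h2) x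
  rw [hasFDerivAt_iff_isLittleO_nhds_zero]
  refine Asymptotics.IsLittleO.of_bound fun ε hε => ?_
  obtain ⟨δ, hδ, hδS⟩ := Metric.continuousAt_iff.1 hS.continuousAt ε hε
  filter_upwards [Metric.ball_mem_nhds (0 : E) hδ] with u hu
  have hu' : ‖u‖ < δ := by simpa using hu
  have hcS : Continuous fun s : ℝ => S (x + s • u) u :=
    (hS.comp (by fun_prop)).clm_apply continuous_const
  have e1 : f (x + u) - f x - S x u = ∫ s in (0 : ℝ)..1, (S (x + s • u) u - S x u) := by
    rw [intervalIntegral.integral_sub (hcS.intervalIntegrable _ _) intervalIntegrable_const,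
      key u x, intervalIntegral.integral_const]
    simp
  rw [e1]
  have e2 : ∀ s ∈ uIoc (0 : ℝ) 1, ‖S (x + s • u) u - S x u‖ ≤ ε * ‖u‖ := by
    intro s hs
    rw [uIoc_of_le zero_le_one] at hs
    have hd1 : dist (x + s • u) x < δ := by
      rw [dist_eq_norm, add_sub_cancel_left, norm_smul, Real.norm_eq_abs, abs_of_pos hs.1]
      calc s * ‖u‖ ≤ 1 * ‖u‖ := mul_le_mul_of_nonneg_right hs.2 (norm_nonneg _)
        _ < δ := by rw [one_mul]; exact hu'
    have hd2 := hδS hd1
    rw [dist_eq_norm] at hd2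
    rw [← sub_apply]
    exact le_trans (ContinuousLinearMap.le_opNorm _ _)
      (mul_le_mul_of_nonneg_right hd2.le (norm_nonneg _))
  simpa using intervalIntegral.norm_integral_le_of_norm_le_const e2

/-- a positive definite bilinear form is a linear equivalence to the dual -/
theorem Ht1_equiv {B : E →L[ℝ] E →L[ℝ] ℝ} (hB : ∀ v, v ≠ 0 → 0 < B v v) :
    ∃ e : E ≃L[ℝ] (E →L[ℝ] ℝ), (e : E →L[ℝ] (E →L[ℝ] ℝ)) = B := by
  have hinj : Function.Injective (B : E →ₗ[ℝ] (E →L[ℝ] ℝ)) := by
    rw [← LinearMap.ker_eq_bot, LinearMap.ker_eq_bot']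
    intro v hv
    by_contra hne
    have h1 := hB v hne
    rw [show B v = 0 from hv] at h1
    simp at h1
  have hfr : Module.finrank ℝ E = Module.finrank ℝ (E →L[ℝ] ℝ) := by
    rw [← (LinearMap.toContinuousLinearMap (𝕜 := ℝ) (E := E) (F' := ℝ)).finrank_eq]
    exact Subspace.dual_finrank_eq.symm
  refine ⟨(LinearMap.linearEquivOfInjective (B : E →ₗ[ℝ] (E →L[ℝ] ℝ))
    hinj hfr).toContinuousLinearEquiv, ?_⟩
  ext v w
  rfl

set_option maxSynthPendingDepth 3 in
/-- the Koszul combination of a trilinear form -/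
def Ht1_c (D : E →L[ℝ] E →L[ℝ] E →L[ℝ] ℝ) : E →L[ℝ] E →L[ℝ] E →L[ℝ] ℝ :=
  (1 / 2 : ℝ) • (D + D.flip -
    ((ContinuousLinearMap.flipₗᵢ ℝ E E ℝ).toContinuousLinearEquiv :
      (E →L[ℝ] E →L[ℝ] ℝ) →L[ℝ] (E →L[ℝ] E →L[ℝ] ℝ)).comp D.flip)

set_option maxSynthPendingDepth 3 in
omit [FiniteDimensional ℝ E] in
theorem Ht1_c_apply (D : E →L[ℝ] E →L[ℝ] E →L[ℝ] ℝ) (u v w : E) :
    Ht1_c D u v w = (D u v w + D v u w - D w u v) / 2 := by
  simp [Ht1_c]
  ring

set_option maxSynthPendingDepth 3 in
omit [FiniteDimensional ℝ E] in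
theorem Ht1_c_continuous : Continuous (Ht1_c (E := E)) := by
  unfold Ht1_c
  have h1 : Continuous fun D : E →L[ℝ] E →L[ℝ] E →L[ℝ] ℝ => D.flip :=
    (ContinuousLinearMap.flipₗᵢ ℝ E E (E →L[ℝ] ℝ)).continuous
  exact ((continuous_id.add h1).sub (continuous_const.clm_comp h1)).const_smul (1 / 2 : ℝ)

/-- the candidate for the derivative of `P` -/
def Ht1_S (g : E → E →L[ℝ] E →L[ℝ] ℝ) (P : E → E →L[ℝ] E) (x : E) : E →L[ℝ] E →L[ℝ] E :=
  (ContinuousLinearMap.compL ℝ E (E →L[ℝ] ℝ) E ((P x).comp (g x).inverse)).comp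
    (Ht1_c (fderiv ℝ g x))

omit [FiniteDimensional ℝ E] in
theorem Ht1_S_apply (g : E → E →L[ℝ] E →L[ℝ] ℝ) (P : E → E →L[ℝ] E) (x u v : E) :
    Ht1_S g P x u v = P x ((g x).inverse (Ht1_c (fderiv ℝ g x) u v)) := rfl

set_option maxSynthPendingDepth 3 in
theorem Ht1_S_continuous (hp : ∀ x v, v ≠ 0 → 0 < g x v v) (hg : ContDiff ℝ 1 g)
    (hP : Continuous P) : Continuous (Ht1_S g P) := by
  have h1 : Continuous fun x => (g x).inverse := by
    rw [continuous_iff_continuousAt]
    intro x
    obtain ⟨e, he⟩ := Ht1_equiv (hp x)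
    have h2 : ContinuousAt (ContinuousLinearMap.inverse (R := ℝ) (M := E) (M₂ := E →L[ℝ] ℝ)) (g x) := by
      rw [← he]
      exact (contDiffAt_map_inverse (𝕜 := ℝ) (n := 1) e).continuousAt
    exact ContinuousAt.comp (f := g) h2 hg.continuous.continuousAt
  have h3 : Continuous fun x => (P x).comp (g x).inverse := hP.clm_comp h1
  have h4 : Continuous fun x => Ht1_c (fderiv ℝ g x) :=
    Ht1_c_continuous.comp (hg.continuous_fderiv one_ne_zero)
  exact ((ContinuousLinearMap.compL ℝ E (E →L[ℝ] ℝ) E).continuous.comp h3).clm_comp h4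

set_option maxSynthPendingDepth 3 in
omit [FiniteDimensional ℝ E] in
/-- the Koszul formula at the points of differentiability -/
theorem Ht1_koszul (h : FlatS β g Q φ P) (hg : Differentiable ℝ g) {x : E}
    (hx : DifferentiableAt ℝ P x) (u v w : E) :
    Q (fderiv ℝ P x u v) (P x w) = Ht1_c (fderiv ℝ g x) u v w := by
  set T := fderiv ℝ P x with hT
  have hsym : ∀ a b, T a b = T b a :=
    second_derivative_symmetric (f := φ) (f' := P) h.hasFDerivAt hx.hasFDerivAt
  have hD : ∀ a b c, fderiv ℝ g x a b c = Q (T a b) (P x c) + Q (P x b) (T a c) := by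
    intro a b c
    have hl : HasDerivAt (fun s : ℝ => x + s • a) a 0 := by
      simpa using ((hasDerivAt_id (0 : ℝ)).smul_const a).const_add x
    have hx0 : x + (0 : ℝ) • a = x := by simp
    have hg1 : HasDerivAt (fun s : ℝ => g (x + s • a)) (fderiv ℝ g x a) 0 := by
      have hx' : HasFDerivAt g (fderiv ℝ g x) (x + (0 : ℝ) • a) := by
        rw [hx0]
        exact (hg x).hasFDerivAt
      exact hx'.comp_hasDerivAt (0 : ℝ) hl
    have hg2 : HasDerivAt (fun s : ℝ => g (x + s • a) b c) (fderiv ℝ g x a b c) 0 := by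
      have h1 := (hg1.clm_apply (hasDerivAt_const (0 : ℝ) b)).clm_apply (hasDerivAt_const (0 : ℝ) c)
      simpa using h1
    have hP1 : HasDerivAt (fun s : ℝ => P (x + s • a)) (T a) 0 := by
      have hx' : HasFDerivAt P T (x + (0 : ℝ) • a) := by rw [hx0]; exact hx.hasFDerivAt
      exact hx'.comp_hasDerivAt (0 : ℝ) hl
    have hPb : HasDerivAt (fun s : ℝ => P (x + s • a) b) (T a b) 0 := by
      simpa using hP1.clm_apply (hasDerivAt_const (0 : ℝ) b)
    have hPc : HasDerivAt (fun s : ℝ => P (x + s • a) c) (T a c) 0 := by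
      simpa using hP1.clm_apply (hasDerivAt_const (0 : ℝ) c)
    have hQ : HasDerivAt (fun s : ℝ => Q (P (x + s • a) b) (P (x + s • a) c))
        (Q (T a b) (P x c) + Q (P x b) (T a c)) 0 := by
      have h1 := (Q.hasFDerivAt.comp_hasDerivAt (0 : ℝ) hPb).clm_apply hPc
      simpa using h1
    have he : (fun s : ℝ => g (x + s • a) b c) = fun s : ℝ => Q (P (x + s • a) b) (P (x + s • a) c) := by
      funext s
      exact h.iso _ _ _
    rw [he] at hg2
    exact hg2.unique hQ
  rw [Ht1_c_apply, hD, hD, hD, hsym v u, hsym w u, hsym w v, h.symm (P x u) (T v w),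
    h.symm (P x v) (T u w)]
  ring

theorem Ht1_S_spec (h : FlatS β g Q φ P) (hp : ∀ x v, v ≠ 0 → 0 < g x v v) (x u v w : E) :
    Q (Ht1_S g P x u v) (P x w) = Ht1_c (fderiv ℝ g x) u v w := by
  obtain ⟨e, he⟩ := Ht1_equiv (hp x)
  rw [Ht1_S_apply, ← h.iso x, ← he, ContinuousLinearMap.inverse_equiv]
  simp

theorem Ht1_fderiv (h : FlatS β g Q φ P) (hp : ∀ x v, v ≠ 0 → 0 < g x v v)
    (hg : Differentiable ℝ g) (x : E) (hx : DifferentiableAt ℝ P x) :
    fderiv ℝ P x = Ht1_S g P x := by
  have hinj : Function.Injective (P x : E →ₗ[ℝ] E) := by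
    rw [← LinearMap.ker_eq_bot, LinearMap.ker_eq_bot']
    intro v hv
    by_contra hne
    have h1 := hp x v hne
    rw [h.iso, show P x v = 0 from hv] at h1
    simp at h1
  have hsurj : Function.Surjective (P x : E →ₗ[ℝ] E) := LinearMap.injective_iff_surjective.1 hinj
  ext u v : 2
  by_contra hne
  have h1 := h.pos (fderiv ℝ P x u v - Ht1_S g P x u v) (sub_ne_zero.2 hne)
  obtain ⟨w, hw⟩ := hsurj (fderiv ℝ P x u v - Ht1_S g P x u v)
  have hw' : P x w = fderiv ℝ P x u v - Ht1_S g P x u v := hw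
  have h2 : Q (fderiv ℝ P x u v - Ht1_S g P x u v) (fderiv ℝ P x u v - Ht1_S g P x u v) = 0 := by
    nth_rewrite 2 [← hw']
    rw [map_sub, sub_apply, Ht1_koszul h hg hx, Ht1_S_spec h hp, sub_self]
  exact h1.ne' h2

/-- `P` is of class `C^1`; the hypothesis `hp` holds for Riemannian metrics (`IsRiem.pos`) -/
theorem FlatS.c2 (h : FlatS β g Q φ P) (hp : ∀ x v, v ≠ 0 → 0 < g x v v) (hg : ContDiff ℝ 1 g) :
    ContDiff ℝ 1 P ∧
    ∀ x u v w, Q (fderiv ℝ P x u v) (P x w) =
      (fderiv ℝ g x u v w + fderiv ℝ g x v u w - fderiv ℝ g x w u v) / 2 := by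
  obtain ⟨K, hK⟩ := h.lip
  have hlip : LipschitzWith K.toNNReal P := by
    refine LipschitzWith.of_dist_le_mul fun x y => ?_
    rw [dist_eq_norm, dist_eq_norm]
    refine (hK y x).trans (mul_le_mul_of_nonneg_right (Real.le_coe_toNNReal K) (norm_nonneg _))
  have hgd : Differentiable ℝ g := hg.differentiable one_ne_zero
  have hS := Ht1_S_continuous hp hg hlip.continuous
  have hder : ∀ x, HasFDerivAt P (Ht1_S g P x) x :=
    Ht1_c1 hlip hS (Ht1_fderiv h hp hgd)
  refine ⟨?_, ?_⟩
  · rw [contDiff_one_iff_fderiv]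
    refine ⟨fun x => (hder x).differentiableAt, ?_⟩
    have : fderiv ℝ P = Ht1_S g P := funext fun x => (hder x).fderiv
    rw [this]
    exact hS
  · intro x u v w
    rw [Ht1_koszul h hgd (hder x).differentiableAt, Ht1_c_apply]

end Pool.Agent.EscG
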