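import Pool.Agent.EscG.TDefs

set_option autoImplicit false

/-!
# EscG, project H: diffeomorphisms of `𝕋ⁿ` homotopic to the identity, definitions
-/

noncomputable section

namespace EscG.T

open Filter Topology Set EscF.T
open scoped ContDiff

/-- `φ`, with inverse `ψ`, is the lift of a diffeomorphism of class `C^k` of `𝕋ⁿ` homotopic to the identity -/
structure TDiff {n : ℕ} (k : ℕ∞) (φ ψ : Vec n → Vec n) : Prop where
  left : ∀ x, ψ (φ x) = x
  right : ∀ y, φ (ψ y) = y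
  sφ : ContDiff ℝ k φ
  sψ : ContDiff ℝ k ψ
  pφ : ∀ (m : Fin n → ℤ) x, φ (x + vz m) = φ x + vz m
  pψ : ∀ (m : Fin n → ℤ) y, ψ (y + vz m) = ψ y + vz m

theorem TDiff.symm {n : ℕ} {k : ℕ∞} {φ ψ : Vec n → Vec n} (h : TDiff k φ ψ) : TDiff k ψ φ :=
  ⟨h.right, h.left, h.sψ, h.sφ, h.pψ, h.pφ⟩

/-- the potential `f ∘ φ` -/
def TDiff.pull {n : ℕ} {k : ℕ∞} {φ ψ : Vec n → Vec n} (h : TDiff k φ ψ) (f : Pot n k) : Pot n k where
  toFun := fun q => f.toFun (φ q.1, q.2)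
  contDiff := f.contDiff.comp ((h.sφ.comp contDiff_fst).prodMk contDiff_snd)
  periodic := by
    intro m l x t
    show f.toFun (φ (x + vz m), t + l) = f.toFun (φ x, t)
    rw [h.pφ, f.periodic]

/-- Lagrangian of a Riemannian metric and a potential -/
def rmech {n : ℕ} {k : ℕ∞} (g : Vec n → Vec n →L[ℝ] Vec n →L[ℝ] ℝ) (V : Pot n k) : Lag n :=
  fun q => g q.1 q.2.1 q.2.1 / 2 + V.toFun (q.1, q.2.2)

end EscG.T
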