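import Pool.Agent.EscG.OCore

/-!
Module O1 of project EscG: transport of the Lagrangian by a linear map.
-/

noncomputable section

namespace EscG.T

open Filter Topology Set Esc EscN EscF.T
open scoped ContDiff

namespace O1X

/-! ### Orthonormal coordinates of a scalar product -/

lemma iso_core {V : Type*} [AddCommGroup V] [Module ℝ V] [FiniteDimensional ℝ V] {n : ℕ}
    (hn : Module.finrank ℝ V = n) (c : InnerProductSpace.Core ℝ V) :
    ∃ A : V ≃ₗ[ℝ] EuclideanSpace ℝ (Fin n), ∀ v w, inner ℝ (A v) (A w) = c.inner v w := by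
  let _ : NormedAddCommGroup V := c.toNormedAddCommGroup
  let _ : InnerProductSpace ℝ V := InnerProductSpace.ofCore c.toCore
  let b := (stdOrthonormalBasis ℝ V).reindex (finCongr hn)
  exact ⟨b.repr.toLinearEquiv, fun v w => b.repr.inner_map_map v w⟩

/-- the core of a scalar product -/
@[reducible] def mkCore {n : ℕ} {Q : Vec n →L[ℝ] Vec n →L[ℝ] ℝ} (hQ : IsScalarProduct Q) :
    InnerProductSpace.Core ℝ (Vec n) where
  inner v w := Q v w
  conj_inner_symm v w := by
    rw [hQ.1 w v]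
    exact conj_trivial _
  re_inner_nonneg v := by
    by_cases h : v = 0
    · rw [h, map_zero]
      simp
    · exact (hQ.2 v h).le
  add_left u v w := by
    rw [map_add]
    rfl
  smul_left v w r := by
    rw [map_smul]
    rfl
  definite v h := by
    by_contra hv
    exact (hQ.2 v hv).ne' h

/-! ### Bounds of a Finsler metric -/

/-- the unit cube -/
def cube (n : ℕ) : Set (Vec n) := WithLp.toLp 2 '' (Icc (0 : Fin n → ℝ) 1)

lemma isCompact_cube (n : ℕ) : IsCompact (cube n) :=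
  isCompact_Icc.image (PiLp.continuous_toLp 2 _)

lemma cube_add {n : ℕ} (x : Vec n) : ∃ m : Fin n → ℤ, ∃ y ∈ cube n, y + vz m = x := by
  refine ⟨fun i => ⌊x i⌋, WithLp.toLp 2 (fun i => Int.fract (x i)), ⟨_, ⟨?_, ?_⟩, rfl⟩, ?_⟩
  · intro i
    exact Int.fract_nonneg _
  · intro i
    exact (Int.fract_lt_one _).le
  · ext i
    exact Int.fract_add_floor _

lemma F_zero {n : ℕ} {F : Vec n → Vec n → ℝ} (hF : IsFinsler F) (x : Vec n) : F x 0 = 0 := by
  have h := hF.hom x 0 0 le_rfl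
  rwa [zero_smul, zero_mul] at h

lemma F_bounds {n : ℕ} (A : Vec n ≃L[ℝ] Vec n) {F : Vec n → Vec n → ℝ} (hF : IsFinsler F) :
    ∃ a C : ℝ, 0 < a ∧ a ≤ C ∧ ∀ y v, a * ‖v‖ ≤ F y (A.symm v) ∧ F y (A.symm v) ≤ C * ‖v‖ := by
  have hK : IsCompact (cube n ×ˢ Metric.sphere (0 : Vec n) 1) :=
    (isCompact_cube n).prod (isCompact_sphere 0 1)
  have hc : Continuous (fun p : Vec n × Vec n => F p.1 (A.symm p.2)) := by
    have h1 : Continuous (fun p : Vec n × Vec n => (p.1, A.symm p.2)) :=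
      continuous_fst.prodMk (A.symm.continuous.comp continuous_snd)
    exact hF.cont.comp h1
  obtain ⟨a, ha, ha'⟩ := hK.exists_forall_le' hc.continuousOn (a := 0) (by
    rintro ⟨y, v⟩ ⟨-, hv⟩
    refine hF.pos y _ fun h => ?_
    have h1 : v = 0 := by
      have := congrArg A h
      rwa [A.apply_symm_apply, map_zero] at this
    rw [mem_sphere_zero_iff_norm] at hv
    simp only at hv
    rw [h1, norm_zero] at hv
    exact zero_ne_one hv)
  obtain ⟨C, hC⟩ := hK.exists_bound_of_continuousOn hc.continuousOn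
  have key : ∀ y v, v ≠ 0 → a * ‖v‖ ≤ F y (A.symm v) ∧ F y (A.symm v) ≤ C * ‖v‖ := by
    intro y v hv
    have hn : 0 < ‖v‖ := norm_pos_iff.2 hv
    obtain ⟨m, z, hz, rfl⟩ := cube_add y
    rw [hF.periodic]
    have hs : (z, (‖v‖)⁻¹ • v) ∈ cube n ×ˢ Metric.sphere (0 : Vec n) 1 := by
      refine ⟨hz, ?_⟩
      rw [mem_sphere_zero_iff_norm]
      simp only
      rw [norm_smul, norm_inv, norm_norm, inv_mul_cancel₀ hn.ne']
    have h1 : F z (A.symm v) = ‖v‖ * F z (A.symm ((‖v‖)⁻¹ • v)) := by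
      rw [← hF.hom _ _ _ hn.le, ← map_smul, smul_smul, mul_inv_cancel₀ hn.ne', one_smul]
    have h2 := ha' _ hs
    have h3 := (le_abs_self _).trans (hC _ hs)
    simp only at h2 h3
    rw [h1]
    constructor
    · nlinarith
    · nlinarith
  refine ⟨a, max C a, ha, le_max_right _ _, fun y v => ?_⟩
  by_cases hv : v = 0
  · subst hv
    rw [map_zero, F_zero hF, norm_zero, mul_zero, mul_zero]
    exact ⟨le_rfl, le_rfl⟩
  · refine ⟨(key y v hv).1, (key y v hv).2.trans ?_⟩
    exact mul_le_mul_of_nonneg_right (le_max_left _ _) (norm_nonneg _)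

/-! ### Taylor estimate -/

lemma t2 {φ φ' φ'' : ℝ → ℝ} (h1 : ∀ s, HasDerivAt φ (φ' s) s)
    (h2 : ∀ s, HasDerivAt φ' (φ'' s) s) {κ : ℝ} (h : ∀ s, κ ≤ φ'' s) :
    φ 0 + φ' 0 + κ / 2 ≤ φ 1 := by
  have h3 : Monotone fun s => φ' s - κ * s := by
    refine monotone_of_deriv_nonneg (fun s => ?_) (fun s => ?_)
    · exact ((h2 s).sub ((hasDerivAt_id s).const_mul κ)).differentiableAt
    · have h4 : HasDerivAt (fun s => φ' s - κ * s) (φ'' s - κ * 1) s :=
        (h2 s).sub ((hasDerivAt_id s).const_mul κ)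
      rw [h4.deriv]
      linarith [h s]
  have h5 : MonotoneOn (fun s => φ s - φ' 0 * s - κ / 2 * s ^ 2) (Ici 0) := by
    have hd : ∀ s, HasDerivAt (fun s => φ s - φ' 0 * s - κ / 2 * s ^ 2)
        (φ' s - φ' 0 * 1 - κ / 2 * (2 * s)) s := by
      intro s
      have h6 : HasDerivAt (fun s : ℝ => s ^ 2) (2 * s) s := by
        simpa using hasDerivAt_pow 2 s
      exact ((h1 s).sub ((hasDerivAt_id s).const_mul _)).sub (h6.const_mul _)
    refine monotoneOn_of_deriv_nonneg (convex_Ici 0) ?_ ?_ ?_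
    · exact fun s _ => (hd s).continuousAt.continuousWithinAt
    · exact fun s _ => (hd s).differentiableAt.differentiableWithinAt
    · intro s hs
      rw [interior_Ici] at hs
      rw [(hd s).deriv]
      have h7 := h3 (le_of_lt hs)
      simp only at h7
      linarith
  have h8 := h5 (mem_Ici.2 le_rfl) (mem_Ici.2 zero_le_one) zero_le_one
  simp only at h8
  linarith

section line

variable {W : Type*} [NormedAddCommGroup W] [NormedSpace ℝ W] {G : W → ℝ} (hG : ContDiff ℝ 2 G)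
include hG

lemma line1 (q p : W) (s : ℝ) :
    HasDerivAt (fun s : ℝ => G (q + s • p)) (fderiv ℝ G (q + s • p) p) s := by
  have h1 : HasFDerivAt G (fderiv ℝ G (q + s • p)) (q + s • p) :=
    (hG.differentiable (by norm_num) _).hasFDerivAt
  have h2 : HasDerivAt (fun s : ℝ => q + s • p) p s := by
    simpa using ((hasDerivAt_id s).smul_const p).const_add q
  exact h1.comp_hasDerivAt s h2

lemma line2 (q p : W) (s : ℝ) : HasDerivAt (fun s : ℝ => fderiv ℝ G (q + s • p) p)
    (fderiv ℝ (fderiv ℝ G) (q + s • p) p p) s := by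
  have h0 : ContDiff ℝ 1 (fderiv ℝ G) := hG.fderiv_right (by norm_num)
  have h1 : HasFDerivAt (fderiv ℝ G) (fderiv ℝ (fderiv ℝ G) (q + s • p)) (q + s • p) :=
    (h0.differentiable (by norm_num) _).hasFDerivAt
  have h2 : HasDerivAt (fun s : ℝ => q + s • p) p s := by
    simpa using ((hasDerivAt_id s).smul_const p).const_add q
  have h3 := h1.comp_hasDerivAt s h2
  exact h3.clm_apply (hasDerivAt_const s p) |>.congr_deriv (by simp)

lemma taylor_low {c : ℝ} {w : W} (hc : ∀ q, c * ‖w‖ ^ 2 ≤ iteratedFDeriv ℝ 2 G q ![w, w]) (q : W) :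
    G q + fderiv ℝ G q w + c * ‖w‖ ^ 2 / 2 ≤ G (q + w) := by
  have h1 := t2 (line1 hG q w) (line2 hG q w) (κ := c * ‖w‖ ^ 2) (fun s => by
    have h2 := hc (q + s • w)
    rw [iteratedFDeriv_two_apply] at h2
    exact h2)
  simpa only [zero_smul, add_zero, one_smul] using h1

end line

variable {n : ℕ} (A : Vec n ≃L[ℝ] Vec n)

lemma tl_smooth {L : Lag n} (hL : ContDiff ℝ 2 L) :
    ContDiff ℝ 2 (fun p : Vec n × Vec n × ℝ => tl A L p.1 p.2.1 p.2.2) := by
  have h1 : ContDiff ℝ 2 (fun p : Vec n × Vec n × ℝ => (A.symm p.1, A.symm p.2.1, p.2.2)) :=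
    (A.symm.contDiff.comp contDiff_fst).prodMk
      ((A.symm.contDiff.comp (contDiff_fst.comp contDiff_snd)).prodMk
        (contDiff_snd.comp contDiff_snd))
  exact hL.comp h1

lemma v_smooth {L : Lag n} (hL : ContDiff ℝ 2 L) (x : Vec n) (t : ℝ) :
    ContDiff ℝ 2 (fun u => L (x, u, t)) :=
  hL.comp (contDiff_const.prodMk (contDiff_id.prodMk contDiff_const))

lemma inner_gu {L : Lag n} (hL : ContDiff ℝ 2 L) (x v w : Vec n) (t : ℝ) :
    inner ℝ (gu (tl A L) x v t) w =
      fderiv ℝ (fun u => L (A.symm x, u, t)) (A.symm v) (A.symm w) := by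
  unfold gu gradient
  rw [InnerProductSpace.toDual_symm_apply]
  have h1 : HasFDerivAt (fun u => L (A.symm x, u, t))
      (fderiv ℝ (fun u => L (A.symm x, u, t)) (A.symm v)) (A.symm v) :=
    ((v_smooth hL _ _).differentiable (by norm_num) _).hasFDerivAt
  have h2 : HasFDerivAt (fun u => tl A L x u t)
      ((fderiv ℝ (fun u => L (A.symm x, u, t)) (A.symm v)).comp
        (A.symm : Vec n →L[ℝ] Vec n)) v :=
    h1.comp v A.symm.hasFDerivAt
  rw [h2.fderiv]
  rfl

lemma norm_le (w : Vec n) : ‖w‖ ≤ (1 + ‖(A : Vec n →L[ℝ] Vec n)‖) * ‖A.symm w‖ := by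
  have h2 : ‖(A : Vec n →L[ℝ] Vec n) (A.symm w)‖ ≤
      ‖(A : Vec n →L[ℝ] Vec n)‖ * ‖A.symm w‖ := ContinuousLinearMap.le_opNorm _ _
  have h3 : (A : Vec n →L[ℝ] Vec n) (A.symm w) = w := A.apply_symm_apply w
  rw [h3] at h2
  nlinarith [norm_nonneg (A.symm w)]

end O1X

open O1X

theorem exists_iso {n : ℕ} {Q : Vec n →L[ℝ] Vec n →L[ℝ] ℝ} (hQ : IsScalarProduct Q) :
    ∃ A : Vec n ≃L[ℝ] Vec n, ∀ v w, inner ℝ (A v) (A w) = Q v w := by
  obtain ⟨A, hA⟩ := iso_core (n := n) (by simp) (mkCore hQ)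
  exact ⟨A.toContinuousLinearEquiv, hA⟩

theorem exists_latBasis {n : ℕ} (A : Vec n ≃L[ℝ] Vec n) :
    ∃ β : Module.Basis (Fin n) ℝ (Vec n), IsLatBasis A β := by
  have hb : ∀ i, (EuclideanSpace.basisFun (Fin n) ℝ).toBasis.map A.toLinearEquiv i =
      A (EuclideanSpace.single i 1) := by
    intro i
    rw [Module.Basis.map_apply, OrthonormalBasis.coe_toBasis, EuclideanSpace.basisFun_apply]
    rfl
  refine ⟨(EuclideanSpace.basisFun (Fin n) ℝ).toBasis.map A.toLinearEquiv, fun i => ?_, fun m => ?_⟩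
  · refine ⟨Pi.single i 1, ?_⟩
    rw [hb]
    congr 1
    ext j
    by_cases hj : j = i
    · subst hj
      simp [vz]
    · simp [vz, hj]
  · refine ⟨m, ?_⟩
    simp only [hb]
    rw [← Finset.sum_congr rfl fun i _ => map_smul A (m i : ℝ) (EuclideanSpace.single i 1),
      ← map_sum]
    congr 1
    ext j
    rw [WithLp.ofLp_sum, Finset.sum_apply]
    simp [vz]

theorem tl_TL {n : ℕ} (A : Vec n ≃L[ℝ] Vec n) {F : Vec n → Vec n → ℝ} (hF : IsFinsler F) {L : Lag n}
    (hL : IsNear (fun x v => F x v ^ 2 / 2) L) : ∃ mF MF m M : ℝ, ∀ β : Module.Basis (Fin n) ℝ (Vec n),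
      IsLatBasis A β → TL β (tF A F) mF MF m M (tl A L) := by
  obtain ⟨a, C, ha, haC, hb⟩ := F_bounds A hF
  obtain ⟨c, hc, hconv⟩ := hL.convex
  obtain ⟨M1, hM1⟩ := hL.near
  obtain ⟨M2, hM2⟩ := hL.time
  have hA0 : 0 < 1 + ‖(A : Vec n →L[ℝ] Vec n)‖ := by positivity
  refine ⟨a, C, c / (1 + ‖(A : Vec n →L[ℝ] Vec n)‖) ^ 2, max M1 M2, fun β hβ => ?_⟩
  have hz0 : (vz (0 : Fin n → ℤ)) = 0 := by
    ext i; simp [vz]
  have hsym : ∀ i x, ∃ m : Fin n → ℤ, A.symm (x + β i) = A.symm x + vz m := by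
    intro i x
    obtain ⟨m, hm⟩ := hβ.1 i
    exact ⟨m, by rw [hm, map_add, A.symm_apply_apply]⟩
  refine
    { fins := ⟨ha, haC, ?_, ?_, ?_, fun x v => (hb _ v).1, fun x v => (hb _ v).2⟩
      m_pos := by positivity
      M_nonneg := (abs_nonneg _).trans ((hM1 0 0 0).trans (le_max_left _ _))
      smooth := tl_smooth A hL.smooth
      per := ?_
      pert := ?_
      conv := ?_
      l_t := ?_
      l_F := fun x v t => (hM1 _ _ _).trans (le_max_left _ _) }
  · have h1 : Continuous (fun p : Vec n × Vec n => (A.symm p.1, A.symm p.2)) :=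
      (A.symm.continuous.comp continuous_fst).prodMk (A.symm.continuous.comp continuous_snd)
    exact hF.cont.comp h1
  · intro i x v
    obtain ⟨m, hm⟩ := hsym i x
    unfold tF
    rw [hm, hF.periodic]
  · intro x v c hc
    unfold tF
    rw [map_smul, hF.hom _ _ _ hc]
  · intro i x v t
    obtain ⟨m, hm⟩ := hsym i x
    unfold tl
    have := hL.periodic m 0 (A.symm x) (A.symm v) t
    rw [Int.cast_zero, add_zero] at this
    rw [hm, this]
  · intro x v t
    unfold tl
    have := hL.periodic 0 1 (A.symm x) (A.symm v) t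
    rw [Int.cast_one, hz0, add_zero] at this
    exact this
  · intro x u v t
    rw [inner_gu A hL.smooth]
    have h1 := taylor_low (v_smooth hL.smooth (A.symm x) t) (c := c) (w := A.symm (u - v))
      (fun q => hconv (A.symm x) q t (A.symm (u - v))) (A.symm v)
    have h2 : A.symm v + A.symm (u - v) = A.symm u := by rw [map_sub]; abel
    rw [h2] at h1
    have h3 : c / (1 + ‖(A : Vec n →L[ℝ] Vec n)‖) ^ 2 * ‖u - v‖ ^ 2 ≤ c * ‖A.symm (u - v)‖ ^ 2 := by
      rw [div_mul_eq_mul_div, div_le_iff₀ (by positivity)]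
      have h4 : ‖u - v‖ ^ 2 ≤ ((1 + ‖(A : Vec n →L[ℝ] Vec n)‖) * ‖A.symm (u - v)‖) ^ 2 :=
        pow_le_pow_left₀ (norm_nonneg _) (norm_le A _) 2
      rw [mul_pow] at h4
      nlinarith
    unfold tl
    linarith
  · intro x v t t'
    have hd : Differentiable ℝ (fun s => L (A.symm x, A.symm v, s)) :=
      (hL.smooth.comp (contDiff_const.prodMk (contDiff_const.prodMk contDiff_id))).differentiable
        (by norm_num)
    have h1 := convex_univ.norm_image_sub_le_of_norm_deriv_le (𝕜 := ℝ)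
      (f := fun s => L (A.symm x, A.symm v, s)) (C := max M1 M2) (fun s _ => hd s)
      (fun s _ => by
        rw [Real.norm_eq_abs]
        exact (hM2 _ _ _).trans (le_max_right _ _)) (mem_univ t') (mem_univ t)
    rw [Real.norm_eq_abs, Real.norm_eq_abs] at h1
    exact h1

end EscG.T
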