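import Pool.Agent.EscG.OCore
import Pool.Agent.EscF.TO2

/-!
Module O3a of project EscG: a `C¹` solution of the Euler-Lagrange equation of a strictly convex
Lagrangian of class `C²` is `C²`.
-/

noncomputable section

namespace EscG.T

open Filter Topology Set EscF.T
open scoped ContDiff

section O3a

variable {n : ℕ}

theorem o3a_line (x v : Vec n) (t : ℝ) :
    HasFDerivAt (fun w : Vec n => ((x, w, t) : Vec n × Vec n × ℝ)) (to2J n) v := by
  have h1 : HasFDerivAt (fun w : Vec n => w) (ContinuousLinearMap.id ℝ (Vec n)) v := hasFDerivAt_id _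
  exact (hasFDerivAt_const x v).prodMk (h1.prodMk (hasFDerivAt_const t v))

/-- the derivative in the velocity -/
theorem o3a_fderiv_v {L : Lag n} (hL : ContDiff ℝ 2 L) (x v : Vec n) (t : ℝ) :
    fderiv ℝ (fun u : Vec n => L (x, u, t)) v = to2R n (fderiv ℝ L (x, v, t)) := by
  have hd : Differentiable ℝ L := hL.differentiable (by norm_num)
  have h := (hd (x, v, t)).hasFDerivAt.comp v (o3a_line x v t)
  exact h.fderiv

/-- the second derivative in the velocity -/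
theorem o3a_second {L : Lag n} (hL : ContDiff ℝ 2 L) (x v : Vec n) (t : ℝ) (w : Vec n) :
    iteratedFDeriv ℝ 2 (fun u : Vec n => L (x, u, t)) v ![w, w] =
      fderiv ℝ (fderiv ℝ L) (x, v, t) (0, w, 0) (0, w, 0) := by
  rw [iteratedFDeriv_two_apply]
  have h1 : fderiv ℝ (fun u : Vec n => L (x, u, t)) = fun u => to2R n (fderiv ℝ L (x, u, t)) :=
    funext fun u => o3a_fderiv_v hL x u t
  have h2 : Differentiable ℝ (fderiv ℝ L) := (hL.fderiv_right (m := 1) (by norm_num)).differentiable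
    (by norm_num)
  have h3 := (to2R n).hasFDerivAt.comp v ((h2 (x, v, t)).hasFDerivAt.comp v (o3a_line x v t))
  rw [h1]
  have h4 : fderiv ℝ (fun u => to2R n (fderiv ℝ L (x, u, t))) v =
      (to2R n).comp ((fderiv ℝ (fderiv ℝ L) (x, v, t)).comp (to2J n)) := h3.fderiv
  rw [h4]
  rfl

/-- the momentum map -/
def o3aG (L : Lag n) (q : Vec n × Vec n × ℝ) : Vec n × (Vec n →L[ℝ] ℝ) × ℝ :=
  (q.1, to2R n (fderiv ℝ L q), q.2.2)

/-- its derivative -/
def o3aG' (L : Lag n) (q : Vec n × Vec n × ℝ) :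
    (Vec n × Vec n × ℝ) →L[ℝ] (Vec n × (Vec n →L[ℝ] ℝ) × ℝ) :=
  (ContinuousLinearMap.fst ℝ (Vec n) (Vec n × ℝ)).prod
    (((to2R n).comp (fderiv ℝ (fderiv ℝ L) q)).prod
      ((ContinuousLinearMap.snd ℝ (Vec n) ℝ).comp (ContinuousLinearMap.snd ℝ (Vec n) (Vec n × ℝ))))

theorem o3a_smooth {L : Lag n} (hL : ContDiff ℝ 2 L) : ContDiff ℝ 1 (o3aG L) := by
  have h2 : ContDiff ℝ 1 (fderiv ℝ L) := hL.fderiv_right (by norm_num)
  exact contDiff_fst.prodMk (((to2R n).contDiff.comp h2).prodMk (contDiff_snd.comp contDiff_snd))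

theorem o3a_hasFDerivAt {L : Lag n} (hL : ContDiff ℝ 2 L) (q : Vec n × Vec n × ℝ) :
    HasFDerivAt (o3aG L) (o3aG' L q) q := by
  have h2 : ContDiff ℝ 1 (fderiv ℝ L) := hL.fderiv_right (by norm_num)
  have e2 : HasFDerivAt (fun q : Vec n × Vec n × ℝ => q.2.2)
      ((ContinuousLinearMap.snd ℝ (Vec n) ℝ).comp
        (ContinuousLinearMap.snd ℝ (Vec n) (Vec n × ℝ))) q :=
    ((ContinuousLinearMap.snd ℝ (Vec n) ℝ).comp
        (ContinuousLinearMap.snd ℝ (Vec n) (Vec n × ℝ))).hasFDerivAt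
  have e4 : HasFDerivAt (fderiv ℝ L) (fderiv ℝ (fderiv ℝ L) q) q :=
    (h2.differentiable (by norm_num) q).hasFDerivAt
  exact hasFDerivAt_fst.prodMk (((to2R n).hasFDerivAt.comp q e4).prodMk e2)

theorem o3a_injective {L : Lag n} (hL : ContDiff ℝ 2 L) {c : ℝ} (hc : 0 < c)
    (hconv : ∀ x v t w, c * ‖w‖ ^ 2 ≤ iteratedFDeriv ℝ 2 (fun u => L (x, u, t)) v ![w, w])
    (q : Vec n × Vec n × ℝ) : Function.Injective (o3aG' L q) := by
  rw [injective_iff_map_eq_zero]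
  rintro ⟨ξ, w, τ⟩ h0
  have h1 : ξ = 0 := congrArg Prod.fst h0
  have h2 : τ = 0 := congrArg (fun p => p.2.2) h0
  have h3 : to2R n (fderiv ℝ (fderiv ℝ L) q (ξ, w, τ)) = 0 := congrArg (fun p => p.2.1) h0
  subst h1 h2
  have h4 := congrArg (fun A : Vec n →L[ℝ] ℝ => A w) h3
  have h5 : fderiv ℝ (fderiv ℝ L) q (0, w, 0) (0, w, 0) = 0 := h4
  have h6 := hconv q.1 q.2.1 q.2.2 w
  rw [o3a_second hL] at h6
  have h7 : c * ‖w‖ ^ 2 ≤ 0 := by
    rw [← h5]; exact h6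
  have h8 : ‖w‖ ^ 2 ≤ 0 := by
    by_contra hn
    push Not at hn
    nlinarith [mul_pos hc hn]
  have h9 : w = 0 := by
    have : ‖w‖ = 0 := by nlinarith [norm_nonneg w]
    exact norm_eq_zero.mp this
  rw [h9]
  rfl

/-- the derivative as an equivalence -/
theorem o3a_exists_equiv {L : Lag n} (hL : ContDiff ℝ 2 L) {c : ℝ} (hc : 0 < c)
    (hconv : ∀ x v t w, c * ‖w‖ ^ 2 ≤ iteratedFDeriv ℝ 2 (fun u => L (x, u, t)) v ![w, w])
    (q : Vec n × Vec n × ℝ) :
    ∃ e : (Vec n × Vec n × ℝ) ≃L[ℝ] (Vec n × (Vec n →L[ℝ] ℝ) × ℝ),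
      (e : (Vec n × Vec n × ℝ) →L[ℝ] (Vec n × (Vec n →L[ℝ] ℝ) × ℝ)) = o3aG' L q := by
  have hi := o3a_injective hL hc hconv q
  have hs : Function.Surjective (o3aG' L q).toLinearMap :=
    (LinearMap.injective_iff_surjective_of_finrank_eq_finrank to2_finrank).mp hi
  refine ⟨(LinearEquiv.ofBijective (o3aG' L q).toLinearMap ⟨hi, hs⟩).toContinuousLinearEquiv, ?_⟩
  ext p <;> rfl

theorem o3a_v {L : Lag n} (hL : ContDiff ℝ 2 L) {c : ℝ} (hc : 0 < c)
    (hconv : ∀ x v t w, c * ‖w‖ ^ 2 ≤ iteratedFDeriv ℝ 2 (fun u => L (x, u, t)) v ![w, w])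
    {x v : ℝ → Vec n} {P : ℝ → Vec n →L[ℝ] ℝ} {t : ℝ} (hx : ContDiffAt ℝ 1 x t)
    (hv : ContinuousAt v t) (hP : ContDiffAt ℝ 1 P t)
    (hPe : ∀ᶠ s in 𝓝 t, P s = to2R n (fderiv ℝ L (x s, v s, s))) :
    ContDiffAt ℝ 1 v t := by
  obtain ⟨e, he⟩ := o3a_exists_equiv hL hc hconv (x t, v t, t)
  have hsm : ContDiffAt ℝ 1 (o3aG L) (x t, v t, t) := (o3a_smooth hL).contDiffAt
  have hd : HasFDerivAt (o3aG L)
      (e : (Vec n × Vec n × ℝ) →L[ℝ] (Vec n × (Vec n →L[ℝ] ℝ) × ℝ)) (x t, v t, t) := by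
    rw [he]; exact o3a_hasFDerivAt hL _
  have hinv := hsm.to_localInverse hd (by norm_num)
  set g := hsm.localInverse hd (by norm_num) with hg
  have hleft : ∀ᶠ q in 𝓝 (x t, v t, t), g (o3aG L q) = q :=
    (hsm.hasStrictFDerivAt' hd (by norm_num)).eventually_left_inverse
  have hcurve : ContinuousAt (fun s => (x s, v s, s)) t :=
    hx.continuousAt.prodMk (hv.prodMk continuousAt_id)
  have h1 : ∀ᶠ s in 𝓝 t, g (o3aG L (x s, v s, s)) = (x s, v s, s) := hcurve.eventually hleft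
  have h2 : ∀ᶠ s in 𝓝 t, v s = (g (x s, P s, s)).2.1 := by
    filter_upwards [h1, hPe] with s hs hs'
    have h3 : o3aG L (x s, v s, s) = (x s, P s, s) := by
      rw [hs']; rfl
    rw [h3] at hs
    rw [hs]
  have h4 : ContDiffAt ℝ 1 (fun s => (x s, P s, s)) t := hx.prodMk (hP.prodMk contDiffAt_id)
  have h5 : (x t, P t, t) = o3aG L (x t, v t, t) := by
    rw [hPe.self_of_nhds]; rfl
  have h6 : ContDiffAt ℝ 1 (fun s => g (x s, P s, s)) t := by
    refine ContDiffAt.comp t (g := g) (f := fun s => (x s, P s, s)) ?_ h4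
    rw [h5]; exact hinv
  have h7 : ContDiffAt ℝ 1 (fun s => (g (x s, P s, s)).2.1) t :=
    (contDiffAt_fst.comp _ (contDiffAt_snd.comp t h6))
  exact h7.congr_of_eventuallyEq h2

/-- a `C¹` solution of the Euler-Lagrange equation of a strictly convex Lagrangian is `C²` -/
theorem c2_of_c1 {n : ℕ} {L : Lag n} (hL : ContDiff ℝ 2 L) {c : ℝ} (hc : 0 < c)
    (hconv : ∀ x v t w, c * ‖w‖ ^ 2 ≤ iteratedFDeriv ℝ 2 (fun u => L (x, u, t)) v ![w, w])
    {x v : ℝ → Vec n} (hx : ∀ t, 0 < t → HasDerivAt x (v t) t) (hv : ContinuousOn v (Ioi 0))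
    (hEL : ∀ t, 0 < t → HasDerivAt (fun s => fderiv ℝ (fun w => L (x s, w, s)) (v s))
      (fderiv ℝ (fun y => L (y, v t, t)) (x t)) t) : IsOrbit L x := by
  have hx1 : ContDiffOn ℝ 1 x (Ioi 0) := to2_c1 hx hv
  have hB1 : Differentiable ℝ L := hL.differentiable (by norm_num)
  -- the force
  have hforce : ∀ t, fderiv ℝ (fun y => L (y, v t, t)) (x t) =
      (fderiv ℝ L (x t, v t, t)).comp (ContinuousLinearMap.inl ℝ (Vec n) (Vec n × ℝ)) := by
    intro t
    have h1 : HasFDerivAt (fun y : Vec n => y) (ContinuousLinearMap.id ℝ (Vec n)) (x t) :=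
      hasFDerivAt_id _
    have e1 : HasFDerivAt (fun y : Vec n => ((y, v t, t) : Vec n × Vec n × ℝ))
        (ContinuousLinearMap.inl ℝ (Vec n) (Vec n × ℝ)) (x t) :=
      h1.prodMk (hasFDerivAt_const (v t, t) (x t))
    exact ((hB1 (x t, v t, t)).hasFDerivAt.comp (x t) e1).fderiv
  have hxc : ContinuousOn x (Ioi 0) := hx1.continuousOn
  have hBc : Continuous (fderiv ℝ L) := hL.continuous_fderiv (by norm_num)
  have hPc : ContinuousOn (fun t => fderiv ℝ (fun y => L (y, v t, t)) (x t)) (Ioi 0) := by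
    simp_rw [hforce]
    have c1 : ContinuousOn (fun t => fderiv ℝ L (x t, v t, t)) (Ioi 0) :=
      hBc.comp_continuousOn (hxc.prodMk (hv.prodMk continuousOn_id))
    exact c1.clm_comp continuousOn_const
  have hP1 := to2_c1 hEL hPc
  have hv1 : ContDiffOn ℝ 1 v (Ioi 0) := by
    intro t ht
    have hnt : Ioi (0:ℝ) ∈ 𝓝 t := isOpen_Ioi.mem_nhds ht
    refine (o3a_v hL hc hconv (hx1.contDiffAt hnt) (hv.continuousAt hnt) (hP1.contDiffAt hnt)
      (Eventually.of_forall fun s => o3a_fderiv_v hL (x s) (v s) s)).contDiffWithinAt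
  have hderiv : ∀ t, 0 < t → deriv x t = v t := fun t ht => (hx t ht).deriv
  refine ⟨?_, ?_⟩
  · rw [show (2 : WithTop ℕ∞) = 1 + 1 from one_add_one_eq_two.symm,
      contDiffOn_succ_iff_deriv_of_isOpen isOpen_Ioi]
    refine ⟨hx1.differentiableOn (by norm_num), by simp, ?_⟩
    exact hv1.congr fun t ht => hderiv t ht
  · intro t ht
    refine ⟨hL.contDiffAt, ?_⟩
    rw [hderiv t ht]
    refine (hEL t ht).congr_of_eventuallyEq ?_
    filter_upwards [isOpen_Ioi.mem_nhds ht] with s hs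
    rw [hderiv s hs]

end O3a

end EscG.T
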