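import Pool.Agent.EscG.O3a

/-!
Project EscG (MP_6acca1_an), module O3b: an orbit of the transported Lagrangian, back in the original
coordinates.
-/

noncomputable section

namespace EscG.T

open Filter Topology Set Esc EscN EscF.T
open scoped ContDiff

namespace O3b

variable {n : ℕ}

/-- covectors from gradients -/
def cov (A : Vec n ≃L[ℝ] Vec n) : Vec n →L[ℝ] (Vec n →L[ℝ] ℝ) :=
  ((ContinuousLinearMap.compL ℝ (Vec n) (Vec n) ℝ).flip (A : Vec n →L[ℝ] Vec n)).comp (innerSL ℝ)

theorem cov_apply (A : Vec n ≃L[ℝ] Vec n) (g ξ : Vec n) : cov A g ξ = inner ℝ g (A ξ) := by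
  simp [cov]

/-- derivative in the old coordinates from the gradient in the new ones -/
theorem cov_gradient (A : Vec n ≃L[ℝ] Vec n) {φ : Vec n → ℝ} (V : Vec n)
    (hφ : DifferentiableAt ℝ φ (A.symm V)) :
    cov A (gradient (fun W => φ (A.symm W)) V) = fderiv ℝ φ (A.symm V) := by
  have h1 : HasFDerivAt (fun W => φ (A.symm W))
      ((fderiv ℝ φ (A.symm V)).comp (A.symm : Vec n →L[ℝ] Vec n)) V :=
    hφ.hasFDerivAt.comp V (A.symm : Vec n →L[ℝ] Vec n).hasFDerivAt
  ext ξ
  rw [cov_apply]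
  have h2 : inner ℝ (gradient (fun W => φ (A.symm W)) V) (A ξ) =
      fderiv ℝ (fun W => φ (A.symm W)) V (A ξ) := by
    unfold gradient
    rw [InnerProductSpace.toDual_symm_apply]
  rw [h2, h1.fderiv]
  simp

end O3b

/-- an escaping orbit of the transported Lagrangian, on `(t0,∞)` -/
theorem orbit_back {n : ℕ} {k : ℕ∞} (hk : 2 ≤ k) {K : Vec n → Vec n → ℝ} {L : Lag n} (hL : IsNear K L)
    (A : Vec n ≃L[ℝ] Vec n) (f : Pot n k) {t0 : ℝ} {x v : ℝ → Vec n} (hx : ∀ t, t0 < t → HasDerivAt x (v t) t)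
    (hv : ContinuousOn v (Ici t0))
    (hEL : ∀ t, t0 < t → HasDerivAt (fun s => gu (lf (tl A L) (core A f.toFun)) (x s) (v s) s)
      (gx (lf (tl A L) (core A f.toFun)) (x t) (v t) t) t)
    (hinf : Tendsto (fun t => ‖v t‖) atTop atTop) : HasOrbitToInfinity (addPot L f.toFun) := by
  have hf2 : ContDiff ℝ 2 f.toFun := by
    refine f.contDiff.of_le ?_
    have h0 : ((2 : ℕ∞) : WithTop ℕ∞) ≤ (k : WithTop ℕ∞) := WithTop.coe_le_coe.2 hk
    exact h0
  obtain ⟨N, hN⟩ := exists_nat_ge t0
  set y : ℝ → Vec n := fun t => A.symm (x (t + N)) with hy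
  set w : ℝ → Vec n := fun t => A.symm (v (t + N)) with hw
  have hL' : ContDiff ℝ 2 (addPot L f.toFun) := by
    unfold addPot
    exact hL.smooth.add (hf2.comp (contDiff_fst.prodMk (contDiff_snd.comp contDiff_snd)))
  have hper : ∀ a b t, addPot L f.toFun (a, b, t + N) = addPot L f.toFun (a, b, t) := by
    intro a b t
    have e0 : (vz (0 : Fin n → ℤ) : Vec n) = 0 := by
      ext i; simp [vz]
    have e1 := hL.periodic 0 (N : ℤ) a b t
    have e2 := f.periodic 0 (N : ℤ) a t
    rw [e0, add_zero, Int.cast_natCast] at e1 e2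
    unfold addPot
    simp only [e1, e2]
  obtain ⟨c, hc, hconv⟩ := hL.convex
  have hconv' : ∀ a b t z, c * ‖z‖ ^ 2 ≤
      iteratedFDeriv ℝ 2 (fun u => addPot L f.toFun (a, u, t)) b ![z, z] := by
    intro a b t z
    have e1 : (fun u => addPot L f.toFun (a, u, t)) = fun u => L (a, u, t) + f.toFun (a, t) := rfl
    have e2 : iteratedFDeriv ℝ 2 (fun u => L (a, u, t) + f.toFun (a, t)) b ![z, z] =
        iteratedFDeriv ℝ 2 (fun u => L (a, u, t)) b ![z, z] := by
      rw [iteratedFDeriv_two_apply, iteratedFDeriv_two_apply]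
      have e3 : (fderiv ℝ fun u => L (a, u, t) + f.toFun (a, t)) = fderiv ℝ fun u => L (a, u, t) := by
        funext q
        exact fderiv_add_const _
      rw [e3]
    rw [e1, e2]
    exact hconv a b t z
  have hdiff : Differentiable ℝ (addPot L f.toFun) := hL'.differentiable (by norm_num)
  have hdv : ∀ a t, Differentiable ℝ (fun u => addPot L f.toFun (a, u, t)) := by
    intro a t
    exact hdiff.comp ((differentiable_const a).prodMk (differentiable_id.prodMk (differentiable_const t)))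
  have hdx : ∀ b t, Differentiable ℝ (fun u => addPot L f.toFun (u, b, t)) := by
    intro b t
    exact hdiff.comp (differentiable_id.prodMk ((differentiable_const b).prodMk (differentiable_const t)))
  -- the two covectors
  have hgu : ∀ X V t, O3b.cov A (gu (lf (tl A L) (core A f.toFun)) X V t) =
      fderiv ℝ (fun u => addPot L f.toFun (A.symm X, u, t)) (A.symm V) := by
    intro X V t
    exact O3b.cov_gradient A (φ := fun u => addPot L f.toFun (A.symm X, u, t)) V (hdv _ _ _)
  have hgx : ∀ X V t, O3b.cov A (gx (lf (tl A L) (core A f.toFun)) X V t) =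
      fderiv ℝ (fun u => addPot L f.toFun (u, A.symm V, t)) (A.symm X) := by
    intro X V t
    exact O3b.cov_gradient A (φ := fun u => addPot L f.toFun (u, A.symm V, t)) X (hdx _ _ _)
  have hshift : ∀ t : ℝ, HasDerivAt (fun s : ℝ => s + (N : ℝ)) 1 t := fun t =>
    (hasDerivAt_id t).add_const _
  have hy' : ∀ t, 0 < t → HasDerivAt y (w t) t := by
    intro t ht
    have h1 : HasDerivAt (fun s => x (s + N)) (v (t + N)) t := by
      have := (hx (t + N) (by linarith)).scomp t (hshift t)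
      rw [one_smul] at this
      exact this
    exact (A.symm : Vec n →L[ℝ] Vec n).hasFDerivAt.comp_hasDerivAt t h1
  have hw' : ContinuousOn w (Ioi 0) := by
    have h1 : ContinuousOn (fun s : ℝ => v (s + N)) (Ioi 0) := by
      refine hv.comp (by fun_prop) ?_
      intro s hs
      have : (0 : ℝ) < s := hs
      show t0 ≤ s + N
      linarith
    exact (A.symm : Vec n →L[ℝ] Vec n).continuous.comp_continuousOn h1
  have hEL' : ∀ t, 0 < t → HasDerivAt
      (fun s => fderiv ℝ (fun u => addPot L f.toFun (y s, u, s)) (w s))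
      (fderiv ℝ (fun u => addPot L f.toFun (u, w t, t)) (y t)) t := by
    intro t ht
    have e1 : (fun s => fderiv ℝ (fun u => addPot L f.toFun (y s, u, s)) (w s)) =
        fun s => O3b.cov A (gu (lf (tl A L) (core A f.toFun)) (x (s + N)) (v (s + N)) (s + N)) := by
      funext s
      rw [hgu]
      simp only [hper]
      rfl
    have e2 : fderiv ℝ (fun u => addPot L f.toFun (u, w t, t)) (y t) =
        O3b.cov A (gx (lf (tl A L) (core A f.toFun)) (x (t + N)) (v (t + N)) (t + N)) := by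
      rw [hgx]
      simp only [hper]
      rfl
    rw [e1, e2]
    have h1 : HasDerivAt (fun s => gu (lf (tl A L) (core A f.toFun)) (x (s + N)) (v (s + N)) (s + N))
        (gx (lf (tl A L) (core A f.toFun)) (x (t + N)) (v (t + N)) (t + N)) t := by
      have := (hEL (t + N) (by linarith)).scomp t (hshift t)
      rw [one_smul] at this
      exact this
    exact (O3b.cov A).hasFDerivAt.comp_hasDerivAt t h1
  refine ⟨y, c2_of_c1 hL' hc hconv' hy' hw' hEL', ?_⟩
  have hlow : ∀ t, 0 < t → (‖(A : Vec n →L[ℝ] Vec n)‖ + 1)⁻¹ * ‖v (t + N)‖ ≤ ‖deriv y t‖ := by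
    intro t ht
    rw [(hy' t ht).deriv]
    have h1 : ‖v (t + N)‖ ≤ (‖(A : Vec n →L[ℝ] Vec n)‖ + 1) * ‖w t‖ := by
      have e1 : v (t + N) = (A : Vec n →L[ℝ] Vec n) (w t) := by simp [hw]
      calc ‖v (t + N)‖ = ‖(A : Vec n →L[ℝ] Vec n) (w t)‖ := by rw [← e1]
        _ ≤ ‖(A : Vec n →L[ℝ] Vec n)‖ * ‖w t‖ := (A : Vec n →L[ℝ] Vec n).le_opNorm _
        _ ≤ _ := mul_le_mul_of_nonneg_right (by linarith) (norm_nonneg _)
    have hpos : 0 < ‖(A : Vec n →L[ℝ] Vec n)‖ + 1 := by positivity
    rw [inv_mul_le_iff₀ hpos]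
    exact h1
  have hinf' : Tendsto (fun t : ℝ => (‖(A : Vec n →L[ℝ] Vec n)‖ + 1)⁻¹ * ‖v (t + N)‖) atTop atTop := by
    have hpos : 0 < (‖(A : Vec n →L[ℝ] Vec n)‖ + 1)⁻¹ := by positivity
    refine Tendsto.const_mul_atTop hpos ?_
    exact hinf.comp (tendsto_atTop_add_const_right _ _ tendsto_id)
  refine tendsto_atTop_mono' _ ?_ hinf'
  filter_upwards [eventually_gt_atTop 0] with t ht
  exact hlow t ht

end EscG.T
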