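import Pool.Agent.EscG.O2
import Pool.Agent.EscG.O3b
import Pool.Agent.EscG.A2b
import Pool.Agent.EscG.C4
import Pool.Agent.EscG.F2b
import Pool.Agent.EscG.F7b
import Pool.Agent.EscG.F8
import Pool.Agent.EscG.H4
import Pool.Agent.EscF.TT

/-!
Project EscG, module O4: the Baire argument.
-/

noncomputable section

namespace EscG.T

open Filter Topology Set Esc EscN EscF EscF.T
open scoped ContDiff

theorem O4_addPot {n : ℕ} {k : ℕ∞} (f G : Pot n k) {j : ℕ} (hj : (j : ℕ∞) ≤ k)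
    (q : Vec n × ℝ) : iteratedFDeriv ℝ j (Pot.add f G).toFun q - iteratedFDeriv ℝ j f.toFun q =
      iteratedFDeriv ℝ j G.toFun q := by
  have hj' : ((j : ℕ∞) : WithTop ℕ∞) ≤ (k : WithTop ℕ∞) := WithTop.coe_le_coe.2 hj
  have e : iteratedFDeriv ℝ j (f.toFun + G.toFun) q =
      iteratedFDeriv ℝ j f.toFun q + iteratedFDeriv ℝ j G.toFun q :=
    iteratedFDeriv_add_apply (f.contDiff.of_le hj').contDiffAt (G.contDiff.of_le hj').contDiffAt
  change iteratedFDeriv ℝ j (f.toFun + G.toFun) q - iteratedFDeriv ℝ j f.toFun q = _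
  rw [e, add_sub_cancel_left]

/-- nonempty open sets are reached by small perturbations -/
theorem O4_reach {n : ℕ} {k : ℕ∞} {O : Set (Pot n k)} (hO : IsOpen O) {f : Pot n k} (hf : f ∈ O) :
    ∃ (r : ℕ) (ε : ℝ), 0 < ε ∧ ∀ G : Pot n k,
      (∀ j ≤ r, ∀ q, ‖iteratedFDeriv ℝ j G.toFun q‖ < ε) → Pot.add f G ∈ O := by
  obtain ⟨r, ε, hε, hr, h⟩ := nhds_small f (hO.mem_nhds hf)
  refine ⟨r, ε, hε, fun G hG => h _ fun j hj q => ?_⟩
  rw [O4_addPot f G (le_trans (by exact_mod_cast hj) hr) q]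
  exact hG j hj q

/-- the bounds of `Good` are closed under uniform convergence -/
theorem O4_good_closed {n : ℕ} {β : Module.Basis (Fin n) ℝ (Vec n)} {m : ℝ} (hm : 0 ≤ m)
    {f : Vec n → ℝ → ℝ} (hf : Pt β f) (h : ¬ Good m f) :
    ∃ r > 0, ∀ f', Pt β f' → (∀ x t, |f x t - f' x t| ≤ r) → ¬ Good m f' := by
  by_contra hcon
  push Not at hcon
  apply h
  have key : ∀ r : ℝ, 0 < r → ∃ f' : Vec n → ℝ → ℝ, Good m f' ∧ ∀ x t, |f x t - f' x t| ≤ r := by
    intro r hr
    obtain ⟨f', -, h2, h3⟩ := hcon r hr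
    exact ⟨f', h3, h2⟩
  refine ⟨hm, hf.smooth.continuous, fun x t => ?_, fun x x' t => ?_, fun x t t' => ?_⟩
  · refine le_of_forall_pos_le_add fun ε hε => ?_
    obtain ⟨f', h1, h2⟩ := key ε hε
    have h3 := h1.bd x t
    have h4 := h2 x t
    have h5 : |f x t| ≤ |f x t - f' x t| + |f' x t| := by
      have := abs_add_le (f x t - f' x t) (f' x t)
      simpa using this
    linarith
  · refine le_of_forall_pos_le_add fun ε hε => ?_
    obtain ⟨f', h1, h2⟩ := key (ε / 2) (by positivity)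
    have h3 := abs_le.1 (h1.lipx x x' t)
    have h4 := abs_le.1 (h2 x t)
    have h5 := abs_le.1 (h2 x' t)
    rw [abs_le]
    constructor <;> linarith [h3.1, h3.2, h4.1, h4.2, h5.1, h5.2]
  · refine le_of_forall_pos_le_add fun ε hε => ?_
    obtain ⟨f', h1, h2⟩ := key (ε / 2) (by positivity)
    have h3 := abs_le.1 (h1.lipt x t t')
    have h4 := abs_le.1 (h2 x t)
    have h5 := abs_le.1 (h2 x t')
    rw [abs_le]
    constructor <;> linarith [h3.1, h3.2, h4.1, h4.2, h5.1, h5.2]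

/-- residual set, from open dense stages -/
theorem O4_residual {n : ℕ} {k : ℕ∞} (hk : 2 ≤ k) {A : Vec n ≃L[ℝ] Vec n}
    {β : Module.Basis (Fin n) ℝ (Vec n)} (hβ : IsLatBasis A β)
    (S : ℕ → (Vec n → ℝ → ℝ) → Prop) (Es : (Vec n → ℝ → ℝ) → Prop)
    (hopen : ∀ q f, Pt β f → S q f → ∃ r > 0, ∀ f', Pt β f' → (∀ x t, |f x t - f' x t| ≤ r) → S q f')
    (hdense : ∀ m : ℕ, ∃ q0 : ℕ, ∀ (N : SmNorm β) (q : ℕ), q0 ≤ q → ∀ f, Pt β f → Good m f →
      ∀ ε : ℝ, 0 < ε → ∃ G, Sm β G ∧ N.nm G ≤ ε ∧ S q (fun x t => f x t + G x t))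
    (hesc : ∀ m : ℕ, ∃ q0 : ℕ, ∀ q1 : ℕ, q0 ≤ q1 → ∀ f, Pt β f → Good m f →
      (∀ q : ℕ, q1 ≤ q → S q f) → Es f) :
    {f : Pot n k | Es (core A f.toFun)} ∈ residual (Pot n k) := by
  have := baire n k
  choose a ha using hdense
  choose b hb using hesc
  set W : ℕ → ℕ → Set (Pot n k) := fun m q =>
    {f | S (a m + q) (core A f.toFun)} ∪ {f | ¬ Good (m : ℝ) (core A f.toFun)} with hW
  have h2 : ∀ m q, W m q ∈ residual (Pot n k) := by
    intro m q
    refine residual_of_dense_open (IsOpen.union ?_ ?_) (dense_iff_inter_open.2 fun O hO hne => ?_)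
    · exact isOpen_of hk hβ (fun g => S (a m + q) g) fun f hf hS => hopen _ f hf hS
    · exact isOpen_of hk hβ (fun g => ¬ Good (m : ℝ) g) fun f hf hS =>
        O4_good_closed (Nat.cast_nonneg m) hf hS
    · obtain ⟨f, hf⟩ := hne
      by_cases hG : Good (m : ℝ) (core A f.toFun)
      · obtain ⟨r, ε, hε, h⟩ := O4_reach hO hf
        obtain ⟨G, hG1, hG2⟩ := dense_of hβ (fun g => S (a m + q) g) f (fun N e he => by
          obtain ⟨G, h1, h2, h3⟩ := ha m N (a m + q) (Nat.le_add_right _ _) _ (core_pt hk hβ f) hG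
            (e / 2) (by positivity)
          exact ⟨G, h1, by linarith, h3⟩) r hε
        exact ⟨Pot.add f G, h G hG1, Or.inl hG2⟩
      · exact ⟨f, hf, Or.inr hG⟩
  have h3 : (⋂ m, ⋂ q, W m q) ∈ residual (Pot n k) :=
    countable_iInter_mem.2 fun m => countable_iInter_mem.2 fun q => h2 m q
  refine mem_of_superset h3 fun f hf => ?_
  obtain ⟨C, hC, hGC⟩ := Pt.good (core_pt hk hβ f)
  obtain ⟨m, hm⟩ := exists_nat_ge C
  have hGm : Good (m : ℝ) (core A f.toFun) :=
    ⟨Nat.cast_nonneg m, hGC.cont, fun x t => (hGC.bd x t).trans hm,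
      fun x x' t => (hGC.lipx x x' t).trans (mul_le_mul_of_nonneg_right hm (norm_nonneg _)),
      fun x t t' => (hGC.lipt x t t').trans (mul_le_mul_of_nonneg_right hm (abs_nonneg _))⟩
  have hall : ∀ q : ℕ, a m ≤ q → S q (core A f.toFun) := by
    intro q hq
    obtain ⟨r, rfl⟩ := Nat.exists_eq_add_of_le hq
    rcases mem_iInter.1 (mem_iInter.1 hf m) r with h | h
    · exact h
    · exact absurd hGm h
  exact hb m (max (a m) (b m)) (le_max_right _ _) _ (core_pt hk hβ f) hGm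
    fun q hq => hall q ((le_max_left _ _).trans hq)

/-- residual set for the data of the core -/
theorem residual_gd {n : ℕ} {k : ℕ∞} (hk : 2 ≤ k) {d : ℕ} {D : GD (Fin n) d (Vec n)} (hD : D.Ok)
    {A : Vec n ≃L[ℝ] Vec n} (hβ : IsLatBasis A D.β) {K : Vec n → Vec n → ℝ} {L : Lag n}
    (hL : IsNear K L) {m M : ℝ} (hl : TL D.β D.F D.mF D.MF m M (tl A L)) :
    {f : Pot n k | HasOrbitToInfinity (addPot L f.toFun)} ∈ residual (Pot n k) := by
  obtain ⟨p, hp⟩ := exists_par hD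
  refine mem_of_superset (O4_residual hk hβ (fun q f => D.Stage p (lf (tl A L) f) q)
    (fun f => Escapes (tl A L) f) (fun q f hf hS => ?_) (fun m => ?_) (fun m => ?_)) fun f hf => ?_
  · exact stage_open hD hp hl hf hS
  · exact stage_dense hD hp hl m (Nat.cast_nonneg m)
  · exact escapes_of_stages hD hp hl m
  · obtain ⟨x, v, h1, h2, h3, h4⟩ := hf
    exact orbit_back hk hL A f (t0 := 1) (fun t ht => h1 t (by linarith))
      (h2.mono fun t ht => show (0:ℝ) < t from lt_of_lt_of_le one_pos ht) (fun t ht => by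
        have h5 := h3 t (by linarith)
        have e : (fun s => gu (lf (tl A L) (core A f.toFun)) (x s) (v s) s) =
            fun s => gu (tl A L) (x s) (v s) s := by
          funext s
          exact gu_lf hl _ _ _
        rw [e]
        exact h5) h4

end EscG.T
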