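import Pool.Agent.EscG.XDefs

/-!
Project EscG, module X8: the metric.
-/

noncomputable section

namespace EscG.X

open MeasureTheory Set Filter Topology Esc EscF EscF.T EscG.T
open scoped ContDiff

variable {n : ℕ} {X : XD n}

theorem X8_nonneg {k : ℕ} {Q : Vec k →L[ℝ] Vec k →L[ℝ] ℝ} (hQ : IsScalarProduct Q) (v : Vec k) :
    0 ≤ Q v v := by
  rcases eq_or_ne v 0 with rfl | hv
  · rw [map_zero]
  · exact (hQ.2 v hv).le

theorem X8_coord_cont {k : ℕ} (i : Fin k) : Continuous (fun x : Vec k => x i) := by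
  fun_prop

theorem X8_base_cont : Continuous (fun x : Vec (2 + n) => base x) := by
  unfold base
  exact (PiLp.continuous_toLp 2 _).comp (continuous_pi fun i => X8_coord_cont _)

theorem X8_fib_cont : Continuous (fun x : Vec (2 + n) => fib x) := by
  unfold fib
  exact (PiLp.continuous_toLp 2 _).comp (continuous_pi fun i => X8_coord_cont _)

theorem X8_base_vz (m : Fin (2 + n) → ℤ) (x : Vec (2 + n)) :
    base (x + vz m) = base x + vz (fun i => m (Fin.castAdd n i)) := by
  ext i
  simp [base, vz]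

theorem X8_base_smul (c : ℝ) (x : Vec (2 + n)) : base (c • x) = c • base x := by
  ext i
  simp [base]

theorem X8_fib_smul (c : ℝ) (x : Vec (2 + n)) : fib (c • x) = c • fib x := by
  ext i
  simp [fib]

theorem X8_zero {x : Vec (2 + n)} (h1 : base x = 0) (h2 : fib x = 0) : x = 0 := by
  ext i
  refine Fin.addCases (fun i => ?_) (fun j => ?_) i
  · have := congrArg (fun y : Vec 2 => y i) h1
    simpa [base] using this
  · have := congrArg (fun y : Vec n => y j) h2
    simpa [fib] using this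

theorem kinetic_nonneg {Q : Vec 2 →L[ℝ] Vec 2 →L[ℝ] ℝ} (hQ : IsScalarProduct Q) (ρ : Vec 2 → ℝ)
    {h : Vec (2 + n) → Vec n →L[ℝ] Vec n →L[ℝ] ℝ} (hh : IsFibreMetric h) (A : Vec 2 → Vec 2 →L[ℝ] Vec n)
    (x v : Vec (2 + n)) : 0 ≤ kinetic Q ρ h A x v := by
  unfold kinetic
  have h1 := X8_nonneg hQ (base v)
  have h2 := X8_nonneg (hh.scalar x) (vert A x v)
  positivity

theorem X8_vert_smul (A : Vec 2 → Vec 2 →L[ℝ] Vec n) (x v : Vec (2 + n)) (c : ℝ) :
    vert A x (c • v) = c • vert A x v := by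
  unfold vert
  rw [X8_base_smul, X8_fib_smul, map_smul, smul_sub]

theorem kinetic_finsler {Q : Vec 2 →L[ℝ] Vec 2 →L[ℝ] ℝ} (hQ : IsScalarProduct Q) {ρ : Vec 2 → ℝ}
    (hρ : IsConformalFactor ρ) {h : Vec (2 + n) → Vec n →L[ℝ] Vec n →L[ℝ] ℝ} (hh : IsFibreMetric h)
    {A : Vec 2 → Vec 2 →L[ℝ] Vec n} (hA : IsConnection A) :
    IsFinsler (fun x v => √(2 * kinetic Q ρ h A x v)) := by
  refine ⟨?_, fun m x v => ?_, fun x v c hc => ?_, fun x v hv => ?_⟩
  · have hb1 : Continuous (fun p : Vec (2 + n) × Vec (2 + n) => base p.1) := X8_base_cont.comp continuous_fst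
    have hb2 : Continuous (fun p : Vec (2 + n) × Vec (2 + n) => base p.2) := X8_base_cont.comp continuous_snd
    have hf0 : Continuous (fun p : Vec (2 + n) × Vec (2 + n) => fib p.2) := X8_fib_cont.comp continuous_snd
    have hf2 : Continuous (fun p : Vec (2 + n) × Vec (2 + n) => vert A p.1 p.2) := by
      unfold vert
      exact hf0.sub ((hA.cont.comp hb1).clm_apply hb2)
    have h1 : Continuous (fun p : Vec (2 + n) × Vec (2 + n) => ρ (base p.1) ^ 2) :=
      (hρ.smooth.continuous.comp hb1).pow 2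
    have h2 : Continuous (fun p : Vec (2 + n) × Vec (2 + n) => Q (base p.2) (base p.2)) :=
      (Q.continuous.comp hb2).clm_apply hb2
    have h3 : Continuous (fun p : Vec (2 + n) × Vec (2 + n) => h p.1 (vert A p.1 p.2) (vert A p.1 p.2)) :=
      ((hh.cont.comp continuous_fst).clm_apply hf2).clm_apply hf2
    unfold kinetic
    exact (continuous_const.mul (((h1.mul h2).add h3).div_const 2)).sqrt
  · have h1 : kinetic Q ρ h A (x + vz m) v = kinetic Q ρ h A x v := by
      unfold kinetic vert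
      rw [X8_base_vz, hρ.periodic, hh.periodic, hA.periodic]
    show √(2 * kinetic Q ρ h A (x + vz m) v) = √(2 * kinetic Q ρ h A x v)
    rw [h1]
  · have h1 : kinetic Q ρ h A x (c • v) = c ^ 2 * kinetic Q ρ h A x v := by
      unfold kinetic
      rw [X8_base_smul, X8_vert_smul]
      simp only [map_smul, _root_.smul_apply, smul_eq_mul]
      ring
    show √(2 * kinetic Q ρ h A x (c • v)) = c * √(2 * kinetic Q ρ h A x v)
    rw [h1, show 2 * (c ^ 2 * kinetic Q ρ h A x v) = c ^ 2 * (2 * kinetic Q ρ h A x v) by ring,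
      Real.sqrt_mul (sq_nonneg c), Real.sqrt_sq hc]
  · refine Real.sqrt_pos.2 (mul_pos two_pos ?_)
    unfold kinetic
    have h1 := X8_nonneg hQ (base v)
    have h2 := X8_nonneg (hh.scalar x) (vert A x v)
    have hp := hρ.pos (base x)
    by_cases hb : base v = 0
    · have hf : vert A x v ≠ 0 := by
        intro hf
        unfold vert at hf
        rw [hb, map_zero, sub_zero] at hf
        exact hv (X8_zero hb hf)
      have h3 := (hh.scalar x).2 (vert A x v) hf
      positivity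
    · have h3 := hQ.2 (base v) hb
      positivity

/-- bound of the fibre metric -/
theorem exists_Cf {h : Vec (2 + n) → Vec n →L[ℝ] Vec n →L[ℝ] ℝ} (hh : IsFibreMetric h) :
    ∃ C : ℝ, ∀ x w, h x w w ≤ C * ‖w‖ ^ 2 := by
  have hK : IsCompact (WithLp.toLp 2 '' (Set.univ.pi fun _ : Fin (2 + n) => Icc (0 : ℝ) 1) : Set (Vec (2 + n))) :=
    (isCompact_univ_pi fun _ => isCompact_Icc).image (PiLp.continuous_toLp 2 _)
  obtain ⟨C, hC⟩ := hK.exists_bound_of_continuousOn (f := h) hh.cont.continuousOn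
  refine ⟨C, fun x w => ?_⟩
  have h1 : h x = h (x + vz (fun i => -⌊x i⌋)) := (hh.periodic _ _).symm
  have h2 : ‖h x‖ ≤ C := by
    rw [h1]
    refine hC _ ⟨fun i => Int.fract (x i), fun i _ => ⟨Int.fract_nonneg _, (Int.fract_lt_one _).le⟩, ?_⟩
    ext i
    simp [vz, Int.fract, sub_eq_add_neg]
  calc h x w w ≤ ‖h x w w‖ := Real.le_norm_self _
    _ ≤ ‖h x‖ * ‖w‖ * ‖w‖ := (h x).le_opNorm₂ w w
    _ ≤ C * ‖w‖ ^ 2 := by
      rw [mul_assoc, ← sq]
      exact mul_le_mul_of_nonneg_right h2 (sq_nonneg _)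

end EscG.X
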