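import Pool.Agent.EscG.XDefs
import Pool.Agent.EscG.O1
import Pool.Agent.EscG.W7

/-!
Module X9 of project EscG: from the gap data in the plane with the conformal metric, in the coordinates
`X = A x`, to the gap data `Gap2` for the metric `ρ² Q` and the lattice `ℤ²`.
-/

noncomputable section

namespace EscG.X

open MeasureTheory Set Filter Topology Esc EscF EscF.T EscG.T
open scoped ContDiff

/-- a conformal factor is bounded below and above -/
theorem X9_bounds {ρ : Vec 2 → ℝ} (hρ : IsConformalFactor ρ) :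
    ∃ mF MF : ℝ, 0 < mF ∧ ∀ x, mF ≤ ρ x ∧ ρ x ≤ MF := by
  have hc : Continuous ρ := hρ.smooth.continuous
  have hK : IsCompact (Metric.closedBall (0 : Vec 2) 2) := isCompact_closedBall _ _
  have hne : (Metric.closedBall (0 : Vec 2) 2).Nonempty :=
    ⟨0, Metric.mem_closedBall_self (by norm_num)⟩
  obtain ⟨x0, -, h0⟩ := hK.exists_isMinOn hne hc.continuousOn
  obtain ⟨x1, -, h1⟩ := hK.exists_isMaxOn hne hc.continuousOn
  have key : ∀ x, ∃ y ∈ Metric.closedBall (0 : Vec 2) 2, ρ x = ρ y := by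
    intro x
    refine ⟨x + vz (fun i => -⌊x i⌋), ?_, (hρ.periodic _ _).symm⟩
    rw [mem_closedBall_zero_iff, EuclideanSpace.norm_eq, Real.sqrt_le_iff]
    refine ⟨by norm_num, ?_⟩
    have h2 : ∀ i, ‖(x + vz (fun i => -⌊x i⌋)) i‖ ^ 2 ≤ 1 := by
      intro i
      have e1 : (x + vz (fun i => -⌊x i⌋)) i = Int.fract (x i) := by
        show x i + ((-⌊x i⌋ : ℤ) : ℝ) = Int.fract (x i)
        rw [Int.cast_neg, ← sub_eq_add_neg, Int.self_sub_floor]
      rw [e1, Real.norm_eq_abs, sq_abs]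
      have e2 := Int.fract_nonneg (x i)
      have e3 := (Int.fract_lt_one (x i)).le
      nlinarith
    rw [Fin.sum_univ_two]
    have := h2 0
    have := h2 1
    linarith
  refine ⟨ρ x0, ρ x1, hρ.pos _, fun x => ?_⟩
  obtain ⟨y, hy, he⟩ := key x
  rw [he]
  exact ⟨h0 hy, h1 hy⟩

/-- linear images of admissible controls -/
theorem X9_adm (A : Vec 2 ≃L[ℝ] Vec 2) {u : ℝ → Vec 2} (hu : Adm u) : Adm (fun t => A (u t)) := by
  obtain ⟨hm, C, hC⟩ := hu
  refine ⟨A.continuous.comp_stronglyMeasurable hm, ‖(A : Vec 2 →L[ℝ] Vec 2)‖ * C, fun t => ?_⟩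
  exact ((A : Vec 2 →L[ℝ] Vec 2).le_opNorm (u t)).trans
    (mul_le_mul_of_nonneg_left (hC t) (norm_nonneg _))

theorem X9_traj (A : Vec 2 ≃L[ℝ] Vec 2) {u : ℝ → Vec 2} (hu : Adm u) (a : ℝ) (z : Vec 2) (t : ℝ) :
    traj a (A z) (fun s => A (u s)) t = A (traj a z u t) := by
  unfold traj
  rw [map_add]
  congr 1
  exact (A : Vec 2 →L[ℝ] Vec 2).intervalIntegral_comp_comm (hu.ii a t)

/-- `ℤ`-linear combinations of integral vectors -/
theorem X9_vz (p q : ℤ) (m m' : Fin 2 → ℤ) :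
    (p : ℝ) • vz m + (q : ℝ) • vz m' = vz (fun i => p * m i + q * m' i) := by
  ext i
  show (p : ℝ) * (m i : ℝ) + (q : ℝ) * (m' i : ℝ) = ((p * m i + q * m' i : ℤ) : ℝ)
  push_cast
  ring

/-- transport of the gap data -/
theorem X9_transport {Q : Vec 2 →L[ℝ] Vec 2 →L[ℝ] ℝ} {A : Vec 2 ≃L[ℝ] Vec 2}
    (hA : ∀ v w, inner ℝ (A v) (A w) = Q v w) {ρ : Vec 2 → ℝ} {β : Module.Basis (Fin 2) ℝ (Vec 2)}
    {B y : Vec 2 → ℝ} {l a τ : ℝ} {c0 c1 : ℝ → Vec 2}
    (h : Pool.Agent.EscG.GapE β (fun X => ρ (A.symm X)) B y l a τ c0 c1) :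
    Gap2 (fun x v => ρ x * √(Q v v)) (A.symm (β 0)) (A.symm (β 1)) (fun x => B (A x))
      (fun x => y (A x)) l a τ (fun t => A.symm (c0 t)) (fun t => A.symm (c1 t)) := by
  have hn : ∀ v, √(Q v v) = ‖A v‖ := by
    intro v
    rw [← hA v v, real_inner_self_eq_norm_sq, Real.sqrt_sq (norm_nonneg _)]
  have hint : ∀ (z : Vec 2) (u : ℝ → Vec 2), Adm u → ∀ a b : ℝ,
      (∫ t in a..b, ρ (A.symm (traj a (A z) (fun s => A (u s)) t)) * ‖A (u t)‖) =
        ∫ t in a..b, ρ (traj a z u t) * √(Q (u t) (u t)) := by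
    intro z u hu a b
    refine intervalIntegral.integral_congr fun t _ => ?_
    show ρ (A.symm (traj a (A z) (fun s => A (u s)) t)) * ‖A (u t)‖ =
      ρ (traj a z u t) * √(Q (u t) (u t))
    rw [X9_traj A hu, A.symm_apply_apply, hn]
  have hanch : ∀ c : ℝ → Vec 2, (∀ t, c (t + l) = c t + β 0) →
      (∃ v : ℝ → Vec 2, Continuous v ∧ ∀ t, HasDerivAt c (v t) t ∧
        ρ (A.symm (c t)) * ‖v t‖ = 1) → (∀ s t, B (c t) - B (c s) = t - s) →
      Anch (fun x v => ρ x * √(Q v v)) (A.symm (β 0)) (fun x => B (A x)) l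
        (fun t => A.symm (c t)) := by
    intro c h1 h2 h3
    obtain ⟨v, hv, hd⟩ := h2
    refine ⟨fun t => ?_, ⟨fun t => A.symm (v t), A.symm.continuous.comp hv, fun t => ⟨?_, ?_⟩⟩,
      fun s t => ?_⟩
    · show A.symm (c (t + l)) = A.symm (c t) + A.symm (β 0)
      rw [h1, map_add]
    · exact (A.symm : Vec 2 →L[ℝ] Vec 2).hasFDerivAt.comp_hasDerivAt t (hd t).1
    · show ρ (A.symm (c t)) * √(Q (A.symm (v t)) (A.symm (v t))) = 1
      rw [hn, A.apply_symm_apply]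
      exact (hd t).2
    · show B (A (A.symm (c t))) - B (A (A.symm (c s))) = t - s
      rw [A.apply_symm_apply, A.apply_symm_apply]
      exact h3 s t
  have hrange : ∀ (c : ℝ → Vec 2) (s : ℝ), {x | y x = s} = range c →
      {x | y (A x) = s} = range fun t => A.symm (c t) := by
    intro c s hc
    ext x
    have e1 : A x ∈ {x | y x = s} ↔ A x ∈ range c := by rw [hc]
    constructor
    · intro hx
      obtain ⟨t, ht⟩ := e1.1 hx
      exact ⟨t, by show A.symm (c t) = x; rw [ht, A.symm_apply_apply]⟩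
    · rintro ⟨t, rfl⟩
      show y (A (A.symm (c t))) = s
      rw [A.apply_symm_apply]
      have : c t ∈ {x | y x = s} := by rw [hc]; exact mem_range_self t
      exact this
  refine ⟨h.l_pos, ?_, ?_, ?_, h.τ_pos, h.τ_le, h.yc.comp A.continuous, ?_, ?_,
    hanch c0 h.c0_b h.c0_d h.c0_B, hanch c1 h.c1_b h.c1_d h.c1_B, hrange c0 0 h.y0,
    hrange c1 τ h.y1, ?_⟩
  · intro z u hu a b hab
    have e1 := h.cal (A z) (fun s => A (u s)) (X9_adm A hu) a b hab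
    rw [hint z u hu a b, X9_traj A hu] at e1
    exact e1
  · intro x
    show B (A (x + A.symm (β 0))) = B (A x) + l
    rw [map_add, A.apply_symm_apply, h.Bb]
  · intro x
    show B (A (x + A.symm (β 1))) = B (A x) + a
    rw [map_add, A.apply_symm_apply, h.Bg]
  · intro x
    show y (A (x + A.symm (β 0))) = y (A x)
    rw [map_add, A.apply_symm_apply, h.yb]
  · intro x
    show y (A (x + A.symm (β 1))) = y (A x) + 1
    rw [map_add, A.apply_symm_apply, h.yg]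
  · intro η hη
    obtain ⟨θ, hθ, hs⟩ := h.strict η hη
    refine ⟨θ, hθ, fun z u hu a b hab hη => ?_⟩
    have e1 := hs (A z) (fun s => A (u s)) (X9_adm A hu) a b hab (fun t ht => by
      rw [X9_traj A hu]
      exact hη t ht)
    rw [hint z u hu a b, X9_traj A hu] at e1
    exact e1

theorem exists_gap2 {Q : Vec 2 →L[ℝ] Vec 2 →L[ℝ] ℝ} (hQ : IsScalarProduct Q) {ρ : Vec 2 → ℝ}
    (hρ : IsConformalFactor ρ) (hne : ∃ x y, ρ x ≠ ρ y) :
    ∃ (bv gv : Vec 2) (B y : Vec 2 → ℝ) (l a τ : ℝ) (c0 c1 : ℝ → Vec 2), ZB bv gv ∧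
      Gap2 (fun x v => ρ x * √(Q v v)) bv gv B y l a τ c0 c1 := by
  obtain ⟨A, hA⟩ := exists_iso hQ
  obtain ⟨β, hβ1, hβ2⟩ := exists_latBasis A
  obtain ⟨mF, MF, hmF, hb⟩ := X9_bounds hρ
  have hconf : Pool.Agent.EscG.Conf β (fun X => ρ (A.symm X)) mF MF := by
    refine ⟨hρ.smooth.comp A.symm.contDiff, fun i x => ?_, hmF, fun x => (hb _).1,
      fun x => (hb _).2⟩
    obtain ⟨m, hm⟩ := hβ1 i
    show ρ (A.symm (x + β i)) = ρ (A.symm x)
    rw [hm, map_add, A.symm_apply_apply, hρ.periodic]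
  have hnc : ¬ ∃ c, ∀ X, ρ (A.symm X) = c := by
    rintro ⟨c, hc⟩
    obtain ⟨x, y, hxy⟩ := hne
    have e1 := hc (A x)
    have e2 := hc (A y)
    rw [A.symm_apply_apply] at e1 e2
    exact hxy (e1.trans e2.symm)
  obtain ⟨β', ⟨p, q, r, s, hdet, h0, h1⟩, B, y, l, a, τ, c0, c1, hG⟩ := hconf.main hnc
  refine ⟨A.symm (β' 0), A.symm (β' 1), fun x => B (A x), fun x => y (A x), l, a, τ,
    fun t => A.symm (c0 t), fun t => A.symm (c1 t), ?_, X9_transport hA hG⟩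
  obtain ⟨m0, hm0⟩ := hβ1 0
  obtain ⟨m1, hm1⟩ := hβ1 1
  have e0 : A.symm (β 0) = vz m0 := by rw [hm0, A.symm_apply_apply]
  have e1 : A.symm (β 1) = vz m1 := by rw [hm1, A.symm_apply_apply]
  refine ⟨⟨_, by rw [h0, map_add, map_smul, map_smul, e0, e1, X9_vz]⟩,
    ⟨_, by rw [h1, map_add, map_smul, map_smul, e0, e1, X9_vz]⟩, fun m => ?_⟩
  obtain ⟨c, hc⟩ := hβ2 m
  rw [Fin.sum_univ_two] at hc
  have hdet' : (p : ℝ) * s - q * r = 1 := by exact_mod_cast hdet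
  refine ⟨c 0 * s - c 1 * r, -(c 0 * q) + c 1 * p, ?_⟩
  have e3 : (c 0 : ℝ) = c 0 * (p * s - q * r) := by rw [hdet', mul_one]
  have e4 : (c 1 : ℝ) = c 1 * (p * s - q * r) := by rw [hdet', mul_one]
  have hE : (c 0 : ℝ) • β 0 + (c 1 : ℝ) • β 1 =
      ((c 0 * s - c 1 * r : ℤ) : ℝ) • β' 0 + ((-(c 0 * q) + c 1 * p : ℤ) : ℝ) • β' 1 := by
    rw [h0, h1]
    push_cast
    have e5 : (c 0 : ℝ) • β 0 + (c 1 : ℝ) • β 1 =
        ((c 0 : ℝ) * (p * s - q * r)) • β 0 + ((c 1 : ℝ) * (p * s - q * r)) • β 1 := by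
      rw [← e3, ← e4]
    rw [e5]
    module
  calc vz m = A.symm (A (vz m)) := (A.symm_apply_apply _).symm
    _ = A.symm (((c 0 * s - c 1 * r : ℤ) : ℝ) • β' 0 + ((-(c 0 * q) + c 1 * p : ℤ) : ℝ) • β' 1) := by
        rw [hc, hE]
    _ = _ := by rw [map_add, map_smul A.symm, map_smul A.symm]

end EscG.X
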