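import Pool.Agent.EscG.X1
import Pool.Agent.EscG.X8
import Pool.Agent.EscG.X9

/-!
Project EscG (MP_6acca1_an), module X10: the data on the product from the metric.
-/

noncomputable section

namespace EscG.X

open MeasureTheory Set Filter Topology Esc EscF EscF.T EscG.T
open scoped ContDiff

variable {n : ℕ}

theorem X10_nonneg {k : ℕ} {Q : Vec k →L[ℝ] Vec k →L[ℝ] ℝ} (hQ : IsScalarProduct Q) (v : Vec k) :
    0 ≤ Q v v := by
  by_cases hv : v = 0
  · rw [hv]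
    simp
  · exact (hQ.2 v hv).le

theorem X10_sq {Q : Vec 2 →L[ℝ] Vec 2 →L[ℝ] ℝ} (hQ : IsScalarProduct Q) {ρ : Vec 2 → ℝ}
    (hρ : IsConformalFactor ρ) (x v : Vec 2) : ρ x * √(Q v v) = √(ρ x ^ 2 * Q v v) := by
  rw [Real.sqrt_mul (sq_nonneg _), Real.sqrt_sq (hρ.pos x).le]

theorem exists_xd {Q : Vec 2 →L[ℝ] Vec 2 →L[ℝ] ℝ} (hQ : IsScalarProduct Q) {ρ : Vec 2 → ℝ}
    (hρ : IsConformalFactor ρ) (hne : ∃ x y, ρ x ≠ ρ y)
    {h : Vec (2 + n) → Vec n →L[ℝ] Vec n →L[ℝ] ℝ} (hh : IsFibreMetric h)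
    {A : Vec 2 → Vec 2 →L[ℝ] Vec n} (hA : IsConnection A) {mF MF : ℝ}
    (hF : ∀ β, IsLatBasis (ContinuousLinearEquiv.refl ℝ (Vec (2 + n))) β →
      Fins β (fun x v => √(2 * kinetic Q ρ h A x v)) mF MF) :
    ∃ X : XD n, X.Ok ∧ IsLatBasis (ContinuousLinearEquiv.refl ℝ (Vec (2 + n))) X.β ∧
      X.F = (fun x v => √(2 * kinetic Q ρ h A x v)) ∧ X.mF = mF ∧ X.MF = MF := by
  obtain ⟨bv, gv, B, y, l, a, τ, c0, c1, hz, hgap⟩ := exists_gap2 hQ hρ hne
  obtain ⟨β, h0, h1, h2, hlat⟩ := exists_beta hz n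
  obtain ⟨C, hC⟩ := exists_Cf hh
  have hfin := hF β hlat
  have hk : ∀ x v : Vec (2 + n), 2 * kinetic Q ρ h A x v =
      ρ (base x) ^ 2 * Q (base v) (base v) + h x (vert A x v) (vert A x v) := by
    intro x v
    unfold kinetic
    ring
  have hfn : ∀ (x : Vec (2 + n)) (w : Vec n), 0 ≤ h x w w := fun x w => X10_nonneg (hh.scalar x) w
  refine ⟨⟨β, fun x v => √(2 * kinetic Q ρ h A x v), mF, MF, fun x v => ρ x * √(Q v v), A, max C 0, bv,
    gv, B, y, l, a, τ, c0, c1⟩, ?_, hlat, rfl, rfl, rfl⟩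
  refine ⟨hfin, h0, h1, h2, ?_, ?_, ?_, ?_, ?_, ?_, hA.cont, ?_, hgap⟩
  · show Continuous (fun p : Vec 2 × Vec 2 => ρ p.1 * √(Q p.2 p.2))
    have c1 : Continuous (fun p : Vec 2 × Vec 2 => ρ p.1) := hρ.smooth.continuous.comp continuous_fst
    have c2 : Continuous (fun p : Vec 2 × Vec 2 => Q p.2 p.2) :=
      (Q.continuous.comp continuous_snd).clm_apply continuous_snd
    exact c1.mul c2.sqrt
  · intro x v c hc
    show ρ x * √(Q (c • v) (c • v)) = c * (ρ x * √(Q v v))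
    have e : Q (c • v) (c • v) = c ^ 2 * Q v v := by
      simp only [map_smul, _root_.smul_apply, smul_eq_mul]
      ring
    rw [e, Real.sqrt_mul (sq_nonneg _), Real.sqrt_sq hc]
    ring
  · intro x v
    show mF * ‖v‖ ≤ ρ x * √(Q v v)
    have eb : base (ib n v + fb (A x v)) = v := by rw [base_add, base_ib, base_fb, add_zero]
    have ef : fib (ib n v + fb (A x v)) = A x v := by rw [fib_add, fib_ib, fib_fb, zero_add]
    have ev : vert A (ib n x) (ib n v + fb (A x v)) = 0 := by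
      unfold vert
      rw [eb, ef, base_ib, sub_self]
    have e := hfin.low (ib n x) (ib n v + fb (A x v))
    rw [hk, ev, eb, base_ib, map_zero, add_zero, ← X10_sq hQ hρ] at e
    have e2 : ‖v‖ ≤ ‖ib n v + fb (A x v)‖ := by
      have e3 := norm_base_le (ib n v + fb (A x v))
      rwa [eb] at e3
    exact le_trans (mul_le_mul_of_nonneg_left e2 hfin.mF_pos.le) e
  · intro x v
    obtain ⟨m, rfl⟩ := hz.b
    show ρ (x + vz m) * √(Q v v) = ρ x * √(Q v v)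
    rw [hρ.periodic]
  · intro x v
    obtain ⟨m, rfl⟩ := hz.g
    show ρ (x + vz m) * √(Q v v) = ρ x * √(Q v v)
    rw [hρ.periodic]
  · intro x v
    show ρ (base x) * √(Q (base v) (base v)) ≤ √(2 * kinetic Q ρ h A x v)
    rw [X10_sq hQ hρ, hk]
    exact Real.sqrt_le_sqrt (by linarith [hfn x (vert A x v)])
  · intro x v
    show √(2 * kinetic Q ρ h A x v) ^ 2 ≤
      (ρ (base x) * √(Q (base v) (base v))) ^ 2 + max C 0 * ‖vert A x v‖ ^ 2
    have n1 : 0 ≤ ρ (base x) ^ 2 * Q (base v) (base v) := mul_nonneg (sq_nonneg _) (X10_nonneg hQ _)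
    rw [X10_sq hQ hρ, hk, Real.sq_sqrt (add_nonneg n1 (hfn x (vert A x v))), Real.sq_sqrt n1]
    have e1 := hC x (vert A x v)
    have e2 : C * ‖vert A x v‖ ^ 2 ≤ max C 0 * ‖vert A x v‖ ^ 2 :=
      mul_le_mul_of_nonneg_right (le_max_left _ _) (sq_nonneg _)
    linarith

end EscG.X
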