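import Pool.Agent.EscG.X1

/-!
Project EscG, application layer, module X2: elementary hypotheses, height function, zone.
-/

noncomputable section

namespace EscG.X

open MeasureTheory Set Filter Topology Esc EscF EscF.T EscG.T
open scoped ContDiff

variable {n : ℕ} {X : XD n}

/-! ## Periods -/

theorem X2_int {f : Vec 2 → ℝ} {v : Vec 2} {c : ℝ} (hf : ∀ x, f (x + v) = f x + c) (p : ℤ)
    (x : Vec 2) : f (x + (p : ℝ) • v) = f x + p * c := by
  have hn : ∀ k : ℕ, ∀ x, f (x + (k : ℝ) • v) = f x + k * c := by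
    intro k
    induction k with
    | zero => intro x; simp
    | succ k ih =>
      intro x
      have e : x + ((k + 1 : ℕ) : ℝ) • v = (x + (k : ℝ) • v) + v := by
        push_cast
        rw [add_smul, one_smul, add_assoc]
      rw [e, hf, ih]
      push_cast
      ring
  obtain ⟨k, rfl | rfl⟩ := p.eq_nat_or_neg
  · exact_mod_cast hn k x
  · have h1 := hn k (x + ((-(k : ℤ) : ℤ) : ℝ) • v)
    have e : x + ((-(k : ℤ) : ℤ) : ℝ) • v + (k : ℝ) • v = x := by
      push_cast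
      rw [neg_smul, neg_add_cancel_right]
    rw [e] at h1
    push_cast at h1 ⊢
    linarith

theorem X2_B (h : X.Ok) (p q : ℤ) (x : Vec 2) :
    X.B (x + ((p : ℝ) • X.bv + (q : ℝ) • X.gv)) = X.B x + (p * X.l + q * X.a) := by
  rw [← add_assoc, X2_int h.gap.Bg, X2_int h.gap.Bb]
  ring

theorem X2_yb (h : X.Ok) (x : Vec 2) : X.y (x + X.bv) = X.y x + 0 := by rw [h.gap.yb, add_zero]

theorem X2_y (h : X.Ok) (p q : ℤ) (x : Vec 2) :
    X.y (x + ((p : ℝ) • X.bv + (q : ℝ) • X.gv)) = X.y x + q := by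
  rw [← add_assoc, X2_int h.gap.yg, X2_int (X2_yb h)]
  ring

theorem X2_base (w : Vec 2) (m : Fin n → ℤ) : base (ib n w + fb (vz m)) = w := by
  rw [base_add, base_ib, base_fb, add_zero]

/-! ## The basis of the fast lattice -/

def X2_f (n : ℕ) : Fin (1 + n) → Fin (2 + n) :=
  Fin.addCases (fun _ => Fin.castAdd n 0) (fun j => Fin.natAdd 2 j)

theorem X2_f_l (k : Fin 1) : X2_f n (Fin.castAdd n k) = Fin.castAdd n 0 := Fin.addCases_left k

theorem X2_f_r (j : Fin n) : X2_f n (Fin.natAdd 1 j) = Fin.natAdd 2 j := Fin.addCases_right j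

theorem X2_f_inj (n : ℕ) : Function.Injective (X2_f n) := by
  intro i i'
  refine Fin.addCases (fun k => ?_) (fun j => ?_) i
  · refine Fin.addCases (fun k' => ?_) (fun j' => ?_) i'
    · intro _
      rw [Subsingleton.elim k k']
    · intro e
      rw [X2_f_l, X2_f_r] at e
      have e1 := congrArg Fin.val e
      simp at e1
      omega
  · refine Fin.addCases (fun k' => ?_) (fun j' => ?_) i'
    · intro e
      rw [X2_f_l, X2_f_r] at e
      have e1 := congrArg Fin.val e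
      simp at e1
    · intro e
      rw [X2_f_r, X2_f_r] at e
      have e1 := congrArg Fin.val e
      simp at e1
      have e2 : j = j' := Fin.ext (by omega)
      rw [e2]

theorem X2_bl (k : Fin 1) : X.gd.b (Fin.castAdd n k) = ib n X.bv :=
  Fin.addCases_left (motive := fun _ => Vec (2 + n)) (left := fun _ => ib n X.bv)
    (right := fun j => fb (EuclideanSpace.single j (1:ℝ))) k

theorem X2_br (j : Fin n) : X.gd.b (Fin.natAdd 1 j) = fb (EuclideanSpace.single j (1:ℝ)) :=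
  Fin.addCases_right (motive := fun _ => Vec (2 + n)) (left := fun _ => ib n X.bv)
    (right := fun j => fb (EuclideanSpace.single j (1:ℝ))) j

theorem X2_cl (k : Fin 1) : X.gd.c (Fin.castAdd n k) = X.l :=
  Fin.addCases_left (motive := fun _ => ℝ) (left := fun _ => X.l) (right := fun _ => 0) k

theorem X2_cr (j : Fin n) : X.gd.c (Fin.natAdd 1 j) = 0 :=
  Fin.addCases_right (motive := fun _ => ℝ) (left := fun _ => X.l) (right := fun _ => 0) j

theorem X2_b (h : X.Ok) (i : Fin (1 + n)) : X.gd.b i = X.β (X2_f n i) := by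
  refine Fin.addCases (fun k => ?_) (fun j => ?_) i
  · rw [X2_f_l, h.β0, X2_bl]
  · rw [X2_f_r, h.β2, X2_br]

/-! ## Integrability -/

theorem X2_ii (h : X.Ok) {u : ℝ → Vec (2 + n)} (hu : Adm u) (a : ℝ) (z : Vec (2 + n)) (p q : ℝ) :
    IntervalIntegrable (fun t => X.F (traj a z u t) (u t)) volume p q ∧
      IntervalIntegrable (fun t => X.F2 (base (traj a z u t)) (base (u t))) volume p q := by
  have htc : Continuous (traj a z u) := traj_cont hu a z
  obtain ⟨hm, C, hC⟩ := hu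
  have ht : StronglyMeasurable (traj a z u) := htc.stronglyMeasurable
  have hMF : 0 ≤ X.MF := h.fins.mF_pos.le.trans h.fins.mF_le
  have k1 : StronglyMeasurable (fun t => X.F (traj a z u t) (u t)) :=
    h.fins.cont.comp_stronglyMeasurable (ht.prodMk hm)
  have k2 : StronglyMeasurable (fun t => X.F2 (base (traj a z u t)) (base (u t))) :=
    h.F2c.comp_stronglyMeasurable ((continuous_base.comp_stronglyMeasurable ht).prodMk
      (continuous_base.comp_stronglyMeasurable hm))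
  have hu1 : ∀ t, X.F (traj a z u t) (u t) ≤ X.MF * C := fun t =>
    (h.fins.upp _ _).trans (mul_le_mul_of_nonneg_left (hC t) hMF)
  have hl1 : ∀ t, 0 ≤ X.F (traj a z u t) (u t) := fun t =>
    (mul_nonneg h.fins.mF_pos.le (norm_nonneg _)).trans (h.fins.low _ _)
  have hl2 : ∀ t, 0 ≤ X.F2 (base (traj a z u t)) (base (u t)) := fun t =>
    (mul_nonneg h.fins.mF_pos.le (norm_nonneg _)).trans (h.low2 _ _)
  refine ⟨(intervalIntegrable_const (c := X.MF * C)).mono_fun k1.aestronglyMeasurable ?_,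
    (intervalIntegrable_const (c := X.MF * C)).mono_fun k2.aestronglyMeasurable ?_⟩
  · refine Filter.Eventually.of_forall fun t => ?_
    show ‖X.F (traj a z u t) (u t)‖ ≤ ‖X.MF * C‖
    rw [Real.norm_of_nonneg (hl1 t)]
    exact (hu1 t).trans (le_abs_self _)
  · refine Filter.Eventually.of_forall fun t => ?_
    show ‖X.F2 (base (traj a z u t)) (base (u t))‖ ≤ ‖X.MF * C‖
    rw [Real.norm_of_nonneg (hl2 t)]
    exact (h.ge _ _).trans ((hu1 t).trans (le_abs_self _))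

theorem X2_sum_c (m : Fin (1 + n) → ℤ) :
    ∑ i, (m i : ℝ) * X.gd.c i = (m (Fin.castAdd n 0) : ℝ) * X.l := by
  rw [Fin.sum_univ_add, Fin.sum_univ_one, X2_cl]
  simp only [X2_cr, mul_zero, Finset.sum_const_zero, add_zero]

/-! ## Elementary hypotheses -/

theorem X2_cal (h : X.Ok) : Cal X.gd.b X.gd.F X.gd.B X.gd.c := by
  refine ⟨fun z u hu a b' hab => ?_, fun m x => ?_⟩
  · have h1 := h.gap.cal (base z) (fun s => base (u s)) (adm_base hu) a b' hab
    simp only [← base_traj hu] at h1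
    exact h1.trans (intervalIntegral.integral_mono_on hab (X2_ii h hu a z a b').2
      (X2_ii h hu a z a b').1 fun t _ => h.ge _ _)
  · show X.B (base (x + lv X.gd.b m)) = X.B (base x) + ∑ i, (m i : ℝ) * X.gd.c i
    rw [base_add, gd_lv, X2_base, X2_sum_c, X2_int h.gap.Bb]

theorem XD.Ok.pre (h : X.Ok) : X.gd.Pre where
  li := by
    have e : X.gd.b = X.β ∘ X2_f n := funext (X2_b h)
    rw [e]
    exact X.β.linearIndependent.comp _ (X2_f_inj n)
  bβ := fun i => ⟨X2_f n i, X2_b h i⟩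
  fins := h.fins
  cal := X2_cal h
  Bper := fun v hv => by
    obtain ⟨p, q, m, rfl⟩ := (h.mem_Lam v).1 hv
    refine ⟨p * X.l + q * X.a, fun x => ?_⟩
    show X.B (base (x + _)) = X.B (base x) + _
    rw [base_add, X2_base, X2_B h]

/-! ## The height function -/

theorem XD.Ok.Y_cont (h : X.Ok) : Continuous X.Y := h.gap.yc.comp continuous_base

theorem XD.Ok.Y_lv (h : X.Ok) (x : Vec (2 + n)) (m : Fin (1 + n) → ℤ) :
    X.Y (x + lv X.gd.b m) = X.Y x := by
  show X.y (base (x + lv X.gd.b m)) = X.y (base x)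
  rw [base_add, gd_lv, X2_base, X2_int (X2_yb h), mul_zero, add_zero]

theorem XD.Ok.Y_g (h : X.Ok) (x : Vec (2 + n)) (k : ℤ) : X.Y (x + (k : ℝ) • X.gd.g) = X.Y x + k := by
  show X.y (base (x + (k : ℝ) • ib n X.gv)) = X.y (base x) + k
  rw [base_add, base_smul, base_ib, X2_int h.gap.yg, mul_one]

/-- the height of a lattice vector -/
theorem XD.Ok.Y_Lam (h : X.Ok) {v : Vec (2 + n)} (hv : v ∈ X.gd.Lam) : ∃ (k : ℤ) (m : Fin (1 + n) → ℤ),
    v = (k : ℝ) • X.gd.g + lv X.gd.b m ∧ ∀ x, X.Y (x + v) = X.Y x + k := by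
  obtain ⟨p, q, m, rfl⟩ := (h.mem_Lam v).1 hv
  refine ⟨q, Fin.addCases (fun _ => p) m, ?_, fun x => ?_⟩
  · rw [gd_lv]
    simp only [Fin.addCases_left, Fin.addCases_right]
    show ib n ((p : ℝ) • X.bv + (q : ℝ) • X.gv) + fb (vz m) =
      (q : ℝ) • ib n X.gv + (ib n ((p : ℝ) • X.bv) + fb (vz m))
    simp only [ib_add, ib_smul]
    abel
  · show X.y (base (x + (ib n _ + fb (vz m)))) = X.y (base x) + q
    rw [base_add, X2_base, X2_y h]

theorem X2_red (X : XD n) : ∃ R : ℝ, 0 ≤ R ∧ ∀ x : Vec (2 + n), ∃ v ∈ X.gd.Lam, ‖x - v‖ ≤ R :=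
  ⟨∑ i, ‖X.β i‖, Finset.sum_nonneg fun _ _ => norm_nonneg _, fun x =>
    ⟨(ZSpan.floor X.β x : Vec (2 + n)), (ZSpan.floor X.β x).2, ZSpan.norm_fract_le X.β x⟩⟩

theorem XD.Ok.Y_uc (h : X.Ok) {ε : ℝ} (hε : 0 < ε) : ∃ δ : ℝ, 0 < δ ∧ ∀ x x' : Vec (2 + n),
    ‖x' - x‖ ≤ δ → |X.Y x' - X.Y x| < ε := by
  obtain ⟨R, hR, hred⟩ := X2_red X
  have hc : UniformContinuousOn X.Y (Metric.closedBall 0 (R + 1)) :=
    (isCompact_closedBall 0 (R + 1)).uniformContinuousOn_of_continuous h.Y_cont.continuousOn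
  obtain ⟨δ, hδ, hd⟩ := Metric.uniformContinuousOn_iff.1 hc ε hε
  refine ⟨min (δ / 2) 1, lt_min (half_pos hδ) one_pos, fun x x' hx => ?_⟩
  obtain ⟨v, hv, hn⟩ := hred x
  obtain ⟨k, m, -, hY⟩ := h.Y_Lam (X.gd.Lam.neg_mem hv)
  have e1 : X.Y x = X.Y (x - v) - k := by
    rw [sub_eq_add_neg x v, hY x]
    ring
  have e2 : X.Y x' = X.Y (x' - v) - k := by
    rw [sub_eq_add_neg x' v, hY x']
    ring
  rw [e1, e2]
  have hx1 : x - v ∈ Metric.closedBall (0 : Vec (2 + n)) (R + 1) := by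
    rw [mem_closedBall_zero_iff]
    linarith
  have hx2 : x' - v ∈ Metric.closedBall (0 : Vec (2 + n)) (R + 1) := by
    rw [mem_closedBall_zero_iff]
    have e : x' - v = (x' - x) + (x - v) := by abel
    rw [e]
    have h1 : ‖x' - x‖ ≤ 1 := hx.trans (min_le_right _ _)
    exact (norm_add_le _ _).trans (by linarith)
  have h2 : dist (x' - v) (x - v) < δ := by
    rw [dist_eq_norm, sub_sub_sub_cancel_right]
    have h1 : ‖x' - x‖ ≤ δ / 2 := hx.trans (min_le_left _ _)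
    linarith
  have h3 := hd (x' - v) hx2 (x - v) hx1 h2
  rw [Real.dist_eq] at h3
  have e : X.Y (x' - v) - k - (X.Y (x - v) - k) = X.Y (x' - v) - X.Y (x - v) := by ring
  rw [e]
  exact h3

theorem XD.Ok.y_uc (h : X.Ok) {ε : ℝ} (hε : 0 < ε) : ∃ δ : ℝ, 0 < δ ∧ ∀ x x' : Vec 2,
    ‖x' - x‖ ≤ δ → |X.y x' - X.y x| < ε := by
  obtain ⟨δ, hδ, hd⟩ := h.Y_uc hε
  refine ⟨δ, hδ, fun x x' hx => ?_⟩
  have h1 := hd (ib n x) (ib n x') (by rw [← ib_sub, norm_ib]; exact hx)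
  simpa only [XD.Y, base_ib] using h1

/-- bounded heights are bounded modulo the fast lattice -/
theorem XD.Ok.Y_X (h : X.Ok) (C : ℝ) : ∃ ρ : ℝ, ∀ x, |X.Y x| ≤ C → x ∈ X.gd.X ρ := by
  obtain ⟨R, hR, hred⟩ := X2_red X
  obtain ⟨C0, hC0⟩ := (isCompact_closedBall (0 : Vec (2 + n)) R).exists_bound_of_continuousOn
    h.Y_cont.continuousOn
  refine ⟨R + (C + C0) * ‖X.gd.g‖, fun x hx => ?_⟩
  obtain ⟨v, hv, hn⟩ := hred x
  obtain ⟨k, m, hkm, hY⟩ := h.Y_Lam (X.gd.Lam.neg_mem hv)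
  refine ⟨m, ?_⟩
  have e : x + lv X.gd.b m = (x - v) - (k : ℝ) • X.gd.g := by
    rw [sub_eq_add_neg x v, hkm]
    abel
  have h1 : X.Y (x - v) = X.Y x + k := by
    rw [sub_eq_add_neg]
    exact hY x
  have h2 := hC0 (x - v) (by rw [mem_closedBall_zero_iff]; exact hn)
  rw [Real.norm_eq_abs, abs_le] at h2
  rw [abs_le] at hx
  have hk : |(k : ℝ)| ≤ C + C0 := by
    rw [abs_le]
    constructor
    · linarith [h2.1, hx.2]
    · linarith [h2.2, hx.1]
  rw [e]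
  refine (norm_sub_le _ _).trans (add_le_add hn ?_)
  rw [norm_smul, Real.norm_eq_abs]
  exact mul_le_mul_of_nonneg_right hk (norm_nonneg _)

/-! ## The slow lattice vector and the zone -/

theorem XD.Ok.g_mem (h : X.Ok) : X.gd.g ∈ X.gd.Lam := by
  rw [h.mem_Lam]
  refine ⟨0, 1, 0, ?_⟩
  have e : fb (vz (0 : Fin n → ℤ)) = 0 := by
    have e1 : vz (0 : Fin n → ℤ) = 0 := by
      ext j
      simp [vz]
    rw [e1]
    exact map_zero (X1_fbL n)
  rw [e, add_zero, Int.cast_zero, Int.cast_one, zero_smul, zero_add, one_smul]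
  rfl

theorem XD.Ok.g_not (h : X.Ok) : ¬ X.gd.InJ X.gd.g := by
  rintro ⟨m, hm⟩
  have h1 := h.Y_lv 0 m
  have h2 := h.Y_g 0 1
  rw [← hm] at h1
  rw [Int.cast_one, one_smul, h1] at h2
  linarith

theorem XD.Ok.Z_closed (h : X.Ok) : IsClosed X.gd.Z :=
  (isClosed_le continuous_const h.Y_cont).inter (isClosed_le h.Y_cont continuous_const)

theorem XD.Ok.Z_J (h : X.Ok) (m : Fin (1 + n) → ℤ) (x : Vec (2 + n)) (hx : x ∈ X.gd.Z) :
    x + lv X.gd.b m ∈ X.gd.Z := by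
  show X.τ - 1 ≤ X.Y (x + lv X.gd.b m) ∧ X.Y (x + lv X.gd.b m) ≤ 0
  rw [h.Y_lv]
  exact hx

theorem XD.Ok.Z_cpt (h : X.Ok) : ∃ ρ : ℝ, X.gd.Z ⊆ X.gd.X ρ := by
  obtain ⟨ρ, hρ⟩ := h.Y_X 1
  refine ⟨ρ, fun x hx => hρ x ?_⟩
  have h1 : X.τ - 1 ≤ X.Y x ∧ X.Y x ≤ 0 := hx
  have hτ := h.gap.τ_pos
  rw [abs_le]
  exact ⟨by linarith [h1.1], by linarith [h1.2]⟩

theorem XD.Ok.Z_disj (h : X.Ok) (v : Vec (2 + n)) (hv : v ∈ X.gd.Lam) (hvJ : ¬ X.gd.InJ v)
    (x : Vec (2 + n)) (hx : x ∈ X.gd.Z) : x + v ∉ X.gd.Z := by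
  obtain ⟨k, m, hkm, hY⟩ := h.Y_Lam hv
  intro hx'
  have h1 : X.τ - 1 ≤ X.Y x ∧ X.Y x ≤ 0 := hx
  have h2 : X.τ - 1 ≤ X.Y (x + v) ∧ X.Y (x + v) ≤ 0 := hx'
  rw [hY] at h2
  have hτ := h.gap.τ_pos
  have k1 : (k : ℝ) < 1 := by linarith [h1.1, h2.2]
  have k2 : (-1 : ℝ) < k := by linarith [h1.2, h2.1]
  have k0 : k = 0 := by
    have a1 : k < 1 := by exact_mod_cast k1
    have a2 : -1 < k := by exact_mod_cast k2
    omega
  refine hvJ ⟨m, ?_⟩
  rw [hkm, k0, Int.cast_zero, zero_smul, zero_add]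

theorem XD.Ok.Y_q0 (h : X.Ok) : X.Y X.gd.q0 = 0 := by
  have h1 : X.c0 0 ∈ {x | X.y x = 0} := by
    rw [h.gap.y0]
    exact mem_range_self 0
  show X.y (base (ib n (X.c0 0))) = 0
  rw [base_ib]
  exact h1

theorem XD.Ok.Y_q1 (h : X.Ok) : X.Y X.gd.q1 = X.τ - 1 := by
  have h1 : X.c1 0 ∈ {x | X.y x = X.τ} := by
    rw [h.gap.y1]
    exact mem_range_self 0
  have h2 : X.y (X.c1 0) = X.τ := h1
  have h3 := h.gap.yg (X.c1 0 - X.gv)
  rw [sub_add_cancel, h2] at h3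
  show X.y (base (ib n (X.c1 0) - ib n X.gv)) = X.τ - 1
  rw [base_sub, base_ib, base_ib]
  linarith

/-- frontier of the zone -/
theorem XD.Ok.frontier_Z (h : X.Ok) {z : Vec (2 + n)} (hz : z ∈ frontier X.gd.Z) :
    X.Y z = 0 ∨ X.Y z = X.τ - 1 := by
  have e : X.gd.Z = X.Y ⁻¹' Icc (X.τ - 1) 0 := rfl
  rw [e] at hz
  have h1 := h.Y_cont.frontier_preimage_subset _ hz
  have h2 : X.τ - 1 ≤ 0 := by linarith [h.gap.τ_le]
  rw [mem_preimage, frontier_Icc h2] at h1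
  rcases h1 with h1 | h1
  · exact Or.inr h1
  · exact Or.inl h1

end EscG.X
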