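import Pool.Agent.EscG.X1
import Pool.Agent.EscG.X2
import Pool.Agent.EscG.C2

/-!
Project EscG (MP_6acca1_an), module X3: the anchors (helper85).
-/

noncomputable section

namespace EscG.X

open MeasureTheory Set Filter Topology Esc EscF EscF.T EscG.T
open scoped ContDiff

variable {n : ℕ} {X : XD n}

/-- the embedding of the base as a continuous linear map -/
def X3_ib (n : ℕ) : Vec 2 →L[ℝ] Vec (2 + n) :=
  ⟨⟨⟨ib n, ib_add⟩, ib_smul⟩, continuous_ib⟩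

theorem X3_ib_apply (x : Vec 2) : X3_ib n x = ib n x := rfl

/-- the embedding of the fibre as a continuous linear map -/
def X3_fb (n : ℕ) : Vec n →L[ℝ] Vec (2 + n) :=
  ⟨⟨⟨fb, fb_add⟩, fb_smul⟩, continuous_fb⟩

theorem X3_fb_apply (x : Vec n) : X3_fb n x = fb x := rfl

theorem X3_fb_zero : fb (0 : Vec n) = 0 := by
  have h := fb_smul (n := n) 0 0
  rwa [zero_smul, zero_smul] at h

theorem X3_anch_per {F2 : Vec 2 → Vec 2 → ℝ} {bv : Vec 2} {B : Vec 2 → ℝ} {l : ℝ} {c : ℝ → Vec 2}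
    (hc : Anch F2 bv B l c) (t : ℝ) (N : ℕ) : c (t + N * l) = c t + (N : ℝ) • bv := by
  induction N with
  | zero => simp
  | succ N ih =>
    have e : t + ((N + 1 : ℕ) : ℝ) * l = (t + N * l) + l := by push_cast; ring
    rw [e, hc.per, ih]
    push_cast
    rw [add_smul, one_smul, add_assoc]

/-- clamping to the unit interval -/
def X3_cl (σ : ℝ) : ℝ := max 0 (min σ 1)

theorem X3_cl_cont : Continuous X3_cl := continuous_const.max (continuous_id.min continuous_const)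

theorem X3_cl_mem (σ : ℝ) : X3_cl σ ∈ Icc (0:ℝ) 1 :=
  ⟨le_max_left _ _, max_le zero_le_one (min_le_right _ _)⟩

theorem X3_cl_eq {σ : ℝ} (h : σ ∈ Icc (0:ℝ) 1) : X3_cl σ = σ := by
  unfold X3_cl
  rw [min_eq_left h.2, max_eq_right h.1]

/-- fast path over the anchor curve; `I` is the holonomy -/
theorem X3_seg (h : X.Ok) {c : ℝ → Vec 2} (hc : Anch X.F2 X.bv X.B X.l c) (s : ℝ) {T : ℝ} (hT : 0 < T) :
    ∃ I : Vec n, ∀ w w' : Vec n, fd X.F (ib n (c s) + fb w) (ib n (c (s + T)) + fb w') ^ 2 ≤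
      T ^ 2 + X.Cf * ‖w' - w - I‖ ^ 2 := by
  obtain ⟨v, hv, hd⟩ := hc.der
  have hm := h.fins.mF_pos
  have hcc : Continuous c := continuous_iff_continuousAt.2 fun t => (hd t).1.continuousAt
  have haff : Continuous fun σ : ℝ => s + T * σ := by fun_prop
  have hvc : Continuous fun σ : ℝ => v (s + T * σ) := hv.comp haff
  obtain ⟨κ, hκ⟩ : ∃ κ : ℝ → Vec n, κ = fun σ =>
      X.om (c (s + T * X3_cl σ)) (T • v (s + T * X3_cl σ)) := ⟨_, rfl⟩
  have hκc : Continuous κ := by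
    rw [hκ]
    have h1 : Continuous fun σ : ℝ => X.om (c (s + T * X3_cl σ)) :=
      h.omc.comp (hcc.comp (haff.comp X3_cl_cont))
    exact h1.clm_apply ((hvc.comp X3_cl_cont).const_smul T)
  obtain ⟨Cκ, hCκ⟩ : ∃ C : ℝ, ∀ σ, ‖κ σ‖ ≤ C := by
    obtain ⟨C, hC⟩ := isCompact_Icc.exists_bound_of_continuousOn (s := Icc (0:ℝ) 1) hκc.continuousOn
    refine ⟨C, fun σ => ?_⟩
    have h1 : κ σ = κ (X3_cl σ) := by
      rw [hκ]
      simp only
      rw [X3_cl_eq (X3_cl_mem σ)]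
    rw [h1]
    exact hC _ (X3_cl_mem σ)
  refine ⟨∫ r in (0:ℝ)..1, κ r, fun w w' => ?_⟩
  obtain ⟨ξ, hξ⟩ : ∃ ξ, ξ = w' - w - ∫ r in (0:ℝ)..1, κ r := ⟨_, rfl⟩
  rw [← hξ]
  obtain ⟨u, hu⟩ : ∃ u : ℝ → Vec (2 + n), u = fun σ => T • ib n (v (s + T * σ)) + fb (κ σ + ξ) :=
    ⟨_, rfl⟩
  have hvb : ∀ t, ‖v t‖ ≤ 1 / X.mF := fun t => by
    rw [le_div_iff₀ hm, mul_comm]
    exact (h.low2 (c t) (v t)).trans_eq (hd t).2
  have huc : Continuous u := by
    rw [hu]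
    exact ((continuous_ib.comp hvc).const_smul T).add
      (continuous_fb.comp (hκc.add continuous_const))
  have hadm : Adm u := by
    refine ⟨huc.stronglyMeasurable, T * (1 / X.mF) + (Cκ + ‖ξ‖), fun t => ?_⟩
    rw [hu]
    refine (norm_add_le _ _).trans (add_le_add ?_ ?_)
    · rw [norm_smul, norm_ib, Real.norm_of_nonneg hT.le]
      exact mul_le_mul_of_nonneg_left (hvb _) hT.le
    · rw [norm_fb]
      exact (norm_add_le _ _).trans (add_le_add (hCκ t) le_rfl)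
  obtain ⟨J, hJ⟩ : ∃ J : ℝ → Vec n, J = fun σ => ∫ r in (0:ℝ)..σ, κ r := ⟨_, rfl⟩
  have hJd : ∀ σ, HasDerivAt J (κ σ) σ := fun σ => by
    rw [hJ]
    exact intervalIntegral.integral_hasDerivAt_right (hκc.intervalIntegrable _ _)
      hκc.aestronglyMeasurable.stronglyMeasurableAtFilter hκc.continuousAt
  obtain ⟨P, hP⟩ : ∃ P : ℝ → Vec (2 + n), P = fun σ => ib n (c (s + T * σ)) + fb (J σ + σ • ξ) :=
    ⟨_, rfl⟩
  have hPd : ∀ σ, HasDerivAt P (u σ) σ := fun σ => by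
    have h1 : HasDerivAt (fun σ : ℝ => s + T * σ) T σ := by
      simpa using ((hasDerivAt_id σ).const_mul T).const_add s
    have h2 : HasDerivAt (fun σ : ℝ => c (s + T * σ)) (T • v (s + T * σ)) σ :=
      HasDerivAt.scomp σ (hd (s + T * σ)).1 h1
    have h3 := (X3_ib n).hasFDerivAt.comp_hasDerivAt σ h2
    have h4 : HasDerivAt (fun σ : ℝ => σ • ξ) ((1 : ℝ) • ξ) σ := (hasDerivAt_id σ).smul_const _
    rw [one_smul] at h4
    have h5 := (X3_fb n).hasFDerivAt.comp_hasDerivAt σ ((hJd σ).add h4)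
    have h6 := h3.add h5
    rw [X3_ib_apply, ib_smul, X3_fb_apply] at h6
    rw [hP, hu]
    exact h6
  obtain ⟨z, hz⟩ : ∃ z, z = ib n (c s) + fb w := ⟨_, rfl⟩
  have htr : ∀ σ, traj 0 z u σ = ib n (c (s + T * σ)) + fb (w + J σ + σ • ξ) := fun σ => by
    have h1 : (∫ r in (0:ℝ)..σ, u r) = P σ - P 0 :=
      intervalIntegral.integral_eq_sub_of_hasDerivAt (fun r _ => hPd r) (huc.intervalIntegrable _ _)
    have h2 : J 0 = 0 := by rw [hJ]; exact intervalIntegral.integral_same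
    unfold traj
    rw [h1, hP, hz]
    simp only [mul_zero, add_zero, zero_smul, h2, X3_fb_zero]
    rw [add_assoc w, fb_add w]
    abel
  have hend : traj 0 z u 1 = ib n (c (s + T)) + fb w' := by
    have h1 : w + J 1 + ξ = w' := by rw [hJ, hξ]; abel
    rw [htr, mul_one, one_smul, h1]
  have h1 := fd_sq_le h.fins one_pos z hadm
  rw [hend, sub_zero, one_mul] at h1
  have hFc : Continuous fun r => X.F (traj 0 z u r) (u r) ^ 2 := by
    have := h.fins.cont.comp ((traj_cont hadm 0 z).prodMk huc)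
    exact this.pow 2
  have h2 : (∫ r in (0:ℝ)..1, X.F (traj 0 z u r) (u r) ^ 2) ≤
      ∫ _r in (0:ℝ)..1, (T ^ 2 + X.Cf * ‖ξ‖ ^ 2) := by
    refine intervalIntegral.integral_mono_on zero_le_one (hFc.intervalIntegrable _ _) (by simp)
      fun r hr => ?_
    have h3 := h.le (traj 0 z u r) (u r)
    have h4 : base (traj 0 z u r) = c (s + T * r) := by
      rw [htr, base_add, base_ib, base_fb, add_zero]
    have h5 : base (u r) = T • v (s + T * r) := by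
      rw [hu]
      simp only
      rw [base_add, base_smul, base_ib, base_fb, add_zero]
    have h6 : fib (u r) = κ r + ξ := by
      rw [hu]
      simp only
      rw [fib_add, fib_smul, fib_ib, fib_fb, smul_zero, zero_add]
    have h7 : X.om (c (s + T * r)) (T • v (s + T * r)) = κ r := by
      rw [hκ]
      simp only
      rw [X3_cl_eq hr]
    rw [h4, h5, h6, h7, h.hom2 _ _ _ hT.le, (hd _).2, mul_one, add_sub_cancel_left] at h3
    exact h3
  rw [intervalIntegral.integral_const, sub_zero, one_smul] at h2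
  rw [← hz]
  exact h1.trans h2

/-- reduction of a fibre vector modulo the lattice -/
theorem X3_red (x : Vec n) : ∃ m : Fin n → ℤ, ‖x + vz m‖ ^ 2 ≤ n := by
  refine ⟨fun j => -⌊x j⌋, ?_⟩
  rw [EuclideanSpace.norm_sq_eq]
  have h1 : ∀ j ∈ (Finset.univ : Finset (Fin n)), ‖(x + vz fun j => -⌊x j⌋) j‖ ^ 2 ≤ 1 := by
    intro j _
    have h2 : (x + vz fun j => -⌊x j⌋) j = Int.fract (x j) := by
      have h3 : (x + vz fun j => -⌊x j⌋) j = x j + (((-⌊x j⌋ : ℤ)) : ℝ) := rfl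
      rw [h3, Int.fract]
      push_cast
      ring
    rw [h2, Real.norm_of_nonneg (Int.fract_nonneg _)]
    exact pow_le_one₀ (Int.fract_nonneg _) (Int.fract_lt_one _).le
  refine (Finset.sum_le_sum h1).trans ?_
  simp

/-- turns and fibre lattice vectors as fast lattice vectors -/
theorem X3_turn (N : ℕ) (m : Fin n → ℤ) : ∃ m' : Fin (1 + n) → ℤ,
    lv X.gd.b m' = ib n ((N : ℝ) • X.bv) + fb (vz m) := by
  have h1 : X.gd.InJ (ib n ((N : ℝ) • X.bv) + fb (vz m)) := by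
    rw [gd_InJ]
    exact ⟨N, m, by rw [Int.cast_natCast]⟩
  obtain ⟨m', hm⟩ := h1
  exact ⟨m', hm.symm⟩

/-- `N` turns with small excess -/
theorem X3_loop (h : X.Ok) {c : ℝ → Vec 2} (hc : Anch X.F2 X.bv X.B X.l c) (s t : ℝ) (w w' : Vec n)
    {ε : ℝ} (hε : 0 < ε) {N : ℕ} (hN : |X.Cf| * n / (2 * ε) + 1 ≤ t - s + N * X.l) :
    ∃ m' : Fin (1 + n) → ℤ,
      fd X.F (ib n (c s) + fb w) (ib n (c t) + fb w' + lv X.gd.b m') ≤ t - s + N * X.l + ε ∧
      X.gd.B (ib n (c t) + fb w' + lv X.gd.b m') - X.gd.B (ib n (c s) + fb w) = t - s + N * X.l := by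
  obtain ⟨T, hT⟩ : ∃ T, T = t - s + N * X.l := ⟨_, rfl⟩
  rw [← hT] at hN ⊢
  obtain ⟨C, hC⟩ : ∃ C, C = |X.Cf| * n := ⟨_, rfl⟩
  rw [← hC] at hN
  have hC0 : 0 ≤ C := by rw [hC]; positivity
  have hq : 0 ≤ C / (2 * ε) := by positivity
  have hT0 : 0 < T := by linarith
  have e1 : s + T = t + N * X.l := by rw [hT]; ring
  obtain ⟨I, hI⟩ := X3_seg h hc s hT0
  obtain ⟨m, hm⟩ := X3_red (w' - w - I)
  obtain ⟨m', hm'⟩ := X3_turn (X := X) N m
  have e2 : ib n (c t) + fb w' + lv X.gd.b m' = ib n (c (s + T)) + fb (w' + vz m) := by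
    rw [hm', e1, X3_anch_per hc, ib_add, fb_add]
    abel
  refine ⟨m', ?_, ?_⟩
  · rw [e2]
    have h3 := hI w (w' + vz m)
    have e3 : w' + vz m - w - I = w' - w - I + vz m := by abel
    rw [e3] at h3
    have h4 : X.Cf * ‖w' - w - I + vz m‖ ^ 2 ≤ C := by
      rw [hC]
      exact mul_le_mul (le_abs_self _) hm (sq_nonneg _) (abs_nonneg _)
    have h5 : C ≤ 2 * ε * T := by
      have : C = C / (2 * ε) * (2 * ε) := by field_simp
      rw [this]
      nlinarith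
    refine le_of_sq_le_sq ?_ (by linarith)
    nlinarith [sq_nonneg ε]
  · rw [e2]
    show X.B (base (ib n (c (s + T)) + fb (w' + vz m))) - X.B (base (ib n (c s) + fb w)) = T
    rw [base_add, base_add, base_ib, base_ib, base_fb, base_fb, add_zero, add_zero, hc.Bc]
    ring

theorem XD.Ok.drift (h : X.Ok) {c : ℝ → Vec 2} (hc : Anch X.F2 X.bv X.B X.l c) (s t : ℝ) (w w' : Vec n) :
    X.gd.j (ib n (c s) + fb w) (ib n (c t) + fb w') = 0 := by
  refine le_antisymm (le_of_forall_pos_le_add fun ε hε => ?_) (h.pre.j_nonneg _ _)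
  rw [zero_add]
  have hl := h.gap.l_pos
  obtain ⟨N, hN⟩ := exists_nat_ge ((|X.Cf| * n / (2 * ε) + 1 - (t - s)) / X.l)
  rw [div_le_iff₀ hl] at hN
  obtain ⟨m, h2, h3⟩ := X3_loop h hc s t w w' hε (N := N) (by linarith)
  have h1 := h.pre.j_le (ib n (c s) + fb w) (ib n (c t) + fb w') m
  have h7 : X.gd.F = X.F := rfl
  rw [h7, h3] at h1
  linarith

theorem X3_anc (h : X.Ok) {c : ℝ → Vec 2} (hc : Anch X.F2 X.bv X.B X.l c) :
    X.gd.Anc (ib n (c 0) + fb 0) := by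
  intro ε hε
  have hl := h.gap.l_pos
  obtain ⟨T0, hT0⟩ : ∃ T0, T0 = |X.Cf| * n / (2 * ε) + 1 := ⟨_, rfl⟩
  have hT0' : 0 < T0 := by rw [hT0]; positivity
  refine ⟨T0 + X.l + ε, fun T hT => ?_⟩
  obtain ⟨N, hN⟩ : ∃ N : ℕ, N = ⌊(T + T0) / X.l⌋₊ + 1 := ⟨_, rfl⟩
  have hN1 : T + T0 < N * X.l := by
    rw [← div_lt_iff₀ hl, hN]
    push_cast
    exact Nat.lt_floor_add_one _
  have hN2 : N * X.l ≤ T + T0 + X.l := by
    have h1 : (⌊(T + T0) / X.l⌋₊ : ℝ) ≤ (T + T0) / X.l := Nat.floor_le (by positivity)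
    rw [le_div_iff₀ hl] at h1
    rw [hN]
    push_cast
    linarith
  obtain ⟨m, h2, h3⟩ := X3_loop h hc 0 0 (0 : Vec n) 0 hε (N := N) (by rw [← hT0]; linarith)
  refine ⟨m, ?_⟩
  have h5 := h.pre.B_le_fd (ib n (c 0) + fb 0) (ib n (c 0) + fb 0 + lv X.gd.b m)
  have h7 : X.gd.F = X.F := rfl
  rw [h7, h3] at h5
  rw [h7, h3]
  exact ⟨by linarith, by linarith, by linarith⟩

theorem X3_anch1 (h : X.Ok) : Anch X.F2 X.bv X.B X.l (fun t => X.c1 t - X.gv) := by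
  have h1 := h.gap.an1
  refine ⟨fun t => ?_, ?_, fun s t => ?_⟩
  · show X.c1 (t + X.l) - X.gv = X.c1 t - X.gv + X.bv
    rw [h1.per]
    abel
  · obtain ⟨v, hv, hd⟩ := h1.der
    refine ⟨v, hv, fun t => ⟨(hd t).1.sub_const _, ?_⟩⟩
    have h2 := h.perg (X.c1 t - X.gv) (v t)
    rw [sub_add_cancel] at h2
    rw [← h2]
    exact (hd t).2
  · have h2 := h.gap.Bg (X.c1 t - X.gv)
    have h3 := h.gap.Bg (X.c1 s - X.gv)
    rw [sub_add_cancel] at h2 h3
    have h4 := h1.Bc s t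
    show X.B (X.c1 t - X.gv) - X.B (X.c1 s - X.gv) = t - s
    linarith

theorem X3_q0 : X.gd.q0 = ib n (X.c0 0) + fb 0 := by
  rw [X3_fb_zero, add_zero]
  rfl

theorem X3_q1 : X.gd.q1 = ib n (X.c1 0 - X.gv) + fb 0 := by
  rw [X3_fb_zero, add_zero, ib_sub]
  rfl

theorem XD.Ok.anc0 (h : X.Ok) : X.gd.Anc X.gd.q0 := by
  rw [X3_q0]
  exact X3_anc h h.gap.an0

theorem XD.Ok.anc1 (h : X.Ok) : X.gd.Anc X.gd.q1 := by
  have h1 := X3_anc h (X3_anch1 h)
  rw [X3_q1]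
  exact h1

theorem XD.Ok.zero0 (h : X.Ok) {x : Vec (2 + n)} (hx : X.Y x = 0) :
    X.gd.j x X.gd.q0 = 0 ∧ X.gd.j X.gd.q0 x = 0 := by
  have h1 : base x ∈ range X.c0 := by
    rw [← h.gap.y0]
    exact hx
  obtain ⟨t, ht⟩ := h1
  have h2 : x = ib n (X.c0 t) + fb (fib x) := by
    rw [ht, ib_base_add]
  obtain ⟨ξ, hξ⟩ : ∃ ξ, ξ = fib x := ⟨_, rfl⟩
  rw [← hξ] at h2
  have h3 := h.drift h.gap.an0 t 0 ξ 0
  have h4 := h.drift h.gap.an0 0 t 0 ξ
  rw [X3_q0, h2]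
  exact ⟨h3, h4⟩

theorem XD.Ok.zero1 (h : X.Ok) {x : Vec (2 + n)} (hx : X.Y x = X.τ - 1) :
    X.gd.j x X.gd.q1 = 0 ∧ X.gd.j X.gd.q1 x = 0 := by
  have h0 : X.y (base x) = X.τ - 1 := hx
  have h1 : base x + X.gv ∈ range X.c1 := by
    rw [← h.gap.y1]
    show X.y (base x + X.gv) = X.τ
    rw [h.gap.yg, h0]
    ring
  obtain ⟨t, ht⟩ := h1
  have h2 : x = ib n (X.c1 t - X.gv) + fb (fib x) := by
    rw [ht, add_sub_cancel_right, ib_base_add]
  obtain ⟨ξ, hξ⟩ : ∃ ξ, ξ = fib x := ⟨_, rfl⟩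
  rw [← hξ] at h2
  have h3 := h.drift (X3_anch1 h) t 0 ξ 0
  have h4 := h.drift (X3_anch1 h) 0 t 0 ξ
  rw [X3_q1, h2]
  exact ⟨h3, h4⟩

end EscG.X
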