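import Pool.Agent.EscG.X2
import Pool.Agent.EscG.X3
import Pool.Agent.EscG.C2

/-!
Project EscG, application layer, MODULE X4: passing of the levels of the anchors.
-/

noncomputable section

namespace EscG

open MeasureTheory Set Filter Topology Esc EscF EscF.T EscG.T
open scoped ContDiff

/-- an exact passage through a level which is joined to the point `q` without cost -/
theorem X4_pass {ι : Type} [Fintype ι] {d : ℕ} {E : Type*} [NormedAddCommGroup E]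
    [InnerProductSpace ℝ E] [FiniteDimensional ℝ E] {D : GD ι d E} (h : D.Pre) {Y : E → ℝ}
    (hY : Continuous Y) (hYl : ∀ (x : E) (m : Fin d → ℤ), Y (x + lv D.b m) = Y x) {κ : ℝ} {q : E}
    (hq : ∀ z, Y z = κ → D.j z q = 0 ∧ D.j q z = 0) {x x' : E}
    (hx : (Y x ≤ κ ∧ κ ≤ Y x') ∨ (Y x' ≤ κ ∧ κ ≤ Y x)) :
    D.j x x' = D.j x q + D.j q x' := by
  refine le_antisymm (h.j_tri x q x') ?_
  refine le_of_forall_pos_le_add fun ε hε => ?_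
  obtain ⟨n, hn⟩ := h.exists_j_lt x x' (half_pos hε)
  obtain ⟨u, hu, hx1, hp, -⟩ := exists_path_fd h.fins (half_pos hε) x (x' + lv D.b n)
  have hc : ContinuousOn (fun t => Y (traj 0 x u t)) (uIcc (0:ℝ) 1) :=
    (hY.comp (traj_cont hu 0 x)).continuousOn
  have h0 : Y (traj 0 x u 0) = Y x := by simp [traj]
  have h1 : Y (traj 0 x u 1) = Y x' := by rw [hx1, hYl]
  have hκ : κ ∈ uIcc (Y (traj 0 x u 0)) (Y (traj 0 x u 1)) := by
    rw [h0, h1]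
    rcases hx with hx | hx
    · exact ⟨(min_le_left _ _).trans hx.1, hx.2.trans (le_max_right _ _)⟩
    · exact ⟨(min_le_right _ _).trans hx.1, hx.2.trans (le_max_left _ _)⟩
  obtain ⟨t, ht, htκ⟩ := intermediate_value_uIcc hc hκ
  rw [uIcc_of_le zero_le_one] at ht
  have h2 := hp t ht
  obtain ⟨hz1, hz2⟩ := hq _ htκ
  have lv0 : lv D.b (0 : Fin d → ℤ) = 0 := by simp [lv]
  have h3 := h.j_le x (traj 0 x u t) 0
  rw [lv0, add_zero] at h3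
  have h4 := h.j_le (traj 0 x u t) x' n
  have h5 := h.j_tri x (traj 0 x u t) q
  have h6 := h.j_tri q (traj 0 x u t) x'
  linarith

end EscG

namespace EscG.X

open MeasureTheory Set Filter Topology Esc EscF EscF.T EscG.T
open scoped ContDiff

variable {n : ℕ} {X : XD n}

theorem X4_kg (h : X.Ok) (k : ℤ) : (k : ℝ) • X.gd.g ∈ X.gd.Lam := by
  rw [Int.cast_smul_eq_zsmul]
  exact AddSubgroup.zsmul_mem _ h.g_mem k

theorem X4_Y (h : X.Ok) (k : ℤ) (z : Vec (2 + n)) : X.Y (z - (k : ℝ) • X.gd.g) = X.Y z - k := by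
  have h1 := h.Y_g (z - (k : ℝ) • X.gd.g) k
  rw [sub_add_cancel] at h1
  linarith

theorem XD.Ok.pass0 (h : X.Ok) (k : ℤ) {x x' : Vec (2 + n)}
    (hx : (X.Y x ≤ k ∧ k ≤ X.Y x') ∨ (X.Y x' ≤ k ∧ k ≤ X.Y x)) :
    X.gd.j x x' = X.gd.j x (X.gd.q0 + (k : ℝ) • X.gd.g) + X.gd.j (X.gd.q0 + (k : ℝ) • X.gd.g) x' := by
  refine X4_pass h.pre h.Y_cont h.Y_lv (κ := k) (fun z hz => ?_) hx
  have h1 : X.Y (z - (k : ℝ) • X.gd.g) = 0 := by rw [X4_Y h, hz, sub_self]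
  obtain ⟨h2, h3⟩ := h.zero0 h1
  have h4 := h.pre.j_Lam (X4_kg h k) (z - (k : ℝ) • X.gd.g) X.gd.q0
  have h5 := h.pre.j_Lam (X4_kg h k) X.gd.q0 (z - (k : ℝ) • X.gd.g)
  rw [sub_add_cancel] at h4 h5
  exact ⟨h4.trans h2, h5.trans h3⟩

theorem XD.Ok.pass1 (h : X.Ok) (k : ℤ) {x x' : Vec (2 + n)}
    (hx : (X.Y x ≤ k + X.τ - 1 ∧ k + X.τ - 1 ≤ X.Y x') ∨ (X.Y x' ≤ k + X.τ - 1 ∧ k + X.τ - 1 ≤ X.Y x)) :
    X.gd.j x x' = X.gd.j x (X.gd.q1 + (k : ℝ) • X.gd.g) + X.gd.j (X.gd.q1 + (k : ℝ) • X.gd.g) x' := by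
  refine X4_pass h.pre h.Y_cont h.Y_lv (κ := k + X.τ - 1) (fun z hz => ?_) hx
  have h1 : X.Y (z - (k : ℝ) • X.gd.g) = X.τ - 1 := by rw [X4_Y h, hz]; ring
  obtain ⟨h2, h3⟩ := h.zero1 h1
  have h4 := h.pre.j_Lam (X4_kg h k) (z - (k : ℝ) • X.gd.g) X.gd.q1
  have h5 := h.pre.j_Lam (X4_kg h k) X.gd.q1 (z - (k : ℝ) • X.gd.g)
  rw [sub_add_cancel] at h4 h5
  exact ⟨h4.trans h2, h5.trans h3⟩

end EscG.X
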