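import Pool.Agent.EscG.XDefs

/-!
Project EscG, application layer, module X1: linear algebra of the product base × fibre.
-/

noncomputable section

namespace EscG.X

open MeasureTheory Set Filter Topology Esc EscF EscF.T EscG.T
open scoped ContDiff

variable {n : ℕ} {X : XD n}

/-! ## Coordinates -/

theorem X1_ext {x x' : Vec (2 + n)} (h1 : ∀ i : Fin 2, x (Fin.castAdd n i) = x' (Fin.castAdd n i))
    (h2 : ∀ j : Fin n, x (Fin.natAdd 2 j) = x' (Fin.natAdd 2 j)) : x = x' := by
  ext i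
  exact Fin.addCases h1 h2 i

theorem X1_base_apply (x : Vec (2 + n)) (i : Fin 2) : base x i = x (Fin.castAdd n i) := rfl
theorem X1_fib_apply (x : Vec (2 + n)) (j : Fin n) : fib x j = x (Fin.natAdd 2 j) := rfl
theorem X1_ib_l (x : Vec 2) (i : Fin 2) : ib n x (Fin.castAdd n i) = x i := by simp [ib]
theorem X1_ib_r (x : Vec 2) (j : Fin n) : ib n x (Fin.natAdd 2 j) = 0 := by simp [ib]
theorem X1_fb_l (x : Vec n) (i : Fin 2) : fb x (Fin.castAdd n i) = 0 := by simp [fb]
theorem X1_fb_r (x : Vec n) (j : Fin n) : fb x (Fin.natAdd 2 j) = x j := by simp [fb]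

theorem base_add (x x' : Vec (2 + n)) : base (x + x') = base x + base x' := by
  ext i
  simp [X1_base_apply]

theorem base_sub (x x' : Vec (2 + n)) : base (x - x') = base x - base x' := by
  ext i
  simp [X1_base_apply]

theorem base_smul (c : ℝ) (x : Vec (2 + n)) : base (c • x) = c • base x := by
  ext i
  simp [X1_base_apply]

theorem fib_add (x x' : Vec (2 + n)) : fib (x + x') = fib x + fib x' := by
  ext i
  simp [X1_fib_apply]

theorem fib_sub (x x' : Vec (2 + n)) : fib (x - x') = fib x - fib x' := by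
  ext i
  simp [X1_fib_apply]

theorem fib_smul (c : ℝ) (x : Vec (2 + n)) : fib (c • x) = c • fib x := by
  ext i
  simp [X1_fib_apply]

theorem base_ib (x : Vec 2) : base (ib n x) = x := by
  ext i
  rw [X1_base_apply, X1_ib_l]

theorem fib_ib (x : Vec 2) : fib (ib n x) = 0 := by
  ext j
  rw [X1_fib_apply, X1_ib_r]
  rfl

theorem base_fb (x : Vec n) : base (fb x) = 0 := by
  ext i
  rw [X1_base_apply, X1_fb_l]
  rfl

theorem fib_fb (x : Vec n) : fib (fb x) = x := by
  ext j
  rw [X1_fib_apply, X1_fb_r]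

theorem ib_base_add (x : Vec (2 + n)) : ib n (base x) + fb (fib x) = x := by
  refine X1_ext (fun i => ?_) (fun j => ?_)
  · rw [PiLp.add_apply, X1_ib_l, X1_fb_l, add_zero, X1_base_apply]
  · rw [PiLp.add_apply, X1_ib_r, X1_fb_r, zero_add, X1_fib_apply]

theorem ib_add (x x' : Vec 2) : ib n (x + x') = ib n x + ib n x' := by
  refine X1_ext (fun i => ?_) (fun j => ?_)
  · simp only [PiLp.add_apply, X1_ib_l]
  · simp only [PiLp.add_apply, X1_ib_r, add_zero]

theorem ib_smul (c : ℝ) (x : Vec 2) : ib n (c • x) = c • ib n x := by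
  refine X1_ext (fun i => ?_) (fun j => ?_)
  · simp only [PiLp.smul_apply, X1_ib_l]
  · simp only [PiLp.smul_apply, X1_ib_r, smul_zero]

theorem fb_add (x x' : Vec n) : fb (x + x') = fb x + fb x' := by
  refine X1_ext (fun i => ?_) (fun j => ?_)
  · simp only [PiLp.add_apply, X1_fb_l, add_zero]
  · simp only [PiLp.add_apply, X1_fb_r]

theorem fb_smul (c : ℝ) (x : Vec n) : fb (c • x) = c • fb x := by
  refine X1_ext (fun i => ?_) (fun j => ?_)
  · simp only [PiLp.smul_apply, X1_fb_l, smul_zero]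
  · simp only [PiLp.smul_apply, X1_fb_r]

/-! ## Linear maps -/

/-- the projection to the base as a linear map -/
def X1_baseL (n : ℕ) : Vec (2 + n) →ₗ[ℝ] Vec 2 where
  toFun := base
  map_add' := base_add
  map_smul' := base_smul

/-- the projection to the fibre as a linear map -/
def X1_fibL (n : ℕ) : Vec (2 + n) →ₗ[ℝ] Vec n where
  toFun := fib
  map_add' := fib_add
  map_smul' := fib_smul

/-- the embedding of the base as a linear map -/
def X1_ibL (n : ℕ) : Vec 2 →ₗ[ℝ] Vec (2 + n) where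
  toFun := ib n
  map_add' := ib_add
  map_smul' := ib_smul

/-- the embedding of the fibre as a linear map -/
def X1_fbL (n : ℕ) : Vec n →ₗ[ℝ] Vec (2 + n) where
  toFun := fb
  map_add' := fb_add
  map_smul' := fb_smul

theorem ib_sub (x x' : Vec 2) : ib n (x - x') = ib n x - ib n x' := map_sub (X1_ibL n) x x'

theorem fb_sub (x x' : Vec n) : fb (x - x') = fb x - fb x' := map_sub (X1_fbL n) x x'

theorem norm_sq_base (x : Vec (2 + n)) : ‖x‖ ^ 2 = ‖base x‖ ^ 2 + ‖fib x‖ ^ 2 := by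
  rw [EuclideanSpace.real_norm_sq_eq, EuclideanSpace.real_norm_sq_eq,
    EuclideanSpace.real_norm_sq_eq, Fin.sum_univ_add]
  rfl

theorem norm_base_le (x : Vec (2 + n)) : ‖base x‖ ≤ ‖x‖ := by
  refine le_of_sq_le_sq ?_ (norm_nonneg _)
  rw [norm_sq_base x]
  exact le_add_of_nonneg_right (sq_nonneg _)

theorem norm_fib_le (x : Vec (2 + n)) : ‖fib x‖ ≤ ‖x‖ := by
  refine le_of_sq_le_sq ?_ (norm_nonneg _)
  rw [norm_sq_base x]
  exact le_add_of_nonneg_left (sq_nonneg _)

theorem norm_ib (x : Vec 2) : ‖ib n x‖ = ‖x‖ := by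
  have h := norm_sq_base (ib n x)
  rw [base_ib, fib_ib, norm_zero] at h
  have h2 : ‖ib n x‖ ^ 2 = ‖x‖ ^ 2 := by rw [h]; ring
  exact (pow_left_inj₀ (norm_nonneg _) (norm_nonneg _) two_ne_zero).1 h2

theorem norm_fb (x : Vec n) : ‖fb x‖ = ‖x‖ := by
  have h := norm_sq_base (fb x)
  rw [base_fb, fib_fb, norm_zero] at h
  have h2 : ‖fb x‖ ^ 2 = ‖x‖ ^ 2 := by rw [h]; ring
  exact (pow_left_inj₀ (norm_nonneg _) (norm_nonneg _) two_ne_zero).1 h2

theorem continuous_base : Continuous (base : Vec (2 + n) → Vec 2) :=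
  (X1_baseL n).continuous_of_finiteDimensional

theorem continuous_fib : Continuous (fib : Vec (2 + n) → Vec n) :=
  (X1_fibL n).continuous_of_finiteDimensional

theorem continuous_ib : Continuous (ib n) := (X1_ibL n).continuous_of_finiteDimensional

theorem continuous_fb : Continuous (fb : Vec n → Vec (2 + n)) :=
  (X1_fbL n).continuous_of_finiteDimensional

/-! ## Controls -/

theorem adm_base {u : ℝ → Vec (2 + n)} (hu : Adm u) : Adm (fun t => base (u t)) := by
  obtain ⟨h1, C, hC⟩ := hu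
  exact ⟨continuous_base.comp_stronglyMeasurable h1, C, fun t => (norm_base_le _).trans (hC t)⟩

theorem X1_adm_ii {m : ℕ} {u : ℝ → Vec m} (hu : Adm u) (a b : ℝ) :
    IntervalIntegrable u volume a b := by
  obtain ⟨h1, C, hC⟩ := hu
  refine (intervalIntegrable_const (c := C)).mono_fun h1.aestronglyMeasurable ?_
  exact Filter.Eventually.of_forall fun t => (hC t).trans (le_abs_self C)

theorem base_traj {u : ℝ → Vec (2 + n)} (hu : Adm u) (a : ℝ) (z : Vec (2 + n)) (t : ℝ) :
    base (traj a z u t) = traj a (base z) (fun s => base (u s)) t := by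
  have h := (LinearMap.toContinuousLinearMap (X1_baseL n)).intervalIntegral_comp_comm
    (X1_adm_ii hu a t)
  show base (z + ∫ s in a..t, u s) = base z + ∫ s in a..t, base (u s)
  rw [base_add]
  congr 1
  exact h.symm

/-! ## The lattice -/

theorem vz_split (m : Fin (2 + n) → ℤ) : vz m =
    ib n (vz fun i => m (Fin.castAdd n i)) + fb (vz fun j => m (Fin.natAdd 2 j)) := by
  refine X1_ext (fun i => ?_) (fun j => ?_)
  · rw [PiLp.add_apply, X1_ib_l, X1_fb_l, add_zero]
    rfl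
  · rw [PiLp.add_apply, X1_ib_r, X1_fb_r, zero_add]
    rfl

theorem X1_sum_single {k : ℕ} (x : Vec k) : ∑ j, x j • EuclideanSpace.single j (1:ℝ) = x := by
  ext i
  simp [Pi.single_apply]

theorem X1_fb_sum (x : Vec n) :
    ∑ j, x j • fb (EuclideanSpace.single j (1:ℝ)) = fb x := by
  have h := congrArg (X1_fbL n) (X1_sum_single x)
  rw [map_sum] at h
  simp only [map_smul] at h
  exact h

theorem X1_fb_vz (m : Fin n → ℤ) :
    ∑ j, (m j : ℝ) • fb (EuclideanSpace.single j (1:ℝ)) = fb (vz m) := X1_fb_sum (vz m)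

theorem gd_lv (m : Fin (1 + n) → ℤ) : lv X.gd.b m =
    ib n ((m (Fin.castAdd n 0) : ℝ) • X.bv) + fb (vz fun j => m (Fin.natAdd 1 j)) := by
  rw [lv, Fin.sum_univ_add, Fin.sum_univ_one, ← X1_fb_vz, ib_smul]
  congr 1
  refine Finset.sum_congr rfl fun j _ => ?_
  simp only [XD.gd, Fin.addCases_right]

theorem gd_InJ (v : Vec (2 + n)) : X.gd.InJ v ↔
    ∃ (p : ℤ) (m : Fin n → ℤ), v = ib n ((p : ℝ) • X.bv) + fb (vz m) := by
  constructor
  · rintro ⟨m, rfl⟩
    exact ⟨m (Fin.castAdd n 0), fun j => m (Fin.natAdd 1 j), gd_lv m⟩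
  · rintro ⟨p, m, rfl⟩
    refine ⟨Fin.addCases (fun _ => p) m, ?_⟩
    rw [gd_lv]
    simp only [Fin.addCases_left, Fin.addCases_right]

theorem X1_sum_two {f : Fin (2 + n) → Vec (2 + n)} {bv gv : Vec 2}
    (h0 : f (Fin.castAdd n 0) = ib n bv) (h1 : f (Fin.castAdd n 1) = ib n gv)
    (h2 : ∀ j : Fin n, f (Fin.natAdd 2 j) = fb (EuclideanSpace.single j (1:ℝ)))
    (c : Fin (2 + n) → ℤ) : ∑ i, (c i : ℝ) • f i =
      ib n ((c (Fin.castAdd n 0) : ℝ) • bv + (c (Fin.castAdd n 1) : ℝ) • gv) +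
        fb (vz fun j => c (Fin.natAdd 2 j)) := by
  rw [Fin.sum_univ_add, Fin.sum_univ_two, ← X1_fb_vz, ib_add, ib_smul, ib_smul, h0, h1]
  congr 1
  exact Finset.sum_congr rfl fun j _ => by rw [h2]

theorem XD.Ok.mem_Lam (h : X.Ok) (v : Vec (2 + n)) : v ∈ X.gd.Lam ↔
    ∃ (p q : ℤ) (m : Fin n → ℤ), v = ib n ((p : ℝ) • X.bv + (q : ℝ) • X.gv) + fb (vz m) := by
  have h1 : v ∈ X.gd.Lam ↔ v ∈ Submodule.span ℤ (Set.range X.β) := Iff.rfl
  rw [h1, Submodule.mem_span_range_iff_exists_fun]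
  have key : ∀ c : Fin (2 + n) → ℤ, ∑ i, c i • X.β i =
      ib n ((c (Fin.castAdd n 0) : ℝ) • X.bv + (c (Fin.castAdd n 1) : ℝ) • X.gv) +
        fb (vz fun j => c (Fin.natAdd 2 j)) := by
    intro c
    rw [← X1_sum_two h.β0 h.β1 h.β2 c]
    exact Finset.sum_congr rfl fun i _ => (Int.cast_smul_eq_zsmul ℝ (c i) (X.β i)).symm
  constructor
  · rintro ⟨c, rfl⟩
    exact ⟨_, _, _, key c⟩
  · rintro ⟨p, q, m, rfl⟩
    refine ⟨Fin.addCases ![p, q] m, ?_⟩
    rw [key]
    simp only [Fin.addCases_left, Fin.addCases_right, Matrix.cons_val_zero, Matrix.cons_val_one]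

/-- the lattice basis on the product -/
theorem exists_beta {bv gv : Vec 2} (hz : ZB bv gv) (n : ℕ) :
    ∃ β : Module.Basis (Fin (2 + n)) ℝ (Vec (2 + n)), β (Fin.castAdd n 0) = ib n bv ∧
      β (Fin.castAdd n 1) = ib n gv ∧ (∀ j : Fin n, β (Fin.natAdd 2 j) = fb (EuclideanSpace.single j (1:ℝ))) ∧
      IsLatBasis (ContinuousLinearEquiv.refl ℝ (Vec (2 + n))) β := by
  obtain ⟨f, hf⟩ : ∃ f : Fin (2 + n) → Vec (2 + n),
      f = Fin.addCases ![ib n bv, ib n gv] (fun j => fb (EuclideanSpace.single j (1:ℝ))) := ⟨_, rfl⟩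
  have h0 : f (Fin.castAdd n 0) = ib n bv := by
    rw [hf]
    simp only [Fin.addCases_left, Matrix.cons_val_zero]
  have h1 : f (Fin.castAdd n 1) = ib n gv := by
    rw [hf]
    simp only [Fin.addCases_left]
    rfl
  have h2 : ∀ j : Fin n, f (Fin.natAdd 2 j) = fb (EuclideanSpace.single j (1:ℝ)) := by
    intro j
    rw [hf]
    simp only [Fin.addCases_right]
  have hvz : ∀ m : Fin (2 + n) → ℤ, ∃ c : Fin (2 + n) → ℤ, vz m = ∑ i, (c i : ℝ) • f i := by
    intro m
    obtain ⟨p, q, hpq⟩ := hz.span fun i => m (Fin.castAdd n i)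
    refine ⟨Fin.addCases ![p, q] (fun j => m (Fin.natAdd 2 j)), ?_⟩
    rw [X1_sum_two h0 h1 h2, vz_split, hpq]
    simp only [Fin.addCases_left, Fin.addCases_right, Matrix.cons_val_zero, Matrix.cons_val_one]
  have htop : ⊤ ≤ Submodule.span ℝ (Set.range f) := by
    intro x _
    rw [← X1_sum_single x]
    refine Submodule.sum_mem _ fun i _ => Submodule.smul_mem _ _ ?_
    obtain ⟨c, hc⟩ := hvz (Pi.single i 1)
    have h3 : EuclideanSpace.single i (1:ℝ) = vz (Pi.single i (1:ℤ) : Fin (2 + n) → ℤ) := by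
      ext k
      simp only [vz, PiLp.single_apply, Pi.single_apply]
      split_ifs <;> simp
    rw [h3, hc]
    exact Submodule.sum_mem _ fun k _ => Submodule.smul_mem _ _ (Submodule.subset_span ⟨k, rfl⟩)
  have hcard : Fintype.card (Fin (2 + n)) = Module.finrank ℝ (Vec (2 + n)) := by
    rw [finrank_euclideanSpace]
  have hcoe : ⇑(basisOfTopLeSpanOfCardEqFinrank f htop hcard) = f :=
    coe_basisOfTopLeSpanOfCardEqFinrank f htop hcard
  refine ⟨basisOfTopLeSpanOfCardEqFinrank f htop hcard, ?_, ?_, ?_, ?_, ?_⟩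
  · rw [hcoe, h0]
  · rw [hcoe, h1]
  · intro j
    rw [hcoe, h2]
  · rw [hcoe]
    intro i
    refine Fin.addCases (fun i => ?_) (fun j => ?_) i
    · obtain ⟨mb, hb⟩ := hz.b
      obtain ⟨mg, hg⟩ := hz.g
      have hi : i = 0 ∨ i = 1 := by omega
      rcases hi with rfl | rfl
      · refine ⟨Fin.addCases mb (fun _ => 0), ?_⟩
        rw [h0, hb]
        refine X1_ext (fun i => ?_) (fun j => ?_)
        · rw [X1_ib_l]
          simp [vz]
        · rw [X1_ib_r]
          simp [vz]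
      · refine ⟨Fin.addCases mg (fun _ => 0), ?_⟩
        rw [h1, hg]
        refine X1_ext (fun i => ?_) (fun j => ?_)
        · rw [X1_ib_l]
          simp [vz]
        · rw [X1_ib_r]
          simp [vz]
    · refine ⟨Fin.addCases (fun _ => 0) (Pi.single j 1), ?_⟩
      rw [h2]
      refine X1_ext (fun i => ?_) (fun k => ?_)
      · rw [X1_fb_l]
        simp [vz]
      · rw [X1_fb_r]
        simp only [vz, PiLp.single_apply, ContinuousLinearEquiv.refl_apply,
          Fin.addCases_right, Pi.single_apply]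
        split_ifs <;> simp
  · rw [hcoe]
    intro m
    exact hvz m

end EscG.X
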