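import Pool.Agent.EscG.XDefs
import Pool.Agent.EscG.A1
import Pool.Agent.EscG.C2
import Pool.Agent.EscG.X1
import Pool.Agent.EscG.X2

/-!
Project EscG, application: crossing a part of the gap costs.
-/

noncomputable section

namespace EscG.X

open MeasureTheory Set Filter Topology Esc EscF EscF.T EscG.T
open scoped ContDiff

/-- crossing times of a band -/
lemma X5_times {φ : ℝ → ℝ} (hφ : Continuous φ) {A B' : ℝ} (hAB : A ≤ B') (h0 : φ 0 ≤ A)
    (h1 : B' ≤ φ 1) : ∃ a b : ℝ, 0 ≤ a ∧ a ≤ b ∧ b ≤ 1 ∧ φ a = A ∧ φ b = B' ∧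
      ∀ t ∈ Icc a b, A ≤ φ t ∧ φ t ≤ B' := by
  obtain ⟨b, hb, hbmin⟩ : ∃ b, IsLeast (Icc (0:ℝ) 1 ∩ φ ⁻¹' {B'}) b := by
    have hc : IsCompact (Icc (0:ℝ) 1 ∩ φ ⁻¹' {B'}) :=
      isCompact_Icc.inter_right (isClosed_singleton.preimage hφ)
    refine hc.exists_isLeast ?_
    obtain ⟨t, ht, ht'⟩ := intermediate_value_Icc zero_le_one hφ.continuousOn
      (show B' ∈ Icc (φ 0) (φ 1) from ⟨h0.trans hAB, h1⟩)
    exact ⟨t, ht, ht'⟩
  have hbB : φ b = B' := hb.2
  obtain ⟨a, ha, hamax⟩ : ∃ a, IsGreatest (Icc (0:ℝ) b ∩ φ ⁻¹' {A}) a := by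
    have hc : IsCompact (Icc (0:ℝ) b ∩ φ ⁻¹' {A}) :=
      isCompact_Icc.inter_right (isClosed_singleton.preimage hφ)
    refine hc.exists_isGreatest ?_
    obtain ⟨t, ht, ht'⟩ := intermediate_value_Icc hb.1.1 hφ.continuousOn
      (show A ∈ Icc (φ 0) (φ b) from ⟨h0, by rw [hbB]; exact hAB⟩)
    exact ⟨t, ht, ht'⟩
  have haA : φ a = A := ha.2
  refine ⟨a, b, ha.1.1, ha.1.2, hb.1.2, haA, hbB, fun t ht => ⟨?_, ?_⟩⟩
  · by_contra hcon
    push Not at hcon
    obtain ⟨r, hr, hr'⟩ := intermediate_value_Icc ht.2 hφ.continuousOn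
      (show A ∈ Icc (φ t) (φ b) from ⟨hcon.le, by rw [hbB]; exact hAB⟩)
    have h2 : r ≤ a := hamax ⟨⟨ha.1.1.trans (ht.1.trans hr.1), hr.2⟩, hr'⟩
    have h3 : t = a := le_antisymm (hr.1.trans h2) ht.1
    rw [h3, haA] at hcon
    exact lt_irrefl _ hcon
  · by_contra hcon
    push Not at hcon
    obtain ⟨r, hr, hr'⟩ := intermediate_value_Icc (ha.1.1.trans ht.1) hφ.continuousOn
      (show B' ∈ Icc (φ 0) (φ t) from ⟨h0.trans hAB, hcon.le⟩)
    have h2 : b ≤ r := hbmin ⟨⟨hr.1, hr.2.trans (ht.2.trans hb.1.2)⟩, hr'⟩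
    have h3 : t = b := le_antisymm ht.2 (h2.trans hr.2)
    rw [h3, hbB] at hcon
    exact lt_irrefl _ hcon

/-- the same in both directions -/
lemma X5_times' {φ : ℝ → ℝ} (hφ : Continuous φ) {A B' : ℝ} (hAB : A ≤ B')
    (h : (φ 0 ≤ A ∧ B' ≤ φ 1) ∨ (φ 1 ≤ A ∧ B' ≤ φ 0)) : ∃ a b : ℝ, 0 ≤ a ∧ a ≤ b ∧ b ≤ 1 ∧
      |φ b - φ a| = B' - A ∧ ∀ t ∈ Icc a b, A ≤ φ t ∧ φ t ≤ B' := by
  rcases h with ⟨h0, h1⟩ | ⟨h1, h0⟩
  · obtain ⟨a, b, ha, hab, hb, h2, h3, h4⟩ := X5_times hφ hAB h0 h1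
    exact ⟨a, b, ha, hab, hb, by rw [h2, h3, abs_of_nonneg (sub_nonneg.2 hAB)], h4⟩
  · obtain ⟨a, b, ha, hab, hb, h2, h3, h4⟩ := X5_times (φ := fun t => - φ t) hφ.neg
      (neg_le_neg hAB) (neg_le_neg h0) (neg_le_neg h1)
    refine ⟨a, b, ha, hab, hb, ?_, fun t ht => ?_⟩
    · have e : φ b - φ a = - (B' - A) := by linarith
      rw [e, abs_neg, abs_of_nonneg (sub_nonneg.2 hAB)]
    · have := h4 t ht
      constructor <;> linarith [this.1, this.2]

/-- integer multiples of a period -/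
lemma X5_int {g : Vec 2} {f : Vec 2 → ℝ} {c : ℝ} (hf : ∀ x, f (x + g) = f x + c) (k : ℤ) :
    ∀ x, f (x + (k : ℝ) • g) = f x + k * c := by
  induction k using Int.induction_on with
  | zero => intro x; simp
  | succ i ih =>
    intro x
    have h1 : x + (((i : ℤ) + 1 : ℤ) : ℝ) • g = (x + ((i : ℤ) : ℝ) • g) + g := by
      push_cast; rw [add_smul, one_smul, add_assoc]
    rw [h1, hf, ih]
    push_cast; ring
  | pred i ih =>
    intro x
    have h1 : x + ((-(i : ℤ) : ℤ) : ℝ) • g = (x + ((-(i : ℤ) - 1 : ℤ) : ℝ) • g) + g := by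
      push_cast; module
    have h2 := ih x
    rw [h1, hf] at h2
    push_cast at h2 ⊢
    linarith

variable {n : ℕ} {X : XD n}

lemma X5_main (h : X.Ok) {η : ℝ} (hη : 0 < η) : ∃ e : ℝ, 0 < e ∧ ∀ (k : ℤ) (A B' : ℝ)
    (x x' : Vec (2 + n)), k + η ≤ A → A + η ≤ B' → B' ≤ k + X.τ - η →
    ((X.Y x ≤ A ∧ B' ≤ X.Y x') ∨ (X.Y x' ≤ A ∧ B' ≤ X.Y x)) → e ≤ X.gd.j x x' := by
  obtain ⟨θ, hθ, hst⟩ := h.gap.strict η hη
  obtain ⟨δ, hδ, hy⟩ := h.y_uc hη
  have hmF : 0 < X.mF := h.fins.mF_pos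
  refine ⟨θ * (X.mF * δ), by positivity, fun k A B' x x' h1 h2 h3 h4 => ?_⟩
  refine le_of_forall_pos_le_add fun ε hε => ?_
  obtain ⟨m, hm⟩ := GD.Pre.exists_j_lt h.pre x x' (half_pos hε)
  obtain ⟨u, hu, hend, _, hlen⟩ := exists_path_fd h.fins (half_pos hε) x (x' + lv X.gd.b m)
  obtain ⟨u', hu'⟩ : ∃ u' : ℝ → Vec 2, u' = fun s => base (u s) := ⟨_, rfl⟩
  have hA' : Adm u' := by rw [hu']; exact adm_base hu
  obtain ⟨p, hp⟩ : ∃ p : ℝ → Vec 2, p = traj 0 (base x) u' := ⟨_, rfl⟩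
  have hpb : ∀ t, p t = base (traj 0 x u t) := fun t => by rw [hp, hu', base_traj hu]
  have hp0 : p 0 = base x := by rw [hpb]; simp [traj]
  have hp1 : p 1 = base (x' + lv X.gd.b m) := by rw [hpb, hend]
  have hpc : Continuous p := by rw [hp]; exact traj_cont hA' _ _
  have hpab : ∀ a t, p t = p a + ∫ s in a..t, u' s := fun a t => by
    rw [hp, traj_split hA' 0 a (base x) t]
    rfl
  -- integrability
  have hI2 : ∀ c d, IntervalIntegrable (fun t => X.F2 (p t) (u' t)) volume c d := fun c d => by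
    have hcb : CB 0 (fun (x v : Vec 2) (_ : ℝ) => X.F2 x v) :=
      ⟨h.F2c.comp (continuous_fst.prodMk (continuous_fst.comp continuous_snd)), fun x v _ => by
        have := h.low2 x v
        have := mul_nonneg hmF.le (norm_nonneg v)
        linarith⟩
    rw [hp]
    exact hcb.ii hA' 0 (base x) c d
  have hI : ∀ c d, IntervalIntegrable (fun t => X.F (traj 0 x u t) (u t)) volume c d := fun c d => by
    have hcb : CB 0 (fun (x v : Vec (2 + n)) (_ : ℝ) => X.F x v) :=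
      ⟨h.fins.cont.comp (continuous_fst.prodMk (continuous_fst.comp continuous_snd)), fun x v _ => by
        have := h.fins.low x v
        have := mul_nonneg hmF.le (norm_nonneg v)
        linarith⟩
    exact hcb.ii hu 0 x c d
  -- crossing times
  obtain ⟨a, b, ha, hab, hb, hd, hband⟩ := X5_times' (φ := fun t => X.y (p t)) (h.gap.yc.comp hpc)
    (A := A) (B' := B') (by linarith) (by
      have e0 : X.y (p 0) = X.Y x := by rw [hp0]; rfl
      have e1 : X.y (p 1) = X.Y x' := by rw [hp1, ← h.Y_lv x' m]; rfl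
      rw [e0, e1]
      exact h4)
  -- the length between the crossing times
  have hlen2 : X.mF * δ ≤ ∫ t in a..b, X.F2 (p t) (u' t) := by
    have e1 : δ ≤ ‖p b - p a‖ := by
      by_contra hcon
      push Not at hcon
      have := hy (p a) (p b) hcon.le
      rw [hd] at this
      linarith
    have e2 : ‖p b - p a‖ ≤ ∫ t in a..b, X.mF⁻¹ * X.F2 (p t) (u' t) := by
      rw [hpab a b, add_sub_cancel_left]
      refine intervalIntegral.norm_integral_le_of_norm_le hab (ae_of_all _ fun t _ => ?_)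
        ((hI2 a b).const_mul _)
      rw [le_inv_mul_iff₀ hmF]
      exact h.low2 _ _
    rw [intervalIntegral.integral_const_mul, ← div_eq_inv_mul, le_div_iff₀ hmF] at e2
    have e3 := mul_le_mul_of_nonneg_right e1 hmF.le
    linarith
  -- calibration before, between and after
  have c1 : X.B (p a) - X.B (p 0) ≤ ∫ t in (0:ℝ)..a, X.F2 (p t) (u' t) := by
    have := h.gap.cal (base x) u' hA' 0 a ha
    rw [← hp] at this
    rw [hp0]
    exact this
  have c3 : X.B (p 1) - X.B (p b) ≤ ∫ t in b..(1:ℝ), X.F2 (p t) (u' t) := by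
    have := h.gap.cal (p b) u' hA' b 1 hb
    have e : traj b (p b) u' = p := by
      funext t
      rw [hpab b t]
      rfl
    rw [e] at this
    exact this
  have c2 : X.B (p b) - X.B (p a) ≤ (1 - θ) * ∫ t in a..b, X.F2 (p t) (u' t) := by
    have e : ∀ t, traj a (p a + ((-k : ℤ) : ℝ) • X.gv) u' t = p t + ((-k : ℤ) : ℝ) • X.gv := fun t => by
      rw [hpab a t]
      unfold traj
      abel
    have := hst (p a + ((-k : ℤ) : ℝ) • X.gv) u' hA' a b hab (fun t ht => by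
      rw [e t, X5_int (f := X.y) h.gap.yg (-k) (p t)]
      have := hband t ht
      push_cast
      constructor <;> linarith [this.1, this.2])
    have eF : ∀ t, X.F2 (p t + ((-k : ℤ) : ℝ) • X.gv) (u' t) = X.F2 (p t) (u' t) := fun t => by
      have := X5_int (g := X.gv) (f := fun x => X.F2 x (u' t)) (c := 0) (fun x => by
        rw [add_zero]; exact h.perg x _) (-k) (p t)
      simpa using this
    simp only [e, eF] at this
    rw [X5_int (f := X.B) h.gap.Bg (-k) (p b), X5_int (f := X.B) h.gap.Bg (-k) (p a)] at this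
    linarith
  have hsum : (∫ t in (0:ℝ)..1, X.F2 (p t) (u' t)) = (∫ t in (0:ℝ)..a, X.F2 (p t) (u' t)) +
      (∫ t in a..b, X.F2 (p t) (u' t)) + ∫ t in b..(1:ℝ), X.F2 (p t) (u' t) := by
    rw [intervalIntegral.integral_add_adjacent_intervals (hI2 0 a) (hI2 a b),
      intervalIntegral.integral_add_adjacent_intervals (hI2 0 b) (hI2 b 1)]
  have hmono : (∫ t in (0:ℝ)..1, X.F2 (p t) (u' t)) ≤ ∫ t in (0:ℝ)..1, X.F (traj 0 x u t) (u t) := by
    refine intervalIntegral.integral_mono_on zero_le_one (hI2 0 1) (hI 0 1) fun t _ => ?_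
    rw [hpb, hu']
    exact h.ge _ _
  have hBx : X.gd.B x = X.B (p 0) := by rw [hp0]; rfl
  have hBx' : X.gd.B (x' + lv X.gd.b m) = X.B (p 1) := by rw [hp1]; rfl
  have hF : X.gd.F = X.F := rfl
  rw [hBx, hBx', hF] at hm
  have hθl := mul_le_mul_of_nonneg_left hlen2 hθ.le
  linarith

theorem XD.Ok.cross (h : X.Ok) {η : ℝ} (hη : 0 < η) : ∃ e : ℝ, 0 < e ∧ ∀ (k : ℤ) (x x' : Vec (2 + n)),
    (X.Y x ≤ k ∧ k + η ≤ X.Y x') ∨ (X.Y x' ≤ k ∧ k + η ≤ X.Y x) ∨
    (X.Y x ≤ k + X.τ - η ∧ k + X.τ ≤ X.Y x') ∨ (X.Y x' ≤ k + X.τ - η ∧ k + X.τ ≤ X.Y x) →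
    e ≤ X.gd.j x x' := by
  have hτ := h.gap.τ_pos
  obtain ⟨η1, h10, h11, h12⟩ : ∃ η1 : ℝ, 0 < η1 ∧ 2 * η1 ≤ η ∧ 4 * η1 ≤ X.τ :=
    ⟨min (η / 2) (X.τ / 4), lt_min (by linarith) (by linarith), by
      have := min_le_left (η / 2) (X.τ / 4); linarith, by
      have := min_le_right (η / 2) (X.τ / 4); linarith⟩
  obtain ⟨e, he, H⟩ := X5_main h h10
  refine ⟨e, he, fun k x x' hx => ?_⟩
  rcases hx with hx | hx | hx | hx
  · exact H k (k + η1) (k + 2 * η1) x x' (by linarith) (by linarith) (by linarith)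
      (Or.inl ⟨by linarith [hx.1], by linarith [hx.2]⟩)
  · exact H k (k + η1) (k + 2 * η1) x x' (by linarith) (by linarith) (by linarith)
      (Or.inr ⟨by linarith [hx.1], by linarith [hx.2]⟩)
  · exact H k (k + X.τ - 2 * η1) (k + X.τ - η1) x x' (by linarith) (by linarith) (by linarith)
      (Or.inl ⟨by linarith [hx.1], by linarith [hx.2]⟩)
  · exact H k (k + X.τ - 2 * η1) (k + X.τ - η1) x x' (by linarith) (by linarith) (by linarith)
      (Or.inr ⟨by linarith [hx.1], by linarith [hx.2]⟩)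

end EscG.X
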