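import Pool.Agent.EscG.XDefs
import Pool.Agent.EscG.A5a
import Pool.Agent.EscG.X1
import Pool.Agent.EscG.X2

/-!
Project EscG (MP_6acca1_an), module X6: distance and height, strictness (helper99).
-/

noncomputable section

namespace EscG.X

open MeasureTheory Set Filter Topology Esc EscF EscF.T EscG.T
open scoped ContDiff

variable {n : ℕ} {X : XD n}

/-! ### distance and height -/

theorem X6_infDist_add (h : X.Ok) (w : Vec (2 + n)) (m : Fin (1 + n) → ℤ) :
    Metric.infDist (w + lv X.gd.b m) X.gd.Z = Metric.infDist w X.gd.Z := by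
  have hi : Isometry (fun x : Vec (2 + n) => x + lv X.gd.b m) := isometry_add_right _
  have himg : (fun x : Vec (2 + n) => x + lv X.gd.b m) '' X.gd.Z = X.gd.Z := by
    ext x
    constructor
    · rintro ⟨y, hy, rfl⟩
      exact h.Z_J m y hy
    · intro hx
      refine ⟨x + lv X.gd.b (-m), h.Z_J (-m) x hx, ?_⟩
      have : lv X.gd.b (-m) = - lv X.gd.b m := by
        simp [lv, Finset.sum_neg_distrib]
      simp [this]
  have := Metric.infDist_image (x := w) (t := X.gd.Z) hi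
  rw [himg] at this
  exact this

theorem XD.Ok.dist_Y (h : X.Ok) {η : ℝ} (hη : 0 < η) : ∃ η' : ℝ, 0 < η' ∧ ∀ w : Vec (2 + n),
    η ≤ Metric.infDist w X.gd.Z → η' ≤ X.Y w ∨ X.Y w ≤ X.τ - 1 - η' := by
  obtain ⟨ρ, hρ⟩ := h.Y_X 2
  set K : Set (Vec (2 + n)) := Metric.closedBall 0 ρ ∩ {x | η ≤ Metric.infDist x X.gd.Z} with hK
  have hKc : IsCompact K := by
    refine (isCompact_closedBall 0 ρ).inter_right ?_
    exact isClosed_le continuous_const (Metric.continuous_infDist_pt _)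
  have hf : Continuous fun x : Vec (2 + n) => max (X.Y x) (X.τ - 1 - X.Y x) :=
    h.Y_cont.max (continuous_const.sub h.Y_cont)
  have hpos : ∀ x ∈ K, 0 < max (X.Y x) (X.τ - 1 - X.Y x) := by
    intro x hx
    by_contra hcon
    push Not at hcon
    have h1 := (max_le_iff.mp hcon)
    have hxZ : x ∈ X.gd.Z := ⟨by linarith [h1.2], h1.1⟩
    have h2 : η ≤ Metric.infDist x X.gd.Z := hx.2
    rw [Metric.infDist_zero_of_mem hxZ] at h2
    linarith
  obtain ⟨η0, hη0, hmin⟩ : ∃ η0 : ℝ, 0 < η0 ∧ ∀ x ∈ K, η0 ≤ max (X.Y x) (X.τ - 1 - X.Y x) := by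
    rcases K.eq_empty_or_nonempty with he | hne
    · exact ⟨1, one_pos, fun x hx => by rw [he] at hx; exact hx.elim⟩
    · obtain ⟨x0, hx0, hmin⟩ := hKc.exists_isMinOn hne hf.continuousOn
      exact ⟨_, hpos x0 hx0, fun x hx => hmin hx⟩
  have hτ := h.gap.τ_pos
  refine ⟨min η0 1, lt_min hη0 one_pos, fun w hw => ?_⟩
  have h1 : min η0 1 ≤ η0 := min_le_left _ _
  have h2 : min η0 1 ≤ 1 := min_le_right _ _
  by_cases hY : |X.Y w| ≤ 2
  · obtain ⟨m, hm⟩ := hρ w hY
    have hwK : w + lv X.gd.b m ∈ K := by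
      refine ⟨by simpa using hm, ?_⟩
      show η ≤ Metric.infDist _ _
      rw [X6_infDist_add h]
      exact hw
    have h3 := hmin _ hwK
    rw [h.Y_lv] at h3
    rcases le_max_iff.mp h3 with h4 | h4
    · left; linarith
    · right; linarith
  · push Not at hY
    rcases lt_abs.mp hY with h3 | h3
    · left; linarith
    · right; linarith

theorem XD.Ok.Out_Y (h : X.Ok) {η : ℝ} (hη : 0 < η) : ∃ η' : ℝ, 0 < η' ∧ ∀ w ∈ X.gd.Out η,
    ∃ k : ℤ, k + η' ≤ X.Y w ∧ X.Y w ≤ k + X.τ - η' := by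
  obtain ⟨η', hη', hd⟩ := h.dist_Y hη
  refine ⟨η', hη', fun w hw => ?_⟩
  have hτ := h.gap.τ_le
  have key : ∀ k : ℤ, η' ≤ X.Y w + k ∨ X.Y w + k ≤ X.τ - 1 - η' := by
    intro k
    have hk : (k : ℝ) • X.gd.g ∈ X.gd.Lam := by
      have := X.gd.Lam.zsmul_mem h.g_mem k
      rwa [← Int.cast_smul_eq_zsmul ℝ] at this
    have h1 := hd _ (hw _ hk)
    rwa [h.Y_g] at h1
  have hf1 := Int.floor_le (X.Y w)
  have hf2 := Int.lt_floor_add_one (X.Y w)
  refine ⟨⌊X.Y w⌋, ?_, ?_⟩
  · have h1 := key (-⌊X.Y w⌋)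
    push_cast at h1
    rcases h1 with h1 | h1
    · linarith
    · linarith
  · have h1 := key (-(⌊X.Y w⌋ + 1))
    push_cast at h1
    rcases h1 with h1 | h1
    · linarith
    · linarith

/-! ### strictness -/

theorem X6_y_g (h : X.Ok) (k : ℤ) (x : Vec 2) : X.y (x + (k : ℝ) • X.gv) = X.y x + k := by
  have h1 := h.Y_g (ib n x) k
  have h2 : X.gd.g = ib n X.gv := rfl
  rw [h2] at h1
  simp only [XD.Y, base_add, base_smul, base_ib] at h1
  exact h1

theorem X6_nat {f : Vec 2 → ℝ} {v : Vec 2} {c : ℝ} (hf : ∀ x, f (x + v) = f x + c) (k : ℕ) (x : Vec 2) :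
    f (x + (k : ℝ) • v) = f x + k * c := by
  induction k with
  | zero => simp
  | succ k ih =>
    have : x + ((k + 1 : ℕ) : ℝ) • v = (x + (k : ℝ) • v) + v := by
      push_cast; rw [add_smul, one_smul]; abel
    rw [this, hf, ih]
    push_cast; ring

theorem X6_int {f : Vec 2 → ℝ} {v : Vec 2} {c : ℝ} (hf : ∀ x, f (x + v) = f x + c) (k : ℤ) (x : Vec 2) :
    f (x + (k : ℝ) • v) = f x + k * c := by
  obtain ⟨m, hm | hm⟩ := Int.eq_nat_or_neg k
  · subst hm
    have := X6_nat hf m x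
    simpa using this
  · subst hm
    have := X6_nat hf m (x + ((-(m : ℤ) : ℤ) : ℝ) • v)
    have h2 : x + ((-(m : ℤ) : ℤ) : ℝ) • v + (m : ℝ) • v = x := by
      push_cast; rw [neg_smul]; abel
    rw [h2] at this
    push_cast at this ⊢
    linarith

theorem X6_const (h : X.Ok) {η' : ℝ} (hη' : 0 < η') {f : ℝ → ℝ} (hf : Continuous f) {a b : ℝ} (hab : a ≤ b)
    (hk : ∀ t ∈ Icc a b, ∃ k : ℤ, k + η' ≤ f t ∧ f t ≤ k + X.τ - η') :
    ∃ k : ℤ, ∀ t ∈ Icc a b, k + η' ≤ f t ∧ f t ≤ k + X.τ - η' := by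
  have hτ := h.gap.τ_le
  obtain ⟨k, hk1, hk2⟩ := hk a ⟨le_refl _, hab⟩
  refine ⟨k, fun t ht => ?_⟩
  obtain ⟨m, hm1, hm2⟩ := hk t ht
  -- no integer value on the interval
  have hno : ∀ j : ℤ, ∀ s ∈ Icc a b, f s ≠ j := by
    intro j s hs hj
    obtain ⟨i, hi1, hi2⟩ := hk s hs
    rw [hj] at hi1 hi2
    have h1 : (i : ℝ) < j := by linarith
    have h2 : (j : ℝ) < i + 1 := by linarith
    have h3 : i < j := by exact_mod_cast h1
    have h4 : j < i + 1 := by exact_mod_cast h2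
    omega
  have hivt : ∀ y, (f a ≤ y ∧ y ≤ f t) ∨ (f t ≤ y ∧ y ≤ f a) → ∃ s ∈ Icc a b, f s = y := by
    intro y hy
    rcases hy with hy | hy
    · obtain ⟨s, hs, hs'⟩ := intermediate_value_Icc ht.1 hf.continuousOn hy
      exact ⟨s, ⟨hs.1, hs.2.trans ht.2⟩, hs'⟩
    · obtain ⟨s, hs, hs'⟩ := intermediate_value_Icc' ht.1 hf.continuousOn hy
      exact ⟨s, ⟨hs.1, hs.2.trans ht.2⟩, hs'⟩
  have hkm : m = k := by
    rcases lt_trichotomy m k with h1 | h1 | h1
    · exfalso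
      have h2 : (m : ℝ) + 1 ≤ k := by exact_mod_cast h1
      obtain ⟨s, hs, hs'⟩ := hivt k (Or.inr ⟨by linarith, by linarith⟩)
      exact hno k s hs hs'
    · exact h1
    · exfalso
      have h2 : (k : ℝ) + 1 ≤ m := by exact_mod_cast h1
      obtain ⟨s, hs, hs'⟩ := hivt m (Or.inl ⟨by linarith, by linarith⟩)
      exact hno m s hs hs'
  subst hkm
  exact ⟨hm1, hm2⟩

theorem X6_traj_cont {u : ℝ → Vec (2 + n)} (hu : Adm u) (a : ℝ) (z : Vec (2 + n)) :
    Continuous (traj a z u) := by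
  obtain ⟨hm, C, hC⟩ := hu
  have hii : ∀ p q, IntervalIntegrable u volume p q := by
    intro p q
    refine (intervalIntegrable_const (c := C)).mono_fun hm.aestronglyMeasurable ?_
    refine Filter.Eventually.of_forall fun t => ?_
    exact (hC t).trans (le_abs_self C)
  exact continuous_const.add (intervalIntegral.continuous_primitive hii a)

theorem XD.Ok.strict (h : X.Ok) : ∀ η : ℝ, 0 < η → ∃ θ : ℝ, 0 < θ ∧ θ ≤ 1 ∧
    ∀ (z : Vec (2 + n)) (u : ℝ → Vec (2 + n)), Adm u → ∀ a b' : ℝ, a ≤ b' →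
      (∀ t ∈ Icc a b', traj a z u t ∈ X.gd.Out η) →
      X.gd.B (traj a z u b') - X.gd.B z ≤ (1 - θ) * ∫ t in a..b', X.gd.F (traj a z u t) (u t) := by
  intro η hη
  obtain ⟨η', hη', hO⟩ := h.Out_Y hη
  obtain ⟨θ, hθ, hs⟩ := h.gap.strict η' hη'
  refine ⟨min θ 1, lt_min hθ one_pos, min_le_right _ _, fun z u hu a b' hab hout => ?_⟩
  have hYc : Continuous fun t => X.Y (traj a z u t) := h.Y_cont.comp (X6_traj_cont hu a z)
  obtain ⟨k, hk⟩ := X6_const h hη' hYc hab (fun t ht => hO _ (hout t ht))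
  -- the base path, translated
  set u2 : ℝ → Vec 2 := fun s => base (u s) with hu2
  have hu2a : Adm u2 := adm_base hu
  set z2 : Vec 2 := base z + ((-k : ℤ) : ℝ) • X.gv with hz2
  have htr : ∀ t, traj a z2 u2 t = base (traj a z u t) + ((-k : ℤ) : ℝ) • X.gv := by
    intro t
    rw [base_traj hu]
    simp only [traj, hz2, hu2]
    abel
  have h1 := hs z2 u2 hu2a a b' hab (by
    intro t ht
    rw [htr, X6_y_g h]
    have h2 := hk t ht
    simp only [XD.Y] at h2
    push_cast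
    constructor
    · linarith [h2.1]
    · linarith [h2.2])
  have hB : ∀ x : Vec 2, X.B (x + ((-k : ℤ) : ℝ) • X.gv) = X.B x + ((-k : ℤ) : ℝ) * X.a :=
    fun x => X6_int h.gap.Bg (-k) x
  have hF2 : ∀ x v, X.F2 (x + ((-k : ℤ) : ℝ) • X.gv) v = X.F2 x v := by
    intro x v
    have := X6_int (f := fun x => X.F2 x v) (v := X.gv) (c := 0) (fun x => by simp [h.perg]) (-k) x
    simpa using this
  rw [htr, hB, hz2, hB] at h1
  have h3 : ∀ t, X.F2 (traj a (base z + ((-k : ℤ) : ℝ) • X.gv) u2 t) (u2 t) =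
      X.F2 (base (traj a z u t)) (base (u t)) := by
    intro t
    have := htr t
    rw [hz2] at this
    rw [this, hF2]
  simp only [h3] at h1
  have h4 : X.gd.B (traj a z u b') - X.gd.B z ≤
      (1 - θ) * ∫ t in a..b', X.F2 (base (traj a z u t)) (base (u t)) := by
    show X.B (base (traj a z u b')) - X.B (base z) ≤ _
    linarith
  have hmF := h.fins.mF_pos
  have h5 : 0 ≤ ∫ t in a..b', X.F2 (base (traj a z u t)) (base (u t)) := by
    refine intervalIntegral.integral_nonneg hab fun t _ => ?_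
    exact le_trans (mul_nonneg hmF.le (norm_nonneg _)) (h.low2 _ _)
  have h6 : 0 ≤ ∫ t in a..b', X.F (traj a z u t) (u t) := by
    refine intervalIntegral.integral_nonneg hab fun t _ => ?_
    exact le_trans (mul_nonneg hmF.le (norm_nonneg _)) (h.fins.low _ _)
  have h7 : ∫ t in a..b', X.F2 (base (traj a z u t)) (base (u t)) ≤
      ∫ t in a..b', X.F (traj a z u t) (u t) := by
    by_cases hi : IntervalIntegrable (fun t => X.F2 (base (traj a z u t)) (base (u t))) volume a b'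
    · exact intervalIntegral.integral_mono_on hab hi (A5a_ii h.fins hu a z a b') (fun t _ => h.ge _ _)
    · rw [intervalIntegral.integral_undef hi]
      exact h6
  have h8 : (1 - θ) * ∫ t in a..b', X.F2 (base (traj a z u t)) (base (u t)) ≤
      (1 - min θ 1) * ∫ t in a..b', X.F2 (base (traj a z u t)) (base (u t)) := by
    refine mul_le_mul_of_nonneg_right ?_ h5
    linarith [min_le_left θ 1]
  have h9 : (1 - min θ 1) * ∫ t in a..b', X.F2 (base (traj a z u t)) (base (u t)) ≤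
      (1 - min θ 1) * ∫ t in a..b', X.F (traj a z u t) (u t) := by
    refine mul_le_mul_of_nonneg_left h7 ?_
    linarith [min_le_right θ 1]
  show _ ≤ (1 - min θ 1) * ∫ t in a..b', X.F (traj a z u t) (u t)
  linarith

end EscG.X
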