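import Pool.Agent.EscG.O4
import Pool.Agent.EscG.O1
import Pool.Agent.EscG.X7
import Pool.Agent.EscG.X8
import Pool.Agent.EscG.X10

/-!
Project EscG, module O5: the result.
-/

noncomputable section

namespace EscG.T

open Filter Topology Set Esc EscN EscF EscF.T EscG.X
open scoped ContDiff

/-- For a metric `ρ² Q + h` on `𝕋² × 𝕋ⁿ` with `ρ` not constant, every Lagrangian at bounded distance of the
kinetic energy has, after the addition of a generic potential, orbits that tend to infinity. -/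
theorem result {n : ℕ} {k : ℕ∞} (hk : 2 ≤ k) {Q : Vec 2 →L[ℝ] Vec 2 →L[ℝ] ℝ} (hQ : IsScalarProduct Q)
    {ρ : Vec 2 → ℝ} (hρ : IsConformalFactor ρ) (hne : ∃ x y, ρ x ≠ ρ y)
    {h : Vec (2 + n) → Vec n →L[ℝ] Vec n →L[ℝ] ℝ} (hh : IsFibreMetric h)
    {A : Vec 2 → Vec 2 →L[ℝ] Vec n} (hA : IsConnection A) {L : Lag (2 + n)}
    (hL : IsNear (kinetic Q ρ h A) L) :
    {f : Pot (2 + n) k | HasOrbitToInfinity (addPot L f.toFun)} ∈ residual (Pot (2 + n) k) ∧
      Dense {f : Pot (2 + n) k | HasOrbitToInfinity (addPot L f.toFun)} := by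
  have := baire (2 + n) k
  refine (fun h => ⟨h, dense_of_mem_residual h⟩) ?_
  have e : (fun x v : Vec (2 + n) => √(2 * kinetic Q ρ h A x v) ^ 2 / 2) = kinetic Q ρ h A := by
    funext x v
    rw [Real.sq_sqrt (by have := kinetic_nonneg hQ ρ hh A x v; positivity)]
    ring
  have hL' : IsNear (fun x v => √(2 * kinetic Q ρ h A x v) ^ 2 / 2) L := by rw [e]; exact hL
  obtain ⟨mF, MF, m, M, h1⟩ := tl_TL (ContinuousLinearEquiv.refl ℝ (Vec (2 + n)))
    (kinetic_finsler hQ hρ hh hA) hL'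
  obtain ⟨X, hX, hβ, hXF, rfl, rfl⟩ := exists_xd hQ hρ hne hh hA (mF := mF) (MF := MF)
    (fun β hβ => (h1 β hβ).fins)
  have h2 := h1 X.β hβ
  have h3 : TL X.gd.β X.gd.F X.gd.mF X.gd.MF m M (tl (ContinuousLinearEquiv.refl ℝ (Vec (2 + n))) L) := by
    change TL X.β X.F X.mF X.MF m M _
    rw [hXF]
    exact h2
  exact residual_gd hk hX.ok hβ hL h3

end EscG.T
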