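import Pool.Agent.EscG.UDefs
import Pool.Agent.EscG.O4
import Pool.Agent.EscG.O1
import Pool.Agent.EscG.X7
import Pool.Agent.EscG.X8
import Pool.Agent.EscG.X9

/-!
Project EscG, module O8: the result for a general metric of the base with gap data.
-/

noncomputable section

namespace EscG.U

open MeasureTheory Filter Topology Set Esc EscF EscF.T EscG.T EscG.X
open scoped ContDiff

variable {n : ℕ}

/-! ### from functions to continuous linear maps -/

theorem IsScalarProduct.add_right {Q : Vec n → Vec n → ℝ} (hQ : U.IsScalarProduct Q) (v w w' : Vec n) :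
    Q v (w + w') = Q v w + Q v w' := by
  rw [hQ.symm, hQ.add, hQ.symm w, hQ.symm w']

theorem IsScalarProduct.smul_right {Q : Vec n → Vec n → ℝ} (hQ : U.IsScalarProduct Q) (c : ℝ) (v w : Vec n) :
    Q v (c • w) = c * Q v w := by
  rw [hQ.symm, hQ.smul, hQ.symm w]

/-- the continuous bilinear form of a scalar product -/
def toQ (Q : Vec n → Vec n → ℝ) (hQ : U.IsScalarProduct Q) : Vec n →L[ℝ] Vec n →L[ℝ] ℝ :=
  LinearMap.toContinuousLinearMap
    { toFun := fun v => LinearMap.toContinuousLinearMap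
        { toFun := fun w => Q v w
          map_add' := fun w w' => hQ.add_right v w w'
          map_smul' := fun c w => hQ.smul_right c v w }
      map_add' := fun v v' => by
        ext w
        exact hQ.add v v' w
      map_smul' := fun c v => by
        ext w
        exact hQ.smul c v w }

theorem toQ_apply {Q : Vec n → Vec n → ℝ} (hQ : U.IsScalarProduct Q) (v w : Vec n) :
    toQ Q hQ v w = Q v w := rfl

theorem toQ_scalar {Q : Vec n → Vec n → ℝ} (hQ : U.IsScalarProduct Q) : T.IsScalarProduct (toQ Q hQ) :=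
  ⟨fun v w => hQ.symm v w, fun v hv => hQ.pos v hv⟩

/-- the continuous linear maps of a fibre metric -/
def toH {h : Vec (2 + n) → Vec n → Vec n → ℝ} (hh : U.IsFibreMetric h) :
    Vec (2 + n) → Vec n →L[ℝ] Vec n →L[ℝ] ℝ := fun x => toQ (h x) (hh.scalar x)

theorem toH_fibre {h : Vec (2 + n) → Vec n → Vec n → ℝ} (hh : U.IsFibreMetric h) :
    T.IsFibreMetric (toH hh) := by
  refine ⟨?_, fun m x => ?_, fun x => toQ_scalar (hh.scalar x)⟩
  · rw [continuous_clm_apply]
    intro v
    rw [continuous_clm_apply]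
    intro w
    exact hh.cont v w
  · ext v w
    show h (x + vz m) v w = h x v w
    rw [hh.periodic]

/-- the continuous linear maps of a connection -/
def toA {A : Vec 2 → Vec 2 → Vec n} (hA : U.IsConnection A) : Vec 2 → Vec 2 →L[ℝ] Vec n := fun x =>
  LinearMap.toContinuousLinearMap
    { toFun := fun v => A x v
      map_add' := fun v w => hA.add x v w
      map_smul' := fun c v => hA.smul x c v }

theorem toA_conn {A : Vec 2 → Vec 2 → Vec n} (hA : U.IsConnection A) : T.IsConnection (toA hA) := by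
  refine ⟨?_, fun m x => ?_⟩
  · rw [continuous_clm_apply]
    intro v
    exact hA.cont v
  · ext1 v
    show A (x + vz m) v = A x v
    rw [hA.periodic]

/-! ### the metric of the product -/

theorem O8_vert {A : Vec 2 → Vec 2 → Vec n} (hA : U.IsConnection A) (x v : Vec (2 + n)) :
    U.vert A x v = T.vert (toA hA) x v := rfl

theorem O8_kin {F2 : Vec 2 → Vec 2 → ℝ} {h : Vec (2 + n) → Vec n → Vec n → ℝ} (hh : U.IsFibreMetric h)
    {A : Vec 2 → Vec 2 → Vec n} (hA : U.IsConnection A) (x v : Vec (2 + n)) :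
    2 * U.kinetic F2 h A x v = F2 (base x) (base v) ^ 2 +
      toH hh x (T.vert (toA hA) x v) (T.vert (toA hA) x v) := by
  show 2 * ((F2 (base x) (base v) ^ 2 + h x (U.vert A x v) (U.vert A x v)) / 2) =
    F2 (base x) (base v) ^ 2 + h x (U.vert A x v) (U.vert A x v)
  ring

theorem O8_nonneg (F2 : Vec 2 → Vec 2 → ℝ) {h : Vec (2 + n) → Vec n → Vec n → ℝ} (hh : U.IsFibreMetric h)
    {A : Vec 2 → Vec 2 → Vec n} (hA : U.IsConnection A) (x v : Vec (2 + n)) :
    0 ≤ U.kinetic F2 h A x v := by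
  have h1 := O8_kin (F2 := F2) hh hA x v
  have h2 := X8_nonneg ((toH_fibre hh).scalar x) (T.vert (toA hA) x v)
  have h3 := sq_nonneg (F2 (base x) (base v))
  linarith

theorem O8_finsler {F2 : Vec 2 → Vec 2 → ℝ} (hF : IsFinsler F2) {h : Vec (2 + n) → Vec n → Vec n → ℝ}
    (hh : U.IsFibreMetric h) {A : Vec 2 → Vec 2 → Vec n} (hA : U.IsConnection A) :
    IsFinsler (fun x v => √(2 * U.kinetic F2 h A x v)) := by
  have hA' := toA_conn hA
  have hh' := toH_fibre hh
  refine ⟨?_, fun m x v => ?_, fun x v c hc => ?_, fun x v hv => ?_⟩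
  · have hb1 : Continuous (fun p : Vec (2 + n) × Vec (2 + n) => base p.1) := X8_base_cont.comp continuous_fst
    have hb2 : Continuous (fun p : Vec (2 + n) × Vec (2 + n) => base p.2) := X8_base_cont.comp continuous_snd
    have hf0 : Continuous (fun p : Vec (2 + n) × Vec (2 + n) => fib p.2) := X8_fib_cont.comp continuous_snd
    have hf2 : Continuous (fun p : Vec (2 + n) × Vec (2 + n) => T.vert (toA hA) p.1 p.2) := by
      unfold T.vert
      exact hf0.sub ((hA'.cont.comp hb1).clm_apply hb2)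
    have h1 : Continuous (fun p : Vec (2 + n) × Vec (2 + n) => F2 (base p.1) (base p.2) ^ 2) :=
      (hF.cont.comp (hb1.prodMk hb2)).pow 2
    have h3 : Continuous (fun p : Vec (2 + n) × Vec (2 + n) =>
        toH hh p.1 (T.vert (toA hA) p.1 p.2) (T.vert (toA hA) p.1 p.2)) :=
      ((hh'.cont.comp continuous_fst).clm_apply hf2).clm_apply hf2
    have e : (fun p : Vec (2 + n) × Vec (2 + n) => √(2 * U.kinetic F2 h A p.1 p.2)) = fun p =>
        √(F2 (base p.1) (base p.2) ^ 2 + toH hh p.1 (T.vert (toA hA) p.1 p.2) (T.vert (toA hA) p.1 p.2)) := by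
      funext p
      rw [O8_kin hh hA]
    show Continuous (fun p : Vec (2 + n) × Vec (2 + n) => √(2 * U.kinetic F2 h A p.1 p.2))
    rw [e]
    exact (h1.add h3).sqrt
  · have h1 : 2 * U.kinetic F2 h A (x + vz m) v = 2 * U.kinetic F2 h A x v := by
      unfold U.kinetic U.vert
      rw [X8_base_vz, hF.periodic, hh.periodic, hA.periodic]
    show √(2 * U.kinetic F2 h A (x + vz m) v) = √(2 * U.kinetic F2 h A x v)
    rw [h1]
  · have h1 : 2 * U.kinetic F2 h A x (c • v) = c ^ 2 * (2 * U.kinetic F2 h A x v) := by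
      rw [O8_kin hh hA, O8_kin hh hA, X8_base_smul, X8_vert_smul, hF.hom _ _ _ hc]
      simp only [map_smul, _root_.smul_apply, smul_eq_mul]
      ring
    show √(2 * U.kinetic F2 h A x (c • v)) = c * √(2 * U.kinetic F2 h A x v)
    rw [h1, Real.sqrt_mul (sq_nonneg c), Real.sqrt_sq hc]
  · refine Real.sqrt_pos.2 ?_
    rw [O8_kin hh hA]
    have h2 := X8_nonneg (hh'.scalar x) (T.vert (toA hA) x v)
    by_cases hb : base v = 0
    · have hf : T.vert (toA hA) x v ≠ 0 := by
        intro hf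
        unfold T.vert at hf
        rw [hb, map_zero, sub_zero] at hf
        exact hv (X8_zero hb hf)
      have h3 := (hh'.scalar x).2 _ hf
      positivity
    · have h3 := hF.pos (base x) (base v) hb
      positivity

/-! ### the data of the product -/

/-- gap data for the metric `F2` of the plane -/
def HasGap (F2 : Vec 2 → Vec 2 → ℝ) : Prop :=
  ∃ (bv gv : Vec 2) (B y : Vec 2 → ℝ) (l a τ : ℝ) (c0 c1 : ℝ → Vec 2), ZB bv gv ∧
    Gap2 F2 bv gv B y l a τ c0 c1

theorem exists_xdF {F2 : Vec 2 → Vec 2 → ℝ} (hF2 : IsFinsler F2) (hg : HasGap F2)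
    {h : Vec (2 + n) → Vec n → Vec n → ℝ} (hh : U.IsFibreMetric h)
    {A : Vec 2 → Vec 2 → Vec n} (hA : U.IsConnection A) {mF MF : ℝ}
    (hF : ∀ β, IsLatBasis (ContinuousLinearEquiv.refl ℝ (Vec (2 + n))) β →
      Fins β (fun x v => √(2 * U.kinetic F2 h A x v)) mF MF) :
    ∃ X : XD n, X.Ok ∧ IsLatBasis (ContinuousLinearEquiv.refl ℝ (Vec (2 + n))) X.β ∧
      X.F = (fun x v => √(2 * U.kinetic F2 h A x v)) ∧ X.mF = mF ∧ X.MF = MF := by
  obtain ⟨bv, gv, B, y, l, a, τ, c0, c1, hz, hgap⟩ := hg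
  obtain ⟨β, h0, h1, h2, hlat⟩ := exists_beta hz n
  obtain ⟨C, hC⟩ := exists_Cf (toH_fibre hh)
  have hfin := hF β hlat
  have hk := O8_kin (F2 := F2) hh hA
  have hfn : ∀ (x : Vec (2 + n)) (w : Vec n), 0 ≤ toH hh x w w := fun x w =>
    X8_nonneg ((toH_fibre hh).scalar x) w
  have hF0 : ∀ x v, 0 ≤ F2 x v := fun x v => by
    by_cases hv : v = 0
    · have := hF2.hom x 0 0 le_rfl
      rw [hv]
      simp only [zero_smul, zero_mul] at this
      exact this.ge
    · exact (hF2.pos x v hv).le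
  refine ⟨⟨β, fun x v => √(2 * U.kinetic F2 h A x v), mF, MF, F2, toA hA, max C 0, bv, gv, B,
    y, l, a, τ, c0, c1⟩, ?_, hlat, rfl, rfl, rfl⟩
  refine ⟨hfin, h0, h1, h2, hF2.cont, hF2.hom, ?_, ?_, ?_, ?_, (toA_conn hA).cont, ?_, hgap⟩
  · intro x v
    show mF * ‖v‖ ≤ F2 x v
    have hw : T.vert (toA hA) (ib n x) (ib n v + fb (toA hA x v)) = 0 := by
      unfold T.vert
      rw [fib_add, fib_ib, fib_fb, base_add, base_ib, base_ib, base_fb, add_zero, zero_add, sub_self]
    have e := hfin.low (ib n x) (ib n v + fb (toA hA x v))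
    rw [hk, hw, base_add, base_ib, base_ib, base_fb, add_zero, map_zero, add_zero,
      Real.sqrt_sq (hF0 x v)] at e
    have e2 : ‖v‖ ≤ ‖ib n v + fb (toA hA x v)‖ := by
      have e3 := norm_base_le (ib n v + fb (toA hA x v))
      rwa [base_add, base_ib, base_fb, add_zero] at e3
    exact (mul_le_mul_of_nonneg_left e2 hfin.mF_pos.le).trans e
  · intro x v
    obtain ⟨m, rfl⟩ := hz.b
    exact hF2.periodic m x v
  · intro x v
    obtain ⟨m, rfl⟩ := hz.g
    exact hF2.periodic m x v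
  · intro x v
    show F2 (base x) (base v) ≤ √(2 * U.kinetic F2 h A x v)
    rw [hk]
    refine Real.le_sqrt_of_sq_le ?_
    linarith [hfn x (T.vert (toA hA) x v)]
  · intro x v
    show √(2 * U.kinetic F2 h A x v) ^ 2 ≤ F2 (base x) (base v) ^ 2 +
      max C 0 * ‖fib v - toA hA (base x) (base v)‖ ^ 2
    obtain ⟨w, hw⟩ : ∃ w, w = T.vert (toA hA) x v := ⟨_, rfl⟩
    have hw' : fib v - toA hA (base x) (base v) = w := hw.symm
    rw [hw', hk, ← hw, Real.sq_sqrt (add_nonneg (sq_nonneg _) (hfn x w))]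
    have e1 := hC x w
    have e2 : C * ‖w‖ ^ 2 ≤ max C 0 * ‖w‖ ^ 2 :=
      mul_le_mul_of_nonneg_right (le_max_left _ _) (sq_nonneg _)
    linarith

/-- residual set for a metric of the base with gap data -/
theorem result_gap {k : ℕ∞} (hk : 2 ≤ k) {F2 : Vec 2 → Vec 2 → ℝ} (hF2 : IsFinsler F2)
    (hg : HasGap F2) {h : Vec (2 + n) → Vec n → Vec n → ℝ} (hh : U.IsFibreMetric h)
    {A : Vec 2 → Vec 2 → Vec n} (hA : U.IsConnection A) {L : Lag (2 + n)}
    (hL : IsNear (U.kinetic F2 h A) L) :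
    {f : Pot (2 + n) k | HasOrbitToInfinity (addPot L f.toFun)} ∈ residual (Pot (2 + n) k) := by
  have e : (fun x v : Vec (2 + n) => √(2 * U.kinetic F2 h A x v) ^ 2 / 2) = U.kinetic F2 h A := by
    funext x v
    rw [Real.sq_sqrt (by have := O8_nonneg F2 hh hA x v; positivity)]
    ring
  have hL' : IsNear (fun x v => √(2 * U.kinetic F2 h A x v) ^ 2 / 2) L := by rw [e]; exact hL
  obtain ⟨mF, MF, m, M, h1⟩ := tl_TL (ContinuousLinearEquiv.refl ℝ (Vec (2 + n)))
    (O8_finsler hF2 hh hA) hL'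
  obtain ⟨X, hX, hβ, hXF, rfl, rfl⟩ := exists_xdF hF2 hg hh hA (mF := mF) (MF := MF)
    (fun β hβ => (h1 β hβ).fins)
  have h2 := h1 X.β hβ
  have h3 : TL X.gd.β X.gd.F X.gd.mF X.gd.MF m M (tl (ContinuousLinearEquiv.refl ℝ (Vec (2 + n))) L) := by
    change TL X.β X.F X.mF X.MF m M _
    rw [hXF]
    exact h2
  exact residual_gd hk hX.ok hβ hL h3

/-! ### conformal metrics -/

theorem O8_conf_finsler {Q : Vec 2 → Vec 2 → ℝ} (hQ : U.IsScalarProduct Q) {ρ : Vec 2 → ℝ}
    (hρ : IsConformalFactor ρ) : IsFinsler (fun x v => ρ x * √(Q v v)) := by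
  have hQ' := toQ_scalar hQ
  refine ⟨?_, fun m x v => ?_, fun x v c hc => ?_, fun x v hv => ?_⟩
  · have h1 : Continuous (fun p : Vec 2 × Vec 2 => ρ p.1) := hρ.smooth.continuous.comp continuous_fst
    have h2 : Continuous (fun p : Vec 2 × Vec 2 => toQ Q hQ p.2 p.2) :=
      ((toQ Q hQ).continuous.comp continuous_snd).clm_apply continuous_snd
    exact h1.mul h2.sqrt
  · show ρ (x + vz m) * √(Q v v) = ρ x * √(Q v v)
    rw [hρ.periodic]
  · show ρ x * √(Q (c • v) (c • v)) = c * (ρ x * √(Q v v))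
    rw [hQ.smul, hQ.smul_right, ← mul_assoc, ← sq, Real.sqrt_mul (sq_nonneg c), Real.sqrt_sq hc]
    ring
  · exact mul_pos (hρ.pos x) (Real.sqrt_pos.2 (hQ.pos v hv))

theorem O8_conf {F : Vec 2 → Vec 2 → ℝ} (hF : IsNonflatConformal F) : IsFinsler F ∧ HasGap F := by
  obtain ⟨Q, ρ, hQ, hρ, hne, he⟩ := hF
  have e : F = fun x v => ρ x * √(Q v v) := by
    funext x v
    exact he x v
  rw [e]
  exact ⟨O8_conf_finsler hQ hρ, exists_gap2 (toQ_scalar hQ) hρ hne⟩

/-- the result for conformal metrics -/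
theorem result_conf {k : ℕ∞} (hk : 2 ≤ k) {F : Vec 2 → Vec 2 → ℝ} (hF : IsNonflatConformal F)
    {h : Vec (2 + n) → Vec n → Vec n → ℝ} (hh : U.IsFibreMetric h)
    {A : Vec 2 → Vec 2 → Vec n} (hA : U.IsConnection A) {L : Lag (2 + n)}
    (hL : IsNear (U.kinetic F h A) L) :
    {f : Pot (2 + n) k | HasOrbitToInfinity (addPot L f.toFun)} ∈ residual (Pot (2 + n) k) ∧
      Dense {f : Pot (2 + n) k | HasOrbitToInfinity (addPot L f.toFun)} := by
  have := baire (2 + n) k
  have h1 := result_gap hk (O8_conf hF).1 (O8_conf hF).2 hh hA hL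
  exact ⟨h1, dense_of_mem_residual h1⟩

end EscG.U
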