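import Pool.Agent.EscG.OCore

/-!
INTERFACE of the outer layer of project EscG. All statements with sorry; every module proves its
statements in its own file. Never import this file in a final module.
-/

noncomputable section

namespace EscG.T

open Filter Topology Set Esc EscN EscF.T
open scoped ContDiff

/-! ## MODULE O1 (file O1.lean): transport of the Lagrangian -/

theorem exists_iso {n : ℕ} {Q : Vec n →L[ℝ] Vec n →L[ℝ] ℝ} (hQ : IsScalarProduct Q) :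
    ∃ A : Vec n ≃L[ℝ] Vec n, ∀ v w, inner ℝ (A v) (A w) = Q v w := sorry

theorem exists_latBasis {n : ℕ} (A : Vec n ≃L[ℝ] Vec n) :
    ∃ β : Module.Basis (Fin n) ℝ (Vec n), IsLatBasis A β := sorry

theorem tl_TL {n : ℕ} (A : Vec n ≃L[ℝ] Vec n) {F : Vec n → Vec n → ℝ} (hF : IsFinsler F) {L : Lag n}
    (hL : IsNear (fun x v => F x v ^ 2 / 2) L) : ∃ mF MF m M : ℝ, ∀ β : Module.Basis (Fin n) ℝ (Vec n),
      IsLatBasis A β → TL β (tF A F) mF MF m M (tl A L) := sorry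

/-! ## MODULE O2 (file O2.lean): transport of potentials -/

theorem core_pt {n : ℕ} {k : ℕ∞} (hk : 2 ≤ k) {A : Vec n ≃L[ℝ] Vec n}
    {β : Module.Basis (Fin n) ℝ (Vec n)} (hβ : IsLatBasis A β) (f : Pot n k) :
    Pt β (core A f.toFun) := sorry

/-- open sets of potentials -/
theorem isOpen_of {n : ℕ} {k : ℕ∞} (hk : 2 ≤ k) {A : Vec n ≃L[ℝ] Vec n}
    {β : Module.Basis (Fin n) ℝ (Vec n)} (hβ : IsLatBasis A β) (P : (Vec n → ℝ → ℝ) → Prop)
    (hP : ∀ f, Pt β f → P f → ∃ r > 0, ∀ f', Pt β f' → (∀ x t, |f x t - f' x t| ≤ r) → P f') :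
    IsOpen {f : Pot n k | P (core A f.toFun)} := sorry

/-- small perturbations of potentials -/
theorem dense_of {n : ℕ} {k : ℕ∞} {A : Vec n ≃L[ℝ] Vec n}
    {β : Module.Basis (Fin n) ℝ (Vec n)} (hβ : IsLatBasis A β) (P : (Vec n → ℝ → ℝ) → Prop) (f : Pot n k)
    (hP : ∀ (N : SmNorm β) (ε : ℝ), 0 < ε → ∃ G, Sm β G ∧ N.nm G < ε ∧
      P (fun x t => core A f.toFun x t + G x t)) (r : ℕ) {ε : ℝ} (hε : 0 < ε) :
    ∃ G : Pot n k, (∀ j ≤ r, ∀ q, ‖iteratedFDeriv ℝ j G.toFun q‖ < ε) ∧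
      P (core A (Pot.add f G).toFun) := sorry

/-! ## MODULE O3 (file O3.lean): orbits -/

/-- a `C¹` solution of the Euler-Lagrange equation of a strictly convex Lagrangian is `C²` -/
theorem c2_of_c1 {n : ℕ} {L : Lag n} (hL : ContDiff ℝ 2 L) {c : ℝ} (hc : 0 < c)
    (hconv : ∀ x v t w, c * ‖w‖ ^ 2 ≤ iteratedFDeriv ℝ 2 (fun u => L (x, u, t)) v ![w, w])
    {x v : ℝ → Vec n} (hx : ∀ t, 0 < t → HasDerivAt x (v t) t) (hv : ContinuousOn v (Ioi 0))
    (hEL : ∀ t, 0 < t → HasDerivAt (fun s => fderiv ℝ (fun w => L (x s, w, s)) (v s))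
      (fderiv ℝ (fun y => L (y, v t, t)) (x t)) t) : IsOrbit L x := sorry

/-- an escaping orbit of the transported Lagrangian, on `(t0,∞)` -/
theorem orbit_back {n : ℕ} {k : ℕ∞} (hk : 2 ≤ k) {K : Vec n → Vec n → ℝ} {L : Lag n} (hL : IsNear K L)
    (A : Vec n ≃L[ℝ] Vec n) (f : Pot n k) {t0 : ℝ} {x v : ℝ → Vec n} (hx : ∀ t, t0 < t → HasDerivAt x (v t) t)
    (hv : ContinuousOn v (Ici t0))
    (hEL : ∀ t, t0 < t → HasDerivAt (fun s => gu (lf (tl A L) (core A f.toFun)) (x s) (v s) s)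
      (gx (lf (tl A L) (core A f.toFun)) (x t) (v t) t) t)
    (hinf : Tendsto (fun t => ‖v t‖) atTop atTop) : HasOrbitToInfinity (addPot L f.toFun) := sorry

end EscG.T
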