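import Pool.Agent.EscG.CDefs

/-!
Project EscG: the part of the hypotheses on the data which does not involve the passing costs.
-/

noncomputable section

namespace EscG

open MeasureTheory Set Filter Topology Esc EscF
open scoped ContDiff

variable {ι : Type} [Fintype ι] {d : ℕ} {E : Type*} [NormedAddCommGroup E] [InnerProductSpace ℝ E]

/-- elementary hypotheses -/
structure GD.Pre (D : GD ι d E) : Prop where
  li : LinearIndependent ℝ D.b
  bβ : ∀ i, ∃ k, D.b i = D.β k
  fins : Fins D.β D.F D.mF D.MF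
  cal : Cal D.b D.F D.B D.c
  Bper : ∀ v ∈ D.Lam, ∃ a : ℝ, ∀ x, D.B (x + v) = D.B x + a

theorem GD.Ok.pre {D : GD ι d E} (h : D.Ok) : D.Pre := ⟨h.li, h.bβ, h.fins, h.cal, h.Bper⟩

end EscG
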