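import Pool.Agent.EscG.PrDefs
import Pool.Agent.EscG.HFinal

set_option autoImplicit false

/-!
Project EscG, module Pr1: products of `𝕋²`, with an arbitrary Riemannian metric, and flat tori.
-/

noncomputable section

namespace EscG.U

open Filter Topology Set EscF.T EscG.T EscG.X
open scoped ContDiff

variable {n : ℕ} {k : ℕ∞} {g : Vec 2 → Vec 2 → Vec 2 → ℝ} {Q : Vec n → Vec n → ℝ}

/-! ### linear maps -/

def Pr1_b (n : ℕ) : Vec (2 + n) →L[ℝ] Vec 2 := LinearMap.toContinuousLinearMap (X1_baseL n)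
def Pr1_f (n : ℕ) : Vec (2 + n) →L[ℝ] Vec n := LinearMap.toContinuousLinearMap (X1_fibL n)
def Pr1_i (n : ℕ) : Vec 2 →L[ℝ] Vec (2 + n) := LinearMap.toContinuousLinearMap (X1_ibL n)
def Pr1_j (n : ℕ) : Vec n →L[ℝ] Vec (2 + n) := LinearMap.toContinuousLinearMap (X1_fbL n)

theorem Pr1_b_apply (x : Vec (2 + n)) : Pr1_b n x = base x := rfl
theorem Pr1_f_apply (x : Vec (2 + n)) : Pr1_f n x = fib x := rfl
theorem Pr1_i_apply (x : Vec 2) : Pr1_i n x = ib n x := rfl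
theorem Pr1_j_apply (x : Vec n) : Pr1_j n x = fb x := rfl

theorem Pr1_base_vz (m : Fin (2 + n) → ℤ) (x : Vec (2 + n)) :
    base (x + vz m) = base x + vz (fun i => m (Fin.castAdd n i)) := X8_base_vz m x

theorem Pr1_fib_vz (m : Fin (2 + n) → ℤ) (x : Vec (2 + n)) :
    fib (x + vz m) = fib x + vz (fun j => m (Fin.natAdd 2 j)) := by
  rw [vz_split, fib_add, fib_add, fib_ib, fib_fb, zero_add]

/-! ### the product metric as continuous linear maps -/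

/-- product of bilinear maps -/
def Pr1_prod (b : Vec 2 →L[ℝ] Vec 2 →L[ℝ] ℝ) (q : Vec n →L[ℝ] Vec n →L[ℝ] ℝ) :
    Vec (2 + n) →L[ℝ] Vec (2 + n) →L[ℝ] ℝ :=
  b.bilinearComp (Pr1_b n) (Pr1_b n) + q.bilinearComp (Pr1_f n) (Pr1_f n)

theorem Pr1_prod_apply (b : Vec 2 →L[ℝ] Vec 2 →L[ℝ] ℝ) (q : Vec n →L[ℝ] Vec n →L[ℝ] ℝ) (v w : Vec (2 + n)) :
    Pr1_prod b q v w = b (base v) (base w) + q (fib v) (fib w) := rfl

theorem Pr1_prod_scalar {b : Vec 2 →L[ℝ] Vec 2 →L[ℝ] ℝ} (hb : T.IsScalarProduct b)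
    {q : Vec n →L[ℝ] Vec n →L[ℝ] ℝ} (hq : T.IsScalarProduct q) : T.IsScalarProduct (Pr1_prod b q) := by
  refine ⟨fun v w => ?_, fun v hv => ?_⟩
  · rw [Pr1_prod_apply, Pr1_prod_apply, hb.1, hq.1]
  · rw [Pr1_prod_apply]
    by_cases h1 : base v = 0
    · have h2 : fib v ≠ 0 := fun h2 => hv (X8_zero h1 h2)
      have h3 := hq.2 _ h2
      rw [h1, map_zero]
      simpa using h3
    · have h3 := hb.2 _ h1
      by_cases h2 : fib v = 0
      · rw [h2, map_zero]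
        simpa using h3
      · exact add_pos h3 (hq.2 _ h2)

theorem Pr1_prod_smooth {G : Vec 2 → Vec 2 →L[ℝ] Vec 2 →L[ℝ] ℝ} (hG : ContDiff ℝ k G)
    (q : Vec n →L[ℝ] Vec n →L[ℝ] ℝ) : ContDiff ℝ k (fun x : Vec (2 + n) => Pr1_prod (G (base x)) q) := by
  refine contDiff_clm_apply_iff.2 fun v => contDiff_clm_apply_iff.2 fun w => ?_
  have h1 : ContDiff ℝ k (fun x : Vec (2 + n) => G (base x)) := hG.comp (Pr1_b n).contDiff
  have h2 : ContDiff ℝ k (fun x : Vec (2 + n) => G (base x) (base v) (base w)) :=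
    (h1.clm_apply contDiff_const).clm_apply contDiff_const
  exact h2.add contDiff_const

/-! ### products of diffeomorphisms -/

/-- the product of a map with the identity -/
def Pr1_map (φ : Vec 2 → Vec 2) (x : Vec (2 + n)) : Vec (2 + n) := ib n (φ (base x)) + fb (fib x)

theorem Pr1_map_base (φ : Vec 2 → Vec 2) (x : Vec (2 + n)) : base (Pr1_map φ x) = φ (base x) := by
  unfold Pr1_map
  rw [base_add, base_ib, base_fb, add_zero]

theorem Pr1_map_fib (φ : Vec 2 → Vec 2) (x : Vec (2 + n)) : fib (Pr1_map φ x) = fib x := by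
  unfold Pr1_map
  rw [fib_add, fib_ib, fib_fb, zero_add]

theorem Pr1_map_comp {φ ψ : Vec 2 → Vec 2} (h : ∀ x, ψ (φ x) = x) (x : Vec (2 + n)) :
    Pr1_map ψ (Pr1_map φ x) = x := by
  show ib n (ψ (base (Pr1_map φ x))) + fb (fib (Pr1_map φ x)) = x
  rw [Pr1_map_base, Pr1_map_fib, h, ib_base_add]

theorem Pr1_map_smooth {φ : Vec 2 → Vec 2} (h : ContDiff ℝ k φ) : ContDiff ℝ k (Pr1_map (n := n) φ) := by
  have h1 : ContDiff ℝ k (fun x : Vec (2 + n) => Pr1_i n (φ (Pr1_b n x))) :=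
    (Pr1_i n).contDiff.comp (h.comp (Pr1_b n).contDiff)
  have h2 : ContDiff ℝ k (fun x : Vec (2 + n) => Pr1_j n (Pr1_f n x)) :=
    (Pr1_j n).contDiff.comp (Pr1_f n).contDiff
  exact h1.add h2

theorem Pr1_map_per {φ : Vec 2 → Vec 2} (h : ∀ (m : Fin 2 → ℤ) x, φ (x + vz m) = φ x + vz m)
    (m : Fin (2 + n) → ℤ) (x : Vec (2 + n)) : Pr1_map φ (x + vz m) = Pr1_map φ x + vz m := by
  unfold Pr1_map
  rw [Pr1_base_vz, Pr1_fib_vz, h, ib_add, fb_add, vz_split m]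
  abel

theorem Pr1_diff {φ ψ : Vec 2 → Vec 2} (h : TDiff k φ ψ) :
    TDiff k (Pr1_map (n := n) φ) (Pr1_map (n := n) ψ) :=
  ⟨Pr1_map_comp h.left, Pr1_map_comp h.right, Pr1_map_smooth h.sφ, Pr1_map_smooth h.sψ,
    Pr1_map_per h.pφ, Pr1_map_per h.pψ⟩

theorem Pr1_map_fderiv {φ : Vec 2 → Vec 2} (h : ContDiff ℝ 1 φ) (x v : Vec (2 + n)) :
    fderiv ℝ (Pr1_map φ) x v = ib n (fderiv ℝ φ (base x) (base v)) + fb (fib v) := by
  have h0 : HasFDerivAt φ (fderiv ℝ φ (base x)) (base x) :=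
    (h.differentiable (by norm_num) _).hasFDerivAt
  have h1 : HasFDerivAt (fun x : Vec (2 + n) => Pr1_i n (φ (Pr1_b n x)))
      ((Pr1_i n).comp ((fderiv ℝ φ (base x)).comp (Pr1_b n))) x :=
    (Pr1_i n).hasFDerivAt.comp x (h0.comp x (Pr1_b n).hasFDerivAt)
  have h2 : HasFDerivAt (fun x : Vec (2 + n) => Pr1_j n (Pr1_f n x)) ((Pr1_j n).comp (Pr1_f n)) x :=
    (Pr1_j n).hasFDerivAt.comp x (Pr1_f n).hasFDerivAt
  have h3 : HasFDerivAt (Pr1_map (n := n) φ) _ x := h1.add h2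
  rw [h3.fderiv]
  rfl

end EscG.U
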