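import Pool.Agent.EscG.Pr1

set_option autoImplicit false

/-!
Project EscG, module Pr2: products of `𝕋²`, with an arbitrary Riemannian metric, and flat tori; final theorem.
-/

noncomputable section

namespace EscG.U

open Filter Topology Set EscF.T EscG.T EscG.X
open scoped ContDiff

variable {n : ℕ} {k : ℕ∞} {g : Vec 2 → Vec 2 → Vec 2 → ℝ} {Q : Vec n → Vec n → ℝ}

/-! ### flat metrics of `𝕋²` -/

/-- a metric of `𝕋²` with constant displacement is the pull-back of a constant metric by a diffeomorphism -/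
theorem Pr2_flat (hk : 2 ≤ k) {g : Vec 2 → Vec 2 →L[ℝ] Vec 2 →L[ℝ] ℝ}
    (hg : ContDiff ℝ k g) (hs : ∀ x, T.IsScalarProduct (g x)) (hp : ∀ (m : Fin 2 → ℤ) x, g (x + vz m) = g x)
    (hconst : ∀ (m : Fin 2 → ℤ) (x y : Vec 2), Pool.Agent.EscG.cdist (fun x v => √(g x v v)) x (x + vz m) =
      Pool.Agent.EscG.cdist (fun x v => √(g x v v)) y (y + vz m)) :
    ∃ (q : Vec 2 →L[ℝ] Vec 2 →L[ℝ] ℝ) (φ ψ : Vec 2 → Vec 2), T.IsScalarProduct q ∧ TDiff k φ ψ ∧
      ∀ x v w, g x v w = q (fderiv ℝ φ x v) (fderiv ℝ φ x w) := by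
  have hk2 : (2 : WithTop ℕ∞) ≤ (k : WithTop ℕ∞) := WithTop.coe_le_coe.2 hk
  have hk1 : (1 : ℕ∞) ≤ k := le_trans (by norm_num) hk
  have hR : Pool.Agent.EscG.IsRiem Ht5_β k g :=
    ⟨hg, fun x => (hs x).1, fun x => (hs x).2, fun i x => by rw [Ht5_β_apply]; exact hp _ x⟩
  have hR2 : Pool.Agent.EscG.IsRiem Ht5_β 2 g := ⟨hg.of_le hk2, hR.symm, hR.pos, hR.per⟩
  obtain ⟨mF, MF, m, hF⟩ := hR2.rev.rfins
  have hall : ∀ β', Pool.Agent.EscG.SameLat Ht5_β β' → ∀ x y,
      _root_.EscG.fd (Pool.Agent.EscG.rn g) x (x + β' 0) =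
        _root_.EscG.fd (Pool.Agent.EscG.rn g) y (y + β' 0) := by
    intro β' hβ x y
    obtain ⟨n, hn⟩ := Ht5_lat hβ
    rw [hn, ← hF.cdist_eq, ← hF.cdist_eq]
    exact hconst n x y
  obtain ⟨q, φ, P, hS⟩ := hR2.hopf hall
  have hφ1 : ContDiff ℝ (k + 1 : ℕ∞) φ := hS.contDiff hk1 hR
  have hφ : ContDiff ℝ k φ := hφ1.of_le (by exact_mod_cast le_self_add)
  obtain ⟨ψ, hl, hr, hψ, hper⟩ := hS.exists_inv hR2 hk1 hφ
  have hT : TDiff k φ ψ := ⟨hl, hr, hφ, hψ, Ht5_per hS.per, Ht5_per hper⟩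
  refine ⟨q, φ, ψ, ⟨hS.symm, hS.pos⟩, hT, fun x v w => ?_⟩
  rw [(hS.hasFDerivAt x).fderiv]
  exact hS.iso x v w

theorem Pr2_flat_case {N : ℕ} (hN : 2 ≤ N) (hk : 2 ≤ k) {G : Vec N → Vec N →L[ℝ] Vec N →L[ℝ] ℝ}
    (hG : ContDiff ℝ 2 G) {q : Vec N →L[ℝ] Vec N →L[ℝ] ℝ} (hq : T.IsScalarProduct q) {φ ψ : Vec N → Vec N}
    (hT : TDiff k φ ψ) (hiso : ∀ x v w, G x v w = q (fderiv ℝ φ x v) (fderiv ℝ φ x w)) (V : Pot N k) :
    {f : Pot N k | HasOrbitToInfinity (addPot (rmech G V) f.toFun)} ∈ residual (Pot N k) := by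
  set L' : Lag N := fun y => 1 * (q y.2.1 y.2.1 / 2) + (hT.symm.pull V).toFun (y.1, y.2.2) with hL'
  have h1 := flat_mech hN hk hq one_pos (hT.symm.pull V) (L := L') (fun x v t => rfl)
  refine mem_of_superset (hT.symm.residual_pull h1) fun f hf => ?_
  exact hT.orbit hk hq hG hiso V f (L' := L') (fun x v t => by simp only [hL']; ring) hf

/-! ### the curved case -/

theorem Pr2_near (hk : 2 ≤ k) (hg : IsRiemannian k g) (hQ : U.IsScalarProduct Q) (V : Pot (2 + n) k) :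
    IsNear (fun x v => prodMetric g Q x v v / 2) (U.mech (prodMetric g Q) V) := by
  have hk2 : (((2 : ℕ∞)) : WithTop ℕ∞) ≤ (k : WithTop ℕ∞) := WithTop.coe_le_coe.2 hk
  have hV : ContDiff ℝ 2 V.toFun := V.contDiff.of_le hk2
  have hR := HFinal_riem hk hg
  set G : Vec (2 + n) → Vec (2 + n) →L[ℝ] Vec (2 + n) →L[ℝ] ℝ :=
    fun x => Pr1_prod (HFinal_G hg (base x)) (toQ Q hQ) with hGdef
  have hGs : ContDiff ℝ 2 G := (Pr1_prod_smooth (HFinal_smooth hg) _).of_le hk2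
  have hGp : ∀ x, T.IsScalarProduct (G x) := fun x => Pr1_prod_scalar (HFinal_scalar hg _) (toQ_scalar hQ)
  have hGe : ∀ x v w, G x v w = prodMetric g Q x v w := fun x v w => rfl
  have hper : ∀ (m : Fin (2 + n) → ℤ) x v, prodMetric g Q (x + vz m) v v = prodMetric g Q x v v := by
    intro m x v
    unfold prodMetric
    rw [Pr1_base_vz, hg.periodic]
  refine ⟨?_, ?_, ?_, ?_, ?_⟩
  · have h2 : ContDiff ℝ 2 (fun q : Vec (2 + n) × Vec (2 + n) × ℝ => G q.1 q.2.1 q.2.1) :=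
      ((hGs.comp contDiff_fst).clm_apply (contDiff_fst.comp contDiff_snd)).clm_apply
        (contDiff_fst.comp contDiff_snd)
    have h3 : ContDiff ℝ 2 (fun q : Vec (2 + n) × Vec (2 + n) × ℝ => V.toFun (q.1, q.2.2)) :=
      hV.comp (contDiff_fst.prodMk (contDiff_snd.comp contDiff_snd))
    exact (h2.div_const 2).add h3
  · intro m l x v t
    show prodMetric g Q (x + vz m) v v / 2 + V.toFun (x + vz m, t + l) = _
    rw [hper, V.periodic]
    rfl
  · obtain ⟨mF, MF, m, hF⟩ := hR.rev.rfins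
    obtain ⟨c1, hc1, hQ1⟩ := O7_low_Q (toQ_scalar hQ)
    refine ⟨min (mF ^ 2) c1, lt_min (pow_pos hF.fins.mF_pos 2) hc1, fun x v t w => ?_⟩
    have h1 : fderiv ℝ (fun u => U.mech (prodMetric g Q) V (x, u, t)) = fun v => G x v := by
      funext v
      exact ((O6_hasFDeriv (hGp x).1 v).add_const (V.toFun (x, t))).fderiv
    rw [iteratedFDeriv_two_apply, h1]
    have h3 : HasFDerivAt (fun v : Vec (2 + n) => G x v) (G x) v := (G x).hasFDerivAt
    rw [h3.fderiv]
    have h4 : mF * ‖base w‖ ≤ Pool.Agent.EscG.rn (HFinal_G hg) (base x) (base w) := hF.fins.low _ _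
    have h5 : (mF * ‖base w‖) ^ 2 ≤ Pool.Agent.EscG.rn (HFinal_G hg) (base x) (base w) ^ 2 :=
      pow_le_pow_left₀ (mul_nonneg hF.fins.mF_pos.le (norm_nonneg _)) h4 2
    rw [hR.sq, mul_pow] at h5
    have h6 := hQ1 (fib w)
    have h7 : min (mF ^ 2) c1 * ‖w‖ ^ 2 ≤ G x w w := by
      rw [norm_sq_base w]
      have e1 : G x w w = HFinal_G hg (base x) (base w) (base w) + toQ Q hQ (fib w) (fib w) := rfl
      rw [e1, mul_add]
      exact add_le_add ((mul_le_mul_of_nonneg_right (min_le_left _ _) (sq_nonneg _)).trans h5)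
        ((mul_le_mul_of_nonneg_right (min_le_right _ _) (sq_nonneg _)).trans h6)
    simpa using h7
  · obtain ⟨C, hC⟩ := O7_bdd V.contDiff.continuous V.periodic
    refine ⟨C, fun x v t => ?_⟩
    have e : U.mech (prodMetric g Q) V (x, v, t) - prodMetric g Q x v v / 2 = V.toFun (x, t) := by
      unfold U.mech
      ring
    rw [e]
    exact hC (x, t)
  · have hd : Continuous fun p : Vec (2 + n) × ℝ => fderiv ℝ V.toFun p (0, 1) :=
      (hV.continuous_fderiv (by norm_num)).clm_apply continuous_const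
    obtain ⟨C, hC⟩ := O7_bdd hd (fun m l x t => by
      have h1 : (fun p : Vec (2 + n) × ℝ => V.toFun (p + (vz m, (l:ℝ)))) = V.toFun := by
        funext p
        exact V.periodic m l p.1 p.2
      have h2 := fderiv_comp_add_right (𝕜 := ℝ) (f := V.toFun) (x := (x, t)) (vz m, (l:ℝ))
      rw [h1] at h2
      rw [h2]
      rfl)
    refine ⟨C, fun x v t => ?_⟩
    have h3 : HasDerivAt (fun s => U.mech (prodMetric g Q) V (x, v, s)) (fderiv ℝ V.toFun (x, t) (0, 1)) t := by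
      have h4 : HasFDerivAt V.toFun (fderiv ℝ V.toFun (x, t)) (x, t) :=
        ((hV.differentiable (by norm_num)) (x, t)).hasFDerivAt
      have h5 : HasDerivAt (fun s : ℝ => (x, s)) ((0 : Vec (2 + n)), (1:ℝ)) t :=
        (hasDerivAt_const t x).prodMk (hasDerivAt_id t)
      exact (h4.comp_hasDerivAt t h5).const_add (prodMetric g Q x v v / 2)
    rw [h3.deriv]
    exact hC (x, t)

theorem Pr2_kinetic (hk : 2 ≤ k) (hg : IsRiemannian k g) :
    U.kinetic (n := n) (fun x v => √(g x v v)) (fun _ => Q) (fun _ _ => 0) =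
      fun x v => prodMetric g Q x v v / 2 := by
  funext x v
  unfold U.kinetic prodMetric
  have h2 : √(g (base x) (base v) (base v)) ^ 2 = g (base x) (base v) (base v) :=
    (HFinal_riem hk hg).sq (base x) (base v)
  rw [h2]
  unfold U.vert
  rw [sub_zero]

theorem Pr2_fibre (hQ : U.IsScalarProduct Q) : U.IsFibreMetric (n := n) (fun _ => Q) :=
  ⟨fun _ _ => continuous_const, fun _ _ => rfl, fun _ => hQ⟩

theorem Pr2_conn : U.IsConnection (n := n) (fun _ _ => 0) :=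
  ⟨fun _ => continuous_const, fun _ _ => rfl, fun _ _ _ => (add_zero 0).symm,
    fun _ _ _ => (smul_zero _).symm⟩

theorem Pr2_mech (hk : 2 ≤ k) (hg : IsRiemannian k g) (hQ : U.IsScalarProduct Q) (V : Pot (2 + n) k) :
    {f : Pot (2 + n) k | HasOrbitToInfinity (addPot (mech (prodMetric g Q) V) f.toFun)} ∈
      residual (Pot (2 + n) k) := by
  have hk2 : (((2 : ℕ∞)) : WithTop ℕ∞) ≤ (k : WithTop ℕ∞) := WithTop.coe_le_coe.2 hk
  by_cases hd : HasNonconstantDisplacement (fun x v => √(g x v v))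
  · have hn : IsNear (U.kinetic (n := n) (fun x v => √(g x v v)) (fun _ => Q) (fun _ _ => 0))
        (U.mech (prodMetric g Q) V) := by
      rw [Pr2_kinetic hk hg]
      exact Pr2_near hk hg hQ V
    exact (result_fins hk (HFinal_fins hk hg) hd (Pr2_fibre hQ) Pr2_conn hn).1
  · unfold HasNonconstantDisplacement at hd
    push Not at hd
    obtain ⟨q, φ, ψ, hq, hT, hiso⟩ := Pr2_flat hk (g := HFinal_G hg) (HFinal_smooth hg) (HFinal_scalar hg)
      (HFinal_per hg) (fun m x y => hd m x y)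
    have hφ1 : ContDiff ℝ 1 φ := hT.sφ.of_le (le_trans (by norm_num) hk2)
    refine Pr2_flat_case (Nat.le_add_right 2 n) hk
      (G := fun x => Pr1_prod (HFinal_G hg (base x)) (toQ Q hQ))
      ((Pr1_prod_smooth (HFinal_smooth hg) _).of_le hk2) (q := Pr1_prod q (toQ Q hQ))
      (Pr1_prod_scalar hq (toQ_scalar hQ)) (Pr1_diff hT) (fun x v w => ?_) V
    rw [Pr1_map_fderiv hφ1, Pr1_map_fderiv hφ1, Pr1_prod_apply, Pr1_prod_apply, base_add, base_add, base_ib,
      base_ib, base_fb, base_fb, add_zero, add_zero, fib_add, fib_add, fib_ib, fib_ib, fib_fb, fib_fb,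
      zero_add, zero_add, hiso]

end EscG.U
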