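import Pool.Agent.EscG.Pr2

set_option autoImplicit false

/-!
Project EscG, module Pr3: products of `𝕋²`, with an arbitrary Riemannian metric, and flat tori; Lagrangians which are
mechanical for large velocities.
-/

noncomputable section

namespace EscG.U

open Filter Topology Set EscF.T EscG.T EscG.X
open scoped ContDiff

variable {n : ℕ} {k : ℕ∞} {g : Vec 2 → Vec 2 → Vec 2 → ℝ} {Q : Vec n → Vec n → ℝ}

/-- an orbit to infinity of `L₀` is, after a large integer time, an orbit of every Lagrangian which is equal to `L₀`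
for large velocities -/
theorem Pr3_shift {N : ℕ} {L0 L : Lag N} (hs : ContDiff ℝ 2 L0)
    (hp : ∀ (l : ℤ) x v t, L0 (x, v, t + l) = L0 (x, v, t))
    {R : ℝ} (hR : ∀ x v t, R ≤ ‖v‖ → L (x, v, t) = L0 (x, v, t)) (h : HasOrbitToInfinity L0) :
    HasOrbitToInfinity L := by
  obtain ⟨x, ⟨hx2, hxo⟩, hxi⟩ := h
  obtain ⟨T0, hT0⟩ := (hxi.eventually (eventually_gt_atTop R)).exists_forall_of_atTop
  obtain ⟨T, hT⟩ := exists_nat_ge T0
  have hbig : ∀ s : ℝ, 0 < s → R < ‖deriv x (s + T)‖ := fun s hs => hT0 _ (by linarith)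
  have hder : ∀ s : ℝ, deriv (fun s => x (s + T)) s = deriv x (s + T) := fun s =>
    deriv_comp_add_const x (T : ℝ) s
  have hpos : ∀ s : ℝ, 0 < s → 0 < s + T := fun s hs => by positivity
  refine ⟨fun s => x (s + T), ⟨?_, fun t ht => ⟨?_, ?_⟩⟩, ?_⟩
  · exact hx2.comp (contDiff_id.add contDiff_const).contDiffOn (fun s hs => hpos s hs)
  · rw [hder]
    have h1 : ∀ᶠ q : Vec N × Vec N × ℝ in 𝓝 (x (t + T), deriv x (t + T), t), L q = L0 q := by
      have h2 : IsOpen {q : Vec N × Vec N × ℝ | R < ‖q.2.1‖} :=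
        isOpen_lt continuous_const (continuous_norm.comp (continuous_fst.comp continuous_snd))
      filter_upwards [h2.mem_nhds (hbig t ht)] with q hq
      exact hR q.1 q.2.1 q.2.2 (le_of_lt hq)
    exact hs.contDiffAt.congr_of_eventuallyEq h1
  · obtain ⟨-, hEL⟩ := hxo (t + T) (hpos t ht)
    have hper : ∀ (z v : Vec N) (s : ℝ), L0 (z, v, s + T) = L0 (z, v, s) := fun z v s => by
      have := hp (T : ℤ) z v s
      simpa using this
    have h1 : HasDerivAt (fun s : ℝ => fderiv ℝ (fun v => L0 (x (s + T), v, s + T)) (deriv x (s + T)))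
        (fderiv ℝ (fun y => L0 (y, deriv x (t + T), t + T)) (x (t + T))) t := by
      have h2 : HasDerivAt (fun s : ℝ => s + T) 1 t := (hasDerivAt_id t).add_const (T : ℝ)
      have h3 := HasDerivAt.scomp t hEL h2
      rw [one_smul] at h3
      exact h3
    have h4 : (fun y => L (y, deriv (fun s => x (s + T)) t, t)) =
        fun y => L0 (y, deriv x (t + T), t + T) := by
      funext y
      rw [hder, hR _ _ _ (hbig t ht).le, hper]
    rw [h4]
    refine h1.congr_of_eventuallyEq ?_
    filter_upwards [Ioi_mem_nhds ht] with s hs0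
    rw [hder]
    have h5 : (fun v => L (x (s + T), v, s)) =ᶠ[𝓝 (deriv x (s + T))]
        fun v => L0 (x (s + T), v, s + T) := by
      have h6 : IsOpen {v : Vec N | R < ‖v‖} := isOpen_lt continuous_const continuous_norm
      filter_upwards [h6.mem_nhds (hbig s hs0)] with v hv
      rw [hR _ _ _ (le_of_lt hv), hper]
    exact h5.fderiv_eq
  · have h1 : Tendsto (fun s : ℝ => s + T) atTop atTop := tendsto_atTop_add_const_right _ _ tendsto_id
    refine (hxi.comp h1).congr fun s => ?_
    rw [hder]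
    rfl

theorem result_product (hk : 2 ≤ k) (hg : IsRiemannian k g) (hQ : U.IsScalarProduct Q) (V : Pot (2 + n) k)
    {L : Lag (2 + n)} (hL : IsMechAtInfinity (prodMetric g Q) V L) :
    {f : Pot (2 + n) k | HasOrbitToInfinity (addPot L f.toFun)} ∈ residual (Pot (2 + n) k) ∧
      Dense {f : Pot (2 + n) k | HasOrbitToInfinity (addPot L f.toFun)} := by
  have := baire (2 + n) k
  refine (fun h => ⟨h, dense_of_mem_residual h⟩) ?_
  refine mem_of_superset (Pr2_mech hk hg hQ V) fun f hf => ?_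
  obtain ⟨R, hR⟩ := hL
  have hk2 : (((2 : ℕ∞)) : WithTop ℕ∞) ≤ (k : WithTop ℕ∞) := WithTop.coe_le_coe.2 hk
  have hn := Pr2_near hk hg hQ V
  have hf2 : ContDiff ℝ 2 (fun q : Vec (2 + n) × Vec (2 + n) × ℝ => f.toFun (q.1, q.2.2)) :=
    (f.contDiff.of_le hk2).comp (contDiff_fst.prodMk (contDiff_snd.comp contDiff_snd))
  refine Pr3_shift (L0 := addPot (mech (prodMetric g Q) V) f.toFun) (hn.smooth.add hf2)
    (fun l x v t => ?_) (R := R) (fun x v t hv => ?_) hf
  · have h1 := hn.periodic 0 l x v t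
    have h2 := f.periodic 0 l x t
    have h3 : vz (0 : Fin (2 + n) → ℤ) = 0 := by
      ext i
      simp [vz]
    rw [h3, add_zero] at h1 h2
    show U.mech (prodMetric g Q) V (x, v, t + l) + f.toFun (x, t + l) = _
    rw [h1, h2]
    rfl
  · show L (x, v, t) + _ = mech (prodMetric g Q) V (x, v, t) + _
    rw [hR x v t hv]

end EscG.U
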