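import Pool.Agent.EscG.HUDefs

/-!
Definitions for the final statement of project EscG about products of `𝕋²`, with an arbitrary Riemannian metric, and
flat tori.
-/

namespace EscG.U

open Filter Topology Set EscF.T EscG.T

variable {n : ℕ}

/-- The product metric on `𝕋² × 𝕋ⁿ` of a metric `g` on `𝕋²` and of the flat metric `Q` on `𝕋ⁿ`. -/
noncomputable def prodMetric (g : Vec 2 → Vec 2 → Vec 2 → ℝ) (Q : Vec n → Vec n → ℝ)
    (x v w : Vec (2 + n)) : ℝ :=
  g (base x) (base v) (base w) + Q (fib v) (fib w)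

/-- For large velocities, `L` is the mechanical Lagrangian of the metric `G` and of the potential `-V`. -/
def IsMechAtInfinity {k : ℕ∞} (G : Vec n → Vec n → Vec n → ℝ) (V : Pot n k) (L : Lag n) : Prop :=
  ∃ R : ℝ, ∀ x v t, R ≤ ‖v‖ → L (x, v, t) = mech G V (x, v, t)

end EscG.U
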