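import Pool.Agent.EscG.ADefs
import Pool.Agent.EscG.GDefs

set_option autoImplicit false

/-!
# EscG geometry: conformal metrics `ρ² |dx|²` on a lattice plane, definitions
-/

noncomputable section

namespace Pool.Agent.EscG

open MeasureTheory Set Filter Topology Esc EscF _root_.EscG

variable {E : Type*} [NormedAddCommGroup E] [InnerProductSpace ℝ E]

/-- a conformal factor of class `C^2`, positive and periodic under the lattice with basis `β` -/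
structure Conf (β : Module.Basis (Fin 2) ℝ E) (ρ : E → ℝ) (mF MF : ℝ) : Prop where
  smooth : ContDiff ℝ 2 ρ
  per : ∀ i x, ρ (x + β i) = ρ x
  mF_pos : 0 < mF
  low : ∀ x, mF ≤ ρ x
  upp : ∀ x, ρ x ≤ MF

/-- energy of the conformal metric -/
def cl (ρ : E → ℝ) (x v : E) (_ : ℝ) : ℝ := ρ x ^ 2 * ‖v‖ ^ 2 / 2

/-- energy distance -/
def ed (ρ : E → ℝ) (x y : E) : ℝ := √(2 * kerl (cl ρ) 0 1 x y)

/-- coordinates with respect to the basis `β` -/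
def co (β : Module.Basis (Fin 2) ℝ E) (x : ℝ × ℝ) : E := x.1 • β 0 + x.2 • β 1

/-- `β'` is another basis of the lattice of `β`, with the same orientation -/
def SameLat (β β' : Module.Basis (Fin 2) ℝ E) : Prop :=
  ∃ p q r s : ℤ, p * s - q * r = 1 ∧ β' 0 = (p : ℝ) • β 0 + (q : ℝ) • β 1 ∧
    β' 1 = (r : ℝ) • β 0 + (s : ℝ) • β 1

/-- `Z` is isometric on `[a,c]` for the energy distance -/
def Iso (ρ : E → ℝ) (Z : ℝ → E) (a c : ℝ) : Prop :=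
  ∀ s ∈ Icc a c, ∀ t ∈ Icc a c, ed ρ (Z s) (Z t) = |s - t|

/-- geodesic equation at unit speed: `ρ |Z'| = 1` and `(ρ² Z')' = ∇ρ / ρ` -/
def Gode [CompleteSpace E] (ρ : E → ℝ) (Z v : ℝ → E) (a c : ℝ) : Prop :=
  ∀ t ∈ Icc a c, HasDerivWithinAt Z (v t) (Icc a c) t ∧ ρ (Z t) * ‖v t‖ = 1 ∧
    HasDerivWithinAt (fun s => ρ (Z s) ^ 2 • v s) ((ρ (Z t))⁻¹ • gradient ρ (Z t)) (Icc a c) t

/-- gap data in the plane `E` with the conformal metric (GH2 of the core) -/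
structure GapE (β : Module.Basis (Fin 2) ℝ E) (ρ : E → ℝ) (B y : E → ℝ) (l a τ : ℝ)
    (c0 c1 : ℝ → E) : Prop where
  l_pos : 0 < l
  cal : ∀ (z : E) (u : ℝ → E), Adm u → ∀ a b : ℝ, a ≤ b →
    B (traj a z u b) - B z ≤ ∫ t in a..b, ρ (traj a z u t) * ‖u t‖
  Bb : ∀ x, B (x + β 0) = B x + l
  Bg : ∀ x, B (x + β 1) = B x + a
  τ_pos : 0 < τ
  τ_le : τ ≤ 1
  yc : Continuous y
  yb : ∀ x, y (x + β 0) = y x
  yg : ∀ x, y (x + β 1) = y x + 1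
  c0_b : ∀ t, c0 (t + l) = c0 t + β 0
  c1_b : ∀ t, c1 (t + l) = c1 t + β 0
  c0_d : ∃ v : ℝ → E, Continuous v ∧ ∀ t, HasDerivAt c0 (v t) t ∧ ρ (c0 t) * ‖v t‖ = 1
  c1_d : ∃ v : ℝ → E, Continuous v ∧ ∀ t, HasDerivAt c1 (v t) t ∧ ρ (c1 t) * ‖v t‖ = 1
  c0_B : ∀ s t, B (c0 t) - B (c0 s) = t - s
  c1_B : ∀ s t, B (c1 t) - B (c1 s) = t - s
  y0 : {x | y x = 0} = range c0
  y1 : {x | y x = τ} = range c1
  strict : ∀ η > 0, ∃ θ > 0, ∀ (z : E) (u : ℝ → E), Adm u → ∀ a b : ℝ, a ≤ b →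
    (∀ t ∈ Icc a b, η ≤ y (traj a z u t) ∧ y (traj a z u t) ≤ τ - η) →
    B (traj a z u b) - B z ≤ (1 - θ) * ∫ t in a..b, ρ (traj a z u t) * ‖u t‖

end Pool.Agent.EscG
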