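import Pool.Agent.EscG.ADefs

/-!
Project EscG: smooth perturbations and norms.
-/

noncomputable section

namespace EscG

open MeasureTheory Set Filter Topology Esc EscF
open scoped ContDiff

variable {E : Type*} [NormedAddCommGroup E] [InnerProductSpace ℝ E] {ι : Type*} [Fintype ι]

/-- a smooth periodic perturbation -/
structure Sm (β : Module.Basis ι ℝ E) (G : E → ℝ → ℝ) : Prop where
  smooth : ContDiff ℝ ∞ (fun p : E × ℝ => G p.1 p.2)
  per : ∀ i x t, G (x + β i) t = G x t
  pert : ∀ x t, G x (t + 1) = G x t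

/-- a norm on smooth perturbations, dominating the sup norm -/
structure SmNorm (β : Module.Basis ι ℝ E) where
  nm : (E → ℝ → ℝ) → ℝ
  sup_le : ∀ G, Sm β G → ∀ x t, |G x t| ≤ nm G
  add_le : ∀ G G', Sm β G → Sm β G' → nm (fun x t => G x t + G' x t) ≤ nm G + nm G'
  smul_le : ∀ (c : ℝ) G, Sm β G → nm (fun x t => c * G x t) ≤ |c| * nm G

end EscG
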