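import Pool.Agent.EscG.TDefs

/-!
Definitions for the final statements of project EscG: metrics on `𝕋² × 𝕋ⁿ` over a metric of `𝕋²`.
-/

namespace EscG.U

open Filter Topology Set EscF.T EscG.T

variable {n : ℕ}

/-- `Q` is a scalar product. -/
structure IsScalarProduct (Q : Vec n → Vec n → ℝ) : Prop where
  symm : ∀ v w, Q v w = Q w v
  add : ∀ v v' w, Q (v + v') w = Q v w + Q v' w
  smul : ∀ (c : ℝ) v w, Q (c • v) w = c * Q v w
  pos : ∀ v, v ≠ 0 → 0 < Q v v

/-- `F(x,v) = ρ(x) |v|`, with `|v|² = Q(v,v)` for a scalar product `Q`, and a positive function `ρ` of class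
`C²` on `𝕋²` that is not constant: the norm of a conformally flat metric that is not flat. -/
def IsNonflatConformal (F : Vec 2 → Vec 2 → ℝ) : Prop :=
  ∃ (Q : Vec 2 → Vec 2 → ℝ) (ρ : Vec 2 → ℝ), IsScalarProduct Q ∧ IsConformalFactor ρ ∧
    (∃ x y, ρ x ≠ ρ y) ∧ ∀ x v, F x v = ρ x * √(Q v v)

/-- A continuous family of scalar products on the fibres of `𝕋² × 𝕋ⁿ → 𝕋²`. -/
structure IsFibreMetric (h : Vec (2 + n) → Vec n → Vec n → ℝ) : Prop where
  cont : ∀ v w, Continuous (fun x => h x v w)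
  periodic : ∀ (m : Fin (2 + n) → ℤ) x, h (x + vz m) = h x
  scalar : ∀ x, IsScalarProduct (h x)

/-- A continuous family of linear maps `A x : ℝ² → ℝⁿ`, `x ∈ 𝕋²`: the graphs of these maps are a field of
horizontal planes on `𝕋² × 𝕋ⁿ`, invariant under the translations of `𝕋ⁿ`. -/
structure IsConnection (A : Vec 2 → Vec 2 → Vec n) : Prop where
  cont : ∀ v, Continuous (fun x => A x v)
  periodic : ∀ (m : Fin 2 → ℤ) x, A (x + vz m) = A x
  add : ∀ x v w, A x (v + w) = A x v + A x w
  smul : ∀ x (c : ℝ) v, A x (c • v) = c • A x v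

/-- The vertical part of a velocity. -/
noncomputable def vert (A : Vec 2 → Vec 2 → Vec n) (x v : Vec (2 + n)) : Vec n :=
  fib v - A (base x) (base v)

/-- The kinetic energy of the metric on `𝕋² × 𝕋ⁿ` which is `h` on the fibres and `F²` on the horizontal
planes, which are orthogonal to the fibres. -/
noncomputable def kinetic (F : Vec 2 → Vec 2 → ℝ) (h : Vec (2 + n) → Vec n → Vec n → ℝ)
    (A : Vec 2 → Vec 2 → Vec n) (x v : Vec (2 + n)) : ℝ :=
  (F (base x) (base v) ^ 2 + h x (vert A x v) (vert A x v)) / 2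

end EscG.U
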