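import Pool.Agent.EscG.XDefs
import Pool.Agent.EscG.AIfc
import Pool.Agent.EscG.OIfc
import Pool.Agent.EscG.CIfc

/-!
INTERFACE of the application of project EscG to `𝕋² × 𝕋ⁿ`. All statements with sorry; every module proves
its statements in its own file (same names, namespace EscG.X). Never import this file in a final module.
-/

noncomputable section

namespace EscG.X

open MeasureTheory Set Filter Topology Esc EscF EscF.T EscG.T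
open scoped ContDiff

variable {n : ℕ} {X : XD n}

/-! ## MODULE X1 (file X1.lean): linear algebra -/

theorem base_add (x x' : Vec (2 + n)) : base (x + x') = base x + base x' := sorry
theorem base_sub (x x' : Vec (2 + n)) : base (x - x') = base x - base x' := sorry
theorem base_smul (c : ℝ) (x : Vec (2 + n)) : base (c • x) = c • base x := sorry
theorem fib_add (x x' : Vec (2 + n)) : fib (x + x') = fib x + fib x' := sorry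
theorem fib_sub (x x' : Vec (2 + n)) : fib (x - x') = fib x - fib x' := sorry
theorem fib_smul (c : ℝ) (x : Vec (2 + n)) : fib (c • x) = c • fib x := sorry
theorem base_ib (x : Vec 2) : base (ib n x) = x := sorry
theorem fib_ib (x : Vec 2) : fib (ib n x) = 0 := sorry
theorem base_fb (x : Vec n) : base (fb x) = 0 := sorry
theorem fib_fb (x : Vec n) : fib (fb x) = x := sorry
theorem ib_base_add (x : Vec (2 + n)) : ib n (base x) + fb (fib x) = x := sorry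
theorem ib_add (x x' : Vec 2) : ib n (x + x') = ib n x + ib n x' := sorry
theorem ib_sub (x x' : Vec 2) : ib n (x - x') = ib n x - ib n x' := sorry
theorem ib_smul (c : ℝ) (x : Vec 2) : ib n (c • x) = c • ib n x := sorry
theorem fb_add (x x' : Vec n) : fb (x + x') = fb x + fb x' := sorry
theorem fb_sub (x x' : Vec n) : fb (x - x') = fb x - fb x' := sorry
theorem fb_smul (c : ℝ) (x : Vec n) : fb (c • x) = c • fb x := sorry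
theorem norm_sq_base (x : Vec (2 + n)) : ‖x‖ ^ 2 = ‖base x‖ ^ 2 + ‖fib x‖ ^ 2 := sorry
theorem norm_base_le (x : Vec (2 + n)) : ‖base x‖ ≤ ‖x‖ := sorry
theorem norm_fib_le (x : Vec (2 + n)) : ‖fib x‖ ≤ ‖x‖ := sorry
theorem norm_ib (x : Vec 2) : ‖ib n x‖ = ‖x‖ := sorry
theorem norm_fb (x : Vec n) : ‖fb x‖ = ‖x‖ := sorry
theorem continuous_base : Continuous (base : Vec (2 + n) → Vec 2) := sorry
theorem continuous_fib : Continuous (fib : Vec (2 + n) → Vec n) := sorry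
theorem continuous_ib : Continuous (ib n) := sorry
theorem continuous_fb : Continuous (fb : Vec n → Vec (2 + n)) := sorry
theorem adm_base {u : ℝ → Vec (2 + n)} (hu : Adm u) : Adm (fun t => base (u t)) := sorry
theorem base_traj {u : ℝ → Vec (2 + n)} (hu : Adm u) (a : ℝ) (z : Vec (2 + n)) (t : ℝ) :
    base (traj a z u t) = traj a (base z) (fun s => base (u s)) t := sorry
theorem vz_split (m : Fin (2 + n) → ℤ) : vz m =
    ib n (vz fun i => m (Fin.castAdd n i)) + fb (vz fun j => m (Fin.natAdd 2 j)) := sorry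
theorem gd_lv (m : Fin (1 + n) → ℤ) : lv X.gd.b m =
    ib n ((m (Fin.castAdd n 0) : ℝ) • X.bv) + fb (vz fun j => m (Fin.natAdd 1 j)) := sorry
theorem gd_InJ (v : Vec (2 + n)) : X.gd.InJ v ↔
    ∃ (p : ℤ) (m : Fin n → ℤ), v = ib n ((p : ℝ) • X.bv) + fb (vz m) := sorry
theorem XD.Ok.mem_Lam (h : X.Ok) (v : Vec (2 + n)) : v ∈ X.gd.Lam ↔
    ∃ (p q : ℤ) (m : Fin n → ℤ), v = ib n ((p : ℝ) • X.bv + (q : ℝ) • X.gv) + fb (vz m) := sorry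
/-- the lattice basis on the product -/
theorem exists_beta {bv gv : Vec 2} (hz : ZB bv gv) (n : ℕ) :
    ∃ β : Module.Basis (Fin (2 + n)) ℝ (Vec (2 + n)), β (Fin.castAdd n 0) = ib n bv ∧
      β (Fin.castAdd n 1) = ib n gv ∧ (∀ j : Fin n, β (Fin.natAdd 2 j) = fb (EuclideanSpace.single j (1:ℝ))) ∧
      IsLatBasis (ContinuousLinearEquiv.refl ℝ (Vec (2 + n))) β := sorry

/-! ## MODULE X2 (file X2.lean): elementary hypotheses, height, zone -/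

theorem XD.Ok.pre (h : X.Ok) : X.gd.Pre := sorry
theorem XD.Ok.Y_cont (h : X.Ok) : Continuous X.Y := sorry
theorem XD.Ok.Y_lv (h : X.Ok) (x : Vec (2 + n)) (m : Fin (1 + n) → ℤ) : X.Y (x + lv X.gd.b m) = X.Y x :=
  sorry
theorem XD.Ok.Y_g (h : X.Ok) (x : Vec (2 + n)) (k : ℤ) : X.Y (x + (k : ℝ) • X.gd.g) = X.Y x + k := sorry
/-- the height of a lattice vector -/
theorem XD.Ok.Y_Lam (h : X.Ok) {v : Vec (2 + n)} (hv : v ∈ X.gd.Lam) : ∃ (k : ℤ) (m : Fin (1 + n) → ℤ),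
    v = (k : ℝ) • X.gd.g + lv X.gd.b m ∧ ∀ x, X.Y (x + v) = X.Y x + k := sorry
theorem XD.Ok.Y_uc (h : X.Ok) {ε : ℝ} (hε : 0 < ε) : ∃ δ : ℝ, 0 < δ ∧ ∀ x x' : Vec (2 + n),
    ‖x' - x‖ ≤ δ → |X.Y x' - X.Y x| < ε := sorry
theorem XD.Ok.y_uc (h : X.Ok) {ε : ℝ} (hε : 0 < ε) : ∃ δ : ℝ, 0 < δ ∧ ∀ x x' : Vec 2,
    ‖x' - x‖ ≤ δ → |X.y x' - X.y x| < ε := sorry
/-- bounded heights are bounded modulo the fast lattice -/
theorem XD.Ok.Y_X (h : X.Ok) (C : ℝ) : ∃ ρ : ℝ, ∀ x, |X.Y x| ≤ C → x ∈ X.gd.X ρ := sorry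
theorem XD.Ok.g_mem (h : X.Ok) : X.gd.g ∈ X.gd.Lam := sorry
theorem XD.Ok.g_not (h : X.Ok) : ¬ X.gd.InJ X.gd.g := sorry
theorem XD.Ok.Z_closed (h : X.Ok) : IsClosed X.gd.Z := sorry
theorem XD.Ok.Z_J (h : X.Ok) (m : Fin (1 + n) → ℤ) (x : Vec (2 + n)) (hx : x ∈ X.gd.Z) :
    x + lv X.gd.b m ∈ X.gd.Z := sorry
theorem XD.Ok.Z_cpt (h : X.Ok) : ∃ ρ : ℝ, X.gd.Z ⊆ X.gd.X ρ := sorry
theorem XD.Ok.Z_disj (h : X.Ok) (v : Vec (2 + n)) (hv : v ∈ X.gd.Lam) (hvJ : ¬ X.gd.InJ v)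
    (x : Vec (2 + n)) (hx : x ∈ X.gd.Z) : x + v ∉ X.gd.Z := sorry
theorem XD.Ok.Y_q0 (h : X.Ok) : X.Y X.gd.q0 = 0 := sorry
theorem XD.Ok.Y_q1 (h : X.Ok) : X.Y X.gd.q1 = X.τ - 1 := sorry
/-- frontier of the zone -/
theorem XD.Ok.frontier_Z (h : X.Ok) {z : Vec (2 + n)} (hz : z ∈ frontier X.gd.Z) :
    X.Y z = 0 ∨ X.Y z = X.τ - 1 := sorry

/-! ## MODULE X3 (file X3.lean): the anchors -/

/-- drift along an anchor curve and along the fibre has no cost -/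
theorem XD.Ok.drift (h : X.Ok) {c : ℝ → Vec 2} (hc : Anch X.F2 X.bv X.B X.l c) (s t : ℝ) (w w' : Vec n) :
    X.gd.j (ib n (c s) + fb w) (ib n (c t) + fb w') = 0 := sorry
theorem XD.Ok.anc0 (h : X.Ok) : X.gd.Anc X.gd.q0 := sorry
theorem XD.Ok.anc1 (h : X.Ok) : X.gd.Anc X.gd.q1 := sorry
theorem XD.Ok.zero0 (h : X.Ok) {x : Vec (2 + n)} (hx : X.Y x = 0) :
    X.gd.j x X.gd.q0 = 0 ∧ X.gd.j X.gd.q0 x = 0 := sorry
theorem XD.Ok.zero1 (h : X.Ok) {x : Vec (2 + n)} (hx : X.Y x = X.τ - 1) :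
    X.gd.j x X.gd.q1 = 0 ∧ X.gd.j X.gd.q1 x = 0 := sorry

/-! ## MODULE X4 (file X4.lean): passing of the levels of the anchors -/

theorem XD.Ok.pass0 (h : X.Ok) (k : ℤ) {x x' : Vec (2 + n)}
    (hx : (X.Y x ≤ k ∧ k ≤ X.Y x') ∨ (X.Y x' ≤ k ∧ k ≤ X.Y x)) :
    X.gd.j x x' = X.gd.j x (X.gd.q0 + (k : ℝ) • X.gd.g) + X.gd.j (X.gd.q0 + (k : ℝ) • X.gd.g) x' := sorry
theorem XD.Ok.pass1 (h : X.Ok) (k : ℤ) {x x' : Vec (2 + n)}
    (hx : (X.Y x ≤ k + X.τ - 1 ∧ k + X.τ - 1 ≤ X.Y x') ∨ (X.Y x' ≤ k + X.τ - 1 ∧ k + X.τ - 1 ≤ X.Y x)) :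
    X.gd.j x x' = X.gd.j x (X.gd.q1 + (k : ℝ) • X.gd.g) + X.gd.j (X.gd.q1 + (k : ℝ) • X.gd.g) x' := sorry

/-! ## MODULE X5 (file X5.lean): crossing a part of the gap costs -/

theorem XD.Ok.cross (h : X.Ok) {η : ℝ} (hη : 0 < η) : ∃ e : ℝ, 0 < e ∧ ∀ (k : ℤ) (x x' : Vec (2 + n)),
    (X.Y x ≤ k ∧ k + η ≤ X.Y x') ∨ (X.Y x' ≤ k ∧ k + η ≤ X.Y x) ∨
    (X.Y x ≤ k + X.τ - η ∧ k + X.τ ≤ X.Y x') ∨ (X.Y x' ≤ k + X.τ - η ∧ k + X.τ ≤ X.Y x) →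
    e ≤ X.gd.j x x' := sorry

/-! ## MODULE X6 (file X6.lean): distance and height, strictness -/

theorem XD.Ok.dist_Y (h : X.Ok) {η : ℝ} (hη : 0 < η) : ∃ η' : ℝ, 0 < η' ∧ ∀ w : Vec (2 + n),
    η ≤ Metric.infDist w X.gd.Z → η' ≤ X.Y w ∨ X.Y w ≤ X.τ - 1 - η' := sorry
theorem XD.Ok.Out_Y (h : X.Ok) {η : ℝ} (hη : 0 < η) : ∃ η' : ℝ, 0 < η' ∧ ∀ w ∈ X.gd.Out η,
    ∃ k : ℤ, k + η' ≤ X.Y w ∧ X.Y w ≤ k + X.τ - η' := sorry
theorem XD.Ok.strict (h : X.Ok) : ∀ η : ℝ, 0 < η → ∃ θ : ℝ, 0 < θ ∧ θ ≤ 1 ∧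
    ∀ (z : Vec (2 + n)) (u : ℝ → Vec (2 + n)), Adm u → ∀ a b' : ℝ, a ≤ b' →
      (∀ t ∈ Icc a b', traj a z u t ∈ X.gd.Out η) →
      X.gd.B (traj a z u b') - X.gd.B z ≤ (1 - θ) * ∫ t in a..b', X.gd.F (traj a z u t) (u t) := sorry

/-! ## MODULE X7 (file X7.lean): round trips and gates -/

theorem XD.Ok.rt (h : X.Ok) : ∀ η : ℝ, 0 < η → ∃ e : ℝ, 0 < e ∧ ∀ w, η ≤ Metric.infDist w X.gd.Z →
    ∀ p ∈ X.gd.P0, ∀ p' ∈ X.gd.P0, X.gd.j p p' + e ≤ X.gd.j p w + X.gd.j w p' := sorry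
theorem XD.Ok.gate (h : X.Ok) : ∀ η : ℝ, 0 < η → ∃ e : ℝ, 0 < e ∧ ∀ w ∈ X.gd.Mg η e, X.gd.Gt η e w := sorry
theorem XD.Ok.ok (h : X.Ok) : X.gd.Ok := sorry

/-! ## MODULE X8 (file X8.lean): the metric -/

theorem kinetic_nonneg {Q : Vec 2 →L[ℝ] Vec 2 →L[ℝ] ℝ} (hQ : IsScalarProduct Q) (ρ : Vec 2 → ℝ)
    {h : Vec (2 + n) → Vec n →L[ℝ] Vec n →L[ℝ] ℝ} (hh : IsFibreMetric h) (A : Vec 2 → Vec 2 →L[ℝ] Vec n)
    (x v : Vec (2 + n)) : 0 ≤ kinetic Q ρ h A x v := sorry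
theorem kinetic_finsler {Q : Vec 2 →L[ℝ] Vec 2 →L[ℝ] ℝ} (hQ : IsScalarProduct Q) {ρ : Vec 2 → ℝ}
    (hρ : IsConformalFactor ρ) {h : Vec (2 + n) → Vec n →L[ℝ] Vec n →L[ℝ] ℝ} (hh : IsFibreMetric h)
    {A : Vec 2 → Vec 2 →L[ℝ] Vec n} (hA : IsConnection A) :
    IsFinsler (fun x v => √(2 * kinetic Q ρ h A x v)) := sorry
/-- bound of the fibre metric -/
theorem exists_Cf {h : Vec (2 + n) → Vec n →L[ℝ] Vec n →L[ℝ] ℝ} (hh : IsFibreMetric h) :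
    ∃ C : ℝ, ∀ x w, h x w w ≤ C * ‖w‖ ^ 2 := sorry

/-! ## MODULE X9 (file X9.lean): from the gap in `A ℤ²` to the gap data `Gap2` -/

theorem exists_gap2 {Q : Vec 2 →L[ℝ] Vec 2 →L[ℝ] ℝ} (hQ : IsScalarProduct Q) {ρ : Vec 2 → ℝ}
    (hρ : IsConformalFactor ρ) (hne : ∃ x y, ρ x ≠ ρ y) :
    ∃ (bv gv : Vec 2) (B y : Vec 2 → ℝ) (l a τ : ℝ) (c0 c1 : ℝ → Vec 2), ZB bv gv ∧
      Gap2 (fun x v => ρ x * √(Q v v)) bv gv B y l a τ c0 c1 := sorry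

/-! ## MODULE X10 (file X10.lean): data from the metric -/

theorem exists_xd {Q : Vec 2 →L[ℝ] Vec 2 →L[ℝ] ℝ} (hQ : IsScalarProduct Q) {ρ : Vec 2 → ℝ}
    (hρ : IsConformalFactor ρ) (hne : ∃ x y, ρ x ≠ ρ y)
    {h : Vec (2 + n) → Vec n →L[ℝ] Vec n →L[ℝ] ℝ} (hh : IsFibreMetric h)
    {A : Vec 2 → Vec 2 →L[ℝ] Vec n} (hA : IsConnection A) {mF MF : ℝ}
    (hF : ∀ β, IsLatBasis (ContinuousLinearEquiv.refl ℝ (Vec (2 + n))) β →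
      Fins β (fun x v => √(2 * kinetic Q ρ h A x v)) mF MF) :
    ∃ X : XD n, X.Ok ∧ IsLatBasis (ContinuousLinearEquiv.refl ℝ (Vec (2 + n))) X.β ∧
      X.F = (fun x v => √(2 * kinetic Q ρ h A x v)) ∧ X.mF = mF ∧ X.MF = MF := sorry

end EscG.X
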